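import Pool.Agent.helper24_UT.Stm15
import Pool.Agent.H560R3.GB.Defs

/-!
# Project UT (helper24), part 16: the singular series of the binary Goldbach problem. Statements.
-/

set_option autoImplicit false

namespace Pool.Agent.helper24_UT

open Finset

/-- (170) the two forms of the singular series of the binary Goldbach problem -/
def S_GSS : Prop := ∀ n : ℕ, 2 ≤ n → 2 ∣ n → sers sG (hG n) = Pool.Agent.H560R3.GB.sing n

/-- (171) the expected number of representations up to the singular series -/
def S_GSU : Prop := ∀ δ : ℝ, 0 < δ → ∃ n₀ : ℕ, ∀ n : ℕ, n₀ ≤ n →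
  |expG n n - n / Real.log n ^ 2| ≤ δ * (n / Real.log n ^ 2)

end Pool.Agent.helper24_UT
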