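/-
UT_GSS (project UT of helper24), proved by helper751: the singular series of the two forms t, n - t is the Hardy-Littlewood
singular series of the binary Goldbach problem. Partial products over the primes up to z >= n are compared.
-/
import Pool.Agent.helper24_UT.Slb
import Pool.Agent.helper24_UT.Stm16

set_option autoImplicit false

namespace Pool.Agent.helper24_UT.Gss

open Finset
open Pool.Agent.helper24_UT

/-- the classes in which one of the forms `t`, `n - t` vanishes -/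
lemma filter_eq (n : ℕ) {p : ℕ} (hp : p.Prime) [DecidablePred fun t : ℕ => ∃ i, (p : ℤ) ∣ sG i * t + hG n i] :
    ((range p).filter (fun t : ℕ => ∃ i, (p : ℤ) ∣ sG i * t + hG n i)) = {0, n % p} := by
  ext t
  simp only [mem_filter, mem_range, mem_insert, mem_singleton, Fin.exists_fin_two]
  have e0 : sG 0 * (t : ℤ) + hG n 0 = (t : ℤ) := by simp [sG, hG]
  have e1 : sG 1 * (t : ℤ) + hG n 1 = (n : ℤ) - t := by
    have h1 : sG 1 = -1 := rfl
    have h2 : hG n 1 = (n : ℤ) := rfl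
    rw [h1, h2]; ring
  rw [e0, e1]
  constructor
  · rintro ⟨ht, h | h⟩
    · left
      have h' : p ∣ t := by exact_mod_cast h
      exact Nat.eq_zero_of_dvd_of_lt h' ht
    · right
      have h' : (t : ℤ) ≡ n [ZMOD p] := (Int.modEq_iff_dvd).2 h
      have h'' : t ≡ n [MOD p] := by exact_mod_cast h'
      have h3 : t % p = n % p := h''
      rwa [Nat.mod_eq_of_lt ht] at h3
  · rintro (h | h)
    · subst h
      exact ⟨hp.pos, Or.inl (by simp)⟩
    · subst h
      refine ⟨Nat.mod_lt _ hp.pos, Or.inr ?_⟩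
      have h2 : (n % p : ℕ) ≡ n [MOD p] := Nat.mod_modEq n p
      have h3 : ((n % p : ℕ) : ℤ) ≡ n [ZMOD p] := by exact_mod_cast h2
      exact (Int.modEq_iff_dvd).1 h3

lemma nuf_dvd {n p : ℕ} (hp : p.Prime) (h : p ∣ n) : nuf sG (hG n) p = 1 := by
  unfold nuf
  rw [filter_eq n hp, Nat.mod_eq_zero_of_dvd h]
  simp

lemma nuf_ndvd {n p : ℕ} (hp : p.Prime) (h : ¬ p ∣ n) : nuf sG (hG n) p = 2 := by
  unfold nuf
  rw [filter_eq n hp]
  have h1 : n % p ≠ 0 := fun h2 => h (Nat.dvd_of_mod_eq_zero h2)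
  rw [card_insert_of_notMem (by simpa using h1.symm), card_singleton]

/-- the factors of the singular series -/
noncomputable def a (n p : ℕ) : ℝ := (1 - (nuf sG (hG n) p : ℝ) / (p : ℝ)) / (1 - 1 / (p : ℝ)) ^ 2

/-- the factors of the twin prime constant -/
noncomputable def b (p : ℕ) : ℝ := 1 - 1 / ((p : ℝ) - 1) ^ 2

/-- the other factors -/
noncomputable def c (n p : ℕ) : ℝ := if p ∣ n then ((p : ℝ) - 1) / ((p : ℝ) - 2) else 1

lemma a_two {n : ℕ} (h : 2 ∣ n) : a n 2 = 2 := by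
  unfold a
  rw [nuf_dvd Nat.prime_two h]
  norm_num

lemma a_eq {n p : ℕ} (hp : p.Prime) (h3 : 3 ≤ p) : a n p = b p * c n p := by
  have h3' : (3 : ℝ) ≤ p := by exact_mod_cast h3
  have hp0 : (p : ℝ) ≠ 0 := by linarith
  have hp1 : (p : ℝ) - 1 ≠ 0 := by linarith
  have hp2 : (p : ℝ) - 2 ≠ 0 := by linarith
  unfold a b c
  split_ifs with h
  · rw [nuf_dvd hp h]
    have : (1 : ℝ) - 1 / p = (p - 1) / p := by field_simp
    rw [Nat.cast_one, this]
    field_simp
    ring
  · rw [nuf_ndvd hp h]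
    have : (1 : ℝ) - 1 / p = (p - 1) / p := by field_simp
    rw [Nat.cast_ofNat, this]
    field_simp
    ring

lemma b_nonneg {p : ℕ} (h3 : 3 ≤ p) : 0 ≤ b p ∧ b p ≤ 1 := by
  have h3' : (3 : ℝ) ≤ p := by exact_mod_cast h3
  unfold b
  have h1 : (1 : ℝ) ≤ ((p : ℝ) - 1) ^ 2 := by nlinarith
  have h2 : 1 / ((p : ℝ) - 1) ^ 2 ≤ 1 := by
    rw [div_le_one (by linarith)]
    exact h1
  have h4 : 0 ≤ 1 / ((p : ℝ) - 1) ^ 2 := by positivity
  constructor <;> linarith

/-- partial products of the twin prime constant -/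
noncomputable def G (z : ℕ) : ℝ := ∏ p ∈ (Icc 3 z).filter Nat.Prime, b p

lemma G_nonneg (z : ℕ) : 0 ≤ G z :=
  prod_nonneg fun p hp => (b_nonneg (mem_Icc.1 (mem_filter.1 hp).1).1).1

lemma G_anti : Antitone G := by
  apply antitone_nat_of_succ_le
  intro z
  have hsub : (Icc 3 z).filter Nat.Prime ⊆ (Icc 3 (z + 1)).filter Nat.Prime := by
    apply filter_subset_filter
    exact Icc_subset_Icc_right (Nat.le_succ z)
  unfold G
  rw [← prod_sdiff hsub]
  have h1 : ∏ p ∈ (Icc 3 (z + 1)).filter Nat.Prime \ (Icc 3 z).filter Nat.Prime, b p ≤ 1 := by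
    apply prod_le_one
    · intro p hp
      exact (b_nonneg (mem_Icc.1 (mem_filter.1 (mem_sdiff.1 hp).1).1).1).1
    · intro p hp
      exact (b_nonneg (mem_Icc.1 (mem_filter.1 (mem_sdiff.1 hp).1).1).1).2
  exact mul_le_of_le_one_left (G_nonneg z) h1

lemma G_tendsto : Filter.Tendsto G Filter.atTop (nhds Pool.Agent.H560R3.GB.C₂) := by
  have h : Pool.Agent.H560R3.GB.C₂ = ⨅ z, G z := rfl
  rw [h]
  exact tendsto_atTop_ciInf G_anti ⟨0, by rintro _ ⟨z, rfl⟩; exact G_nonneg z⟩

lemma prod_c {n z : ℕ} (hn : 2 ≤ n) (hz : n ≤ z) : ∏ p ∈ (Icc 3 z).filter Nat.Prime, c n p =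
    ∏ p ∈ n.primeFactors.filter (fun p => 2 < p), ((p : ℝ) - 1) / ((p : ℝ) - 2) := by
  have hsub : n.primeFactors.filter (fun p => 2 < p) ⊆ (Icc 3 z).filter Nat.Prime := by
    intro p hp
    rw [mem_filter, Nat.mem_primeFactors] at hp
    rw [mem_filter, mem_Icc]
    exact ⟨⟨hp.2, (Nat.le_of_dvd (by omega) hp.1.2.1).trans hz⟩, hp.1.1⟩
  rw [← prod_subset hsub]
  · apply prod_congr rfl
    intro p hp
    rw [mem_filter, Nat.mem_primeFactors] at hp
    unfold c
    rw [if_pos hp.1.2.1]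
  · intro p hp hp2
    unfold c
    rw [if_neg]
    intro h
    apply hp2
    rw [mem_filter, mem_Icc] at hp
    rw [mem_filter, Nat.mem_primeFactors]
    exact ⟨⟨hp.2, h, by omega⟩, by omega⟩

lemma prod_a {n z : ℕ} (hn : 2 ≤ n) (h2 : 2 ∣ n) (hz : n ≤ z) :
    ∏ p ∈ (range (z + 1)).filter Nat.Prime, a n p =
      2 * G z * ∏ p ∈ n.primeFactors.filter (fun p => 2 < p), ((p : ℝ) - 1) / ((p : ℝ) - 2) := by
  have h1 : (range (z + 1)).filter Nat.Prime = insert 2 ((Icc 3 z).filter Nat.Prime) := by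
    ext p
    simp only [mem_filter, mem_range, mem_insert, mem_Icc]
    constructor
    · rintro ⟨h3, h4⟩
      have := h4.two_le
      by_cases h5 : p = 2
      · exact Or.inl h5
      · exact Or.inr ⟨⟨by omega, by omega⟩, h4⟩
    · rintro (h3 | h3)
      · subst h3; exact ⟨by omega, Nat.prime_two⟩
      · exact ⟨by omega, h3.2⟩
  rw [h1, prod_insert (by simp), a_two h2, ← prod_c hn hz]
  unfold G
  rw [mul_assoc, ← prod_mul_distrib]
  congr 1
  apply prod_congr rfl
  intro p hp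
  rw [mem_filter, mem_Icc] at hp
  exact a_eq hp.2 hp.1.1

lemma S_tendsto : Filter.Tendsto (fun z : ℕ => (range (z + 1)).subtype Nat.Prime) Filter.atTop Filter.atTop := by
  apply Filter.tendsto_atTop_finset_of_monotone
  · intro z w hzw
    apply subtype_mono
    exact range_mono (by omega)
  · intro p
    exact ⟨p.1, by rw [mem_subtype, mem_range]; omega⟩

theorem main : S_GSS := by
  intro n hn h2
  obtain ⟨_, _, hS⟩ := Pool.Agent.helper24_UT.Slb.main 2
  have hm := (hS sG (hG n) (by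
    intro i
    fin_cases i
    · left; rfl
    · right; rfl) (by
    intro i j hij
    fin_cases i <;> fin_cases j
    · exact absurd rfl hij
    · simp [sG, hG]; omega
    · simp [sG, hG]; omega
    · exact absurd rfl hij)).1
  have h3 := hm.hasProd
  have h4 := h3.comp S_tendsto
  have h5 : ∀ᶠ z in Filter.atTop, ((fun s : Finset Nat.Primes => ∏ p ∈ s,
      (1 - (nuf sG (hG n) p : ℝ) / ((p : ℕ) : ℝ)) / (1 - 1 / ((p : ℕ) : ℝ)) ^ 2) ∘
      fun z : ℕ => (range (z + 1)).subtype Nat.Prime) z =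
      2 * G z * ∏ p ∈ n.primeFactors.filter (fun p => 2 < p), ((p : ℝ) - 1) / ((p : ℝ) - 2) := by
    filter_upwards [Filter.eventually_ge_atTop n] with z hz
    rw [← prod_a hn h2 hz]
    exact prod_subtype_eq_prod_filter (s := range (z + 1)) (p := Nat.Prime) (a n)
  have h6 := (((G_tendsto.const_mul 2).mul_const
    (∏ p ∈ n.primeFactors.filter (fun p => 2 < p), ((p : ℝ) - 1) / ((p : ℝ) - 2))).congr'
      (h5.mono fun z hz => hz.symm))
  exact tendsto_nhds_unique h4 h6

end Pool.Agent.helper24_UT.Gss
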