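/-
UT_GSU (project UT of helper24), proved by helper751: the sum of 1 / (log m log (n - m)) is asymptotic to n / (log n)^2.
-/
import Pool.Agent.helper24_UT.Stm16

set_option autoImplicit false

namespace Pool.Agent.helper24_UT.Gsu

open Finset
open Pool.Agent.helper24_UT

lemma small_ev (δ η : ℝ) (hδ : 0 < δ) (hη : 0 < η) (hη1 : η < 1) :
    ∀ᶠ n : ℕ in Filter.atTop, (6 * (n : ℝ) ^ (1 - η) + 6) * Real.log n ^ 2 ≤ δ / 2 * n := by
  have hc : 0 < Real.sqrt (δ / 24) := Real.sqrt_pos.2 (by positivity)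
  have h := (isLittleO_log_rpow_atTop (r := η / 2) (by positivity)).bound hc
  have h2 := tendsto_natCast_atTop_atTop (R := ℝ) |>.eventually h
  filter_upwards [h2, Filter.eventually_ge_atTop 1] with n hn h1
  have h1' : (1 : ℝ) ≤ n := by exact_mod_cast h1
  have hn0 : (0 : ℝ) < n := by linarith
  rw [Real.norm_eq_abs, Real.norm_eq_abs, abs_of_nonneg (Real.log_nonneg h1'),
    abs_of_pos (Real.rpow_pos_of_pos hn0 _)] at hn
  have h3 : Real.log n ^ 2 ≤ δ / 24 * (n : ℝ) ^ η := by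
    have h4 := pow_le_pow_left₀ (Real.log_nonneg h1') hn 2
    rw [mul_pow, Real.sq_sqrt (by positivity), ← Real.rpow_natCast ((n : ℝ) ^ (η / 2)) 2,
      ← Real.rpow_mul hn0.le] at h4
    have e : η / 2 * ((2 : ℕ) : ℝ) = η := by push_cast; ring
    rwa [e] at h4
  have h5 : (1 : ℝ) ≤ (n : ℝ) ^ (1 - η) := Real.one_le_rpow h1' (by linarith)
  have h6 : (n : ℝ) ^ (1 - η) * (n : ℝ) ^ η = n := by
    rw [← Real.rpow_add hn0]
    simp
  have h7 : 0 ≤ (n : ℝ) ^ η := (Real.rpow_pos_of_pos hn0 _).le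
  calc (6 * (n : ℝ) ^ (1 - η) + 6) * Real.log n ^ 2
      ≤ (12 * (n : ℝ) ^ (1 - η)) * (δ / 24 * (n : ℝ) ^ η) := by
        apply mul_le_mul _ h3 (sq_nonneg _) (by linarith)
        linarith
    _ = δ / 2 * ((n : ℝ) ^ (1 - η) * (n : ℝ) ^ η) := by ring
    _ = δ / 2 * n := by rw [h6]

/-- a bound for each term -/
lemma term_le {n m : ℕ} {T M : ℝ} (hM : 0 < M) (hT : M ≤ Real.log T) (hT0 : 0 < T) (hm : 2 ≤ m) (hm2 : m + 2 ≤ n) :
    1 / (Real.log m * Real.log ((n - m : ℕ) : ℝ)) ≤ 1 / M ^ 2 + 3 * (if (m : ℝ) < T then 1 else 0) +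
      3 * (if ((n - m : ℕ) : ℝ) < T then 1 else 0) := by
  have l2 : (0.69 : ℝ) < Real.log 2 := by
    have := Real.log_two_gt_d9
    linarith
  have hm' : (2 : ℝ) ≤ m := by exact_mod_cast hm
  have hnm' : (2 : ℝ) ≤ ((n - m : ℕ) : ℝ) := by
    have : 2 ≤ n - m := by omega
    exact_mod_cast this
  have a1 : Real.log 2 ≤ Real.log m := Real.log_le_log (by norm_num) hm'
  have a2 : Real.log 2 ≤ Real.log ((n - m : ℕ) : ℝ) := Real.log_le_log (by norm_num) hnm'
  have hle3 : 1 / (Real.log m * Real.log ((n - m : ℕ) : ℝ)) ≤ 3 := by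
    have h1 : (1 / 3 : ℝ) ≤ Real.log m * Real.log ((n - m : ℕ) : ℝ) := by nlinarith
    rw [div_le_iff₀ (by linarith)]
    linarith
  have hM2 : 0 ≤ 1 / M ^ 2 := by positivity
  split_ifs with h1 h2 h2
  · linarith
  · linarith
  · linarith
  · push Not at h1 h2
    have b1 : M ≤ Real.log m := hT.trans (Real.log_le_log hT0 h1)
    have b2 : M ≤ Real.log ((n - m : ℕ) : ℝ) := hT.trans (Real.log_le_log hT0 h2)
    have b3 : M ^ 2 ≤ Real.log m * Real.log ((n - m : ℕ) : ℝ) := by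
      rw [sq]
      exact mul_le_mul b1 b2 hM.le (hM.le.trans b1)
    have := one_div_le_one_div_of_le (by positivity) b3
    linarith

lemma count_le (s : Finset ℕ) {T : ℝ} (hT : 0 ≤ T) : ∑ m ∈ s, (if (m : ℝ) < T then (1 : ℝ) else 0) ≤ T + 1 := by
  rw [← sum_filter, sum_const, nsmul_eq_mul, mul_one]
  have h1 : s.filter (fun m : ℕ => (m : ℝ) < T) ⊆ range ⌈T⌉₊ := by
    intro m hm
    rw [mem_filter] at hm
    rw [mem_range]
    exact Nat.lt_ceil.2 hm.2
  have h2 := card_le_card h1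
  rw [card_range] at h2
  have h3 : ((s.filter (fun m : ℕ => (m : ℝ) < T)).card : ℝ) ≤ (⌈T⌉₊ : ℝ) := by exact_mod_cast h2
  have h4 := Nat.ceil_lt_add_one hT
  linarith

theorem main : S_GSU := by
  intro δ hδ
  -- choice of `η`
  obtain ⟨η, hη, hη1, hη2⟩ : ∃ η : ℝ, 0 < η ∧ η < 1 ∧ 1 ≤ (1 + δ / 2) * (1 - η) ^ 2 := by
    refine ⟨δ / (4 * (1 + δ)), by positivity, ?_, ?_⟩
    · rw [div_lt_one (by positivity)]
      linarith
    · set η := δ / (4 * (1 + δ)) with hη
      have h1 : η * (4 * (1 + δ)) = δ := by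
        rw [hη]; field_simp
      have h2 : 0 < η := by positivity
      have h3 : (1 - η) ^ 2 ≥ 1 - 2 * η := by nlinarith [sq_nonneg η]
      have h4 : (1 + δ / 2) * (1 - 2 * η) ≥ 1 := by nlinarith
      nlinarith
  have hev := small_ev δ η hδ hη hη1
  have hev2 : ∀ᶠ n : ℕ in Filter.atTop, 3 ≤ δ * (n : ℝ) :=
    (tendsto_natCast_atTop_atTop (R := ℝ)).const_mul_atTop hδ |>.eventually_ge_atTop 3
  obtain ⟨n₀, hn₀⟩ := Filter.eventually_atTop.1 (hev.and (hev2.and (Filter.eventually_ge_atTop 5)))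
  refine ⟨n₀, fun n hn => ?_⟩
  obtain ⟨h1, h2, h5⟩ := hn₀ n hn
  have h5' : (5 : ℝ) ≤ n := by exact_mod_cast h5
  have hn0 : (0 : ℝ) < n := by linarith
  have hL : 0 < Real.log n := Real.log_pos (by linarith)
  have hL2 : 0 < Real.log n ^ 2 := by positivity
  have hmin : min n (n - 2) = n - 2 := by omega
  have hcard : (Icc 2 (n - 2)).card = n - 3 := by rw [Nat.card_Icc]; omega
  have hcast : ((n - 3 : ℕ) : ℝ) = (n : ℝ) - 3 := by
    rw [Nat.cast_sub (by omega)]; norm_num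
  -- lower bound
  have hlow : ((n : ℝ) - 3) / Real.log n ^ 2 ≤ expG n n := by
    unfold expG
    rw [hmin]
    have h3 : ∑ m ∈ Icc 2 (n - 2), 1 / Real.log n ^ 2 = ((n : ℝ) - 3) / Real.log n ^ 2 := by
      rw [sum_const, hcard, nsmul_eq_mul, hcast]
      ring
    rw [← h3]
    apply sum_le_sum
    intro m hm
    rw [mem_Icc] at hm
    have hm' : (2 : ℝ) ≤ m := by exact_mod_cast hm.1
    have hnm' : (2 : ℝ) ≤ ((n - m : ℕ) : ℝ) := by
      have : 2 ≤ n - m := by omega
      exact_mod_cast this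
    have c1 : 0 < Real.log m := Real.log_pos (by linarith)
    have c2 : 0 < Real.log ((n - m : ℕ) : ℝ) := Real.log_pos (by linarith)
    have c3 : Real.log m ≤ Real.log n := Real.log_le_log (by linarith) (by
      have : m ≤ n := by omega
      exact_mod_cast this)
    have c4 : Real.log ((n - m : ℕ) : ℝ) ≤ Real.log n := Real.log_le_log (by linarith) (by
      have : n - m ≤ n := by omega
      exact_mod_cast this)
    apply one_div_le_one_div_of_le (mul_pos c1 c2)
    rw [sq]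
    exact mul_le_mul c3 c4 c2.le hL.le
  -- upper bound
  have hT0 : 0 < (n : ℝ) ^ (1 - η) := Real.rpow_pos_of_pos hn0 _
  have hup : expG n n ≤ n / ((1 - η) * Real.log n) ^ 2 + (6 * (n : ℝ) ^ (1 - η) + 6) := by
    unfold expG
    rw [hmin]
    have hM : 0 < (1 - η) * Real.log n := mul_pos (by linarith) hL
    have hT : (1 - η) * Real.log n ≤ Real.log ((n : ℝ) ^ (1 - η)) := by
      rw [Real.log_rpow hn0]
    have h3 : ∀ m ∈ Icc 2 (n - 2), 1 / (Real.log m * Real.log ((n - m : ℕ) : ℝ)) ≤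
        1 / ((1 - η) * Real.log n) ^ 2 + 3 * (if (m : ℝ) < (n : ℝ) ^ (1 - η) then 1 else 0) +
        3 * (if ((n - m : ℕ) : ℝ) < (n : ℝ) ^ (1 - η) then 1 else 0) := by
      intro m hm
      rw [mem_Icc] at hm
      exact term_le hM hT hT0 hm.1 (by omega)
    refine (sum_le_sum h3).trans ?_
    rw [sum_add_distrib, sum_add_distrib, ← mul_sum, ← mul_sum, sum_const, hcard, nsmul_eq_mul, hcast]
    have h4 : ∑ m ∈ Icc 2 (n - 2), (if ((n - m : ℕ) : ℝ) < (n : ℝ) ^ (1 - η) then (1 : ℝ) else 0) =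
        ∑ m ∈ Icc 2 (n - 2), (if (m : ℝ) < (n : ℝ) ^ (1 - η) then (1 : ℝ) else 0) := by
      refine sum_nbij' (fun m => n - m) (fun m => n - m) ?_ ?_ ?_ ?_ ?_
      · intro m hm
        rw [mem_Icc] at hm ⊢
        omega
      · intro m hm
        rw [mem_Icc] at hm ⊢
        omega
      · intro m hm
        rw [mem_Icc] at hm
        show n - (n - m) = m
        omega
      · intro m hm
        rw [mem_Icc] at hm
        show n - (n - m) = m
        omega
      · intro m _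
        rfl
    rw [h4]
    have h6 := count_le (Icc 2 (n - 2)) hT0.le
    have h7 : ((n : ℝ) - 3) * (1 / ((1 - η) * Real.log n) ^ 2) ≤ n / ((1 - η) * Real.log n) ^ 2 := by
      rw [mul_one_div]
      apply div_le_div_of_nonneg_right _ (sq_nonneg _)
      linarith
    linarith
  have hup2 : expG n n ≤ (1 + δ) * (n / Real.log n ^ 2) := by
    have h3 : n / ((1 - η) * Real.log n) ^ 2 ≤ (1 + δ / 2) * (n / Real.log n ^ 2) := by
      rw [mul_pow, div_le_iff₀ (by have : 0 < 1 - η := by linarith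
                                   positivity)]
      have h4 : (1 + δ / 2) * (n / Real.log n ^ 2) * ((1 - η) ^ 2 * Real.log n ^ 2) =
          ((1 + δ / 2) * (1 - η) ^ 2) * n := by
        field_simp
      rw [h4]
      exact le_mul_of_one_le_left hn0.le hη2
    have h4 : 6 * (n : ℝ) ^ (1 - η) + 6 ≤ δ / 2 * (n / Real.log n ^ 2) := by
      rw [mul_div_assoc', le_div_iff₀ hL2]
      exact h1
    linarith
  have hlow2 : (1 - δ) * (n / Real.log n ^ 2) ≤ expG n n := by
    refine le_trans ?_ hlow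
    rw [mul_div_assoc']
    apply div_le_div_of_nonneg_right _ hL2.le
    linarith
  rw [abs_le]
  constructor <;> linarith

end Pool.Agent.helper24_UT.Gsu
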