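import Pool.Agent.helper24_UT.Stm13

set_option autoImplicit false

namespace Pool.Agent.helper24_UT.All4

open Finset Polynomial
open Pool.Agent.helper24_UT
open Pool.Agent.H373R2.T7 (lamI lamzI lamz Vz pz lamP)
open Pool.Agent.H807R2.Dav (ee)

/-- the sum for the choice `v` and the length `y` -/
noncomputable def SS {k : ℕ} (z : ℕ) (g : Fin k → ℕ → ℤ) (w : ℕ → ℝ) (v : Fin k → ℕ × ℕ) (y : ℕ) : ℝ :=
  ∑ n ∈ Icc 1 y, w n * (∏ i, lamI (vl g v i n) - ∏ i, lamzI z (vl g v i n))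

theorem lamI_le_log {m : ℤ} {X : ℝ} (hX : 1 ≤ X) (hm : (m : ℝ) ≤ X) : lamI m ≤ Real.log X := by
  unfold lamI
  split_ifs with h
  · have h1 : ((m.toNat : ℕ) : ℝ) = (m : ℝ) := by
      have : ((m.toNat : ℕ) : ℤ) = m := Int.toNat_of_nonneg (by omega)
      exact_mod_cast this
    refine (ArithmeticFunction.vonMangoldt_le_log).trans ?_
    rw [h1]
    apply Real.log_le_log _ hm
    exact_mod_cast (by omega : 0 < m)
  · exact Real.log_nonneg hX

theorem lamzI_le (z : ℕ) (m : ℤ) : lamzI z m ≤ (Vz z)⁻¹ := by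
  have h0 : 0 ≤ (Vz z)⁻¹ := (inv_pos.2 (Pool.Agent.H373R2.T7.Vz_pos z)).le
  unfold lamzI lamz
  split_ifs
  · exact le_rfl
  · exact h0
  · exact h0

theorem grid {δ : ℝ} (hδ : 0 < δ) (hδ1 : δ ≤ 1) {H y : ℕ} (hy : 1 ≤ y) (hyH : y ≤ H ^ 2) :
    ∃ j : ℕ, (j : ℝ) ≤ 4 * Real.log H / δ ∧ ⌊(1 + δ) ^ j⌋₊ ≤ y ∧
      (y : ℝ) ≤ ⌊(1 + δ) ^ j⌋₊ + δ * y + 2 := by
  have hy1 : (1 : ℝ) ≤ y := by exact_mod_cast hy
  obtain ⟨j, h1, h2⟩ := exists_nat_pow_near hy1 (show 1 < 1 + δ by linarith)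
  have hpow : (1 : ℝ) ≤ (1 + δ) ^ j := one_le_pow₀ (by linarith)
  refine ⟨j, ?_, ?_, ?_⟩
  · have h3 := Real.log_le_log (by linarith) (h1.trans (show (y : ℝ) ≤ (H : ℝ) ^ 2 by exact_mod_cast hyH))
    rw [Real.log_pow, Real.log_pow] at h3
    push_cast at h3
    have h4 := Real.one_sub_inv_le_log_of_pos (show 0 < 1 + δ by linarith)
    have h5 : δ / 2 ≤ 1 - (1 + δ)⁻¹ := by
      have : 1 - (1 + δ)⁻¹ = δ / (1 + δ) := by field_simp; ring
      rw [this]
      exact div_le_div_of_nonneg_left hδ.le (by linarith) (by linarith)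
    have h6 : (j : ℝ) * (δ / 2) ≤ 2 * Real.log H :=
      (mul_le_mul_of_nonneg_left (h5.trans h4) (Nat.cast_nonneg j)).trans h3
    rw [le_div_iff₀ hδ]
    linarith
  · have := Nat.floor_le_floor h1
    rwa [Nat.floor_natCast] at this
  · have h3 := Nat.lt_floor_add_one ((1 + δ) ^ j)
    rw [pow_succ] at h2
    have h4 : ((⌊(1 + δ) ^ j⌋₊ : ℕ) : ℝ) ≤ y := by
      have := Nat.floor_le_floor h1
      rw [Nat.floor_natCast] at this
      exact_mod_cast this
    have h5 : (1 + δ) ^ j * (1 + δ) ≤ (⌊(1 + δ) ^ j⌋₊ + 1) * (1 + δ) :=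
      mul_le_mul_of_nonneg_right h3.le (by linarith)
    nlinarith [mul_le_mul_of_nonneg_left h4 hδ.le]

theorem main : S_SYS4 → S_ALL4 := by
  intro hsys k e A he
  obtain ⟨E₀, B₀, hB⟩ := hsys k e (4 * A + k + 5) he
  refine ⟨E₀, B₀ + A + k + 5, fun E₁ => ?_⟩
  obtain ⟨H₁, hH₁⟩ := hB E₁
  obtain ⟨N₀, hN₀⟩ := Pool.Agent.H373R2.T7.Vz_inv_small E₁
  refine ⟨H₁ + N₀ + ⌈Real.exp (4 ^ k + 20)⌉₊ + 3, fun H hH T R hQR z hz hz' s hs8 w hw => ?_⟩
  classical
  set g : Fin k → ℕ → ℤ := fun i _ => s i with hgdef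
  rcases Nat.eq_zero_or_pos k with hk0 | hkpos
  · -- no factors
    subst hk0
    refine ⟨∅, empty_subset _, ?_, ?_⟩
    · have h1 : (0 : ℝ) ≤ vq R R := prod_nonneg fun i _ => by positivity
      have h2 : (0 : ℝ) ≤ (Real.log H) ^ A := pow_nonneg (Real.log_natCast_nonneg H) _
      simpa using div_nonneg h1 h2
    · intro v _ _ y _ _
      have h2 : (0 : ℝ) ≤ (Real.log H) ^ A := pow_nonneg (Real.log_natCast_nonneg H) _
      have h3 : (0 : ℝ) ≤ (y : ℝ) / (Real.log H) ^ A := div_nonneg (Nat.cast_nonneg y) h2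
      simpa using h3
  have hV0 : (0 : ℝ) ≤ vq R R := prod_nonneg fun i _ => by positivity
  set L := Real.log H with hL
  have hH3 : 3 ≤ H := by omega
  have hHpos : (0 : ℝ) < H := by exact_mod_cast (by omega : 0 < H)
  have hLbig : 4 ^ k + 20 ≤ L := by
    rw [hL, Real.le_log_iff_exp_le hHpos]
    refine (Nat.le_ceil _).trans ?_
    exact_mod_cast (by omega : ⌈Real.exp (4 ^ k + 20)⌉₊ ≤ H)
  have h3k : (0 : ℝ) < 4 ^ k := by positivity
  have hL20 : 20 ≤ L := by linarith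
  have hL12 : 12 ≤ L := by linarith
  have hLk : (4 : ℝ) ^ k ≤ L := by linarith
  have hL0 : 0 < L := by linarith
  have hL1 : 1 ≤ L := by linarith
  have hRH : ∀ i, R i ≤ H := fun i => (hQR i).2.1
  have hRpos : ∀ i, (0 : ℝ) < R i := fun i =>
    lt_of_lt_of_le (Real.rpow_pos_of_pos hHpos _) (hQR i).1
  have hR1 : ∀ i, (1 : ℝ) ≤ R i := fun i => by
    have := hRpos i
    exact_mod_cast Nat.succ_le_of_lt (by exact_mod_cast this)
  have hTH : T ≤ H ^ 2 := by
    have i0 : Fin k := ⟨0, hkpos⟩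
    have he0 : (0 : ℝ) ≤ 1 / (e : ℝ) := by positivity
    have h2 : (T : ℝ) ≤ (R i0 : ℝ) ^ (2 : ℝ) :=
      (hQR i0).2.2.trans (Real.rpow_le_rpow_of_exponent_le (hR1 i0) (by linarith))
    have h3 : (R i0 : ℝ) ^ (2 : ℝ) ≤ (H : ℝ) ^ 2 := by
      rw [Real.rpow_two]
      exact pow_le_pow_left₀ (hRpos i0).le (by exact_mod_cast hRH i0) 2
    exact_mod_cast h2.trans h3
  have hz1 : 1 ≤ z := by
    have h1 : (0 : ℝ) < z := lt_of_lt_of_le (pow_pos hL0 _) hz
    exact_mod_cast h1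
  have hV : (Vz z)⁻¹ ≤ L := hN₀ H (by omega) z hz1 hz'
  set a := A + k + 3 with ha
  set δ : ℝ := 1 / L ^ a with hδdef
  have hδ : 0 < δ := by positivity
  have hδ1 : δ ≤ 1 := by
    rw [hδdef, div_le_one (by positivity)]
    exact one_le_pow₀ hL1
  set J := ⌊4 * L / δ⌋₊ with hJ
  set G := ((range (J + 1)).image (fun j => ⌊(1 + δ) ^ j⌋₊)).filter
    (fun y : ℕ => L ^ B₀ ≤ (y : ℝ) ∧ y ≤ T) with hG
  have hGcard : (G.card : ℝ) ≤ 5 * L ^ (a + 1) := by
    have h1 : G.card ≤ J + 1 := by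
      refine (card_filter_le _ _).trans ?_
      refine card_image_le.trans ?_
      rw [card_range]
    have h2 : (J : ℝ) ≤ 4 * L ^ (a + 1) := by
      refine (Nat.floor_le (by positivity)).trans (le_of_eq ?_)
      rw [hδdef, div_div_eq_mul_div, div_one, pow_succ]
      ring
    have h3 : (1 : ℝ) ≤ L ^ (a + 1) := one_le_pow₀ hL1
    have h4 : (G.card : ℝ) ≤ J + 1 := by exact_mod_cast h1
    linarith
  set Bad := (Bq R R).filter (fun v => ∃ y ∈ G, (y : ℝ) / (2 * L ^ A) < |SS z g w v y|) with hBad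
  refine ⟨Bad, filter_subset _ _, ?_, ?_⟩
  · -- size
    have h1 : Bad ⊆ G.biUnion (fun y => (Bq R R).filter
        (fun v => (y : ℝ) / (2 * L ^ A) < |SS z g w v y|)) := by
      intro v hv
      rw [hBad, mem_filter] at hv
      obtain ⟨hv1, y, hy, hv2⟩ := hv
      rw [mem_biUnion]
      exact ⟨y, hy, mem_filter.2 ⟨hv1, hv2⟩⟩
    have h2 : ∀ y ∈ G, (((Bq R R).filter (fun v => (y : ℝ) / (2 * L ^ A) < |SS z g w v y|)).card : ℝ) ≤
        vq R R * (4 * L ^ (2 * A) / L ^ (4 * A + k + 5)) := by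
      intro y hy
      rw [hG, mem_filter] at hy
      obtain ⟨_, hy1, hy2⟩ := hy
      have hy0 : (0 : ℝ) < y := lt_of_lt_of_le (pow_pos hL0 _) hy1
      have hRg : Rg4 e H y R := fun i =>
        ⟨(hQR i).1, (hQR i).2.1, le_trans (by exact_mod_cast hy2) (hQR i).2.2⟩
      have hs := hH₁ H (by omega) y hy1 R hRg z hz hz' s hs8 w hw
      set Fl := (Bq R R).filter (fun v => (y : ℝ) / (2 * L ^ A) < |SS z g w v y|) with hFl
      have h3 : (Fl.card : ℝ) * ((y : ℝ) / (2 * L ^ A)) ^ 2 ≤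
          vq R R * (y : ℝ) ^ 2 / L ^ (4 * A + k + 5) := by
        refine le_trans ?_ hs
        have h4 : (Fl.card : ℝ) * ((y : ℝ) / (2 * L ^ A)) ^ 2 ≤ ∑ v ∈ Fl, (SS z g w v y) ^ 2 := by
          rw [← nsmul_eq_mul]
          apply card_nsmul_le_sum
          intro v hv
          rw [hFl, mem_filter] at hv
          rw [← sq_abs (SS z g w v y)]
          exact pow_le_pow_left₀ (by positivity) hv.2.le 2
        refine h4.trans ?_
        apply sum_le_sum_of_subset_of_nonneg (filter_subset _ _)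
        intro v _ _
        positivity
      have h5 : (0 : ℝ) < ((y : ℝ) / (2 * L ^ A)) ^ 2 := by positivity
      rw [← le_div_iff₀ h5] at h3
      refine h3.trans (le_of_eq ?_)
      field_simp
      ring
    have h3 : (Bad.card : ℝ) ≤ ∑ y ∈ G,
        (((Bq R R).filter (fun v => (y : ℝ) / (2 * L ^ A) < |SS z g w v y|)).card : ℝ) := by
      have h4 := (card_le_card h1).trans card_biUnion_le
      exact_mod_cast h4
    refine h3.trans ((sum_le_sum h2).trans ?_)
    rw [sum_const, nsmul_eq_mul]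
    have h5 : (0 : ℝ) ≤ vq R R * (4 * L ^ (2 * A) / L ^ (4 * A + k + 5)) := by positivity
    refine (mul_le_mul_of_nonneg_right hGcard h5).trans ?_
    have e1 : 5 * L ^ (a + 1) * (vq R R * (4 * L ^ (2 * A) / L ^ (4 * A + k + 5))) =
        vq R R / L ^ A * (20 / L) := by
      have e2 : L ^ (4 * A + k + 5) = L ^ (a + 1) * L ^ (2 * A) * L ^ A * L := by
        rw [← pow_add, ← pow_add, ← pow_succ]
        congr 1
        omega
      rw [e2]
      field_simp
      ring
    rw [e1]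
    have h6 : 20 / L ≤ 1 := by rw [div_le_one hL0]; exact hL20
    have h7 : (0 : ℝ) ≤ vq R R / L ^ A := by positivity
    calc vq R R / L ^ A * (20 / L) ≤ vq R R / L ^ A * 1 :=
          mul_le_mul_of_nonneg_left h6 h7
      _ = _ := mul_one _
  · intro v hv hvB y hyL hyT
    have hy0 : (0 : ℝ) < y := lt_of_lt_of_le (pow_pos hL0 _) hyL
    have hy1 : 1 ≤ y := by exact_mod_cast hy0
    obtain ⟨j, hj1, hj2, hj3⟩ := grid hδ hδ1 hy1 (hyT.trans hTH)
    set y' := ⌊(1 + δ) ^ j⌋₊ with hy'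
    have hj2' : (y' : ℝ) ≤ y := by exact_mod_cast hj2
    -- y' is a grid point
    have hLB : L ^ (B₀ + A + k + 5) = L ^ B₀ * L ^ (A + k + 5) := by
      rw [← pow_add]; congr 1; omega
    have hLB2 : (12 : ℝ) ≤ L ^ (A + k + 5) :=
      hL12.trans (le_self_pow₀ hL1 (by omega))
    have hB0 : (1 : ℝ) ≤ L ^ B₀ := one_le_pow₀ hL1
    have hδ2 : δ ≤ 1 / 12 := by
      rw [hδdef]
      apply one_div_le_one_div_of_le (by norm_num)
      exact hL12.trans (le_self_pow₀ hL1 (by omega))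
    have hy'B : L ^ B₀ ≤ (y' : ℝ) := by
      have h1 : L ^ B₀ * 12 ≤ (y : ℝ) := by
        rw [hLB] at hyL
        exact (mul_le_mul_of_nonneg_left hLB2 (by positivity)).trans hyL
      have h2 : δ * y ≤ 1 / 12 * y := mul_le_mul_of_nonneg_right hδ2 hy0.le
      linarith
    have hy'G : y' ∈ G := by
      rw [hG, mem_filter]
      refine ⟨mem_image.2 ⟨j, ?_, rfl⟩, hy'B, hj2.trans hyT⟩
      rw [mem_range]
      exact Nat.lt_succ_of_le (Nat.le_floor hj1)
    have hS' : |SS z g w v y'| ≤ (y' : ℝ) / (2 * L ^ A) := by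
      by_contra hcon
      push Not at hcon
      exact hvB (mem_filter.2 ⟨hv, y', hy'G, hcon⟩)
    -- bound for the summands
    have hQ : ∀ n ∈ Ioc y' y, |w n * (∏ i, lamI (vl g v i n) - ∏ i, lamzI z (vl g v i n))| ≤
        L ^ (k + 1) := by
      intro n hn
      rw [mem_Ioc] at hn
      have hn1 : n ∈ Icc 1 T := mem_Icc.2 ⟨by omega, hn.2.trans hyT⟩
      have hnH : n ≤ H ^ 2 := (hn.2.trans hyT).trans hTH
      have hval : ∀ i, ((vl g v i n : ℤ) : ℝ) ≤ (H : ℝ) ^ 4 := by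
        intro i
        have h1 := Fintype.mem_piFinset.1 hv i
        rw [mem_product, mem_Icc, mem_Icc] at h1
        have h2 : g i n ≤ 8 * (H : ℤ) := by
          have h20 : s i ≤ 8 * (R i : ℤ) := (abs_le.1 (hs8 i)).2
          have h21 : (R i : ℤ) ≤ H := by exact_mod_cast hRH i
          have h22 : g i n = s i := rfl
          rw [h22]
          linarith
        have h3 : ((v i).1 : ℤ) * n ≤ (H : ℤ) * (H : ℤ) ^ 2 := by
          have ha1 : ((v i).1 : ℤ) ≤ H := by exact_mod_cast h1.1.2.trans (hRH i)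
          have ha2 : (n : ℤ) ≤ (H : ℤ) ^ 2 := by exact_mod_cast hnH
          exact mul_le_mul ha1 ha2 (by positivity) (by positivity)
        have h4 : ((v i).2 : ℤ) ≤ H := by exact_mod_cast h1.2.2.trans (hRH i)
        have h6 : vl g v i n ≤ (H : ℤ) ^ 4 := by
          unfold vl
          have h7 : (3 : ℤ) ≤ H := by exact_mod_cast hH3
          have h8 : (9 : ℤ) ≤ (H : ℤ) ^ 2 := by nlinarith
          have h9 : (H : ℤ) * (H : ℤ) ^ 2 + 9 * H ≤ (H : ℤ) ^ 4 := by
            have h10 : (H : ℤ) ^ 4 = (H : ℤ) ^ 3 * H := by ring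
            have h11 : (H : ℤ) * (H : ℤ) ^ 2 = (H : ℤ) ^ 3 := by ring
            have h12 : (H : ℤ) ^ 3 = (H : ℤ) ^ 2 * H := by ring
            have h13 : 9 * (H : ℤ) ≤ (H : ℤ) ^ 3 := by
              rw [h12]; exact mul_le_mul_of_nonneg_right h8 (by positivity)
            have h14 : (H : ℤ) ^ 3 * 3 ≤ (H : ℤ) ^ 3 * H := mul_le_mul_of_nonneg_left h7 (by positivity)
            rw [h10, h11]
            linarith [pow_pos (show (0:ℤ) < H by linarith) 3]
          linarith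
        exact_mod_cast h6
      have hlogX : Real.log ((H : ℝ) ^ 4) = 4 * L := by rw [Real.log_pow]; push_cast; ring
      have hX1 : (1 : ℝ) ≤ (H : ℝ) ^ 4 := one_le_pow₀ (by exact_mod_cast (by omega : 1 ≤ H))
      have hp1 : ∏ i, lamI (vl g v i n) ≤ (4 * L) ^ k := by
        calc ∏ i, lamI (vl g v i n) ≤ ∏ _i : Fin k, (4 * L) := by
              apply prod_le_prod
              · intro i _; exact Pool.Agent.H373R2.T7.lamI_nonneg _
              · intro i _
                rw [← hlogX]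
                exact lamI_le_log hX1 (hval i)
          _ = (4 * L) ^ k := by rw [prod_const, card_univ, Fintype.card_fin]
      have hp2 : ∏ i, lamzI z (vl g v i n) ≤ (4 * L) ^ k := by
        calc ∏ i, lamzI z (vl g v i n) ≤ ∏ _i : Fin k, (4 * L) := by
              apply prod_le_prod
              · intro i _; exact Pool.Agent.H373R2.T7.lamzI_nonneg _ _
              · intro i _
                exact ((lamzI_le z _).trans hV).trans (by linarith)
          _ = (4 * L) ^ k := by rw [prod_const, card_univ, Fintype.card_fin]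
      have hp3 : 0 ≤ ∏ i, lamI (vl g v i n) :=
        prod_nonneg fun i _ => Pool.Agent.H373R2.T7.lamI_nonneg _
      have hp4 : 0 ≤ ∏ i, lamzI z (vl g v i n) :=
        prod_nonneg fun i _ => Pool.Agent.H373R2.T7.lamzI_nonneg _ _
      have hp5 : (4 * L) ^ k ≤ L ^ (k + 1) := by
        rw [mul_pow, pow_succ, mul_comm]
        exact mul_le_mul_of_nonneg_left hLk (by positivity)
      have hp6 : |∏ i, lamI (vl g v i n) - ∏ i, lamzI z (vl g v i n)| ≤ L ^ (k + 1) := by
        rw [abs_le]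
        constructor <;> linarith
      rw [abs_mul]
      calc |w n| * |∏ i, lamI (vl g v i n) - ∏ i, lamzI z (vl g v i n)| ≤ 1 * L ^ (k + 1) :=
            mul_le_mul (hw n) hp6 (abs_nonneg _) zero_le_one
        _ = _ := one_mul _
    have hsplit : SS z g w v y = SS z g w v y' +
        ∑ n ∈ Ioc y' y, w n * (∏ i, lamI (vl g v i n) - ∏ i, lamzI z (vl g v i n)) := by
      unfold SS
      rw [← sum_union]
      · congr 1
        ext n
        simp only [mem_Icc, mem_union, mem_Ioc]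
        omega
      · rw [disjoint_left]
        intro n h1 h2
        rw [mem_Icc] at h1
        rw [mem_Ioc] at h2
        omega
    have hrest : |∑ n ∈ Ioc y' y, w n * (∏ i, lamI (vl g v i n) - ∏ i, lamzI z (vl g v i n))| ≤
        ((y : ℝ) - y') * L ^ (k + 1) := by
      refine (abs_sum_le_sum_abs _ _).trans ((sum_le_sum hQ).trans (le_of_eq ?_))
      rw [sum_const, Nat.card_Ioc, nsmul_eq_mul, Nat.cast_sub hj2]
    change |SS z g w v y| ≤ _
    rw [hsplit]
    refine (abs_add_le _ _).trans ((add_le_add hS' hrest).trans ?_)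
    have hLk1 : (0 : ℝ) < L ^ (k + 1) := by positivity
    have f1 : ((y : ℝ) - y') * L ^ (k + 1) ≤ (δ * y + 2) * L ^ (k + 1) :=
      mul_le_mul_of_nonneg_right (by linarith) hLk1.le
    have f2 : δ * L ^ (k + 1) = 1 / (L ^ A * L ^ 2) := by
      rw [hδdef, ha, ← pow_add, div_mul_eq_mul_div, one_mul, div_eq_div_iff (by positivity) (by positivity),
        one_mul, ← pow_add]
      congr 1
      omega
    have f3 : 2 * L ^ (k + 1) ≤ y / (L ^ A * L ^ 2) := by
      rw [le_div_iff₀ (by positivity)]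
      refine le_trans ?_ hyL
      have : L ^ (B₀ + A + k + 5) = L ^ B₀ * (L ^ (k + 1) * (L ^ A * L ^ 2)) * L ^ 2 := by
        rw [← pow_add, ← pow_add, ← pow_add, ← pow_add]; congr 1; omega
      rw [this]
      have g1 : (2 : ℝ) ≤ L ^ 2 := by nlinarith
      have g2 : (0 : ℝ) < L ^ (k + 1) * (L ^ A * L ^ 2) := by positivity
      calc 2 * L ^ (k + 1) * (L ^ A * L ^ 2) = 1 * (L ^ (k + 1) * (L ^ A * L ^ 2)) * 2 := by ring
        _ ≤ L ^ B₀ * (L ^ (k + 1) * (L ^ A * L ^ 2)) * L ^ 2 :=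
          mul_le_mul (mul_le_mul_of_nonneg_right hB0 g2.le) g1 (by norm_num) (by positivity)
    have f4 : (δ * y + 2) * L ^ (k + 1) ≤ 2 * (y / (L ^ A * L ^ 2)) := by
      have : (δ * y + 2) * L ^ (k + 1) = (δ * L ^ (k + 1)) * y + 2 * L ^ (k + 1) := by ring
      rw [this, f2]
      have : 1 / (L ^ A * L ^ 2) * (y : ℝ) = y / (L ^ A * L ^ 2) := by ring
      rw [this]
      linarith
    have f5 : (y' : ℝ) / (2 * L ^ A) ≤ y / L ^ A * (1 / 2) := by
      rw [div_mul_div_comm, mul_one, mul_comm 2]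
      exact div_le_div_of_nonneg_right hj2' (by positivity)
    have f6 : 2 * ((y : ℝ) / (L ^ A * L ^ 2)) ≤ y / L ^ A * (1 / 2) := by
      have : 2 * ((y : ℝ) / (L ^ A * L ^ 2)) = y / L ^ A * (2 / L ^ 2) := by
        field_simp
      rw [this]
      apply mul_le_mul_of_nonneg_left _ (by positivity)
      rw [div_le_div_iff₀ (by positivity) (by norm_num)]
      nlinarith
    linarith

end Pool.Agent.helper24_UT.All4
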