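/-
UT_C23   (project UT of helper24: primes at almost all systems of polynomials; very_famous ids, partial results)
TARGET: prove the theorem at the end: it is a variant of a theorem ALREADY PROVED in Pool/Agent/helper24_UT/C2.lean (on origin/main;
`git -C /workdir/pool/outputs/live pull`, copy the directory Pool/Agent/helper24_UT and the starting modules its files import to the
same paths under /workdir/pool). So: copy that file, change the namespace to the one below, and adapt the exponents as described.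
The new statements are in Pool/Agent/helper24_UT/Stm7.lean (compare with the old ones in Stm2a, Stm2, Stm3, Stm4, Stm5).
The only change is: the square box [1,H]^2 for the pairs (b,c) becomes [1,Q] x [1,R] (one such box for every i), where H^(1/e) <= R <= Q <= H.
Do not import the old file, only its imports; no sorry, no native_decide, no new axioms, no straight double quotes.
Paste the full proved file back as the result (theorem name `main`). If a constant does not work out, set status='problem' and say why.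

WHAT TO CHANGE
Box [1,Q] x [1,R] with H^(1/e) <= R <= Q <= H instead of [1,H]^2. For a set S of primes with product d: the number of (b,b') in the box with P p b b' for all p in S is
(number of pairs of classes mod d) * (Q/d + O(1)) (R/d + O(1)), so the error is at most c^|S| d (Q/d + R/d + 1) <= 3 c^|S| Q as long as d <= R; compared with Q R this is 3 c^|S|/R and R >= H^(1/e) is
larger than everything of the form z^(r+1) c^(r+1) L^(U+1) (H large). (The property is called P here because Q is a number.)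
-/
import Pool.Agent.helper24_UT.Stm7

set_option autoImplicit false

namespace Pool.Agent.helper24_UT.C23

open Finset
open Pool.Agent.helper24_UT
open Pool.Agent.H376R2.MR (ch er DP FK)

/-- joint distribution of pairs in residue classes -/
theorem count_sys2 (A : ℕ → ℕ → ℕ → Prop) [∀ p a b, Decidable (A p a b)] (x y : ℕ) (S : Finset ℕ)
    (hS : ∀ p ∈ S, p.Prime) :
    ∀ q : ℕ, 1 ≤ q → (∀ p ∈ S, ¬ p ∣ q) → ∀ c c' : ℕ,
    |(((Icc 1 x ×ˢ Icc 1 y).filter (fun n => n.1 ≡ c [MOD q] ∧ n.2 ≡ c' [MOD q] ∧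
        ∀ p ∈ S, A p (n.1 % p) (n.2 % p))).card : ℝ) -
      ((x : ℝ) / q * ((y : ℝ) / q)) * ∏ p ∈ S, ((((range p ×ˢ range p).filter (fun a => A p a.1 a.2)).card : ℝ) / (p : ℝ) ^ 2)| ≤
      ((x : ℝ) + y + 1) * ∏ p ∈ S, (((range p ×ˢ range p).filter (fun a => A p a.1 a.2)).card : ℝ) := by
  induction S using Finset.induction_on with
  | empty =>
    intro q hq _ c c'
    have hq0 : (1 : ℝ) ≤ q := by exact_mod_cast hq
    have h := H373R2.T7.count_class x q c hq
    have h' := H373R2.T7.count_class y q c' hq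
    simp only [notMem_empty, false_implies, implies_true, and_true, prod_empty, mul_one]
    have e : ((Icc 1 x ×ˢ Icc 1 y).filter (fun n => n.1 ≡ c [MOD q] ∧ n.2 ≡ c' [MOD q])) =
        (Icc 1 x).filter (fun n => n ≡ c [MOD q]) ×ˢ (Icc 1 y).filter (fun n => n ≡ c' [MOD q]) := by
      ext ⟨n, m⟩
      simp only [mem_filter, mem_product]
      tauto
    rw [e, card_product]
    push_cast
    set a : ℝ := (((Icc 1 x).filter (fun n => n ≡ c [MOD q])).card : ℝ) with ha
    set b : ℝ := (((Icc 1 y).filter (fun n => n ≡ c' [MOD q])).card : ℝ) with hb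
    set t : ℝ := (x : ℝ) / q with ht
    have ht0 : 0 ≤ t := by positivity
    have htx : t ≤ x := div_le_self (Nat.cast_nonneg _) hq0
    set t' : ℝ := (y : ℝ) / q with ht'
    have ht0' : 0 ≤ t' := by positivity
    have htx' : t' ≤ y := div_le_self (Nat.cast_nonneg _) hq0
    have e2 : a * b - t * t' = (a - t) * (b - t') + t' * (a - t) + t * (b - t') := by ring
    rw [e2]
    refine (abs_add_le _ _).trans ?_
    have h3 := abs_add_le ((a - t) * (b - t')) (t' * (a - t))
    rw [abs_mul (a - t), abs_mul t' (a - t), abs_of_nonneg ht0'] at h3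
    rw [abs_mul t (b - t'), abs_of_nonneg ht0]
    have h4 : |a - t| * |b - t'| ≤ 1 * 1 := mul_le_mul h h' (abs_nonneg _) zero_le_one
    have h5 : t' * |a - t| ≤ t' * 1 := mul_le_mul_of_nonneg_left h ht0'
    have h6 : t * |b - t'| ≤ t * 1 := mul_le_mul_of_nonneg_left h' ht0
    linarith
  | insert p S hp ih =>
    intro q hq hdq c c'
    have hpp := hS p (mem_insert_self _ _)
    have hS' : ∀ p' ∈ S, p'.Prime := fun p' h => hS p' (mem_insert_of_mem h)
    have hpq : q.Coprime p := by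
      rw [Nat.coprime_comm]
      exact (Nat.Prime.coprime_iff_not_dvd hpp).2 (hdq p (mem_insert_self _ _))
    have hp0 : (0 : ℝ) < p := by exact_mod_cast hpp.pos
    have hq0 : (0 : ℝ) < q := by exact_mod_cast hq
    rw [prod_insert hp, prod_insert hp]
    set ρ := (range p ×ˢ range p).filter (fun a => A p a.1 a.2) with hρ
    -- fibres
    have h1 : ((Icc 1 x ×ˢ Icc 1 y).filter (fun n => n.1 ≡ c [MOD q] ∧ n.2 ≡ c' [MOD q] ∧
          ∀ p' ∈ insert p S, A p' (n.1 % p') (n.2 % p'))).card =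
        ∑ a ∈ ρ, ((Icc 1 x ×ˢ Icc 1 y).filter (fun n => n.1 ≡ (Nat.chineseRemainder hpq c a.1 : ℕ) [MOD (q * p)] ∧
          n.2 ≡ (Nat.chineseRemainder hpq c' a.2 : ℕ) [MOD (q * p)] ∧
          ∀ p' ∈ S, A p' (n.1 % p') (n.2 % p'))).card := by
      rw [card_eq_sum_card_fiberwise (f := fun n => (n.1 % p, n.2 % p)) (t := ρ)]
      · apply sum_congr rfl
        rintro ⟨a, a'⟩ ha
        rw [hρ, mem_filter, mem_product, mem_range, mem_range] at ha
        congr 1
        ext ⟨n, n'⟩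
        simp only [mem_filter, mem_insert, forall_eq_or_imp, Prod.mk.injEq]
        have hcr : ∀ c a n : ℕ, n ≡ (Nat.chineseRemainder hpq c a : ℕ) [MOD (q * p)] ↔ n ≡ c [MOD q] ∧ n ≡ a [MOD p] := by
          intro c a n
          constructor
          · intro h
            have k1 := (Nat.chineseRemainder hpq c a).2.1
            have k2 := (Nat.chineseRemainder hpq c a).2.2
            exact ⟨(h.of_mul_right p).trans k1, (h.of_mul_left q).trans k2⟩
          · rintro ⟨h1, h2⟩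
            exact Nat.chineseRemainder_modEq_unique hpq h1 h2
        have hmod : n ≡ a [MOD p] ↔ n % p = a := by
          unfold Nat.ModEq
          rw [Nat.mod_eq_of_lt ha.1.1]
        have hmod' : n' ≡ a' [MOD p] ↔ n' % p = a' := by
          unfold Nat.ModEq
          rw [Nat.mod_eq_of_lt ha.1.2]
        rw [hcr, hcr, hmod, hmod']
        constructor
        · rintro ⟨⟨h1, h2, h3, h4, h5⟩, h6, h7⟩
          exact ⟨h1, ⟨h2, h6⟩, ⟨h3, h7⟩, h5⟩
        · rintro ⟨h1, ⟨h2, h6⟩, ⟨h3, h7⟩, h5⟩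
          exact ⟨⟨h1, h2, h3, by rw [h6, h7]; exact ha.2, h5⟩, h6, h7⟩
      · intro n hn
        simp only [coe_filter, mem_product, mem_Icc, mem_insert, forall_eq_or_imp, Set.mem_ofPred_eq] at hn
        rw [hρ]
        simp only [coe_filter, mem_product, mem_range, Set.mem_ofPred_eq]
        exact ⟨⟨Nat.mod_lt _ hpp.pos, Nat.mod_lt _ hpp.pos⟩, hn.2.2.2.1⟩
    rw [h1]
    push_cast
    have h2 : ((x : ℝ) / q * ((y : ℝ) / q)) * (((ρ.card : ℝ) / (p : ℝ) ^ 2) *
          ∏ p' ∈ S, ((((range p' ×ˢ range p').filter (fun a => A p' a.1 a.2)).card : ℝ) / (p' : ℝ) ^ 2)) =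
        ∑ _a ∈ ρ, ((x : ℝ) / ((q * p : ℕ) : ℝ) * ((y : ℝ) / ((q * p : ℕ) : ℝ))) *
          ∏ p' ∈ S, ((((range p' ×ˢ range p').filter (fun a => A p' a.1 a.2)).card : ℝ) / (p' : ℝ) ^ 2) := by
      rw [sum_const, nsmul_eq_mul]
      push_cast
      rw [← div_div (x : ℝ), ← div_div (y : ℝ)]
      ring
    rw [h2, ← sum_sub_distrib]
    refine (abs_sum_le_sum_abs _ _).trans ?_
    have h3 : ∀ a ∈ ρ, |(((Icc 1 x ×ˢ Icc 1 y).filter (fun n => n.1 ≡ (Nat.chineseRemainder hpq c a.1 : ℕ) [MOD (q * p)] ∧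
          n.2 ≡ (Nat.chineseRemainder hpq c' a.2 : ℕ) [MOD (q * p)] ∧
          ∀ p' ∈ S, A p' (n.1 % p') (n.2 % p'))).card : ℝ) -
        ((x : ℝ) / ((q * p : ℕ) : ℝ) * ((y : ℝ) / ((q * p : ℕ) : ℝ))) *
          ∏ p' ∈ S, ((((range p' ×ˢ range p').filter (fun a => A p' a.1 a.2)).card : ℝ) / (p' : ℝ) ^ 2)| ≤
        ((x : ℝ) + y + 1) * ∏ p' ∈ S, (((range p' ×ˢ range p').filter (fun a => A p' a.1 a.2)).card : ℝ) := by
      intro a _
      apply ih hS' (q * p) (Nat.mul_pos hq hpp.pos)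
      intro p' hp' hd
      have hp'p := hS' p' hp'
      rcases (Nat.Prime.dvd_mul hp'p).1 hd with h | h
      · exact hdq p' (mem_insert_of_mem hp') h
      · rw [Nat.prime_dvd_prime_iff_eq hp'p hpp] at h
        exact hp (h ▸ hp')
    refine (sum_le_sum h3).trans ?_
    rw [sum_const, nsmul_eq_mul]
    exact le_of_eq (by ring)

open Pool.Agent.H373R2.T7 (pz mem_pz sum_pz_le card_pz_le sieve_gen' es es_le card_small choice ev_log' ev_L')

theorem nu2_le (P : ℕ → ℕ → ℕ → Prop) (p : ℕ) : nu2 P p ≤ p ^ 2 := by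
  classical
  unfold nu2
  refine (card_filter_le _ _).trans ?_
  rw [card_product, card_range, pow_two]

set_option maxHeartbeats 1000000 in
open Classical in
theorem main : S_C23 := by
  intro c0 e E U he
  set c : ℕ := c0 + 1 with hc'
  have hc : 1 ≤ c := by omega
  set U2 := U + 2 with hU2
  obtain ⟨N0, h0⟩ := choice c E U2 (4 * e)
  set C' := (3 * (c * (1 + E)) + U2 + 1) * c with hC'
  obtain ⟨n1, h1⟩ := ev_log' ((C' + U + 2) * e) (3 ^ e)
  obtain ⟨n2, h2⟩ := ev_L' 3
  refine ⟨max (max N0 n1) (max n2 4), fun N hN Q R hRg z hz hzE P hper hfew0 => ?_⟩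
  have hfew : ∀ p, p.Prime → nu2 P p ≤ c * p := fun p hp =>
    (hfew0 p hp).trans (Nat.mul_le_mul_right _ (by omega))
  have b1 := le_trans (le_trans (le_max_left _ _) (le_max_left _ _)) hN
  have b2 := le_trans (le_trans (le_max_right _ _) (le_max_left _ _)) hN
  have b3 := le_trans (le_trans (le_max_left _ _) (le_max_right _ _)) hN
  have hN4 : 4 ≤ N := le_trans (le_trans (le_max_right _ _) (le_max_right _ _)) hN
  obtain ⟨r, hr1, hr2, hr3⟩ := h0 N b1 z hzE
  have a1 := h1 N b2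
  have hL := h2 N b3
  have hNr : (4 : ℝ) ≤ N := by exact_mod_cast hN4
  have hN0 : (0 : ℝ) < N := by linarith
  set L := Real.log N with hLd
  have hL0 : 0 < L := by linarith
  have hL1 : 1 ≤ L := by linarith
  obtain ⟨hR1, hRQ, hQN⟩ := hRg
  have her : (0 : ℝ) < e := by exact_mod_cast he
  have he0 : e ≠ 0 := by omega
  have hNe0 : (0 : ℝ) < (N : ℝ) ^ (1 / e : ℝ) := Real.rpow_pos_of_pos hN0 _
  have hR0 : (0 : ℝ) < R := lt_of_lt_of_le hNe0 hR1
  have hRQr : (R : ℝ) ≤ Q := by exact_mod_cast hRQ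
  have hQ0 : (0 : ℝ) < Q := lt_of_lt_of_le hR0 hRQr
  have hR1n : 1 ≤ R := by
    rcases Nat.eq_zero_or_pos R with h | h
    · rw [h] at hR0; simp at hR0
    · exact h
  have hR1r : (1 : ℝ) ≤ R := by exact_mod_cast hR1n
  have hroot : ∀ t : ℝ, 0 ≤ t → t ^ (2 * e) ≤ N → t ≤ √(R : ℝ) := by
    intro t ht0 ht
    apply Real.le_sqrt_of_sq_le
    refine le_trans ?_ hR1
    have k1 : (t ^ 2) ^ e ≤ (N : ℝ) := by rw [← pow_mul]; exact ht
    have k2 := Real.rpow_le_rpow (by positivity) k1 (show (0 : ℝ) ≤ 1 / e by positivity)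
    rwa [← Real.rpow_natCast (t ^ 2) e, ← Real.rpow_mul (by positivity), mul_one_div_cancel her.ne',
      Real.rpow_one] at k2
  have a1 : 3 * L ^ (C' + U + 2) ≤ √(R : ℝ) := by
    apply hroot _ (by positivity)
    have k1 : (3 * L ^ (C' + U + 2)) ^ e ≤ √(N : ℝ) := by
      rw [mul_pow, ← pow_mul]
      exact a1
    rw [mul_comm 2 e, pow_mul]
    calc ((3 * L ^ (C' + U + 2)) ^ e) ^ 2 ≤ √(N : ℝ) ^ 2 := pow_le_pow_left₀ (by positivity) k1 2
      _ = N := Real.sq_sqrt hN0.le
  have hss : √(R : ℝ) * √(R : ℝ) = R := Real.mul_self_sqrt hR0.le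
  have hs0 : 0 < √(R : ℝ) := Real.sqrt_pos.2 hR0
  have hcr : (1 : ℝ) ≤ c := by exact_mod_cast hc
  have hz0 : (0 : ℝ) ≤ z := Nat.cast_nonneg _
  have hz1 : (1 : ℝ) ≤ z := by exact_mod_cast hz
  have hDs : ((z : ℝ) + 1) ^ (2 * r) ≤ √(R : ℝ) := by
    apply hroot _ (by positivity)
    refine le_trans (le_of_eq ?_) hr2
    rw [← pow_mul, ← pow_mul]
    congr 1
    ring
  have key := sieve_gen' (Icc 1 Q ×ˢ Icc 1 R) (fun _ => (1 : ℝ)) (fun _ _ => zero_le_one)
    (fun p n => P p n.1 n.2) (pz z)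
    (fun p => (nu2 P p : ℝ) / (p : ℝ) ^ 2) (fun p hp => by
      have hp0 : (0 : ℝ) < p := by exact_mod_cast (mem_pz.1 hp).2.pos
      constructor
      · positivity
      · rw [div_le_one (by positivity)]
        exact_mod_cast nu2_le P p) ((Q : ℝ) * R) (by positivity)
      (fun _ => ((Q : ℝ) + R + 1) * ((c : ℝ) ^ r * (z : ℝ) ^ r)) r (by
      intro S hS hr
      have hSp : ∀ p ∈ S, p.Prime := fun p hp => (mem_pz.1 (hS hp)).2
      have h3 := count_sys2 (fun p a b => P p a b) Q R S hSp 1 le_rfl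
        (fun p hp hd => (hSp p hp).one_lt.ne' (Nat.dvd_one.1 hd)) 0 0
      have e1 : ∑ i ∈ (Icc 1 Q ×ˢ Icc 1 R).filter (fun i => ∀ p ∈ S, P p i.1 i.2), (1 : ℝ) =
          (((Icc 1 Q ×ˢ Icc 1 R).filter (fun n => n.1 ≡ 0 [MOD 1] ∧ n.2 ≡ 0 [MOD 1] ∧
            ∀ p ∈ S, P p (n.1 % p) (n.2 % p))).card : ℝ) := by
        rw [sum_const, nsmul_eq_mul, mul_one]
        congr 2
        apply filter_congr
        intro n _
        constructor
        · intro h
          exact ⟨Nat.modEq_one, Nat.modEq_one, fun p hp => (hper p n.1 n.2).1 (h p hp)⟩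
        · rintro ⟨_, _, h⟩ p hp
          exact (hper p n.1 n.2).2 (h p hp)
      rw [e1]
      have e2 : (Q : ℝ) * R * ∏ p ∈ S, ((nu2 P p : ℝ) / (p : ℝ) ^ 2) = ((Q : ℝ) / ((1 : ℕ) : ℝ) * ((R : ℝ) / ((1 : ℕ) : ℝ))) *
          ∏ p ∈ S, ((((range p ×ˢ range p).filter (fun a => P p a.1 a.2)).card : ℝ) / (p : ℝ) ^ 2) := by
        rw [Nat.cast_one, div_one, div_one]
        congr 1
      rw [e2]
      refine h3.trans ?_
      apply mul_le_mul_of_nonneg_left _ (by positivity)
      calc ∏ p ∈ S, (((range p ×ˢ range p).filter (fun a => P p a.1 a.2)).card : ℝ) ≤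
            ∏ _p ∈ S, ((c : ℝ) * z) := by
            apply prod_le_prod (fun _ _ => Nat.cast_nonneg _)
            intro p hp
            have h4 : ((nu2 P p : ℕ) : ℝ) ≤ ((c * p : ℕ) : ℝ) := by exact_mod_cast hfew p (hSp p hp)
            have h5 : (p : ℝ) ≤ z := by exact_mod_cast (mem_pz.1 (hS hp)).1
            push_cast at h4
            exact h4.trans (mul_le_mul_of_nonneg_left h5 (Nat.cast_nonneg _))
        _ = ((c : ℝ) * z) ^ S.card := by rw [prod_const]
        _ ≤ ((c : ℝ) * z) ^ r := pow_le_pow_right₀ (by nlinarith) hr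
        _ = _ := mul_pow _ _ _)
  have e0 : ∑ i ∈ (Icc 1 Q ×ˢ Icc 1 R).filter (fun i => ∀ p ∈ pz z, ¬ P p i.1 i.2), (1 : ℝ) =
      ((((Icc 1 Q ×ˢ Icc 1 R).filter (fun x : ℕ × ℕ => ∀ p ∈ pz z, ¬ P p x.1 x.2)).card : ℕ) : ℝ) := by
    rw [sum_const, nsmul_eq_mul, mul_one]
  rw [e0] at key
  refine key.trans ?_
  have e1 : ∑ j ∈ range (r + 1), ∑ _S ∈ (pz z).powersetCard j, ((Q : ℝ) + R + 1) * ((c : ℝ) ^ r * (z : ℝ) ^ r) =
      ((∑ j ∈ range (r + 1), ((pz z).powersetCard j).card : ℕ) : ℝ) * (((Q : ℝ) + R + 1) * ((c : ℝ) ^ r * (z : ℝ) ^ r)) := by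
    push_cast
    rw [sum_mul]
    apply sum_congr rfl
    intro j _
    rw [sum_const, nsmul_eq_mul]
  rw [e1]
  have h3 := card_small (pz z) r
  have h4 : (((pz z).card : ℝ) + 1) ^ r ≤ ((z : ℝ) + 1) ^ r := by
    have hcz : ((pz z).card : ℝ) ≤ z := by exact_mod_cast card_pz_le z
    exact pow_le_pow_left₀ (add_nonneg (Nat.cast_nonneg _) zero_le_one) (by linarith only [hcz]) r
  have h5 : es (fun p => (nu2 P p : ℝ) / (p : ℝ) ^ 2) (pz z) r ≤ 1 / L ^ U2 := by
    refine (es_le (fun p _ => by positivity) r).trans (le_trans ?_ hr1)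
    apply Real.exp_le_exp.2
    have h6 : ∑ p ∈ pz z, (nu2 P p : ℝ) / (p : ℝ) ^ 2 ≤ c * (1 + Real.log z) := by
      have h7 : ∀ p ∈ pz z, (nu2 P p : ℝ) / (p : ℝ) ^ 2 ≤ c * (1 / (p : ℝ)) := by
        intro p hp
        have hp0 : (0 : ℝ) < p := by exact_mod_cast (mem_pz.1 hp).2.pos
        have h8 : ((nu2 P p : ℕ) : ℝ) ≤ ((c * p : ℕ) : ℝ) := by exact_mod_cast hfew p (mem_pz.1 hp).2
        push_cast at h8
        rw [mul_one_div, div_le_div_iff₀ (by positivity) hp0]
        nlinarith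
      refine (sum_le_sum h7).trans ?_
      rw [← mul_sum]
      exact mul_le_mul_of_nonneg_left (sum_pz_le z) (Nat.cast_nonneg _)
    linarith
  set T : ℝ := ((Q : ℝ) * R) / L ^ (U + 2) with hT
  have hT0 : 0 < T := by positivity
  have g1 : ((∑ j ∈ range (r + 1), ((pz z).powersetCard j).card : ℕ) : ℝ) *
      (((Q : ℝ) + R + 1) * ((c : ℝ) ^ r * (z : ℝ) ^ r)) ≤ T := by
    have h6 : ((∑ j ∈ range (r + 1), ((pz z).powersetCard j).card : ℕ) : ℝ) *
        (((Q : ℝ) + R + 1) * ((c : ℝ) ^ r * (z : ℝ) ^ r)) ≤ √(R : ℝ) * (L ^ C' * (3 * Q)) := by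
      have hzr : (z : ℝ) ^ r ≤ ((z : ℝ) + 1) ^ r := pow_le_pow_left₀ hz0 (by linarith) r
      have hcard0 : (0 : ℝ) ≤ ((∑ j ∈ range (r + 1), ((pz z).powersetCard j).card : ℕ) : ℝ) := Nat.cast_nonneg _
      have h7 : ((∑ j ∈ range (r + 1), ((pz z).powersetCard j).card : ℕ) : ℝ) * (z : ℝ) ^ r ≤ √(R : ℝ) := by
        calc _ ≤ ((z : ℝ) + 1) ^ r * ((z : ℝ) + 1) ^ r :=
              mul_le_mul (h3.trans h4) hzr (by positivity) (by positivity)
          _ = ((z : ℝ) + 1) ^ (2 * r) := by rw [← pow_add, two_mul]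
          _ ≤ _ := hDs
      have h8 : (c : ℝ) ^ r * ((Q : ℝ) + R + 1) ≤ L ^ C' * (3 * Q) :=
        mul_le_mul (hr3 c) (by linarith) (by positivity) (by positivity)
      calc _ = (((∑ j ∈ range (r + 1), ((pz z).powersetCard j).card : ℕ) : ℝ) * (z : ℝ) ^ r) *
            ((c : ℝ) ^ r * ((Q : ℝ) + R + 1)) := by ring
        _ ≤ _ := mul_le_mul h7 h8 (by positivity) hs0.le
    refine h6.trans ?_
    rw [hT, le_div_iff₀ (by positivity)]
    calc √(R : ℝ) * (L ^ C' * (3 * Q)) * L ^ (U + 2) = Q * (√(R : ℝ) * (3 * L ^ (C' + U + 2))) := by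
          rw [add_assoc, pow_add]; ring
      _ ≤ Q * (√(R : ℝ) * √(R : ℝ)) := by
          apply mul_le_mul_of_nonneg_left _ hQ0.le
          exact mul_le_mul_of_nonneg_left a1 hs0.le
      _ = (Q : ℝ) * R := by rw [hss]
  have g2 : 2 * ((Q : ℝ) * R) * es (fun p => (nu2 P p : ℝ) / (p : ℝ) ^ 2) (pz z) r ≤ 2 * T := by
    calc 2 * ((Q : ℝ) * R) * es (fun p => (nu2 P p : ℝ) / (p : ℝ) ^ 2) (pz z) r ≤ 2 * ((Q : ℝ) * R) * (1 / L ^ U2) :=
          mul_le_mul_of_nonneg_left h5 (by positivity)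
      _ = 2 * T := by rw [hT, hU2]; ring
  calc _ ≤ T + 2 * T := add_le_add g1 g2
    _ = (3 / L ^ 2) * (((Q : ℝ) * R) / L ^ U) := by
        rw [hT, pow_add L U 2, div_mul_div_comm, mul_comm (L ^ 2) (L ^ U)]
        ring
    _ ≤ 1 * (((Q : ℝ) * R) / L ^ U) := by
        apply mul_le_mul_of_nonneg_right _ (by positivity)
        rw [div_le_one (by positivity)]
        nlinarith
    _ = _ := one_mul _

end Pool.Agent.helper24_UT.C23
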