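import Pool.Agent.helper24_UT.Stm7

set_option autoImplicit false

namespace Pool.Agent.helper24_UT.In3

open Finset
open Pool.Agent.helper24_UT
open Pool.Agent.H376R2.MR (ch er DP FK)
open Pool.Agent.H373R2.T7 (lamI lamzI lamz Vz pz lamP)

/-- Abel summation with an antitone weight -/
theorem abel (a ρ : ℕ → ℝ) (M : ℝ) (y : ℕ)
    (hρ : ∀ n, 1 ≤ n → n + 1 ≤ y → ρ (n + 1) ≤ ρ n) (hρ0 : ∀ n, 1 ≤ n → n ≤ y → 0 ≤ ρ n)
    (hs : ∀ t, 1 ≤ t → t ≤ y → |∑ n ∈ Icc 1 t, a n| ≤ M) (hy : 1 ≤ y) :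
    |∑ n ∈ Icc 1 y, a n * ρ n| ≤ M * ρ 1 := by
  have key : ∀ t, 1 ≤ t → t ≤ y →
      |∑ n ∈ Icc 1 t, a n * ρ n - (∑ n ∈ Icc 1 t, a n) * ρ t| ≤ M * (ρ 1 - ρ t) := by
    intro t ht
    induction t, ht using Nat.le_induction with
    | base => intro _; simp
    | succ t ht ih =>
      intro hty
      have h1 := ih (by omega)
      have h2 := hs t ht (by omega)
      have h3 := hρ t ht hty
      rw [Finset.sum_Icc_succ_top (by omega), Finset.sum_Icc_succ_top (by omega)]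
      have e : (∑ n ∈ Icc 1 t, a n * ρ n + a (t + 1) * ρ (t + 1)
          - (∑ n ∈ Icc 1 t, a n + a (t + 1)) * ρ (t + 1))
          = (∑ n ∈ Icc 1 t, a n * ρ n - (∑ n ∈ Icc 1 t, a n) * ρ t)
            + (∑ n ∈ Icc 1 t, a n) * (ρ t - ρ (t + 1)) := by ring
      rw [e]
      calc _ ≤ _ := abs_add_le _ _
        _ ≤ M * (ρ 1 - ρ t) + M * (ρ t - ρ (t + 1)) := by
            refine add_le_add h1 ?_
            rw [abs_mul, abs_of_nonneg (by linarith : 0 ≤ ρ t - ρ (t + 1))]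
            exact mul_le_mul_of_nonneg_right h2 (by linarith)
        _ = _ := by ring
  have h1 := key y hy le_rfl
  have h2 := hs y hy le_rfl
  have h3 := hρ0 y hy le_rfl
  have e : ∑ n ∈ Icc 1 y, a n * ρ n = (∑ n ∈ Icc 1 y, a n * ρ n - (∑ n ∈ Icc 1 y, a n) * ρ y)
      + (∑ n ∈ Icc 1 y, a n) * ρ y := by ring
  rw [e]
  calc _ ≤ _ := abs_add_le _ _
    _ ≤ M * (ρ 1 - ρ y) + M * ρ y := by
        refine add_le_add h1 ?_
        rw [abs_mul, abs_of_nonneg h3]
        exact mul_le_mul_of_nonneg_right h2 h3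
    _ = _ := by ring

theorem prod_sub {ι : Type*} (s : Finset ι) (a b : ι → ℝ) (ε : ℝ)
    (ha : ∀ i ∈ s, 0 ≤ a i ∧ a i ≤ 1) (hb : ∀ i ∈ s, 0 ≤ b i ∧ b i ≤ 1)
    (h : ∀ i ∈ s, |a i - b i| ≤ ε) : |∏ i ∈ s, a i - ∏ i ∈ s, b i| ≤ s.card * ε := by
  classical
  induction s using Finset.induction_on with
  | empty => simp
  | insert j s hj ih =>
    rw [Finset.prod_insert hj, Finset.prod_insert hj, Finset.card_insert_of_notMem hj]
    have h1 := ih (fun i hi => ha i (Finset.mem_insert_of_mem hi))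
      (fun i hi => hb i (Finset.mem_insert_of_mem hi)) (fun i hi => h i (Finset.mem_insert_of_mem hi))
    have h2 := h j (Finset.mem_insert_self _ _)
    have h3 := ha j (Finset.mem_insert_self _ _)
    have h4 : 0 ≤ ∏ i ∈ s, b i ∧ ∏ i ∈ s, b i ≤ 1 :=
      ⟨Finset.prod_nonneg fun i hi => (hb i (Finset.mem_insert_of_mem hi)).1,
        Finset.prod_le_one (fun i hi => (hb i (Finset.mem_insert_of_mem hi)).1)
          (fun i hi => (hb i (Finset.mem_insert_of_mem hi)).2)⟩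
    have e : a j * ∏ i ∈ s, a i - b j * ∏ i ∈ s, b i
        = a j * (∏ i ∈ s, a i - ∏ i ∈ s, b i) + (a j - b j) * ∏ i ∈ s, b i := by ring
    rw [e]
    have h5 : |a j * (∏ i ∈ s, a i - ∏ i ∈ s, b i)| ≤ 1 * (s.card * ε) := by
      rw [abs_mul, abs_of_nonneg h3.1]
      exact mul_le_mul h3.2 h1 (abs_nonneg _) zero_le_one
    have h6 : |(a j - b j) * ∏ i ∈ s, b i| ≤ ε * 1 := by
      rw [abs_mul, abs_of_nonneg h4.1]
      exact mul_le_mul h2 h4.2 h4.1 (le_trans (abs_nonneg _) h2)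
    calc _ ≤ _ := abs_add_le _ _
      _ ≤ 1 * (s.card * ε) + ε * 1 := add_le_add h5 h6
      _ = _ := by push_cast; ring

/-- the logarithms -/
theorem logs {H L M Q : ℝ} {A₁ B : ℕ} (hL : 10 ≤ L) (hLH : H = Real.exp L) (hM5 : 5 ≤ M)
    (hexp : L ^ A₁ ≤ Real.exp M) (hQM : Real.exp (2 * M) ≤ Q) (b c n F : ℝ) (hb : Q / L ^ A₁ ≤ b) (hbH : b ≤ H)
    (hc1 : 1 ≤ c) (hcH : c ≤ H) (hn : 1 ≤ n) (hnH : n ≤ H) (hF : |F - (b * n + c)| * L ^ B ≤ Q * n)
    (hB : A₁ + 1 ≤ B) :
    3 ≤ F ∧ 1 ≤ Real.log (b * n + c) ∧ 1 ≤ Real.log F ∧ Real.log F ≤ 3 * L ∧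
      |Real.log F - Real.log (b * n + c)| ≤ 2 * (L ^ A₁ / L ^ B) := by
  have hL0 : 0 < L := by linarith
  have hLA : 0 < L ^ A₁ := by positivity
  have hLB : 0 < L ^ B := by positivity
  have hH0 : 0 < H := by rw [hLH]; exact Real.exp_pos _
  have hH11 : 11 ≤ H := by
    rw [hLH]; have := Real.add_one_le_exp L; linarith
  have hQ0 : 0 < Q := lt_of_lt_of_le (Real.exp_pos _) hQM
  have hb0 : 0 < b := lt_of_lt_of_le (by positivity) hb
  set l : ℝ := b * n + c with hl
  set δ : ℝ := L ^ A₁ / L ^ B with hδ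
  have hδ0 : 0 < δ := by positivity
  have hδ1 : δ ≤ 1 / 10 := by
    rw [hδ, div_le_div_iff₀ hLB (by norm_num)]
    calc L ^ A₁ * 10 ≤ L ^ A₁ * L := by gcongr
      _ = L ^ (A₁ + 1) := by ring
      _ ≤ L ^ B := pow_le_pow_right₀ (by linarith) hB
      _ = 1 * L ^ B := by ring
  have hhl : Q / L ^ A₁ * n ≤ l := by
    have : Q / L ^ A₁ * n ≤ b * n := by gcongr
    linarith
  have hlpos : 0 < l := by
    have : 0 < Q / L ^ A₁ * n := by positivity
    linarith
  have hE : |F - l| ≤ δ * l := by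
    have h1 : |F - l| ≤ Q * n / L ^ B := by rwa [le_div_iff₀ hLB]
    refine h1.trans ?_
    calc Q * n / L ^ B = δ * (Q / L ^ A₁ * n) := by rw [hδ]; field_simp
      _ ≤ δ * l := by gcongr
  have hlow : Real.exp M ≤ l := by
    have h1 : Real.exp M ≤ Q / L ^ A₁ := by
      rw [le_div_iff₀ hLA]
      calc Real.exp M * L ^ A₁ ≤ Real.exp M * Real.exp M := by gcongr
        _ = Real.exp (2 * M) := by rw [← Real.exp_add]; congr 1; ring
        _ ≤ Q := hQM
    have h2 : Q / L ^ A₁ ≤ Q / L ^ A₁ * n := by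
      have : 0 < Q / L ^ A₁ := by positivity
      nlinarith
    linarith
  have hlogl : M ≤ Real.log l := by
    rw [Real.le_log_iff_exp_le hlpos]; exact hlow
  have hl6 : 6 ≤ l := by
    have := Real.add_one_le_exp M; linarith
  have hFlo : (1 - δ) * l ≤ F := by
    have := (abs_le.1 hE).1; linarith
  have hFhi : F ≤ (1 + δ) * l := by
    have := (abs_le.1 hE).2; linarith
  have hF3 : 3 ≤ F := by nlinarith
  have hF0 : 0 < F := by linarith
  have hlogF : |Real.log F - Real.log l| ≤ 2 * δ := by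
    rw [abs_le]
    constructor
    · have h1 : Real.log (l / F) ≤ l / F - 1 := Real.log_le_sub_one_of_pos (by positivity)
      rw [Real.log_div hlpos.ne' hF0.ne'] at h1
      have h2 : l / F - 1 ≤ 2 * δ := by
        rw [div_sub_one hF0.ne', div_le_iff₀ hF0]
        nlinarith
      linarith
    · have h1 : Real.log (F / l) ≤ F / l - 1 := Real.log_le_sub_one_of_pos (by positivity)
      rw [Real.log_div hF0.ne' hlpos.ne'] at h1
      have h2 : F / l - 1 ≤ 2 * δ := by
        rw [div_sub_one hlpos.ne', div_le_iff₀ hlpos]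
        nlinarith
      linarith
  refine ⟨hF3, by linarith, ?_, ?_, hlogF⟩
  · have := (abs_le.1 hlogF).1; linarith
  · have hlup : l ≤ 2 * H ^ 2 := by
      have : b * n ≤ H * H := by gcongr
      nlinarith
    have hFup : F ≤ H ^ 3 := by
      have h1 : F ≤ (1 + 1 / 10) * (2 * H ^ 2) := by
        calc F ≤ (1 + δ) * l := hFhi
          _ ≤ (1 + 1 / 10) * (2 * H ^ 2) := by gcongr
      have h2 : (1 + 1 / 10) * (2 * H ^ 2) ≤ H ^ 3 := by
        have : H ^ 3 = H * H ^ 2 := by ring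
        rw [this]; nlinarith [sq_nonneg H, sq_pos_of_pos hH0]
      linarith
    calc Real.log F ≤ Real.log (H ^ 3) := Real.log_le_log hF0 hFup
      _ = 3 * L := by rw [Real.log_pow, hLH, Real.log_exp]; norm_num

theorem lamP_mul (m : ℤ) (hm : 3 ≤ m) :
    lamP m * (1 / Real.log (m : ℝ)) = if m.natAbs.Prime then 1 else 0 := by
  unfold lamP
  have h1 : m.toNat = m.natAbs := by omega
  have h2 : ((m.toNat : ℕ) : ℝ) = (m : ℝ) := by
    have : ((m.toNat : ℕ) : ℤ) = m := Int.toNat_of_nonneg (by omega)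
    exact_mod_cast congrArg (fun z : ℤ => (z : ℝ)) this
  have h3 : 0 < Real.log (m : ℝ) := Real.log_pos (by
    have : (3 : ℝ) ≤ m := by exact_mod_cast hm
    linarith)
  rw [h2, h1]
  split_ifs
  · field_simp
  · simp

theorem lamP_bound (m : ℤ) (hm : 3 ≤ m) : 0 ≤ lamP m ∧ lamP m ≤ Real.log (m : ℝ) := by
  refine ⟨Pool.Agent.H373R2.T7.lamP_nonneg m, ?_⟩
  unfold lamP
  have h2 : ((m.toNat : ℕ) : ℝ) = (m : ℝ) := by
    have : ((m.toNat : ℕ) : ℤ) = m := Int.toNat_of_nonneg (by omega)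
    exact_mod_cast congrArg (fun z : ℤ => (z : ℝ)) this
  have h3 : 0 < Real.log (m : ℝ) := Real.log_pos (by
    have : (3 : ℝ) ≤ m := by exact_mod_cast hm
    linarith)
  rw [h2]
  split_ifs
  · exact le_rfl
  · exact h3.le

theorem main : S_IN3 := by
  classical
  intro k e A he
  refine ⟨A + 1, by omega, fun B₀ => ?_⟩
  have heR : (1 : ℝ) ≤ e := by exact_mod_cast he
  -- the size of `H`
  have hlog : Filter.Tendsto (fun H : ℕ => Real.log (H : ℝ)) Filter.atTop Filter.atTop :=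
    Real.tendsto_log_atTop.comp tendsto_natCast_atTop_atTop
  have ev : ∀ᶠ L : ℝ in Filter.atTop, 10 * (e : ℝ) + 4 * (k : ℝ) ≤ L ∧ L ^ (A + 2) ≤ Real.exp (L / (2 * e)) := by
    refine (Filter.eventually_ge_atTop _).and ?_
    have h1 : Filter.Tendsto (fun x : ℝ => Real.exp x / x ^ (A + 3)) Filter.atTop Filter.atTop :=
      Real.tendsto_exp_div_pow_atTop (A + 3)
    have h2 : Filter.Tendsto (fun L : ℝ => L / (2 * e)) Filter.atTop Filter.atTop :=
      Filter.tendsto_id.atTop_div_const (by positivity)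
    filter_upwards [(h1.comp h2).eventually (Filter.eventually_ge_atTop ((2 * e : ℝ) ^ (A + 2))),
      Filter.eventually_ge_atTop (2 * e : ℝ)] with L h3 h4
    simp only [Function.comp] at h3
    have h8 : 1 ≤ L / (2 * e) := by
      rw [le_div_iff₀ (by positivity)]; linarith
    have h5 : 0 < (L / (2 * e)) ^ (A + 3) := by positivity
    rw [le_div_iff₀ h5] at h3
    refine le_trans ?_ h3
    have h6 : (L / (2 * e)) ^ (A + 2) ≤ (L / (2 * e)) ^ (A + 3) := pow_le_pow_right₀ h8 (by omega)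
    calc L ^ (A + 2) = (2 * e) ^ (A + 2) * (L / (2 * e)) ^ (A + 2) := by
          rw [← mul_pow]; congr 1; field_simp
      _ ≤ _ := by gcongr
  obtain ⟨H₀, hH₀⟩ := Filter.eventually_atTop.1 (hlog.eventually ev)
  refine ⟨B₀ + 2 * A + 4 * k + 20, max H₀ 1, by omega, ?_⟩
  intro H hH y hy hyH Q b c F S hbc hF hS0 hS hsum
  have hH1 : 1 ≤ H := le_trans (le_max_right _ _) hH
  have hHR : (0 : ℝ) < H := by exact_mod_cast hH1
  obtain ⟨hL1, hL2⟩ := hH₀ H (le_trans (le_max_left _ _) hH)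
  set L : ℝ := Real.log H with hLdef
  set B : ℕ := B₀ + 2 * A + 4 * k + 20 with hBdef
  have hk0 : (0 : ℝ) ≤ k := Nat.cast_nonneg k
  have hL10 : 10 ≤ L := by linarith
  have hL0 : 0 < L := by linarith
  have hLone : 1 ≤ L := by linarith
  have hHexp : (H : ℝ) = Real.exp L := by rw [hLdef, Real.exp_log hHR]
  have hM5 : 5 ≤ L / (2 * e) := by
    rw [le_div_iff₀ (by positivity)]; linarith
  have hHe : (H : ℝ) ^ (1 / e : ℝ) = Real.exp (2 * (L / (2 * e))) := by
    rw [hHexp, ← Real.exp_mul]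
    congr 1
    field_simp
  have hy1R : (1 : ℝ) ≤ y := le_trans (one_le_pow₀ hLone) hy
  have hy1 : 1 ≤ y := by exact_mod_cast hy1R
  set δ : ℝ := L ^ (A + 2) / L ^ B with hδ
  have hδ0 : 0 < δ := by positivity
  -- pointwise facts
  have pt : ∀ i, ∀ n ∈ Icc 1 y, 3 ≤ F i n ∧ 1 ≤ Real.log ((b i : ℝ) * n + c i) ∧
      1 ≤ Real.log (F i n : ℝ) ∧ Real.log (F i n : ℝ) ≤ 3 * L ∧
      |Real.log (F i n : ℝ) - Real.log ((b i : ℝ) * n + c i)| ≤ 2 * δ := by
    intro i n hn
    have hn' := Finset.mem_Icc.1 hn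
    have hb' : (Q i : ℝ) / L ^ (A + 2) ≤ b i := (hbc i).2.2.2.2
    have hQM : Real.exp (2 * (L / (2 * e))) ≤ (Q i : ℝ) := by
      rw [← hHe]; exact (hbc i).1
    have hF' := hF i n hn
    have h := logs (A₁ := A + 2) (B := B) hL10 hHexp hM5 hL2 hQM (b i) (c i) n (F i n : ℝ) hb'
      (by exact_mod_cast (hbc i).2.1) (by exact_mod_cast (hbc i).2.2.1) (by exact_mod_cast (hbc i).2.2.2.1)
      (by exact_mod_cast hn'.1) (by exact_mod_cast le_trans hn'.2 hyH)
      (by push_cast at hF'; exact hF') (by omega)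
    refine ⟨?_, h.2⟩
    have := h.1
    exact_mod_cast this
  refine ⟨fun i n hn => (pt i n hn).1, ?_⟩
  -- the weights
  set ρ : ℕ → ℝ := fun n => ∏ i, 1 / Real.log ((b i : ℝ) * n + c i) with hρdef
  set ρ' : ℕ → ℝ := fun n => ∏ i, 1 / Real.log (F i n : ℝ) with hρ'def
  have hρρ' : ∀ n ∈ Icc 1 y, |ρ' n - ρ n| ≤ k * (2 * δ) := by
    intro n hn
    have h := prod_sub (Finset.univ : Finset (Fin k)) (fun i => 1 / Real.log (F i n : ℝ))
      (fun i => 1 / Real.log ((b i : ℝ) * n + c i)) (2 * δ) ?_ ?_ ?_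
    · rw [Finset.card_univ, Fintype.card_fin] at h; exact h
    · intro i _
      have := (pt i n hn).2.2.1
      exact ⟨by positivity, by rw [div_le_one (by linarith)]; exact this⟩
    · intro i _
      have := (pt i n hn).2.1
      exact ⟨by positivity, by rw [div_le_one (by linarith)]; exact this⟩
    · intro i _
      obtain ⟨_, h1, h2, _, h3⟩ := pt i n hn
      have p1 : 0 < Real.log ((b i : ℝ) * n + c i) := by linarith
      have p2 : 0 < Real.log (F i n : ℝ) := by linarith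
      show |1 / Real.log (F i n : ℝ) - 1 / Real.log ((b i : ℝ) * n + c i)| ≤ 2 * δ
      rw [div_sub_div _ _ p2.ne' p1.ne', abs_div, abs_of_pos (mul_pos p2 p1)]
      rw [div_le_iff₀ (mul_pos p2 p1)]
      have e : 1 * Real.log ((b i : ℝ) * n + c i) - Real.log (F i n : ℝ) * 1
          = -(Real.log (F i n : ℝ) - Real.log ((b i : ℝ) * n + c i)) := by ring
      rw [e, abs_neg]
      refine h3.trans ?_
      have : 1 ≤ Real.log (F i n : ℝ) * Real.log ((b i : ℝ) * n + c i) := by nlinarith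
      nlinarith
  -- bounds for the products of lamP
  have hlam : ∀ n ∈ Icc 1 y, 0 ≤ ∏ i, lamP (F i n) ∧ ∏ i, lamP (F i n) ≤ (3 * L) ^ k := by
    intro n hn
    refine ⟨Finset.prod_nonneg fun i _ => (lamP_bound _ (pt i n hn).1).1, ?_⟩
    calc ∏ i, lamP (F i n) ≤ ∏ i : Fin k, (3 * L) := by
          apply Finset.prod_le_prod
          · intro i _; exact (lamP_bound _ (pt i n hn).1).1
          · intro i _; exact (lamP_bound _ (pt i n hn).1).2.trans (pt i n hn).2.2.2.1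
      _ = _ := by simp
  -- count
  have hcount : (((Icc 1 y).filter (fun n => ∀ i, (F i n).natAbs.Prime)).card : ℝ)
      = ∑ n ∈ Icc 1 y, (∏ i, lamP (F i n)) * ρ' n := by
    rw [Finset.card_filter]
    push_cast
    apply Finset.sum_congr rfl
    intro n hn
    rw [hρ'def]
    simp only
    rw [← Finset.prod_mul_distrib]
    have : ∀ i ∈ (Finset.univ : Finset (Fin k)), lamP (F i n) * (1 / Real.log (F i n : ℝ))
        = if (F i n).natAbs.Prime then 1 else 0 := fun i _ => lamP_mul _ (pt i n hn).1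
    rw [Finset.prod_congr rfl this, Finset.prod_boole]
    simp
  -- Q bounds
  have hQ : (3 * L) ^ k + L ^ (k + 1) ≤ L ^ (2 * k + 2) := by
    have h1 : (3 * L) ^ k ≤ L ^ (2 * k + 1) := by
      calc (3 * L) ^ k ≤ (L * L) ^ k := by gcongr; linarith
        _ = L ^ (2 * k) := by rw [← pow_two, ← pow_mul]
        _ ≤ L ^ (2 * k + 1) := pow_le_pow_right₀ hLone (by omega)
    have h2 : L ^ (k + 1) ≤ L ^ (2 * k + 1) := pow_le_pow_right₀ hLone (by omega)
    have h3 : L ^ (2 * k + 2) = L * L ^ (2 * k + 1) := by ring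
    have h4 : 0 < L ^ (2 * k + 1) := by positivity
    rw [h3]
    nlinarith
  -- Abel summation
  have hM : ∀ t, 1 ≤ t → t ≤ y → |∑ n ∈ Icc 1 t, (∏ i, lamP (F i n) - S)| ≤
      2 * (y / L ^ (A + 1)) := by
    intro t ht1 hty
    have htR : (t : ℝ) ≤ y := by exact_mod_cast hty
    have hyA : 0 ≤ (y : ℝ) / L ^ (A + 1) := by positivity
    by_cases htB : L ^ B₀ ≤ t
    · have h1 := hsum t htB hty
      have e : ∑ n ∈ Icc 1 t, (∏ i, lamP (F i n) - S) = ∑ n ∈ Icc 1 t, ∏ i, lamP (F i n) - t * S := by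
        rw [Finset.sum_sub_distrib]; simp
      rw [e]
      refine h1.trans ?_
      have : (t : ℝ) / L ^ (A + 1) ≤ y / L ^ (A + 1) := by gcongr
      linarith
    · push Not at htB
      have h1 : |∑ n ∈ Icc 1 t, (∏ i, lamP (F i n) - S)| ≤ t * L ^ (2 * k + 2) := by
        calc |∑ n ∈ Icc 1 t, (∏ i, lamP (F i n) - S)|
            ≤ ∑ n ∈ Icc 1 t, |∏ i, lamP (F i n) - S| := Finset.abs_sum_le_sum_abs _ _
          _ ≤ ∑ n ∈ Icc 1 t, L ^ (2 * k + 2) := by
              apply Finset.sum_le_sum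
              intro n hn
              have hn' : n ∈ Icc 1 y := Finset.mem_Icc.2 ⟨(Finset.mem_Icc.1 hn).1,
                (Finset.mem_Icc.1 hn).2.trans hty⟩
              obtain ⟨h1, h2⟩ := hlam n hn'
              have h3 : 0 ≤ (3 * L) ^ k := by positivity
              rw [abs_le]
              constructor <;> linarith
          _ = _ := by simp
      have h2 : (t : ℝ) * L ^ (2 * k + 2) ≤ L ^ B₀ * L ^ (2 * k + 2) := by gcongr
      have h3 : L ^ B₀ * L ^ (2 * k + 2) ≤ y / L ^ (A + 1) := by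
        rw [le_div_iff₀ (by positivity), ← pow_add, ← pow_add]
        exact le_trans (pow_le_pow_right₀ hLone (by omega)) hy
      linarith
  have hρanti : ∀ n, 1 ≤ n → n + 1 ≤ y → ρ (n + 1) ≤ ρ n := by
    intro n hn1 hn2
    apply Finset.prod_le_prod
    · intro i _
      have := (pt i (n + 1) (Finset.mem_Icc.2 ⟨by omega, hn2⟩)).2.1
      positivity
    · intro i _
      have h1 := (pt i n (Finset.mem_Icc.2 ⟨by omega, by omega⟩)).2.1
      have h2 : (0 : ℝ) < (b i : ℝ) * n + c i := by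
        have : (1 : ℝ) ≤ c i := by exact_mod_cast (hbc i).2.2.1
        positivity
      apply one_div_le_one_div_of_le (by linarith)
      apply Real.log_le_log h2
      push_cast
      have : (0 : ℝ) ≤ b i := Nat.cast_nonneg _
      nlinarith
  have hρ0 : ∀ n, 1 ≤ n → n ≤ y → 0 ≤ ρ n := by
    intro n hn1 hn2
    apply Finset.prod_nonneg
    intro i _
    have := (pt i n (Finset.mem_Icc.2 ⟨hn1, hn2⟩)).2.1
    positivity
  have hρ1 : ρ 1 ≤ 1 := by
    apply Finset.prod_le_one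
    · intro i _
      have := (pt i 1 (Finset.mem_Icc.2 ⟨le_rfl, hy1⟩)).2.1
      positivity
    · intro i _
      have := (pt i 1 (Finset.mem_Icc.2 ⟨le_rfl, hy1⟩)).2.1
      rw [div_le_one (by linarith)]; exact this
  have hyA : 0 ≤ (y : ℝ) / L ^ (A + 1) := by positivity
  have hAbel : |∑ n ∈ Icc 1 y, (∏ i, lamP (F i n) - S) * ρ n| ≤ 2 * (y / L ^ (A + 1)) := by
    have h := abel (fun n => ∏ i, lamP (F i n) - S) ρ (2 * (y / L ^ (A + 1))) y hρanti hρ0 hM hy1
    refine h.trans ?_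
    have : 0 ≤ ρ 1 := hρ0 1 le_rfl hy1
    nlinarith
  -- replacing the weights
  have hrep : |∑ n ∈ Icc 1 y, (∏ i, lamP (F i n) - S) * (ρ' n - ρ n)| ≤ y / L ^ (A + 1) := by
    calc |∑ n ∈ Icc 1 y, (∏ i, lamP (F i n) - S) * (ρ' n - ρ n)|
        ≤ ∑ n ∈ Icc 1 y, |(∏ i, lamP (F i n) - S) * (ρ' n - ρ n)| := Finset.abs_sum_le_sum_abs _ _
      _ ≤ ∑ n ∈ Icc 1 y, L ^ (2 * k + 2) * (k * (2 * δ)) := by
          apply Finset.sum_le_sum
          intro n hn
          obtain ⟨h1, h2⟩ := hlam n hn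
          have h3 : 0 ≤ (3 * L) ^ k := by positivity
          rw [abs_mul]
          apply mul_le_mul _ (hρρ' n hn) (abs_nonneg _) (by positivity)
          rw [abs_le]
          constructor <;> linarith
      _ = y * (L ^ (2 * k + 2) * (k * (2 * δ))) := by simp
      _ ≤ y * (1 / L ^ (A + 1)) := by
          apply mul_le_mul_of_nonneg_left _ (by linarith)
          have h2k : 2 * (k : ℝ) ≤ L := by linarith
          have : L ^ (2 * k + 2) * (k * (2 * δ)) = (2 * k) * (L ^ (2 * k + 2) * L ^ (A + 2)) / L ^ B := by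
            rw [hδ]; ring
          rw [this, div_le_div_iff₀ (by positivity) (by positivity), one_mul]
          calc (2 * k) * (L ^ (2 * k + 2) * L ^ (A + 2)) * L ^ (A + 1)
              ≤ L * (L ^ (2 * k + 2) * L ^ (A + 2)) * L ^ (A + 1) := by gcongr
            _ = L ^ (1 + (2 * k + 2) + (A + 2) + (A + 1)) := by
                rw [pow_add, pow_add, pow_add, pow_one]; ring
            _ ≤ L ^ B := pow_le_pow_right₀ hLone (by omega)
      _ = y / L ^ (A + 1) := by ring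
  have e : (∑ n ∈ Icc 1 y, (∏ i, lamP (F i n)) * ρ' n) - S * ∑ n ∈ Icc 1 y, ρ' n
      = ∑ n ∈ Icc 1 y, (∏ i, lamP (F i n) - S) * ρ n
        + ∑ n ∈ Icc 1 y, (∏ i, lamP (F i n) - S) * (ρ' n - ρ n) := by
    rw [Finset.mul_sum, ← Finset.sum_sub_distrib, ← Finset.sum_add_distrib]
    apply Finset.sum_congr rfl
    intro n _
    ring
  rw [hcount, e]
  calc _ ≤ _ := abs_add_le _ _
    _ ≤ 2 * (y / L ^ (A + 1)) + y / L ^ (A + 1) := add_le_add hAbel hrep
    _ = 3 * (y / L ^ (A + 1)) := by ring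
    _ ≤ y / L ^ A := by
        have : (y : ℝ) / L ^ A = L * (y / L ^ (A + 1)) := by
          rw [pow_succ]; field_simp
        rw [this]
        apply mul_le_mul_of_nonneg_right _ hyA
        linarith

end Pool.Agent.helper24_UT.In3
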