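import Pool.Agent.helper24_UT.Stm5

set_option autoImplicit false

namespace Pool.Agent.helper24_UT.Kap

open Finset
open Pool.Agent.helper24_UT
open Pool.Agent.H376R2.MR (ch er DP FK)
open Pool.Agent.H373R2.T7 (Vz pz mem_pz Vz_pos)

/-- number of `n ≤ x` in the class `a` modulo `d` -/
noncomputable def Na (d x a : ℕ) : ℝ := (((Icc 1 x).filter (fun n => n % d = a)).card : ℝ)

lemma Na_nonneg (d x a : ℕ) : 0 ≤ Na d x a := by unfold Na; positivity

lemma Na_err (d x a : ℕ) (hd : 0 < d) (ha : a < d) : |Na d x a - x / d| ≤ 1 := by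
  have hset : (Icc 1 x).filter (fun n => n % d = a) =
      (Ioc 0 x).filter (fun n => n ≡ a [MOD d]) := by
    ext n
    simp only [mem_filter, mem_Icc, mem_Ioc, Nat.ModEq, Nat.mod_eq_of_lt ha]
    omega
  have hcard := Nat.Ioc_filter_modEq_card 0 x hd a
  have hd' : (0 : ℚ) < d := by exact_mod_cast hd
  have hA1 := Int.floor_le (((x : ℚ) - a) / d)
  have hA2 := Int.lt_floor_add_one (((x : ℚ) - a) / d)
  have hB1 := Int.floor_le ((((0 : ℕ) : ℚ) - a) / d)
  have hB2 := Int.lt_floor_add_one ((((0 : ℕ) : ℚ) - a) / d)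
  have hsub : ((x : ℚ) - a) / d - (((0 : ℕ) : ℚ) - a) / d = x / d := by
    rw [← sub_div]; congr 1; push_cast; ring
  have hx : (0 : ℚ) ≤ x / d := by positivity
  have hq : |((((Icc 1 x).filter (fun n => n % d = a)).card : ℕ) : ℚ) - x / d| ≤ 1 := by
    rw [hset]
    have h1 : (((((Ioc 0 x).filter (fun n => n ≡ a [MOD d])).card : ℕ) : ℤ) : ℚ) =
        ((max (⌊((x : ℚ) - a) / d⌋ - ⌊(((0 : ℕ) : ℚ) - a) / d⌋) 0 : ℤ) : ℚ) := by
      exact_mod_cast hcard
    rw [Int.cast_natCast] at h1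
    rw [h1]
    push_cast
    rw [abs_le]
    constructor
    · have := le_max_left ((⌊((x : ℚ) - a) / d⌋ : ℚ) - (⌊(((0 : ℕ) : ℚ) - a) / d⌋ : ℚ)) 0
      push_cast at this hA1 hA2 hB1 hB2 hsub ⊢
      linarith
    · have h2 : max ((⌊((x : ℚ) - a) / d⌋ : ℚ) - (⌊(((0 : ℕ) : ℚ) - a) / d⌋ : ℚ)) 0 ≤ x / d + 1 := by
        apply max_le
        · push_cast at hA1 hA2 hB1 hB2 hsub ⊢
          linarith
        · linarith
      push_cast at h2 ⊢
      linarith
  have hr : |(((((Icc 1 x).filter (fun n => n % d = a)).card : ℕ) : ℚ) : ℝ) - ((x / d : ℚ) : ℝ)|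
      ≤ 1 := by
    exact_mod_cast hq
  unfold Na
  push_cast at hr
  exact hr

lemma Na_sum (d x : ℕ) (hd : 0 < d) : ∑ a ∈ range d, Na d x a = x := by
  unfold Na
  rw [← Nat.cast_sum, ← card_eq_sum_card_fiberwise (f := fun n => n % d) (s := Icc 1 x)
    (t := range d)]
  · simp
  · intro n _
    simp only [coe_range, Set.mem_Iio]
    exact Nat.mod_lt n hd

/-- the squares of the errors add up to at most `2 x` -/
lemma Na_err_sum (d x : ℕ) (hd : 0 < d) : ∑ a ∈ range d, (Na d x a - x / d) ^ 2 ≤ 2 * x := by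
  have hd' : (0 : ℝ) < d := by exact_mod_cast hd
  calc ∑ a ∈ range d, (Na d x a - x / d) ^ 2 ≤ ∑ a ∈ range d, (Na d x a + x / d) := by
        refine sum_le_sum fun a ha => ?_
        have h1 := Na_err d x a hd (mem_range.mp ha)
        have h2 := Na_nonneg d x a
        have h3 : (0 : ℝ) ≤ x / d := by positivity
        rw [abs_le] at h1
        have h4 : |Na d x a - x / d| ≤ 1 := abs_le.mpr h1
        have h5 : (Na d x a - x / d) ^ 2 ≤ |Na d x a - x / d| := by
          rw [← sq_abs]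
          have := abs_nonneg (Na d x a - x / d)
          nlinarith
        have h6 : |Na d x a - x / d| ≤ Na d x a + x / d := by
          rw [abs_le]; constructor <;> linarith
        linarith
    _ = 2 * x := by
        rw [sum_add_distrib, Na_sum d x hd, sum_const, card_range, nsmul_eq_mul]
        field_simp
        ring

lemma W_eq (d y Y a : ℕ) (hyY : y ≤ Y) :
    ∑ n ∈ (Icc 1 Y).filter (fun n => n % d = a), ww y Y n = Na d y a / y - Na d Y a / Y := by
  unfold ww Na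
  rw [sum_sub_distrib, sum_const, nsmul_eq_mul, ← sum_filter, sum_const, nsmul_eq_mul, filter_filter]
  have h : (Icc 1 Y).filter (fun n => n % d = a ∧ n ≤ y) = (Icc 1 y).filter (fun n => n % d = a) := by
    ext n
    simp only [mem_filter, mem_Icc]
    omega
  rw [h]
  ring

lemma W_sq_sum (d y Y : ℕ) (hd : 0 < d) (hy : 1 ≤ y) (hyY : y ≤ Y) :
    ∑ a ∈ range d, (∑ n ∈ (Icc 1 Y).filter (fun n => n % d = a), ww y Y n) ^ 2 ≤ 8 / y := by
  have hy0 : (0 : ℝ) < y := by exact_mod_cast hy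
  have hY0 : (0 : ℝ) < Y := by exact_mod_cast (by omega : 0 < Y)
  have hyY' : (y : ℝ) ≤ Y := by exact_mod_cast hyY
  have hd' : (0 : ℝ) < d := by exact_mod_cast hd
  calc ∑ a ∈ range d, (∑ n ∈ (Icc 1 Y).filter (fun n => n % d = a), ww y Y n) ^ 2
      ≤ ∑ a ∈ range d, (2 / (y : ℝ) ^ 2 * (Na d y a - y / d) ^ 2 +
          2 / (Y : ℝ) ^ 2 * (Na d Y a - Y / d) ^ 2) := by
        refine sum_le_sum fun a _ => ?_
        rw [W_eq d y Y a hyY]
        have h1 : Na d y a / y - Na d Y a / Y =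
            (Na d y a - y / d) / y - (Na d Y a - Y / d) / Y := by
          field_simp
          ring
        rw [h1]
        have h2 : 2 / (y : ℝ) ^ 2 * (Na d y a - y / d) ^ 2 = 2 * ((Na d y a - y / d) / y) ^ 2 := by
          rw [div_pow]; ring
        have h3 : 2 / (Y : ℝ) ^ 2 * (Na d Y a - Y / d) ^ 2 = 2 * ((Na d Y a - Y / d) / Y) ^ 2 := by
          rw [div_pow]; ring
        rw [h2, h3]
        nlinarith [sq_nonneg ((Na d y a - y / d) / y + (Na d Y a - Y / d) / Y)]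
    _ = 2 / (y : ℝ) ^ 2 * ∑ a ∈ range d, (Na d y a - y / d) ^ 2 +
          2 / (Y : ℝ) ^ 2 * ∑ a ∈ range d, (Na d Y a - Y / d) ^ 2 := by
        rw [sum_add_distrib, mul_sum, mul_sum]
    _ ≤ 2 / (y : ℝ) ^ 2 * (2 * y) + 2 / (Y : ℝ) ^ 2 * (2 * Y) := by
        refine add_le_add (mul_le_mul_of_nonneg_left (Na_err_sum d y hd) (by positivity))
          (mul_le_mul_of_nonneg_left (Na_err_sum d Y hd) (by positivity))
    _ = 4 / y + 4 / Y := by
        field_simp
        ring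
    _ ≤ 8 / y := by
        have h4 : (4 : ℝ) / Y ≤ 4 / y := div_le_div_of_nonneg_left (by norm_num) hy0 hyY'
        have h5 : (8 : ℝ) / y = 4 / y + 4 / y := by ring
        linarith

/-- the sum over all pairs in the same class -/
lemma T_eq (d y Y : ℕ) (hd : 0 < d) :
    ∑ n ∈ Icc 1 Y, ∑ n' ∈ Icc 1 Y, (if n % d = n' % d then ww y Y n * ww y Y n' else 0) =
    ∑ a ∈ range d, (∑ n ∈ (Icc 1 Y).filter (fun n => n % d = a), ww y Y n) ^ 2 := by
  have h1 : ∀ a ∈ range d, (∑ n ∈ (Icc 1 Y).filter (fun n => n % d = a), ww y Y n) ^ 2 =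
      ∑ n ∈ Icc 1 Y, (if n % d = a then
        ∑ n' ∈ Icc 1 Y, (if n' % d = a then ww y Y n * ww y Y n' else 0) else 0) := by
    intro a _
    rw [sq, sum_filter, sum_mul]
    refine sum_congr rfl fun n _ => ?_
    split_ifs with h
    · rw [mul_sum]
      refine sum_congr rfl fun n' _ => ?_
      split_ifs <;> simp
    · simp
  rw [sum_congr rfl h1]
  symm
  rw [sum_comm]
  refine sum_congr rfl fun n _ => ?_
  rw [sum_ite_eq (range d) (n % d), if_pos (mem_range.mpr (Nat.mod_lt n hd))]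
  refine sum_congr rfl fun n' _ => ?_
  simp only [eq_comm]

lemma ww_abs (y Y n : ℕ) (hy : 1 ≤ y) (hyY : y ≤ Y) : |ww y Y n| ≤ 1 / y := by
  have hy0 : (0 : ℝ) < y := by exact_mod_cast hy
  have hY0 : (0 : ℝ) < Y := by exact_mod_cast (by omega : 0 < Y)
  have hyY' : (y : ℝ) ≤ Y := by exact_mod_cast hyY
  have h1 : (1 : ℝ) / Y ≤ 1 / y := div_le_div_of_nonneg_left (by norm_num) hy0 hyY'
  have h2 : (0 : ℝ) < 1 / Y := by positivity
  have h3 : (0 : ℝ) < 1 / y := by positivity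
  unfold ww
  split_ifs
  · rw [abs_le]; constructor <;> linarith
  · rw [abs_le]; constructor <;> linarith

lemma R_le (y Y : ℕ) (hy : 1 ≤ y) (hyY : y ≤ Y) :
    ∑ n ∈ Icc 1 Y, ww y Y n * ww y Y n ≤ 2 / y := by
  have hy0 : (0 : ℝ) < y := by exact_mod_cast hy
  have hY0 : (0 : ℝ) < Y := by exact_mod_cast (by omega : 0 < Y)
  calc ∑ n ∈ Icc 1 Y, ww y Y n * ww y Y n
      ≤ ∑ n ∈ Icc 1 Y, (1 / (y : ℝ)) * ((if n ≤ y then 1 / (y : ℝ) else 0) + 1 / (Y : ℝ)) := by
        refine sum_le_sum fun n _ => ?_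
        have h1 := ww_abs y Y n hy hyY
        have h2 : |ww y Y n| ≤ (if n ≤ y then 1 / (y : ℝ) else 0) + 1 / (Y : ℝ) := by
          unfold ww
          have h3 : (0 : ℝ) < 1 / Y := by positivity
          have h4 : (0 : ℝ) < 1 / y := by positivity
          split_ifs
          · rw [abs_le]; constructor <;> linarith
          · rw [abs_le]; constructor <;> linarith
        calc ww y Y n * ww y Y n = |ww y Y n| * |ww y Y n| := (abs_mul_abs_self _).symm
          _ ≤ _ := mul_le_mul h1 h2 (abs_nonneg _) (by positivity)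
    _ = (1 / (y : ℝ)) * (∑ n ∈ Icc 1 Y, (if n ≤ y then 1 / (y : ℝ) else 0) +
          ∑ n ∈ Icc 1 Y, 1 / (Y : ℝ)) := by
        rw [← mul_sum, sum_add_distrib]
    _ ≤ (1 / (y : ℝ)) * (1 + 1) := by
        refine mul_le_mul_of_nonneg_left (add_le_add ?_ ?_) (by positivity)
        · rw [← sum_filter, sum_const, nsmul_eq_mul]
          have h : ((Icc 1 Y).filter (fun n => n ≤ y)) ⊆ Icc 1 y := by
            intro n hn
            simp only [mem_filter, mem_Icc] at hn ⊢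
            omega
          have h2 := card_le_card h
          rw [Nat.card_Icc] at h2
          have h3 : ((((Icc 1 Y).filter (fun n => n ≤ y)).card : ℕ) : ℝ) ≤ y := by
            exact_mod_cast (by omega : ((Icc 1 Y).filter (fun n => n ≤ y)).card ≤ y)
          calc _ ≤ (y : ℝ) * (1 / y) := mul_le_mul_of_nonneg_right h3 (by positivity)
            _ = 1 := by field_simp
        · rw [sum_const, nsmul_eq_mul, Nat.card_Icc]
          simp only [Nat.add_sub_cancel]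
          exact le_of_eq (by field_simp)
    _ = 2 / y := by ring

/-- the off-diagonal pairs in the same class -/
lemma S_le (d y Y : ℕ) (hd : 0 < d) (hy : 1 ≤ y) (hyY : y ≤ Y) :
    |∑ n ∈ Icc 1 Y, ∑ n' ∈ (Icc 1 Y).filter (fun n' => n' ≠ n),
      (if n % d = n' % d then ww y Y n * ww y Y n' else 0)| ≤ 10 / y := by
  have hy0 : (0 : ℝ) < y := by exact_mod_cast hy
  have h1 : ∑ n ∈ Icc 1 Y, ∑ n' ∈ (Icc 1 Y).filter (fun n' => n' ≠ n),
      (if n % d = n' % d then ww y Y n * ww y Y n' else 0) =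
      ∑ n ∈ Icc 1 Y, ∑ n' ∈ Icc 1 Y, (if n % d = n' % d then ww y Y n * ww y Y n' else 0) -
      ∑ n ∈ Icc 1 Y, ww y Y n * ww y Y n := by
    rw [← sum_sub_distrib]
    refine sum_congr rfl fun n hn => ?_
    have h2 : (Icc 1 Y).filter (fun n' => n' ≠ n) = (Icc 1 Y).erase n := by
      ext n'; simp only [mem_filter, mem_erase]; tauto
    rw [h2, ← sum_erase_add _ _ hn]
    simp
  have h2 := W_sq_sum d y Y hd hy hyY
  have h3 := R_le y Y hy hyY
  have h4 : 0 ≤ ∑ a ∈ range d, (∑ n ∈ (Icc 1 Y).filter (fun n => n % d = a), ww y Y n) ^ 2 :=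
    sum_nonneg fun a _ => sq_nonneg _
  have h5 : 0 ≤ ∑ n ∈ Icc 1 Y, ww y Y n * ww y Y n :=
    sum_nonneg fun n _ => mul_self_nonneg _
  rw [h1, T_eq d y Y hd, abs_le]
  have h6 : (10 : ℝ) / y = 8 / y + 2 / y := by ring
  have h7 : (0 : ℝ) < 8 / y := by positivity
  have h8 : (0 : ℝ) < 2 / y := by positivity
  constructor <;> linarith

/-- the multiplicative weight -/
noncomputable def qq (k p : ℕ) : ℝ := ((1 - 1 / (p : ℝ))⁻¹) ^ k - 1

lemma one_sub_pos {z p : ℕ} (hp : p ∈ pz z) : 0 < 1 - 1 / (p : ℝ) ∧ 1 - 1 / (p : ℝ) ≤ 1 := by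
  have h2 : (2 : ℝ) ≤ p := by exact_mod_cast (mem_pz.mp hp).2.two_le
  have h3 : (1 : ℝ) / p ≤ 1 / 2 := div_le_div_of_nonneg_left (by norm_num) (by norm_num) h2
  have h4 : (0 : ℝ) < 1 / p := by positivity
  constructor <;> linarith

lemma qq_nonneg (k : ℕ) {z p : ℕ} (hp : p ∈ pz z) : 0 ≤ qq k p := by
  obtain ⟨h1, h2⟩ := one_sub_pos hp
  unfold qq
  have : 1 ≤ ((1 - 1 / (p : ℝ))⁻¹) ^ k := one_le_pow₀ ((one_le_inv₀ h1).mpr h2)
  linarith

lemma kap_pow (k z h : ℕ) : kap z h ^ k =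
    ∑ D ∈ (pz z).powerset, (if (∏ p ∈ D, p) ∣ h then ∏ p ∈ D, qq k p else 0) := by
  unfold kap
  rw [← prod_pow]
  have h1 : ∀ p ∈ (pz z).filter (fun p => p ∣ h), ((1 - 1 / (p : ℝ))⁻¹) ^ k = 1 + qq k p := by
    intro p _
    unfold qq
    ring
  rw [prod_congr rfl h1, prod_one_add, ← sum_filter]
  refine sum_congr ?_ fun _ _ => rfl
  ext D
  simp only [mem_powerset, mem_filter]
  constructor
  · intro hD
    refine ⟨fun p hp => (mem_filter.mp (hD hp)).1, ?_⟩
    exact Finset.prod_primes_dvd h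
      (fun p hp => (mem_pz.mp (mem_filter.mp (hD hp)).1).2.prime)
      (fun p hp => (mem_filter.mp (hD hp)).2)
  · rintro ⟨hD, hdvd⟩ p hp
    exact mem_filter.mpr ⟨hD hp, (dvd_prod_of_mem _ hp).trans hdvd⟩

lemma dvd_iff (d n n' : ℕ) : d ∣ ((n : ℤ) - n').natAbs ↔ n % d = n' % d := by
  rw [← Int.natCast_dvd, ← Nat.modEq_iff_dvd]
  exact eq_comm

theorem main : S_KAP := by
  intro k z y Y hz hy hyY
  have hy0 : (0 : ℝ) < y := by exact_mod_cast hy
  have h1 : ∑ n ∈ Icc 1 Y, ∑ n' ∈ (Icc 1 Y).filter (fun n' => n' ≠ n), ww y Y n * ww y Y n' *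
      kap z (((n : ℤ) - n').natAbs) ^ k =
      ∑ D ∈ (pz z).powerset, (∏ p ∈ D, qq k p) *
        ∑ n ∈ Icc 1 Y, ∑ n' ∈ (Icc 1 Y).filter (fun n' => n' ≠ n),
          (if n % (∏ p ∈ D, p) = n' % (∏ p ∈ D, p) then ww y Y n * ww y Y n' else 0) := by
    simp only [mul_sum]
    rw [sum_comm' (s := (pz z).powerset) (t := fun _ => Icc 1 Y)
      (t' := Icc 1 Y) (s' := fun _ => (pz z).powerset) (by intro x y; tauto)]
    refine sum_congr rfl fun n _ => ?_
    rw [sum_comm]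
    refine sum_congr rfl fun n' _ => ?_
    rw [kap_pow, mul_sum]
    refine sum_congr rfl fun D _ => ?_
    by_cases h : n % (∏ p ∈ D, p) = n' % (∏ p ∈ D, p)
    · rw [if_pos h, if_pos ((dvd_iff _ n n').mpr h)]; ring
    · rw [if_neg h, if_neg (fun h' => h ((dvd_iff _ n n').mp h'))]; ring
  rw [h1]
  have hDpos : ∀ D ∈ (pz z).powerset, 0 < ∏ p ∈ D, p := by
    intro D hD
    exact prod_pos fun p hp => (mem_pz.mp (mem_powerset.mp hD hp)).2.pos
  have hqpos : ∀ D ∈ (pz z).powerset, 0 ≤ ∏ p ∈ D, qq k p := by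
    intro D hD
    exact prod_nonneg fun p hp => qq_nonneg k (mem_powerset.mp hD hp)
  have hsum : ∑ D ∈ (pz z).powerset, ∏ p ∈ D, qq k p = ((Vz z)⁻¹) ^ k := by
    rw [← prod_one_add]
    unfold Vz
    rw [← prod_inv_distrib, ← prod_pow]
    refine prod_congr rfl fun p _ => ?_
    unfold qq
    ring
  calc |∑ D ∈ (pz z).powerset, (∏ p ∈ D, qq k p) *
        ∑ n ∈ Icc 1 Y, ∑ n' ∈ (Icc 1 Y).filter (fun n' => n' ≠ n),
          (if n % (∏ p ∈ D, p) = n' % (∏ p ∈ D, p) then ww y Y n * ww y Y n' else 0)|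
      ≤ ∑ D ∈ (pz z).powerset, |(∏ p ∈ D, qq k p) *
        ∑ n ∈ Icc 1 Y, ∑ n' ∈ (Icc 1 Y).filter (fun n' => n' ≠ n),
          (if n % (∏ p ∈ D, p) = n' % (∏ p ∈ D, p) then ww y Y n * ww y Y n' else 0)| :=
        abs_sum_le_sum_abs _ _
    _ ≤ ∑ D ∈ (pz z).powerset, (∏ p ∈ D, qq k p) * (10 / y) := by
        refine sum_le_sum fun D hD => ?_
        rw [abs_mul, abs_of_nonneg (hqpos D hD)]
        exact mul_le_mul_of_nonneg_left (S_le _ y Y (hDpos D hD) hy hyY) (hqpos D hD)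
    _ = ((Vz z)⁻¹) ^ k * (10 / y) := by rw [← sum_mul, hsum]
    _ ≤ 20 * ((Vz z)⁻¹) ^ k / y := by
        have h2 : 0 < ((Vz z)⁻¹) ^ k := pow_pos (inv_pos.mpr (Vz_pos z)) k
        rw [mul_div_assoc', div_le_div_iff_of_pos_right hy0]
        linarith

end Pool.Agent.helper24_UT.Kap
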