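import Pool.Agent.helper24_UT.Stm5

set_option autoImplicit false

namespace Pool.Agent.helper24_UT.Low

open Finset
open Pool.Agent.helper24_UT
open Pool.Agent.H376R2.MR (ch er DP FK)
open Pool.Agent.H373R2.T7 (pz Vz mem_pz Vz_pos Vz_inv_le)

lemma evv (K E : ℕ) (c : ℝ) (hc : 0 ≤ c) : ∃ N0 : ℕ, ∀ N : ℕ, N0 ≤ N → ∀ z : ℕ,
    (z : ℝ) ≤ Real.log N ^ E → ((Vz z)⁻¹) ^ K * c ≤ Real.log N := by
  obtain ⟨C, hC⟩ := Pool.Agent.Helper256.KM.mertens_inv
  have hlim : Filter.Tendsto (fun N : ℕ => Real.log (N : ℝ)) Filter.atTop Filter.atTop :=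
    Real.tendsto_log_atTop.comp (tendsto_natCast_atTop_atTop (R := ℝ))
  have h2 : ∀ᶠ N : ℕ in Filter.atTop,
      (Real.exp (2 * C) * (E : ℝ) ^ 2) ^ K * c * Real.log (Real.log N) ^ (2 * K) ≤ Real.log N := by
    have h3 := (Real.isLittleO_pow_log_id_atTop (n := 2 * K)).bound
      (show (0 : ℝ) < 1 / ((Real.exp (2 * C) * (E : ℝ) ^ 2) ^ K * c + 1) by positivity)
    have h4 := hlim.eventually h3
    filter_upwards [h4, hlim.eventually_ge_atTop 1] with N h5 h6
    simp only [id] at h5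
    have h9 : 0 ≤ Real.log (Real.log N) ^ (2 * K) := by rw [pow_mul]; positivity
    rw [Real.norm_of_nonneg h9, Real.norm_of_nonneg (by linarith), one_div, inv_mul_eq_div,
      le_div_iff₀ (by positivity)] at h5
    nlinarith
  obtain ⟨N0, h0⟩ := Filter.eventually_atTop.1 (h2.and (hlim.eventually_ge_atTop (3 ^ K * c + 1)))
  refine ⟨N0, fun N hN z hzE => ?_⟩
  obtain ⟨hb, hL⟩ := h0 N hN
  have hV0 : 0 < Vz z := Vz_pos z
  have hVi0 : 0 ≤ (Vz z)⁻¹ := by positivity
  rcases lt_or_ge z 3 with h3 | h3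
  · have hz3 : (Vz z)⁻¹ ≤ 3 := by
      rcases Nat.eq_zero_or_pos z with hz | hz
      · subst hz
        have : Vz 0 = 1 := by
          unfold Vz pz
          rw [show Icc 1 0 = (∅ : Finset ℕ) from rfl]
          simp
        rw [this]; norm_num
      · refine (Vz_inv_le z hz).trans ?_
        exact_mod_cast h3.le
    have : ((Vz z)⁻¹) ^ K ≤ 3 ^ K := pow_le_pow_left₀ hVi0 hz3 K
    nlinarith [mul_le_mul_of_nonneg_right this hc]
  have h4 := hC z h3
  have h5 : (Vz z)⁻¹ ≤ Real.exp (2 * ∑ p ∈ pz z, 1 / (p : ℝ)) := by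
    unfold Vz
    rw [← prod_inv_distrib, mul_sum, Real.exp_sum]
    apply prod_le_prod
    · intro p hp
      have hp2 : (2 : ℝ) ≤ p := by exact_mod_cast (mem_pz.1 hp).2.two_le
      apply inv_nonneg.2
      rw [sub_nonneg, div_le_one (by linarith)]; linarith
    · intro p hp
      have hp2 : (2 : ℝ) ≤ p := by exact_mod_cast (mem_pz.1 hp).2.two_le
      have h6 : (1 - 1 / (p : ℝ))⁻¹ ≤ 2 * (1 / p) + 1 := by
        rw [inv_le_iff_one_le_mul₀ (by rw [sub_pos, div_lt_one (by linarith)]; linarith)]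
        have h7 : 0 < 1 / (p : ℝ) := by positivity
        have h8 : 1 / (p : ℝ) ≤ 1 / 2 := one_div_le_one_div_of_le (by norm_num) hp2
        nlinarith
      exact h6.trans (Real.add_one_le_exp _)
  have hz3 : (3 : ℝ) ≤ z := by exact_mod_cast h3
  have hlz : 1 ≤ Real.log z := by
    rw [← Real.log_exp 1]
    apply Real.log_le_log (Real.exp_pos _)
    have := Real.exp_one_lt_d9
    linarith
  have h6 : ∑ p ∈ pz z, 1 / (p : ℝ) ≤ Real.log (Real.log z) + C := by
    have := (abs_le.1 h4).2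
    unfold pz
    linarith
  have h7 : Real.log z ≤ E * Real.log (Real.log N) := by
    have h8 := Real.log_le_log (by linarith) hzE
    rw [Real.log_pow] at h8
    exact h8
  have h8 : (Vz z)⁻¹ ≤ (Real.exp (2 * C) * (E : ℝ) ^ 2) * Real.log (Real.log N) ^ 2 := by
    calc (Vz z)⁻¹ ≤ Real.exp (2 * ∑ p ∈ pz z, 1 / (p : ℝ)) := h5
      _ ≤ Real.exp (2 * (Real.log (Real.log z) + C)) := Real.exp_le_exp.2 (by linarith)
      _ = Real.exp (2 * C) * Real.log z ^ 2 := by
          rw [mul_add, Real.exp_add, mul_comm 2 (Real.log (Real.log z)), Real.exp_mul,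
            Real.exp_log (by linarith)]
          norm_num
          ring
      _ ≤ Real.exp (2 * C) * (E * Real.log (Real.log N)) ^ 2 := by gcongr
      _ = (Real.exp (2 * C) * (E : ℝ) ^ 2) * Real.log (Real.log N) ^ 2 := by ring
  calc ((Vz z)⁻¹) ^ K * c
      ≤ ((Real.exp (2 * C) * (E : ℝ) ^ 2) * Real.log (Real.log N) ^ 2) ^ K * c :=
        mul_le_mul_of_nonneg_right (pow_le_pow_left₀ hVi0 h8 K) hc
    _ = (Real.exp (2 * C) * (E : ℝ) ^ 2) ^ K * c * Real.log (Real.log N) ^ (2 * K) := by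
        rw [mul_pow, pow_mul]; ring
    _ ≤ Real.log N := hb

lemma om_le {k : ℕ} (F : Fin k → Polynomial ℤ) (r : ℕ) (hF : ∀ i, (F i).natDegree ≤ r) (p : ℕ)
    (hp : p.Prime) (h : ∃ n : ℤ, ∀ i, ¬ (p : ℤ) ∣ (F i).eval n) : om F p ≤ k * r := by
  classical
  obtain ⟨n, hn⟩ := h
  have : Fact p.Prime := ⟨hp⟩
  unfold om
  have h1 : (range p).filter (fun t : ℕ => ∃ i, (p : ℤ) ∣ (F i).eval (t : ℤ)) ⊆
      (univ : Finset (Fin k)).biUnion (fun i =>
        (range p).filter (fun t : ℕ => (p : ℤ) ∣ (F i).eval (t : ℤ))) := by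
    intro t ht
    rw [mem_filter] at ht
    obtain ⟨h2, i, h3⟩ := ht
    rw [mem_biUnion]
    exact ⟨i, mem_univ _, mem_filter.2 ⟨h2, h3⟩⟩
  have h2 : ∀ i : Fin k, ((range p).filter (fun t : ℕ => (p : ℤ) ∣ (F i).eval (t : ℤ))).card ≤ r := by
    intro i
    set f : Polynomial (ZMod p) := (F i).map (Int.castRingHom (ZMod p)) with hf
    have hev : ∀ m : ℤ, f.eval (m : ZMod p) = (((F i).eval m : ℤ) : ZMod p) := by
      intro m
      rw [hf, Polynomial.eval_intCast_map]
      rfl
    have hf0 : f ≠ 0 := by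
      intro h0
      apply hn i
      have := hev n
      rw [h0, Polynomial.eval_zero] at this
      exact (ZMod.intCast_zmod_eq_zero_iff_dvd _ _).1 this.symm
    calc ((range p).filter (fun t : ℕ => (p : ℤ) ∣ (F i).eval (t : ℤ))).card
        = (((range p).filter (fun t : ℕ => (p : ℤ) ∣ (F i).eval (t : ℤ))).image
            (fun t : ℕ => (t : ZMod p))).card := by
          rw [card_image_of_injOn]
          intro a ha b hb hab
          rw [mem_coe, mem_filter, mem_range] at ha hb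
          have h3 := (ZMod.natCast_eq_natCast_iff' a b p).1 hab
          rwa [Nat.mod_eq_of_lt ha.1, Nat.mod_eq_of_lt hb.1] at h3
      _ ≤ f.roots.toFinset.card := by
          apply card_le_card
          intro x hx
          rw [mem_image] at hx
          obtain ⟨t, ht, rfl⟩ := hx
          rw [mem_filter] at ht
          rw [Multiset.mem_toFinset, Polynomial.mem_roots hf0, Polynomial.IsRoot]
          have h3 := hev (t : ℤ)
          rw [Int.cast_natCast] at h3
          rw [h3]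
          exact (ZMod.intCast_zmod_eq_zero_iff_dvd _ _).2 ht.2
      _ ≤ Multiset.card f.roots := Multiset.toFinset_card_le _
      _ ≤ f.natDegree := Polynomial.card_roots' f
      _ ≤ (F i).natDegree := Polynomial.natDegree_map_le
      _ ≤ r := hF i
  calc _ ≤ ((univ : Finset (Fin k)).biUnion (fun i =>
        (range p).filter (fun t : ℕ => (p : ℤ) ∣ (F i).eval (t : ℤ)))).card := card_le_card h1
    _ ≤ ∑ i : Fin k, ((range p).filter (fun t : ℕ => (p : ℤ) ∣ (F i).eval (t : ℤ))).card :=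
        card_biUnion_le
    _ ≤ ∑ i : Fin k, r := sum_le_sum (fun i _ => h2 i)
    _ = k * r := by simp

lemma om_lt {k : ℕ} (F : Fin k → Polynomial ℤ) (p : ℕ)
    (hp : p.Prime) (h : ∃ n : ℤ, ∀ i, ¬ (p : ℤ) ∣ (F i).eval n) : om F p < p := by
  classical
  obtain ⟨n, hn⟩ := h
  unfold om
  have hp0 : (p : ℤ) ≠ 0 := by exact_mod_cast hp.ne_zero
  set t0 : ℕ := (n % (p : ℤ)).toNat with ht0
  have h1 : (t0 : ℤ) = n % p := Int.toNat_of_nonneg (Int.emod_nonneg _ hp0)
  have h2 : t0 ∈ range p := by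
    rw [mem_range]
    have := Int.emod_lt_of_pos n (by exact_mod_cast hp.pos : (0 : ℤ) < p)
    omega
  have h3 : ((range p).filter (fun t : ℕ => ∃ i, (p : ℤ) ∣ (F i).eval (t : ℤ))) ⊂ range p := by
    rw [Finset.ssubset_iff_of_subset (filter_subset _ _)]
    refine ⟨t0, h2, ?_⟩
    rw [mem_filter]
    rintro ⟨-, i, hi⟩
    apply hn i
    have h4 : (p : ℤ) ∣ n - t0 := by
      rw [h1]; exact Int.dvd_self_sub_emod
    have h5 : (p : ℤ) ∣ (F i).eval n - (F i).eval (t0 : ℤ) :=
      h4.trans (Polynomial.sub_dvd_eval_sub _ _ _)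
    have := dvd_add h5 hi
    rwa [sub_add_cancel] at this
  have := card_lt_card h3
  rwa [card_range] at this

lemma bern (K p : ℕ) (h : 2 * K < p) : (1 - 1 / (p : ℝ)) ^ (2 * K) ≤ 1 - K / p := by
  have hp0 : (0 : ℝ) < p := by exact_mod_cast (by omega : 0 < p)
  have hp1 : (1 : ℝ) ≤ p := by exact_mod_cast (by omega : 1 ≤ p)
  set y : ℝ := K / p with hy
  have hy0 : 0 ≤ y := by positivity
  have hy1 : y ≤ 1 / 2 := by
    rw [hy, div_le_iff₀ hp0]
    have : (2 * K : ℝ) ≤ p := by exact_mod_cast h.le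
    linarith
  have h0 : 0 ≤ 1 - 1 / (p : ℝ) := by
    rw [sub_nonneg, div_le_one hp0]; exact hp1
  have h1 : (1 - 1 / (p : ℝ)) ≤ Real.exp (-(1 / (p : ℝ))) := by
    have := Real.add_one_le_exp (-(1 / (p : ℝ)))
    linarith
  have h2 : (1 - 1 / (p : ℝ)) ^ (2 * K) ≤ Real.exp (-(2 * y)) := by
    calc (1 - 1 / (p : ℝ)) ^ (2 * K) ≤ (Real.exp (-(1 / (p : ℝ)))) ^ (2 * K) :=
          pow_le_pow_left₀ h0 h1 _
      _ = Real.exp (-(2 * y)) := by
          rw [← Real.exp_nat_mul]
          congr 1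
          rw [hy]; push_cast; ring
  refine h2.trans ?_
  -- exp(-2y) ≤ 1 / (1 + 2y) ≤ 1 - y
  have h3 : (1 + 2 * y) ≤ Real.exp (2 * y) := by
    have := Real.add_one_le_exp (2 * y); linarith
  rw [Real.exp_neg, inv_le_iff_one_le_mul₀ (Real.exp_pos _)]
  have h4 : 1 ≤ (1 - y) * (1 + 2 * y) := by nlinarith
  nlinarith

theorem main : S_LOW := by
  intro k r E
  set K := k * r with hK
  set c : ℝ := ∏ p ∈ pz (2 * K), (1 / (p : ℝ)) with hc
  have hc0 : 0 < c := by
    rw [hc]
    refine prod_pos (fun p hp => ?_)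
    have := (mem_pz.1 hp).2.pos
    positivity
  obtain ⟨N0, h0⟩ := evv (2 * K) E (1 / c) (by positivity)
  refine ⟨N0, fun H hH z hz F hF hn => ?_⟩
  have h1 := h0 H hH z hz
  have hV0 : 0 < Vz z := Vz_pos z
  have hL0 : 0 < Real.log H := lt_of_lt_of_le (by positivity) h1
  have h2 : c * Vz z ^ (2 * K) ≤ sg z F := by
    set cp : ℕ → ℝ := fun p => if p ≤ 2 * K then 1 / (p : ℝ) else 1 with hcp
    have h3 : c ≤ ∏ p ∈ pz z, cp p := by
      have h4 : ∏ p ∈ pz z, cp p = ∏ p ∈ (pz z).filter (fun p => p ≤ 2 * K), (1 / (p : ℝ)) := by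
        rw [prod_filter]
      rw [h4, hc]
      have hsub : (pz z).filter (fun p => p ≤ 2 * K) ⊆ pz (2 * K) := by
        intro p hp
        rw [mem_filter] at hp
        exact mem_pz.2 ⟨hp.2, (mem_pz.1 hp.1).2⟩
      rw [← prod_sdiff hsub]
      have h5 : ∏ p ∈ pz (2 * K) \ (pz z).filter (fun p => p ≤ 2 * K), (1 / (p : ℝ)) ≤ 1 := by
        refine prod_le_one (fun p hp => by positivity) (fun p hp => ?_)
        have : (1 : ℝ) ≤ p := by exact_mod_cast (mem_pz.1 (mem_sdiff.1 hp).1).2.one_le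
        rw [div_le_one (by linarith)]; exact this
      have h6 : 0 ≤ ∏ p ∈ (pz z).filter (fun p => p ≤ 2 * K), (1 / (p : ℝ)) :=
        prod_nonneg (fun p _ => by positivity)
      nlinarith
    have hcp0 : ∀ p ∈ pz z, 0 < cp p := by
      intro p hp
      have := (mem_pz.1 hp).2.pos
      rw [hcp]; dsimp only
      split_ifs
      · positivity
      · norm_num
    have hx0 : ∀ p ∈ pz z, 0 < 1 - 1 / (p : ℝ) ∧ 1 - 1 / (p : ℝ) ≤ 1 := by
      intro p hp
      have h5 : (2 : ℝ) ≤ p := by exact_mod_cast (mem_pz.1 hp).2.two_le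
      have h6 : 0 < 1 / (p : ℝ) := by positivity
      refine ⟨?_, by linarith⟩
      rw [sub_pos, div_lt_one (by linarith)]; linarith
    calc c * Vz z ^ (2 * K) ≤ (∏ p ∈ pz z, cp p) * Vz z ^ (2 * K) :=
          mul_le_mul_of_nonneg_right h3 (by positivity)
      _ = ∏ p ∈ pz z, (cp p * (1 - 1 / (p : ℝ)) ^ (2 * K)) := by
          rw [prod_mul_distrib, prod_pow]; rfl
      _ ≤ sg z F := by
          unfold sg
          refine prod_le_prod (fun p hp => ?_) (fun p hp => ?_)
          · exact mul_nonneg (hcp0 p hp).le (pow_nonneg (hx0 p hp).1.le _)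
          · have hpp := (mem_pz.1 hp).2
            have hp0 : (0 : ℝ) < p := by exact_mod_cast hpp.pos
            have ho1 := om_le F r hF p hpp (hn p hpp)
            have ho2 := om_lt F p hpp (hn p hpp)
            have hx := hx0 p hp
            have hx1 : (1 - 1 / (p : ℝ)) ^ (2 * K) ≤ 1 := pow_le_one₀ hx.1.le hx.2
            have h6 : cp p * (1 - 1 / (p : ℝ)) ^ (2 * K) ≤ 1 - (om F p : ℝ) / p := by
              rw [hcp]; dsimp only
              split_ifs with h7
              · have h8 : 1 / (p : ℝ) ≤ 1 - (om F p : ℝ) / p := by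
                  rw [le_sub_iff_add_le, ← add_div, div_le_one hp0]
                  exact_mod_cast (by omega : 1 + om F p ≤ p)
                refine le_trans ?_ h8
                have : 0 ≤ 1 / (p : ℝ) := by positivity
                nlinarith
              · rw [one_mul]
                refine (bern K p (by omega)).trans ?_
                have : (om F p : ℝ) / p ≤ K / p := by
                  apply div_le_div_of_nonneg_right _ hp0.le
                  exact_mod_cast ho1
                linarith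
            refine h6.trans ?_
            have h9 : 0 ≤ 1 - (om F p : ℝ) / p := by
              rw [sub_nonneg, div_le_one hp0]
              exact_mod_cast ho2.le
            rw [le_div_iff₀ (pow_pos hx.1 k)]
            calc (1 - (om F p : ℝ) / p) * (1 - 1 / (p : ℝ)) ^ k
                ≤ (1 - (om F p : ℝ) / p) * 1 :=
                  mul_le_mul_of_nonneg_left (pow_le_one₀ hx.1.le hx.2) h9
              _ = _ := mul_one _
  refine le_trans ?_ h2
  rw [div_le_iff₀ hL0]
  have h5 : 0 < c * Vz z ^ (2 * K) := by positivity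
  calc (1 : ℝ) = c * Vz z ^ (2 * K) * (((Vz z)⁻¹) ^ (2 * K) * (1 / c)) := by
        rw [inv_pow]; field_simp
    _ ≤ c * Vz z ^ (2 * K) * Real.log H := mul_le_mul_of_nonneg_left h1 h5.le

end Pool.Agent.helper24_UT.Low
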