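import Pool.Agent.helper24_UT.Stm7
import Pool.Agent.H373R2.T7.LamZ2

set_option autoImplicit false

namespace Pool.Agent.helper24_UT.Mt23

open Finset
open Pool.Agent.helper24_UT
open Pool.Agent.H376R2.MR (ch er DP FK)
open Pool.Agent.H373R2.T7 (Vz pz Vz_inv_small)

theorem pz_factor {z p : ℕ} (hp : p ∈ pz z) : 0 < 1 - 1 / (p : ℝ) ∧ 1 - 1 / (p : ℝ) ≤ 1 := by
  have h1 : p.Prime := (Finset.mem_filter.1 hp).2
  have h2 : (2 : ℝ) ≤ p := by exact_mod_cast h1.two_le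
  have h3 : 1 / (p : ℝ) ≤ 1 / 2 := one_div_le_one_div_of_le (by norm_num) h2
  have h4 : 0 < 1 / (p : ℝ) := by positivity
  constructor <;> linarith

theorem Vz_pos' (z : ℕ) : 0 < Vz z := Finset.prod_pos fun _ hp => (pz_factor hp).1

theorem lz_nonneg (z : ℕ) (m : ℤ) : 0 ≤ lz z m := by
  unfold lz
  split_ifs
  · exact inv_nonneg.2 (Vz_pos' z).le
  · exact le_rfl

theorem lz_le (z : ℕ) (m : ℤ) : lz z m ≤ (Vz z)⁻¹ := by
  unfold lz
  split_ifs
  · exact le_rfl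
  · exact inv_nonneg.2 (Vz_pos' z).le

theorem kap_pos (z h : ℕ) : 0 < kap z h :=
  Finset.prod_pos fun _ hp => inv_pos.2 (pz_factor (Finset.mem_filter.1 hp).1).1

theorem kap_le (z h : ℕ) : kap z h ≤ (Vz z)⁻¹ := by
  unfold kap Vz
  rw [← Finset.prod_inv_distrib, ← Finset.prod_filter_mul_prod_filter_not (pz z) (fun p => p ∣ h)]
  refine le_mul_of_one_le_right ?_ ?_
  · exact Finset.prod_nonneg fun p hp => (inv_pos.2 (pz_factor (Finset.mem_filter.1 hp).1).1).le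
  · refine Finset.prod_induction _ (fun x : ℝ => 1 ≤ x) (fun a b ha hb => one_le_mul_of_one_le_of_one_le ha hb)
      le_rfl fun p hp => ?_
    have h1 := pz_factor (Finset.mem_filter.1 hp).1
    exact (one_le_inv₀ h1.1).2 h1.2

theorem prod_err {ι : Type} (s : Finset ι) (x : ι → ℝ) (a e M : ℝ) (hM : 1 ≤ M) (ha : |a| ≤ M)
    (hx : ∀ i ∈ s, |x i| ≤ M) (he : ∀ i ∈ s, |x i - a| ≤ e) (he0 : 0 ≤ e) :
    |∏ i ∈ s, x i - a ^ s.card| ≤ s.card * e * M ^ s.card := by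
  classical
  induction s using Finset.induction_on with
  | empty => simp
  | insert i s hi ih =>
    rw [Finset.prod_insert hi, Finset.card_insert_of_notMem hi]
    have h1 := ih (fun j hj => hx j (Finset.mem_insert_of_mem hj)) (fun j hj => he j (Finset.mem_insert_of_mem hj))
    have h2 := hx i (Finset.mem_insert_self _ _)
    have h3 := he i (Finset.mem_insert_self _ _)
    have e1 : x i * ∏ j ∈ s, x j - a ^ (s.card + 1) =
        x i * (∏ j ∈ s, x j - a ^ s.card) + (x i - a) * a ^ s.card := by ring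
    rw [e1]
    have hM0 : 0 ≤ M := by linarith
    have h4 : |a ^ s.card| ≤ M ^ s.card := by
      rw [abs_pow]
      exact pow_le_pow_left₀ (abs_nonneg _) ha _
    have h5 : M ^ s.card ≤ M ^ (s.card + 1) := pow_le_pow_right₀ hM (by omega)
    calc |x i * (∏ j ∈ s, x j - a ^ s.card) + (x i - a) * a ^ s.card|
        ≤ |x i * (∏ j ∈ s, x j - a ^ s.card)| + |(x i - a) * a ^ s.card| := abs_add_le _ _
      _ = |x i| * |∏ j ∈ s, x j - a ^ s.card| + |x i - a| * |a ^ s.card| := by rw [abs_mul, abs_mul]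
      _ ≤ M * (s.card * e * M ^ s.card) + e * M ^ s.card := by
          apply add_le_add
          · exact mul_le_mul h2 h1 (abs_nonneg _) hM0
          · exact mul_le_mul h3 h4 (abs_nonneg _) he0
      _ ≤ M * (s.card * e * M ^ s.card) + e * M ^ (s.card + 1) := by gcongr
      _ = ((s.card + 1 : ℕ) : ℝ) * e * M ^ (s.card + 1) := by push_cast; ring

theorem sum_ind (y Y : ℕ) (hyY : y ≤ Y) (f : ℕ → ℝ) :
    ∑ n ∈ Icc 1 Y, (if n ≤ y then f n else 0) = ∑ n ∈ Icc 1 y, f n := by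
  rw [← Finset.sum_filter]
  apply Finset.sum_congr _ fun _ _ => rfl
  ext n
  simp only [Finset.mem_filter, Finset.mem_Icc]
  omega

theorem ww_sum (y Y : ℕ) (hyY : y ≤ Y) (f : ℕ → ℝ) :
    ∑ n ∈ Icc 1 Y, ww y Y n * f n = (∑ n ∈ Icc 1 y, f n) / y - (∑ n ∈ Icc 1 Y, f n) / Y := by
  have h1 : ∀ n, ww y Y n * f n = (if n ≤ y then f n / y else 0) - f n / Y := by
    intro n
    unfold ww
    split_ifs <;> ring
  rw [Finset.sum_congr rfl fun n _ => h1 n, Finset.sum_sub_distrib, sum_ind y Y hyY, Finset.sum_div, Finset.sum_div]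

theorem ww_sq (y Y : ℕ) (hy : 1 ≤ y) (hyY : y ≤ Y) : ∑ n ∈ Icc 1 Y, ww y Y n ^ 2 ≤ 1 / y := by
  have h1 : ∀ n, ww y Y n ^ 2 = (if n ≤ y then (1 / (y : ℝ) ^ 2 - 2 / (y * Y)) else 0) + 1 / (Y : ℝ) ^ 2 := by
    intro n
    unfold ww
    split_ifs
    · field_simp
      ring
    · ring
  have hy0 : (0 : ℝ) < y := by exact_mod_cast hy
  have hY0 : (0 : ℝ) < Y := by exact_mod_cast (lt_of_lt_of_le hy hyY)
  rw [Finset.sum_congr rfl fun n _ => h1 n, Finset.sum_add_distrib,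
    sum_ind y Y hyY (fun _ => (1 / (y : ℝ) ^ 2 - 2 / (y * Y))), Finset.sum_const, Finset.sum_const, Nat.card_Icc,
    Nat.card_Icc, Nat.add_sub_cancel, Nat.add_sub_cancel, nsmul_eq_mul, nsmul_eq_mul]
  have h2 : (y : ℝ) * (1 / (y : ℝ) ^ 2 - 2 / (y * Y)) + Y * (1 / (Y : ℝ) ^ 2) = 1 / y - 1 / Y := by
    field_simp
    ring
  rw [h2]
  have : 0 < 1 / (Y : ℝ) := by positivity
  linarith

theorem ww_abs (y Y : ℕ) (hy : 1 ≤ y) (hyY : y ≤ Y) : ∑ n ∈ Icc 1 Y, |ww y Y n| ≤ 2 := by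
  have hy0 : (0 : ℝ) < y := by exact_mod_cast hy
  have hY0 : (0 : ℝ) < Y := by exact_mod_cast (lt_of_lt_of_le hy hyY)
  have h1 : ∀ n, |ww y Y n| ≤ (if n ≤ y then 1 / (y : ℝ) else 0) + 1 / (Y : ℝ) := by
    intro n
    unfold ww
    have h2 : 0 < 1 / (Y : ℝ) := by positivity
    have h3 : 0 ≤ (if n ≤ y then 1 / (y : ℝ) else 0) := by
      split_ifs
      · positivity
      · exact le_rfl
    rw [abs_le]
    constructor <;> linarith
  refine (Finset.sum_le_sum fun n _ => h1 n).trans ?_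
  rw [Finset.sum_add_distrib, sum_ind y Y hyY (fun _ => 1 / (y : ℝ)), Finset.sum_const, Finset.sum_const,
    Nat.card_Icc, Nat.card_Icc, Nat.add_sub_cancel, Nat.add_sub_cancel, nsmul_eq_mul, nsmul_eq_mul]
  have h4 : (y : ℝ) * (1 / y) + Y * (1 / (Y : ℝ)) = 2 := by
    field_simp
    norm_num
  exact h4.le

/-- the correlation factor -/
noncomputable def TT (z Q R : ℕ) (n n' : ℕ) (s s' : ℤ) : ℝ :=
  ∑ x ∈ Icc 1 Q ×ˢ Icc 1 R, lz z ((x.1 : ℤ) * n + x.2 + s) * lz z ((x.1 : ℤ) * n' + x.2 + s')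

theorem TT_symm (z Q R : ℕ) (n n' : ℕ) (s s' : ℤ) : TT z Q R n n' s s' = TT z Q R n' n s' s := by
  unfold TT
  exact Finset.sum_congr rfl fun x _ => mul_comm _ _

theorem sum_v {k : ℕ} (z : ℕ) (Q R : Fin k → ℕ) (G : Fin k → Polynomial ℤ) (n n' : ℕ) :
    ∑ v ∈ Bq Q R, XX z G v n * XX z G v n' =
      ∏ i, TT z (Q i) (R i) n n' ((G i).eval (n : ℤ)) ((G i).eval (n' : ℤ)) := by
  unfold TT Bq
  rw [Finset.prod_univ_sum]
  apply Finset.sum_congr rfl
  intro v _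
  unfold XX
  rw [← Finset.prod_mul_distrib]
  apply Finset.prod_congr rfl
  intro i _
  have h1 : ∀ m : ℕ, (pl G v i).eval (m : ℤ) = ((v i).1 : ℤ) * m + (v i).2 + (G i).eval (m : ℤ) := by
    intro m
    unfold pl
    simp only [Polynomial.eval_add, Polynomial.eval_mul, Polynomial.eval_C, Polynomial.eval_X]
    ring
  rw [h1, h1]

/-- the diagonal terms -/
theorem diag {k : ℕ} (z : ℕ) (Q R : Fin k → ℕ) (L : ℝ) (hL : (Vz z)⁻¹ ≤ L) (G : Fin k → Polynomial ℤ) (n : ℕ) :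
    |∏ i, TT z (Q i) (R i) n n ((G i).eval (n : ℤ)) ((G i).eval (n : ℤ))| ≤ vq Q R * L ^ (2 * k) := by
  have hV : 0 < (Vz z)⁻¹ := inv_pos.2 (Vz_pos' z)
  have hT : ∀ (i : Fin k) (s : ℤ), |TT z (Q i) (R i) n n s s| ≤ ((Q i : ℝ) * R i) * L ^ 2 := by
    intro i s
    unfold TT
    refine (Finset.abs_sum_le_sum_abs _ _).trans ?_
    have h1 : ∀ x ∈ Icc 1 (Q i) ×ˢ Icc 1 (R i),
        |lz z ((x.1 : ℤ) * n + x.2 + s) * lz z ((x.1 : ℤ) * n + x.2 + s)| ≤ L ^ 2 := by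
      intro x _
      have h2 := lz_nonneg z ((x.1 : ℤ) * n + x.2 + s)
      have h3 := (lz_le z ((x.1 : ℤ) * n + x.2 + s)).trans hL
      rw [abs_of_nonneg (mul_nonneg h2 h2), sq]
      exact mul_le_mul h3 h3 h2 (hV.le.trans hL)
    refine (Finset.sum_le_sum h1).trans ?_
    rw [Finset.sum_const, Finset.card_product, Nat.card_Icc, Nat.card_Icc, Nat.add_sub_cancel, Nat.add_sub_cancel,
      nsmul_eq_mul]
    push_cast
    exact le_rfl
  rw [Finset.abs_prod]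
  refine (Finset.prod_le_prod (fun i _ => abs_nonneg _) fun i _ => hT i _).trans ?_
  rw [Finset.prod_mul_distrib, Finset.prod_const, Finset.card_univ, Fintype.card_fin, ← pow_mul L 2 k]
  exact le_rfl

/-- the off-diagonal terms -/
theorem offd {k : ℕ} (z : ℕ) (Q R : Fin k → ℕ) (hQR : ∀ i, 0 < (Q i : ℝ) * R i) (L : ℝ) (U : ℕ) (hL : (Vz z)⁻¹ ≤ L)
    (hL1 : 1 ≤ L) (hLk : (k : ℝ) * 2 ^ k ≤ L)
    (hPT : ∀ i, ∀ n n' : ℕ, n' < n → ∀ s s' : ℤ, ((n : ℤ) - n') ∣ s - s' →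
      |TT z (Q i) (R i) n n' s s' - (Q i : ℝ) * R i * kap z (n - n')| ≤ (Q i : ℝ) * R i / L ^ (U + 2 * k + 2))
    (G : Fin k → Polynomial ℤ) (n n' : ℕ) (hn : n' ≠ n) :
    |∏ i, TT z (Q i) (R i) n n' ((G i).eval (n : ℤ)) ((G i).eval (n' : ℤ)) -
      vq Q R * kap z (((n : ℤ) - n').natAbs) ^ k| ≤ vq Q R * (1 / L ^ (U + 1)) := by
  have hL0 : 0 < L := by linarith
  have hone : ∀ (i : Fin k) (s s' : ℤ), ((n : ℤ) - n') ∣ s - s' →
      |TT z (Q i) (R i) n n' s s' / ((Q i : ℝ) * R i) - kap z (((n : ℤ) - n').natAbs)| ≤ 1 / L ^ (U + 2 * k + 2) := by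
    intro i s s' hd
    have hHr := hQR i
    have h1 : |TT z (Q i) (R i) n n' s s' - (Q i : ℝ) * R i * kap z (((n : ℤ) - n').natAbs)| ≤
        (Q i : ℝ) * R i / L ^ (U + 2 * k + 2) := by
      rcases Nat.lt_or_gt_of_ne hn with h2 | h2
      · have h3 : ((n : ℤ) - n').natAbs = n - n' := by omega
        rw [h3]
        exact hPT i n n' h2 s s' hd
      · have h3 : ((n : ℤ) - n').natAbs = n' - n := by omega
        rw [h3, TT_symm]
        apply hPT i n' n h2 s' s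
        have h4 : ((n' : ℤ) - n) = -((n : ℤ) - n') := by ring
        have h5 : s' - s = -(s - s') := by ring
        rw [h4, h5, neg_dvd, dvd_neg]
        exact hd
    have h6 : TT z (Q i) (R i) n n' s s' / ((Q i : ℝ) * R i) - kap z (((n : ℤ) - n').natAbs) =
        (TT z (Q i) (R i) n n' s s' - (Q i : ℝ) * R i * kap z (((n : ℤ) - n').natAbs)) / ((Q i : ℝ) * R i) := by
      rw [sub_div, mul_div_cancel_left₀ _ hHr.ne']
    rw [h6, abs_div, abs_of_pos hHr, div_le_iff₀ hHr]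
    calc _ ≤ _ := h1
      _ = 1 / L ^ (U + 2 * k + 2) * ((Q i : ℝ) * R i) := by ring
  set κ := kap z (((n : ℤ) - n').natAbs) with hκ
  have hκ0 : 0 < κ := kap_pos _ _
  have hκL : κ ≤ L := (kap_le _ _).trans hL
  have he1 : 1 / L ^ (U + 2 * k + 2) ≤ 1 := by
    rw [div_le_one (by positivity)]
    exact one_le_pow₀ hL1
  have hdvd : ∀ i, ((n : ℤ) - n') ∣ (G i).eval (n : ℤ) - (G i).eval (n' : ℤ) := fun i =>
    Polynomial.sub_dvd_eval_sub _ _ _
  have hmain := prod_err (Finset.univ : Finset (Fin k))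
    (fun i => TT z (Q i) (R i) n n' ((G i).eval (n : ℤ)) ((G i).eval (n' : ℤ)) / ((Q i : ℝ) * R i)) κ
    (1 / L ^ (U + 2 * k + 2)) (2 * L) (by linarith) (by rw [abs_of_pos hκ0]; linarith) (fun i _ => by
      have h1 := hone i _ _ (hdvd i)
      have h2 : |TT z (Q i) (R i) n n' ((G i).eval (n : ℤ)) ((G i).eval (n' : ℤ)) / ((Q i : ℝ) * R i)| ≤
          |TT z (Q i) (R i) n n' ((G i).eval (n : ℤ)) ((G i).eval (n' : ℤ)) / ((Q i : ℝ) * R i) - κ| + |κ| := by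
        have := abs_add_le (TT z (Q i) (R i) n n' ((G i).eval (n : ℤ)) ((G i).eval (n' : ℤ)) / ((Q i : ℝ) * R i) - κ) κ
        simpa using this
      rw [abs_of_pos hκ0] at h2
      linarith) (fun i _ => hone i _ _ (hdvd i)) (by positivity)
  rw [Finset.card_univ, Fintype.card_fin, Finset.prod_div_distrib] at hmain
  have hHk : 0 < vq Q R := Finset.prod_pos fun i _ => hQR i
  have hvq : ∏ i, ((Q i : ℝ) * R i) = vq Q R := rfl
  rw [hvq] at hmain
  have h7 : ∏ i, TT z (Q i) (R i) n n' ((G i).eval (n : ℤ)) ((G i).eval (n' : ℤ)) - vq Q R * κ ^ k =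
      vq Q R * ((∏ i, TT z (Q i) (R i) n n' ((G i).eval (n : ℤ)) ((G i).eval (n' : ℤ))) / vq Q R - κ ^ k) := by
    rw [mul_sub, mul_div_cancel₀ _ hHk.ne']
  rw [h7, abs_mul, abs_of_pos hHk]
  apply mul_le_mul_of_nonneg_left _ hHk.le
  refine hmain.trans ?_
  rw [mul_one_div, mul_pow, div_mul_eq_mul_div, div_le_div_iff₀ (by positivity) (by positivity), one_mul]
  calc (k : ℝ) * (2 ^ k * L ^ k) * L ^ (U + 1) = ((k : ℝ) * 2 ^ k) * L ^ (k + (U + 1)) := by ring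
    _ ≤ L * L ^ (k + (U + 1)) := by
        apply mul_le_mul_of_nonneg_right hLk (by positivity)
    _ = L ^ (U + k + 2) := by ring
    _ ≤ L ^ (U + 2 * k + 2) := pow_le_pow_right₀ hL1 (by omega)

theorem core {k : ℕ} (z : ℕ) (Q R : Fin k → ℕ) (hQR : ∀ i, 0 < (Q i : ℝ) * R i) (y Y : ℕ) (hy : 1 ≤ y) (hyY : y ≤ Y)
    (L : ℝ) (U : ℕ) (hL : (Vz z)⁻¹ ≤ L) (hL21 : 21 ≤ L) (hLk : (k : ℝ) * 2 ^ k ≤ L)
    (hPT : ∀ i, ∀ n n' : ℕ, n' < n → ∀ s s' : ℤ, ((n : ℤ) - n') ∣ s - s' →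
      |TT z (Q i) (R i) n n' s s' - (Q i : ℝ) * R i * kap z (n - n')| ≤ (Q i : ℝ) * R i / L ^ (U + 2 * k + 2))
    (hK : |∑ n ∈ Icc 1 Y, ∑ n' ∈ (Icc 1 Y).filter (fun n' => n' ≠ n), ww y Y n * ww y Y n' *
      kap z (((n : ℤ) - n').natAbs) ^ k| ≤ 20 * ((Vz z)⁻¹) ^ k / y)
    (G : Fin k → Polynomial ℤ) :
    ∑ v ∈ Bq Q R, ((∑ n ∈ Icc 1 y, XX z G v n) / y - (∑ n ∈ Icc 1 Y, XX z G v n) / Y) ^ 2 ≤
      vq Q R * (L ^ (2 * k + 1) / y + 1 / L ^ U) := by
  classical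
  have hL1 : 1 ≤ L := by linarith
  have hL0 : 0 < L := by linarith
  have hy0 : (0 : ℝ) < y := by exact_mod_cast hy
  set N : ℝ := vq Q R with hN
  have hN0 : 0 ≤ N := (Finset.prod_pos fun i _ => hQR i).le
  set P : ℕ → ℕ → ℝ := fun n n' => ∏ i, TT z (Q i) (R i) n n' ((G i).eval (n : ℤ)) ((G i).eval (n' : ℤ)) with hP
  set κ : ℕ → ℕ → ℝ := fun n n' => kap z (((n : ℤ) - n').natAbs) ^ k with hκ
  have h1 : ∑ v ∈ Bq Q R, ((∑ n ∈ Icc 1 y, XX z G v n) / y - (∑ n ∈ Icc 1 Y, XX z G v n) / Y) ^ 2 =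
      ∑ n ∈ Icc 1 Y, ∑ n' ∈ Icc 1 Y, ww y Y n * ww y Y n' * P n n' := by
    have h2 : ∀ v : Fin k → ℕ × ℕ,
        ((∑ n ∈ Icc 1 y, XX z G v n) / y - (∑ n ∈ Icc 1 Y, XX z G v n) / Y) ^ 2 =
        ∑ n ∈ Icc 1 Y, ∑ n' ∈ Icc 1 Y, ww y Y n * ww y Y n' * (XX z G v n * XX z G v n') := by
      intro v
      rw [← ww_sum y Y hyY (fun n => XX z G v n), sq, Finset.sum_mul_sum]
      apply Finset.sum_congr rfl
      intro n _
      apply Finset.sum_congr rfl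
      intro n' _
      ring
    rw [Finset.sum_congr rfl fun v _ => h2 v, Finset.sum_comm]
    apply Finset.sum_congr rfl
    intro n _
    rw [Finset.sum_comm]
    apply Finset.sum_congr rfl
    intro n' _
    rw [← Finset.mul_sum, sum_v]
  have h3 : ∑ n ∈ Icc 1 Y, ∑ n' ∈ Icc 1 Y, ww y Y n * ww y Y n' * P n n' =
      ∑ n ∈ Icc 1 Y, ww y Y n ^ 2 * P n n +
      ∑ n ∈ Icc 1 Y, ∑ n' ∈ (Icc 1 Y).filter (fun n' => n' ≠ n), ww y Y n * ww y Y n' * P n n' := by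
    rw [← Finset.sum_add_distrib]
    apply Finset.sum_congr rfl
    intro n hn
    rw [Finset.filter_ne', ← Finset.add_sum_erase _ _ hn]
    ring
  have h4 : ∑ n ∈ Icc 1 Y, ww y Y n ^ 2 * P n n ≤ N * L ^ (2 * k) * (1 / y) := by
    calc ∑ n ∈ Icc 1 Y, ww y Y n ^ 2 * P n n ≤ ∑ n ∈ Icc 1 Y, ww y Y n ^ 2 * (N * L ^ (2 * k)) := by
          apply Finset.sum_le_sum
          intro n _
          apply mul_le_mul_of_nonneg_left _ (sq_nonneg _)
          exact (le_abs_self _).trans (diag z Q R L hL G n)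
      _ = (∑ n ∈ Icc 1 Y, ww y Y n ^ 2) * (N * L ^ (2 * k)) := by rw [Finset.sum_mul]
      _ ≤ (1 / y) * (N * L ^ (2 * k)) := mul_le_mul_of_nonneg_right (ww_sq y Y hy hyY) (by positivity)
      _ = N * L ^ (2 * k) * (1 / y) := by ring
  have h5 : ∑ n ∈ Icc 1 Y, ∑ n' ∈ (Icc 1 Y).filter (fun n' => n' ≠ n), ww y Y n * ww y Y n' * P n n' =
      N * (∑ n ∈ Icc 1 Y, ∑ n' ∈ (Icc 1 Y).filter (fun n' => n' ≠ n), ww y Y n * ww y Y n' * κ n n') +
      ∑ n ∈ Icc 1 Y, ∑ n' ∈ (Icc 1 Y).filter (fun n' => n' ≠ n), ww y Y n * ww y Y n' * (P n n' - N * κ n n') := by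
    rw [Finset.mul_sum, ← Finset.sum_add_distrib]
    apply Finset.sum_congr rfl
    intro n _
    rw [Finset.mul_sum, ← Finset.sum_add_distrib]
    apply Finset.sum_congr rfl
    intro n' _
    ring
  have h6 : ∑ n ∈ Icc 1 Y, ∑ n' ∈ (Icc 1 Y).filter (fun n' => n' ≠ n), ww y Y n * ww y Y n' * (P n n' - N * κ n n') ≤
      4 * (N * (1 / L ^ (U + 1))) := by
    calc ∑ n ∈ Icc 1 Y, ∑ n' ∈ (Icc 1 Y).filter (fun n' => n' ≠ n), ww y Y n * ww y Y n' * (P n n' - N * κ n n')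
        ≤ ∑ n ∈ Icc 1 Y, ∑ n' ∈ (Icc 1 Y).filter (fun n' => n' ≠ n),
          |ww y Y n| * |ww y Y n'| * (N * (1 / L ^ (U + 1))) := by
          apply Finset.sum_le_sum
          intro n _
          apply Finset.sum_le_sum
          intro n' hn'
          refine (le_abs_self _).trans ?_
          rw [abs_mul, abs_mul]
          apply mul_le_mul_of_nonneg_left _ (by positivity)
          exact offd z Q R hQR L U hL hL1 hLk hPT G n n' (Finset.mem_filter.1 hn').2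
      _ ≤ ∑ n ∈ Icc 1 Y, ∑ n' ∈ Icc 1 Y, |ww y Y n| * |ww y Y n'| * (N * (1 / L ^ (U + 1))) := by
          apply Finset.sum_le_sum
          intro n _
          apply Finset.sum_le_sum_of_subset_of_nonneg (Finset.filter_subset _ _)
          intro n' _ _
          positivity
      _ = (∑ n ∈ Icc 1 Y, |ww y Y n|) * (∑ n ∈ Icc 1 Y, |ww y Y n|) * (N * (1 / L ^ (U + 1))) := by
          rw [Finset.sum_mul_sum, Finset.sum_mul]
          apply Finset.sum_congr rfl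
          intro n _
          rw [Finset.sum_mul]
      _ ≤ (2 * 2) * (N * (1 / L ^ (U + 1))) := by
          apply mul_le_mul_of_nonneg_right _ (by positivity)
          have h7 := ww_abs y Y hy hyY
          exact mul_le_mul h7 h7 (Finset.sum_nonneg fun _ _ => abs_nonneg _) (by norm_num)
      _ = 4 * (N * (1 / L ^ (U + 1))) := by ring
  have h8 : ∑ n ∈ Icc 1 Y, ∑ n' ∈ (Icc 1 Y).filter (fun n' => n' ≠ n), ww y Y n * ww y Y n' * κ n n' ≤
      20 * L ^ k / y := by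
    refine (le_abs_self _).trans (hK.trans ?_)
    have h9 : ((Vz z)⁻¹) ^ k ≤ L ^ k := pow_le_pow_left₀ (inv_nonneg.2 (Vz_pos' z).le) hL k
    apply div_le_div_of_nonneg_right _ hy0.le
    linarith
  have h10 : N * L ^ (2 * k) * (1 / y) + N * (20 * L ^ k / y) ≤ N * (L ^ (2 * k + 1) / y) := by
    have h11 : L ^ k ≤ L ^ (2 * k) := pow_le_pow_right₀ hL1 (by omega)
    have h12 : L ^ (2 * k + 1) = L * L ^ (2 * k) := by ring
    have h13 : 21 * L ^ (2 * k) ≤ L * L ^ (2 * k) := mul_le_mul_of_nonneg_right hL21 (by positivity)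
    have h14 : N * L ^ (2 * k) * (1 / y) + N * (20 * L ^ k / y) = N * ((L ^ (2 * k) + 20 * L ^ k) / y) := by ring
    rw [h14]
    apply mul_le_mul_of_nonneg_left _ hN0
    apply div_le_div_of_nonneg_right _ hy0.le
    rw [h12]
    linarith
  have h15 : 4 * (N * (1 / L ^ (U + 1))) ≤ N * (1 / L ^ U) := by
    have h16 : 4 * (1 / L ^ (U + 1)) ≤ 1 / L ^ U := by
      rw [mul_one_div, div_le_div_iff₀ (by positivity) (by positivity), pow_succ, one_mul, mul_comm (L ^ U) L]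
      exact mul_le_mul_of_nonneg_right (by linarith) (by positivity)
    calc 4 * (N * (1 / L ^ (U + 1))) = N * (4 * (1 / L ^ (U + 1))) := by ring
      _ ≤ _ := mul_le_mul_of_nonneg_left h16 hN0
  have h17 : N * (∑ n ∈ Icc 1 Y, ∑ n' ∈ (Icc 1 Y).filter (fun n' => n' ≠ n), ww y Y n * ww y Y n' * κ n n') ≤
      N * (20 * L ^ k / y) := mul_le_mul_of_nonneg_left h8 hN0
  rw [h1, h3, h5, mul_add N (L ^ (2 * k + 1) / y)]
  linarith

theorem main : S_PT3 → S_KAP → S_MT23 := by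
  intro hPT hKAP k e E U he
  obtain ⟨H1, h1⟩ := hPT e E (U + 2 * k + 2) he
  obtain ⟨H2, h2⟩ := Vz_inv_small E
  have hlim : Filter.Tendsto (fun N : ℕ => Real.log (N : ℝ)) Filter.atTop Filter.atTop :=
    Real.tendsto_log_atTop.comp (tendsto_natCast_atTop_atTop (R := ℝ))
  obtain ⟨H3, h3⟩ := Filter.eventually_atTop.1 (hlim.eventually_ge_atTop (21 + (k : ℝ) * 2 ^ k))
  refine ⟨max 1 (max H1 (max H2 H3)), fun H hH Q R hRg z hz hzE y Y hy hyY G => ?_⟩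
  have hH0 : 1 ≤ H := (le_max_left _ _).trans hH
  have hH' := (le_max_right _ _).trans hH
  have hH1 : H1 ≤ H := (le_max_left _ _).trans hH'
  have hH2 : H2 ≤ H := ((le_max_left _ _).trans (le_max_right _ _)).trans hH'
  have hH3 : H3 ≤ H := ((le_max_right _ _).trans (le_max_right _ _)).trans hH'
  have hL := h3 H hH3
  have hk0 : 0 ≤ (k : ℝ) * 2 ^ k := by positivity
  have hQR : ∀ i, 0 < (Q i : ℝ) * R i := by
    intro i
    have hHr : (0 : ℝ) < H := by exact_mod_cast hH0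
    have hR : (0 : ℝ) < R i := lt_of_lt_of_le (Real.rpow_pos_of_pos hHr _) (hRg i).1
    have hRQ : (R i : ℝ) ≤ Q i := by exact_mod_cast (hRg i).2.1
    exact mul_pos (hR.trans_le hRQ) hR
  exact core z Q R hQR y Y hy hyY (Real.log H) U (h2 H hH2 z hz hzE) (by linarith) (by linarith)
    (fun i n n' hn s s' hd => h1 H hH1 (Q i) (R i) (hRg i) z hz hzE n n' hn s s' hd) (hKAP k z y Y hz hy hyY) G

end Pool.Agent.helper24_UT.Mt23
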