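import Pool.Agent.helper24_UT.Stm7
import Pool.Agent.helper24_UT.All
import Pool.Agent.H373R2.T7.LamZ2

set_option autoImplicit false

namespace Pool.Agent.helper24_UT.Mt3

open Finset
open Pool.Agent.helper24_UT
open Pool.Agent.H376R2.MR (ch er DP FK)

/-- the average of the model over the first `y` integers -/
noncomputable def av {k : ℕ} (z : ℕ) (G : Fin k → Polynomial ℤ) (v : Fin k → ℕ × ℕ) (y : ℕ) : ℝ :=
  (∑ n ∈ Icc 1 y, XX z G v n) / y

theorem lz_nonneg (z : ℕ) (m : ℤ) : 0 ≤ lz z m := by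
  have h0 : 0 ≤ (Pool.Agent.H373R2.T7.Vz z)⁻¹ := (inv_pos.2 (Pool.Agent.H373R2.T7.Vz_pos z)).le
  unfold lz
  split_ifs
  · exact h0
  · exact le_rfl

theorem lz_le (z : ℕ) (m : ℤ) : lz z m ≤ (Pool.Agent.H373R2.T7.Vz z)⁻¹ := by
  have h0 : 0 ≤ (Pool.Agent.H373R2.T7.Vz z)⁻¹ := (inv_pos.2 (Pool.Agent.H373R2.T7.Vz_pos z)).le
  unfold lz
  split_ifs
  · exact le_rfl
  · exact h0

theorem XX_nonneg {k : ℕ} (z : ℕ) (G : Fin k → Polynomial ℤ) (v : Fin k → ℕ × ℕ) (n : ℕ) :
    0 ≤ XX z G v n := by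
  unfold XX
  exact prod_nonneg fun i _ => lz_nonneg _ _

theorem XX_le {k : ℕ} {L : ℝ} (z : ℕ) (hV : (Pool.Agent.H373R2.T7.Vz z)⁻¹ ≤ L)
    (G : Fin k → Polynomial ℤ) (v : Fin k → ℕ × ℕ) (n : ℕ) :
    XX z G v n ≤ L ^ k := by
  unfold XX
  calc ∏ i, lz z ((pl G v i).eval (n : ℤ)) ≤ ∏ _i : Fin k, L := by
        apply prod_le_prod
        · intro i _; exact lz_nonneg _ _
        · intro i _; exact (lz_le z _).trans hV
    _ = L ^ k := by rw [prod_const, card_univ, Fintype.card_fin]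

theorem om_le {k : ℕ} (F : Fin k → Polynomial ℤ) (p : ℕ) : om F p ≤ p := by
  classical
  unfold om
  refine (card_filter_le _ _).trans ?_
  rw [card_range]

theorem sg_factor {k : ℕ} (F : Fin k → Polynomial ℤ) (p : ℕ) (hp : p.Prime) :
    0 ≤ (1 - (om F p : ℝ) / p) / (1 - 1 / (p : ℝ)) ^ k ∧
    (1 - (om F p : ℝ) / p) / (1 - 1 / (p : ℝ)) ^ k ≤ ((1 - 1 / (p : ℝ))⁻¹) ^ k := by
  have hp2 : (2 : ℝ) ≤ p := by exact_mod_cast hp.two_le
  have hp0 : (0 : ℝ) < p := by linarith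
  have h1 : (om F p : ℝ) ≤ p := by exact_mod_cast om_le F p
  have h2 : (om F p : ℝ) / p ≤ 1 := by rw [div_le_one hp0]; exact h1
  have h3 : (0 : ℝ) ≤ (om F p : ℝ) / p := by positivity
  have h4 : (0 : ℝ) < 1 - 1 / (p : ℝ) := by
    rw [sub_pos, div_lt_one hp0]; linarith
  constructor
  · exact div_nonneg (by linarith) (pow_nonneg h4.le k)
  · rw [inv_pow, ← one_div]
    exact div_le_div_of_nonneg_right (by linarith) (pow_nonneg h4.le k)

theorem sg_nonneg {k : ℕ} (z : ℕ) (F : Fin k → Polynomial ℤ) : 0 ≤ sg z F := by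
  unfold sg
  apply prod_nonneg
  intro p hp
  exact (sg_factor F p (Pool.Agent.H373R2.T7.mem_pz.1 hp).2).1

theorem sg_le {k : ℕ} {L : ℝ} (z : ℕ) (hV : (Pool.Agent.H373R2.T7.Vz z)⁻¹ ≤ L)
    (F : Fin k → Polynomial ℤ) : sg z F ≤ L ^ k := by
  have h1 : sg z F ≤ ((Pool.Agent.H373R2.T7.Vz z)⁻¹) ^ k := by
    unfold sg Pool.Agent.H373R2.T7.Vz
    rw [← prod_inv_distrib, ← prod_pow]
    apply prod_le_prod
    · intro p hp
      exact (sg_factor F p (Pool.Agent.H373R2.T7.mem_pz.1 hp).2).1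
    · intro p hp
      exact (sg_factor F p (Pool.Agent.H373R2.T7.mem_pz.1 hp).2).2
  exact h1.trans (pow_le_pow_left₀ (inv_pos.2 (Pool.Agent.H373R2.T7.Vz_pos z)).le hV k)

theorem pl_deg {k r : ℕ} (G : Fin k → Polynomial ℤ) (hG : ∀ i, (G i).natDegree ≤ r)
    (v : Fin k → ℕ × ℕ) (i : Fin k) : (pl G v i).natDegree ≤ r + 1 := by
  unfold pl
  refine (Polynomial.natDegree_add_le _ _).trans (max_le ?_ ?_)
  · refine (Polynomial.natDegree_add_le _ _).trans (max_le ?_ ?_)
    · exact (hG i).trans (Nat.le_succ r)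
    · exact (Polynomial.natDegree_C_mul_le _ _).trans (Polynomial.natDegree_X_le.trans (by omega))
  · rw [Polynomial.natDegree_C]; omega

theorem vq_nonneg {k : ℕ} (Q R : Fin k → ℕ) : 0 ≤ vq Q R := by
  unfold vq
  exact prod_nonneg fun i _ => by positivity

theorem main : S_MTL → S_MT23 → S_MT3 := by
  intro hmtl hmt2 k r e A he
  refine ⟨4 * A + 4 * k + 20, fun E => ?_⟩
  obtain ⟨H₁, hH₁⟩ := hmtl k (r + 1) E (A + 2)
  obtain ⟨H₂, hH₂⟩ := hmt2 k e E (4 * A + k + 5) he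
  obtain ⟨N₀, hN₀⟩ := Pool.Agent.H373R2.T7.Vz_inv_small E
  refine ⟨H₁ + H₂ + N₀ + ⌈Real.exp 96⌉₊ + 3, fun H hH Q R hQR z hz hz' G hG => ?_⟩
  classical
  have hvq : 0 ≤ vq Q R := vq_nonneg Q R
  set L := Real.log H with hL
  have hHpos : (0 : ℝ) < H := by exact_mod_cast (by omega : 0 < H)
  have hL96 : 96 ≤ L := by
    rw [hL, Real.le_log_iff_exp_le hHpos]
    refine (Nat.le_ceil _).trans ?_
    exact_mod_cast (by omega : ⌈Real.exp 96⌉₊ ≤ H)
  have hL0 : 0 < L := by linarith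
  have hL1 : 1 ≤ L := by linarith
  have hV : (Pool.Agent.H373R2.T7.Vz z)⁻¹ ≤ L := hN₀ H (by omega) z hz hz'
  have hexpH : Real.exp (Real.sqrt L) ≤ H := by
    have h1 : Real.sqrt L ≤ L := by
      rw [Real.sqrt_le_left hL0.le]
      nlinarith
    calc Real.exp (Real.sqrt L) ≤ Real.exp L := Real.exp_le_exp.2 h1
      _ = H := by rw [hL, Real.exp_log hHpos]
  set Y := ⌈Real.exp (Real.sqrt L)⌉₊ with hY
  have hYH : Y ≤ H := Nat.ceil_le.2 hexpH
  have hY0 : 1 ≤ Y := Nat.ceil_pos.2 (Real.exp_pos _)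
  have hY0' : (0 : ℝ) < Y := by exact_mod_cast hY0
  -- the long sums
  have hlong : ∀ v : Fin k → ℕ × ℕ, ∀ y : ℕ, Real.exp (Real.sqrt L) ≤ y →
      |∑ n ∈ Icc 1 y, XX z G v n - y * sg z (pl G v)| ≤ y / L ^ (A + 2) := by
    intro v y hy
    exact hH₁ H (by omega) z hz hz' (pl G v) (fun i => pl_deg G hG v i) y hy
  set a := A + k + 3 with ha
  set δ : ℝ := 1 / L ^ a with hδdef
  have hδ : 0 < δ := by positivity
  have hδ1 : δ ≤ 1 := by
    rw [hδdef, div_le_one (by positivity)]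
    exact one_le_pow₀ hL1
  set B₀ := 4 * A + 3 * k + 6 with hB₀
  set J := ⌊2 * L / δ⌋₊ with hJ
  set Gr := ((range (J + 1)).image (fun j => ⌊(1 + δ) ^ j⌋₊)).filter
    (fun y : ℕ => L ^ B₀ ≤ (y : ℝ) ∧ y ≤ Y) with hGr
  have hGcard : (Gr.card : ℝ) ≤ 3 * L ^ (a + 1) := by
    have h1 : Gr.card ≤ J + 1 := by
      refine (card_filter_le _ _).trans ?_
      refine card_image_le.trans ?_
      rw [card_range]
    have h2 : (J : ℝ) ≤ 2 * L ^ (a + 1) := by
      refine (Nat.floor_le (by positivity)).trans (le_of_eq ?_)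
      rw [hδdef, div_div_eq_mul_div, div_one, pow_succ]
      ring
    have h3 : (1 : ℝ) ≤ L ^ (a + 1) := one_le_pow₀ hL1
    have h4 : (Gr.card : ℝ) ≤ J + 1 := by exact_mod_cast h1
    linarith
  set Bad := (Bq Q R).filter (fun v => ∃ y ∈ Gr, 1 / (4 * L ^ A) < |av z G v y - av z G v Y|) with hBad
  refine ⟨Bad, filter_subset _ _, ?_, ?_⟩
  · -- size
    have h1 : Bad ⊆ Gr.biUnion (fun y => (Bq Q R).filter
        (fun v => 1 / (4 * L ^ A) < |av z G v y - av z G v Y|)) := by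
      intro v hv
      rw [hBad, mem_filter] at hv
      obtain ⟨hv1, y, hy, hv2⟩ := hv
      rw [mem_biUnion]
      exact ⟨y, hy, mem_filter.2 ⟨hv1, hv2⟩⟩
    have h2 : ∀ y ∈ Gr, (((Bq Q R).filter (fun v => 1 / (4 * L ^ A) < |av z G v y - av z G v Y|)).card : ℝ) ≤
        vq Q R * (32 * L ^ (2 * A) / L ^ (4 * A + k + 5)) := by
      intro y hy
      rw [hGr, mem_filter] at hy
      obtain ⟨_, hy1, hy2⟩ := hy
      have hy0 : (0 : ℝ) < y := lt_of_lt_of_le (pow_pos hL0 _) hy1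
      have hy0' : 1 ≤ y := by exact_mod_cast hy0
      have hs := hH₂ H (by omega) Q R hQR z hz hz' y Y hy0' hy2 G
      set Fl := (Bq Q R).filter (fun v => 1 / (4 * L ^ A) < |av z G v y - av z G v Y|) with hFl
      have h3 : (Fl.card : ℝ) * (1 / (4 * L ^ A)) ^ 2 ≤
          vq Q R * (L ^ (2 * k + 1) / y + 1 / L ^ (4 * A + k + 5)) := by
        refine le_trans ?_ hs
        have h4 : (Fl.card : ℝ) * (1 / (4 * L ^ A)) ^ 2 ≤ ∑ v ∈ Fl, (av z G v y - av z G v Y) ^ 2 := by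
          rw [← nsmul_eq_mul]
          apply card_nsmul_le_sum
          intro v hv
          rw [hFl, mem_filter] at hv
          rw [← sq_abs (av z G v y - av z G v Y)]
          exact pow_le_pow_left₀ (by positivity) hv.2.le 2
        refine h4.trans ?_
        change ∑ v ∈ Fl, (av z G v y - av z G v Y) ^ 2 ≤ ∑ v ∈ Bq Q R, (av z G v y - av z G v Y) ^ 2
        apply sum_le_sum_of_subset_of_nonneg (filter_subset _ _)
        intro v _ _
        positivity
      have h6 : L ^ (2 * k + 1) / y ≤ 1 / L ^ (4 * A + k + 5) := by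
        rw [div_le_div_iff₀ hy0 (by positivity), one_mul, ← pow_add]
        refine le_trans (le_of_eq ?_) hy1
        congr 1
        omega
      have h7 : (Fl.card : ℝ) * (1 / (4 * L ^ A)) ^ 2 ≤
          vq Q R * (2 * (1 / L ^ (4 * A + k + 5))) := by
        refine h3.trans (mul_le_mul_of_nonneg_left ?_ (by positivity))
        linarith
      have h5 : (0 : ℝ) < (1 / (4 * L ^ A)) ^ 2 := by positivity
      rw [← le_div_iff₀ h5] at h7
      refine h7.trans (le_of_eq ?_)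
      field_simp
      ring
    have h3 : (Bad.card : ℝ) ≤ ∑ y ∈ Gr,
        (((Bq Q R).filter (fun v => 1 / (4 * L ^ A) < |av z G v y - av z G v Y|)).card : ℝ) := by
      have h4 := (card_le_card h1).trans card_biUnion_le
      exact_mod_cast h4
    refine h3.trans ((sum_le_sum h2).trans ?_)
    rw [sum_const, nsmul_eq_mul]
    have h5 : (0 : ℝ) ≤ vq Q R * (32 * L ^ (2 * A) / L ^ (4 * A + k + 5)) := by positivity
    refine (mul_le_mul_of_nonneg_right hGcard h5).trans ?_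
    have e1 : 3 * L ^ (a + 1) * (vq Q R * (32 * L ^ (2 * A) / L ^ (4 * A + k + 5))) =
        vq Q R / L ^ A * (96 / L) := by
      have e2 : L ^ (4 * A + k + 5) = L ^ (a + 1) * L ^ (2 * A) * L ^ A * L := by
        rw [← pow_add, ← pow_add, ← pow_succ]
        congr 1
        omega
      rw [e2]
      field_simp
      ring
    rw [e1]
    have h6 : 96 / L ≤ 1 := by rw [div_le_one hL0]; exact hL96
    have h7 : (0 : ℝ) ≤ vq Q R / L ^ A := by positivity
    calc vq Q R / L ^ A * (96 / L) ≤ vq Q R / L ^ A * 1 :=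
          mul_le_mul_of_nonneg_left h6 h7
      _ = _ := mul_one _
  · intro v hv hvB y hyL
    have hy0 : (0 : ℝ) < y := lt_of_lt_of_le (pow_pos hL0 _) hyL
    have hy1 : 1 ≤ y := by exact_mod_cast hy0
    have hLA : (0 : ℝ) < L ^ A := pow_pos hL0 _
    have hL2 : (96 : ℝ) ≤ L ^ 2 := by nlinarith
    have hsmall : ∀ x : ℝ, 0 ≤ x → x / L ^ (A + 2) ≤ x / L ^ A * (1 / 8) := by
      intro x hx
      rw [pow_add, div_mul_div_comm, mul_one]
      apply div_le_div_of_nonneg_left hx (by positivity)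
      exact mul_le_mul_of_nonneg_left (by linarith) hLA.le
    have hyLA : (0 : ℝ) ≤ y / L ^ A := by positivity
    rcases le_or_gt (Real.exp (Real.sqrt L)) (y : ℝ) with hcase | hcase
    · refine (hlong v y hcase).trans ((hsmall _ hy0.le).trans ?_)
      linarith
    -- now `y < Y`
    have hyH : y ≤ H := by exact_mod_cast (hcase.le.trans hexpH)
    have hyY : y ≤ Y := by
      have : (y : ℝ) ≤ Y := hcase.le.trans (Nat.le_ceil _)
      exact_mod_cast this
    obtain ⟨j, hj1, hj2, hj3⟩ := Pool.Agent.helper24_UT.All.grid hδ hδ1 hy1 hyH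
    set y' := ⌊(1 + δ) ^ j⌋₊ with hy'
    have hj2' : (y' : ℝ) ≤ y := by exact_mod_cast hj2
    have hLB2 : L ^ B₀ * 96 ≤ (y : ℝ) := by
      refine le_trans ?_ hyL
      have e : L ^ (4 * A + 4 * k + 20) = L ^ B₀ * L ^ (k + 14) := by
        rw [← pow_add]; congr 1; omega
      rw [e]
      exact mul_le_mul_of_nonneg_left (hL96.trans (le_self_pow₀ hL1 (by omega))) (by positivity)
    have hB0 : (1 : ℝ) ≤ L ^ B₀ := one_le_pow₀ hL1
    have hδ2 : δ ≤ 1 / 96 := by
      rw [hδdef]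
      apply one_div_le_one_div_of_le (by norm_num)
      exact hL96.trans (le_self_pow₀ hL1 (by omega))
    have hy'B : L ^ B₀ ≤ (y' : ℝ) := by
      have h2 : δ * y ≤ 1 / 96 * y := mul_le_mul_of_nonneg_right hδ2 hy0.le
      linarith
    have hy'0 : (0 : ℝ) < y' := lt_of_lt_of_le (pow_pos hL0 _) hy'B
    have hy'G : y' ∈ Gr := by
      rw [hGr, mem_filter]
      refine ⟨mem_image.2 ⟨j, ?_, rfl⟩, hy'B, hj2.trans hyY⟩
      rw [mem_range]
      exact Nat.lt_succ_of_le (Nat.le_floor hj1)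
    have hS' : |av z G v y' - av z G v Y| ≤ 1 / (4 * L ^ A) := by
      by_contra hcon
      push Not at hcon
      exact hvB (mem_filter.2 ⟨hv, y', hy'G, hcon⟩)
    -- the long average
    have hYavg : |av z G v Y - sg z (pl G v)| ≤ 1 / L ^ A * (1 / 8) := by
      have h1 := hlong v Y (Nat.le_ceil _)
      have h2 : av z G v Y - sg z (pl G v) = (∑ n ∈ Icc 1 Y, XX z G v n - Y * sg z (pl G v)) / Y := by
        unfold av
        field_simp
      rw [h2, abs_div, abs_of_pos hY0', div_le_iff₀ hY0']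
      refine h1.trans ((hsmall _ hY0'.le).trans (le_of_eq ?_))
      ring
    have hy'avg : |∑ n ∈ Icc 1 y', XX z G v n - y' * sg z (pl G v)| ≤ y / L ^ A * (3 / 8) := by
      have h1 : |av z G v y' - sg z (pl G v)| ≤ 1 / L ^ A * (3 / 8) := by
        have h2 : av z G v y' - sg z (pl G v) =
            (av z G v y' - av z G v Y) + (av z G v Y - sg z (pl G v)) := by ring
        rw [h2]
        refine (abs_add_le _ _).trans ((add_le_add hS' hYavg).trans (le_of_eq ?_))
        field_simp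
        ring
      have h3 : ∑ n ∈ Icc 1 y', XX z G v n - y' * sg z (pl G v) = y' * (av z G v y' - sg z (pl G v)) := by
        unfold av
        field_simp
      rw [h3, abs_mul, abs_of_pos hy'0]
      calc (y' : ℝ) * |av z G v y' - sg z (pl G v)| ≤ y * (1 / L ^ A * (3 / 8)) :=
            mul_le_mul hj2' h1 (abs_nonneg _) hy0.le
        _ = _ := by ring
    have hsplit : ∑ n ∈ Icc 1 y, XX z G v n = ∑ n ∈ Icc 1 y', XX z G v n + ∑ n ∈ Ioc y' y, XX z G v n := by
      rw [← sum_union]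
      · congr 1
        ext n
        simp only [mem_Icc, mem_union, mem_Ioc]
        omega
      · rw [disjoint_left]
        intro n h1 h2
        rw [mem_Icc] at h1
        rw [mem_Ioc] at h2
        omega
    have hLk : (0 : ℝ) < L ^ k := pow_pos hL0 _
    have hrest0 : 0 ≤ ∑ n ∈ Ioc y' y, XX z G v n := sum_nonneg fun n _ => XX_nonneg _ _ _ _
    have hrest1 : ∑ n ∈ Ioc y' y, XX z G v n ≤ ((y : ℝ) - y') * L ^ k := by
      refine (sum_le_sum fun n _ => XX_le z hV G v n).trans (le_of_eq ?_)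
      rw [sum_const, Nat.card_Ioc, nsmul_eq_mul, Nat.cast_sub hj2]
    have hsg0 : 0 ≤ ((y : ℝ) - y') * sg z (pl G v) := mul_nonneg (by linarith) (sg_nonneg _ _)
    have hsg1 : ((y : ℝ) - y') * sg z (pl G v) ≤ ((y : ℝ) - y') * L ^ k :=
      mul_le_mul_of_nonneg_left (sg_le z hV _) (by linarith)
    have hrest : |∑ n ∈ Ioc y' y, XX z G v n - ((y : ℝ) - y') * sg z (pl G v)| ≤ ((y : ℝ) - y') * L ^ k := by
      rw [abs_le]
      constructor <;> linarith
    have f1 : ((y : ℝ) - y') * L ^ k ≤ (δ * y + 2) * L ^ k :=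
      mul_le_mul_of_nonneg_right (by linarith) hLk.le
    have f2 : δ * L ^ k = 1 / (L ^ A * L ^ 3) := by
      rw [hδdef, ha, ← pow_add, div_mul_eq_mul_div, one_mul, div_eq_div_iff (by positivity) (by positivity),
        one_mul, ← pow_add]
      congr 1
      omega
    have f3 : 2 * L ^ k ≤ y / (L ^ A * L ^ 3) := by
      rw [le_div_iff₀ (by positivity)]
      refine le_trans ?_ hyL
      have : L ^ (4 * A + 4 * k + 20) = L ^ (3 * A + 3 * k + 15) * (L ^ k * (L ^ A * L ^ 3)) * L ^ 2 := by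
        rw [← pow_add, ← pow_add, ← pow_add, ← pow_add]; congr 1; omega
      rw [this]
      have g0 : (1 : ℝ) ≤ L ^ (3 * A + 3 * k + 15) := one_le_pow₀ hL1
      have g1 : (2 : ℝ) ≤ L ^ 2 := by linarith
      have g2 : (0 : ℝ) < L ^ k * (L ^ A * L ^ 3) := by positivity
      calc 2 * L ^ k * (L ^ A * L ^ 3) = 1 * (L ^ k * (L ^ A * L ^ 3)) * 2 := by ring
        _ ≤ L ^ (3 * A + 3 * k + 15) * (L ^ k * (L ^ A * L ^ 3)) * L ^ 2 :=
          mul_le_mul (mul_le_mul_of_nonneg_right g0 g2.le) g1 (by norm_num) (by positivity)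
    have f4 : (δ * y + 2) * L ^ k ≤ 2 * (y / (L ^ A * L ^ 3)) := by
      have e1 : (δ * y + 2) * L ^ k = (δ * L ^ k) * y + 2 * L ^ k := by ring
      rw [e1, f2]
      have e2 : 1 / (L ^ A * L ^ 3) * (y : ℝ) = y / (L ^ A * L ^ 3) := by ring
      rw [e2]
      linarith
    have f6 : 2 * ((y : ℝ) / (L ^ A * L ^ 3)) ≤ y / L ^ A * (1 / 2) := by
      have : 2 * ((y : ℝ) / (L ^ A * L ^ 3)) = y / L ^ A * (2 / L ^ 3) := by
        field_simp
      rw [this]
      apply mul_le_mul_of_nonneg_left _ hyLA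
      rw [div_le_div_iff₀ (by positivity) (by norm_num)]
      have : (96 : ℝ) ≤ L ^ 3 := hL96.trans (le_self_pow₀ hL1 (by omega))
      linarith
    have hfin : ∑ n ∈ Icc 1 y, XX z G v n - y * sg z (pl G v) =
        (∑ n ∈ Icc 1 y', XX z G v n - y' * sg z (pl G v)) +
        (∑ n ∈ Ioc y' y, XX z G v n - ((y : ℝ) - y') * sg z (pl G v)) := by
      rw [hsplit]; ring
    rw [hfin]
    refine (abs_add_le _ _).trans ((add_le_add hy'avg hrest).trans ?_)
    linarith

end Pool.Agent.helper24_UT.Mt3
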