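import Pool.Agent.helper24_UT.Stm5
import Pool.Agent.H373R2.T7.SysCount
import Pool.Agent.H373R2.T7.LamZ2

set_option autoImplicit false

namespace Pool.Agent.helper24_UT.Mtl

open Finset
open Pool.Agent.helper24_UT
open Pool.Agent.H376R2.MR (ch er DP FK)
open Pool.Agent.H373R2.T7 (lamI lamzI lamz Vz pz mem_pz nuB PerB sys_count Vz_inv_small ev_L')

/-- the excluded classes -/
def QQ {k : ℕ} (z : ℕ) (F : Fin k → Polynomial ℤ) (p n : ℕ) : Prop :=
  p ≤ z ∧ ∃ i, (p : ℤ) ∣ (F i).eval (n : ℤ)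

lemma eval_mod (P : Polynomial ℤ) (p n : ℕ) :
    (p : ℤ) ∣ P.eval (n : ℤ) ↔ (p : ℤ) ∣ P.eval (((n % p : ℕ)) : ℤ) := by
  apply dvd_iff_dvd_of_dvd_sub
  refine dvd_trans ?_ (Polynomial.sub_dvd_eval_sub (n : ℤ) (((n % p : ℕ)) : ℤ) P)
  refine ⟨((n / p : ℕ) : ℤ), ?_⟩
  have h := Nat.div_add_mod n p
  have h2 : ((p * (n / p) + n % p : ℕ) : ℤ) = (n : ℤ) := by rw [h]
  rw [Nat.cast_add, Nat.cast_mul] at h2
  linarith

lemma QQ_per {k : ℕ} (z : ℕ) (F : Fin k → Polynomial ℤ) (p n : ℕ) :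
    QQ z F p n ↔ QQ z F p (n % p) := by
  unfold QQ
  constructor
  · rintro ⟨h, i, hi⟩
    exact ⟨h, i, (eval_mod (F i) p n).1 hi⟩
  · rintro ⟨h, i, hi⟩
    exact ⟨h, i, (eval_mod (F i) p n).2 hi⟩

open Classical in
lemma roots_card (P : Polynomial ℤ) (p : ℕ) (hp : p.Prime)
    (hP : P.map (Int.castRingHom (ZMod p)) ≠ 0) :
    ((range p).filter (fun t : ℕ => (p : ℤ) ∣ P.eval (t : ℤ))).card ≤ P.natDegree := by
  have : Fact p.Prime := ⟨hp⟩
  have h1 : ((range p).filter (fun t : ℕ => (p : ℤ) ∣ P.eval (t : ℤ))).card ≤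
      (P.map (Int.castRingHom (ZMod p))).roots.toFinset.card := by
    apply card_le_card_of_injOn (fun t : ℕ => (t : ZMod p))
    · intro t ht
      rw [Finset.mem_coe, mem_filter] at ht
      rw [Finset.mem_coe, Multiset.mem_toFinset, Polynomial.mem_roots hP, Polynomial.IsRoot]
      have h2 : (t : ZMod p) = Int.castRingHom (ZMod p) (t : ℤ) := by simp
      show Polynomial.eval (t : ZMod p) _ = 0
      rw [h2, Polynomial.eval_map, Polynomial.eval₂_at_apply]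
      exact (ZMod.intCast_zmod_eq_zero_iff_dvd _ _).2 ht.2
    · intro a ha b hb hab
      rw [Finset.mem_coe, mem_filter, mem_range] at ha hb
      have h3 := (ZMod.natCast_eq_natCast_iff' a b p).1 hab
      rwa [Nat.mod_eq_of_lt ha.1, Nat.mod_eq_of_lt hb.1] at h3
  refine h1.trans ?_
  refine (Multiset.toFinset_card_le _).trans ?_
  exact (Polynomial.card_roots' _).trans Polynomial.natDegree_map_le

open Classical in
lemma nuB_few {k r : ℕ} (z : ℕ) (F : Fin k → Polynomial ℤ) (hF : ∀ i, (F i).natDegree ≤ r)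
    (hz : ∀ p ∈ pz z, ∀ i, (F i).map (Int.castRingHom (ZMod p)) ≠ 0) :
    PerB (QQ z F) (k * r + 1) := by
  refine ⟨fun p n => QQ_per z F p n, fun p hp => ?_⟩
  unfold nuB
  by_cases hpz : p ≤ z
  · have h1 : (range p).filter (fun t => QQ z F p t) ⊆
        (univ : Finset (Fin k)).biUnion (fun i => (range p).filter (fun t : ℕ => (p : ℤ) ∣ (F i).eval (t : ℤ))) := by
      intro t ht
      rw [mem_filter] at ht
      obtain ⟨ht1, -, i, hi⟩ := ht
      rw [mem_biUnion]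
      exact ⟨i, mem_univ _, mem_filter.2 ⟨ht1, hi⟩⟩
    calc _ ≤ _ := card_le_card h1
      _ ≤ ∑ i : Fin k, ((range p).filter (fun t : ℕ => (p : ℤ) ∣ (F i).eval (t : ℤ))).card := card_biUnion_le
      _ ≤ ∑ i : Fin k, r := sum_le_sum fun i _ =>
          (roots_card (F i) p hp (hz p (mem_pz.2 ⟨hpz, hp⟩) i)).trans (hF i)
      _ = k * r := by simp
      _ ≤ _ := Nat.le_succ _
  · have h1 : (range p).filter (fun t => QQ z F p t) = ∅ := by
      apply filter_eq_empty_iff.2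
      intro t _ h
      exact hpz h.1
    rw [h1]; simp

lemma nuB_eq_om {k : ℕ} (z : ℕ) (F : Fin k → Polynomial ℤ) (p : ℕ) (hp : p ≤ z) :
    nuB (QQ z F) p = om F p := by
  classical
  unfold nuB om
  congr 1
  ext t
  rw [mem_filter, mem_filter]
  unfold QQ
  constructor
  · rintro ⟨h, -, h2⟩; exact ⟨h, h2⟩
  · rintro ⟨h, h2⟩; exact ⟨h, hp, h2⟩

open Classical in
lemma prod_lz {k : ℕ} (z : ℕ) (F : Fin k → Polynomial ℤ) (n : ℕ) :
    ∏ i, lz z ((F i).eval (n : ℤ)) = if ∀ p ∈ pz z, ¬ QQ z F p n then ((Vz z)⁻¹) ^ k else 0 := by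
  split_ifs with h
  · have h1 : ∀ i ∈ (univ : Finset (Fin k)), lz z ((F i).eval (n : ℤ)) = (Vz z)⁻¹ := by
      intro i _
      unfold lz
      rw [if_pos]
      intro p hp hd
      exact h p hp ⟨(mem_pz.1 hp).1, i, hd⟩
    rw [prod_congr rfl h1]
    simp
  · push Not at h
    obtain ⟨p, hp, -, i, hi⟩ := h
    apply prod_eq_zero (mem_univ i)
    unfold lz
    rw [if_neg]
    intro h2
    exact h2 p hp hi

open Classical in
lemma sum_lz {k : ℕ} (z y : ℕ) (F : Fin k → Polynomial ℤ) :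
    ∑ n ∈ Icc 1 y, ∏ i, lz z ((F i).eval (n : ℤ)) =
      ((Vz z)⁻¹) ^ k * ((((Icc 1 y).filter (fun n : ℕ => ∀ p ∈ pz z, ¬ QQ z F p n)).card : ℕ) : ℝ) := by
  rw [sum_congr rfl (fun n _ => prod_lz z F n), ← sum_filter, sum_const, nsmul_eq_mul, mul_comm]

lemma sg_eq {k : ℕ} (z : ℕ) (F : Fin k → Polynomial ℤ) :
    sg z F = ((Vz z)⁻¹) ^ k * ∏ p ∈ pz z, (1 - (nuB (QQ z F) p : ℝ) / p) := by
  unfold sg Vz
  rw [prod_div_distrib, prod_pow, inv_pow, div_eq_mul_inv, mul_comm]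
  congr 1
  apply prod_congr rfl
  intro p hp
  rw [nuB_eq_om z F p (mem_pz.1 hp).1]

lemma dvd_of_map_zero (P : Polynomial ℤ) (p : ℕ)
    (hP : P.map (Int.castRingHom (ZMod p)) = 0) (n : ℤ) : (p : ℤ) ∣ P.eval n := by
  rw [← ZMod.intCast_zmod_eq_zero_iff_dvd]
  have h : Int.castRingHom (ZMod p) (P.eval n) = 0 := by
    rw [← Polynomial.eval₂_at_apply, ← Polynomial.eval_map, hP, Polynomial.eval_zero]
  simpa using h

lemma degenerate {k : ℕ} (z y : ℕ) (F : Fin k → Polynomial ℤ) (p : ℕ) (hp : p ∈ pz z) (i : Fin k)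
    (hP : (F i).map (Int.castRingHom (ZMod p)) = 0) :
    ∑ n ∈ Icc 1 y, ∏ i, lz z ((F i).eval (n : ℤ)) - y * sg z F = 0 := by
  classical
  have h1 : ∑ n ∈ Icc 1 y, ∏ i, lz z ((F i).eval (n : ℤ)) = 0 := by
    apply sum_eq_zero
    intro n _
    rw [prod_lz, if_neg]
    intro h
    exact h p hp ⟨(mem_pz.1 hp).1, i, dvd_of_map_zero (F i) p hP n⟩
  have hp0 : (p : ℝ) ≠ 0 := by exact_mod_cast (mem_pz.1 hp).2.ne_zero
  have h2 : sg z F = 0 := by
    unfold sg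
    apply prod_eq_zero hp
    have h3 : om F p = p := by
      unfold om
      rw [filter_true_of_mem]
      · simp
      · intro t _
        exact ⟨i, dvd_of_map_zero (F i) p hP t⟩
    rw [h3, div_self hp0]
    simp
  rw [h1, h2]; simp

theorem main : S_MTL := by
  classical
  intro k r E A
  obtain ⟨N0, h0⟩ := sys_count (k * r + 1) (2 * E) (2 * (A + k)) (by omega)
  obtain ⟨H1, h1⟩ := Vz_inv_small E
  obtain ⟨H2, h2⟩ := ev_L' (max 1 ((N0 : ℝ) ^ 2))
  refine ⟨max H1 H2, fun H hH z hz hzE F hF y hy => ?_⟩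
  have a1 := h1 H (le_trans (le_max_left _ _) hH) z hz hzE
  have a2 := h2 H (le_trans (le_max_right _ _) hH)
  set L := Real.log H with hL
  have hL1 : 1 ≤ L := le_trans (le_max_left _ _) a2
  have hL0 : 0 < L := by linarith
  have hLN : (N0 : ℝ) ^ 2 ≤ L := le_trans (le_max_right _ _) a2
  have hy0 : (0 : ℝ) < y := lt_of_lt_of_le (Real.exp_pos _) hy
  by_cases hdeg : ∃ p ∈ pz z, ∃ i, (F i).map (Int.castRingHom (ZMod p)) = 0
  · obtain ⟨p, hp, i, hi⟩ := hdeg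
    rw [degenerate z y F p hp i hi, abs_zero]
    positivity
  push Not at hdeg
  have hper := nuB_few z F hF hdeg
  have hs0 : 0 ≤ Real.sqrt L := Real.sqrt_nonneg _
  have hsq : Real.sqrt L ^ 2 = L := Real.sq_sqrt hL0.le
  have hNs : (N0 : ℝ) ≤ Real.sqrt L := by
    apply Real.le_sqrt_of_sq_le hLN
  have hNy : N0 ≤ y := by
    have : (N0 : ℝ) ≤ y := by
      calc (N0 : ℝ) ≤ Real.sqrt L := hNs
        _ ≤ Real.sqrt L + 1 := by linarith
        _ ≤ Real.exp (Real.sqrt L) := Real.add_one_le_exp _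
        _ ≤ y := hy
    exact_mod_cast this
  have hly : Real.sqrt L ≤ Real.log y := by
    rw [Real.le_log_iff_exp_le hy0]; exact hy
  have hLly : L ≤ Real.log y ^ 2 := by
    rw [← hsq]; exact pow_le_pow_left₀ hs0 hly 2
  have hzy : (z : ℝ) ≤ Real.log y ^ (2 * E) := by
    rw [pow_mul]
    exact hzE.trans (pow_le_pow_left₀ hL0.le hLly E)
  have key := h0 y hNy z hz hzy (QQ z F) hper
  rw [sum_lz, sg_eq]
  have hV : 0 ≤ (Vz z)⁻¹ := by
    apply inv_nonneg.2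
    unfold Vz
    apply prod_nonneg
    intro p hp
    have hp2 : (2 : ℝ) ≤ p := by exact_mod_cast (mem_pz.1 hp).2.two_le
    rw [sub_nonneg, div_le_one (by linarith)]; linarith
  have hVk : ((Vz z)⁻¹) ^ k ≤ L ^ k := pow_le_pow_left₀ hV a1 k
  have e1 : ((Vz z)⁻¹) ^ k * ((((Icc 1 y).filter (fun n : ℕ => ∀ p ∈ pz z, ¬ QQ z F p n)).card : ℕ) : ℝ) -
      y * (((Vz z)⁻¹) ^ k * ∏ p ∈ pz z, (1 - (nuB (QQ z F) p : ℝ) / p)) =
      ((Vz z)⁻¹) ^ k * (((((Icc 1 y).filter (fun n : ℕ => ∀ p ∈ pz z, ¬ QQ z F p n)).card : ℕ) : ℝ) -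
      y * ∏ p ∈ pz z, (1 - (nuB (QQ z F) p : ℝ) / p)) := by ring
  rw [e1, abs_mul, abs_of_nonneg (pow_nonneg hV k)]
  have hU : (y : ℝ) / Real.log y ^ (2 * (A + k)) ≤ y / L ^ (A + k) := by
    apply div_le_div_of_nonneg_left hy0.le (by positivity)
    rw [pow_mul]
    exact pow_le_pow_left₀ hL0.le hLly _
  calc ((Vz z)⁻¹) ^ k * _ ≤ L ^ k * (y / L ^ (A + k)) := by
        apply mul_le_mul hVk (key.trans hU) (abs_nonneg _) (by positivity)
    _ = y / L ^ A := by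
        rw [pow_add]
        field_simp

end Pool.Agent.helper24_UT.Mtl
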