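import Pool.Agent.helper24_UT.Stm7

set_option autoImplicit false

namespace Pool.Agent.helper24_UT.Psi3

open Finset
open Pool.Agent.helper24_UT
open Pool.Agent.H376R2.MR (ch er DP FK)
open Pool.Agent.H373R2.T7 (lamI lamzI lamz Vz pz lamP lamI_nonneg lamP_nonneg lamP_le lamI_le)

lemma psi_vl {k : ℕ} (G : Fin k → Polynomial ℤ) (v : Fin k → ℕ × ℕ) (i : Fin k) (n : ℕ) :
    (pl G v i).eval (n : ℤ) = vl (fun i n => (G i).eval (n : ℤ)) v i n := by
  unfold pl vl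
  simp only [Polynomial.eval_add, Polynomial.eval_mul, Polynomial.eval_C, Polynomial.eval_X]
  ring

lemma psi_lz (z : ℕ) {m : ℤ} (hm : 1 ≤ m) : lamzI z m = lz z m := by
  unfold lamzI lz lamz
  rw [if_pos hm]
  have e : ∀ p : ℕ, p ∣ m.toNat ↔ (p : ℤ) ∣ m := by
    intro p
    rw [← Int.natCast_dvd_natCast, Int.toNat_of_nonneg (by omega)]
  by_cases h : ∀ p ∈ pz z, ¬ p ∣ m.toNat
  · have h2 : ∀ p ∈ pz z, ¬ (p : ℤ) ∣ m := fun p hp hd => h p hp ((e p).mpr hd)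
    rw [if_pos h, if_pos h2]
  · have h2 : ¬ ∀ p ∈ pz z, ¬ (p : ℤ) ∣ m := fun h3 => h fun p hp hd => h3 p hp ((e p).mp hd)
    rw [if_neg h, if_neg h2]

lemma psi_mem {k : ℕ} {Q R : Fin k → ℕ} {v : Fin k → ℕ × ℕ} (hv : v ∈ Bq Q R) (i : Fin k) :
    (1 ≤ (v i).1 ∧ (v i).1 ≤ Q i) ∧ (1 ≤ (v i).2 ∧ (v i).2 ≤ R i) := by
  unfold Bq at hv
  rw [Fintype.mem_piFinset] at hv
  have := hv i
  rw [mem_product, mem_Icc, mem_Icc] at this
  exact this

lemma psi_small1 (k : ℕ) (Q R : Fin k → ℕ) (X : ℝ) (hX : 0 ≤ X) (i : Fin k) : open Classical in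
    (((Bq Q R).filter (fun v => ((v i).1 : ℝ) < X)).card : ℝ) ≤
      X * R i * ∏ j ∈ univ.erase i, ((Q j : ℝ) * R j) := by
  classical
  have hsub : (Bq Q R).filter (fun v => ((v i).1 : ℝ) < X) ⊆
      Fintype.piFinset (fun j => if j = i then Icc 1 ⌊X⌋₊ ×ˢ Icc 1 (R i) else
        Icc 1 (Q j) ×ˢ Icc 1 (R j)) := by
    intro v hv
    rw [mem_filter] at hv
    rw [Fintype.mem_piFinset]
    intro j
    have h1 := psi_mem hv.1 j
    by_cases hj : j = i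
    · rw [if_pos hj, mem_product, mem_Icc, mem_Icc]
      subst hj
      exact ⟨⟨h1.1.1, Nat.le_floor hv.2.le⟩, h1.2⟩
    · rw [if_neg hj, mem_product, mem_Icc, mem_Icc]
      exact h1
  have h1 := card_le_card hsub
  rw [Fintype.card_piFinset] at h1
  have h2 : (∏ j : Fin k, (if j = i then Icc 1 ⌊X⌋₊ ×ˢ Icc 1 (R i) else
        Icc 1 (Q j) ×ˢ Icc 1 (R j)).card : ℕ) =
      (⌊X⌋₊ * R i) * ∏ j ∈ univ.erase i, (Q j * R j) := by
    rw [← Finset.mul_prod_erase univ _ (mem_univ i), if_pos rfl]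
    congr 1
    · rw [card_product, Nat.card_Icc, Nat.card_Icc, Nat.add_sub_cancel, Nat.add_sub_cancel]
    · refine Finset.prod_congr rfl fun j hj => ?_
      rw [if_neg (Finset.ne_of_mem_erase hj), card_product, Nat.card_Icc, Nat.card_Icc,
        Nat.add_sub_cancel, Nat.add_sub_cancel]
  rw [h2] at h1
  have hP0 : (0 : ℝ) ≤ ∏ j ∈ univ.erase i, ((Q j : ℝ) * R j) :=
    prod_nonneg fun j _ => by positivity
  calc (((Bq Q R).filter (fun v => ((v i).1 : ℝ) < X)).card : ℝ)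
      ≤ (((⌊X⌋₊ * R i) * ∏ j ∈ univ.erase i, (Q j * R j) : ℕ) : ℝ) := by exact_mod_cast h1
    _ = (⌊X⌋₊ * R i) * ∏ j ∈ univ.erase i, ((Q j : ℝ) * R j) := by push_cast; ring
    _ ≤ _ := by
      refine mul_le_mul_of_nonneg_right ?_ hP0
      exact mul_le_mul_of_nonneg_right (Nat.floor_le hX) (by positivity)

lemma psi_vq_nonneg {k : ℕ} (Q R : Fin k → ℕ) : 0 ≤ vq Q R := prod_nonneg fun _ _ => by positivity

lemma psi_small (k : ℕ) (Q R : Fin k → ℕ) (Y : ℝ) (hY : 0 < Y) : open Classical in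
    (((Bq Q R).filter (fun v => ∃ i, ((v i).1 : ℝ) < Q i / Y)).card : ℝ) ≤
      k * (vq Q R / Y) := by
  classical
  have hsub : (Bq Q R).filter (fun v => ∃ i, ((v i).1 : ℝ) < Q i / Y) ⊆
      (univ : Finset (Fin k)).biUnion (fun i => (Bq Q R).filter (fun v => ((v i).1 : ℝ) < Q i / Y)) := by
    intro v hv
    rw [mem_filter] at hv
    obtain ⟨i, hi⟩ := hv.2
    rw [mem_biUnion]
    exact ⟨i, mem_univ i, mem_filter.mpr ⟨hv.1, hi⟩⟩
  have h1 := (card_le_card hsub).trans card_biUnion_le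
  have h2 : ∀ i : Fin k, (((Bq Q R).filter (fun v => ((v i).1 : ℝ) < Q i / Y)).card : ℝ) ≤
      vq Q R / Y := by
    intro i
    refine (psi_small1 k Q R (Q i / Y) (by positivity) i).trans (le_of_eq ?_)
    unfold vq
    rw [← Finset.mul_prod_erase univ _ (mem_univ i)]
    ring
  calc (((Bq Q R).filter (fun v => ∃ i, ((v i).1 : ℝ) < Q i / Y)).card : ℝ)
      ≤ ((∑ i : Fin k, ((Bq Q R).filter (fun v => ((v i).1 : ℝ) < Q i / Y)).card : ℕ) : ℝ) := by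
        exact_mod_cast h1
    _ = ∑ i : Fin k, (((Bq Q R).filter (fun v => ((v i).1 : ℝ) < Q i / Y)).card : ℝ) := by
        push_cast; rfl
    _ ≤ ∑ _i : Fin k, vq Q R / Y := sum_le_sum fun i _ => h2 i
    _ = k * (vq Q R / Y) := by
        rw [sum_const, card_univ, Fintype.card_fin, nsmul_eq_mul]

lemma psi_point {k H T A B : ℕ} {L : ℝ} (hL : 1 ≤ L) (hAB : A + 1 ≤ B) (hH : 1 ≤ H) (hTH : T ≤ H)
    {Q R : Fin k → ℕ} (hQR : ∀ i, R i ≤ Q i ∧ Q i ≤ H)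
    {g : Fin k → ℕ → ℤ} (hg : ∀ i, ∀ n ∈ Icc 1 T, |((g i n : ℤ) : ℝ)| * L ^ B ≤ Q i * n)
    {v : Fin k → ℕ × ℕ} (hv : v ∈ Bq Q R) (hv1 : ∀ i, (Q i : ℝ) / L ^ (A + 1) ≤ (v i).1) {n : ℕ}
    (hn : n ∈ Icc 1 T) (i : Fin k) :
    1 ≤ vl g v i n ∧ ((vl g v i n : ℤ) : ℝ) ≤ 3 * (H : ℝ) ^ 2 := by
  have hm := psi_mem hv i
  have hg1 := hg i n hn
  rw [mem_Icc] at hn
  have hL0 : 0 < L := by linarith
  have hLA : 0 < L ^ (A + 1) := by positivity
  have hLB : L ^ (A + 1) ≤ L ^ B := pow_le_pow_right₀ hL hAB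
  have hL1 : 1 ≤ L ^ B := one_le_pow₀ hL
  have hH1 : (1 : ℝ) ≤ H := by exact_mod_cast hH
  have hn1 : (1 : ℝ) ≤ n := by exact_mod_cast hn.1
  have hnH : (n : ℝ) ≤ H := by exact_mod_cast hn.2.trans hTH
  have hQ : ((Q i : ℕ) : ℝ) ≤ H := by exact_mod_cast (hQR i).2
  have hb : ((v i).1 : ℝ) ≤ H := by exact_mod_cast hm.1.2.trans (hQR i).2
  have hc : ((v i).2 : ℝ) ≤ H := by exact_mod_cast hm.2.2.trans ((hQR i).1.trans (hQR i).2)
  have hc1 : (1 : ℝ) ≤ (v i).2 := by exact_mod_cast hm.2.1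
  have hb0 : (0 : ℝ) ≤ (v i).1 := by positivity
  have habs := abs_nonneg ((g i n : ℤ) : ℝ)
  have h1 : |((g i n : ℤ) : ℝ)| ≤ (v i).1 * n := by
    have h2 := hv1 i
    rw [div_le_iff₀ hLA] at h2
    have h3 : |((g i n : ℤ) : ℝ)| * L ^ (A + 1) ≤ ((v i).1 * n) * L ^ (A + 1) := by
      calc |((g i n : ℤ) : ℝ)| * L ^ (A + 1) ≤ |((g i n : ℤ) : ℝ)| * L ^ B :=
            mul_le_mul_of_nonneg_left hLB habs
        _ ≤ Q i * n := hg1
        _ ≤ ((v i).1 * L ^ (A + 1)) * n := mul_le_mul_of_nonneg_right h2 (by linarith)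
        _ = ((v i).1 * n) * L ^ (A + 1) := by ring
    exact le_of_mul_le_mul_right h3 hLA
  have h4 : |((g i n : ℤ) : ℝ)| ≤ H * n := by
    have h5 : |((g i n : ℤ) : ℝ)| ≤ Q i * n := by
      refine le_trans ?_ hg1
      nlinarith
    exact h5.trans (mul_le_mul_of_nonneg_right hQ (by linarith))
  have e : ((vl g v i n : ℤ) : ℝ) = (v i).1 * n + (v i).2 + ((g i n : ℤ) : ℝ) := by
    unfold vl
    push_cast
    ring
  have h5 := abs_le.mp h1
  have h6 := abs_le.mp h4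
  constructor
  · have : (1 : ℝ) ≤ ((vl g v i n : ℤ) : ℝ) := by
      rw [e]
      linarith [h5.1]
    exact_mod_cast this
  · rw [e]
    have k1 : ((v i).1 : ℝ) * n ≤ H * H := mul_le_mul hb hnH (by linarith) (by linarith)
    have k2 : (H : ℝ) * n ≤ H * H := mul_le_mul_of_nonneg_left hnH (by linarith)
    have k3 : (H : ℝ) ≤ H * H := by nlinarith
    nlinarith [h6.2]

lemma psi_prod {k : ℕ} {M : ℝ} {x y : Fin k → ℝ} (hx : ∀ i, 0 ≤ x i) (hxM : ∀ i, x i ≤ M)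
    (hy : ∀ i, 0 ≤ y i) (hyM : ∀ i, y i ≤ M) : |∏ i, x i - ∏ i, y i| ≤ M ^ k := by
  have h1 : 0 ≤ ∏ i, x i := prod_nonneg fun i _ => hx i
  have h2 : 0 ≤ ∏ i, y i := prod_nonneg fun i _ => hy i
  have h3 : ∏ i, x i ≤ M ^ k := by
    calc ∏ i, x i ≤ ∏ _i : Fin k, M := prod_le_prod (fun i _ => hx i) fun i _ => hxM i
      _ = M ^ k := by rw [prod_const, card_univ, Fintype.card_fin]
  have h4 : ∏ i, y i ≤ M ^ k := by
    calc ∏ i, y i ≤ ∏ _i : Fin k, M := prod_le_prod (fun i _ => hy i) fun i _ => hyM i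
      _ = M ^ k := by rw [prod_const, card_univ, Fintype.card_fin]
  rw [abs_le]
  constructor <;> linarith

theorem main : S_ALL3 → S_MT3 → S_PP3 → S_PSI3 := by
  classical
  intro hALL hMT hPP k r e A he
  obtain ⟨E₀', B₁, hALL⟩ := hALL k e (A + 1) he
  obtain ⟨B₂, hMT⟩ := hMT k r e (A + 1) he
  refine ⟨E₀' + 1, B₁ + B₂ + (A + 1), fun E hE => ?_⟩
  obtain ⟨H₁, hALL⟩ := hALL E
  obtain ⟨H₂, hMT⟩ := hMT E
  obtain ⟨H₃, hPP⟩ := hPP k e (A + 1 + 2 * k) he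
  refine ⟨H₁ + H₂ + H₃ + ⌈Real.exp (k + 3)⌉₊ + 3, fun H hH T Q R hT G hdeg hG => ?_⟩
  set L := Real.log H with hLdef
  have hH3 : 3 ≤ H := by omega
  have hH0 : (0 : ℝ) < H := by exact_mod_cast (by omega : 0 < H)
  have hLk : (k : ℝ) + 3 ≤ L := by
    rw [hLdef, Real.le_log_iff_exp_le hH0]
    refine (Nat.le_ceil _).trans ?_
    exact_mod_cast (by omega : ⌈Real.exp (k + 3)⌉₊ ≤ H)
  have hk0 : (0 : ℝ) ≤ k := by positivity
  have hL3 : 3 ≤ L := by linarith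
  have hL1 : 1 ≤ L := by linarith
  have hL0 : 0 < L := by linarith
  have hpow : ∀ {a b : ℕ}, a ≤ b → L ^ a ≤ L ^ b := fun h => pow_le_pow_right₀ hL1 h
  have hpos : ∀ a : ℕ, 0 < L ^ a := fun a => by positivity
  set B := B₁ + B₂ + (A + 1) with hB
  -- the trivial case
  rcases Nat.eq_zero_or_pos k with hk | hk
  · subst hk
    refine ⟨∅, empty_subset _, ?_, fun v _ _ => ⟨fun i => i.elim0, fun y _ _ => ?_⟩⟩
    · rw [card_empty, Nat.cast_zero]
      exact div_nonneg (psi_vq_nonneg Q R) (hpos A).le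
    · have h1 : sg ⌊L ^ E⌋₊ (pl G v) = 1 := by
        unfold sg
        refine prod_eq_one fun p _ => ?_
        have : om (pl G v) p = 0 := by
          unfold om
          rw [card_eq_zero, filter_eq_empty_iff]
          rintro t _ ⟨i, _⟩
          exact i.elim0
        rw [this]
        simp
      rw [h1]
      simp only [univ_eq_empty, prod_empty, sum_const, Nat.card_Icc, Nat.add_sub_cancel,
        nsmul_eq_mul, mul_one, sub_self, abs_zero]
      exact div_nonneg (by positivity) (hpos A).le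
  have hRg : ∀ i, Rg e H (Q i) (R i) := fun i => (hT i).1
  have hQR : ∀ i, R i ≤ Q i ∧ Q i ≤ H := fun i => (hRg i).2
  have hR0 : ∀ i, (0 : ℝ) < R i := fun i =>
    lt_of_lt_of_le (Real.rpow_pos_of_pos hH0 _) (hRg i).1
  -- the size of T
  have hTH' : (T : ℝ) ≤ H := by
    set i : Fin k := ⟨0, hk⟩
    have h1 : (1 : ℝ) ≤ L ^ B := one_le_pow₀ hL1
    have hT0 : (0 : ℝ) ≤ T := by positivity
    have h2 := (hT i).2
    have h3 : ((R i : ℕ) : ℝ) ≤ Q i := by exact_mod_cast (hQR i).1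
    have h4 : ((Q i : ℕ) : ℝ) ≤ H := by exact_mod_cast (hQR i).2
    have h5 : (0 : ℝ) < Q i := (hR0 i).trans_le h3
    have h6 : ((R i : ℕ) : ℝ) ^ 2 ≤ Q i * Q i := by
      rw [pow_two]
      exact mul_le_mul h3 h3 (hR0 i).le h5.le
    have h7 : (Q i : ℝ) * (T * L ^ B) ≤ Q i * Q i := by
      rw [← mul_assoc]
      exact h2.trans h6
    have h8 : (T : ℝ) * L ^ B ≤ Q i := le_of_mul_le_mul_left h7 h5
    have h9 : (T : ℝ) ≤ T * L ^ B := by nlinarith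
    linarith
  have hTH : T ≤ H := by exact_mod_cast hTH'
  set g : Fin k → ℕ → ℤ := fun i n => (G i).eval (n : ℤ) with hgdef
  have hgB : ∀ i, ∀ n ∈ Icc 1 T, |((g i n : ℤ) : ℝ)| * L ^ B ≤ Q i * n := hG
  have hgI : ∀ i, ∀ n ∈ Icc 1 T, |g i n| ≤ Q i * n := by
    intro i n hn
    have h1 := hgB i n hn
    have h2 : (1 : ℝ) ≤ L ^ B := one_le_pow₀ hL1
    have h3 : |((g i n : ℤ) : ℝ)| ≤ Q i * n := by
      refine le_trans ?_ h1
      nlinarith [abs_nonneg ((g i n : ℤ) : ℝ)]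
    exact_mod_cast h3
  have hgH : ∀ i, ∀ n ∈ Icc 1 T, |g i n| ≤ H * n := by
    intro i n hn
    refine (hgI i n hn).trans ?_
    exact_mod_cast Nat.mul_le_mul_right n (hQR i).2
  -- the sieving limit
  set z := ⌊L ^ E⌋₊ with hz
  have hzle : (z : ℝ) ≤ L ^ E := Nat.floor_le (by positivity)
  have hzge : L ^ E₀' ≤ z := by
    have h1 : L ^ E < z + 1 := Nat.lt_floor_add_one _
    have h2 : L ^ (E₀' + 1) ≤ L ^ E := hpow hE
    have h3 : L ^ (E₀' + 1) = L ^ E₀' * L := pow_succ _ _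
    have h4 : (1 : ℝ) ≤ L ^ E₀' := one_le_pow₀ hL1
    nlinarith
  have hz1 : 1 ≤ z := by
    have : (1 : ℝ) ≤ z := (one_le_pow₀ hL1).trans hzge
    exact_mod_cast this
  have hTB1 : ∀ i, Rg e H (Q i) (R i) ∧ (Q i : ℝ) * T * L ^ B₁ ≤ (R i : ℝ) ^ 2 := fun i =>
    ⟨hRg i, (mul_le_mul_of_nonneg_left (hpow (by omega)) (by positivity)).trans (hT i).2⟩
  obtain ⟨Bad₁, hs₁, hc₁, hb₁⟩ := hALL H (by omega) T Q R hTB1 z hzge hzle g hgI (fun _ => 1)
    (fun _ => by simp)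
  obtain ⟨Bad₂, hs₂, hc₂, hb₂⟩ := hMT H (by omega) Q R hRg z hz1 hzle G hdeg
  obtain ⟨Bad₃, hs₃, hc₃, hb₃⟩ := hPP H (by omega) Q R hRg T hTH g hgH
  set Bad₄ := (Bq Q R).filter (fun v => ∃ i, ((v i).1 : ℝ) < Q i / L ^ (A + 1)) with hBad4
  have hc₄ : (Bad₄.card : ℝ) ≤ k * (vq Q R / L ^ (A + 1)) :=
    psi_small k Q R (L ^ (A + 1)) (hpos _)
  set N : ℝ := vq Q R with hN
  have hN0 : 0 ≤ N := psi_vq_nonneg Q R
  refine ⟨Bad₁ ∪ Bad₂ ∪ Bad₃ ∪ Bad₄, ?_, ?_, ?_⟩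
  · exact union_subset (union_subset (union_subset hs₁ hs₂) hs₃) (filter_subset _ _)
  · have h1 : ((Bad₁ ∪ Bad₂ ∪ Bad₃ ∪ Bad₄).card : ℝ) ≤
        Bad₁.card + Bad₂.card + Bad₃.card + Bad₄.card := by
      have a1 := card_union_le (Bad₁ ∪ Bad₂ ∪ Bad₃) Bad₄
      have a2 := card_union_le (Bad₁ ∪ Bad₂) Bad₃
      have a3 := card_union_le Bad₁ Bad₂
      exact_mod_cast (by omega : (Bad₁ ∪ Bad₂ ∪ Bad₃ ∪ Bad₄).card ≤
        Bad₁.card + Bad₂.card + Bad₃.card + Bad₄.card)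
    have h3 : N / L ^ (A + 1 + 2 * k) ≤ N / L ^ (A + 1) :=
      div_le_div_of_nonneg_left hN0 (hpos _) (hpow (by omega))
    have h4 : ((k : ℝ) + 3) * (N / L ^ (A + 1)) ≤ N / L ^ A := by
      rw [pow_succ, mul_div_assoc', div_le_div_iff₀ (by positivity) (by positivity)]
      have : ((k : ℝ) + 3) * (N * L ^ A) ≤ L * (N * L ^ A) :=
        mul_le_mul_of_nonneg_right hLk (by positivity)
      linarith
    linarith
  · intro v hv hvB
    simp only [mem_union, not_or] at hvB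
    obtain ⟨⟨⟨hv1, hv2⟩, hv3⟩, hv4⟩ := hvB
    have hvb : ∀ i, (Q i : ℝ) / L ^ (A + 1) ≤ (v i).1 := by
      intro i
      by_contra hcon
      rw [not_le] at hcon
      exact hv4 (by rw [hBad4, mem_filter]; exact ⟨hv, i, hcon⟩)
    refine ⟨hvb, fun y hy hyT => ?_⟩
    have hy0 : (0 : ℝ) ≤ y := by positivity
    have hy1 : 1 ≤ y := by
      have : (1 : ℝ) ≤ y := (one_le_pow₀ hL1).trans hy
      exact_mod_cast this
    have hpt : ∀ n ∈ Icc 1 y, ∀ i, 1 ≤ vl g v i n ∧ ((vl g v i n : ℤ) : ℝ) ≤ 3 * (H : ℝ) ^ 2 := by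
      intro n hn i
      rw [mem_Icc] at hn
      exact psi_point hL1 (by omega : A + 1 ≤ B) (by omega) hTH hQR hgB hv hvb
        (mem_Icc.mpr ⟨hn.1, hn.2.trans hyT⟩) i
    -- first comparison
    have c1 := hb₁ v hv hv1 y ((hpow (by omega)).trans hy) hyT
    simp only [one_mul] at c1
    have c2 := hb₂ v hv hv2 y ((hpow (by omega)).trans hy)
    have c3 := hb₃ v hv hv3 y hy1 hyT
    have e1 : ∑ n ∈ Icc 1 y, ∏ i, lamzI z (vl g v i n) = ∑ n ∈ Icc 1 y, XX z G v n := by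
      refine sum_congr rfl fun n hn => ?_
      unfold XX
      refine prod_congr rfl fun i _ => ?_
      rw [psi_vl, psi_lz z (hpt n hn i).1]
    have e2 : ∑ n ∈ Icc 1 y, ∏ i, lamP ((pl G v i).eval (n : ℤ)) =
        ∑ n ∈ Icc 1 y, ∏ i, lamP (vl g v i n) := by
      refine sum_congr rfl fun n hn => ?_
      refine prod_congr rfl fun i _ => ?_
      rw [psi_vl]
    -- the size of the products
    have hlog : Real.log (3 * (H : ℝ) ^ 2) ≤ 3 * L := by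
      have h1 : 3 * (H : ℝ) ^ 2 ≤ (H : ℝ) ^ 3 := by
        have : (3 : ℝ) ≤ H := by exact_mod_cast hH3
        nlinarith [sq_nonneg (H : ℝ)]
      calc Real.log (3 * (H : ℝ) ^ 2) ≤ Real.log ((H : ℝ) ^ 3) := Real.log_le_log (by positivity) h1
        _ = 3 * L := by rw [Real.log_pow]; push_cast; rfl
    have hX1 : (1 : ℝ) ≤ 3 * (H : ℝ) ^ 2 := by
      have : (3 : ℝ) ≤ H := by exact_mod_cast hH3
      nlinarith
    have d1 : ∀ n ∈ Icc 1 y, |∏ i, lamI (vl g v i n) - ∏ i, lamP (vl g v i n)| ≤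
        if (∃ i, lamI (vl g v i n) ≠ lamP (vl g v i n)) then (3 * L) ^ k else 0 := by
      intro n hn
      split_ifs with hcase
      · have hI : ∀ i, lamI (vl g v i n) ≤ 3 * L := fun i =>
          (lamI_le _ _ hX1 (hpt n hn i).2).trans hlog
        exact psi_prod (fun i => lamI_nonneg _) hI (fun i => lamP_nonneg _)
          (fun i => (lamP_le _).trans (hI i))
      · push Not at hcase
        rw [prod_congr rfl fun i _ => hcase i, sub_self, abs_zero]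
    have d2 : |∑ n ∈ Icc 1 y, ∏ i, lamI (vl g v i n) - ∑ n ∈ Icc 1 y, ∏ i, lamP (vl g v i n)| ≤
        y / L ^ (A + 1) := by
      rw [← sum_sub_distrib]
      refine (abs_sum_le_sum_abs _ _).trans ((sum_le_sum d1).trans ?_)
      rw [← sum_filter, sum_const, nsmul_eq_mul]
      have f1 : (3 * L) ^ k ≤ L ^ (2 * k) := by
        rw [pow_mul]
        exact pow_le_pow_left₀ (by positivity) (by nlinarith) k
      calc _ ≤ (y / L ^ (A + 1 + 2 * k)) * L ^ (2 * k) := by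
            refine mul_le_mul ?_ f1 (by positivity) (by positivity)
            convert c3 using 3
        _ = y / L ^ (A + 1) := by
            rw [pow_add L (A + 1) (2 * k)]
            field_simp
    rw [e2]
    have key : ∑ n ∈ Icc 1 y, ∏ i, lamP (vl g v i n) - y * sg z (pl G v) =
        (∑ n ∈ Icc 1 y, (∏ i, lamI (vl g v i n) - ∏ i, lamzI z (vl g v i n))) +
        (∑ n ∈ Icc 1 y, XX z G v n - y * sg z (pl G v)) -
        (∑ n ∈ Icc 1 y, ∏ i, lamI (vl g v i n) - ∑ n ∈ Icc 1 y, ∏ i, lamP (vl g v i n)) := by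
      rw [sum_sub_distrib, e1]
      ring
    rw [key]
    have h4 : 3 * ((y : ℝ) / L ^ (A + 1)) ≤ y / L ^ A := by
      rw [pow_succ, mul_div_assoc', div_le_div_iff₀ (by positivity) (by positivity)]
      have : 3 * ((y : ℝ) * L ^ A) ≤ L * (y * L ^ A) :=
        mul_le_mul_of_nonneg_right hL3 (by positivity)
      linarith
    have a1 := abs_sub (∑ n ∈ Icc 1 y, (∏ i, lamI (vl g v i n) - ∏ i, lamzI z (vl g v i n)) +
        (∑ n ∈ Icc 1 y, XX z G v n - y * sg z (pl G v)))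
        (∑ n ∈ Icc 1 y, ∏ i, lamI (vl g v i n) - ∑ n ∈ Icc 1 y, ∏ i, lamP (vl g v i n))
    have a2 := abs_add_le (∑ n ∈ Icc 1 y, (∏ i, lamI (vl g v i n) - ∏ i, lamzI z (vl g v i n)))
        (∑ n ∈ Icc 1 y, XX z G v n - y * sg z (pl G v))
    linarith

end Pool.Agent.helper24_UT.Psi3
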