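import Pool.Agent.helper24_UT.Stm7
import Pool.Agent.H373R2.T7.LamZ2

set_option autoImplicit false

namespace Pool.Agent.helper24_UT.Pt3

open Finset
open Pool.Agent.helper24_UT
open Pool.Agent.H376R2.MR (ch er DP FK)

open Pool.Agent.H373R2.T7 (lamI lamzI lamz Vz pz mem_pz Vz_inv_small)

/-- a linear congruence has exactly one solution -/
theorem cnt_lin (p : ℕ) (hp : p.Prime) (h t : ℤ) (hh : ¬ (p : ℤ) ∣ h) :
    ((range p).filter (fun b : ℕ => (p : ℤ) ∣ (b : ℤ) * h + t)).card = 1 := by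
  have : Fact p.Prime := ⟨hp⟩
  have h0 : (h : ZMod p) ≠ 0 := by
    rw [Ne, ZMod.intCast_zmod_eq_zero_iff_dvd]
    exact hh
  rw [Finset.card_eq_one]
  refine ⟨(-(t : ZMod p) * (h : ZMod p)⁻¹).val, ?_⟩
  ext b
  rw [mem_filter, mem_range, mem_singleton, ← ZMod.intCast_zmod_eq_zero_iff_dvd]
  push_cast
  constructor
  · rintro ⟨hb, hb2⟩
    have h1 : (b : ZMod p) = -(t : ZMod p) * (h : ZMod p)⁻¹ := by
      field_simp
      linear_combination hb2
    rw [← h1, ZMod.val_natCast, Nat.mod_eq_of_lt hb]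
  · rintro rfl
    refine ⟨ZMod.val_lt _, ?_⟩
    rw [ZMod.natCast_val, ZMod.cast_id', id]
    field_simp
    ring

/-- counting pairs -/
theorem cnt_pair (p : ℕ) (P : ℕ → ℕ → Prop) [∀ b b', Decidable (P b b')] :
    ((range p ×ˢ range p).filter (fun x : ℕ × ℕ => P x.1 x.2)).card =
      ∑ b ∈ range p, ((range p).filter (fun b' => P b b')).card := by
  simp only [card_filter]
  rw [sum_product]

theorem cnt_one (p : ℕ) (hp : p.Prime) (n : ℕ) (s : ℤ) :
    ((range p ×ˢ range p).filter (fun x : ℕ × ℕ => (p : ℤ) ∣ (x.1 : ℤ) * n + x.2 + s)).card = p := by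
  rw [cnt_pair p (fun b b' => (p : ℤ) ∣ (b : ℤ) * n + b' + s)]
  have h1 : ∀ b ∈ range p, ((range p).filter (fun b' : ℕ => (p : ℤ) ∣ (b : ℤ) * n + b' + s)).card = 1 := by
    intro b _
    rw [← cnt_lin p hp 1 ((b : ℤ) * n + s) (by
      intro h
      have := Int.eq_one_of_dvd_one (by positivity) h
      have h2 : p = 1 := by exact_mod_cast this
      exact hp.one_lt.ne' h2)]
    congr 1
    ext b'
    rw [mem_filter, mem_filter]
    have : (b : ℤ) * n + b' + s = (b' : ℤ) * 1 + ((b : ℤ) * n + s) := by ring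
    rw [this]
  rw [sum_congr rfl h1, sum_const, card_range, smul_eq_mul, mul_one]

/-- the excluded pairs -/
def QQ (n n' : ℕ) (s s' : ℤ) (p b b' : ℕ) : Prop :=
  p.Prime ∧ ((p : ℤ) ∣ (b : ℤ) * n + b' + s ∨ (p : ℤ) ∣ (b : ℤ) * n' + b' + s')

theorem nu2_dvd {n n' : ℕ} (hn : n' < n) {s s' : ℤ} (hs : ((n : ℤ) - n') ∣ s - s') {p : ℕ}
    (hp : p.Prime) (hd : p ∣ n - n') : nu2 (QQ n n' s s') p = p := by
  classical
  unfold nu2
  refine Eq.trans (congrArg card ?_) (cnt_one p hp n s)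
  ext x
  rw [Finset.mem_filter, Finset.mem_filter]
  refine and_congr_right fun _ => ?_
  unfold QQ
  have hd' : (p : ℤ) ∣ (n : ℤ) - n' := by
    have : ((n - n' : ℕ) : ℤ) = (n : ℤ) - n' := by rw [Nat.cast_sub hn.le]
    rw [← this]
    exact_mod_cast hd
  have hds : (p : ℤ) ∣ s - s' := hd'.trans hs
  constructor
  · rintro ⟨-, h | h⟩
    · exact h
    · have e : (x.1 : ℤ) * n + x.2 + s = ((x.1 : ℤ) * n' + x.2 + s') + x.1 * ((n : ℤ) - n') + (s - s') := by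
        ring
      rw [e]
      exact dvd_add (dvd_add h (hd'.mul_left _)) hds
  · intro h
    exact ⟨hp, Or.inl h⟩

theorem nu2_ndvd {n n' : ℕ} (hn : n' < n) {s s' : ℤ} {p : ℕ}
    (hp : p.Prime) (hd : ¬ p ∣ n - n') : nu2 (QQ n n' s s') p + 1 = 2 * p := by
  classical
  unfold nu2
  have h1 := cnt_one p hp n s
  have h2 := cnt_one p hp n' s'
  have hd' : ¬ (p : ℤ) ∣ (n : ℤ) - n' := by
    have : ((n - n' : ℕ) : ℤ) = (n : ℤ) - n' := by rw [Nat.cast_sub hn.le]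
    rw [← this]
    exact_mod_cast hd
  have h3 : (((range p ×ˢ range p).filter (fun x : ℕ × ℕ => (p : ℤ) ∣ (x.1 : ℤ) * n + x.2 + s)) ∩
      ((range p ×ˢ range p).filter (fun x : ℕ × ℕ => (p : ℤ) ∣ (x.1 : ℤ) * n' + x.2 + s'))).card = 1 := by
    rw [← filter_and, cnt_pair p (fun b b' => (p : ℤ) ∣ (b : ℤ) * n + b' + s ∧
      (p : ℤ) ∣ (b : ℤ) * n' + b' + s')]
    have h4 : ∀ b ∈ range p, ((range p).filter (fun b' : ℕ => (p : ℤ) ∣ (b : ℤ) * n + b' + s ∧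
        (p : ℤ) ∣ (b : ℤ) * n' + b' + s')).card =
        if (p : ℤ) ∣ (b : ℤ) * ((n : ℤ) - n') + (s - s') then 1 else 0 := by
      intro b _
      by_cases hb : (p : ℤ) ∣ (b : ℤ) * ((n : ℤ) - n') + (s - s')
      · rw [if_pos hb, ← cnt_lin p hp 1 ((b : ℤ) * n + s) (by
          intro h
          have := Int.eq_one_of_dvd_one (by positivity) h
          have h2 : p = 1 := by exact_mod_cast this
          exact hp.one_lt.ne' h2)]
        congr 1
        ext b'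
        rw [mem_filter, mem_filter]
        refine and_congr_right fun _ => ?_
        have e : (b : ℤ) * n + b' + s = (b' : ℤ) * 1 + ((b : ℤ) * n + s) := by ring
        rw [e]
        refine and_iff_left_of_imp fun h => ?_
        have e2 : (b : ℤ) * n' + b' + s' = ((b' : ℤ) * 1 + ((b : ℤ) * n + s)) -
            ((b : ℤ) * ((n : ℤ) - n') + (s - s')) := by ring
        rw [e2]
        exact dvd_sub h hb
      · rw [if_neg hb, card_eq_zero, filter_eq_empty_iff]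
        rintro b' - ⟨g1, g2⟩
        apply hb
        have e2 : (b : ℤ) * ((n : ℤ) - n') + (s - s') = ((b : ℤ) * n + b' + s) -
            ((b : ℤ) * n' + b' + s') := by ring
        rw [e2]
        exact dvd_sub g1 g2
    rw [sum_congr rfl h4, ← card_filter]
    exact cnt_lin p hp _ _ hd'
  have h5 := card_union_add_card_inter
    ((range p ×ˢ range p).filter (fun x : ℕ × ℕ => (p : ℤ) ∣ (x.1 : ℤ) * n + x.2 + s))
    ((range p ×ˢ range p).filter (fun x : ℕ × ℕ => (p : ℤ) ∣ (x.1 : ℤ) * n' + x.2 + s'))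
  rw [h1, h2, h3, ← filter_or] at h5
  have h6 : ((range p ×ˢ range p).filter (fun x : ℕ × ℕ => QQ n n' s s' p x.1 x.2)) =
      ((range p ×ˢ range p).filter (fun x : ℕ × ℕ => (p : ℤ) ∣ (x.1 : ℤ) * n + x.2 + s ∨
        (p : ℤ) ∣ (x.1 : ℤ) * n' + x.2 + s')) := by
    ext x
    simp only [mem_filter, QQ, hp, true_and]
  have h7 : (((range p ×ˢ range p).filter (fun x : ℕ × ℕ => QQ n n' s s' p x.1 x.2))).card + 1 =
      2 * p := by rw [h6]; omega
  convert h7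

theorem QQ_per (n n' : ℕ) (s s' : ℤ) (p b b' : ℕ) :
    QQ n n' s s' p b b' ↔ QQ n n' s s' p (b % p) (b' % p) := by
  unfold QQ
  refine and_congr_right fun _ => ?_
  have hb : (p : ℤ) ∣ (b : ℤ) - ((b % p : ℕ) : ℤ) := by
    rw [Int.natCast_mod]
    exact Int.dvd_self_sub_emod
  have hb' : (p : ℤ) ∣ (b' : ℤ) - ((b' % p : ℕ) : ℤ) := by
    rw [Int.natCast_mod]
    exact Int.dvd_self_sub_emod
  have key : ∀ (m : ℕ) (t : ℤ), (p : ℤ) ∣ (b : ℤ) * m + b' + t ↔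
      (p : ℤ) ∣ ((b % p : ℕ) : ℤ) * m + ((b' % p : ℕ) : ℤ) + t := by
    intro m t
    have e : (b : ℤ) * m + b' + t = (((b % p : ℕ) : ℤ) * m + ((b' % p : ℕ) : ℤ) + t) +
        (((b : ℤ) - ((b % p : ℕ) : ℤ)) * m + ((b' : ℤ) - ((b' % p : ℕ) : ℤ))) := by ring
    rw [e]
    exact (Int.dvd_add_left (dvd_add (hb.mul_right _) hb'))
  rw [key n s, key n' s']

theorem Vz_pos' (z : ℕ) : 0 < Vz z := by
  unfold Vz
  refine prod_pos fun p hp => ?_
  have hp2 : (2 : ℝ) ≤ p := by exact_mod_cast (mem_pz.1 hp).2.two_le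
  rw [sub_pos, div_lt_one (by linarith)]
  linarith

/-- the product of the local densities -/
theorem prod_eq {n n' : ℕ} (hn : n' < n) {s s' : ℤ} (hs : ((n : ℤ) - n') ∣ s - s') (z : ℕ) :
    ∏ p ∈ pz z, (1 - (nu2 (QQ n n' s s') p : ℝ) / (p : ℝ) ^ 2) = Vz z ^ 2 * kap z (n - n') := by
  unfold Vz kap
  rw [prod_filter, ← prod_pow, ← prod_mul_distrib]
  refine prod_congr rfl fun p hp => ?_
  have hpp := (mem_pz.1 hp).2
  have hp2 : (2 : ℝ) ≤ p := by exact_mod_cast hpp.two_le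
  have hp0 : (p : ℝ) ≠ 0 := by linarith
  have hp1 : (1 - 1 / (p : ℝ)) ≠ 0 := by
    have : 0 < 1 - 1 / (p : ℝ) := by
      rw [sub_pos, div_lt_one (by linarith)]; linarith
    exact this.ne'
  by_cases hd : p ∣ n - n'
  · have e3 : (1 - 1 / (p : ℝ)) ^ 2 * (1 - 1 / (p : ℝ))⁻¹ = 1 - 1 / (p : ℝ) := by
      rw [sq, mul_assoc, mul_inv_cancel₀ hp1, mul_one]
    rw [if_pos hd, nu2_dvd hn hs hpp hd, e3]
    congr 1
    field_simp
  · rw [if_neg hd, mul_one]
    have h1 := nu2_ndvd (s := s) (s' := s') hn hpp hd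
    have h2 : (nu2 (QQ n n' s s') p : ℝ) = 2 * p - 1 := by
      have : ((nu2 (QQ n n' s s') p + 1 : ℕ) : ℝ) = ((2 * p : ℕ) : ℝ) := by rw [h1]
      push_cast at this
      linarith
    rw [h2]
    field_simp
    ring

/-- the sum as a count -/
theorem sum_eq (z Q R n n' : ℕ) (s s' : ℤ) :
    ∑ x ∈ Icc 1 Q ×ˢ Icc 1 R, lz z ((x.1 : ℤ) * n + x.2 + s) * lz z ((x.1 : ℤ) * n' + x.2 + s') =
      ((Vz z)⁻¹) ^ 2 * ((open Classical in ((Icc 1 Q ×ˢ Icc 1 R).filter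
        (fun x : ℕ × ℕ => ∀ p ∈ pz z, ¬ QQ n n' s s' p x.1 x.2)).card : ℕ) : ℝ) := by
  classical
  rw [card_filter, Nat.cast_sum, mul_sum]
  refine sum_congr rfl fun x _ => ?_
  unfold lz
  by_cases h1 : ∀ p ∈ pz z, ¬ (p : ℤ) ∣ (x.1 : ℤ) * n + x.2 + s
  · by_cases h2 : ∀ p ∈ pz z, ¬ (p : ℤ) ∣ (x.1 : ℤ) * n' + x.2 + s'
    · have h3 : ∀ p ∈ pz z, ¬ QQ n n' s s' p x.1 x.2 := by
        rintro p hp ⟨-, h | h⟩
        · exact h1 p hp h
        · exact h2 p hp h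
      rw [if_pos h1, if_pos h2, if_pos h3]
      push_cast
      ring
    · have h3 : ¬ ∀ p ∈ pz z, ¬ QQ n n' s s' p x.1 x.2 := by
        intro h3
        exact h2 fun p hp h => h3 p hp ⟨(mem_pz.1 hp).2, Or.inr h⟩
      rw [if_neg h2, if_neg h3]
      push_cast
      ring
  · have h3 : ¬ ∀ p ∈ pz z, ¬ QQ n n' s s' p x.1 x.2 := by
      intro h3
      exact h1 fun p hp h => h3 p hp ⟨(mem_pz.1 hp).2, Or.inl h⟩
    rw [if_neg h1, if_neg h3]
    push_cast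
    ring

theorem main : S_C23 → S_PT3 := by
  intro hC e E U he
  obtain ⟨H1, h1⟩ := hC 2 e E (U + 2) he
  obtain ⟨H2, h2⟩ := Vz_inv_small E
  refine ⟨max H1 (max H2 3), fun H hH Q R hR z hz hzE n n' hn s s' hs => ?_⟩
  have hH1 : H1 ≤ H := (le_max_left _ _).trans hH
  have hH2 : H2 ≤ H := ((le_max_left _ _).trans (le_max_right _ _)).trans hH
  have hH3 : 3 ≤ H := ((le_max_right _ _).trans (le_max_right _ _)).trans hH
  have hL : 0 < Real.log H := Real.log_pos (by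
    have : (3 : ℝ) ≤ H := by exact_mod_cast hH3
    linarith)
  have hV := h2 H hH2 z hz hzE
  have hVp := Vz_pos' z
  have hmain := h1 H hH1 Q R hR z hz hzE (QQ n n' s s') (fun p b b' => QQ_per n n' s s' p b b') (by
    intro p hp
    by_cases hd : p ∣ n - n'
    · rw [nu2_dvd hn hs hp hd]; omega
    · have := nu2_ndvd (s := s) (s' := s') hn hp hd
      omega)
  rw [prod_eq hn hs z] at hmain
  rw [sum_eq z Q R n n' s s']
  obtain ⟨c, hc⟩ : ∃ c : ℝ, c = ((open Classical in ((Icc 1 Q ×ˢ Icc 1 R).filter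
        (fun x : ℕ × ℕ => ∀ p ∈ pz z, ¬ QQ n n' s s' p x.1 x.2)).card : ℕ) : ℝ) := ⟨_, rfl⟩
  rw [← hc] at hmain ⊢
  have e1 : (Vz z)⁻¹ ^ 2 * c - (Q : ℝ) * R * kap z (n - n') =
      (Vz z)⁻¹ ^ 2 * (c - (Q : ℝ) * R * (Vz z ^ 2 * kap z (n - n'))) := by
    have : (Vz z)⁻¹ ^ 2 * Vz z ^ 2 = 1 := by
      rw [← mul_pow, inv_mul_cancel₀ hVp.ne', one_pow]
    linear_combination ((Q : ℝ) * R * kap z (n - n')) * this
  have hVi : 0 ≤ (Vz z)⁻¹ := (inv_pos.2 hVp).le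
  rw [e1, abs_mul, abs_of_nonneg (by positivity)]
  calc (Vz z)⁻¹ ^ 2 * |c - (Q : ℝ) * R * (Vz z ^ 2 * kap z (n - n'))|
      ≤ Real.log H ^ 2 * ((Q : ℝ) * R / Real.log H ^ (U + 2)) :=
        mul_le_mul (pow_le_pow_left₀ hVi hV 2) hmain (abs_nonneg _) (by positivity)
    _ = (Q : ℝ) * R / Real.log H ^ U := by
        rw [pow_add]
        field_simp

end Pool.Agent.helper24_UT.Pt3
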