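import Pool.Agent.helper24_UT.Stm9

set_option autoImplicit false

namespace Pool.Agent.helper24_UT.R1

open Finset Polynomial
open Pool.Agent.helper24_UT
open Pool.Agent.H376R2.MR (ch er DP FK)
open Pool.Agent.H373R2.T7 (lamI lamzI lamz Vz pz lamP mem_pz Vz_pos Vz_inv_small)

theorem slope_nonneg (g : ℤ[X]) (y : ℕ) : 0 ≤ slope g y := by
  unfold slope
  exact sum_nonneg fun i _ => by positivity

theorem slope_mono (g : ℤ[X]) {n T : ℕ} (h : n ≤ T) : slope g n ≤ slope g T := by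
  unfold slope
  refine sum_le_sum fun i _ => ?_
  refine mul_le_mul_of_nonneg_left ?_ (abs_nonneg _)
  exact pow_le_pow_left₀ (Nat.cast_nonneg _) (by exact_mod_cast h) _

theorem eval_le (g : ℤ[X]) (h0 : g.coeff 0 = 0) (n : ℕ) :
    |((g.eval (n : ℤ) : ℤ) : ℝ)| ≤ n * slope g n := by
  rw [eval_eq_sum_range, sum_range_succ', h0, zero_mul, add_zero]
  push_cast
  refine (abs_sum_le_sum_abs _ _).trans ?_
  unfold slope
  rw [mul_sum]
  refine sum_le_sum fun i _ => ?_
  rw [abs_mul, abs_of_nonneg (show (0 : ℝ) ≤ (n : ℝ) ^ (i + 1) by positivity), pow_succ]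
  apply le_of_eq
  ring

theorem deg_pl {k : ℕ} (G : Fin k → ℤ[X]) (r : ℕ) (v : Fin k → ℕ × ℕ) (i : Fin k) (h : (G i).natDegree ≤ r) :
    (pl G v i).natDegree ≤ max r 1 := by
  unfold pl
  refine (natDegree_add_le _ _).trans ?_
  refine max_le ?_ ?_
  · refine (natDegree_add_le _ _).trans ?_
    refine max_le (h.trans (le_max_left _ _)) ?_
    exact ((natDegree_C_mul_le _ _).trans natDegree_X_le).trans (le_max_right _ _)
  · rw [natDegree_C]
    exact Nat.zero_le _

theorem om_le {k : ℕ} (F : Fin k → ℤ[X]) (p : ℕ) : om F p ≤ p := by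
  unfold om
  refine (card_filter_le _ _).trans ?_
  rw [card_range]

theorem sg_nonneg {k : ℕ} (z : ℕ) (F : Fin k → ℤ[X]) : 0 ≤ sg z F := by
  unfold sg
  refine prod_nonneg fun p hp => ?_
  have hp2 : (2 : ℝ) ≤ p := by exact_mod_cast (mem_pz.1 hp).2.two_le
  have h1 : (om F p : ℝ) ≤ p := by exact_mod_cast om_le F p
  have h2 : (om F p : ℝ) / p ≤ 1 := (div_le_one (by linarith)).2 h1
  have h3 : 1 / (p : ℝ) ≤ 1 := (div_le_one (by linarith)).2 (by linarith)
  have h4 : (0 : ℝ) ≤ 1 - 1 / (p : ℝ) := by linarith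
  exact div_nonneg (by linarith) (pow_nonneg h4 _)

theorem sg_le {k : ℕ} (z : ℕ) (F : Fin k → ℤ[X]) : sg z F ≤ ((Vz z)⁻¹) ^ k := by
  unfold sg Vz
  rw [← prod_inv_distrib, ← prod_pow]
  refine prod_le_prod (fun p hp => ?_) (fun p hp => ?_)
  · have hp2 : (2 : ℝ) ≤ p := by exact_mod_cast (mem_pz.1 hp).2.two_le
    have h1 : (om F p : ℝ) ≤ p := by exact_mod_cast om_le F p
    have h2 : (om F p : ℝ) / p ≤ 1 := (div_le_one (by linarith)).2 h1
    have h3 : 1 / (p : ℝ) ≤ 1 := (div_le_one (by linarith)).2 (by linarith)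
    have h4 : (0 : ℝ) ≤ 1 - 1 / (p : ℝ) := by linarith
    exact div_nonneg (by linarith) (pow_nonneg h4 _)
  · have hp2 : (2 : ℝ) ≤ p := by exact_mod_cast (mem_pz.1 hp).2.two_le
    have h3 : 1 / (p : ℝ) ≤ 1 := (div_le_one (by linarith)).2 (by linarith)
    have h4 : (0 : ℝ) ≤ 1 - 1 / (p : ℝ) := by linarith
    have h5 : (0 : ℝ) ≤ (om F p : ℝ) / p := by positivity
    rw [inv_pow, ← one_div]
    exact div_le_div_of_nonneg_right (by linarith) (pow_nonneg h4 _)

theorem main : S_PSI3 → S_LOW → S_IN3 → S_R1 := by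
  classical
  intro hPSI hLOW hIN k r e A hk he
  obtain ⟨A', hA', hIN'⟩ := hIN k e (A + k + 4) he
  obtain ⟨E₀, B₁, hPSI'⟩ := hPSI k r e A' he
  obtain ⟨B, n1, hB, hIN2⟩ := hIN' B₁
  refine ⟨E₀, B, fun E hE => ?_⟩
  obtain ⟨n2, hPSI2⟩ := hPSI' E hE
  obtain ⟨n3, hLOW2⟩ := hLOW k (max r 1) E
  obtain ⟨n4, hV⟩ := Vz_inv_small E
  have hlim : Filter.Tendsto (fun N : ℕ => Real.log (N : ℝ)) Filter.atTop Filter.atTop :=
    Real.tendsto_log_atTop.comp (tendsto_natCast_atTop_atTop (R := ℝ))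
  obtain ⟨n5, hn5⟩ := Filter.eventually_atTop.1 (hlim.eventually_ge_atTop ((3 : ℝ) ^ k))
  refine ⟨n1 + n2 + n3 + n4 + n5 + 3, fun H hH Q R hQR G hG => ?_⟩
  have hL3 : (3 : ℝ) ^ k ≤ Real.log H := hn5 H (by omega)
  have hL1 : (1 : ℝ) ≤ Real.log H := (one_le_pow₀ (by norm_num)).trans hL3
  have hL0 : (0 : ℝ) < Real.log H := by linarith
  have hH3 : (3 : ℝ) ≤ H := by exact_mod_cast (by omega : 3 ≤ H)
  have hHe : (1 : ℝ) ≤ (H : ℝ) ^ (1 / e : ℝ) := Real.one_le_rpow (by linarith) (by positivity)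
  have hQ1 : ∀ i, (1 : ℝ) ≤ Q i := fun i => by
    obtain ⟨h1, h2, h3⟩ := hQR i
    have h4 : (R i : ℝ) ≤ Q i := by exact_mod_cast h2
    linarith
  have hQH : ∀ i, (Q i : ℝ) ≤ H := fun i => by exact_mod_cast (hQR i).2.2
  have hRQ : ∀ i, (R i : ℝ) ≤ Q i := fun i => by exact_mod_cast (hQR i).2.1
  have hR1 : ∀ i, (1 : ℝ) ≤ R i := fun i => hHe.trans (hQR i).1
  have hvq : 0 ≤ vq Q R := by
    unfold vq
    exact prod_nonneg fun i _ => by positivity
  -- the admissible lengths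
  set P : ℕ → Prop := fun y => ∀ i, (Q i : ℝ) * y * Real.log H ^ B ≤ (R i : ℝ) ^ 2 ∧
    slope (G i) y * Real.log H ^ B ≤ Q i with hP
  have hPH : ∀ y, P y → y ≤ H := by
    intro y hy
    obtain ⟨h1, -⟩ := hy ⟨0, by omega⟩
    set i : Fin k := ⟨0, by omega⟩
    have h2 : (Q i : ℝ) * y ≤ (Q i : ℝ) * y * Real.log H ^ B :=
      le_mul_of_one_le_right (by positivity) (one_le_pow₀ hL1)
    have h3 : (R i : ℝ) ^ 2 ≤ (Q i : ℝ) * Q i := by
      have := hRQ i
      have := hR1 i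
      nlinarith
    have h4 : (Q i : ℝ) * y ≤ Q i * Q i := by linarith
    have h5 : (y : ℝ) ≤ Q i := le_of_mul_le_mul_left h4 (by linarith [hQ1 i])
    exact_mod_cast h5.trans (hQH i)
  by_cases hex : ∃ y, P y
  swap
  · have h0 : (Bq Q R).filter (fun v => NoFix (pl G v) ∧ ¬ GoodS A B E H Q R G (pl G v)) = ∅ := by
      rw [filter_eq_empty_iff]
      rintro v - ⟨-, h2⟩
      apply h2
      intro y _ hy
      exact absurd ⟨y, hy⟩ hex
    have : (((Bq Q R).filter (fun v => NoFix (pl G v) ∧ ¬ GoodS A B E H Q R G (pl G v))).card : ℝ) = 0 := by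
      exact_mod_cast congrArg card h0
    rw [this]
    positivity
  obtain ⟨y₀, hy₀⟩ := hex
  obtain ⟨T, hT, hTmax⟩ : ∃ T, P T ∧ ∀ y, P y → y ≤ T :=
    ⟨Nat.findGreatest P H, Nat.findGreatest_spec (hPH y₀ hy₀) hy₀,
      fun y hy => Nat.le_findGreatest (hPH y hy) hy⟩
  have hBB : Real.log H ^ B₁ ≤ Real.log H ^ B := pow_le_pow_right₀ hL1 hB
  have hev : ∀ i, ∀ n ∈ Icc 1 T, |(((G i).eval (n : ℤ) : ℤ) : ℝ)| * Real.log H ^ B ≤ Q i * n := by
    intro i n hn
    rw [mem_Icc] at hn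
    have h1 := eval_le (G i) (hG i).2 n
    have h2 := slope_mono (G i) hn.2
    have h3 := (hT i).2
    have h4 : 0 ≤ Real.log H ^ B := by positivity
    calc |(((G i).eval (n : ℤ) : ℤ) : ℝ)| * Real.log H ^ B ≤ (n * slope (G i) T) * Real.log H ^ B :=
          mul_le_mul_of_nonneg_right (h1.trans (mul_le_mul_of_nonneg_left h2 (Nat.cast_nonneg _))) h4
      _ = n * (slope (G i) T * Real.log H ^ B) := by ring
      _ ≤ n * Q i := mul_le_mul_of_nonneg_left h3 (Nat.cast_nonneg _)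
      _ = _ := mul_comm _ _
  obtain ⟨Bad, hBad, hcard, hgood⟩ := hPSI2 H (by omega) T Q R
    (fun i => ⟨hQR i, (mul_le_mul_of_nonneg_left hBB (by positivity)).trans (hT i).1⟩) G (fun i => (hG i).1)
    (fun i n hn => (mul_le_mul_of_nonneg_left hBB (abs_nonneg _)).trans (hev i n hn))
  have hsub : (Bq Q R).filter (fun v => NoFix (pl G v) ∧ ¬ GoodS A B E H Q R G (pl G v)) ⊆ Bad := by
    intro v hv
    rw [mem_filter] at hv
    obtain ⟨hvB, hNF, hng⟩ := hv
    by_contra hnb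
    apply hng
    obtain ⟨hb, hsum⟩ := hgood v hvB hnb
    intro y hLy hy
    have hyT : y ≤ T := hTmax y hy
    have hyH : y ≤ H := hPH y hy
    have hvi : ∀ i, (1 ≤ (v i).1 ∧ (v i).1 ≤ Q i) ∧ (1 ≤ (v i).2 ∧ (v i).2 ≤ R i) := by
      intro i
      have := Fintype.mem_piFinset.1 hvB i
      rw [mem_product, mem_Icc, mem_Icc] at this
      exact this
    set z : ℕ := ⌊Real.log H ^ E⌋₊ with hz
    have hLE : (1 : ℝ) ≤ Real.log H ^ E := one_le_pow₀ hL1
    have hz1 : 1 ≤ z := Nat.le_floor (by exact_mod_cast hLE)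
    have hzE : (z : ℝ) ≤ Real.log H ^ E := Nat.floor_le (by positivity)
    set S : ℝ := sg z (pl G v) with hS
    have hS0 : 0 ≤ S := sg_nonneg _ _
    have hSle : S ≤ Real.log H ^ (k + 1) := by
      refine (sg_le _ _).trans ?_
      refine (pow_le_pow_left₀ (inv_pos.2 (Vz_pos z)).le (hV H (by omega) z hz1 hzE) k).trans ?_
      exact pow_le_pow_right₀ hL1 (by omega)
    have hSlow : 1 / Real.log H ≤ S := hLOW2 H (by omega) z hzE (pl G v) (fun i => deg_pl G r v i (hG i).1) hNF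
    have hval : ∀ i, ∀ n : ℕ, (((pl G v i).eval (n : ℤ) - (((v i).1 : ℤ) * n + ((v i).2 : ℤ)) : ℤ) : ℝ) =
        (((G i).eval (n : ℤ) : ℤ) : ℝ) := by
      intro i n
      congr 1
      unfold pl
      simp only [eval_add, eval_mul, eval_C, eval_X]
      ring
    obtain ⟨hF3, hcnt⟩ := hIN2 H (by omega) y hLy hyH Q (fun i => (v i).1) (fun i => (v i).2)
      (fun i n => (pl G v i).eval (n : ℤ)) S
      (fun i => ⟨(hQR i).1.trans (hRQ i), (hvi i).1.2.trans (hQR i).2.2, (hvi i).2.1,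
        (hvi i).2.2.trans ((hQR i).2.1.trans (hQR i).2.2), hb i⟩)
      (by
        intro i n hn
        rw [hval i n]
        rw [mem_Icc] at hn
        exact hev i n (mem_Icc.2 ⟨hn.1, hn.2.trans hyT⟩))
      hS0 hSle (fun t ht hty => hsum t ht (hty.trans hyT))
    refine ⟨hF3, ?_⟩
    have hlow : (y : ℝ) * (1 / (3 * Real.log H)) ^ k ≤ lsum (pl G v) y := by
      unfold lsum
      have h1 : ∑ n ∈ Icc 1 y, (1 / (3 * Real.log H)) ^ k = (y : ℝ) * (1 / (3 * Real.log H)) ^ k := by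
        rw [sum_const, Nat.card_Icc, nsmul_eq_mul]
        simp
      rw [← h1]
      refine sum_le_sum fun n hn => ?_
      have h2 : (1 / (3 * Real.log H)) ^ k = ∏ _i : Fin k, (1 / (3 * Real.log H)) := by
        rw [prod_const, card_univ, Fintype.card_fin]
      rw [h2]
      refine prod_le_prod (fun i _ => by positivity) (fun i _ => ?_)
      have h3 : (3 : ℝ) ≤ (((pl G v i).eval (n : ℤ) : ℤ) : ℝ) := by exact_mod_cast hF3 i n hn
      have h4 : (((pl G v i).eval (n : ℤ) : ℤ) : ℝ) ≤ (H : ℝ) ^ 3 := by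
        have hn' := mem_Icc.1 hn
        have hnH : (n : ℝ) ≤ H := by exact_mod_cast hn'.2.trans hyH
        have hn0 : (0 : ℝ) ≤ n := Nat.cast_nonneg n
        have h5 := hval i n
        have h6 := hev i n (mem_Icc.2 ⟨hn'.1, hn'.2.trans hyT⟩)
        have h7 : |(((G i).eval (n : ℤ) : ℤ) : ℝ)| ≤ |(((G i).eval (n : ℤ) : ℤ) : ℝ)| * Real.log H ^ B :=
          le_mul_of_one_le_right (abs_nonneg _) (one_le_pow₀ hL1)
        have h8 := le_abs_self (((G i).eval (n : ℤ) : ℤ) : ℝ)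
        have h9 : (Q i : ℝ) * n ≤ H * H := mul_le_mul (hQH i) hnH hn0 (by linarith)
        have h10 : ((v i).1 : ℝ) ≤ H := by exact_mod_cast (hvi i).1.2.trans (hQR i).2.2
        have h11 : ((v i).2 : ℝ) ≤ H := by exact_mod_cast (hvi i).2.2.trans ((hQR i).2.1.trans (hQR i).2.2)
        have h12 : ((v i).1 : ℝ) * n ≤ H * H := mul_le_mul h10 hnH hn0 (by linarith)
        push_cast at h5
        have h13 : (((pl G v i).eval (n : ℤ) : ℤ) : ℝ) ≤ H * H + H * H + H := by linarith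
        nlinarith [mul_nonneg (show (0 : ℝ) ≤ H - 3 by linarith) (show (0 : ℝ) ≤ (H : ℝ) * H by positivity)]
      have h5 : Real.log (((pl G v i).eval (n : ℤ) : ℤ) : ℝ) ≤ 3 * Real.log H := by
        have := Real.log_le_log (by linarith) h4
        rw [Real.log_pow] at this
        exact_mod_cast this
      have h6 : 0 < Real.log (((pl G v i).eval (n : ℤ) : ℤ) : ℝ) := Real.log_pos (by linarith)
      exact one_div_le_one_div_of_le h6 h5
    have hmain : (y : ℝ) / Real.log H ^ (A + k + 4) ≤ S * lsum (pl G v) y / Real.log H ^ A := by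
      have h1 : 1 / Real.log H * ((y : ℝ) * (1 / (3 * Real.log H)) ^ k) ≤ S * lsum (pl G v) y :=
        mul_le_mul hSlow hlow (by positivity) hS0
      have h2 : (y : ℝ) / Real.log H ^ (A + k + 4) ≤
          (1 / Real.log H * ((y : ℝ) * (1 / (3 * Real.log H)) ^ k)) / Real.log H ^ A := by
        have h3 : (1 / Real.log H * ((y : ℝ) * (1 / (3 * Real.log H)) ^ k)) / Real.log H ^ A =
            y / (Real.log H ^ (A + k + 1) * 3 ^ k) := by
          rw [one_div_pow, mul_pow]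
          field_simp
          ring
        rw [h3]
        apply div_le_div_of_nonneg_left (Nat.cast_nonneg _) (by positivity)
        have h4 : Real.log H ^ (A + k + 4) = Real.log H ^ (A + k + 1) * Real.log H ^ 3 := by
          rw [← pow_add]
        rw [h4]
        apply mul_le_mul_of_nonneg_left _ (by positivity)
        calc (3 : ℝ) ^ k ≤ Real.log H := hL3
          _ = Real.log H ^ 1 := (pow_one _).symm
          _ ≤ Real.log H ^ 3 := pow_le_pow_right₀ hL1 (by norm_num)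
      exact h2.trans (div_le_div_of_nonneg_right h1 (by positivity))
    exact hcnt.trans hmain
  calc (((Bq Q R).filter (fun v => NoFix (pl G v) ∧ ¬ GoodS A B E H Q R G (pl G v))).card : ℝ)
      ≤ (Bad.card : ℝ) := by exact_mod_cast card_le_card hsub
    _ ≤ vq Q R / Real.log H ^ A' := hcard
    _ ≤ vq Q R / Real.log H ^ A := by
      apply div_le_div_of_nonneg_left hvq (by positivity)
      exact pow_le_pow_right₀ hL1 (by omega)

end Pool.Agent.helper24_UT.R1
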