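import Pool.Agent.helper24_UT.Ch1
import Pool.Agent.helper24_UT.C23
import Pool.Agent.helper24_UT.Pt3
import Pool.Agent.helper24_UT.Kap
import Pool.Agent.helper24_UT.Mtl
import Pool.Agent.helper24_UT.Mt23
import Pool.Agent.helper24_UT.Mt3
import Pool.Agent.helper24_UT.Pp3
import Pool.Agent.helper24_UT.Psi3
import Pool.Agent.helper24_UT.Low
import Pool.Agent.helper24_UT.In3
import Pool.Agent.helper24_UT.R1

/-!
# Project UT (helper24): assembly, part 2
-/

set_option autoImplicit false

namespace Pool.Agent.helper24_UT.Ch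

theorem t_PT3 : S_PT3 := Pt3.main C23.main
theorem t_MT23 : S_MT23 := Mt23.main t_PT3 Kap.main
theorem t_MT3 : S_MT3 := Mt3.main Mtl.main t_MT23
theorem t_PSI3 : S_PSI3 := Psi3.main t_ALL3 t_MT3 Pp3.main
theorem t_R1 : S_R1 := R1.main t_PSI3 Low.main In3.main

end Pool.Agent.helper24_UT.Ch
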