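import Pool.Agent.helper24_UT.Stm13

set_option autoImplicit false

namespace Pool.Agent.helper24_UT.In4

open Finset Polynomial
open Pool.Agent.helper24_UT
open Pool.Agent.H373R2.T7 (lamI lamzI lamz Vz pz lamP)
open Pool.Agent.H807R2.Dav (ee)

/-- Abel summation with an antitone weight -/
theorem abel (a ρ : ℕ → ℝ) (M : ℝ) (y : ℕ)
    (hρ : ∀ n, 1 ≤ n → n + 1 ≤ y → ρ (n + 1) ≤ ρ n) (hρ0 : ∀ n, 1 ≤ n → n ≤ y → 0 ≤ ρ n)
    (hs : ∀ t, 1 ≤ t → t ≤ y → |∑ n ∈ Icc 1 t, a n| ≤ M) (hy : 1 ≤ y) :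
    |∑ n ∈ Icc 1 y, a n * ρ n| ≤ M * ρ 1 := by
  have key : ∀ t, 1 ≤ t → t ≤ y →
      |∑ n ∈ Icc 1 t, a n * ρ n - (∑ n ∈ Icc 1 t, a n) * ρ t| ≤ M * (ρ 1 - ρ t) := by
    intro t ht
    induction t, ht using Nat.le_induction with
    | base => intro _; simp
    | succ t ht ih =>
      intro hty
      have h1 := ih (by omega)
      have h2 := hs t ht (by omega)
      have h3 := hρ t ht hty
      rw [Finset.sum_Icc_succ_top (by omega), Finset.sum_Icc_succ_top (by omega)]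
      have e : (∑ n ∈ Icc 1 t, a n * ρ n + a (t + 1) * ρ (t + 1)
          - (∑ n ∈ Icc 1 t, a n + a (t + 1)) * ρ (t + 1))
          = (∑ n ∈ Icc 1 t, a n * ρ n - (∑ n ∈ Icc 1 t, a n) * ρ t)
            + (∑ n ∈ Icc 1 t, a n) * (ρ t - ρ (t + 1)) := by ring
      rw [e]
      calc _ ≤ _ := abs_add_le _ _
        _ ≤ M * (ρ 1 - ρ t) + M * (ρ t - ρ (t + 1)) := by
            refine add_le_add h1 ?_
            rw [abs_mul, abs_of_nonneg (by linarith : 0 ≤ ρ t - ρ (t + 1))]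
            exact mul_le_mul_of_nonneg_right h2 (by linarith)
        _ = _ := by ring
  have h1 := key y hy le_rfl
  have h2 := hs y hy le_rfl
  have h3 := hρ0 y hy le_rfl
  have e : ∑ n ∈ Icc 1 y, a n * ρ n = (∑ n ∈ Icc 1 y, a n * ρ n - (∑ n ∈ Icc 1 y, a n) * ρ y)
      + (∑ n ∈ Icc 1 y, a n) * ρ y := by ring
  rw [e]
  calc _ ≤ _ := abs_add_le _ _
    _ ≤ M * (ρ 1 - ρ y) + M * ρ y := by
        refine add_le_add h1 ?_
        rw [abs_mul, abs_of_nonneg h3]
        exact mul_le_mul_of_nonneg_right h2 h3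
    _ = _ := by ring

theorem lamP_mul (m : ℤ) (hm : 3 ≤ m) :
    lamP m * (1 / Real.log (m : ℝ)) = if m.natAbs.Prime then 1 else 0 := by
  unfold lamP
  have h1 : m.toNat = m.natAbs := by omega
  have h2 : ((m.toNat : ℕ) : ℝ) = (m : ℝ) := by
    have : ((m.toNat : ℕ) : ℤ) = m := Int.toNat_of_nonneg (by omega)
    exact_mod_cast congrArg (fun z : ℤ => (z : ℝ)) this
  have h3 : 0 < Real.log (m : ℝ) := Real.log_pos (by
    have : (3 : ℝ) ≤ m := by exact_mod_cast hm
    linarith)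
  rw [h2, h1]
  split_ifs
  · field_simp
  · simp

theorem lamP_bound (m : ℤ) (hm : 3 ≤ m) : 0 ≤ lamP m ∧ lamP m ≤ Real.log (m : ℝ) := by
  refine ⟨Pool.Agent.H373R2.T7.lamP_nonneg m, ?_⟩
  unfold lamP
  have h2 : ((m.toNat : ℕ) : ℝ) = (m : ℝ) := by
    have : ((m.toNat : ℕ) : ℤ) = m := Int.toNat_of_nonneg (by omega)
    exact_mod_cast congrArg (fun z : ℤ => (z : ℝ)) this
  have h3 : 0 < Real.log (m : ℝ) := Real.log_pos (by
    have : (3 : ℝ) ≤ m := by exact_mod_cast hm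
    linarith)
  rw [h2]
  split_ifs
  · exact le_rfl
  · exact h3.le

theorem main : S_IN4 := by
  classical
  intro k e A he
  refine ⟨A + 1, by omega, fun B₀ => ?_⟩
  have heR : (1 : ℝ) ≤ e := by exact_mod_cast he
  -- the size of `H`
  have hlog : Filter.Tendsto (fun H : ℕ => Real.log (H : ℝ)) Filter.atTop Filter.atTop :=
    Real.tendsto_log_atTop.comp tendsto_natCast_atTop_atTop
  have ev : ∀ᶠ L : ℝ in Filter.atTop, 10 * (e : ℝ) + 4 * (k : ℝ) ≤ L ∧ L ^ (A + 2) ≤ Real.exp (L / (2 * e)) := by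
    refine (Filter.eventually_ge_atTop _).and ?_
    have h1 : Filter.Tendsto (fun x : ℝ => Real.exp x / x ^ (A + 3)) Filter.atTop Filter.atTop :=
      Real.tendsto_exp_div_pow_atTop (A + 3)
    have h2 : Filter.Tendsto (fun L : ℝ => L / (2 * e)) Filter.atTop Filter.atTop :=
      Filter.tendsto_id.atTop_div_const (by positivity)
    filter_upwards [(h1.comp h2).eventually (Filter.eventually_ge_atTop ((2 * e : ℝ) ^ (A + 2))),
      Filter.eventually_ge_atTop (2 * e : ℝ)] with L h3 h4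
    simp only [Function.comp] at h3
    have h8 : 1 ≤ L / (2 * e) := by
      rw [le_div_iff₀ (by positivity)]; linarith
    have h5 : 0 < (L / (2 * e)) ^ (A + 3) := by positivity
    rw [le_div_iff₀ h5] at h3
    refine le_trans ?_ h3
    have h6 : (L / (2 * e)) ^ (A + 2) ≤ (L / (2 * e)) ^ (A + 3) := pow_le_pow_right₀ h8 (by omega)
    calc L ^ (A + 2) = (2 * e) ^ (A + 2) * (L / (2 * e)) ^ (A + 2) := by
          rw [← mul_pow]; congr 1; field_simp
      _ ≤ _ := by gcongr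
  obtain ⟨H₀, hH₀⟩ := Filter.eventually_atTop.1 (hlog.eventually ev)
  refine ⟨B₀ + 2 * A + 4 * k + 20, max H₀ 1, by omega, ?_⟩
  intro H hH y hy hyH Q b c S hbc hS0 hS hsum
  have hH1 : 1 ≤ H := le_trans (le_max_right _ _) hH
  have hHR : (0 : ℝ) < H := by exact_mod_cast hH1
  obtain ⟨hL1, hL2⟩ := hH₀ H (le_trans (le_max_left _ _) hH)
  set L : ℝ := Real.log H with hLdef
  set B : ℕ := B₀ + 2 * A + 4 * k + 20 with hBdef
  have hk0 : (0 : ℝ) ≤ k := Nat.cast_nonneg k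
  have hL10 : 10 ≤ L := by linarith
  have hL0 : 0 < L := by linarith
  have hLone : 1 ≤ L := by linarith
  have hHexp : (H : ℝ) = Real.exp L := by rw [hLdef, Real.exp_log hHR]
  have hM5 : 5 ≤ L / (2 * e) := by
    rw [le_div_iff₀ (by positivity)]; linarith
  have hHe : (H : ℝ) ^ (1 / e : ℝ) = Real.exp (2 * (L / (2 * e))) := by
    rw [hHexp, ← Real.exp_mul]
    congr 1
    field_simp
  have hy1R : (1 : ℝ) ≤ y := le_trans (one_le_pow₀ hLone) hy
  have hy1 : 1 ≤ y := by exact_mod_cast hy1R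
  have hH11 : (11 : ℝ) ≤ H := by
    rw [hHexp]; have := Real.add_one_le_exp L; linarith
  -- pointwise facts
  have pt : ∀ i, ∀ n ∈ Icc 1 y, 3 ≤ b i * n + c i ∧
      1 ≤ Real.log ((b i * n + c i : ℕ) : ℝ) ∧
      Real.log ((b i * n + c i : ℕ) : ℝ) ≤ 4 * L := by
    intro i n hn
    have hn' := Finset.mem_Icc.1 hn
    obtain ⟨g1, g2, g3, g4, g5⟩ := hbc i
    have hQM : Real.exp (2 * (L / (2 * e))) ≤ (Q i : ℝ) := by
      rw [← hHe]; exact g1
    have hLA : 0 < L ^ (A + 2) := by positivity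
    have h1 : Real.exp (L / (2 * e)) ≤ (b i : ℝ) := by
      refine le_trans ?_ g5
      rw [le_div_iff₀ hLA]
      calc Real.exp (L / (2 * e)) * L ^ (A + 2) ≤ Real.exp (L / (2 * e)) * Real.exp (L / (2 * e)) := by
            gcongr
        _ = Real.exp (2 * (L / (2 * e))) := by rw [← Real.exp_add]; congr 1; ring
        _ ≤ Q i := hQM
    have h2 : (6 : ℝ) ≤ b i := by
      have := Real.add_one_le_exp (L / (2 * e)); linarith
    have hn1 : (1 : ℝ) ≤ n := by exact_mod_cast hn'.1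
    have hc1 : (1 : ℝ) ≤ c i := by exact_mod_cast g3
    have hl : Real.exp (L / (2 * e)) ≤ ((b i * n + c i : ℕ) : ℝ) := by
      push_cast
      have : (b i : ℝ) * 1 ≤ b i * n := by gcongr
      linarith
    have hl6 : (6 : ℝ) ≤ ((b i * n + c i : ℕ) : ℝ) := by
      have := Real.add_one_le_exp (L / (2 * e)); linarith
    have hlpos : (0 : ℝ) < ((b i * n + c i : ℕ) : ℝ) := by linarith
    refine ⟨?_, ?_, ?_⟩
    · have : (3 : ℝ) ≤ ((b i * n + c i : ℕ) : ℝ) := by linarith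
      exact_mod_cast this
    · have h3 : L / (2 * e) ≤ Real.log ((b i * n + c i : ℕ) : ℝ) := by
        rw [Real.le_log_iff_exp_le hlpos]; exact hl
      linarith
    · have hnH : (n : ℝ) ≤ (H : ℝ) ^ 2 := by exact_mod_cast le_trans hn'.2 hyH
      have hbH : (b i : ℝ) ≤ H := by exact_mod_cast g2
      have hcH : (c i : ℝ) ≤ H := by exact_mod_cast g4
      have hup : ((b i * n + c i : ℕ) : ℝ) ≤ (H : ℝ) ^ 4 := by
        push_cast
        have e1 : (b i : ℝ) * n ≤ H * (H : ℝ) ^ 2 := by gcongr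
        have e2 : (H : ℝ) ≤ H * (H : ℝ) ^ 2 := by nlinarith [sq_nonneg (H : ℝ)]
        have e3 : 2 * (H * (H : ℝ) ^ 2) ≤ (H : ℝ) ^ 4 := by
          have : (H : ℝ) ^ 4 = H * (H * (H : ℝ) ^ 2) := by ring
          rw [this]
          have : 0 < (H : ℝ) * (H : ℝ) ^ 2 := by positivity
          nlinarith
        linarith
      calc Real.log ((b i * n + c i : ℕ) : ℝ) ≤ Real.log ((H : ℝ) ^ 4) := Real.log_le_log hlpos hup
        _ = 4 * L := by rw [Real.log_pow, hLdef]; norm_num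
  -- the weights
  set ρ : ℕ → ℝ := fun n => ∏ i, 1 / Real.log ((b i * n + c i : ℕ) : ℝ) with hρdef
  have hcastZ : ∀ (i : Fin k) (n : ℕ), (((b i : ℤ) * (n : ℤ) + (c i : ℤ) : ℤ)) = ((b i * n + c i : ℕ) : ℤ) := by
    intro i n; push_cast; rfl
  have hcastR : ∀ (i : Fin k) (n : ℕ), ((((b i : ℤ) * (n : ℤ) + (c i : ℤ) : ℤ)) : ℝ) = ((b i * n + c i : ℕ) : ℝ) := by
    intro i n; push_cast; rfl
  have h3Z : ∀ i, ∀ n ∈ Icc 1 y, (3 : ℤ) ≤ (b i : ℤ) * n + c i := by
    intro i n hn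
    rw [hcastZ]
    exact_mod_cast (pt i n hn).1
  -- bounds for the products of lamP
  have hlam : ∀ n ∈ Icc 1 y, 0 ≤ ∏ i, lamP ((b i : ℤ) * n + c i) ∧
      ∏ i, lamP ((b i : ℤ) * n + c i) ≤ (4 * L) ^ k := by
    intro n hn
    refine ⟨Finset.prod_nonneg fun i _ => (lamP_bound _ (h3Z i n hn)).1, ?_⟩
    calc ∏ i, lamP ((b i : ℤ) * n + c i) ≤ ∏ i : Fin k, (4 * L) := by
          apply Finset.prod_le_prod
          · intro i _; exact (lamP_bound _ (h3Z i n hn)).1
          · intro i _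
            refine (lamP_bound _ (h3Z i n hn)).2.trans ?_
            rw [hcastR]
            exact (pt i n hn).2.2
      _ = _ := by simp
  -- count
  have hcount : (((Icc 1 y).filter (fun n => ∀ i, (b i * n + c i).Prime)).card : ℝ)
      = ∑ n ∈ Icc 1 y, (∏ i, lamP ((b i : ℤ) * n + c i)) * ρ n := by
    rw [Finset.card_filter]
    push_cast
    apply Finset.sum_congr rfl
    intro n hn
    rw [hρdef]
    simp only
    rw [← Finset.prod_mul_distrib]
    have : ∀ i ∈ (Finset.univ : Finset (Fin k)),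
        lamP ((b i : ℤ) * n + c i) * (1 / Real.log ((b i * n + c i : ℕ) : ℝ))
        = if (b i * n + c i).Prime then 1 else 0 := by
      intro i _
      have h := lamP_mul _ (h3Z i n hn)
      rw [hcastR] at h
      rw [h, hcastZ]
      simp only [Int.natAbs_natCast]
    rw [Finset.prod_congr rfl this, Finset.prod_boole]
    simp
  -- Q bounds
  have hQ : (4 * L) ^ k + L ^ (k + 1) ≤ L ^ (2 * k + 2) := by
    have h1 : (4 * L) ^ k ≤ L ^ (2 * k + 1) := by
      calc (4 * L) ^ k ≤ (L * L) ^ k := by gcongr; linarith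
        _ = L ^ (2 * k) := by rw [← pow_two, ← pow_mul]
        _ ≤ L ^ (2 * k + 1) := pow_le_pow_right₀ hLone (by omega)
    have h2 : L ^ (k + 1) ≤ L ^ (2 * k + 1) := pow_le_pow_right₀ hLone (by omega)
    have h3 : L ^ (2 * k + 2) = L * L ^ (2 * k + 1) := by ring
    have h4 : 0 < L ^ (2 * k + 1) := by positivity
    rw [h3]
    nlinarith
  -- Abel summation
  have hM : ∀ t, 1 ≤ t → t ≤ y → |∑ n ∈ Icc 1 t, (∏ i, lamP ((b i : ℤ) * n + c i) - S)| ≤
      2 * (y / L ^ (A + 1)) := by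
    intro t ht1 hty
    have htR : (t : ℝ) ≤ y := by exact_mod_cast hty
    have hyA : 0 ≤ (y : ℝ) / L ^ (A + 1) := by positivity
    by_cases htB : L ^ B₀ ≤ t
    · have h1 := hsum t htB hty
      have e : ∑ n ∈ Icc 1 t, (∏ i, lamP ((b i : ℤ) * n + c i) - S) =
          ∑ n ∈ Icc 1 t, ∏ i, lamP ((b i : ℤ) * n + c i) - t * S := by
        rw [Finset.sum_sub_distrib]; simp
      rw [e]
      refine h1.trans ?_
      have : (t : ℝ) / L ^ (A + 1) ≤ y / L ^ (A + 1) := by gcongr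
      linarith
    · push Not at htB
      have h1 : |∑ n ∈ Icc 1 t, (∏ i, lamP ((b i : ℤ) * n + c i) - S)| ≤ t * L ^ (2 * k + 2) := by
        calc |∑ n ∈ Icc 1 t, (∏ i, lamP ((b i : ℤ) * n + c i) - S)|
            ≤ ∑ n ∈ Icc 1 t, |∏ i, lamP ((b i : ℤ) * n + c i) - S| := Finset.abs_sum_le_sum_abs _ _
          _ ≤ ∑ n ∈ Icc 1 t, L ^ (2 * k + 2) := by
              apply Finset.sum_le_sum
              intro n hn
              have hn' : n ∈ Icc 1 y := Finset.mem_Icc.2 ⟨(Finset.mem_Icc.1 hn).1,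
                (Finset.mem_Icc.1 hn).2.trans hty⟩
              obtain ⟨h1, h2⟩ := hlam n hn'
              have h3 : 0 ≤ (4 * L) ^ k := by positivity
              rw [abs_le]
              constructor <;> linarith
          _ = _ := by simp
      have h2 : (t : ℝ) * L ^ (2 * k + 2) ≤ L ^ B₀ * L ^ (2 * k + 2) := by gcongr
      have h3 : L ^ B₀ * L ^ (2 * k + 2) ≤ y / L ^ (A + 1) := by
        rw [le_div_iff₀ (by positivity), ← pow_add, ← pow_add]
        exact le_trans (pow_le_pow_right₀ hLone (by omega)) hy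
      linarith
  have hρanti : ∀ n, 1 ≤ n → n + 1 ≤ y → ρ (n + 1) ≤ ρ n := by
    intro n hn1 hn2
    apply Finset.prod_le_prod
    · intro i _
      have := (pt i (n + 1) (Finset.mem_Icc.2 ⟨by omega, hn2⟩)).2.1
      positivity
    · intro i _
      have h1 := (pt i n (Finset.mem_Icc.2 ⟨by omega, by omega⟩)).2.1
      have h2 : (0 : ℝ) < ((b i * n + c i : ℕ) : ℝ) := by
        have : 1 ≤ b i * n + c i := le_trans (hbc i).2.2.1 (Nat.le_add_left _ _)
        exact_mod_cast this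
      apply one_div_le_one_div_of_le (by linarith)
      apply Real.log_le_log h2
      have : b i * n + c i ≤ b i * (n + 1) + c i := by nlinarith
      exact_mod_cast this
  have hρ0 : ∀ n, 1 ≤ n → n ≤ y → 0 ≤ ρ n := by
    intro n hn1 hn2
    apply Finset.prod_nonneg
    intro i _
    have := (pt i n (Finset.mem_Icc.2 ⟨hn1, hn2⟩)).2.1
    positivity
  have hρ1 : ρ 1 ≤ 1 := by
    apply Finset.prod_le_one
    · intro i _
      have := (pt i 1 (Finset.mem_Icc.2 ⟨le_rfl, hy1⟩)).2.1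
      positivity
    · intro i _
      have := (pt i 1 (Finset.mem_Icc.2 ⟨le_rfl, hy1⟩)).2.1
      rw [div_le_one (by linarith)]; exact this
  have hyA : 0 ≤ (y : ℝ) / L ^ (A + 1) := by positivity
  have hAbel : |∑ n ∈ Icc 1 y, (∏ i, lamP ((b i : ℤ) * n + c i) - S) * ρ n| ≤ 2 * (y / L ^ (A + 1)) := by
    have h := abel (fun n => ∏ i, lamP ((b i : ℤ) * n + c i) - S) ρ (2 * (y / L ^ (A + 1))) y hρanti hρ0 hM hy1
    refine h.trans ?_
    have : 0 ≤ ρ 1 := hρ0 1 le_rfl hy1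
    nlinarith
  have e : (∑ n ∈ Icc 1 y, (∏ i, lamP ((b i : ℤ) * n + c i)) * ρ n) - S * ∑ n ∈ Icc 1 y, ρ n
      = ∑ n ∈ Icc 1 y, (∏ i, lamP ((b i : ℤ) * n + c i) - S) * ρ n := by
    rw [Finset.mul_sum, ← Finset.sum_sub_distrib]
    apply Finset.sum_congr rfl
    intro n _
    ring
  rw [hcount, e]
  refine hAbel.trans ?_
  have : (y : ℝ) / L ^ A = L * (y / L ^ (A + 1)) := by
    rw [pow_succ]; field_simp
  rw [this]
  apply mul_le_mul_of_nonneg_right _ hyA
  linarith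

end Pool.Agent.helper24_UT.In4
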