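import Pool.Agent.helper24_UT.Stm15
import Pool.Agent.helper24_UT.Inp

set_option autoImplicit false

namespace Pool.Agent.helper24_UT.Inp5

open Finset Polynomial
open Pool.Agent.helper24_UT
open Pool.Agent.helper24_UT.Inp (abel lamP_le_log)
open Pool.Agent.H373R2.T7 (lamI lamzI lamz Vz pz lamP lamP_nonneg)
open Pool.Agent.H807R2.Dav (ee)

theorem log_ge_half (m : ℕ) (hm : 2 ≤ m) : 1 / 2 ≤ Real.log (m : ℝ) := by
  have h5 := Real.log_two_gt_d9
  have h6 : Real.log 2 ≤ Real.log m := Real.log_le_log (by norm_num) (by exact_mod_cast hm)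
  linarith

theorem lamP_weight (m : ℕ) (hm : 2 ≤ m) :
    lamP (m : ℤ) * (1 / Real.log (m : ℝ)) = if m.Prime then 1 else 0 := by
  unfold lamP
  rw [Int.toNat_natCast]
  have h := log_ge_half m hm
  have h0 : Real.log (m : ℝ) ≠ 0 := by linarith
  split_ifs
  · field_simp
  · simp

theorem core (k A : ℕ) (H : ℕ) (hH4 : 4 ≤ H) (c1 : (8 : ℝ) ≤ Real.log H)
    (c2 : (3 : ℝ) * 5 ^ k + 2 ≤ Real.log H) (c3 : (3 : ℝ) * 2 ^ (k + 1) ≤ Real.log H)
    (y T₀ : ℕ) (hT1 : 1 ≤ T₀) (hTy : T₀ * (Real.log H) ^ (A + k + 6) ≤ y) (hyH : y ≤ H ^ 3)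
    (b c : Fin k → ℕ) (S : ℝ) (hbc : ∀ i, 1 ≤ b i ∧ b i ≤ H ∧ 1 ≤ c i ∧ c i ≤ H)
    (hS0 : 0 ≤ S) (hS : S ≤ (Real.log H) ^ (k + 2))
    (hsum : ∀ t : ℕ, T₀ ≤ t → t ≤ y →
      |∑ n ∈ Icc 1 t, lamP (n : ℤ) * ∏ i, lamP ((b i : ℤ) * n + c i) - t * S| ≤
        t / (Real.log H) ^ (A + 1)) :
    |(cntP (fun i => (c i : ℤ)) b y : ℝ) - S * exP (fun i => (c i : ℤ)) b y| ≤
      y / (Real.log H) ^ A := by
  classical
  set L : ℝ := Real.log H with hL
  have hL1 : 1 ≤ L := by linarith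
  have hL0 : 0 < L := by linarith
  have hH4' : (4 : ℝ) ≤ H := by exact_mod_cast hH4
  have hH0 : (0 : ℝ) < H := by linarith
  have pw : ∀ a c : ℕ, a ≤ c → L ^ a ≤ L ^ c := fun a c h => pow_le_pow_right₀ hL1 h
  have pw1 : ∀ a : ℕ, 1 ≤ L ^ a := fun a => one_le_pow₀ hL1
  have pw0 : ∀ a : ℕ, 0 < L ^ a := fun a => pow_pos hL0 a
  have hT1' : (1 : ℝ) ≤ T₀ := by exact_mod_cast hT1
  have hy8 : (8 : ℝ) ≤ y := by
    calc (8 : ℝ) ≤ L := c1
      _ = 1 * L ^ 1 := by ring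
      _ ≤ T₀ * L ^ (A + k + 6) := mul_le_mul hT1' (pw _ _ (by omega)) (by positivity) (by positivity)
      _ ≤ y := hTy
  have hy2 : 2 ≤ y := by
    have : (2 : ℝ) ≤ y := by linarith
    exact_mod_cast this
  -- the values
  obtain ⟨v, hv⟩ : ∃ v : Fin k → ℕ → ℕ, v = fun i n => b i * n + c i := ⟨_, rfl⟩
  have hvZ : ∀ (i : Fin k) (n : ℕ), (b i : ℤ) * (n : ℤ) + c i = ((v i n : ℕ) : ℤ) := by
    intro i n; rw [hv]; push_cast; rfl
  have hv3 : ∀ i n, 2 ≤ n → 2 ≤ v i n := by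
    intro i n hn
    rw [hv]
    have := Nat.mul_le_mul (hbc i).1 hn
    have := (hbc i).2.2.1
    simp only
    omega
  have hvmono : ∀ i n, v i n ≤ v i (n + 1) := by
    intro i n
    rw [hv]
    simp only
    have : b i * n ≤ b i * (n + 1) := Nat.mul_le_mul_left _ (by omega)
    omega
  have hvH : ∀ i, ∀ n ∈ Icc 1 y, ((v i n : ℕ) : ℝ) ≤ (H : ℝ) ^ 5 := by
    intro i n hn
    rw [mem_Icc] at hn
    have h1 : v i n ≤ H * H ^ 3 + H := by
      rw [hv]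
      exact Nat.add_le_add (Nat.mul_le_mul (hbc i).2.1 (hn.2.trans hyH)) (hbc i).2.2.2
    have h2 : ((v i n : ℕ) : ℝ) ≤ H * (H : ℝ) ^ 3 + H := by exact_mod_cast h1
    refine h2.trans ?_
    have h3 : (1 : ℝ) ≤ (H : ℝ) ^ 3 := one_le_pow₀ (by linarith)
    have h4 : (H : ℝ) ≤ H * (H : ℝ) ^ 3 := le_mul_of_one_le_right hH0.le h3
    have h5 : 0 ≤ H * (H : ℝ) ^ 3 := by positivity
    calc H * (H : ℝ) ^ 3 + H ≤ 4 * (H * (H : ℝ) ^ 3) := by linarith
      _ ≤ H * (H * (H : ℝ) ^ 3) := mul_le_mul_of_nonneg_right hH4' h5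
      _ = (H : ℝ) ^ 5 := by ring
  have hlamF : ∀ i, ∀ n ∈ Icc 1 y, lamP ((v i n : ℕ) : ℤ) ≤ 5 * L := by
    intro i n hn
    have h5 := lamP_le_log ((v i n : ℕ) : ℤ) ((H : ℝ) ^ 5) (one_le_pow₀ (by linarith))
      (by push_cast; exact hvH i n hn)
    rw [Real.log_pow] at h5
    exact_mod_cast h5
  have hlamn : ∀ n ∈ Icc 1 y, lamP (n : ℤ) ≤ 3 * L := by
    intro n hn
    rw [mem_Icc] at hn
    have q := lamP_le_log (n : ℤ) ((H : ℝ) ^ 3) (one_le_pow₀ (by linarith)) (by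
      push_cast
      exact_mod_cast hn.2.trans hyH)
    rw [Real.log_pow] at q
    exact_mod_cast q
  obtain ⟨W, hW⟩ : ∃ W : ℕ → ℝ, W = fun n : ℕ => lamP (n : ℤ) * ∏ i, lamP ((v i n : ℕ) : ℤ) :=
    ⟨_, rfl⟩
  have hW0 : ∀ n, 0 ≤ W n := by
    intro n; rw [hW]
    exact mul_nonneg (lamP_nonneg _) (prod_nonneg fun i _ => lamP_nonneg _)
  have hWle : ∀ n ∈ Icc 1 y, W n ≤ 3 * 5 ^ k * L ^ (k + 1) := by
    intro n hn
    rw [hW]
    calc lamP (n : ℤ) * ∏ i, lamP ((v i n : ℕ) : ℤ) ≤ 3 * L * (5 * L) ^ k := by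
          refine mul_le_mul (hlamn n hn) ?_ (prod_nonneg fun i _ => lamP_nonneg _) (by linarith)
          calc ∏ i, lamP ((v i n : ℕ) : ℤ) ≤ ∏ _i : Fin k, (5 * L) :=
                prod_le_prod (fun i _ => lamP_nonneg _) (fun i _ => hlamF i n hn)
            _ = (5 * L) ^ k := by simp
      _ = 3 * 5 ^ k * L ^ (k + 1) := by rw [mul_pow]; ring
  obtain ⟨ρ, hρ⟩ : ∃ ρ : ℕ → ℝ, ρ = fun n : ℕ =>
    1 / Real.log n * ∏ i, 1 / Real.log ((v i n : ℕ) : ℝ) := ⟨_, rfl⟩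
  have hl : ∀ n : ℕ, 2 ≤ n → 1 / 2 ≤ Real.log n := fun n hn => log_ge_half n hn
  have hlv : ∀ i, ∀ n : ℕ, 2 ≤ n → 1 / 2 ≤ Real.log ((v i n : ℕ) : ℝ) :=
    fun i n hn => log_ge_half _ (hv3 i n hn)
  have inv2 : ∀ x : ℝ, 1 / 2 ≤ x → 0 ≤ 1 / x ∧ 1 / x ≤ 2 := by
    intro x hx
    constructor
    · have : 0 < x := by linarith
      positivity
    · rw [div_le_iff₀ (by linarith)]; linarith
  have hρ0 : ∀ n : ℕ, 2 ≤ n → 0 ≤ ρ n := by
    intro n hn
    rw [hρ]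
    exact mul_nonneg (inv2 _ (hl n hn)).1 (prod_nonneg fun i _ => (inv2 _ (hlv i n hn)).1)
  have hρ2 : ρ 2 ≤ 2 ^ (k + 1) := by
    rw [hρ]
    have h6 : ∏ i, 1 / Real.log ((v i 2 : ℕ) : ℝ) ≤ 2 ^ k := by
      calc ∏ i, 1 / Real.log ((v i 2 : ℕ) : ℝ) ≤ ∏ _i : Fin k, (2 : ℝ) :=
            prod_le_prod (fun i _ => (inv2 _ (hlv i 2 le_rfl)).1)
              (fun i _ => (inv2 _ (hlv i 2 le_rfl)).2)
        _ = 2 ^ k := by simp
    have h7 : 0 ≤ ∏ i, 1 / Real.log ((v i 2 : ℕ) : ℝ) :=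
      prod_nonneg fun i _ => (inv2 _ (hlv i 2 le_rfl)).1
    calc _ ≤ 2 * 2 ^ k := mul_le_mul (inv2 _ (hl 2 le_rfl)).2 h6 h7 (by norm_num)
      _ = 2 ^ (k + 1) := by ring
  have hρa : ∀ n : ℕ, 2 ≤ n → ρ (n + 1) ≤ ρ n := by
    intro n hn
    rw [hρ]
    refine mul_le_mul ?_ (prod_le_prod (fun i _ => ?_) (fun i _ => ?_))
      (prod_nonneg fun i _ => ?_) ?_
    · refine one_div_le_one_div_of_le (by have := hl n hn; linarith) (Real.log_le_log ?_ ?_)
      · exact_mod_cast (by omega : 0 < n)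
      · push_cast; linarith
    · exact (inv2 _ (hlv i (n + 1) (by omega))).1
    · refine one_div_le_one_div_of_le (by have := hlv i n hn; linarith) (Real.log_le_log ?_ ?_)
      · have := hv3 i n hn
        exact_mod_cast (by omega : 0 < v i n)
      · exact_mod_cast hvmono i n
    · exact (inv2 _ (hlv i (n + 1) (by omega))).1
    · exact (inv2 _ (hl n hn)).1
  -- partial sums
  have hyA0 : 0 ≤ (y : ℝ) / L ^ (A + 1) := by have := pw0 (A + 1); positivity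
  have hT : ∀ t, 2 ≤ t → t ≤ y → |∑ n ∈ Icc 2 t, (W n - S)| ≤ 2 * ((y : ℝ) / L ^ (A + 1)) := by
    intro t ht hty
    have htY : (t : ℝ) ≤ y := by exact_mod_cast hty
    rcases le_or_gt T₀ t with hEt | hEt
    · have h5 := hsum t hEt hty
      have e1 : ∑ n ∈ Icc 2 t, (W n - S) =
          (∑ n ∈ Icc 1 t, lamP (n : ℤ) * ∏ i, lamP ((b i : ℤ) * n + c i) - t * S) + S := by
        have h6 : ∑ n ∈ Icc 1 t, lamP (n : ℤ) * ∏ i, lamP ((b i : ℤ) * n + c i) =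
            ∑ n ∈ Icc 1 t, W n := by
          rw [hW]
          refine sum_congr rfl fun n _ => ?_
          simp only [hvZ]
        have hW1 : W 1 = 0 := by
          rw [hW]
          have : lamP ((1 : ℕ) : ℤ) = 0 := by unfold lamP; simp [Nat.not_prime_one]
          simp only [this, zero_mul]
        have h7 : Icc 1 t = insert 1 (Icc 2 t) := by
          ext x; simp only [mem_Icc, mem_insert]; omega
        rw [h6, h7, sum_insert (by simp), hW1, sum_sub_distrib, sum_const, Nat.card_Icc,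
          nsmul_eq_mul]
        have h8 : ((t + 1 - 2 : ℕ) : ℝ) = t - 1 := by
          rw [show t + 1 - 2 = t - 1 by omega, Nat.cast_sub (by omega)]; simp
        rw [h8]; ring
      rw [e1]
      refine (abs_add_le _ _).trans ?_
      rw [abs_of_nonneg hS0]
      have h9 : (t : ℝ) / L ^ (A + 1) ≤ y / L ^ (A + 1) :=
        div_le_div_of_nonneg_right htY (pw0 _).le
      have h10 : S ≤ y / L ^ (A + 1) := by
        refine hS.trans ?_
        rw [le_div_iff₀ (pw0 _), ← pow_add]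
        refine le_trans ?_ hTy
        calc L ^ (k + 2 + (A + 1)) = 1 * L ^ (k + 2 + (A + 1)) := by ring
          _ ≤ T₀ * L ^ (A + k + 6) :=
            mul_le_mul hT1' (pw _ _ (by omega)) (pw0 _).le (by positivity)
      linarith
    · have h5 : ∀ n ∈ Icc 2 t, |W n - S| ≤ L ^ (k + 3) := by
        intro n hn
        rw [mem_Icc] at hn
        have h6 := hWle n (mem_Icc.2 ⟨by omega, by omega⟩)
        have h7 := hW0 n
        have h8 : 3 * 5 ^ k * L ^ (k + 1) ≤ L * L ^ (k + 1) :=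
          mul_le_mul_of_nonneg_right (by linarith) (pw0 _).le
        have h9 : L * L ^ (k + 1) = L ^ (k + 2) := by ring
        have h10 := pw (k + 2) (k + 3) (by omega)
        have h11 : L ^ (k + 2) + L ^ (k + 2) ≤ L ^ (k + 3) := by
          have : L ^ (k + 3) = L * L ^ (k + 2) := by ring
          rw [this]
          nlinarith [pw0 (k + 2)]
        have h12 := pw0 (k + 2)
        rw [abs_le]
        constructor <;> linarith
      refine (abs_sum_le_sum_abs _ _).trans ((sum_le_sum h5).trans ?_)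
      rw [sum_const, nsmul_eq_mul, Nat.card_Icc]
      have h6 : ((t + 1 - 2 : ℕ) : ℝ) ≤ T₀ := by exact_mod_cast (by omega : t + 1 - 2 ≤ T₀)
      have h7 : ((t + 1 - 2 : ℕ) : ℝ) * L ^ (k + 3) ≤ T₀ * L ^ (k + 3) :=
        mul_le_mul_of_nonneg_right h6 (pw0 _).le
      have h8 : (T₀ : ℝ) * L ^ (k + 3) ≤ y / L ^ (A + 1) := by
        rw [le_div_iff₀ (pw0 _), mul_assoc, ← pow_add]
        refine le_trans ?_ hTy
        exact mul_le_mul_of_nonneg_left (pw _ _ (by omega)) (by positivity)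
      linarith
  have hAbel : |∑ n ∈ Icc 2 y, (W n - S) * ρ n| ≤ 2 * ((y : ℝ) / L ^ (A + 1)) * 2 ^ (k + 1) := by
    have h5 := abel (fun n => W n - S) ρ (2 * ((y : ℝ) / L ^ (A + 1)))
      (fun n hn => ⟨hρ0 n hn, hρa n hn⟩) y hy2 hT
    exact h5.trans (mul_le_mul_of_nonneg_left hρ2 (by linarith))
  -- the counting function
  have hcount : (cntP (fun i => (c i : ℤ)) b y : ℝ) = ∑ n ∈ Icc 2 y, W n * ρ n := by
    have e0 : {q : ℕ | q.Prime ∧ q ≤ y ∧ ∀ i, ((c i : ℤ) + b i * q).natAbs.Prime} =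
        (((Icc 2 y).filter (fun n => n.Prime ∧ ∀ i, (v i n).Prime) : Finset ℕ) : Set ℕ) := by
      ext q
      simp only [Set.mem_setOf_eq, coe_filter, mem_Icc]
      have e1 : ∀ i, ((c i : ℤ) + b i * q).natAbs = v i q := by
        intro i
        rw [add_comm, hvZ, Int.natAbs_natCast]
      simp only [e1]
      constructor
      · rintro ⟨a1, a2, a3⟩; exact ⟨⟨a1.two_le, a2⟩, a1, a3⟩
      · rintro ⟨⟨_, a2⟩, a3, a4⟩; exact ⟨a3, a2, a4⟩
    unfold cntP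
    rw [e0, Set.ncard_coe_finset, card_filter]
    push_cast
    refine sum_congr rfl fun n hn => ?_
    rw [mem_Icc] at hn
    rw [hW, hρ]
    simp only
    rw [show lamP (n : ℤ) * (∏ i, lamP ((v i n : ℕ) : ℤ)) *
        (1 / Real.log n * ∏ i, 1 / Real.log ((v i n : ℕ) : ℝ)) =
        (lamP (n : ℤ) * (1 / Real.log n)) * ((∏ i, lamP ((v i n : ℕ) : ℤ)) *
          ∏ i, 1 / Real.log ((v i n : ℕ) : ℝ)) by ring, ← prod_mul_distrib,
      lamP_weight n hn.1, prod_congr rfl fun i _ => lamP_weight (v i n) (hv3 i n hn.1),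
      prod_boole]
    by_cases h1 : n.Prime
    · by_cases h2 : ∀ i, (v i n).Prime
      · simp [h1, h2]
      · simp [h1, h2]
    · simp [h1]
  have hexp : exP (fun i => (c i : ℤ)) b y = ∑ n ∈ Icc 2 y, ρ n := by
    unfold exP
    rw [hρ]
    refine sum_congr rfl fun n _ => ?_
    simp only
    congr 1
    refine prod_congr rfl fun i _ => ?_
    have e1 : ((c i : ℤ) + b i * n : ℤ) = ((v i n : ℕ) : ℤ) := by rw [add_comm, hvZ]
    rw [e1, Int.cast_natCast, abs_of_nonneg (Nat.cast_nonneg _)]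
  have hsplit : ∑ n ∈ Icc 2 y, W n * ρ n - S * ∑ n ∈ Icc 2 y, ρ n =
      ∑ n ∈ Icc 2 y, (W n - S) * ρ n := by
    simp only [sub_mul, sum_sub_distrib, ← mul_sum]
  rw [hcount, hexp, hsplit]
  refine hAbel.trans ?_
  have h1 : (y : ℝ) / L ^ A = L * (y / L ^ (A + 1)) := by
    rw [pow_succ]; field_simp
  rw [h1]
  calc 2 * ((y : ℝ) / L ^ (A + 1)) * 2 ^ (k + 1) ≤ 3 * 2 ^ (k + 1) * (y / L ^ (A + 1)) := by
        have : 0 ≤ (2 : ℝ) ^ (k + 1) * ((y : ℝ) / L ^ (A + 1)) := by positivity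
        linarith
    _ ≤ L * (y / L ^ (A + 1)) := mul_le_mul_of_nonneg_right c3 hyA0

theorem main : S_INP5 := by
  intro k A
  have tl : Filter.Tendsto (fun H : ℕ => Real.log (H : ℝ)) Filter.atTop Filter.atTop :=
    Real.tendsto_log_atTop.comp tendsto_natCast_atTop_atTop
  have ev := ((Filter.eventually_ge_atTop 4).and (tl.eventually_ge_atTop (8 : ℝ))).and
    ((tl.eventually_ge_atTop ((3 : ℝ) * 5 ^ k + 2)).and
      (tl.eventually_ge_atTop ((3 : ℝ) * 2 ^ (k + 1))))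
  obtain ⟨H₀, hH₀⟩ := Filter.eventually_atTop.1 ev
  refine ⟨A + 1, A + k + 6, H₀, by omega, ?_⟩
  intro H hH y T₀ hT1 hTy hyH b c S hbc hS0 hS hsum
  obtain ⟨⟨a1, a2⟩, a3, a4⟩ := hH₀ H hH
  exact core k A H a1 a2 a3 a4 y T₀ hT1 hTy hyH b c S hbc hS0 hS hsum

end Pool.Agent.helper24_UT.Inp5
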