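import Pool.Agent.helper24_UT.Stm13
import Pool.Agent.helper24_UT.Stm14

/-!
# Project UT (helper24), part 15: systems of linear forms `b_i n + c_i`, `b_i ≤ Q_i ≤ R_i`, `c_i ≤ R_i`, in the range
`Q_i n ≤ R_i ^ (3 - ε)`; prime solutions of `a p - b q = c` in almost all short intervals. Statements.
-/

set_option autoImplicit false

namespace Pool.Agent.helper24_UT

open Finset Polynomial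
open Pool.Agent.H373R2.T7 (lamI lamzI lamz Vz pz lamP)

/-- the sides of the box -/
def Rg5 (e H Q R : ℕ) : Prop := (H : ℝ) ^ (1 / e : ℝ) ≤ Q ∧ Q ≤ R ∧ R ≤ H

/-- the lengths `y` which belong to the box `b ≤ Q`, `c ≤ R` -/
def Ln5 (e Q R y : ℕ) : Prop := (R : ℝ) ^ (1 / 3 + 1 / e : ℝ) ≤ (Q : ℝ) * y ∧ (Q : ℝ) * y ≤ (R : ℝ) ^ (3 - 1 / e : ℝ)

/-- (150) no correlation of the primes minus their model along `b n + c + s` with any bounded weights -/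
def S_UT5 : Prop := ∀ e A : ℕ, 1 ≤ e → ∃ E₀ B : ℕ, ∀ E₁ : ℕ, ∃ H₀ : ℕ, ∀ H : ℕ, H₀ ≤ H → ∀ Q R T z : ℕ,
  Rg5 e H Q R → (Real.log H) ^ B ≤ T → Ln5 e Q R T → (Real.log H) ^ E₀ ≤ z → (z : ℝ) ≤ (Real.log H) ^ E₁ →
  ∀ s : ℤ, |s| ≤ 8 * R → ∀ w : ℕ → ℝ, (∀ n, |w n| ≤ 1) →
  ∑ b ∈ Icc 1 Q, ∑ c ∈ Icc 1 R, (∑ n ∈ Icc 1 T, w n * Ed z ((b : ℤ) * n + c + s)) ^ 2 ≤
    (Q : ℝ) * R * (T : ℝ) ^ 2 / (Real.log H) ^ A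

/-- (151) mean square over all choices, one length -/
def S_SYS5 : Prop := ∀ k e A : ℕ, 1 ≤ e → ∃ E₀ B : ℕ, ∀ E₁ : ℕ, ∃ H₀ : ℕ, ∀ H : ℕ, H₀ ≤ H → ∀ T : ℕ,
  (Real.log H) ^ B ≤ T → ∀ Q R : Fin k → ℕ, (∀ i, Rg5 e H (Q i) (R i) ∧ Ln5 e (Q i) (R i) T) →
  ∀ z : ℕ, (Real.log H) ^ E₀ ≤ z → (z : ℝ) ≤ (Real.log H) ^ E₁ → ∀ w : ℕ → ℝ, (∀ n, |w n| ≤ 1) →
  ∑ v ∈ Bq Q R, (∑ n ∈ Icc 1 T, w n * (∏ i, lamI (vl (fun _ _ => 0) v i n) - ∏ i, lamzI z (vl (fun _ _ => 0) v i n))) ^ 2 ≤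
    vq Q R * (T : ℝ) ^ 2 / (Real.log H) ^ A

/-- (152) almost all choices, all lengths -/
def S_ALL5 : Prop := ∀ k e A : ℕ, 1 ≤ e → ∃ E₀ B : ℕ, ∀ E₁ : ℕ, ∃ H₀ : ℕ, ∀ H : ℕ, H₀ ≤ H →
  ∀ Q R : Fin k → ℕ, (∀ i, Rg5 e H (Q i) (R i)) → ∀ z : ℕ, (Real.log H) ^ E₀ ≤ z → (z : ℝ) ≤ (Real.log H) ^ E₁ →
  ∀ w : ℕ → ℝ, (∀ n, |w n| ≤ 1) →
  ∃ Bad : Finset (Fin k → ℕ × ℕ), Bad ⊆ Bq Q R ∧ (Bad.card : ℝ) ≤ vq Q R / (Real.log H) ^ A ∧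
    ∀ v ∈ Bq Q R, v ∉ Bad → ∀ y : ℕ, (Real.log H) ^ B ≤ y → y ≤ H ^ 3 → (∀ i, Ln5 e (Q i) (R i) y) →
      |∑ n ∈ Icc 1 y, w n * (∏ i, lamI (vl (fun _ _ => 0) v i n) - ∏ i, lamzI z (vl (fun _ _ => 0) v i n))| ≤
        y / (Real.log H) ^ A

open Classical in
/-- (153) proper prime powers are rare among the values -/
def S_PP5 : Prop := ∀ k e A : ℕ, 1 ≤ e → ∃ B H₀ : ℕ, ∀ H : ℕ, H₀ ≤ H → ∀ Q R : Fin k → ℕ, (∀ i, Rg5 e H (Q i) (R i)) →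
  ∃ Bad : Finset (Fin k → ℕ × ℕ), Bad ⊆ Bq Q R ∧ (Bad.card : ℝ) ≤ vq Q R / (Real.log H) ^ A ∧
    ∀ v ∈ Bq Q R, v ∉ Bad → ∀ y : ℕ, (Real.log H) ^ B ≤ y → y ≤ H ^ 3 →
      (((Icc 1 y).filter (fun n => ∃ i, lamI (vl (fun _ _ => 0) v i n) ≠ lamP (vl (fun _ _ => 0) v i n))).card : ℝ) ≤
        y / (Real.log H) ^ A

/-- (154) the sums of the model for almost all choices and all lengths -/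
def S_MT5 : Prop := ∀ k e A : ℕ, 1 ≤ e → ∃ B : ℕ, ∀ E : ℕ, ∃ H₀ : ℕ, ∀ H : ℕ, H₀ ≤ H →
  ∀ Q R : Fin k → ℕ, (∀ i, Rg5 e H (Q i) (R i)) → ∀ z : ℕ, 1 ≤ z → (z : ℝ) ≤ (Real.log H) ^ E →
  ∃ Bad : Finset (Fin k → ℕ × ℕ), Bad ⊆ Bq Q R ∧ (Bad.card : ℝ) ≤ vq Q R / (Real.log H) ^ A ∧
    ∀ v ∈ Bq Q R, v ∉ Bad → ∀ y : ℕ, (Real.log H) ^ B ≤ y →
      |∑ n ∈ Icc 1 y, XX z (fun _ => 0) v n - y * sg z (pl (fun _ => 0) v)| ≤ y / (Real.log H) ^ A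

/-- (155) almost all systems of linear forms, all lengths, primes weighted by logarithms -/
def S_PSI5 : Prop := ∀ k e A : ℕ, 1 ≤ e → ∃ E₀ B : ℕ, ∀ E : ℕ, E₀ ≤ E → ∃ H₀ : ℕ, ∀ H : ℕ, H₀ ≤ H →
  ∀ Q R : Fin k → ℕ, (∀ i, Rg5 e H (Q i) (R i)) →
  ∃ Bad : Finset (Fin k → ℕ × ℕ), Bad ⊆ Bq Q R ∧ (Bad.card : ℝ) ≤ vq Q R / (Real.log H) ^ A ∧
    ∀ v ∈ Bq Q R, v ∉ Bad → ∀ y : ℕ, (Real.log H) ^ B ≤ y → y ≤ H ^ 3 → (∀ i, Ln5 e (Q i) (R i) y) →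
      |∑ n ∈ Icc 1 y, ∏ i, lamP ((pl (fun _ => 0) v i).eval (n : ℤ)) - y * sg ⌊(Real.log H) ^ E⌋₊ (pl (fun _ => 0) v)| ≤
        y / (Real.log H) ^ A

open Classical in
/-- (156) from the sums weighted by logarithms to the number of the primes (a deterministic statement) -/
def S_IN5 : Prop := ∀ k A : ℕ, ∃ A' B H₀ : ℕ, A ≤ A' ∧ ∀ H : ℕ, H₀ ≤ H → ∀ y T₀ : ℕ, 1 ≤ T₀ →
  T₀ * (Real.log H) ^ B ≤ y → y ≤ H ^ 3 → ∀ (b c : Fin k → ℕ) (S : ℝ), (∀ i, 1 ≤ b i ∧ b i ≤ H ∧ 1 ≤ c i ∧ c i ≤ H) →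
  0 ≤ S → S ≤ (Real.log H) ^ (k + 1) →
  (∀ t : ℕ, T₀ ≤ t → t ≤ y → |∑ n ∈ Icc 1 t, ∏ i, lamP ((b i : ℤ) * n + c i) - t * S| ≤ t / (Real.log H) ^ A') →
  |(cntD b c y : ℝ) - S * expD b c y| ≤ y / (Real.log H) ^ A

open Classical in
/-- (157) almost all systems of linear forms -/
def S_R10G : Prop := ∀ k e A : ℕ, 1 ≤ k → 1 ≤ e → ∃ B H₀ : ℕ, ∀ H : ℕ, H₀ ≤ H → ∀ Q R : Fin k → ℕ,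
  (∀ i, Rg5 e H (Q i) (R i)) →
  (((Fintype.piFinset (fun i => Icc 1 (Q i)) ×ˢ Fintype.piFinset (fun i => Icc 1 (R i))).filter
    (fun x : (Fin k → ℕ) × (Fin k → ℕ) => AdmD x.1 x.2 ∧
      ¬ ∀ y : ℕ, (Real.log H) ^ B ≤ y → (∀ i, Ln5 e (Q i) (R i) y) →
        |(cntD x.1 x.2 y : ℝ) - serD x.1 x.2 * expD x.1 x.2 y| ≤ serD x.1 x.2 * expD x.1 x.2 y / (Real.log H) ^ A)).card : ℝ) ≤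
    vq Q R / (Real.log H) ^ A

/-- (158) almost all systems, all lengths, prime arguments, weights with logarithms -/
def S_PSIP5 : Prop := ∀ k e A m : ℕ, 1 ≤ e → 1 ≤ m → ∃ E₀ : ℕ, ∀ E : ℕ, E₀ ≤ E → ∃ H₀ : ℕ, ∀ H : ℕ, H₀ ≤ H →
  ∀ Q R : Fin k → ℕ, (∀ i, Rg5 e H (Q i) (R i)) →
  ∃ Bad : Finset (Fin k → ℕ × ℕ), Bad ⊆ Bq Q R ∧ (Bad.card : ℝ) ≤ vq Q R / (Real.log H) ^ A ∧
    ∀ v ∈ Bq Q R, v ∉ Bad → ∀ y : ℕ, Real.exp ((Real.log H) ^ (1 / m : ℝ)) ≤ y → y ≤ H ^ 3 → (∀ i, Ln5 e (Q i) (R i) y) →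
      |∑ n ∈ Icc 1 y, lamP (n : ℤ) * ∏ i, lamP ((pl (fun _ => 0) v i).eval (n : ℤ)) -
          y * sgp ⌊(Real.log H) ^ E⌋₊ (pl (fun _ => 0) v)| ≤ y / (Real.log H) ^ A

open Classical in
/-- (159) the same passage for prime arguments -/
def S_INP5 : Prop := ∀ k A : ℕ, ∃ A' B H₀ : ℕ, A ≤ A' ∧ ∀ H : ℕ, H₀ ≤ H → ∀ y T₀ : ℕ, 1 ≤ T₀ →
  T₀ * (Real.log H) ^ B ≤ y → y ≤ H ^ 3 → ∀ (b c : Fin k → ℕ) (S : ℝ), (∀ i, 1 ≤ b i ∧ b i ≤ H ∧ 1 ≤ c i ∧ c i ≤ H) →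
  0 ≤ S → S ≤ (Real.log H) ^ (k + 2) →
  (∀ t : ℕ, T₀ ≤ t → t ≤ y →
    |∑ n ∈ Icc 1 t, lamP (n : ℤ) * ∏ i, lamP ((b i : ℤ) * n + c i) - t * S| ≤ t / (Real.log H) ^ A') →
  |(cntP (fun i => (c i : ℤ)) b y : ℝ) - S * exP (fun i => (c i : ℤ)) b y| ≤ y / (Real.log H) ^ A

open Classical in
/-- (160) primes `q` with all `a_i + d_i q` prime -/
def S_R11G : Prop := ∀ k e A m : ℕ, 1 ≤ k → 1 ≤ e → 1 ≤ m → ∃ H₀ : ℕ, ∀ H : ℕ, H₀ ≤ H → ∀ Q R : Fin k → ℕ,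
  (∀ i, Rg5 e H (Q i) (R i)) →
  (((Fintype.piFinset (fun i => Icc 1 (R i)) ×ˢ Fintype.piFinset (fun i => Icc 1 (Q i))).filter
    (fun x : (Fin k → ℕ) × (Fin k → ℕ) => AdmP (fun i => (x.1 i : ℤ)) x.2 ∧
      ¬ ∀ y : ℕ, Real.exp ((Real.log H) ^ (1 / m : ℝ)) ≤ y → (∀ i, Ln5 e (Q i) (R i) y) →
        |(cntP (fun i => (x.1 i : ℤ)) x.2 y : ℝ) - serp (fun i => (x.1 i : ℤ)) x.2 * exP (fun i => (x.1 i : ℤ)) x.2 y| ≤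
          serp (fun i => (x.1 i : ℤ)) x.2 * exP (fun i => (x.1 i : ℤ)) x.2 y / Real.log H ^ A)).card : ℝ) ≤
    vq Q R / Real.log H ^ A

/-- (161) short exponential sums over the multiples of `a` -/
def S_DIL (θ : ℝ) : Prop := ∀ e A C : ℕ, 1 ≤ e → ∃ E₀ : ℕ, ∀ E₁ : ℕ, ∃ X₀ : ℕ, ∀ X : ℕ, X₀ ≤ X → ∀ z : ℕ,
  (Real.log X) ^ E₀ ≤ z → (z : ℝ) ≤ (Real.log X) ^ E₁ → ∀ K : ℕ, (X : ℝ) ^ (θ + 1 / e : ℝ) ≤ K → K ≤ X →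
  ∀ a : ℕ, 1 ≤ a → (a : ℝ) ≤ (Real.log X) ^ C → ∀ (Y₁ Y₂ : ℤ) (α : ℝ), ∑ x ∈ Icc (-(X : ℤ)) X,
    ‖sw (fun m => if (a : ℤ) ∣ m ∧ Y₁ < m ∧ m ≤ Y₂ then Ed z (m / a) else 0) K x α‖ ^ 2 ≤ X * (K : ℝ) ^ 2 / (Real.log X) ^ A

/-- (162) `a p - b q = c`: primes minus model in almost all short intervals, almost all `c` -/
def S_SAB (θ : ℝ) : Prop := ∀ e A C : ℕ, 1 ≤ e → ∃ E₀ : ℕ, ∀ E₁ : ℕ, ∃ X₀ : ℕ, ∀ X : ℕ, X₀ ≤ X → ∀ K : ℕ,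
  (X : ℝ) ^ (θ + 1 / e : ℝ) ≤ K → K ≤ X → ∀ z : ℕ, (Real.log X) ^ E₀ ≤ z → (z : ℝ) ≤ (Real.log X) ^ E₁ →
  ∀ a b : ℕ, 1 ≤ a → 1 ≤ b → (a : ℝ) ≤ (Real.log X) ^ C → (b : ℝ) ≤ (Real.log X) ^ C →
  ∀ y : ℕ → ℤ → ℕ, (∀ x c, y x c ≤ K) →
  ∑ x ∈ Icc 1 X, ∑ c ∈ Icc (-(X : ℤ)) X,
    (∑ n ∈ (Ioc x (x + y x c)).filter (fun n : ℕ => (a : ℤ) ∣ c + b * n),
      (lamI (n : ℤ) * lamI ((c + b * n) / a) - lamzI z (n : ℤ) * lamzI z ((c + b * n) / a))) ^ 2 ≤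
    (X : ℝ) ^ 2 * (K : ℝ) ^ 2 / (Real.log X) ^ A

/-- (163) the model along two linear forms -/
def S_MTF : Prop := ∀ E A : ℕ, ∃ N₀ : ℕ, ∀ N : ℕ, N₀ ≤ N → ∀ z : ℕ, 1 ≤ z → (z : ℝ) ≤ (Real.log N) ^ E →
  ∀ a b p₀ q₀ : ℕ, 1 ≤ a → 1 ≤ b → ∀ T₁ T₂ : ℤ, T₁ ≤ T₂ → T₂ - T₁ ≤ N →
  |∑ t ∈ Ioc T₁ T₂, lz z ((a : ℤ) * t + q₀) * lz z ((b : ℤ) * t + p₀) -
    ((T₂ - T₁ : ℤ) : ℝ) * sg z (pl (fun _ : Fin 2 => 0) ![(b, p₀), (a, q₀)])| ≤ N / (Real.log N) ^ A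

/-- the asymptotic formula for the solutions with `x < q ≤ x + y` -/
def Good18 (A X K x a b : ℕ) (c : ℤ) : Prop := ∀ y : ℕ, y ≤ K →
  |((cnt3 a b c (x + y) : ℝ) - cnt3 a b c x) - ser3 a b c * (ex3 a b c (x + y) - ex3 a b c x)| ≤ K / (Real.log X) ^ A

open Classical in
/-- (164) prime solutions of `a p - b q = c` in almost all short intervals for almost all `c` -/
def S_R18 (θ : ℝ) : Prop := ∀ e A C : ℕ, 1 ≤ e → ∃ X₀ : ℕ, ∀ X : ℕ, X₀ ≤ X → ∀ K : ℕ, (X : ℝ) ^ (θ + 1 / e : ℝ) ≤ K → K ≤ X →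
  ∀ a b : ℕ, (a : ℝ) ≤ (Real.log X) ^ C → (b : ℝ) ≤ (Real.log X) ^ C →
  (((Icc 1 X ×ˢ Icc (-(X : ℤ)) X).filter (fun v => Adm3 a b v.2 ∧ ¬ Good18 A X K v.1 a b v.2)).card : ℝ) ≤
    (X : ℝ) ^ 2 / (Real.log X) ^ A

end Pool.Agent.helper24_UT
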