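-- UT_MT5 proved, compiles; imports Stm15, C23, Pt3, Mt23, Kap, Mtl, Mt3 (all on main). C25 from C23 by swapping the variables; also proves mt35 (general G of degree <= r with Rg5).
import Pool.Agent.helper24_UT.Stm15
import Pool.Agent.helper24_UT.C23
import Pool.Agent.helper24_UT.Pt3
import Pool.Agent.helper24_UT.Mt23
import Pool.Agent.helper24_UT.Kap
import Pool.Agent.helper24_UT.Mtl
import Pool.Agent.helper24_UT.Mt3

/-!
# UT_MT5 (project UT of helper24)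

The sums of the model for almost all choices of linear forms with boxes `Q_i ≤ R_i` and all lengths: `S_MT5`.
The sieve in two variables is symmetric in the two sides (`c25` follows from `C23.main` by the swap of the variables); the
two-point correlations, the second moment and the passage to all lengths are as in `Pt3`, `Mt23`, `Mt3`.
-/

set_option autoImplicit false

namespace Pool.Agent.helper24_UT.Mt5

open Finset Polynomial
open Pool.Agent.helper24_UT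
open Pool.Agent.H373R2.T7 (lamI lamzI lamz Vz pz lamP)
open Pool.Agent.H807R2.Dav (ee)

/-- the number of excluded pairs of classes does not change under the swap of the two variables -/
theorem nu2_swap (P : ℕ → ℕ → ℕ → Prop) (p : ℕ) : nu2 (fun p b b' => P p b' b) p = nu2 P p := by
  classical
  unfold nu2
  refine card_bij' (fun x _ => x.swap) (fun x _ => x.swap) ?_ ?_ ?_ ?_
  · intro x hx
    simp only [mem_filter, mem_product, Prod.fst_swap, Prod.snd_swap] at hx ⊢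
    exact ⟨⟨hx.1.2, hx.1.1⟩, hx.2⟩
  · intro x hx
    simp only [mem_filter, mem_product, Prod.fst_swap, Prod.snd_swap] at hx ⊢
    exact ⟨⟨hx.1.2, hx.1.1⟩, hx.2⟩
  · intro x _
    exact Prod.swap_swap x
  · intro x _
    exact Prod.swap_swap x

/-- the sieve in two variables, `Q ≤ R` -/
def S_C25 : Prop := ∀ c e E U : ℕ, 1 ≤ e → ∃ H₀ : ℕ, ∀ H : ℕ, H₀ ≤ H → ∀ Q R : ℕ, Rg5 e H Q R → ∀ z : ℕ, 1 ≤ z →
  (z : ℝ) ≤ (Real.log H) ^ E →
  ∀ P : ℕ → ℕ → ℕ → Prop, (∀ p b b', P p b b' ↔ P p (b % p) (b' % p)) → (∀ p, p.Prime → nu2 P p ≤ c * p) →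
  |((open Classical in ((Icc 1 Q ×ˢ Icc 1 R).filter (fun x : ℕ × ℕ => ∀ p ∈ pz z, ¬ P p x.1 x.2)).card : ℕ) : ℝ) -
    (Q : ℝ) * R * ∏ p ∈ pz z, (1 - (nu2 P p : ℝ) / (p : ℝ) ^ 2)| ≤ (Q : ℝ) * R / (Real.log H) ^ U

theorem c25 : S_C25 := by
  intro c e E U he
  obtain ⟨H₀, h₀⟩ := C23.main c e E U he
  refine ⟨H₀, fun H hH Q R hR z hz hzE P hP hc => ?_⟩
  have hR' : Rg e H R Q := ⟨hR.1, hR.2.1, hR.2.2⟩
  have h := h₀ H hH R Q hR' z hz hzE (fun p b b' => P p b' b) (fun p b b' => hP p b' b)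
    (fun p hp => by rw [nu2_swap]; exact hc p hp)
  classical
  have e1 : (((Icc 1 R ×ˢ Icc 1 Q).filter (fun x : ℕ × ℕ => ∀ p ∈ pz z, ¬ P p x.2 x.1)).card : ℕ) =
      ((Icc 1 Q ×ˢ Icc 1 R).filter (fun x : ℕ × ℕ => ∀ p ∈ pz z, ¬ P p x.1 x.2)).card := by
    refine card_bij' (fun x _ => x.swap) (fun x _ => x.swap) ?_ ?_ ?_ ?_
    · intro x hx
      simp only [mem_filter, mem_product, Prod.fst_swap, Prod.snd_swap] at hx ⊢
      exact ⟨⟨hx.1.2, hx.1.1⟩, hx.2⟩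
    · intro x hx
      simp only [mem_filter, mem_product, Prod.fst_swap, Prod.snd_swap] at hx ⊢
      exact ⟨⟨hx.1.2, hx.1.1⟩, hx.2⟩
    · intro x _
      exact Prod.swap_swap x
    · intro x _
      exact Prod.swap_swap x
  have e2 : ∏ p ∈ pz z, (1 - (nu2 (fun p b b' => P p b' b) p : ℝ) / (p : ℝ) ^ 2) =
      ∏ p ∈ pz z, (1 - (nu2 P p : ℝ) / (p : ℝ) ^ 2) :=
    prod_congr rfl fun p _ => by rw [nu2_swap]
  rw [e2] at h
  have e3 : ((open Classical in ((Icc 1 R ×ˢ Icc 1 Q).filter (fun x : ℕ × ℕ => ∀ p ∈ pz z, ¬ P p x.2 x.1)).card : ℕ) : ℝ) =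
      ((open Classical in ((Icc 1 Q ×ˢ Icc 1 R).filter (fun x : ℕ × ℕ => ∀ p ∈ pz z, ¬ P p x.1 x.2)).card : ℕ) : ℝ) := by
    congr 1
  calc _ = |((open Classical in ((Icc 1 R ×ˢ Icc 1 Q).filter (fun x : ℕ × ℕ => ∀ p ∈ pz z, ¬ P p x.2 x.1)).card : ℕ) : ℝ) -
    (R : ℝ) * Q * ∏ p ∈ pz z, (1 - (nu2 P p : ℝ) / (p : ℝ) ^ 2)| := by
        rw [e3, mul_comm (R : ℝ) Q]
    _ ≤ (R : ℝ) * Q / (Real.log H) ^ U := h
    _ = _ := by rw [mul_comm (R : ℝ) Q]

/-- two-point correlations of the model over the box, `Q ≤ R` -/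
def S_PT5 : Prop := ∀ e E U : ℕ, 1 ≤ e → ∃ H₀ : ℕ, ∀ H : ℕ, H₀ ≤ H → ∀ Q R : ℕ, Rg5 e H Q R → ∀ z : ℕ, 1 ≤ z →
  (z : ℝ) ≤ (Real.log H) ^ E → ∀ n n' : ℕ, n' < n → ∀ s s' : ℤ, ((n : ℤ) - n') ∣ s - s' →
  |∑ x ∈ Icc 1 Q ×ˢ Icc 1 R, lz z ((x.1 : ℤ) * n + x.2 + s) * lz z ((x.1 : ℤ) * n' + x.2 + s') -
    (Q : ℝ) * R * kap z (n - n')| ≤ (Q : ℝ) * R / (Real.log H) ^ U

theorem pt5 : S_PT5 := by
  have hC := c25
  intro e E U he
  obtain ⟨H1, h1⟩ := hC 2 e E (U + 2) he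
  obtain ⟨H2, h2⟩ := Pool.Agent.H373R2.T7.Vz_inv_small E
  refine ⟨max H1 (max H2 3), fun H hH Q R hR z hz hzE n n' hn s s' hs => ?_⟩
  have hH1 : H1 ≤ H := (le_max_left _ _).trans hH
  have hH2 : H2 ≤ H := ((le_max_left _ _).trans (le_max_right _ _)).trans hH
  have hH3 : 3 ≤ H := ((le_max_right _ _).trans (le_max_right _ _)).trans hH
  have hL : 0 < Real.log H := Real.log_pos (by
    have : (3 : ℝ) ≤ H := by exact_mod_cast hH3
    linarith)
  have hV := h2 H hH2 z hz hzE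
  have hVp := Pt3.Vz_pos' z
  have hmain := h1 H hH1 Q R hR z hz hzE (Pt3.QQ n n' s s') (fun p b b' => Pt3.QQ_per n n' s s' p b b') (by
    intro p hp
    by_cases hd : p ∣ n - n'
    · rw [Pt3.nu2_dvd hn hs hp hd]; omega
    · have := Pt3.nu2_ndvd (s := s) (s' := s') hn hp hd
      omega)
  rw [Pt3.prod_eq hn hs z] at hmain
  rw [Pt3.sum_eq z Q R n n' s s']
  obtain ⟨c, hc⟩ : ∃ c : ℝ, c = ((open Classical in ((Icc 1 Q ×ˢ Icc 1 R).filter
        (fun x : ℕ × ℕ => ∀ p ∈ pz z, ¬ Pt3.QQ n n' s s' p x.1 x.2)).card : ℕ) : ℝ) := ⟨_, rfl⟩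
  rw [← hc] at hmain ⊢
  have e1 : (Vz z)⁻¹ ^ 2 * c - (Q : ℝ) * R * kap z (n - n') =
      (Vz z)⁻¹ ^ 2 * (c - (Q : ℝ) * R * (Vz z ^ 2 * kap z (n - n'))) := by
    have : (Vz z)⁻¹ ^ 2 * Vz z ^ 2 = 1 := by
      rw [← mul_pow, inv_mul_cancel₀ hVp.ne', one_pow]
    linear_combination ((Q : ℝ) * R * kap z (n - n')) * this
  have hVi : 0 ≤ (Vz z)⁻¹ := (inv_pos.2 hVp).le
  rw [e1, abs_mul, abs_of_nonneg (by positivity)]
  calc (Vz z)⁻¹ ^ 2 * |c - (Q : ℝ) * R * (Vz z ^ 2 * kap z (n - n'))|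
      ≤ Real.log H ^ 2 * ((Q : ℝ) * R / Real.log H ^ (U + 2)) :=
        mul_le_mul (pow_le_pow_left₀ hVi hV 2) hmain (abs_nonneg _) (by positivity)
    _ = (Q : ℝ) * R / Real.log H ^ U := by
        rw [pow_add]
        field_simp

/-- the second moment, `Q ≤ R` -/
def S_MT25 : Prop := ∀ k e E U : ℕ, 1 ≤ e → ∃ H₀ : ℕ, ∀ H : ℕ, H₀ ≤ H → ∀ Q R : Fin k → ℕ, (∀ i, Rg5 e H (Q i) (R i)) →
  ∀ z : ℕ, 1 ≤ z → (z : ℝ) ≤ (Real.log H) ^ E →
  ∀ y Y : ℕ, 1 ≤ y → y ≤ Y → ∀ G : Fin k → ℤ[X],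
  ∑ v ∈ Bq Q R, ((∑ n ∈ Icc 1 y, XX z G v n) / y - (∑ n ∈ Icc 1 Y, XX z G v n) / Y) ^ 2 ≤
    vq Q R * ((Real.log H) ^ (2 * k + 1) / y + 1 / (Real.log H) ^ U)

theorem mt25 : S_MT25 := by
  have hPT := pt5
  have hKAP := Kap.main
  intro k e E U he
  obtain ⟨H1, h1⟩ := hPT e E (U + 2 * k + 2) he
  obtain ⟨H2, h2⟩ := Pool.Agent.H373R2.T7.Vz_inv_small E
  have hlim : Filter.Tendsto (fun N : ℕ => Real.log (N : ℝ)) Filter.atTop Filter.atTop :=
    Real.tendsto_log_atTop.comp (tendsto_natCast_atTop_atTop (R := ℝ))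
  obtain ⟨H3, h3⟩ := Filter.eventually_atTop.1 (hlim.eventually_ge_atTop (21 + (k : ℝ) * 2 ^ k))
  refine ⟨max 1 (max H1 (max H2 H3)), fun H hH Q R hRg z hz hzE y Y hy hyY G => ?_⟩
  have hH0 : 1 ≤ H := (le_max_left _ _).trans hH
  have hH' := (le_max_right _ _).trans hH
  have hH1 : H1 ≤ H := (le_max_left _ _).trans hH'
  have hH2 : H2 ≤ H := ((le_max_left _ _).trans (le_max_right _ _)).trans hH'
  have hH3 : H3 ≤ H := ((le_max_right _ _).trans (le_max_right _ _)).trans hH'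
  have hL := h3 H hH3
  have hk0 : 0 ≤ (k : ℝ) * 2 ^ k := by positivity
  have hQR : ∀ i, 0 < (Q i : ℝ) * R i := by
    intro i
    have hHr : (0 : ℝ) < H := by exact_mod_cast hH0
    have hQ : (0 : ℝ) < Q i := lt_of_lt_of_le (Real.rpow_pos_of_pos hHr _) (hRg i).1
    have hRQ : (Q i : ℝ) ≤ R i := by exact_mod_cast (hRg i).2.1
    exact mul_pos hQ (hQ.trans_le hRQ)
  exact Mt23.core z Q R hQR y Y hy hyY (Real.log H) U (h2 H hH2 z hz hzE) (by linarith) (by linarith)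
    (fun i n n' hn s s' hd => h1 H hH1 (Q i) (R i) (hRg i) z hz hzE n n' hn s s' hd) (hKAP k z y Y hz hy hyY) G

/-- the sums of the model for almost all choices and all lengths, `Q ≤ R` -/
def S_MT35 : Prop := ∀ k r e A : ℕ, 1 ≤ e → ∃ B : ℕ, ∀ E : ℕ, ∃ H₀ : ℕ, ∀ H : ℕ, H₀ ≤ H →
  ∀ Q R : Fin k → ℕ, (∀ i, Rg5 e H (Q i) (R i)) → ∀ z : ℕ, 1 ≤ z →
  (z : ℝ) ≤ (Real.log H) ^ E → ∀ G : Fin k → ℤ[X], (∀ i, (G i).natDegree ≤ r) →
  ∃ Bad : Finset (Fin k → ℕ × ℕ), Bad ⊆ Bq Q R ∧ (Bad.card : ℝ) ≤ vq Q R / (Real.log H) ^ A ∧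
    ∀ v ∈ Bq Q R, v ∉ Bad → ∀ y : ℕ, (Real.log H) ^ B ≤ y →
      |∑ n ∈ Icc 1 y, XX z G v n - y * sg z (pl G v)| ≤ y / (Real.log H) ^ A

theorem mt35 : S_MT35 := by
  have hmtl := Mtl.main
  have hmt2 := mt25
  intro k r e A he
  refine ⟨4 * A + 4 * k + 20, fun E => ?_⟩
  obtain ⟨H₁, hH₁⟩ := hmtl k (r + 1) E (A + 2)
  obtain ⟨H₂, hH₂⟩ := hmt2 k e E (4 * A + k + 5) he
  obtain ⟨N₀, hN₀⟩ := Pool.Agent.H373R2.T7.Vz_inv_small E
  refine ⟨H₁ + H₂ + N₀ + ⌈Real.exp 96⌉₊ + 3, fun H hH Q R hQR z hz hz' G hG => ?_⟩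
  classical
  have hvq : 0 ≤ vq Q R := Mt3.vq_nonneg Q R
  set L := Real.log H with hL
  have hHpos : (0 : ℝ) < H := by exact_mod_cast (by omega : 0 < H)
  have hL96 : 96 ≤ L := by
    rw [hL, Real.le_log_iff_exp_le hHpos]
    refine (Nat.le_ceil _).trans ?_
    exact_mod_cast (by omega : ⌈Real.exp 96⌉₊ ≤ H)
  have hL0 : 0 < L := by linarith
  have hL1 : 1 ≤ L := by linarith
  have hV : (Pool.Agent.H373R2.T7.Vz z)⁻¹ ≤ L := hN₀ H (by omega) z hz hz'
  have hexpH : Real.exp (Real.sqrt L) ≤ H := by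
    have h1 : Real.sqrt L ≤ L := by
      rw [Real.sqrt_le_left hL0.le]
      nlinarith
    calc Real.exp (Real.sqrt L) ≤ Real.exp L := Real.exp_le_exp.2 h1
      _ = H := by rw [hL, Real.exp_log hHpos]
  set Y := ⌈Real.exp (Real.sqrt L)⌉₊ with hY
  have hYH : Y ≤ H := Nat.ceil_le.2 hexpH
  have hY0 : 1 ≤ Y := Nat.ceil_pos.2 (Real.exp_pos _)
  have hY0' : (0 : ℝ) < Y := by exact_mod_cast hY0
  -- the long sums
  have hlong : ∀ v : Fin k → ℕ × ℕ, ∀ y : ℕ, Real.exp (Real.sqrt L) ≤ y →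
      |∑ n ∈ Icc 1 y, XX z G v n - y * sg z (pl G v)| ≤ y / L ^ (A + 2) := by
    intro v y hy
    exact hH₁ H (by omega) z hz hz' (pl G v) (fun i => Mt3.pl_deg G hG v i) y hy
  set a := A + k + 3 with ha
  set δ : ℝ := 1 / L ^ a with hδdef
  have hδ : 0 < δ := by positivity
  have hδ1 : δ ≤ 1 := by
    rw [hδdef, div_le_one (by positivity)]
    exact one_le_pow₀ hL1
  set B₀ := 4 * A + 3 * k + 6 with hB₀
  set J := ⌊2 * L / δ⌋₊ with hJ
  set Gr := ((range (J + 1)).image (fun j => ⌊(1 + δ) ^ j⌋₊)).filter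
    (fun y : ℕ => L ^ B₀ ≤ (y : ℝ) ∧ y ≤ Y) with hGr
  have hGcard : (Gr.card : ℝ) ≤ 3 * L ^ (a + 1) := by
    have h1 : Gr.card ≤ J + 1 := by
      refine (card_filter_le _ _).trans ?_
      refine card_image_le.trans ?_
      rw [card_range]
    have h2 : (J : ℝ) ≤ 2 * L ^ (a + 1) := by
      refine (Nat.floor_le (by positivity)).trans (le_of_eq ?_)
      rw [hδdef, div_div_eq_mul_div, div_one, pow_succ]
      ring
    have h3 : (1 : ℝ) ≤ L ^ (a + 1) := one_le_pow₀ hL1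
    have h4 : (Gr.card : ℝ) ≤ J + 1 := by exact_mod_cast h1
    linarith
  set Bad := (Bq Q R).filter (fun v => ∃ y ∈ Gr, 1 / (4 * L ^ A) < |Mt3.av z G v y - Mt3.av z G v Y|) with hBad
  refine ⟨Bad, filter_subset _ _, ?_, ?_⟩
  · -- size
    have h1 : Bad ⊆ Gr.biUnion (fun y => (Bq Q R).filter
        (fun v => 1 / (4 * L ^ A) < |Mt3.av z G v y - Mt3.av z G v Y|)) := by
      intro v hv
      rw [hBad, mem_filter] at hv
      obtain ⟨hv1, y, hy, hv2⟩ := hv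
      rw [mem_biUnion]
      exact ⟨y, hy, mem_filter.2 ⟨hv1, hv2⟩⟩
    have h2 : ∀ y ∈ Gr, (((Bq Q R).filter (fun v => 1 / (4 * L ^ A) < |Mt3.av z G v y - Mt3.av z G v Y|)).card : ℝ) ≤
        vq Q R * (32 * L ^ (2 * A) / L ^ (4 * A + k + 5)) := by
      intro y hy
      rw [hGr, mem_filter] at hy
      obtain ⟨_, hy1, hy2⟩ := hy
      have hy0 : (0 : ℝ) < y := lt_of_lt_of_le (pow_pos hL0 _) hy1
      have hy0' : 1 ≤ y := by exact_mod_cast hy0
      have hs := hH₂ H (by omega) Q R hQR z hz hz' y Y hy0' hy2 G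
      set Fl := (Bq Q R).filter (fun v => 1 / (4 * L ^ A) < |Mt3.av z G v y - Mt3.av z G v Y|) with hFl
      have h3 : (Fl.card : ℝ) * (1 / (4 * L ^ A)) ^ 2 ≤
          vq Q R * (L ^ (2 * k + 1) / y + 1 / L ^ (4 * A + k + 5)) := by
        refine le_trans ?_ hs
        have h4 : (Fl.card : ℝ) * (1 / (4 * L ^ A)) ^ 2 ≤ ∑ v ∈ Fl, (Mt3.av z G v y - Mt3.av z G v Y) ^ 2 := by
          rw [← nsmul_eq_mul]
          apply card_nsmul_le_sum
          intro v hv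
          rw [hFl, mem_filter] at hv
          rw [← sq_abs (Mt3.av z G v y - Mt3.av z G v Y)]
          exact pow_le_pow_left₀ (by positivity) hv.2.le 2
        refine h4.trans ?_
        change ∑ v ∈ Fl, (Mt3.av z G v y - Mt3.av z G v Y) ^ 2 ≤ ∑ v ∈ Bq Q R, (Mt3.av z G v y - Mt3.av z G v Y) ^ 2
        apply sum_le_sum_of_subset_of_nonneg (filter_subset _ _)
        intro v _ _
        positivity
      have h6 : L ^ (2 * k + 1) / y ≤ 1 / L ^ (4 * A + k + 5) := by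
        rw [div_le_div_iff₀ hy0 (by positivity), one_mul, ← pow_add]
        refine le_trans (le_of_eq ?_) hy1
        congr 1
        omega
      have h7 : (Fl.card : ℝ) * (1 / (4 * L ^ A)) ^ 2 ≤
          vq Q R * (2 * (1 / L ^ (4 * A + k + 5))) := by
        refine h3.trans (mul_le_mul_of_nonneg_left ?_ (by positivity))
        linarith
      have h5 : (0 : ℝ) < (1 / (4 * L ^ A)) ^ 2 := by positivity
      rw [← le_div_iff₀ h5] at h7
      refine h7.trans (le_of_eq ?_)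
      field_simp
      ring
    have h3 : (Bad.card : ℝ) ≤ ∑ y ∈ Gr,
        (((Bq Q R).filter (fun v => 1 / (4 * L ^ A) < |Mt3.av z G v y - Mt3.av z G v Y|)).card : ℝ) := by
      have h4 := (card_le_card h1).trans card_biUnion_le
      exact_mod_cast h4
    refine h3.trans ((sum_le_sum h2).trans ?_)
    rw [sum_const, nsmul_eq_mul]
    have h5 : (0 : ℝ) ≤ vq Q R * (32 * L ^ (2 * A) / L ^ (4 * A + k + 5)) := by positivity
    refine (mul_le_mul_of_nonneg_right hGcard h5).trans ?_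
    have e1 : 3 * L ^ (a + 1) * (vq Q R * (32 * L ^ (2 * A) / L ^ (4 * A + k + 5))) =
        vq Q R / L ^ A * (96 / L) := by
      have e2 : L ^ (4 * A + k + 5) = L ^ (a + 1) * L ^ (2 * A) * L ^ A * L := by
        rw [← pow_add, ← pow_add, ← pow_succ]
        congr 1
        omega
      rw [e2]
      field_simp
      ring
    rw [e1]
    have h6 : 96 / L ≤ 1 := by rw [div_le_one hL0]; exact hL96
    have h7 : (0 : ℝ) ≤ vq Q R / L ^ A := by positivity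
    calc vq Q R / L ^ A * (96 / L) ≤ vq Q R / L ^ A * 1 :=
          mul_le_mul_of_nonneg_left h6 h7
      _ = _ := mul_one _
  · intro v hv hvB y hyL
    have hy0 : (0 : ℝ) < y := lt_of_lt_of_le (pow_pos hL0 _) hyL
    have hy1 : 1 ≤ y := by exact_mod_cast hy0
    have hLA : (0 : ℝ) < L ^ A := pow_pos hL0 _
    have hL2 : (96 : ℝ) ≤ L ^ 2 := by nlinarith
    have hsmall : ∀ x : ℝ, 0 ≤ x → x / L ^ (A + 2) ≤ x / L ^ A * (1 / 8) := by
      intro x hx
      rw [pow_add, div_mul_div_comm, mul_one]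
      apply div_le_div_of_nonneg_left hx (by positivity)
      exact mul_le_mul_of_nonneg_left (by linarith) hLA.le
    have hyLA : (0 : ℝ) ≤ y / L ^ A := by positivity
    rcases le_or_gt (Real.exp (Real.sqrt L)) (y : ℝ) with hcase | hcase
    · refine (hlong v y hcase).trans ((hsmall _ hy0.le).trans ?_)
      linarith
    -- now `y < Y`
    have hyH : y ≤ H := by exact_mod_cast (hcase.le.trans hexpH)
    have hyY : y ≤ Y := by
      have : (y : ℝ) ≤ Y := hcase.le.trans (Nat.le_ceil _)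
      exact_mod_cast this
    obtain ⟨j, hj1, hj2, hj3⟩ := Pool.Agent.helper24_UT.All.grid hδ hδ1 hy1 hyH
    set y' := ⌊(1 + δ) ^ j⌋₊ with hy'
    have hj2' : (y' : ℝ) ≤ y := by exact_mod_cast hj2
    have hLB2 : L ^ B₀ * 96 ≤ (y : ℝ) := by
      refine le_trans ?_ hyL
      have e : L ^ (4 * A + 4 * k + 20) = L ^ B₀ * L ^ (k + 14) := by
        rw [← pow_add]; congr 1; omega
      rw [e]
      exact mul_le_mul_of_nonneg_left (hL96.trans (le_self_pow₀ hL1 (by omega))) (by positivity)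
    have hB0 : (1 : ℝ) ≤ L ^ B₀ := one_le_pow₀ hL1
    have hδ2 : δ ≤ 1 / 96 := by
      rw [hδdef]
      apply one_div_le_one_div_of_le (by norm_num)
      exact hL96.trans (le_self_pow₀ hL1 (by omega))
    have hy'B : L ^ B₀ ≤ (y' : ℝ) := by
      have h2 : δ * y ≤ 1 / 96 * y := mul_le_mul_of_nonneg_right hδ2 hy0.le
      linarith
    have hy'0 : (0 : ℝ) < y' := lt_of_lt_of_le (pow_pos hL0 _) hy'B
    have hy'G : y' ∈ Gr := by
      rw [hGr, mem_filter]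
      refine ⟨mem_image.2 ⟨j, ?_, rfl⟩, hy'B, hj2.trans hyY⟩
      rw [mem_range]
      exact Nat.lt_succ_of_le (Nat.le_floor hj1)
    have hS' : |Mt3.av z G v y' - Mt3.av z G v Y| ≤ 1 / (4 * L ^ A) := by
      by_contra hcon
      push Not at hcon
      exact hvB (mem_filter.2 ⟨hv, y', hy'G, hcon⟩)
    -- the long average
    have hYavg : |Mt3.av z G v Y - sg z (pl G v)| ≤ 1 / L ^ A * (1 / 8) := by
      have h1 := hlong v Y (Nat.le_ceil _)
      have h2 : Mt3.av z G v Y - sg z (pl G v) = (∑ n ∈ Icc 1 Y, XX z G v n - Y * sg z (pl G v)) / Y := by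
        unfold Mt3.av
        field_simp
      rw [h2, abs_div, abs_of_pos hY0', div_le_iff₀ hY0']
      refine h1.trans ((hsmall _ hY0'.le).trans (le_of_eq ?_))
      ring
    have hy'avg : |∑ n ∈ Icc 1 y', XX z G v n - y' * sg z (pl G v)| ≤ y / L ^ A * (3 / 8) := by
      have h1 : |Mt3.av z G v y' - sg z (pl G v)| ≤ 1 / L ^ A * (3 / 8) := by
        have h2 : Mt3.av z G v y' - sg z (pl G v) =
            (Mt3.av z G v y' - Mt3.av z G v Y) + (Mt3.av z G v Y - sg z (pl G v)) := by ring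
        rw [h2]
        refine (abs_add_le _ _).trans ((add_le_add hS' hYavg).trans (le_of_eq ?_))
        field_simp
        ring
      have h3 : ∑ n ∈ Icc 1 y', XX z G v n - y' * sg z (pl G v) = y' * (Mt3.av z G v y' - sg z (pl G v)) := by
        unfold Mt3.av
        field_simp
      rw [h3, abs_mul, abs_of_pos hy'0]
      calc (y' : ℝ) * |Mt3.av z G v y' - sg z (pl G v)| ≤ y * (1 / L ^ A * (3 / 8)) :=
            mul_le_mul hj2' h1 (abs_nonneg _) hy0.le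
        _ = _ := by ring
    have hsplit : ∑ n ∈ Icc 1 y, XX z G v n = ∑ n ∈ Icc 1 y', XX z G v n + ∑ n ∈ Ioc y' y, XX z G v n := by
      rw [← sum_union]
      · congr 1
        ext n
        simp only [mem_Icc, mem_union, mem_Ioc]
        omega
      · rw [disjoint_left]
        intro n h1 h2
        rw [mem_Icc] at h1
        rw [mem_Ioc] at h2
        omega
    have hLk : (0 : ℝ) < L ^ k := pow_pos hL0 _
    have hrest0 : 0 ≤ ∑ n ∈ Ioc y' y, XX z G v n := sum_nonneg fun n _ => Mt3.XX_nonneg _ _ _ _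
    have hrest1 : ∑ n ∈ Ioc y' y, XX z G v n ≤ ((y : ℝ) - y') * L ^ k := by
      refine (sum_le_sum fun n _ => Mt3.XX_le z hV G v n).trans (le_of_eq ?_)
      rw [sum_const, Nat.card_Ioc, nsmul_eq_mul, Nat.cast_sub hj2]
    have hsg0 : 0 ≤ ((y : ℝ) - y') * sg z (pl G v) := mul_nonneg (by linarith) (Mt3.sg_nonneg _ _)
    have hsg1 : ((y : ℝ) - y') * sg z (pl G v) ≤ ((y : ℝ) - y') * L ^ k :=
      mul_le_mul_of_nonneg_left (Mt3.sg_le z hV _) (by linarith)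
    have hrest : |∑ n ∈ Ioc y' y, XX z G v n - ((y : ℝ) - y') * sg z (pl G v)| ≤ ((y : ℝ) - y') * L ^ k := by
      rw [abs_le]
      constructor <;> linarith
    have f1 : ((y : ℝ) - y') * L ^ k ≤ (δ * y + 2) * L ^ k :=
      mul_le_mul_of_nonneg_right (by linarith) hLk.le
    have f2 : δ * L ^ k = 1 / (L ^ A * L ^ 3) := by
      rw [hδdef, ha, ← pow_add, div_mul_eq_mul_div, one_mul, div_eq_div_iff (by positivity) (by positivity),
        one_mul, ← pow_add]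
      congr 1
      omega
    have f3 : 2 * L ^ k ≤ y / (L ^ A * L ^ 3) := by
      rw [le_div_iff₀ (by positivity)]
      refine le_trans ?_ hyL
      have : L ^ (4 * A + 4 * k + 20) = L ^ (3 * A + 3 * k + 15) * (L ^ k * (L ^ A * L ^ 3)) * L ^ 2 := by
        rw [← pow_add, ← pow_add, ← pow_add, ← pow_add]; congr 1; omega
      rw [this]
      have g0 : (1 : ℝ) ≤ L ^ (3 * A + 3 * k + 15) := one_le_pow₀ hL1
      have g1 : (2 : ℝ) ≤ L ^ 2 := by linarith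
      have g2 : (0 : ℝ) < L ^ k * (L ^ A * L ^ 3) := by positivity
      calc 2 * L ^ k * (L ^ A * L ^ 3) = 1 * (L ^ k * (L ^ A * L ^ 3)) * 2 := by ring
        _ ≤ L ^ (3 * A + 3 * k + 15) * (L ^ k * (L ^ A * L ^ 3)) * L ^ 2 :=
          mul_le_mul (mul_le_mul_of_nonneg_right g0 g2.le) g1 (by norm_num) (by positivity)
    have f4 : (δ * y + 2) * L ^ k ≤ 2 * (y / (L ^ A * L ^ 3)) := by
      have e1 : (δ * y + 2) * L ^ k = (δ * L ^ k) * y + 2 * L ^ k := by ring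
      rw [e1, f2]
      have e2 : 1 / (L ^ A * L ^ 3) * (y : ℝ) = y / (L ^ A * L ^ 3) := by ring
      rw [e2]
      linarith
    have f6 : 2 * ((y : ℝ) / (L ^ A * L ^ 3)) ≤ y / L ^ A * (1 / 2) := by
      have : 2 * ((y : ℝ) / (L ^ A * L ^ 3)) = y / L ^ A * (2 / L ^ 3) := by
        field_simp
      rw [this]
      apply mul_le_mul_of_nonneg_left _ hyLA
      rw [div_le_div_iff₀ (by positivity) (by norm_num)]
      have : (96 : ℝ) ≤ L ^ 3 := hL96.trans (le_self_pow₀ hL1 (by omega))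
      linarith
    have hfin : ∑ n ∈ Icc 1 y, XX z G v n - y * sg z (pl G v) =
        (∑ n ∈ Icc 1 y', XX z G v n - y' * sg z (pl G v)) +
        (∑ n ∈ Ioc y' y, XX z G v n - ((y : ℝ) - y') * sg z (pl G v)) := by
      rw [hsplit]; ring
    rw [hfin]
    refine (abs_add_le _ _).trans ((add_le_add hy'avg hrest).trans ?_)
    linarith

theorem main : S_MT5 := by
  intro k e A he
  obtain ⟨B, hB⟩ := mt35 k 0 e A he
  refine ⟨B, fun E => ?_⟩
  obtain ⟨H₀, h⟩ := hB E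
  exact ⟨H₀, fun H hH Q R hQR z hz hzE => h H hH Q R hQR z hz hzE (fun _ => 0) (fun _ => by simp)⟩

end Pool.Agent.helper24_UT.Mt5
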