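import Pool.Agent.helper24_UT.Stm15
import Pool.Agent.helper24_UT.Mtl

set_option autoImplicit false

namespace Pool.Agent.helper24_UT.Mtf

open Finset Polynomial
open Pool.Agent.helper24_UT
open Pool.Agent.H373R2.T7 (lamI lamzI lamz Vz pz lamP)
open Pool.Agent.H807R2.Dav (ee)
open Pool.Agent.H373R2.T7 (mem_pz Vz_pos Vz_inv_small)

/-- the shifted polynomials -/
noncomputable def FS {k : ℕ} (F : Fin k → ℤ[X]) (T : ℤ) (i : Fin k) : ℤ[X] := (F i).comp (X + C T)

lemma FS_eval {k : ℕ} (F : Fin k → ℤ[X]) (T : ℤ) (i : Fin k) (n : ℤ) :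
    (FS F T i).eval n = (F i).eval (n + T) := by
  unfold FS
  simp

lemma dvd_eval_congr (P : ℤ[X]) (p : ℕ) (a b : ℤ) (h : a ≡ b [ZMOD p]) :
    (p : ℤ) ∣ P.eval a ↔ (p : ℤ) ∣ P.eval b := by
  apply dvd_iff_dvd_of_dvd_sub
  refine dvd_trans ?_ (Polynomial.sub_dvd_eval_sub a b P)
  have := (Int.modEq_iff_dvd).1 h
  rw [← dvd_neg]
  simpa using this

lemma om_shift {k : ℕ} (F : Fin k → ℤ[X]) (T : ℤ) (p : ℕ) (hp : 0 < p) :
    om (FS F T) p = om F p := by
  classical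
  unfold om
  simp only [FS_eval]
  obtain ⟨m, hm⟩ : ∃ m : ℕ, (m : ℤ) ≡ T [ZMOD p] := by
    refine ⟨(T % p).toNat, ?_⟩
    have h0 : 0 ≤ T % p := Int.emod_nonneg _ (by exact_mod_cast hp.ne')
    rw [Int.toNat_of_nonneg h0]
    exact Int.mod_modEq _ _
  set Q : ℕ → Prop := fun t => ∃ i, (p : ℤ) ∣ (F i).eval (t : ℤ) with hQ
  have hper : Function.Periodic Q p := by
    intro t
    apply propext
    simp only [hQ]
    apply exists_congr
    intro i
    apply dvd_eval_congr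
    push_cast
    exact Int.add_modEq_right
  have h1 : ∀ t : ℕ, (∃ i, (p : ℤ) ∣ (F i).eval ((t : ℤ) + T)) ↔ Q (t + m) := by
    intro t
    simp only [hQ]
    apply exists_congr
    intro i
    apply dvd_eval_congr
    push_cast
    exact (Int.ModEq.refl _).add hm.symm
  have h2 : (range p).filter (fun t : ℕ => ∃ i, (p : ℤ) ∣ (F i).eval ((t : ℤ) + T)) =
      (range p).filter (fun t : ℕ => Q (t + m)) := by
    apply filter_congr
    intro t _
    exact h1 t
  rw [h2]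
  have h3 : ((range p).filter (fun t : ℕ => Q (t + m))).card = ((Ico m (m + p)).filter Q).card := by
    apply card_bij (fun t _ => t + m)
    · intro t ht
      rw [mem_filter, mem_range] at ht
      rw [mem_filter, mem_Ico]
      exact ⟨⟨by omega, by omega⟩, ht.2⟩
    · intro a _ b _ h
      omega
    · intro b hb
      rw [mem_filter, mem_Ico] at hb
      refine ⟨b - m, ?_, by omega⟩
      rw [mem_filter, mem_range]
      refine ⟨by omega, ?_⟩
      rw [Nat.sub_add_cancel hb.1.1]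
      exact hb.2
  rw [h3, Nat.filter_Ico_card_eq_of_periodic m p Q hper, Nat.count_eq_card_filter_range]

lemma sg_shift {k : ℕ} (z : ℕ) (F : Fin k → ℤ[X]) (T : ℤ) : sg z (FS F T) = sg z F := by
  unfold sg
  apply prod_congr rfl
  intro p hp
  rw [om_shift F T p (mem_pz.1 hp).2.pos]

lemma om_le {k : ℕ} (F : Fin k → ℤ[X]) (p : ℕ) : om F p ≤ p := by
  classical
  unfold om
  exact (card_filter_le _ _).trans (by simp)

lemma sg_nonneg {k : ℕ} (z : ℕ) (F : Fin k → ℤ[X]) : 0 ≤ sg z F := by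
  unfold sg
  apply prod_nonneg
  intro p hp
  have hp2 : (2 : ℝ) ≤ p := by exact_mod_cast (mem_pz.1 hp).2.two_le
  have h1 : (om F p : ℝ) ≤ p := by exact_mod_cast om_le F p
  have h2 : (0 : ℝ) ≤ 1 - (om F p : ℝ) / p := by
    rw [sub_nonneg, div_le_one (by linarith)]; exact h1
  have h3 : (0 : ℝ) ≤ 1 - 1 / (p : ℝ) := by
    rw [sub_nonneg, div_le_one (by linarith)]; linarith
  positivity

lemma sg_le {k : ℕ} (z : ℕ) (F : Fin k → ℤ[X]) : sg z F ≤ ((Vz z)⁻¹) ^ k := by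
  rw [Mtl.sg_eq]
  have hV : 0 ≤ ((Vz z)⁻¹) ^ k := pow_nonneg (inv_nonneg.2 (Vz_pos z).le) k
  have h1 : ∏ p ∈ pz z, (1 - (Pool.Agent.H373R2.T7.nuB (Mtl.QQ z F) p : ℝ) / p) ≤ 1 := by
    apply prod_le_one
    · intro p hp
      have hp2 : (2 : ℝ) ≤ p := by exact_mod_cast (mem_pz.1 hp).2.two_le
      rw [sub_nonneg, div_le_one (by linarith)]
      exact_mod_cast Pool.Agent.H373R2.T7.nuB_le _ p
    · intro p hp
      have : (0 : ℝ) ≤ (Pool.Agent.H373R2.T7.nuB (Mtl.QQ z F) p : ℝ) / p := by positivity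
      linarith
  calc _ ≤ ((Vz z)⁻¹) ^ k * 1 := mul_le_mul_of_nonneg_left h1 hV
    _ = _ := mul_one _

lemma lz_bd (z : ℕ) (m : ℤ) : 0 ≤ lz z m ∧ lz z m ≤ (Vz z)⁻¹ := by
  have hV : 0 ≤ (Vz z)⁻¹ := inv_nonneg.2 (Vz_pos z).le
  unfold lz
  split_ifs
  · exact ⟨hV, le_rfl⟩
  · exact ⟨le_rfl, hV⟩

/-- trivial bound -/
lemma triv {k : ℕ} (z y : ℕ) (F : Fin k → ℤ[X]) :
    |∑ n ∈ Icc 1 y, ∏ i, lz z ((F i).eval (n : ℤ)) - y * sg z F| ≤ y * ((Vz z)⁻¹) ^ k := by
  have h0 : 0 ≤ ∑ n ∈ Icc 1 y, ∏ i, lz z ((F i).eval (n : ℤ)) :=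
    sum_nonneg fun n _ => prod_nonneg fun i _ => (lz_bd z _).1
  have h1 : ∑ n ∈ Icc 1 y, ∏ i, lz z ((F i).eval (n : ℤ)) ≤ y * ((Vz z)⁻¹) ^ k := by
    calc _ ≤ ∑ _n ∈ Icc 1 y, ((Vz z)⁻¹) ^ k := by
          apply sum_le_sum
          intro n _
          calc _ ≤ ∏ _i : Fin k, (Vz z)⁻¹ := prod_le_prod (fun i _ => (lz_bd z _).1) (fun i _ => (lz_bd z _).2)
            _ = _ := by simp
      _ = _ := by simp
  have hy : (0 : ℝ) ≤ y := Nat.cast_nonneg _
  have h2 : 0 ≤ (y : ℝ) * sg z F := mul_nonneg hy (sg_nonneg z F)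
  have h3 : (y : ℝ) * sg z F ≤ y * ((Vz z)⁻¹) ^ k := mul_le_mul_of_nonneg_left (sg_le z F) hy
  rw [abs_le]
  constructor <;> linarith

lemma ev (A : ℕ) : ∃ N₀ : ℕ, ∀ N : ℕ, N₀ ≤ N → 1 ≤ Real.log N ∧
    Real.exp (Real.sqrt (Real.log N)) * Real.log N ^ 2 ≤ N / Real.log N ^ A := by
  have hlim : Filter.Tendsto (fun N : ℕ => Real.log (N : ℝ)) Filter.atTop Filter.atTop :=
    Real.tendsto_log_atTop.comp (tendsto_natCast_atTop_atTop (R := ℝ))
  have hl2 : Filter.Tendsto (fun N : ℕ => Real.log (N : ℝ) / 2) Filter.atTop Filter.atTop :=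
    hlim.atTop_div_const (by norm_num)
  have h1 : ∀ᶠ x : ℝ in Filter.atTop, x ^ (A + 2) ≤ Real.exp (x / 2) := by
    have := (isLittleO_pow_exp_pos_mul_atTop (A + 2) (show (0 : ℝ) < 1 / 2 by norm_num)).bound (show (0 : ℝ) < 1 by norm_num)
    filter_upwards [this, Filter.eventually_ge_atTop 0] with x hx hx0
    rw [one_mul, Real.norm_of_nonneg (by positivity), Real.norm_of_nonneg (by positivity)] at hx
    refine hx.trans_eq ?_
    congr 1; ring
  have h2 := hlim.eventually h1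
  obtain ⟨N₀, h⟩ := Filter.eventually_atTop.1 ((hlim.eventually_ge_atTop 4).and h2)
  refine ⟨max N₀ 1, fun N hN => ?_⟩
  obtain ⟨a1, a2⟩ := h N (le_trans (le_max_left _ _) hN)
  have hN1 : (0 : ℝ) < N := by
    have : 1 ≤ N := le_trans (le_max_right _ _) hN
    exact_mod_cast this
  set L := Real.log N with hL
  have hL0 : 0 < L := by linarith
  refine ⟨by linarith, ?_⟩
  rw [le_div_iff₀ (by positivity)]
  have h3 : Real.sqrt L ≤ L / 2 := by
    rw [Real.sqrt_le_left (by linarith)]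
    nlinarith
  calc Real.exp (Real.sqrt L) * L ^ 2 * L ^ A = Real.exp (Real.sqrt L) * L ^ (A + 2) := by
        rw [pow_add]; ring
    _ ≤ Real.exp (L / 2) * Real.exp (L / 2) := by
        apply mul_le_mul (Real.exp_le_exp.2 h3) a2 (by positivity) (by positivity)
    _ = Real.exp L := by rw [← Real.exp_add]; congr 1; ring
    _ = N := by rw [hL, Real.exp_log hN1]

theorem main : S_MTF := by
  classical
  intro E A
  obtain ⟨H0, h0⟩ := Mtl.main 2 1 E A
  obtain ⟨H1, h1⟩ := Vz_inv_small E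
  obtain ⟨H2, h2⟩ := ev A
  refine ⟨max H0 (max H1 H2), fun N hN z hz hzE a b p₀ q₀ ha hb T₁ T₂ hT hTN => ?_⟩
  have k0 := h0 N (le_trans (le_max_left _ _) hN) z hz hzE
  have k1 := h1 N (le_trans (le_trans (le_max_left _ _) (le_max_right _ _)) hN) z hz hzE
  obtain ⟨hL1, k2⟩ := h2 N (le_trans (le_trans (le_max_right _ _) (le_max_right _ _)) hN)
  set F : Fin 2 → ℤ[X] := pl (fun _ : Fin 2 => 0) ![(b, p₀), (a, q₀)] with hF
  obtain ⟨y, hy⟩ : ∃ y : ℕ, T₂ - T₁ = y := ⟨(T₂ - T₁).toNat, by omega⟩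
  have hyN : y ≤ N := by
    have : (y : ℤ) ≤ N := by rw [← hy]; exact hTN
    exact_mod_cast this
  have hF0 : ∀ t : ℤ, (F 0).eval t = (b : ℤ) * t + p₀ := by
    intro t
    rw [hF]; unfold pl
    simp
  have hF1 : ∀ t : ℤ, (F 1).eval t = (a : ℤ) * t + q₀ := by
    intro t
    rw [hF]; unfold pl
    simp
  have hdeg : ∀ i, (FS F T₁ i).natDegree ≤ 1 := by
    intro i
    unfold FS
    have e1 : (F i).natDegree ≤ 1 := by
      rw [hF]; unfold pl
      simp only [zero_add]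
      exact Polynomial.natDegree_linear_le
    have e2 : (X + C T₁ : ℤ[X]).natDegree ≤ 1 := Polynomial.natDegree_X_add_C T₁ |>.le
    calc ((F i).comp (X + C T₁)).natDegree ≤ (F i).natDegree * (X + C T₁ : ℤ[X]).natDegree :=
          Polynomial.natDegree_comp_le
      _ ≤ 1 * 1 := Nat.mul_le_mul e1 e2
      _ = 1 := rfl
  have hsum : ∑ t ∈ Ioc T₁ T₂, lz z ((a : ℤ) * t + q₀) * lz z ((b : ℤ) * t + p₀) =
      ∑ n ∈ Icc 1 y, ∏ i, lz z ((FS F T₁ i).eval (n : ℤ)) := by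
    symm
    apply sum_bij (fun (n : ℕ) _ => (n : ℤ) + T₁)
    · intro n hn
      rw [mem_Icc] at hn
      rw [mem_Ioc]
      constructor <;> omega
    · intro m _ n _ h
      omega
    · intro t ht
      rw [mem_Ioc] at ht
      refine ⟨(t - T₁).toNat, ?_, ?_⟩
      · rw [mem_Icc]
        constructor <;> omega
      · omega
    · intro n _
      rw [Fin.prod_univ_two, FS_eval, FS_eval, hF0, hF1, mul_comm]
  rw [hsum, hy, ← sg_shift z F T₁]
  have hNL : (0 : ℝ) < Real.log N ^ A := by positivity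
  rcases le_total (Real.exp (Real.sqrt (Real.log N))) (y : ℝ) with hc | hc
  · have := k0 (FS F T₁) hdeg y hc
    push_cast
    refine this.trans ?_
    apply div_le_div_of_nonneg_right _ hNL.le
    exact_mod_cast hyN
  · push_cast
    refine (triv z y (FS F T₁)).trans ?_
    refine le_trans ?_ k2
    apply mul_le_mul hc _ (pow_nonneg (inv_nonneg.2 (Vz_pos z).le) 2) (Real.exp_pos _).le
    exact pow_le_pow_left₀ (inv_nonneg.2 (Vz_pos z).le) k1 2

end Pool.Agent.helper24_UT.Mtf
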