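import Pool.Agent.helper24_UT.Stm9
import Pool.Agent.H373R2.T7.SysMain2
import Pool.Agent.H373R2.T7.LamZ2

set_option autoImplicit false

namespace Pool.Agent.helper24_UT.Mtp

open Finset Polynomial
open Pool.Agent.helper24_UT
open Pool.Agent.H376R2.MR (ch er DP FK)
open Pool.Agent.H373R2.T7 (Vz pz mem_pz Vz_pos Vz_inv_small sys_main PerA rhoA)

/-- a polynomial which does not vanish modulo `p` has few zeros modulo `p` -/
theorem roots_card {p : ℕ} (hp : p.Prime) (f : ℤ[X]) {r : ℕ} (hdeg : f.natDegree ≤ r)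
    (hf : ∃ j, ¬ (p : ℤ) ∣ f.coeff j) (S : Finset ℕ) (hS : ∀ t ∈ S, t < p ∧ (p : ℤ) ∣ f.eval (t : ℤ)) :
    S.card ≤ r := by
  have : Fact p.Prime := ⟨hp⟩
  set g : (ZMod p)[X] := f.map (Int.castRingHom (ZMod p)) with hg
  have hg0 : g ≠ 0 := by
    obtain ⟨j, hj⟩ := hf
    intro h
    apply hj
    have h1 : g.coeff j = 0 := by rw [h, coeff_zero]
    rw [hg, coeff_map] at h1
    rw [← ZMod.intCast_zmod_eq_zero_iff_dvd]
    simpa using h1
  classical
  have h2 : S.card ≤ g.roots.toFinset.card := by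
    apply card_le_card_of_injOn (fun t : ℕ => (t : ZMod p))
    · intro t ht
      have h3 := (hS t ht).2
      rw [mem_coe, Multiset.mem_toFinset, mem_roots hg0, IsRoot.def, hg]
      have h4 : (t : ZMod p) = Int.castRingHom (ZMod p) (t : ℤ) := by simp
      change eval (t : ZMod p) _ = 0
      rw [h4, eval_map, eval₂_at_apply]
      rw [← ZMod.intCast_zmod_eq_zero_iff_dvd] at h3
      simpa using h3
    · intro a ha b hb hab
      have h3 : (a : ZMod p) = (b : ZMod p) := hab
      rw [ZMod.natCast_eq_natCast_iff'] at h3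
      rwa [Nat.mod_eq_of_lt (hS a ha).1, Nat.mod_eq_of_lt (hS b hb).1] at h3
  refine h2.trans ((Multiset.toFinset_card_le _).trans ((card_roots' g).trans ?_))
  exact natDegree_map_le.trans hdeg

theorem main : S_MTP := by
  intro k r E A m hm
  obtain ⟨N0, hN0⟩ := sys_main (k * r + 1) (m * E) (m * (A + k)) (by omega)
  obtain ⟨N1, hN1⟩ := Vz_inv_small E
  refine ⟨⌈Real.exp ((N0 : ℝ) ^ m + 1)⌉₊ + N1 + 3, fun H hH z hz hzE F hF y hy => ?_⟩
  classical
  set L := Real.log H with hL
  have hHpos : (0 : ℝ) < H := by exact_mod_cast (by omega : 0 < H)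
  have hLbig : (N0 : ℝ) ^ m + 1 ≤ L := by
    rw [hL, Real.le_log_iff_exp_le hHpos]
    refine (Nat.le_ceil _).trans ?_
    exact_mod_cast (by omega : ⌈Real.exp ((N0 : ℝ) ^ m + 1)⌉₊ ≤ H)
  have hN0m : (0 : ℝ) ≤ (N0 : ℝ) ^ m := by positivity
  have hL1 : 1 ≤ L := by linarith
  have hL0 : 0 < L := by linarith
  have hm0 : m ≠ 0 := by omega
  have hroot : (L ^ (1 / m : ℝ)) ^ m = L := by
    rw [one_div]; exact Real.rpow_inv_natCast_pow hL0.le hm0
  have hroot0 : 0 ≤ L ^ (1 / m : ℝ) := Real.rpow_nonneg hL0.le _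
  have hrootN : (N0 : ℝ) ≤ L ^ (1 / m : ℝ) := by
    by_contra hcon
    push Not at hcon
    have h1 := pow_lt_pow_left₀ hcon hroot0 hm0
    rw [hroot] at h1
    linarith
  have hy0 : (0 : ℝ) < y := lt_of_lt_of_le (Real.exp_pos _) hy
  have hyN0 : N0 ≤ y := by
    have h1 : (N0 : ℝ) ≤ y := by
      refine hrootN.trans (le_trans ?_ hy)
      have := Real.add_one_le_exp (L ^ (1 / m : ℝ))
      linarith
    exact_mod_cast h1
  have hlogy : L ^ (1 / m : ℝ) ≤ Real.log y := by
    rw [Real.le_log_iff_exp_le hy0]; exact hy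
  have hlogy0 : 0 ≤ Real.log y := hroot0.trans hlogy
  have hLy : L ≤ Real.log y ^ m := by
    calc L = (L ^ (1 / m : ℝ)) ^ m := hroot.symm
      _ ≤ Real.log y ^ m := pow_le_pow_left₀ hroot0 hlogy m
  have hzy : (z : ℝ) ≤ Real.log y ^ (m * E) := by
    refine hzE.trans ?_
    rw [pow_mul]
    exact pow_le_pow_left₀ hL0.le hLy E
  have hV := hN1 H (by omega) z hz hzE
  have hVpos : 0 < (Vz z)⁻¹ := inv_pos.2 (Vz_pos z)
  by_cases hbad : ∃ p ∈ pz z, ∃ i, ∀ j, (p : ℤ) ∣ (F i).coeff j
  · obtain ⟨p, hp, i, hij⟩ := hbad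
    have hdiv : ∀ x : ℤ, (p : ℤ) ∣ (F i).eval x := by
      intro x
      rw [eval_eq_sum_range]
      exact dvd_sum fun j _ => (hij j).mul_right _
    have h1 : ∀ n ∈ Icc 1 y, ArithmeticFunction.vonMangoldt n * ∏ i, lz z ((F i).eval (n : ℤ)) = 0 := by
      intro n _
      have h2 : ∏ i, lz z ((F i).eval (n : ℤ)) = 0 := by
        apply prod_eq_zero (mem_univ i)
        unfold lz
        rw [if_neg]
        intro h
        exact h p hp (hdiv _)
      rw [h2, mul_zero]
    have hpp := (mem_pz.1 hp).2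
    have h3 : sgp z F = 0 := by
      unfold sgp
      apply prod_eq_zero hp
      have h4 : omp F p = p - 1 := by
        unfold omp
        have h5 : ((range p).filter (fun t : ℕ => ¬ p ∣ t ∧ ∃ i, (p : ℤ) ∣ (F i).eval (t : ℤ))) = Ico 1 p := by
          ext t
          rw [mem_filter, mem_range, mem_Ico]
          constructor
          · rintro ⟨h6, h7, _⟩
            refine ⟨?_, h6⟩
            rcases Nat.eq_zero_or_pos t with h8 | h8
            · exact absurd (h8 ▸ dvd_zero p) h7
            · exact h8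
          · rintro ⟨h6, h7⟩
            exact ⟨h7, Nat.not_dvd_of_pos_of_lt h6 h7, i, hdiv _⟩
        convert congrArg Finset.card h5 using 1
        simp
      have hp2 : (2 : ℝ) ≤ p := by exact_mod_cast hpp.two_le
      have h6 : ((p - 1 : ℕ) : ℝ) = (p : ℝ) - 1 := by
        rw [Nat.cast_sub hpp.one_le]; norm_num
      have h7 : (p : ℝ) - 1 ≠ 0 := by
        intro h; linarith
      rw [h4, h6, div_self h7, sub_self, zero_div]
    rw [sum_eq_zero h1, h3, mul_zero, sub_zero, abs_zero]
    positivity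
  · push Not at hbad
    set Q : ℕ → ℕ → Prop := fun p n => p ≤ z ∧ ∃ i, (p : ℤ) ∣ (F i).eval (n : ℤ) with hQ
    have hper : ∀ p n, Q p n ↔ Q p (n % p) := by
      intro p n
      simp only [hQ]
      apply and_congr Iff.rfl
      apply exists_congr
      intro i
      have h1 : (p : ℤ) ∣ (F i).eval (n : ℤ) - (F i).eval ((n % p : ℕ) : ℤ) := by
        refine dvd_trans ?_ (sub_dvd_eval_sub _ _ _)
        refine ⟨((n / p : ℕ) : ℤ), ?_⟩
        have h2 : ((n % p + p * (n / p) : ℕ) : ℤ) = n := by rw [Nat.mod_add_div]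
        push_cast at h2 ⊢
        linarith
      exact (dvd_iff_dvd_of_dvd_sub h1)
    have hfew : ∀ p, p.Prime → rhoA Q p ≤ k * r + 1 := by
      intro p hp
      unfold rhoA
      rcases le_or_gt p z with hpz | hpz
      · have hmem : p ∈ pz z := mem_pz.2 ⟨hpz, hp⟩
        have h1 : (range p).filter (fun t => ¬ p ∣ t ∧ Q p t) ⊆
            (univ : Finset (Fin k)).biUnion (fun i => (range p).filter (fun t : ℕ => (p : ℤ) ∣ (F i).eval (t : ℤ))) := by
          intro t ht
          rw [mem_filter] at ht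
          obtain ⟨h2, _, _, i, h3⟩ := ht
          rw [mem_biUnion]
          exact ⟨i, mem_univ i, mem_filter.2 ⟨h2, h3⟩⟩
        have h2 : ((range p).filter (fun t => ¬ p ∣ t ∧ Q p t)).card ≤ k * r := by
          refine (card_le_card h1).trans (card_biUnion_le.trans ?_)
          calc ∑ i : Fin k, ((range p).filter (fun t : ℕ => (p : ℤ) ∣ (F i).eval (t : ℤ))).card
              ≤ ∑ _i : Fin k, r := by
                apply sum_le_sum
                intro i _
                apply roots_card hp (F i) (hF i) (hbad p hmem i)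
                intro t ht
                rw [mem_filter, mem_range] at ht
                exact ht
            _ = k * r := by rw [sum_const, card_univ, Fintype.card_fin, smul_eq_mul]
        have h3 : ((range p).filter (fun t => ¬ p ∣ t ∧ Q p t)).card ≤ k * r + 1 := by omega
        convert h3
      · have h1 : (range p).filter (fun t => ¬ p ∣ t ∧ Q p t) = ∅ := by
          apply filter_false_of_mem
          rintro t _ ⟨_, h2, _⟩
          omega
        have h3 : ((range p).filter (fun t => ¬ p ∣ t ∧ Q p t)).card ≤ k * r + 1 := by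
          rw [h1, card_empty]; omega
        convert h3
    have hmain := hN0 y hyN0 z hz hzy Q ⟨hper, hfew⟩
    set P1 : ℝ := ∏ p ∈ pz z, (1 - (rhoA Q p : ℝ) / (p - 1 : ℝ)) with hP1
    have hsgp : sgp z F = P1 * ((Vz z)⁻¹) ^ k := by
      unfold sgp Vz
      rw [hP1, ← prod_inv_distrib, ← prod_pow, ← prod_mul_distrib]
      apply prod_congr rfl
      intro p hp
      have h1 : omp F p = rhoA Q p := by
        unfold omp rhoA
        congr 1
        apply Finset.ext
        intro t
        simp only [mem_filter, hQ]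
        constructor
        · rintro ⟨h2, h3, h4⟩
          exact ⟨h2, h3, (mem_pz.1 hp).1, h4⟩
        · rintro ⟨h2, h3, _, h4⟩
          exact ⟨h2, h3, h4⟩
      rw [h1, inv_pow, div_eq_mul_inv]
    have hprod : ∀ n : ℕ, ∏ i, lz z ((F i).eval (n : ℤ)) =
        if ∀ p ∈ pz z, ¬ Q p n then ((Vz z)⁻¹) ^ k else 0 := by
      intro n
      by_cases h : ∀ p ∈ pz z, ¬ Q p n
      · rw [if_pos h]
        have h1 : ∀ i, lz z ((F i).eval (n : ℤ)) = (Vz z)⁻¹ := by
          intro i
          unfold lz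
          rw [if_pos]
          intro p hp h2
          exact h p hp ⟨(mem_pz.1 hp).1, i, h2⟩
        rw [prod_congr rfl (fun i _ => h1 i), prod_const, card_univ, Fintype.card_fin]
      · rw [if_neg h]
        push Not at h
        obtain ⟨p, hp, _, i, h2⟩ := h
        apply prod_eq_zero (mem_univ i)
        unfold lz
        rw [if_neg]
        intro h3
        exact h3 p hp h2
    have hsum : ∑ n ∈ Icc 1 y, ArithmeticFunction.vonMangoldt n * ∏ i, lz z ((F i).eval (n : ℤ)) =
        ((Vz z)⁻¹) ^ k * ∑ n ∈ (Icc 1 y).filter (fun n : ℕ => ∀ p ∈ pz z, ¬ Q p n), ArithmeticFunction.vonMangoldt n := by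
      rw [mul_sum, sum_filter]
      apply sum_congr rfl
      intro n _
      rw [hprod n]
      split_ifs
      · ring
      · ring
    rw [hsum, hsgp]
    have e1 : ∀ W : ℝ, ((Vz z)⁻¹) ^ k * W - y * (P1 * ((Vz z)⁻¹) ^ k) = ((Vz z)⁻¹) ^ k * (W - y * P1) := by
      intro W; ring
    rw [e1, abs_mul, abs_of_nonneg (pow_nonneg hVpos.le k)]
    have hVk : ((Vz z)⁻¹) ^ k ≤ L ^ k := pow_le_pow_left₀ hVpos.le hV k
    have hU : L ^ (A + k) ≤ Real.log y ^ (m * (A + k)) := by
      rw [pow_mul]
      exact pow_le_pow_left₀ hL0.le hLy _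
    have herr : (y : ℝ) / Real.log y ^ (m * (A + k)) ≤ y / L ^ (A + k) :=
      div_le_div_of_nonneg_left hy0.le (by positivity) hU
    have hmain' : |∑ n ∈ (Icc 1 y).filter (fun n : ℕ => ∀ p ∈ pz z, ¬ Q p n), ArithmeticFunction.vonMangoldt n -
        y * P1| ≤ y / Real.log y ^ (m * (A + k)) := by
      convert hmain
    calc ((Vz z)⁻¹) ^ k * |∑ n ∈ (Icc 1 y).filter (fun n : ℕ => ∀ p ∈ pz z, ¬ Q p n),
          ArithmeticFunction.vonMangoldt n - y * P1| ≤ L ^ k * (y / L ^ (A + k)) :=
          mul_le_mul hVk (hmain'.trans herr) (abs_nonneg _) (by positivity)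
      _ = y / L ^ A := by
          rw [pow_add]
          field_simp

end Pool.Agent.helper24_UT.Mtp
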