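import Pool.Agent.helper24_UT.Stm13

set_option autoImplicit false

namespace Pool.Agent.helper24_UT.Pp4

open Finset Polynomial
open Pool.Agent.helper24_UT
open Pool.Agent.H373R2.T7 (lamI lamzI lamz Vz pz lamP)
open Pool.Agent.H807R2.Dav (ee)

lemma ne_imp (m : ℤ) (h : lamI m ≠ lamP m) : ∃ a q : ℕ, 2 ≤ a ∧ 2 ≤ q ∧ m = (q : ℤ) ^ a := by
  unfold lamI lamP at h
  by_cases hm : 1 ≤ m
  · obtain ⟨n, rfl⟩ : ∃ n : ℕ, m = (n : ℤ) := ⟨m.toNat, by omega⟩
    rw [if_pos hm, Int.toNat_natCast] at h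
    by_cases hp : n.Prime
    · rw [if_pos hp] at h
      exact absurd (ArithmeticFunction.vonMangoldt_apply_prime hp) h
    · rw [if_neg hp] at h
      rw [ArithmeticFunction.vonMangoldt_ne_zero_iff] at h
      rw [isPrimePow_nat_iff] at h
      obtain ⟨q, a, hq, ha, hqa⟩ := h
      refine ⟨a, q, ?_, hq.two_le, by exact_mod_cast hqa.symm⟩
      by_contra hlt
      have : a = 1 := by omega
      subst this
      rw [pow_one] at hqa
      exact hp (hqa ▸ hq)
  · rw [if_neg hm] at h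
    have : m.toNat = 0 := by omega
    rw [this] at h
    simp [Nat.not_prime_zero] at h

lemma card_pow (a H : ℕ) (s : ℤ) (ha : 2 ≤ a) :
    (open Classical in ((Icc 1 H).filter (fun c : ℕ => ∃ q : ℕ, s + c = (q : ℤ) ^ a)).card) ≤
      Nat.sqrt H + 1 := by
  classical
  set S := (Icc 1 H).filter (fun c : ℕ => ∃ q : ℕ, s + c = (q : ℤ) ^ a) with hS
  by_cases hne : S.Nonempty
  swap
  · rw [not_nonempty_iff_eq_empty] at hne
    rw [hne]; simp
  have hq : ∀ c : ℕ, ∃ q : ℕ, c ∈ S → s + c = (q : ℤ) ^ a := by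
    intro c
    by_cases hc : c ∈ S
    · have := (mem_filter.mp (hS ▸ hc)).2
      obtain ⟨q, hq⟩ := this
      exact ⟨q, fun _ => hq⟩
    · exact ⟨0, fun h => absurd h hc⟩
  choose f hf using hq
  obtain ⟨c₀, hc₀, hmin⟩ := S.exists_min_image f hne
  have hinj : Set.InjOn f (S : Set ℕ) := by
    intro c hc c' hc' h
    have h1 := hf c hc
    have h2 := hf c' hc'
    rw [h] at h1
    have : (c : ℤ) = c' := by linarith
    exact_mod_cast this
  have hmap : ∀ c ∈ S, f c ∈ Icc (f c₀) (f c₀ + Nat.sqrt H) := by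
    intro c hc
    rw [mem_Icc]
    refine ⟨hmin c hc, ?_⟩
    have h1 := hf c hc
    have h2 := hf c₀ hc₀
    have hc1 : c ≤ H := by
      have := (mem_filter.mp (hS ▸ hc)).1
      exact (mem_Icc.mp this).2
    obtain ⟨x, hx⟩ : ∃ x, f c = f c₀ + x := ⟨f c - f c₀, by have := hmin c hc; omega⟩
    rw [hx]
    have h3 : x ^ a + f c₀ ^ a ≤ (x + f c₀) ^ a :=
      pow_add_pow_le (Nat.zero_le _) (Nat.zero_le _) (by omega)
    have h4 : ((x : ℤ)) ^ a ≤ H := by
      have h5 : ((x : ℤ)) ^ a + (f c₀ : ℤ) ^ a ≤ ((x : ℤ) + f c₀) ^ a := by exact_mod_cast h3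
      have h6 : ((f c : ℕ) : ℤ) = (x : ℤ) + f c₀ := by rw [hx]; push_cast; ring
      rw [← h6, ← h1, ← h2] at h5
      have h7 : (c : ℤ) ≤ H := by exact_mod_cast hc1
      have h8 : (0 : ℤ) ≤ c₀ := by positivity
      linarith
    have h5 : x ^ a ≤ H := by exact_mod_cast h4
    have h6 : x ≤ Nat.sqrt H := by
      rw [Nat.le_sqrt]
      rcases Nat.eq_zero_or_pos x with h0 | h0
      · subst h0; simp
      · calc x * x = x ^ 2 := by ring
          _ ≤ x ^ a := Nat.pow_le_pow_right h0 ha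
          _ ≤ H := h5
    omega
  calc S.card ≤ (Icc (f c₀) (f c₀ + Nat.sqrt H)).card :=
        card_le_card_of_injOn f hmap hinj
    _ = Nat.sqrt H + 1 := by rw [Nat.card_Icc]; omega

lemma card_pp (H K : ℕ) (s : ℤ) :
    (open Classical in ((Icc 1 H).filter
      (fun c : ℕ => ∃ a q : ℕ, 2 ≤ a ∧ a ≤ K ∧ s + c = (q : ℤ) ^ a)).card) ≤
      K * (Nat.sqrt H + 1) := by
  classical
  have hsub : (Icc 1 H).filter (fun c : ℕ => ∃ a q : ℕ, 2 ≤ a ∧ a ≤ K ∧ s + c = (q : ℤ) ^ a) ⊆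
      (Icc 2 K).biUnion (fun a => (Icc 1 H).filter (fun c : ℕ => ∃ q : ℕ, s + c = (q : ℤ) ^ a)) := by
    intro c hc
    obtain ⟨hc1, a, q, ha, haK, h⟩ := mem_filter.mp hc
    exact mem_biUnion.mpr ⟨a, mem_Icc.mpr ⟨ha, haK⟩, mem_filter.mpr ⟨hc1, q, h⟩⟩
  calc _ ≤ _ := card_le_card hsub
    _ ≤ ∑ a ∈ Icc 2 K, _ := card_biUnion_le
    _ ≤ ∑ a ∈ Icc 2 K, (Nat.sqrt H + 1) := by
        apply sum_le_sum
        intro a ha
        exact card_pow a H s (mem_Icc.mp ha).1
    _ = (K + 1 - 2) * (Nat.sqrt H + 1) := by rw [sum_const, Nat.card_Icc, smul_eq_mul]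
    _ ≤ K * (Nat.sqrt H + 1) := Nat.mul_le_mul_right _ (by omega)

/-- for a fixed `n` and `i`, few choices give a proper prime power -/
lemma count_i (k H T : ℕ) (hT : T ≤ H ^ 2) (hH : 1 ≤ H) (Q R : Fin k → ℕ)
    (hR1 : ∀ i, 1 ≤ R i) (hRQ : ∀ i, R i ≤ Q i) (hQH : ∀ i, Q i ≤ H) (ρ : ℝ) (hρ0 : 0 < ρ)
    (hρ : ∀ i, ρ ≤ Real.sqrt (R i)) (g : Fin k → ℕ → ℤ)
    (hg : ∀ i, ∀ n ∈ Icc 1 T, |g i n| ≤ 8 * H) (i : Fin k) (n : ℕ) (hn : n ∈ Icc 1 T) :
    ((open Classical in ((Bq Q R).filter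
      (fun v => lamI (vl g v i n) ≠ lamP (vl g v i n))).card : ℕ) : ℝ) ≤
      vq Q R * (2 * (3 * Nat.log 2 H + 7 : ℕ) / ρ) := by
  classical
  set K := 3 * Nat.log 2 H + 7 with hK
  set M := K * (Nat.sqrt (R i) + 1) with hM
  set D : Finset (ℕ × ℕ) := (Icc 1 (Q i) ×ˢ Icc 1 (R i)).filter
    (fun x => ∃ a q : ℕ, 2 ≤ a ∧ a ≤ K ∧ ((x.1 : ℤ) * n + g i n) + x.2 = (q : ℤ) ^ a) with hD
  have hDc : D.card ≤ Q i * M := by
    rw [hD, card_filter, sum_product]
    calc _ ≤ ∑ b ∈ Icc 1 (Q i), M := by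
          apply sum_le_sum
          intro b _
          rw [← card_filter]
          exact card_pp (R i) K ((b : ℤ) * n + g i n)
      _ = Q i * M := by rw [sum_const, Nat.card_Icc, smul_eq_mul]; congr 1
  have hsub : (Bq Q R).filter (fun v => lamI (vl g v i n) ≠ lamP (vl g v i n)) ⊆
      Fintype.piFinset (fun j => if j = i then D else Icc 1 (Q j) ×ˢ Icc 1 (R j)) := by
    intro v hv
    obtain ⟨hv1, hv2⟩ := mem_filter.mp hv
    unfold Bq at hv1
    rw [Fintype.mem_piFinset] at hv1 ⊢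
    intro j
    split_ifs with hj
    · subst hj
      rw [hD, mem_filter]
      refine ⟨hv1 j, ?_⟩
      obtain ⟨a, q, ha, hq, h⟩ := ne_imp _ hv2
      refine ⟨a, q, ha, ?_, ?_⟩
      · -- bound on a
        have hb := hv1 j
        rw [mem_product, mem_Icc, mem_Icc] at hb
        obtain ⟨⟨hb1, hb2⟩, hc1, hc2⟩ := hb
        have hb2 : (v j).1 ≤ H := hb2.trans (hQH j)
        have hc2 : (v j).2 ≤ H := hc2.trans ((hRQ j).trans (hQH j))
        rw [mem_Icc] at hn
        have hgn := hg j n (mem_Icc.mpr hn)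
        have h1 : vl g v j n ≤ 10 * (H : ℤ) ^ 3 := by
          unfold vl
          have e1 : ((v j).1 : ℤ) * n ≤ H * H ^ 2 := by
            have : (v j).1 * n ≤ H * H ^ 2 := Nat.mul_le_mul hb2 (hn.2.trans hT)
            exact_mod_cast this
          have e2 : g j n ≤ 8 * H := (le_abs_self _).trans hgn
          have e3 : ((v j).2 : ℤ) ≤ H := by exact_mod_cast hc2
          have e4 : (H : ℤ) ≤ (H : ℤ) ^ 3 := by exact_mod_cast Nat.le_self_pow (by norm_num) H
          nlinarith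
        rw [h] at h1
        have h2 : q ^ a ≤ 10 * H ^ 3 := by exact_mod_cast h1
        have h3 : 2 ^ a ≤ q ^ a := Nat.pow_le_pow_left hq a
        have h4 : H < 2 ^ (Nat.log 2 H + 1) := Nat.lt_pow_succ_log_self (by norm_num) H
        have h5 : 2 ^ a < 2 ^ K := by
          have h6 : H ^ 3 < (2 ^ (Nat.log 2 H + 1)) ^ 3 := Nat.pow_lt_pow_left h4 (by norm_num)
          calc 2 ^ a ≤ 10 * H ^ 3 := h3.trans h2
            _ < 16 * (2 ^ (Nat.log 2 H + 1)) ^ 3 := by omega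
            _ = 2 ^ K := by rw [hK]; ring
        exact ((Nat.pow_lt_pow_iff_right (by norm_num)).mp h5).le
      · rw [← h]; unfold vl; ring
    · exact hv1 j
  -- the product over the other coordinates
  set Pr : ℝ := ∏ j ∈ univ.erase i, ((Q j : ℝ) * R j) with hPr
  have hPr0 : 0 ≤ Pr := prod_nonneg fun j _ => by positivity
  have hvq : vq Q R = ((Q i : ℝ) * R i) * Pr := by
    unfold vq
    rw [← mul_prod_erase univ _ (mem_univ i)]
  have h1 : (((Bq Q R).filter (fun v => lamI (vl g v i n) ≠ lamP (vl g v i n))).card : ℝ) ≤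
      (D.card : ℝ) * Pr := by
    have h2 : ((Bq Q R).filter (fun v => lamI (vl g v i n) ≠ lamP (vl g v i n))).card ≤
        D.card * ∏ j ∈ univ.erase i, (Q j * R j) := by
      calc _ ≤ (Fintype.piFinset (fun j => if j = i then D else Icc 1 (Q j) ×ˢ Icc 1 (R j))).card :=
            card_le_card hsub
        _ = ∏ j : Fin k, (if j = i then D else Icc 1 (Q j) ×ˢ Icc 1 (R j)).card := by
            rw [Fintype.card_piFinset]
        _ = D.card * ∏ j ∈ univ.erase i, (if j = i then D else Icc 1 (Q j) ×ˢ Icc 1 (R j)).card := by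
            rw [← mul_prod_erase univ _ (mem_univ i), if_pos rfl]
        _ = _ := by
            congr 1
            apply prod_congr rfl
            intro j hj
            rw [if_neg (ne_of_mem_erase hj), card_product, Nat.card_Icc, Nat.card_Icc,
              Nat.add_sub_cancel, Nat.add_sub_cancel]
    have h3 : (((Bq Q R).filter (fun v => lamI (vl g v i n) ≠ lamP (vl g v i n))).card : ℝ) ≤
        ((D.card * ∏ j ∈ univ.erase i, (Q j * R j) : ℕ) : ℝ) := by exact_mod_cast h2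
    refine h3.trans (le_of_eq ?_)
    rw [hPr]
    push_cast
    rfl
  have hRr : (1 : ℝ) ≤ R i := by exact_mod_cast hR1 i
  have hs1 : (1 : ℝ) ≤ Real.sqrt (R i) := by rwa [Real.one_le_sqrt]
  have hs2 : ((Nat.sqrt (R i) : ℕ) : ℝ) ≤ Real.sqrt (R i) := Real.nat_sqrt_le_real_sqrt
  have hsq : Real.sqrt (R i) * Real.sqrt (R i) = R i := Real.mul_self_sqrt (by linarith)
  have h4 : (D.card : ℝ) ≤ (Q i : ℝ) * R i * (2 * K / ρ) := by
    have h5 : (D.card : ℝ) ≤ ((Q i * M : ℕ) : ℝ) := by exact_mod_cast hDc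
    refine h5.trans ?_
    rw [hM]
    push_cast
    rw [mul_assoc]
    refine mul_le_mul_of_nonneg_left ?_ (by positivity)
    rw [mul_div_assoc', le_div_iff₀ hρ0]
    have h6 : (K : ℝ) * ((Nat.sqrt (R i) : ℕ) + 1) ≤ K * (2 * Real.sqrt (R i)) :=
      mul_le_mul_of_nonneg_left (by linarith) (by positivity)
    calc (K : ℝ) * ((Nat.sqrt (R i) : ℕ) + 1) * ρ ≤ K * (2 * Real.sqrt (R i)) * Real.sqrt (R i) :=
          mul_le_mul h6 (hρ i) hρ0.le (by positivity)
      _ = (Real.sqrt (R i) * Real.sqrt (R i)) * (2 * K) := by ring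
      _ = R i * (2 * K) := by rw [hsq]
  calc _ ≤ (D.card : ℝ) * Pr := h1
    _ ≤ ((Q i : ℝ) * R i * (2 * K / ρ)) * Pr := mul_le_mul_of_nonneg_right h4 hPr0
    _ = vq Q R * (2 * K / ρ) := by rw [hvq]; ring

lemma asym (k e A : ℕ) (he : 1 ≤ e) : ∃ H₀ : ℕ, ∀ H : ℕ, H₀ ≤ H → 8 ≤ H ∧ 2 ≤ Real.log H ∧
    240 * k * (Real.log H) ^ (2 * A + 2) ≤ (H : ℝ) ^ (1 / (2 * e) : ℝ) := by
  have he0 : (0 : ℝ) < e := by exact_mod_cast he
  have h1 : Filter.Tendsto (fun H : ℕ => (H : ℝ)) Filter.atTop Filter.atTop :=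
    tendsto_natCast_atTop_atTop
  have h2 := (Real.tendsto_log_atTop.comp h1).eventually_ge_atTop 2
  have h3 := (isLittleO_log_rpow_rpow_atTop ((2 * A + 2 : ℕ) : ℝ) (s := 1 / (2 * e))
    (by positivity)).def (c := 1 / (240 * k + 1)) (by positivity)
  have h4 := h1.eventually h3
  have h5 := (h2.and h4).and (Filter.eventually_ge_atTop 8)
  obtain ⟨H₀, hH₀⟩ := Filter.eventually_atTop.mp h5
  refine ⟨H₀, fun H hH => ?_⟩
  obtain ⟨⟨ha, hb⟩, hc⟩ := hH₀ H hH
  simp only [Function.comp] at ha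
  refine ⟨hc, ha, ?_⟩
  rw [Real.rpow_natCast, Real.norm_of_nonneg (by positivity),
    Real.norm_of_nonneg (by positivity)] at hb
  have h6 : (240 * k + 1 : ℝ) * (Real.log H) ^ (2 * A + 2) ≤ (H : ℝ) ^ (1 / (2 * e) : ℝ) := by
    have := mul_le_mul_of_nonneg_left hb (by positivity : (0 : ℝ) ≤ 240 * k + 1)
    calc _ ≤ (240 * k + 1 : ℝ) * (1 / (240 * k + 1) * (H : ℝ) ^ (1 / (2 * e) : ℝ)) := this
      _ = (H : ℝ) ^ (1 / (2 * e) : ℝ) := by field_simp
  nlinarith [show (0 : ℝ) ≤ (Real.log H) ^ (2 * A + 2) by positivity]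

theorem main : S_PP4 := by
  classical
  intro k e A he
  obtain ⟨H₀, hH₀⟩ := asym k e A he
  refine ⟨H₀, fun H hH R T hQR s hs => ?_⟩
  obtain ⟨h8, hL, hbig⟩ := hH₀ H hH
  set L := Real.log H with hLdef
  have hLA : 0 < L ^ A := by positivity
  rcases Nat.eq_zero_or_pos k with hk | hk
  · -- no forms at all
    subst hk
    have hvq0 : 0 ≤ vq R R := prod_nonneg fun j _ => by positivity
    refine ⟨∅, empty_subset _, ?_, ?_⟩
    · rw [card_empty, Nat.cast_zero]; positivity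
    · intro v _ _ y _ _
      have h0 : (Icc 1 y).filter (fun n => ∃ i, lamI (vl (fun i _ => s i) v i n) ≠
          lamP (vl (fun i _ => s i) v i n)) = ∅ := by
        rw [filter_eq_empty_iff]
        rintro n _ ⟨i, _⟩
        exact i.elim0
      rw [h0, card_empty, Nat.cast_zero]
      positivity
  set ℓ := Nat.log 2 H with hℓ
  set ρ : ℝ := (H : ℝ) ^ (1 / (2 * e) : ℝ) with hρdef
  set M : ℝ := 2 * ((3 * ℓ + 7 : ℕ) : ℝ) / ρ with hM
  have hHr : (0 : ℝ) < H := by positivity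
  have hH1 : (1 : ℝ) ≤ H := by
    have : (8 : ℝ) ≤ H := by exact_mod_cast h8
    linarith
  have he0 : (0 : ℝ) < e := by exact_mod_cast he
  have hρ0 : 0 < ρ := by positivity
  have hM0 : 0 ≤ M := by positivity
  have hT : T ≤ H ^ 2 := by
    obtain ⟨_, h2, h3⟩ := hQR ⟨0, hk⟩
    have h4 : T ≤ R ⟨0, hk⟩ ^ 2 := by exact_mod_cast h3
    exact h4.trans (Nat.pow_le_pow_left h2 2)
  have hρ : ∀ i, ρ ≤ Real.sqrt (R i) := by
    intro i
    have h1 : ρ = Real.sqrt ((H : ℝ) ^ (1 / e : ℝ)) := by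
      rw [Real.sqrt_eq_rpow, ← Real.rpow_mul hHr.le, hρdef]
      congr 1
      field_simp
    rw [h1]
    exact Real.sqrt_le_sqrt (hQR i).1
  have hR1 : ∀ i, 1 ≤ R i := by
    intro i
    have h1 : (1 : ℝ) ≤ (H : ℝ) ^ (1 / e : ℝ) := Real.one_le_rpow hH1 (by positivity)
    have h2 := h1.trans (hQR i).1
    exact_mod_cast h2
  set g : Fin k → ℕ → ℤ := fun i _ => s i with hgdef
  have hg : ∀ i, ∀ n ∈ Icc 1 T, |g i n| ≤ 8 * H := by
    intro i n _
    have h1 : (R i : ℤ) ≤ H := by exact_mod_cast (hQR i).2.1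
    have h2 := hs i
    have h3 : |g i n| = |s i| := rfl
    rw [h3]
    linarith
  have hvq0 : 0 ≤ vq R R := prod_nonneg fun j _ => by positivity
  set F : ℕ → (Fin k → ℕ × ℕ) → Finset ℕ := fun N v =>
    (Icc 1 N).filter (fun n => ∃ i, lamI (vl g v i n) ≠ lamP (vl g v i n)) with hF
  set BJ : ℕ → Finset (Fin k → ℕ × ℕ) := fun j =>
    (Bq R R).filter (fun v => (2 : ℝ) ^ j / (2 * L ^ A) < ((F (min (2 ^ j) T) v).card : ℝ)) with hBJ
  -- the sum over all choices
  have hsum : ∀ N : ℕ, N ≤ T → ((∑ v ∈ Bq R R, (F N v).card : ℕ) : ℝ) ≤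
      N * (k * (vq R R * M)) := by
    intro N hN
    have h1 : (∑ v ∈ Bq R R, (F N v).card) ≤ ∑ n ∈ Icc 1 N, ∑ i : Fin k, ((Bq R R).filter
              (fun v => lamI (vl g v i n) ≠ lamP (vl g v i n))).card := by
      calc (∑ v ∈ Bq R R, (F N v).card)
          = (∑ n ∈ Icc 1 N, ((Bq R R).filter
              (fun v => ∃ i, lamI (vl g v i n) ≠ lamP (vl g v i n))).card) := by
            simp only [hF, card_filter]
            rw [sum_comm]
        _ ≤ (∑ n ∈ Icc 1 N, ∑ i : Fin k, ((Bq R R).filter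
              (fun v => lamI (vl g v i n) ≠ lamP (vl g v i n))).card) := by
            apply sum_le_sum
            intro n _
            have hs : (Bq R R).filter (fun v => ∃ i, lamI (vl g v i n) ≠ lamP (vl g v i n)) ⊆
                univ.biUnion (fun i => (Bq R R).filter
                  (fun v => lamI (vl g v i n) ≠ lamP (vl g v i n))) := by
              intro v hv
              obtain ⟨hv1, i, hv2⟩ := mem_filter.mp hv
              exact mem_biUnion.mpr ⟨i, mem_univ i, mem_filter.mpr ⟨hv1, hv2⟩⟩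
            exact (card_le_card hs).trans card_biUnion_le
    have h2 : ((∑ v ∈ Bq R R, (F N v).card : ℕ) : ℝ) ≤
        ((∑ n ∈ Icc 1 N, ∑ i : Fin k, ((Bq R R).filter
              (fun v => lamI (vl g v i n) ≠ lamP (vl g v i n))).card : ℕ) : ℝ) := by
      exact_mod_cast h1
    refine h2.trans ?_
    push_cast
    calc (∑ n ∈ Icc 1 N, ∑ i : Fin k, (((Bq R R).filter
              (fun v => lamI (vl g v i n) ≠ lamP (vl g v i n))).card : ℝ))
        ≤ ∑ n ∈ Icc 1 N, ∑ i : Fin k, (vq R R * M) := by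
            apply sum_le_sum
            intro n hn
            apply sum_le_sum
            intro i _
            rw [mem_Icc] at hn
            exact count_i k H T hT (by omega) R R hR1 (fun i => le_refl _)
              (fun i => (hQR i).2.1) ρ hρ0 hρ g hg i n (mem_Icc.mpr ⟨hn.1, hn.2.trans hN⟩)
        _ = N * (k * (vq R R * M)) := by
            rw [sum_const, sum_const, Nat.card_Icc, card_univ, Fintype.card_fin, nsmul_eq_mul,
              nsmul_eq_mul, Nat.add_sub_cancel]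
  -- Markov
  have hBJc : ∀ j, ((BJ j).card : ℝ) ≤ 2 * L ^ A * (k * (vq R R * M)) := by
    intro j
    have h1 : ((BJ j).card : ℝ) * ((2 : ℝ) ^ j / (2 * L ^ A)) ≤
        ((∑ v ∈ Bq R R, (F (min (2 ^ j) T) v).card : ℕ) : ℝ) := by
      push_cast
      calc ((BJ j).card : ℝ) * ((2 : ℝ) ^ j / (2 * L ^ A))
          = ∑ v ∈ BJ j, ((2 : ℝ) ^ j / (2 * L ^ A)) := by rw [sum_const, nsmul_eq_mul]
        _ ≤ ∑ v ∈ BJ j, ((F (min (2 ^ j) T) v).card : ℝ) := by
            apply sum_le_sum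
            intro v hv
            exact (mem_filter.mp hv).2.le
        _ ≤ _ := by
            apply sum_le_sum_of_subset_of_nonneg (filter_subset _ _)
            intro v _ _
            positivity
    have h2 := hsum (min (2 ^ j) T) (min_le_right _ _)
    have h3 : ((min (2 ^ j) T : ℕ) : ℝ) ≤ (2 : ℝ) ^ j := by
      have : min (2 ^ j) T ≤ 2 ^ j := min_le_left _ _
      exact_mod_cast this
    have h4 : ((BJ j).card : ℝ) * ((2 : ℝ) ^ j / (2 * L ^ A)) ≤
        (2 : ℝ) ^ j * (k * (vq R R * M)) := by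
      calc _ ≤ ((∑ v ∈ Bq R R, (F (min (2 ^ j) T) v).card : ℕ) : ℝ) := h1
        _ ≤ _ := h2
        _ ≤ _ := mul_le_mul_of_nonneg_right h3 (by positivity)
    have h5 : (0 : ℝ) < 2 ^ j := by positivity
    have h6 : ((BJ j).card : ℝ) = (((BJ j).card : ℝ) * ((2 : ℝ) ^ j / (2 * L ^ A))) *
        (2 * L ^ A) / 2 ^ j := by field_simp
    rw [h6, div_le_iff₀ h5]
    calc _ ≤ (2 : ℝ) ^ j * (k * (vq R R * M)) * (2 * L ^ A) :=
          mul_le_mul_of_nonneg_right h4 (by positivity)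
      _ = _ := by ring
  refine ⟨(range (2 * ℓ + 3)).biUnion BJ, ?_, ?_, ?_⟩
  · intro v hv
    obtain ⟨j, _, hv⟩ := mem_biUnion.mp hv
    exact (mem_filter.mp hv).1
  · -- the size
    have h1 : ((((range (2 * ℓ + 3)).biUnion BJ).card : ℕ) : ℝ) ≤
        (2 * ℓ + 3) * (2 * L ^ A * (k * (vq R R * M))) := by
      calc ((((range (2 * ℓ + 3)).biUnion BJ).card : ℕ) : ℝ)
          ≤ ((∑ j ∈ range (2 * ℓ + 3), (BJ j).card : ℕ) : ℝ) := by exact_mod_cast card_biUnion_le
        _ = ∑ j ∈ range (2 * ℓ + 3), ((BJ j).card : ℝ) := by push_cast; rfl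
        _ ≤ ∑ j ∈ range (2 * ℓ + 3), (2 * L ^ A * (k * (vq R R * M))) :=
            sum_le_sum (fun j _ => hBJc j)
        _ = _ := by rw [sum_const, card_range, nsmul_eq_mul]; push_cast; ring
    have hl : (ℓ : ℝ) ≤ 2 * L := by
      have h2 : 2 ^ ℓ ≤ H := Nat.pow_log_le_self 2 (by omega)
      have h3 : ((2 : ℝ)) ^ ℓ ≤ H := by exact_mod_cast h2
      have h4 := Real.log_le_log (by positivity) h3
      rw [Real.log_pow] at h4
      have h5 : (0.5 : ℝ) ≤ Real.log 2 := by have := Real.log_two_gt_d9; linarith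
      have h6 : (ℓ : ℝ) * 0.5 ≤ ℓ * Real.log 2 := mul_le_mul_of_nonneg_left h5 (by positivity)
      linarith
    have hMr : M ≤ 20 * L / ρ := by
      rw [hM]
      push_cast
      refine div_le_div_of_nonneg_right ?_ hρ0.le
      linarith
    refine h1.trans ?_
    rw [le_div_iff₀ hLA]
    have h7 : (2 * ℓ + 3 : ℝ) * (2 * L ^ A * (k * (vq R R * M))) * L ^ A =
        vq R R * ((2 * ℓ + 3 : ℝ) * 2 * L ^ A * L ^ A * k * M) := by ring
    rw [h7]
    apply mul_le_of_le_one_right hvq0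
    calc (2 * ℓ + 3 : ℝ) * 2 * L ^ A * L ^ A * k * M
        ≤ (6 * L) * 2 * L ^ A * L ^ A * k * (20 * L / ρ) := by
          gcongr
          linarith
      _ = (240 * k * L ^ (2 * A + 2)) / ρ := by ring
      _ ≤ 1 := by
          rw [div_le_one hρ0]
          exact hbig
  · intro v hv hvb y hy1 hyT
    have hj : Nat.log 2 y + 1 ∈ range (2 * ℓ + 3) := by
      rw [mem_range]
      have h9 : H < 2 ^ (Nat.log 2 H + 1) := Nat.lt_pow_succ_log_self (by norm_num) H
      have h10 : y < 2 ^ (2 * ℓ + 2) := by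
        calc y ≤ H ^ 2 := hyT.trans hT
          _ < (2 ^ (Nat.log 2 H + 1)) ^ 2 := Nat.pow_lt_pow_left h9 (by norm_num)
          _ = 2 ^ (2 * ℓ + 2) := by rw [← pow_mul]; congr 1; rw [hℓ]; ring
      have h11 : Nat.log 2 y < 2 * ℓ + 2 := Nat.log_lt_of_lt_pow (by omega) h10
      omega
    have h1 : v ∉ BJ (Nat.log 2 y + 1) := fun h => hvb (mem_biUnion.mpr ⟨_, hj, h⟩)
    have h2 : ((F (min (2 ^ (Nat.log 2 y + 1)) T) v).card : ℝ) ≤
        (2 : ℝ) ^ (Nat.log 2 y + 1) / (2 * L ^ A) := by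
      by_contra hcon
      exact h1 (mem_filter.mpr ⟨hv, not_le.mp hcon⟩)
    have h3 : F y v ⊆ F (min (2 ^ (Nat.log 2 y + 1)) T) v := by
      apply filter_subset_filter
      apply Icc_subset_Icc_right
      rw [le_min_iff]
      exact ⟨(Nat.lt_pow_succ_log_self (by norm_num) y).le, hyT⟩
    have h4 : ((F y v).card : ℝ) ≤ ((F (min (2 ^ (Nat.log 2 y + 1)) T) v).card : ℝ) := by
      exact_mod_cast card_le_card h3
    have h5 : (2 : ℝ) ^ (Nat.log 2 y) ≤ y := by
      exact_mod_cast Nat.pow_log_le_self 2 (by omega : y ≠ 0)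
    calc ((F y v).card : ℝ) ≤ (2 : ℝ) ^ (Nat.log 2 y + 1) / (2 * L ^ A) := h4.trans h2
      _ = (2 : ℝ) ^ (Nat.log 2 y) / L ^ A := by rw [pow_succ]; field_simp
      _ ≤ y / L ^ A := div_le_div_of_nonneg_right h5 hLA.le

end Pool.Agent.helper24_UT.Pp4
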