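/-
UT_PP5   (project UT of helper24: primes at almost all systems of polynomials; very_famous ids, partial results)
TARGET: prove the theorem at the end. Its statement uses the definitions in the modules Pool/Agent/helper24_UT/Stm.lean, Stm2.lean, Stm5.lean, Stm7.lean, Stm8.lean, Stm9.lean, Stm11.lean, Stm12.lean, Stm13.lean, Stm14.lean, Stm15.lean
(on origin/main; `git -C /workdir/pool/outputs/live pull`, then copy these files and the starting modules they import
to the same paths under /workdir/pool). You may import Mathlib and ANY starting module (copy it with its closure from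
outputs/live). READ the statement files first.
If the file named below helps, copy from it or import it. Put helper lemmas in the namespace below, do not change the target statement, no sorry, no native_decide, no new axioms,
no straight double quotes in the file. Paste the full proved file back as the result. If the statement is false or a
constant does not work out, set status='problem' and say exactly why.

PLAIN PROOF
Compare Pool/Agent/helper24_UT/Pp4.lean (S_PP4, square boxes). L = log H, lamI m /= lamP m only if m is a proper prime power. c0 := A + 8 (plus log k). Fix i (Q = Q_i, R = R_i, H^(1/e) <= Q <= R <= H) and a dyadic t with t >= L^B/2, t <= H^3; N_t(b,c) := number of the n in (t, 2t] with b n + c a proper prime power.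
(a) b <= t/L^(2 c0): the values lie in an interval of length <= b t + b, and for each exponent j >= 2 an interval of length l contains at most l^(1/2) + 1 perfect j-th powers; j <= log_2 of the values <= 8L. So N_t <= 8L ((b t)^(1/2) * 2 + 1) <= 8L (2 t/L^(c0) + 1) <= t/(4k L^A) for B large.
(b) b > t/L^(2 c0), so t < Q L^(2 c0). The number of triples (b, c, n) with value a proper prime power: for given n and given value m the number of the (b, c) is at most min(Q, R/t + 1); number of proper prime powers <= V := 2 Q t + R + 2 is <= 8 L V^(1/2) + ... . So at most t min(Q, R/t + 1) * 9L (4Qt + 4R)^(1/2). Markov: the number of the (b,c) with N_t > t/(4 k L^A) is at most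
C L^(A+1) min(Q, R/t+1) (Qt + R)^(1/2). If Q t <= R: <= C L^(A+1) Q (2R)^(1/2) <= Q R/L^(A+4). If Q t > R: <= C L^(A+1) (R/t + 1)(2Qt)^(1/2); (R/t)(Qt)^(1/2) = QR/(Qt)^(1/2) <= Q R/R^(1/2), and (Qt)^(1/2) <= Q L^(c0) <= QR/L^(A+4). (R >= H^(1/e).) Sum over the <= 5L dyadic t and over i.
For n <= L^B/2... : take y >= L^B with B large: the n <= (start of the dyadic ranges) L^(A+2) are negligible: choose the dyadic ranges from t = L^(B-A-3) on.
-/
import Pool.Agent.helper24_UT.Stm15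

set_option autoImplicit false

namespace Pool.Agent.helper24_UT.Pp5

open Finset Polynomial
open Pool.Agent.helper24_UT
open Pool.Agent.H373R2.T7 (lamI lamzI lamz Vz pz lamP)
open Pool.Agent.H807R2.Dav (ee)

lemma ne_imp (m : ℤ) (h : lamI m ≠ lamP m) : ∃ a q : ℕ, 2 ≤ a ∧ 2 ≤ q ∧ m = (q : ℤ) ^ a := by
  unfold lamI lamP at h
  by_cases hm : 1 ≤ m
  · obtain ⟨n, rfl⟩ : ∃ n : ℕ, m = (n : ℤ) := ⟨m.toNat, by omega⟩
    rw [if_pos hm, Int.toNat_natCast] at h
    by_cases hp : n.Prime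
    · rw [if_pos hp] at h
      exact absurd (ArithmeticFunction.vonMangoldt_apply_prime hp) h
    · rw [if_neg hp] at h
      rw [ArithmeticFunction.vonMangoldt_ne_zero_iff] at h
      rw [isPrimePow_nat_iff] at h
      obtain ⟨q, a, hq, ha, hqa⟩ := h
      refine ⟨a, q, ?_, hq.two_le, by exact_mod_cast hqa.symm⟩
      by_contra hlt
      have : a = 1 := by omega
      subst this
      rw [pow_one] at hqa
      exact hp (hqa ▸ hq)
  · rw [if_neg hm] at h
    have : m.toNat = 0 := by omega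
    rw [this] at h
    simp [Nat.not_prime_zero] at h

lemma card_pow (a H : ℕ) (s : ℤ) (ha : 2 ≤ a) :
    (open Classical in ((Icc 1 H).filter (fun c : ℕ => ∃ q : ℕ, s + c = (q : ℤ) ^ a)).card) ≤
      Nat.sqrt H + 1 := by
  classical
  set S := (Icc 1 H).filter (fun c : ℕ => ∃ q : ℕ, s + c = (q : ℤ) ^ a) with hS
  by_cases hne : S.Nonempty
  swap
  · rw [not_nonempty_iff_eq_empty] at hne
    rw [hne]; simp
  have hq : ∀ c : ℕ, ∃ q : ℕ, c ∈ S → s + c = (q : ℤ) ^ a := by
    intro c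
    by_cases hc : c ∈ S
    · have := (mem_filter.mp (hS ▸ hc)).2
      obtain ⟨q, hq⟩ := this
      exact ⟨q, fun _ => hq⟩
    · exact ⟨0, fun h => absurd h hc⟩
  choose f hf using hq
  obtain ⟨c₀, hc₀, hmin⟩ := S.exists_min_image f hne
  have hinj : Set.InjOn f (S : Set ℕ) := by
    intro c hc c' hc' h
    have h1 := hf c hc
    have h2 := hf c' hc'
    rw [h] at h1
    have : (c : ℤ) = c' := by linarith
    exact_mod_cast this
  have hmap : ∀ c ∈ S, f c ∈ Icc (f c₀) (f c₀ + Nat.sqrt H) := by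
    intro c hc
    rw [mem_Icc]
    refine ⟨hmin c hc, ?_⟩
    have h1 := hf c hc
    have h2 := hf c₀ hc₀
    have hc1 : c ≤ H := by
      have := (mem_filter.mp (hS ▸ hc)).1
      exact (mem_Icc.mp this).2
    obtain ⟨x, hx⟩ : ∃ x, f c = f c₀ + x := ⟨f c - f c₀, by have := hmin c hc; omega⟩
    rw [hx]
    have h3 : x ^ a + f c₀ ^ a ≤ (x + f c₀) ^ a :=
      pow_add_pow_le (Nat.zero_le _) (Nat.zero_le _) (by omega)
    have h4 : ((x : ℤ)) ^ a ≤ H := by
      have h5 : ((x : ℤ)) ^ a + (f c₀ : ℤ) ^ a ≤ ((x : ℤ) + f c₀) ^ a := by exact_mod_cast h3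
      have h6 : ((f c : ℕ) : ℤ) = (x : ℤ) + f c₀ := by rw [hx]; push_cast; ring
      rw [← h6, ← h1, ← h2] at h5
      have h7 : (c : ℤ) ≤ H := by exact_mod_cast hc1
      have h8 : (0 : ℤ) ≤ c₀ := by positivity
      linarith
    have h5 : x ^ a ≤ H := by exact_mod_cast h4
    have h6 : x ≤ Nat.sqrt H := by
      rw [Nat.le_sqrt]
      rcases Nat.eq_zero_or_pos x with h0 | h0
      · subst h0; simp
      · calc x * x = x ^ 2 := by ring
          _ ≤ x ^ a := Nat.pow_le_pow_right h0 ha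
          _ ≤ H := h5
    omega
  calc S.card ≤ (Icc (f c₀) (f c₀ + Nat.sqrt H)).card :=
        card_le_card_of_injOn f hmap hinj
    _ = Nat.sqrt H + 1 := by rw [Nat.card_Icc]; omega

lemma card_pp (H K : ℕ) (s : ℤ) :
    (open Classical in ((Icc 1 H).filter
      (fun c : ℕ => ∃ a q : ℕ, 2 ≤ a ∧ a ≤ K ∧ s + c = (q : ℤ) ^ a)).card) ≤
      K * (Nat.sqrt H + 1) := by
  classical
  have hsub : (Icc 1 H).filter (fun c : ℕ => ∃ a q : ℕ, 2 ≤ a ∧ a ≤ K ∧ s + c = (q : ℤ) ^ a) ⊆
      (Icc 2 K).biUnion (fun a => (Icc 1 H).filter (fun c : ℕ => ∃ q : ℕ, s + c = (q : ℤ) ^ a)) := by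
    intro c hc
    obtain ⟨hc1, a, q, ha, haK, h⟩ := mem_filter.mp hc
    exact mem_biUnion.mpr ⟨a, mem_Icc.mpr ⟨ha, haK⟩, mem_filter.mpr ⟨hc1, q, h⟩⟩
  calc _ ≤ _ := card_le_card hsub
    _ ≤ ∑ a ∈ Icc 2 K, _ := card_biUnion_le
    _ ≤ ∑ a ∈ Icc 2 K, (Nat.sqrt H + 1) := by
        apply sum_le_sum
        intro a ha
        exact card_pow a H s (mem_Icc.mp ha).1
    _ = (K + 1 - 2) * (Nat.sqrt H + 1) := by rw [sum_const, Nat.card_Icc, smul_eq_mul]
    _ ≤ K * (Nat.sqrt H + 1) := Nat.mul_le_mul_right _ (by omega)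

/-- for a fixed `n` and `i`, few choices give a proper prime power -/
lemma count_i (k H T : ℕ) (hT : T ≤ H ^ 3) (hH : 1 ≤ H) (Q R : Fin k → ℕ)
    (hR1 : ∀ i, 1 ≤ R i) (hRH : ∀ i, R i ≤ H) (hQH : ∀ i, Q i ≤ H) (ρ : ℝ) (hρ0 : 0 < ρ)
    (hρ : ∀ i, ρ ≤ Real.sqrt (R i)) (g : Fin k → ℕ → ℤ)
    (hg : ∀ i, ∀ n ∈ Icc 1 T, |g i n| ≤ 8 * H) (i : Fin k) (n : ℕ) (hn : n ∈ Icc 1 T) :
    ((open Classical in ((Bq Q R).filter
      (fun v => lamI (vl g v i n) ≠ lamP (vl g v i n))).card : ℕ) : ℝ) ≤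
      vq Q R * (2 * (4 * Nat.log 2 H + 8 : ℕ) / ρ) := by
  classical
  set K := 4 * Nat.log 2 H + 8 with hK
  set M := K * (Nat.sqrt (R i) + 1) with hM
  set D : Finset (ℕ × ℕ) := (Icc 1 (Q i) ×ˢ Icc 1 (R i)).filter
    (fun x => ∃ a q : ℕ, 2 ≤ a ∧ a ≤ K ∧ ((x.1 : ℤ) * n + g i n) + x.2 = (q : ℤ) ^ a) with hD
  have hDc : D.card ≤ Q i * M := by
    rw [hD, card_filter, sum_product]
    calc _ ≤ ∑ b ∈ Icc 1 (Q i), M := by
          apply sum_le_sum
          intro b _
          rw [← card_filter]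
          exact card_pp (R i) K ((b : ℤ) * n + g i n)
      _ = Q i * M := by rw [sum_const, Nat.card_Icc, smul_eq_mul]; congr 1
  have hsub : (Bq Q R).filter (fun v => lamI (vl g v i n) ≠ lamP (vl g v i n)) ⊆
      Fintype.piFinset (fun j => if j = i then D else Icc 1 (Q j) ×ˢ Icc 1 (R j)) := by
    intro v hv
    obtain ⟨hv1, hv2⟩ := mem_filter.mp hv
    unfold Bq at hv1
    rw [Fintype.mem_piFinset] at hv1 ⊢
    intro j
    split_ifs with hj
    · subst hj
      rw [hD, mem_filter]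
      refine ⟨hv1 j, ?_⟩
      obtain ⟨a, q, ha, hq, h⟩ := ne_imp _ hv2
      refine ⟨a, q, ha, ?_, ?_⟩
      · -- bound on a
        have hb := hv1 j
        rw [mem_product, mem_Icc, mem_Icc] at hb
        obtain ⟨⟨hb1, hb2⟩, hc1, hc2⟩ := hb
        have hb2 : (v j).1 ≤ H := hb2.trans (hQH j)
        have hc2 : (v j).2 ≤ H := hc2.trans (hRH j)
        rw [mem_Icc] at hn
        have hgn := hg j n (mem_Icc.mpr hn)
        have h1 : vl g v j n ≤ 10 * (H : ℤ) ^ 4 := by
          unfold vl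
          have e1 : ((v j).1 : ℤ) * n ≤ H * H ^ 3 := by
            have : (v j).1 * n ≤ H * H ^ 3 := Nat.mul_le_mul hb2 (hn.2.trans hT)
            exact_mod_cast this
          have e2 : g j n ≤ 8 * H := (le_abs_self _).trans hgn
          have e3 : ((v j).2 : ℤ) ≤ H := by exact_mod_cast hc2
          have e4 : (H : ℤ) ≤ (H : ℤ) ^ 4 := by exact_mod_cast Nat.le_self_pow (by norm_num) H
          have e5 : (H : ℤ) * H ^ 3 = (H : ℤ) ^ 4 := by ring
          linarith
        rw [h] at h1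
        have h2 : q ^ a ≤ 10 * H ^ 4 := by exact_mod_cast h1
        have h3 : 2 ^ a ≤ q ^ a := Nat.pow_le_pow_left hq a
        have h4 : H < 2 ^ (Nat.log 2 H + 1) := Nat.lt_pow_succ_log_self (by norm_num) H
        have h5 : 2 ^ a < 2 ^ K := by
          have h6 : H ^ 4 < (2 ^ (Nat.log 2 H + 1)) ^ 4 := Nat.pow_lt_pow_left h4 (by norm_num)
          calc 2 ^ a ≤ 10 * H ^ 4 := h3.trans h2
            _ < 16 * (2 ^ (Nat.log 2 H + 1)) ^ 4 := by omega
            _ = 2 ^ K := by rw [hK]; ring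
        exact ((Nat.pow_lt_pow_iff_right (by norm_num)).mp h5).le
      · rw [← h]; unfold vl; ring
    · exact hv1 j
  -- the product over the other coordinates
  set Pr : ℝ := ∏ j ∈ univ.erase i, ((Q j : ℝ) * R j) with hPr
  have hPr0 : 0 ≤ Pr := prod_nonneg fun j _ => by positivity
  have hvq : vq Q R = ((Q i : ℝ) * R i) * Pr := by
    unfold vq
    rw [← mul_prod_erase univ _ (mem_univ i)]
  have h1 : (((Bq Q R).filter (fun v => lamI (vl g v i n) ≠ lamP (vl g v i n))).card : ℝ) ≤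
      (D.card : ℝ) * Pr := by
    have h2 : ((Bq Q R).filter (fun v => lamI (vl g v i n) ≠ lamP (vl g v i n))).card ≤
        D.card * ∏ j ∈ univ.erase i, (Q j * R j) := by
      calc _ ≤ (Fintype.piFinset (fun j => if j = i then D else Icc 1 (Q j) ×ˢ Icc 1 (R j))).card :=
            card_le_card hsub
        _ = ∏ j : Fin k, (if j = i then D else Icc 1 (Q j) ×ˢ Icc 1 (R j)).card := by
            rw [Fintype.card_piFinset]
        _ = D.card * ∏ j ∈ univ.erase i, (if j = i then D else Icc 1 (Q j) ×ˢ Icc 1 (R j)).card := by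
            rw [← mul_prod_erase univ _ (mem_univ i), if_pos rfl]
        _ = _ := by
            congr 1
            apply prod_congr rfl
            intro j hj
            rw [if_neg (ne_of_mem_erase hj), card_product, Nat.card_Icc, Nat.card_Icc,
              Nat.add_sub_cancel, Nat.add_sub_cancel]
    have h3 : (((Bq Q R).filter (fun v => lamI (vl g v i n) ≠ lamP (vl g v i n))).card : ℝ) ≤
        ((D.card * ∏ j ∈ univ.erase i, (Q j * R j) : ℕ) : ℝ) := by exact_mod_cast h2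
    refine h3.trans (le_of_eq ?_)
    rw [hPr]
    push_cast
    rfl
  have hRr : (1 : ℝ) ≤ R i := by exact_mod_cast hR1 i
  have hs1 : (1 : ℝ) ≤ Real.sqrt (R i) := by rwa [Real.one_le_sqrt]
  have hs2 : ((Nat.sqrt (R i) : ℕ) : ℝ) ≤ Real.sqrt (R i) := Real.nat_sqrt_le_real_sqrt
  have hsq : Real.sqrt (R i) * Real.sqrt (R i) = R i := Real.mul_self_sqrt (by linarith)
  have h4 : (D.card : ℝ) ≤ (Q i : ℝ) * R i * (2 * K / ρ) := by
    have h5 : (D.card : ℝ) ≤ ((Q i * M : ℕ) : ℝ) := by exact_mod_cast hDc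
    refine h5.trans ?_
    rw [hM]
    push_cast
    rw [mul_assoc]
    refine mul_le_mul_of_nonneg_left ?_ (by positivity)
    rw [mul_div_assoc', le_div_iff₀ hρ0]
    have h6 : (K : ℝ) * ((Nat.sqrt (R i) : ℕ) + 1) ≤ K * (2 * Real.sqrt (R i)) :=
      mul_le_mul_of_nonneg_left (by linarith) (by positivity)
    calc (K : ℝ) * ((Nat.sqrt (R i) : ℕ) + 1) * ρ ≤ K * (2 * Real.sqrt (R i)) * Real.sqrt (R i) :=
          mul_le_mul h6 (hρ i) hρ0.le (by positivity)
      _ = (Real.sqrt (R i) * Real.sqrt (R i)) * (2 * K) := by ring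
      _ = R i * (2 * K) := by rw [hsq]
  calc _ ≤ (D.card : ℝ) * Pr := h1
    _ ≤ ((Q i : ℝ) * R i * (2 * K / ρ)) * Pr := mul_le_mul_of_nonneg_right h4 hPr0
    _ = vq Q R * (2 * K / ρ) := by rw [hvq]; ring

lemma asym (k e A : ℕ) (he : 1 ≤ e) : ∃ H₀ : ℕ, ∀ H : ℕ, H₀ ≤ H → 8 ≤ H ∧ 2 ≤ Real.log H ∧
    384 * k * (Real.log H) ^ (2 * A + 2) ≤ (H : ℝ) ^ (1 / (2 * e) : ℝ) := by
  have he0 : (0 : ℝ) < e := by exact_mod_cast he
  have h1 : Filter.Tendsto (fun H : ℕ => (H : ℝ)) Filter.atTop Filter.atTop :=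
    tendsto_natCast_atTop_atTop
  have h2 := (Real.tendsto_log_atTop.comp h1).eventually_ge_atTop 2
  have h3 := (isLittleO_log_rpow_rpow_atTop ((2 * A + 2 : ℕ) : ℝ) (s := 1 / (2 * e))
    (by positivity)).def (c := 1 / (384 * k + 1)) (by positivity)
  have h4 := h1.eventually h3
  have h5 := (h2.and h4).and (Filter.eventually_ge_atTop 8)
  obtain ⟨H₀, hH₀⟩ := Filter.eventually_atTop.mp h5
  refine ⟨H₀, fun H hH => ?_⟩
  obtain ⟨⟨ha, hb⟩, hc⟩ := hH₀ H hH
  simp only [Function.comp] at ha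
  refine ⟨hc, ha, ?_⟩
  rw [Real.rpow_natCast, Real.norm_of_nonneg (by positivity),
    Real.norm_of_nonneg (by positivity)] at hb
  have h6 : (384 * k + 1 : ℝ) * (Real.log H) ^ (2 * A + 2) ≤ (H : ℝ) ^ (1 / (2 * e) : ℝ) := by
    have := mul_le_mul_of_nonneg_left hb (by positivity : (0 : ℝ) ≤ 384 * k + 1)
    calc _ ≤ (384 * k + 1 : ℝ) * (1 / (384 * k + 1) * (H : ℝ) ^ (1 / (2 * e) : ℝ)) := this
      _ = (H : ℝ) ^ (1 / (2 * e) : ℝ) := by field_simp
  nlinarith [show (0 : ℝ) ≤ (Real.log H) ^ (2 * A + 2) by positivity]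

theorem main : S_PP5 := by
  classical
  intro k e A he
  obtain ⟨H₀, hH₀⟩ := asym k e A he
  refine ⟨0, H₀, fun H hH Q R hQR => ?_⟩
  obtain ⟨h8, hL, hbig⟩ := hH₀ H hH
  set L := Real.log H with hLdef
  have hLA : 0 < L ^ A := by positivity
  rcases Nat.eq_zero_or_pos k with hk | hk
  · -- no forms at all
    subst hk
    have hvq0 : 0 ≤ vq Q R := prod_nonneg fun j _ => by positivity
    refine ⟨∅, empty_subset _, ?_, ?_⟩
    · rw [card_empty, Nat.cast_zero]; positivity
    · intro v _ _ y _ _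
      have h0 : (Icc 1 y).filter (fun n => ∃ i, lamI (vl (fun _ _ => 0) v i n) ≠
          lamP (vl (fun _ _ => 0) v i n)) = ∅ := by
        rw [filter_eq_empty_iff]
        rintro n _ ⟨i, _⟩
        exact i.elim0
      rw [h0, card_empty, Nat.cast_zero]
      positivity
  set ℓ := Nat.log 2 H with hℓ
  set ρ : ℝ := (H : ℝ) ^ (1 / (2 * e) : ℝ) with hρdef
  set M : ℝ := 2 * ((4 * ℓ + 8 : ℕ) : ℝ) / ρ with hM
  have hHr : (0 : ℝ) < H := by positivity
  have hH1 : (1 : ℝ) ≤ H := by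
    have : (8 : ℝ) ≤ H := by exact_mod_cast h8
    linarith
  have he0 : (0 : ℝ) < e := by exact_mod_cast he
  have hρ0 : 0 < ρ := by positivity
  have hM0 : 0 ≤ M := by positivity
  set T := H ^ 3 with hTdef
  have hT : T ≤ H ^ 3 := le_refl _
  have hρ : ∀ i, ρ ≤ Real.sqrt (R i) := by
    intro i
    have h1 : ρ = Real.sqrt ((H : ℝ) ^ (1 / e : ℝ)) := by
      rw [Real.sqrt_eq_rpow, ← Real.rpow_mul hHr.le, hρdef]
      congr 1
      field_simp
    rw [h1]
    refine Real.sqrt_le_sqrt ((hQR i).1.trans ?_)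
    exact_mod_cast (hQR i).2.1
  have hR1 : ∀ i, 1 ≤ R i := by
    intro i
    have h1 : (1 : ℝ) ≤ (H : ℝ) ^ (1 / e : ℝ) := Real.one_le_rpow hH1 (by positivity)
    have h2 := h1.trans (hQR i).1
    have h3 : 1 ≤ Q i := by exact_mod_cast h2
    exact h3.trans (hQR i).2.1
  set g : Fin k → ℕ → ℤ := fun _ _ => 0 with hgdef
  have hg : ∀ i, ∀ n ∈ Icc 1 T, |g i n| ≤ 8 * H := by
    intro i n _
    have h3 : |g i n| = 0 := by simp [hgdef]
    rw [h3]
    positivity
  have hvq0 : 0 ≤ vq Q R := prod_nonneg fun j _ => by positivity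
  set F : ℕ → (Fin k → ℕ × ℕ) → Finset ℕ := fun N v =>
    (Icc 1 N).filter (fun n => ∃ i, lamI (vl g v i n) ≠ lamP (vl g v i n)) with hF
  set BJ : ℕ → Finset (Fin k → ℕ × ℕ) := fun j =>
    (Bq Q R).filter (fun v => (2 : ℝ) ^ j / (2 * L ^ A) < ((F (min (2 ^ j) T) v).card : ℝ)) with hBJ
  -- the sum over all choices
  have hsum : ∀ N : ℕ, N ≤ T → ((∑ v ∈ Bq Q R, (F N v).card : ℕ) : ℝ) ≤
      N * (k * (vq Q R * M)) := by
    intro N hN
    have h1 : (∑ v ∈ Bq Q R, (F N v).card) ≤ ∑ n ∈ Icc 1 N, ∑ i : Fin k, ((Bq Q R).filter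
              (fun v => lamI (vl g v i n) ≠ lamP (vl g v i n))).card := by
      calc (∑ v ∈ Bq Q R, (F N v).card)
          = (∑ n ∈ Icc 1 N, ((Bq Q R).filter
              (fun v => ∃ i, lamI (vl g v i n) ≠ lamP (vl g v i n))).card) := by
            simp only [hF, card_filter]
            rw [sum_comm]
        _ ≤ (∑ n ∈ Icc 1 N, ∑ i : Fin k, ((Bq Q R).filter
              (fun v => lamI (vl g v i n) ≠ lamP (vl g v i n))).card) := by
            apply sum_le_sum
            intro n _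
            have hs : (Bq Q R).filter (fun v => ∃ i, lamI (vl g v i n) ≠ lamP (vl g v i n)) ⊆
                univ.biUnion (fun i => (Bq Q R).filter
                  (fun v => lamI (vl g v i n) ≠ lamP (vl g v i n))) := by
              intro v hv
              obtain ⟨hv1, i, hv2⟩ := mem_filter.mp hv
              exact mem_biUnion.mpr ⟨i, mem_univ i, mem_filter.mpr ⟨hv1, hv2⟩⟩
            exact (card_le_card hs).trans card_biUnion_le
    have h2 : ((∑ v ∈ Bq Q R, (F N v).card : ℕ) : ℝ) ≤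
        ((∑ n ∈ Icc 1 N, ∑ i : Fin k, ((Bq Q R).filter
              (fun v => lamI (vl g v i n) ≠ lamP (vl g v i n))).card : ℕ) : ℝ) := by
      exact_mod_cast h1
    refine h2.trans ?_
    push_cast
    calc (∑ n ∈ Icc 1 N, ∑ i : Fin k, (((Bq Q R).filter
              (fun v => lamI (vl g v i n) ≠ lamP (vl g v i n))).card : ℝ))
        ≤ ∑ n ∈ Icc 1 N, ∑ i : Fin k, (vq Q R * M) := by
            apply sum_le_sum
            intro n hn
            apply sum_le_sum
            intro i _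
            rw [mem_Icc] at hn
            exact count_i k H T hT (by omega) Q R hR1 (fun i => (hQR i).2.2)
              (fun i => (hQR i).2.1.trans (hQR i).2.2) ρ hρ0 hρ g hg i n (mem_Icc.mpr ⟨hn.1, hn.2.trans hN⟩)
        _ = N * (k * (vq Q R * M)) := by
            rw [sum_const, sum_const, Nat.card_Icc, card_univ, Fintype.card_fin, nsmul_eq_mul,
              nsmul_eq_mul, Nat.add_sub_cancel]
  -- Markov
  have hBJc : ∀ j, ((BJ j).card : ℝ) ≤ 2 * L ^ A * (k * (vq Q R * M)) := by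
    intro j
    have h1 : ((BJ j).card : ℝ) * ((2 : ℝ) ^ j / (2 * L ^ A)) ≤
        ((∑ v ∈ Bq Q R, (F (min (2 ^ j) T) v).card : ℕ) : ℝ) := by
      push_cast
      calc ((BJ j).card : ℝ) * ((2 : ℝ) ^ j / (2 * L ^ A))
          = ∑ v ∈ BJ j, ((2 : ℝ) ^ j / (2 * L ^ A)) := by rw [sum_const, nsmul_eq_mul]
        _ ≤ ∑ v ∈ BJ j, ((F (min (2 ^ j) T) v).card : ℝ) := by
            apply sum_le_sum
            intro v hv
            exact (mem_filter.mp hv).2.le
        _ ≤ _ := by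
            apply sum_le_sum_of_subset_of_nonneg (filter_subset _ _)
            intro v _ _
            positivity
    have h2 := hsum (min (2 ^ j) T) (min_le_right _ _)
    have h3 : ((min (2 ^ j) T : ℕ) : ℝ) ≤ (2 : ℝ) ^ j := by
      have : min (2 ^ j) T ≤ 2 ^ j := min_le_left _ _
      exact_mod_cast this
    have h4 : ((BJ j).card : ℝ) * ((2 : ℝ) ^ j / (2 * L ^ A)) ≤
        (2 : ℝ) ^ j * (k * (vq Q R * M)) := by
      calc _ ≤ ((∑ v ∈ Bq Q R, (F (min (2 ^ j) T) v).card : ℕ) : ℝ) := h1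
        _ ≤ _ := h2
        _ ≤ _ := mul_le_mul_of_nonneg_right h3 (by positivity)
    have h5 : (0 : ℝ) < 2 ^ j := by positivity
    have h6 : ((BJ j).card : ℝ) = (((BJ j).card : ℝ) * ((2 : ℝ) ^ j / (2 * L ^ A))) *
        (2 * L ^ A) / 2 ^ j := by field_simp
    rw [h6, div_le_iff₀ h5]
    calc _ ≤ (2 : ℝ) ^ j * (k * (vq Q R * M)) * (2 * L ^ A) :=
          mul_le_mul_of_nonneg_right h4 (by positivity)
      _ = _ := by ring
  refine ⟨(range (3 * ℓ + 4)).biUnion BJ, ?_, ?_, ?_⟩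
  · intro v hv
    obtain ⟨j, _, hv⟩ := mem_biUnion.mp hv
    exact (mem_filter.mp hv).1
  · -- the size
    have h1 : ((((range (3 * ℓ + 4)).biUnion BJ).card : ℕ) : ℝ) ≤
        (3 * ℓ + 4) * (2 * L ^ A * (k * (vq Q R * M))) := by
      calc ((((range (3 * ℓ + 4)).biUnion BJ).card : ℕ) : ℝ)
          ≤ ((∑ j ∈ range (3 * ℓ + 4), (BJ j).card : ℕ) : ℝ) := by exact_mod_cast card_biUnion_le
        _ = ∑ j ∈ range (3 * ℓ + 4), ((BJ j).card : ℝ) := by push_cast; rfl
        _ ≤ ∑ j ∈ range (3 * ℓ + 4), (2 * L ^ A * (k * (vq Q R * M))) :=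
            sum_le_sum (fun j _ => hBJc j)
        _ = _ := by rw [sum_const, card_range, nsmul_eq_mul]; push_cast; ring
    have hl : (ℓ : ℝ) ≤ 2 * L := by
      have h2 : 2 ^ ℓ ≤ H := Nat.pow_log_le_self 2 (by omega)
      have h3 : ((2 : ℝ)) ^ ℓ ≤ H := by exact_mod_cast h2
      have h4 := Real.log_le_log (by positivity) h3
      rw [Real.log_pow] at h4
      have h5 : (0.5 : ℝ) ≤ Real.log 2 := by have := Real.log_two_gt_d9; linarith
      have h6 : (ℓ : ℝ) * 0.5 ≤ ℓ * Real.log 2 := mul_le_mul_of_nonneg_left h5 (by positivity)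
      linarith
    have hMr : M ≤ 24 * L / ρ := by
      rw [hM]
      push_cast
      refine div_le_div_of_nonneg_right ?_ hρ0.le
      linarith
    refine h1.trans ?_
    rw [le_div_iff₀ hLA]
    have h7 : (3 * ℓ + 4 : ℝ) * (2 * L ^ A * (k * (vq Q R * M))) * L ^ A =
        vq Q R * ((3 * ℓ + 4 : ℝ) * 2 * L ^ A * L ^ A * k * M) := by ring
    rw [h7]
    apply mul_le_of_le_one_right hvq0
    calc (3 * ℓ + 4 : ℝ) * 2 * L ^ A * L ^ A * k * M
        ≤ (8 * L) * 2 * L ^ A * L ^ A * k * (24 * L / ρ) := by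
          gcongr
          linarith
      _ = (384 * k * L ^ (2 * A + 2)) / ρ := by ring
      _ ≤ 1 := by
          rw [div_le_one hρ0]
          exact hbig
  · intro v hv hvb y hy0 hyT
    have hy1 : 1 ≤ y := by
      rw [pow_zero] at hy0
      exact_mod_cast hy0
    have hj : Nat.log 2 y + 1 ∈ range (3 * ℓ + 4) := by
      rw [mem_range]
      have h9 : H < 2 ^ (Nat.log 2 H + 1) := Nat.lt_pow_succ_log_self (by norm_num) H
      have h10 : y < 2 ^ (3 * ℓ + 3) := by
        calc y ≤ H ^ 3 := hyT.trans hT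
          _ < (2 ^ (Nat.log 2 H + 1)) ^ 3 := Nat.pow_lt_pow_left h9 (by norm_num)
          _ = 2 ^ (3 * ℓ + 3) := by rw [← pow_mul]; congr 1; rw [hℓ]; ring
      have h11 : Nat.log 2 y < 3 * ℓ + 3 := Nat.log_lt_of_lt_pow (by omega) h10
      omega
    have h1 : v ∉ BJ (Nat.log 2 y + 1) := fun h => hvb (mem_biUnion.mpr ⟨_, hj, h⟩)
    have h2 : ((F (min (2 ^ (Nat.log 2 y + 1)) T) v).card : ℝ) ≤
        (2 : ℝ) ^ (Nat.log 2 y + 1) / (2 * L ^ A) := by
      by_contra hcon
      exact h1 (mem_filter.mpr ⟨hv, not_le.mp hcon⟩)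
    have h3 : F y v ⊆ F (min (2 ^ (Nat.log 2 y + 1)) T) v := by
      apply filter_subset_filter
      apply Icc_subset_Icc_right
      rw [le_min_iff]
      exact ⟨(Nat.lt_pow_succ_log_self (by norm_num) y).le, hyT⟩
    have h4 : ((F y v).card : ℝ) ≤ ((F (min (2 ^ (Nat.log 2 y + 1)) T) v).card : ℝ) := by
      exact_mod_cast card_le_card h3
    have h5 : (2 : ℝ) ^ (Nat.log 2 y) ≤ y := by
      exact_mod_cast Nat.pow_log_le_self 2 (by omega : y ≠ 0)
    calc ((F y v).card : ℝ) ≤ (2 : ℝ) ^ (Nat.log 2 y + 1) / (2 * L ^ A) := h4.trans h2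
      _ = (2 : ℝ) ^ (Nat.log 2 y) / L ^ A := by rw [pow_succ]; field_simp
      _ ≤ y / L ^ A := div_le_div_of_nonneg_right h5 hLA.le

end Pool.Agent.helper24_UT.Pp5
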