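import Pool.Agent.helper24_UT.Stm13

set_option autoImplicit false

namespace Pool.Agent.helper24_UT.Psi4

open Finset Polynomial
open Pool.Agent.helper24_UT
open Pool.Agent.H373R2.T7 (lamI lamzI lamz Vz pz lamP)
open Pool.Agent.H807R2.Dav (ee)
open Pool.Agent.H373R2.T7 (lamI_nonneg lamP_nonneg lamP_le lamI_le)

lemma psi_vl {k : ℕ} (G : Fin k → Polynomial ℤ) (v : Fin k → ℕ × ℕ) (i : Fin k) (n : ℕ) :
    (pl G v i).eval (n : ℤ) = vl (fun i n => (G i).eval (n : ℤ)) v i n := by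
  unfold pl vl
  simp only [Polynomial.eval_add, Polynomial.eval_mul, Polynomial.eval_C, Polynomial.eval_X]
  ring

lemma psi_lz (z : ℕ) {m : ℤ} (hm : 1 ≤ m) : lamzI z m = lz z m := by
  unfold lamzI lz lamz
  rw [if_pos hm]
  have e : ∀ p : ℕ, p ∣ m.toNat ↔ (p : ℤ) ∣ m := by
    intro p
    rw [← Int.natCast_dvd_natCast, Int.toNat_of_nonneg (by omega)]
  by_cases h : ∀ p ∈ pz z, ¬ p ∣ m.toNat
  · have h2 : ∀ p ∈ pz z, ¬ (p : ℤ) ∣ m := fun p hp hd => h p hp ((e p).mpr hd)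
    rw [if_pos h, if_pos h2]
  · have h2 : ¬ ∀ p ∈ pz z, ¬ (p : ℤ) ∣ m := fun h3 => h fun p hp hd => h3 p hp ((e p).mp hd)
    rw [if_neg h, if_neg h2]

lemma psi_mem {k : ℕ} {Q R : Fin k → ℕ} {v : Fin k → ℕ × ℕ} (hv : v ∈ Bq Q R) (i : Fin k) :
    (1 ≤ (v i).1 ∧ (v i).1 ≤ Q i) ∧ (1 ≤ (v i).2 ∧ (v i).2 ≤ R i) := by
  unfold Bq at hv
  rw [Fintype.mem_piFinset] at hv
  have := hv i
  rw [mem_product, mem_Icc, mem_Icc] at this
  exact this

lemma psi_small1 (k : ℕ) (Q R : Fin k → ℕ) (X : ℝ) (hX : 0 ≤ X) (i : Fin k) : open Classical in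
    (((Bq Q R).filter (fun v => ((v i).1 : ℝ) < X)).card : ℝ) ≤
      X * R i * ∏ j ∈ univ.erase i, ((Q j : ℝ) * R j) := by
  classical
  have hsub : (Bq Q R).filter (fun v => ((v i).1 : ℝ) < X) ⊆
      Fintype.piFinset (fun j => if j = i then Icc 1 ⌊X⌋₊ ×ˢ Icc 1 (R i) else
        Icc 1 (Q j) ×ˢ Icc 1 (R j)) := by
    intro v hv
    rw [mem_filter] at hv
    rw [Fintype.mem_piFinset]
    intro j
    have h1 := psi_mem hv.1 j
    by_cases hj : j = i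
    · rw [if_pos hj, mem_product, mem_Icc, mem_Icc]
      subst hj
      exact ⟨⟨h1.1.1, Nat.le_floor hv.2.le⟩, h1.2⟩
    · rw [if_neg hj, mem_product, mem_Icc, mem_Icc]
      exact h1
  have h1 := card_le_card hsub
  rw [Fintype.card_piFinset] at h1
  have h2 : (∏ j : Fin k, (if j = i then Icc 1 ⌊X⌋₊ ×ˢ Icc 1 (R i) else
        Icc 1 (Q j) ×ˢ Icc 1 (R j)).card : ℕ) =
      (⌊X⌋₊ * R i) * ∏ j ∈ univ.erase i, (Q j * R j) := by
    rw [← Finset.mul_prod_erase univ _ (mem_univ i), if_pos rfl]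
    congr 1
    · rw [card_product, Nat.card_Icc, Nat.card_Icc, Nat.add_sub_cancel, Nat.add_sub_cancel]
    · refine Finset.prod_congr rfl fun j hj => ?_
      rw [if_neg (Finset.ne_of_mem_erase hj), card_product, Nat.card_Icc, Nat.card_Icc,
        Nat.add_sub_cancel, Nat.add_sub_cancel]
  rw [h2] at h1
  have hP0 : (0 : ℝ) ≤ ∏ j ∈ univ.erase i, ((Q j : ℝ) * R j) :=
    prod_nonneg fun j _ => by positivity
  calc (((Bq Q R).filter (fun v => ((v i).1 : ℝ) < X)).card : ℝ)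
      ≤ (((⌊X⌋₊ * R i) * ∏ j ∈ univ.erase i, (Q j * R j) : ℕ) : ℝ) := by exact_mod_cast h1
    _ = (⌊X⌋₊ * R i) * ∏ j ∈ univ.erase i, ((Q j : ℝ) * R j) := by push_cast; ring
    _ ≤ _ := by
      refine mul_le_mul_of_nonneg_right ?_ hP0
      exact mul_le_mul_of_nonneg_right (Nat.floor_le hX) (by positivity)

lemma psi_vq_nonneg {k : ℕ} (Q R : Fin k → ℕ) : 0 ≤ vq Q R := prod_nonneg fun _ _ => by positivity

lemma psi_small (k : ℕ) (Q R : Fin k → ℕ) (Y : ℝ) (hY : 0 < Y) : open Classical in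
    (((Bq Q R).filter (fun v => ∃ i, ((v i).1 : ℝ) < Q i / Y)).card : ℝ) ≤
      k * (vq Q R / Y) := by
  classical
  have hsub : (Bq Q R).filter (fun v => ∃ i, ((v i).1 : ℝ) < Q i / Y) ⊆
      (univ : Finset (Fin k)).biUnion (fun i => (Bq Q R).filter (fun v => ((v i).1 : ℝ) < Q i / Y)) := by
    intro v hv
    rw [mem_filter] at hv
    obtain ⟨i, hi⟩ := hv.2
    rw [mem_biUnion]
    exact ⟨i, mem_univ i, mem_filter.mpr ⟨hv.1, hi⟩⟩
  have h1 := (card_le_card hsub).trans card_biUnion_le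
  have h2 : ∀ i : Fin k, (((Bq Q R).filter (fun v => ((v i).1 : ℝ) < Q i / Y)).card : ℝ) ≤
      vq Q R / Y := by
    intro i
    refine (psi_small1 k Q R (Q i / Y) (by positivity) i).trans (le_of_eq ?_)
    unfold vq
    rw [← Finset.mul_prod_erase univ _ (mem_univ i)]
    ring
  calc (((Bq Q R).filter (fun v => ∃ i, ((v i).1 : ℝ) < Q i / Y)).card : ℝ)
      ≤ ((∑ i : Fin k, ((Bq Q R).filter (fun v => ((v i).1 : ℝ) < Q i / Y)).card : ℕ) : ℝ) := by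
        exact_mod_cast h1
    _ = ∑ i : Fin k, (((Bq Q R).filter (fun v => ((v i).1 : ℝ) < Q i / Y)).card : ℝ) := by
        push_cast; rfl
    _ ≤ ∑ _i : Fin k, vq Q R / Y := sum_le_sum fun i _ => h2 i
    _ = k * (vq Q R / Y) := by
        rw [sum_const, card_univ, Fintype.card_fin, nsmul_eq_mul]

lemma psi_point {k H T : ℕ} (hH : 2 ≤ H) {R : Fin k → ℕ} (hR : ∀ i, R i ≤ H ∧ (T : ℝ) ≤ (R i : ℝ) ^ 2)
    {v : Fin k → ℕ × ℕ} (hv : v ∈ Bq R R) {n : ℕ} (hn : n ∈ Icc 1 T) (i : Fin k) :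
    1 ≤ vl (fun i _ => (0 : ℤ)) v i n ∧ ((vl (fun i _ => (0 : ℤ)) v i n : ℤ) : ℝ) ≤ (H : ℝ) ^ 4 := by
  have hm := psi_mem hv i
  rw [mem_Icc] at hn
  have hH1 : (2 : ℝ) ≤ H := by exact_mod_cast hH
  have hR2 : ((R i : ℕ) : ℝ) ≤ H := by exact_mod_cast (hR i).1
  have hR0 : (0 : ℝ) ≤ R i := by positivity
  have hT : (T : ℝ) ≤ (H : ℝ) ^ 2 := (hR i).2.trans (pow_le_pow_left₀ hR0 hR2 2)
  have hnT : (n : ℝ) ≤ (H : ℝ) ^ 2 := le_trans (by exact_mod_cast hn.2) hT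
  have hb : ((v i).1 : ℝ) ≤ H := by exact_mod_cast hm.1.2.trans (hR i).1
  have hc : ((v i).2 : ℝ) ≤ H := by exact_mod_cast hm.2.2.trans (hR i).1
  have hb0 : (0 : ℝ) ≤ (v i).1 := by positivity
  have hn0 : (0 : ℝ) ≤ n := by positivity
  have e : ((vl (fun i _ => (0 : ℤ)) v i n : ℤ) : ℝ) = (v i).1 * n + (v i).2 := by
    unfold vl
    push_cast
    ring
  constructor
  · unfold vl
    have h1 : (1 : ℤ) ≤ ((v i).2 : ℤ) := by exact_mod_cast hm.2.1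
    have h2 : (0 : ℤ) ≤ ((v i).1 : ℤ) * (n : ℤ) := by positivity
    linarith
  · rw [e]
    have k1 : ((v i).1 : ℝ) * n ≤ H * (H : ℝ) ^ 2 := mul_le_mul hb hnT hn0 (by linarith)
    have k2 : (H : ℝ) ≤ H * (H : ℝ) ^ 2 := by nlinarith [sq_nonneg (H : ℝ)]
    have k3 : 2 * (H : ℝ) ^ 3 ≤ (H : ℝ) ^ 4 := by
      have : (0 : ℝ) ≤ (H : ℝ) ^ 3 := by positivity
      nlinarith
    nlinarith

lemma psi_prod {k : ℕ} {M : ℝ} {x y : Fin k → ℝ} (hx : ∀ i, 0 ≤ x i) (hxM : ∀ i, x i ≤ M)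
    (hy : ∀ i, 0 ≤ y i) (hyM : ∀ i, y i ≤ M) : |∏ i, x i - ∏ i, y i| ≤ M ^ k := by
  have h1 : 0 ≤ ∏ i, x i := prod_nonneg fun i _ => hx i
  have h2 : 0 ≤ ∏ i, y i := prod_nonneg fun i _ => hy i
  have h3 : ∏ i, x i ≤ M ^ k := by
    calc ∏ i, x i ≤ ∏ _i : Fin k, M := prod_le_prod (fun i _ => hx i) fun i _ => hxM i
      _ = M ^ k := by rw [prod_const, card_univ, Fintype.card_fin]
  have h4 : ∏ i, y i ≤ M ^ k := by
    calc ∏ i, y i ≤ ∏ _i : Fin k, M := prod_le_prod (fun i _ => hy i) fun i _ => hyM i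
      _ = M ^ k := by rw [prod_const, card_univ, Fintype.card_fin]
  rw [abs_le]
  constructor <;> linarith

theorem main : S_ALL4 → S_MT3 → S_PP4 → S_PSI4 := by
  classical
  intro hALL hMT hPP k e A he
  obtain ⟨E₀', B₁, hALL⟩ := hALL k e (A + 1) he
  obtain ⟨B₂, hMT⟩ := hMT k 0 e (A + 1) he
  refine ⟨E₀' + 1, B₁ + B₂, fun E hE => ?_⟩
  obtain ⟨H₁, hALL⟩ := hALL E
  obtain ⟨H₂, hMT⟩ := hMT E
  obtain ⟨H₃, hPP⟩ := hPP k e (A + 1 + 2 * k) he
  refine ⟨H₁ + H₂ + H₃ + ⌈Real.exp (k + 4)⌉₊ + 3, fun H hH T R hT => ?_⟩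
  set L := Real.log H with hLdef
  have hH3 : 3 ≤ H := by omega
  have hH0 : (0 : ℝ) < H := by exact_mod_cast (by omega : 0 < H)
  have hH1 : (1 : ℝ) ≤ H := by exact_mod_cast (by omega : 1 ≤ H)
  have hLk : (k : ℝ) + 4 ≤ L := by
    rw [hLdef, Real.le_log_iff_exp_le hH0]
    refine (Nat.le_ceil _).trans ?_
    exact_mod_cast (by omega : ⌈Real.exp (k + 4)⌉₊ ≤ H)
  have hk0 : (0 : ℝ) ≤ k := by positivity
  have hL3 : 3 ≤ L := by linarith
  have hL1 : 1 ≤ L := by linarith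
  have hL0 : 0 < L := by linarith
  have hpow : ∀ {a b : ℕ}, a ≤ b → L ^ a ≤ L ^ b := fun h => pow_le_pow_right₀ hL1 h
  have hpos : ∀ a : ℕ, 0 < L ^ a := fun a => by positivity
  have hRg : ∀ i, Rg e H (R i) (R i) := fun i => ⟨(hT i).1, le_refl _, (hT i).2.1⟩
  have hR1 : ∀ i, (1 : ℝ) ≤ R i := fun i =>
    (Real.one_le_rpow hH1 (by positivity)).trans (hT i).1
  have hRT : ∀ i, (T : ℝ) ≤ (R i : ℝ) ^ 2 := by
    intro i
    refine (hT i).2.2.trans ?_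
    rw [← Real.rpow_natCast (R i : ℝ) 2]
    refine Real.rpow_le_rpow_of_exponent_le (hR1 i) ?_
    have : (0 : ℝ) ≤ 1 / (e : ℝ) := by positivity
    push_cast
    linarith
  -- the sieving limit
  set z := ⌊L ^ E⌋₊ with hz
  have hzle : (z : ℝ) ≤ L ^ E := Nat.floor_le (by positivity)
  have hzge : L ^ E₀' ≤ z := by
    have h1 : L ^ E < z + 1 := Nat.lt_floor_add_one _
    have h2 : L ^ (E₀' + 1) ≤ L ^ E := hpow hE
    have h3 : L ^ (E₀' + 1) = L ^ E₀' * L := pow_succ _ _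
    have h4 : (1 : ℝ) ≤ L ^ E₀' := one_le_pow₀ hL1
    nlinarith
  have hz1 : 1 ≤ z := by
    have : (1 : ℝ) ≤ z := (one_le_pow₀ hL1).trans hzge
    exact_mod_cast this
  have hs0 : ∀ i : Fin k, |(fun _ : Fin k => (0 : ℤ)) i| ≤ 8 * (R i : ℤ) := by
    intro i
    simp
  obtain ⟨Bad₁, hs₁, hc₁, hb₁⟩ := hALL H (by omega) T R hT z hzge hzle (fun _ => 0) hs0 (fun _ => 1)
    (fun _ => by simp)
  obtain ⟨Bad₂, hs₂, hc₂, hb₂⟩ := hMT H (by omega) R R hRg z hz1 hzle (fun _ => 0) (fun _ => by simp)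
  obtain ⟨Bad₃, hs₃, hc₃, hb₃⟩ := hPP H (by omega) R T
    (fun i => ⟨(hT i).1, (hT i).2.1, hRT i⟩) (fun _ => 0) hs0
  set g : Fin k → ℕ → ℤ := fun _ _ => 0 with hgdef
  set G : Fin k → ℤ[X] := fun _ => 0 with hGdef
  set Bad₄ := (Bq R R).filter (fun v => ∃ i, ((v i).1 : ℝ) < R i / L ^ (A + 1)) with hBad4
  have hc₄ : (Bad₄.card : ℝ) ≤ k * (vq R R / L ^ (A + 1)) :=
    psi_small k R R (L ^ (A + 1)) (hpos _)
  set N : ℝ := vq R R with hN
  have hN0 : 0 ≤ N := psi_vq_nonneg R R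
  refine ⟨Bad₁ ∪ Bad₂ ∪ Bad₃ ∪ Bad₄, ?_, ?_, ?_⟩
  · exact union_subset (union_subset (union_subset hs₁ hs₂) hs₃) (filter_subset _ _)
  · have h1 : ((Bad₁ ∪ Bad₂ ∪ Bad₃ ∪ Bad₄).card : ℝ) ≤
        Bad₁.card + Bad₂.card + Bad₃.card + Bad₄.card := by
      have a1 := card_union_le (Bad₁ ∪ Bad₂ ∪ Bad₃) Bad₄
      have a2 := card_union_le (Bad₁ ∪ Bad₂) Bad₃
      have a3 := card_union_le Bad₁ Bad₂
      exact_mod_cast (by omega : (Bad₁ ∪ Bad₂ ∪ Bad₃ ∪ Bad₄).card ≤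
        Bad₁.card + Bad₂.card + Bad₃.card + Bad₄.card)
    have h3 : N / L ^ (A + 1 + 2 * k) ≤ N / L ^ (A + 1) :=
      div_le_div_of_nonneg_left hN0 (hpos _) (hpow (by omega))
    have h4 : ((k : ℝ) + 3) * (N / L ^ (A + 1)) ≤ N / L ^ A := by
      rw [pow_succ, mul_div_assoc', div_le_div_iff₀ (by positivity) (by positivity)]
      have : ((k : ℝ) + 3) * (N * L ^ A) ≤ L * (N * L ^ A) :=
        mul_le_mul_of_nonneg_right (by linarith) (by positivity)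
      linarith
    linarith
  · intro v hv hvB
    simp only [mem_union, not_or] at hvB
    obtain ⟨⟨⟨hv1, hv2⟩, hv3⟩, hv4⟩ := hvB
    have hvb : ∀ i, (R i : ℝ) / L ^ (A + 1) ≤ (v i).1 := by
      intro i
      by_contra hcon
      rw [not_le] at hcon
      exact hv4 (by rw [hBad4, mem_filter]; exact ⟨hv, i, hcon⟩)
    refine ⟨hvb, fun y hy hyT => ?_⟩
    have hy0 : (0 : ℝ) ≤ y := by positivity
    have hy1 : 1 ≤ y := by
      have : (1 : ℝ) ≤ y := (one_le_pow₀ hL1).trans hy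
      exact_mod_cast this
    have hpt : ∀ n ∈ Icc 1 y, ∀ i, 1 ≤ vl g v i n ∧ ((vl g v i n : ℤ) : ℝ) ≤ (H : ℝ) ^ 4 := by
      intro n hn i
      rw [mem_Icc] at hn
      exact psi_point (by omega) (fun i => ⟨(hT i).2.1, hRT i⟩) hv
        (mem_Icc.mpr ⟨hn.1, hn.2.trans hyT⟩) i
    -- first comparison
    have c1 := hb₁ v hv hv1 y ((hpow (by omega)).trans hy) hyT
    simp only [one_mul] at c1
    have c2 := hb₂ v hv hv2 y ((hpow (by omega)).trans hy)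
    have c3 := hb₃ v hv hv3 y hy1 hyT
    have hvl : ∀ i n, (pl G v i).eval ((n : ℕ) : ℤ) = vl g v i n := by
      intro i n
      rw [psi_vl]
      simp [hgdef, hGdef]
    have e1 : ∑ n ∈ Icc 1 y, ∏ i, lamzI z (vl g v i n) = ∑ n ∈ Icc 1 y, XX z G v n := by
      refine sum_congr rfl fun n hn => ?_
      unfold XX
      refine prod_congr rfl fun i _ => ?_
      rw [hvl, psi_lz z (hpt n hn i).1]
    have e2 : ∑ n ∈ Icc 1 y, ∏ i, lamP ((pl G v i).eval (n : ℤ)) =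
        ∑ n ∈ Icc 1 y, ∏ i, lamP (vl g v i n) := by
      refine sum_congr rfl fun n hn => ?_
      refine prod_congr rfl fun i _ => ?_
      rw [hvl]
    -- the size of the products
    have hlog : Real.log ((H : ℝ) ^ 4) ≤ 4 * L := by
      rw [Real.log_pow]; push_cast; exact le_refl _
    have hX1 : (1 : ℝ) ≤ (H : ℝ) ^ 4 := one_le_pow₀ hH1
    have d1 : ∀ n ∈ Icc 1 y, |∏ i, lamI (vl g v i n) - ∏ i, lamP (vl g v i n)| ≤
        if (∃ i, lamI (vl g v i n) ≠ lamP (vl g v i n)) then (4 * L) ^ k else 0 := by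
      intro n hn
      split_ifs with hcase
      · have hI : ∀ i, lamI (vl g v i n) ≤ 4 * L := fun i =>
          (lamI_le _ _ hX1 (hpt n hn i).2).trans hlog
        exact psi_prod (fun i => lamI_nonneg _) hI (fun i => lamP_nonneg _)
          (fun i => (lamP_le _).trans (hI i))
      · push Not at hcase
        rw [prod_congr rfl fun i _ => hcase i, sub_self, abs_zero]
    have d2 : |∑ n ∈ Icc 1 y, ∏ i, lamI (vl g v i n) - ∑ n ∈ Icc 1 y, ∏ i, lamP (vl g v i n)| ≤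
        y / L ^ (A + 1) := by
      rw [← sum_sub_distrib]
      refine (abs_sum_le_sum_abs _ _).trans ((sum_le_sum d1).trans ?_)
      rw [← sum_filter, sum_const, nsmul_eq_mul]
      have f1 : (4 * L) ^ k ≤ L ^ (2 * k) := by
        rw [pow_mul]
        exact pow_le_pow_left₀ (by positivity) (by nlinarith) k
      calc _ ≤ (y / L ^ (A + 1 + 2 * k)) * L ^ (2 * k) := by
            refine mul_le_mul ?_ f1 (by positivity) (by positivity)
            convert c3 using 3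
        _ = y / L ^ (A + 1) := by
            rw [pow_add L (A + 1) (2 * k)]
            field_simp
    rw [e2]
    have key : ∑ n ∈ Icc 1 y, ∏ i, lamP (vl g v i n) - y * sg z (pl G v) =
        (∑ n ∈ Icc 1 y, (∏ i, lamI (vl g v i n) - ∏ i, lamzI z (vl g v i n))) +
        (∑ n ∈ Icc 1 y, XX z G v n - y * sg z (pl G v)) -
        (∑ n ∈ Icc 1 y, ∏ i, lamI (vl g v i n) - ∑ n ∈ Icc 1 y, ∏ i, lamP (vl g v i n)) := by
      rw [sum_sub_distrib, e1]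
      ring
    rw [key]
    have h4 : 3 * ((y : ℝ) / L ^ (A + 1)) ≤ y / L ^ A := by
      rw [pow_succ, mul_div_assoc', div_le_div_iff₀ (by positivity) (by positivity)]
      have : 3 * ((y : ℝ) * L ^ A) ≤ L * (y * L ^ A) :=
        mul_le_mul_of_nonneg_right hL3 (by positivity)
      linarith
    have a1 := abs_sub (∑ n ∈ Icc 1 y, (∏ i, lamI (vl g v i n) - ∏ i, lamzI z (vl g v i n)) +
        (∑ n ∈ Icc 1 y, XX z G v n - y * sg z (pl G v)))
        (∑ n ∈ Icc 1 y, ∏ i, lamI (vl g v i n) - ∑ n ∈ Icc 1 y, ∏ i, lamP (vl g v i n))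
    have a2 := abs_add_le (∑ n ∈ Icc 1 y, (∏ i, lamI (vl g v i n) - ∏ i, lamzI z (vl g v i n)))
        (∑ n ∈ Icc 1 y, XX z G v n - y * sg z (pl G v))
    linarith

end Pool.Agent.helper24_UT.Psi4
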