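import Pool.Agent.helper24_UT.Stm15

set_option autoImplicit false

namespace Pool.Agent.helper24_UT.Psi5

open Finset Polynomial
open Pool.Agent.helper24_UT
open Pool.Agent.H373R2.T7 (lamI lamzI lamz Vz pz lamP)
open Pool.Agent.H807R2.Dav (ee)
open Pool.Agent.H373R2.T7 (lamI_nonneg lamP_nonneg lamP_le lamI_le)

lemma psi_vl {k : ℕ} (G : Fin k → Polynomial ℤ) (v : Fin k → ℕ × ℕ) (i : Fin k) (n : ℕ) :
    (pl G v i).eval (n : ℤ) = vl (fun i n => (G i).eval (n : ℤ)) v i n := by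
  unfold pl vl
  simp only [Polynomial.eval_add, Polynomial.eval_mul, Polynomial.eval_C, Polynomial.eval_X]
  ring

lemma psi_lz (z : ℕ) {m : ℤ} (hm : 1 ≤ m) : lamzI z m = lz z m := by
  unfold lamzI lz lamz
  rw [if_pos hm]
  have e : ∀ p : ℕ, p ∣ m.toNat ↔ (p : ℤ) ∣ m := by
    intro p
    rw [← Int.natCast_dvd_natCast, Int.toNat_of_nonneg (by omega)]
  by_cases h : ∀ p ∈ pz z, ¬ p ∣ m.toNat
  · have h2 : ∀ p ∈ pz z, ¬ (p : ℤ) ∣ m := fun p hp hd => h p hp ((e p).mpr hd)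
    rw [if_pos h, if_pos h2]
  · have h2 : ¬ ∀ p ∈ pz z, ¬ (p : ℤ) ∣ m := fun h3 => h fun p hp hd => h3 p hp ((e p).mp hd)
    rw [if_neg h, if_neg h2]

lemma psi_mem {k : ℕ} {Q R : Fin k → ℕ} {v : Fin k → ℕ × ℕ} (hv : v ∈ Bq Q R) (i : Fin k) :
    (1 ≤ (v i).1 ∧ (v i).1 ≤ Q i) ∧ (1 ≤ (v i).2 ∧ (v i).2 ≤ R i) := by
  unfold Bq at hv
  rw [Fintype.mem_piFinset] at hv
  have := hv i
  rw [mem_product, mem_Icc, mem_Icc] at this
  exact this

lemma psi_vq_nonneg {k : ℕ} (Q R : Fin k → ℕ) : 0 ≤ vq Q R := prod_nonneg fun _ _ => by positivity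

lemma psi_point {k H : ℕ} (hH : 2 ≤ H) {Q R : Fin k → ℕ} (hR : ∀ i, Q i ≤ R i ∧ R i ≤ H)
    {v : Fin k → ℕ × ℕ} (hv : v ∈ Bq Q R) {n : ℕ} (hn : n ≤ H ^ 3) (i : Fin k) :
    1 ≤ vl (fun _ _ => (0 : ℤ)) v i n ∧ ((vl (fun _ _ => (0 : ℤ)) v i n : ℤ) : ℝ) ≤ (H : ℝ) ^ 5 := by
  have hm := psi_mem hv i
  have hH1 : (2 : ℝ) ≤ H := by exact_mod_cast hH
  have hnT : (n : ℝ) ≤ (H : ℝ) ^ 3 := by exact_mod_cast hn
  have hb : ((v i).1 : ℝ) ≤ H := by exact_mod_cast hm.1.2.trans ((hR i).1.trans (hR i).2)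
  have hc : ((v i).2 : ℝ) ≤ H := by exact_mod_cast hm.2.2.trans (hR i).2
  have hb0 : (0 : ℝ) ≤ (v i).1 := by positivity
  have hn0 : (0 : ℝ) ≤ n := by positivity
  have e : ((vl (fun _ _ => (0 : ℤ)) v i n : ℤ) : ℝ) = (v i).1 * n + (v i).2 := by
    unfold vl
    push_cast
    ring
  constructor
  · unfold vl
    have h1 : (1 : ℤ) ≤ ((v i).2 : ℤ) := by exact_mod_cast hm.2.1
    have h2 : (0 : ℤ) ≤ ((v i).1 : ℤ) * (n : ℤ) := by positivity
    linarith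
  · rw [e]
    have k1 : ((v i).1 : ℝ) * n ≤ H * (H : ℝ) ^ 3 := mul_le_mul hb hnT hn0 (by linarith)
    have k2 : (H : ℝ) ≤ H * (H : ℝ) ^ 3 := by
      have : (1 : ℝ) ≤ (H : ℝ) ^ 3 := one_le_pow₀ (by linarith)
      nlinarith
    have k3 : 2 * (H : ℝ) ^ 4 ≤ (H : ℝ) ^ 5 := by
      have : (0 : ℝ) ≤ (H : ℝ) ^ 4 := by positivity
      nlinarith
    nlinarith

lemma psi_prod {k : ℕ} {M : ℝ} {x y : Fin k → ℝ} (hx : ∀ i, 0 ≤ x i) (hxM : ∀ i, x i ≤ M)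
    (hy : ∀ i, 0 ≤ y i) (hyM : ∀ i, y i ≤ M) : |∏ i, x i - ∏ i, y i| ≤ M ^ k := by
  have h1 : 0 ≤ ∏ i, x i := prod_nonneg fun i _ => hx i
  have h2 : 0 ≤ ∏ i, y i := prod_nonneg fun i _ => hy i
  have h3 : ∏ i, x i ≤ M ^ k := by
    calc ∏ i, x i ≤ ∏ _i : Fin k, M := prod_le_prod (fun i _ => hx i) fun i _ => hxM i
      _ = M ^ k := by rw [prod_const, card_univ, Fintype.card_fin]
  have h4 : ∏ i, y i ≤ M ^ k := by
    calc ∏ i, y i ≤ ∏ _i : Fin k, M := prod_le_prod (fun i _ => hy i) fun i _ => hyM i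
      _ = M ^ k := by rw [prod_const, card_univ, Fintype.card_fin]
  rw [abs_le]
  constructor <;> linarith

theorem main : S_ALL5 → S_MT5 → S_PP5 → S_PSI5 := by
  classical
  intro hALL hMT hPP k e A he
  obtain ⟨E₀', B₁, hALL⟩ := hALL k e (A + 1) he
  obtain ⟨B₂, hMT⟩ := hMT k e (A + 1) he
  obtain ⟨B₃, H₃, hPP⟩ := hPP k e (A + 1 + 2 * k) he
  refine ⟨E₀' + 1, B₁ + B₂ + B₃, fun E hE => ?_⟩
  obtain ⟨H₁, hALL⟩ := hALL E
  obtain ⟨H₂, hMT⟩ := hMT E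
  refine ⟨H₁ + H₂ + H₃ + ⌈Real.exp 5⌉₊ + 3, fun H hH Q R hQR => ?_⟩
  set L := Real.log H with hLdef
  have hH3 : 3 ≤ H := by omega
  have hH0 : (0 : ℝ) < H := by exact_mod_cast (by omega : 0 < H)
  have hH1 : (1 : ℝ) ≤ H := by exact_mod_cast (by omega : 1 ≤ H)
  have hL5 : (5 : ℝ) ≤ L := by
    rw [hLdef, Real.le_log_iff_exp_le hH0]
    refine (Nat.le_ceil _).trans ?_
    exact_mod_cast (by omega : ⌈Real.exp 5⌉₊ ≤ H)
  have hL3 : 3 ≤ L := by linarith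
  have hL1 : 1 ≤ L := by linarith
  have hL0 : 0 < L := by linarith
  have hpow : ∀ {a b : ℕ}, a ≤ b → L ^ a ≤ L ^ b := fun h => pow_le_pow_right₀ hL1 h
  have hpos : ∀ a : ℕ, 0 < L ^ a := fun a => by positivity
  -- the sieving limit
  set z := ⌊L ^ E⌋₊ with hz
  have hzle : (z : ℝ) ≤ L ^ E := Nat.floor_le (by positivity)
  have hzge : L ^ E₀' ≤ z := by
    have h1 : L ^ E < z + 1 := Nat.lt_floor_add_one _
    have h2 : L ^ (E₀' + 1) ≤ L ^ E := hpow hE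
    have h3 : L ^ (E₀' + 1) = L ^ E₀' * L := pow_succ _ _
    have h4 : (1 : ℝ) ≤ L ^ E₀' := one_le_pow₀ hL1
    nlinarith
  have hz1 : 1 ≤ z := by
    have : (1 : ℝ) ≤ z := (one_le_pow₀ hL1).trans hzge
    exact_mod_cast this
  obtain ⟨Bad₁, hs₁, hc₁, hb₁⟩ := hALL H (by omega) Q R hQR z hzge hzle (fun _ => 1)
    (fun _ => by simp)
  obtain ⟨Bad₂, hs₂, hc₂, hb₂⟩ := hMT H (by omega) Q R hQR z hz1 hzle
  obtain ⟨Bad₃, hs₃, hc₃, hb₃⟩ := hPP H (by omega) Q R hQR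
  set g : Fin k → ℕ → ℤ := fun _ _ => 0 with hgdef
  set G : Fin k → ℤ[X] := fun _ => 0 with hGdef
  set N : ℝ := vq Q R with hN
  have hN0 : 0 ≤ N := psi_vq_nonneg Q R
  refine ⟨Bad₁ ∪ Bad₂ ∪ Bad₃, ?_, ?_, ?_⟩
  · exact union_subset (union_subset hs₁ hs₂) hs₃
  · have h1 : ((Bad₁ ∪ Bad₂ ∪ Bad₃).card : ℝ) ≤
        Bad₁.card + Bad₂.card + Bad₃.card := by
      have a2 := card_union_le (Bad₁ ∪ Bad₂) Bad₃
      have a3 := card_union_le Bad₁ Bad₂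
      exact_mod_cast (by omega : (Bad₁ ∪ Bad₂ ∪ Bad₃).card ≤
        Bad₁.card + Bad₂.card + Bad₃.card)
    have h3 : N / L ^ (A + 1 + 2 * k) ≤ N / L ^ (A + 1) :=
      div_le_div_of_nonneg_left hN0 (hpos _) (hpow (by omega))
    have h4 : (3 : ℝ) * (N / L ^ (A + 1)) ≤ N / L ^ A := by
      rw [pow_succ, mul_div_assoc', div_le_div_iff₀ (by positivity) (by positivity)]
      have : (3 : ℝ) * (N * L ^ A) ≤ L * (N * L ^ A) :=
        mul_le_mul_of_nonneg_right (by linarith) (by positivity)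
      linarith
    linarith
  · intro v hv hvB
    simp only [mem_union, not_or] at hvB
    obtain ⟨⟨hv1, hv2⟩, hv3⟩ := hvB
    intro y hy hyT hLn
    have hpt : ∀ n ∈ Icc 1 y, ∀ i, 1 ≤ vl g v i n ∧ ((vl g v i n : ℤ) : ℝ) ≤ (H : ℝ) ^ 5 := by
      intro n hn i
      rw [mem_Icc] at hn
      exact psi_point (by omega) (fun i => ⟨(hQR i).2.1, (hQR i).2.2⟩) hv (hn.2.trans hyT) i
    -- first comparison
    have c1 := hb₁ v hv hv1 y ((hpow (by omega)).trans hy) hyT hLn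
    simp only [one_mul] at c1
    have c2 := hb₂ v hv hv2 y ((hpow (by omega)).trans hy)
    have c3 := hb₃ v hv hv3 y ((hpow (by omega)).trans hy) hyT
    have hvl : ∀ i n, (pl G v i).eval ((n : ℕ) : ℤ) = vl g v i n := by
      intro i n
      rw [psi_vl]
      simp [hgdef, hGdef]
    have e1 : ∑ n ∈ Icc 1 y, ∏ i, lamzI z (vl g v i n) = ∑ n ∈ Icc 1 y, XX z G v n := by
      refine sum_congr rfl fun n hn => ?_
      unfold XX
      refine prod_congr rfl fun i _ => ?_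
      rw [hvl, psi_lz z (hpt n hn i).1]
    have e2 : ∑ n ∈ Icc 1 y, ∏ i, lamP ((pl G v i).eval (n : ℤ)) =
        ∑ n ∈ Icc 1 y, ∏ i, lamP (vl g v i n) := by
      refine sum_congr rfl fun n hn => ?_
      refine prod_congr rfl fun i _ => ?_
      rw [hvl]
    -- the size of the products
    have hlog : Real.log ((H : ℝ) ^ 5) ≤ 5 * L := by
      rw [Real.log_pow]; push_cast; exact le_refl _
    have hX1 : (1 : ℝ) ≤ (H : ℝ) ^ 5 := one_le_pow₀ hH1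
    have d1 : ∀ n ∈ Icc 1 y, |∏ i, lamI (vl g v i n) - ∏ i, lamP (vl g v i n)| ≤
        if (∃ i, lamI (vl g v i n) ≠ lamP (vl g v i n)) then (5 * L) ^ k else 0 := by
      intro n hn
      split_ifs with hcase
      · have hI : ∀ i, lamI (vl g v i n) ≤ 5 * L := fun i =>
          (lamI_le _ _ hX1 (hpt n hn i).2).trans hlog
        exact psi_prod (fun i => lamI_nonneg _) hI (fun i => lamP_nonneg _)
          (fun i => (lamP_le _).trans (hI i))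
      · push Not at hcase
        rw [prod_congr rfl fun i _ => hcase i, sub_self, abs_zero]
    have d2 : |∑ n ∈ Icc 1 y, ∏ i, lamI (vl g v i n) - ∑ n ∈ Icc 1 y, ∏ i, lamP (vl g v i n)| ≤
        y / L ^ (A + 1) := by
      rw [← sum_sub_distrib]
      refine (abs_sum_le_sum_abs _ _).trans ((sum_le_sum d1).trans ?_)
      rw [← sum_filter, sum_const, nsmul_eq_mul]
      have f1 : (5 * L) ^ k ≤ L ^ (2 * k) := by
        rw [pow_mul]
        exact pow_le_pow_left₀ (by positivity) (by nlinarith) k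
      calc _ ≤ (y / L ^ (A + 1 + 2 * k)) * L ^ (2 * k) := by
            refine mul_le_mul ?_ f1 (by positivity) (by positivity)
            convert c3 using 3
        _ = y / L ^ (A + 1) := by
            rw [pow_add L (A + 1) (2 * k)]
            field_simp
    rw [e2]
    have key : ∑ n ∈ Icc 1 y, ∏ i, lamP (vl g v i n) - y * sg z (pl G v) =
        (∑ n ∈ Icc 1 y, (∏ i, lamI (vl g v i n) - ∏ i, lamzI z (vl g v i n))) +
        (∑ n ∈ Icc 1 y, XX z G v n - y * sg z (pl G v)) -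
        (∑ n ∈ Icc 1 y, ∏ i, lamI (vl g v i n) - ∑ n ∈ Icc 1 y, ∏ i, lamP (vl g v i n)) := by
      rw [sum_sub_distrib, e1]
      ring
    rw [key]
    have h4 : 3 * ((y : ℝ) / L ^ (A + 1)) ≤ y / L ^ A := by
      rw [pow_succ, mul_div_assoc', div_le_div_iff₀ (by positivity) (by positivity)]
      have : 3 * ((y : ℝ) * L ^ A) ≤ L * (y * L ^ A) :=
        mul_le_mul_of_nonneg_right hL3 (by positivity)
      linarith
    have a1 := abs_sub (∑ n ∈ Icc 1 y, (∏ i, lamI (vl g v i n) - ∏ i, lamzI z (vl g v i n)) +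
        (∑ n ∈ Icc 1 y, XX z G v n - y * sg z (pl G v)))
        (∑ n ∈ Icc 1 y, ∏ i, lamI (vl g v i n) - ∑ n ∈ Icc 1 y, ∏ i, lamP (vl g v i n))
    have a2 := abs_add_le (∑ n ∈ Icc 1 y, (∏ i, lamI (vl g v i n) - ∏ i, lamzI z (vl g v i n)))
        (∑ n ∈ Icc 1 y, XX z G v n - y * sg z (pl G v))
    linarith

end Pool.Agent.helper24_UT.Psi5
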