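import Pool.Agent.helper24_UT.Stm9

set_option autoImplicit false

namespace Pool.Agent.helper24_UT.Psip

open Finset Polynomial
open Pool.Agent.helper24_UT
open Pool.Agent.H376R2.MR (ch er DP FK)
open Pool.Agent.H373R2.T7 (lamI lamzI lamz Vz pz lamP lamI_nonneg lamzI_nonneg lamP_nonneg lamP_le lamI_le
  lamzI_le Vz_pos Vz_inv_le)

lemma psip_vl {k : ℕ} (G : Fin k → Polynomial ℤ) (v : Fin k → ℕ × ℕ) (i : Fin k) (n : ℕ) :
    (pl G v i).eval (n : ℤ) = vl (fun i n => (G i).eval (n : ℤ)) v i n := by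
  unfold pl vl
  simp only [Polynomial.eval_add, Polynomial.eval_mul, Polynomial.eval_C, Polynomial.eval_X]
  ring

lemma psip_lz (z : ℕ) {m : ℤ} (hm : 1 ≤ m) : lamzI z m = lz z m := by
  unfold lamzI lz lamz
  rw [if_pos hm]
  have e : ∀ p : ℕ, p ∣ m.toNat ↔ (p : ℤ) ∣ m := by
    intro p
    rw [← Int.natCast_dvd_natCast, Int.toNat_of_nonneg (by omega)]
  by_cases h : ∀ p ∈ pz z, ¬ p ∣ m.toNat
  · have h2 : ∀ p ∈ pz z, ¬ (p : ℤ) ∣ m := fun p hp hd => h p hp ((e p).mpr hd)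
    rw [if_pos h, if_pos h2]
  · have h2 : ¬ ∀ p ∈ pz z, ¬ (p : ℤ) ∣ m := fun h3 => h fun p hp hd => h3 p hp ((e p).mp hd)
    rw [if_neg h, if_neg h2]

lemma psip_lz_nonneg (z : ℕ) (m : ℤ) : 0 ≤ lz z m := by
  unfold lz
  split_ifs
  · exact (inv_pos.2 (Vz_pos z)).le
  · exact le_rfl

lemma psip_lz_le (z : ℕ) (m : ℤ) : lz z m ≤ (Vz z)⁻¹ := by
  have h := (inv_pos.2 (Vz_pos z)).le
  unfold lz
  split_ifs
  · exact le_rfl
  · exact h

lemma psip_mem {k : ℕ} {Q R : Fin k → ℕ} {v : Fin k → ℕ × ℕ} (hv : v ∈ Bq Q R) (i : Fin k) :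
    (1 ≤ (v i).1 ∧ (v i).1 ≤ Q i) ∧ (1 ≤ (v i).2 ∧ (v i).2 ≤ R i) := by
  unfold Bq at hv
  rw [Fintype.mem_piFinset] at hv
  have := hv i
  rw [mem_product, mem_Icc, mem_Icc] at this
  exact this

lemma psip_small1 {k : ℕ} (Q R : Fin k → ℕ) (Y : ℝ) (hY : 0 < Y) (i : Fin k) : open Classical in
    (((Bq Q R).filter (fun v => ((v i).1 : ℝ) < Q i / Y)).card : ℝ) ≤ vq Q R / Y := by
  classical
  obtain ⟨P, hP⟩ : ∃ P : Fin k → Finset (ℕ × ℕ), P = fun j => Icc 1 (Q j) ×ˢ Icc 1 (R j) := ⟨_, rfl⟩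
  obtain ⟨P', hP'⟩ : ∃ P' : Finset (ℕ × ℕ), P' = Icc 1 ⌊(Q i : ℝ) / Y⌋₊ ×ˢ Icc 1 (R i) := ⟨_, rfl⟩
  have hsub : (Bq Q R).filter (fun v => ((v i).1 : ℝ) < Q i / Y) ⊆
      Fintype.piFinset (fun j => if j = i then P' else P j) := by
    intro v hv
    rw [mem_filter] at hv
    rw [Fintype.mem_piFinset]
    intro j
    have h1 := psip_mem hv.1 j
    by_cases hj : j = i
    · rw [if_pos hj, hP', mem_product, mem_Icc, mem_Icc]
      subst hj
      exact ⟨⟨h1.1.1, Nat.le_floor hv.2.le⟩, h1.2⟩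
    · rw [if_neg hj, hP, mem_product, mem_Icc, mem_Icc]
      exact h1
  have h1 := card_le_card hsub
  rw [Fintype.card_piFinset] at h1
  have h2 : (((Bq Q R).filter (fun v => ((v i).1 : ℝ) < Q i / Y)).card : ℝ) ≤
      ∏ j : Fin k, ((if j = i then P' else P j).card : ℝ) := by exact_mod_cast h1
  refine h2.trans ?_
  unfold vq
  rw [← Finset.mul_prod_erase univ _ (mem_univ i), if_pos rfl,
    ← Finset.mul_prod_erase univ (fun i => (Q i : ℝ) * R i) (mem_univ i)]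
  have h3 : ∏ j ∈ univ.erase i, ((if j = i then P' else P j).card : ℝ) = ∏ j ∈ univ.erase i, ((Q j : ℝ) * R j) := by
    refine prod_congr rfl fun j hj => ?_
    rw [if_neg (Finset.ne_of_mem_erase hj), hP, card_product, Nat.card_Icc, Nat.card_Icc, Nat.add_sub_cancel,
      Nat.add_sub_cancel]
    push_cast
    ring
  rw [h3]
  have h4 : (P'.card : ℝ) ≤ (Q i : ℝ) / Y * R i := by
    rw [hP', card_product, Nat.card_Icc, Nat.card_Icc, Nat.add_sub_cancel, Nat.add_sub_cancel]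
    push_cast
    exact mul_le_mul_of_nonneg_right (Nat.floor_le (by positivity)) (by positivity)
  calc (P'.card : ℝ) * ∏ j ∈ univ.erase i, ((Q j : ℝ) * R j)
      ≤ ((Q i : ℝ) / Y * R i) * ∏ j ∈ univ.erase i, ((Q j : ℝ) * R j) :=
        mul_le_mul_of_nonneg_right h4 (prod_nonneg fun j _ => by positivity)
    _ = _ := by ring

lemma psip_small {k : ℕ} (Q R : Fin k → ℕ) (Y : ℝ) (hY : 0 < Y) : open Classical in
    (((Bq Q R).filter (fun v => ∃ i, ((v i).1 : ℝ) < Q i / Y)).card : ℝ) ≤ k * (vq Q R / Y) := by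
  classical
  have hsub : (Bq Q R).filter (fun v => ∃ i, ((v i).1 : ℝ) < Q i / Y) ⊆
      (univ : Finset (Fin k)).biUnion (fun i => (Bq Q R).filter (fun v => ((v i).1 : ℝ) < Q i / Y)) := by
    intro v hv
    rw [mem_filter] at hv
    obtain ⟨i, hi⟩ := hv.2
    rw [mem_biUnion]
    exact ⟨i, mem_univ i, mem_filter.mpr ⟨hv.1, hi⟩⟩
  have h1 := (card_le_card hsub).trans card_biUnion_le
  calc (((Bq Q R).filter (fun v => ∃ i, ((v i).1 : ℝ) < Q i / Y)).card : ℝ)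
      ≤ ((∑ i : Fin k, ((Bq Q R).filter (fun v => ((v i).1 : ℝ) < Q i / Y)).card : ℕ) : ℝ) := by
        exact_mod_cast h1
    _ = ∑ i : Fin k, (((Bq Q R).filter (fun v => ((v i).1 : ℝ) < Q i / Y)).card : ℝ) := by
        push_cast; rfl
    _ ≤ ∑ _i : Fin k, vq Q R / Y := sum_le_sum fun i _ => psip_small1 Q R Y hY i
    _ = k * (vq Q R / Y) := by
        rw [sum_const, card_univ, Fintype.card_fin, nsmul_eq_mul]

lemma psip_prod {k : ℕ} {M : ℝ} {x y : Fin k → ℝ} (hx : ∀ i, 0 ≤ x i) (hxM : ∀ i, x i ≤ M)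
    (hy : ∀ i, 0 ≤ y i) (hyM : ∀ i, y i ≤ M) : |∏ i, x i - ∏ i, y i| ≤ M ^ k := by
  have h1 : 0 ≤ ∏ i, x i := prod_nonneg fun i _ => hx i
  have h2 : 0 ≤ ∏ i, y i := prod_nonneg fun i _ => hy i
  have h3 : ∏ i, x i ≤ M ^ k := by
    calc ∏ i, x i ≤ ∏ _i : Fin k, M := prod_le_prod (fun i _ => hx i) fun i _ => hxM i
      _ = M ^ k := by rw [prod_const, card_univ, Fintype.card_fin]
  have h4 : ∏ i, y i ≤ M ^ k := by
    calc ∏ i, y i ≤ ∏ _i : Fin k, M := prod_le_prod (fun i _ => hy i) fun i _ => hyM i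
      _ = M ^ k := by rw [prod_const, card_univ, Fintype.card_fin]
  rw [abs_le]
  constructor <;> linarith

lemma psip_lamP_nat (n : ℕ) : lamP (n : ℤ) = if n.Prime then Real.log n else 0 := by
  unfold lamP
  rw [Int.toNat_natCast]

lemma psip_pp (y : ℕ) (hy : 1 ≤ y) :
    ∑ n ∈ Icc 1 y, (ArithmeticFunction.vonMangoldt n - lamP (n : ℤ)) ≤ 2 * Real.sqrt y * Real.log y := by
  have h1 := Chebyshev.psi_sub_theta_le (x := (y : ℝ)) (by exact_mod_cast hy)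
  rw [Chebyshev.psi_sub_theta_eq_sum_not_prime, Nat.floor_natCast] at h1
  refine le_trans (le_of_eq ?_) h1
  rw [sum_filter]
  refine sum_congr (by ext n; simp [Nat.lt_iff_add_one_le]) fun n _ => ?_
  rw [psip_lamP_nat]
  by_cases hn : n.Prime
  · rw [if_pos hn, if_neg (by simpa using hn), ArithmeticFunction.vonMangoldt_apply_prime hn, sub_self]
  · rw [if_neg hn, if_pos hn, sub_zero]

lemma psip_grow (D m : ℕ) (hm : 1 ≤ m) : ∃ H₀ : ℕ, ∀ H : ℕ, H₀ ≤ H →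
    (Real.log H) ^ D ≤ Real.exp ((Real.log H) ^ (1 / m : ℝ)) := by
  have hm0 : (0 : ℝ) < m := by exact_mod_cast hm
  have h1 : Filter.Tendsto (fun x : ℝ => x ^ (D * m) * Real.exp (-x)) Filter.atTop (nhds 0) :=
    Real.tendsto_pow_mul_exp_neg_atTop_nhds_zero (D * m)
  have h2 : Filter.Tendsto (fun H : ℕ => (Real.log H) ^ (1 / m : ℝ)) Filter.atTop Filter.atTop :=
    (tendsto_rpow_atTop (by positivity)).comp (Real.tendsto_log_atTop.comp tendsto_natCast_atTop_atTop)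
  have h3 := (h1.comp h2).eventually_le_const (show (0 : ℝ) < 1 by norm_num)
  have h4 : ∀ᶠ H : ℕ in Filter.atTop, 1 ≤ H := Filter.eventually_ge_atTop 1
  obtain ⟨H₀, hH₀⟩ := Filter.eventually_atTop.1 (h3.and h4)
  refine ⟨H₀, fun H hH => ?_⟩
  obtain ⟨h5, h6⟩ := hH₀ H hH
  have hL : 0 ≤ Real.log H := Real.log_natCast_nonneg H
  simp only [Function.comp_apply] at h5
  have h7 : ((Real.log H) ^ (1 / m : ℝ)) ^ (D * m) = (Real.log H) ^ D := by
    rw [← Real.rpow_natCast, ← Real.rpow_mul hL]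
    have : (1 / m : ℝ) * ((D * m : ℕ) : ℝ) = (D : ℝ) := by
      push_cast
      field_simp
    rw [this, Real.rpow_natCast]
  rw [h7, Real.exp_neg, ← div_eq_mul_inv, div_le_one (Real.exp_pos _)] at h5
  exact h5

/-- from the prime powers to the primes -/
lemma psip_IP {k : ℕ} (y : ℕ) (hy : 1 ≤ y) (L : ℝ) (hL : 1 ≤ L) (hyL : Real.log y ≤ L) (F : Fin k → ℕ → ℤ)
    (hF : ∀ n ∈ Icc 1 y, ∀ i, lamI (F i n) ≤ 3 * L) (c : ℝ) : open Classical in
    (((Icc 1 y).filter (fun n => ∃ i, lamI (F i n) ≠ lamP (F i n))).card : ℝ) ≤ c →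
    |∑ n ∈ Icc 1 y, ArithmeticFunction.vonMangoldt n * ∏ i, lamI (F i n) -
      ∑ n ∈ Icc 1 y, lamP (n : ℤ) * ∏ i, lamP (F i n)| ≤
      2 * Real.sqrt y * Real.log y * (3 * L) ^ k + L * (3 * L) ^ k * c := by
  classical
  intro hc
  have hLk : 0 ≤ (3 * L) ^ k := by positivity
  have hterm : ∀ n ∈ Icc 1 y, |ArithmeticFunction.vonMangoldt n * ∏ i, lamI (F i n) -
      lamP (n : ℤ) * ∏ i, lamP (F i n)| ≤
      (ArithmeticFunction.vonMangoldt n - lamP (n : ℤ)) * (3 * L) ^ k +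
        (if ∃ i, lamI (F i n) ≠ lamP (F i n) then L * (3 * L) ^ k else 0) := by
    intro n hn
    have hn' := mem_Icc.1 hn
    have h1 : ArithmeticFunction.vonMangoldt n = lamI (n : ℤ) := by
      unfold lamI
      rw [if_pos (by exact_mod_cast hn'.1), Int.toNat_natCast]
    have h2 : lamP (n : ℤ) ≤ ArithmeticFunction.vonMangoldt n := by rw [h1]; exact lamP_le _
    have h3 : 0 ≤ lamP (n : ℤ) := lamP_nonneg _
    have h4 : lamP (n : ℤ) ≤ L := by
      refine h2.trans (ArithmeticFunction.vonMangoldt_le_log.trans (le_trans ?_ hyL))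
      exact Real.log_le_log (by exact_mod_cast hn'.1) (by exact_mod_cast hn'.2)
    have h5 : 0 ≤ ∏ i, lamI (F i n) := prod_nonneg fun i _ => lamI_nonneg _
    have h6 : ∏ i, lamI (F i n) ≤ (3 * L) ^ k := by
      calc ∏ i, lamI (F i n) ≤ ∏ _i : Fin k, (3 * L) := prod_le_prod (fun i _ => lamI_nonneg _) fun i _ => hF n hn i
        _ = (3 * L) ^ k := by rw [prod_const, card_univ, Fintype.card_fin]
    have e : ArithmeticFunction.vonMangoldt n * ∏ i, lamI (F i n) - lamP (n : ℤ) * ∏ i, lamP (F i n) =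
        (ArithmeticFunction.vonMangoldt n - lamP (n : ℤ)) * ∏ i, lamI (F i n) +
        lamP (n : ℤ) * (∏ i, lamI (F i n) - ∏ i, lamP (F i n)) := by ring
    rw [e]
    refine (abs_add_le _ _).trans (add_le_add ?_ ?_)
    · rw [abs_of_nonneg (mul_nonneg (by linarith) h5)]
      exact mul_le_mul_of_nonneg_left h6 (by linarith)
    · rw [abs_mul, abs_of_nonneg h3]
      split_ifs with hcase
      · have h7 : |∏ i, lamI (F i n) - ∏ i, lamP (F i n)| ≤ (3 * L) ^ k :=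
          psip_prod (fun i => lamI_nonneg _) (hF n hn) (fun i => lamP_nonneg _)
            (fun i => (lamP_le _).trans (hF n hn i))
        exact mul_le_mul h4 h7 (abs_nonneg _) (by linarith)
      · push Not at hcase
        rw [prod_congr rfl fun i _ => hcase i, sub_self, abs_zero, mul_zero]
  rw [← sum_sub_distrib]
  refine (abs_sum_le_sum_abs _ _).trans ((sum_le_sum hterm).trans ?_)
  rw [sum_add_distrib, ← sum_mul, ← sum_filter, sum_const, nsmul_eq_mul]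
  refine add_le_add (mul_le_mul_of_nonneg_right (psip_pp y hy) hLk) ?_
  rw [mul_comm]
  exact mul_le_mul_of_nonneg_left hc (by positivity)

/-- from the model on the positive integers to the model on all integers -/
lemma psip_zl {k : ℕ} (y z : ℕ) (L X M : ℝ) (hL : 1 ≤ L) (hX : 0 ≤ X) (hyL : Real.log y ≤ L) (hM : (Vz z)⁻¹ ≤ M)
    (F : Fin k → ℕ → ℤ) (hF : ∀ n ∈ Icc 1 y, X ≤ n → ∀ i, 1 ≤ F i n) :
    |∑ n ∈ Icc 1 y, ArithmeticFunction.vonMangoldt n * ∏ i, lamzI z (F i n) -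
      ∑ n ∈ Icc 1 y, ArithmeticFunction.vonMangoldt n * ∏ i, lz z (F i n)| ≤ X * (L * M ^ k) := by
  classical
  have hM0 : 0 ≤ M := (inv_pos.2 (Vz_pos z)).le.trans hM
  have hterm : ∀ n ∈ Icc 1 y, |ArithmeticFunction.vonMangoldt n * ∏ i, lamzI z (F i n) -
      ArithmeticFunction.vonMangoldt n * ∏ i, lz z (F i n)| ≤ if (n : ℝ) < X then L * M ^ k else 0 := by
    intro n hn
    have hn' := mem_Icc.1 hn
    rw [← mul_sub, abs_mul, abs_of_nonneg ArithmeticFunction.vonMangoldt_nonneg]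
    split_ifs with hcase
    · have h4 : ArithmeticFunction.vonMangoldt n ≤ L := by
        refine ArithmeticFunction.vonMangoldt_le_log.trans (le_trans ?_ hyL)
        exact Real.log_le_log (by exact_mod_cast hn'.1) (by exact_mod_cast hn'.2)
      have h7 : |∏ i, lamzI z (F i n) - ∏ i, lz z (F i n)| ≤ M ^ k :=
        psip_prod (fun i => lamzI_nonneg _ _) (fun i => (lamzI_le _ _).trans hM) (fun i => psip_lz_nonneg _ _)
          (fun i => (psip_lz_le _ _).trans hM)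
      exact mul_le_mul h4 h7 (abs_nonneg _) (by linarith)
    · rw [not_lt] at hcase
      have h8 : ∏ i, lamzI z (F i n) = ∏ i, lz z (F i n) :=
        prod_congr rfl fun i _ => psip_lz z (hF n hn hcase i)
      rw [h8, sub_self, abs_zero, mul_zero]
  rw [← sum_sub_distrib]
  refine (abs_sum_le_sum_abs _ _).trans ((sum_le_sum hterm).trans ?_)
  rw [← sum_filter, sum_const, nsmul_eq_mul]
  apply mul_le_mul_of_nonneg_right _ (by positivity)
  have hsub : (Icc 1 y).filter (fun n : ℕ => (n : ℝ) < X) ⊆ Icc 1 ⌊X⌋₊ := by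
    intro n hn
    rw [mem_filter, mem_Icc] at hn
    rw [mem_Icc]
    exact ⟨hn.1.1, Nat.le_floor hn.2.le⟩
  calc (((Icc 1 y).filter (fun n : ℕ => (n : ℝ) < X)).card : ℝ) ≤ ((Icc 1 ⌊X⌋₊).card : ℝ) := by
        exact_mod_cast card_le_card hsub
    _ = (⌊X⌋₊ : ℝ) := by rw [Nat.card_Icc, Nat.add_sub_cancel]
    _ ≤ X := Nat.floor_le hX

lemma psip_point {k H T A B : ℕ} {L : ℝ} (hL : 2 ≤ L) (hAB : A + 2 ≤ B) (hH : 1 ≤ H) (hTH : T ≤ H)
    {Q R : Fin k → ℕ} (hQR : ∀ i, R i ≤ Q i ∧ Q i ≤ H)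
    {g : Fin k → ℕ → ℤ} (hg : ∀ i, ∀ n ∈ Icc 1 T, |((g i n : ℤ) : ℝ)| * L ^ B ≤ Q i * (n + L ^ B / 2))
    {v : Fin k → ℕ × ℕ} (hv : v ∈ Bq Q R) (hv1 : ∀ i, (Q i : ℝ) / L ^ (A + 1) ≤ (v i).1) {n : ℕ}
    (hn : n ∈ Icc 1 T) (i : Fin k) :
    (L ^ (A + 4) ≤ n → 1 ≤ vl g v i n) ∧ ((vl g v i n : ℤ) : ℝ) ≤ 3 * (H : ℝ) ^ 2 ∧
      |((g i n : ℤ) : ℝ)| ≤ Q i * n := by
  have hm := psip_mem hv i
  have hg1 := hg i n hn
  rw [mem_Icc] at hn
  have hL0 : 0 < L := by linarith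
  have hL1 : 1 ≤ L := by linarith
  have hLA : 0 < L ^ (A + 1) := by positivity
  have hLB0 : 0 < L ^ B := by positivity
  have hLB : 2 * L ^ (A + 1) ≤ L ^ B := by
    calc 2 * L ^ (A + 1) ≤ L * L ^ (A + 1) := mul_le_mul_of_nonneg_right hL hLA.le
      _ = L ^ (A + 2) := by ring
      _ ≤ L ^ B := pow_le_pow_right₀ hL1 hAB
  have hLB2 : 2 ≤ L ^ B := by
    have : (1 : ℝ) ≤ L ^ (A + 1) := one_le_pow₀ hL1
    linarith
  have hH1 : (1 : ℝ) ≤ H := by exact_mod_cast hH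
  have hn1 : (1 : ℝ) ≤ n := by exact_mod_cast hn.1
  have hnH : (n : ℝ) ≤ H := by exact_mod_cast hn.2.trans hTH
  have hQH : (Q i : ℝ) ≤ H := by exact_mod_cast (hQR i).2
  have hRH : (R i : ℝ) ≤ H := by exact_mod_cast (hQR i).1.trans (hQR i).2
  have hQ0 : (0 : ℝ) ≤ Q i := Nat.cast_nonneg _
  have hb : ((v i).1 : ℝ) ≤ H := le_trans (by exact_mod_cast hm.1.2) hQH
  have hc : ((v i).2 : ℝ) ≤ H := le_trans (by exact_mod_cast hm.2.2) hRH
  have hc1 : (1 : ℝ) ≤ (v i).2 := by exact_mod_cast hm.2.1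
  have hb0 : (0 : ℝ) ≤ (v i).1 := by positivity
  have habs := abs_nonneg ((g i n : ℤ) : ℝ)
  -- the size of g
  have hg2 : |((g i n : ℤ) : ℝ)| ≤ Q i * n := by
    have h2 : |((g i n : ℤ) : ℝ)| * L ^ B ≤ (Q i * n) * L ^ B := by
      refine hg1.trans ?_
      have h3 : (n : ℝ) + L ^ B / 2 ≤ n * L ^ B := by nlinarith
      calc (Q i : ℝ) * (n + L ^ B / 2) ≤ Q i * (n * L ^ B) := mul_le_mul_of_nonneg_left h3 hQ0
        _ = _ := by ring
    exact le_of_mul_le_mul_right h2 hLB0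
  have e : ((vl g v i n : ℤ) : ℝ) = (v i).1 * n + (v i).2 + ((g i n : ℤ) : ℝ) := by
    unfold vl
    push_cast
    ring
  refine ⟨fun hnL => ?_, ?_, hg2⟩
  · have h1 : |((g i n : ℤ) : ℝ)| ≤ (v i).1 * n := by
      have h2 := hv1 i
      rw [div_le_iff₀ hLA] at h2
      have h5 : L ^ (A + 1) ≤ n := (pow_le_pow_right₀ hL1 (by omega)).trans hnL
      have h3 : |((g i n : ℤ) : ℝ)| * L ^ B ≤ ((v i).1 * n) * L ^ B := by
        refine hg1.trans ?_
        have h6 : (n + L ^ B / 2) * L ^ (A + 1) ≤ n * L ^ B := by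
          have h7 : (n : ℝ) * (2 * L ^ (A + 1)) ≤ n * L ^ B := mul_le_mul_of_nonneg_left hLB (by linarith)
          have h8 : L ^ B * L ^ (A + 1) ≤ L ^ B * n := mul_le_mul_of_nonneg_left h5 hLB0.le
          nlinarith
        calc (Q i : ℝ) * (n + L ^ B / 2) ≤ ((v i).1 * L ^ (A + 1)) * (n + L ^ B / 2) :=
              mul_le_mul_of_nonneg_right h2 (by positivity)
          _ = (v i).1 * ((n + L ^ B / 2) * L ^ (A + 1)) := by ring
          _ ≤ (v i).1 * (n * L ^ B) := mul_le_mul_of_nonneg_left h6 hb0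
          _ = _ := by ring
      exact le_of_mul_le_mul_right h3 hLB0
    have h5 := abs_le.mp h1
    have : (1 : ℝ) ≤ ((vl g v i n : ℤ) : ℝ) := by
      rw [e]
      linarith [h5.1]
    exact_mod_cast this
  · have h6 := abs_le.mp hg2
    rw [e]
    have k1 : ((v i).1 : ℝ) * n ≤ H * H := mul_le_mul hb hnH (by linarith) (by linarith)
    have k2 : (Q i : ℝ) * n ≤ H * H := mul_le_mul hQH hnH (by linarith) (by linarith)
    have k3 : (H : ℝ) ≤ H * H := by nlinarith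
    nlinarith [h6.2]

lemma psip_deg {k r : ℕ} (G : Fin k → ℤ[X]) (hG : ∀ i, (G i).natDegree ≤ r) (v : Fin k → ℕ × ℕ) (i : Fin k) :
    (pl G v i).natDegree ≤ r + 1 := by
  unfold pl
  refine (natDegree_add_le _ _).trans (max_le ((natDegree_add_le _ _).trans (max_le ?_ ?_)) ?_)
  · exact (hG i).trans (by omega)
  · exact ((natDegree_C_mul_le _ _).trans natDegree_X_le).trans (by omega)
  · rw [natDegree_C]
    omega

lemma psip_gQ {k T B : ℕ} {L : ℝ} (hLB2 : 2 ≤ L ^ B) {Q : Fin k → ℕ} {g : Fin k → ℕ → ℤ}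
    (hg : ∀ i, ∀ n ∈ Icc 1 T, |((g i n : ℤ) : ℝ)| * L ^ B ≤ Q i * (n + L ^ B / 2)) (i : Fin k) {n : ℕ}
    (hn : n ∈ Icc 1 T) : |g i n| ≤ Q i * n := by
  have hg1 := hg i n hn
  rw [mem_Icc] at hn
  have hn1 : (1 : ℝ) ≤ n := by exact_mod_cast hn.1
  have hQ0 : (0 : ℝ) ≤ Q i := Nat.cast_nonneg _
  have h2 : |((g i n : ℤ) : ℝ)| * L ^ B ≤ (Q i * n) * L ^ B := by
    refine hg1.trans ?_
    have h3 : (n : ℝ) + L ^ B / 2 ≤ n * L ^ B := by nlinarith
    calc (Q i : ℝ) * (n + L ^ B / 2) ≤ Q i * (n * L ^ B) := mul_le_mul_of_nonneg_left h3 hQ0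
      _ = _ := by ring
  have h4 := le_of_mul_le_mul_right h2 (by linarith)
  exact_mod_cast h4

/-- the numerical part -/
lemma psip_num (k A E D B₁ : ℕ) (L y : ℝ) (hL : 5 ≤ L) (hD : D = B₁ + E * k + 4 * k + 2 * A + 20) (hy0 : 0 ≤ y)
    (hyD : L ^ D ≤ y) (ly : ℝ) (hly : ly ≤ L) (hly0 : 0 ≤ ly) :
    (L + 1) * (y / L ^ (A + k + 6)) ≤ y / L ^ (A + 2) ∧
    L ^ (A + 4) * (L * (L ^ E) ^ k) ≤ y / L ^ (A + 2) ∧
    2 * Real.sqrt y * ly * (3 * L) ^ k + L * (3 * L) ^ k * (y / L ^ (2 * k + A + 8)) ≤ 2 * (y / L ^ (A + 2)) ∧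
    5 * (y / L ^ (A + 2)) ≤ y / L ^ A := by
  have hL1 : 1 ≤ L := by linarith
  have hL0 : 0 < L := by linarith
  have hpow : ∀ {a b : ℕ}, a ≤ b → L ^ a ≤ L ^ b := fun h => pow_le_pow_right₀ hL1 h
  have hpos : ∀ a : ℕ, 0 < L ^ a := fun a => by positivity
  have h3k : (3 * L) ^ k ≤ L ^ (2 * k) := by
    rw [pow_mul]
    exact pow_le_pow_left₀ (by positivity) (by nlinarith) k
  refine ⟨?_, ?_, ?_, ?_⟩
  · have h1 : L + 1 ≤ L ^ (k + 4) := by
      calc L + 1 ≤ L ^ 2 := by nlinarith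
        _ ≤ L ^ (k + 4) := hpow (by omega)
    have e : A + k + 6 = (A + 2) + (k + 4) := by ring
    rw [e, pow_add, mul_div_assoc', div_le_div_iff₀ (by positivity) (by positivity)]
    have : (L + 1) * (y * L ^ (A + 2)) ≤ L ^ (k + 4) * (y * L ^ (A + 2)) :=
      mul_le_mul_of_nonneg_right h1 (by positivity)
    linarith
  · rw [le_div_iff₀ (hpos _)]
    refine le_trans ?_ hyD
    have e : L ^ (A + 4) * (L * (L ^ E) ^ k) * L ^ (A + 2) = L ^ (2 * A + 7 + E * k) := by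
      rw [← pow_mul]
      ring
    rw [e]
    exact hpow (by omega)
  · have hs : L ^ (2 * k + A + 4) ≤ Real.sqrt y := by
      apply Real.le_sqrt_of_sq_le
      rw [← pow_mul]
      exact (hpow (by omega)).trans hyD
    have hsq : Real.sqrt y * Real.sqrt y = y := Real.mul_self_sqrt hy0
    have hs0 : 0 ≤ Real.sqrt y := Real.sqrt_nonneg y
    have h1 : 2 * Real.sqrt y * ly * (3 * L) ^ k ≤ y / L ^ (A + 2) := by
      rw [le_div_iff₀ (hpos _)]
      have h2 : 2 * ly * (3 * L) ^ k * L ^ (A + 2) ≤ L ^ (2 * k + A + 4) := by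
        calc 2 * ly * (3 * L) ^ k * L ^ (A + 2) ≤ L * L * L ^ (2 * k) * L ^ (A + 2) := by
              gcongr
              linarith
          _ = L ^ (2 * k + A + 4) := by ring
      calc 2 * Real.sqrt y * ly * (3 * L) ^ k * L ^ (A + 2)
          = Real.sqrt y * (2 * ly * (3 * L) ^ k * L ^ (A + 2)) := by ring
        _ ≤ Real.sqrt y * Real.sqrt y := mul_le_mul_of_nonneg_left (h2.trans hs) hs0
        _ = y := hsq
    have h2 : L * (3 * L) ^ k * (y / L ^ (2 * k + A + 8)) ≤ y / L ^ (A + 2) := by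
      have h3 : L * (3 * L) ^ k ≤ L ^ (2 * k + 6) := by
        calc L * (3 * L) ^ k ≤ L * L ^ (2 * k) := mul_le_mul_of_nonneg_left h3k hL0.le
          _ = L ^ (2 * k + 1) := by ring
          _ ≤ L ^ (2 * k + 6) := hpow (by omega)
      have e : 2 * k + A + 8 = (A + 2) + (2 * k + 6) := by ring
      rw [e, pow_add, mul_div_assoc', div_le_div_iff₀ (by positivity) (by positivity)]
      have : (L * (3 * L) ^ k) * (y * L ^ (A + 2)) ≤ L ^ (2 * k + 6) * (y * L ^ (A + 2)) :=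
        mul_le_mul_of_nonneg_right h3 (by positivity)
      linarith
    linarith
  · rw [pow_add, mul_div_assoc', div_le_div_iff₀ (by positivity) (by positivity)]
    have h1 : 5 ≤ L ^ 2 := by nlinarith
    have : 5 * (y * L ^ A) ≤ L ^ 2 * (y * L ^ A) := mul_le_mul_of_nonneg_right h1 (by positivity)
    linarith

theorem main : S_ALL3 → S_MTP → S_PP3 → S_PSIP := by
  classical
  intro hALL hMTP hPP k r e A m he hm
  obtain ⟨E₀', B₁, hALL⟩ := hALL k e (A + k + 6) he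
  refine ⟨E₀' + 1, B₁ + A + 10, fun E hE => ?_⟩
  obtain ⟨H₁, hALL⟩ := hALL E
  obtain ⟨H₂, hMTP⟩ := hMTP k (r + 1) E (A + 2) m hm
  obtain ⟨H₃, hPP⟩ := hPP k e (2 * k + A + 8) he
  obtain ⟨D, hD⟩ : ∃ D : ℕ, D = B₁ + E * k + 4 * k + 2 * A + 20 := ⟨_, rfl⟩
  obtain ⟨H₄, hgrow⟩ := psip_grow D m hm
  refine ⟨H₁ + H₂ + H₃ + H₄ + ⌈Real.exp (k + 5)⌉₊ + 3, fun H hH T hTH Q R hQR G hdeg hG => ?_⟩
  have hgr := hgrow H (by omega)
  obtain ⟨L, hLdef⟩ : ∃ L : ℝ, L = Real.log H := ⟨_, rfl⟩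
  rw [← hLdef] at hgr
  simp only [← hLdef] at hQR hG ⊢
  have hH3 : 3 ≤ H := by omega
  have hH0 : (0 : ℝ) < H := by exact_mod_cast (by omega : 0 < H)
  have hLk : (k : ℝ) + 5 ≤ L := by
    rw [hLdef, Real.le_log_iff_exp_le hH0]
    refine (Nat.le_ceil _).trans ?_
    exact_mod_cast (by omega : ⌈Real.exp (k + 5)⌉₊ ≤ H)
  have hk0 : (0 : ℝ) ≤ k := by positivity
  have hL5 : 5 ≤ L := by linarith
  have hL1 : 1 ≤ L := by linarith
  have hL0 : 0 < L := by linarith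
  have hpow : ∀ {a b : ℕ}, a ≤ b → L ^ a ≤ L ^ b := fun h => pow_le_pow_right₀ hL1 h
  have hpos : ∀ a : ℕ, 0 < L ^ a := fun a => by positivity
  obtain ⟨B, hB⟩ : ∃ B : ℕ, B = B₁ + A + 10 := ⟨_, rfl⟩
  rw [← hB] at hQR hG
  have hLB2 : 2 ≤ L ^ B := by
    calc (2 : ℝ) ≤ L ^ 1 := by rw [pow_one]; linarith
      _ ≤ L ^ B := hpow (by omega)
  have hvq : 0 ≤ vq Q R := prod_nonneg fun i _ => by positivity
  obtain ⟨g, hgdef⟩ : ∃ g : Fin k → ℕ → ℤ, g = fun i (n : ℕ) => (G i).eval (n : ℤ) := ⟨_, rfl⟩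
  have hgB : ∀ i, ∀ n ∈ Icc 1 T, |((g i n : ℤ) : ℝ)| * L ^ B ≤ Q i * (n + L ^ B / 2) := by
    rw [hgdef]
    exact hG
  have hgQ : ∀ i, ∀ n ∈ Icc 1 T, |g i n| ≤ Q i * n := fun i n hn => psip_gQ hLB2 hgB i hn
  have hRgR : ∀ i, R i ≤ Q i ∧ Q i ≤ H := fun i => (hQR i).1.2
  have hgH : ∀ i, ∀ n ∈ Icc 1 T, |g i n| ≤ H * n := by
    intro i n hn
    refine (hgQ i n hn).trans ?_
    have : (Q i : ℤ) ≤ H := by exact_mod_cast (hRgR i).2
    exact mul_le_mul_of_nonneg_right this (by positivity)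
  -- the sieving limit
  obtain ⟨z, hz⟩ : ∃ z : ℕ, z = ⌊L ^ E⌋₊ := ⟨_, rfl⟩
  rw [← hz]
  have hzle : (z : ℝ) ≤ L ^ E := by rw [hz]; exact Nat.floor_le (by positivity)
  have hzge : L ^ E₀' ≤ z := by
    have h1 : L ^ E < z + 1 := by rw [hz]; exact Nat.lt_floor_add_one _
    have h2 : L ^ (E₀' + 1) ≤ L ^ E := hpow hE
    have h3 : L ^ (E₀' + 1) = L ^ E₀' * L := pow_succ _ _
    have h4 : (1 : ℝ) ≤ L ^ E₀' := one_le_pow₀ hL1
    nlinarith
  have hz1 : 1 ≤ z := by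
    have : (1 : ℝ) ≤ z := (one_le_pow₀ hL1).trans hzge
    exact_mod_cast this
  have hVz : (Vz z)⁻¹ ≤ L ^ E := (Vz_inv_le z hz1).trans hzle
  -- the weights
  obtain ⟨w, hw⟩ : ∃ w : ℕ → ℝ, w = fun n => if n ≤ T then ArithmeticFunction.vonMangoldt n / (L + 1) else 0 :=
    ⟨_, rfl⟩
  have hΛ : ∀ n : ℕ, n ≤ T → ArithmeticFunction.vonMangoldt n ≤ L := by
    intro n hn
    rcases Nat.eq_zero_or_pos n with rfl | hn0
    · simp only [ArithmeticFunction.map_zero]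
      exact hL0.le
    · refine ArithmeticFunction.vonMangoldt_le_log.trans ?_
      rw [hLdef]
      exact Real.log_le_log (by exact_mod_cast hn0) (by exact_mod_cast hn.trans hTH)
  have hw1 : ∀ n, |w n| ≤ 1 := by
    intro n
    rw [hw]
    dsimp only
    split_ifs with hn
    · rw [abs_of_nonneg (div_nonneg ArithmeticFunction.vonMangoldt_nonneg (by linarith)), div_le_one (by linarith)]
      linarith [hΛ n hn]
    · rw [abs_zero]
      exact zero_le_one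
  have hQR1 : ∀ i, Rg e H (Q i) (R i) ∧ (Q i : ℝ) * T * Real.log H ^ B₁ ≤ (R i : ℝ) ^ 2 := by
    intro i
    refine ⟨(hQR i).1, le_trans ?_ (hQR i).2⟩
    rw [← hLdef]
    exact mul_le_mul_of_nonneg_left (hpow (by omega)) (by positivity)
  obtain ⟨Bad₁, hs₁, hc₁, hb₁⟩ := hALL H (by omega) T Q R hQR1 z (by rw [← hLdef]; exact hzge)
    (by rw [← hLdef]; exact hzle) g hgQ w hw1
  obtain ⟨Bad₃, hs₃, hc₃, hb₃⟩ := hPP H (by omega) Q R (fun i => (hQR i).1) T hTH g hgH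
  have hM := hMTP H (by omega) z hz1 (by rw [← hLdef]; exact hzle)
  simp only [← hLdef] at hc₁ hb₁ hc₃ hb₃ hM
  obtain ⟨Bad₄, hBad4⟩ : ∃ Bad₄ : Finset (Fin k → ℕ × ℕ),
      Bad₄ = (Bq Q R).filter (fun v => ∃ i, ((v i).1 : ℝ) < Q i / L ^ (A + 1)) := ⟨_, rfl⟩
  have hc₄ : (Bad₄.card : ℝ) ≤ k * (vq Q R / L ^ (A + 1)) := by
    rw [hBad4]
    exact psip_small Q R (L ^ (A + 1)) (hpos _)
  refine ⟨Bad₁ ∪ Bad₃ ∪ Bad₄, ?_, ?_, ?_⟩
  · refine union_subset (union_subset hs₁ hs₃) ?_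
    rw [hBad4]
    exact filter_subset _ _
  · have h1 : ((Bad₁ ∪ Bad₃ ∪ Bad₄).card : ℝ) ≤ Bad₁.card + Bad₃.card + Bad₄.card := by
      have a1 := card_union_le (Bad₁ ∪ Bad₃) Bad₄
      have a2 := card_union_le Bad₁ Bad₃
      exact_mod_cast (by omega : (Bad₁ ∪ Bad₃ ∪ Bad₄).card ≤ Bad₁.card + Bad₃.card + Bad₄.card)
    have h2 : vq Q R / L ^ (A + k + 6) ≤ vq Q R / L ^ (A + 1) :=
      div_le_div_of_nonneg_left hvq (hpos _) (hpow (by omega))
    have h3 : vq Q R / L ^ (2 * k + A + 8) ≤ vq Q R / L ^ (A + 1) :=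
      div_le_div_of_nonneg_left hvq (hpos _) (hpow (by omega))
    have h4 : ((k : ℝ) + 2) * (vq Q R / L ^ (A + 1)) ≤ vq Q R / L ^ A := by
      rw [pow_succ, mul_div_assoc', div_le_div_iff₀ (by positivity) (by positivity)]
      have : ((k : ℝ) + 2) * (vq Q R * L ^ A) ≤ L * (vq Q R * L ^ A) :=
        mul_le_mul_of_nonneg_right (by linarith) (by positivity)
      linarith
    linarith
  · intro v hv hvB
    simp only [mem_union, not_or] at hvB
    obtain ⟨⟨hv1, hv3⟩, hv4⟩ := hvB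
    have hvb : ∀ i, (Q i : ℝ) / L ^ (A + 1) ≤ (v i).1 := by
      intro i
      by_contra hcon
      rw [not_le] at hcon
      exact hv4 (by rw [hBad4, mem_filter]; exact ⟨hv, i, hcon⟩)
    refine ⟨hvb, fun y hy hyT => ?_⟩
    have hyD : L ^ D ≤ y := hgr.trans hy
    have hy0 : (0 : ℝ) ≤ y := by positivity
    have hy1 : 1 ≤ y := by
      have : (1 : ℝ) ≤ y := (one_le_pow₀ hL1).trans hyD
      exact_mod_cast this
    have hyL : Real.log y ≤ L := by
      rw [hLdef]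
      exact Real.log_le_log (by exact_mod_cast hy1) (by exact_mod_cast hyT.trans hTH)
    have hsubT : ∀ n ∈ Icc 1 y, n ∈ Icc 1 T := by
      intro n hn
      rw [mem_Icc] at hn ⊢
      exact ⟨hn.1, hn.2.trans hyT⟩
    have hpt := fun n (hn : n ∈ Icc 1 y) i => psip_point (by linarith : 2 ≤ L) (by omega : A + 2 ≤ B)
      (by omega : 1 ≤ H) hTH hRgR hgB hv hvb (hsubT n hn) i
    -- the size of the logarithms
    have hlog : Real.log (3 * (H : ℝ) ^ 2) ≤ 3 * L := by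
      have h1 : 3 * (H : ℝ) ^ 2 ≤ (H : ℝ) ^ 3 := by
        have : (3 : ℝ) ≤ H := by exact_mod_cast hH3
        nlinarith [sq_nonneg (H : ℝ)]
      calc Real.log (3 * (H : ℝ) ^ 2) ≤ Real.log ((H : ℝ) ^ 3) := Real.log_le_log (by positivity) h1
        _ = 3 * L := by rw [Real.log_pow, hLdef]; push_cast; rfl
    have hX1 : (1 : ℝ) ≤ 3 * (H : ℝ) ^ 2 := by
      have : (3 : ℝ) ≤ H := by exact_mod_cast hH3
      nlinarith
    have hI : ∀ n ∈ Icc 1 y, ∀ i, lamI (vl g v i n) ≤ 3 * L := fun n hn i =>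
      (lamI_le _ _ hX1 (hpt n hn i).2.1).trans hlog
    -- first comparison
    have c1 := hb₁ v hv hv1 y ((hpow (by omega)).trans hyD) hyT
    have c1' : |∑ n ∈ Icc 1 y, ArithmeticFunction.vonMangoldt n * ∏ i, lamI (vl g v i n) -
        ∑ n ∈ Icc 1 y, ArithmeticFunction.vonMangoldt n * ∏ i, lamzI z (vl g v i n)| ≤
        (L + 1) * (y / L ^ (A + k + 6)) := by
      have e1 : ∑ n ∈ Icc 1 y, ArithmeticFunction.vonMangoldt n * ∏ i, lamI (vl g v i n) -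
        ∑ n ∈ Icc 1 y, ArithmeticFunction.vonMangoldt n * ∏ i, lamzI z (vl g v i n) =
        (L + 1) * ∑ n ∈ Icc 1 y, w n * (∏ i, lamI (vl g v i n) - ∏ i, lamzI z (vl g v i n)) := by
        rw [← sum_sub_distrib, mul_sum]
        refine sum_congr rfl fun n hn => ?_
        have h1 : (L + 1) * w n = ArithmeticFunction.vonMangoldt n := by
          rw [hw]
          dsimp only
          rw [if_pos (mem_Icc.1 (hsubT n hn)).2]
          field_simp
        rw [← mul_assoc, h1]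
        ring
      rw [e1, abs_mul, abs_of_pos (by linarith : 0 < L + 1)]
      exact mul_le_mul_of_nonneg_left c1 (by linarith)
    have c2 := hM (pl G v) (psip_deg G hdeg v) y hy
    have c3 := psip_IP y hy1 L hL1 hyL (vl g v) hI _ (by convert hb₃ v hv hv3 y hy1 hyT using 3)
    have c4 := psip_zl y z L (L ^ (A + 4)) (L ^ E) hL1 (by positivity) hyL hVz (vl g v)
      (fun n hn hnX i => (hpt n hn i).1 hnX)
    have e2 : ∑ n ∈ Icc 1 y, lamP (n : ℤ) * ∏ i, lamP ((pl G v i).eval (n : ℤ)) =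
        ∑ n ∈ Icc 1 y, lamP (n : ℤ) * ∏ i, lamP (vl g v i n) := by
      refine sum_congr rfl fun n hn => ?_
      congr 1
      refine prod_congr rfl fun i _ => ?_
      rw [psip_vl, hgdef]
    have e3 : ∑ n ∈ Icc 1 y, ArithmeticFunction.vonMangoldt n * ∏ i, lz z ((pl G v i).eval (n : ℤ)) =
        ∑ n ∈ Icc 1 y, ArithmeticFunction.vonMangoldt n * ∏ i, lz z (vl g v i n) := by
      refine sum_congr rfl fun n hn => ?_
      congr 1
      refine prod_congr rfl fun i _ => ?_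
      rw [psip_vl, hgdef]
    rw [e3] at c2
    rw [e2]
    obtain ⟨n1, n2, n3, n4⟩ := psip_num k A E D B₁ L y hL5 hD hy0 hyD (Real.log y) hyL
      (Real.log_natCast_nonneg y)
    obtain ⟨SI, hSI⟩ : ∃ s : ℝ, s = ∑ n ∈ Icc 1 y, ArithmeticFunction.vonMangoldt n * ∏ i, lamI (vl g v i n) :=
      ⟨_, rfl⟩
    obtain ⟨Sz, hSz⟩ : ∃ s : ℝ, s = ∑ n ∈ Icc 1 y, ArithmeticFunction.vonMangoldt n * ∏ i, lamzI z (vl g v i n) :=
      ⟨_, rfl⟩
    obtain ⟨Sl, hSl⟩ : ∃ s : ℝ, s = ∑ n ∈ Icc 1 y, ArithmeticFunction.vonMangoldt n * ∏ i, lz z (vl g v i n) :=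
      ⟨_, rfl⟩
    obtain ⟨SP, hSP⟩ : ∃ s : ℝ, s = ∑ n ∈ Icc 1 y, lamP (n : ℤ) * ∏ i, lamP (vl g v i n) := ⟨_, rfl⟩
    rw [← hSI, ← hSz] at c1'
    rw [← hSl] at c2
    rw [← hSI, ← hSP] at c3
    rw [← hSz, ← hSl] at c4
    rw [← hSP]
    have h1 := abs_le.1 c1'
    have h2 := abs_le.1 c2
    have h3 := abs_le.1 c3
    have h4 := abs_le.1 c4
    rw [abs_le]
    constructor <;> linarith [h1.1, h1.2, h2.1, h2.2, h3.1, h3.2, h4.1, h4.2]

end Pool.Agent.helper24_UT.Psip
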