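/-
UT_PSIP5   (project UT of helper24: primes at almost all systems of polynomials; very_famous ids, partial results)
Proved by helper155, after Pool/Agent/helper24_UT/Psip4.lean.
-/
import Pool.Agent.helper24_UT.Stm15
import Pool.Agent.helper24_UT.Psip

set_option autoImplicit false

namespace Pool.Agent.helper24_UT.Psip5

open Finset Polynomial
open Pool.Agent.helper24_UT
open Pool.Agent.helper24_UT.Psip
open Pool.Agent.H373R2.T7 (lamI lamzI lamz Vz pz lamP lamI_nonneg lamzI_nonneg lamP_nonneg lamP_le lamI_le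
  lamzI_le Vz_pos Vz_inv_le)
open Pool.Agent.H807R2.Dav (ee)

/-- the numerical part -/
lemma psip5_num (k A E D B₁ : ℕ) (L y : ℝ) (hL : 6 ≤ L) (hD : D = B₁ + E * k + 6 * k + 2 * A + 20) (hy0 : 0 ≤ y)
    (hyD : L ^ D ≤ y) (ly : ℝ) (hly : ly ≤ 3 * L) (hly0 : 0 ≤ ly) :
    (4 * L) * (y / L ^ (A + k + 6)) ≤ y / L ^ (A + 2) ∧
    2 * Real.sqrt y * ly * (3 * (3 * L)) ^ k + (3 * L) * (3 * (3 * L)) ^ k * (y / L ^ (3 * k + A + 8)) ≤
      2 * (y / L ^ (A + 2)) ∧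
    4 * (y / L ^ (A + 2)) ≤ y / L ^ A := by
  have hL1 : 1 ≤ L := by linarith
  have hL0 : 0 < L := by linarith
  have hpow : ∀ {a b : ℕ}, a ≤ b → L ^ a ≤ L ^ b := fun h => pow_le_pow_right₀ hL1 h
  have hpos : ∀ a : ℕ, 0 < L ^ a := fun a => by positivity
  have h3k : (3 * (3 * L)) ^ k ≤ L ^ (3 * k) := by
    rw [pow_mul]
    refine pow_le_pow_left₀ (by positivity) ?_ k
    nlinarith [sq_nonneg (L - 6)]
  refine ⟨?_, ?_, ?_⟩
  · have h1 : 4 * L ≤ L ^ (k + 4) := by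
      calc 4 * L ≤ L ^ 2 := by nlinarith
        _ ≤ L ^ (k + 4) := hpow (by omega)
    have e : A + k + 6 = (A + 2) + (k + 4) := by ring
    rw [e, pow_add, mul_div_assoc', div_le_div_iff₀ (by positivity) (by positivity)]
    have : (4 * L) * (y * L ^ (A + 2)) ≤ L ^ (k + 4) * (y * L ^ (A + 2)) :=
      mul_le_mul_of_nonneg_right h1 (by positivity)
    linarith
  · have hs : L ^ (3 * k + A + 4) ≤ Real.sqrt y := by
      apply Real.le_sqrt_of_sq_le
      rw [← pow_mul]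
      exact (hpow (by omega)).trans hyD
    have hsq : Real.sqrt y * Real.sqrt y = y := Real.mul_self_sqrt hy0
    have hs0 : 0 ≤ Real.sqrt y := Real.sqrt_nonneg y
    have h1 : 2 * Real.sqrt y * ly * (3 * (3 * L)) ^ k ≤ y / L ^ (A + 2) := by
      rw [le_div_iff₀ (hpos _)]
      have h2 : 2 * ly * (3 * (3 * L)) ^ k * L ^ (A + 2) ≤ L ^ (3 * k + A + 4) := by
        have h4 : 2 * ly ≤ L * L := by nlinarith
        calc 2 * ly * (3 * (3 * L)) ^ k * L ^ (A + 2) ≤ L * L * L ^ (3 * k) * L ^ (A + 2) := by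
              gcongr
          _ = L ^ (3 * k + A + 4) := by ring
      calc 2 * Real.sqrt y * ly * (3 * (3 * L)) ^ k * L ^ (A + 2)
          = Real.sqrt y * (2 * ly * (3 * (3 * L)) ^ k * L ^ (A + 2)) := by ring
        _ ≤ Real.sqrt y * Real.sqrt y := mul_le_mul_of_nonneg_left (h2.trans hs) hs0
        _ = y := hsq
    have h2 : (3 * L) * (3 * (3 * L)) ^ k * (y / L ^ (3 * k + A + 8)) ≤ y / L ^ (A + 2) := by
      have h3 : (3 * L) * (3 * (3 * L)) ^ k ≤ L ^ (3 * k + 6) := by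
        calc (3 * L) * (3 * (3 * L)) ^ k ≤ (L * L) * L ^ (3 * k) := by
              gcongr
              linarith
          _ = L ^ (3 * k + 2) := by ring
          _ ≤ L ^ (3 * k + 6) := hpow (by omega)
      have e : 3 * k + A + 8 = (A + 2) + (3 * k + 6) := by ring
      rw [e, pow_add, mul_div_assoc', div_le_div_iff₀ (by positivity) (by positivity)]
      have : ((3 * L) * (3 * (3 * L)) ^ k) * (y * L ^ (A + 2)) ≤ L ^ (3 * k + 6) * (y * L ^ (A + 2)) :=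
        mul_le_mul_of_nonneg_right h3 (by positivity)
      linarith
    linarith
  · rw [pow_add, mul_div_assoc', div_le_div_iff₀ (by positivity) (by positivity)]
    have h1 : 4 ≤ L ^ 2 := by nlinarith
    have : 4 * (y * L ^ A) ≤ L ^ 2 * (y * L ^ A) := mul_le_mul_of_nonneg_right h1 (by positivity)
    linarith

/-- the values of the linear forms -/
lemma psip5_point {k H : ℕ} (hH : 3 ≤ H) {Q R : Fin k → ℕ} (hQ : ∀ i, Q i ≤ H) (hR : ∀ i, R i ≤ H)
    {v : Fin k → ℕ × ℕ} (hv : v ∈ Bq Q R) {n : ℕ} (hn : n ∈ Icc 1 (H ^ 3)) (i : Fin k) :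
    1 ≤ vl (fun _ _ => 0) v i n ∧ ((vl (fun _ _ => 0) v i n : ℤ) : ℝ) ≤ (H : ℝ) ^ 5 := by
  have hm := psip_mem hv i
  rw [mem_Icc] at hn
  have hH3 : (3 : ℝ) ≤ H := by exact_mod_cast hH
  have hn1 : (1 : ℝ) ≤ n := by exact_mod_cast hn.1
  have hnH : (n : ℝ) ≤ (H : ℝ) ^ 3 := by exact_mod_cast hn.2
  have hb : ((v i).1 : ℝ) ≤ H := by exact_mod_cast hm.1.2.trans (hQ i)
  have hc : ((v i).2 : ℝ) ≤ H := by exact_mod_cast hm.2.2.trans (hR i)
  refine ⟨?_, ?_⟩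
  · unfold vl
    have h1 : (1 : ℤ) ≤ (v i).2 := by exact_mod_cast hm.2.1
    have h2 : (0 : ℤ) ≤ ((v i).1 : ℤ) * n := by positivity
    linarith
  · have e : ((vl (fun _ _ => 0) v i n : ℤ) : ℝ) = (v i).1 * n + (v i).2 := by
      unfold vl
      push_cast
      ring
    rw [e]
    have k1 : ((v i).1 : ℝ) * n ≤ H * (H : ℝ) ^ 3 := mul_le_mul hb hnH (by linarith) (by linarith)
    have h0 : (0 : ℝ) ≤ (H : ℝ) ^ 4 := by positivity
    have k2 : (H : ℝ) ≤ (H : ℝ) ^ 4 := by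
      calc (H : ℝ) = (H : ℝ) ^ 1 := (pow_one _).symm
        _ ≤ (H : ℝ) ^ 4 := pow_le_pow_right₀ (by linarith) (by norm_num)
    have k3 : 2 * (H : ℝ) ^ 4 ≤ (H : ℝ) ^ 5 := by
      calc 2 * (H : ℝ) ^ 4 ≤ H * (H : ℝ) ^ 4 := mul_le_mul_of_nonneg_right (by linarith) h0
        _ = (H : ℝ) ^ 5 := by ring
    have k4 : H * (H : ℝ) ^ 3 = (H : ℝ) ^ 4 := by ring
    linarith

theorem main : S_ALL5 → S_MTP → S_PP5 → S_PSIP5 := by
  classical
  intro hALL hMTP hPP k e A m he hm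
  obtain ⟨E₀', B₁, hALL⟩ := hALL k e (A + k + 6) he
  refine ⟨E₀' + 1, fun E hE => ?_⟩
  obtain ⟨H₁, hALL⟩ := hALL E
  obtain ⟨H₂, hMTP⟩ := hMTP k 1 E (A + 2) m hm
  obtain ⟨B₃, H₃, hPP⟩ := hPP k e (3 * k + A + 8) he
  obtain ⟨D, hD⟩ : ∃ D : ℕ, D = (B₁ + B₃) + E * k + 6 * k + 2 * A + 20 := ⟨_, rfl⟩
  obtain ⟨H₄, hgrow⟩ := psip_grow D m hm
  refine ⟨H₁ + H₂ + H₃ + H₄ + ⌈Real.exp 6⌉₊ + 3, fun H hH Q R hQR => ?_⟩
  have hgr := hgrow H (by omega)
  obtain ⟨L, hLdef⟩ : ∃ L : ℝ, L = Real.log H := ⟨_, rfl⟩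
  rw [← hLdef] at hgr
  simp only [← hLdef]
  have hH3 : 3 ≤ H := by omega
  have hH0 : (0 : ℝ) < H := by exact_mod_cast (by omega : 0 < H)
  have hL6 : 6 ≤ L := by
    rw [hLdef, Real.le_log_iff_exp_le hH0]
    refine (Nat.le_ceil _).trans ?_
    exact_mod_cast (by omega : ⌈Real.exp 6⌉₊ ≤ H)
  have hL1 : 1 ≤ L := by linarith
  have hL0 : 0 < L := by linarith
  have hpow : ∀ {a b : ℕ}, a ≤ b → L ^ a ≤ L ^ b := fun h => pow_le_pow_right₀ hL1 h
  have hpos : ∀ a : ℕ, 0 < L ^ a := fun a => by positivity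
  have hvq : 0 ≤ vq Q R := prod_nonneg fun i _ => by positivity
  have hRH : ∀ i, R i ≤ H := fun i => (hQR i).2.2
  have hQH : ∀ i, Q i ≤ H := fun i => (hQR i).2.1.trans (hQR i).2.2
  -- the sieving limit
  obtain ⟨z, hz⟩ : ∃ z : ℕ, z = ⌊L ^ E⌋₊ := ⟨_, rfl⟩
  rw [← hz]
  have hzle : (z : ℝ) ≤ L ^ E := by rw [hz]; exact Nat.floor_le (by positivity)
  have hzge : L ^ E₀' ≤ z := by
    have h1 : L ^ E < z + 1 := by rw [hz]; exact Nat.lt_floor_add_one _
    have h2 : L ^ (E₀' + 1) ≤ L ^ E := hpow hE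
    have h3 : L ^ (E₀' + 1) = L ^ E₀' * L := pow_succ _ _
    have h4 : (1 : ℝ) ≤ L ^ E₀' := one_le_pow₀ hL1
    nlinarith
  have hz1 : 1 ≤ z := by
    have : (1 : ℝ) ≤ z := (one_le_pow₀ hL1).trans hzge
    exact_mod_cast this
  have hVz : (Vz z)⁻¹ ≤ L ^ E := (Vz_inv_le z hz1).trans hzle
  -- the logarithms of the arguments
  have hlogT : ∀ n : ℕ, 1 ≤ n → n ≤ H ^ 3 → Real.log n ≤ 3 * L := by
    intro n hn hnT
    have h1 : (n : ℝ) ≤ (H : ℝ) ^ 3 := by exact_mod_cast hnT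
    calc Real.log n ≤ Real.log ((H : ℝ) ^ 3) := Real.log_le_log (by exact_mod_cast hn) h1
      _ = 3 * L := by rw [Real.log_pow, hLdef]; push_cast; rfl
  -- the weights
  obtain ⟨w, hw⟩ : ∃ w : ℕ → ℝ, w = fun n => if n ≤ H ^ 3 then ArithmeticFunction.vonMangoldt n / (4 * L) else 0 :=
    ⟨_, rfl⟩
  have hΛ : ∀ n : ℕ, n ≤ H ^ 3 → ArithmeticFunction.vonMangoldt n ≤ 3 * L := by
    intro n hn
    rcases Nat.eq_zero_or_pos n with rfl | hn0
    · simp only [ArithmeticFunction.map_zero]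
      linarith
    · exact ArithmeticFunction.vonMangoldt_le_log.trans (hlogT n hn0 hn)
  have hw1 : ∀ n, |w n| ≤ 1 := by
    intro n
    rw [hw]
    dsimp only
    split_ifs with hn
    · rw [abs_of_nonneg (div_nonneg ArithmeticFunction.vonMangoldt_nonneg (by linarith)), div_le_one (by linarith)]
      linarith [hΛ n hn]
    · rw [abs_zero]
      exact zero_le_one
  obtain ⟨Bad₁, hs₁, hc₁, hb₁⟩ := hALL H (by omega) Q R hQR z (by rw [← hLdef]; exact hzge)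
    (by rw [← hLdef]; exact hzle) w hw1
  obtain ⟨Bad₃, hs₃, hc₃, hb₃⟩ := hPP H (by omega) Q R hQR
  have hM := hMTP H (by omega) z hz1 (by rw [← hLdef]; exact hzle)
  simp only [← hLdef] at hc₁ hb₁ hc₃ hb₃ hM
  refine ⟨Bad₁ ∪ Bad₃, union_subset hs₁ hs₃, ?_, ?_⟩
  · have h1 : ((Bad₁ ∪ Bad₃).card : ℝ) ≤ Bad₁.card + Bad₃.card := by
      exact_mod_cast card_union_le Bad₁ Bad₃
    have h2 : vq Q R / L ^ (A + k + 6) ≤ vq Q R / L ^ (A + 1) :=
      div_le_div_of_nonneg_left hvq (hpos _) (hpow (by omega))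
    have h3 : vq Q R / L ^ (3 * k + A + 8) ≤ vq Q R / L ^ (A + 1) :=
      div_le_div_of_nonneg_left hvq (hpos _) (hpow (by omega))
    have h4 : 2 * (vq Q R / L ^ (A + 1)) ≤ vq Q R / L ^ A := by
      rw [pow_succ, mul_div_assoc', div_le_div_iff₀ (by positivity) (by positivity)]
      have : 2 * (vq Q R * L ^ A) ≤ L * (vq Q R * L ^ A) :=
        mul_le_mul_of_nonneg_right (by linarith) (by positivity)
      linarith
    linarith
  · intro v hv hvB
    simp only [mem_union, not_or] at hvB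
    obtain ⟨hv1, hv3⟩ := hvB
    intro y hy hyT hLn
    have hyD : L ^ D ≤ y := hgr.trans hy
    have hy0 : (0 : ℝ) ≤ y := by positivity
    have hy1 : 1 ≤ y := by
      have : (1 : ℝ) ≤ y := (one_le_pow₀ hL1).trans hyD
      exact_mod_cast this
    have hyL : Real.log y ≤ 3 * L := hlogT y hy1 hyT
    have hsubT : ∀ n ∈ Icc 1 y, n ∈ Icc 1 (H ^ 3) := by
      intro n hn
      rw [mem_Icc] at hn ⊢
      exact ⟨hn.1, hn.2.trans hyT⟩
    have hpt := fun n (hn : n ∈ Icc 1 y) i => psip5_point hH3 hQH hRH hv (hsubT n hn) i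
    -- the size of the logarithms
    have hlog : Real.log ((H : ℝ) ^ 5) ≤ 3 * (3 * L) := by
      rw [Real.log_pow, ← hLdef]
      push_cast
      linarith
    have hX1 : (1 : ℝ) ≤ (H : ℝ) ^ 5 := by
      have : (1 : ℝ) ≤ H := by exact_mod_cast (by omega : 1 ≤ H)
      exact one_le_pow₀ this
    have hI : ∀ n ∈ Icc 1 y, ∀ i, lamI (vl (fun _ _ => 0) v i n) ≤ 3 * (3 * L) := fun n hn i =>
      (lamI_le _ _ hX1 (hpt n hn i).2).trans hlog
    -- first comparison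
    have c1 := hb₁ v hv hv1 y ((hpow (by omega)).trans hyD) hyT hLn
    have c1' : |∑ n ∈ Icc 1 y, ArithmeticFunction.vonMangoldt n * ∏ i, lamI (vl (fun _ _ => 0) v i n) -
        ∑ n ∈ Icc 1 y, ArithmeticFunction.vonMangoldt n * ∏ i, lamzI z (vl (fun _ _ => 0) v i n)| ≤
        (4 * L) * (y / L ^ (A + k + 6)) := by
      have e1 : ∑ n ∈ Icc 1 y, ArithmeticFunction.vonMangoldt n * ∏ i, lamI (vl (fun _ _ => 0) v i n) -
        ∑ n ∈ Icc 1 y, ArithmeticFunction.vonMangoldt n * ∏ i, lamzI z (vl (fun _ _ => 0) v i n) =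
        (4 * L) * ∑ n ∈ Icc 1 y, w n * (∏ i, lamI (vl (fun _ _ => 0) v i n) -
          ∏ i, lamzI z (vl (fun _ _ => 0) v i n)) := by
        rw [← sum_sub_distrib, mul_sum]
        refine sum_congr rfl fun n hn => ?_
        have h1 : (4 * L) * w n = ArithmeticFunction.vonMangoldt n := by
          rw [hw]
          dsimp only
          rw [if_pos (mem_Icc.1 (hsubT n hn)).2]
          field_simp
        rw [← mul_assoc, h1]
        ring
      rw [e1, abs_mul, abs_of_pos (by linarith : 0 < 4 * L)]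
      exact mul_le_mul_of_nonneg_left c1 (by linarith)
    have hdeg : ∀ i, (pl (fun _ => 0) v i).natDegree ≤ 1 := fun i =>
      psip_deg (r := 0) (fun _ => (0 : ℤ[X])) (fun i => by rw [natDegree_zero]) v i
    have c2 := hM (pl (fun _ => 0) v) hdeg y hy
    have c3 := psip_IP y hy1 (3 * L) (by linarith) hyL (vl (fun _ _ => 0) v) hI _
      (by convert hb₃ v hv hv3 y ((hpow (by omega)).trans hyD) hyT using 3)
    have c4 := psip_zl y z (3 * L) 0 (L ^ E) (by linarith) le_rfl hyL hVz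
      (vl (fun _ _ => 0) v) (fun n hn _ i => (hpt n hn i).1)
    have evl : ∀ (i : Fin k) (n : ℕ), (pl (fun _ => 0) v i).eval (n : ℤ) = vl (fun _ _ => 0) v i n := by
      intro i n
      rw [psip_vl]
      simp only [Polynomial.eval_zero]
    have e2 : ∑ n ∈ Icc 1 y, lamP (n : ℤ) * ∏ i, lamP ((pl (fun _ => 0) v i).eval (n : ℤ)) =
        ∑ n ∈ Icc 1 y, lamP (n : ℤ) * ∏ i, lamP (vl (fun _ _ => 0) v i n) := by
      refine sum_congr rfl fun n hn => ?_
      congr 1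
      refine prod_congr rfl fun i _ => ?_
      rw [evl]
    have e3 : ∑ n ∈ Icc 1 y, ArithmeticFunction.vonMangoldt n * ∏ i, lz z ((pl (fun _ => 0) v i).eval (n : ℤ)) =
        ∑ n ∈ Icc 1 y, ArithmeticFunction.vonMangoldt n * ∏ i, lz z (vl (fun _ _ => 0) v i n) := by
      refine sum_congr rfl fun n hn => ?_
      congr 1
      refine prod_congr rfl fun i _ => ?_
      rw [evl]
    rw [e3] at c2
    rw [e2]
    obtain ⟨n1, n3, n4⟩ := psip5_num k A E D (B₁ + B₃) L y hL6 hD hy0 hyD (Real.log y) hyL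
      (Real.log_natCast_nonneg y)
    rw [zero_mul] at c4
    obtain ⟨SI, hSI⟩ : ∃ S : ℝ, S = ∑ n ∈ Icc 1 y, ArithmeticFunction.vonMangoldt n *
        ∏ i, lamI (vl (fun _ _ => 0) v i n) := ⟨_, rfl⟩
    obtain ⟨Sz, hSz⟩ : ∃ S : ℝ, S = ∑ n ∈ Icc 1 y, ArithmeticFunction.vonMangoldt n *
        ∏ i, lamzI z (vl (fun _ _ => 0) v i n) := ⟨_, rfl⟩
    obtain ⟨Sl, hSl⟩ : ∃ S : ℝ, S = ∑ n ∈ Icc 1 y, ArithmeticFunction.vonMangoldt n *
        ∏ i, lz z (vl (fun _ _ => 0) v i n) := ⟨_, rfl⟩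
    obtain ⟨SP, hSP⟩ : ∃ S : ℝ, S = ∑ n ∈ Icc 1 y, lamP (n : ℤ) * ∏ i, lamP (vl (fun _ _ => 0) v i n) := ⟨_, rfl⟩
    rw [← hSI, ← hSz] at c1'
    rw [← hSl] at c2
    rw [← hSI, ← hSP] at c3
    rw [← hSz, ← hSl] at c4
    rw [← hSP]
    have h1 := abs_le.1 c1'
    have h2 := abs_le.1 c2
    have h3 := abs_le.1 c3
    have h4 := abs_le.1 c4
    rw [abs_le]
    constructor <;> linarith [h1.1, h1.2, h2.1, h2.2, h3.1, h3.2, h4.1, h4.2]

end Pool.Agent.helper24_UT.Psip5
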