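import Pool.Agent.helper24_UT.Stm15

/-! UT_R10G: almost all systems of linear forms, general boxes (variant of R10.lean; job 6708, helper267). -/

set_option autoImplicit false

namespace Pool.Agent.helper24_UT.R10g

open Finset Polynomial
open Pool.Agent.helper24_UT
open Pool.Agent.H373R2.T7 (lamI lamzI lamz Vz pz lamP mem_pz Vz_pos Vz_inv_small)
open Pool.Agent.H807R2.Dav (ee)

theorem om_le {k : ℕ} (F : Fin k → ℤ[X]) (p : ℕ) : om F p ≤ p := by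
  unfold om
  refine (card_filter_le _ _).trans ?_
  rw [card_range]

theorem sg_nonneg {k : ℕ} (z : ℕ) (F : Fin k → ℤ[X]) : 0 ≤ sg z F := by
  unfold sg
  refine prod_nonneg fun p hp => ?_
  have hp2 : (2 : ℝ) ≤ p := by exact_mod_cast (mem_pz.1 hp).2.two_le
  have h1 : (om F p : ℝ) ≤ p := by exact_mod_cast om_le F p
  have h2 : (om F p : ℝ) / p ≤ 1 := (div_le_one (by linarith)).2 h1
  have h3 : 1 / (p : ℝ) ≤ 1 := (div_le_one (by linarith)).2 (by linarith)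
  have h4 : (0 : ℝ) ≤ 1 - 1 / (p : ℝ) := by linarith
  exact div_nonneg (by linarith) (pow_nonneg h4 _)

theorem sg_le {k : ℕ} (z : ℕ) (F : Fin k → ℤ[X]) : sg z F ≤ ((Vz z)⁻¹) ^ k := by
  unfold sg Vz
  rw [← prod_inv_distrib, ← prod_pow]
  refine prod_le_prod (fun p hp => ?_) (fun p hp => ?_)
  · have hp2 : (2 : ℝ) ≤ p := by exact_mod_cast (mem_pz.1 hp).2.two_le
    have h1 : (om F p : ℝ) ≤ p := by exact_mod_cast om_le F p
    have h2 : (om F p : ℝ) / p ≤ 1 := (div_le_one (by linarith)).2 h1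
    have h3 : 1 / (p : ℝ) ≤ 1 := (div_le_one (by linarith)).2 (by linarith)
    have h4 : (0 : ℝ) ≤ 1 - 1 / (p : ℝ) := by linarith
    exact div_nonneg (by linarith) (pow_nonneg h4 _)
  · have hp2 : (2 : ℝ) ≤ p := by exact_mod_cast (mem_pz.1 hp).2.two_le
    have h3 : 1 / (p : ℝ) ≤ 1 := (div_le_one (by linarith)).2 (by linarith)
    have h4 : (0 : ℝ) ≤ 1 - 1 / (p : ℝ) := by linarith
    have h5 : (0 : ℝ) ≤ (om F p : ℝ) / p := by positivity
    rw [inv_pow, ← one_div]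
    exact div_le_div_of_nonneg_right (by linarith) (pow_nonneg h4 _)

lemma z_facts {A E : ℕ} {L : ℝ} (hL : 8 ≤ L) (hE : A + 18 ≤ E) :
    1 ≤ ⌊L ^ E⌋₊ ∧ ((⌊L ^ E⌋₊ : ℕ) : ℝ) ≤ L ^ E ∧ L ^ 3 ≤ ((⌊L ^ E⌋₊ : ℕ) : ℝ) ∧
      L ^ 2 / ((⌊L ^ E⌋₊ : ℕ) : ℝ) ≤ 1 / (2 * L ^ A) := by
  have hM1 : 1 ≤ L := by linarith
  have hM0 : 0 < L := by linarith
  have h1 : L ^ E < ((⌊L ^ E⌋₊ : ℕ) : ℝ) + 1 := Nat.lt_floor_add_one _
  have h2 : L ^ (A + 4) ≤ L ^ E := pow_le_pow_right₀ hM1 (by omega)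
  have h3 : 1 ≤ L ^ (A + 3) := one_le_pow₀ hM1
  have h4 : L ^ (A + 4) = L ^ (A + 3) * L := pow_succ _ _
  have h5 : L ^ (A + 3) ≤ ((⌊L ^ E⌋₊ : ℕ) : ℝ) := by nlinarith
  have h6 : L ^ 3 ≤ L ^ (A + 3) := pow_le_pow_right₀ hM1 (by omega)
  have h7 : (0:ℝ) < ((⌊L ^ E⌋₊ : ℕ) : ℝ) := by linarith
  refine ⟨by exact_mod_cast h7, Nat.floor_le (by positivity), by linarith, ?_⟩
  have hLA : 0 < L ^ A := pow_pos (by linarith) A
  rw [div_le_div_iff₀ h7 (by positivity)]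
  calc L ^ 2 * (2 * L ^ A) = 2 * L ^ (A + 2) := by ring
    _ ≤ L * L ^ (A + 2) := mul_le_mul_of_nonneg_right (by linarith) (by positivity)
    _ = L ^ (A + 3) := by ring
    _ ≤ 1 * ((⌊L ^ E⌋₊ : ℕ) : ℝ) := by linarith

lemma pl_eval {k : ℕ} (v : Fin k → ℕ × ℕ) (i : Fin k) (n : ℤ) :
    (pl (fun _ => 0) v i).eval n = ((v i).1 : ℤ) * n + (v i).2 := by
  unfold pl
  simp

lemma pl_deg {k : ℕ} (v : Fin k → ℕ × ℕ) (i : Fin k) : (pl (fun _ => 0) v i).natDegree ≤ 1 := by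
  unfold pl
  refine (natDegree_add_le _ _).trans ?_
  refine max_le ?_ ?_
  · refine (natDegree_add_le _ _).trans ?_
    refine max_le ?_ ?_
    · simp
    · exact (natDegree_C_mul_le _ _).trans natDegree_X_le
  · rw [natDegree_C]
    exact Nat.zero_le _

/-- the final comparison -/
lemma fin_cmp {k A : ℕ} {L y cn S se ex zz : ℝ} (hL : (4 : ℝ) ^ (k + 1) ≤ L) (hL8 : 8 ≤ L)
    (hse : 0 < se) (hS : 1 / L ≤ S) (hSs : |S - se| ≤ se * zz) (hzz : zz ≤ 1 / (2 * L ^ A))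
    (hex : y * (1 / (4 * L)) ^ k ≤ ex) (hy : 0 ≤ y)
    (hc : |cn - S * ex| ≤ y / L ^ (A + k + 6)) : |cn - se * ex| ≤ se * ex / L ^ A := by
  have hL0 : 0 < L := by linarith
  have hL1 : 1 ≤ L := by linarith
  have hLA : 1 ≤ L ^ A := one_le_pow₀ hL1
  have hex0 : 0 ≤ ex := le_trans (by positivity) hex
  have h1 : se * zz ≤ se * (1 / (2 * L ^ A)) := mul_le_mul_of_nonneg_left hzz hse.le
  have h2 : |(S - se) * ex| ≤ se * (1 / (2 * L ^ A)) * ex := by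
    rw [abs_mul, abs_of_nonneg hex0]
    exact mul_le_mul_of_nonneg_right (hSs.trans h1) hex0
  have h3 : S ≤ 2 * se := by
    have h4 := (abs_le.1 (hSs.trans h1)).2
    have h5 : (1 : ℝ) / (2 * L ^ A) ≤ 1 := by
      rw [div_le_one (by positivity)]; linarith
    have h6 : se * (1 / (2 * L ^ A)) ≤ se * 1 := mul_le_mul_of_nonneg_left h5 hse.le
    linarith
  have h7 : 1 / (2 * L) ≤ se := by
    have : 1 / (2 * L) = (1 / L) / 2 := by field_simp
    rw [this]; linarith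
  have h8 : y / L ^ (A + k + 6) ≤ se * ex * (1 / (2 * L ^ A)) := by
    have h9 : (1 / (2 * L)) * (y * (1 / (4 * L)) ^ k) ≤ se * ex :=
      mul_le_mul h7 hex (by positivity) hse.le
    have h10 : (1 / (2 * L)) * (y * (1 / (4 * L)) ^ k) * (1 / (2 * L ^ A)) ≤
        se * ex * (1 / (2 * L ^ A)) := mul_le_mul_of_nonneg_right h9 (by positivity)
    refine le_trans ?_ h10
    have h11 : (1 / (2 * L)) * (y * (1 / (4 * L)) ^ k) * (1 / (2 * L ^ A)) =
        y / (4 ^ (k + 1) * L ^ (A + k + 1)) := by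
      rw [one_div_pow, mul_pow]
      field_simp
      ring
    rw [h11]
    apply div_le_div_of_nonneg_left hy (by positivity)
    have h12 : L ^ (A + k + 6) = L ^ 5 * L ^ (A + k + 1) := by rw [← pow_add]; congr 1; ring
    rw [h12]
    apply mul_le_mul_of_nonneg_right _ (by positivity)
    calc (4 : ℝ) ^ (k + 1) ≤ L := hL
      _ = L ^ 1 := (pow_one _).symm
      _ ≤ L ^ 5 := pow_le_pow_right₀ hL1 (by norm_num)
  have h13 : cn - se * ex = (cn - S * ex) + (S - se) * ex := by ring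
  rw [h13]
  refine (abs_add_le _ _).trans ?_
  have h14 : se * ex / L ^ A = se * ex * (1 / (2 * L ^ A)) + se * (1 / (2 * L ^ A)) * ex := by
    field_simp
    ring
  rw [h14]
  linarith

/-- powers of the logarithm are smaller than small powers -/
lemma ev_log (B : ℕ) {δ : ℝ} (hδ : 0 < δ) : ∃ H₀ : ℕ, ∀ H : ℕ, H₀ ≤ H → 2 * (Real.log H) ^ B ≤ (H : ℝ) ^ δ := by
  have h1 := (isLittleO_log_rpow_rpow_atTop (B : ℝ) hδ).def (by norm_num : (0:ℝ) < 1 / 2)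
  have h2 : Filter.Tendsto (fun N : ℕ => (N : ℝ)) Filter.atTop Filter.atTop := tendsto_natCast_atTop_atTop
  obtain ⟨n, hn⟩ := Filter.eventually_atTop.1 (h2.eventually h1)
  refine ⟨n + 3, fun H hH => ?_⟩
  have h3 := hn H (by omega)
  have hH3 : (3 : ℝ) ≤ H := by exact_mod_cast (by omega : 3 ≤ H)
  have hL : 0 ≤ Real.log H := Real.log_nonneg (by linarith)
  rw [Real.rpow_natCast, Real.norm_of_nonneg (pow_nonneg hL _), Real.norm_of_nonneg (by positivity)] at h3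
  linarith

/-- the lengths `t` between `y / L ^ B₂` and `y` belong to the box with `2 e` in place of `e` -/
lemma ln_mono {e H Q R y t B₂ : ℕ} {L : ℝ} (he : 1 ≤ e) (hH : 3 ≤ H) (hR : Rg5 e H Q R) (hL : 1 ≤ L)
    (hg : 2 * L ^ B₂ ≤ (H : ℝ) ^ (1 / (2 * (e : ℝ) ^ 2) : ℝ)) (hy : Ln5 e Q R y) (hyB : L ^ B₂ ≤ y)
    (ht : ⌊(y : ℝ) / L ^ B₂⌋₊ ≤ t) (hty : t ≤ y) : Ln5 (2 * e) Q R t := by
  obtain ⟨hR1, hR2, hR3⟩ := hR
  obtain ⟨hy1, hy2⟩ := hy
  have he1 : (1 : ℝ) ≤ e := by exact_mod_cast he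
  have he0 : (0 : ℝ) < e := by linarith
  have hH1 : (1 : ℝ) ≤ H := by exact_mod_cast (by omega : 1 ≤ H)
  have hHe : (1 : ℝ) ≤ (H : ℝ) ^ (1 / e : ℝ) := Real.one_le_rpow hH1 (by positivity)
  have hQ1 : (1 : ℝ) ≤ Q := hHe.trans hR1
  have hQR : (Q : ℝ) ≤ R := by exact_mod_cast hR2
  have hRr : (1 : ℝ) ≤ R := hQ1.trans hQR
  have hR0 : (0 : ℝ) < R := by linarith
  have hLB : 0 < L ^ B₂ := pow_pos (by linarith) _
  have hc : ((2 * e : ℕ) : ℝ) = 2 * (e : ℝ) := by push_cast; ring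
  refine ⟨?_, ?_⟩
  · rw [hc]
    have h1 : (H : ℝ) ^ (1 / (2 * (e : ℝ) ^ 2) : ℝ) ≤ (R : ℝ) ^ (1 / (2 * (e : ℝ)) : ℝ) := by
      have h2 : (H : ℝ) ^ (1 / (2 * (e : ℝ) ^ 2) : ℝ) = ((H : ℝ) ^ (1 / e : ℝ)) ^ (1 / (2 * (e : ℝ)) : ℝ) := by
        rw [← Real.rpow_mul (by linarith)]
        congr 1
        field_simp
      rw [h2]
      exact Real.rpow_le_rpow (by linarith) (hR1.trans hQR) (by positivity)
    have h3 : (R : ℝ) ^ (1 / 3 + 1 / e : ℝ) =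
        (R : ℝ) ^ (1 / 3 + 1 / (2 * (e : ℝ)) : ℝ) * (R : ℝ) ^ (1 / (2 * (e : ℝ)) : ℝ) := by
      rw [← Real.rpow_add hR0]
      congr 1
      field_simp
      ring
    have h4 : (1 : ℝ) ≤ (y : ℝ) / L ^ B₂ := by rwa [one_le_div hLB]
    have h5 : (y : ℝ) / L ^ B₂ / 2 ≤ t := by
      have h6 : (y : ℝ) / L ^ B₂ < (⌊(y : ℝ) / L ^ B₂⌋₊ : ℝ) + 1 := Nat.lt_floor_add_one _
      have h7 : 1 ≤ ⌊(y : ℝ) / L ^ B₂⌋₊ := (Nat.one_le_floor_iff _).2 h4
      have h8 : (1 : ℝ) ≤ (⌊(y : ℝ) / L ^ B₂⌋₊ : ℝ) := by exact_mod_cast h7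
      have h9 : (⌊(y : ℝ) / L ^ B₂⌋₊ : ℝ) ≤ t := by exact_mod_cast ht
      linarith
    have h10 : (R : ℝ) ^ (1 / 3 + 1 / (2 * (e : ℝ)) : ℝ) * (2 * L ^ B₂) ≤ (Q : ℝ) * y := by
      refine le_trans ?_ hy1
      rw [h3]
      exact mul_le_mul_of_nonneg_left (hg.trans h1) (by positivity)
    have h11 : (Q : ℝ) * ((y : ℝ) / L ^ B₂ / 2) ≤ (Q : ℝ) * t := mul_le_mul_of_nonneg_left h5 (by linarith)
    refine le_trans ?_ h11
    have h12 : (Q : ℝ) * ((y : ℝ) / L ^ B₂ / 2) = (Q : ℝ) * y / (2 * L ^ B₂) := by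
      field_simp
    rw [h12, le_div_iff₀ (by positivity)]
    exact h10
  · rw [hc]
    have h1 : (Q : ℝ) * t ≤ (Q : ℝ) * y := mul_le_mul_of_nonneg_left (by exact_mod_cast hty) (by linarith)
    refine h1.trans (hy2.trans ?_)
    refine Real.rpow_le_rpow_of_exponent_le hRr ?_
    have : 1 / (2 * (e : ℝ)) ≤ 1 / (e : ℝ) := one_div_le_one_div_of_le he0 (by linarith)
    linarith

theorem main : S_PSI5 → S_IN5 → S_TLD → S_LOW → S_R10G := by
  classical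
  intro hPSI hIN hTLD hLOW k e A hk he
  obtain ⟨A', B₂, n1, hA', hIN2⟩ := hIN k (A + k + 6)
  obtain ⟨E₀, B₁, hPSI'⟩ := hPSI k (2 * e) A' (by omega)
  obtain ⟨E, hE, hEA⟩ : ∃ E : ℕ, E₀ ≤ E ∧ A + 18 ≤ E := ⟨E₀ + A + 18, by omega, by omega⟩
  obtain ⟨n2, hPSI2⟩ := hPSI' E hE
  obtain ⟨n3, hLOW2⟩ := hLOW k 1 E
  obtain ⟨n4, hV⟩ := Vz_inv_small E
  obtain ⟨n6, hTLD2⟩ := hTLD k
  have he1 : (1 : ℝ) ≤ e := by exact_mod_cast he
  have he0 : (0 : ℝ) < e := by linarith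
  obtain ⟨n7, hlog⟩ := ev_log B₂ (δ := 1 / (2 * (e : ℝ) ^ 2)) (by positivity)
  have hlim : Filter.Tendsto (fun N : ℕ => Real.log (N : ℝ)) Filter.atTop Filter.atTop :=
    Real.tendsto_log_atTop.comp (tendsto_natCast_atTop_atTop (R := ℝ))
  obtain ⟨n5, hn5⟩ := Filter.eventually_atTop.1
    (hlim.eventually_ge_atTop (max 8 ((4 : ℝ) ^ (k + 1))))
  refine ⟨B₁ + B₂ + 1, n1 + n2 + n3 + n4 + n5 + n6 + n7 + 3, fun H hH Q R hR => ?_⟩
  have hLm := hn5 H (by omega)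
  have hL8 : (8 : ℝ) ≤ Real.log H := (le_max_left _ _).trans hLm
  have hL4 : (4 : ℝ) ^ (k + 1) ≤ Real.log H := (le_max_right _ _).trans hLm
  have hlogH := hlog H (by omega)
  set L := Real.log H with hLdef
  have hL1 : (1 : ℝ) ≤ L := by linarith
  have hL0 : (0 : ℝ) < L := by linarith
  have hH3 : (3 : ℝ) ≤ H := by exact_mod_cast (by omega : 3 ≤ H)
  have hH1 : (1 : ℝ) ≤ H := by linarith
  have hexp : (3 - 1 / e : ℝ) ≤ 3 := by
    have : (0 : ℝ) ≤ 1 / e := by positivity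
    linarith
  have hexp0 : (0 : ℝ) ≤ (3 - 1 / e : ℝ) := by
    have : (1 : ℝ) / e ≤ 1 := by rw [div_le_one (by linarith)]; exact he1
    linarith
  have hHe : (1 : ℝ) ≤ (H : ℝ) ^ (1 / e : ℝ) := Real.one_le_rpow hH1 (by positivity)
  have hQR : ∀ i, Q i ≤ R i := fun i => (hR i).2.1
  have hRH : ∀ i, R i ≤ H := fun i => (hR i).2.2
  have hQ1 : ∀ i, (1 : ℝ) ≤ Q i := fun i => hHe.trans (hR i).1
  -- the admissible lengths
  have hPH : ∀ y : ℕ, (∀ i, Ln5 e (Q i) (R i) y) → y ≤ H ^ 3 := by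
    intro y hy
    have h1 := (hy ⟨0, by omega⟩).2
    have hRH' : ((R ⟨0, by omega⟩ : ℕ) : ℝ) ≤ H := by exact_mod_cast hRH ⟨0, by omega⟩
    have h2 : ((R ⟨0, by omega⟩ : ℕ) : ℝ) ^ (3 - 1 / e : ℝ) ≤ (H : ℝ) ^ (3 - 1 / e : ℝ) :=
      Real.rpow_le_rpow (Nat.cast_nonneg _) hRH' hexp0
    have h3 : (H : ℝ) ^ (3 - 1 / e : ℝ) ≤ (H : ℝ) ^ (3 : ℝ) :=
      Real.rpow_le_rpow_of_exponent_le hH1 hexp
    have h4 : (H : ℝ) ^ (3 : ℝ) = ((H ^ 3 : ℕ) : ℝ) := by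
      push_cast
      exact_mod_cast Real.rpow_natCast (H : ℝ) 3
    have h6 : (y : ℝ) ≤ ((Q ⟨0, by omega⟩ : ℕ) : ℝ) * y := le_mul_of_one_le_left (Nat.cast_nonneg _) (hQ1 _)
    have h5 : (y : ℝ) ≤ ((H ^ 3 : ℕ) : ℝ) := by rw [← h4]; linarith
    exact_mod_cast h5
  have hRg : ∀ i, Rg5 (2 * e) H (Q i) (R i) := by
    intro i
    refine ⟨le_trans ?_ (hR i).1, hQR i, hRH i⟩
    refine Real.rpow_le_rpow_of_exponent_le hH1 ?_
    push_cast
    exact one_div_le_one_div_of_le he0 (by linarith)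
  obtain ⟨Bad, hBad, hcard, hgood⟩ := hPSI2 H (by omega) Q R hRg
  rw [← hLdef] at hcard hgood
  obtain ⟨z1, z2, z3, z4⟩ := z_facts (A := A) (E := E) hL8 hEA
  set z : ℕ := ⌊L ^ E⌋₊ with hz
  have hvq : 0 ≤ vq Q R := by
    unfold vq
    exact prod_nonneg fun i _ => by positivity
  -- the map
  have hle : ((Fintype.piFinset (fun i => Icc 1 (Q i)) ×ˢ
      Fintype.piFinset (fun i => Icc 1 (R i))).filter
      (fun x : (Fin k → ℕ) × (Fin k → ℕ) => AdmD x.1 x.2 ∧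
      ¬ ∀ y : ℕ, L ^ (B₁ + B₂ + 1) ≤ y → (∀ i, Ln5 e (Q i) (R i) y) →
        |(cntD x.1 x.2 y : ℝ) - serD x.1 x.2 * expD x.1 x.2 y| ≤
          serD x.1 x.2 * expD x.1 x.2 y / L ^ A)).card ≤ Bad.card := by
    refine Finset.card_le_card_of_injOn (fun x i => (x.1 i, x.2 i)) ?_ ?_
    · intro x hx
      rw [mem_coe, mem_filter, mem_product, Fintype.mem_piFinset, Fintype.mem_piFinset] at hx
      obtain ⟨⟨hx1, hx2⟩, hadm, hng⟩ := hx
      rw [mem_coe]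
      by_contra hnb
      apply hng
      obtain ⟨b, c⟩ := x
      simp only at hx1 hx2 hadm hnb ⊢
      set v : Fin k → ℕ × ℕ := fun i => (b i, c i) with hv
      have hb1 : ∀ i, 1 ≤ b i ∧ b i ≤ Q i := fun i => mem_Icc.1 (hx1 i)
      have hc1 : ∀ i, 1 ≤ c i ∧ c i ≤ R i := fun i => mem_Icc.1 (hx2 i)
      have hbH : ∀ i, b i ≤ H := fun i => (hb1 i).2.trans ((hQR i).trans (hRH i))
      have hcH : ∀ i, c i ≤ H := fun i => (hc1 i).2.trans (hRH i)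
      have hvB : v ∈ Bq Q R := by
        unfold Bq
        rw [Fintype.mem_piFinset]
        intro i
        rw [mem_product]
        exact ⟨hx1 i, hx2 i⟩
      have g2 := hgood v hvB hnb
      intro y hLy hy
      have hyH : y ≤ H ^ 3 := hPH y hy
      have hS0 : 0 ≤ sg z (pl (fun _ => 0) v) := sg_nonneg _ _
      have hSle : sg z (pl (fun _ => 0) v) ≤ L ^ (k + 1) := by
        refine (sg_le _ _).trans ?_
        refine (pow_le_pow_left₀ (inv_pos.2 (Vz_pos z)).le (hV H (by omega) z z1 z2) k).trans ?_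
        exact pow_le_pow_right₀ hL1 (by omega)
      have hSlow : 1 / L ≤ sg z (pl (fun _ => 0) v) := by
        refine hLOW2 H (by omega) z z2 (pl (fun _ => 0) v) (fun i => pl_deg v i) ?_
        intro p hp
        obtain ⟨n, hn⟩ := hadm.2 p hp
        refine ⟨n, fun i h => hn i ?_⟩
        rw [pl_eval] at h
        have h2 : (((b i * n + c i : ℕ)) : ℤ) = ((v i).1 : ℤ) * (n : ℤ) + (v i).2 := by
          rw [hv]; push_cast; ring
        rw [← h2] at h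
        exact_mod_cast h
      -- the shortest length
      have hLB2 : 0 < L ^ B₂ := pow_pos hL0 _
      have hLB1 : 1 ≤ L ^ B₁ := one_le_pow₀ hL1
      have hyq : L ^ B₁ + 1 ≤ (y : ℝ) / L ^ B₂ := by
        rw [le_div_iff₀ hLB2]
        refine le_trans ?_ hLy
        have e1 : L ^ (B₁ + B₂ + 1) = (L * L ^ B₁) * L ^ B₂ := by ring
        rw [e1]
        refine mul_le_mul_of_nonneg_right ?_ hLB2.le
        nlinarith
      have hT0 : L ^ B₁ ≤ (⌊(y : ℝ) / L ^ B₂⌋₊ : ℝ) := by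
        have h6 : (y : ℝ) / L ^ B₂ < (⌊(y : ℝ) / L ^ B₂⌋₊ : ℝ) + 1 := Nat.lt_floor_add_one _
        linarith
      have hT1 : 1 ≤ ⌊(y : ℝ) / L ^ B₂⌋₊ := by
        have : (1 : ℝ) ≤ (⌊(y : ℝ) / L ^ B₂⌋₊ : ℝ) := hLB1.trans hT0
        exact_mod_cast this
      have hT2 : (⌊(y : ℝ) / L ^ B₂⌋₊ : ℝ) * L ^ B₂ ≤ y := by
        have h7 : (⌊(y : ℝ) / L ^ B₂⌋₊ : ℝ) ≤ (y : ℝ) / L ^ B₂ := Nat.floor_le (by positivity)
        rwa [le_div_iff₀ hLB2] at h7
      have hyB : L ^ B₂ ≤ y := by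
        refine le_trans ?_ hLy
        exact pow_le_pow_right₀ hL1 (by omega)
      have hcnt := hIN2 H (by omega) y ⌊(y : ℝ) / L ^ B₂⌋₊ hT1 hT2 hyH b c (sg z (pl (fun _ => 0) v))
        (fun i => ⟨(hb1 i).1, hbH i, (hc1 i).1, hcH i⟩)
        hS0 hSle (by
          intro t ht hty
          have h1 := g2 t (hT0.trans (by exact_mod_cast ht)) (hty.trans hyH)
            (fun i => ln_mono he (by omega) (hR i) hL1 hlogH (hy i) hyB ht hty)
          simp only [pl_eval] at h1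
          exact h1)
      obtain ⟨hse, hdiff⟩ := hTLD2 H (by omega) b c
        (fun i => ⟨(hb1 i).1, hbH i, (hc1 i).1, hcH i⟩)
        hadm z z3
      have hex : (y : ℝ) * (1 / (4 * L)) ^ k ≤ expD b c y := by
        unfold expD
        have h1 : ∑ n ∈ Icc 1 y, (1 / (4 * L)) ^ k = (y : ℝ) * (1 / (4 * L)) ^ k := by
          rw [sum_const, Nat.card_Icc, nsmul_eq_mul]
          simp
        rw [← h1]
        refine sum_le_sum fun n hn => ?_
        have h2 : (1 / (4 * L)) ^ k = ∏ _i : Fin k, (1 / (4 * L)) := by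
          rw [prod_const, card_univ, Fintype.card_fin]
        rw [h2]
        refine prod_le_prod (fun i _ => by positivity) (fun i _ => ?_)
        rw [mem_Icc] at hn
        -- `Q n ≤ R ^ (3 - 1 / e) ≤ H ^ 3`
        have e0 : ((b i * n : ℕ) : ℝ) ≤ (H : ℝ) ^ 3 := by
          have a1 : ((b i : ℕ) : ℝ) ≤ (Q i : ℝ) := by exact_mod_cast (hb1 i).2
          have a2 : ((n : ℕ) : ℝ) ≤ (y : ℝ) := by exact_mod_cast hn.2
          have a3 : ((b i * n : ℕ) : ℝ) ≤ (Q i : ℝ) * y := by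
            push_cast
            exact mul_le_mul a1 a2 (Nat.cast_nonneg _) (Nat.cast_nonneg _)
          have a4 := (hy i).2
          have a5 : ((R i : ℕ) : ℝ) ^ (3 - 1 / e : ℝ) ≤ (H : ℝ) ^ (3 - 1 / e : ℝ) :=
            Real.rpow_le_rpow (Nat.cast_nonneg _) (by exact_mod_cast hRH i) hexp0
          have a6 : (H : ℝ) ^ (3 - 1 / e : ℝ) ≤ (H : ℝ) ^ (3 : ℝ) :=
            Real.rpow_le_rpow_of_exponent_le hH1 hexp
          have a7 : (H : ℝ) ^ (3 : ℝ) = (H : ℝ) ^ 3 := by exact_mod_cast Real.rpow_natCast (H : ℝ) 3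
          rw [← a7]
          linarith
        have e3 : ((b i * n + c i : ℕ) : ℝ) ≤ (H : ℝ) ^ 4 := by
          have a1 : ((c i : ℕ) : ℝ) ≤ H := by exact_mod_cast hcH i
          have a2 : (H : ℝ) ≤ (H : ℝ) ^ 3 := by
            calc (H : ℝ) = (H : ℝ) ^ 1 := (pow_one _).symm
              _ ≤ (H : ℝ) ^ 3 := pow_le_pow_right₀ hH1 (by norm_num)
          have a3 : (H : ℝ) ^ 4 = H * (H : ℝ) ^ 3 := by ring
          have a4 : 3 * (H : ℝ) ^ 3 ≤ H * (H : ℝ) ^ 3 := mul_le_mul_of_nonneg_right hH3 (by positivity)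
          have a5 : ((b i * n + c i : ℕ) : ℝ) = ((b i * n : ℕ) : ℝ) + c i := by push_cast; ring
          rw [a5, a3]
          have a6 : (0 : ℝ) ≤ (H : ℝ) ^ 3 := by positivity
          linarith
        have e4 : (2 : ℕ) ≤ b i * n + c i := by
          have : 1 ≤ b i * n := Nat.mul_pos (hb1 i).1 hn.1
          have := (hc1 i).1
          omega
        have e5 : (2 : ℝ) ≤ ((b i * n + c i : ℕ) : ℝ) := by exact_mod_cast e4
        have h5 : Real.log ((b i * n + c i : ℕ) : ℝ) ≤ 4 * L := by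
          have := Real.log_le_log (by linarith) e3
          rw [Real.log_pow] at this
          push_cast at this ⊢
          exact this
        have h6 : 0 < Real.log ((b i * n + c i : ℕ) : ℝ) := Real.log_pos (by linarith)
        exact one_div_le_one_div_of_le h6 h5
      exact fin_cmp hL4 hL8 hse hSlow hdiff z4 hex (Nat.cast_nonneg y) hcnt
    · intro x _ x' _ hxx
      have h1 : ∀ i, (x.1 i, x.2 i) = (x'.1 i, x'.2 i) := fun i => congrFun hxx i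
      exact Prod.ext (funext fun i => (Prod.mk.inj (h1 i)).1) (funext fun i => (Prod.mk.inj (h1 i)).2)
  calc _ ≤ (Bad.card : ℝ) := by exact_mod_cast hle
    _ ≤ vq Q R / L ^ A' := hcard
    _ ≤ vq Q R / L ^ A := by
      apply div_le_div_of_nonneg_left hvq (by positivity)
      exact pow_le_pow_right₀ hL1 (by omega)

end Pool.Agent.helper24_UT.R10g
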