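import Pool.Agent.helper24_UT.Stm9

set_option autoImplicit false

namespace Pool.Agent.helper24_UT.R2

open Finset Polynomial
open Pool.Agent.helper24_UT
open Pool.Agent.H376R2.MR (ch er DP FK)
open Pool.Agent.H373R2.T7 (lamP Vz pz mem_pz Vz_pos Vz_inv_small)

/-! ### the Euler products -/

lemma omp_le {k : ℕ} (F : Fin k → ℤ[X]) {p : ℕ} (hp : p.Prime) : omp F p ≤ p - 1 := by
  classical
  unfold omp
  have h1 : ((range p).filter (fun t : ℕ => ¬ p ∣ t ∧ ∃ i, (p : ℤ) ∣ (F i).eval (t : ℤ))) ⊆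
      (range p).erase 0 := by
    intro t ht
    rw [mem_filter] at ht
    rw [mem_erase]
    refine ⟨?_, ht.1⟩
    rintro rfl
    exact ht.2.1 (dvd_zero p)
  have h2 := card_le_card h1
  rw [card_erase_of_mem (mem_range.2 hp.pos), card_range] at h2
  convert h2 using 2

lemma sgp_factor {k : ℕ} (F : Fin k → ℤ[X]) {p : ℕ} (hp : p.Prime) :
    0 ≤ (1 - (omp F p : ℝ) / ((p : ℝ) - 1)) / (1 - 1 / (p : ℝ)) ^ k ∧
      (1 - (omp F p : ℝ) / ((p : ℝ) - 1)) / (1 - 1 / (p : ℝ)) ^ k ≤ ((1 - 1 / (p : ℝ))⁻¹) ^ k := by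
  have hp2 : (2:ℝ) ≤ p := by exact_mod_cast hp.two_le
  have h1 : (omp F p : ℝ) ≤ (p : ℝ) - 1 := by
    have := omp_le F hp
    have h2 : ((omp F p : ℕ) : ℝ) ≤ ((p - 1 : ℕ) : ℝ) := by exact_mod_cast this
    rwa [Nat.cast_sub hp.one_le, Nat.cast_one] at h2
  have h3 : (0:ℝ) < 1 - 1 / (p : ℝ) := by
    rw [sub_pos, div_lt_one (by linarith)]; linarith
  have h4 : 0 ≤ 1 - (omp F p : ℝ) / ((p : ℝ) - 1) := by
    rw [sub_nonneg, div_le_one (by linarith)]; exact h1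
  have h5 : 1 - (omp F p : ℝ) / ((p : ℝ) - 1) ≤ 1 := by
    have : 0 ≤ (omp F p : ℝ) / ((p : ℝ) - 1) := div_nonneg (Nat.cast_nonneg _) (by linarith)
    linarith
  refine ⟨div_nonneg h4 (pow_pos h3 k).le, ?_⟩
  rw [div_eq_mul_inv, inv_pow]
  calc _ ≤ 1 * ((1 - 1 / (p : ℝ)) ^ k)⁻¹ :=
        mul_le_mul_of_nonneg_right h5 (inv_nonneg.2 (pow_pos h3 k).le)
    _ = _ := one_mul _

lemma sgp_nonneg {k : ℕ} (z : ℕ) (F : Fin k → ℤ[X]) : 0 ≤ sgp z F :=
  prod_nonneg fun p hp => (sgp_factor F (mem_pz.1 hp).2).1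

lemma sgp_le {k : ℕ} (z : ℕ) (F : Fin k → ℤ[X]) : sgp z F ≤ ((Vz z)⁻¹) ^ k := by
  unfold sgp Vz
  rw [← prod_inv_distrib, ← prod_pow]
  exact prod_le_prod (fun p hp => (sgp_factor F (mem_pz.1 hp).2).1)
    (fun p hp => (sgp_factor F (mem_pz.1 hp).2).2)

lemma om_cons {k : ℕ} (F : Fin k → ℤ[X]) {p : ℕ} (hp : p.Prime) :
    om (Fin.cons X F : Fin (k + 1) → ℤ[X]) p = omp F p + 1 := by
  classical
  unfold om omp
  have h1 : ((range p).filter (fun t : ℕ => ∃ i, (p : ℤ) ∣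
      ((Fin.cons X F : Fin (k + 1) → ℤ[X]) i).eval (t : ℤ))) =
      insert 0 ((range p).filter (fun t : ℕ => ¬ p ∣ t ∧ ∃ i, (p : ℤ) ∣ (F i).eval (t : ℤ))) := by
    ext t
    rw [mem_filter, mem_insert, mem_filter, mem_range]
    constructor
    · rintro ⟨ht, i, hi⟩
      by_cases h0 : t = 0
      · exact Or.inl h0
      · right
        have hnd : ¬ p ∣ t := fun h => absurd (Nat.le_of_dvd (Nat.pos_of_ne_zero h0) h) (not_le.2 ht)
        refine ⟨ht, hnd, ?_⟩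
        revert hi
        refine Fin.cases ?_ (fun j => ?_) i
        · intro hi
          rw [Fin.cons_zero, eval_X] at hi
          exact absurd (by exact_mod_cast hi) hnd
        · intro hi
          rw [Fin.cons_succ] at hi
          exact ⟨j, hi⟩
    · rintro (rfl | ⟨ht, _, j, hj⟩)
      · exact ⟨hp.pos, 0, by simp⟩
      · exact ⟨ht, j.succ, by rw [Fin.cons_succ]; exact hj⟩
  have h2 : (0:ℕ) ∉ (range p).filter (fun t : ℕ => ¬ p ∣ t ∧ ∃ i, (p : ℤ) ∣ (F i).eval (t : ℤ)) := by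
    rw [mem_filter]
    rintro ⟨_, h, _⟩
    exact h (dvd_zero p)
  have h3 := congrArg Finset.card h1
  rw [card_insert_of_notMem h2] at h3
  convert h3 using 2

lemma sgp_eq_sg {k : ℕ} (z : ℕ) (F : Fin k → ℤ[X]) :
    sgp z F = sg z (Fin.cons X F : Fin (k + 1) → ℤ[X]) := by
  unfold sgp sg
  refine prod_congr rfl fun p hp => ?_
  have hpp := (mem_pz.1 hp).2
  rw [om_cons F hpp]
  have hp2 : (2:ℝ) ≤ p := by exact_mod_cast hpp.two_le
  have h1 : (p : ℝ) ≠ 0 := by linarith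
  have h2 : (p : ℝ) - 1 ≠ 0 := by linarith
  have h3 : 1 - 1 / (p : ℝ) = ((p : ℝ) - 1) / p := by field_simp
  push_cast
  rw [h3, pow_succ]
  have h4 : (((p : ℝ) - 1) / p) ^ k ≠ 0 := pow_ne_zero _ (div_ne_zero h2 h1)
  rw [div_mul_eq_div_div_swap, div_left_inj' h4]
  field_simp
  ring

/-- the lower bound -/
lemma sgp_low {k : ℕ} {z H : ℕ} (a : Fin k → ℤ) (d : Fin k → ℕ)
    (hL : ∀ F : Fin (k + 1) → ℤ[X], (∀ i, (F i).natDegree ≤ 1) →
      (∀ p : ℕ, p.Prime → ∃ n : ℤ, ∀ i, ¬ (p : ℤ) ∣ (F i).eval n) → 1 / Real.log H ≤ sg z F)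
    (hloc : ∀ p : ℕ, p.Prime → ∃ n : ℤ, ¬ (p : ℤ) ∣ n ∧ ∀ i, ¬ (p : ℤ) ∣ a i + d i * n) :
    1 / Real.log H ≤ sgp z (lin a d) := by
  rw [sgp_eq_sg]
  refine hL _ ?_ ?_
  · intro i
    refine Fin.cases ?_ (fun j => ?_) i
    · rw [Fin.cons_zero]; exact natDegree_X_le
    · rw [Fin.cons_succ]
      unfold lin
      refine (natDegree_add_le _ _).trans ?_
      rw [natDegree_C]
      refine max_le (Nat.zero_le _) ((natDegree_C_mul_le _ _).trans natDegree_X_le)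
  · intro p hp
    obtain ⟨n, hn, h⟩ := hloc p hp
    refine ⟨n, fun i => ?_⟩
    refine Fin.cases ?_ (fun j => ?_) i
    · rw [Fin.cons_zero, eval_X]; exact hn
    · rw [Fin.cons_succ]
      have : (lin a d j).eval n = a j + d j * n := by
        unfold lin; simp
      rw [this]; exact h j

/-! ### the count -/

lemma cntP_eq {k : ℕ} (a : Fin k → ℤ) (d : Fin k → ℕ) (y : ℕ) : open Classical in
    cntP a d y = ((Icc 1 y).filter (fun n : ℕ => n.Prime ∧ ∀ i, (a i + d i * n).natAbs.Prime)).card := by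
  classical
  unfold cntP
  rw [← Set.ncard_coe_finset]
  congr 1
  ext q
  simp only [Set.mem_setOf_eq, coe_filter, mem_Icc]
  constructor
  · rintro ⟨h1, h2, h3⟩; exact ⟨⟨h1.one_le, h2⟩, h1, h3⟩
  · rintro ⟨⟨h1, h2⟩, h3, h4⟩; exact ⟨h3, h2, h4⟩

lemma exP_nonneg {k : ℕ} (a : Fin k → ℤ) (d : Fin k → ℕ) (y : ℕ) : 0 ≤ exP a d y := by
  unfold exP
  refine sum_nonneg fun n hn => mul_nonneg ?_ (prod_nonneg fun i _ => ?_)
  · exact one_div_nonneg.2 (Real.log_natCast_nonneg n)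
  · refine one_div_nonneg.2 ?_
    rw [Real.log_abs]
    exact Real.log_intCast_nonneg _

/-- the lower bound of the expected number -/
lemma exP_low {k : ℕ} (a : Fin k → ℤ) (d : Fin k → ℕ) (y : ℕ) (hy : 4 ≤ y) {U : ℝ} (hU : 0 < U)
    (h1 : Real.log y ≤ U)
    (h : ∀ n : ℕ, (y : ℝ) ≤ 2 * n → n ≤ y → ∀ i, 2 ≤ |((a i + d i * n : ℤ) : ℝ)| ∧
      Real.log |((a i + d i * n : ℤ) : ℝ)| ≤ U) :
    (y : ℝ) / 2 * (1 / U) ^ (k + 1) ≤ exP a d y := by
  unfold exP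
  have hsub : Ioc (y / 2) y ⊆ Icc 2 y := by
    intro n hn
    rw [mem_Ioc] at hn
    rw [mem_Icc]
    omega
  refine le_trans ?_ (sum_le_sum_of_subset_of_nonneg hsub fun n _ _ => ?_)
  · have hcard : (y : ℝ) / 2 ≤ ((Ioc (y / 2) y).card : ℝ) := by
      rw [Nat.card_Ioc]
      have : (y : ℝ) ≤ 2 * ((y - y / 2 : ℕ) : ℝ) := by
        have h2 : y ≤ 2 * (y - y / 2) := by omega
        exact_mod_cast h2
      linarith
    calc (y : ℝ) / 2 * (1 / U) ^ (k + 1) ≤ ((Ioc (y / 2) y).card : ℝ) * (1 / U) ^ (k + 1) :=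
          mul_le_mul_of_nonneg_right hcard (by positivity)
      _ = ∑ n ∈ Ioc (y / 2) y, (1 / U) ^ (k + 1) := by rw [sum_const, nsmul_eq_mul]
      _ ≤ _ := by
        refine sum_le_sum fun n hn => ?_
        rw [mem_Ioc] at hn
        have hn1 : (y : ℝ) ≤ 2 * n := by
          have : y ≤ 2 * n := by omega
          exact_mod_cast this
        have hn2 : (2:ℝ) ≤ n := by
          have : 2 ≤ n := by omega
          exact_mod_cast this
        have hlog : 0 < Real.log n := Real.log_pos (by linarith)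
        have hlog2 : Real.log n ≤ U :=
          (Real.log_le_log (by linarith) (by exact_mod_cast hn.2)).trans h1
        rw [pow_succ, mul_comm]
        refine mul_le_mul (one_div_le_one_div_of_le hlog hlog2) ?_ (by positivity)
          (one_div_nonneg.2 hlog.le)
        rw [← Fin.prod_const]
        refine prod_le_prod (fun _ _ => by positivity) fun i _ => ?_
        obtain ⟨h3, h4⟩ := h n hn1 hn.2 i
        exact one_div_le_one_div_of_le (Real.log_pos (by linarith)) h4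
  · refine mul_nonneg ?_ (prod_nonneg fun i _ => ?_)
    · exact one_div_nonneg.2 (Real.log_natCast_nonneg n)
    · refine one_div_nonneg.2 ?_
      rw [Real.log_abs]
      exact Real.log_intCast_nonneg _

/-! ### the asymptotic facts -/

lemma asym (k e A' B1 m : ℕ) (he : 1 ≤ e) (hm : 1 ≤ m) : ∃ H₀ : ℕ, ∀ H : ℕ, H₀ ≤ H →
    8 + 4 * 2 ^ B1 + 8 * 3 ^ (k + 1) ≤ Real.log H ∧ Real.log H ≤ Real.log ((4 * H : ℕ) : ℝ) ∧
    Real.log ((4 * H : ℕ) : ℝ) ≤ 2 * Real.log H ∧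
    Real.log ((4 * H : ℕ) : ℝ) ^ (1 / ((m + 1 : ℕ) : ℝ)) ≤ Real.log H ^ (1 / (m : ℝ)) ∧
    ((4 * H : ℕ) : ℝ) ^ (1 / ((e + 1 : ℕ) : ℝ)) ≤ (H : ℝ) ^ (1 / (e : ℝ)) ∧
    6 * Real.log ((4 * H : ℕ) : ℝ) ^ (A' + 1) ≤ Real.exp (Real.log H ^ (1 / (m : ℝ))) := by
  have hlim : Filter.Tendsto (fun N : ℕ => Real.log (N : ℝ)) Filter.atTop Filter.atTop :=
    Real.tendsto_log_atTop.comp (tendsto_natCast_atTop_atTop (R := ℝ))
  have hm0 : (0:ℝ) < m := by exact_mod_cast hm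
  have he0 : (0:ℝ) < e := by exact_mod_cast he
  have e1 := hlim.eventually_ge_atTop (8 + 4 * 2 ^ B1 + 8 * 3 ^ (k + 1) + 2 ^ m)
  have e2 : ∀ᶠ H : ℕ in Filter.atTop, (4 : ℝ) ^ e ≤ H :=
    (tendsto_natCast_atTop_atTop (R := ℝ)).eventually_ge_atTop _
  have e3 : ∀ᶠ w : ℝ in Filter.atTop, 6 * 2 ^ (A' + 1) * w ^ (m * (A' + 1)) ≤ Real.exp w := by
    have h1 := Real.tendsto_exp_div_pow_atTop (m * (A' + 1))
    filter_upwards [h1.eventually_ge_atTop (6 * 2 ^ (A' + 1)), Filter.eventually_gt_atTop 0]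
      with w hw hw0
    rwa [le_div_iff₀ (pow_pos hw0 _)] at hw
  have e4 := ((tendsto_rpow_atTop (show (0:ℝ) < 1 / m by positivity)).comp hlim).eventually e3
  obtain ⟨H₀, h⟩ := Filter.eventually_atTop.1 (e1.and (e2.and e4))
  refine ⟨H₀ + 1, fun H hH => ?_⟩
  obtain ⟨h1, h2, h3⟩ := h H (by omega)
  have hH1 : (1:ℝ) ≤ H := by
    have : 1 ≤ H := by omega
    exact_mod_cast this
  have hp1 : (0:ℝ) < 2 ^ B1 := by positivity
  have hp2 : (0:ℝ) < 3 ^ (k + 1) := by positivity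
  have hp3 : (0:ℝ) < 2 ^ m := by positivity
  have hL8 : 8 ≤ Real.log H := by linarith
  have hM : Real.log ((4 * H : ℕ) : ℝ) = Real.log 4 + Real.log H := by
    push_cast
    rw [Real.log_mul (by norm_num) (by linarith)]
  have hlog4 : 0 ≤ Real.log 4 := Real.log_nonneg (by norm_num)
  have hlog4' : Real.log 4 ≤ 3 := by
    have := Real.log_le_sub_one_of_pos (show (0:ℝ) < 4 by norm_num)
    linarith
  have hM2 : Real.log ((4 * H : ℕ) : ℝ) ≤ 2 * Real.log H := by rw [hM]; linarith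
  have hM0 : 0 ≤ Real.log ((4 * H : ℕ) : ℝ) := by rw [hM]; linarith
  refine ⟨by linarith, by rw [hM]; linarith, hM2, ?_, ?_, ?_⟩
  · set w := Real.log H ^ (1 / (m : ℝ)) with hw
    have hw0 : 0 ≤ w := Real.rpow_nonneg (by linarith) _
    have hwm : w ^ m = Real.log H := by
      rw [hw, one_div]; exact Real.rpow_inv_natCast_pow (by linarith) (by omega)
    have hw2 : 2 ≤ w := by
      by_contra hlt
      push Not at hlt
      have : w ^ m ≤ 2 ^ m := pow_le_pow_left₀ hw0 hlt.le m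
      rw [hwm] at this
      linarith
    have h4 : Real.log ((4 * H : ℕ) : ℝ) ≤ w ^ (m + 1) := by
      rw [pow_succ, hwm]
      nlinarith
    calc Real.log ((4 * H : ℕ) : ℝ) ^ (1 / ((m + 1 : ℕ) : ℝ)) ≤
        (w ^ (m + 1)) ^ (1 / ((m + 1 : ℕ) : ℝ)) := Real.rpow_le_rpow hM0 h4 (by positivity)
      _ = w := by rw [one_div]; exact Real.pow_rpow_inv_natCast hw0 (by omega)
  · set w := (H : ℝ) ^ (1 / (e : ℝ)) with hw
    have hw0 : 0 ≤ w := Real.rpow_nonneg (by linarith) _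
    have hwm : w ^ e = H := by
      rw [hw, one_div]; exact Real.rpow_inv_natCast_pow (by linarith) (by omega)
    have hw2 : 4 ≤ w := by
      by_contra hlt
      push Not at hlt
      have : w ^ e < 4 ^ e := pow_lt_pow_left₀ hlt hw0 (by omega)
      rw [hwm] at this
      linarith
    have h4 : ((4 * H : ℕ) : ℝ) ≤ w ^ (e + 1) := by
      rw [pow_succ, hwm]
      push_cast
      nlinarith
    calc ((4 * H : ℕ) : ℝ) ^ (1 / ((e + 1 : ℕ) : ℝ)) ≤
        (w ^ (e + 1)) ^ (1 / ((e + 1 : ℕ) : ℝ)) := Real.rpow_le_rpow (Nat.cast_nonneg _) h4 (by positivity)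
      _ = w := by rw [one_div]; exact Real.pow_rpow_inv_natCast hw0 (by omega)
  · simp only [Function.comp] at h3
    refine le_trans ?_ h3
    have hwm : (Real.log H ^ (1 / (m : ℝ))) ^ (m * (A' + 1)) = Real.log H ^ (A' + 1) := by
      rw [pow_mul, one_div, Real.rpow_inv_natCast_pow (by linarith) (by omega)]
    rw [hwm, mul_assoc, ← mul_pow]
    exact mul_le_mul_of_nonneg_left (pow_le_pow_left₀ hM0 hM2 _) (by norm_num)

/-- combination at one point -/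
lemma point {k A : ℕ} {L M N S s X y z : ℝ} (hL : 1 ≤ L) (hLM : L ≤ M) (hM : 8 * 3 ^ (k + 1) ≤ M)
    (hy : 0 ≤ y) (hz : M ^ 2 / z ≤ 1 / (2 * L ^ A)) (hs : 0 < s)
    (hN : |N - S * X| ≤ y / M ^ (A + k + 8)) (hT : |S - s| ≤ s * (M ^ 2 / z)) (hS : 1 / M ≤ S)
    (hX : y / 2 * (1 / (3 * L)) ^ (k + 1) ≤ X) : |N - s * X| ≤ s * X / L ^ A := by
  have hM0 : 0 < M := by linarith
  have hL0 : 0 < L := by linarith
  have hX0 : 0 ≤ X := le_trans (by positivity) hX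
  have hLA : 0 < L ^ A := pow_pos hL0 A
  have hLA1 : 1 ≤ L ^ A := one_le_pow₀ hL
  have h1 : |S - s| ≤ s * (1 / (2 * L ^ A)) := hT.trans (mul_le_mul_of_nonneg_left hz hs.le)
  have h2 : s * (1 / (2 * L ^ A)) ≤ s := by
    have : 1 / (2 * L ^ A) ≤ 1 := by
      rw [div_le_one (by positivity)]; linarith
    nlinarith
  have h3 : S ≤ 2 * s := by linarith [(abs_le.1 h1).2]
  have h4 : 1 / (2 * M) ≤ s := by
    have : 1 / (2 * M) = (1 / M) / 2 := by field_simp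
    rw [this]; linarith
  have h5 : y / M ^ (A + k + 8) ≤ s * X / (2 * L ^ A) := by
    have h6 : 1 / (2 * M) * (y / 2 * (1 / (3 * L)) ^ (k + 1)) ≤ s * X :=
      mul_le_mul h4 hX (by positivity) hs.le
    have h7 : 8 * L ^ A * M * (3 * L) ^ (k + 1) ≤ M ^ (A + k + 8) := by
      have e1 : M ^ (A + k + 8) = M ^ A * M ^ (k + 1) * M * M * M ^ 5 := by ring
      have e2 : 8 * L ^ A * M * (3 * L) ^ (k + 1) = L ^ A * L ^ (k + 1) * M * (8 * 3 ^ (k + 1)) := by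
        rw [mul_pow]; ring
      have hM1 : 1 ≤ M := by linarith
      rw [e1, e2]
      have i1 : L ^ A * L ^ (k + 1) ≤ M ^ A * M ^ (k + 1) :=
        mul_le_mul (pow_le_pow_left₀ hL0.le hLM _) (pow_le_pow_left₀ hL0.le hLM _) (by positivity)
          (by positivity)
      have i2 : L ^ A * L ^ (k + 1) * M ≤ M ^ A * M ^ (k + 1) * M :=
        mul_le_mul_of_nonneg_right i1 hM0.le
      have i3 : L ^ A * L ^ (k + 1) * M * (8 * 3 ^ (k + 1)) ≤ M ^ A * M ^ (k + 1) * M * M :=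
        mul_le_mul i2 hM (by positivity) (by positivity)
      exact i3.trans (le_mul_of_one_le_right (by positivity) (one_le_pow₀ hM1))
    have h8 : y / M ^ (A + k + 8) ≤ y / (8 * L ^ A * M * (3 * L) ^ (k + 1)) :=
      div_le_div_of_nonneg_left hy (by positivity) h7
    refine h8.trans ?_
    have h9 : y / (8 * L ^ A * M * (3 * L) ^ (k + 1)) =
        1 / (2 * M) * (y / 2 * (1 / (3 * L)) ^ (k + 1)) / (2 * L ^ A) := by
      rw [one_div, one_div, inv_pow]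
      field_simp
      ring
    rw [h9]
    exact div_le_div_of_nonneg_right h6 (by positivity)
  have h10 : |N - s * X| ≤ |N - S * X| + |S - s| * X := by
    have : N - s * X = (N - S * X) + (S - s) * X := by ring
    rw [this]
    refine (abs_add_le _ _).trans ?_
    rw [abs_mul, abs_of_nonneg hX0]
  have h11 : |S - s| * X ≤ s * X / (2 * L ^ A) := by
    calc |S - s| * X ≤ s * (1 / (2 * L ^ A)) * X := mul_le_mul_of_nonneg_right h1 hX0
      _ = _ := by ring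
  calc |N - s * X| ≤ y / M ^ (A + k + 8) + s * X / (2 * L ^ A) := by linarith
    _ ≤ s * X / (2 * L ^ A) + s * X / (2 * L ^ A) := by linarith
    _ = s * X / L ^ A := by field_simp; ring


/-! ### sign patterns -/

open Classical in
/-- the shifts -/
noncomputable def Gs {k : ℕ} (R : Fin k → ℕ) (Sg : Finset (Fin k)) (i : Fin k) : ℤ[X] :=
  if i ∈ Sg then C (-((R i : ℤ) + 1)) else 0

open Classical in
noncomputable def dec {k : ℕ} (R : Fin k → ℕ) (Sg : Finset (Fin k)) (v : Fin k → ℕ × ℕ) :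
    (Fin k → ℤ) × (Fin k → ℕ) :=
  (fun i => if i ∈ Sg then ((v i).2 : ℤ) - R i - 1 else (v i).2, fun i => (v i).1)

def enc {k : ℕ} (R : Fin k → ℕ) (x : (Fin k → ℤ) × (Fin k → ℕ)) (i : Fin k) : ℕ × ℕ :=
  (x.2 i, if x.1 i < 0 then (x.1 i + R i + 1).toNat else (x.1 i).toNat)

def neg {k : ℕ} (x : (Fin k → ℤ) × (Fin k → ℕ)) : Finset (Fin k) := univ.filter (fun i => x.1 i < 0)

lemma enc_mem {k : ℕ} {Q R : Fin k → ℕ} {x : (Fin k → ℤ) × (Fin k → ℕ)}
    (h1 : ∀ i, -(R i : ℤ) ≤ x.1 i ∧ x.1 i ≤ R i) (h0 : ∀ i, x.1 i ≠ 0)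
    (h2 : ∀ i, 1 ≤ x.2 i ∧ x.2 i ≤ Q i) : enc R x ∈ Bq (fun i => 2 * Q i + 2) R := by
  unfold Bq
  rw [Fintype.mem_piFinset]
  intro i
  have a1 := h1 i
  have a2 := h0 i
  have a3 := h2 i
  rw [mem_product, mem_Icc, mem_Icc]
  unfold enc
  split_ifs with h
  · refine ⟨⟨a3.1, ?_⟩, ?_, ?_⟩ <;> simp only <;> omega
  · refine ⟨⟨a3.1, ?_⟩, ?_, ?_⟩ <;> simp only <;> omega

lemma dec_enc {k : ℕ} {R : Fin k → ℕ} {x : (Fin k → ℤ) × (Fin k → ℕ)}
    (h1 : ∀ i, -(R i : ℤ) ≤ x.1 i ∧ x.1 i ≤ R i) : dec R (neg x) (enc R x) = x := by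
  classical
  unfold dec enc neg
  ext i
  · simp only [mem_filter, mem_univ, true_and]
    have := h1 i
    split_ifs with h
    · omega
    · omega
  · rfl

lemma pl_enc {k : ℕ} {R : Fin k → ℕ} {x : (Fin k → ℤ) × (Fin k → ℕ)}
    (h1 : ∀ i, -(R i : ℤ) ≤ x.1 i ∧ x.1 i ≤ R i) :
    pl (Gs R (neg x)) (enc R x) = lin x.1 x.2 := by
  classical
  funext i
  unfold pl Gs enc neg lin
  simp only [mem_filter, mem_univ, true_and]
  have := h1 i
  split_ifs with h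
  · have e1 : (((x.1 i + R i + 1).toNat : ℕ) : ℤ) = x.1 i + R i + 1 := by omega
    rw [e1]
    simp only [map_neg, map_add, map_one]
    ring
  · have e1 : (((x.1 i).toNat : ℕ) : ℤ) = x.1 i := by omega
    rw [e1]
    ring

lemma lin_eval {k : ℕ} (a : Fin k → ℤ) (d : Fin k → ℕ) (i : Fin k) (n : ℤ) :
    (lin a d i).eval n = a i + d i * n := by
  unfold lin; simp

lemma z_facts {A E : ℕ} {L M : ℝ} (hL : 8 ≤ L) (hLM : L ≤ M) (hE : A + 18 ≤ E) :
    1 ≤ ⌊M ^ E⌋₊ ∧ ((⌊M ^ E⌋₊ : ℕ) : ℝ) ≤ M ^ E ∧ M ^ 3 ≤ ((⌊M ^ E⌋₊ : ℕ) : ℝ) ∧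
      M ^ 2 / ((⌊M ^ E⌋₊ : ℕ) : ℝ) ≤ 1 / (2 * L ^ A) := by
  have hM8 : 8 ≤ M := hL.trans hLM
  have hM1 : 1 ≤ M := by linarith
  have hM0 : 0 < M := by linarith
  have h1 : M ^ E < ((⌊M ^ E⌋₊ : ℕ) : ℝ) + 1 := Nat.lt_floor_add_one _
  have h2 : M ^ (A + 4) ≤ M ^ E := pow_le_pow_right₀ hM1 (by omega)
  have h3 : 1 ≤ M ^ (A + 3) := one_le_pow₀ hM1
  have h4 : M ^ (A + 4) = M ^ (A + 3) * M := pow_succ _ _
  have h5 : M ^ (A + 3) ≤ ((⌊M ^ E⌋₊ : ℕ) : ℝ) := by nlinarith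
  have h6 : M ^ 3 ≤ M ^ (A + 3) := pow_le_pow_right₀ hM1 (by omega)
  have h7 : (0:ℝ) < ((⌊M ^ E⌋₊ : ℕ) : ℝ) := by linarith
  refine ⟨by exact_mod_cast h7, Nat.floor_le (by positivity), by linarith, ?_⟩
  have hLA : 0 < L ^ A := pow_pos (by linarith) A
  rw [div_le_div_iff₀ h7 (by positivity)]
  have h8 : L ^ A ≤ M ^ A := pow_le_pow_left₀ (by linarith) hLM A
  calc M ^ 2 * (2 * L ^ A) ≤ M ^ 2 * (2 * M ^ A) := by
        refine mul_le_mul_of_nonneg_left ?_ (by positivity); linarith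
    _ = 2 * M ^ (A + 2) := by ring
    _ ≤ M * M ^ (A + 2) := mul_le_mul_of_nonneg_right (by linarith) (by positivity)
    _ = M ^ (A + 3) := by ring
    _ ≤ 1 * ((⌊M ^ E⌋₊ : ℕ) : ℝ) := by linarith

lemma vq_le {k : ℕ} {Q R : Fin k → ℕ} (hQ : ∀ i, 1 ≤ Q i) :
    vq (fun i => 2 * Q i + 2) R ≤ 4 ^ k * vq Q R := by
  unfold vq
  rw [← Fin.prod_const, ← prod_mul_distrib]
  refine prod_le_prod (fun i _ => by positivity) fun i _ => ?_
  have : (1:ℝ) ≤ Q i := by exact_mod_cast hQ i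
  have hR : (0:ℝ) ≤ R i := Nat.cast_nonneg _
  push_cast
  nlinarith

/-- the values on the upper half of the interval -/
lemma val_bd {k A' : ℕ} {H y : ℕ} {L M : ℝ} {Q R : Fin k → ℕ} {a : Fin k → ℤ} {d : Fin k → ℕ}
    (hH : 1 ≤ H) (hL : L = Real.log H) (hL1 : 1 ≤ L) (hM : 0 < M) (hyH : y ≤ H)
    (h1 : ∀ i, -(R i : ℤ) ≤ a i ∧ a i ≤ R i) (hRQ : ∀ i, R i ≤ Q i ∧ Q i ≤ H)
    (h2 : ∀ i, 1 ≤ d i ∧ d i ≤ Q i) (hd : ∀ i, ((2 * Q i + 2 : ℕ) : ℝ) / M ^ (A' + 1) ≤ d i)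
    (hy : 6 * M ^ (A' + 1) ≤ y) (n : ℕ) (hn : (y : ℝ) ≤ 2 * n) (hny : n ≤ y) (i : Fin k) :
    2 ≤ |((a i + d i * n : ℤ) : ℝ)| ∧ Real.log |((a i + d i * n : ℤ) : ℝ)| ≤ 3 * L := by
  have a1 : -(R i : ℝ) ≤ a i := by exact_mod_cast (h1 i).1
  have a2 : (a i : ℝ) ≤ R i := by exact_mod_cast (h1 i).2
  have a3 : (R i : ℝ) ≤ Q i := by exact_mod_cast (hRQ i).1
  have a4 : (Q i : ℝ) ≤ H := by exact_mod_cast (hRQ i).2
  have a5 : (d i : ℝ) ≤ Q i := by exact_mod_cast (h2 i).2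
  have a6 : (0:ℝ) ≤ d i := Nat.cast_nonneg _
  have a7 : (n : ℝ) ≤ H := by exact_mod_cast hny.trans hyH
  have a8 : (0:ℝ) ≤ n := Nat.cast_nonneg _
  have a9 : (1:ℝ) ≤ H := by exact_mod_cast hH
  have a10 : (0:ℝ) ≤ Q i := Nat.cast_nonneg _
  have hMp : 0 < M ^ (A' + 1) := pow_pos hM _
  have h3 := hd i
  rw [div_le_iff₀ hMp] at h3
  push_cast at h3
  have h4 : 3 * M ^ (A' + 1) ≤ n := by linarith
  have h5 : 3 * (2 * (Q i : ℝ) + 2) ≤ d i * n := by
    have : 3 * (2 * (Q i : ℝ) + 2) ≤ 3 * (d i * M ^ (A' + 1)) := by linarith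
    refine this.trans ?_
    calc 3 * ((d i : ℝ) * M ^ (A' + 1)) = d i * (3 * M ^ (A' + 1)) := by ring
      _ ≤ d i * n := mul_le_mul_of_nonneg_left h4 a6
  have h6 : (2:ℝ) ≤ a i + d i * n := by linarith
  have h7 : (a i : ℝ) + d i * n ≤ 2 * H ^ 2 := by
    have : (d i : ℝ) * n ≤ H * H := mul_le_mul (a5.trans a4) a7 a8 (by linarith)
    nlinarith
  push_cast
  rw [abs_of_nonneg (by linarith)]
  refine ⟨h6, ?_⟩
  calc Real.log ((a i : ℝ) + d i * n) ≤ Real.log (2 * H ^ 2) := Real.log_le_log (by linarith) h7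
    _ = Real.log 2 + 2 * Real.log H := by
      rw [Real.log_mul (by norm_num) (by positivity), Real.log_pow]; norm_num
    _ ≤ 3 * L := by
      have := Real.log_two_lt_d9
      rw [hL]
      linarith

theorem main : S_PSIP → S_INP → S_TLP → S_LOW → S_R2 := by
  intro hPSIP hINP hTLP hLOW k e A m hk he hm
  classical
  obtain ⟨A', B2, H1, hA', hI⟩ := hINP k (e + 1) (A + k + 8) (m + 1) (by omega) (by omega)
  obtain ⟨E0, B1, hP⟩ := hPSIP k 0 (e + 1) A' (m + 2) (by omega) (by omega)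
  obtain ⟨H2, hP⟩ := hP (max E0 (A + 18)) (le_max_left _ _)
  have hE : A + 18 ≤ max E0 (A + 18) := le_max_right _ _
  generalize max E0 (A + 18) = E at hP hE
  obtain ⟨H3, hT⟩ := hTLP k
  obtain ⟨H4, hLo⟩ := hLOW (k + 1) 1 E
  obtain ⟨H5, hV⟩ := Vz_inv_small E
  obtain ⟨H6, hAs⟩ := asym k e A' B1 m he hm
  refine ⟨B1 + 1, H1 + H2 + H3 + H4 + H5 + H6 + 1, fun H hH Q R hQR => ?_⟩
  obtain ⟨c1, c2, c3, c4, c5, c6⟩ := hAs H (by omega)
  have hH1 : 1 ≤ H := by omega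
  have hH1' : (1:ℝ) ≤ H := by exact_mod_cast hH1
  -- the two logarithms
  obtain ⟨L, hL⟩ : ∃ L, L = Real.log H := ⟨_, rfl⟩
  obtain ⟨M, hM⟩ : ∃ M, M = Real.log ((4 * H : ℕ) : ℝ) := ⟨_, rfl⟩
  have hP := hP (4 * H) (by omega)
  have hI := hI (4 * H) (by omega)
  have hT := hT (4 * H) (by omega)
  have hLo := hLo (4 * H) (by omega)
  have hV := hV (4 * H) (by omega)
  rw [← hM] at hP hI hT hLo hV c2 c3 c4 c6
  rw [← hL] at c1 c2 c3 c4 c6 ⊢
  have p1 : (0:ℝ) < 2 ^ B1 := by positivity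
  have p2 : (0:ℝ) < 3 ^ (k + 1) := by positivity
  have hL8 : 8 ≤ L := by linarith
  have hL0 : 0 < L := by linarith
  have hM8 : 8 ≤ M := by linarith
  have hM0 : 0 < M := by linarith
  obtain ⟨z1, z2, z3, z4⟩ := z_facts hL8 c2 hE
  have hQ1 : ∀ i, 1 ≤ R i ∧ R i ≤ Q i ∧ Q i ≤ H := by
    intro i
    obtain ⟨r1, r2, r3⟩ := hQR i
    refine ⟨?_, r2, r3⟩
    have : (1:ℝ) ≤ R i := (Real.one_le_rpow hH1' (by positivity)).trans r1
    exact_mod_cast this
  -- the largest length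
  let P : ℕ → Prop := fun t => ∀ i, ((2 * Q i + 2 : ℕ) : ℝ) * t * M ^ B1 ≤ (R i : ℝ) ^ 2
  have hP0 : P 0 := by intro i; simp
  let T : ℕ := Nat.findGreatest P H
  have hTP : P T := Nat.findGreatest_spec (Nat.zero_le _) hP0
  have hTH : T ≤ H := Nat.findGreatest_le _
  have hRg : ∀ i, Rg (e + 1) (4 * H) (2 * Q i + 2) (R i) := by
    intro i
    obtain ⟨r1, r2, r3⟩ := hQR i
    exact ⟨c5.trans r1, by omega, by omega⟩
  have hBad := fun Sg : Finset (Fin k) => hP T (by omega) (fun i => 2 * Q i + 2) R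
    (fun i => ⟨hRg i, hTP i⟩) (Gs R Sg) (by
      intro i
      unfold Gs
      split_ifs
      · rw [natDegree_C]
      · rw [natDegree_zero]) (by
      intro i n _
      have hRQ : (R i : ℝ) ≤ Q i := by exact_mod_cast (hQ1 i).2.1
      have hR0 : (0:ℝ) ≤ R i := Nat.cast_nonneg _
      have hn0 : (0:ℝ) ≤ n := Nat.cast_nonneg _
      have hMB : 0 < M ^ B1 := pow_pos hM0 _
      unfold Gs
      split_ifs
      · rw [eval_C]
        push_cast
        rw [abs_neg, abs_of_nonneg (by linarith)]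
        calc ((R i : ℝ) + 1) * M ^ B1 ≤ (Q i + 1) * M ^ B1 := by
              refine mul_le_mul_of_nonneg_right (by linarith) hMB.le
          _ = (2 * Q i + 2) * (0 + M ^ B1 / 2) := by ring
          _ ≤ (2 * Q i + 2) * (n + M ^ B1 / 2) := by
              refine mul_le_mul_of_nonneg_left (by linarith) (by linarith)
      · rw [eval_zero]
        push_cast
        rw [abs_zero, zero_mul]
        have : (0:ℝ) ≤ Q i := Nat.cast_nonneg _
        positivity)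
  choose Bad hsub hcard hgood using hBad
  -- the exceptional set is covered
  have hcov : ((Fintype.piFinset (fun i => Icc (-(R i : ℤ)) (R i)) ×ˢ
      Fintype.piFinset (fun i => Icc 1 (Q i))).filter
      (fun x : (Fin k → ℤ) × (Fin k → ℕ) => AdmP x.1 x.2 ∧
      ¬ ∀ y : ℕ, Real.exp (L ^ (1 / m : ℝ)) ≤ y → (∀ i, (Q i : ℝ) * y * L ^ (B1 + 1) ≤ (R i : ℝ) ^ 2) →
        |(cntP x.1 x.2 y : ℝ) - serp x.1 x.2 * exP x.1 x.2 y| ≤
          serp x.1 x.2 * exP x.1 x.2 y / L ^ A)) ⊆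
      (univ : Finset (Finset (Fin k))).biUnion (fun Sg => (Bad Sg).image (dec R Sg)) := by
    intro x hx
    rw [mem_filter, mem_product, Fintype.mem_piFinset, Fintype.mem_piFinset] at hx
    obtain ⟨⟨hx1, hx2⟩, ⟨hx3, hx4, hx5⟩, hx6⟩ := hx
    have hx1' : ∀ i, -(R i : ℤ) ≤ x.1 i ∧ x.1 i ≤ R i := fun i => mem_Icc.1 (hx1 i)
    have hx2' : ∀ i, 1 ≤ x.2 i ∧ x.2 i ≤ Q i := fun i => mem_Icc.1 (hx2 i)
    by_contra hnot
    have hvm : enc R x ∈ Bq (fun i => 2 * Q i + 2) R := enc_mem hx1' hx3 hx2'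
    have hvB : enc R x ∉ Bad (neg x) := by
      intro hv
      apply hnot
      rw [mem_biUnion]
      exact ⟨neg x, mem_univ _, mem_image.2 ⟨_, hv, dec_enc hx1'⟩⟩
    obtain ⟨g1, g2⟩ := hgood (neg x) _ hvm hvB
    rw [pl_enc hx1'] at g2
    simp only [lin_eval] at g2
    apply hx6
    intro y hy hyQ
    -- size of y
    have hi0 : Fin k := ⟨0, by omega⟩
    have hy6 : 6 * M ^ (A' + 1) ≤ y := c6.trans hy
    have hM1 : 1 ≤ M ^ (A' + 1) := one_le_pow₀ (by linarith)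
    have hy4 : 4 ≤ y := by
      have : (4:ℝ) ≤ y := by linarith
      exact_mod_cast this
    have hyH : y ≤ H := by
      have h1 := hyQ hi0
      have hRQ : (R hi0 : ℝ) ≤ Q hi0 := by exact_mod_cast (hQ1 hi0).2.1
      have hR1 : (1:ℝ) ≤ R hi0 := by exact_mod_cast (hQ1 hi0).1
      have hQH : (Q hi0 : ℝ) ≤ H := by exact_mod_cast (hQ1 hi0).2.2
      have h2 : 1 ≤ L ^ (B1 + 1) := one_le_pow₀ (by linarith)
      have hy0 : (0:ℝ) ≤ y := Nat.cast_nonneg _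
      have h3 : (Q hi0 : ℝ) * y ≤ Q hi0 * Q hi0 := by
        calc (Q hi0 : ℝ) * y ≤ Q hi0 * y * L ^ (B1 + 1) :=
              le_mul_of_one_le_right (by positivity) h2
          _ ≤ (R hi0 : ℝ) ^ 2 := h1
          _ ≤ Q hi0 * Q hi0 := by nlinarith
      have h4 : (y : ℝ) ≤ Q hi0 := le_of_mul_le_mul_left h3 (by linarith)
      have h5 : (y : ℝ) ≤ H := h4.trans hQH
      exact_mod_cast h5
    have hyT : y ≤ T := by
      refine Nat.le_findGreatest hyH ?_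
      intro i
      have h1 := hyQ i
      have hQi : (1:ℝ) ≤ Q i := by exact_mod_cast (hQ1 i).1.trans (hQ1 i).2.1
      have hy0 : (0:ℝ) ≤ y := Nat.cast_nonneg _
      refine le_trans ?_ h1
      have h2 : M ^ B1 ≤ 2 ^ B1 * L ^ B1 := by
        rw [← mul_pow]; exact pow_le_pow_left₀ hM0.le c3 _
      have h3 : 4 * (2 ^ B1 * L ^ B1) ≤ L ^ (B1 + 1) := by
        rw [pow_succ]
        have : 0 < L ^ B1 := pow_pos hL0 _
        nlinarith
      push_cast
      calc (2 * (Q i : ℝ) + 2) * y * M ^ B1 ≤ (4 * Q i) * y * (2 ^ B1 * L ^ B1) := by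
            refine mul_le_mul (mul_le_mul_of_nonneg_right (by linarith) hy0) h2 (by positivity)
              (by positivity)
        _ = Q i * y * (4 * (2 ^ B1 * L ^ B1)) := by ring
        _ ≤ Q i * y * L ^ (B1 + 1) := mul_le_mul_of_nonneg_left h3 (by positivity)
    have hy1 : Real.exp (M ^ (1 / ((m + 1 : ℕ) : ℝ))) ≤ y :=
      (Real.exp_le_exp.2 c4).trans hy
    have hS1 := hV _ z1 z2
    have hS0 : 0 ≤ sgp ⌊M ^ E⌋₊ (lin x.1 x.2) := sgp_nonneg _ _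
    have hS2 : sgp ⌊M ^ E⌋₊ (lin x.1 x.2) ≤ M ^ (k + 2) := by
      refine (sgp_le _ _).trans ?_
      calc ((Vz ⌊M ^ E⌋₊)⁻¹) ^ k ≤ M ^ k :=
            pow_le_pow_left₀ (inv_nonneg.2 (Vz_pos _).le) hS1 _
        _ ≤ M ^ (k + 2) := pow_le_pow_right₀ (by linarith) (by omega)
    have hdl : ∀ i, ((2 * Q i + 2 : ℕ) : ℝ) / M ^ (A' + 1) ≤ x.2 i := g1
    have hN := hI y hy1 (by omega) (fun i => 2 * Q i + 2) x.2 (fun i n => x.1 i + x.2 i * n)
      (sgp ⌊M ^ E⌋₊ (lin x.1 x.2)) (by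
        intro i
        refine ⟨c5.trans ((hQR i).1.trans ?_), by have := hx2' i; have := hQ1 i; omega, hdl i⟩
        have : R i ≤ 2 * Q i + 2 := by have := hQ1 i; omega
        exact_mod_cast this) (by
        intro i n _
        have hRQ : (R i : ℝ) ≤ Q i := by exact_mod_cast (hQ1 i).2.1
        have hn0 : (0:ℝ) ≤ n := Nat.cast_nonneg _
        have hMB : 0 < M ^ B2 := pow_pos hM0 _
        have a1 : -(R i : ℝ) ≤ x.1 i := by exact_mod_cast (hx1' i).1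
        have a2 : (x.1 i : ℝ) ≤ R i := by exact_mod_cast (hx1' i).2
        have e1 : ((x.1 i + x.2 i * n - x.2 i * n : ℤ) : ℝ) = x.1 i := by push_cast; ring
        rw [e1]
        have hQ0 : (0:ℝ) ≤ Q i := Nat.cast_nonneg _
        have a3 : |(x.1 i : ℝ)| ≤ Q i := abs_le.2 ⟨by linarith, by linarith⟩
        push_cast
        calc |(x.1 i : ℝ)| * M ^ B2 ≤ Q i * M ^ B2 := mul_le_mul_of_nonneg_right a3 hMB.le
          _ ≤ (2 * Q i + 2) * (n + 2 * M ^ B2) := by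
              refine mul_le_mul (by linarith) (by linarith) hMB.le (by linarith)) hS0 hS2 (by
        intro t ht1 ht2
        refine g2 t ?_ (ht2.trans hyT)
        refine le_trans ?_ ht1
        rw [Real.exp_le_exp]
        have : (1 / (((m + 2 : ℕ)) : ℝ)) = 1 / (((m + 1 : ℕ) : ℝ) + 1) := by push_cast; ring
        rw [this])
    have hT2 := hT x.1 x.2 (by
      intro i
      refine ⟨hx3 i, ?_, (hx2' i).1, by have := hx2' i; have := hQ1 i; omega⟩
      rw [abs_le]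
      have := hx1' i; have := hQ1 i
      constructor <;> push_cast <;> omega) hx4 hx5 _ z3
    have hSl : 1 / M ≤ sgp ⌊M ^ E⌋₊ (lin x.1 x.2) := by
      have := sgp_low (z := ⌊M ^ E⌋₊) (H := 4 * H) x.1 x.2 (by
        intro F hF hF2
        rw [← hM]
        exact hLo _ z2 F hF hF2) hx5
      rwa [← hM] at this
    have hXl := exP_low x.1 x.2 y hy4 (U := 3 * L) (by linarith) (by
      have : Real.log y ≤ Real.log H := Real.log_le_log (by
        have : (4:ℝ) ≤ y := by exact_mod_cast hy4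
        linarith) (by exact_mod_cast hyH)
      rw [← hL] at this
      linarith) (fun n hn hny i => val_bd (Q := Q) (R := R) hH1 hL (by linarith) hM0 hyH hx1'
        (fun i => (hQ1 i).2) hx2' hdl hy6 n hn hny i)
    have hcnt : (cntP x.1 x.2 y : ℝ) =
        (((Icc 1 y).filter (fun n : ℕ => n.Prime ∧ ∀ i, (x.1 i + x.2 i * n).natAbs.Prime)).card : ℝ) := by
      rw [cntP_eq]
    refine point (k := k) (M := M) (S := sgp ⌊M ^ E⌋₊ (lin x.1 x.2)) (by linarith) c2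
      (by linarith) (Nat.cast_nonneg y) z4 hT2.1 ?_ hT2.2 hSl hXl
    rw [hcnt]
    exact hN
  -- counting
  have hcount := card_le_card hcov
  have hvq0 : 0 ≤ vq Q R := by unfold vq; positivity
  have h1 : ((univ : Finset (Finset (Fin k))).biUnion (fun Sg => (Bad Sg).image (dec R Sg))).card ≤
      ∑ Sg : Finset (Fin k), (Bad Sg).card :=
    card_biUnion_le.trans (sum_le_sum fun Sg _ => card_image_le)
  have h2 : (∑ Sg : Finset (Fin k), ((Bad Sg).card : ℝ)) ≤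
      2 ^ k * (4 ^ k * vq Q R / M ^ A') := by
    calc (∑ Sg : Finset (Fin k), ((Bad Sg).card : ℝ)) ≤
        ∑ _Sg : Finset (Fin k), (4 ^ k * vq Q R / M ^ A') := by
          refine sum_le_sum fun Sg _ => (hcard Sg).trans ?_
          refine div_le_div_of_nonneg_right (vq_le fun i => (hQ1 i).1.trans (hQ1 i).2.1) ?_
          exact (pow_pos hM0 _).le
      _ = _ := by
          rw [sum_const, card_univ, Fintype.card_finset, Fintype.card_fin, nsmul_eq_mul]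
          push_cast; ring
  have h3 : 2 ^ k * (4 ^ k * vq Q R / M ^ A') ≤ vq Q R / L ^ A := by
    have e1 : 2 ^ k * (4 ^ k * vq Q R / M ^ A') = 8 ^ k * vq Q R / M ^ A' := by
      have : (8:ℝ) ^ k = 2 ^ k * 4 ^ k := by rw [← mul_pow]; norm_num
      rw [this]; ring
    rw [e1, div_le_div_iff₀ (pow_pos hM0 _) (pow_pos hL0 _)]
    have e2 : 8 ^ k * L ^ A ≤ M ^ A' := by
      calc 8 ^ k * L ^ A ≤ M ^ k * M ^ A :=
            mul_le_mul (pow_le_pow_left₀ (by norm_num) hM8 _) (pow_le_pow_left₀ hL0.le c2 _)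
              (by positivity) (by positivity)
        _ = M ^ (k + A) := by ring
        _ ≤ M ^ A' := pow_le_pow_right₀ (by linarith) (by omega)
    calc 8 ^ k * vq Q R * L ^ A = vq Q R * (8 ^ k * L ^ A) := by ring
      _ ≤ vq Q R * M ^ A' := mul_le_mul_of_nonneg_left e2 hvq0
  have h4 : (((univ : Finset (Finset (Fin k))).biUnion (fun Sg => (Bad Sg).image (dec R Sg))).card : ℝ) ≤
      ∑ Sg : Finset (Fin k), ((Bad Sg).card : ℝ) := by exact_mod_cast h1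
  have h5 := (Nat.cast_le (α := ℝ)).2 hcount
  refine le_trans ?_ (h5.trans (h4.trans (h2.trans h3)))
  refine le_of_eq ?_
  congr 2

end Pool.Agent.helper24_UT.R2
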