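import Pool.Agent.helper24_UT.Stm13
import Pool.Agent.helper24_UT.R2

set_option autoImplicit false

namespace Pool.Agent.helper24_UT.R11

open Finset Polynomial
open Pool.Agent.helper24_UT
open Pool.Agent.H373R2.T7 (lamI lamzI lamz Vz pz lamP mem_pz Vz_pos Vz_inv_small)
open Pool.Agent.H807R2.Dav (ee)
open Pool.Agent.helper24_UT.R2 (sgp_nonneg sgp_le sgp_low cntP_eq exP_nonneg exP_low lin_eval z_facts)

/-! ### the asymptotic facts -/

lemma asym4 (k e A' m : ℕ) (he : 1 ≤ e) (hm : 1 ≤ m) : ∃ H₀ : ℕ, ∀ H : ℕ, H₀ ≤ H →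
    8 + 8 * 4 ^ (k + 1) ≤ Real.log H ∧ Real.log H ≤ Real.log ((4 * H : ℕ) : ℝ) ∧
    Real.log ((4 * H : ℕ) : ℝ) ≤ 2 * Real.log H ∧
    Real.log ((4 * H : ℕ) : ℝ) ^ (1 / ((m + 1 : ℕ) : ℝ)) ≤ Real.log H ^ (1 / (m : ℝ)) ∧
    ((4 * H : ℕ) : ℝ) ^ (1 / ((e + 1 : ℕ) : ℝ)) ≤ (H : ℝ) ^ (1 / (e : ℝ)) ∧
    6 * Real.log ((4 * H : ℕ) : ℝ) ^ (A' + 1) ≤ Real.exp (Real.log H ^ (1 / (m : ℝ))) := by
  obtain ⟨H₀, h⟩ := R2.asym (2 * (k + 1)) e A' 0 m he hm
  refine ⟨H₀, fun H hH => ?_⟩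
  obtain ⟨h1, h2, h3, h4, h5, h6⟩ := h H hH
  refine ⟨?_, h2, h3, h4, h5, h6⟩
  have h7 : (4:ℝ) ^ (k + 1) ≤ 3 ^ (2 * (k + 1) + 1) := by
    calc (4:ℝ) ^ (k + 1) ≤ 9 ^ (k + 1) := pow_le_pow_left₀ (by norm_num) (by norm_num) _
      _ = 3 ^ (2 * (k + 1)) := by rw [pow_mul]; norm_num
      _ ≤ 3 ^ (2 * (k + 1) + 1) := pow_le_pow_right₀ (by norm_num) (by omega)
  have h8 : (0:ℝ) < 2 ^ 0 := by norm_num
  linarith

/-- combination at one point -/
lemma point4 {k A : ℕ} {L M N S s X y z : ℝ} (hL : 1 ≤ L) (hLM : L ≤ M) (hM : 8 * 4 ^ (k + 1) ≤ M)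
    (hy : 0 ≤ y) (hz : M ^ 2 / z ≤ 1 / (2 * L ^ A)) (hs : 0 < s)
    (hN : |N - S * X| ≤ y / M ^ (A + k + 8)) (hT : |S - s| ≤ s * (M ^ 2 / z)) (hS : 1 / M ≤ S)
    (hX : y / 2 * (1 / (4 * L)) ^ (k + 1) ≤ X) : |N - s * X| ≤ s * X / L ^ A := by
  have hM0 : 0 < M := by linarith
  have hL0 : 0 < L := by linarith
  have hX0 : 0 ≤ X := le_trans (by positivity) hX
  have hLA : 0 < L ^ A := pow_pos hL0 A
  have hLA1 : 1 ≤ L ^ A := one_le_pow₀ hL
  have h1 : |S - s| ≤ s * (1 / (2 * L ^ A)) := hT.trans (mul_le_mul_of_nonneg_left hz hs.le)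
  have h2 : s * (1 / (2 * L ^ A)) ≤ s := by
    have : 1 / (2 * L ^ A) ≤ 1 := by
      rw [div_le_one (by positivity)]; linarith
    nlinarith
  have h3 : S ≤ 2 * s := by linarith [(abs_le.1 h1).2]
  have h4 : 1 / (2 * M) ≤ s := by
    have : 1 / (2 * M) = (1 / M) / 2 := by field_simp
    rw [this]; linarith
  have h5 : y / M ^ (A + k + 8) ≤ s * X / (2 * L ^ A) := by
    have h6 : 1 / (2 * M) * (y / 2 * (1 / (4 * L)) ^ (k + 1)) ≤ s * X :=
      mul_le_mul h4 hX (by positivity) hs.le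
    have h7 : 8 * L ^ A * M * (4 * L) ^ (k + 1) ≤ M ^ (A + k + 8) := by
      have e1 : M ^ (A + k + 8) = M ^ A * M ^ (k + 1) * M * M * M ^ 5 := by ring
      have e2 : 8 * L ^ A * M * (4 * L) ^ (k + 1) = L ^ A * L ^ (k + 1) * M * (8 * 4 ^ (k + 1)) := by
        rw [mul_pow]; ring
      have hM1 : 1 ≤ M := by linarith
      rw [e1, e2]
      have i1 : L ^ A * L ^ (k + 1) ≤ M ^ A * M ^ (k + 1) :=
        mul_le_mul (pow_le_pow_left₀ hL0.le hLM _) (pow_le_pow_left₀ hL0.le hLM _) (by positivity)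
          (by positivity)
      have i2 : L ^ A * L ^ (k + 1) * M ≤ M ^ A * M ^ (k + 1) * M :=
        mul_le_mul_of_nonneg_right i1 hM0.le
      have i3 : L ^ A * L ^ (k + 1) * M * (8 * 4 ^ (k + 1)) ≤ M ^ A * M ^ (k + 1) * M * M :=
        mul_le_mul i2 hM (by positivity) (by positivity)
      exact i3.trans (le_mul_of_one_le_right (by positivity) (one_le_pow₀ hM1))
    have h8 : y / M ^ (A + k + 8) ≤ y / (8 * L ^ A * M * (4 * L) ^ (k + 1)) :=
      div_le_div_of_nonneg_left hy (by positivity) h7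
    refine h8.trans ?_
    have h9 : y / (8 * L ^ A * M * (4 * L) ^ (k + 1)) =
        1 / (2 * M) * (y / 2 * (1 / (4 * L)) ^ (k + 1)) / (2 * L ^ A) := by
      rw [one_div, one_div, inv_pow]
      field_simp
      ring
    rw [h9]
    exact div_le_div_of_nonneg_right h6 (by positivity)
  have h10 : |N - s * X| ≤ |N - S * X| + |S - s| * X := by
    have : N - s * X = (N - S * X) + (S - s) * X := by ring
    rw [this]
    refine (abs_add_le _ _).trans ?_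
    rw [abs_mul, abs_of_nonneg hX0]
  have h11 : |S - s| * X ≤ s * X / (2 * L ^ A) := by
    calc |S - s| * X ≤ s * (1 / (2 * L ^ A)) * X := mul_le_mul_of_nonneg_right h1 hX0
      _ = _ := by ring
  calc |N - s * X| ≤ y / M ^ (A + k + 8) + s * X / (2 * L ^ A) := by linarith
    _ ≤ s * X / (2 * L ^ A) + s * X / (2 * L ^ A) := by linarith
    _ = s * X / L ^ A := by field_simp; ring

/-! ### sign patterns -/

open Classical in
/-- the shifts -/
noncomputable def ss {k : ℕ} (R : Fin k → ℕ) (Sg : Finset (Fin k)) (i : Fin k) : ℤ :=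
  if i ∈ Sg then -((R i : ℤ) + 1) else 0

open Classical in
noncomputable def dec {k : ℕ} (R : Fin k → ℕ) (Sg : Finset (Fin k)) (v : Fin k → ℕ × ℕ) :
    (Fin k → ℤ) × (Fin k → ℕ) :=
  (fun i => if i ∈ Sg then ((v i).2 : ℤ) - R i - 1 else (v i).2, fun i => (v i).1)

def enc {k : ℕ} (R : Fin k → ℕ) (x : (Fin k → ℤ) × (Fin k → ℕ)) (i : Fin k) : ℕ × ℕ :=
  (x.2 i, if x.1 i < 0 then (x.1 i + R i + 1).toNat else (x.1 i).toNat)

def neg {k : ℕ} (x : (Fin k → ℤ) × (Fin k → ℕ)) : Finset (Fin k) := univ.filter (fun i => x.1 i < 0)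

lemma enc_mem {k : ℕ} {R : Fin k → ℕ} {x : (Fin k → ℤ) × (Fin k → ℕ)}
    (h1 : ∀ i, -(R i : ℤ) ≤ x.1 i ∧ x.1 i ≤ R i) (h0 : ∀ i, x.1 i ≠ 0)
    (h2 : ∀ i, 1 ≤ x.2 i ∧ x.2 i ≤ R i) : enc R x ∈ Bq R R := by
  unfold Bq
  rw [Fintype.mem_piFinset]
  intro i
  have a1 := h1 i
  have a2 := h0 i
  have a3 := h2 i
  rw [mem_product, mem_Icc, mem_Icc]
  unfold enc
  split_ifs with h
  · refine ⟨⟨a3.1, ?_⟩, ?_, ?_⟩ <;> simp only <;> omega
  · refine ⟨⟨a3.1, ?_⟩, ?_, ?_⟩ <;> simp only <;> omega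

lemma dec_enc {k : ℕ} {R : Fin k → ℕ} {x : (Fin k → ℤ) × (Fin k → ℕ)}
    (h1 : ∀ i, -(R i : ℤ) ≤ x.1 i ∧ x.1 i ≤ R i) : dec R (neg x) (enc R x) = x := by
  classical
  unfold dec enc neg
  ext i
  · simp only [mem_filter, mem_univ, true_and]
    have := h1 i
    split_ifs with h
    · omega
    · omega
  · rfl

lemma pl_enc {k : ℕ} {R : Fin k → ℕ} {x : (Fin k → ℤ) × (Fin k → ℕ)}
    (h1 : ∀ i, -(R i : ℤ) ≤ x.1 i ∧ x.1 i ≤ R i) :
    pl (fun i => C (ss R (neg x) i)) (enc R x) = lin x.1 x.2 := by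
  classical
  funext i
  unfold pl ss enc neg lin
  simp only [mem_filter, mem_univ, true_and]
  have := h1 i
  split_ifs with h
  · have e1 : (((x.1 i + R i + 1).toNat : ℕ) : ℤ) = x.1 i + R i + 1 := by omega
    rw [e1]
    simp only [map_neg, map_add, map_one]
    ring
  · have e1 : (((x.1 i).toNat : ℕ) : ℤ) = x.1 i := by omega
    rw [e1, map_zero]
    ring

/-- the values on the upper half of the interval -/
lemma val_bd {k A' : ℕ} {H y : ℕ} {L M : ℝ} {R : Fin k → ℕ} {a : Fin k → ℤ} {d : Fin k → ℕ}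
    (hH : 1 ≤ H) (hL : L = Real.log H) (hL1 : 1 ≤ L) (hM : 0 < M) (hyH : y ≤ H ^ 2)
    (h1 : ∀ i, -(R i : ℤ) ≤ a i ∧ a i ≤ R i) (hR : ∀ i, 1 ≤ R i ∧ R i ≤ H)
    (h2 : ∀ i, 1 ≤ d i ∧ d i ≤ R i) (hd : ∀ i, (R i : ℝ) / M ^ (A' + 1) ≤ d i)
    (hy : 6 * M ^ (A' + 1) ≤ y) (n : ℕ) (hn : (y : ℝ) ≤ 2 * n) (hny : n ≤ y) (i : Fin k) :
    2 ≤ |((a i + d i * n : ℤ) : ℝ)| ∧ Real.log |((a i + d i * n : ℤ) : ℝ)| ≤ 4 * L := by
  have a1 : -(R i : ℝ) ≤ a i := by exact_mod_cast (h1 i).1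
  have a2 : (a i : ℝ) ≤ R i := by exact_mod_cast (h1 i).2
  have a3 : (1 : ℝ) ≤ R i := by exact_mod_cast (hR i).1
  have a4 : (R i : ℝ) ≤ H := by exact_mod_cast (hR i).2
  have a5 : (d i : ℝ) ≤ R i := by exact_mod_cast (h2 i).2
  have a6 : (0:ℝ) ≤ d i := Nat.cast_nonneg _
  have a7 : (n : ℝ) ≤ (H : ℝ) ^ 2 := by exact_mod_cast hny.trans hyH
  have a8 : (0:ℝ) ≤ n := Nat.cast_nonneg _
  have a9 : (1:ℝ) ≤ H := by exact_mod_cast hH
  have hMp : 0 < M ^ (A' + 1) := pow_pos hM _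
  have h3 := hd i
  rw [div_le_iff₀ hMp] at h3
  have h4 : 3 * M ^ (A' + 1) ≤ n := by linarith
  have h5 : 3 * (R i : ℝ) ≤ d i * n := by
    have : 3 * (R i : ℝ) ≤ 3 * (d i * M ^ (A' + 1)) := by linarith
    refine this.trans ?_
    calc 3 * ((d i : ℝ) * M ^ (A' + 1)) = d i * (3 * M ^ (A' + 1)) := by ring
      _ ≤ d i * n := mul_le_mul_of_nonneg_left h4 a6
  have h6 : (2:ℝ) ≤ a i + d i * n := by linarith
  have h7 : (a i : ℝ) + d i * n ≤ 2 * H ^ 3 := by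
    have e1 : (d i : ℝ) * n ≤ H * H ^ 2 := mul_le_mul (a5.trans a4) a7 a8 (by linarith)
    have e2 : (H : ℝ) ≤ H ^ 3 := by
      have : (1:ℝ) ≤ (H : ℝ) ^ 2 := one_le_pow₀ a9
      nlinarith
    nlinarith
  push_cast
  rw [abs_of_nonneg (by linarith)]
  refine ⟨h6, ?_⟩
  calc Real.log ((a i : ℝ) + d i * n) ≤ Real.log (2 * H ^ 3) := Real.log_le_log (by linarith) h7
    _ = Real.log 2 + 3 * Real.log H := by
      rw [Real.log_mul (by norm_num) (by positivity), Real.log_pow]; norm_num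
    _ ≤ 4 * L := by
      have := Real.log_two_lt_d9
      rw [hL]
      linarith

theorem main : S_PSIP4 → S_INP4 → S_TLP → S_LOW → S_R11 := by
  intro hPSIP hINP hTLP hLOW k e A m hk he hm
  classical
  obtain ⟨A', B2, H1, hA', hI⟩ := hINP k (e + 1) (A + k + 8) (m + 1) (by omega) (by omega)
  obtain ⟨E0, hP⟩ := hPSIP k (e + 1) A' (m + 2) (by omega) (by omega)
  obtain ⟨H2, hP⟩ := hP (max E0 (A + 18)) (le_max_left _ _)
  have hE : A + 18 ≤ max E0 (A + 18) := le_max_right _ _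
  generalize max E0 (A + 18) = E at hP hE
  obtain ⟨H3, hT⟩ := hTLP k
  obtain ⟨H4, hLo⟩ := hLOW (k + 1) 1 E
  obtain ⟨H5, hV⟩ := Vz_inv_small E
  obtain ⟨H6, hAs⟩ := asym4 k e A' m he hm
  refine ⟨0, H1 + H2 + H3 + H4 + H5 + H6 + 1, fun H hH R hR => ?_⟩
  obtain ⟨c1, c2, c3, c4, c5, c6⟩ := hAs H (by omega)
  have hH1 : 1 ≤ H := by omega
  have hH1' : (1:ℝ) ≤ H := by exact_mod_cast hH1
  have he0 : (0:ℝ) < e := by exact_mod_cast he
  -- the two logarithms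
  obtain ⟨L, hL⟩ : ∃ L, L = Real.log H := ⟨_, rfl⟩
  obtain ⟨M, hM⟩ : ∃ M, M = Real.log ((4 * H : ℕ) : ℝ) := ⟨_, rfl⟩
  have hP := hP (4 * H) (by omega)
  have hI := hI (4 * H) (by omega)
  have hT := hT (4 * H) (by omega)
  have hLo := hLo (4 * H) (by omega)
  have hV := hV (4 * H) (by omega)
  rw [← hM] at hP hI hT hLo hV c2 c3 c4 c6
  rw [← hL] at c1 c2 c3 c4 c6 ⊢
  have p2 : (0:ℝ) < 4 ^ (k + 1) := by positivity
  have hL8 : 8 ≤ L := by linarith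
  have hL0 : 0 < L := by linarith
  have hM8 : 8 ≤ M := by linarith
  have hM0 : 0 < M := by linarith
  obtain ⟨z1, z2, z3, z4⟩ := z_facts hL8 c2 hE
  have hR1 : ∀ i, 1 ≤ R i ∧ R i ≤ H := by
    intro i
    obtain ⟨r1, r2⟩ := hR i
    refine ⟨?_, r2⟩
    have : (1:ℝ) ≤ R i := (Real.one_le_rpow hH1' (by positivity)).trans r1
    exact_mod_cast this
  -- the largest length
  let P : ℕ → Prop := fun t => ∀ i, (t : ℝ) ≤ (R i : ℝ) ^ (2 - 1 / e : ℝ)
  have hP0 : P 0 := by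
    intro i
    rw [Nat.cast_zero]
    positivity
  let T : ℕ := Nat.findGreatest P (H ^ 2)
  have hTP : P T := Nat.findGreatest_spec (Nat.zero_le _) hP0
  have hTH : T ≤ H ^ 2 := Nat.findGreatest_le _
  have hHH : H ^ 2 ≤ (4 * H) ^ 2 := Nat.pow_le_pow_left (by omega) 2
  have hRg : Rg4 (e + 1) (4 * H) T R := by
    intro i
    obtain ⟨r1, r2⟩ := hR i
    refine ⟨c5.trans r1, by omega, (hTP i).trans ?_⟩
    refine Real.rpow_le_rpow_of_exponent_le (by exact_mod_cast (hR1 i).1) ?_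
    have : 1 / ((e + 1 : ℕ) : ℝ) ≤ 1 / (e : ℝ) :=
      one_div_le_one_div_of_le he0 (by push_cast; linarith)
    linarith
  have hBad := fun Sg : Finset (Fin k) => hP T (hTH.trans hHH) R hRg (ss R Sg) (by
      intro i
      have := hR1 i
      unfold ss
      split_ifs
      · rw [abs_neg, abs_of_nonneg (by positivity)]
        omega
      · rw [abs_zero]
        positivity)
  choose Bad hsub hcard hgood using hBad
  -- the exceptional set is covered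
  have hcov : ((Fintype.piFinset (fun i => Icc (-(R i : ℤ)) (R i)) ×ˢ
      Fintype.piFinset (fun i => Icc 1 (R i))).filter
      (fun x : (Fin k → ℤ) × (Fin k → ℕ) => AdmP x.1 x.2 ∧
      ¬ ∀ y : ℕ, Real.exp (L ^ (1 / m : ℝ)) ≤ y → (∀ i, (y : ℝ) ≤ (R i : ℝ) ^ (2 - 1 / e : ℝ)) →
        |(cntP x.1 x.2 y : ℝ) - serp x.1 x.2 * exP x.1 x.2 y| ≤
          serp x.1 x.2 * exP x.1 x.2 y / L ^ A)) ⊆
      (univ : Finset (Finset (Fin k))).biUnion (fun Sg => (Bad Sg).image (dec R Sg)) := by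
    intro x hx
    rw [mem_filter, mem_product, Fintype.mem_piFinset, Fintype.mem_piFinset] at hx
    obtain ⟨⟨hx1, hx2⟩, ⟨hx3, hx4, hx5⟩, hx6⟩ := hx
    have hx1' : ∀ i, -(R i : ℤ) ≤ x.1 i ∧ x.1 i ≤ R i := fun i => mem_Icc.1 (hx1 i)
    have hx2' : ∀ i, 1 ≤ x.2 i ∧ x.2 i ≤ R i := fun i => mem_Icc.1 (hx2 i)
    by_contra hnot
    have hvm : enc R x ∈ Bq R R := enc_mem hx1' hx3 hx2'
    have hvB : enc R x ∉ Bad (neg x) := by
      intro hv
      apply hnot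
      rw [mem_biUnion]
      exact ⟨neg x, mem_univ _, mem_image.2 ⟨_, hv, dec_enc hx1'⟩⟩
    obtain ⟨g1, g2⟩ := hgood (neg x) _ hvm hvB
    rw [pl_enc hx1'] at g2
    simp only [lin_eval] at g2
    apply hx6
    intro y hy hyQ
    -- size of y
    have hi0 : Fin k := ⟨0, by omega⟩
    have hy6 : 6 * M ^ (A' + 1) ≤ y := c6.trans hy
    have hM1 : 1 ≤ M ^ (A' + 1) := one_le_pow₀ (by linarith)
    have hy4 : 4 ≤ y := by
      have : (4:ℝ) ≤ y := by linarith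
      exact_mod_cast this
    have hyH : y ≤ H ^ 2 := by
      have h1 := hyQ hi0
      have hR1' : (1:ℝ) ≤ R hi0 := by exact_mod_cast (hR1 hi0).1
      have hQH : (R hi0 : ℝ) ≤ H := by exact_mod_cast (hR1 hi0).2
      have h2 : (R hi0 : ℝ) ^ (2 - 1 / e : ℝ) ≤ (R hi0 : ℝ) ^ (2 : ℝ) := by
        refine Real.rpow_le_rpow_of_exponent_le hR1' ?_
        have : 0 < 1 / (e : ℝ) := by positivity
        linarith
      have h3 : (R hi0 : ℝ) ^ (2 : ℝ) = (R hi0 : ℝ) ^ 2 := by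
        rw [← Real.rpow_natCast]; norm_num
      have h4 : (R hi0 : ℝ) ^ 2 ≤ (H : ℝ) ^ 2 := pow_le_pow_left₀ (by linarith) hQH 2
      have h5 : (y : ℝ) ≤ (H : ℝ) ^ 2 := by
        rw [h3] at h2
        exact h1.trans (h2.trans h4)
      exact_mod_cast h5
    have hyT : y ≤ T := Nat.le_findGreatest hyH hyQ
    have hy1 : Real.exp (M ^ (1 / ((m + 1 : ℕ) : ℝ))) ≤ y :=
      (Real.exp_le_exp.2 c4).trans hy
    have hS1 := hV _ z1 z2
    have hS0 : 0 ≤ sgp ⌊M ^ E⌋₊ (lin x.1 x.2) := sgp_nonneg _ _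
    have hS2 : sgp ⌊M ^ E⌋₊ (lin x.1 x.2) ≤ M ^ (k + 2) := by
      refine (sgp_le _ _).trans ?_
      calc ((Vz ⌊M ^ E⌋₊)⁻¹) ^ k ≤ M ^ k :=
            pow_le_pow_left₀ (inv_nonneg.2 (Vz_pos _).le) hS1 _
        _ ≤ M ^ (k + 2) := pow_le_pow_right₀ (by linarith) (by omega)
    have hdl : ∀ i, (R i : ℝ) / M ^ (A' + 1) ≤ x.2 i := g1
    have hN := hI y hy1 (hyH.trans hHH) R x.2 (fun i n => x.1 i + x.2 i * n)
      (sgp ⌊M ^ E⌋₊ (lin x.1 x.2)) (by
        intro i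
        refine ⟨c5.trans (hR i).1, by have := hx2' i; have := hR1 i; omega, hdl i⟩) (by
        intro i n _
        have hn0 : (0:ℝ) ≤ n := Nat.cast_nonneg _
        have hR0 : (0:ℝ) ≤ R i := Nat.cast_nonneg _
        have hMB : 0 < M ^ B2 := pow_pos hM0 _
        have a1 : -(R i : ℝ) ≤ x.1 i := by exact_mod_cast (hx1' i).1
        have a2 : (x.1 i : ℝ) ≤ R i := by exact_mod_cast (hx1' i).2
        have e1 : ((x.1 i + x.2 i * n - x.2 i * n : ℤ) : ℝ) = x.1 i := by push_cast; ring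
        rw [e1]
        have a3 : |(x.1 i : ℝ)| ≤ R i := abs_le.2 ⟨by linarith, by linarith⟩
        calc |(x.1 i : ℝ)| * M ^ B2 ≤ R i * M ^ B2 := mul_le_mul_of_nonneg_right a3 hMB.le
          _ ≤ R i * (n + 2 * M ^ B2) := by
              refine mul_le_mul_of_nonneg_left (by linarith) hR0) hS0 hS2 (by
        intro t ht1 ht2
        refine g2 t ?_ (ht2.trans hyT)
        refine le_trans ?_ ht1
        rw [Real.exp_le_exp]
        have : (1 / (((m + 2 : ℕ)) : ℝ)) = 1 / (((m + 1 : ℕ) : ℝ) + 1) := by push_cast; ring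
        rw [this])
    have hT2 := hT x.1 x.2 (by
      intro i
      refine ⟨hx3 i, ?_, (hx2' i).1, by have := hx2' i; have := hR1 i; omega⟩
      rw [abs_le]
      have := hx1' i; have := hR1 i
      constructor <;> push_cast <;> omega) hx4 hx5 _ z3
    have hSl : 1 / M ≤ sgp ⌊M ^ E⌋₊ (lin x.1 x.2) := by
      have := sgp_low (z := ⌊M ^ E⌋₊) (H := 4 * H) x.1 x.2 (by
        intro F hF hF2
        rw [← hM]
        exact hLo _ z2 F hF hF2) hx5
      rwa [← hM] at this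
    have hXl := exP_low x.1 x.2 y hy4 (U := 4 * L) (by linarith) (by
      have h1 : Real.log y ≤ Real.log ((H : ℝ) ^ 2) := Real.log_le_log (by
        have : (4:ℝ) ≤ y := by exact_mod_cast hy4
        linarith) (by exact_mod_cast hyH)
      rw [Real.log_pow, ← hL] at h1
      push_cast at h1
      linarith) (fun n hn hny i => val_bd (R := R) hH1 hL (by linarith) hM0 hyH hx1'
        hR1 hx2' hdl hy6 n hn hny i)
    have hcnt : (cntP x.1 x.2 y : ℝ) =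
        (((Icc 1 y).filter (fun n : ℕ => n.Prime ∧ ∀ i, (x.1 i + x.2 i * n).natAbs.Prime)).card : ℝ) := by
      rw [cntP_eq]
    refine point4 (k := k) (M := M) (S := sgp ⌊M ^ E⌋₊ (lin x.1 x.2)) (by linarith) c2
      (by linarith) (Nat.cast_nonneg y) z4 hT2.1 ?_ hT2.2 hSl hXl
    rw [hcnt]
    exact hN
  -- counting
  have hcount := card_le_card hcov
  have hvq0 : 0 ≤ vq R R := by unfold vq; positivity
  have h1 : ((univ : Finset (Finset (Fin k))).biUnion (fun Sg => (Bad Sg).image (dec R Sg))).card ≤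
      ∑ Sg : Finset (Fin k), (Bad Sg).card :=
    card_biUnion_le.trans (sum_le_sum fun Sg _ => card_image_le)
  have h2 : (∑ Sg : Finset (Fin k), ((Bad Sg).card : ℝ)) ≤ 2 ^ k * (vq R R / M ^ A') := by
    calc (∑ Sg : Finset (Fin k), ((Bad Sg).card : ℝ)) ≤
        ∑ _Sg : Finset (Fin k), (vq R R / M ^ A') := sum_le_sum fun Sg _ => hcard Sg
      _ = _ := by
          rw [sum_const, card_univ, Fintype.card_finset, Fintype.card_fin, nsmul_eq_mul]
          push_cast; ring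
  have h3 : 2 ^ k * (vq R R / M ^ A') ≤ vq R R / L ^ A := by
    have e1 : 2 ^ k * (vq R R / M ^ A') = 2 ^ k * vq R R / M ^ A' := by ring
    rw [e1, div_le_div_iff₀ (pow_pos hM0 _) (pow_pos hL0 _)]
    have e2 : 2 ^ k * L ^ A ≤ M ^ A' := by
      calc 2 ^ k * L ^ A ≤ M ^ k * M ^ A :=
            mul_le_mul (pow_le_pow_left₀ (by norm_num) (by linarith) _)
              (pow_le_pow_left₀ hL0.le c2 _) (by positivity) (by positivity)
        _ = M ^ (k + A) := by ring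
        _ ≤ M ^ A' := pow_le_pow_right₀ (by linarith) (by omega)
    calc 2 ^ k * vq R R * L ^ A = vq R R * (2 ^ k * L ^ A) := by ring
      _ ≤ vq R R * M ^ A' := mul_le_mul_of_nonneg_left e2 hvq0
  have h4 : (((univ : Finset (Finset (Fin k))).biUnion (fun Sg => (Bad Sg).image (dec R Sg))).card : ℝ) ≤
      ∑ Sg : Finset (Fin k), ((Bad Sg).card : ℝ) := by exact_mod_cast h1
  have h5 := (Nat.cast_le (α := ℝ)).2 hcount
  refine le_trans ?_ (h5.trans (h4.trans (h2.trans h3)))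
  refine le_of_eq ?_
  congr 2

end Pool.Agent.helper24_UT.R11
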