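import Pool.Agent.helper24_UT.Stm15
import Pool.Agent.helper24_UT.R11

set_option autoImplicit false

namespace Pool.Agent.helper24_UT.R11g

open Finset Polynomial
open Pool.Agent.helper24_UT
open Pool.Agent.H373R2.T7 (lamI lamzI lamz Vz pz lamP Vz_pos Vz_inv_small)
open Pool.Agent.H807R2.Dav (ee)
open Pool.Agent.helper24_UT.R2 (sgp_nonneg sgp_le sgp_low cntP_eq exP_nonneg exP_low lin_eval z_facts)
open Pool.Agent.helper24_UT.R11 (point4)

/-- the asymptotic facts -/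
lemma asymG (k e B m : ℕ) (he : 1 ≤ e) (hm : 1 ≤ m) : ∃ H₀ : ℕ, ∀ H : ℕ, H₀ ≤ H →
    8 + 8 * 4 ^ (k + 1) ≤ Real.log H ∧
    2 * Real.log H ^ B * Real.exp (Real.log H ^ (1 / ((m + 1 : ℕ) : ℝ))) ≤
      Real.exp (Real.log H ^ (1 / (m : ℝ))) ∧
    2 * Real.log H ^ B ≤ ((H : ℝ) ^ (1 / (e : ℝ))) ^ (1 / ((2 * e : ℕ) : ℝ)) ∧
    4 ≤ Real.exp (Real.log H ^ (1 / (m : ℝ))) := by
  have hlim : Filter.Tendsto (fun N : ℕ => Real.log (N : ℝ)) Filter.atTop Filter.atTop :=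
    Real.tendsto_log_atTop.comp (tendsto_natCast_atTop_atTop (R := ℝ))
  have hm0 : (0:ℝ) < m := by exact_mod_cast hm
  have he0 : (0:ℝ) < e := by exact_mod_cast he
  have e1 := hlim.eventually_ge_atTop (8 + 8 * 4 ^ (k + 1))
  have e3 : ∀ᶠ w : ℝ in Filter.atTop, 2 ≤ w ∧ 2 * w ^ (m * (m + 1) * B) ≤ Real.exp w := by
    have h1 := Real.tendsto_exp_div_pow_atTop (m * (m + 1) * B)
    filter_upwards [h1.eventually_ge_atTop 2, Filter.eventually_ge_atTop (2:ℝ)] with w hw hw0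
    refine ⟨hw0, ?_⟩
    rwa [le_div_iff₀ (pow_pos (by linarith) _)] at hw
  have e4 := ((tendsto_rpow_atTop (show (0:ℝ) < 1 / ((m * (m + 1) : ℕ) : ℝ) by
    have : 0 < m * (m + 1) := by positivity
    have h : (0:ℝ) < ((m * (m + 1) : ℕ) : ℝ) := by exact_mod_cast this
    positivity)).comp hlim).eventually e3
  have e5 : ∀ᶠ w : ℝ in Filter.atTop, 2 * w ^ B * (2 * e * e : ℝ) ^ B ≤ Real.exp w := by
    have h1 := Real.tendsto_exp_div_pow_atTop B
    filter_upwards [h1.eventually_ge_atTop (2 * (2 * e * e : ℝ) ^ B), Filter.eventually_gt_atTop (0:ℝ)]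
      with w hw hw0
    rw [le_div_iff₀ (pow_pos (by linarith) _)] at hw
    linarith
  have e6 := (hlim.atTop_div_const (show (0:ℝ) < 2 * e * e by positivity)).eventually e5
  obtain ⟨H₀, h⟩ := Filter.eventually_atTop.1 (e1.and (e4.and e6))
  refine ⟨H₀ + 1, fun H hH => ?_⟩
  obtain ⟨h1, h3, h4⟩ := h H (by omega)
  have hH1 : (1:ℝ) ≤ H := by
    have : 1 ≤ H := by omega
    exact_mod_cast this
  have hp2 : (0:ℝ) < 4 ^ (k + 1) := by positivity
  have hL0 : 0 < Real.log H := by linarith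
  simp only [Function.comp] at h3
  obtain ⟨h5, h6⟩ := h3
  refine ⟨h1, ?_, ?_, ?_⟩
  · set w := Real.log H ^ (1 / ((m * (m + 1) : ℕ) : ℝ)) with hw
    have hw0 : 0 ≤ w := by linarith
    have hmm : (m * (m + 1) : ℕ) ≠ 0 := by positivity
    have hwm : w ^ (m * (m + 1)) = Real.log H := by
      rw [hw, one_div]; exact Real.rpow_inv_natCast_pow hL0.le hmm
    have a1 : Real.log H ^ (1 / ((m + 1 : ℕ) : ℝ)) = w ^ m := by
      rw [← hwm, pow_mul, one_div]
      exact Real.pow_rpow_inv_natCast (by positivity) (by omega)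
    have a2 : Real.log H ^ (1 / (m : ℝ)) = w ^ (m + 1) := by
      rw [← hwm, mul_comm m (m + 1), pow_mul, one_div]
      exact Real.pow_rpow_inv_natCast (by positivity) (by omega)
    have a3 : w ^ m + w ≤ w ^ (m + 1) := by
      have b1 : w ≤ w ^ m := le_self_pow₀ (by linarith) (by omega)
      have b2 : w ^ (m + 1) = w ^ m * w := pow_succ _ _
      have b3 : 0 ≤ w ^ m := by positivity
      nlinarith
    rw [a1, a2]
    calc 2 * Real.log H ^ B * Real.exp (w ^ m) = (2 * w ^ (m * (m + 1) * B)) * Real.exp (w ^ m) := by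
          rw [pow_mul w, hwm]
      _ ≤ Real.exp w * Real.exp (w ^ m) :=
          mul_le_mul_of_nonneg_right h6 (Real.exp_pos _).le
      _ = Real.exp (w ^ m + w) := by rw [Real.exp_add]; ring
      _ ≤ _ := Real.exp_le_exp.2 a3
  · have a1 : ((H : ℝ) ^ (1 / (e : ℝ))) ^ (1 / ((2 * e : ℕ) : ℝ)) =
        Real.exp (Real.log H / (2 * e * e)) := by
      rw [← Real.rpow_mul (by linarith), Real.rpow_def_of_pos (by linarith)]
      congr 1
      push_cast
      field_simp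
    rw [a1]
    refine le_trans (le_of_eq ?_) h4
    rw [div_pow, mul_assoc, div_mul_cancel₀]
    positivity
  · have h7 : (2:ℝ) ≤ Real.log H ^ (1 / (m : ℝ)) := by
      refine h5.trans (Real.rpow_le_rpow_of_exponent_le (by linarith) ?_)
      refine one_div_le_one_div_of_le hm0 ?_
      have : m ≤ m * (m + 1) := Nat.le_mul_of_pos_right _ (by omega)
      exact_mod_cast this
    have h8 : (2:ℝ) ≤ Real.exp 1 := by
      have := Real.add_one_le_exp (1:ℝ)
      linarith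
    have h9 : Real.exp 2 = Real.exp 1 * Real.exp 1 := by
      rw [← Real.exp_add]; norm_num
    have h10 := Real.exp_le_exp.2 h7
    nlinarith

/-- the values on the upper half of the interval -/
lemma val_bdG {H y a d Q R n : ℕ} {L : ℝ} (hH : 1 ≤ H) (hL : L = Real.log H) (hL8 : 8 ≤ L) (hy4 : 4 ≤ y)
    (ha : 1 ≤ a ∧ a ≤ R) (hR : R ≤ H) (hd : 1 ≤ d ∧ d ≤ Q) (hQy : (Q : ℝ) * y ≤ (H : ℝ) ^ 3)
    (hn : (y : ℝ) ≤ 2 * n) (hny : n ≤ y) :
    2 ≤ |((((a : ℕ) : ℤ) + d * n : ℤ) : ℝ)| ∧ Real.log |((((a : ℕ) : ℤ) + d * n : ℤ) : ℝ)| ≤ 4 * L := by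
  have hH1' : (1:ℝ) ≤ H := by exact_mod_cast hH
  have a1 : (1:ℝ) ≤ a := by exact_mod_cast ha.1
  have a2 : (a : ℝ) ≤ H := by exact_mod_cast ha.2.trans hR
  have a3 : (1:ℝ) ≤ d := by exact_mod_cast hd.1
  have a4 : (d : ℝ) ≤ Q := by exact_mod_cast hd.2
  have a5 : (n : ℝ) ≤ y := by exact_mod_cast hny
  have a6 : (2:ℝ) ≤ n := by
    have : (4:ℝ) ≤ y := by exact_mod_cast hy4
    linarith
  have a7 : (d : ℝ) * n ≤ (H : ℝ) ^ 3 :=
    (mul_le_mul a4 a5 (by linarith) (by linarith)).trans hQy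
  have a8 : (2:ℝ) ≤ (d : ℝ) * n := by nlinarith
  have a9 : (H : ℝ) ≤ H ^ 3 := by
    have : (1:ℝ) ≤ (H : ℝ) ^ 2 := one_le_pow₀ hH1'
    nlinarith
  have e1 : ((((a : ℕ) : ℤ) + d * n : ℤ) : ℝ) = (a : ℝ) + d * n := by push_cast; ring
  rw [e1, abs_of_nonneg (by linarith)]
  refine ⟨by linarith, ?_⟩
  have h1 : Real.log ((a : ℝ) + d * n) ≤ Real.log (2 * H ^ 3) :=
    Real.log_le_log (by linarith) (by linarith)
  have h2 : Real.log (2 * (H : ℝ) ^ 3) = Real.log 2 + 3 * Real.log H := by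
    rw [Real.log_mul (by norm_num) (by positivity), Real.log_pow]; norm_num
  have h3 := Real.log_two_lt_d9
  rw [h2, ← hL] at h1
  linarith

theorem main : S_PSIP5 → S_INP5 → S_TLP → S_LOW → S_R11G := by
  intro hPSIP hINP hTLP hLOW k e A m hk he hm
  classical
  obtain ⟨A', B2, H1, hA', hI⟩ := hINP k (A + k + 8)
  obtain ⟨E0, hP⟩ := hPSIP k (2 * e) A' (m + 1) (by omega) (by omega)
  obtain ⟨H2, hP⟩ := hP (max E0 (A + 18)) (le_max_left _ _)
  have hE : A + 18 ≤ max E0 (A + 18) := le_max_right _ _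
  generalize max E0 (A + 18) = E at hP hE
  obtain ⟨H3, hT⟩ := hTLP k
  obtain ⟨H4, hLo⟩ := hLOW (k + 1) 1 E
  obtain ⟨H5, hV⟩ := Vz_inv_small E
  obtain ⟨H6, hAs⟩ := asymG k e B2 m he hm
  refine ⟨H1 + H2 + H3 + H4 + H5 + H6 + 1, fun H hH Q R hR => ?_⟩
  obtain ⟨c1, c2, c3, c4⟩ := hAs H (by omega)
  have hH1 : 1 ≤ H := by omega
  have hH1' : (1:ℝ) ≤ H := by exact_mod_cast hH1
  have he0 : (0:ℝ) < e := by exact_mod_cast he
  obtain ⟨L, hL⟩ : ∃ L, L = Real.log H := ⟨_, rfl⟩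
  have hP := hP H (by omega)
  have hI := hI H (by omega)
  have hT := hT H (by omega)
  have hLo := hLo H (by omega)
  have hV := hV H (by omega)
  rw [← hL] at hP hI hT hLo hV c1 c2 c3 c4 ⊢
  have p2 : (0:ℝ) < 4 ^ (k + 1) := by positivity
  have hL8 : 8 ≤ L := by linarith
  have hL0 : 0 < L := by linarith
  obtain ⟨z1, z2, z3, z4⟩ := z_facts hL8 (le_refl L) hE
  have hQ1 : ∀ i, 1 ≤ Q i ∧ Q i ≤ R i ∧ R i ≤ H := by
    intro i
    obtain ⟨r1, r2, r3⟩ := hR i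
    refine ⟨?_, r2, r3⟩
    have : (1:ℝ) ≤ Q i := (Real.one_le_rpow hH1' (by positivity)).trans r1
    exact_mod_cast this
  have h2e : 1 / ((2 * e : ℕ) : ℝ) ≤ 1 / (e : ℝ) :=
    one_div_le_one_div_of_le he0 (by push_cast; linarith)
  have h2e' : 1 / (e : ℝ) = 1 / ((2 * e : ℕ) : ℝ) + 1 / ((2 * e : ℕ) : ℝ) := by
    push_cast
    field_simp
    ring
  obtain ⟨Bad, hsub, hcard, hgood⟩ := hP Q R (by
    intro i
    obtain ⟨r1, r2, r3⟩ := hR i
    exact ⟨(Real.rpow_le_rpow_of_exponent_le hH1' h2e).trans r1, r2, r3⟩)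
  -- the exceptional set is mapped into `Bad`
  have key : ∀ x : (Fin k → ℕ) × (Fin k → ℕ), (∀ i, 1 ≤ x.1 i ∧ x.1 i ≤ R i) →
      (∀ i, 1 ≤ x.2 i ∧ x.2 i ≤ Q i) → AdmP (fun i => (x.1 i : ℤ)) x.2 →
      (fun i => (x.2 i, x.1 i)) ∉ Bad →
      ∀ y : ℕ, Real.exp (L ^ (1 / m : ℝ)) ≤ y → (∀ i, Ln5 e (Q i) (R i) y) →
        |(cntP (fun i => (x.1 i : ℤ)) x.2 y : ℝ) -
            serp (fun i => (x.1 i : ℤ)) x.2 * exP (fun i => (x.1 i : ℤ)) x.2 y| ≤
          serp (fun i => (x.1 i : ℤ)) x.2 * exP (fun i => (x.1 i : ℤ)) x.2 y / L ^ A := by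
    intro x hx1 hx2 hadm hvB y hy hyQ
    obtain ⟨hx3, hx4, hx5⟩ := hadm
    have hvm : (fun i => (x.2 i, x.1 i)) ∈ Bq Q R := by
      unfold Bq
      rw [Fintype.mem_piFinset]
      intro i
      rw [mem_product, mem_Icc, mem_Icc]
      exact ⟨hx2 i, hx1 i⟩
    have hpl : pl (fun _ => 0) (fun i => (x.2 i, x.1 i)) = lin (fun i => (x.1 i : ℤ)) x.2 := by
      funext i
      unfold pl lin
      simp only
      ring
    have g2 := hgood _ hvm hvB
    rw [hpl] at g2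
    simp only [lin_eval] at g2
    have hi0 : Fin k := ⟨0, by omega⟩
    have hLB0 : 0 < L ^ B2 := pow_pos hL0 _
    have hLB1 : 1 ≤ L ^ B2 := one_le_pow₀ (by linarith)
    have hexp1 : 1 ≤ Real.exp (L ^ (1 / ((m + 1 : ℕ) : ℝ))) :=
      Real.one_le_exp (Real.rpow_nonneg hL0.le _)
    have hyL : 2 * L ^ B2 * Real.exp (L ^ (1 / ((m + 1 : ℕ) : ℝ))) ≤ y := c2.trans hy
    have hy2 : 2 * L ^ B2 ≤ y := by
      refine le_trans ?_ hyL
      exact le_mul_of_one_le_right (by positivity) hexp1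
    have hy0 : (0:ℝ) ≤ y := Nat.cast_nonneg _
    -- size of y
    have hQy : ∀ i, (Q i : ℝ) * y ≤ (H : ℝ) ^ 3 := by
      intro i
      have hRi : (1:ℝ) ≤ R i := by exact_mod_cast (hQ1 i).1.trans (hQ1 i).2.1
      have hRH : (R i : ℝ) ≤ H := by exact_mod_cast (hQ1 i).2.2
      refine (hyQ i).2.trans ?_
      have h2 : (R i : ℝ) ^ (3 - 1 / e : ℝ) ≤ (R i : ℝ) ^ (3 : ℝ) := by
        refine Real.rpow_le_rpow_of_exponent_le hRi ?_
        have : 0 < 1 / (e : ℝ) := by positivity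
        linarith
      have h3 : (R i : ℝ) ^ (3 : ℝ) = (R i : ℝ) ^ 3 := by
        rw [← Real.rpow_natCast]; norm_num
      rw [h3] at h2
      exact h2.trans (pow_le_pow_left₀ (by linarith) hRH 3)
    have hyH : y ≤ H ^ 3 := by
      have h1 := hQy hi0
      have hQi : (1:ℝ) ≤ Q hi0 := by exact_mod_cast (hQ1 hi0).1
      have h5 : (y : ℝ) ≤ (H : ℝ) ^ 3 := by nlinarith
      exact_mod_cast h5
    have hy4 : 4 ≤ y := by
      have : (4:ℝ) ≤ y := c4.trans hy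
      exact_mod_cast this
    -- the starting point
    obtain ⟨T₀, hT₀⟩ : ∃ T₀ : ℕ, T₀ = ⌊(y : ℝ) / L ^ B2⌋₊ := ⟨_, rfl⟩
    have t1 : (T₀ : ℝ) * L ^ B2 ≤ y := by
      rw [hT₀, ← le_div_iff₀ hLB0]
      exact Nat.floor_le (by positivity)
    have t2 : (y : ℝ) ≤ 2 * L ^ B2 * T₀ := by
      have h1 : (y : ℝ) / L ^ B2 < T₀ + 1 := by rw [hT₀]; exact Nat.lt_floor_add_one _
      rw [div_lt_iff₀ hLB0] at h1
      have h2 : (1:ℝ) ≤ T₀ := by
        have : 1 ≤ T₀ := by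
          rw [hT₀]
          refine Nat.le_floor ?_
          rw [Nat.cast_one, le_div_iff₀ hLB0]
          linarith
        exact_mod_cast this
      nlinarith
    have t3 : 1 ≤ T₀ := by
      rw [hT₀]
      refine Nat.le_floor ?_
      rw [Nat.cast_one, le_div_iff₀ hLB0]
      linarith
    have hS1 := hV _ z1 z2
    have hS0 : 0 ≤ sgp ⌊L ^ E⌋₊ (lin (fun i => (x.1 i : ℤ)) x.2) := sgp_nonneg _ _
    have hS2 : sgp ⌊L ^ E⌋₊ (lin (fun i => (x.1 i : ℤ)) x.2) ≤ L ^ (k + 2) := by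
      refine (sgp_le _ _).trans ?_
      calc ((Vz ⌊L ^ E⌋₊)⁻¹) ^ k ≤ L ^ k :=
            pow_le_pow_left₀ (inv_nonneg.2 (Vz_pos _).le) hS1 _
        _ ≤ L ^ (k + 2) := pow_le_pow_right₀ (by linarith) (by omega)
    have hN := hI y T₀ t3 t1 hyH x.2 x.1 (sgp ⌊L ^ E⌋₊ (lin (fun i => (x.1 i : ℤ)) x.2)) (by
        intro i
        have := hx1 i; have := hx2 i; have := hQ1 i
        refine ⟨?_, ?_, ?_, ?_⟩ <;> omega) hS0 hS2 (by
        intro t ht1 ht2
        have ht1' : (T₀ : ℝ) ≤ t := by exact_mod_cast ht1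
        have ht2' : (t : ℝ) ≤ y := by exact_mod_cast ht2
        have hyt : (y : ℝ) ≤ 2 * L ^ B2 * t :=
          t2.trans (mul_le_mul_of_nonneg_left ht1' (by positivity))
        have := g2 t ?_ (ht2.trans hyH) ?_
        · have e1 : ∑ n ∈ Icc 1 t, lamP (n : ℤ) * ∏ i, lamP ((x.2 i : ℤ) * n + x.1 i) =
              ∑ n ∈ Icc 1 t, lamP (n : ℤ) * ∏ i, lamP ((x.1 i : ℤ) + (x.2 i : ℤ) * n) := by
            refine sum_congr rfl fun n _ => ?_
            congr 1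
            refine prod_congr rfl fun i _ => ?_
            rw [add_comm]
          rw [e1]
          exact this
        · have h1 : 2 * L ^ B2 * Real.exp (L ^ (1 / ((m + 1 : ℕ) : ℝ))) ≤ 2 * L ^ B2 * t :=
            hyL.trans hyt
          exact le_of_mul_le_mul_left h1 (by positivity)
        · intro i
          obtain ⟨l1, l2⟩ := hyQ i
          have hRi : (1:ℝ) ≤ R i := by exact_mod_cast (hQ1 i).1.trans (hQ1 i).2.1
          have hRi0 : (0:ℝ) < R i := by linarith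
          have hQi : (1:ℝ) ≤ Q i := by exact_mod_cast (hQ1 i).1
          constructor
          · have h1 : (R i : ℝ) ^ (1 / 3 + 1 / e : ℝ) =
                (R i : ℝ) ^ (1 / 3 + 1 / ((2 * e : ℕ) : ℝ) : ℝ) * (R i : ℝ) ^ (1 / ((2 * e : ℕ) : ℝ)) := by
              rw [← Real.rpow_add hRi0, h2e']
              congr 1
              ring
            have h2 : 2 * L ^ B2 ≤ (R i : ℝ) ^ (1 / ((2 * e : ℕ) : ℝ)) := by
              refine c3.trans (Real.rpow_le_rpow (by positivity) ?_ (by positivity))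
              refine (hR i).1.trans ?_
              exact_mod_cast (hQ1 i).2.1
            have h3 : (R i : ℝ) ^ (1 / 3 + 1 / ((2 * e : ℕ) : ℝ) : ℝ) * (2 * L ^ B2) ≤
                (Q i : ℝ) * (2 * L ^ B2 * t) := by
              calc (R i : ℝ) ^ (1 / 3 + 1 / ((2 * e : ℕ) : ℝ) : ℝ) * (2 * L ^ B2) ≤
                  (R i : ℝ) ^ (1 / 3 + 1 / ((2 * e : ℕ) : ℝ) : ℝ) *
                    (R i : ℝ) ^ (1 / ((2 * e : ℕ) : ℝ)) :=
                    mul_le_mul_of_nonneg_left h2 (by positivity)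
                _ ≤ (Q i : ℝ) * y := by rw [← h1]; exact l1
                _ ≤ _ := mul_le_mul_of_nonneg_left hyt (by linarith)
            have h4 : (R i : ℝ) ^ (1 / 3 + 1 / ((2 * e : ℕ) : ℝ) : ℝ) * (2 * L ^ B2) ≤
                ((Q i : ℝ) * t) * (2 * L ^ B2) := by
              calc _ ≤ (Q i : ℝ) * (2 * L ^ B2 * t) := h3
                _ = _ := by ring
            exact le_of_mul_le_mul_right h4 (by positivity)
          · calc (Q i : ℝ) * t ≤ Q i * y := mul_le_mul_of_nonneg_left ht2' (by linarith)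
              _ ≤ (R i : ℝ) ^ (3 - 1 / e : ℝ) := l2
              _ ≤ _ := Real.rpow_le_rpow_of_exponent_le hRi (by linarith))
    have hT2 := hT (fun i => (x.1 i : ℤ)) x.2 (by
      intro i
      have := hx1 i; have := hx2 i; have := hQ1 i
      refine ⟨hx3 i, ?_, (hx2 i).1, by omega⟩
      rw [abs_le]
      constructor <;> omega) hx4 hx5 _ z3
    have hSl : 1 / L ≤ sgp ⌊L ^ E⌋₊ (lin (fun i => (x.1 i : ℤ)) x.2) := by
      have := sgp_low (z := ⌊L ^ E⌋₊) (H := H) (fun i => (x.1 i : ℤ)) x.2 (by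
        intro F hF hF2
        rw [← hL]
        exact hLo _ z2 F hF hF2) hx5
      rwa [← hL] at this
    have hXl := exP_low (fun i => (x.1 i : ℤ)) x.2 y hy4 (U := 4 * L) (by linarith) (by
      have h1 : Real.log y ≤ Real.log ((H : ℝ) ^ 3) := Real.log_le_log (by
        have : (4:ℝ) ≤ y := by exact_mod_cast hy4
        linarith) (by exact_mod_cast hyH)
      rw [Real.log_pow, ← hL] at h1
      push_cast at h1
      linarith) (by
      intro n hn hny i
      exact val_bdG hH1 hL hL8 hy4 (hx1 i) (hQ1 i).2.2 (hx2 i) (hQy i) hn hny)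
    exact point4 (k := k) (M := L) (S := sgp ⌊L ^ E⌋₊ (lin (fun i => (x.1 i : ℤ)) x.2))
      (by linarith) (le_refl L) (by linarith) hy0 z4 hT2.1 hN hT2.2 hSl hXl
  -- counting
  have hcount : ((Fintype.piFinset (fun i => Icc 1 (R i)) ×ˢ Fintype.piFinset (fun i => Icc 1 (Q i))).filter
    (fun x : (Fin k → ℕ) × (Fin k → ℕ) => AdmP (fun i => (x.1 i : ℤ)) x.2 ∧
      ¬ ∀ y : ℕ, Real.exp (L ^ (1 / m : ℝ)) ≤ y → (∀ i, Ln5 e (Q i) (R i) y) →
        |(cntP (fun i => (x.1 i : ℤ)) x.2 y : ℝ) - serp (fun i => (x.1 i : ℤ)) x.2 * exP (fun i => (x.1 i : ℤ)) x.2 y| ≤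
          serp (fun i => (x.1 i : ℤ)) x.2 * exP (fun i => (x.1 i : ℤ)) x.2 y / L ^ A)).card ≤ Bad.card := by
    refine card_le_card_of_injOn (fun x i => (x.2 i, x.1 i)) ?_ ?_
    · intro x hx
      rw [mem_coe, mem_filter, mem_product, Fintype.mem_piFinset, Fintype.mem_piFinset] at hx
      obtain ⟨⟨hx1, hx2⟩, hx3, hx4⟩ := hx
      by_contra hnot
      exact hx4 (key x (fun i => mem_Icc.1 (hx1 i)) (fun i => mem_Icc.1 (hx2 i)) hx3
        (fun h => hnot (mem_coe.2 h)))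
    · intro x _ x' _ h
      have h1 : ∀ i, (x.2 i, x.1 i) = (x'.2 i, x'.1 i) := fun i => congrFun h i
      refine Prod.ext ?_ ?_
      · funext i
        exact (Prod.mk.inj (h1 i)).2
      · funext i
        exact (Prod.mk.inj (h1 i)).1
  have hvq0 : 0 ≤ vq Q R := by unfold vq; positivity
  have h5 := (Nat.cast_le (α := ℝ)).2 hcount
  have h6 : vq Q R / L ^ A' ≤ vq Q R / L ^ A :=
    div_le_div_of_nonneg_left hvq0 (pow_pos hL0 _) (pow_le_pow_right₀ (by linarith) (by omega))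
  refine le_trans ?_ (h5.trans (hcard.trans h6))
  refine le_of_eq ?_
  congr 2

end Pool.Agent.helper24_UT.R11g
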