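import Pool.Agent.helper24_UT.Stm9
import Pool.Agent.helper24_UT.Low

set_option autoImplicit false

namespace Pool.Agent.helper24_UT.R3

open Finset Polynomial
open Pool.Agent.helper24_UT
open Pool.Agent.H376R2.MR (ch er DP FK)

lemma exists_pq (a b : ℕ) (c : ℤ) (ha : 1 ≤ a) (hb : 1 ≤ b) (hab : IsCoprime (a : ℤ) b)
    (hc : |c| ≤ (a : ℤ) * b) :
    ∃ p q : ℕ, b < p ∧ p ≤ 2 * b ∧ 1 ≤ q ∧ q ≤ 3 * a ∧ (a : ℤ) * p - b * q = c := by
  obtain ⟨u, v, huv⟩ := hab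
  have ha0 : (0 : ℤ) < a := by exact_mod_cast ha
  have hb0 : (0 : ℤ) < b := by exact_mod_cast hb
  have hr0 := Int.emod_nonneg (u * c - 1) hb0.ne'
  have hr1 := Int.emod_lt_of_pos (u * c - 1) hb0
  have hrd := Int.emod_def (u * c - 1) b
  set r := (u * c - 1) % b with hr
  obtain ⟨hc1, hc2⟩ := abs_le.1 hc
  have hd : (b : ℤ) ∣ (a : ℤ) * (b + 1 + r) - c :=
    ⟨a - a * ((u * c - 1) / b) - v * c, by rw [hrd]; linear_combination c * huv⟩
  obtain ⟨q, hq⟩ := hd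
  have hq1 : 0 < q := by
    by_contra hcon
    push Not at hcon
    nlinarith
  have hq3 : q ≤ 3 * a := by
    by_contra hcon
    push Not at hcon
    nlinarith
  have e1 : (((b + 1 + r).toNat : ℕ) : ℤ) = b + 1 + r := Int.toNat_of_nonneg (by linarith)
  have e2 : ((q.toNat : ℕ) : ℤ) = q := Int.toNat_of_nonneg hq1.le
  refine ⟨(b + 1 + r).toNat, q.toNat, ?_, ?_, ?_, ?_, ?_⟩
  · zify; rw [e1]; linarith
  · zify; rw [e1]; linarith
  · zify; rw [e2]; linarith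
  · zify; rw [e2]; linarith
  · rw [e1, e2]; linarith

lemma eval0 (a b p q : ℕ) (t : ℤ) :
    ((pl (fun _ : Fin 2 => (0 : ℤ[X])) ![(b, p), (a, q)]) 0).eval t = b * t + p := by
  simp [pl]

lemma eval1 (a b p q : ℕ) (t : ℤ) :
    ((pl (fun _ : Fin 2 => (0 : ℤ[X])) ![(b, p), (a, q)]) 1).eval t = a * t + q := by
  simp [pl]

lemma sol (a b p q : ℕ) (c m n : ℤ) (hb : 1 ≤ b) (hab : IsCoprime (a : ℤ) b) (hp : p ≤ 2 * b)
    (h : (a : ℤ) * p - b * q = c) (hm : 1 ≤ m) (hmn : (a : ℤ) * m - b * n = c) :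
    ∃ t : ℤ, -1 ≤ t ∧ m = p + b * t ∧ n = q + a * t := by
  have h1 : (b : ℤ) ∣ (a : ℤ) * (m - p) := ⟨n - q, by linear_combination hmn - h⟩
  obtain ⟨t, ht⟩ := hab.symm.dvd_of_dvd_mul_left h1
  have hb0 : (0 : ℤ) < b := by exact_mod_cast hb
  have hp' : (p : ℤ) ≤ 2 * b := by exact_mod_cast hp
  refine ⟨t, ?_, by linarith, ?_⟩
  · by_contra hlt
    push Not at hlt
    nlinarith
  · have h2 : (b : ℤ) * n = b * (q + a * t) := by
      have h3 : m = p + b * t := by linarith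
      subst h3
      linear_combination h - hmn
    exact mul_left_cancel₀ hb0.ne' h2

lemma cnt_bd (a b p q X : ℕ) (c : ℤ) (ha : 1 ≤ a) (hb : 1 ≤ b) (hab : IsCoprime (a : ℤ) b)
    (hp : p ≤ 2 * b) (h : (a : ℤ) * p - b * q = c) (hq : q ≤ X) :
    (pcount (pl (fun _ : Fin 2 => (0 : ℤ[X])) ![(b, p), (a, q)]) ((X - q) / a) : ℝ) ≤ cnt3 a b c X ∧
    (cnt3 a b c X : ℝ) ≤ pcount (pl (fun _ : Fin 2 => (0 : ℤ[X])) ![(b, p), (a, q)]) ((X - q) / a) + 2 := by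
  classical
  set y := (X - q) / a with hy
  have hay : ∀ t : ℕ, t ≤ y ↔ q + a * t ≤ X := by
    intro t
    rw [hy, Nat.le_div_iff_mul_le (by omega), mul_comm]
    omega
  set T : Finset ℕ := (Icc 1 y).filter (fun t : ℕ => (p + b * t).Prime ∧ (q + a * t).Prime) with hT
  have hpc : pcount (pl (fun _ : Fin 2 => (0 : ℤ[X])) ![(b, p), (a, q)]) y = T.card := by
    unfold pcount
    rw [hT]
    congr 1
    ext t
    simp only [mem_filter, Fin.forall_fin_two, eval0, eval1]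
    have e1 : ((b : ℤ) * t + p).natAbs = p + b * t := by
      have : (b : ℤ) * t + p = ((p + b * t : ℕ) : ℤ) := by push_cast; ring
      rw [this, Int.natAbs_natCast]
    have e2 : ((a : ℤ) * t + q).natAbs = q + a * t := by
      have : (a : ℤ) * t + q = ((q + a * t : ℕ) : ℤ) := by push_cast; ring
      rw [this, Int.natAbs_natCast]
    rw [e1, e2]
  rw [hpc]
  set φ : ℕ → ℕ × ℕ := fun t => (p + b * t, q + a * t) with hφ
  have hinj : Function.Injective φ := by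
    intro s t hst
    have h1 : p + b * s = p + b * t := (Prod.ext_iff.1 hst).1
    exact Nat.eq_of_mul_eq_mul_left (by omega) (Nat.add_left_cancel h1)
  set S : Set (ℕ × ℕ) := {x : ℕ × ℕ | x.1.Prime ∧ x.2.Prime ∧ (a : ℤ) * x.1 - b * x.2 = c ∧ x.2 ≤ X} with hS
  have hc3 : cnt3 a b c X = S.ncard := rfl
  rw [hc3]
  have h1 : ((T.image φ : Finset (ℕ × ℕ)) : Set (ℕ × ℕ)) ⊆ S := by
    intro x hx
    simp only [coe_image, Set.mem_image, mem_coe, hT, mem_filter, mem_Icc] at hx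
    obtain ⟨t, ⟨⟨ht1, ht2⟩, ht3, ht4⟩, rfl⟩ := hx
    refine ⟨ht3, ht4, ?_, (hay t).1 ht2⟩
    simp only [hφ]
    push_cast
    linear_combination h
  have h2 : S ⊆ ((T.image φ ∪ {(p, q), (p - b, q - a)} : Finset (ℕ × ℕ)) : Set (ℕ × ℕ)) := by
    rintro ⟨m, n⟩ ⟨hm, hn, hmn, hnX⟩
    simp only at hm hn hmn hnX
    obtain ⟨t, ht, ht1, ht2⟩ := sol a b p q c m n hb hab hp h (by exact_mod_cast hm.one_le) hmn
    simp only [coe_union, coe_image, coe_insert, coe_singleton, Set.mem_union, Set.mem_image,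
      mem_coe, Set.mem_insert_iff, Set.mem_singleton_iff]
    rcases lt_trichotomy t 0 with h0 | h0 | h0
    · have : t = -1 := by omega
      subst this
      right; right
      rw [Prod.mk.injEq]
      constructor <;> omega
    · subst h0
      right; left
      rw [Prod.mk.injEq]
      constructor <;> omega
    · left
      refine ⟨t.toNat, ?_, ?_⟩
      · rw [hT, mem_filter, mem_Icc]
        have e : ((t.toNat : ℕ) : ℤ) = t := Int.toNat_of_nonneg h0.le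
        have e1 : p + b * t.toNat = m := by zify; rw [e]; exact ht1.symm
        have e2 : q + a * t.toNat = n := by zify; rw [e]; exact ht2.symm
        refine ⟨⟨by omega, ?_⟩, ?_, ?_⟩
        · rw [hay, e2]; exact hnX
        · rw [e1]; exact hm
        · rw [e2]; exact hn
      · have e : ((t.toNat : ℕ) : ℤ) = t := Int.toNat_of_nonneg h0.le
        simp only [hφ, Prod.mk.injEq]
        constructor
        · zify; rw [e]; exact ht1.symm
        · zify; rw [e]; exact ht2.symm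
  have hcard : (T.image φ).card = T.card := card_image_of_injective _ hinj
  constructor
  · have h5 := Set.ncard_le_ncard h1 (Set.Finite.subset (Finset.finite_toSet _) h2)
    rw [Set.ncard_coe_finset, hcard] at h5
    exact_mod_cast h5
  · have h5 := Set.ncard_le_ncard h2 (Finset.finite_toSet _)
    rw [Set.ncard_coe_finset] at h5
    have h3 := card_union_le (T.image φ) {(p, q), (p - b, q - a)}
    have h4 : ({(p, q), (p - b, q - a)} : Finset (ℕ × ℕ)).card ≤ 2 := card_le_two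
    have h6 : S.ncard ≤ T.card + 2 := by omega
    exact_mod_cast h6

lemma ex_bd (a b p q X : ℕ) (c : ℤ) (ha : 1 ≤ a) (hb : 1 ≤ b) (hab : IsCoprime (a : ℤ) b)
    (hp0 : b < p) (hp : p ≤ 2 * b) (hq1 : 1 ≤ q) (h : (a : ℤ) * p - b * q = c) (hq : q ≤ X) :
    lsum (pl (fun _ : Fin 2 => (0 : ℤ[X])) ![(b, p), (a, q)]) ((X - q) / a) ≤ ex3 a b c X ∧
    ex3 a b c X ≤ lsum (pl (fun _ : Fin 2 => (0 : ℤ[X])) ![(b, p), (a, q)]) ((X - q) / a) + 5 := by
  classical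
  set y := (X - q) / a with hy
  have hay : ∀ t : ℕ, t ≤ y ↔ q + a * t ≤ X := by
    intro t
    rw [hy, Nat.le_div_iff_mul_le (by omega), mul_comm]
    omega
  have ha0 : (0 : ℝ) < a := by exact_mod_cast ha
  have haz : (0 : ℤ) < a := by exact_mod_cast ha
  set g : ℕ → ℝ := fun n => 1 / (Real.log (((c : ℝ) + b * n) / a) * Real.log n) with hg
  set F : Finset ℕ := (Icc 2 X).filter (fun n : ℕ => (a : ℤ) ∣ c + b * n ∧ 2 * (a : ℤ) ≤ c + b * n) with hF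
  have hex : ex3 a b c X = ∑ n ∈ F, g n := by
    unfold ex3
    rw [hF, hg]
  set ψ : ℕ → ℕ := fun t => q + a * t with hψ
  have hinj : Function.Injective ψ := by
    intro s t hst
    have h1 : q + a * s = q + a * t := hst
    exact Nat.eq_of_mul_eq_mul_left (by omega) (Nat.add_left_cancel h1)
  have hls : lsum (pl (fun _ : Fin 2 => (0 : ℤ[X])) ![(b, p), (a, q)]) y = ∑ n ∈ (Icc 1 y).image ψ, g n := by
    unfold lsum
    rw [sum_image (fun x _ y _ hxy => hinj hxy)]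
    refine sum_congr rfl fun t ht => ?_
    rw [Fin.prod_univ_two, eval0, eval1, hg, hψ]
    simp only
    have e1 : ((c : ℝ) + b * ((q + a * t : ℕ) : ℝ)) / a = ((b * t + p : ℤ) : ℝ) := by
      rw [div_eq_iff ha0.ne']
      have h' : (a : ℝ) * p - b * q = c := by exact_mod_cast h
      push_cast
      linear_combination -h'
    rw [e1]
    have e2 : ((q + a * t : ℕ) : ℝ) = ((a * t + q : ℤ) : ℝ) := by push_cast; ring
    rw [e2, one_div_mul_one_div]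
  have hsub : (Icc 1 y).image ψ ⊆ F := by
    intro n hn
    rw [mem_image] at hn
    obtain ⟨t, ht, rfl⟩ := hn
    rw [mem_Icc] at ht
    rw [hF, mem_filter, mem_Icc]
    have h1 : q + a * t ≤ X := (hay t).1 ht.2
    have h2 : a * 1 ≤ a * t := Nat.mul_le_mul_left a ht.1
    have e : c + (b : ℤ) * ((ψ t : ℕ) : ℤ) = a * (p + b * t) := by
      simp only [hψ]; push_cast; linear_combination -h
    refine ⟨⟨by simp only [hψ]; omega, h1⟩, ?_, ?_⟩
    · rw [e]; exact dvd_mul_right _ _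
    · rw [e]
      have h3 : (2 : ℤ) ≤ p + b * t := by
        have : 2 ≤ p + b * t := by
          have : b * 1 ≤ b * t := Nat.mul_le_mul_left b ht.1
          omega
        exact_mod_cast this
      nlinarith
  have hrest : F \ (Icc 1 y).image ψ ⊆ {q, q - a} := by
    intro n hn
    rw [mem_sdiff, hF, mem_filter, mem_Icc] at hn
    obtain ⟨⟨⟨hn1, hn2⟩, ⟨m, hm⟩, hn4⟩, hn5⟩ := hn
    rw [hm] at hn4
    have hm2 : 2 ≤ m := by
      by_contra hcon
      push Not at hcon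
      nlinarith
    obtain ⟨t, ht, ht1, ht2⟩ := sol a b p q c m n hb hab hp h (by linarith) (by linarith)
    rw [mem_insert, mem_singleton]
    rcases lt_trichotomy t 0 with h0 | h0 | h0
    · have : t = -1 := by omega
      subst this
      right; omega
    · subst h0
      left; omega
    · exfalso
      apply hn5
      rw [mem_image]
      have e : ((t.toNat : ℕ) : ℤ) = t := Int.toNat_of_nonneg h0.le
      have e2 : q + a * t.toNat = n := by zify; rw [e]; exact ht2.symm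
      refine ⟨t.toNat, ?_, e2⟩
      rw [mem_Icc]
      refine ⟨by omega, ?_⟩
      rw [hay, e2]; exact hn2
  have hg0 : ∀ n ∈ F, 0 ≤ g n ∧ g n ≤ 5 / 2 := by
    intro n hn
    rw [hF, mem_filter, mem_Icc] at hn
    obtain ⟨⟨hn1, hn2⟩, -, hn4⟩ := hn
    have hn2' : (2 : ℝ) ≤ n := by exact_mod_cast hn1
    have hn4' : 2 * (a : ℝ) ≤ (c : ℝ) + b * n := by exact_mod_cast hn4
    have h5 : (2 : ℝ) ≤ ((c : ℝ) + b * n) / a := by rw [le_div_iff₀ ha0]; exact hn4'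
    have l2 := Real.log_two_gt_d9
    have h6 : Real.log 2 ≤ Real.log (((c : ℝ) + b * n) / a) := Real.log_le_log (by norm_num) h5
    have h7 : Real.log 2 ≤ Real.log n := Real.log_le_log (by norm_num) hn2'
    have h8 : (0.69 : ℝ) * 0.69 ≤ Real.log (((c : ℝ) + b * n) / a) * Real.log n :=
      mul_le_mul (by linarith) (by linarith) (by norm_num) (by linarith)
    refine ⟨by rw [hg]; simp only; apply div_nonneg (by norm_num); linarith, ?_⟩
    rw [hg]; simp only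
    rw [div_le_iff₀ (by linarith)]
    linarith
  rw [hex, hls, ← sum_sdiff hsub]
  constructor
  · have : 0 ≤ ∑ n ∈ F \ (Icc 1 y).image ψ, g n :=
      sum_nonneg fun n hn => (hg0 n (mem_sdiff.1 hn).1).1
    linarith
  · have h1 : ∑ n ∈ F \ (Icc 1 y).image ψ, g n ≤ (F \ (Icc 1 y).image ψ).card • (5 / 2 : ℝ) :=
      sum_le_card_nsmul _ _ _ fun n hn => (hg0 n (mem_sdiff.1 hn).1).2
    have h2 : (F \ (Icc 1 y).image ψ).card ≤ 2 := (card_le_card hrest).trans card_le_two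
    have h3 : ((F \ (Icc 1 y).image ψ).card : ℝ) ≤ 2 := by exact_mod_cast h2
    rw [nsmul_eq_mul] at h1
    linarith

lemma lsum_low (a b p q y : ℕ) (D : ℝ) (ha : 1 ≤ a) (hb : 1 ≤ b) (hp0 : b < p) (hq1 : 1 ≤ q)
    (hD : 0 < D) (h1 : Real.log (p + b * y) ≤ D) (h2 : Real.log (q + a * y) ≤ D) :
    y / D ^ 2 ≤ lsum (pl (fun _ : Fin 2 => (0 : ℤ[X])) ![(b, p), (a, q)]) y := by
  unfold lsum
  have h3 : (y : ℝ) / D ^ 2 = ∑ n ∈ Icc 1 y, 1 / D ^ 2 := by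
    rw [sum_const, Nat.card_Icc, nsmul_eq_mul, Nat.add_sub_cancel, mul_one_div]
  rw [h3]
  refine sum_le_sum fun t ht => ?_
  rw [mem_Icc] at ht
  rw [Fin.prod_univ_two, eval0, eval1, one_div_mul_one_div]
  have hty : (t : ℝ) ≤ y := by exact_mod_cast ht.2
  have ht1 : (1 : ℝ) ≤ t := by exact_mod_cast ht.1
  have hb1 : (1 : ℝ) ≤ b := by exact_mod_cast hb
  have ha1 : (1 : ℝ) ≤ a := by exact_mod_cast ha
  have hp1 : (1 : ℝ) ≤ p := by exact_mod_cast (by omega : 1 ≤ p)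
  have hq1' : (1 : ℝ) ≤ q := by exact_mod_cast hq1
  have hbt : (b : ℝ) * t ≤ b * y := by gcongr
  have hat : (a : ℝ) * t ≤ a * y := by gcongr
  have hbt1 : (1 : ℝ) ≤ b * t := by nlinarith
  have hat1 : (1 : ℝ) ≤ a * t := by nlinarith
  have e1 : (((b : ℤ) * (t : ℤ) + (p : ℤ) : ℤ) : ℝ) = p + b * t := by push_cast; ring
  have e2 : (((a : ℤ) * (t : ℤ) + (q : ℤ) : ℤ) : ℝ) = q + a * t := by push_cast; ring
  rw [e1, e2]
  have g1 : 0 < Real.log (p + b * t) := Real.log_pos (by linarith)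
  have g2 : 0 < Real.log (q + a * t) := Real.log_pos (by linarith)
  have g3 : Real.log (p + b * t) ≤ D := (Real.log_le_log (by linarith) (by linarith)).trans h1
  have g4 : Real.log (q + a * t) ≤ D := (Real.log_le_log (by linarith) (by linarith)).trans h2
  apply one_div_le_one_div_of_le (mul_pos g1 g2)
  rw [pow_two]
  exact mul_le_mul g3 g4 g2.le hD.le


lemma fin_num (LA P Cn Ls Ex S s δ ε : ℝ) (hLA : 1 ≤ LA) (h1 : P ≤ Cn) (h2 : Cn ≤ P + 2) (h3 : Ls ≤ Ex)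
    (h4 : Ex ≤ Ls + 5) (hs : 0 < s) (hS : 0 ≤ S) (hε : ε * (16 * LA) ≤ 1) (h5 : |P - S * Ls| ≤ S * Ls * ε)
    (h6 : |S - s| ≤ s * δ) (hδ : δ * (8 * LA) ≤ 1) (hLs : 40 * LA ≤ Ls) (hsLs : 16 * LA ≤ s * Ls) :
    |Cn - s * Ex| ≤ s * Ex / LA := by
  have hLs0 : 0 < Ls := by linarith
  have hδ1 : δ ≤ 1 := by nlinarith
  obtain ⟨a1, a2⟩ := abs_le.1 h5
  obtain ⟨b1, b2⟩ := abs_le.1 h6
  have hS2 : S ≤ 2 * s := by nlinarith
  have hSL : S * Ls ≤ 2 * s * Ls := mul_le_mul_of_nonneg_right hS2 hLs0.le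
  have hsl0 : 0 < s * Ls := mul_pos hs hLs0
  -- 8 LA * |P - S Ls| ≤ s Ls
  have c1 : 8 * LA * |P - S * Ls| ≤ s * Ls := by
    have t1 : 8 * LA * |P - S * Ls| ≤ 8 * LA * (S * Ls * ε) := mul_le_mul_of_nonneg_left h5 (by linarith)
    have t2 : 8 * LA * (S * Ls * ε) = S * Ls * (ε * (16 * LA)) / 2 := by ring
    have t3 : S * Ls * (ε * (16 * LA)) ≤ S * Ls * 1 := mul_le_mul_of_nonneg_left hε (by positivity)
    linarith
  have c2 : 8 * LA * |(S - s) * Ls| ≤ s * Ls := by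
    rw [abs_mul, abs_of_pos hLs0]
    have t1 : 8 * LA * (|S - s| * Ls) ≤ 8 * LA * (s * δ * Ls) :=
      mul_le_mul_of_nonneg_left (mul_le_mul_of_nonneg_right h6 hLs0.le) (by linarith)
    have t2 : 8 * LA * (s * δ * Ls) = s * Ls * (δ * (8 * LA)) := by ring
    have t3 : s * Ls * (δ * (8 * LA)) ≤ s * Ls * 1 := mul_le_mul_of_nonneg_left hδ hsl0.le
    linarith
  have c3 : 8 * LA * |Cn - P| ≤ s * Ls := by
    rw [abs_of_nonneg (by linarith)]
    nlinarith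
  have c4 : 8 * LA * |s * (Ls - Ex)| ≤ s * Ls := by
    rw [abs_mul, abs_of_pos hs, abs_of_nonpos (by linarith)]
    have t1 : -(Ls - Ex) ≤ 5 := by linarith
    have t2 : 8 * LA * (s * -(Ls - Ex)) ≤ 8 * LA * (s * 5) :=
      mul_le_mul_of_nonneg_left (mul_le_mul_of_nonneg_left t1 hs.le) (by linarith)
    nlinarith
  have e : Cn - s * Ex = (Cn - P) + (P - S * Ls) + (S - s) * Ls + s * (Ls - Ex) := by ring
  have e2 : |Cn - s * Ex| ≤ |Cn - P| + |P - S * Ls| + |(S - s) * Ls| + |s * (Ls - Ex)| := by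
    rw [e]
    exact (abs_add_le _ _).trans (by linarith [abs_add_le (Cn - P + (P - S * Ls)) ((S - s) * Ls), abs_add_le (Cn - P) (P - S * Ls)])
  rw [le_div_iff₀ (by linarith)]
  have e3 : s * Ls ≤ s * Ex := mul_le_mul_of_nonneg_left h3 hs.le
  have e4 : |Cn - s * Ex| * LA ≤ (|Cn - P| + |P - S * Ls| + |(S - s) * Ls| + |s * (Ls - Ex)|) * LA :=
    mul_le_mul_of_nonneg_right e2 (by linarith)
  nlinarith

lemma aux1 (N y D k : ℝ) (hN : 0 ≤ N) (hk : 1 ≤ k) (h : y * D ≤ N) : k * N * y * D ≤ (k * N) ^ 2 := by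
  have h1 : k * N * (y * D) ≤ k * N * N := mul_le_mul_of_nonneg_left h (by positivity)
  have h2 : k * N * N ≤ (k * N) * (k * N) := mul_le_mul_of_nonneg_left (by nlinarith) (by positivity)
  nlinarith

lemma aux2 (L x : ℝ) (hL : 2001 ≤ L) (hx : 1 ≤ x) : 64 * x * (3 * L) ^ 2 ≤ x * L ^ 4 - 4 * (3 * L) ^ 2 := by
  have h1 : (4000000 : ℝ) ≤ L ^ 2 := by nlinarith
  have h2 : 64 * x * (3 * L) ^ 2 + 4 * (3 * L) ^ 2 ≤ x * (612 * L ^ 2) := by nlinarith [sq_nonneg L]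
  have h3 : 612 * L ^ 2 ≤ L ^ 4 := by nlinarith [sq_nonneg L]
  have h4 : x * (612 * L ^ 2) ≤ x * L ^ 4 := mul_le_mul_of_nonneg_left h3 (by linarith)
  linarith

lemma aux3 (s L' L : ℝ) (hs : 0 < s) (hL' : 0 < L') (hLL : L' ≤ 2 * L)
    (h1 : 1 / L' ≤ 2 * s) : 1 ≤ s * (4 * L) := by
  rw [div_le_iff₀ hL'] at h1
  have : s * L' ≤ s * (2 * L) := mul_le_mul_of_nonneg_left hLL hs.le
  linarith

lemma aux4 (H : ℝ) (y b p : ℝ) (hb : b ≤ H) (hy : y ≤ H) (hp : p ≤ 3 * b) (hb0 : 1 ≤ b) (hy0 : 0 ≤ y)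
    (hH : 3 ≤ H) : p + b * y ≤ H ^ 3 := by
  have t1 : b * (y + 3) ≤ H * (H + 3) := mul_le_mul hb (by linarith) (by linarith) (by linarith)
  have t2 : H + 3 ≤ H ^ 2 := by nlinarith
  have t3 : H * (H + 3) ≤ H * H ^ 2 := mul_le_mul_of_nonneg_left t2 (by linarith)
  have t4 : H * H ^ 2 = H ^ 3 := by ring
  linarith

lemma aux5 (L L' : ℝ) (A E : ℕ) (hL0 : 0 ≤ L) (hLL : L ≤ L') (hL : 2001 ≤ L') (hE : A + 12 ≤ E) :
    L' ^ 2 * (8 * L ^ A) ≤ (⌊L' ^ E⌋₊ : ℝ) := by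
  have hLAL : L ^ A ≤ L' ^ A := pow_le_pow_left₀ hL0 hLL _
  have hL'A : 1 ≤ L' ^ A := one_le_pow₀ (by linarith)
  have t1 : L' ^ (A + 12) ≤ L' ^ E := pow_le_pow_right₀ (by linarith) hE
  have t2 : L' ^ E < (⌊L' ^ E⌋₊ : ℝ) + 1 := Nat.lt_floor_add_one _
  have t3 : L' ^ (A + 12) = L' ^ A * L' ^ 2 * L' ^ 10 := by ring
  have t4 : 1 ≤ L' ^ 2 := one_le_pow₀ (by linarith)
  have t5 : L' ≤ L' ^ 10 := le_self_pow₀ (by linarith) (by norm_num)
  have t6 : 1 ≤ L' ^ A * L' ^ 2 := one_le_mul_of_one_le_of_one_le hL'A t4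
  have t7 : L' ^ 2 * (8 * L ^ A) ≤ L' ^ 2 * (8 * L' ^ A) :=
    mul_le_mul_of_nonneg_left (by linarith) (by linarith)
  have t8 : L' ^ A * L' ^ 2 * 9 ≤ L' ^ A * L' ^ 2 * L' ^ 10 := mul_le_mul_of_nonneg_left (by linarith) (by linarith)
  linarith

lemma aux6 (L L' : ℝ) (A : ℕ) (hL0 : 0 ≤ L) (hLL : L ≤ L') (hL : 2001 ≤ L') :
    1 / L' ^ (A + 6) * (16 * L ^ A) ≤ 1 := by
  have hLAL : L ^ A ≤ L' ^ A := pow_le_pow_left₀ hL0 hLL _
  have hL'A : 1 ≤ L' ^ A := one_le_pow₀ (by linarith)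
  rw [div_mul_eq_mul_div, one_mul, div_le_one (by positivity)]
  have t1 : L' ^ (A + 6) = L' ^ A * L' ^ 6 := by ring
  have t2 : L' ≤ L' ^ 6 := le_self_pow₀ (by linarith) (by norm_num)
  have t3 : L' ^ A * 16 ≤ L' ^ A * L' ^ 6 := mul_le_mul_of_nonneg_left (by linarith) (by linarith)
  rw [t1]
  linarith

lemma key (A B₁ E H M N a b p q : ℕ) (c : ℤ) (hH : 3 ≤ H) (hL : (2 : ℝ) ^ B₁ + 2000 ≤ Real.log H)
    (hE : A + 12 ≤ E) (ha : 1 ≤ a) (haM : a ≤ M) (hM : M ≤ H) (hb : 1 ≤ b) (hbN : b ≤ N) (hN : N ≤ H)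
    (hab : IsCoprime (a : ℤ) b) (hp0 : b < p) (hp : p ≤ 2 * b) (hq1 : 1 ≤ q) (hq3 : q ≤ 3 * a)
    (h : (a : ℤ) * p - b * q = c)
    (hgood : GoodS (A + 6) B₁ E (3 * H) ![2 * N, 3 * M] ![2 * N, 3 * M] (fun _ => 0)
      (pl (fun _ : Fin 2 => (0 : ℤ[X])) ![(b, p), (a, q)]))
    (hs : 0 < ser3 a b c)
    (hsg : |sg ⌊Real.log ((3 * H : ℕ) : ℝ) ^ E⌋₊ (pl (fun _ : Fin 2 => (0 : ℤ[X])) ![(b, p), (a, q)]) - ser3 a b c| ≤
      ser3 a b c * ((Real.log ((3 * H : ℕ) : ℝ)) ^ 2 / (⌊Real.log ((3 * H : ℕ) : ℝ) ^ E⌋₊ : ℝ)))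
    (hlow : 1 / Real.log ((3 * H : ℕ) : ℝ) ≤
      sg ⌊Real.log ((3 * H : ℕ) : ℝ) ^ E⌋₊ (pl (fun _ : Fin 2 => (0 : ℤ[X])) ![(b, p), (a, q)])) :
    Good3 A (B₁ + A + 5) H M N a b c := by
  intro X hX1 hX2 hX3
  have hH0 : (3 : ℝ) ≤ H := by exact_mod_cast hH
  have hlog3 : Real.log ((3 * H : ℕ) : ℝ) = Real.log 3 + Real.log H := by
    push_cast
    rw [Real.log_mul (by norm_num) (by linarith)]
  have hl3 : 0 < Real.log 3 := Real.log_pos (by norm_num)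
  have hl3' : Real.log 3 ≤ Real.log H := Real.log_le_log (by norm_num) hH0
  set f := pl (fun _ : Fin 2 => (0 : ℤ[X])) ![(b, p), (a, q)] with hf
  set L := Real.log H with hLdef
  set L' := Real.log ((3 * H : ℕ) : ℝ) with hL'def
  have hLL : L ≤ L' := by linarith
  have hLL2 : L' ≤ 2 * L := by linarith
  have h2B : (1 : ℝ) ≤ 2 ^ B₁ := one_le_pow₀ (by norm_num)
  have hL1 : 2001 ≤ L := by linarith
  have hLB1 : 1 ≤ L ^ B₁ := one_le_pow₀ (by linarith)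
  have hLA1 : 1 ≤ L ^ A := one_le_pow₀ (by linarith)
  have hLA5 : L ^ (A + 5) = L ^ A * L ^ 4 * L := by ring
  have hL4 : 1 ≤ L ^ 4 := one_le_pow₀ (by linarith)
  have hLA5' : L ≤ L ^ (A + 5) := by
    rw [hLA5]
    have : 1 ≤ L ^ A * L ^ 4 := one_le_mul_of_one_le_of_one_le hLA1 hL4
    nlinarith
  have hLB : L ^ (B₁ + A + 5) = L ^ B₁ * L ^ (A + 5) := by
    rw [← pow_add]; rfl
  set LB := L ^ (B₁ + A + 5) with hLBdef
  have hLBa : L ^ (A + 5) ≤ LB := by rw [hLB]; nlinarith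
  have hLBb : L'^ B₁ + 2000 ≤ LB := by
    have t1 : L' ^ B₁ ≤ (2 * L) ^ B₁ := pow_le_pow_left₀ (by linarith) hLL2 _
    rw [mul_pow] at t1
    have t2 : L ^ B₁ * L ≤ L ^ B₁ * L ^ (A + 5) := mul_le_mul_of_nonneg_left hLA5' (by linarith)
    have t3 : L ^ B₁ * (2 ^ B₁ + 2000) ≤ L ^ B₁ * L := mul_le_mul_of_nonneg_left hL (by linarith)
    nlinarith
  have hL'B : 1 ≤ L' ^ B₁ := one_le_pow₀ (by linarith)
  have ha0 : (1 : ℝ) ≤ a := by exact_mod_cast ha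
  have hqX : q ≤ X := by
    have t1 : (q : ℝ) ≤ 3 * a := by exact_mod_cast hq3
    have t2 : (q : ℝ) ≤ X := by nlinarith
    exact_mod_cast t2
  obtain ⟨hc1, hc2⟩ := cnt_bd a b p q X c ha hb hab hp h hqX
  obtain ⟨he1, he2⟩ := ex_bd a b p q X c ha hb hab hp0 hp hq1 h hqX
  rw [← hf] at hc1 hc2 he1 he2
  set y := (X - q) / a with hy
  have hy1 : a * y + q ≤ X := by
    have := Nat.mul_div_le (X - q) a
    rw [← hy] at this
    omega
  have hy2 : X < a * (y + 4) := by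
    have t := Nat.lt_mul_div_succ (X - q) (show 0 < a by omega)
    rw [← hy] at t
    have e : a * (y + 4) = a * (y + 1) + 3 * a := by ring
    omega
  have hy1' : (a : ℝ) * y ≤ X := by exact_mod_cast (by omega : a * y ≤ X)
  have hy2' : (X : ℝ) < a * (y + 4) := by exact_mod_cast hy2
  have hyL : LB < y + 4 := by
    by_contra hcon
    push Not at hcon
    nlinarith
  have hLB0 : 0 < LB := by linarith
  have hyM : (y : ℝ) * LB ≤ M := by
    have t1 : (a : ℝ) * y * LB ≤ X * LB := mul_le_mul_of_nonneg_right hy1' hLB0.le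
    have t2 : (a : ℝ) * (y * LB) ≤ a * M := by linarith
    exact le_of_mul_le_mul_left t2 (by linarith)
  have hyN : (y : ℝ) * LB ≤ N := by
    have t1 : (a : ℝ) * y * LB ≤ X * LB := mul_le_mul_of_nonneg_right hy1' hLB0.le
    have t2 : (a : ℝ) * (y * LB) ≤ a * N := by linarith
    exact le_of_mul_le_mul_left t2 (by linarith)
  have hy0 : (0 : ℝ) ≤ y := Nat.cast_nonneg y
  have hM0 : (0 : ℝ) ≤ M := Nat.cast_nonneg M
  have hN0 : (0 : ℝ) ≤ N := Nat.cast_nonneg N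
  have hyM' : (y : ℝ) * L' ^ B₁ ≤ M :=
    (mul_le_mul_of_nonneg_left (by linarith) hy0).trans hyM
  have hyN' : (y : ℝ) * L' ^ B₁ ≤ N :=
    (mul_le_mul_of_nonneg_left (by linarith) hy0).trans hyN
  have hsl : ∀ Q : ℕ, slope (0 : ℤ[X]) y * L' ^ B₁ ≤ Q := by
    intro Q
    simp [slope]
  obtain ⟨-, hg⟩ := hgood y (by linarith) (by
    rw [Fin.forall_fin_two]
    refine ⟨⟨?_, hsl _⟩, ⟨?_, hsl _⟩⟩
    · change ((2 * N : ℕ) : ℝ) * y * L' ^ B₁ ≤ ((2 * N : ℕ) : ℝ) ^ 2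
      rw [Nat.cast_mul]
      exact aux1 _ _ _ _ hN0 (by norm_num) hyN'
    · change ((3 * M : ℕ) : ℝ) * y * L' ^ B₁ ≤ ((3 * M : ℕ) : ℝ) ^ 2
      rw [Nat.cast_mul]
      exact aux1 _ _ _ _ hM0 (by norm_num) hyM')
  have hyH : (y : ℝ) ≤ H := by
    have t1 : (N : ℝ) ≤ H := by exact_mod_cast hN
    nlinarith
  have hb' : (b : ℝ) ≤ H := by exact_mod_cast (hbN.trans hN)
  have ha' : (a : ℝ) ≤ H := by exact_mod_cast (haM.trans hM)
  have hb0 : (1 : ℝ) ≤ b := by exact_mod_cast hb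
  have hp' : (p : ℝ) ≤ 2 * b := by exact_mod_cast hp
  have hq' : (q : ℝ) ≤ 3 * a := by exact_mod_cast hq3
  have hH3 : Real.log ((H : ℝ) ^ 3) = 3 * L := by rw [Real.log_pow]; push_cast; rfl
  have hp1 : (1 : ℝ) ≤ p := by exact_mod_cast (by omega : 1 ≤ p)
  have hq1' : (1 : ℝ) ≤ q := by exact_mod_cast hq1
  have hD1 : Real.log (p + b * y) ≤ 3 * L := by
    rw [← hH3]
    have hby : 0 ≤ (b : ℝ) * y := by positivity
    exact Real.log_le_log (by linarith) (aux4 H y b p hb' hyH (by linarith) hb0 hy0 hH0)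
  have hD2 : Real.log (q + a * y) ≤ 3 * L := by
    rw [← hH3]
    have hby : 0 ≤ (a : ℝ) * y := by positivity
    exact Real.log_le_log (by linarith) (aux4 H y a q ha' hyH (by linarith) ha0 hy0 hH0)
  have hls := lsum_low a b p q y (3 * L) ha hb hp0 hq1 (by linarith) hD1 hD2
  rw [← hf] at hls
  -- lower bound for lsum
  have hLs : 64 * L ^ (A + 1) ≤ lsum f y := by
    refine le_trans ?_ hls
    rw [le_div_iff₀ (by positivity)]
    have t1 : L ^ (A + 5) = L ^ (A + 1) * L ^ 4 := by ring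
    have t3 : 1 ≤ L ^ (A + 1) := one_le_pow₀ (by linarith)
    have t4 := aux2 L (L ^ (A + 1)) hL1 t3
    have t5 : 0 ≤ (3 * L) ^ 2 := sq_nonneg _
    have t6 : 1 ≤ (3 * L) ^ 2 := one_le_pow₀ (by linarith)
    linarith
  have hLA : L ^ (A + 1) = L ^ A * L := by ring
  -- numeric facts
  have hL'1 : 2001 ≤ L' := by linarith
  have hLAL : L ^ A ≤ L' ^ A := pow_le_pow_left₀ (by linarith) hLL _
  have hL'A : 1 ≤ L' ^ A := one_le_pow₀ (by linarith)
  have hS0 : 0 ≤ sg ⌊L' ^ E⌋₊ f := le_trans (by positivity) hlow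
  have hz : L' ^ 2 * (8 * L ^ A) ≤ (⌊L' ^ E⌋₊ : ℝ) := aux5 L L' A E (by linarith) hLL hL'1 hE
  have hz0 : 0 < (⌊L' ^ E⌋₊ : ℝ) := lt_of_lt_of_le (by positivity) hz
  have hδ : L' ^ 2 / (⌊L' ^ E⌋₊ : ℝ) * (8 * L ^ A) ≤ 1 := by
    rw [div_mul_eq_mul_div, div_le_one hz0]
    exact hz
  have hε : 1 / L' ^ (A + 6) * (16 * L ^ A) ≤ 1 := aux6 L L' A (by linarith) hLL hL'1
  have hδ1 : L' ^ 2 / (⌊L' ^ E⌋₊ : ℝ) ≤ 1 := by
    have t0 : 0 ≤ L' ^ 2 / (⌊L' ^ E⌋₊ : ℝ) := by positivity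
    have t1 : L' ^ 2 / (⌊L' ^ E⌋₊ : ℝ) * 1 ≤ L' ^ 2 / (⌊L' ^ E⌋₊ : ℝ) * (8 * L ^ A) :=
      mul_le_mul_of_nonneg_left (by linarith) t0
    linarith
  have hs2 : 1 ≤ ser3 a b c * (4 * L) := by
    have t1 := (abs_le.1 hsg).2
    have t2 : ser3 a b c * (L' ^ 2 / (⌊L' ^ E⌋₊ : ℝ)) ≤ ser3 a b c * 1 := mul_le_mul_of_nonneg_left hδ1 hs.le
    have t3 : 1 / L' ≤ 2 * ser3 a b c := by linarith
    exact aux3 _ L' L hs (by linarith) hLL2 t3
  refine fin_num (L ^ A) (pcount f y) (cnt3 a b c X) (lsum f y) (ex3 a b c X) (sg ⌊L' ^ E⌋₊ f) (ser3 a b c)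
    (L' ^ 2 / (⌊L' ^ E⌋₊ : ℝ)) (1 / L' ^ (A + 6)) hLA1 hc1 hc2 he1 he2 hs hS0 hε ?_ hsg hδ ?_ ?_
  · rw [mul_one_div]; exact hg
  · rw [hLA] at hLs
    have t1 : L ^ A * 1 ≤ L ^ A * L := mul_le_mul_of_nonneg_left (by linarith) (by linarith)
    linarith
  · rw [hLA] at hLs
    have t1 : ser3 a b c * (64 * (L ^ A * L)) ≤ ser3 a b c * lsum f y := mul_le_mul_of_nonneg_left hLs hs.le
    have t2 : ser3 a b c * (64 * (L ^ A * L)) = 16 * L ^ A * (ser3 a b c * (4 * L)) := by ring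
    have t3 : 16 * L ^ A * 1 ≤ 16 * L ^ A * (ser3 a b c * (4 * L)) := mul_le_mul_of_nonneg_left hs2 (by linarith)
    linarith

theorem main : S_R1 → S_SER3 → S_R3 := by
  intro hR1 hSER e A he
  obtain ⟨E₀, B₁, hR⟩ := hR1 2 0 (e + 1) (A + 6) (by norm_num) (by omega)
  set E := max E₀ (A + 12) with hE
  obtain ⟨H₁, hR⟩ := hR E (le_max_left _ _)
  obtain ⟨H₂, hSER⟩ := hSER
  obtain ⟨H₃, hLow⟩ := Low.main 2 1 E
  have hlim : Filter.Tendsto (fun H : ℕ => Real.log (H : ℝ)) Filter.atTop Filter.atTop :=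
    Real.tendsto_log_atTop.comp (tendsto_natCast_atTop_atTop (R := ℝ))
  obtain ⟨H₄, h4⟩ := Filter.eventually_atTop.1 (hlim.eventually_ge_atTop ((2 : ℝ) ^ B₁ + 2000))
  have he0 : (0 : ℝ) < 1 / (e : ℝ) := by
    have : (0 : ℝ) < e := by exact_mod_cast he
    positivity
  have hlim2 : Filter.Tendsto (fun H : ℕ => (H : ℝ) ^ (1 / e : ℝ)) Filter.atTop Filter.atTop :=
    (tendsto_rpow_atTop he0).comp (tendsto_natCast_atTop_atTop (R := ℝ))
  obtain ⟨H₅, h5⟩ := Filter.eventually_atTop.1 (hlim2.eventually_ge_atTop 3)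
  refine ⟨B₁ + A + 5, H₁ + H₂ + H₃ + H₄ + H₅ + 3, fun H hH M N hM1 hM2 hN1 hN2 => ?_⟩
  have hL := h4 H (by omega)
  have h3e := h5 H (by omega)
  have hH3 : (3 : ℝ) ≤ H := by exact_mod_cast (by omega : 3 ≤ H)
  have hroot : ((3 * H : ℕ) : ℝ) ^ (1 / ((e + 1 : ℕ) : ℝ) : ℝ) ≤ (H : ℝ) ^ (1 / e : ℝ) := by
    have e0 : (0 : ℝ) < e := by exact_mod_cast he
    have t1 : ((3 * H : ℕ) : ℝ) ≤ (H : ℝ) ^ (1 / e + 1 : ℝ) := by
      rw [Real.rpow_add_one (by linarith)]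
      push_cast
      nlinarith
    refine (Real.rpow_le_rpow (by positivity) t1 (by positivity)).trans ?_
    rw [← Real.rpow_mul (by linarith)]
    apply le_of_eq
    congr 1
    push_cast
    field_simp
    ring
  have hRg : ∀ i : Fin 2, Rg (e + 1) (3 * H) ((![2 * N, 3 * M] : Fin 2 → ℕ) i) ((![2 * N, 3 * M] : Fin 2 → ℕ) i) := by
    rw [Fin.forall_fin_two]
    refine ⟨⟨?_, le_rfl, ?_⟩, ⟨?_, le_rfl, ?_⟩⟩
    · refine (hroot.trans hN1).trans ?_
      simp only [Matrix.cons_val_zero]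
      exact_mod_cast (by omega : N ≤ 2 * N)
    · simp only [Matrix.cons_val_zero]; omega
    · refine (hroot.trans hM1).trans ?_
      simp only [Matrix.cons_val_one, Matrix.cons_val_fin_one]
      exact_mod_cast (by omega : M ≤ 3 * M)
    · simp only [Matrix.cons_val_one, Matrix.cons_val_fin_one]; omega
  have hcard := hR (3 * H) (by omega) _ _ hRg (fun _ => 0) (fun i => ⟨by simp, by simp⟩)
  classical
  set W := (Bq (![2 * N, 3 * M] : Fin 2 → ℕ) (![2 * N, 3 * M] : Fin 2 → ℕ)).filter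
    (fun v => NoFix (pl (fun _ : Fin 2 => (0 : ℤ[X])) v) ∧ ¬ GoodS (A + 6) B₁ E (3 * H)
      (![2 * N, 3 * M] : Fin 2 → ℕ) (![2 * N, 3 * M] : Fin 2 → ℕ) (fun _ => 0) (pl (fun _ : Fin 2 => (0 : ℤ[X])) v)) with hW
  have hcard' : (W.card : ℝ) ≤ vq (![2 * N, 3 * M] : Fin 2 → ℕ) (![2 * N, 3 * M] : Fin 2 → ℕ) / Real.log ((3 * H : ℕ) : ℝ) ^ (A + 6) := by
    refine le_trans (le_of_eq ?_) hcard
    congr 2
  set Φ : (Fin 2 → ℕ × ℕ) → ℕ × ℕ × ℤ :=
    fun v => ((v 1).1, (v 0).1, ((v 1).1 : ℤ) * (v 0).2 - (v 0).1 * (v 1).2) with hΦ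
  have hsub : ((Icc 1 M ×ˢ Icc 1 N ×ˢ Icc (-(M * N : ℤ)) (M * N)).filter (fun x : ℕ × ℕ × ℤ =>
    |x.2.2| ≤ x.1 * x.2.1 ∧ Adm3 x.1 x.2.1 x.2.2 ∧ ¬ Good3 A (B₁ + A + 5) H M N x.1 x.2.1 x.2.2)) ⊆ W.image Φ := by
    rintro ⟨a, b, c⟩ hx
    simp only [mem_filter, mem_product, mem_Icc] at hx
    obtain ⟨⟨⟨ha, haM⟩, ⟨hb, hbN⟩, -⟩, hc, hadm, hbad⟩ := hx
    obtain ⟨p, q, hp0, hp, hq1, hq3, hpq⟩ := exists_pq a b c ha hb hadm.2.2.2.1 hc
    rw [mem_image]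
    refine ⟨![(b, p), (a, q)], ?_, ?_⟩
    · rw [hW, mem_filter]
      have hL' : 2001 ≤ Real.log ((3 * H : ℕ) : ℝ) := by
        have t1 : Real.log (H : ℝ) ≤ Real.log ((3 * H : ℕ) : ℝ) := by
          apply Real.log_le_log (by linarith)
          exact_mod_cast (by omega : H ≤ 3 * H)
        have t2 : (1 : ℝ) ≤ 2 ^ B₁ := one_le_pow₀ (by norm_num)
        linarith
      have hz3 : (Real.log ((3 * H : ℕ) : ℝ)) ^ 3 ≤ (⌊Real.log ((3 * H : ℕ) : ℝ) ^ E⌋₊ : ℝ) := by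
        set L' := Real.log ((3 * H : ℕ) : ℝ) with hL'def
        have t1 : L' ^ 4 ≤ L' ^ E := pow_le_pow_right₀ (by linarith) (by
          have := le_max_right E₀ (A + 12); omega)
        have t2 : L' ^ E < (⌊L' ^ E⌋₊ : ℝ) + 1 := Nat.lt_floor_add_one _
        have t3 : L' ^ 4 = L' ^ 3 * L' := by ring
        have t4 : 1 ≤ L' ^ 3 := one_le_pow₀ (by linarith)
        nlinarith
      have hc2 : |c| ≤ ((3 * H : ℕ) : ℤ) ^ 2 := by
        refine hc.trans ?_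
        have t1 : (a : ℤ) ≤ ((3 * H : ℕ) : ℤ) := by exact_mod_cast (by omega : a ≤ 3 * H)
        have t2 : (b : ℤ) ≤ ((3 * H : ℕ) : ℤ) := by exact_mod_cast (by omega : b ≤ 3 * H)
        rw [pow_two]
        exact mul_le_mul t1 t2 (by positivity) (by positivity)
      obtain ⟨hnf, hs, hsg⟩ := hSER (3 * H) (by omega) a b c p q hadm (by omega) (by omega) hc2 hpq _ hz3
      refine ⟨?_, hnf, ?_⟩
      · unfold Bq
        rw [Fintype.mem_piFinset, Fin.forall_fin_two]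
        simp only [Matrix.cons_val_zero, Matrix.cons_val_one, Matrix.cons_val_fin_one, mem_product, mem_Icc]
        omega
      · intro hgood
        apply hbad
        refine key A B₁ E H M N a b p q c (by omega) hL (le_max_right _ _) ha haM hM2 hb hbN hN2
          hadm.2.2.2.1 hp0 hp hq1 hq3 hpq hgood hs hsg ?_
        refine hLow (3 * H) (by omega) _ (Nat.floor_le (by positivity)) _ ?_ hnf
        intro i
        unfold pl
        compute_degree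
    · simp only [hΦ, Matrix.cons_val_zero, Matrix.cons_val_one, Matrix.cons_val_fin_one, Prod.mk.injEq, true_and]
      exact hpq
  have hle := (card_le_card hsub).trans card_image_le
  have hle' : ((((Icc 1 M ×ˢ Icc 1 N ×ˢ Icc (-(M * N : ℤ)) (M * N)).filter (fun x : ℕ × ℕ × ℤ =>
    |x.2.2| ≤ x.1 * x.2.1 ∧ Adm3 x.1 x.2.1 x.2.2 ∧ ¬ Good3 A (B₁ + A + 5) H M N x.1 x.2.1 x.2.2)).card : ℕ) : ℝ) ≤ W.card := by
    exact_mod_cast hle
  refine le_trans (le_of_eq ?_) (hle'.trans (hcard'.trans ?_))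
  · congr 2
  · have hvq : vq (![2 * N, 3 * M] : Fin 2 → ℕ) (![2 * N, 3 * M] : Fin 2 → ℕ) = 36 * ((M : ℝ) * N) ^ 2 := by
      unfold vq
      rw [Fin.prod_univ_two]
      simp only [Matrix.cons_val_zero, Matrix.cons_val_one, Matrix.cons_val_fin_one]
      push_cast
      ring
    rw [hvq]
    have hLL : Real.log (H : ℝ) ≤ Real.log ((3 * H : ℕ) : ℝ) := by
      apply Real.log_le_log (by linarith)
      exact_mod_cast (by omega : H ≤ 3 * H)
    have h2B : (1 : ℝ) ≤ 2 ^ B₁ := one_le_pow₀ (by norm_num)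
    set L := Real.log (H : ℝ) with hLd
    set L' := Real.log ((3 * H : ℕ) : ℝ) with hL'd
    have hLA : 0 < L ^ A := pow_pos (by linarith) _
    have t1 : L ^ A ≤ L' ^ A := pow_le_pow_left₀ (by linarith) hLL _
    have t2 : L' ^ (A + 6) = L' ^ A * L' ^ 6 := by ring
    have t3 : L' ≤ L' ^ 6 := le_self_pow₀ (by linarith) (by norm_num)
    have t4 : 36 * L ^ A ≤ L' ^ (A + 6) := by rw [t2]; nlinarith
    rw [div_le_div_iff₀ (by linarith) hLA]
    have t5 : 0 ≤ ((M : ℝ) * N) ^ 2 := sq_nonneg _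
    nlinarith

end Pool.Agent.helper24_UT.R3
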