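import Pool.Agent.helper24_UT.Stm13
import Pool.Agent.helper24_UT.R1
import Pool.Agent.helper24_UT.R3

set_option autoImplicit false

namespace Pool.Agent.helper24_UT.R12

open Finset Polynomial
open Pool.Agent.helper24_UT
open Pool.Agent.H373R2.T7 (lamI lamzI lamz Vz pz lamP)
open Pool.Agent.H807R2.Dav (ee)

/-- the formula for linear forms in the range `n ≤ R_i ^ (2 - 1/e)` -/
def GLi {k : ℕ} (A B E H e : ℕ) (R : Fin k → ℕ) (f : Fin k → ℤ[X]) : Prop :=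
  ∀ y : ℕ, Real.log H ^ B ≤ y → (∀ i, (y : ℝ) ≤ (R i : ℝ) ^ (2 - 1 / e : ℝ)) →
    |(pcount f y : ℝ) - sg ⌊Real.log H ^ E⌋₊ f * lsum f y| ≤ sg ⌊Real.log H ^ E⌋₊ f * lsum f y / Real.log H ^ A

theorem val0 {k : ℕ} (v : Fin k → ℕ × ℕ) (i : Fin k) (n : ℕ) :
    (pl (fun _ => (0 : ℤ[X])) v i).eval (n : ℤ) = (((v i).1 * n + (v i).2 : ℕ) : ℤ) := by
  unfold pl
  simp only [eval_add, eval_mul, eval_C, eval_X, eval_zero]
  push_cast
  ring

open Classical in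
theorem lay1 (hPSI : S_PSI4) (hIN : S_IN4) (hLOW : S_LOW) (k e A : ℕ) (hk : 1 ≤ k) (he : 1 ≤ e) :
    ∃ E₀ B : ℕ, ∀ E : ℕ, E₀ ≤ E → ∃ H₀ : ℕ, ∀ H : ℕ, H₀ ≤ H → ∀ R : Fin k → ℕ,
    (∀ i, (H : ℝ) ^ (1 / e : ℝ) ≤ R i ∧ R i ≤ H) →
    (((Bq R R).filter (fun v => NoFix (pl (fun _ => 0) v) ∧ ¬ GLi A B E H e R (pl (fun _ => 0) v))).card : ℝ) ≤
      vq R R / Real.log H ^ A := by
  obtain ⟨A', hA', hIN'⟩ := hIN k e (A + k + 4) he
  obtain ⟨E₀, B₁, hPSI'⟩ := hPSI k e A' he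
  obtain ⟨B, n1, hB, hIN2⟩ := hIN' B₁
  refine ⟨E₀, B, fun E hE => ?_⟩
  obtain ⟨n2, hPSI2⟩ := hPSI' E hE
  obtain ⟨n3, hLOW2⟩ := hLOW k (max 0 1) E
  obtain ⟨n4, hV⟩ := Pool.Agent.H373R2.T7.Vz_inv_small E
  have hlim : Filter.Tendsto (fun N : ℕ => Real.log (N : ℝ)) Filter.atTop Filter.atTop :=
    Real.tendsto_log_atTop.comp (tendsto_natCast_atTop_atTop (R := ℝ))
  obtain ⟨n5, hn5⟩ := Filter.eventually_atTop.1 (hlim.eventually_ge_atTop ((4 : ℝ) ^ k))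
  refine ⟨n1 + n2 + n3 + n4 + n5 + 3, fun H hH R hR => ?_⟩
  have hL3 : (4 : ℝ) ^ k ≤ Real.log H := hn5 H (by omega)
  have hL1 : (1 : ℝ) ≤ Real.log H := (one_le_pow₀ (by norm_num)).trans hL3
  have hL0 : (0 : ℝ) < Real.log H := by linarith
  have hH3 : (3 : ℝ) ≤ H := by exact_mod_cast (by omega : 3 ≤ H)
  have hHe : (1 : ℝ) ≤ (H : ℝ) ^ (1 / e : ℝ) := Real.one_le_rpow (by linarith) (by positivity)
  have hR1 : ∀ i, (1 : ℝ) ≤ R i := fun i => hHe.trans (hR i).1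
  have hRH : ∀ i, (R i : ℝ) ≤ H := fun i => by exact_mod_cast (hR i).2
  have heR : (1 : ℝ) ≤ e := by exact_mod_cast he
  have hvq : 0 ≤ vq R R := by
    unfold vq
    exact prod_nonneg fun i _ => by positivity
  -- the admissible lengths
  set P : ℕ → Prop := fun y => ∀ i, (y : ℝ) ≤ (R i : ℝ) ^ (2 - 1 / e : ℝ) with hP
  have hPH : ∀ y, P y → y ≤ H ^ 2 := by
    intro y hy
    have h1 := hy ⟨0, by omega⟩
    set i : Fin k := ⟨0, by omega⟩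
    have h2 : (R i : ℝ) ^ (2 - 1 / e : ℝ) ≤ (R i : ℝ) ^ (2 : ℝ) := by
      apply Real.rpow_le_rpow_of_exponent_le (hR1 i)
      have : 0 ≤ 1 / (e : ℝ) := by positivity
      linarith
    have h3 : (R i : ℝ) ^ (2 : ℝ) = (R i : ℝ) ^ 2 := by exact_mod_cast Real.rpow_natCast (R i : ℝ) 2
    have h4 : (R i : ℝ) ^ 2 ≤ (H : ℝ) ^ 2 := pow_le_pow_left₀ (by linarith [hR1 i]) (hRH i) 2
    have h5 : (y : ℝ) ≤ (H : ℝ) ^ 2 := h1.trans (h2.trans (h3.le.trans h4))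
    exact_mod_cast h5
  have hP0 : P 0 := by
    intro i
    simp only [Nat.cast_zero]
    positivity
  obtain ⟨T, hT, hTmax⟩ : ∃ T, P T ∧ ∀ y, P y → y ≤ T :=
    ⟨Nat.findGreatest P (H ^ 2), Nat.findGreatest_spec (hPH 0 hP0) hP0,
      fun y hy => Nat.le_findGreatest (hPH y hy) hy⟩
  obtain ⟨Bad, hBad, hcard, hgood⟩ := hPSI2 H (by omega) T R (fun i => ⟨(hR i).1, (hR i).2, hT i⟩)
  have hsub : (Bq R R).filter (fun v => NoFix (pl (fun _ => 0) v) ∧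
      ¬ GLi A B E H e R (pl (fun _ => 0) v)) ⊆ Bad := by
    intro v hv
    rw [mem_filter] at hv
    obtain ⟨hvB, hNF, hng⟩ := hv
    by_contra hnb
    apply hng
    obtain ⟨hb, hsum⟩ := hgood v hvB hnb
    intro y hLy hy
    have hyT : y ≤ T := hTmax y hy
    have hyH : y ≤ H ^ 2 := hPH y hy
    have hvi : ∀ i, (1 ≤ (v i).1 ∧ (v i).1 ≤ R i) ∧ (1 ≤ (v i).2 ∧ (v i).2 ≤ R i) := by
      intro i
      have := Fintype.mem_piFinset.1 hvB i
      rw [mem_product, mem_Icc, mem_Icc] at this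
      exact this
    set z : ℕ := ⌊Real.log H ^ E⌋₊ with hz
    have hLE : (1 : ℝ) ≤ Real.log H ^ E := one_le_pow₀ hL1
    have hz1 : 1 ≤ z := Nat.le_floor (by exact_mod_cast hLE)
    have hzE : (z : ℝ) ≤ Real.log H ^ E := Nat.floor_le (by positivity)
    set f : Fin k → ℤ[X] := pl (fun _ => 0) v with hf
    set S : ℝ := sg z f with hS
    have hS0 : 0 ≤ S := R1.sg_nonneg _ _
    have hSle : S ≤ Real.log H ^ (k + 1) := by
      refine (R1.sg_le _ _).trans ?_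
      refine (pow_le_pow_left₀ (inv_pos.2 (Pool.Agent.H373R2.T7.Vz_pos z)).le
        (hV H (by omega) z hz1 hzE) k).trans ?_
      exact pow_le_pow_right₀ hL1 (by omega)
    have hSlow : 1 / Real.log H ≤ S := hLOW2 H (by omega) z hzE f
      (fun i => R1.deg_pl (fun _ => 0) 0 v i (by simp)) hNF
    have hcnt := hIN2 H (by omega) y hLy hyH R (fun i => (v i).1) (fun i => (v i).2) S
      (fun i => ⟨(hR i).1, (hvi i).1.2.trans (hR i).2, (hvi i).2.1, (hvi i).2.2.trans (hR i).2, hb i⟩)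
      hS0 hSle (fun t ht hty => by
        have h1 := hsum t ht (hty.trans hyT)
        have h2 : ∑ n ∈ Icc 1 t, ∏ i, lamP ((f i).eval (n : ℤ)) =
            ∑ n ∈ Icc 1 t, ∏ i, lamP (((v i).1 : ℤ) * n + ((v i).2 : ℤ)) := by
          refine sum_congr rfl fun n _ => prod_congr rfl fun i _ => ?_
          rw [hf, val0]
          push_cast
          rfl
        rw [h2] at h1
        exact h1)
    have hpc : pcount f y = ((Icc 1 y).filter (fun n => ∀ i, ((v i).1 * n + (v i).2).Prime)).card := by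
      unfold pcount
      congr 1
      ext n
      simp only [mem_filter, hf, val0, Int.natAbs_natCast]
    have hls : lsum f y = ∑ n ∈ Icc 1 y, ∏ i, 1 / Real.log (((v i).1 * n + (v i).2 : ℕ) : ℝ) := by
      unfold lsum
      refine sum_congr rfl fun n _ => prod_congr rfl fun i _ => ?_
      rw [hf, val0, Int.cast_natCast]
    rw [← hpc, ← hls] at hcnt
    have hlow : (y : ℝ) * (1 / (4 * Real.log H)) ^ k ≤ lsum f y := by
      rw [hls]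
      have h1 : ∑ n ∈ Icc 1 y, (1 / (4 * Real.log H)) ^ k = (y : ℝ) * (1 / (4 * Real.log H)) ^ k := by
        rw [sum_const, Nat.card_Icc, nsmul_eq_mul]
        simp
      rw [← h1]
      refine sum_le_sum fun n hn => ?_
      have h2 : (1 / (4 * Real.log H)) ^ k = ∏ _i : Fin k, (1 / (4 * Real.log H)) := by
        rw [prod_const, card_univ, Fintype.card_fin]
      rw [h2]
      refine prod_le_prod (fun i _ => by positivity) (fun i _ => ?_)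
      have hn' := mem_Icc.1 hn
      have h3 : (2 : ℝ) ≤ (((v i).1 * n + (v i).2 : ℕ) : ℝ) := by
        have h4 : 1 * 1 ≤ (v i).1 * n := Nat.mul_le_mul (hvi i).1.1 hn'.1
        have h5 := (hvi i).2.1
        exact_mod_cast (by omega : 2 ≤ (v i).1 * n + (v i).2)
      have h4 : (((v i).1 * n + (v i).2 : ℕ) : ℝ) ≤ (H : ℝ) ^ 4 := by
        have hnH : (n : ℝ) ≤ (H : ℝ) ^ 2 := by exact_mod_cast hn'.2.trans hyH
        have hn0 : (0 : ℝ) ≤ n := Nat.cast_nonneg n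
        have h10 : ((v i).1 : ℝ) ≤ H := by exact_mod_cast (hvi i).1.2.trans (hR i).2
        have h11 : ((v i).2 : ℝ) ≤ H := by exact_mod_cast (hvi i).2.2.trans (hR i).2
        have h12 : ((v i).1 : ℝ) * n ≤ H * (H : ℝ) ^ 2 := mul_le_mul h10 hnH hn0 (by linarith)
        push_cast
        have h13 : (H : ℝ) * (H : ℝ) ^ 2 * 3 ≤ H * (H : ℝ) ^ 2 * H :=
          mul_le_mul_of_nonneg_left hH3 (by positivity)
        have h14 : (H : ℝ) * 1 ≤ H * (H : ℝ) ^ 2 :=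
          mul_le_mul_of_nonneg_left (one_le_pow₀ (by linarith)) (by linarith)
        nlinarith
      have h5 : Real.log (((v i).1 * n + (v i).2 : ℕ) : ℝ) ≤ 4 * Real.log H := by
        have := Real.log_le_log (by linarith) h4
        rw [Real.log_pow] at this
        exact_mod_cast this
      have h6 : 0 < Real.log (((v i).1 * n + (v i).2 : ℕ) : ℝ) := Real.log_pos (by linarith)
      exact one_div_le_one_div_of_le h6 h5
    have hmain : (y : ℝ) / Real.log H ^ (A + k + 4) ≤ S * lsum f y / Real.log H ^ A := by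
      have h1 : 1 / Real.log H * ((y : ℝ) * (1 / (4 * Real.log H)) ^ k) ≤ S * lsum f y :=
        mul_le_mul hSlow hlow (by positivity) hS0
      have h2 : (y : ℝ) / Real.log H ^ (A + k + 4) ≤
          (1 / Real.log H * ((y : ℝ) * (1 / (4 * Real.log H)) ^ k)) / Real.log H ^ A := by
        have h3 : (1 / Real.log H * ((y : ℝ) * (1 / (4 * Real.log H)) ^ k)) / Real.log H ^ A =
            y / (Real.log H ^ (A + k + 1) * 4 ^ k) := by
          rw [one_div_pow, mul_pow]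
          field_simp
          ring
        rw [h3]
        apply div_le_div_of_nonneg_left (Nat.cast_nonneg _) (by positivity)
        have h4 : Real.log H ^ (A + k + 4) = Real.log H ^ (A + k + 1) * Real.log H ^ 3 := by
          rw [← pow_add]
        rw [h4]
        apply mul_le_mul_of_nonneg_left _ (by positivity)
        calc (4 : ℝ) ^ k ≤ Real.log H := hL3
          _ = Real.log H ^ 1 := (pow_one _).symm
          _ ≤ Real.log H ^ 3 := pow_le_pow_right₀ hL1 (by norm_num)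
      exact h2.trans (div_le_div_of_nonneg_right h1 (by positivity))
    exact hcnt.trans hmain
  calc (((Bq R R).filter (fun v => NoFix (pl (fun _ => 0) v) ∧
      ¬ GLi A B E H e R (pl (fun _ => 0) v))).card : ℝ)
      ≤ (Bad.card : ℝ) := by exact_mod_cast card_le_card hsub
    _ ≤ vq R R / Real.log H ^ A' := hcard
    _ ≤ vq R R / Real.log H ^ A := by
      apply div_le_div_of_nonneg_left hvq (by positivity)
      exact pow_le_pow_right₀ hL1 (by omega)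

lemma aux2' (L x : ℝ) (hL : 2001 ≤ L) (hx : 1 ≤ x) : 64 * x * (4 * L) ^ 2 ≤ x * L ^ 4 - 4 * (4 * L) ^ 2 := by
  have h1 : (4000000 : ℝ) ≤ L ^ 2 := by nlinarith
  have h2 : 64 * x * (4 * L) ^ 2 + 4 * (4 * L) ^ 2 ≤ x * (1088 * L ^ 2) := by nlinarith [sq_nonneg L]
  have h3 : 1088 * L ^ 2 ≤ L ^ 4 := by nlinarith [sq_nonneg L]
  have h4 : x * (1088 * L ^ 2) ≤ x * L ^ 4 := mul_le_mul_of_nonneg_left h3 (by linarith)
  linarith

lemma aux4' (H : ℝ) (y b p : ℝ) (hb : b ≤ H) (hy : y ≤ H ^ 2) (hp : p ≤ 3 * b) (hb0 : 1 ≤ b) (hy0 : 0 ≤ y)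
    (hH : 3 ≤ H) : p + b * y ≤ H ^ 4 := by
  have t1 : b * (y + 3) ≤ H * (H ^ 2 + 3) := mul_le_mul hb (by linarith) (by linarith) (by linarith)
  have t2 : H ^ 2 + 3 ≤ H ^ 3 := by nlinarith
  have t3 : H * (H ^ 2 + 3) ≤ H * H ^ 3 := mul_le_mul_of_nonneg_left t2 (by linarith)
  have t4 : H * H ^ 3 = H ^ 4 := by ring
  linarith

lemma pow_rng (M e c : ℕ) (hM : 1 ≤ M) (he : 1 ≤ e) (hc : 1 ≤ c) (y : ℝ) (hy : y ≤ (M : ℝ) ^ (2 - 1 / e : ℝ)) :
    y ≤ ((c * M : ℕ) : ℝ) ^ (2 - 1 / ((e + 1 : ℕ) : ℝ) : ℝ) := by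
  have hM' : (1 : ℝ) ≤ M := by exact_mod_cast hM
  have hc' : (1 : ℝ) ≤ c := by exact_mod_cast hc
  have he' : (1 : ℝ) ≤ e := by exact_mod_cast he
  have h1 : 1 / ((e + 1 : ℕ) : ℝ) ≤ 1 / (e : ℝ) := by
    apply one_div_le_one_div_of_le (by linarith)
    push_cast
    linarith
  have h2 : 1 / ((e + 1 : ℕ) : ℝ) ≤ 1 := by
    rw [div_le_one (by positivity)]
    push_cast
    linarith
  have h3 : (0 : ℝ) ≤ 2 - 1 / ((e + 1 : ℕ) : ℝ) := by linarith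
  have h4 : (M : ℝ) ≤ ((c * M : ℕ) : ℝ) := by
    push_cast
    nlinarith
  have h5 : (2 : ℝ) - 1 / (e : ℝ) ≤ 2 - 1 / ((e + 1 : ℕ) : ℝ) := by linarith
  have h6 : (M : ℝ) ^ (2 - 1 / e : ℝ) ≤ (M : ℝ) ^ (2 - 1 / ((e + 1 : ℕ) : ℝ) : ℝ) :=
    Real.rpow_le_rpow_of_exponent_le hM' h5
  exact hy.trans (h6.trans (Real.rpow_le_rpow (zero_le_one.trans hM') h4 h3))

lemma sq_rng (M H e : ℕ) (hM : 1 ≤ M) (hMH : M ≤ H) (he : 1 ≤ e) (y : ℝ)
    (hy : y ≤ (M : ℝ) ^ (2 - 1 / e : ℝ)) : y ≤ (H : ℝ) ^ 2 := by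
  have hM' : (1 : ℝ) ≤ M := by exact_mod_cast hM
  have hMH' : (M : ℝ) ≤ H := by exact_mod_cast hMH
  have h2 : (M : ℝ) ^ (2 - 1 / e : ℝ) ≤ (M : ℝ) ^ (2 : ℝ) := by
    apply Real.rpow_le_rpow_of_exponent_le hM'
    have : 0 ≤ 1 / (e : ℝ) := by positivity
    linarith
  have h3 : (M : ℝ) ^ (2 : ℝ) = (M : ℝ) ^ 2 := by exact_mod_cast Real.rpow_natCast (M : ℝ) 2
  have h4 : (M : ℝ) ^ 2 ≤ (H : ℝ) ^ 2 := pow_le_pow_left₀ (by linarith) hMH' 2
  exact hy.trans (h2.trans (h3.le.trans h4))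

lemma log_rng (H b p y : ℝ) (hH : 3 ≤ H) (hb : b ≤ H) (hy : y ≤ H ^ 2) (hp : p ≤ 3 * b) (hb0 : 1 ≤ b)
    (hy0 : 0 ≤ y) (hp1 : 1 ≤ p) : Real.log (p + b * y) ≤ 4 * Real.log H := by
  have h1 : Real.log (H ^ 4) = 4 * Real.log H := by
    rw [Real.log_pow]
    norm_num
  rw [← h1]
  have hby : 0 ≤ b * y := mul_nonneg (by linarith) hy0
  exact Real.log_le_log (by linarith) (aux4' H y b p hb hy hp hb0 hy0 hH)

lemma nums (A B₁ : ℕ) (L L' : ℝ) (hL : (2 : ℝ) ^ B₁ + 2000 ≤ L) (hLL : L ≤ L') (hLL2 : L' ≤ 2 * L) :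
    L' ^ B₁ + 2000 ≤ L ^ (B₁ + A + 5) ∧ L ^ (A + 5) ≤ L ^ (B₁ + A + 5) := by
  have h2B : (1 : ℝ) ≤ 2 ^ B₁ := one_le_pow₀ (by norm_num)
  have hL1 : 2001 ≤ L := by linarith
  have hLB1 : 1 ≤ L ^ B₁ := one_le_pow₀ (by linarith)
  have hLA1 : 1 ≤ L ^ A := one_le_pow₀ (by linarith)
  have hLA5 : L ^ (A + 5) = L ^ A * L ^ 4 * L := by ring
  have hL4 : 1 ≤ L ^ 4 := one_le_pow₀ (by linarith)
  have hLA5' : L ≤ L ^ (A + 5) := by
    rw [hLA5]
    have : 1 ≤ L ^ A * L ^ 4 := one_le_mul_of_one_le_of_one_le hLA1 hL4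
    nlinarith
  have hLB : L ^ (B₁ + A + 5) = L ^ B₁ * L ^ (A + 5) := by
    rw [← pow_add]; rfl
  rw [hLB]
  constructor
  · have t1 : L' ^ B₁ ≤ (2 * L) ^ B₁ := pow_le_pow_left₀ (by linarith) hLL2 _
    rw [mul_pow] at t1
    have t2 : L ^ B₁ * L ≤ L ^ B₁ * L ^ (A + 5) := mul_le_mul_of_nonneg_left hLA5' (by linarith)
    have t3 : L ^ B₁ * (2 ^ B₁ + 2000) ≤ L ^ B₁ * L := mul_le_mul_of_nonneg_left hL (by linarith)
    nlinarith
  · nlinarith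

lemma low1 (A : ℕ) (L y ls LB : ℝ) (hL1 : 2001 ≤ L) (hLBa : L ^ (A + 5) ≤ LB) (hyL : LB < y + 4)
    (hls : y / (4 * L) ^ 2 ≤ ls) : 64 * L ^ (A + 1) ≤ ls := by
  refine le_trans ?_ hls
  have hL0 : 0 < L := by linarith
  rw [le_div_iff₀ (by positivity)]
  have t1 : L ^ (A + 5) = L ^ (A + 1) * L ^ 4 := by ring
  have t3 : 1 ≤ L ^ (A + 1) := one_le_pow₀ (by linarith)
  have t4 := aux2' L (L ^ (A + 1)) hL1 t3
  have t6 : 1 ≤ (4 * L) ^ 2 := one_le_pow₀ (by linarith)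
  linarith

lemma fin2 (A E : ℕ) (L L' P Cn Ls Ex S s : ℝ) (hL1 : 2001 ≤ L) (hLL : L ≤ L') (hLL2 : L' ≤ 2 * L)
    (hE : A + 12 ≤ E) (hc1 : P ≤ Cn) (hc2 : Cn ≤ P + 2) (he1 : Ls ≤ Ex) (he2 : Ex ≤ Ls + 5)
    (hs : 0 < s) (hlow : 1 / L' ≤ S) (hsg : |S - s| ≤ s * (L' ^ 2 / (⌊L' ^ E⌋₊ : ℝ)))
    (hg : |P - S * Ls| ≤ S * Ls / L' ^ (A + 6)) (hLs : 64 * L ^ (A + 1) ≤ Ls) :
    |Cn - s * Ex| ≤ s * Ex / L ^ A := by
  have hLA : L ^ (A + 1) = L ^ A * L := by ring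
  have hLA1 : 1 ≤ L ^ A := one_le_pow₀ (by linarith)
  have hL'1 : 2001 ≤ L' := by linarith
  have hL'0 : 0 < L' := by linarith
  have hS0 : 0 ≤ S := le_trans (by positivity) hlow
  have hz : L' ^ 2 * (8 * L ^ A) ≤ (⌊L' ^ E⌋₊ : ℝ) := R3.aux5 L L' A E (by linarith) hLL hL'1 hE
  have hz0 : 0 < (⌊L' ^ E⌋₊ : ℝ) := lt_of_lt_of_le (by positivity) hz
  have hδ : L' ^ 2 / (⌊L' ^ E⌋₊ : ℝ) * (8 * L ^ A) ≤ 1 := by
    rw [div_mul_eq_mul_div, div_le_one hz0]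
    exact hz
  have hε : 1 / L' ^ (A + 6) * (16 * L ^ A) ≤ 1 := R3.aux6 L L' A (by linarith) hLL hL'1
  have hδ1 : L' ^ 2 / (⌊L' ^ E⌋₊ : ℝ) ≤ 1 := by
    have t0 : 0 ≤ L' ^ 2 / (⌊L' ^ E⌋₊ : ℝ) := by positivity
    have t1 : L' ^ 2 / (⌊L' ^ E⌋₊ : ℝ) * 1 ≤ L' ^ 2 / (⌊L' ^ E⌋₊ : ℝ) * (8 * L ^ A) :=
      mul_le_mul_of_nonneg_left (by linarith) t0
    linarith
  have hs2 : 1 ≤ s * (4 * L) := by
    have t1 := (abs_le.1 hsg).2
    have t2 : s * (L' ^ 2 / (⌊L' ^ E⌋₊ : ℝ)) ≤ s * 1 := mul_le_mul_of_nonneg_left hδ1 hs.le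
    have t3 : 1 / L' ≤ 2 * s := by linarith
    exact R3.aux3 _ L' L hs (by linarith) hLL2 t3
  rw [hLA] at hLs
  refine R3.fin_num (L ^ A) P Cn Ls Ex S s
    (L' ^ 2 / (⌊L' ^ E⌋₊ : ℝ)) (1 / L' ^ (A + 6)) hLA1 hc1 hc2 he1 he2 hs hS0 hε ?_ hsg hδ ?_ ?_
  · rw [mul_one_div]; exact hg
  · have t1 : L ^ A * 1 ≤ L ^ A * L := mul_le_mul_of_nonneg_left (by linarith) (by linarith)
    linarith
  · have t1 : s * (64 * (L ^ A * L)) ≤ s * Ls := mul_le_mul_of_nonneg_left hLs hs.le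
    have t2 : s * (64 * (L ^ A * L)) = 16 * L ^ A * (s * (4 * L)) := by ring
    have t3 : 16 * L ^ A * 1 ≤ 16 * L ^ A * (s * (4 * L)) := mul_le_mul_of_nonneg_left hs2 (by linarith)
    linarith

lemma key (A B₁ E H M N a b p q e : ℕ) (c : ℤ) (he : 1 ≤ e) (hH : 3 ≤ H) (hL : (2 : ℝ) ^ B₁ + 2000 ≤ Real.log H)
    (hE : A + 12 ≤ E) (ha : 1 ≤ a) (haM : a ≤ M) (hM : M ≤ H) (hb : 1 ≤ b) (hbN : b ≤ N) (hN : N ≤ H)
    (hab : IsCoprime (a : ℤ) b) (hp0 : b < p) (hp : p ≤ 2 * b) (hq1 : 1 ≤ q) (hq3 : q ≤ 3 * a)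
    (h : (a : ℤ) * p - b * q = c)
    (hgood : GLi (A + 6) B₁ E (3 * H) (e + 1) ![2 * N, 3 * M]
      (pl (fun _ : Fin 2 => (0 : ℤ[X])) ![(b, p), (a, q)]))
    (hs : 0 < ser3 a b c)
    (hsg : |sg ⌊Real.log ((3 * H : ℕ) : ℝ) ^ E⌋₊ (pl (fun _ : Fin 2 => (0 : ℤ[X])) ![(b, p), (a, q)]) - ser3 a b c| ≤
      ser3 a b c * ((Real.log ((3 * H : ℕ) : ℝ)) ^ 2 / (⌊Real.log ((3 * H : ℕ) : ℝ) ^ E⌋₊ : ℝ)))
    (hlow : 1 / Real.log ((3 * H : ℕ) : ℝ) ≤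
      sg ⌊Real.log ((3 * H : ℕ) : ℝ) ^ E⌋₊ (pl (fun _ : Fin 2 => (0 : ℤ[X])) ![(b, p), (a, q)])) :
    Good12 A (B₁ + A + 5) e H M N a b c := by
  intro X hX1 hX2 hX3
  have hH0 : (3 : ℝ) ≤ H := by exact_mod_cast hH
  have hlog3 : Real.log ((3 * H : ℕ) : ℝ) = Real.log 3 + Real.log H := by
    push_cast
    rw [Real.log_mul (by norm_num) (by linarith)]
  have hl3 : 0 < Real.log 3 := Real.log_pos (by norm_num)
  have hl3' : Real.log 3 ≤ Real.log H := Real.log_le_log (by norm_num) hH0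
  set f := pl (fun _ : Fin 2 => (0 : ℤ[X])) ![(b, p), (a, q)] with hf
  set L := Real.log H with hLdef
  set L' := Real.log ((3 * H : ℕ) : ℝ) with hL'def
  have hLL : L ≤ L' := by linarith
  have hLL2 : L' ≤ 2 * L := by linarith
  have h2B : (1 : ℝ) ≤ 2 ^ B₁ := one_le_pow₀ (by norm_num)
  have hL1 : 2001 ≤ L := by linarith
  obtain ⟨hLBb, hLBa⟩ := nums A B₁ L L' hL hLL hLL2
  set LB := L ^ (B₁ + A + 5) with hLBdef
  have hL'B : 1 ≤ L' ^ B₁ := one_le_pow₀ (by linarith)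
  have ha0 : (1 : ℝ) ≤ a := by exact_mod_cast ha
  have hqX : q ≤ X := by
    have t1 : (q : ℝ) ≤ 3 * a := by exact_mod_cast hq3
    have t2 : (q : ℝ) ≤ X := by nlinarith
    exact_mod_cast t2
  obtain ⟨hc1, hc2⟩ := R3.cnt_bd a b p q X c ha hb hab hp h hqX
  obtain ⟨he1, he2⟩ := R3.ex_bd a b p q X c ha hb hab hp0 hp hq1 h hqX
  rw [← hf] at hc1 hc2 he1 he2
  set y := (X - q) / a with hy
  have hy1 : a * y + q ≤ X := by
    have := Nat.mul_div_le (X - q) a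
    rw [← hy] at this
    omega
  have hy2 : X < a * (y + 4) := by
    have t := Nat.lt_mul_div_succ (X - q) (show 0 < a by omega)
    rw [← hy] at t
    have e : a * (y + 4) = a * (y + 1) + 3 * a := by ring
    omega
  have hy1' : (a : ℝ) * y ≤ X := by exact_mod_cast (by omega : a * y ≤ X)
  have hy2' : (X : ℝ) < a * (y + 4) := by exact_mod_cast hy2
  have hyL : LB < y + 4 := by
    by_contra hcon
    push Not at hcon
    nlinarith
  have hyM : (y : ℝ) ≤ (M : ℝ) ^ (2 - 1 / e : ℝ) :=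
    le_of_mul_le_mul_left (hy1'.trans hX2) (by linarith)
  have hyN : (y : ℝ) ≤ (N : ℝ) ^ (2 - 1 / e : ℝ) :=
    le_of_mul_le_mul_left (hy1'.trans hX3) (by linarith)
  have hy0 : (0 : ℝ) ≤ y := Nat.cast_nonneg y
  have hM1 : 1 ≤ M := ha.trans haM
  have hN1 : 1 ≤ N := hb.trans hbN
  have hg := hgood y (by linarith) (by
    rw [Fin.forall_fin_two]
    exact ⟨pow_rng N e 2 hN1 he (by norm_num) y hyN, pow_rng M e 3 hM1 he (by norm_num) y hyM⟩)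
  have hyH : (y : ℝ) ≤ (H : ℝ) ^ 2 := sq_rng M H e hM1 hM he y hyM
  have hb' : (b : ℝ) ≤ H := by exact_mod_cast (hbN.trans hN)
  have ha' : (a : ℝ) ≤ H := by exact_mod_cast (haM.trans hM)
  have hb0 : (1 : ℝ) ≤ b := by exact_mod_cast hb
  have hp' : (p : ℝ) ≤ 2 * b := by exact_mod_cast hp
  have hq' : (q : ℝ) ≤ 3 * a := by exact_mod_cast hq3
  have hp1 : (1 : ℝ) ≤ p := by exact_mod_cast (by omega : 1 ≤ p)
  have hq1' : (1 : ℝ) ≤ q := by exact_mod_cast hq1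
  have hD1 : Real.log (p + b * y) ≤ 4 * L := log_rng H b p y hH0 hb' hyH (by linarith) hb0 hy0 hp1
  have hD2 : Real.log (q + a * y) ≤ 4 * L := log_rng H a q y hH0 ha' hyH (by linarith) ha0 hy0 hq1'
  have hls := R3.lsum_low a b p q y (4 * L) ha hb hp0 hq1 (by linarith) hD1 hD2
  rw [← hf] at hls
  exact fin2 A E L L' (pcount f y) (cnt3 a b c X) (lsum f y) (ex3 a b c X) (sg ⌊L' ^ E⌋₊ f) (ser3 a b c)
    hL1 hLL hLL2 hE hc1 hc2 he1 he2 hs hlow hsg hg (low1 A L y _ LB hL1 hLBa hyL hls)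

theorem main : S_PSI4 → S_IN4 → S_SER3 → S_LOW → S_R12 := by
  intro hPSI hIN hSER hLOW e A he
  obtain ⟨E₀, B₁, hR⟩ := lay1 hPSI hIN hLOW 2 (e + 1) (A + 6) (by norm_num) (by omega)
  set E := max E₀ (A + 12) with hE
  obtain ⟨H₁, hR⟩ := hR E (le_max_left _ _)
  obtain ⟨H₂, hSER⟩ := hSER
  obtain ⟨H₃, hLow⟩ := hLOW 2 1 E
  have hlim : Filter.Tendsto (fun H : ℕ => Real.log (H : ℝ)) Filter.atTop Filter.atTop :=
    Real.tendsto_log_atTop.comp (tendsto_natCast_atTop_atTop (R := ℝ))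
  obtain ⟨H₄, h4⟩ := Filter.eventually_atTop.1 (hlim.eventually_ge_atTop ((2 : ℝ) ^ B₁ + 2000))
  have he0 : (0 : ℝ) < 1 / (e : ℝ) := by
    have : (0 : ℝ) < e := by exact_mod_cast he
    positivity
  have hlim2 : Filter.Tendsto (fun H : ℕ => (H : ℝ) ^ (1 / e : ℝ)) Filter.atTop Filter.atTop :=
    (tendsto_rpow_atTop he0).comp (tendsto_natCast_atTop_atTop (R := ℝ))
  obtain ⟨H₅, h5⟩ := Filter.eventually_atTop.1 (hlim2.eventually_ge_atTop 3)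
  refine ⟨B₁ + A + 5, H₁ + H₂ + H₃ + H₄ + H₅ + 3, fun H hH M N hM1 hM2 hN1 hN2 => ?_⟩
  have hL := h4 H (by omega)
  have h3e := h5 H (by omega)
  have hH3 : (3 : ℝ) ≤ H := by exact_mod_cast (by omega : 3 ≤ H)
  have hroot : ((3 * H : ℕ) : ℝ) ^ (1 / ((e + 1 : ℕ) : ℝ) : ℝ) ≤ (H : ℝ) ^ (1 / e : ℝ) := by
    have e0 : (0 : ℝ) < e := by exact_mod_cast he
    have t1 : ((3 * H : ℕ) : ℝ) ≤ (H : ℝ) ^ (1 / e + 1 : ℝ) := by
      rw [Real.rpow_add_one (by linarith)]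
      push_cast
      nlinarith
    refine (Real.rpow_le_rpow (by positivity) t1 (by positivity)).trans ?_
    rw [← Real.rpow_mul (by linarith)]
    apply le_of_eq
    congr 1
    push_cast
    field_simp
    ring
  have hRg : ∀ i : Fin 2, (((3 * H : ℕ) : ℝ)) ^ (1 / ((e + 1 : ℕ) : ℝ) : ℝ) ≤
      ((![2 * N, 3 * M] : Fin 2 → ℕ) i : ℕ) ∧ (![2 * N, 3 * M] : Fin 2 → ℕ) i ≤ 3 * H := by
    rw [Fin.forall_fin_two]
    refine ⟨⟨?_, ?_⟩, ⟨?_, ?_⟩⟩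
    · refine (hroot.trans hN1).trans ?_
      simp only [Matrix.cons_val_zero]
      exact_mod_cast (by omega : N ≤ 2 * N)
    · simp only [Matrix.cons_val_zero]; omega
    · refine (hroot.trans hM1).trans ?_
      simp only [Matrix.cons_val_one, Matrix.cons_val_fin_one]
      exact_mod_cast (by omega : M ≤ 3 * M)
    · simp only [Matrix.cons_val_one, Matrix.cons_val_fin_one]; omega
  have hcard := hR (3 * H) (by omega) _ hRg
  classical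
  set W := (Bq (![2 * N, 3 * M] : Fin 2 → ℕ) (![2 * N, 3 * M] : Fin 2 → ℕ)).filter
    (fun v => NoFix (pl (fun _ : Fin 2 => (0 : ℤ[X])) v) ∧ ¬ GLi (A + 6) B₁ E (3 * H) (e + 1)
      (![2 * N, 3 * M] : Fin 2 → ℕ) (pl (fun _ : Fin 2 => (0 : ℤ[X])) v)) with hW
  have hcard' : (W.card : ℝ) ≤ vq (![2 * N, 3 * M] : Fin 2 → ℕ) (![2 * N, 3 * M] : Fin 2 → ℕ) / Real.log ((3 * H : ℕ) : ℝ) ^ (A + 6) := by
    refine le_trans (le_of_eq ?_) hcard
    congr 2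
  set Φ : (Fin 2 → ℕ × ℕ) → ℕ × ℕ × ℤ :=
    fun v => ((v 1).1, (v 0).1, ((v 1).1 : ℤ) * (v 0).2 - (v 0).1 * (v 1).2) with hΦ
  have hsub : ((Icc 1 M ×ˢ Icc 1 N ×ˢ Icc (-(M * N : ℤ)) (M * N)).filter (fun x : ℕ × ℕ × ℤ =>
    |x.2.2| ≤ x.1 * x.2.1 ∧ Adm3 x.1 x.2.1 x.2.2 ∧ ¬ Good12 A (B₁ + A + 5) e H M N x.1 x.2.1 x.2.2)) ⊆ W.image Φ := by
    rintro ⟨a, b, c⟩ hx
    simp only [mem_filter, mem_product, mem_Icc] at hx
    obtain ⟨⟨⟨ha, haM⟩, ⟨hb, hbN⟩, -⟩, hc, hadm, hbad⟩ := hx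
    obtain ⟨p, q, hp0, hp, hq1, hq3, hpq⟩ := R3.exists_pq a b c ha hb hadm.2.2.2.1 hc
    rw [mem_image]
    refine ⟨![(b, p), (a, q)], ?_, ?_⟩
    · rw [hW, mem_filter]
      have hL' : 2001 ≤ Real.log ((3 * H : ℕ) : ℝ) := by
        have t1 : Real.log (H : ℝ) ≤ Real.log ((3 * H : ℕ) : ℝ) := by
          apply Real.log_le_log (by linarith)
          exact_mod_cast (by omega : H ≤ 3 * H)
        have t2 : (1 : ℝ) ≤ 2 ^ B₁ := one_le_pow₀ (by norm_num)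
        linarith
      have hz3 : (Real.log ((3 * H : ℕ) : ℝ)) ^ 3 ≤ (⌊Real.log ((3 * H : ℕ) : ℝ) ^ E⌋₊ : ℝ) := by
        set L' := Real.log ((3 * H : ℕ) : ℝ) with hL'def
        have t1 : L' ^ 4 ≤ L' ^ E := pow_le_pow_right₀ (by linarith) (by
          have := le_max_right E₀ (A + 12); omega)
        have t2 : L' ^ E < (⌊L' ^ E⌋₊ : ℝ) + 1 := Nat.lt_floor_add_one _
        have t3 : L' ^ 4 = L' ^ 3 * L' := by ring
        have t4 : 1 ≤ L' ^ 3 := one_le_pow₀ (by linarith)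
        nlinarith
      have hc2 : |c| ≤ ((3 * H : ℕ) : ℤ) ^ 2 := by
        refine hc.trans ?_
        have t1 : (a : ℤ) ≤ ((3 * H : ℕ) : ℤ) := by exact_mod_cast (by omega : a ≤ 3 * H)
        have t2 : (b : ℤ) ≤ ((3 * H : ℕ) : ℤ) := by exact_mod_cast (by omega : b ≤ 3 * H)
        rw [pow_two]
        exact mul_le_mul t1 t2 (by positivity) (by positivity)
      obtain ⟨hnf, hs, hsg⟩ := hSER (3 * H) (by omega) a b c p q hadm (by omega) (by omega) hc2 hpq _ hz3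
      refine ⟨?_, hnf, ?_⟩
      · unfold Bq
        rw [Fintype.mem_piFinset, Fin.forall_fin_two]
        simp only [Matrix.cons_val_zero, Matrix.cons_val_one, Matrix.cons_val_fin_one, mem_product, mem_Icc]
        omega
      · intro hgood
        apply hbad
        refine key A B₁ E H M N a b p q e c he (by omega) hL (le_max_right _ _) ha haM hM2 hb hbN hN2
          hadm.2.2.2.1 hp0 hp hq1 hq3 hpq hgood hs hsg ?_
        refine hLow (3 * H) (by omega) _ (Nat.floor_le (by positivity)) _ ?_ hnf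
        intro i
        unfold pl
        compute_degree
    · simp only [hΦ, Matrix.cons_val_zero, Matrix.cons_val_one, Matrix.cons_val_fin_one, Prod.mk.injEq, true_and]
      exact hpq
  have hle := (card_le_card hsub).trans card_image_le
  have hle' : ((((Icc 1 M ×ˢ Icc 1 N ×ˢ Icc (-(M * N : ℤ)) (M * N)).filter (fun x : ℕ × ℕ × ℤ =>
    |x.2.2| ≤ x.1 * x.2.1 ∧ Adm3 x.1 x.2.1 x.2.2 ∧ ¬ Good12 A (B₁ + A + 5) e H M N x.1 x.2.1 x.2.2)).card : ℕ) : ℝ) ≤ W.card := by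
    exact_mod_cast hle
  refine le_trans (le_of_eq ?_) (hle'.trans (hcard'.trans ?_))
  · congr 2
  · have hvq : vq (![2 * N, 3 * M] : Fin 2 → ℕ) (![2 * N, 3 * M] : Fin 2 → ℕ) = 36 * ((M : ℝ) * N) ^ 2 := by
      unfold vq
      rw [Fin.prod_univ_two]
      simp only [Matrix.cons_val_zero, Matrix.cons_val_one, Matrix.cons_val_fin_one]
      push_cast
      ring
    rw [hvq]
    have hLL : Real.log (H : ℝ) ≤ Real.log ((3 * H : ℕ) : ℝ) := by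
      apply Real.log_le_log (by linarith)
      exact_mod_cast (by omega : H ≤ 3 * H)
    have h2B : (1 : ℝ) ≤ 2 ^ B₁ := one_le_pow₀ (by norm_num)
    set L := Real.log (H : ℝ) with hLd
    set L' := Real.log ((3 * H : ℕ) : ℝ) with hL'd
    have hLA : 0 < L ^ A := pow_pos (by linarith) _
    have t1 : L ^ A ≤ L' ^ A := pow_le_pow_left₀ (by linarith) hLL _
    have t2 : L' ^ (A + 6) = L' ^ A * L' ^ 6 := by ring
    have t3 : L' ≤ L' ^ 6 := le_self_pow₀ (by linarith) (by norm_num)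
    have t4 : 36 * L ^ A ≤ L' ^ (A + 6) := by rw [t2]; nlinarith
    rw [div_le_div_iff₀ (by linarith) hLA]
    have t5 : 0 ≤ ((M : ℝ) * N) ^ 2 := sq_nonneg _
    nlinarith

end Pool.Agent.helper24_UT.R12
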