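import Pool.Agent.helper24_UT.Stm14

set_option autoImplicit false

namespace Pool.Agent.helper24_UT.R15

open Finset
open Pool.Agent.helper24_UT
open Pool.Agent.H373R2.T7 (lamI lamzI lamz Vz pz lamP)
open Pool.Agent.H807R2.Dav (ee)

lemma abel (a ρ : ℕ → ℝ) (D : ℝ) (s T : ℕ) (hT : s ≤ T) (hD : ∀ t ∈ Icc s T, |∑ m ∈ Icc s t, a m| ≤ D) :
    |∑ m ∈ Icc s T, a m * ρ m| ≤ D * (|ρ T| + ∑ m ∈ Ico s T, |ρ (m + 1) - ρ m|) := by
  have key : ∀ T, s ≤ T → ∑ m ∈ Icc s T, a m * ρ m =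
      (∑ m ∈ Icc s T, a m) * ρ T - ∑ m ∈ Ico s T, (∑ j ∈ Icc s m, a j) * (ρ (m + 1) - ρ m) := by
    intro T hT
    induction T, hT using Nat.le_induction with
    | base => simp
    | succ T hT ih =>
      rw [sum_Icc_succ_top (by omega), sum_Icc_succ_top (by omega), sum_Ico_succ_top hT, ih]
      ring
  rw [key T hT]
  have h1 : |(∑ m ∈ Icc s T, a m) * ρ T| ≤ D * |ρ T| := by
    rw [abs_mul]
    exact mul_le_mul_of_nonneg_right (hD T (mem_Icc.2 ⟨hT, le_rfl⟩)) (abs_nonneg _)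
  have h2 : |∑ m ∈ Ico s T, (∑ j ∈ Icc s m, a j) * (ρ (m + 1) - ρ m)| ≤ D * ∑ m ∈ Ico s T, |ρ (m + 1) - ρ m| := by
    refine (abs_sum_le_sum_abs _ _).trans ?_
    rw [mul_sum]
    apply sum_le_sum
    intro m hm
    rw [mem_Ico] at hm
    rw [abs_mul]
    exact mul_le_mul_of_nonneg_right (hD m (mem_Icc.2 ⟨hm.1, by omega⟩)) (abs_nonneg _)
  calc _ ≤ |(∑ m ∈ Icc s T, a m) * ρ T| + |∑ m ∈ Ico s T, (∑ j ∈ Icc s m, a j) * (ρ (m + 1) - ρ m)| := abs_sub _ _
    _ ≤ _ := by rw [mul_add]; exact add_le_add h1 h2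

/-- the weight -/
noncomputable def rh (n m : ℕ) : ℝ := 1 / (Real.log m * Real.log ((n - m : ℕ) : ℝ))

lemma log_ge (m : ℕ) (hm : 2 ≤ m) : 1 / 2 ≤ Real.log m := by
  have h1 : Real.log 2 ≤ Real.log m := Real.log_le_log (by norm_num) (by exact_mod_cast hm)
  have h2 := Real.log_two_gt_d9
  linarith

lemma bv (n T : ℕ) (hT : 2 ≤ T) (hn : T + 2 ≤ n) : |rh n T| + ∑ m ∈ Ico 2 T, |rh n (m + 1) - rh n m| ≤ 12 := by
  set f : ℕ → ℝ := fun m => (Real.log m)⁻¹ with hf
  set g : ℕ → ℝ := fun m => (Real.log ((n - m : ℕ) : ℝ))⁻¹ with hg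
  have hr : ∀ m, rh n m = f m * g m := by
    intro m
    simp only [rh, hf, hg]
    rw [one_div, mul_inv]
  have f0 : ∀ m, 2 ≤ m → 0 ≤ f m := fun m hm => inv_nonneg.2 (by linarith [log_ge m hm])
  have f2 : ∀ m, 2 ≤ m → f m ≤ 2 := fun m hm => by
    have := log_ge m hm
    simp only [hf]
    rw [inv_le_comm₀ (by linarith) (by norm_num)]
    linarith
  have g0 : ∀ m, m ≤ T → 0 ≤ g m := fun m hm => inv_nonneg.2 (by linarith [log_ge (n - m) (by omega)])
  have g2 : ∀ m, m ≤ T → g m ≤ 2 := fun m hm => by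
    have := log_ge (n - m) (by omega)
    simp only [hg]
    rw [inv_le_comm₀ (by linarith) (by norm_num)]
    linarith
  have fd : ∀ m, 2 ≤ m → f (m + 1) ≤ f m := by
    intro m hm
    simp only [hf]
    have := log_ge m hm
    apply inv_anti₀ (by linarith)
    apply Real.log_le_log (by exact_mod_cast (by omega : 0 < m))
    exact_mod_cast (by omega : m ≤ m + 1)
  have gd : ∀ m, m + 1 ≤ T → g m ≤ g (m + 1) := by
    intro m hm
    simp only [hg]
    have := log_ge (n - (m + 1)) (by omega)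
    apply inv_anti₀ (by linarith)
    apply Real.log_le_log (by exact_mod_cast (by omega : 0 < n - (m + 1)))
    exact_mod_cast (by omega : n - (m + 1) ≤ n - m)
  have h1 : |rh n T| ≤ 4 := by
    rw [hr, abs_of_nonneg (mul_nonneg (f0 T hT) (g0 T le_rfl))]
    have := mul_le_mul (f2 T hT) (g2 T le_rfl) (g0 T le_rfl) (by norm_num)
    linarith
  have h2 : ∑ m ∈ Ico 2 T, |rh n (m + 1) - rh n m| ≤ ∑ m ∈ Ico 2 T, (2 * (f m - f (m + 1)) + 2 * (g (m + 1) - g m)) := by
    apply sum_le_sum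
    intro m hm
    rw [mem_Ico] at hm
    rw [hr, hr]
    have e : f (m + 1) * g (m + 1) - f m * g m = -((f m - f (m + 1)) * g (m + 1)) + f m * (g (m + 1) - g m) := by ring
    rw [e]
    refine (abs_add_le _ _).trans ?_
    rw [abs_neg, abs_of_nonneg (mul_nonneg (by linarith [fd m hm.1]) (g0 (m + 1) (by omega))),
      abs_of_nonneg (mul_nonneg (f0 m hm.1) (by linarith [gd m (by omega)]))]
    apply add_le_add
    · rw [mul_comm]
      exact mul_le_mul_of_nonneg_right (g2 (m + 1) (by omega)) (by linarith [fd m hm.1])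
    · exact mul_le_mul_of_nonneg_right (f2 m hm.1) (by linarith [gd m (by omega)])
  have h3 : ∑ m ∈ Ico 2 T, (2 * (f m - f (m + 1)) + 2 * (g (m + 1) - g m)) = 2 * (f 2 - f T) + 2 * (g T - g 2) := by
    rw [sum_add_distrib, ← mul_sum, ← mul_sum]
    have e1 : ∑ m ∈ Ico 2 T, (f m - f (m + 1)) = f 2 - f T := by
      rw [← neg_sub (f T) (f 2), ← sum_Ico_sub f hT, ← sum_neg_distrib]
      exact sum_congr rfl fun m _ => by ring
    have e2 : ∑ m ∈ Ico 2 T, (g (m + 1) - g m) = g T - g 2 := sum_Ico_sub g hT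
    rw [e1, e2]
  have := f2 2 le_rfl
  have := f0 T hT
  have := g2 T le_rfl
  have := g0 2 hT
  linarith

lemma cntG_eq (n q r y : ℕ) :
    (cntG n q r y : ℝ) = ∑ m ∈ Icc 2 (min y (n - 2)), (if m % q = r then lamP (m : ℤ) * lamP ((n : ℤ) - m) else 0) * rh n m := by
  unfold cntG
  rw [card_filter]
  push_cast
  have hsub : Icc 2 (min y (n - 2)) ⊆ Icc 1 y := by
    intro m hm
    rw [mem_Icc] at hm ⊢
    omega
  rw [← sum_subset hsub]
  · apply sum_congr rfl
    intro m hm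
    rw [mem_Icc] at hm
    have hmn : m + 2 ≤ n := by omega
    have e1 : ((n : ℤ) - m).toNat = n - m := by omega
    unfold lamP rh
    rw [Int.toNat_natCast, e1]
    by_cases h1 : m % q = r
    · by_cases h2 : m.Prime
      · by_cases h3 : (n - m).Prime
        · rw [if_pos ⟨h1, h2, by omega, h3⟩, if_pos h1, if_pos h2, if_pos h3]
          have l1 := log_ge m hm.1
          have l2 := log_ge (n - m) (by omega)
          have : Real.log m ≠ 0 := by linarith
          have : Real.log ((n - m : ℕ) : ℝ) ≠ 0 := by linarith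
          field_simp
        · rw [if_neg (fun h => h3 h.2.2.2), if_pos h1, if_neg h3, mul_zero, zero_mul]
      · rw [if_neg (fun h => h2 h.2.1), if_pos h1, if_neg h2, zero_mul, zero_mul]
    · rw [if_neg (fun h => h1 h.1), if_neg h1, zero_mul]
  · intro m hm hm2
    rw [if_neg]
    rintro ⟨_, h2, h3, h4⟩
    apply hm2
    rw [mem_Icc] at hm ⊢
    have := h2.two_le
    have := h4.two_le
    omega

lemma split_sum (f : ℕ → ℝ) (n x y : ℕ) (hx : 1 ≤ x) :
    ∑ m ∈ Icc 2 (min (x + y) (n - 2)), f m =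
      ∑ m ∈ Icc 2 (min x (n - 2)), f m + ∑ m ∈ Icc (x + 1) (min (x + y) (n - 2)), f m := by
  rw [← sum_union]
  · apply sum_congr _ fun _ _ => rfl
    ext m
    simp only [mem_union, mem_Icc]
    omega
  · rw [disjoint_left]
    intro m h1 h2
    rw [mem_Icc] at h1 h2
    omega

/-- prime pairs in a class, in a window -/
noncomputable def PPw (n q r x s : ℕ) : ℝ :=
  ∑ m ∈ (Ioc x (x + s)).filter (fun m => m % q = r), lamP (m : ℤ) * lamP ((n : ℤ) - m)

lemma cnt_le (n q r x y : ℕ) (c D : ℝ) (hx : 1 ≤ x) (hD : ∀ s, s ≤ y → x + s < n → |PPw n q r x s - s * c| ≤ D)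
    (hD0 : 0 ≤ D) :
    |((cntG n q r (x + y) : ℝ) - cntG n q r x) - c * (expG n (x + y) - expG n x)| ≤ 12 * D := by
  set T := min (x + y) (n - 2) with hTdef
  have e1 : ((cntG n q r (x + y) : ℝ) - cntG n q r x) - c * (expG n (x + y) - expG n x) =
      ∑ m ∈ Icc (x + 1) T, ((if m % q = r then lamP (m : ℤ) * lamP ((n : ℤ) - m) else 0) - c) * rh n m := by
    have a1 : (cntG n q r (x + y) : ℝ) - cntG n q r x =
        ∑ m ∈ Icc (x + 1) T, (if m % q = r then lamP (m : ℤ) * lamP ((n : ℤ) - m) else 0) * rh n m := by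
      rw [cntG_eq, cntG_eq, split_sum _ n x y hx]
      ring
    have a2 : expG n (x + y) - expG n x = ∑ m ∈ Icc (x + 1) T, rh n m := by
      have b1 : ∀ t, expG n t = ∑ m ∈ Icc 2 (min t (n - 2)), rh n m := fun t => rfl
      rw [b1, b1, split_sum _ n x y hx]
      ring
    rw [a1, a2, mul_sum, ← sum_sub_distrib]
    apply sum_congr rfl
    intro m _
    ring
  rw [e1]
  rcases lt_or_ge T (x + 1) with hT | hT
  · rw [Icc_eq_empty (by omega), sum_empty, abs_zero]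
    linarith
  have hTn : T + 2 ≤ n := by omega
  have h1 : ∀ t ∈ Icc (x + 1) T,
      |∑ m ∈ Icc (x + 1) t, ((if m % q = r then lamP (m : ℤ) * lamP ((n : ℤ) - m) else 0) - c)| ≤ D := by
    intro t ht
    rw [mem_Icc] at ht
    have e2 : ∑ m ∈ Icc (x + 1) t, ((if m % q = r then lamP (m : ℤ) * lamP ((n : ℤ) - m) else 0) - c) =
        PPw n q r x (t - x) - ((t - x : ℕ) : ℝ) * c := by
      rw [sum_sub_distrib]
      have e3 : ∑ m ∈ Icc (x + 1) t, (if m % q = r then lamP (m : ℤ) * lamP ((n : ℤ) - m) else 0) = PPw n q r x (t - x) := by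
        unfold PPw
        rw [sum_filter]
        apply sum_congr _ fun _ _ => rfl
        ext m
        rw [mem_Icc, mem_Ioc]
        omega
      rw [e3, sum_const, Nat.card_Icc, nsmul_eq_mul]
      congr 3
      omega
    rw [e2]
    exact hD (t - x) (by omega) (by omega)
  have h2 := abel _ (rh n) _ (x + 1) T hT h1
  have h3 := bv n T (by omega) hTn
  have h4 : ∑ m ∈ Ico (x + 1) T, |rh n (m + 1) - rh n m| ≤ ∑ m ∈ Ico 2 T, |rh n (m + 1) - rh n m| :=
    sum_le_sum_of_subset_of_nonneg (Ico_subset_Ico_left (by omega)) (fun _ _ _ => abs_nonneg _)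
  calc _ ≤ _ := h2
    _ ≤ D * 12 := mul_le_mul_of_nonneg_left (by linarith) hD0
    _ = _ := by ring

lemma ne_imp (m : ℤ) (h : lamI m ≠ lamP m) : ∃ a q : ℕ, 2 ≤ a ∧ 2 ≤ q ∧ m = (q : ℤ) ^ a := by
  unfold lamI lamP at h
  by_cases hm : 1 ≤ m
  · obtain ⟨n, rfl⟩ : ∃ n : ℕ, m = (n : ℤ) := ⟨m.toNat, by omega⟩
    rw [if_pos hm, Int.toNat_natCast] at h
    by_cases hp : n.Prime
    · rw [if_pos hp] at h
      exact absurd (ArithmeticFunction.vonMangoldt_apply_prime hp) h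
    · rw [if_neg hp] at h
      rw [ArithmeticFunction.vonMangoldt_ne_zero_iff] at h
      rw [isPrimePow_nat_iff] at h
      obtain ⟨q, a, hq, ha, hqa⟩ := h
      refine ⟨a, q, ?_, hq.two_le, by exact_mod_cast hqa.symm⟩
      by_contra hlt
      have : a = 1 := by omega
      subst this
      rw [pow_one] at hqa
      exact hp (hqa ▸ hq)
  · rw [if_neg hm] at h
    have : m.toNat = 0 := by omega
    rw [this] at h
    simp [Nat.not_prime_zero] at h

lemma card_pow (a H : ℕ) (s : ℤ) (ha : 2 ≤ a) :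
    (open Classical in ((Icc 1 H).filter (fun c : ℕ => ∃ q : ℕ, s + c = (q : ℤ) ^ a)).card) ≤
      Nat.sqrt H + 1 := by
  classical
  set S := (Icc 1 H).filter (fun c : ℕ => ∃ q : ℕ, s + c = (q : ℤ) ^ a) with hS
  by_cases hne : S.Nonempty
  swap
  · rw [not_nonempty_iff_eq_empty] at hne
    rw [hne]; simp
  have hq : ∀ c : ℕ, ∃ q : ℕ, c ∈ S → s + c = (q : ℤ) ^ a := by
    intro c
    by_cases hc : c ∈ S
    · have := (mem_filter.mp (hS ▸ hc)).2
      obtain ⟨q, hq⟩ := this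
      exact ⟨q, fun _ => hq⟩
    · exact ⟨0, fun h => absurd h hc⟩
  choose f hf using hq
  obtain ⟨c₀, hc₀, hmin⟩ := S.exists_min_image f hne
  have hinj : Set.InjOn f (S : Set ℕ) := by
    intro c hc c' hc' h
    have h1 := hf c hc
    have h2 := hf c' hc'
    rw [h] at h1
    have : (c : ℤ) = c' := by linarith
    exact_mod_cast this
  have hmap : ∀ c ∈ S, f c ∈ Icc (f c₀) (f c₀ + Nat.sqrt H) := by
    intro c hc
    rw [mem_Icc]
    refine ⟨hmin c hc, ?_⟩
    have h1 := hf c hc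
    have h2 := hf c₀ hc₀
    have hc1 : c ≤ H := by
      have := (mem_filter.mp (hS ▸ hc)).1
      exact (mem_Icc.mp this).2
    obtain ⟨x, hx⟩ : ∃ x, f c = f c₀ + x := ⟨f c - f c₀, by have := hmin c hc; omega⟩
    rw [hx]
    have h3 : x ^ a + f c₀ ^ a ≤ (x + f c₀) ^ a :=
      pow_add_pow_le (Nat.zero_le _) (Nat.zero_le _) (by omega)
    have h4 : ((x : ℤ)) ^ a ≤ H := by
      have h5 : ((x : ℤ)) ^ a + (f c₀ : ℤ) ^ a ≤ ((x : ℤ) + f c₀) ^ a := by exact_mod_cast h3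
      have h6 : ((f c : ℕ) : ℤ) = (x : ℤ) + f c₀ := by rw [hx]; push_cast; ring
      rw [← h6, ← h1, ← h2] at h5
      have h7 : (c : ℤ) ≤ H := by exact_mod_cast hc1
      have h8 : (0 : ℤ) ≤ c₀ := by positivity
      linarith
    have h5 : x ^ a ≤ H := by exact_mod_cast h4
    have h6 : x ≤ Nat.sqrt H := by
      rw [Nat.le_sqrt]
      rcases Nat.eq_zero_or_pos x with h0 | h0
      · subst h0; simp
      · calc x * x = x ^ 2 := by ring
          _ ≤ x ^ a := Nat.pow_le_pow_right h0 ha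
          _ ≤ H := h5
    omega
  calc S.card ≤ (Icc (f c₀) (f c₀ + Nat.sqrt H)).card :=
        card_le_card_of_injOn f hmap hinj
    _ = Nat.sqrt H + 1 := by rw [Nat.card_Icc]; omega

lemma card_pp (H K : ℕ) (s : ℤ) :
    (open Classical in ((Icc 1 H).filter
      (fun c : ℕ => ∃ a q : ℕ, 2 ≤ a ∧ a ≤ K ∧ s + c = (q : ℤ) ^ a)).card) ≤
      K * (Nat.sqrt H + 1) := by
  classical
  have hsub : (Icc 1 H).filter (fun c : ℕ => ∃ a q : ℕ, 2 ≤ a ∧ a ≤ K ∧ s + c = (q : ℤ) ^ a) ⊆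
      (Icc 2 K).biUnion (fun a => (Icc 1 H).filter (fun c : ℕ => ∃ q : ℕ, s + c = (q : ℤ) ^ a)) := by
    intro c hc
    obtain ⟨hc1, a, q, ha, haK, h⟩ := mem_filter.mp hc
    exact mem_biUnion.mpr ⟨a, mem_Icc.mpr ⟨ha, haK⟩, mem_filter.mpr ⟨hc1, q, h⟩⟩
  calc _ ≤ _ := card_le_card hsub
    _ ≤ ∑ a ∈ Icc 2 K, _ := card_biUnion_le
    _ ≤ ∑ a ∈ Icc 2 K, (Nat.sqrt H + 1) := by
        apply sum_le_sum
        intro a ha
        exact card_pow a H s (mem_Icc.mp ha).1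
    _ = (K + 1 - 2) * (Nat.sqrt H + 1) := by rw [sum_const, Nat.card_Icc, smul_eq_mul]
    _ ≤ K * (Nat.sqrt H + 1) := Nat.mul_le_mul_right _ (by omega)


lemma win (X K s T : ℕ) (hX : 1 ≤ X) (hK : 1 ≤ K) (hTK : T ≤ K) (hsT : s + T ≤ X) :
    ∑ c ∈ Icc 1 T, (lamI ((s + c : ℕ) : ℤ) - lamP ((s + c : ℕ) : ℤ)) ≤ 4 * √(K : ℝ) * Real.log X ^ 2 := by
  classical
  have hL : 0 ≤ Real.log X := Real.log_natCast_nonneg X
  have hX1 : (1 : ℝ) ≤ X := by exact_mod_cast hX
  set S := (Icc 1 K).filter (fun c : ℕ => ∃ a q : ℕ, 2 ≤ a ∧ a ≤ Nat.log 2 X ∧ (s : ℤ) + c = (q : ℤ) ^ a) with hS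
  have h1 : ∑ c ∈ Icc 1 T, (lamI ((s + c : ℕ) : ℤ) - lamP ((s + c : ℕ) : ℤ)) ≤
      ∑ c ∈ Icc 1 T, if c ∈ S then Real.log X else 0 := by
    apply sum_le_sum
    intro c hc
    rw [mem_Icc] at hc
    split_ifs with h
    · have a1 := Pool.Agent.H373R2.T7.lamI_le ((s + c : ℕ) : ℤ) X hX1 (by
        exact_mod_cast (by omega : s + c ≤ X))
      have a2 := Pool.Agent.H373R2.T7.lamP_nonneg ((s + c : ℕ) : ℤ)
      linarith
    · by_contra h'
      push Not at h'
      apply h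
      have hne : lamI ((s + c : ℕ) : ℤ) ≠ lamP ((s + c : ℕ) : ℤ) := by
        intro h2
        rw [h2, sub_self] at h'
        exact lt_irrefl _ h'
      obtain ⟨a, q, ha, hq, hm⟩ := ne_imp _ hne
      rw [hS, mem_filter, mem_Icc]
      refine ⟨⟨hc.1, by omega⟩, a, q, ha, ?_, by rw [← hm]; push_cast; ring⟩
      apply Nat.le_log_of_pow_le (by norm_num)
      calc 2 ^ a ≤ q ^ a := Nat.pow_le_pow_left hq a
        _ = s + c := by exact_mod_cast hm.symm
        _ ≤ X := by omega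
  have h2 : ∑ c ∈ Icc 1 T, (if c ∈ S then Real.log X else 0) ≤ (S.card : ℝ) * Real.log X := by
    rw [sum_ite_mem, sum_const, nsmul_eq_mul]
    apply mul_le_mul_of_nonneg_right _ hL
    exact_mod_cast card_le_card inter_subset_right
  have h3 : (S.card : ℝ) ≤ (Nat.log 2 X : ℝ) * ((Nat.sqrt K : ℝ) + 1) := by
    have := card_pp K (Nat.log 2 X) (s : ℤ)
    have h4 : S.card ≤ Nat.log 2 X * (Nat.sqrt K + 1) := by
      convert this using 2
    exact_mod_cast h4
  have h4 : (Nat.log 2 X : ℝ) ≤ 2 * Real.log X := by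
    have a1 : 2 ^ Nat.log 2 X ≤ X := Nat.pow_log_le_self 2 (by omega)
    have a2 : ((2 : ℝ)) ^ Nat.log 2 X ≤ X := by exact_mod_cast a1
    have a3 := Real.log_le_log (by positivity) a2
    rw [Real.log_pow] at a3
    have a4 := Real.log_two_gt_d9
    have a5 : (0 : ℝ) ≤ (Nat.log 2 X : ℝ) := Nat.cast_nonneg _
    nlinarith
  have h5 : (Nat.sqrt K : ℝ) + 1 ≤ 2 * √(K : ℝ) := by
    have a1 := Real.nat_sqrt_le_real_sqrt (a := K)
    have a2 : (1 : ℝ) ≤ √(K : ℝ) := by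
      rw [Real.one_le_sqrt]
      exact_mod_cast hK
    linarith
  have h6 : (S.card : ℝ) ≤ (2 * Real.log X) * (2 * √(K : ℝ)) :=
    h3.trans (mul_le_mul h4 h5 (by positivity) (by positivity))
  calc _ ≤ _ := h1
    _ ≤ _ := h2
    _ ≤ (2 * Real.log X) * (2 * √(K : ℝ)) * Real.log X := mul_le_mul_of_nonneg_right h6 hL
    _ = _ := by ring

/-- the loss from replacing von Mangoldt by the primes -/
noncomputable def ww (K n q r x : ℕ) : ℝ := ∑ m ∈ (Ioc x (min (x + K) (n - 1))).filter (fun m => m % q = r),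
  (lamI (m : ℤ) * lamI ((n : ℤ) - m) - lamP (m : ℤ) * lamP ((n : ℤ) - m))

lemma term_nonneg (n m : ℕ) : 0 ≤ lamI (m : ℤ) * lamI ((n : ℤ) - m) - lamP (m : ℤ) * lamP ((n : ℤ) - m) := by
  have h1 := Pool.Agent.H373R2.T7.lamP_le (m : ℤ)
  have h2 := Pool.Agent.H373R2.T7.lamP_le ((n : ℤ) - m)
  have h3 := Pool.Agent.H373R2.T7.lamP_nonneg (m : ℤ)
  have h4 := Pool.Agent.H373R2.T7.lamP_nonneg ((n : ℤ) - m)
  have := mul_le_mul h1 h2 h4 (h3.trans h1)
  linarith

lemma ww_nonneg (K n q r x : ℕ) : 0 ≤ ww K n q r x := sum_nonneg fun m _ => term_nonneg n m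

lemma pp_le (K n q r x s : ℕ) (hs : s ≤ K) (ht : x + s < n) :
    |PPw n q r x s - ∑ m ∈ (Ioc x (x + s)).filter (fun m => m % q = r), lamI (m : ℤ) * lamI ((n : ℤ) - m)| ≤ ww K n q r x := by
  unfold PPw ww
  rw [abs_sub_comm, ← sum_sub_distrib, abs_of_nonneg (sum_nonneg fun m _ => term_nonneg n m)]
  apply sum_le_sum_of_subset_of_nonneg
  · apply filter_subset_filter
    apply Ioc_subset_Ioc_right
    omega
  · intro m _ _
    exact term_nonneg n m

lemma ww_sum (K n X q x : ℕ) (hX : 1 ≤ X) (hK : 1 ≤ K) (hn1 : 1 ≤ n) (hn : n ≤ X) (hq : 1 ≤ q) :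
    ∑ r ∈ range q, ww K n q r x ^ 2 ≤ 64 * K * Real.log X ^ 6 := by
  have hL : 0 ≤ Real.log X := Real.log_natCast_nonneg X
  have hX1 : (1 : ℝ) ≤ X := by exact_mod_cast hX
  set T' := min (x + K) (n - 1) with hT'
  have h1 : ∑ r ∈ range q, ww K n q r x ^ 2 ≤ (∑ r ∈ range q, ww K n q r x) ^ 2 :=
    sum_sq_le_sq_sum_of_nonneg (fun r _ => ww_nonneg K n q r x)
  have h2 : ∑ r ∈ range q, ww K n q r x = ∑ m ∈ Ioc x T', (lamI (m : ℤ) * lamI ((n : ℤ) - m) - lamP (m : ℤ) * lamP ((n : ℤ) - m)) := by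
    unfold ww
    rw [sum_fiberwise_of_maps_to]
    intro m _
    rw [mem_range]
    exact Nat.mod_lt _ (by omega)
  have h6 : ∑ r ∈ range q, ww K n q r x ≤ 8 * √(K : ℝ) * Real.log X ^ 3 := by
    rw [h2]
    rcases le_or_gt T' x with hT | hT
    · rw [Ioc_eq_empty (by omega), sum_empty]
      positivity
    have h3 : ∑ m ∈ Ioc x T', (lamI (m : ℤ) - lamP (m : ℤ)) ≤ 4 * √(K : ℝ) * Real.log X ^ 2 := by
      have e := win X K x (T' - x) hX hK (by omega) (by omega)
      refine le_trans (le_of_eq ?_) e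
      apply sum_nbij' (fun m => m - x) (fun c => x + c)
      · intro m hm
        rw [mem_Ioc] at hm
        rw [mem_Icc]
        omega
      · intro m hm
        rw [mem_Icc] at hm
        rw [mem_Ioc]
        omega
      · intro m hm
        rw [mem_Ioc] at hm
        omega
      · intro m hm
        rw [mem_Icc] at hm
        omega
      · intro m hm
        rw [mem_Ioc] at hm
        rw [show x + (m - x) = m by omega]
    have h4 : ∑ m ∈ Ioc x T', (lamI ((n : ℤ) - m) - lamP ((n : ℤ) - m)) ≤ 4 * √(K : ℝ) * Real.log X ^ 2 := by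
      have e := win X K (n - T' - 1) (T' - x) hX hK (by omega) (by omega)
      refine le_trans (le_of_eq ?_) e
      apply sum_nbij' (fun m => T' + 1 - m) (fun c => T' + 1 - c)
      · intro m hm
        rw [mem_Ioc] at hm
        rw [mem_Icc]
        omega
      · intro m hm
        rw [mem_Icc] at hm
        rw [mem_Ioc]
        omega
      · intro m hm
        rw [mem_Ioc] at hm
        omega
      · intro m hm
        rw [mem_Icc] at hm
        omega
      · intro m hm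
        rw [mem_Ioc] at hm
        have : ((n - T' - 1 + (T' + 1 - m) : ℕ) : ℤ) = (n : ℤ) - m := by omega
        rw [this]
    have h5 : ∀ m ∈ Ioc x T', lamI (m : ℤ) * lamI ((n : ℤ) - m) - lamP (m : ℤ) * lamP ((n : ℤ) - m) ≤
        Real.log X * ((lamI (m : ℤ) - lamP (m : ℤ)) + (lamI ((n : ℤ) - m) - lamP ((n : ℤ) - m))) := by
      intro m hm
      rw [mem_Ioc] at hm
      have a1 := Pool.Agent.H373R2.T7.lamI_le ((n : ℤ) - m) X hX1 (by
        have : (n : ℤ) - m ≤ X := by omega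
        exact_mod_cast this)
      have a2 := Pool.Agent.H373R2.T7.lamI_le (m : ℤ) X hX1 (by
        have : (m : ℤ) ≤ X := by omega
        exact_mod_cast this)
      have b1 := Pool.Agent.H373R2.T7.lamP_le (m : ℤ)
      have b2 := Pool.Agent.H373R2.T7.lamP_le ((n : ℤ) - m)
      have e : lamI (m : ℤ) * lamI ((n : ℤ) - m) - lamP (m : ℤ) * lamP ((n : ℤ) - m) =
        (lamI (m : ℤ) - lamP (m : ℤ)) * lamI ((n : ℤ) - m) + lamP (m : ℤ) * (lamI ((n : ℤ) - m) - lamP ((n : ℤ) - m)) := by ring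
      rw [e, mul_add]
      apply add_le_add
      · rw [mul_comm]
        exact mul_le_mul_of_nonneg_right a1 (by linarith)
      · exact mul_le_mul_of_nonneg_right (b1.trans a2) (by linarith)
    refine (sum_le_sum h5).trans ?_
    rw [← mul_sum, sum_add_distrib]
    calc Real.log X * (∑ m ∈ Ioc x T', (lamI (m : ℤ) - lamP (m : ℤ)) + ∑ m ∈ Ioc x T', (lamI ((n : ℤ) - m) - lamP ((n : ℤ) - m)))
        ≤ Real.log X * (4 * √(K : ℝ) * Real.log X ^ 2 + 4 * √(K : ℝ) * Real.log X ^ 2) := mul_le_mul_of_nonneg_left (by linarith) hL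
      _ = _ := by ring
  refine h1.trans ?_
  calc (∑ r ∈ range q, ww K n q r x) ^ 2 ≤ (8 * √(K : ℝ) * Real.log X ^ 3) ^ 2 :=
        pow_le_pow_left₀ (sum_nonneg fun r _ => ww_nonneg K n q r x) h6 2
    _ = 64 * (√(K : ℝ)) ^ 2 * Real.log X ^ 6 := by ring
    _ = _ := by rw [Real.sq_sqrt (by positivity)]

/-- the difference of the sums -/
noncomputable def Ef (z n q r x s : ℕ) : ℝ := ∑ m ∈ (Ioc x (x + s)).filter (fun m => m % q = r),
  (lamI (m : ℤ) * lamI ((n : ℤ) - m) - lamzI z (m : ℤ) * lamzI z ((n : ℤ) - m))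

lemma lamzI_eq (z : ℕ) (m : ℤ) (hm : 1 ≤ m) : lamzI z m = lz z m := by
  unfold lamzI lz lamz
  rw [if_pos hm]
  have : (∀ p ∈ pz z, ¬ p ∣ m.toNat) ↔ ∀ p ∈ pz z, ¬ (p : ℤ) ∣ m := by
    constructor
    · intro h p hp hd
      apply h p hp
      rw [← Int.natCast_dvd_natCast, Int.toNat_of_nonneg (by omega)]
      exact hd
    · intro h p hp hd
      apply h p hp
      rw [← Int.natCast_dvd_natCast, Int.toNat_of_nonneg (by omega)] at hd
      exact hd
  by_cases h : ∀ p ∈ pz z, ¬ p ∣ m.toNat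
  · rw [if_pos h, if_pos (this.1 h)]
  · rw [if_neg h, if_neg (fun h' => h (this.2 h'))]

lemma model_sum (z n q r x s : ℕ) (ht : x + s < n) :
    ∑ m ∈ (Ioc x (x + s)).filter (fun m => m % q = r), lamzI z (m : ℤ) * lamzI z ((n : ℤ) - m) =
    ∑ m ∈ (Ioc x (x + s)).filter (fun m => m % q = r), ∏ i, lz z (sG i * m + hG n i) := by
  apply sum_congr rfl
  intro m hm
  rw [mem_filter, mem_Ioc] at hm
  rw [Fin.prod_univ_two, lamzI_eq z m (by omega), lamzI_eq z _ (by omega)]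
  simp only [sG, hG, Matrix.cons_val_zero, Matrix.cons_val_one]
  congr 2
  · ring
  · ring

lemma gz_nonneg {k : ℕ} (z : ℕ) (σ h : Fin k → ℤ) (q r : ℕ) : 0 ≤ gz z σ h q r := by
  unfold gz
  split_ifs
  · exact le_rfl
  · apply mul_nonneg (pow_nonneg (inv_nonneg.2 (Pool.Agent.H373R2.T7.Vz_pos z).le) _)
    apply prod_nonneg
    intro p hp
    rw [mem_filter, Pool.Agent.H373R2.T7.mem_pz] at hp
    have hp0 : (0 : ℝ) < p := by exact_mod_cast hp.1.2.pos
    rw [sub_nonneg, div_le_one hp0]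
    unfold nuf
    exact_mod_cast (card_filter_le _ _).trans (by rw [card_range])

lemma gz_le {k : ℕ} (z : ℕ) (σ h : Fin k → ℤ) (q r : ℕ) : gz z σ h q r ≤ ((Vz z)⁻¹) ^ k := by
  have hV : 0 ≤ ((Vz z)⁻¹) ^ k := pow_nonneg (inv_nonneg.2 (Pool.Agent.H373R2.T7.Vz_pos z).le) _
  unfold gz
  split_ifs
  · exact hV
  · have : ∏ p ∈ (pz z).filter (fun p => ¬ p ∣ q), (1 - (nuf σ h p : ℝ) / p) ≤ 1 := by
      apply prod_le_one
      · intro p hp
        rw [mem_filter, Pool.Agent.H373R2.T7.mem_pz] at hp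
        have hp0 : (0 : ℝ) < p := by exact_mod_cast hp.1.2.pos
        rw [sub_nonneg, div_le_one hp0]
        unfold nuf
        exact_mod_cast (card_filter_le _ _).trans (by rw [card_range])
      · intro p _
        have : (0 : ℝ) ≤ (nuf σ h p : ℝ) / p := by positivity
        linarith
    calc _ ≤ ((Vz z)⁻¹) ^ k * 1 := mul_le_mul_of_nonneg_left this hV
      _ = _ := mul_one _

lemma pt (K z n q r x s : ℕ) (L V c g : ℝ) (hq : 1 ≤ q) (hr : r < q) (hs : s ≤ K) (ht : x + s < n)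
    (hM : |∑ m ∈ (Ioc x (x + s)).filter (fun m => m % q = r % q), ∏ i, lz z (sG i * m + hG n i) - (s : ℝ) / q * g| ≤ V)
    (hg : |g - q * c| ≤ L) :
    |PPw n q r x s - s * c| ≤ ww K n q r x + |Ef z n q r x s| + V + (K : ℝ) / q * L := by
  have hq0 : (0 : ℝ) < q := by exact_mod_cast hq
  have h1 := pp_le K n q r x s hs ht
  have h2 : Ef z n q r x s = ∑ m ∈ (Ioc x (x + s)).filter (fun m => m % q = r), lamI (m : ℤ) * lamI ((n : ℤ) - m) -
      ∑ m ∈ (Ioc x (x + s)).filter (fun m => m % q = r), ∏ i, lz z (sG i * m + hG n i) := by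
    unfold Ef
    rw [sum_sub_distrib, model_sum z n q r x s ht]
  rw [Nat.mod_eq_of_lt hr] at hM
  have h3 : |(s : ℝ) / q * g - s * c| ≤ (K : ℝ) / q * L := by
    have e : (s : ℝ) / q * g - s * c = (s : ℝ) / q * (g - q * c) := by
      field_simp
    rw [e, abs_mul, abs_of_nonneg (by positivity)]
    have hsK : (s : ℝ) ≤ K := by exact_mod_cast hs
    have hL : 0 ≤ L := (abs_nonneg _).trans hg
    exact mul_le_mul (div_le_div_of_nonneg_right hsK hq0.le) hg (abs_nonneg _) (by positivity)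
  have e : PPw n q r x s - s * c = (PPw n q r x s - ∑ m ∈ (Ioc x (x + s)).filter (fun m => m % q = r), lamI (m : ℤ) * lamI ((n : ℤ) - m)) +
      Ef z n q r x s + (∑ m ∈ (Ioc x (x + s)).filter (fun m => m % q = r), ∏ i, lz z (sG i * m + hG n i) - (s : ℝ) / q * g) +
      ((s : ℝ) / q * g - s * c) := by
    rw [h2]; ring
  rw [e]
  refine (abs_add_le _ _).trans (add_le_add ((abs_add_le _ _).trans (add_le_add ((abs_add_le _ _).trans (add_le_add h1 le_rfl)) hM)) h3)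

lemma sum_inv_le (Q N : ℕ) (hQ : Q ≤ N) : ∑ q ∈ Icc 1 Q, 1 / (q : ℝ) ≤ 1 + Real.log N := by
  have h1 : ∑ q ∈ Icc 1 Q, 1 / (q : ℝ) ≤ ∑ q ∈ Icc 1 N, 1 / (q : ℝ) :=
    sum_le_sum_of_subset_of_nonneg (Icc_subset_Icc_right hQ) (fun _ _ _ => by positivity)
  refine h1.trans ?_
  have h2 : ∑ n ∈ Icc 1 N, 1 / (n : ℝ) = ((harmonic N : ℚ) : ℝ) := by
    rw [harmonic_eq_sum_Icc]
    push_cast
    simp
  rw [h2]
  exact harmonic_le_one_add_log N

/-- summing up -/
lemma total (K X Q n x : ℕ) (hX : 1 ≤ X) (hK : 1 ≤ K) (hn1 : 1 ≤ n) (hn : n ≤ X) (hQ : Q ≤ X) (F : ℕ → Finset ℕ)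
    (hF : ∀ q, F q ⊆ range q) (a E : ℕ → ℕ → ℝ) (u v G : ℝ)
    (hx : ∀ q ∈ Icc 1 Q, ∀ r ∈ F q, |a q r| ≤ 12 * (ww K n q r x + |E q r| + u / q + v))
    (hE : ∑ q ∈ Icc 1 Q, ∑ r ∈ range q, E q r ^ 2 ≤ G) :
    ∑ q ∈ Icc 1 Q, ∑ r ∈ F q, a q r ^ 2 ≤
      576 * (Q * (64 * K * Real.log X ^ 6) + G + u ^ 2 * (1 + Real.log X) + (Q * v) ^ 2) := by
  have h1 : ∑ q ∈ Icc 1 Q, ∑ r ∈ F q, a q r ^ 2 ≤
      ∑ q ∈ Icc 1 Q, ∑ r ∈ range q, 576 * (ww K n q r x ^ 2 + E q r ^ 2 + (u / q) ^ 2 + v ^ 2) := by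
    apply sum_le_sum
    intro q hq
    calc ∑ r ∈ F q, a q r ^ 2 ≤ ∑ r ∈ F q, 576 * (ww K n q r x ^ 2 + E q r ^ 2 + (u / q) ^ 2 + v ^ 2) := by
          apply sum_le_sum
          intro r hr
          have h := hx q hq r hr
          have h0 := abs_nonneg (a q r)
          have e1 : a q r ^ 2 = |a q r| ^ 2 := (sq_abs _).symm
          have e2 : E q r ^ 2 = |E q r| ^ 2 := (sq_abs _).symm
          rw [e1, e2]
          refine (pow_le_pow_left₀ h0 h 2).trans ?_
          set a := ww K n q r x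
          set b := |E q r|
          set d := u / q
          nlinarith [sq_nonneg (a - b), sq_nonneg (a - d), sq_nonneg (a - v), sq_nonneg (b - d), sq_nonneg (b - v), sq_nonneg (d - v)]
      _ ≤ _ := sum_le_sum_of_subset_of_nonneg (hF q) (fun _ _ _ => by positivity)
  refine h1.trans ?_
  have h2 : ∑ q ∈ Icc 1 Q, ∑ r ∈ range q, 576 * (ww K n q r x ^ 2 + E q r ^ 2 + (u / q) ^ 2 + v ^ 2) =
      576 * (∑ q ∈ Icc 1 Q, ∑ r ∈ range q, ww K n q r x ^ 2 + ∑ q ∈ Icc 1 Q, ∑ r ∈ range q, E q r ^ 2 +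
        ∑ q ∈ Icc 1 Q, (q : ℝ) * (u / q) ^ 2 + ∑ q ∈ Icc 1 Q, (q : ℝ) * v ^ 2) := by
    rw [← sum_add_distrib, ← sum_add_distrib, ← sum_add_distrib, mul_sum]
    apply sum_congr rfl
    intro q _
    rw [← mul_sum, sum_add_distrib, sum_add_distrib, sum_add_distrib, sum_const, sum_const, card_range, nsmul_eq_mul, nsmul_eq_mul]
  rw [h2]
  apply mul_le_mul_of_nonneg_left _ (by norm_num)
  have a1 : ∑ q ∈ Icc 1 Q, ∑ r ∈ range q, ww K n q r x ^ 2 ≤ Q * (64 * K * Real.log X ^ 6) := by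
    calc _ ≤ ∑ q ∈ Icc 1 Q, (64 * K * Real.log X ^ 6) := sum_le_sum fun q hq => ww_sum K n X q x hX hK hn1 hn (mem_Icc.1 hq).1
      _ = _ := by rw [sum_const, Nat.card_Icc, nsmul_eq_mul, Nat.add_sub_cancel]
  have a3 : ∑ q ∈ Icc 1 Q, (q : ℝ) * (u / q) ^ 2 ≤ u ^ 2 * (1 + Real.log X) := by
    calc ∑ q ∈ Icc 1 Q, (q : ℝ) * (u / q) ^ 2 = ∑ q ∈ Icc 1 Q, u ^ 2 * (1 / (q : ℝ)) := by
          apply sum_congr rfl
          intro q hq
          have : (q : ℝ) ≠ 0 := by
            have := (mem_Icc.1 hq).1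
            positivity
          field_simp
      _ = u ^ 2 * ∑ q ∈ Icc 1 Q, (1 / (q : ℝ)) := by rw [mul_sum]
      _ ≤ _ := mul_le_mul_of_nonneg_left (sum_inv_le Q X hQ) (by positivity)
  have a4 : ∑ q ∈ Icc 1 Q, (q : ℝ) * v ^ 2 ≤ (Q * v) ^ 2 := by
    calc ∑ q ∈ Icc 1 Q, (q : ℝ) * v ^ 2 ≤ ∑ q ∈ Icc 1 Q, (Q : ℝ) * v ^ 2 := by
          apply sum_le_sum
          intro q hq
          have : (q : ℝ) ≤ Q := by exact_mod_cast (mem_Icc.1 hq).2
          exact mul_le_mul_of_nonneg_right this (by positivity)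
      _ = _ := by rw [sum_const, Nat.card_Icc, nsmul_eq_mul, Nat.add_sub_cancel]; ring
  linarith

lemma evN (A B1 : ℕ) (M : ℝ) : ∃ N5 : ℕ, ∀ N : ℕ, N5 ≤ N → 1 ≤ N ∧ 2304 ≤ Real.log N ∧
    (A + B1 + 10 : ℝ) ≤ Real.log (Real.log N) ∧ M ≤ Real.log N := by
  have hlim : Filter.Tendsto (fun N : ℕ => Real.log (N : ℝ)) Filter.atTop Filter.atTop :=
    Real.tendsto_log_atTop.comp (tendsto_natCast_atTop_atTop (R := ℝ))
  have h1 := hlim.eventually_ge_atTop 2304
  have h2 := (Real.tendsto_log_atTop.comp hlim).eventually_ge_atTop (A + B1 + 10 : ℝ)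
  have h3 := hlim.eventually_ge_atTop M
  obtain ⟨N0, h0⟩ := Filter.eventually_atTop.1 ((Filter.eventually_ge_atTop 1).and (h1.and (h2.and h3)))
  exact ⟨N0, fun N hN => h0 N hN⟩

lemma powcmp (L lK e : ℝ) (n : ℕ) (he : 0 < e) (hL0 : 0 ≤ L) (hL : e ^ (n + 1) ≤ L) (h : L / e ≤ lK) : L ^ n ≤ lK ^ (n + 1) := by
  have h1 : (L / e) ^ (n + 1) ≤ lK ^ (n + 1) := pow_le_pow_left₀ (by positivity) h _
  refine le_trans ?_ h1
  rw [div_pow, le_div_iff₀ (by positivity), pow_succ L n]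
  exact mul_le_mul_of_nonneg_left hL (by positivity)

theorem main : ∀ θ : ℝ, 0 ≤ θ → S_SGE θ → S_MTS → S_SRT → S_SLB → S_R15 θ := by
  intro θ hθ hGo hM hR _ e A he
  classical
  obtain ⟨E0, B1, hGo⟩ := hGo e (2 * A + 1) he
  obtain ⟨B2, N2, hM⟩ := hM 2 (E0 + A + 10 + 1 + 1) (A + 2 + 1)
  obtain ⟨N1, hGo⟩ := hGo (E0 + A + 10 + 1)
  obtain ⟨N3, hR⟩ := hR 2
  obtain ⟨N4, hV⟩ := Pool.Agent.H373R2.T7.Vz_inv_small (E0 + A + 10 + 1)
  obtain ⟨N5, h5⟩ := evN A B1 ((e : ℝ) ^ (E0 + A + 10 + 1 + 1) + (e : ℝ) ^ (A + 2 + 1) + e * (N2 + 1))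
  refine ⟨B2 + 1, N1 + N3 + N4 + N5, fun X hX K hK hKX => ?_⟩
  obtain ⟨hX1, hL, hl, hLe⟩ := h5 X (by omega)
  set L := Real.log X with hLdef
  set l := Real.log L with hldef
  have hL0 : 0 < L := by linarith
  have hX0 : (0 : ℝ) < X := by exact_mod_cast hX1
  have hX1' : (1 : ℝ) ≤ X := by exact_mod_cast hX1
  have hle : Real.exp l = L := Real.exp_log hL0
  -- the length of the window
  have he0 : (0 : ℝ) < e := by exact_mod_cast (by omega : 0 < e)
  have hep1 : (0 : ℝ) < (e : ℝ) ^ (E0 + A + 10 + 1 + 1) := by positivity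
  have hep2 : (0 : ℝ) < (e : ℝ) ^ (A + 2 + 1) := by positivity
  have hep3 : (0 : ℝ) ≤ e * (N2 + 1) := by positivity
  have hKe : Real.exp (L / e) ≤ K := by
    refine le_trans ?_ hK
    have h1 : Real.exp (L / e) = (X : ℝ) ^ (1 / e : ℝ) := by
      rw [Real.rpow_def_of_pos hX0]
      congr 1
      rw [hLdef]
      ring
    rw [h1]
    apply Real.rpow_le_rpow_of_exponent_le hX1'
    linarith
  have hLe1 : (N2 : ℝ) + 1 ≤ L / e := by
    rw [le_div_iff₀ he0]
    nlinarith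
  have hN2K : N2 ≤ K := by
    have h1 := Real.add_one_le_exp (L / e)
    have h2 : (N2 : ℝ) ≤ K := by linarith
    exact_mod_cast h2
  have hK0 : (0 : ℝ) < K := lt_of_lt_of_le (Real.exp_pos _) hKe
  have hK1 : 1 ≤ K := by exact_mod_cast hK0
  have hlK1 : L / e ≤ Real.log K := by
    rw [Real.le_log_iff_exp_le hK0]
    exact hKe
  have hlK2 : Real.log K ≤ L := Real.log_le_log hK0 (by exact_mod_cast hKX)
  have hlK3 : 1 ≤ Real.log K := by
    have : (0 : ℝ) ≤ N2 := Nat.cast_nonneg _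
    linarith
  have hpw1 : L ^ (E0 + A + 10 + 1) ≤ Real.log K ^ (E0 + A + 10 + 1 + 1) :=
    powcmp L (Real.log K) e (E0 + A + 10 + 1) he0 hL0.le (by linarith) hlK1
  have hpw2 : L ^ (A + 2) ≤ Real.log K ^ (A + 2 + 1) :=
    powcmp L (Real.log K) e (A + 2) he0 hL0.le (by linarith) hlK1
  -- the level
  set z : ℕ := ⌈L ^ (E0 + A + 10)⌉₊ with hzdef
  have hz1 : L ^ (E0 + A + 10) ≤ z := Nat.le_ceil _
  have hz2 : (z : ℝ) ≤ L ^ (E0 + A + 10 + 1) := by
    have h1 : (z : ℝ) < L ^ (E0 + A + 10) + 1 := Nat.ceil_lt_add_one (by positivity)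
    have h2 : 1 ≤ L ^ (E0 + A + 10) := one_le_pow₀ (by linarith)
    rw [pow_succ]
    nlinarith
  have hzE : L ^ E0 ≤ z := (pow_le_pow_right₀ (by linarith) (by omega)).trans hz1
  have hz3 : L ^ 3 ≤ z := (pow_le_pow_right₀ (by linarith) (by omega)).trans hz1
  have hzA : L ^ (A + 10) ≤ z := (pow_le_pow_right₀ (by linarith) (by omega)).trans hz1
  have hz0 : (0 : ℝ) < z := lt_of_lt_of_le (by positivity) hz3
  have hz1' : 1 ≤ z := by exact_mod_cast hz0
  have hVL : (Vz z)⁻¹ ≤ L := hV X (by omega) z hz1' hz2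
  have hV0 : 0 ≤ (Vz z)⁻¹ := inv_nonneg.2 (Pool.Agent.H373R2.T7.Vz_pos z).le
  -- the exponentials
  set x0 : ℝ := Real.exp (-(((B2 + 1 : ℕ) : ℝ) * l ^ 2)) with hx0def
  set v : ℝ := Real.exp (B2 * l ^ 2) with hv
  have hXv : x0 * v = Real.exp (-l ^ 2) := by
    rw [hx0def, hv, ← Real.exp_add]
    congr 1
    push_cast
    ring
  have hv1 : 1 ≤ v := Real.one_le_exp (by positivity)
  have hx00 : 0 < x0 := Real.exp_pos _
  have hXl : x0 ≤ Real.exp (-l ^ 2) := by
    rw [← hXv]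
    nlinarith
  have hl0 : 0 ≤ l := by
    have : (0 : ℝ) ≤ A + B1 + 10 := by positivity
    linarith
  have hpow : ∀ k : ℕ, (k : ℝ) ≤ l → Real.exp (-l ^ 2) * L ^ k ≤ 1 := by
    intro k hk
    have e1 : L ^ k = Real.exp (k * l) := by rw [Real.exp_nat_mul, hle]
    rw [e1, ← Real.exp_add]
    apply Real.exp_le_one_iff.2
    nlinarith
  have hx01 : x0 ≤ 1 := by
    have := hpow 0 (by push_cast; exact hl0)
    rw [pow_zero, mul_one] at this
    linarith
  have hvK : Real.exp (B2 * Real.log (Real.log K) ^ 2) ≤ v := by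
    rw [hv]
    apply Real.exp_le_exp.2
    apply mul_le_mul_of_nonneg_left _ (Nat.cast_nonneg _)
    apply pow_le_pow_left₀ (Real.log_nonneg hlK3)
    exact Real.log_le_log (by linarith) hlK2
  -- the maximal moduli
  set Q0 : ℕ := ⌊(K : ℝ) * x0⌋₊ with hQ0
  have hQ0X : (Q0 : ℝ) ≤ K * x0 := Nat.floor_le (by positivity)
  have hQ0B : (Q0 : ℝ) * L ^ B1 ≤ K := by
    have h1 : x0 * L ^ B1 ≤ 1 := by
      refine le_trans ?_ (hpow B1 (by have : (0 : ℝ) ≤ A := by positivity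
                                      linarith))
      exact mul_le_mul_of_nonneg_right hXl (by positivity)
    calc (Q0 : ℝ) * L ^ B1 ≤ K * x0 * L ^ B1 := mul_le_mul_of_nonneg_right hQ0X (by positivity)
      _ = K * (x0 * L ^ B1) := by ring
      _ ≤ K * 1 := mul_le_mul_of_nonneg_left h1 hK0.le
      _ = K := mul_one _
  -- worst initial segments
  have hmax : ∀ x n q r : ℕ, ∃ t : ℕ, t ≤ K ∧ ∀ t' ≤ K, |Ef z n q r x t'| ≤ |Ef z n q r x t| := by
    intro x n q r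
    obtain ⟨t, ht, h⟩ := exists_max_image (range (K + 1)) (fun t => |Ef z n q r x t|) ⟨0, by simp⟩
    exact ⟨t, by rw [mem_range] at ht; omega, fun t' ht' => h t' (by rw [mem_range]; omega)⟩
  choose ts hts hmax using hmax
  have hGG := hGo X (by omega) K hK hKX z hzE hz2 Q0 hQ0B ts hts
  set G : ℕ × ℕ → ℝ := fun w => ∑ q ∈ Icc 1 Q0, ∑ r ∈ range q, Ef z w.2 q r w.1 (ts w.1 w.2 q r) ^ 2 with hGdef
  have hGG' : ∑ w ∈ Icc 1 X ×ˢ Icc 1 X, G w ≤ (X : ℝ) ^ 2 * (K : ℝ) ^ 2 / L ^ (2 * A + 1) := by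
    rw [sum_product]
    exact hGG
  have hG0 : ∀ w, 0 ≤ G w := fun w => sum_nonneg fun q _ => sum_nonneg fun r _ => sq_nonneg _
  -- the good pairs
  have hgood : ∀ w ∈ Icc 1 X ×ˢ Icc 1 X, G w ≤ (K : ℝ) ^ 2 / L ^ (A + 1) → Good15 A (B2 + 1) X K w.1 w.2 := by
    rintro ⟨x, n⟩ hw hGn Q hQ y hy
    rw [mem_product, mem_Icc, mem_Icc] at hw
    obtain ⟨⟨hxa, hxb⟩, hn1, hn2⟩ := hw
    simp only at hxa hxb hn1 hn2 ⊢
    have hQQ0 : Q ≤ Q0 := Nat.le_floor hQ
    have hQK : Q ≤ K := by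
      have : (Q : ℝ) ≤ K := by
        refine hQ.trans ?_
        calc (K : ℝ) * x0 ≤ K * 1 := mul_le_mul_of_nonneg_left hx01 hK0.le
          _ = K := mul_one _
      exact_mod_cast this
    set u : ℝ := (K : ℝ) / L ^ (A + 2) + 2 * K * L ^ 4 / z with hu
    have hc : ∀ q ∈ Icc 1 Q, ∀ r ∈ (range q).filter (fun r : ℕ => r.Coprime q ∧ Int.gcd ((n : ℤ) - r) q = 1),
        |((cntG n q r (x + y q r) : ℝ) - cntG n q r x) - sers sG (hG n) / phf sG (hG n) q *
          (expG n (x + y q r) - expG n x)| ≤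
        12 * (ww K n q r x + |Ef z n q r x (ts x n q r)| + u / q + v) := by
      intro q hq r hr
      rw [mem_Icc] at hq
      rw [mem_filter, mem_range] at hr
      obtain ⟨hr1, hr2, hr3⟩ := hr
      have hq0 : (0 : ℝ) < q := by exact_mod_cast hq.1
      have hσ : ∀ i, sG i = 1 ∨ sG i = -1 := by
        rw [Fin.forall_fin_two]
        simp [sG]
      have hh : ∀ i, |hG n i| ≤ (X : ℤ) := by
        rw [Fin.forall_fin_two]
        simp only [hG, Matrix.cons_val_zero, Matrix.cons_val_one, abs_zero]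
        refine ⟨by omega, ?_⟩
        rw [abs_of_nonneg (by omega)]
        omega
      have hne : ∀ i j, i ≠ j → sG i * hG n j ≠ sG j * hG n i := by
        rw [Fin.forall_fin_two]
        rw [Fin.forall_fin_two, Fin.forall_fin_two]
        simp only [sG, hG, Matrix.cons_val_zero, Matrix.cons_val_one]
        refine ⟨⟨fun h => absurd rfl h, fun _ => by omega⟩, fun _ => by omega, fun h => absurd rfl h⟩
      have hgcd : ∀ i, Int.gcd (sG i * r + hG n i) q = 1 := by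
        rw [Fin.forall_fin_two]
        simp only [sG, hG, Matrix.cons_val_zero, Matrix.cons_val_one]
        constructor
        · rw [one_mul, add_zero, Int.gcd_natCast_natCast]
          exact hr2
        · rw [show (-1 : ℤ) * r + n = (n : ℤ) - r by ring]
          exact hr3
      obtain ⟨hs0, hp0, hgs⟩ := hR X (by omega) sG (hG n) hσ hh hne z hz3 q r hq.1 (by omega) hgcd
      have hp0' : (0 : ℝ) < phf sG (hG n) q := by exact_mod_cast hp0
      set g := gz z sG (hG n) q r with hg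
      set c : ℝ := sers sG (hG n) / phf sG (hG n) q with hc
      have hqc : sers sG (hG n) * ((q : ℝ) / phf sG (hG n) q) = q * c := by
        rw [hc]
        field_simp
      have hc0 : 0 ≤ c := div_nonneg hs0 hp0'.le
      rw [hqc] at hgs
      have hz2L : L ^ 2 / z ≤ 1 / 2 := by
        rw [div_le_iff₀ hz0]
        nlinarith [sq_nonneg L]
      have hg2 : g ≤ L ^ 2 := by
        refine (gz_le z sG (hG n) q r).trans ?_
        exact pow_le_pow_left₀ hV0 hVL 2
      have hs2 : q * c ≤ 2 * L ^ 2 := by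
        have h1 : q * c * (L ^ 2 / z) ≤ q * c * (1 / 2) := mul_le_mul_of_nonneg_left hz2L (by positivity)
        have h2 := (abs_le.1 hgs).1
        linarith
      have hgs2 : |g - q * c| ≤ 2 * L ^ 2 * (L ^ 2 / z) :=
        hgs.trans (mul_le_mul_of_nonneg_right hs2 (by positivity))
      have hD : ∀ s, s ≤ y q r → x + s < n → |PPw n q r x s - s * c| ≤
          ww K n q r x + |Ef z n q r x (ts x n q r)| + ((K : ℝ) / q / L ^ (A + 2) + v) +
            (K : ℝ) / q * (2 * L ^ 2 * (L ^ 2 / z)) := by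
        intro s hs hsn
        have hsK : s ≤ K := hs.trans (hy q r)
        have h1 := hM K hN2K z hz1' (hz2.trans hpw1) sG (hG n) hσ x q r s hq.1 hsK
        have h1' : (K : ℝ) / q / Real.log K ^ (A + 2 + 1) + Real.exp (B2 * Real.log (Real.log K) ^ 2) ≤
            (K : ℝ) / q / L ^ (A + 2) + v :=
          add_le_add (div_le_div_of_nonneg_left (by positivity) (by positivity) hpw2) hvK
        have h2 := pt K z n q r x s (2 * L ^ 2 * (L ^ 2 / z)) _ c g hq.1 hr1 hsK hsn (h1.trans h1') hgs2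
        have h3 := hmax x n q r s hsK
        linarith
      have hD0 : 0 ≤ ww K n q r x + |Ef z n q r x (ts x n q r)| + ((K : ℝ) / q / L ^ (A + 2) + v) +
            (K : ℝ) / q * (2 * L ^ 2 * (L ^ 2 / z)) := by
        have := ww_nonneg K n q r x
        have := abs_nonneg (Ef z n q r x (ts x n q r))
        positivity
      refine (cnt_le n q r x (y q r) c _ hxa hD hD0).trans ?_
      apply mul_le_mul_of_nonneg_left _ (by norm_num)
      have hu2 : u / q = (K : ℝ) / q / L ^ (A + 2) + (K : ℝ) / q * (2 * L ^ 2 * (L ^ 2 / z)) := by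
        rw [hu]
        field_simp
      rw [hu2]
      linarith
    have ht := total K X Q n x hX1 hK1 hn1 hn2 (hQK.trans hKX)
      (fun q => (range q).filter (fun r : ℕ => r.Coprime q ∧ Int.gcd ((n : ℤ) - r) q = 1)) (fun q => filter_subset _ _)
      (fun q r => ((cntG n q r (x + y q r) : ℝ) - cntG n q r x) - sers sG (hG n) / phf sG (hG n) q *
          (expG n (x + y q r) - expG n x))
      (fun q r => Ef z n q r x (ts x n q r)) u v ((K : ℝ) ^ 2 / L ^ (A + 1)) hc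
      (by
        refine le_trans ?_ hGn
        apply sum_le_sum_of_subset_of_nonneg (Icc_subset_Icc_right hQQ0)
        intro _ _ _
        exact sum_nonneg fun r _ => sq_nonneg _)
    refine ht.trans ?_
    rw [← hLdef]
    have hA1 : 0 < L ^ (A + 1) := by positivity
    have hA8 : Real.exp (-l ^ 2) ≤ 1 / L ^ (A + 8) := by
      rw [le_div_iff₀ (by positivity)]
      refine hpow (A + 8) ?_
      push_cast
      have : (0 : ℝ) ≤ B1 := by positivity
      linarith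
    have hQX : (Q : ℝ) ≤ K * x0 := hQ
    set W : ℝ := (K : ℝ) ^ 2 / L ^ (A + 1) with hW
    have hW0 : 0 < W := by positivity
    have b1 : (Q : ℝ) * (64 * K * L ^ 6) ≤ W := by
      calc (Q : ℝ) * (64 * K * L ^ 6) ≤ (K * (1 / L ^ (A + 8))) * (64 * K * L ^ 6) := by
            apply mul_le_mul_of_nonneg_right _ (by positivity)
            exact hQX.trans (mul_le_mul_of_nonneg_left (hXl.trans hA8) hK0.le)
        _ = W * (64 / L) := by
            rw [hW]
            rw [show A + 8 = (A + 1) + 7 by ring, pow_add]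
            field_simp
        _ ≤ W * 1 := by
            apply mul_le_mul_of_nonneg_left _ hW0.le
            rw [div_le_one hL0]
            linarith
        _ = W := mul_one _
    have hu3 : u ≤ 2 * (K : ℝ) / L ^ (A + 2) := by
      have c1 : 2 * (K : ℝ) * L ^ 4 / z ≤ (K : ℝ) / L ^ (A + 2) := by
        rw [div_le_div_iff₀ hz0 (by positivity)]
        have : 2 * L ^ 4 * L ^ (A + 2) ≤ z := by
          refine le_trans ?_ hzA
          rw [show A + 10 = 4 + (4 + (A + 2)) by ring, pow_add L 4, pow_add L 4]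
          have e4 : 2 ≤ L ^ 4 := by
            calc (2 : ℝ) ≤ 2304 := by norm_num
              _ ≤ L := hL
              _ ≤ L ^ 4 := le_self_pow₀ (by linarith) (by norm_num)
          have e5 : 0 ≤ L ^ 4 * L ^ (A + 2) := by positivity
          nlinarith
        nlinarith
      have c3 : 2 * (K : ℝ) / L ^ (A + 2) = (K : ℝ) / L ^ (A + 2) + (K : ℝ) / L ^ (A + 2) := by ring
      rw [hu, c3]
      linarith
    have hu0 : 0 ≤ u := by positivity
    have b3 : u ^ 2 * (1 + L) ≤ W := by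
      calc u ^ 2 * (1 + L) ≤ (2 * (K : ℝ) / L ^ (A + 2)) ^ 2 * (2 * L) := by
            apply mul_le_mul (pow_le_pow_left₀ hu0 hu3 2) (by linarith) (by linarith) (by positivity)
        _ = W * (8 / L ^ (A + 2)) := by
            rw [hW]
            rw [show A + 2 = (A + 1) + 1 by ring, pow_succ L (A + 1)]
            field_simp
            ring
        _ ≤ W * 1 := by
            apply mul_le_mul_of_nonneg_left _ hW0.le
            rw [div_le_one (by positivity)]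
            calc (8 : ℝ) ≤ L := by linarith
              _ ≤ L ^ (A + 2) := le_self_pow₀ (by linarith) (by omega)
        _ = W := mul_one _
    have b4 : ((Q : ℝ) * v) ^ 2 ≤ W := by
      have d1 : (Q : ℝ) * v ≤ K * Real.exp (-l ^ 2) := by
        calc (Q : ℝ) * v ≤ K * x0 * v := mul_le_mul_of_nonneg_right hQX (by linarith)
          _ = K * (x0 * v) := by ring
          _ = _ := by rw [hXv]
      have d2 : Real.exp (-l ^ 2) ≤ 1 := Real.exp_le_one_iff.2 (by nlinarith [sq_nonneg l])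
      have d3 : Real.exp (-l ^ 2) ≤ 1 / L ^ (A + 1) := by
        refine hA8.trans ?_
        apply one_div_le_one_div_of_le hA1
        exact pow_le_pow_right₀ (by linarith) (by omega)
      calc ((Q : ℝ) * v) ^ 2 ≤ (K * Real.exp (-l ^ 2)) ^ 2 := pow_le_pow_left₀ (by positivity) d1 2
        _ = K ^ 2 * (Real.exp (-l ^ 2) * Real.exp (-l ^ 2)) := by ring
        _ ≤ K ^ 2 * (1 / L ^ (A + 1) * 1) := by
            apply mul_le_mul_of_nonneg_left _ (by positivity)
            exact mul_le_mul d3 d2 (Real.exp_pos _).le (by positivity)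
        _ = W := by rw [hW]; ring
    calc 576 * ((Q : ℝ) * (64 * K * L ^ 6) + W + u ^ 2 * (1 + L) + (Q * v) ^ 2) ≤ 576 * (W + W + W + W) := by linarith
      _ = 2304 * W := by ring
      _ ≤ L * W := mul_le_mul_of_nonneg_right hL hW0.le
      _ = (K : ℝ) ^ 2 / L ^ A := by
          rw [hW, pow_succ L A]
          field_simp
  -- Markov
  have hsub : (Icc 1 X ×ˢ Icc 1 X).filter (fun w : ℕ × ℕ => ¬ Good15 A (B2 + 1) X K w.1 w.2) ⊆
      (Icc 1 X ×ˢ Icc 1 X).filter (fun w => (K : ℝ) ^ 2 / L ^ (A + 1) < G w) := by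
    intro w hw
    rw [mem_filter] at hw ⊢
    refine ⟨hw.1, ?_⟩
    by_contra h
    exact hw.2 (hgood w hw.1 (not_lt.1 h))
  have hmk : (((Icc 1 X ×ˢ Icc 1 X).filter (fun w => (K : ℝ) ^ 2 / L ^ (A + 1) < G w)).card : ℝ) * ((K : ℝ) ^ 2 / L ^ (A + 1)) ≤
      (X : ℝ) ^ 2 * (K : ℝ) ^ 2 / L ^ (2 * A + 1) := by
    refine le_trans ?_ hGG'
    rw [← nsmul_eq_mul, ← sum_const]
    calc _ ≤ ∑ w ∈ (Icc 1 X ×ˢ Icc 1 X).filter (fun w => (K : ℝ) ^ 2 / L ^ (A + 1) < G w), G w :=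
          sum_le_sum fun w hw => (mem_filter.1 hw).2.le
      _ ≤ _ := sum_le_sum_of_subset_of_nonneg (filter_subset _ _) (fun w _ _ => hG0 w)
  have hcard : (((Icc 1 X ×ˢ Icc 1 X).filter (fun w : ℕ × ℕ => ¬ Good15 A (B2 + 1) X K w.1 w.2)).card : ℝ) ≤
      (((Icc 1 X ×ˢ Icc 1 X).filter (fun w => (K : ℝ) ^ 2 / L ^ (A + 1) < G w)).card : ℝ) := by
    exact_mod_cast card_le_card hsub
  have hfin : (((Icc 1 X ×ˢ Icc 1 X).filter (fun w => (K : ℝ) ^ 2 / L ^ (A + 1) < G w)).card : ℝ) ≤ (X : ℝ) ^ 2 / L ^ A := by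
    have hpos : 0 < (K : ℝ) ^ 2 / L ^ (A + 1) := by positivity
    rw [← mul_le_mul_iff_left₀ hpos]
    refine hmk.trans (le_of_eq ?_)
    rw [show 2 * A + 1 = A + (A + 1) by ring, pow_add]
    field_simp
  convert hcard.trans hfin using 3

end Pool.Agent.helper24_UT.R15
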