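import Pool.Agent.helper24_UT.Stm8

/-!
# Project UT (helper24): primes at almost all systems of polynomials

Part 9: the final statements.
-/

set_option autoImplicit false

namespace Pool.Agent.helper24_UT

open Finset Polynomial

/-- `∑_{i ≥ 0} |g_{i + 1}| y ^ i` -/
noncomputable def slope (g : ℤ[X]) (y : ℕ) : ℝ :=
  ∑ i ∈ range g.natDegree, |(g.coeff (i + 1) : ℝ)| * (y : ℝ) ^ i

/-- no prime divides all the products of the values -/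
def NoFix {k : ℕ} (f : Fin k → ℤ[X]) : Prop := ∀ p : ℕ, p.Prime → ∃ n : ℤ, ∀ i, ¬ (p : ℤ) ∣ (f i).eval n

open Classical in
/-- the number of `1 ≤ n ≤ y` for which all `|f_i(n)|` are prime -/
noncomputable def pcount {k : ℕ} (f : Fin k → ℤ[X]) (y : ℕ) : ℕ :=
  ((Icc 1 y).filter (fun n : ℕ => ∀ i, ((f i).eval (n : ℤ)).natAbs.Prime)).card

/-- `∑_{n ≤ y} ∏ 1 / log f_i(n)` -/
noncomputable def lsum {k : ℕ} (f : Fin k → ℤ[X]) (y : ℕ) : ℝ :=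
  ∑ n ∈ Icc 1 y, ∏ i, 1 / Real.log (((f i).eval (n : ℤ) : ℤ) : ℝ)

/-- the asymptotic formula for all lengths in the range -/
def GoodS {k : ℕ} (A B E H : ℕ) (Q R : Fin k → ℕ) (G f : Fin k → ℤ[X]) : Prop :=
  ∀ y : ℕ, Real.log H ^ B ≤ y →
    (∀ i, (Q i : ℝ) * y * Real.log H ^ B ≤ (R i : ℝ) ^ 2 ∧ slope (G i) y * Real.log H ^ B ≤ Q i) →
    (∀ i, ∀ n ∈ Icc 1 y, 3 ≤ (f i).eval (n : ℤ)) ∧
    |(pcount f y : ℝ) - sg ⌊Real.log H ^ E⌋₊ f * lsum f y| ≤ sg ⌊Real.log H ^ E⌋₊ f * lsum f y / Real.log H ^ A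

open Classical in
/-- (50) systems of polynomials whose two lowest coefficients vary -/
def S_R1 : Prop := ∀ k r e A : ℕ, 1 ≤ k → 1 ≤ e → ∃ E₀ B : ℕ, ∀ E : ℕ, E₀ ≤ E → ∃ H₀ : ℕ, ∀ H : ℕ, H₀ ≤ H →
  ∀ Q R : Fin k → ℕ, (∀ i, Rg e H (Q i) (R i)) → ∀ G : Fin k → ℤ[X], (∀ i, (G i).natDegree ≤ r ∧ (G i).coeff 0 = 0) →
  (((Bq Q R).filter (fun v => NoFix (pl G v) ∧ ¬ GoodS A B E H Q R G (pl G v))).card : ℝ) ≤ vq Q R / Real.log H ^ A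

/-- the hypotheses of the question on `a p - b q = c` -/
def Adm3 (a b : ℕ) (c : ℤ) : Prop :=
  1 ≤ a ∧ 1 ≤ b ∧ c ≠ 0 ∧ IsCoprime (a : ℤ) b ∧ IsCoprime (a : ℤ) c ∧ IsCoprime (b : ℤ) c ∧ ¬ (Odd a ∧ Odd b ∧ Odd c)

/-- the singular series of `a p - b q = c` -/
noncomputable def ser3 (a b : ℕ) (c : ℤ) : ℝ :=
  ∏' p : Nat.Primes, if ((p : ℕ) : ℤ) ∣ a * b * c then (1 - 1 / ((p : ℕ) : ℝ))⁻¹ else 1 - 1 / (((p : ℕ) : ℝ) - 1) ^ 2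

/-- the number of the prime solutions `(p, q)` of `a p - b q = c` with `q ≤ X` -/
noncomputable def cnt3 (a b : ℕ) (c : ℤ) (X : ℕ) : ℕ :=
  {x : ℕ × ℕ | x.1.Prime ∧ x.2.Prime ∧ (a : ℤ) * x.1 - b * x.2 = c ∧ x.2 ≤ X}.ncard

open Classical in
/-- the sum of `1 / (log m log n)` over all integral solutions of `a m - b n = c`, `m ≥ 2`, `2 ≤ n ≤ X` -/
noncomputable def ex3 (a b : ℕ) (c : ℤ) (X : ℕ) : ℝ :=
  ∑ n ∈ (Icc 2 X).filter (fun n : ℕ => (a : ℤ) ∣ c + b * n ∧ 2 * (a : ℤ) ≤ c + b * n),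
    1 / (Real.log (((c : ℝ) + b * n) / a) * Real.log n)

/-- the Hardy-Littlewood formula in the whole range -/
def Good3 (A B H M N a b : ℕ) (c : ℤ) : Prop :=
  ∀ X : ℕ, a * Real.log H ^ B ≤ X → X * Real.log H ^ B ≤ a * M → X * Real.log H ^ B ≤ a * N →
    |(cnt3 a b c X : ℝ) - ser3 a b c * ex3 a b c X| ≤ ser3 a b c * ex3 a b c X / Real.log H ^ A

/-- (51) the singular series of `a p - b q = c` and its partial products -/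
def S_SER3 : Prop := ∃ H₀ : ℕ, ∀ H : ℕ, H₀ ≤ H → ∀ (a b : ℕ) (c : ℤ) (p₀ q₀ : ℕ), Adm3 a b c → a ≤ H → b ≤ H →
  |c| ≤ (H : ℤ) ^ 2 → (a : ℤ) * p₀ - b * q₀ = c → ∀ z : ℕ, (Real.log H) ^ 3 ≤ z →
  NoFix (pl (fun _ : Fin 2 => 0) ![(b, p₀), (a, q₀)]) ∧ 0 < ser3 a b c ∧
  |sg z (pl (fun _ : Fin 2 => 0) ![(b, p₀), (a, q₀)]) - ser3 a b c| ≤ ser3 a b c * ((Real.log H) ^ 2 / z)

open Classical in
/-- (52) `a p - b q = c` for almost all triples -/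
def S_R3 : Prop := ∀ e A : ℕ, 1 ≤ e → ∃ B H₀ : ℕ, ∀ H : ℕ, H₀ ≤ H → ∀ M N : ℕ, (H : ℝ) ^ (1 / e : ℝ) ≤ M → M ≤ H →
  (H : ℝ) ^ (1 / e : ℝ) ≤ N → N ≤ H →
  (((Icc 1 M ×ˢ Icc 1 N ×ˢ Icc (-(M * N : ℤ)) (M * N)).filter (fun x : ℕ × ℕ × ℤ =>
    |x.2.2| ≤ x.1 * x.2.1 ∧ Adm3 x.1 x.2.1 x.2.2 ∧ ¬ Good3 A B H M N x.1 x.2.1 x.2.2)).card : ℝ) ≤
    ((M : ℝ) * N) ^ 2 / Real.log H ^ A

/-- the number of the primes `q ≤ y` for which all `|a_i + d_i q|` are prime -/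
noncomputable def cntP {k : ℕ} (a : Fin k → ℤ) (d : Fin k → ℕ) (y : ℕ) : ℕ :=
  {q : ℕ | q.Prime ∧ q ≤ y ∧ ∀ i, (a i + d i * q).natAbs.Prime}.ncard

/-- the expected number up to the singular series -/
noncomputable def exP {k : ℕ} (a : Fin k → ℤ) (d : Fin k → ℕ) (y : ℕ) : ℝ :=
  ∑ n ∈ Icc 2 y, 1 / Real.log n * ∏ i, 1 / Real.log (abs ((a i + d i * n : ℤ) : ℝ))

/-- the hypotheses: no local obstruction, no two proportional forms -/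
def AdmP {k : ℕ} (a : Fin k → ℤ) (d : Fin k → ℕ) : Prop :=
  (∀ i, a i ≠ 0) ∧ (∀ i j, i ≠ j → a i * d j ≠ a j * d i) ∧
    ∀ p : ℕ, p.Prime → ∃ n : ℤ, ¬ (p : ℤ) ∣ n ∧ ∀ i, ¬ (p : ℤ) ∣ a i + d i * n

open Classical in
/-- (53) primes `q` with all `a_i + d_i q` prime, for almost all `(a, d)` -/
def S_R2 : Prop := ∀ k e A m : ℕ, 1 ≤ k → 1 ≤ e → 1 ≤ m → ∃ B H₀ : ℕ, ∀ H : ℕ, H₀ ≤ H →
  ∀ Q R : Fin k → ℕ, (∀ i, Rg e H (Q i) (R i)) →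
  (((Fintype.piFinset (fun i => Icc (-(R i : ℤ)) (R i)) ×ˢ Fintype.piFinset (fun i => Icc 1 (Q i))).filter
    (fun x : (Fin k → ℤ) × (Fin k → ℕ) => AdmP x.1 x.2 ∧
      ¬ ∀ y : ℕ, Real.exp ((Real.log H) ^ (1 / m : ℝ)) ≤ y → (∀ i, (Q i : ℝ) * y * Real.log H ^ B ≤ (R i : ℝ) ^ 2) →
        |(cntP x.1 x.2 y : ℝ) - serp x.1 x.2 * exP x.1 x.2 y| ≤ serp x.1 x.2 * exP x.1 x.2 y / Real.log H ^ A)).card : ℝ) ≤
    vq Q R / Real.log H ^ A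

end Pool.Agent.helper24_UT
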