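/-
UT_SER3 (project UT of helper24), proved by helper816: the singular series of a p - b q = c and its partial products.
The number of zeros modulo p is 1 if p divides a b c and 2 otherwise; the factors are compared through their logarithms, the
tail over p > z is at most (8 log H + 4)/z.
-/
import Pool.Agent.helper24_UT.Stm9

set_option autoImplicit false

namespace Pool.Agent.helper24_UT.Ser3

open Finset Polynomial
open Pool.Agent.helper24_UT
open Pool.Agent.H376R2.MR (ch er DP FK)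

/-- roots of a linear congruence -/
lemma exists_unique_root {p : ℕ} (hp : p.Prime) (u v : ℤ) (hu : ¬ (p : ℤ) ∣ u) :
    ∃ t ∈ range p, (p : ℤ) ∣ u * (t : ℤ) + v ∧ ∀ t' ∈ range p, (p : ℤ) ∣ u * (t' : ℤ) + v → t' = t := by
  have := Fact.mk hp
  have hu' : (u : ZMod p) ≠ 0 := by
    rwa [Ne, ZMod.intCast_zmod_eq_zero_iff_dvd] 
  refine ⟨(-(v : ZMod p) / (u : ZMod p)).val, ?_, ?_, ?_⟩
  · rw [mem_range]; exact ZMod.val_lt _
  · rw [← ZMod.intCast_zmod_eq_zero_iff_dvd]
    push_cast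
    rw [ZMod.natCast_zmod_val]
    field_simp
    ring
  · intro t' ht' h
    rw [← ZMod.intCast_zmod_eq_zero_iff_dvd] at h
    push_cast at h
    have h1 : (t' : ZMod p) = -(v : ZMod p) / (u : ZMod p) := by
      field_simp
      linear_combination h
    rw [← h1, ZMod.val_natCast, Nat.mod_eq_of_lt (mem_range.mp ht')]

lemma om_pl (b a p₀ q₀ p : ℕ) : om (pl (fun _ : Fin 2 => 0) ![(b, p₀), (a, q₀)]) p =
    ((range p).filter (fun t : ℕ => (p : ℤ) ∣ (b : ℤ) * t + p₀ ∨ (p : ℤ) ∣ (a : ℤ) * t + q₀)).card := by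
  unfold om
  congr 1
  ext t
  simp only [mem_filter, mem_range, Fin.exists_fin_two, pl, eval_add, eval_mul, eval_C, eval_X,
    Matrix.cons_val_zero, Matrix.cons_val_one, eval_zero, zero_add]

lemma om_val {a b : ℕ} {c : ℤ} {p₀ q₀ : ℕ} (hA : Adm3 a b c) (he : (a : ℤ) * p₀ - b * q₀ = c) {p : ℕ} (hp : p.Prime) :
    om (pl (fun _ : Fin 2 => 0) ![(b, p₀), (a, q₀)]) p = if (p : ℤ) ∣ a * b * c then 1 else 2 := by
  obtain ⟨ha, hb, hc, hab, hac, hbc, hodd⟩ := hA
  have hpp : Prime (p : ℤ) := Nat.prime_iff_prime_int.mp hp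
  have hnu : ¬ IsUnit (p : ℤ) := hpp.not_isUnit
  have cop : ∀ {x y : ℤ}, IsCoprime x y → (p : ℤ) ∣ x → ¬ (p : ℤ) ∣ y := by
    intro x y h hx hy
    exact hnu (h.isUnit_of_dvd' hx hy)
  rw [om_pl]
  by_cases hpb : (p : ℤ) ∣ b
  · have hpa : ¬ (p : ℤ) ∣ a := fun h => cop hab h hpb
    have hpc : ¬ (p : ℤ) ∣ c := cop hbc hpb
    have h1 : (p : ℤ) ∣ a * b * c := Dvd.dvd.mul_right (Dvd.dvd.mul_left hpb _) _
    rw [if_pos h1]
    obtain ⟨t, ht, hd, huniq⟩ := exists_unique_root hp a q₀ hpa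
    rw [card_eq_one]
    refine ⟨t, ?_⟩
    ext s
    simp only [mem_filter, mem_singleton]
    constructor
    · rintro ⟨hs, h | h⟩
      · exfalso
        have : (p : ℤ) ∣ p₀ := by
          have := dvd_sub h (Dvd.dvd.mul_right hpb (s : ℤ))
          simpa using this
        apply hpc
        rw [← he]
        exact dvd_sub (Dvd.dvd.mul_left this _) (Dvd.dvd.mul_right hpb _)
      · exact huniq s hs h
    · rintro rfl
      exact ⟨ht, Or.inr hd⟩
  · by_cases hpa : (p : ℤ) ∣ a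
    · have hpc : ¬ (p : ℤ) ∣ c := cop hac hpa
      have h1 : (p : ℤ) ∣ a * b * c := Dvd.dvd.mul_right (Dvd.dvd.mul_right hpa _) _
      rw [if_pos h1]
      obtain ⟨t, ht, hd, huniq⟩ := exists_unique_root hp b p₀ hpb
      rw [card_eq_one]
      refine ⟨t, ?_⟩
      ext s
      simp only [mem_filter, mem_singleton]
      constructor
      · rintro ⟨hs, h | h⟩
        · exact huniq s hs h
        · exfalso
          have : (p : ℤ) ∣ q₀ := by
            have := dvd_sub h (Dvd.dvd.mul_right hpa (s : ℤ))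
            simpa using this
          apply hpc
          rw [← he]
          exact dvd_sub (Dvd.dvd.mul_right hpa _) (Dvd.dvd.mul_left this _)
      · rintro rfl
        exact ⟨ht, Or.inl hd⟩
    · obtain ⟨t, ht, hd, huniq⟩ := exists_unique_root hp b p₀ hpb
      obtain ⟨t', ht', hd', huniq'⟩ := exists_unique_root hp a q₀ hpa
      have hset : (range p).filter (fun t : ℕ => (p : ℤ) ∣ (b : ℤ) * t + p₀ ∨ (p : ℤ) ∣ (a : ℤ) * t + q₀) = {t, t'} := by
        ext s
        simp only [mem_filter, mem_insert, mem_singleton]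
        constructor
        · rintro ⟨hs, h | h⟩
          · exact Or.inl (huniq s hs h)
          · exact Or.inr (huniq' s hs h)
        · rintro (rfl | rfl)
          · exact ⟨ht, Or.inl hd⟩
          · exact ⟨ht', Or.inr hd'⟩
      rw [hset]
      by_cases hpc : (p : ℤ) ∣ c
      · have h1 : (p : ℤ) ∣ a * b * c := Dvd.dvd.mul_left hpc _
        rw [if_pos h1]
        have htt : t = t' := by
          apply huniq' t ht
          have h2 : (p : ℤ) ∣ b * ((a : ℤ) * t + q₀) := by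
            have : (b : ℤ) * ((a : ℤ) * t + q₀) = a * ((b : ℤ) * t + p₀) - c := by rw [← he]; ring
            rw [this]
            exact dvd_sub (Dvd.dvd.mul_left hd _) hpc
          exact (hpp.dvd_or_dvd h2).resolve_left hpb
        rw [htt]; simp
      · have h1 : ¬ (p : ℤ) ∣ a * b * c := by
          intro h
          rcases hpp.dvd_or_dvd h with h | h
          · rcases hpp.dvd_or_dvd h with h | h
            · exact hpa h
            · exact hpb h
          · exact hpc h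
        rw [if_neg h1]
        have htt : t ≠ t' := by
          intro h
          apply hpc
          rw [← h] at hd'
          have : c = a * ((b : ℤ) * t + p₀) - b * ((a : ℤ) * t + q₀) := by rw [← he]; ring
          rw [this]
          exact dvd_sub (Dvd.dvd.mul_left hd _) (Dvd.dvd.mul_left hd' _)
        exact card_pair htt

lemma two_dvd {a b : ℕ} {c : ℤ} (hA : Adm3 a b c) : ((2 : ℕ) : ℤ) ∣ a * b * c := by
  obtain ⟨ha, hb, hc, hab, hac, hbc, hodd⟩ := hA
  by_contra h
  apply hodd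
  have h1 : ¬ (2 : ℤ) ∣ a := fun h' => h (by rw [Nat.cast_ofNat]; exact Dvd.dvd.mul_right (Dvd.dvd.mul_right h' _) _)
  have h2 : ¬ (2 : ℤ) ∣ b := fun h' => h (by rw [Nat.cast_ofNat]; exact Dvd.dvd.mul_right (Dvd.dvd.mul_left h' _) _)
  have h3 : ¬ (2 : ℤ) ∣ c := fun h' => h (by rw [Nat.cast_ofNat]; exact Dvd.dvd.mul_left h' _)
  refine ⟨?_, ?_, ?_⟩
  · rw [← Nat.not_even_iff_odd, even_iff_two_dvd]; intro h'; exact h1 (by exact_mod_cast h')
  · rw [← Nat.not_even_iff_odd, even_iff_two_dvd]; intro h'; exact h2 (by exact_mod_cast h')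
  · rw [← Int.not_even_iff_odd, even_iff_two_dvd]; exact h3

lemma nofix {a b : ℕ} {c : ℤ} {p₀ q₀ : ℕ} (hA : Adm3 a b c) (he : (a : ℤ) * p₀ - b * q₀ = c) :
    NoFix (pl (fun _ : Fin 2 => 0) ![(b, p₀), (a, q₀)]) := by
  intro p hp
  have hom := om_val hA he hp
  have hlt : om (pl (fun _ : Fin 2 => 0) ![(b, p₀), (a, q₀)]) p < p := by
    rw [hom]
    split_ifs with h
    · exact hp.one_lt
    · have : p ≠ 2 := by
        rintro rfl
        exact h (two_dvd hA)
      have := hp.two_le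
      omega
  by_contra hcon
  push Not at hcon
  apply absurd hlt
  rw [not_lt]
  unfold om
  conv_lhs => rw [← card_range p]
  apply card_le_card
  intro t ht
  rw [mem_filter]
  exact ⟨ht, hcon t⟩

/-- the factor of the singular series -/
noncomputable def fac (P : ℤ) (p : ℕ) : ℝ :=
  if (p : ℤ) ∣ P then (1 - 1 / (p : ℝ))⁻¹ else 1 - 1 / ((p : ℝ) - 1) ^ 2

lemma fac_pos {P : ℤ} (h2 : ((2 : ℕ) : ℤ) ∣ P) {p : ℕ} (hp : p.Prime) : 0 < fac P p := by
  unfold fac
  have h2' : (2 : ℝ) ≤ p := by exact_mod_cast hp.two_le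
  split_ifs with h
  · have : 1 / (p : ℝ) ≤ 1 / 2 := one_div_le_one_div_of_le (by norm_num) h2'
    have : 0 < 1 - 1 / (p : ℝ) := by linarith
    positivity
  · have hne : p ≠ 2 := by rintro rfl; exact h h2
    have h3 : 3 ≤ p := by have := hp.two_le; omega
    have h3' : (3 : ℝ) ≤ p := by exact_mod_cast h3
    have : 1 / ((p : ℝ) - 1) ^ 2 ≤ 1 / 2 := by
      apply one_div_le_one_div_of_le (by norm_num)
      nlinarith
    linarith

lemma log_bound {x : ℝ} (h0 : 0 ≤ x) (h1 : x ≤ 1 / 2) : |Real.log (1 - x)| ≤ 2 * x := by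
  have hpos : 0 < 1 - x := by linarith
  have hle : Real.log (1 - x) ≤ 0 := Real.log_nonpos hpos.le (by linarith)
  rw [abs_of_nonpos hle]
  have := Real.one_sub_inv_le_log_of_pos hpos
  have h2 : (1 - x)⁻¹ ≤ 1 + 2 * x := by
    rw [inv_le_comm₀ hpos (by positivity)]
    rw [inv_le_comm₀ (by positivity) hpos] 
    rw [← one_div, div_le_iff₀ hpos]
    nlinarith
  linarith

lemma log_fac_bound {P : ℤ} {p : ℕ} (h3 : 3 ≤ p) : |Real.log (fac P p)| ≤ (if (p : ℤ) ∣ P then 2 / (p : ℝ) else 0) + 2 / ((p : ℝ) - 1) ^ 2 := by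
  unfold fac
  have h3' : (3 : ℝ) ≤ p := by exact_mod_cast h3
  split_ifs with h
  · rw [Real.log_inv, abs_neg]
    have h1 : 1 / (p : ℝ) ≤ 1 / 2 := one_div_le_one_div_of_le (by norm_num) (by linarith)
    have := log_bound (x := 1 / (p : ℝ)) (by positivity) h1
    have h4 : 2 * (1 / (p : ℝ)) = 2 / p := by ring
    have h5 : 0 ≤ 2 / ((p : ℝ) - 1) ^ 2 := by positivity
    linarith
  · have h1 : 1 / ((p : ℝ) - 1) ^ 2 ≤ 1 / 2 := by
      apply one_div_le_one_div_of_le (by norm_num)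
      nlinarith
    have := log_bound (x := 1 / ((p : ℝ) - 1) ^ 2) (by positivity) h1
    have h4 : 2 * (1 / ((p : ℝ) - 1) ^ 2) = 2 / ((p : ℝ) - 1) ^ 2 := by ring
    linarith

/-- the number of the large prime divisors -/
lemma card_bound {P : ℤ} (hP : P ≠ 0) {z N H : ℕ} (hz : 3 ≤ z) (hPH : P.natAbs ≤ H ^ 4) (hH : 1 ≤ H) :
    ((((Ioc z N).filter (fun m : ℕ => m.Prime ∧ (m : ℤ) ∣ P)).card : ℕ) : ℝ) ≤ 4 * Real.log H := by
  set T := (Ioc z N).filter (fun m : ℕ => m.Prime ∧ (m : ℤ) ∣ P) with hT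
  have h1 : ∏ m ∈ T, m ∣ P.natAbs := by
    apply Finset.prod_primes_dvd
    · intro m hm
      rw [hT, mem_filter] at hm
      exact hm.2.1.prime
    · intro m hm
      rw [hT, mem_filter] at hm
      exact Int.natCast_dvd.mp hm.2.2
  have h2 : z ^ T.card ≤ ∏ m ∈ T, m := by
    rw [← prod_const]
    apply prod_le_prod'
    intro m hm
    rw [hT, mem_filter, mem_Ioc] at hm
    exact hm.1.1.le
  have h3 : z ^ T.card ≤ H ^ 4 :=
    (h2.trans (Nat.le_of_dvd (Int.natAbs_pos.mpr hP) h1)).trans hPH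
  have hzr : (3 : ℝ) ≤ z := by exact_mod_cast hz
  have h4 : (T.card : ℝ) * Real.log z ≤ 4 * Real.log H := by
    have : Real.log ((z : ℝ) ^ T.card) ≤ Real.log ((H : ℝ) ^ 4) := by
      apply Real.log_le_log (by positivity)
      exact_mod_cast h3
    rw [Real.log_pow, Real.log_pow] at this
    exact_mod_cast this
  have h5 : 1 ≤ Real.log z := by
    rw [Real.le_log_iff_exp_le (by linarith)]
    have := Real.exp_one_lt_d9
    linarith
  have h6 : (0 : ℝ) ≤ T.card := Nat.cast_nonneg _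
  nlinarith

/-- the tail function -/
noncomputable def psi (P : ℤ) (n : ℕ) : ℝ := if n.Prime then Real.log (fac P n) else 0

lemma tail_bound {P : ℤ} (hP : P ≠ 0) {z H : ℕ} (hz : 3 ≤ z) (hPH : P.natAbs ≤ H ^ 4) (hH : 1 ≤ H) (N : ℕ) :
    ∑ n ∈ range N, |psi P (n + (z + 1))| ≤ (8 * Real.log H + 4) / z := by
  have hzr : (3 : ℝ) ≤ z := by exact_mod_cast hz
  have hz0 : (0 : ℝ) < z := by linarith
  have e1 : ∑ n ∈ range N, |psi P (n + (z + 1))| = ∑ m ∈ Ioc z (z + N), |psi P m| := by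
    rw [show Ioc z (z + N) = Ico (z + 1) (z + 1 + N) from by ext x; simp only [mem_Ioc, mem_Ico]; omega]
    rw [Finset.sum_Ico_eq_sum_range]
    have : z + 1 + N - (z + 1) = N := by omega
    rw [this]
    apply sum_congr rfl
    intro n _
    rw [add_comm n]
  rw [e1]
  have e2 : ∀ m ∈ Ioc z (z + N), |psi P m| ≤ (if m.Prime ∧ (m : ℤ) ∣ P then 2 / (z : ℝ) else 0) + 2 / ((m : ℝ) - 1) ^ 2 := by
    intro m hm
    rw [mem_Ioc] at hm
    have hmr : (z : ℝ) < m := by exact_mod_cast hm.1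
    unfold psi
    split_ifs with h1 h2 h2
    · have := log_fac_bound (P := P) (p := m) (by omega)
      rw [if_pos h2.2] at this
      have h5 : 2 / (m : ℝ) ≤ 2 / z := by
        apply div_le_div_of_nonneg_left (by norm_num) hz0 hmr.le
      linarith
    · have := log_fac_bound (P := P) (p := m) (by omega)
      rw [if_neg (fun h => h2 ⟨h1, h⟩)] at this
      exact this
    · exact absurd h2.1 h1
    · rw [abs_zero]; positivity
  refine (sum_le_sum e2).trans ?_
  rw [sum_add_distrib, ← sum_filter, sum_const, nsmul_eq_mul]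
  have h3 := card_bound hP (z := z) (N := z + N) hz hPH hH
  have h4 : ∑ m ∈ Ioc z (z + N), (2 : ℝ) / ((m : ℝ) - 1) ^ 2 ≤ 4 / (z : ℝ) := by
    have h5 : ∑ m ∈ Ioc z (z + N), (2 : ℝ) / ((m : ℝ) - 1) ^ 2 = 2 * ∑ m ∈ Ioo (z - 1) (z + N), ((m : ℝ) ^ 2)⁻¹ := by
      rw [mul_sum]
      symm
      apply sum_nbij' (fun m => m + 1) (fun m => m - 1)
      · intro m hm; simp only [mem_Ioo, mem_Ioc] at *; omega
      · intro m hm; simp only [mem_Ioo, mem_Ioc] at *; omega
      · intro m hm; simp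
      · intro m hm; simp only [mem_Ioc] at hm; omega
      · intro m hm; push_cast; rw [add_sub_cancel_right, div_eq_mul_inv]
    rw [h5]
    have h6 := sum_Ioo_inv_sq_le (α := ℝ) (z - 1) (z + N)
    have h7 : ((z - 1 : ℕ) : ℝ) + 1 = z := by
      rw [Nat.cast_sub (by omega)]; simp
    rw [h7] at h6
    calc 2 * ∑ m ∈ Ioo (z - 1) (z + N), ((m : ℝ) ^ 2)⁻¹ ≤ 2 * (2 / z) := by linarith
      _ = 4 / z := by ring
  have h8 : (#((Ioc z (z + N)).filter (fun m : ℕ => m.Prime ∧ (m : ℤ) ∣ P)) : ℝ) * (2 / z) ≤ 4 * Real.log H * (2 / z) := by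
    apply mul_le_mul_of_nonneg_right h3 (by positivity)
  calc _ ≤ 4 * Real.log H * (2 / z) + 4 / z := add_le_add h8 h4
    _ = (8 * Real.log H + 4) / z := by ring

lemma sg_eq {a b : ℕ} {c : ℤ} {p₀ q₀ : ℕ} (hA : Adm3 a b c) (he : (a : ℤ) * p₀ - b * q₀ = c) (z : ℕ) :
    sg z (pl (fun _ : Fin 2 => 0) ![(b, p₀), (a, q₀)]) = Real.exp (∑ n ∈ range (z + 1), psi (a * b * c) n) := by
  have h2 := two_dvd hA
  unfold sg
  rw [Real.exp_sum]
  have e1 : ∏ n ∈ range (z + 1), Real.exp (psi (a * b * c) n) = ∏ n ∈ Pool.Agent.H373R2.T7.pz z, Real.exp (psi (a * b * c) n) := by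
    symm
    apply prod_subset
    · intro p hp
      rw [Pool.Agent.H373R2.T7.pz, mem_filter, mem_Icc] at hp
      rw [mem_range]; omega
    · intro p hp hnp
      have : ¬ p.Prime := by
        intro h
        apply hnp
        rw [Pool.Agent.H373R2.T7.pz, mem_filter, mem_Icc]
        rw [mem_range] at hp
        exact ⟨⟨h.one_le, by omega⟩, h⟩
      rw [psi, if_neg this, Real.exp_zero]
  rw [e1]
  apply prod_congr rfl
  intro p hp
  rw [Pool.Agent.H373R2.T7.pz, mem_filter] at hp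
  have hpp := hp.2
  have h2' : (2 : ℝ) ≤ p := by exact_mod_cast hpp.two_le
  rw [psi, if_pos hpp, Real.exp_log (fac_pos h2 hpp), om_val hA he hpp]
  unfold fac
  have hp0 : (p : ℝ) ≠ 0 := by positivity
  have hp1 : (p : ℝ) - 1 ≠ 0 := by
    have : (0 : ℝ) < p - 1 := by linarith
    exact this.ne'
  split_ifs with h
  · have : 1 - 1 / (p : ℝ) ≠ 0 := by
      have h' : 1 - 1 / (p : ℝ) = ((p : ℝ) - 1) / p := by field_simp
      rw [h']; exact div_ne_zero hp1 hp0
    push_cast
    field_simp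
  · push_cast
    have : 1 - 1 / (p : ℝ) = ((p : ℝ) - 1) / p := by field_simp
    rw [this]
    field_simp
    ring

theorem main : S_SER3 := by
  refine ⟨⌈Real.exp 24⌉₊, ?_⟩
  intro H hH a b c p₀ q₀ hA haH hbH hcH he z hz
  have hexp : Real.exp 24 ≤ H := (Nat.le_ceil _).trans (by exact_mod_cast hH)
  have hHpos : (0 : ℝ) < H := (Real.exp_pos 24).trans_le hexp
  have hH1 : 1 ≤ H := by
    by_contra h
    have : H = 0 := by omega
    rw [this] at hHpos; simp at hHpos
  have hL : 24 ≤ Real.log H := by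
    rw [Real.le_log_iff_exp_le hHpos]; exact hexp
  set L := Real.log H with hLdef
  have hzL : L ^ 3 ≤ z := hz
  have hz3 : 3 ≤ z := by
    have : (3 : ℝ) ≤ z := by
      refine le_trans ?_ hzL
      nlinarith [pow_le_pow_left₀ (by norm_num : (0:ℝ) ≤ 24) hL 3]
    exact_mod_cast this
  have hz0 : (0 : ℝ) < z := by
    have : (0 : ℝ) < (3 : ℕ) := by norm_num
    exact this.trans_le (by exact_mod_cast hz3)
  have h2 := two_dvd hA
  refine ⟨nofix hA he, ?_⟩
  set P : ℤ := a * b * c with hPdef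
  have hP0 : P ≠ 0 := by
    obtain ⟨ha, hb, hc, -⟩ := hA
    rw [hPdef]
    have h1 : (a : ℤ) ≠ 0 := by exact_mod_cast (by omega : a ≠ 0)
    have h3 : (b : ℤ) ≠ 0 := by exact_mod_cast (by omega : b ≠ 0)
    exact mul_ne_zero (mul_ne_zero h1 h3) hc
  have hPH : P.natAbs ≤ H ^ 4 := by
    have : (P.natAbs : ℤ) ≤ (H : ℤ) ^ 4 := by
      rw [Int.natCast_natAbs, hPdef, abs_mul, abs_mul, Nat.abs_cast, Nat.abs_cast]
      have h1 : (a : ℤ) ≤ H := by exact_mod_cast haH
      have h3 : (b : ℤ) ≤ H := by exact_mod_cast hbH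
      have h4 : (0 : ℤ) ≤ (H : ℤ) := by positivity
      calc (a : ℤ) * b * |c| ≤ (H : ℤ) * H * (H : ℤ) ^ 2 := by
            apply mul_le_mul (mul_le_mul h1 h3 (by positivity) h4) hcH (abs_nonneg _) (by positivity)
        _ = (H : ℤ) ^ 4 := by ring
    exact_mod_cast this
  have htail := tail_bound hP0 hz3 hPH hH1
  have hsumabs : Summable (fun n => |psi P (n + (z + 1))|) :=
    summable_of_sum_range_le (fun n => abs_nonneg _) htail
  have hsum' : Summable (fun n => psi P (n + (z + 1))) := hsumabs.of_abs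
  have hsum : Summable (psi P) := (summable_nat_add_iff (z + 1)).mp hsum'
  have hser : ser3 a b c = Real.exp (∑' n, psi P n) := by
    have h1 : ∀ p : Nat.Primes, 0 < fac P (p : ℕ) := fun p => fac_pos h2 p.2
    have h3 : Summable (fun p : Nat.Primes => Real.log (fac P (p : ℕ))) := by
      have h4 : Summable (fun p : {n : ℕ // n.Prime} => psi P (p : ℕ)) := hsum.subtype {n : ℕ | n.Prime}
      refine h4.congr ?_
      intro p
      rw [psi, if_pos p.2]
    have h5 := Real.rexp_tsum_eq_tprod (f := fun p : Nat.Primes => fac P (p : ℕ)) h1 h3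
    have h6 : ser3 a b c = ∏' p : Nat.Primes, fac P (p : ℕ) := rfl
    rw [h6, ← h5]
    congr 1
    have h7 : ∑' p : ({n : ℕ | n.Prime} : Set ℕ), psi P (p : ℕ) = ∑' n, ({n : ℕ | n.Prime} : Set ℕ).indicator (psi P) n :=
      tsum_subtype _ _
    have h8 : ({n : ℕ | n.Prime} : Set ℕ).indicator (psi P) = psi P := by
      ext n
      by_cases hn : n.Prime
      · rw [Set.indicator_of_mem (by exact hn)]
      · rw [Set.indicator_of_notMem (by exact hn), psi, if_neg hn]
    rw [h8] at h7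
    rw [← h7]
    apply tsum_congr
    intro p
    rw [psi, if_pos p.2]
  have hserpos : 0 < ser3 a b c := by rw [hser]; exact Real.exp_pos _
  refine ⟨hserpos, ?_⟩
  rw [sg_eq hA he z]
  have hsplit := hsum.sum_add_tsum_nat_add (z + 1)
  set S := ∑' n, psi P (n + (z + 1)) with hS
  have hSb : |S| ≤ (8 * L + 4) / z := by
    calc |S| ≤ ∑' n, |psi P (n + (z + 1))| := by
          rw [hS]
          have := norm_tsum_le_tsum_norm (f := fun n => psi P (n + (z + 1))) (by simpa [Real.norm_eq_abs] using hsumabs)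
          simpa [Real.norm_eq_abs] using this
      _ ≤ (8 * L + 4) / z := hsumabs.tsum_le_of_sum_range_le htail
  have h9 : ∑ n ∈ range (z + 1), psi P n = ∑' n, psi P n - S := by linarith
  have h9' : Real.exp (∑' n, psi P n - S) = Real.exp (∑' n, psi P n) * Real.exp (-S) := by
    rw [← Real.exp_add, ← sub_eq_add_neg]
  rw [h9, hser, h9']
  set Q := Real.exp (∑' n, psi P n) with hQ
  have hQ0 : 0 < Q := Real.exp_pos _
  have h10 : Q * Real.exp (-S) - Q = Q * (Real.exp (-S) - 1) := by ring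
  rw [h10, abs_mul, abs_of_pos hQ0]
  apply mul_le_mul_of_nonneg_left _ hQ0.le
  have hL0 : 0 < L := by linarith
  have h11 : (8 * L + 4) / z ≤ 1 := by
    rw [div_le_one hz0]
    refine le_trans ?_ hzL
    nlinarith [mul_pos hL0 hL0, mul_pos (mul_pos hL0 hL0) hL0, sq_nonneg (L - 24)]
  have h12 : |-S| ≤ 1 := by rw [abs_neg]; linarith
  have h13 := Real.abs_exp_sub_one_le h12
  rw [abs_neg] at h13
  have h14 : 2 * |S| ≤ L ^ 2 / z := by
    calc 2 * |S| ≤ 2 * ((8 * L + 4) / z) := by linarith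
      _ = (16 * L + 8) / z := by ring
      _ ≤ L ^ 2 / z := by
        apply div_le_div_of_nonneg_right _ hz0.le
        nlinarith
  linarith

end Pool.Agent.helper24_UT.Ser3
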