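import Pool.Agent.helper24_UT.Stm15

/-! Project UT (helper24), step SYS5: from one linear form to systems, boxes `b ≤ Q_i`, `c ≤ R_i`, range `Q_i T ≤ R_i ^ (3 - ε)`. -/

set_option autoImplicit false

namespace Pool.Agent.helper24_UT.Sys5

open Finset Polynomial
open Pool.Agent.helper24_UT
open Pool.Agent.H373R2.T7 (lamI lamzI lamz Vz pz lamP)
open Pool.Agent.H807R2.Dav (ee)

/-- averaging over one coordinate -/
lemma avg {k : ℕ} (Q R : Fin k → ℕ) (i : Fin k) (F : (Fin k → ℕ × ℕ) → ℝ) :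
    ((Q i : ℝ) * R i) * ∑ v ∈ Bq Q R, F v =
      ∑ v ∈ Bq Q R, ∑ x ∈ Icc 1 (Q i) ×ˢ Icc 1 (R i), F (Function.update v i x) := by
  have h1 : ∑ v ∈ Bq Q R, ∑ x ∈ Icc 1 (Q i) ×ˢ Icc 1 (R i), F (Function.update v i x) =
      ∑ v ∈ Bq Q R, ∑ _x ∈ Icc 1 (Q i) ×ˢ Icc 1 (R i), F v := by
    rw [← sum_product', ← sum_product']
    refine sum_nbij' (fun p => (Function.update p.1 i p.2, p.1 i))
      (fun p => (Function.update p.1 i p.2, p.1 i)) ?_ ?_ ?_ ?_ ?_
    · rintro ⟨v, x⟩ hp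
      rw [mem_product] at hp ⊢
      obtain ⟨hv, hx⟩ := hp
      simp only [Bq, Fintype.mem_piFinset] at hv ⊢
      refine ⟨fun j => ?_, hv i⟩
      by_cases hj : j = i
      · subst hj; simpa using hx
      · rw [Function.update_of_ne hj]; exact hv j
    · rintro ⟨v, x⟩ hp
      rw [mem_product] at hp ⊢
      obtain ⟨hv, hx⟩ := hp
      simp only [Bq, Fintype.mem_piFinset] at hv ⊢
      refine ⟨fun j => ?_, hv i⟩
      by_cases hj : j = i
      · subst hj; simpa using hx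
      · rw [Function.update_of_ne hj]; exact hv j
    · rintro ⟨v, x⟩ _
      simp
    · rintro ⟨v, x⟩ _
      simp
    · rintro ⟨v, x⟩ _
      rfl
  rw [h1, mul_sum]
  refine sum_congr rfl fun v _ => ?_
  rw [sum_const, card_product, Nat.card_Icc, Nat.card_Icc, nsmul_eq_mul, Nat.add_sub_cancel,
    Nat.add_sub_cancel]
  push_cast
  ring

lemma card_Bq {k : ℕ} (Q R : Fin k → ℕ) : ((Bq Q R).card : ℝ) = vq Q R := by
  unfold Bq vq
  rw [Fintype.card_piFinset]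
  push_cast
  refine prod_congr rfl fun i _ => ?_
  rw [card_product, Nat.card_Icc, Nat.card_Icc]
  simp

/-- bounds for the values -/
lemma vl_le {k H T : ℕ} {Q R : Fin k → ℕ} (hR : ∀ i, R i ≤ H) (hR1 : 1 ≤ H)
    (hTH : ∀ i, Q i * T ≤ H ^ 3)
    {v : Fin k → ℕ × ℕ} (hv : v ∈ Bq Q R) (i : Fin k) {n : ℕ} (hn : n ∈ Icc 1 T) :
    |vl (fun _ _ => (0 : ℤ)) v i n| ≤ 10 * (H : ℤ) ^ 3 := by
  have hv' := (Fintype.mem_piFinset.1 hv) i
  rw [mem_product, mem_Icc, mem_Icc] at hv'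
  obtain ⟨⟨_, h1⟩, _, h2⟩ := hv'
  rw [mem_Icc] at hn
  have e1 : ((v i).1 : ℤ) * n ≤ (H : ℤ) ^ 3 := by
    exact_mod_cast (Nat.mul_le_mul h1 hn.2).trans (hTH i)
  have h2' : ((v i).2 : ℤ) ≤ H := by exact_mod_cast h2.trans (hR i)
  have h20 : (0 : ℤ) ≤ (v i).2 := by positivity
  have e1' : (0 : ℤ) ≤ ((v i).1 : ℤ) * n := by positivity
  unfold vl
  have hH : (1 : ℤ) ≤ H := by exact_mod_cast hR1
  have e3 : (H : ℤ) ≤ (H : ℤ) ^ 3 := le_self_pow₀ hH (by norm_num)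
  rw [abs_le]
  constructor
  · linarith
  · linarith

lemma lamI_le {H : ℕ} (hH : 3 ≤ Real.log H) {m : ℤ} (hm : |m| ≤ 10 * (H : ℤ) ^ 3) :
    lamI m ≤ 4 * Real.log H := by
  have hH0 : (H : ℝ) ≠ 0 := by
    intro h
    rw [h, Real.log_zero] at hH
    linarith
  have hHp : (0 : ℝ) < H := lt_of_le_of_ne (Nat.cast_nonneg _) (Ne.symm hH0)
  unfold lamI
  split_ifs with h
  · refine ArithmeticFunction.vonMangoldt_le_log.trans ?_
    have h1 : ((m.toNat : ℕ) : ℝ) ≤ 10 * (H : ℝ) ^ 3 := by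
      have e1 : ((m.toNat : ℕ) : ℤ) = m := Int.toNat_of_nonneg (by omega)
      have e2 : (m : ℤ) ≤ 10 * (H : ℤ) ^ 3 := (le_abs_self m).trans hm
      rw [← e1] at e2
      exact_mod_cast e2
    have h0 : (0 : ℝ) < ((m.toNat : ℕ) : ℝ) := by
      have : 0 < m.toNat := by omega
      exact_mod_cast this
    have h2 := Real.log_le_log h0 h1
    rw [Real.log_mul (by norm_num) (by positivity), Real.log_pow] at h2
    have h3 : Real.log 10 ≤ 3 := by
      rw [Real.log_le_iff_le_exp (by norm_num)]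
      have h4 : (2.7182818283 : ℝ) < Real.exp 1 := Real.exp_one_gt_d9
      have h5 : Real.exp 3 = Real.exp 1 ^ 3 := by rw [← Real.exp_nat_mul]; norm_num
      rw [h5]
      have h6 : (2.7 : ℝ) ^ 3 ≤ Real.exp 1 ^ 3 := pow_le_pow_left₀ (by norm_num) (by linarith) 3
      norm_num at h6 ⊢
      linarith
    push_cast at h2
    linarith
  · linarith

lemma lamzI_le' {L : ℝ} (hL : 0 ≤ L) {z : ℕ} (hz : (Vz z)⁻¹ ≤ L) (m : ℤ) : lamzI z m ≤ 4 * L := by
  unfold lamzI lamz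
  split_ifs
  · linarith
  · linarith
  · linarith

/-- the coefficient belonging to the form number `i` -/
noncomputable def GG {k : ℕ} (g : Fin k → ℕ → ℤ) (z : ℕ) (v : Fin k → ℕ × ℕ) (i : Fin k) (n : ℕ) : ℝ :=
  (∏ j ∈ univ.filter (fun j => j < i), lamI (vl g v j n)) *
    ∏ j ∈ univ.filter (fun j => i < j), lamzI z (vl g v j n)

lemma tele {k : ℕ} (g : Fin k → ℕ → ℤ) (z : ℕ) (v : Fin k → ℕ × ℕ) (n : ℕ) :
    ∏ i, lamI (vl g v i n) - ∏ i, lamzI z (vl g v i n) = ∑ i, GG g z v i n * Ed z (vl g v i n) := by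
  have h := prod_add_ordered univ (fun i => lamzI z (vl g v i n))
    (fun i => lamI (vl g v i n) - lamzI z (vl g v i n))
  simp only [add_sub_cancel] at h
  rw [h, add_sub_cancel_left]
  refine sum_congr rfl fun i _ => ?_
  unfold GG Ed
  ring

lemma vl_update {k : ℕ} (g : Fin k → ℕ → ℤ) (v : Fin k → ℕ × ℕ) (i : Fin k) (x : ℕ × ℕ) {j : Fin k} (h : j ≠ i)
    (n : ℕ) : vl g (Function.update v i x) j n = vl g v j n := by
  unfold vl
  rw [Function.update_of_ne h]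

lemma vl_update_self {k : ℕ} (g : Fin k → ℕ → ℤ) (v : Fin k → ℕ × ℕ) (i : Fin k) (x : ℕ × ℕ)
    (n : ℕ) : vl g (Function.update v i x) i n = (x.1 : ℤ) * n + x.2 + g i n := by
  unfold vl
  rw [Function.update_self]

lemma GG_update {k : ℕ} (g : Fin k → ℕ → ℤ) (z : ℕ) (v : Fin k → ℕ × ℕ) (i : Fin k) (x : ℕ × ℕ) (n : ℕ) :
    GG g z (Function.update v i x) i n = GG g z v i n := by
  unfold GG
  congr 1
  · refine prod_congr rfl fun j hj => ?_
    rw [mem_filter] at hj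
    rw [vl_update g v i x hj.2.ne]
  · refine prod_congr rfl fun j hj => ?_
    rw [mem_filter] at hj
    rw [vl_update g v i x hj.2.ne']

lemma GG_bd {k : ℕ} (g : Fin k → ℕ → ℤ) (z : ℕ) (v : Fin k → ℕ × ℕ) (i : Fin k) (n : ℕ) {P : ℝ} (hP : 1 ≤ P)
    (h1 : ∀ j, lamI (vl g v j n) ≤ P) (h2 : ∀ j, lamzI z (vl g v j n) ≤ P) :
    0 ≤ GG g z v i n ∧ GG g z v i n ≤ P ^ (2 * k) := by
  have a1 : ∀ j, 0 ≤ lamI (vl g v j n) := fun j => Pool.Agent.H373R2.T7.lamI_nonneg _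
  have a2 : ∀ j, 0 ≤ lamzI z (vl g v j n) := fun j => Pool.Agent.H373R2.T7.lamzI_nonneg _ _
  unfold GG
  refine ⟨mul_nonneg (prod_nonneg fun j _ => a1 j) (prod_nonneg fun j _ => a2 j), ?_⟩
  have hc : ∀ s : Finset (Fin k), s.card ≤ k := fun s => by
    simpa using card_le_univ s
  rw [two_mul, pow_add]
  refine mul_le_mul ?_ ?_ (prod_nonneg fun j _ => a2 j) (by positivity)
  · refine (prod_le_prod (fun j _ => a1 j) (fun j _ => h1 j)).trans ?_
    rw [prod_const]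
    exact pow_le_pow_right₀ hP (hc _)
  · refine (prod_le_prod (fun j _ => a2 j) (fun j _ => h2 j)).trans ?_
    rw [prod_const]
    exact pow_le_pow_right₀ hP (hc _)

theorem main : S_UT5 → S_SYS5 := by
  intro hUT k e A he
  rcases Nat.eq_zero_or_pos k with hk | hk
  · subst hk
    refine ⟨0, 0, fun E₁ => ⟨0, fun H _ T _ Q R _ z _ _ w _ => ?_⟩⟩
    have h1 : ∀ v ∈ Bq Q R, (∑ n ∈ Icc 1 T, w n * (∏ i, lamI (vl (fun _ _ => 0) v i n) -
        ∏ i, lamzI z (vl (fun _ _ => 0) v i n))) ^ 2 = 0 := by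
      intro v _
      simp
    rw [sum_congr rfl h1, sum_const_zero]
    have h2 : 0 ≤ Real.log H := Real.log_natCast_nonneg H
    have h3 : 0 ≤ vq Q R := prod_nonneg fun i _ => by positivity
    positivity
  obtain ⟨E₀, B, h⟩ := hUT e (A + 4 * k + 2) he
  refine ⟨E₀, B, fun E₁ => ?_⟩
  obtain ⟨H₀, h⟩ := h E₁
  obtain ⟨N0, hN⟩ := Pool.Agent.H373R2.T7.Vz_inv_small E₁
  refine ⟨max (max H₀ N0) (⌈Real.exp ((k : ℝ) ^ 2 * 256 ^ k + 3)⌉₊ + 1),
    fun H hH T hT1 Q R hQR z hz1 hz2 w hw => ?_⟩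
  have hH1 : H₀ ≤ H := le_trans (le_trans (le_max_left _ _) (le_max_left _ _)) hH
  have hH2 : N0 ≤ H := le_trans (le_trans (le_max_right _ _) (le_max_left _ _)) hH
  have hH3 : ⌈Real.exp ((k : ℝ) ^ 2 * 256 ^ k + 3)⌉₊ + 1 ≤ H := le_trans (le_max_right _ _) hH
  have hH4 : Real.exp ((k : ℝ) ^ 2 * 256 ^ k + 3) ≤ H := by
    refine (Nat.le_ceil _).trans ?_
    exact_mod_cast (Nat.le_succ _).trans hH3
  have hH5 : 1 ≤ H := by omega
  have hH6 : (1 : ℝ) ≤ H := by exact_mod_cast hH5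
  have hL' : (k : ℝ) ^ 2 * 256 ^ k + 3 ≤ Real.log H := by
    rw [Real.le_log_iff_exp_le (by linarith)]; exact hH4
  have hk0 : 0 ≤ (k : ℝ) ^ 2 * 256 ^ k := by positivity
  have hL3 : 3 ≤ Real.log H := by linarith
  have hL1 : 1 ≤ Real.log H := by linarith
  have hLk : (k : ℝ) ^ 2 * 256 ^ k ≤ Real.log H := by linarith
  have hRH : ∀ i, R i ≤ H := fun i => (hQR i).1.2.2
  have hQ1 : ∀ i, 1 ≤ Q i := by
    intro i
    have h1 : (1 : ℝ) ≤ Q i := (Real.one_le_rpow hH6 (by positivity)).trans (hQR i).1.1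
    exact_mod_cast h1
  have hR1 : ∀ i, 1 ≤ R i := fun i => (hQ1 i).trans (hQR i).1.2.1
  have hTH : ∀ i, Q i * T ≤ H ^ 3 := by
    intro i
    have hr1 : (1 : ℝ) ≤ R i := by exact_mod_cast hR1 i
    have hrH : (R i : ℝ) ≤ H := by exact_mod_cast hRH i
    have h1 : (Q i : ℝ) * T ≤ (H : ℝ) ^ 3 := by
      calc (Q i : ℝ) * T ≤ (R i : ℝ) ^ (3 - 1 / e : ℝ) := (hQR i).2.2
        _ ≤ (R i : ℝ) ^ (3 : ℝ) := Real.rpow_le_rpow_of_exponent_le hr1 (by
            have : (0 : ℝ) ≤ 1 / e := by positivity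
            linarith)
        _ = (R i : ℝ) ^ 3 := by
            rw [show (3 : ℝ) = ((3 : ℕ) : ℝ) by norm_num, Real.rpow_natCast]
        _ ≤ (H : ℝ) ^ 3 := pow_le_pow_left₀ (by linarith) hrH 3
    exact_mod_cast h1
  have hz : 1 ≤ z := by
    have h1 : (1 : ℝ) ≤ z := (one_le_pow₀ hL1).trans hz1
    exact_mod_cast h1
  have hV := hN H hH2 z hz hz2
  have hh := fun i => h H hH1 (Q i) (R i) T z (hQR i).1 hT1 (hQR i).2 hz1 hz2 0 (by simp)
  clear hN h
  set L := Real.log H with hLdef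
  set P : ℝ := 4 * L with hPdef
  set g : Fin k → ℕ → ℤ := fun _ _ => 0 with hgdef
  have hP1 : 1 ≤ P := by linarith
  have hPp : 0 < P ^ (2 * k) := by positivity
  have hvq0 : 0 ≤ vq Q R := prod_nonneg fun i _ => by positivity
  -- one form
  have hone : ∀ i : Fin k, ∑ v ∈ Bq Q R, (∑ n ∈ Icc 1 T, w n * (GG g z v i n * Ed z (vl g v i n))) ^ 2 ≤
      (P ^ (2 * k)) ^ 2 * (vq Q R * (T : ℝ) ^ 2 / L ^ (A + 4 * k + 2)) := by
    intro i
    have hav := avg Q R i (fun v => (∑ n ∈ Icc 1 T, w n * (GG g z v i n * Ed z (vl g v i n))) ^ 2)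
    have hin : ∀ v ∈ Bq Q R, ∑ x ∈ Icc 1 (Q i) ×ˢ Icc 1 (R i),
        (∑ n ∈ Icc 1 T, w n * (GG g z (Function.update v i x) i n * Ed z (vl g (Function.update v i x) i n))) ^ 2 ≤
        (P ^ (2 * k)) ^ 2 * ((Q i : ℝ) * R i * (T : ℝ) ^ 2 / L ^ (A + 4 * k + 2)) := by
      intro v hv
      have hw' : ∀ n, |(fun n => if n ∈ Icc 1 T then w n * (GG g z v i n / P ^ (2 * k)) else 0) n| ≤ 1 := by
        intro n
        simp only
        split_ifs with hn
        · have hb := GG_bd g z v i n hP1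
            (fun j => lamI_le hL3 (vl_le hRH hH5 hTH hv j hn)) (fun j => lamzI_le' (by linarith) hV _)
          rw [abs_mul, abs_of_nonneg (div_nonneg hb.1 hPp.le)]
          have h1 : GG g z v i n / P ^ (2 * k) ≤ 1 := (div_le_one hPp).2 hb.2
          calc |w n| * (GG g z v i n / P ^ (2 * k)) ≤ 1 * 1 :=
                mul_le_mul (hw n) h1 (div_nonneg hb.1 hPp.le) zero_le_one
            _ = 1 := one_mul 1
        · simp
      have h2 := hh i (fun n => if n ∈ Icc 1 T then w n * (GG g z v i n / P ^ (2 * k)) else 0) hw'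
      rw [sum_product]
      calc ∑ b ∈ Icc 1 (Q i), ∑ c ∈ Icc 1 (R i), (∑ n ∈ Icc 1 T, w n *
              (GG g z (Function.update v i (b, c)) i n * Ed z (vl g (Function.update v i (b, c)) i n))) ^ 2
          = ∑ b ∈ Icc 1 (Q i), ∑ c ∈ Icc 1 (R i), (P ^ (2 * k)) ^ 2 * (∑ n ∈ Icc 1 T,
              (if n ∈ Icc 1 T then w n * (GG g z v i n / P ^ (2 * k)) else 0) * Ed z ((b : ℤ) * n + c + g i n)) ^ 2 := by
            refine sum_congr rfl fun b _ => sum_congr rfl fun c _ => ?_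
            rw [← mul_pow, mul_sum]
            congr 1
            refine sum_congr rfl fun n hn => ?_
            rw [GG_update, vl_update_self, if_pos hn]
            field_simp
        _ = (P ^ (2 * k)) ^ 2 * ∑ b ∈ Icc 1 (Q i), ∑ c ∈ Icc 1 (R i), (∑ n ∈ Icc 1 T,
              (if n ∈ Icc 1 T then w n * (GG g z v i n / P ^ (2 * k)) else 0) * Ed z ((b : ℤ) * n + c + g i n)) ^ 2 := by
            rw [mul_sum]
            refine sum_congr rfl fun b _ => ?_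
            rw [mul_sum]
        _ ≤ _ := mul_le_mul_of_nonneg_left h2 (by positivity)
    have hsum := sum_le_sum hin
    rw [← hav, sum_const, nsmul_eq_mul, card_Bq] at hsum
    have hr1 : (1 : ℝ) ≤ R i := by exact_mod_cast hR1 i
    have hq1 : (1 : ℝ) ≤ Q i := by exact_mod_cast hQ1 i
    have hH20 : (0 : ℝ) < (Q i : ℝ) * R i := by positivity
    refine le_of_mul_le_mul_left (hsum.trans (le_of_eq ?_)) hH20
    ring
  -- all forms
  have hcs : ∀ v, (∑ n ∈ Icc 1 T, w n * (∏ i, lamI (vl g v i n) - ∏ i, lamzI z (vl g v i n))) ^ 2 ≤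
      k * ∑ i, (∑ n ∈ Icc 1 T, w n * (GG g z v i n * Ed z (vl g v i n))) ^ 2 := by
    intro v
    have e1 : ∑ n ∈ Icc 1 T, w n * (∏ i, lamI (vl g v i n) - ∏ i, lamzI z (vl g v i n)) =
        ∑ i, ∑ n ∈ Icc 1 T, w n * (GG g z v i n * Ed z (vl g v i n)) := by
      rw [sum_comm]
      refine sum_congr rfl fun n _ => ?_
      rw [tele, mul_sum]
    rw [e1]
    have := sq_sum_le_card_mul_sum_sq (s := (univ : Finset (Fin k)))
      (f := fun i => ∑ n ∈ Icc 1 T, w n * (GG g z v i n * Ed z (vl g v i n)))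
    simpa using this
  have hLp : (0 : ℝ) < L := by linarith
  calc ∑ v ∈ Bq Q R, (∑ n ∈ Icc 1 T, w n * (∏ i, lamI (vl g v i n) - ∏ i, lamzI z (vl g v i n))) ^ 2
      ≤ ∑ v ∈ Bq Q R, k * ∑ i, (∑ n ∈ Icc 1 T, w n * (GG g z v i n * Ed z (vl g v i n))) ^ 2 :=
        sum_le_sum fun v _ => hcs v
    _ = k * ∑ i : Fin k, ∑ v ∈ Bq Q R, (∑ n ∈ Icc 1 T, w n * (GG g z v i n * Ed z (vl g v i n))) ^ 2 := by
        rw [← mul_sum, sum_comm]
    _ ≤ k * ∑ _i : Fin k, (P ^ (2 * k)) ^ 2 * (vq Q R * (T : ℝ) ^ 2 / L ^ (A + 4 * k + 2)) := by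
        refine mul_le_mul_of_nonneg_left (sum_le_sum fun i _ => hone i) (Nat.cast_nonneg k)
    _ = ((k : ℝ) ^ 2 * 256 ^ k) * (L ^ (4 * k) * (vq Q R * (T : ℝ) ^ 2 / L ^ (A + 4 * k + 2))) := by
        rw [sum_const, card_univ, Fintype.card_fin, nsmul_eq_mul]
        have e1 : (P ^ (2 * k)) ^ 2 = 256 ^ k * L ^ (4 * k) := by
          rw [hPdef, ← pow_mul, mul_pow]
          congr 1
          · rw [show 2 * k * 2 = 4 * k by ring, pow_mul]; norm_num
          · congr 1; ring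
        rw [e1]
        ring
    _ ≤ L * (L ^ (4 * k) * (vq Q R * (T : ℝ) ^ 2 / L ^ (A + 4 * k + 2))) := by
        apply mul_le_mul_of_nonneg_right hLk
        positivity
    _ = (vq Q R * (T : ℝ) ^ 2 / L ^ A) * (1 / L) := by
        have e2 : L ^ (A + 4 * k + 2) = L ^ A * L ^ (4 * k) * L ^ 2 := by rw [pow_add, pow_add]
        rw [e2]
        field_simp
    _ ≤ (vq Q R * (T : ℝ) ^ 2 / L ^ A) * 1 := by
        apply mul_le_mul_of_nonneg_left _ (by positivity)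
        rw [div_le_one hLp]; exact hL1
    _ = _ := mul_one _

end Pool.Agent.helper24_UT.Sys5
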