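import Pool.Agent.helper24_UT.Stm9
import Pool.Agent.helper24_UT.Stm12

/-!
# Project UT (helper24), part 13: systems of linear forms `b_i n + c_i`, `b_i, c_i ≤ R_i`, in the range `n ≤ R_i ^ (2 - ε)`. Statements.
-/

set_option autoImplicit false

namespace Pool.Agent.helper24_UT

open Finset Polynomial
open Pool.Agent.H373R2.T7 (lamI lamzI lamz Vz pz lamP)

/-- (110) no correlation of the primes minus their model along `b n + c + s` with any bounded weights -/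
def S_UT4 : Prop := ∀ e A : ℕ, 1 ≤ e → ∃ E₀ B : ℕ, ∀ E₁ : ℕ, ∃ H₀ : ℕ, ∀ H : ℕ, H₀ ≤ H → ∀ R T z : ℕ,
  (H : ℝ) ^ (1 / e : ℝ) ≤ R → R ≤ H → (Real.log H) ^ B ≤ T → (T : ℝ) ≤ (R : ℝ) ^ (2 - 1 / e : ℝ) →
  (Real.log H) ^ E₀ ≤ z → (z : ℝ) ≤ (Real.log H) ^ E₁ → ∀ s : ℤ, |s| ≤ 8 * R → ∀ w : ℕ → ℝ, (∀ n, |w n| ≤ 1) →
  ∑ b ∈ Icc 1 R, ∑ c ∈ Icc 1 R, (∑ n ∈ Icc 1 T, w n * Ed z ((b : ℤ) * n + c + s)) ^ 2 ≤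
    (R : ℝ) ^ 2 * (T : ℝ) ^ 2 / (Real.log H) ^ A

/-- (111) the same for the Liouville function -/
def S_UTL4 : Prop := ∀ e A : ℕ, 1 ≤ e → ∃ B H₀ : ℕ, ∀ H : ℕ, H₀ ≤ H → ∀ R T : ℕ,
  (H : ℝ) ^ (1 / e : ℝ) ≤ R → R ≤ H → (Real.log H) ^ B ≤ T → (T : ℝ) ≤ (R : ℝ) ^ (2 - 1 / e : ℝ) →
  ∀ s : ℤ, |s| ≤ 8 * R → ∀ w : ℕ → ℝ, (∀ n, |w n| ≤ 1) →
  ∑ b ∈ Icc 1 R, ∑ c ∈ Icc 1 R, (∑ n ∈ Icc 1 T, w n * liI ((b : ℤ) * n + c + s)) ^ 2 ≤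
    (R : ℝ) ^ 2 * (T : ℝ) ^ 2 / (Real.log H) ^ A

/-- the sides `R_i` are comparable with `H` on the logarithmic scale and `T ≤ R_i ^ (2 - 1/e)` -/
def Rg4 {k : ℕ} (e H T : ℕ) (R : Fin k → ℕ) : Prop :=
  ∀ i, (H : ℝ) ^ (1 / e : ℝ) ≤ R i ∧ R i ≤ H ∧ (T : ℝ) ≤ (R i : ℝ) ^ (2 - 1 / e : ℝ)

/-- (112) mean square over all choices, one length -/
def S_SYS4 : Prop := ∀ k e A : ℕ, 1 ≤ e → ∃ E₀ B : ℕ, ∀ E₁ : ℕ, ∃ H₀ : ℕ, ∀ H : ℕ, H₀ ≤ H → ∀ T : ℕ,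
  (Real.log H) ^ B ≤ T → ∀ R : Fin k → ℕ, Rg4 e H T R → ∀ z : ℕ, (Real.log H) ^ E₀ ≤ z → (z : ℝ) ≤ (Real.log H) ^ E₁ →
  ∀ s : Fin k → ℤ, (∀ i, |s i| ≤ 8 * R i) → ∀ w : ℕ → ℝ, (∀ n, |w n| ≤ 1) →
  ∑ v ∈ Bq R R, (∑ n ∈ Icc 1 T, w n * (∏ i, lamI (vl (fun i _ => s i) v i n) - ∏ i, lamzI z (vl (fun i _ => s i) v i n))) ^ 2 ≤
    vq R R * (T : ℝ) ^ 2 / (Real.log H) ^ A

/-- (113) almost all choices, all lengths -/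
def S_ALL4 : Prop := ∀ k e A : ℕ, 1 ≤ e → ∃ E₀ B : ℕ, ∀ E₁ : ℕ, ∃ H₀ : ℕ, ∀ H : ℕ, H₀ ≤ H → ∀ T : ℕ,
  ∀ R : Fin k → ℕ, Rg4 e H T R → ∀ z : ℕ, (Real.log H) ^ E₀ ≤ z → (z : ℝ) ≤ (Real.log H) ^ E₁ →
  ∀ s : Fin k → ℤ, (∀ i, |s i| ≤ 8 * R i) → ∀ w : ℕ → ℝ, (∀ n, |w n| ≤ 1) →
  ∃ Bad : Finset (Fin k → ℕ × ℕ), Bad ⊆ Bq R R ∧ (Bad.card : ℝ) ≤ vq R R / (Real.log H) ^ A ∧
    ∀ v ∈ Bq R R, v ∉ Bad → ∀ y : ℕ, (Real.log H) ^ B ≤ y → y ≤ T →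
      |∑ n ∈ Icc 1 y, w n * (∏ i, lamI (vl (fun i _ => s i) v i n) - ∏ i, lamzI z (vl (fun i _ => s i) v i n))| ≤
        y / (Real.log H) ^ A

/-- (114) the Liouville function: almost all pairs, all lengths, complex weights -/
def S_ALLL4 : Prop := ∀ e A : ℕ, 1 ≤ e → ∃ B H₀ : ℕ, ∀ H : ℕ, H₀ ≤ H → ∀ R T : ℕ,
  (H : ℝ) ^ (1 / e : ℝ) ≤ R → R ≤ H → (T : ℝ) ≤ (R : ℝ) ^ (2 - 1 / e : ℝ) →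
  ∀ s : ℤ, |s| ≤ 4 * R → ∀ w : ℕ → ℂ, (∀ n, ‖w n‖ ≤ 1) →
  ∃ Bad : Finset (ℕ × ℕ), Bad ⊆ Icc 1 R ×ˢ Icc 1 R ∧ (Bad.card : ℝ) ≤ (R : ℝ) ^ 2 / (Real.log H) ^ A ∧
    ∀ x ∈ Icc 1 R ×ˢ Icc 1 R, x ∉ Bad → ∀ y : ℕ, (Real.log H) ^ B ≤ y → y ≤ T →
      ‖∑ n ∈ Icc 1 y, w n * ((liA ((x.1 : ℤ) * n + x.2 + s) : ℝ) : ℂ)‖ ≤ y / (Real.log H) ^ A

open Classical in
/-- (115) proper prime powers are rare among the values -/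
def S_PP4 : Prop := ∀ k e A : ℕ, 1 ≤ e → ∃ H₀ : ℕ, ∀ H : ℕ, H₀ ≤ H → ∀ (R : Fin k → ℕ) (T : ℕ),
  (∀ i, (H : ℝ) ^ (1 / e : ℝ) ≤ R i ∧ R i ≤ H ∧ (T : ℝ) ≤ (R i : ℝ) ^ 2) → ∀ s : Fin k → ℤ, (∀ i, |s i| ≤ 8 * R i) →
  ∃ Bad : Finset (Fin k → ℕ × ℕ), Bad ⊆ Bq R R ∧ (Bad.card : ℝ) ≤ vq R R / (Real.log H) ^ A ∧
    ∀ v ∈ Bq R R, v ∉ Bad → ∀ y : ℕ, 1 ≤ y → y ≤ T →
      (((Icc 1 y).filter (fun n => ∃ i, lamI (vl (fun i _ => s i) v i n) ≠ lamP (vl (fun i _ => s i) v i n))).card : ℝ) ≤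
        y / (Real.log H) ^ A

/-- (116) almost all systems of linear forms, all lengths, primes weighted by logarithms -/
def S_PSI4 : Prop := ∀ k e A : ℕ, 1 ≤ e → ∃ E₀ B : ℕ, ∀ E : ℕ, E₀ ≤ E → ∃ H₀ : ℕ, ∀ H : ℕ, H₀ ≤ H → ∀ T : ℕ,
  ∀ R : Fin k → ℕ, Rg4 e H T R →
  ∃ Bad : Finset (Fin k → ℕ × ℕ), Bad ⊆ Bq R R ∧ (Bad.card : ℝ) ≤ vq R R / (Real.log H) ^ A ∧
    ∀ v ∈ Bq R R, v ∉ Bad → (∀ i, (R i : ℝ) / (Real.log H) ^ (A + 1) ≤ (v i).1) ∧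
      ∀ y : ℕ, (Real.log H) ^ B ≤ y → y ≤ T →
      |∑ n ∈ Icc 1 y, ∏ i, lamP ((pl (fun _ => 0) v i).eval (n : ℤ)) - y * sg ⌊(Real.log H) ^ E⌋₊ (pl (fun _ => 0) v)| ≤
        y / (Real.log H) ^ A

/-- (117) the same for prime arguments, with shifts -/
def S_PSIP4 : Prop := ∀ k e A m : ℕ, 1 ≤ e → 1 ≤ m → ∃ E₀ : ℕ, ∀ E : ℕ, E₀ ≤ E → ∃ H₀ : ℕ, ∀ H : ℕ, H₀ ≤ H → ∀ T : ℕ, T ≤ H ^ 2 →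
  ∀ R : Fin k → ℕ, Rg4 e H T R → ∀ s : Fin k → ℤ, (∀ i, |s i| ≤ 8 * R i) →
  ∃ Bad : Finset (Fin k → ℕ × ℕ), Bad ⊆ Bq R R ∧ (Bad.card : ℝ) ≤ vq R R / (Real.log H) ^ A ∧
    ∀ v ∈ Bq R R, v ∉ Bad → (∀ i, (R i : ℝ) / (Real.log H) ^ (A + 1) ≤ (v i).1) ∧
      ∀ y : ℕ, Real.exp ((Real.log H) ^ (1 / m : ℝ)) ≤ y → y ≤ T →
      |∑ n ∈ Icc 1 y, lamP (n : ℤ) * ∏ i, lamP ((pl (fun i => C (s i)) v i).eval (n : ℤ)) -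
          y * sgp ⌊(Real.log H) ^ E⌋₊ (pl (fun i => C (s i)) v)| ≤ y / (Real.log H) ^ A

open Classical in
/-- (118) from the sums weighted by logarithms to the number of the primes (a deterministic statement) -/
def S_IN4 : Prop := ∀ k e A : ℕ, 1 ≤ e → ∃ A' : ℕ, A ≤ A' ∧ ∀ B₀ : ℕ, ∃ B H₀ : ℕ, B₀ ≤ B ∧ ∀ H : ℕ, H₀ ≤ H → ∀ y : ℕ,
  (Real.log H) ^ B ≤ y → y ≤ H ^ 2 → ∀ (Q b c : Fin k → ℕ) (S : ℝ),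
  (∀ i, (H : ℝ) ^ (1 / e : ℝ) ≤ Q i ∧ b i ≤ H ∧ 1 ≤ c i ∧ c i ≤ H ∧ (Q i : ℝ) / (Real.log H) ^ (A' + 1) ≤ b i) →
  0 ≤ S → S ≤ (Real.log H) ^ (k + 1) →
  (∀ t : ℕ, (Real.log H) ^ B₀ ≤ t → t ≤ y → |∑ n ∈ Icc 1 t, ∏ i, lamP ((b i : ℤ) * n + c i) - t * S| ≤ t / (Real.log H) ^ A') →
  |(((Icc 1 y).filter (fun n => ∀ i, (b i * n + c i).Prime)).card : ℝ) -
    S * ∑ n ∈ Icc 1 y, ∏ i, 1 / Real.log ((b i * n + c i : ℕ) : ℝ)| ≤ y / (Real.log H) ^ A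

open Classical in
/-- (119) the same for prime arguments -/
def S_INP4 : Prop := ∀ k e A m : ℕ, 1 ≤ e → 1 ≤ m → ∃ A' B H₀ : ℕ, A ≤ A' ∧ ∀ H : ℕ, H₀ ≤ H → ∀ y : ℕ,
  Real.exp ((Real.log H) ^ (1 / m : ℝ)) ≤ y → y ≤ H ^ 2 → ∀ (Q b : Fin k → ℕ) (F : Fin k → ℕ → ℤ) (S : ℝ),
  (∀ i, (H : ℝ) ^ (1 / e : ℝ) ≤ Q i ∧ b i ≤ H ∧ (Q i : ℝ) / (Real.log H) ^ (A' + 1) ≤ b i) →
  (∀ i, ∀ n ∈ Icc 1 y, |((F i n - b i * n : ℤ) : ℝ)| * (Real.log H) ^ B ≤ Q i * (n + 2 * (Real.log H) ^ B)) →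
  0 ≤ S → S ≤ (Real.log H) ^ (k + 2) →
  (∀ t : ℕ, Real.exp ((Real.log H) ^ (1 / (m + 1) : ℝ)) ≤ t → t ≤ y →
    |∑ n ∈ Icc 1 t, lamP (n : ℤ) * ∏ i, lamP (F i n) - t * S| ≤ t / (Real.log H) ^ A') →
  |(((Icc 1 y).filter (fun n => n.Prime ∧ ∀ i, (F i n).natAbs.Prime)).card : ℝ) -
    S * (∑ n ∈ Icc 2 y, 1 / Real.log n * ∏ i, 1 / Real.log (abs ((F i n : ℤ) : ℝ)))| ≤ y / (Real.log H) ^ A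

/-- the number of the `n ≤ y` for which all `b i * n + c i` are prime -/
noncomputable def cntD {k : ℕ} (b c : Fin k → ℕ) (y : ℕ) : ℕ :=
  open Classical in ((Icc 1 y).filter (fun n => ∀ i, (b i * n + c i).Prime)).card

/-- `∑_{n ≤ y} ∏ 1 / log (b i * n + c i)` -/
noncomputable def expD {k : ℕ} (b c : Fin k → ℕ) (y : ℕ) : ℝ :=
  ∑ n ∈ Icc 1 y, ∏ i, 1 / Real.log ((b i * n + c i : ℕ) : ℝ)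

/-- the number of the classes modulo `p` in which one of the forms vanishes -/
noncomputable def nuD {k : ℕ} (b c : Fin k → ℕ) (p : ℕ) : ℕ :=
  open Classical in ((range p).filter (fun t : ℕ => ∃ i, p ∣ b i * t + c i)).card

/-- the singular series of the linear forms -/
noncomputable def serD {k : ℕ} (b c : Fin k → ℕ) : ℝ :=
  ∏' p : Nat.Primes, (1 - (nuD b c p : ℝ) / ((p : ℕ) : ℝ)) / (1 - 1 / ((p : ℕ) : ℝ)) ^ k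

/-- no fixed prime divisor, no two proportional forms -/
def AdmD {k : ℕ} (b c : Fin k → ℕ) : Prop :=
  (∀ i j, i ≠ j → b i * c j ≠ b j * c i) ∧ ∀ p : ℕ, p.Prime → ∃ n : ℕ, ∀ i, ¬ p ∣ b i * n + c i

/-- (120) the singular series of linear forms and its partial products -/
def S_TLD : Prop := ∀ k : ℕ, ∃ H₀ : ℕ, ∀ H : ℕ, H₀ ≤ H → ∀ b c : Fin k → ℕ, (∀ i, 1 ≤ b i ∧ b i ≤ H ∧ 1 ≤ c i ∧ c i ≤ H) →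
  AdmD b c → ∀ z : ℕ, (Real.log H) ^ 3 ≤ z → 0 < serD b c ∧
  |sg z (pl (fun _ => 0) (fun i => (b i, c i))) - serD b c| ≤ serD b c * ((Real.log H) ^ 2 / z)

open Classical in
/-- (121) almost all systems of linear forms -/
def S_R10 : Prop := ∀ k e A : ℕ, 1 ≤ k → 1 ≤ e → ∃ B H₀ : ℕ, ∀ H : ℕ, H₀ ≤ H → ∀ R : Fin k → ℕ,
  (∀ i, (H : ℝ) ^ (1 / e : ℝ) ≤ R i ∧ R i ≤ H) →
  (((Fintype.piFinset (fun i => Icc 1 (R i)) ×ˢ Fintype.piFinset (fun i => Icc 1 (R i))).filter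
    (fun x : (Fin k → ℕ) × (Fin k → ℕ) => AdmD x.1 x.2 ∧
      ¬ ∀ y : ℕ, (Real.log H) ^ B ≤ y → (∀ i, (y : ℝ) ≤ (R i : ℝ) ^ (2 - 1 / e : ℝ)) →
        |(cntD x.1 x.2 y : ℝ) - serD x.1 x.2 * expD x.1 x.2 y| ≤ serD x.1 x.2 * expD x.1 x.2 y / (Real.log H) ^ A)).card : ℝ) ≤
    vq R R / (Real.log H) ^ A

open Classical in
/-- (122) primes `q` with all `a_i + d_i q` prime, for almost all `(a, d)` -/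
def S_R11 : Prop := ∀ k e A m : ℕ, 1 ≤ k → 1 ≤ e → 1 ≤ m → ∃ B H₀ : ℕ, ∀ H : ℕ, H₀ ≤ H →
  ∀ R : Fin k → ℕ, (∀ i, (H : ℝ) ^ (1 / e : ℝ) ≤ R i ∧ R i ≤ H) →
  (((Fintype.piFinset (fun i => Icc (-(R i : ℤ)) (R i)) ×ˢ Fintype.piFinset (fun i => Icc 1 (R i))).filter
    (fun x : (Fin k → ℤ) × (Fin k → ℕ) => AdmP x.1 x.2 ∧
      ¬ ∀ y : ℕ, Real.exp ((Real.log H) ^ (1 / m : ℝ)) ≤ y → (∀ i, (y : ℝ) ≤ (R i : ℝ) ^ (2 - 1 / e : ℝ)) →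
        |(cntP x.1 x.2 y : ℝ) - serp x.1 x.2 * exP x.1 x.2 y| ≤ serp x.1 x.2 * exP x.1 x.2 y / Real.log H ^ A)).card : ℝ) ≤
    vq R R / Real.log H ^ A

/-- the Hardy-Littlewood formula in the whole range -/
def Good12 (A B e H M N a b : ℕ) (c : ℤ) : Prop :=
  ∀ X : ℕ, a * Real.log H ^ B ≤ X → (X : ℝ) ≤ a * (M : ℝ) ^ (2 - 1 / e : ℝ) → (X : ℝ) ≤ a * (N : ℝ) ^ (2 - 1 / e : ℝ) →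
    |(cnt3 a b c X : ℝ) - ser3 a b c * ex3 a b c X| ≤ ser3 a b c * ex3 a b c X / Real.log H ^ A

open Classical in
/-- (123) `a p - b q = c` for almost all triples -/
def S_R12 : Prop := ∀ e A : ℕ, 1 ≤ e → ∃ B H₀ : ℕ, ∀ H : ℕ, H₀ ≤ H → ∀ M N : ℕ, (H : ℝ) ^ (1 / e : ℝ) ≤ M → M ≤ H →
  (H : ℝ) ^ (1 / e : ℝ) ≤ N → N ≤ H →
  (((Icc 1 M ×ˢ Icc 1 N ×ˢ Icc (-(M * N : ℤ)) (M * N)).filter (fun x : ℕ × ℕ × ℤ =>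
    |x.2.2| ≤ x.1 * x.2.1 ∧ Adm3 x.1 x.2.1 x.2.2 ∧ ¬ Good12 A B e H M N x.1 x.2.1 x.2.2)).card : ℝ) ≤
    ((M : ℝ) * N) ^ 2 / Real.log H ^ A

end Pool.Agent.helper24_UT
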