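/-
UT_TLP   (project UT of helper24: primes at almost all systems of polynomials)
-/
import Pool.Agent.helper24_UT.Stm9

set_option autoImplicit false

namespace Pool.Agent.helper24_UT.Tlp

open Finset Polynomial
open Pool.Agent.helper24_UT
open Pool.Agent.H376R2.MR (ch er DP FK)

/-! ### the local factors -/

theorem fac1 (k : ℕ) (p w : ℝ) (hp : 4 * (k : ℝ) + 4 ≤ p) (hw0 : 0 ≤ w) (hwk : w ≤ k) :
    |(1 - w / (p - 1)) / (1 - 1 / p) ^ k - 1| ≤ 2 * k / p := by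
  have hk : (0 : ℝ) ≤ k := Nat.cast_nonneg k
  have hp0 : 0 < p := by linarith
  have hp1 : 0 < p - 1 := by linarith
  have hx : 1 / p ≤ 1 := by rw [div_le_one hp0]; linarith
  have hx0 : 0 ≤ 1 / p := by positivity
  have hx1 : 0 < 1 - 1 / p := by
    have : 1 / p < 1 := by rw [div_lt_one hp0]; linarith
    linarith
  have hu1 : (1 - 1 / p) ^ k ≤ 1 := pow_le_one₀ hx1.le (by linarith)
  have hu0 : 0 < (1 - 1 / p) ^ k := pow_pos hx1 k
  have hb : 1 - (k : ℝ) / p ≤ (1 - 1 / p) ^ k := by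
    have := one_add_mul_le_pow (a := -(1 / p)) (by linarith) k
    have e1 : (1 : ℝ) + (k : ℝ) * -(1 / p) = 1 - (k : ℝ) / p := by ring
    have e2 : (1 : ℝ) + -(1 / p) = 1 - 1 / p := by ring
    rw [e1, e2] at this
    exact this
  have hkp : (k : ℝ) / p ≤ 1 / 4 := by rw [div_le_div_iff₀ hp0 (by norm_num)]; linarith
  have hkp0 : 0 ≤ (k : ℝ) / p := by positivity
  have hw1 : w / (p - 1) ≤ 2 * (k / p) := by
    calc w / (p - 1) ≤ k / (p - 1) := by gcongr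
      _ ≤ 2 * (k / p) := by
        rw [div_le_iff₀ hp1]
        have : 2 * ((k : ℝ) / p) * (p - 1) = k + k * ((p - 2) / p) := by field_simp; ring
        rw [this]
        have : 0 ≤ k * ((p - 2) / p) := mul_nonneg hk (div_nonneg (by linarith) hp0.le)
        linarith
  have hw2 : 0 ≤ w / (p - 1) := div_nonneg hw0 hp1.le
  have e : 2 * (k : ℝ) / p = 2 * (k / p) := by ring
  rw [e, abs_le]
  constructor
  · have : 1 - w / (p - 1) ≤ (1 - w / (p - 1)) / (1 - 1 / p) ^ k := by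
      rw [le_div_iff₀ hu0]
      have : 0 ≤ 1 - w / (p - 1) := by linarith
      nlinarith
    linarith
  · have : (1 - w / (p - 1)) / (1 - 1 / p) ^ k ≤ 1 + 2 * (k / p) := by
      rw [div_le_iff₀ hu0]
      nlinarith
    linarith

theorem fac2 (k : ℕ) (p : ℝ) (hp : 4 * (k : ℝ) + 4 ≤ p) :
    |(1 - (k : ℝ) / (p - 1)) / (1 - 1 / p) ^ k - 1| ≤ 2 * (k ^ 2 + k) / p ^ 2 := by
  have hk : (0 : ℝ) ≤ k := Nat.cast_nonneg k
  have hp0 : 0 < p := by linarith
  have hp1 : 0 < p - 1 := by linarith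
  have hx0 : 0 ≤ 1 / p := by positivity
  have hx1 : 0 < 1 - 1 / p := by
    have : 1 / p < 1 := by rw [div_lt_one hp0]; linarith
    linarith
  have hu0 : 0 < (1 - 1 / p) ^ k := pow_pos hx1 k
  have hb : 1 - (k : ℝ) / p ≤ (1 - 1 / p) ^ k := by
    have := one_add_mul_le_pow (a := -(1 / p)) (by linarith) k
    have e1 : (1 : ℝ) + (k : ℝ) * -(1 / p) = 1 - (k : ℝ) / p := by ring
    have e2 : (1 : ℝ) + -(1 / p) = 1 - 1 / p := by ring
    rw [e1, e2] at this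
    exact this
  have hkk : (k : ℝ) / p ≤ k / (p - 1) := by gcongr; linarith
  have hN0 : 0 ≤ 1 - (k : ℝ) / (p - 1) := by
    have : (k : ℝ) / (p - 1) ≤ 1 := by rw [div_le_one hp1]; linarith
    linarith
  have hC : (0 : ℝ) ≤ 2 * (k ^ 2 + k) / p ^ 2 := by positivity
  rw [abs_le]
  constructor
  · have h3 : 1 + 1 / p ≤ (1 - 1 / p)⁻¹ := by
      rw [← one_div, le_div_iff₀ hx1]
      have : 0 ≤ (1 / p) ^ 2 := by positivity
      nlinarith
    have h4 : 1 + (k : ℝ) / p ≤ ((1 - 1 / p)⁻¹) ^ k := by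
      have h5 := one_add_mul_le_pow (a := (1 / p)) (by linarith) k
      calc 1 + (k : ℝ) / p = 1 + (k : ℝ) * (1 / p) := by ring
        _ ≤ (1 + 1 / p) ^ k := h5
        _ ≤ _ := pow_le_pow_left₀ (by positivity) h3 k
    have h6 : (1 - (k : ℝ) / (p - 1)) * (1 + k / p) ≤ (1 - (k : ℝ) / (p - 1)) / (1 - 1 / p) ^ k := by
      rw [div_eq_mul_inv (1 - (k : ℝ) / (p - 1)) ((1 - 1 / p) ^ k), ← inv_pow]
      exact mul_le_mul_of_nonneg_left h4 hN0
    have h7 : (1 - (k : ℝ) / (p - 1)) * (1 + k / p) = 1 - (k ^ 2 + k) / (p * (p - 1)) := by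
      field_simp
      ring
    have h8 : ((k : ℝ) ^ 2 + k) / (p * (p - 1)) ≤ 2 * (k ^ 2 + k) / p ^ 2 := by
      rw [div_le_div_iff₀ (by positivity) (by positivity)]
      have : p ^ 2 ≤ 2 * (p * (p - 1)) := by nlinarith
      have h9 : (0 : ℝ) ≤ k ^ 2 + k := by positivity
      nlinarith
    linarith
  · have : (1 - (k : ℝ) / (p - 1)) / (1 - 1 / p) ^ k ≤ 1 := by
      rw [div_le_one hu0]; linarith
    linarith

theorem abs_log_le (g : ℝ) (h : |g - 1| ≤ 1 / 2) : |Real.log g| ≤ 2 * |g - 1| := by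
  have h' := abs_le.1 h
  have hg : 0 < g := by linarith [h'.1]
  have h1 := Real.log_le_sub_one_of_pos hg
  have h2 := Real.one_sub_inv_le_log_of_pos hg
  rw [abs_le]
  constructor
  · have h3 : -(2 * |g - 1|) ≤ 1 - g⁻¹ := by
      have e : 1 - g⁻¹ = (g - 1) / g := by field_simp
      rw [e, le_div_iff₀ hg]
      have h4 := neg_abs_le (g - 1)
      have h5 : (1 : ℝ) / 2 ≤ g := by linarith [h'.1]
      have h6 := abs_nonneg (g - 1)
      nlinarith
    linarith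
  · have h4 := le_abs_self (g - 1)
    have h6 := abs_nonneg (g - 1)
    linarith

/-! ### the number of the classes -/

section cls
variable {k : ℕ} (a : Fin k → ℤ) (d : Fin k → ℕ)

theorem ev (i : Fin k) (t : ℤ) : (lin a d i).eval t = a i + d i * t := by
  simp [lin]

theorem omp_le_sub {p : ℕ} (hp : p.Prime)
    (hn : ∃ n : ℤ, ¬ (p : ℤ) ∣ n ∧ ∀ i, ¬ (p : ℤ) ∣ a i + d i * n) :
    omp (lin a d) p + 2 ≤ p := by
  classical
  obtain ⟨n, hn1, hn2⟩ := hn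
  have hp0 : (0 : ℤ) < p := by exact_mod_cast hp.pos
  set m : ℕ := (n % p).toNat with hm
  have hm0 : (m : ℤ) = n % p := Int.toNat_of_nonneg (Int.emod_nonneg _ hp0.ne')
  have hmlt : m < p := by
    have := Int.emod_lt_of_pos n hp0
    omega
  have hm1 : m ≠ 0 := by
    intro h
    apply hn1
    rw [h] at hm0
    exact Int.dvd_of_emod_eq_zero hm0.symm
  have hdiff : (p : ℤ) ∣ n - m := by
    rw [hm0]
    exact Int.dvd_self_sub_emod
  unfold omp
  have hsub : (range p).filter (fun t : ℕ => ¬ p ∣ t ∧ ∃ i, (p : ℤ) ∣ ((lin a d) i).eval (t : ℤ)) ⊆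
      ((range p).erase 0).erase m := by
    intro t ht
    rw [mem_filter] at ht
    rw [mem_erase, mem_erase]
    refine ⟨?_, ?_, ht.1⟩
    · rintro rfl
      obtain ⟨-, -, i, hi⟩ := ht
      rw [ev] at hi
      apply hn2 i
      have : a i + d i * n = (a i + d i * (m : ℤ)) + d i * (n - m) := by ring
      rw [this]
      exact dvd_add hi (Dvd.dvd.mul_left hdiff _)
    · rintro rfl
      exact ht.2.1 (dvd_zero p)
  have h1 := card_le_card hsub
  rw [card_erase_of_mem, card_erase_of_mem, card_range] at h1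
  · have := hp.two_le
    omega
  · exact mem_range.2 hp.pos
  · rw [mem_erase]
    exact ⟨hm1, mem_range.2 hmlt⟩

theorem omp_le {p : ℕ} (hp : p.Prime)
    (hn : ∃ n : ℤ, ¬ (p : ℤ) ∣ n ∧ ∀ i, ¬ (p : ℤ) ∣ a i + d i * n) :
    omp (lin a d) p ≤ k := by
  classical
  obtain ⟨n, hn1, hn2⟩ := hn
  unfold omp
  have hsub : (range p).filter (fun t : ℕ => ¬ p ∣ t ∧ ∃ i, (p : ℤ) ∣ ((lin a d) i).eval (t : ℤ)) ⊆
      (univ : Finset (Fin k)).biUnion (fun i => (range p).filter (fun t : ℕ => (p : ℤ) ∣ a i + d i * t)) := by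
    intro t ht
    rw [mem_filter] at ht
    obtain ⟨h1, -, i, hi⟩ := ht
    rw [ev] at hi
    exact mem_biUnion.2 ⟨i, mem_univ _, mem_filter.2 ⟨h1, hi⟩⟩
  refine (card_le_card hsub).trans ((card_biUnion_le_card_mul _ _ 1 ?_).trans (by simp))
  intro i _
  rw [card_le_one]
  intro t ht t' ht'
  rw [mem_filter, mem_range] at ht ht'
  have hpd : ¬ (p : ℤ) ∣ (d i : ℤ) := by
    intro h
    apply hn2 i
    have h1 : (p : ℤ) ∣ a i := by
      have := dvd_sub ht.2 (Dvd.dvd.mul_right h (t : ℤ))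
      simpa using this
    exact dvd_add h1 (Dvd.dvd.mul_right h _)
  have h2 : (p : ℤ) ∣ (d i : ℤ) * ((t : ℤ) - t') := by
    have := dvd_sub ht.2 ht'.2
    have e : (a i + (d i : ℤ) * t) - (a i + d i * t') = d i * ((t : ℤ) - t') := by ring
    rwa [e] at this
  have h3 : (p : ℤ) ∣ (t : ℤ) - t' := (Nat.prime_iff_prime_int.1 hp).dvd_or_dvd h2 |>.resolve_left hpd
  have h5 : (t' : ℤ) % p = (t : ℤ) % p := Int.modEq_iff_dvd.2 h3
  rw [Int.emod_eq_of_lt (by positivity) (by exact_mod_cast ht'.1),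
    Int.emod_eq_of_lt (by positivity) (by exact_mod_cast ht.1)] at h5
  exact_mod_cast h5.symm

/-- the product of the coefficients and of the resultants -/
noncomputable def DD : ℤ := (∏ i, (a i * d i)) *
  ∏ q ∈ (univ : Finset (Fin k × Fin k)).filter (fun q => q.1 ≠ q.2), (a q.1 * d q.2 - a q.2 * d q.1)

theorem le_omp {p : ℕ} (hp : p.Prime) (hD : ¬ (p : ℤ) ∣ DD a d) : k ≤ omp (lin a d) p := by
  classical
  have : Fact p.Prime := ⟨hp⟩
  have h1 : ∀ i, ¬ (p : ℤ) ∣ a i * d i := by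
    intro i h
    apply hD
    exact Dvd.dvd.mul_right (h.trans (dvd_prod_of_mem (fun i => a i * (d i : ℤ)) (mem_univ i))) _
  have h2 : ∀ i j, i ≠ j → ¬ (p : ℤ) ∣ a i * d j - a j * d i := by
    intro i j hij h
    apply hD
    refine Dvd.dvd.mul_left (h.trans ?_) _
    exact dvd_prod_of_mem (fun q : Fin k × Fin k => a q.1 * (d q.2 : ℤ) - a q.2 * d q.1)
      (mem_filter.2 ⟨mem_univ (i, j), hij⟩)
  have hd : ∀ i, ((d i : ℕ) : ZMod p) ≠ 0 := by
    intro i h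
    apply h1 i
    have : ((d i : ℤ) : ZMod p) = 0 := by exact_mod_cast h
    exact Dvd.dvd.mul_left ((ZMod.intCast_zmod_eq_zero_iff_dvd _ _).1 this) _
  have ha : ∀ i, ((a i : ℤ) : ZMod p) ≠ 0 := by
    intro i h
    apply h1 i
    exact Dvd.dvd.mul_right ((ZMod.intCast_zmod_eq_zero_iff_dvd _ _).1 h) _
  set T : Fin k → ℕ := fun i => (-((a i : ℤ) : ZMod p) * ((d i : ℕ) : ZMod p)⁻¹).val with hT
  have hTc : ∀ i, ((T i : ℕ) : ZMod p) = -((a i : ℤ) : ZMod p) * ((d i : ℕ) : ZMod p)⁻¹ := by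
    intro i
    rw [hT]
    exact ZMod.natCast_zmod_val _
  unfold omp
  have hcard : k = (univ : Finset (Fin k)).card := by simp
  refine hcard.le.trans ?_
  apply card_le_card_of_injOn T
  · intro i _
    rw [mem_coe, mem_filter]
    refine ⟨mem_range.2 (ZMod.val_lt _), ?_, i, ?_⟩
    · intro h
      have h0 : ((T i : ℕ) : ZMod p) = 0 := (ZMod.natCast_eq_zero_iff _ _).2 h
      rw [hTc i] at h0
      rcases mul_eq_zero.1 h0 with h | h
      · exact ha i (neg_eq_zero.1 h)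
      · exact hd i (inv_eq_zero.1 h)
    · rw [ev]
      rw [← ZMod.intCast_zmod_eq_zero_iff_dvd]
      push_cast
      rw [hTc i]
      have := hd i
      field_simp
      ring
  · intro i _ j _ hij
    by_contra hne
    apply h2 i j hne
    rw [← ZMod.intCast_zmod_eq_zero_iff_dvd]
    have h3 : ((T i : ℕ) : ZMod p) = ((T j : ℕ) : ZMod p) := by rw [hij]
    rw [hTc i, hTc j] at h3
    have hi := hd i
    have hj := hd j
    push_cast
    field_simp at h3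
    linear_combination (-1 : ZMod p) * h3

theorem DD_ne (h0 : ∀ i, a i ≠ 0 ∧ 1 ≤ d i) (h1 : ∀ i j, i ≠ j → a i * d j ≠ a j * d i) :
    DD a d ≠ 0 := by
  unfold DD
  apply mul_ne_zero
  · rw [prod_ne_zero_iff]
    intro i _
    have := (h0 i).2
    exact mul_ne_zero (h0 i).1 (by exact_mod_cast (by omega : d i ≠ 0))
  · rw [prod_ne_zero_iff]
    intro q hq
    have := h1 q.1 q.2 (mem_filter.1 hq).2
    exact sub_ne_zero.2 this

theorem DD_le (H : ℕ) (hH : 2 ≤ H) (h0 : ∀ i, |a i| ≤ H ∧ d i ≤ H) :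
    |(DD a d : ℝ)| ≤ (H : ℝ) ^ (2 * k + 3 * k ^ 2) := by
  have hH1 : (2 : ℝ) ≤ H := by exact_mod_cast hH
  have hH0 : (0 : ℝ) ≤ H := by linarith
  have ha : ∀ i, |((a i : ℤ) : ℝ)| ≤ H := by
    intro i
    have := (h0 i).1
    exact_mod_cast this
  have hd : ∀ i, |((d i : ℕ) : ℝ)| ≤ H := by
    intro i
    have := (h0 i).2
    rw [abs_of_nonneg (Nat.cast_nonneg _)]
    exact_mod_cast this
  have hmul : ∀ i j, |((a i : ℤ) : ℝ) * ((d j : ℕ) : ℝ)| ≤ (H : ℝ) ^ 2 := by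
    intro i j
    rw [abs_mul, pow_two]
    exact mul_le_mul (ha i) (hd j) (abs_nonneg _) hH0
  unfold DD
  push_cast
  rw [abs_mul, abs_prod, abs_prod, pow_add]
  apply mul_le_mul
  · calc ∏ i, |((a i : ℤ) : ℝ) * ((d i : ℕ) : ℝ)| ≤ ∏ _i : Fin k, (H : ℝ) ^ 2 :=
          prod_le_prod (fun i _ => abs_nonneg _) (fun i _ => hmul i i)
      _ = (H : ℝ) ^ (2 * k) := by simp [← pow_mul]
  · calc ∏ q ∈ (univ : Finset (Fin k × Fin k)).filter (fun q => q.1 ≠ q.2),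
          |((a q.1 : ℤ) : ℝ) * ((d q.2 : ℕ) : ℝ) - ((a q.2 : ℤ) : ℝ) * ((d q.1 : ℕ) : ℝ)|
        ≤ ∏ q ∈ (univ : Finset (Fin k × Fin k)).filter (fun q => q.1 ≠ q.2), (H : ℝ) ^ 3 := by
          apply prod_le_prod (fun q _ => abs_nonneg _)
          intro q _
          have e1 := hmul q.1 q.2
          have e2 := hmul q.2 q.1
          have e3 := abs_sub (((a q.1 : ℤ) : ℝ) * ((d q.2 : ℕ) : ℝ)) (((a q.2 : ℤ) : ℝ) * ((d q.1 : ℕ) : ℝ))
          have e4 : (H : ℝ) ^ 2 + (H : ℝ) ^ 2 ≤ (H : ℝ) ^ 3 := by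
            have : (H : ℝ) ^ 3 = H * (H : ℝ) ^ 2 := by ring
            rw [this]
            nlinarith [sq_nonneg (H : ℝ)]
          linarith
      _ = ((H : ℝ) ^ 3) ^ ((univ : Finset (Fin k × Fin k)).filter (fun q => q.1 ≠ q.2)).card := by
          rw [prod_const]
      _ ≤ ((H : ℝ) ^ 3) ^ (k ^ 2) := by
          apply pow_le_pow_right₀ (one_le_pow₀ (by linarith))
          refine (card_le_card (filter_subset _ _)).trans ?_
          simp [pow_two]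
      _ = (H : ℝ) ^ (3 * k ^ 2) := by rw [← pow_mul]
  · exact prod_nonneg fun _ _ => abs_nonneg _
  · positivity

/-- the local factor -/
noncomputable def gg (p : ℕ) : ℝ :=
  (1 - (omp (lin a d) p : ℝ) / ((p : ℝ) - 1)) / (1 - 1 / (p : ℝ)) ^ k

theorem gg_pos {p : ℕ} (hp : p.Prime)
    (hn : ∃ n : ℤ, ¬ (p : ℤ) ∣ n ∧ ∀ i, ¬ (p : ℤ) ∣ a i + d i * n) : 0 < gg a d p := by
  have h1 := omp_le_sub a d hp hn
  have h2 : (omp (lin a d) p : ℝ) + 2 ≤ p := by exact_mod_cast h1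
  have h3 : (0 : ℝ) ≤ omp (lin a d) p := Nat.cast_nonneg _
  have hp1 : (0 : ℝ) < (p : ℝ) - 1 := by linarith
  have hx : 1 / (p : ℝ) < 1 := by rw [div_lt_one (by linarith)]; linarith
  have hw : (omp (lin a d) p : ℝ) / ((p : ℝ) - 1) < 1 := by rw [div_lt_one hp1]; linarith
  unfold gg
  exact div_pos (by linarith) (pow_pos (by linarith) k)

theorem gg_log1 {p : ℕ} (hp : p.Prime)
    (hn : ∃ n : ℤ, ¬ (p : ℤ) ∣ n ∧ ∀ i, ¬ (p : ℤ) ∣ a i + d i * n)
    (hpk : 4 * (k : ℝ) + 4 ≤ p) : |Real.log (gg a d p)| ≤ 4 * k / p := by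
  have h1 : (omp (lin a d) p : ℝ) ≤ k := by exact_mod_cast omp_le a d hp hn
  have h2 := fac1 k p (omp (lin a d) p) hpk (Nat.cast_nonneg _) h1
  have hk : (0 : ℝ) ≤ k := Nat.cast_nonneg k
  have hp0 : (0 : ℝ) < p := by linarith
  have h3 : 2 * (k : ℝ) / p ≤ 1 / 2 := by
    rw [div_le_div_iff₀ hp0 (by norm_num)]; linarith
  have h4 := abs_log_le (gg a d p) (h2.trans h3)
  have h5 : 2 * |gg a d p - 1| ≤ 2 * (2 * k / p) := by
    have : |gg a d p - 1| ≤ 2 * k / p := h2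
    linarith
  calc _ ≤ 2 * (2 * (k : ℝ) / p) := h4.trans h5
    _ = 4 * k / p := by ring

theorem gg_log2 {p : ℕ} (hp : p.Prime)
    (hn : ∃ n : ℤ, ¬ (p : ℤ) ∣ n ∧ ∀ i, ¬ (p : ℤ) ∣ a i + d i * n)
    (hpk : 4 * (k : ℝ) + 4 ≤ p) (hD : ¬ (p : ℤ) ∣ DD a d) :
    |Real.log (gg a d p)| ≤ 4 * (k ^ 2 + k) * ((p : ℝ) ^ 2)⁻¹ := by
  have h1 : omp (lin a d) p = k := le_antisymm (omp_le a d hp hn) (le_omp a d hp hD)
  have hk : (0 : ℝ) ≤ k := Nat.cast_nonneg k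
  have hp0 : (0 : ℝ) < p := by linarith
  have e0 : gg a d p = (1 - (k : ℝ) / ((p : ℝ) - 1)) / (1 - 1 / (p : ℝ)) ^ k := by
    unfold gg; rw [h1]
  have h2 := fac2 k p hpk
  have h2' := fac1 k p k hpk hk le_rfl
  rw [← e0] at h2 h2'
  have h3 : 2 * (k : ℝ) / p ≤ 1 / 2 := by
    rw [div_le_div_iff₀ hp0 (by norm_num)]; linarith
  have h4 := abs_log_le (gg a d p) (h2'.trans h3)
  calc _ ≤ 2 * (2 * ((k : ℝ) ^ 2 + k) / p ^ 2) := by linarith
    _ = 4 * (k ^ 2 + k) * ((p : ℝ) ^ 2)⁻¹ := by ring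

theorem sum_inv_sq (z : ℕ) (hz : 1 ≤ z) (s : Finset ℕ) (hs : ∀ n ∈ s, z < n) :
    ∑ n ∈ s, ((n : ℝ) ^ 2)⁻¹ ≤ (z : ℝ)⁻¹ := by
  have h1 : s ⊆ Ioc z (z + s.sup id) := by
    intro n hn
    have : n ≤ s.sup id := le_sup (f := id) hn
    exact mem_Ioc.2 ⟨hs n hn, by omega⟩
  calc ∑ n ∈ s, ((n : ℝ) ^ 2)⁻¹ ≤ ∑ n ∈ Ioc z (z + s.sup id), ((n : ℝ) ^ 2)⁻¹ :=
        sum_le_sum_of_subset_of_nonneg h1 (fun _ _ _ => by positivity)
    _ ≤ (z : ℝ)⁻¹ - ((z + s.sup id : ℕ) : ℝ)⁻¹ := by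
        have := sum_Ioc_inv_sq_le_sub (α := ℝ) (k := z) (n := z + s.sup id) (by omega) (by omega)
        exact this
    _ ≤ (z : ℝ)⁻¹ := by
        have : (0 : ℝ) ≤ ((z + s.sup id : ℕ) : ℝ)⁻¹ := by positivity
        linarith

theorem two_pow_card (n : ℕ) (hn : n ≠ 0) : 2 ^ n.primeFactors.card ≤ n := by
  calc 2 ^ n.primeFactors.card = ∏ _p ∈ n.primeFactors, 2 := by rw [prod_const]
    _ ≤ ∏ p ∈ n.primeFactors, p := prod_le_prod' fun p hp => (Nat.prime_of_mem_primeFactors hp).two_le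
    _ ≤ n := Nat.le_of_dvd (Nat.pos_of_ne_zero hn) (Nat.prod_primeFactors_dvd n)

theorem card_le_log (n : ℕ) (hn : n ≠ 0) : (n.primeFactors.card : ℝ) ≤ 2 * Real.log n := by
  have h1 : ((2 : ℝ)) ^ n.primeFactors.card ≤ n := by exact_mod_cast two_pow_card n hn
  have h2 := Real.log_le_log (by positivity) h1
  rw [Real.log_pow] at h2
  have h3 : (1 : ℝ) / 2 ≤ Real.log 2 := by linarith [Real.log_two_gt_d9]
  have h4 : (0 : ℝ) ≤ n.primeFactors.card := Nat.cast_nonneg _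
  nlinarith

/-- tails of the sum of the logarithms -/
theorem tail_le (hadm : ∀ p : ℕ, p.Prime → ∃ n : ℤ, ¬ (p : ℤ) ∣ n ∧ ∀ i, ¬ (p : ℤ) ∣ a i + d i * n)
    (hD : DD a d ≠ 0) (z : ℕ) (hz1 : 1 ≤ z) (hz : 4 * (k : ℝ) + 4 ≤ z) (s : Finset Nat.Primes)
    (hs : ∀ p ∈ s, z < (p : ℕ)) :
    ∑ p ∈ s, |Real.log (gg a d p)| ≤
      ((DD a d).natAbs.primeFactors.card * (4 * k) + 4 * (k ^ 2 + k)) / z := by
  classical
  have hk : (0 : ℝ) ≤ k := Nat.cast_nonneg k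
  have hz0 : (0 : ℝ) < z := by exact_mod_cast hz1
  have h1 : ∀ p ∈ s, |Real.log (gg a d p)| ≤
      (if ((p : ℕ) : ℤ) ∣ DD a d then 4 * (k : ℝ) / z else 0) +
        4 * (k ^ 2 + k) * (((p : ℕ) : ℝ) ^ 2)⁻¹ := by
    intro p hp
    have hzp : (z : ℝ) ≤ ((p : ℕ) : ℝ) := by exact_mod_cast (hs p hp).le
    have hpk := hz.trans hzp
    split_ifs with h
    · have := gg_log1 a d p.2 (hadm p p.2) hpk
      have h2 : 4 * (k : ℝ) / ((p : ℕ) : ℝ) ≤ 4 * k / z := by gcongr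
      have h3 : 0 ≤ 4 * ((k : ℝ) ^ 2 + k) * (((p : ℕ) : ℝ) ^ 2)⁻¹ := by positivity
      linarith
    · have := gg_log2 a d p.2 (hadm p p.2) hpk h
      linarith
  have h2 : ∑ p ∈ s, (if ((p : ℕ) : ℤ) ∣ DD a d then 4 * (k : ℝ) / z else 0) ≤
      (DD a d).natAbs.primeFactors.card * (4 * k / z) := by
    rw [← sum_filter, sum_const, nsmul_eq_mul]
    apply mul_le_mul_of_nonneg_right _ (by positivity)
    have : (s.filter (fun p : Nat.Primes => ((p : ℕ) : ℤ) ∣ DD a d)).card ≤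
        (DD a d).natAbs.primeFactors.card := by
      apply card_le_card_of_injOn (fun p : Nat.Primes => (p : ℕ))
      · intro p hp
        rw [mem_coe, mem_filter] at hp
        rw [mem_coe, Nat.mem_primeFactors]
        exact ⟨p.2, Int.natCast_dvd.1 hp.2, Int.natAbs_ne_zero.2 hD⟩
      · exact Subtype.val_injective.injOn
    exact_mod_cast this
  have h3 : ∑ p ∈ s, 4 * ((k : ℝ) ^ 2 + k) * (((p : ℕ) : ℝ) ^ 2)⁻¹ ≤ 4 * (k ^ 2 + k) * (z : ℝ)⁻¹ := by
    rw [← mul_sum]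
    apply mul_le_mul_of_nonneg_left _ (by positivity)
    have e : ∑ p ∈ s, (((p : ℕ) : ℝ) ^ 2)⁻¹ =
        ∑ n ∈ s.image (fun p : Nat.Primes => (p : ℕ)), ((n : ℝ) ^ 2)⁻¹ := by
      rw [sum_image]
      intro x _ y _ hxy
      exact Subtype.val_injective hxy
    rw [e]
    apply sum_inv_sq z hz1
    intro n hn
    obtain ⟨p, hp, rfl⟩ := mem_image.1 hn
    exact hs p hp
  calc _ ≤ ∑ p ∈ s, ((if ((p : ℕ) : ℤ) ∣ DD a d then 4 * (k : ℝ) / z else 0) +
        4 * (k ^ 2 + k) * (((p : ℕ) : ℝ) ^ 2)⁻¹) := sum_le_sum h1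
    _ ≤ (DD a d).natAbs.primeFactors.card * (4 * k / z) + 4 * (k ^ 2 + k) * (z : ℝ)⁻¹ := by
        rw [sum_add_distrib]; linarith
    _ = _ := by field_simp

theorem summable_log (hadm : ∀ p : ℕ, p.Prime → ∃ n : ℤ, ¬ (p : ℤ) ∣ n ∧ ∀ i, ¬ (p : ℤ) ∣ a i + d i * n)
    (hD : DD a d ≠ 0) : Summable (fun p : Nat.Primes => Real.log (gg a d p)) := by
  have hg : Summable (fun p : Nat.Primes => 4 * ((k : ℝ) ^ 2 + k) * (((p : ℕ) : ℝ) ^ 2)⁻¹) := by
    apply Summable.mul_left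
    exact (Real.summable_nat_pow_inv.2 (by norm_num : 1 < 2)).comp_injective
      (Subtype.val_injective)
  apply Summable.of_norm_bounded_eventually hg
  have hfin : {p : Nat.Primes | (p : ℕ) ≤ 4 * k + 4 + (DD a d).natAbs}.Finite := by
    apply Set.Finite.of_finite_image (f := (fun p : Nat.Primes => (p : ℕ)))
    · apply (Set.finite_Iic (4 * k + 4 + (DD a d).natAbs)).subset
      rintro _ ⟨p, hp, rfl⟩
      exact hp
    · exact Subtype.val_injective.injOn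
  rw [Filter.eventually_cofinite]
  apply hfin.subset
  intro p hp
  simp only [Set.mem_ofPred_eq] at hp ⊢
  by_contra hcon
  push Not at hcon
  apply hp
  rw [Real.norm_eq_abs]
  apply gg_log2 a d p.2 (hadm p p.2)
  · have : 4 * k + 4 ≤ (p : ℕ) := by omega
    exact_mod_cast this
  · intro h
    have h1 := Int.natCast_dvd.1 h
    have h2 := Nat.le_of_dvd (Int.natAbs_pos.2 hD) h1
    omega

theorem serp_eq (hadm : ∀ p : ℕ, p.Prime → ∃ n : ℤ, ¬ (p : ℤ) ∣ n ∧ ∀ i, ¬ (p : ℤ) ∣ a i + d i * n)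
    (hD : DD a d ≠ 0) : serp a d = Real.exp (∑' p : Nat.Primes, Real.log (gg a d p)) := by
  have := Real.rexp_tsum_eq_tprod (fun p : Nat.Primes => gg_pos a d p.2 (hadm p p.2))
    (summable_log a d hadm hD)
  rw [this]
  rfl

/-- the primes up to `z` -/
noncomputable def s0 (z : ℕ) : Finset Nat.Primes :=
  (Pool.Agent.H373R2.T7.pz z).preimage (fun p : Nat.Primes => (p : ℕ)) Subtype.val_injective.injOn

theorem mem_s0 (z : ℕ) (p : Nat.Primes) : p ∈ s0 z ↔ (p : ℕ) ≤ z := by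
  have h : p ∈ s0 z ↔ (p : ℕ) ∈ Pool.Agent.H373R2.T7.pz z := by
    unfold s0
    exact Finset.mem_preimage
  rw [h]
  unfold Pool.Agent.H373R2.T7.pz
  rw [mem_filter, mem_Icc]
  constructor
  · rintro ⟨⟨-, h⟩, -⟩; exact h
  · intro h; exact ⟨⟨p.2.one_le, h⟩, p.2⟩

theorem sgp_eq (hadm : ∀ p : ℕ, p.Prime → ∃ n : ℤ, ¬ (p : ℤ) ∣ n ∧ ∀ i, ¬ (p : ℤ) ∣ a i + d i * n)
    (z : ℕ) : sgp z (lin a d) = Real.exp (∑ p ∈ s0 z, Real.log (gg a d p)) := by
  rw [Real.exp_sum]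
  have e1 : ∏ p ∈ s0 z, Real.exp (Real.log (gg a d p)) = ∏ p ∈ s0 z, gg a d (p : ℕ) :=
    prod_congr rfl fun p _ => Real.exp_log (gg_pos a d p.2 (hadm p p.2))
  rw [e1]
  unfold s0
  symm
  refine (prod_preimage (fun p : Nat.Primes => (p : ℕ)) _ Subtype.val_injective.injOn
    (fun p : ℕ => gg a d p) ?_)
  intro p hp hp2
  exact absurd ⟨⟨p, (mem_filter.1 hp).2⟩, rfl⟩ hp2

end cls

theorem main : S_TLP := by
  intro k
  have hk : (0 : ℝ) ≤ k := Nat.cast_nonneg k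
  obtain ⟨K, hK⟩ : ∃ K : ℝ, K = 8 * k * (2 * k + 3 * k ^ 2) + 4 * (k ^ 2 + k) := ⟨_, rfl⟩
  have hK0 : 0 ≤ K := by rw [hK]; positivity
  obtain ⟨H₀, hH₀⟩ := exists_nat_ge (Real.exp (2 * K + 4 * k + 4))
  refine ⟨max H₀ 2, ?_⟩
  intro H hH a d h0 h1 hadm z hz
  have hH2 : 2 ≤ H := (le_max_right _ _).trans hH
  have hHH : (H₀ : ℝ) ≤ H := by exact_mod_cast (le_max_left _ _).trans hH
  have hHpos : (0 : ℝ) < H := by have : (2 : ℝ) ≤ H := by exact_mod_cast hH2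
                                 linarith
  obtain ⟨L, hL⟩ : ∃ L : ℝ, L = Real.log H := ⟨_, rfl⟩
  have hL0 : 2 * K + 4 * k + 4 ≤ L := by
    rw [hL, Real.le_log_iff_exp_le hHpos]
    exact hH₀.trans hHH
  rw [← hL] at hz ⊢
  have hL1 : 1 ≤ L := by linarith
  have hL3 : L ≤ L ^ 3 := by
    have : (1 : ℝ) ≤ L ^ 2 := one_le_pow₀ hL1
    nlinarith
  have hzL : L ≤ z := hL3.trans hz
  have hz1 : 1 ≤ z := by
    have : (1 : ℝ) ≤ z := hL1.trans hzL
    exact_mod_cast this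
  have hz0 : (0 : ℝ) < z := by exact_mod_cast hz1
  have hD : DD a d ≠ 0 := DD_ne a d (fun i => ⟨(h0 i).1, (h0 i).2.2.1⟩) h1
  have hDle := DD_le a d H hH2 (fun i => ⟨(h0 i).2.1, (h0 i).2.2.2⟩)
  have hcard : ((DD a d).natAbs.primeFactors.card : ℝ) ≤ 2 * ((2 * k + 3 * k ^ 2) * L) := by
    have e1 := card_le_log (DD a d).natAbs (Int.natAbs_ne_zero.2 hD)
    have e2 : (((DD a d).natAbs : ℕ) : ℝ) = |(DD a d : ℝ)| := by
      rw [Nat.cast_natAbs]; push_cast; rfl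
    rw [e2] at e1
    have e3 : Real.log |(DD a d : ℝ)| ≤ (2 * k + 3 * k ^ 2 : ℕ) * L := by
      rw [hL, ← Real.log_pow]
      apply Real.log_le_log _ hDle
      exact abs_pos.2 (by exact_mod_cast hD)
    push_cast at e3
    linarith
  have htail : ∀ s : Finset Nat.Primes, (∀ p ∈ s, z < (p : ℕ)) →
      ∑ p ∈ s, |Real.log (gg a d p)| ≤ K * L / z := by
    intro s hs
    refine (tail_le a d hadm hD z hz1 (by linarith) s hs).trans ?_
    apply div_le_div_of_nonneg_right _ hz0.le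
    have e1 : ((DD a d).natAbs.primeFactors.card : ℝ) * (4 * k) ≤
        2 * ((2 * k + 3 * k ^ 2) * L) * (4 * k) := mul_le_mul_of_nonneg_right hcard (by positivity)
    have e2 : 4 * ((k : ℝ) ^ 2 + k) ≤ 4 * (k ^ 2 + k) * L := by
      have : (0 : ℝ) ≤ 4 * (k ^ 2 + k) := by positivity
      nlinarith
    rw [hK]
    nlinarith
  have hsum := summable_log a d hadm hD
  have hdiff : |∑' p : Nat.Primes, Real.log (gg a d p) - ∑ p ∈ s0 z, Real.log (gg a d p)| ≤ K * L / z := by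
    have hlim : Filter.Tendsto (fun s : Finset Nat.Primes =>
        |∑ p ∈ s, Real.log (gg a d p) - ∑ p ∈ s0 z, Real.log (gg a d p)|) Filter.atTop
        (nhds |∑' p : Nat.Primes, Real.log (gg a d p) - ∑ p ∈ s0 z, Real.log (gg a d p)|) :=
      (hsum.hasSum.sub_const _).abs
    refine le_of_tendsto hlim ?_
    filter_upwards [Filter.eventually_ge_atTop (s0 z)] with s hs
    rw [← sum_sdiff hs, add_sub_cancel_right]
    refine (abs_sum_le_sum_abs _ _).trans (htail _ ?_)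
    intro p hp
    rw [mem_sdiff, mem_s0] at hp
    omega
  rw [serp_eq a d hadm hD, sgp_eq a d hadm z]
  refine ⟨Real.exp_pos _, ?_⟩
  obtain ⟨S, hS⟩ : ∃ S : ℝ, S = ∑' p : Nat.Primes, Real.log (gg a d p) := ⟨_, rfl⟩
  obtain ⟨S0, hS0⟩ : ∃ S0 : ℝ, S0 = ∑ p ∈ s0 z, Real.log (gg a d p) := ⟨_, rfl⟩
  rw [← hS, ← hS0] at hdiff ⊢
  have hz3 : L ^ 3 ≤ z := hz
  have hKL1 : K * L / z ≤ 1 := by
    rw [div_le_one hz0]
    have : K * L ≤ L ^ 3 := by
      have : K ≤ L ^ 2 := by nlinarith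
      nlinarith
    linarith
  have hKL2 : 2 * (K * L / z) ≤ L ^ 2 / z := by
    rw [← mul_div_assoc]
    apply div_le_div_of_nonneg_right _ hz0.le
    nlinarith
  have e1 : Real.exp S0 - Real.exp S = Real.exp S * (Real.exp (S0 - S) - 1) := by
    rw [mul_sub, ← Real.exp_add, mul_one]
    congr 2
    ring
  rw [e1, abs_mul, abs_of_pos (Real.exp_pos S)]
  apply mul_le_mul_of_nonneg_left _ (Real.exp_pos S).le
  have hd' : |S0 - S| ≤ K * L / z := by rw [abs_sub_comm]; exact hdiff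
  calc |Real.exp (S0 - S) - 1| ≤ 2 * |S0 - S| := Real.abs_exp_sub_one_le (hd'.trans hKL1)
    _ ≤ 2 * (K * L / z) := by linarith
    _ ≤ _ := hKL2

end Pool.Agent.helper24_UT.Tlp
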