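/-
UT_TLD   (project UT of helper24: primes at almost all systems of polynomials; very_famous ids, partial results)
TARGET: prove the theorem at the end. Its statement uses the definitions in the modules Pool/Agent/helper24_UT/Stm.lean, Stm2.lean, Stm5.lean, Stm7.lean, Stm8.lean, Stm9.lean, Stm11.lean, Stm12.lean, Stm13.lean
(on origin/main; `git -C /workdir/pool/outputs/live pull`, then copy these files and the starting modules they import
to the same paths under /workdir/pool). You may import Mathlib and ANY starting module (copy it with its closure from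
outputs/live). READ the statement files first.
If the file named below helps, copy from it or import it. Put helper lemmas in the namespace below, do not change the target statement, no sorry, no native_decide, no new axioms,
no straight double quotes in the file. Paste the full proved file back as the result. If the statement is false or a
constant does not work out, set status='problem' and say exactly why.

PLAIN PROOF
Variant of S_TLP (Pool/Agent/helper24_UT/Tlp.lean) and S_SER3 (Ser3.lean): the partial products sg z of the linear polynomials c_i + b_i X (pl (fun _ => 0) (fun i => (b i, c i)) i evaluates to b_i t + c_i) and the infinite product serD. om p = nuD p (number of t mod p with p | some b_i t + c_i).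
AdmD: no prime divides all the products, so om p < p for all p (the value at a natural number n depends on n mod p), and no form vanishes identically mod p, so om p <= k. For p not dividing D := prod b_i * prod_{i<j} (b_i c_j - b_j c_i) (nonzero, |D| <= (2H^2)^(k^2+k)): om p = min... each form has exactly one zero and they are different: om p = k.
The factor (1 - k/p)/(1-1/p)^k = 1 + O(1/p^2) for p > 2k. So the product converges, is positive, and sg z/serD = prod_{p>z}^(-1): the primes p > z dividing D are at most C_k L/log z, factors 1 + O(1/z); the others exp(O(1/z)): |sg z/serD - 1| <= C' L/z <= L^2/z.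
-/
import Pool.Agent.helper24_UT.Stm13
import Pool.Agent.helper24_UT.Tlp

set_option autoImplicit false

namespace Pool.Agent.helper24_UT.Tld

open Finset Polynomial
open Pool.Agent.helper24_UT
open Pool.Agent.H373R2.T7 (lamI lamzI lamz Vz pz lamP)
open Pool.Agent.H807R2.Dav (ee)
open Pool.Agent.helper24_UT.Tlp (abs_log_le sum_inv_sq card_le_log s0 mem_s0)

/-! ### the local factors -/

theorem fac1 (k : ℕ) (p w : ℝ) (hp : 4 * (k : ℝ) + 4 ≤ p) (hw0 : 0 ≤ w) (hwk : w ≤ k) :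
    |(1 - w / p) / (1 - 1 / p) ^ k - 1| ≤ 2 * k / p := by
  have hk : (0 : ℝ) ≤ k := Nat.cast_nonneg k
  have hp0 : 0 < p := by linarith
  have hx : 1 / p ≤ 1 := by rw [div_le_one hp0]; linarith
  have hx0 : 0 ≤ 1 / p := by positivity
  have hx1 : 0 < 1 - 1 / p := by
    have : 1 / p < 1 := by rw [div_lt_one hp0]; linarith
    linarith
  have hu1 : (1 - 1 / p) ^ k ≤ 1 := pow_le_one₀ hx1.le (by linarith)
  have hu0 : 0 < (1 - 1 / p) ^ k := pow_pos hx1 k
  have hb : 1 - (k : ℝ) / p ≤ (1 - 1 / p) ^ k := by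
    have := one_add_mul_le_pow (a := -(1 / p)) (by linarith) k
    have e1 : (1 : ℝ) + (k : ℝ) * -(1 / p) = 1 - (k : ℝ) / p := by ring
    have e2 : (1 : ℝ) + -(1 / p) = 1 - 1 / p := by ring
    rw [e1, e2] at this
    exact this
  have hkp : (k : ℝ) / p ≤ 1 / 4 := by rw [div_le_div_iff₀ hp0 (by norm_num)]; linarith
  have hkp0 : 0 ≤ (k : ℝ) / p := by positivity
  have hw1 : w / p ≤ k / p := by gcongr
  have hw2 : 0 ≤ w / p := div_nonneg hw0 hp0.le
  have e : 2 * (k : ℝ) / p = 2 * (k / p) := by ring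
  rw [e, abs_le]
  constructor
  · have : 1 - w / p ≤ (1 - w / p) / (1 - 1 / p) ^ k := by
      rw [le_div_iff₀ hu0]
      have : 0 ≤ 1 - w / p := by linarith
      nlinarith
    linarith
  · have : (1 - w / p) / (1 - 1 / p) ^ k ≤ 1 + 2 * (k / p) := by
      rw [div_le_iff₀ hu0]
      nlinarith
    linarith

theorem fac2 (k : ℕ) (p : ℝ) (hp : 4 * (k : ℝ) + 4 ≤ p) :
    |(1 - (k : ℝ) / p) / (1 - 1 / p) ^ k - 1| ≤ 2 * (k ^ 2 + k) / p ^ 2 := by
  have hk : (0 : ℝ) ≤ k := Nat.cast_nonneg k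
  have hp0 : 0 < p := by linarith
  have hx0 : 0 ≤ 1 / p := by positivity
  have hx1 : 0 < 1 - 1 / p := by
    have : 1 / p < 1 := by rw [div_lt_one hp0]; linarith
    linarith
  have hu0 : 0 < (1 - 1 / p) ^ k := pow_pos hx1 k
  have hb : 1 - (k : ℝ) / p ≤ (1 - 1 / p) ^ k := by
    have := one_add_mul_le_pow (a := -(1 / p)) (by linarith [(by rw [div_le_one hp0]; linarith : 1 / p ≤ 1)]) k
    have e1 : (1 : ℝ) + (k : ℝ) * -(1 / p) = 1 - (k : ℝ) / p := by ring
    have e2 : (1 : ℝ) + -(1 / p) = 1 - 1 / p := by ring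
    rw [e1, e2] at this
    exact this
  have hN0 : 0 ≤ 1 - (k : ℝ) / p := by
    have : (k : ℝ) / p ≤ 1 := by rw [div_le_one hp0]; linarith
    linarith
  have hC : (0 : ℝ) ≤ 2 * (k ^ 2 + k) / p ^ 2 := by positivity
  rw [abs_le]
  constructor
  · have h3 : 1 + 1 / p ≤ (1 - 1 / p)⁻¹ := by
      rw [← one_div, le_div_iff₀ hx1]
      have : 0 ≤ (1 / p) ^ 2 := by positivity
      nlinarith
    have h4 : 1 + (k : ℝ) / p ≤ ((1 - 1 / p)⁻¹) ^ k := by
      have h5 := one_add_mul_le_pow (a := (1 / p)) (by linarith) k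
      calc 1 + (k : ℝ) / p = 1 + (k : ℝ) * (1 / p) := by ring
        _ ≤ (1 + 1 / p) ^ k := h5
        _ ≤ _ := pow_le_pow_left₀ (by positivity) h3 k
    have h6 : (1 - (k : ℝ) / p) * (1 + k / p) ≤ (1 - (k : ℝ) / p) / (1 - 1 / p) ^ k := by
      rw [div_eq_mul_inv (1 - (k : ℝ) / p) ((1 - 1 / p) ^ k), ← inv_pow]
      exact mul_le_mul_of_nonneg_left h4 hN0
    have h7 : (1 - (k : ℝ) / p) * (1 + k / p) = 1 - k ^ 2 / p ^ 2 := by
      field_simp
      ring
    have h8 : ((k : ℝ) ^ 2) / p ^ 2 ≤ 2 * (k ^ 2 + k) / p ^ 2 := by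
      apply div_le_div_of_nonneg_right _ (by positivity)
      nlinarith [sq_nonneg (k : ℝ)]
    linarith
  · have : (1 - (k : ℝ) / p) / (1 - 1 / p) ^ k ≤ 1 := by
      rw [div_le_one hu0]; linarith
    linarith

/-! ### the number of the classes -/

section cls
variable {k : ℕ} (b c : Fin k → ℕ)

theorem om_eq (p : ℕ) : om (pl (fun _ => 0) (fun i => (b i, c i))) p = nuD b c p := by
  classical
  unfold om nuD
  congr 1
  ext t
  simp only [mem_filter, mem_range, pl, eval_add, eval_mul, eval_C, eval_X, eval_zero, zero_add]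
  refine and_congr_right fun _ => exists_congr fun i => ?_
  exact_mod_cast Iff.rfl

theorem nu_lt {p : ℕ} (hp : p.Prime) (hn : ∃ n : ℕ, ∀ i, ¬ p ∣ b i * n + c i) :
    nuD b c p + 1 ≤ p := by
  classical
  obtain ⟨n, hn2⟩ := hn
  unfold nuD
  have hsub : (range p).filter (fun t : ℕ => ∃ i, p ∣ b i * t + c i) ⊆ (range p).erase (n % p) := by
    intro t ht
    rw [mem_filter] at ht
    rw [mem_erase]
    refine ⟨?_, ht.1⟩
    rintro rfl
    obtain ⟨-, i, hi⟩ := ht
    apply hn2 i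
    have h1 : (b i * n + c i) ≡ (b i * (n % p) + c i) [MOD p] :=
      Nat.ModEq.add_right _ (Nat.ModEq.mul_left _ (Nat.mod_modEq n p).symm)
    exact (h1.dvd_iff (dvd_refl p)).2 hi
  have h1 := card_le_card hsub
  rw [card_erase_of_mem (mem_range.2 (Nat.mod_lt _ hp.pos)), card_range] at h1
  have := hp.two_le
  omega

theorem nu_le {p : ℕ} (hp : p.Prime) (hn : ∃ n : ℕ, ∀ i, ¬ p ∣ b i * n + c i) :
    nuD b c p ≤ k := by
  classical
  obtain ⟨n, hn2⟩ := hn
  unfold nuD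
  have hsub : (range p).filter (fun t : ℕ => ∃ i, p ∣ b i * t + c i) ⊆
      (univ : Finset (Fin k)).biUnion (fun i => (range p).filter (fun t : ℕ => p ∣ b i * t + c i)) := by
    intro t ht
    rw [mem_filter] at ht
    obtain ⟨h1, i, hi⟩ := ht
    exact mem_biUnion.2 ⟨i, mem_univ _, mem_filter.2 ⟨h1, hi⟩⟩
  refine (card_le_card hsub).trans ((card_biUnion_le_card_mul _ _ 1 ?_).trans (by simp))
  intro i _
  rw [card_le_one]
  intro t ht t' ht'
  rw [mem_filter, mem_range] at ht ht'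
  have hpd : ¬ (p : ℤ) ∣ (b i : ℤ) := by
    intro h
    have h0 : p ∣ b i := by exact_mod_cast h
    apply hn2 i
    have h1 : p ∣ c i := (Nat.dvd_add_right (Dvd.dvd.mul_right h0 t)).1 ht.2
    exact dvd_add (Dvd.dvd.mul_right h0 _) h1
  have a1 : (p : ℤ) ∣ (b i : ℤ) * t + c i := by exact_mod_cast ht.2
  have a2 : (p : ℤ) ∣ (b i : ℤ) * t' + c i := by exact_mod_cast ht'.2
  have h2 : (p : ℤ) ∣ (b i : ℤ) * ((t : ℤ) - t') := by
    have := dvd_sub a1 a2
    have e : ((b i : ℤ) * t + c i) - (b i * t' + c i) = b i * ((t : ℤ) - t') := by ring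
    rwa [e] at this
  have h3 : (p : ℤ) ∣ (t : ℤ) - t' := (Nat.prime_iff_prime_int.1 hp).dvd_or_dvd h2 |>.resolve_left hpd
  have h5 : (t' : ℤ) % p = (t : ℤ) % p := Int.modEq_iff_dvd.2 h3
  rw [Int.emod_eq_of_lt (by positivity) (by exact_mod_cast ht'.1),
    Int.emod_eq_of_lt (by positivity) (by exact_mod_cast ht.1)] at h5
  exact_mod_cast h5.symm

/-- the product of the coefficients and of the resultants -/
noncomputable def DD : ℤ := (∏ i, (b i : ℤ)) *
  ∏ q ∈ (univ : Finset (Fin k × Fin k)).filter (fun q => q.1 ≠ q.2),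
    ((b q.1 : ℤ) * c q.2 - (b q.2 : ℤ) * c q.1)

theorem le_nu {p : ℕ} (hp : p.Prime) (hD : ¬ (p : ℤ) ∣ DD b c) : k ≤ nuD b c p := by
  classical
  have : Fact p.Prime := ⟨hp⟩
  have h1 : ∀ i, ¬ (p : ℤ) ∣ (b i : ℤ) := by
    intro i h
    apply hD
    exact Dvd.dvd.mul_right (h.trans (dvd_prod_of_mem (fun i => (b i : ℤ)) (mem_univ i))) _
  have h2 : ∀ i j, i ≠ j → ¬ (p : ℤ) ∣ (b i : ℤ) * c j - (b j : ℤ) * c i := by
    intro i j hij h
    apply hD
    refine Dvd.dvd.mul_left (h.trans ?_) _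
    exact dvd_prod_of_mem (fun q : Fin k × Fin k => (b q.1 : ℤ) * c q.2 - (b q.2 : ℤ) * c q.1)
      (mem_filter.2 ⟨mem_univ (i, j), hij⟩)
  have hd : ∀ i, ((b i : ℕ) : ZMod p) ≠ 0 := by
    intro i h
    apply h1 i
    have : ((b i : ℤ) : ZMod p) = 0 := by exact_mod_cast h
    exact (ZMod.intCast_zmod_eq_zero_iff_dvd _ _).1 this
  set T : Fin k → ℕ := fun i => (-((c i : ℕ) : ZMod p) * ((b i : ℕ) : ZMod p)⁻¹).val with hT
  have hTc : ∀ i, ((T i : ℕ) : ZMod p) = -((c i : ℕ) : ZMod p) * ((b i : ℕ) : ZMod p)⁻¹ := by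
    intro i
    rw [hT]
    exact ZMod.natCast_zmod_val _
  unfold nuD
  have hcard : k = (univ : Finset (Fin k)).card := by simp
  refine hcard.le.trans ?_
  apply card_le_card_of_injOn T
  · intro i _
    rw [mem_coe, mem_filter]
    refine ⟨mem_range.2 (ZMod.val_lt _), i, ?_⟩
    rw [← ZMod.natCast_eq_zero_iff]
    push_cast
    rw [hTc i]
    have := hd i
    field_simp
    ring
  · intro i _ j _ hij
    by_contra hne
    apply h2 i j hne
    rw [← ZMod.intCast_zmod_eq_zero_iff_dvd]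
    have h3 : ((T i : ℕ) : ZMod p) = ((T j : ℕ) : ZMod p) := by rw [hij]
    rw [hTc i, hTc j] at h3
    have hi := hd i
    have hj := hd j
    push_cast
    field_simp at h3
    linear_combination h3

theorem DD_ne (h0 : ∀ i, 1 ≤ b i) (h1 : ∀ i j, i ≠ j → b i * c j ≠ b j * c i) :
    DD b c ≠ 0 := by
  unfold DD
  apply mul_ne_zero
  · rw [prod_ne_zero_iff]
    intro i _
    have := h0 i
    exact_mod_cast (by omega : b i ≠ 0)
  · rw [prod_ne_zero_iff]
    intro q hq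
    have := h1 q.1 q.2 (mem_filter.1 hq).2
    exact sub_ne_zero.2 (by exact_mod_cast this)

theorem DD_le (H : ℕ) (hH : 2 ≤ H) (h0 : ∀ i, b i ≤ H ∧ c i ≤ H) :
    |(DD b c : ℝ)| ≤ (H : ℝ) ^ (k + 3 * k ^ 2) := by
  have hH1 : (2 : ℝ) ≤ H := by exact_mod_cast hH
  have hH0 : (0 : ℝ) ≤ H := by linarith
  have hb : ∀ i, |((b i : ℕ) : ℝ)| ≤ H := by
    intro i
    have := (h0 i).1
    rw [abs_of_nonneg (Nat.cast_nonneg _)]
    exact_mod_cast this
  have hc : ∀ i, |((c i : ℕ) : ℝ)| ≤ H := by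
    intro i
    have := (h0 i).2
    rw [abs_of_nonneg (Nat.cast_nonneg _)]
    exact_mod_cast this
  have hmul : ∀ i j, |((b i : ℕ) : ℝ) * ((c j : ℕ) : ℝ)| ≤ (H : ℝ) ^ 2 := by
    intro i j
    rw [abs_mul, pow_two]
    exact mul_le_mul (hb i) (hc j) (abs_nonneg _) hH0
  unfold DD
  push_cast
  rw [abs_mul, abs_prod, abs_prod, pow_add]
  apply mul_le_mul
  · calc ∏ i, |((b i : ℕ) : ℝ)| ≤ ∏ _i : Fin k, (H : ℝ) :=
          prod_le_prod (fun i _ => abs_nonneg _) (fun i _ => hb i)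
      _ = (H : ℝ) ^ k := by simp
  · calc ∏ q ∈ (univ : Finset (Fin k × Fin k)).filter (fun q => q.1 ≠ q.2),
          |((b q.1 : ℕ) : ℝ) * ((c q.2 : ℕ) : ℝ) - ((b q.2 : ℕ) : ℝ) * ((c q.1 : ℕ) : ℝ)|
        ≤ ∏ q ∈ (univ : Finset (Fin k × Fin k)).filter (fun q => q.1 ≠ q.2), (H : ℝ) ^ 3 := by
          apply prod_le_prod (fun q _ => abs_nonneg _)
          intro q _
          have e1 := hmul q.1 q.2
          have e2 := hmul q.2 q.1
          have e3 := abs_sub (((b q.1 : ℕ) : ℝ) * ((c q.2 : ℕ) : ℝ)) (((b q.2 : ℕ) : ℝ) * ((c q.1 : ℕ) : ℝ))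
          have e4 : (H : ℝ) ^ 2 + (H : ℝ) ^ 2 ≤ (H : ℝ) ^ 3 := by
            have : (H : ℝ) ^ 3 = H * (H : ℝ) ^ 2 := by ring
            rw [this]
            nlinarith [sq_nonneg (H : ℝ)]
          linarith
      _ = ((H : ℝ) ^ 3) ^ ((univ : Finset (Fin k × Fin k)).filter (fun q => q.1 ≠ q.2)).card := by
          rw [prod_const]
      _ ≤ ((H : ℝ) ^ 3) ^ (k ^ 2) := by
          apply pow_le_pow_right₀ (one_le_pow₀ (by linarith))
          refine (card_le_card (filter_subset _ _)).trans ?_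
          simp [pow_two]
      _ = (H : ℝ) ^ (3 * k ^ 2) := by rw [← pow_mul]
  · exact prod_nonneg fun _ _ => abs_nonneg _
  · positivity

/-- the local factor -/
noncomputable def gg (p : ℕ) : ℝ :=
  (1 - (nuD b c p : ℝ) / (p : ℝ)) / (1 - 1 / (p : ℝ)) ^ k

theorem gg_pos {p : ℕ} (hp : p.Prime) (hn : ∃ n : ℕ, ∀ i, ¬ p ∣ b i * n + c i) : 0 < gg b c p := by
  have h1 := nu_lt b c hp hn
  have h2 : (nuD b c p : ℝ) + 1 ≤ p := by exact_mod_cast h1
  have h3 : (0 : ℝ) ≤ nuD b c p := Nat.cast_nonneg _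
  have h4 : (2 : ℝ) ≤ p := by exact_mod_cast hp.two_le
  have hp1 : (0 : ℝ) < (p : ℝ) := by linarith
  have hx : 1 / (p : ℝ) < 1 := by rw [div_lt_one (by linarith)]; linarith
  have hw : (nuD b c p : ℝ) / (p : ℝ) < 1 := by rw [div_lt_one hp1]; linarith
  unfold gg
  exact div_pos (by linarith) (pow_pos (by linarith) k)

theorem gg_log1 {p : ℕ} (hp : p.Prime) (hn : ∃ n : ℕ, ∀ i, ¬ p ∣ b i * n + c i)
    (hpk : 4 * (k : ℝ) + 4 ≤ p) : |Real.log (gg b c p)| ≤ 4 * k / p := by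
  have h1 : (nuD b c p : ℝ) ≤ k := by exact_mod_cast nu_le b c hp hn
  have h2 := fac1 k p (nuD b c p) hpk (Nat.cast_nonneg _) h1
  have hk : (0 : ℝ) ≤ k := Nat.cast_nonneg k
  have hp0 : (0 : ℝ) < p := by linarith
  have h3 : 2 * (k : ℝ) / p ≤ 1 / 2 := by
    rw [div_le_div_iff₀ hp0 (by norm_num)]; linarith
  have h4 := abs_log_le (gg b c p) (h2.trans h3)
  have h5 : 2 * |gg b c p - 1| ≤ 2 * (2 * k / p) := by
    have : |gg b c p - 1| ≤ 2 * k / p := h2
    linarith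
  calc _ ≤ 2 * (2 * (k : ℝ) / p) := h4.trans h5
    _ = 4 * k / p := by ring

theorem gg_log2 {p : ℕ} (hp : p.Prime) (hn : ∃ n : ℕ, ∀ i, ¬ p ∣ b i * n + c i)
    (hpk : 4 * (k : ℝ) + 4 ≤ p) (hD : ¬ (p : ℤ) ∣ DD b c) :
    |Real.log (gg b c p)| ≤ 4 * (k ^ 2 + k) * ((p : ℝ) ^ 2)⁻¹ := by
  have h1 : nuD b c p = k := le_antisymm (nu_le b c hp hn) (le_nu b c hp hD)
  have hk : (0 : ℝ) ≤ k := Nat.cast_nonneg k
  have hp0 : (0 : ℝ) < p := by linarith
  have e0 : gg b c p = (1 - (k : ℝ) / (p : ℝ)) / (1 - 1 / (p : ℝ)) ^ k := by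
    unfold gg; rw [h1]
  have h2 := fac2 k p hpk
  have h2' := fac1 k p k hpk hk le_rfl
  rw [← e0] at h2 h2'
  have h3 : 2 * (k : ℝ) / p ≤ 1 / 2 := by
    rw [div_le_div_iff₀ hp0 (by norm_num)]; linarith
  have h4 := abs_log_le (gg b c p) (h2'.trans h3)
  calc _ ≤ 2 * (2 * ((k : ℝ) ^ 2 + k) / p ^ 2) := by linarith
    _ = 4 * (k ^ 2 + k) * ((p : ℝ) ^ 2)⁻¹ := by ring

/-- tails of the sum of the logarithms -/
theorem tail_le (hadm : ∀ p : ℕ, p.Prime → ∃ n : ℕ, ∀ i, ¬ p ∣ b i * n + c i)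
    (hD : DD b c ≠ 0) (z : ℕ) (hz1 : 1 ≤ z) (hz : 4 * (k : ℝ) + 4 ≤ z) (s : Finset Nat.Primes)
    (hs : ∀ p ∈ s, z < (p : ℕ)) :
    ∑ p ∈ s, |Real.log (gg b c p)| ≤
      ((DD b c).natAbs.primeFactors.card * (4 * k) + 4 * (k ^ 2 + k)) / z := by
  classical
  have hk : (0 : ℝ) ≤ k := Nat.cast_nonneg k
  have hz0 : (0 : ℝ) < z := by exact_mod_cast hz1
  have h1 : ∀ p ∈ s, |Real.log (gg b c p)| ≤
      (if ((p : ℕ) : ℤ) ∣ DD b c then 4 * (k : ℝ) / z else 0) +
        4 * (k ^ 2 + k) * (((p : ℕ) : ℝ) ^ 2)⁻¹ := by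
    intro p hp
    have hzp : (z : ℝ) ≤ ((p : ℕ) : ℝ) := by exact_mod_cast (hs p hp).le
    have hpk := hz.trans hzp
    split_ifs with h
    · have := gg_log1 b c p.2 (hadm p p.2) hpk
      have h2 : 4 * (k : ℝ) / ((p : ℕ) : ℝ) ≤ 4 * k / z := by gcongr
      have h3 : 0 ≤ 4 * ((k : ℝ) ^ 2 + k) * (((p : ℕ) : ℝ) ^ 2)⁻¹ := by positivity
      linarith
    · have := gg_log2 b c p.2 (hadm p p.2) hpk h
      linarith
  have h2 : ∑ p ∈ s, (if ((p : ℕ) : ℤ) ∣ DD b c then 4 * (k : ℝ) / z else 0) ≤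
      (DD b c).natAbs.primeFactors.card * (4 * k / z) := by
    rw [← sum_filter, sum_const, nsmul_eq_mul]
    apply mul_le_mul_of_nonneg_right _ (by positivity)
    have : (s.filter (fun p : Nat.Primes => ((p : ℕ) : ℤ) ∣ DD b c)).card ≤
        (DD b c).natAbs.primeFactors.card := by
      apply card_le_card_of_injOn (fun p : Nat.Primes => (p : ℕ))
      · intro p hp
        rw [mem_coe, mem_filter] at hp
        rw [mem_coe, Nat.mem_primeFactors]
        exact ⟨p.2, Int.natCast_dvd.1 hp.2, Int.natAbs_ne_zero.2 hD⟩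
      · exact Subtype.val_injective.injOn
    exact_mod_cast this
  have h3 : ∑ p ∈ s, 4 * ((k : ℝ) ^ 2 + k) * (((p : ℕ) : ℝ) ^ 2)⁻¹ ≤ 4 * (k ^ 2 + k) * (z : ℝ)⁻¹ := by
    rw [← mul_sum]
    apply mul_le_mul_of_nonneg_left _ (by positivity)
    have e : ∑ p ∈ s, (((p : ℕ) : ℝ) ^ 2)⁻¹ =
        ∑ n ∈ s.image (fun p : Nat.Primes => (p : ℕ)), ((n : ℝ) ^ 2)⁻¹ := by
      rw [sum_image]
      intro x _ y _ hxy
      exact Subtype.val_injective hxy
    rw [e]
    apply sum_inv_sq z hz1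
    intro n hn
    obtain ⟨p, hp, rfl⟩ := mem_image.1 hn
    exact hs p hp
  calc _ ≤ ∑ p ∈ s, ((if ((p : ℕ) : ℤ) ∣ DD b c then 4 * (k : ℝ) / z else 0) +
        4 * (k ^ 2 + k) * (((p : ℕ) : ℝ) ^ 2)⁻¹) := sum_le_sum h1
    _ ≤ (DD b c).natAbs.primeFactors.card * (4 * k / z) + 4 * (k ^ 2 + k) * (z : ℝ)⁻¹ := by
        rw [sum_add_distrib]; linarith
    _ = _ := by field_simp

theorem summable_log (hadm : ∀ p : ℕ, p.Prime → ∃ n : ℕ, ∀ i, ¬ p ∣ b i * n + c i)
    (hD : DD b c ≠ 0) : Summable (fun p : Nat.Primes => Real.log (gg b c p)) := by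
  have hg : Summable (fun p : Nat.Primes => 4 * ((k : ℝ) ^ 2 + k) * (((p : ℕ) : ℝ) ^ 2)⁻¹) := by
    apply Summable.mul_left
    exact (Real.summable_nat_pow_inv.2 (by norm_num : 1 < 2)).comp_injective
      (Subtype.val_injective)
  apply Summable.of_norm_bounded_eventually hg
  have hfin : {p : Nat.Primes | (p : ℕ) ≤ 4 * k + 4 + (DD b c).natAbs}.Finite := by
    apply Set.Finite.of_finite_image (f := (fun p : Nat.Primes => (p : ℕ)))
    · apply (Set.finite_Iic (4 * k + 4 + (DD b c).natAbs)).subset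
      rintro _ ⟨p, hp, rfl⟩
      exact hp
    · exact Subtype.val_injective.injOn
  rw [Filter.eventually_cofinite]
  apply hfin.subset
  intro p hp
  simp only [Set.mem_ofPred_eq] at hp ⊢
  by_contra hcon
  push Not at hcon
  apply hp
  rw [Real.norm_eq_abs]
  apply gg_log2 b c p.2 (hadm p p.2)
  · have : 4 * k + 4 ≤ (p : ℕ) := by omega
    exact_mod_cast this
  · intro h
    have h1 := Int.natCast_dvd.1 h
    have h2 := Nat.le_of_dvd (Int.natAbs_pos.2 hD) h1
    omega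

theorem ser_eq (hadm : ∀ p : ℕ, p.Prime → ∃ n : ℕ, ∀ i, ¬ p ∣ b i * n + c i)
    (hD : DD b c ≠ 0) : serD b c = Real.exp (∑' p : Nat.Primes, Real.log (gg b c p)) := by
  have := Real.rexp_tsum_eq_tprod (fun p : Nat.Primes => gg_pos b c p.2 (hadm p p.2))
    (summable_log b c hadm hD)
  rw [this]
  rfl

theorem sg_eq (hadm : ∀ p : ℕ, p.Prime → ∃ n : ℕ, ∀ i, ¬ p ∣ b i * n + c i)
    (z : ℕ) : sg z (pl (fun _ => 0) (fun i => (b i, c i))) =
      Real.exp (∑ p ∈ s0 z, Real.log (gg b c p)) := by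
  rw [Real.exp_sum]
  have e1 : ∏ p ∈ s0 z, Real.exp (Real.log (gg b c p)) = ∏ p ∈ s0 z, gg b c (p : ℕ) :=
    prod_congr rfl fun p _ => Real.exp_log (gg_pos b c p.2 (hadm p p.2))
  rw [e1]
  have e2 : sg z (pl (fun _ => 0) (fun i => (b i, c i))) = ∏ p ∈ pz z, gg b c p := by
    unfold sg
    refine prod_congr rfl fun p _ => ?_
    rw [om_eq]
    rfl
  rw [e2]
  unfold s0
  symm
  refine (prod_preimage (fun p : Nat.Primes => (p : ℕ)) _ Subtype.val_injective.injOn
    (fun p : ℕ => gg b c p) ?_)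
  intro p hp hp2
  exact absurd ⟨⟨p, (mem_filter.1 hp).2⟩, rfl⟩ hp2

end cls

theorem main : S_TLD := by
  intro k
  have hk : (0 : ℝ) ≤ k := Nat.cast_nonneg k
  obtain ⟨K, hK⟩ : ∃ K : ℝ, K = 8 * k * (k + 3 * k ^ 2) + 4 * (k ^ 2 + k) := ⟨_, rfl⟩
  have hK0 : 0 ≤ K := by rw [hK]; positivity
  obtain ⟨H₀, hH₀⟩ := exists_nat_ge (Real.exp (2 * K + 4 * k + 4))
  refine ⟨max H₀ 2, ?_⟩
  intro H hH b c h0 hA z hz
  obtain ⟨h1, hadm⟩ := hA
  have hH2 : 2 ≤ H := (le_max_right _ _).trans hH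
  have hHH : (H₀ : ℝ) ≤ H := by exact_mod_cast (le_max_left _ _).trans hH
  have hHpos : (0 : ℝ) < H := by have : (2 : ℝ) ≤ H := by exact_mod_cast hH2
                                 linarith
  obtain ⟨L, hL⟩ : ∃ L : ℝ, L = Real.log H := ⟨_, rfl⟩
  have hL0 : 2 * K + 4 * k + 4 ≤ L := by
    rw [hL, Real.le_log_iff_exp_le hHpos]
    exact hH₀.trans hHH
  rw [← hL] at hz ⊢
  have hL1 : 1 ≤ L := by linarith
  have hL3 : L ≤ L ^ 3 := by
    have : (1 : ℝ) ≤ L ^ 2 := one_le_pow₀ hL1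
    nlinarith
  have hzL : L ≤ z := hL3.trans hz
  have hz1 : 1 ≤ z := by
    have : (1 : ℝ) ≤ z := hL1.trans hzL
    exact_mod_cast this
  have hz0 : (0 : ℝ) < z := by exact_mod_cast hz1
  have hD : DD b c ≠ 0 := DD_ne b c (fun i => (h0 i).1) h1
  have hDle := DD_le b c H hH2 (fun i => ⟨(h0 i).2.1, (h0 i).2.2.2⟩)
  have hcard : ((DD b c).natAbs.primeFactors.card : ℝ) ≤ 2 * ((k + 3 * k ^ 2) * L) := by
    have e1 := card_le_log (DD b c).natAbs (Int.natAbs_ne_zero.2 hD)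
    have e2 : (((DD b c).natAbs : ℕ) : ℝ) = |(DD b c : ℝ)| := by
      rw [Nat.cast_natAbs]; push_cast; rfl
    rw [e2] at e1
    have e3 : Real.log |(DD b c : ℝ)| ≤ (k + 3 * k ^ 2 : ℕ) * L := by
      rw [hL, ← Real.log_pow]
      apply Real.log_le_log _ hDle
      exact abs_pos.2 (by exact_mod_cast hD)
    push_cast at e3
    linarith
  have htail : ∀ s : Finset Nat.Primes, (∀ p ∈ s, z < (p : ℕ)) →
      ∑ p ∈ s, |Real.log (gg b c p)| ≤ K * L / z := by
    intro s hs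
    refine (tail_le b c hadm hD z hz1 (by linarith) s hs).trans ?_
    apply div_le_div_of_nonneg_right _ hz0.le
    have e1 : ((DD b c).natAbs.primeFactors.card : ℝ) * (4 * k) ≤
        2 * ((k + 3 * k ^ 2) * L) * (4 * k) := mul_le_mul_of_nonneg_right hcard (by positivity)
    have e2 : 4 * ((k : ℝ) ^ 2 + k) ≤ 4 * (k ^ 2 + k) * L := by
      have : (0 : ℝ) ≤ 4 * (k ^ 2 + k) := by positivity
      nlinarith
    rw [hK]
    nlinarith
  have hsum := summable_log b c hadm hD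
  have hdiff : |∑' p : Nat.Primes, Real.log (gg b c p) - ∑ p ∈ s0 z, Real.log (gg b c p)| ≤ K * L / z := by
    have hlim : Filter.Tendsto (fun s : Finset Nat.Primes =>
        |∑ p ∈ s, Real.log (gg b c p) - ∑ p ∈ s0 z, Real.log (gg b c p)|) Filter.atTop
        (nhds |∑' p : Nat.Primes, Real.log (gg b c p) - ∑ p ∈ s0 z, Real.log (gg b c p)|) :=
      (hsum.hasSum.sub_const _).abs
    refine le_of_tendsto hlim ?_
    filter_upwards [Filter.eventually_ge_atTop (s0 z)] with s hs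
    rw [← sum_sdiff hs, add_sub_cancel_right]
    refine (abs_sum_le_sum_abs _ _).trans (htail _ ?_)
    intro p hp
    rw [mem_sdiff, mem_s0] at hp
    omega
  rw [ser_eq b c hadm hD, sg_eq b c hadm z]
  refine ⟨Real.exp_pos _, ?_⟩
  obtain ⟨S, hS⟩ : ∃ S : ℝ, S = ∑' p : Nat.Primes, Real.log (gg b c p) := ⟨_, rfl⟩
  obtain ⟨S0, hS0⟩ : ∃ S0 : ℝ, S0 = ∑ p ∈ s0 z, Real.log (gg b c p) := ⟨_, rfl⟩
  rw [← hS, ← hS0] at hdiff ⊢
  have hz3 : L ^ 3 ≤ z := hz
  have hKL1 : K * L / z ≤ 1 := by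
    rw [div_le_one hz0]
    have : K * L ≤ L ^ 3 := by
      have : K ≤ L ^ 2 := by nlinarith
      nlinarith
    linarith
  have hKL2 : 2 * (K * L / z) ≤ L ^ 2 / z := by
    rw [← mul_div_assoc]
    apply div_le_div_of_nonneg_right _ hz0.le
    nlinarith
  have e1 : Real.exp S0 - Real.exp S = Real.exp S * (Real.exp (S0 - S) - 1) := by
    rw [mul_sub, ← Real.exp_add, mul_one]
    congr 2
    ring
  rw [e1, abs_mul, abs_of_pos (Real.exp_pos S)]
  apply mul_le_mul_of_nonneg_left _ (Real.exp_pos S).le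
  have hd' : |S0 - S| ≤ K * L / z := by rw [abs_sub_comm]; exact hdiff
  calc |Real.exp (S0 - S) - 1| ≤ 2 * |S0 - S| := Real.abs_exp_sub_one_le (hd'.trans hKL1)
    _ ≤ 2 * (K * L / z) := by linarith
    _ ≤ _ := hKL2

end Pool.Agent.helper24_UT.Tld
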