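import Pool.Agent.helper24_UT.Stm13
import Pool.Agent.helper24_UT.II
import Pool.Agent.H373R2.T7.LamZ2

set_option autoImplicit false

namespace Pool.Agent.helper24_UT.Ut4

open Finset Polynomial
open Pool.Agent.helper24_UT
open Pool.Agent.H373R2.T7 (lamI lamzI lamz Vz pz lamP)
open Pool.Agent.H807R2.Dav (ee)
open Pool.Agent.helper24_UT.II (tau tau_nonneg tau_pow_sum)

lemma sum_Ioc_int (F : ℤ → ℝ) (x : ℤ) (K : ℕ) : ∑ m ∈ Ioc x (x + K), F m = ∑ j ∈ range K, F (x + 1 + j) := by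
  induction K with
  | zero => simp
  | succ K ih =>
    have h : Ioc x (x + ((K + 1 : ℕ) : ℤ)) = insert (x + 1 + (K : ℤ)) (Ioc x (x + K)) := by
      ext m; simp only [mem_Ioc, mem_insert]; push_cast; omega
    rw [h, sum_insert (by simp only [mem_Ioc]; omega), ih, sum_range_succ, add_comm]

lemma shift (F : ℤ → ℝ) (M : ℝ) (hM : ∀ m, |F m| ≤ M) (u : ℤ) (R j : ℕ) :
    |∑ i ∈ range R, F (u + i + j) - ∑ i ∈ range R, F (u + i)| ≤ 2 * j * M := by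
  induction j with
  | zero => simp
  | succ j ih =>
    have h1 : ∑ i ∈ range R, F (u + i + ((j + 1 : ℕ) : ℤ)) - ∑ i ∈ range R, F (u + i + j) =
        F (u + R + j) - F (u + j) := by
      rw [← sum_sub_distrib]
      have h := sum_range_sub (fun i : ℕ => F (u + i + j)) R
      simp only [Nat.cast_zero, add_zero] at h
      rw [← h]
      refine sum_congr rfl fun i _ => ?_
      push_cast
      rw [show u + (i : ℤ) + (j + 1) = u + (i + 1) + j by ring]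
    have h2 : |F (u + R + j) - F (u + j)| ≤ 2 * M := by
      have a := hM (u + R + j)
      have b := hM (u + j)
      calc |F (u + R + j) - F (u + j)| ≤ |F (u + R + j)| + |F (u + j)| := abs_sub _ _
        _ ≤ 2 * M := by linarith
    calc |∑ i ∈ range R, F (u + i + ((j + 1 : ℕ) : ℤ)) - ∑ i ∈ range R, F (u + i)|
        = |(∑ i ∈ range R, F (u + i + ((j + 1 : ℕ) : ℤ)) - ∑ i ∈ range R, F (u + i + j)) +
          (∑ i ∈ range R, F (u + i + j) - ∑ i ∈ range R, F (u + i))| := by congr 1; ring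
      _ ≤ |∑ i ∈ range R, F (u + i + ((j + 1 : ℕ) : ℤ)) - ∑ i ∈ range R, F (u + i + j)| +
          |∑ i ∈ range R, F (u + i + j) - ∑ i ∈ range R, F (u + i)| := abs_add_le _ _
      _ ≤ 2 * M + 2 * j * M := by rw [h1]; exact add_le_add h2 ih
      _ = 2 * ((j + 1 : ℕ) : ℝ) * M := by push_cast; ring

lemma smooth (F : ℤ → ℝ) (M : ℝ) (hM : ∀ m, |F m| ≤ M) (u : ℤ) (R K : ℕ) :
    (K : ℝ) * |∑ i ∈ range R, F (u + 1 + i)| ≤
      ∑ i ∈ range R, |∑ m ∈ Ioc (u + i) (u + i + K), F m| + K * (2 * K * M) := by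
  have hM0 : 0 ≤ M := (abs_nonneg _).trans (hM 0)
  obtain ⟨Aa, hA⟩ : ∃ Aa : ℝ, Aa = ∑ i ∈ range R, F (u + 1 + i) := ⟨_, rfl⟩
  rw [← hA]
  have h1 : ∑ i ∈ range R, ∑ m ∈ Ioc (u + i) (u + i + K), F m =
      ∑ j ∈ range K, ∑ i ∈ range R, F (u + 1 + i + j) := by
    rw [sum_comm]
    refine sum_congr rfl fun i _ => ?_
    rw [sum_Ioc_int]
    refine sum_congr rfl fun j _ => ?_
    rw [show u + (i : ℤ) + 1 + j = u + 1 + i + j by ring]
  have h2 : |∑ j ∈ range K, ∑ i ∈ range R, F (u + 1 + i + j) - K * Aa| ≤ K * (2 * K * M) := by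
    have h3 : ∑ j ∈ range K, ∑ i ∈ range R, F (u + 1 + i + j) - K * Aa =
        ∑ j ∈ range K, (∑ i ∈ range R, F (u + 1 + i + j) - Aa) := by
      rw [sum_sub_distrib, sum_const, card_range, nsmul_eq_mul]
    rw [h3]
    refine (abs_sum_le_sum_abs _ _).trans ?_
    calc ∑ j ∈ range K, |∑ i ∈ range R, F (u + 1 + i + j) - Aa| ≤ ∑ _j ∈ range K, 2 * K * M := by
          refine sum_le_sum fun j hj => ?_
          rw [mem_range] at hj
          rw [hA]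
          refine (shift F M hM (u + 1) R j).trans ?_
          have : (j : ℝ) ≤ K := by exact_mod_cast hj.le
          nlinarith
      _ = K * (2 * K * M) := by rw [sum_const, card_range, nsmul_eq_mul]
  have h4 : (K : ℝ) * |Aa| = |K * Aa| := by rw [abs_mul, Nat.abs_cast]
  rw [h4]
  have h5 : |∑ i ∈ range R, ∑ m ∈ Ioc (u + i) (u + i + K), F m| ≤
      ∑ i ∈ range R, |∑ m ∈ Ioc (u + i) (u + i + K), F m| := abs_sum_le_sum_abs _ _
  rw [h1] at h5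
  have h6 := abs_sub_abs_le_abs_sub (K * Aa) (∑ j ∈ range K, ∑ i ∈ range R, F (u + 1 + i + j))
  rw [abs_sub_comm] at h6
  linarith

lemma count_le (b R T : ℕ) (hb : 1 ≤ b) (s x : ℤ) :
    ((Icc 1 T).filter (fun n : ℕ => (b : ℤ) * n + s ≤ x ∧ x < (b : ℤ) * n + s + R)).card ≤ R / b + 1 := by
  rcases ((Icc 1 T).filter (fun n : ℕ => (b : ℤ) * n + s ≤ x ∧ x < (b : ℤ) * n + s + R)).eq_empty_or_nonempty with h | h
  · rw [h]; simp
  · obtain ⟨n0, hn0⟩ : ∃ n0, n0 = ((Icc 1 T).filter (fun n : ℕ => (b : ℤ) * n + s ≤ x ∧ x < (b : ℤ) * n + s + R)).min' h := ⟨_, rfl⟩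
    have hm := min'_mem _ h
    rw [← hn0, mem_filter] at hm
    have hsub : ((Icc 1 T).filter (fun n : ℕ => (b : ℤ) * n + s ≤ x ∧ x < (b : ℤ) * n + s + R)) ⊆ Icc n0 (n0 + R / b) := by
      intro n hn
      have hle := min'_le _ n hn
      rw [← hn0] at hle
      rw [mem_filter] at hn
      rw [mem_Icc]
      refine ⟨hle, ?_⟩
      have h1 : (b : ℤ) * n < b * n0 + R := by linarith [hn.2.1, hm.2.2]
      have h2 : b * n < b * n0 + R := by exact_mod_cast h1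
      have h3 : b * (n - n0) ≤ R := by
        rw [Nat.mul_sub]; omega
      have h4 : n - n0 ≤ R / b := (Nat.le_div_iff_mul_le (by omega)).2 (by rw [mul_comm]; exact h3)
      omega
    refine (card_le_card hsub).trans ?_
    have hq : ∀ q : ℕ, (Icc n0 (n0 + q)).card ≤ q + 1 := by intro q; rw [Nat.card_Icc]; omega
    exact hq _

lemma sum_points (b R T X : ℕ) (hb : 1 ≤ b) (s : ℤ) (φ : ℤ → ℝ) (hφ : ∀ x, 0 ≤ φ x)
    (hX : ∀ n ∈ Icc 1 T, ∀ i ∈ range R, -(X : ℤ) ≤ (b : ℤ) * n + s + i ∧ (b : ℤ) * n + s + i ≤ X) :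
    ∑ n ∈ Icc 1 T, ∑ i ∈ range R, φ ((b : ℤ) * n + s + i) ≤ ((R / b + 1 : ℕ) : ℝ) * ∑ x ∈ Icc (-(X : ℤ)) X, φ x := by
  classical
  have h1 : ∀ n ∈ Icc 1 T, ∑ i ∈ range R, φ ((b : ℤ) * n + s + i) ≤
      ∑ x ∈ Icc (-(X : ℤ)) X, if ((b : ℤ) * n + s ≤ x ∧ x < (b : ℤ) * n + s + R) then φ x else 0 := by
    intro n hn
    rw [← sum_filter]
    have h2 : ∑ i ∈ range R, φ ((b : ℤ) * n + s + i) =
        ∑ x ∈ (range R).image (fun i : ℕ => (b : ℤ) * n + s + i), φ x := by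
      rw [sum_image]
      intro i _ j _ hij
      simp only at hij
      omega
    rw [h2]
    refine sum_le_sum_of_subset_of_nonneg ?_ (fun x _ _ => hφ x)
    intro x hx
    rw [mem_image] at hx
    obtain ⟨i, hi, rfl⟩ := hx
    have h3 := hX n hn i hi
    rw [mem_range] at hi
    rw [mem_filter, mem_Icc]
    refine ⟨h3, by omega, by omega⟩
  refine (sum_le_sum h1).trans ?_
  rw [sum_comm, mul_sum]
  refine sum_le_sum fun x _ => ?_
  rw [← sum_filter, sum_const, nsmul_eq_mul]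
  refine mul_le_mul_of_nonneg_right ?_ (hφ x)
  exact_mod_cast count_le b R T hb s x

/-- grouping by the product -/
lemma group (R T : ℕ) (G : ℕ → ℝ) (hG : ∀ h, 0 ≤ G h) :
    ∑ b ∈ Icc 1 R, ∑ d ∈ Icc 1 T, G (b * d) ≤ ∑ h ∈ Icc 1 (R * T), tau h * G h := by
  classical
  rw [← sum_product' (f := fun b d => G (b * d))]
  have h1 : ∀ p ∈ Icc 1 R ×ˢ Icc 1 T, p.1 * p.2 ∈ Icc 1 (R * T) := by
    intro p hp
    rw [mem_product, mem_Icc, mem_Icc] at hp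
    rw [mem_Icc]
    exact ⟨Nat.mul_pos hp.1.1 hp.2.1, Nat.mul_le_mul hp.1.2 hp.2.2⟩
  rw [← sum_fiberwise_of_maps_to h1]
  refine sum_le_sum fun h hh => ?_
  rw [mem_Icc] at hh
  have h2 : ∑ p ∈ (Icc 1 R ×ˢ Icc 1 T).filter (fun p => p.1 * p.2 = h), G (p.1 * p.2) =
      (((Icc 1 R ×ˢ Icc 1 T).filter (fun p => p.1 * p.2 = h)).card : ℝ) * G h := by
    rw [← nsmul_eq_mul, ← sum_const]
    refine sum_congr rfl fun p hp => ?_
    rw [mem_filter] at hp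
    rw [hp.2]
  rw [h2]
  refine mul_le_mul_of_nonneg_right ?_ (hG h)
  unfold tau
  have h4 : ((Icc 1 R ×ˢ Icc 1 T).filter (fun p => p.1 * p.2 = h)).card ≤ h.divisors.card := by
    refine card_le_card_of_injOn (fun p => p.1) ?_ ?_
    · intro p hp
      rw [mem_coe, mem_filter] at hp
      rw [mem_coe, Nat.mem_divisors]
      exact ⟨⟨p.2, hp.2.symm⟩, by omega⟩
    · intro p hp q hq hpq
      rw [mem_coe, mem_filter, mem_product, mem_Icc, mem_Icc] at hp hq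
      simp only at hpq
      have h5 : p.1 * p.2 = p.1 * q.2 := by rw [hp.2, hpq, hq.2]
      have h6 := Nat.eq_of_mul_eq_mul_left (by omega) h5
      exact Prod.ext hpq h6
  exact_mod_cast h4

/-- the short correlation -/
noncomputable def cr (f : ℤ → ℝ) (K : ℕ) (x : ℤ) (h : ℤ) : ℝ := ∑ m ∈ Ioc x (x + K), f m * f (m - h)

/-- the long correlation -/
noncomputable def Iv (f : ℤ → ℝ) (R : ℕ) (s : ℤ) (b n n' : ℕ) : ℝ :=
  ∑ c ∈ Icc 1 R, f ((b : ℤ) * n + c + s) * f ((b : ℤ) * n' + c + s)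

noncomputable def Gs (f : ℤ → ℝ) (K R : ℕ) (s : ℤ) (b n d : ℕ) : ℝ :=
  ∑ i ∈ range R, |cr f K ((b : ℤ) * n + s + i) ((b * d : ℕ) : ℤ)|

lemma Iv_symm (f : ℤ → ℝ) (R : ℕ) (s : ℤ) (b n n' : ℕ) : Iv f R s b n n' = Iv f R s b n' n := by
  unfold Iv
  refine sum_congr rfl fun c _ => ?_
  rw [mul_comm]

lemma Iv_triv (f : ℤ → ℝ) (P : ℝ) (hP : ∀ m, |f m| ≤ P) (R : ℕ) (s : ℤ) (b n n' : ℕ) :
    |Iv f R s b n n'| ≤ R * P ^ 2 := by
  unfold Iv
  refine (abs_sum_le_sum_abs _ _).trans ?_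
  have hP0 : 0 ≤ P := (abs_nonneg _).trans (hP 0)
  calc ∑ c ∈ Icc 1 R, |f ((b : ℤ) * n + c + s) * f ((b : ℤ) * n' + c + s)| ≤ ∑ _c ∈ Icc 1 R, P ^ 2 := by
        refine sum_le_sum fun c _ => ?_
        rw [abs_mul, sq]
        exact mul_le_mul (hP _) (hP _) (abs_nonneg _) hP0
    _ = R * P ^ 2 := by rw [sum_const, Nat.card_Icc, nsmul_eq_mul]; simp

lemma Iv_short (f : ℤ → ℝ) (P : ℝ) (hP : ∀ m, |f m| ≤ P) (R K : ℕ) (hK : 1 ≤ K) (s : ℤ) (b n n' : ℕ) (hn : n' < n) :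
    |Iv f R s b n n'| ≤ 1 / K * Gs f K R s b n (n - n') + 2 * K * P ^ 2 := by
  have hP0 : 0 ≤ P := (abs_nonneg _).trans (hP 0)
  have hK0 : (0 : ℝ) < K := by exact_mod_cast hK
  have h1 : Iv f R s b n n' = ∑ i ∈ range R,
      (fun m : ℤ => f m * f (m - ((b * (n - n') : ℕ) : ℤ))) (((b : ℤ) * n + s) + 1 + i) := by
    unfold Iv
    rw [show Icc 1 R = Ico 1 (R + 1) by ext x; simp only [mem_Icc, mem_Ico]; omega, sum_Ico_eq_sum_range]
    refine sum_congr rfl fun i _ => ?_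
    congr 2
    · push_cast; ring
    · rw [Nat.cast_mul, Nat.cast_sub hn.le]; push_cast; ring
  have h2 := smooth (fun m : ℤ => f m * f (m - ((b * (n - n') : ℕ) : ℤ))) (P ^ 2) (fun m => by
    rw [abs_mul, sq]
    exact mul_le_mul (hP _) (hP _) (abs_nonneg _) hP0) ((b : ℤ) * n + s) R K
  rw [← h1] at h2
  have h3 : ∑ i ∈ range R, |∑ m ∈ Ioc ((b : ℤ) * n + s + i) ((b : ℤ) * n + s + i + K),
      (fun m : ℤ => f m * f (m - ((b * (n - n') : ℕ) : ℤ))) m| = Gs f K R s b n (n - n') := by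
    unfold Gs cr
    rfl
  rw [h3] at h2
  have h4 : (K : ℝ) * |Iv f R s b n n'| ≤ K * (1 / K * Gs f K R s b n (n - n') + 2 * K * P ^ 2) := by
    refine h2.trans (le_of_eq ?_)
    field_simp
  exact le_of_mul_le_mul_left h4 hK0

lemma Gs_nonneg (f : ℤ → ℝ) (K R : ℕ) (s : ℤ) (b n d : ℕ) : 0 ≤ Gs f K R s b n d :=
  sum_nonneg fun _ _ => abs_nonneg _

/-- one value of `b` -/
lemma one_b (f : ℤ → ℝ) (P : ℝ) (hP : ∀ m, |f m| ≤ P) (R K T : ℕ) (hK : 1 ≤ K) (s : ℤ) (b : ℕ) :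
    ∑ n ∈ Icc 1 T, ∑ n' ∈ Icc 1 T, |Iv f R s b n n'| ≤
      T * (R * P ^ 2) + (T : ℝ) ^ 2 * (2 * K * P ^ 2) + 2 / K * ∑ d ∈ Icc 1 T, ∑ n ∈ Icc 1 T, Gs f K R s b n d := by
  classical
  have hK0 : (0 : ℝ) < K := by exact_mod_cast hK
  have h1 : ∀ n ∈ Icc 1 T, ∀ n' ∈ Icc 1 T, |Iv f R s b n n'| ≤ (if n = n' then R * P ^ 2 else 0) + 2 * K * P ^ 2 +
      1 / K * (if n' < n then Gs f K R s b n (n - n') else 0) +
      1 / K * (if n < n' then Gs f K R s b n' (n' - n) else 0) := by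
    intro n _ n' _
    rcases lt_trichotomy n n' with h | h | h
    · rw [if_neg (by omega), if_neg (by omega), if_pos h, Iv_symm]
      have := Iv_short f P hP R K hK s b n' n h
      linarith
    · rw [if_pos h, if_neg (by omega), if_neg (by omega)]
      have := Iv_triv f P hP R s b n n'
      have : 0 ≤ 2 * (K : ℝ) * P ^ 2 := by positivity
      linarith
    · rw [if_neg (by omega), if_pos h, if_neg (by omega)]
      have := Iv_short f P hP R K hK s b n n' h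
      linarith
  have hB : ∀ n ∈ Icc 1 T, ∑ n' ∈ Icc 1 T, (if n' < n then Gs f K R s b n (n - n') else 0) ≤
      ∑ d ∈ Icc 1 T, Gs f K R s b n d := by
    intro n hn
    rw [mem_Icc] at hn
    rw [← sum_filter]
    have h2 : ∑ n' ∈ (Icc 1 T).filter (fun n' => n' < n), Gs f K R s b n (n - n') =
        ∑ d ∈ ((Icc 1 T).filter (fun n' => n' < n)).image (fun n' => n - n'), Gs f K R s b n d := by
      rw [sum_image]
      intro i hi j hj hij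
      rw [mem_coe, mem_filter, mem_Icc] at hi hj
      simp only at hij
      omega
    rw [h2]
    refine sum_le_sum_of_subset_of_nonneg ?_ (fun _ _ _ => Gs_nonneg _ _ _ _ _ _ _)
    intro d hd
    rw [mem_image] at hd
    obtain ⟨n', hn', rfl⟩ := hd
    rw [mem_filter, mem_Icc] at hn'
    rw [mem_Icc]; omega
  have hS : ∑ n ∈ Icc 1 T, ∑ n' ∈ Icc 1 T, (if n' < n then Gs f K R s b n (n - n') else 0) ≤
      ∑ d ∈ Icc 1 T, ∑ n ∈ Icc 1 T, Gs f K R s b n d := by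
    rw [sum_comm (s := Icc 1 T) (t := Icc 1 T) (f := fun d n => Gs f K R s b n d)]
    exact sum_le_sum hB
  have hS' : ∑ n ∈ Icc 1 T, ∑ n' ∈ Icc 1 T, (if n < n' then Gs f K R s b n' (n' - n) else 0) ≤
      ∑ d ∈ Icc 1 T, ∑ n ∈ Icc 1 T, Gs f K R s b n d := by
    rw [sum_comm]
    exact hS
  calc ∑ n ∈ Icc 1 T, ∑ n' ∈ Icc 1 T, |Iv f R s b n n'| ≤ ∑ n ∈ Icc 1 T, ∑ n' ∈ Icc 1 T,
      ((if n = n' then R * P ^ 2 else 0) + 2 * K * P ^ 2 +
      1 / K * (if n' < n then Gs f K R s b n (n - n') else 0) +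
      1 / K * (if n < n' then Gs f K R s b n' (n' - n) else 0)) :=
        sum_le_sum fun n hn => sum_le_sum fun n' hn' => h1 n hn n' hn'
    _ = T * (R * P ^ 2) + (T : ℝ) ^ 2 * (2 * K * P ^ 2) +
        1 / K * (∑ n ∈ Icc 1 T, ∑ n' ∈ Icc 1 T, (if n' < n then Gs f K R s b n (n - n') else 0)) +
        1 / K * (∑ n ∈ Icc 1 T, ∑ n' ∈ Icc 1 T, (if n < n' then Gs f K R s b n' (n' - n) else 0)) := by
        simp only [sum_add_distrib, ← mul_sum]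
        have e1 : ∑ n ∈ Icc 1 T, ∑ n' ∈ Icc 1 T, (if n = n' then (R : ℝ) * P ^ 2 else 0) = T * (R * P ^ 2) := by
          have e2 : ∀ n ∈ Icc 1 T, ∑ n' ∈ Icc 1 T, (if n = n' then (R : ℝ) * P ^ 2 else 0) = R * P ^ 2 := by
            intro n hn
            rw [sum_ite_eq, if_pos hn]
          rw [sum_congr rfl e2, sum_const, Nat.card_Icc, nsmul_eq_mul]; simp
        rw [e1]
        simp only [sum_const, Nat.card_Icc, nsmul_eq_mul, Nat.add_sub_cancel]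
        ring
    _ ≤ _ := by
        have hk : (0 : ℝ) ≤ 1 / K := by positivity
        have := mul_le_mul_of_nonneg_left hS hk
        have := mul_le_mul_of_nonneg_left hS' hk
        have e : 2 / (K : ℝ) * ∑ d ∈ Icc 1 T, ∑ n ∈ Icc 1 T, Gs f K R s b n d =
          1 / K * (∑ d ∈ Icc 1 T, ∑ n ∈ Icc 1 T, Gs f K R s b n d) + 1 / K * (∑ d ∈ Icc 1 T, ∑ n ∈ Icc 1 T, Gs f K R s b n d) := by
          ring
        linarith

lemma one_b_triv (f : ℤ → ℝ) (P : ℝ) (hP : ∀ m, |f m| ≤ P) (R T : ℕ) (s : ℤ) (b : ℕ) :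
    ∑ n ∈ Icc 1 T, ∑ n' ∈ Icc 1 T, |Iv f R s b n n'| ≤ (T : ℝ) ^ 2 * (R * P ^ 2) := by
  calc ∑ n ∈ Icc 1 T, ∑ n' ∈ Icc 1 T, |Iv f R s b n n'| ≤ ∑ _n ∈ Icc 1 T, ∑ _n' ∈ Icc 1 T, R * P ^ 2 :=
        sum_le_sum fun n _ => sum_le_sum fun n' _ => Iv_triv f P hP R s b n n'
    _ = (T : ℝ) ^ 2 * (R * P ^ 2) := by
        simp only [sum_const, Nat.card_Icc, nsmul_eq_mul, Nat.add_sub_cancel]
        ring

/-- expanding the square -/
lemma expand (f : ℤ → ℝ) (R T : ℕ) (s : ℤ) (w : ℕ → ℝ) (hw : ∀ n, |w n| ≤ 1) (b : ℕ) :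
    ∑ c ∈ Icc 1 R, (∑ n ∈ Icc 1 T, w n * f ((b : ℤ) * n + c + s)) ^ 2 ≤
      ∑ n ∈ Icc 1 T, ∑ n' ∈ Icc 1 T, |Iv f R s b n n'| := by
  have h1 : ∑ c ∈ Icc 1 R, (∑ n ∈ Icc 1 T, w n * f ((b : ℤ) * n + c + s)) ^ 2 =
      ∑ n ∈ Icc 1 T, ∑ n' ∈ Icc 1 T, w n * w n' * Iv f R s b n n' := by
    have h2 : ∀ c ∈ Icc 1 R, (∑ n ∈ Icc 1 T, w n * f ((b : ℤ) * n + c + s)) ^ 2 =
        ∑ n ∈ Icc 1 T, ∑ n' ∈ Icc 1 T, w n * w n' * (f ((b : ℤ) * n + c + s) * f ((b : ℤ) * n' + c + s)) := by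
      intro c _
      rw [sq, sum_mul_sum]
      refine sum_congr rfl fun n _ => sum_congr rfl fun n' _ => ?_
      ring
    rw [sum_congr rfl h2, sum_comm]
    refine sum_congr rfl fun n _ => ?_
    rw [sum_comm]
    refine sum_congr rfl fun n' _ => ?_
    unfold Iv
    rw [mul_sum]
  rw [h1]
  refine sum_le_sum fun n _ => sum_le_sum fun n' _ => ?_
  refine (le_abs_self _).trans ?_
  rw [abs_mul, abs_mul]
  have h3 : |w n| * |w n'| ≤ 1 := mul_le_one₀ (hw n) (abs_nonneg _) (hw n')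
  exact mul_le_of_le_one_left (abs_nonneg _) h3

/-- the Cauchy-Schwarz step -/
lemma cs_step (hXI : S_XI) (f : ℤ → ℝ) (P : ℝ) (hP : ∀ m, |f m| ≤ P) (K X N : ℕ) (hX1 : 1 ≤ X) (hN : N ≤ X)
    (hf : ∀ m, f m ≠ 0 → |m| ≤ X) (S : ℝ) (hS : ∀ α : ℝ, ∑ x ∈ Icc (-(X : ℤ)) X, ‖sw f K x α‖ ^ 2 ≤ S) :
    (∑ h ∈ Icc 1 N, tau h * ∑ x ∈ Icc (-(X : ℤ)) X, |cr f K x (h : ℤ)|) ^ 2 ≤
      (3 * X * (X * (1 + Real.log X) ^ 4)) * (S * (3 * X * P ^ 2)) := by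
  classical
  have hXr : (1 : ℝ) ≤ X := by exact_mod_cast hX1
  have hS0 : 0 ≤ S := (sum_nonneg fun _ _ => by positivity).trans (hS 0)
  have hcard : ((Icc (-(X : ℤ)) X).card : ℝ) ≤ 3 * X := by
    rw [Int.card_Icc]
    have : ((X : ℤ) + 1 - -(X : ℤ)).toNat = 2 * X + 1 := by omega
    rw [this]; push_cast; linarith
  have h1 : ∑ h ∈ Icc 1 N, tau h * ∑ x ∈ Icc (-(X : ℤ)) X, |cr f K x (h : ℤ)| =
      ∑ p ∈ Icc 1 N ×ˢ Icc (-(X : ℤ)) X, tau p.1 * |cr f K p.2 (p.1 : ℤ)| := by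
    rw [sum_product]
    refine sum_congr rfl fun h _ => ?_
    rw [mul_sum]
  rw [h1]
  refine (sum_mul_sq_le_sq_mul_sq _ _ _).trans ?_
  have h2 : ∑ p ∈ Icc 1 N ×ˢ Icc (-(X : ℤ)) X, tau p.1 ^ 2 ≤ 3 * X * (X * (1 + Real.log X) ^ 4) := by
    rw [sum_product]
    calc ∑ h ∈ Icc 1 N, ∑ _x ∈ Icc (-(X : ℤ)) X, tau h ^ 2 = ((Icc (-(X : ℤ)) X).card : ℝ) * ∑ h ∈ Icc 1 N, tau h ^ 2 := by
          simp only [sum_const, nsmul_eq_mul]
          rw [mul_sum]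
      _ ≤ 3 * X * ∑ h ∈ Icc 1 X, tau h ^ 2 := by
          refine mul_le_mul hcard ?_ (sum_nonneg fun _ _ => by positivity) (by positivity)
          refine sum_le_sum_of_subset_of_nonneg ?_ (fun _ _ _ => by positivity)
          intro h hh
          rw [mem_Icc] at hh ⊢
          omega
      _ ≤ 3 * X * (X * (1 + Real.log X) ^ 4) := by
          refine mul_le_mul_of_nonneg_left ?_ (by positivity)
          exact tau_pow_sum 2 X hX1
  have h3 : ∑ p ∈ Icc 1 N ×ˢ Icc (-(X : ℤ)) X, |cr f K p.2 (p.1 : ℤ)| ^ 2 ≤ S * (3 * X * P ^ 2) := by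
    rw [sum_product]
    have h4 := hXI f f (Icc (-(X : ℤ)) X) ((Icc 1 N).image (fun h : ℕ => (h : ℤ))) X K S hf hS
    rw [sum_image (by intro a _ b _ hab; simpa using hab)] at h4
    have h5 : ∑ h ∈ Icc 1 N, ∑ x ∈ Icc (-(X : ℤ)) X, |cr f K x (h : ℤ)| ^ 2 =
        ∑ h ∈ Icc 1 N, ∑ x ∈ Icc (-(X : ℤ)) X, (∑ m ∈ Ioc x (x + K), f m * f (m - (h : ℤ))) ^ 2 := by
      refine sum_congr rfl fun h _ => sum_congr rfl fun x _ => ?_
      rw [sq_abs]; rfl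
    rw [h5]
    refine h4.trans (mul_le_mul_of_nonneg_left ?_ hS0)
    calc ∑ m ∈ Icc (-(X : ℤ)) X, f m ^ 2 ≤ ∑ _m ∈ Icc (-(X : ℤ)) X, P ^ 2 := by
          refine sum_le_sum fun m _ => ?_
          rw [← sq_abs]
          exact pow_le_pow_left₀ (abs_nonneg _) (hP m) 2
      _ = ((Icc (-(X : ℤ)) X).card : ℝ) * P ^ 2 := by rw [sum_const, nsmul_eq_mul]
      _ ≤ _ := mul_le_mul_of_nonneg_right hcard (sq_nonneg _)
  exact mul_le_mul h2 h3 (sum_nonneg fun _ _ => by positivity) (by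
    have : 0 ≤ Real.log X := Real.log_nonneg hXr
    positivity)

/-- the deterministic inequality -/
theorem gen (hXI : S_XI) (f : ℤ → ℝ) (P : ℝ) (hP : ∀ m, |f m| ≤ P) (R K T X b0 W : ℕ) (hK : 1 ≤ K) (hR : 1 ≤ R) (hT : 1 ≤ T)
    (hX : 16 * R * T = X) (s : ℤ) (hs : |s| ≤ 8 * R) (hf : ∀ m, f m ≠ 0 → |m| ≤ X) (S : ℝ)
    (hS : ∀ α : ℝ, ∑ x ∈ Icc (-(X : ℤ)) X, ‖sw f K x α‖ ^ 2 ≤ S) (w : ℕ → ℝ) (hw : ∀ n, |w n| ≤ 1)
    (hb0 : ∀ b, b0 < b → R / b + 1 ≤ W) (D : ℝ) (hD0 : 0 ≤ D)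
    (hD : (3 * X * (X * (1 + Real.log X) ^ 4)) * (S * (3 * X * P ^ 2)) ≤ D ^ 2) :
    ∑ b ∈ Icc 1 R, ∑ c ∈ Icc 1 R, (∑ n ∈ Icc 1 T, w n * f ((b : ℤ) * n + c + s)) ^ 2 ≤
      R * (T * (R * P ^ 2) + (T : ℝ) ^ 2 * (2 * K * P ^ 2)) + b0 * ((T : ℝ) ^ 2 * (R * P ^ 2)) + 2 / K * (W * D) := by
  classical
  have hK0 : (0 : ℝ) < K := by exact_mod_cast hK
  have hRT : R * T ≤ X := by rw [← hX]; nlinarith
  have hX1 : 1 ≤ X := by rw [← hX]; nlinarith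
  obtain ⟨Q, hQ⟩ : ∃ Q : ℕ → ℝ, Q = fun h : ℕ => ∑ x ∈ Icc (-(X : ℤ)) X, |cr f K x (h : ℤ)| := ⟨_, rfl⟩
  have hQ0 : ∀ h, 0 ≤ Q h := by intro h; rw [hQ]; exact sum_nonneg fun _ _ => abs_nonneg _
  have h1 : ∀ b ∈ Icc 1 R, ∑ c ∈ Icc 1 R, (∑ n ∈ Icc 1 T, w n * f ((b : ℤ) * n + c + s)) ^ 2 ≤
      (T * (R * P ^ 2) + (T : ℝ) ^ 2 * (2 * K * P ^ 2)) + (if b ≤ b0 then (T : ℝ) ^ 2 * (R * P ^ 2) else 0) +
      2 / K * (W * ∑ d ∈ Icc 1 T, Q (b * d)) := by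
    intro b hb
    rw [mem_Icc] at hb
    refine (expand f R T s w hw b).trans ?_
    have hc0 : 0 ≤ T * (R * P ^ 2) + (T : ℝ) ^ 2 * (2 * K * P ^ 2) := by positivity
    have hc1 : 0 ≤ 2 / K * (W * ∑ d ∈ Icc 1 T, Q (b * d)) := by
      have := sum_nonneg (s := Icc 1 T) (f := fun d => Q (b * d)) (fun d _ => hQ0 _)
      positivity
    by_cases hbb : b ≤ b0
    · rw [if_pos hbb]
      have := one_b_triv f P hP R T s b
      linarith
    · rw [if_neg hbb]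
      have h2 := one_b f P hP R K T hK s b
      have h3 : ∑ d ∈ Icc 1 T, ∑ n ∈ Icc 1 T, Gs f K R s b n d ≤ W * ∑ d ∈ Icc 1 T, Q (b * d) := by
        rw [mul_sum]
        refine sum_le_sum fun d _ => ?_
        unfold Gs
        refine (sum_points b R T X hb.1 s (fun x => |cr f K x ((b * d : ℕ) : ℤ)|) (fun _ => abs_nonneg _) ?_).trans ?_
        · intro n hn i hi
          rw [mem_Icc] at hn
          rw [mem_range] at hi
          rw [abs_le] at hs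
          have q1 : (b : ℤ) * n ≤ R * T := by
            exact_mod_cast Nat.mul_le_mul hb.2 hn.2
          have q2 : (0 : ℤ) ≤ (b : ℤ) * n := by positivity
          have q3 : (X : ℤ) = 16 * R * T := by rw [← hX]; push_cast; ring
          have q4 : (R : ℤ) ≤ R * T := by
            have : (1 : ℤ) ≤ T := by exact_mod_cast hT
            have : (0 : ℤ) ≤ R := by positivity
            nlinarith
          have q5 : (i : ℤ) < R := by exact_mod_cast hi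
          have q6 : (0 : ℤ) ≤ i := by positivity
          constructor
          · rw [q3]; nlinarith [hs.1]
          · rw [q3]; nlinarith [hs.2]
        · rw [hQ]
          simp only
          refine mul_le_mul_of_nonneg_right ?_ (sum_nonneg fun _ _ => abs_nonneg _)
          exact_mod_cast hb0 b (by omega)
      have h4 : 2 / (K : ℝ) * ∑ d ∈ Icc 1 T, ∑ n ∈ Icc 1 T, Gs f K R s b n d ≤ 2 / K * (W * ∑ d ∈ Icc 1 T, Q (b * d)) :=
        mul_le_mul_of_nonneg_left h3 (by positivity)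
      linarith
  refine (sum_le_sum h1).trans ?_
  rw [sum_add_distrib, sum_add_distrib]
  have g1 : ∑ _b ∈ Icc 1 R, (T * (R * P ^ 2) + (T : ℝ) ^ 2 * (2 * K * P ^ 2)) =
      R * (T * (R * P ^ 2) + (T : ℝ) ^ 2 * (2 * K * P ^ 2)) := by
    rw [sum_const, Nat.card_Icc, nsmul_eq_mul, Nat.add_sub_cancel]
  have g2 : ∑ b ∈ Icc 1 R, (if b ≤ b0 then (T : ℝ) ^ 2 * (R * P ^ 2) else 0) ≤ b0 * ((T : ℝ) ^ 2 * (R * P ^ 2)) := by
    rw [← sum_filter, sum_const, nsmul_eq_mul]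
    refine mul_le_mul_of_nonneg_right ?_ (by positivity)
    have h5 : (Icc 1 R).filter (fun b => b ≤ b0) ⊆ Icc 1 b0 := by
      intro b hb
      rw [mem_filter, mem_Icc] at hb
      rw [mem_Icc]; omega
    have h6 := card_le_card h5
    rw [Nat.card_Icc, Nat.add_sub_cancel] at h6
    exact_mod_cast h6
  have g3 : ∑ b ∈ Icc 1 R, 2 / (K : ℝ) * (W * ∑ d ∈ Icc 1 T, Q (b * d)) ≤ 2 / K * (W * D) := by
    rw [← mul_sum, ← mul_sum]
    refine mul_le_mul_of_nonneg_left (mul_le_mul_of_nonneg_left ?_ (Nat.cast_nonneg _)) (by positivity)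
    refine (group R T Q hQ0).trans ?_
    refine le_of_sq_le_sq ?_ hD0
    refine le_trans ?_ hD
    have := cs_step hXI f P hP K X (R * T) hX1 hRT hf S hS
    rw [hQ]
    exact this
  rw [g1]
  linarith

lemma Ed_zero (z : ℕ) (m : ℤ) (hm : m ≤ 0) : Ed z m = 0 := by
  unfold Ed lamI lamzI
  rw [if_neg (by omega), if_neg (by omega)]
  norm_num

lemma Ed_bound (z : ℕ) (m : ℤ) (L Y : ℝ) (hL : 0 ≤ L) (hm : (m : ℝ) ≤ Y) (hY : Real.log Y ≤ 4 * L)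
    (hV : (Vz z)⁻¹ ≤ L) : |Ed z m| ≤ 4 * L := by
  unfold Ed
  have h1 : 0 ≤ lamI m := Pool.Agent.H373R2.T7.lamI_nonneg m
  have h2 : 0 ≤ lamzI z m := Pool.Agent.H373R2.T7.lamzI_nonneg z m
  have h3 : lamI m ≤ 4 * L := by
    unfold lamI
    split_ifs with hc
    · refine ArithmeticFunction.vonMangoldt_le_log.trans (le_trans ?_ hY)
      apply Real.log_le_log
      · exact_mod_cast (by omega : 0 < m.toNat)
      · have e1 : ((m.toNat : ℤ) : ℝ) = (m : ℝ) := by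
          rw [Int.toNat_of_nonneg (by omega)]
        have e2 : ((m.toNat : ℕ) : ℝ) = (m : ℝ) := by
          rw [← e1]; norm_cast
        rw [e2]; exact hm
    · linarith
  have h4 : lamzI z m ≤ 4 * L := by
    unfold lamzI
    split_ifs with hc
    · unfold Pool.Agent.H373R2.T7.lamz
      split_ifs
      · linarith
      · linarith
    · linarith
  rw [abs_le]
  constructor <;> linarith

lemma asy (c : ℝ) (hc : 0 < c) (N : ℕ) : ∀ᶠ L : ℝ in Filter.atTop, 32 * L ^ N ≤ Real.exp (c * L) := by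
  have t1 : Filter.Tendsto (fun L : ℝ => c * L) Filter.atTop Filter.atTop :=
    Filter.Tendsto.const_mul_atTop hc Filter.tendsto_id
  have h1 : ∀ᶠ x : ℝ in Filter.atTop, (32 / c ^ N) * x ^ N ≤ Real.exp x := by
    have h := (Real.isLittleO_pow_exp_atTop (n := N)).const_mul_left (32 / c ^ N)
    have h' := h.bound (show (0 : ℝ) < 1 by norm_num)
    filter_upwards [h'] with x hx
    rw [one_mul, Real.norm_eq_abs, Real.norm_eq_abs, abs_of_pos (Real.exp_pos x)] at hx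
    exact (le_abs_self _).trans hx
  filter_upwards [t1.eventually h1] with L a1
  have e1 : 32 / c ^ N * (c * L) ^ N = 32 * L ^ N := by
    rw [mul_pow]; field_simp
  rwa [e1] at a1

set_option maxHeartbeats 4000000 in
theorem core (hXI : S_XI) (e A : ℕ) (he : 1 ≤ e) (H R T z : ℕ) (L : ℝ) (hL : L = Real.log H) (hH : 16 ≤ H)
    (c0 : 200 ≤ L) (c3 : 32 * L ^ (A + 3) ≤ Real.exp (11 / (60 * (e : ℝ) ^ 2) * L))
    (c5 : 4 * 307200 * (e : ℝ) ^ (2 * A + 7) ≤ L)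
    (hR1 : (H : ℝ) ^ (1 / e : ℝ) ≤ R) (hR2 : R ≤ H) (hT1 : L ^ (A + 3) ≤ T) (hT2 : (T : ℝ) ≤ (R : ℝ) ^ (2 - 1 / e : ℝ))
    (hV : (Vz z)⁻¹ ≤ L) (s : ℤ) (hs : |s| ≤ 8 * R) (w : ℕ → ℝ) (hw : ∀ n, |w n| ≤ 1)
    (hMK : ∀ K : ℕ, ((16 * R * T : ℕ) : ℝ) ^ (1 / 3 + 1 / ((20 * e : ℕ) : ℝ) : ℝ) ≤ K → K ≤ 16 * R * T →
      ∀ (Y₁ Y₂ : ℤ) (α : ℝ), ∑ x ∈ Icc (-((16 * R * T : ℕ) : ℤ)) ((16 * R * T : ℕ) : ℤ),
      ‖sw (fun m => if Y₁ < m ∧ m ≤ Y₂ then Ed z m else 0) K x α‖ ^ 2 ≤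
        ((16 * R * T : ℕ) : ℝ) * (K : ℝ) ^ 2 / (Real.log ((16 * R * T : ℕ) : ℝ)) ^ (2 * (2 * A + 7))) :
    ∑ b ∈ Icc 1 R, ∑ c ∈ Icc 1 R, (∑ n ∈ Icc 1 T, w n * Ed z ((b : ℤ) * n + c + s)) ^ 2 ≤
      (R : ℝ) ^ 2 * (T : ℝ) ^ 2 / L ^ A := by
  have he1 : (1 : ℝ) ≤ e := by exact_mod_cast he
  have he0 : (0 : ℝ) < e := by linarith
  have hL0 : 0 < L := by linarith
  have hL1 : 1 ≤ L := by linarith
  have hHr : (16 : ℝ) ≤ H := by exact_mod_cast hH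
  have hH0 : (0 : ℝ) < H := by linarith
  have pw0 : ∀ a : ℕ, 0 < L ^ a := fun a => pow_pos hL0 a
  have pw1 : ∀ a : ℕ, 1 ≤ L ^ a := fun a => one_le_pow₀ hL1
  have hRexp : Real.exp (L / e) ≤ R := by
    refine le_trans (le_of_eq ?_) hR1
    rw [Real.rpow_def_of_pos hH0, ← hL]
    congr 1; field_simp
  have hR1r : (1 : ℝ) ≤ R := le_trans (Real.one_le_exp (by positivity)) hRexp
  have hR0 : (0 : ℝ) < R := by linarith
  have hRn : 1 ≤ R := by exact_mod_cast hR1r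
  have hT1r : (1 : ℝ) ≤ T := (pw1 _).trans hT1
  have hTn : 1 ≤ T := by exact_mod_cast hT1r
  have hRH : (R : ℝ) ≤ H := by exact_mod_cast hR2
  obtain ⟨X, hX⟩ : ∃ X : ℕ, 16 * R * T = X := ⟨_, rfl⟩
  rw [hX] at hMK
  have hXr : (X : ℝ) = 16 * R * T := by rw [← hX]; push_cast; ring
  have hXR : (R : ℝ) ≤ X := by
    rw [hXr]; nlinarith
  have hX1 : (1 : ℝ) ≤ X := hR1r.trans hXR
  have hX0 : (0 : ℝ) < X := by linarith
  have hTR2 : (T : ℝ) ≤ R ^ 2 := by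
    refine hT2.trans ?_
    rw [← Real.rpow_natCast]
    refine Real.rpow_le_rpow_of_exponent_le hR1r ?_
    have : (0 : ℝ) ≤ 1 / e := by positivity
    push_cast; linarith
  -- logarithms
  have hlog1 : L / e ≤ Real.log X := by
    rw [Real.le_log_iff_exp_le hX0]; exact hRexp.trans hXR
  have hlog2 : Real.log X ≤ 4 * L := by
    have h1 : (X : ℝ) ≤ (H : ℝ) ^ 4 := by
      rw [hXr]
      calc (16 : ℝ) * R * T ≤ H * H * H ^ 2 := by
            have : (T : ℝ) ≤ H ^ 2 := hTR2.trans (pow_le_pow_left₀ hR0.le hRH 2)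
            gcongr
        _ = (H : ℝ) ^ 4 := by ring
    have h2 := Real.log_le_log hX0 h1
    rw [Real.log_pow, ← hL] at h2
    exact_mod_cast h2
  have hlogX0 : 0 < Real.log X := lt_of_lt_of_le (by positivity) hlog1
  -- the parameter K
  obtain ⟨C, hC⟩ : ∃ C : ℕ, C = A + 3 := ⟨_, rfl⟩
  rw [← hC] at c3 hT1
  obtain ⟨θ, hθ⟩ : ∃ θ : ℝ, θ = 1 / 3 + 1 / ((20 * e : ℕ) : ℝ) := ⟨_, rfl⟩
  rw [← hθ] at hMK
  have hθ0 : 0 ≤ θ := by rw [hθ]; positivity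
  have hθ1 : θ ≤ 1 := by
    rw [hθ]; push_cast
    have : 1 / (20 * (e : ℝ)) ≤ 1 / 20 := one_div_le_one_div_of_le (by norm_num) (by linarith)
    linarith
  have hXθ : (X : ℝ) ^ θ ≤ R / (2 * L ^ C) := by
    have h1 : (X : ℝ) ≤ 16 * (R : ℝ) ^ (3 - 1 / e : ℝ) := by
      rw [hXr, mul_assoc]
      refine mul_le_mul_of_nonneg_left ?_ (by norm_num)
      calc (R : ℝ) * T ≤ R * (R : ℝ) ^ (2 - 1 / e : ℝ) := mul_le_mul_of_nonneg_left hT2 hR0.le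
        _ = (R : ℝ) ^ (3 - 1 / e : ℝ) := by
            nth_rewrite 1 [← Real.rpow_one (R : ℝ)]
            rw [← Real.rpow_add hR0]; congr 1; ring
    have h2 : (X : ℝ) ^ θ ≤ 16 * (R : ℝ) ^ (1 - 11 / (60 * e) : ℝ) := by
      calc (X : ℝ) ^ θ ≤ (16 * (R : ℝ) ^ (3 - 1 / e : ℝ)) ^ θ := Real.rpow_le_rpow hX0.le h1 hθ0
        _ = (16 : ℝ) ^ θ * (R : ℝ) ^ ((3 - 1 / e) * θ : ℝ) := by
            rw [Real.mul_rpow (by norm_num) (by positivity), ← Real.rpow_mul hR0.le]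
        _ ≤ 16 * (R : ℝ) ^ (1 - 11 / (60 * e) : ℝ) := by
            refine mul_le_mul ?_ ?_ (by positivity) (by norm_num)
            · calc (16 : ℝ) ^ θ ≤ (16 : ℝ) ^ (1 : ℝ) := Real.rpow_le_rpow_of_exponent_le (by norm_num) hθ1
                _ = 16 := Real.rpow_one _
            · refine Real.rpow_le_rpow_of_exponent_le hR1r ?_
              rw [hθ]; push_cast
              have e1 : (3 - 1 / (e : ℝ)) * (1 / 3 + 1 / (20 * e)) = 1 - 11 / (60 * e) - 1 / (20 * e ^ 2) := by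
                field_simp; ring
              rw [e1]
              have : (0 : ℝ) ≤ 1 / (20 * (e : ℝ) ^ 2) := by positivity
              linarith
    have h3 : 32 * L ^ C ≤ (R : ℝ) ^ (11 / (60 * e) : ℝ) := by
      refine c3.trans ?_
      calc Real.exp (11 / (60 * (e : ℝ) ^ 2) * L) = (Real.exp (L / e)) ^ (11 / (60 * e) : ℝ) := by
            rw [← Real.exp_mul]; congr 1; field_simp
        _ ≤ _ := Real.rpow_le_rpow (Real.exp_pos _).le hRexp (by positivity)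
    rw [le_div_iff₀ (by have := pw0 C; positivity)]
    calc (X : ℝ) ^ θ * (2 * L ^ C) ≤ (16 * (R : ℝ) ^ (1 - 11 / (60 * e) : ℝ)) * (2 * L ^ C) :=
          mul_le_mul_of_nonneg_right h2 (by have := pw0 C; positivity)
      _ = (R : ℝ) ^ (1 - 11 / (60 * e) : ℝ) * (32 * L ^ C) := by ring
      _ ≤ (R : ℝ) ^ (1 - 11 / (60 * e) : ℝ) * (R : ℝ) ^ (11 / (60 * e) : ℝ) :=
          mul_le_mul_of_nonneg_left h3 (by positivity)
      _ = R := by rw [← Real.rpow_add hR0]; simp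
  have hXθ1 : 1 ≤ (X : ℝ) ^ θ := Real.one_le_rpow hX1 hθ0
  obtain ⟨K, hK⟩ : ∃ K : ℕ, K = ⌊(R : ℝ) / L ^ C⌋₊ := ⟨_, rfl⟩
  have hKle : (K : ℝ) ≤ R / L ^ C := by rw [hK]; exact Nat.floor_le (by have := pw0 C; positivity)
  have hKge : (X : ℝ) ^ θ ≤ K := by
    have h1 : (R : ℝ) / L ^ C < K + 1 := by rw [hK]; exact Nat.lt_floor_add_one _
    have h2 : (R : ℝ) / L ^ C = 2 * (R / (2 * L ^ C)) := by
      have := pw0 C
      field_simp
    rw [h2] at h1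
    have h3 : 1 ≤ (R : ℝ) / (2 * L ^ C) := hXθ1.trans hXθ
    linarith
  have hK1r : (1 : ℝ) ≤ K := hXθ1.trans hKge
  have hK1 : 1 ≤ K := by exact_mod_cast hK1r
  have hK0 : (0 : ℝ) < K := by linarith
  have hKR : (K : ℝ) ≤ R := hKle.trans (div_le_self hR0.le (pw1 C))
  have hKX : K ≤ X := by
    have : (K : ℝ) ≤ X := hKR.trans hXR
    exact_mod_cast this
  -- the function
  obtain ⟨f, hf⟩ : ∃ f : ℤ → ℝ, f = fun m => if (0 : ℤ) < m ∧ m ≤ (X : ℤ) then Ed z m else 0 := ⟨_, rfl⟩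
  have hS := hMK K hKge hKX 0 X
  rw [← hf] at hS
  have hfP : ∀ m, |f m| ≤ 4 * L := by
    intro m
    rw [hf]
    simp only
    split_ifs with hc
    · exact Ed_bound z m L X hL0.le (by exact_mod_cast hc.2) hlog2 hV
    · rw [abs_zero]; linarith
  have hfX : ∀ m, f m ≠ 0 → |m| ≤ X := by
    intro m hm
    rw [hf] at hm
    simp only at hm
    split_ifs at hm with hc
    · rw [abs_of_pos hc.1]; exact hc.2
    · exact absurd rfl hm
  have hEq : ∀ b ∈ Icc 1 R, ∀ c ∈ Icc 1 R, ∀ n ∈ Icc 1 T, Ed z ((b : ℤ) * n + c + s) = f ((b : ℤ) * n + c + s) := by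
    intro b hb c hc n hn
    rw [mem_Icc] at hb hc hn
    rw [hf]
    simp only
    by_cases h0 : (0 : ℤ) < (b : ℤ) * n + c + s
    · rw [if_pos]
      refine ⟨h0, ?_⟩
      rw [abs_le] at hs
      have q1 : (b : ℤ) * n ≤ R * T := by
        exact_mod_cast Nat.mul_le_mul hb.2 hn.2
      have q3 : (X : ℤ) = 16 * R * T := by rw [← hX]; push_cast; ring
      have q4 : (R : ℤ) ≤ R * T := by
        have : (1 : ℤ) ≤ T := by exact_mod_cast hTn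
        have : (0 : ℤ) ≤ R := by positivity
        nlinarith
      have q5 : (c : ℤ) ≤ R := by exact_mod_cast hc.2
      rw [q3]; nlinarith [hs.2]
    · rw [if_neg (by intro h; exact h0 h.1), Ed_zero z _ (by omega)]
  have hLHS : ∑ b ∈ Icc 1 R, ∑ c ∈ Icc 1 R, (∑ n ∈ Icc 1 T, w n * Ed z ((b : ℤ) * n + c + s)) ^ 2 =
      ∑ b ∈ Icc 1 R, ∑ c ∈ Icc 1 R, (∑ n ∈ Icc 1 T, w n * f ((b : ℤ) * n + c + s)) ^ 2 := by
    refine sum_congr rfl fun b hb => sum_congr rfl fun c hc => ?_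
    congr 1
    refine sum_congr rfl fun n hn => ?_
    rw [hEq b hb c hc n hn]
  rw [hLHS]
  obtain ⟨A2, hA2⟩ : ∃ A2 : ℕ, A2 = 2 * A + 7 := ⟨_, rfl⟩
  rw [← hA2] at hS c5
  obtain ⟨b0, hb0⟩ : ∃ b0 : ℕ, b0 = ⌊(R : ℝ) / L ^ C⌋₊ := ⟨_, rfl⟩
  obtain ⟨W, hW⟩ : ∃ W : ℕ, W = ⌊L ^ C⌋₊ + 1 := ⟨_, rfl⟩
  have hWle : (W : ℝ) ≤ 2 * L ^ C := by
    rw [hW]; push_cast
    have h1 := Nat.floor_le (pw0 C).le
    have h2 := pw1 C
    linarith
  have hb0le : (b0 : ℝ) ≤ R / L ^ C := by rw [hb0]; exact Nat.floor_le (by have := pw0 C; positivity)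
  have hbW : ∀ b, b0 < b → R / b + 1 ≤ W := by
    intro b hb
    rw [hW]
    have h1 : (R : ℝ) / L ^ C < b := by
      rw [hb0] at hb
      exact (Nat.floor_lt (by have := pw0 C; positivity)).1 hb
    have hb' : (0 : ℝ) < b := lt_trans (by have := pw0 C; positivity) h1
    have h2 : (R : ℝ) / b ≤ L ^ C := by
      rw [div_lt_iff₀ (pw0 C)] at h1
      rw [div_le_iff₀ hb']
      linarith
    have h3 : R / b ≤ ⌊L ^ C⌋₊ := by
      apply Nat.le_floor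
      exact Nat.cast_div_le.trans h2
    omega
  obtain ⟨lX, hlX⟩ : ∃ lX : ℝ, lX = Real.log X := ⟨_, rfl⟩
  rw [← hlX] at hS hlog1 hlog2 hlogX0
  have hG := gen hXI f (4 * L) hfP R K T X b0 W hK1 hRn hTn hX s hs hfX _ hS w hw hbW
    (3 * X ^ 2 * (1 + lX) ^ 2 * K * (4 * L) / lX ^ A2) (by positivity) (by
      refine le_of_eq ?_
      rw [← hlX]
      have h1 : lX ^ (2 * A2) = (lX ^ A2) ^ 2 := by rw [← pow_mul, mul_comm]
      rw [h1]
      have h2 : 0 < lX ^ A2 := pow_pos hlogX0 _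
      field_simp)
  refine hG.trans ?_
  -- the four terms
  have hRT0 : (0 : ℝ) ≤ (R : ℝ) ^ 2 * (T : ℝ) ^ 2 := by positivity
  have hLA0 : 0 < L ^ A := pw0 A
  have t1 : (R : ℝ) * (T * (R * (4 * L) ^ 2)) ≤ 1 / 4 * ((R : ℝ) ^ 2 * (T : ℝ) ^ 2 / L ^ A) := by
    have h1 : 64 * L ^ (A + 2) ≤ T := by
      refine le_trans ?_ hT1
      rw [hC, show A + 3 = A + 2 + 1 by ring, pow_succ L (A + 2), mul_comm]
      exact mul_le_mul_of_nonneg_left (by linarith) (pw0 _).le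
    rw [← mul_div_assoc, le_div_iff₀ hLA0]
    calc (R : ℝ) * (T * (R * (4 * L) ^ 2)) * L ^ A = 1 / 4 * ((R : ℝ) ^ 2 * T * (64 * L ^ (A + 2))) := by ring
      _ ≤ 1 / 4 * ((R : ℝ) ^ 2 * T * T) := by gcongr
      _ = _ := by ring
  have t2 : (R : ℝ) * ((T : ℝ) ^ 2 * (2 * K * (4 * L) ^ 2)) ≤ 1 / 4 * ((R : ℝ) ^ 2 * (T : ℝ) ^ 2 / L ^ A) := by
    calc (R : ℝ) * ((T : ℝ) ^ 2 * (2 * K * (4 * L) ^ 2)) ≤ R * (T ^ 2 * (2 * (R / L ^ C) * (4 * L) ^ 2)) := by gcongr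
      _ = 32 / L * ((R : ℝ) ^ 2 * (T : ℝ) ^ 2 / L ^ A) := by
          rw [hC, show L ^ (A + 3) = L ^ A * L ^ 3 by ring]
          field_simp
          ring
      _ ≤ 1 / 4 * ((R : ℝ) ^ 2 * (T : ℝ) ^ 2 / L ^ A) := by
          refine mul_le_mul_of_nonneg_right ?_ (by positivity)
          rw [div_le_iff₀ hL0]; linarith
  have t3 : (b0 : ℝ) * ((T : ℝ) ^ 2 * (R * (4 * L) ^ 2)) ≤ 1 / 4 * ((R : ℝ) ^ 2 * (T : ℝ) ^ 2 / L ^ A) := by
    calc (b0 : ℝ) * ((T : ℝ) ^ 2 * (R * (4 * L) ^ 2)) ≤ (R / L ^ C) * (T ^ 2 * (R * (4 * L) ^ 2)) := by gcongr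
      _ = 16 / L * ((R : ℝ) ^ 2 * (T : ℝ) ^ 2 / L ^ A) := by
          rw [hC, show L ^ (A + 3) = L ^ A * L ^ 3 by ring]
          field_simp
          ring
      _ ≤ 1 / 4 * ((R : ℝ) ^ 2 * (T : ℝ) ^ 2 / L ^ A) := by
          refine mul_le_mul_of_nonneg_right ?_ (by positivity)
          rw [div_le_iff₀ hL0]; linarith
  have t4 : 2 / (K : ℝ) * (W * (3 * X ^ 2 * (1 + lX) ^ 2 * K * (4 * L) / lX ^ A2)) ≤
      1 / 4 * ((R : ℝ) ^ 2 * (T : ℝ) ^ 2 / L ^ A) := by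
    have h1 : 2 / (K : ℝ) * (W * (3 * X ^ 2 * (1 + lX) ^ 2 * K * (4 * L) / lX ^ A2)) =
        6 * W * X ^ 2 * (1 + lX) ^ 2 * (4 * L) / lX ^ A2 := by
      field_simp
      ring
    rw [h1]
    have h2 : (L / e) ^ A2 ≤ lX ^ A2 := pow_le_pow_left₀ (by positivity) hlog1 _
    have h3 : 6 * W * X ^ 2 * (1 + lX) ^ 2 * (4 * L) ≤ 6 * (2 * L ^ C) * (16 * R * T) ^ 2 * (5 * L) ^ 2 * (4 * L) := by
      rw [hXr]
      have : 1 + lX ≤ 5 * L := by linarith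
      gcongr
    calc 6 * W * X ^ 2 * (1 + lX) ^ 2 * (4 * L) / lX ^ A2 ≤
          6 * (2 * L ^ C) * (16 * R * T) ^ 2 * (5 * L) ^ 2 * (4 * L) / (L / e) ^ A2 :=
          div_le_div₀ (by have := pw0 C; positivity) h3 (by positivity) h2
      _ = 307200 * (e : ℝ) ^ A2 / L * ((R : ℝ) ^ 2 * (T : ℝ) ^ 2 / L ^ A) := by
          rw [div_pow, hC, hA2, show L ^ (2 * A + 7) = L ^ (A + 3) * L ^ 3 * L * L ^ A by ring]
          have := pw0 (A + 3)
          field_simp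
          ring
      _ ≤ 1 / 4 * ((R : ℝ) ^ 2 * (T : ℝ) ^ 2 / L ^ A) := by
          refine mul_le_mul_of_nonneg_right ?_ (by positivity)
          rw [div_le_iff₀ hL0]; linarith
  have e1 : (R : ℝ) * (T * (R * (4 * L) ^ 2) + (T : ℝ) ^ 2 * (2 * K * (4 * L) ^ 2)) =
    R * (T * (R * (4 * L) ^ 2)) + R * ((T : ℝ) ^ 2 * (2 * K * (4 * L) ^ 2)) := by ring
  rw [e1]
  linarith

lemma logs (e : ℕ) (he : 1 ≤ e) (H R T : ℕ) (L : ℝ) (hL : L = Real.log H) (hH : 16 ≤ H) (hL1 : 1 ≤ L)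
    (hR1 : (H : ℝ) ^ (1 / e : ℝ) ≤ R) (hR2 : R ≤ H) (hT1 : 1 ≤ T) (hT2 : (T : ℝ) ≤ (R : ℝ) ^ (2 - 1 / e : ℝ)) :
    L / e ≤ Real.log ((16 * R * T : ℕ) : ℝ) ∧ Real.log ((16 * R * T : ℕ) : ℝ) ≤ 4 * L ∧
      Real.exp (L / e) ≤ ((16 * R * T : ℕ) : ℝ) := by
  have he1 : (1 : ℝ) ≤ e := by exact_mod_cast he
  have he0 : (0 : ℝ) < e := by linarith
  have hL0 : 0 < L := by linarith
  have hHr : (16 : ℝ) ≤ H := by exact_mod_cast hH
  have hH0 : (0 : ℝ) < H := by linarith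
  have hRexp : Real.exp (L / e) ≤ R := by
    refine le_trans (le_of_eq ?_) hR1
    rw [Real.rpow_def_of_pos hH0, ← hL]
    congr 1; field_simp
  have hR1r : (1 : ℝ) ≤ R := le_trans (Real.one_le_exp (by positivity)) hRexp
  have hR0 : (0 : ℝ) < R := by linarith
  have hT1r : (1 : ℝ) ≤ T := by exact_mod_cast hT1
  have hRH : (R : ℝ) ≤ H := by exact_mod_cast hR2
  obtain ⟨X, hX⟩ : ∃ X : ℕ, 16 * R * T = X := ⟨_, rfl⟩
  rw [hX]
  have hXr : (X : ℝ) = 16 * R * T := by rw [← hX]; push_cast; ring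
  have hXR : (R : ℝ) ≤ X := by
    rw [hXr]; nlinarith
  have hX1 : (1 : ℝ) ≤ X := hR1r.trans hXR
  have hX0 : (0 : ℝ) < X := by linarith
  have hTR2 : (T : ℝ) ≤ R ^ 2 := by
    refine hT2.trans ?_
    rw [← Real.rpow_natCast]
    refine Real.rpow_le_rpow_of_exponent_le hR1r ?_
    have : (0 : ℝ) ≤ 1 / e := by positivity
    push_cast; linarith
  refine ⟨?_, ?_, hRexp.trans hXR⟩
  · rw [Real.le_log_iff_exp_le hX0]; exact hRexp.trans hXR
  · have h1 : (X : ℝ) ≤ (H : ℝ) ^ 4 := by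
      rw [hXr]
      calc (16 : ℝ) * R * T ≤ H * H * H ^ 2 := by
            have : (T : ℝ) ≤ H ^ 2 := hTR2.trans (pow_le_pow_left₀ hR0.le hRH 2)
            gcongr
        _ = (H : ℝ) ^ 4 := by ring
    have h2 := Real.log_le_log hX0 h1
    rw [Real.log_pow, ← hL] at h2
    exact_mod_cast h2

theorem main : S_MKT (1 / 3) → S_XI → S_UT4 := by
  intro hM hXI e A he
  obtain ⟨E0', hM'⟩ := hM (20 * e) (2 * (2 * A + 7)) (by omega)
  refine ⟨E0' + 1, A + 3, fun E1 => ?_⟩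
  obtain ⟨X0, hX0⟩ := hM' (E1 + 1)
  obtain ⟨N1, hN1⟩ := Pool.Agent.H373R2.T7.Vz_inv_small E1
  have he1 : (1 : ℝ) ≤ e := by exact_mod_cast he
  have he0 : (0 : ℝ) < e := by linarith
  have tl : Filter.Tendsto (fun H : ℕ => Real.log (H : ℝ)) Filter.atTop Filter.atTop :=
    Real.tendsto_log_atTop.comp tendsto_natCast_atTop_atTop
  have t2 : Filter.Tendsto (fun L : ℝ => Real.exp (L / e)) Filter.atTop Filter.atTop :=
    Real.tendsto_exp_atTop.comp (Filter.tendsto_id.atTop_div_const he0)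
  have ev := (((((Filter.eventually_ge_atTop (max 16 N1)).and (tl.eventually_ge_atTop (200 : ℝ))).and
    (tl.eventually_ge_atTop (4 * 307200 * (e : ℝ) ^ (2 * A + 7)))).and
    (tl.eventually (asy (11 / (60 * (e : ℝ) ^ 2)) (by positivity) (A + 3)))).and
    (tl.eventually_ge_atTop ((4 : ℝ) ^ E0'))).and ((tl.eventually_ge_atTop ((e : ℝ) ^ (E1 + 1))).and
    (tl.eventually (t2.eventually_ge_atTop (X0 : ℝ))))
  obtain ⟨H₀, hH₀⟩ := Filter.eventually_atTop.1 ev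
  refine ⟨H₀, ?_⟩
  intro H hH R T z hR1 hR2 hT1 hT2 hz1 hz2 s hs w hw
  obtain ⟨⟨⟨⟨⟨a1, a2⟩, a3⟩, a4⟩, a5⟩, a6, a7⟩ := hH₀ H hH
  obtain ⟨L, hL⟩ : ∃ L : ℝ, L = Real.log H := ⟨_, rfl⟩
  rw [← hL] at a2 a3 a4 a5 a6 a7 hT1 hz1 hz2 ⊢
  have hL1 : 1 ≤ L := by linarith
  have hL0 : 0 < L := by linarith
  have hH16 : 16 ≤ H := (le_max_left _ _).trans a1
  have hT1r : (1 : ℝ) ≤ T := (one_le_pow₀ hL1).trans hT1
  have hTn : 1 ≤ T := by exact_mod_cast hT1r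
  have hz1r : (1 : ℝ) ≤ z := (one_le_pow₀ hL1).trans hz1
  have hzn : 1 ≤ z := by exact_mod_cast hz1r
  have hV : (Vz z)⁻¹ ≤ L := by
    rw [hL]
    exact hN1 H ((le_max_right _ _).trans a1) z hzn (by rw [← hL]; exact hz2)
  obtain ⟨l1, l2, l3⟩ := logs e he H R T L hL hH16 hL1 hR1 hR2 hTn hT2
  have hXX : X0 ≤ 16 * R * T := by exact_mod_cast a7.trans l3
  have hl0 : 0 ≤ Real.log ((16 * R * T : ℕ) : ℝ) := le_trans (by positivity) l1
  refine core hXI e A he H R T z L hL hH16 a2 a4 a3 hR1 hR2 hT1 hT2 hV s hs w hw ?_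
  intro K hK1 hK2 Y₁ Y₂ α
  refine hX0 (16 * R * T) hXX z ?_ ?_ K hK1 hK2 Y₁ Y₂ α
  · refine le_trans ?_ hz1
    calc (Real.log ((16 * R * T : ℕ) : ℝ)) ^ E0' ≤ (4 * L) ^ E0' := pow_le_pow_left₀ hl0 l2 _
      _ = 4 ^ E0' * L ^ E0' := by rw [mul_pow]
      _ ≤ L * L ^ E0' := mul_le_mul_of_nonneg_right a5 (by positivity)
      _ = L ^ (E0' + 1) := by ring
  · refine hz2.trans ?_
    calc L ^ E1 ≤ (L / e) ^ (E1 + 1) := by
          rw [div_pow, le_div_iff₀ (by positivity), pow_succ L E1]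
          exact mul_le_mul_of_nonneg_left a6 (by positivity)
      _ ≤ _ := pow_le_pow_left₀ (by positivity) l1 _

end Pool.Agent.helper24_UT.Ut4
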