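import Pool.Agent.helper24_UT.Stm15
import Pool.Agent.helper24_UT.Ut4

set_option autoImplicit false

namespace Pool.Agent.helper24_UT.Ut5

open Finset Polynomial
open Pool.Agent.helper24_UT
open Pool.Agent.H373R2.T7 (lamI lamzI lamz Vz pz lamP)
open Pool.Agent.H807R2.Dav (ee)
open Pool.Agent.helper24_UT.II (tau tau_nonneg tau_pow_sum)
open Pool.Agent.helper24_UT.Ut4 (sum_Ioc_int shift sum_points group cr Iv Gs Iv_symm Iv_triv Gs_nonneg one_b one_b_triv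
  expand cs_step Ed_zero Ed_bound asy)

/-- the deterministic inequality, case I -/
theorem gen5 (hXI : S_XI) (f : ℤ → ℝ) (P : ℝ) (hP : ∀ m, |f m| ≤ P) (Qn R K T X b0 W : ℕ) (hK : 1 ≤ K) (hR : 1 ≤ R)
    (hT : 1 ≤ T) (hQR : R ≤ Qn * T)
    (hX : 16 * Qn * T = X) (s : ℤ) (hs : |s| ≤ 8 * R) (hf : ∀ m, f m ≠ 0 → |m| ≤ X) (S : ℝ)
    (hS : ∀ α : ℝ, ∑ x ∈ Icc (-(X : ℤ)) X, ‖sw f K x α‖ ^ 2 ≤ S) (w : ℕ → ℝ) (hw : ∀ n, |w n| ≤ 1)
    (hb0 : ∀ b, b0 < b → R / b + 1 ≤ W) (D : ℝ) (hD0 : 0 ≤ D)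
    (hD : (3 * X * (X * (1 + Real.log X) ^ 4)) * (S * (3 * X * P ^ 2)) ≤ D ^ 2) :
    ∑ b ∈ Icc 1 Qn, ∑ c ∈ Icc 1 R, (∑ n ∈ Icc 1 T, w n * f ((b : ℤ) * n + c + s)) ^ 2 ≤
      Qn * (T * (R * P ^ 2) + (T : ℝ) ^ 2 * (2 * K * P ^ 2)) + b0 * ((T : ℝ) ^ 2 * (R * P ^ 2)) + 2 / K * (W * D) := by
  classical
  have hK0 : (0 : ℝ) < K := by exact_mod_cast hK
  have hRT : Qn * T ≤ X := by rw [← hX]; nlinarith
  have hX1 : 1 ≤ X := by rw [← hX]; nlinarith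
  obtain ⟨Q, hQ⟩ : ∃ Q : ℕ → ℝ, Q = fun h : ℕ => ∑ x ∈ Icc (-(X : ℤ)) X, |cr f K x (h : ℤ)| := ⟨_, rfl⟩
  have hQ0 : ∀ h, 0 ≤ Q h := by intro h; rw [hQ]; exact sum_nonneg fun _ _ => abs_nonneg _
  have h1 : ∀ b ∈ Icc 1 Qn, ∑ c ∈ Icc 1 R, (∑ n ∈ Icc 1 T, w n * f ((b : ℤ) * n + c + s)) ^ 2 ≤
      (T * (R * P ^ 2) + (T : ℝ) ^ 2 * (2 * K * P ^ 2)) + (if b ≤ b0 then (T : ℝ) ^ 2 * (R * P ^ 2) else 0) +
      2 / K * (W * ∑ d ∈ Icc 1 T, Q (b * d)) := by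
    intro b hb
    rw [mem_Icc] at hb
    refine (expand f R T s w hw b).trans ?_
    have hc0 : 0 ≤ T * (R * P ^ 2) + (T : ℝ) ^ 2 * (2 * K * P ^ 2) := by positivity
    have hc1 : 0 ≤ 2 / K * (W * ∑ d ∈ Icc 1 T, Q (b * d)) := by
      have := sum_nonneg (s := Icc 1 T) (f := fun d => Q (b * d)) (fun d _ => hQ0 _)
      positivity
    by_cases hbb : b ≤ b0
    · rw [if_pos hbb]
      have := one_b_triv f P hP R T s b
      linarith
    · rw [if_neg hbb]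
      have h2 := one_b f P hP R K T hK s b
      have h3 : ∑ d ∈ Icc 1 T, ∑ n ∈ Icc 1 T, Gs f K R s b n d ≤ W * ∑ d ∈ Icc 1 T, Q (b * d) := by
        rw [mul_sum]
        refine sum_le_sum fun d _ => ?_
        unfold Gs
        refine (sum_points b R T X hb.1 s (fun x => |cr f K x ((b * d : ℕ) : ℤ)|) (fun _ => abs_nonneg _) ?_).trans ?_
        · intro n hn i hi
          rw [mem_Icc] at hn
          rw [mem_range] at hi
          rw [abs_le] at hs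
          have q1 : (b : ℤ) * n ≤ Qn * T := by
            exact_mod_cast Nat.mul_le_mul hb.2 hn.2
          have q2 : (0 : ℤ) ≤ (b : ℤ) * n := by positivity
          have q3 : (X : ℤ) = 16 * (Qn * T) := by rw [← hX]; push_cast; ring
          have q4 : (R : ℤ) ≤ Qn * T := by exact_mod_cast hQR
          have q5 : (i : ℤ) < R := by exact_mod_cast hi
          have q6 : (0 : ℤ) ≤ i := by positivity
          constructor
          · rw [q3]; linarith [hs.1]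
          · rw [q3]; linarith [hs.2]
        · rw [hQ]
          simp only
          refine mul_le_mul_of_nonneg_right ?_ (sum_nonneg fun _ _ => abs_nonneg _)
          exact_mod_cast hb0 b (by omega)
      have h4 : 2 / (K : ℝ) * ∑ d ∈ Icc 1 T, ∑ n ∈ Icc 1 T, Gs f K R s b n d ≤ 2 / K * (W * ∑ d ∈ Icc 1 T, Q (b * d)) :=
        mul_le_mul_of_nonneg_left h3 (by positivity)
      linarith
  refine (sum_le_sum h1).trans ?_
  rw [sum_add_distrib, sum_add_distrib]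
  have g1 : ∑ _b ∈ Icc 1 Qn, (T * (R * P ^ 2) + (T : ℝ) ^ 2 * (2 * K * P ^ 2)) =
      Qn * (T * (R * P ^ 2) + (T : ℝ) ^ 2 * (2 * K * P ^ 2)) := by
    rw [sum_const, Nat.card_Icc, nsmul_eq_mul, Nat.add_sub_cancel]
  have g2 : ∑ b ∈ Icc 1 Qn, (if b ≤ b0 then (T : ℝ) ^ 2 * (R * P ^ 2) else 0) ≤ b0 * ((T : ℝ) ^ 2 * (R * P ^ 2)) := by
    rw [← sum_filter, sum_const, nsmul_eq_mul]
    refine mul_le_mul_of_nonneg_right ?_ (by positivity)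
    have h5 : (Icc 1 Qn).filter (fun b => b ≤ b0) ⊆ Icc 1 b0 := by
      intro b hb
      rw [mem_filter, mem_Icc] at hb
      rw [mem_Icc]; omega
    have h6 := card_le_card h5
    rw [Nat.card_Icc, Nat.add_sub_cancel] at h6
    exact_mod_cast h6
  have g3 : ∑ b ∈ Icc 1 Qn, 2 / (K : ℝ) * (W * ∑ d ∈ Icc 1 T, Q (b * d)) ≤ 2 / K * (W * D) := by
    rw [← mul_sum, ← mul_sum]
    refine mul_le_mul_of_nonneg_left (mul_le_mul_of_nonneg_left ?_ (Nat.cast_nonneg _)) (by positivity)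
    refine (group Qn T Q hQ0).trans ?_
    refine le_of_sq_le_sq ?_ hD0
    refine le_trans ?_ hD
    have := cs_step hXI f P hP K X (Qn * T) hX1 hRT hf S hS
    rw [hQ]
    exact this
  rw [g1]
  linarith

/-- the correlation at the grid point `q` -/
noncomputable def Cq (f : ℤ → ℝ) (R G : ℕ) (q : ℤ) (h : ℤ) : ℝ :=
  ∑ m ∈ Ioc ((G : ℤ) * q) ((G : ℤ) * q + R), f m * f (m - h)

lemma Iv_grid (f : ℤ → ℝ) (P : ℝ) (hP : ∀ m, |f m| ≤ P) (R G : ℕ) (hG : 1 ≤ G) (s : ℤ) (b n n' : ℕ) (hn : n' < n) :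
    |Iv f R s b n n'| ≤ |Cq f R G (((b : ℤ) * n + s) / G) ((b * (n - n') : ℕ) : ℤ)| + 2 * G * P ^ 2 := by
  have hP0 : 0 ≤ P := (abs_nonneg _).trans (hP 0)
  have hG0 : (0 : ℤ) < G := by exact_mod_cast hG
  have h1 : Iv f R s b n n' = ∑ i ∈ range R,
      (fun m : ℤ => f m * f (m - ((b * (n - n') : ℕ) : ℤ))) (((b : ℤ) * n + s) + 1 + i) := by
    unfold Iv
    rw [show Icc 1 R = Ico 1 (R + 1) by ext x; simp only [mem_Icc, mem_Ico]; omega, sum_Ico_eq_sum_range]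
    refine sum_congr rfl fun i _ => ?_
    congr 2
    · push_cast; ring
    · rw [Nat.cast_mul, Nat.cast_sub hn.le]; push_cast; ring
  obtain ⟨u, hu⟩ : ∃ u : ℤ, u = (b : ℤ) * n + s := ⟨_, rfl⟩
  rw [← hu] at h1 ⊢
  have hmod := Int.emod_add_mul_ediv u G
  have hm0 := Int.emod_nonneg u (ne_of_gt hG0)
  have hm1 := Int.emod_lt_of_pos u hG0
  obtain ⟨j, hj⟩ : ∃ j : ℕ, (j : ℤ) = u % G := ⟨(u % G).toNat, Int.toNat_of_nonneg hm0⟩
  have hjG : j < G := by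
    have : (j : ℤ) < G := by rw [hj]; exact hm1
    exact_mod_cast this
  have h2 := shift (fun m : ℤ => f m * f (m - ((b * (n - n') : ℕ) : ℤ))) (P ^ 2) (fun m => by
    rw [abs_mul, sq]
    exact mul_le_mul (hP _) (hP _) (abs_nonneg _) hP0) ((G : ℤ) * (u / G) + 1) R j
  have h3 : ∑ i ∈ range R, (fun m : ℤ => f m * f (m - ((b * (n - n') : ℕ) : ℤ))) ((G : ℤ) * (u / G) + 1 + i + j) =
      Iv f R s b n n' := by
    rw [h1]
    refine sum_congr rfl fun i _ => ?_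
    have : (G : ℤ) * (u / G) + 1 + i + j = u + 1 + i := by rw [hj]; linarith
    rw [this]
  have h4 : ∑ i ∈ range R, (fun m : ℤ => f m * f (m - ((b * (n - n') : ℕ) : ℤ))) ((G : ℤ) * (u / G) + 1 + i) =
      Cq f R G (u / G) ((b * (n - n') : ℕ) : ℤ) := by
    unfold Cq
    rw [sum_Ioc_int]
  rw [h3, h4] at h2
  have h5 : 2 * (j : ℝ) * P ^ 2 ≤ 2 * G * P ^ 2 := by
    have : (j : ℝ) ≤ G := by exact_mod_cast hjG.le
    gcongr
  have h6 := abs_sub_abs_le_abs_sub (Iv f R s b n n') (Cq f R G (u / G) ((b * (n - n') : ℕ) : ℤ))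
  linarith

/-- one value of `b`, general form -/
lemma one_b_gen (I : ℕ → ℕ → ℝ) (hsym : ∀ n n', I n n' = I n' n) (T : ℕ) (D E : ℝ) (hE : 0 ≤ E)
    (hD : ∀ n, |I n n| ≤ D) (Φ : ℕ → ℝ) (hΦ0 : ∀ d, 0 ≤ Φ d)
    (hΦ : ∀ n ∈ Icc 1 T, ∀ n', n' < n → |I n n'| ≤ Φ (n - n') + E) :
    ∑ n ∈ Icc 1 T, ∑ n' ∈ Icc 1 T, |I n n'| ≤ T * D + (T : ℝ) ^ 2 * E + 2 * (T * ∑ d ∈ Icc 1 T, Φ d) := by
  classical
  have h1 : ∀ n ∈ Icc 1 T, ∀ n' ∈ Icc 1 T, |I n n'| ≤ (if n = n' then D else 0) + E +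
      (if n' < n then Φ (n - n') else 0) + (if n < n' then Φ (n' - n) else 0) := by
    intro n hn n' hn'
    rcases lt_trichotomy n n' with h | h | h
    · rw [if_neg (by omega), if_neg (by omega), if_pos h, hsym]
      have := hΦ n' hn' n h
      linarith
    · rw [if_pos h, if_neg (by omega), if_neg (by omega), ← h]
      have := hD n
      linarith
    · rw [if_neg (by omega), if_pos h, if_neg (by omega)]
      have := hΦ n hn n' h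
      linarith
  have hB : ∀ n ∈ Icc 1 T, ∑ n' ∈ Icc 1 T, (if n' < n then Φ (n - n') else 0) ≤ ∑ d ∈ Icc 1 T, Φ d := by
    intro n hn
    rw [mem_Icc] at hn
    rw [← sum_filter]
    have h2 : ∑ n' ∈ (Icc 1 T).filter (fun n' => n' < n), Φ (n - n') =
        ∑ d ∈ ((Icc 1 T).filter (fun n' => n' < n)).image (fun n' => n - n'), Φ d := by
      rw [sum_image]
      intro i hi j hj hij
      rw [mem_coe, mem_filter, mem_Icc] at hi hj
      simp only at hij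
      omega
    rw [h2]
    refine sum_le_sum_of_subset_of_nonneg ?_ (fun d _ _ => hΦ0 d)
    intro d hd
    rw [mem_image] at hd
    obtain ⟨n', hn', rfl⟩ := hd
    rw [mem_filter, mem_Icc] at hn'
    rw [mem_Icc]; omega
  have hS : ∑ n ∈ Icc 1 T, ∑ n' ∈ Icc 1 T, (if n' < n then Φ (n - n') else 0) ≤ T * ∑ d ∈ Icc 1 T, Φ d := by
    refine (sum_le_sum hB).trans (le_of_eq ?_)
    rw [sum_const, Nat.card_Icc, nsmul_eq_mul, Nat.add_sub_cancel]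
  have hS' : ∑ n ∈ Icc 1 T, ∑ n' ∈ Icc 1 T, (if n < n' then Φ (n' - n) else 0) ≤ T * ∑ d ∈ Icc 1 T, Φ d := by
    rw [sum_comm]
    exact hS
  calc ∑ n ∈ Icc 1 T, ∑ n' ∈ Icc 1 T, |I n n'| ≤ ∑ n ∈ Icc 1 T, ∑ n' ∈ Icc 1 T,
      ((if n = n' then D else 0) + E + (if n' < n then Φ (n - n') else 0) + (if n < n' then Φ (n' - n) else 0)) :=
        sum_le_sum fun n hn => sum_le_sum fun n' hn' => h1 n hn n' hn'
    _ = T * D + (T : ℝ) ^ 2 * E + (∑ n ∈ Icc 1 T, ∑ n' ∈ Icc 1 T, (if n' < n then Φ (n - n') else 0)) +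
        (∑ n ∈ Icc 1 T, ∑ n' ∈ Icc 1 T, (if n < n' then Φ (n' - n) else 0)) := by
        simp only [sum_add_distrib]
        have e1 : ∑ n ∈ Icc 1 T, ∑ n' ∈ Icc 1 T, (if n = n' then D else 0) = T * D := by
          have e2 : ∀ n ∈ Icc 1 T, ∑ n' ∈ Icc 1 T, (if n = n' then D else 0) = D := by
            intro n hn
            rw [sum_ite_eq, if_pos hn]
          rw [sum_congr rfl e2, sum_const, Nat.card_Icc, nsmul_eq_mul]; simp
        rw [e1]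
        simp only [sum_const, Nat.card_Icc, nsmul_eq_mul, Nat.add_sub_cancel]
        ring
    _ ≤ _ := by linarith

/-- the correlations at one grid point -/
lemma gal_step (hGAL : S_GAL) (f : ℤ → ℝ) (P : ℝ) (hP : ∀ m, |f m| ≤ P) (R G Z N1 : ℕ) (hN1 : 1 ≤ N1)
    (hf : ∀ m, f m ≠ 0 → |m| ≤ Z) (S : ℝ)
    (hS : ∀ α : ℝ, ∑ x ∈ Icc (-((Z : ℤ) + (2 * N1 : ℕ))) Z, ‖sw f (2 * N1) x α‖ ^ 2 ≤ S) (hS0 : 0 ≤ S) (q : ℤ) (D : ℝ)
    (hD0 : 0 ≤ D) (hD : (1 + Real.log N1) ^ 4 * (S * (R * P ^ 2)) ≤ D ^ 2) :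
    ∑ h ∈ Icc 1 N1, tau h * |Cq f R G q (h : ℤ)| ≤ D := by
  classical
  have hN1r : (1 : ℝ) ≤ N1 := by exact_mod_cast hN1
  have hN10 : (0 : ℝ) < N1 := by linarith
  obtain ⟨a, ha⟩ : ∃ a : ℤ, a = (G : ℤ) * q := ⟨_, rfl⟩
  obtain ⟨g, hg⟩ : ∃ g : ℤ → ℝ, g = fun m => if a < m ∧ m ≤ a + R then f m else 0 := ⟨_, rfl⟩
  have hgZ : ∀ m, g m ≠ 0 → |m| ≤ Z := by
    intro m hm
    rw [hg] at hm
    simp only at hm
    split_ifs at hm with hc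
    · exact hf m hm
    · exact absurd rfl hm
  have key := hGAL f g Z (2 * N1) S (by omega) hf hgZ hS
  have e1 : ∀ h : ℤ, ∑ t ∈ Icc (-(Z : ℤ)) Z, g t * f (t + -h) = Cq f R G q h := by
    intro h
    unfold Cq
    rw [← ha]
    have k1 : ∑ t ∈ Icc (-(Z : ℤ)) Z, g t * f (t + -h) =
        ∑ t ∈ (Icc (-(Z : ℤ)) Z).filter (fun t => a < t ∧ t ≤ a + R), f t * f (t - h) := by
      rw [sum_filter]
      refine sum_congr rfl fun t _ => ?_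
      rw [hg]
      simp only
      rw [← sub_eq_add_neg]
      split_ifs
      · rfl
      · rw [zero_mul]
    have k2 : ∑ m ∈ Ioc a (a + R), f m * f (m - h) =
        ∑ m ∈ (Ioc a (a + R)).filter (fun m => |m| ≤ (Z : ℤ)), f m * f (m - h) := by
      rw [sum_filter]
      refine sum_congr rfl fun m _ => ?_
      split_ifs with hc
      · rfl
      · have : f m = 0 := by
          by_contra h0
          exact hc (hf m h0)
        rw [this, zero_mul]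
    rw [k1, k2]
    refine sum_congr ?_ fun _ _ => rfl
    ext t
    simp only [mem_filter, mem_Icc, mem_Ioc, abs_le]
    tauto
  have e2 : ∑ t ∈ Icc (-(Z : ℤ)) Z, g t ^ 2 ≤ R * P ^ 2 := by
    have k1 : ∑ t ∈ Icc (-(Z : ℤ)) Z, g t ^ 2 =
        ∑ t ∈ (Icc (-(Z : ℤ)) Z).filter (fun t => a < t ∧ t ≤ a + R), f t ^ 2 := by
      rw [sum_filter]
      refine sum_congr rfl fun t _ => ?_
      rw [hg]
      simp only
      split_ifs
      · rfl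
      · norm_num
    rw [k1]
    calc ∑ t ∈ (Icc (-(Z : ℤ)) Z).filter (fun t => a < t ∧ t ≤ a + R), f t ^ 2 ≤
        ∑ _t ∈ (Icc (-(Z : ℤ)) Z).filter (fun t => a < t ∧ t ≤ a + R), P ^ 2 := by
          refine sum_le_sum fun m _ => ?_
          rw [← sq_abs]
          exact pow_le_pow_left₀ (abs_nonneg _) (hP m) 2
      _ = (((Icc (-(Z : ℤ)) Z).filter (fun t => a < t ∧ t ≤ a + R)).card : ℝ) * P ^ 2 := by
          rw [sum_const, nsmul_eq_mul]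
      _ ≤ R * P ^ 2 := by
          refine mul_le_mul_of_nonneg_right ?_ (sq_nonneg _)
          have k2 : (Icc (-(Z : ℤ)) Z).filter (fun t => a < t ∧ t ≤ a + R) ⊆ Ioc a (a + R) := by
            intro t ht
            rw [mem_filter] at ht
            rw [mem_Ioc]
            exact ht.2
          have k3 := card_le_card k2
          rw [Int.card_Ioc] at k3
          have k4 : (a + R - a).toNat = R := by omega
          rw [k4] at k3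
          exact_mod_cast k3
  have e3 : (N1 : ℝ) * ∑ h ∈ Icc 1 N1, |Cq f R G q (h : ℤ)| ^ 2 ≤ S * (R * P ^ 2) := by
    refine le_trans ?_ (key.trans (mul_le_mul_of_nonneg_left e2 hS0))
    have k1 : ∀ m ∈ Ioo (-((2 * N1 : ℕ) : ℤ)) ((2 * N1 : ℕ) : ℤ),
        0 ≤ (((2 * N1 : ℕ) : ℝ) - |(m : ℝ)|) * (∑ t ∈ Icc (-(Z : ℤ)) Z, g t * f (t + m)) ^ 2 := by
      intro m hm
      rw [mem_Ioo] at hm
      refine mul_nonneg ?_ (sq_nonneg _)
      have k2 : |m| ≤ ((2 * N1 : ℕ) : ℤ) := by rw [abs_le]; omega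
      have k3 : (|m| : ℝ) ≤ ((2 * N1 : ℕ) : ℝ) := by exact_mod_cast k2
      linarith
    have k4 : (Icc 1 N1).image (fun h : ℕ => -(h : ℤ)) ⊆ Ioo (-((2 * N1 : ℕ) : ℤ)) ((2 * N1 : ℕ) : ℤ) := by
      intro m hm
      rw [mem_image] at hm
      obtain ⟨h, hh, rfl⟩ := hm
      rw [mem_Icc] at hh
      rw [mem_Ioo]
      omega
    refine le_trans ?_ (sum_le_sum_of_subset_of_nonneg k4 fun m hm _ => k1 m hm)
    rw [sum_image (by intro x _ y _ hxy; simpa using hxy), mul_sum]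
    refine sum_le_sum fun h hh => ?_
    rw [mem_Icc] at hh
    rw [e1, sq_abs]
    refine mul_le_mul_of_nonneg_right ?_ (sq_nonneg _)
    have k5 : (h : ℝ) ≤ N1 := by exact_mod_cast hh.2
    push_cast
    rw [abs_neg, Nat.abs_cast]
    linarith
  refine le_of_sq_le_sq ?_ hD0
  refine le_trans ?_ hD
  refine (sum_mul_sq_le_sq_mul_sq _ _ _).trans ?_
  have e4 : ∑ h ∈ Icc 1 N1, tau h ^ 2 ≤ N1 * (1 + Real.log N1) ^ 4 := tau_pow_sum 2 N1 hN1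
  have e5 : 0 ≤ ∑ h ∈ Icc 1 N1, |Cq f R G q (h : ℤ)| ^ 2 := sum_nonneg fun _ _ => by positivity
  have hl : 0 ≤ Real.log N1 := Real.log_nonneg hN1r
  calc (∑ h ∈ Icc 1 N1, tau h ^ 2) * ∑ h ∈ Icc 1 N1, |Cq f R G q (h : ℤ)| ^ 2 ≤
      (N1 * (1 + Real.log N1) ^ 4) * ∑ h ∈ Icc 1 N1, |Cq f R G q (h : ℤ)| ^ 2 := mul_le_mul_of_nonneg_right e4 e5
    _ = (1 + Real.log N1) ^ 4 * (N1 * ∑ h ∈ Icc 1 N1, |Cq f R G q (h : ℤ)| ^ 2) := by ring
    _ ≤ _ := mul_le_mul_of_nonneg_left e3 (by positivity)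

/-- the deterministic inequality, case II -/
theorem gen6 (hGAL : S_GAL) (f : ℤ → ℝ) (P : ℝ) (hP : ∀ m, |f m| ≤ P) (Qn R G T Z N : ℕ) (hG : 1 ≤ G) (hQ : 1 ≤ Qn)
    (hT : 1 ≤ T) (hQR : Qn * T ≤ R) (s : ℤ) (hs : |s| ≤ 8 * R) (hN : 9 * R ≤ N * G)
    (hf : ∀ m, f m ≠ 0 → |m| ≤ Z) (S : ℝ) (hS0 : 0 ≤ S)
    (hS : ∀ α : ℝ, ∑ x ∈ Icc (-((Z : ℤ) + (2 * (Qn * T) : ℕ))) Z, ‖sw f (2 * (Qn * T)) x α‖ ^ 2 ≤ S)
    (w : ℕ → ℝ) (hw : ∀ n, |w n| ≤ 1) (D : ℝ)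
    (hD0 : 0 ≤ D) (hD : (1 + Real.log ((Qn * T : ℕ) : ℝ)) ^ 4 * (S * (R * P ^ 2)) ≤ D ^ 2) :
    ∑ b ∈ Icc 1 Qn, ∑ c ∈ Icc 1 R, (∑ n ∈ Icc 1 T, w n * f ((b : ℤ) * n + c + s)) ^ 2 ≤
      Qn * (T * (R * P ^ 2) + (T : ℝ) ^ 2 * (2 * G * P ^ 2)) + 2 * (T * ((2 * N + 1) * D)) := by
  classical
  have hP0 : 0 ≤ P := (abs_nonneg _).trans (hP 0)
  have hG0 : (0 : ℤ) < G := by exact_mod_cast hG
  have hN1 : 1 ≤ Qn * T := Nat.mul_pos hQ hT
  obtain ⟨Ψ, hΨ⟩ : ∃ Ψ : ℕ → ℝ, Ψ = fun h : ℕ => ∑ q ∈ Icc (-(N : ℤ)) N, |Cq f R G q (h : ℤ)| := ⟨_, rfl⟩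
  have hΨ0 : ∀ h, 0 ≤ Ψ h := by intro h; rw [hΨ]; exact sum_nonneg fun _ _ => abs_nonneg _
  have h1 : ∀ b ∈ Icc 1 Qn, ∑ c ∈ Icc 1 R, (∑ n ∈ Icc 1 T, w n * f ((b : ℤ) * n + c + s)) ^ 2 ≤
      (T * (R * P ^ 2) + (T : ℝ) ^ 2 * (2 * G * P ^ 2)) + 2 * (T * ∑ d ∈ Icc 1 T, Ψ (b * d)) := by
    intro b hb
    rw [mem_Icc] at hb
    refine (expand f R T s w hw b).trans ?_
    refine one_b_gen (fun n n' => Iv f R s b n n') (fun n n' => Iv_symm f R s b n n') T (R * P ^ 2) (2 * G * P ^ 2)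
      (by positivity) (fun n => Iv_triv f P hP R s b n n) (fun d => Ψ (b * d)) (fun d => hΨ0 _) ?_
    intro n hn n' hn'
    rw [mem_Icc] at hn
    refine (Iv_grid f P hP R G hG s b n n' hn').trans ?_
    have h2 : (((b : ℤ) * n + s) / G) ∈ Icc (-(N : ℤ)) N := by
      rw [abs_le] at hs
      have q1 : (b : ℤ) * n ≤ Qn * T := by
        exact_mod_cast Nat.mul_le_mul hb.2 hn.2
      have q2 : (0 : ℤ) ≤ (b : ℤ) * n := by positivity
      have q4 : (Qn : ℤ) * T ≤ R := by exact_mod_cast hQR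
      have q5 : (9 : ℤ) * R ≤ N * G := by exact_mod_cast hN
      rw [mem_Icc]
      constructor
      · apply Int.le_ediv_of_mul_le hG0
        linarith [hs.1]
      · apply Int.ediv_le_of_le_mul hG0
        linarith [hs.2]
    have h3 : |Cq f R G (((b : ℤ) * n + s) / G) ((b * (n - n') : ℕ) : ℤ)| ≤ Ψ (b * (n - n')) := by
      rw [hΨ]
      exact single_le_sum (f := fun q => |Cq f R G q ((b * (n - n') : ℕ) : ℤ)|) (fun _ _ => abs_nonneg _) h2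
    linarith
  refine (sum_le_sum h1).trans ?_
  rw [sum_add_distrib]
  have g1 : ∑ _b ∈ Icc 1 Qn, (T * (R * P ^ 2) + (T : ℝ) ^ 2 * (2 * G * P ^ 2)) =
      Qn * (T * (R * P ^ 2) + (T : ℝ) ^ 2 * (2 * G * P ^ 2)) := by
    rw [sum_const, Nat.card_Icc, nsmul_eq_mul, Nat.add_sub_cancel]
  have g3 : ∑ b ∈ Icc 1 Qn, 2 * (T * ∑ d ∈ Icc 1 T, Ψ (b * d)) ≤ 2 * (T * ((2 * N + 1) * D)) := by
    rw [← mul_sum, ← mul_sum]
    refine mul_le_mul_of_nonneg_left (mul_le_mul_of_nonneg_left ?_ (Nat.cast_nonneg _)) (by norm_num)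
    refine (group Qn T Ψ hΨ0).trans ?_
    have h4 : ∑ h ∈ Icc 1 (Qn * T), tau h * Ψ h =
        ∑ q ∈ Icc (-(N : ℤ)) N, ∑ h ∈ Icc 1 (Qn * T), tau h * |Cq f R G q (h : ℤ)| := by
      rw [sum_comm]
      refine sum_congr rfl fun h _ => ?_
      rw [hΨ, mul_sum]
    rw [h4]
    calc ∑ q ∈ Icc (-(N : ℤ)) N, ∑ h ∈ Icc 1 (Qn * T), tau h * |Cq f R G q (h : ℤ)| ≤
        ∑ _q ∈ Icc (-(N : ℤ)) N, D := sum_le_sum fun q _ =>
          gal_step hGAL f P hP R G Z (Qn * T) hN1 hf S hS hS0 q D hD0 hD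
      _ = (2 * N + 1) * D := by
          rw [sum_const, nsmul_eq_mul, Int.card_Icc]
          have : ((N : ℤ) + 1 - -(N : ℤ)).toNat = 2 * N + 1 := by omega
          rw [this]
          push_cast
          ring
  rw [g1]
  linarith

set_option maxHeartbeats 4000000 in
theorem core1 (hXI : S_XI) (e A : ℕ) (he : 1 ≤ e) (H Q R T z : ℕ) (L : ℝ) (hL : L = Real.log H) (hH : 16 ≤ H)
    (c0 : 200 ≤ L) (c3 : 32 * L ^ (A + 3) ≤ Real.exp (11 / (60 * (e : ℝ) ^ 2) * L))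
    (c5 : 4 * 307200 * (e : ℝ) ^ (2 * A + 7) ≤ L)
    (hQ1 : (H : ℝ) ^ (1 / e : ℝ) ≤ Q) (hQR : Q ≤ R) (hR2 : R ≤ H) (hT1 : L ^ (A + 3) ≤ T)
    (hT2 : (Q : ℝ) * T ≤ (R : ℝ) ^ (3 - 1 / e : ℝ)) (hcase : R ≤ Q * T)
    (hV : (Vz z)⁻¹ ≤ L) (s : ℤ) (hs : |s| ≤ 8 * R) (w : ℕ → ℝ) (hw : ∀ n, |w n| ≤ 1)
    (hMK : ∀ K : ℕ, ((16 * Q * T : ℕ) : ℝ) ^ (1 / 3 + 1 / ((20 * e : ℕ) : ℝ) : ℝ) ≤ K → K ≤ 16 * Q * T →
      ∀ (Y₁ Y₂ : ℤ) (α : ℝ), ∑ x ∈ Icc (-((16 * Q * T : ℕ) : ℤ)) ((16 * Q * T : ℕ) : ℤ),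
      ‖sw (fun m => if Y₁ < m ∧ m ≤ Y₂ then Ed z m else 0) K x α‖ ^ 2 ≤
        ((16 * Q * T : ℕ) : ℝ) * (K : ℝ) ^ 2 / (Real.log ((16 * Q * T : ℕ) : ℝ)) ^ (2 * (2 * A + 7))) :
    ∑ b ∈ Icc 1 Q, ∑ c ∈ Icc 1 R, (∑ n ∈ Icc 1 T, w n * Ed z ((b : ℤ) * n + c + s)) ^ 2 ≤
      (Q : ℝ) * R * (T : ℝ) ^ 2 / L ^ A := by
  have he1 : (1 : ℝ) ≤ e := by exact_mod_cast he
  have he0 : (0 : ℝ) < e := by linarith
  have hL0 : 0 < L := by linarith
  have hL1 : 1 ≤ L := by linarith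
  have hHr : (16 : ℝ) ≤ H := by exact_mod_cast hH
  have hH0 : (0 : ℝ) < H := by linarith
  have pw0 : ∀ a : ℕ, 0 < L ^ a := fun a => pow_pos hL0 a
  have pw1 : ∀ a : ℕ, 1 ≤ L ^ a := fun a => one_le_pow₀ hL1
  have hQexp : Real.exp (L / e) ≤ Q := by
    refine le_trans (le_of_eq ?_) hQ1
    rw [Real.rpow_def_of_pos hH0, ← hL]
    congr 1; field_simp
  have hQRr : (Q : ℝ) ≤ R := by exact_mod_cast hQR
  have hRexp : Real.exp (L / e) ≤ R := hQexp.trans hQRr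
  have hQ1r : (1 : ℝ) ≤ Q := le_trans (Real.one_le_exp (by positivity)) hQexp
  have hQ0 : (0 : ℝ) < Q := by linarith
  have hR1r : (1 : ℝ) ≤ R := hQ1r.trans hQRr
  have hR0 : (0 : ℝ) < R := by linarith
  have hRn : 1 ≤ R := by exact_mod_cast hR1r
  have hT1r : (1 : ℝ) ≤ T := (pw1 _).trans hT1
  have hTn : 1 ≤ T := by exact_mod_cast hT1r
  have hT0 : (0 : ℝ) < T := by linarith
  have hRH : (R : ℝ) ≤ H := by exact_mod_cast hR2
  obtain ⟨X, hX⟩ : ∃ X : ℕ, 16 * Q * T = X := ⟨_, rfl⟩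
  rw [hX] at hMK
  have hXr : (X : ℝ) = 16 * (Q * T) := by rw [← hX]; push_cast; ring
  have hcr : (R : ℝ) ≤ Q * T := by exact_mod_cast hcase
  have hXR : (R : ℝ) ≤ X := by
    rw [hXr]; linarith
  have hX1 : (1 : ℝ) ≤ X := hR1r.trans hXR
  have hX0 : (0 : ℝ) < X := by linarith
  have hTR3 : (Q : ℝ) * T ≤ R ^ 3 := by
    refine hT2.trans ?_
    rw [← Real.rpow_natCast]
    refine Real.rpow_le_rpow_of_exponent_le hR1r ?_
    have : (0 : ℝ) ≤ 1 / e := by positivity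
    push_cast; linarith
  -- logarithms
  have hlog1 : L / e ≤ Real.log X := by
    rw [Real.le_log_iff_exp_le hX0]; exact hRexp.trans hXR
  have hlog2 : Real.log X ≤ 4 * L := by
    have h1 : (X : ℝ) ≤ (H : ℝ) ^ 4 := by
      rw [hXr]
      calc (16 : ℝ) * (Q * T) ≤ H * H ^ 3 := by
            have : (Q : ℝ) * T ≤ H ^ 3 := hTR3.trans (pow_le_pow_left₀ hR0.le hRH 3)
            gcongr
        _ = (H : ℝ) ^ 4 := by ring
    have h2 := Real.log_le_log hX0 h1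
    rw [Real.log_pow, ← hL] at h2
    exact_mod_cast h2
  have hlogX0 : 0 < Real.log X := lt_of_lt_of_le (by positivity) hlog1
  -- the parameter K
  obtain ⟨C, hC⟩ : ∃ C : ℕ, C = A + 3 := ⟨_, rfl⟩
  rw [← hC] at c3 hT1
  obtain ⟨θ, hθ⟩ : ∃ θ : ℝ, θ = 1 / 3 + 1 / ((20 * e : ℕ) : ℝ) := ⟨_, rfl⟩
  rw [← hθ] at hMK
  have hθ0 : 0 ≤ θ := by rw [hθ]; positivity
  have hθ1 : θ ≤ 1 := by
    rw [hθ]; push_cast
    have : 1 / (20 * (e : ℝ)) ≤ 1 / 20 := one_div_le_one_div_of_le (by norm_num) (by linarith)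
    linarith
  have hXθ : (X : ℝ) ^ θ ≤ R / (2 * L ^ C) := by
    have h1 : (X : ℝ) ≤ 16 * (R : ℝ) ^ (3 - 1 / e : ℝ) := by
      rw [hXr]
      exact mul_le_mul_of_nonneg_left hT2 (by norm_num)
    have h2 : (X : ℝ) ^ θ ≤ 16 * (R : ℝ) ^ (1 - 11 / (60 * e) : ℝ) := by
      calc (X : ℝ) ^ θ ≤ (16 * (R : ℝ) ^ (3 - 1 / e : ℝ)) ^ θ := Real.rpow_le_rpow hX0.le h1 hθ0
        _ = (16 : ℝ) ^ θ * (R : ℝ) ^ ((3 - 1 / e) * θ : ℝ) := by
            rw [Real.mul_rpow (by norm_num) (by positivity), ← Real.rpow_mul hR0.le]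
        _ ≤ 16 * (R : ℝ) ^ (1 - 11 / (60 * e) : ℝ) := by
            refine mul_le_mul ?_ ?_ (by positivity) (by norm_num)
            · calc (16 : ℝ) ^ θ ≤ (16 : ℝ) ^ (1 : ℝ) := Real.rpow_le_rpow_of_exponent_le (by norm_num) hθ1
                _ = 16 := Real.rpow_one _
            · refine Real.rpow_le_rpow_of_exponent_le hR1r ?_
              rw [hθ]; push_cast
              have e1 : (3 - 1 / (e : ℝ)) * (1 / 3 + 1 / (20 * e)) = 1 - 11 / (60 * e) - 1 / (20 * e ^ 2) := by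
                field_simp; ring
              rw [e1]
              have : (0 : ℝ) ≤ 1 / (20 * (e : ℝ) ^ 2) := by positivity
              linarith
    have h3 : 32 * L ^ C ≤ (R : ℝ) ^ (11 / (60 * e) : ℝ) := by
      refine c3.trans ?_
      calc Real.exp (11 / (60 * (e : ℝ) ^ 2) * L) = (Real.exp (L / e)) ^ (11 / (60 * e) : ℝ) := by
            rw [← Real.exp_mul]; congr 1; field_simp
        _ ≤ _ := Real.rpow_le_rpow (Real.exp_pos _).le hRexp (by positivity)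
    rw [le_div_iff₀ (by have := pw0 C; positivity)]
    calc (X : ℝ) ^ θ * (2 * L ^ C) ≤ (16 * (R : ℝ) ^ (1 - 11 / (60 * e) : ℝ)) * (2 * L ^ C) :=
          mul_le_mul_of_nonneg_right h2 (by have := pw0 C; positivity)
      _ = (R : ℝ) ^ (1 - 11 / (60 * e) : ℝ) * (32 * L ^ C) := by ring
      _ ≤ (R : ℝ) ^ (1 - 11 / (60 * e) : ℝ) * (R : ℝ) ^ (11 / (60 * e) : ℝ) :=
          mul_le_mul_of_nonneg_left h3 (by positivity)
      _ = R := by rw [← Real.rpow_add hR0]; simp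
  have hXθ1 : 1 ≤ (X : ℝ) ^ θ := Real.one_le_rpow hX1 hθ0
  obtain ⟨K, hK⟩ : ∃ K : ℕ, K = ⌊(R : ℝ) / L ^ C⌋₊ := ⟨_, rfl⟩
  have hKle : (K : ℝ) ≤ R / L ^ C := by rw [hK]; exact Nat.floor_le (by have := pw0 C; positivity)
  have hKge : (X : ℝ) ^ θ ≤ K := by
    have h1 : (R : ℝ) / L ^ C < K + 1 := by rw [hK]; exact Nat.lt_floor_add_one _
    have h2 : (R : ℝ) / L ^ C = 2 * (R / (2 * L ^ C)) := by
      have := pw0 C
      field_simp
    rw [h2] at h1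
    have h3 : 1 ≤ (R : ℝ) / (2 * L ^ C) := hXθ1.trans hXθ
    linarith
  have hK1r : (1 : ℝ) ≤ K := hXθ1.trans hKge
  have hK1 : 1 ≤ K := by exact_mod_cast hK1r
  have hK0 : (0 : ℝ) < K := by linarith
  have hKR : (K : ℝ) ≤ R := hKle.trans (div_le_self hR0.le (pw1 C))
  have hKX : K ≤ X := by
    have : (K : ℝ) ≤ X := hKR.trans hXR
    exact_mod_cast this
  -- the function
  obtain ⟨f, hf⟩ : ∃ f : ℤ → ℝ, f = fun m => if (0 : ℤ) < m ∧ m ≤ (X : ℤ) then Ed z m else 0 := ⟨_, rfl⟩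
  have hS := hMK K hKge hKX 0 X
  rw [← hf] at hS
  have hfP : ∀ m, |f m| ≤ 4 * L := by
    intro m
    rw [hf]
    simp only
    split_ifs with hc
    · exact Ed_bound z m L X hL0.le (by exact_mod_cast hc.2) hlog2 hV
    · rw [abs_zero]; linarith
  have hfX : ∀ m, f m ≠ 0 → |m| ≤ X := by
    intro m hm
    rw [hf] at hm
    simp only at hm
    split_ifs at hm with hc
    · rw [abs_of_pos hc.1]; exact hc.2
    · exact absurd rfl hm
  have hEq : ∀ b ∈ Icc 1 Q, ∀ c ∈ Icc 1 R, ∀ n ∈ Icc 1 T, Ed z ((b : ℤ) * n + c + s) = f ((b : ℤ) * n + c + s) := by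
    intro b hb c hc n hn
    rw [mem_Icc] at hb hc hn
    rw [hf]
    simp only
    by_cases h0 : (0 : ℤ) < (b : ℤ) * n + c + s
    · rw [if_pos]
      refine ⟨h0, ?_⟩
      rw [abs_le] at hs
      have q1 : (b : ℤ) * n ≤ Q * T := by
        exact_mod_cast Nat.mul_le_mul hb.2 hn.2
      have q3 : (X : ℤ) = 16 * (Q * T) := by rw [← hX]; push_cast; ring
      have q4 : (R : ℤ) ≤ Q * T := by exact_mod_cast hcase
      have q5 : (c : ℤ) ≤ R := by exact_mod_cast hc.2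
      have q6 : (0 : ℤ) ≤ R := by positivity
      rw [q3]; linarith [hs.2]
    · rw [if_neg (by intro h; exact h0 h.1), Ed_zero z _ (by omega)]
  have hLHS : ∑ b ∈ Icc 1 Q, ∑ c ∈ Icc 1 R, (∑ n ∈ Icc 1 T, w n * Ed z ((b : ℤ) * n + c + s)) ^ 2 =
      ∑ b ∈ Icc 1 Q, ∑ c ∈ Icc 1 R, (∑ n ∈ Icc 1 T, w n * f ((b : ℤ) * n + c + s)) ^ 2 := by
    refine sum_congr rfl fun b hb => sum_congr rfl fun c hc => ?_
    congr 1
    refine sum_congr rfl fun n hn => ?_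
    rw [hEq b hb c hc n hn]
  rw [hLHS]
  obtain ⟨A2, hA2⟩ : ∃ A2 : ℕ, A2 = 2 * A + 7 := ⟨_, rfl⟩
  rw [← hA2] at hS c5
  obtain ⟨b0, hb0⟩ : ∃ b0 : ℕ, b0 = ⌊(Q : ℝ) / L ^ C⌋₊ := ⟨_, rfl⟩
  obtain ⟨ρ, hρ⟩ : ∃ ρ : ℝ, ρ = R / Q := ⟨_, rfl⟩
  have hρ1 : 1 ≤ ρ := by rw [hρ, le_div_iff₀ hQ0]; linarith
  have hρ0 : 0 < ρ := by linarith
  have hρQ : ρ * Q = R := by rw [hρ]; field_simp
  obtain ⟨W, hW⟩ : ∃ W : ℕ, W = ⌊ρ * L ^ C⌋₊ + 1 := ⟨_, rfl⟩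
  have hWle : (W : ℝ) ≤ 2 * (ρ * L ^ C) := by
    rw [hW]; push_cast
    have h1 := Nat.floor_le (mul_pos hρ0 (pw0 C)).le
    have h2 : 1 ≤ ρ * L ^ C := one_le_mul_of_one_le_of_one_le hρ1 (pw1 C)
    linarith
  have hb0le : (b0 : ℝ) ≤ Q / L ^ C := by rw [hb0]; exact Nat.floor_le (by have := pw0 C; positivity)
  have hbW : ∀ b, b0 < b → R / b + 1 ≤ W := by
    intro b hb
    rw [hW]
    have h1 : (Q : ℝ) / L ^ C < b := by
      rw [hb0] at hb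
      exact (Nat.floor_lt (by have := pw0 C; positivity)).1 hb
    have hb' : (0 : ℝ) < b := lt_trans (by have := pw0 C; positivity) h1
    have h2 : (R : ℝ) / b ≤ ρ * L ^ C := by
      rw [div_lt_iff₀ (pw0 C)] at h1
      rw [div_le_iff₀ hb', ← hρQ]
      have := mul_le_mul_of_nonneg_left h1.le hρ0.le
      linarith
    have h3 : R / b ≤ ⌊ρ * L ^ C⌋₊ := by
      apply Nat.le_floor
      exact Nat.cast_div_le.trans h2
    omega
  obtain ⟨lX, hlX⟩ : ∃ lX : ℝ, lX = Real.log X := ⟨_, rfl⟩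
  rw [← hlX] at hS hlog1 hlog2 hlogX0
  have hG := gen5 hXI f (4 * L) hfP Q R K T X b0 W hK1 hRn hTn hcase hX s hs hfX _ hS w hw hbW
    (3 * X ^ 2 * (1 + lX) ^ 2 * K * (4 * L) / lX ^ A2) (by positivity) (by
      refine le_of_eq ?_
      rw [← hlX]
      have h1 : lX ^ (2 * A2) = (lX ^ A2) ^ 2 := by rw [← pow_mul, mul_comm]
      rw [h1]
      have h2 : 0 < lX ^ A2 := pow_pos hlogX0 _
      field_simp)
  refine hG.trans ?_
  -- the four terms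
  have hLA0 : 0 < L ^ A := pw0 A
  have t1 : (Q : ℝ) * (T * (R * (4 * L) ^ 2)) ≤ 1 / 4 * ((Q : ℝ) * R * (T : ℝ) ^ 2 / L ^ A) := by
    have h1 : 64 * L ^ (A + 2) ≤ T := by
      refine le_trans ?_ hT1
      rw [hC, show A + 3 = A + 2 + 1 by ring, pow_succ L (A + 2), mul_comm]
      exact mul_le_mul_of_nonneg_left (by linarith) (pw0 _).le
    rw [← mul_div_assoc, le_div_iff₀ hLA0]
    calc (Q : ℝ) * (T * (R * (4 * L) ^ 2)) * L ^ A = 1 / 4 * ((Q : ℝ) * R * T * (64 * L ^ (A + 2))) := by ring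
      _ ≤ 1 / 4 * ((Q : ℝ) * R * T * T) := by gcongr
      _ = _ := by ring
  have t2 : (Q : ℝ) * ((T : ℝ) ^ 2 * (2 * K * (4 * L) ^ 2)) ≤ 1 / 4 * ((Q : ℝ) * R * (T : ℝ) ^ 2 / L ^ A) := by
    calc (Q : ℝ) * ((T : ℝ) ^ 2 * (2 * K * (4 * L) ^ 2)) ≤ Q * (T ^ 2 * (2 * (R / L ^ C) * (4 * L) ^ 2)) := by gcongr
      _ = 32 / L * ((Q : ℝ) * R * (T : ℝ) ^ 2 / L ^ A) := by
          rw [hC, show L ^ (A + 3) = L ^ A * L ^ 3 by ring]
          field_simp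
          ring
      _ ≤ 1 / 4 * ((Q : ℝ) * R * (T : ℝ) ^ 2 / L ^ A) := by
          refine mul_le_mul_of_nonneg_right ?_ (by positivity)
          rw [div_le_iff₀ hL0]; linarith
  have t3 : (b0 : ℝ) * ((T : ℝ) ^ 2 * (R * (4 * L) ^ 2)) ≤ 1 / 4 * ((Q : ℝ) * R * (T : ℝ) ^ 2 / L ^ A) := by
    calc (b0 : ℝ) * ((T : ℝ) ^ 2 * (R * (4 * L) ^ 2)) ≤ (Q / L ^ C) * (T ^ 2 * (R * (4 * L) ^ 2)) := by gcongr
      _ = 16 / L * ((Q : ℝ) * R * (T : ℝ) ^ 2 / L ^ A) := by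
          rw [hC, show L ^ (A + 3) = L ^ A * L ^ 3 by ring]
          field_simp
          ring
      _ ≤ 1 / 4 * ((Q : ℝ) * R * (T : ℝ) ^ 2 / L ^ A) := by
          refine mul_le_mul_of_nonneg_right ?_ (by positivity)
          rw [div_le_iff₀ hL0]; linarith
  have t4 : 2 / (K : ℝ) * (W * (3 * X ^ 2 * (1 + lX) ^ 2 * K * (4 * L) / lX ^ A2)) ≤
      1 / 4 * ((Q : ℝ) * R * (T : ℝ) ^ 2 / L ^ A) := by
    have h1 : 2 / (K : ℝ) * (W * (3 * X ^ 2 * (1 + lX) ^ 2 * K * (4 * L) / lX ^ A2)) =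
        6 * W * X ^ 2 * (1 + lX) ^ 2 * (4 * L) / lX ^ A2 := by
      field_simp
      ring
    rw [h1]
    have h2 : (L / e) ^ A2 ≤ lX ^ A2 := pow_le_pow_left₀ (by positivity) hlog1 _
    have h3 : 6 * W * X ^ 2 * (1 + lX) ^ 2 * (4 * L) ≤
        6 * (2 * (ρ * L ^ C)) * (16 * (Q * T)) ^ 2 * (5 * L) ^ 2 * (4 * L) := by
      rw [hXr]
      have : 1 + lX ≤ 5 * L := by linarith
      gcongr
    calc 6 * W * X ^ 2 * (1 + lX) ^ 2 * (4 * L) / lX ^ A2 ≤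
          6 * (2 * (ρ * L ^ C)) * (16 * (Q * T)) ^ 2 * (5 * L) ^ 2 * (4 * L) / (L / e) ^ A2 :=
          div_le_div₀ (by have := pw0 C; positivity) h3 (by positivity) h2
      _ = 307200 * (e : ℝ) ^ A2 / L * ((Q : ℝ) * (ρ * Q) * (T : ℝ) ^ 2 / L ^ A) := by
          rw [div_pow, hC, hA2, show L ^ (2 * A + 7) = L ^ (A + 3) * L ^ 3 * L * L ^ A by ring]
          have := pw0 (A + 3)
          field_simp
          ring
      _ ≤ 1 / 4 * ((Q : ℝ) * (ρ * Q) * (T : ℝ) ^ 2 / L ^ A) := by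
          refine mul_le_mul_of_nonneg_right ?_ (by positivity)
          rw [div_le_iff₀ hL0]; linarith
      _ = 1 / 4 * ((Q : ℝ) * R * (T : ℝ) ^ 2 / L ^ A) := by rw [hρQ]
  have e1 : (Q : ℝ) * (T * (R * (4 * L) ^ 2) + (T : ℝ) ^ 2 * (2 * K * (4 * L) ^ 2)) =
    Q * (T * (R * (4 * L) ^ 2)) + Q * ((T : ℝ) ^ 2 * (2 * K * (4 * L) ^ 2)) := by ring
  rw [e1]
  linarith

set_option maxHeartbeats 4000000 in
theorem core2 (hGAL : S_GAL) (e A : ℕ) (he : 1 ≤ e) (H Q R T z : ℕ) (L : ℝ) (hL : L = Real.log H) (hH : 16 ≤ H)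
    (c0 : 200 ≤ L) (c3 : 32 * L ^ (A + 3) ≤ Real.exp (11 / (60 * (e : ℝ) ^ 2) * L))
    (c5 : 4 * 307200 * (e : ℝ) ^ (2 * A + 7) ≤ L)
    (hQ1 : (H : ℝ) ^ (1 / e : ℝ) ≤ Q) (hQR : Q ≤ R) (hR2 : R ≤ H) (hT1 : L ^ (A + 3) ≤ T)
    (hT2 : (R : ℝ) ^ (1 / 3 + 1 / e : ℝ) ≤ (Q : ℝ) * T) (hcase : Q * T ≤ R)
    (hV : (Vz z)⁻¹ ≤ L) (s : ℤ) (hs : |s| ≤ 8 * R) (w : ℕ → ℝ) (hw : ∀ n, |w n| ≤ 1)
    (hMK : ∀ K : ℕ, ((32 * R : ℕ) : ℝ) ^ (1 / 3 + 1 / ((20 * e : ℕ) : ℝ) : ℝ) ≤ K → K ≤ 32 * R →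
      ∀ (Y₁ Y₂ : ℤ) (α : ℝ), ∑ x ∈ Icc (-((32 * R : ℕ) : ℤ)) ((32 * R : ℕ) : ℤ),
      ‖sw (fun m => if Y₁ < m ∧ m ≤ Y₂ then Ed z m else 0) K x α‖ ^ 2 ≤
        ((32 * R : ℕ) : ℝ) * (K : ℝ) ^ 2 / (Real.log ((32 * R : ℕ) : ℝ)) ^ (2 * (2 * A + 7))) :
    ∑ b ∈ Icc 1 Q, ∑ c ∈ Icc 1 R, (∑ n ∈ Icc 1 T, w n * Ed z ((b : ℤ) * n + c + s)) ^ 2 ≤
      (Q : ℝ) * R * (T : ℝ) ^ 2 / L ^ A := by
  have he1 : (1 : ℝ) ≤ e := by exact_mod_cast he
  have he0 : (0 : ℝ) < e := by linarith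
  have hL0 : 0 < L := by linarith
  have hL1 : 1 ≤ L := by linarith
  have hHr : (16 : ℝ) ≤ H := by exact_mod_cast hH
  have hH0 : (0 : ℝ) < H := by linarith
  have pw0 : ∀ a : ℕ, 0 < L ^ a := fun a => pow_pos hL0 a
  have pw1 : ∀ a : ℕ, 1 ≤ L ^ a := fun a => one_le_pow₀ hL1
  have hQexp : Real.exp (L / e) ≤ Q := by
    refine le_trans (le_of_eq ?_) hQ1
    rw [Real.rpow_def_of_pos hH0, ← hL]
    congr 1; field_simp
  have hQRr : (Q : ℝ) ≤ R := by exact_mod_cast hQR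
  have hRexp : Real.exp (L / e) ≤ R := hQexp.trans hQRr
  have hQ1r : (1 : ℝ) ≤ Q := le_trans (Real.one_le_exp (by positivity)) hQexp
  have hQn : 1 ≤ Q := by exact_mod_cast hQ1r
  have hQ0 : (0 : ℝ) < Q := by linarith
  have hR1r : (1 : ℝ) ≤ R := hQ1r.trans hQRr
  have hR0 : (0 : ℝ) < R := by linarith
  have hRn : 1 ≤ R := by exact_mod_cast hR1r
  have hT1r : (1 : ℝ) ≤ T := (pw1 _).trans hT1
  have hTn : 1 ≤ T := by exact_mod_cast hT1r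
  have hT0 : (0 : ℝ) < T := by linarith
  have hRH : (R : ℝ) ≤ H := by exact_mod_cast hR2
  have hcr : (Q : ℝ) * T ≤ R := by exact_mod_cast hcase
  have hQT0 : (0 : ℝ) < (Q : ℝ) * T := by positivity
  have hQT1 : (1 : ℝ) ≤ (Q : ℝ) * T := one_le_mul_of_one_le_of_one_le hQ1r hT1r
  obtain ⟨X, hX⟩ : ∃ X : ℕ, 32 * R = X := ⟨_, rfl⟩
  rw [hX] at hMK
  have hXr : (X : ℝ) = 32 * R := by rw [← hX]; push_cast; ring
  have hXR : (R : ℝ) ≤ X := by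
    rw [hXr]; linarith
  have hX1 : (1 : ℝ) ≤ X := hR1r.trans hXR
  have hX0 : (0 : ℝ) < X := by linarith
  -- logarithms
  have hlog1 : L / e ≤ Real.log X := by
    rw [Real.le_log_iff_exp_le hX0]; exact hRexp.trans hXR
  have hlog2 : Real.log X ≤ 4 * L := by
    have h1 : (X : ℝ) ≤ (H : ℝ) ^ 4 := by
      rw [hXr]
      have h5 : (32 : ℝ) ≤ H ^ 3 := by
        have : (16 : ℝ) ^ 3 ≤ H ^ 3 := pow_le_pow_left₀ (by norm_num) hHr 3
        linarith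
      calc (32 : ℝ) * R ≤ H ^ 3 * H := by gcongr
        _ = (H : ℝ) ^ 4 := by ring
    have h2 := Real.log_le_log hX0 h1
    rw [Real.log_pow, ← hL] at h2
    exact_mod_cast h2
  have hlogX0 : 0 < Real.log X := lt_of_lt_of_le (by positivity) hlog1
  obtain ⟨C, hC⟩ : ∃ C : ℕ, C = A + 3 := ⟨_, rfl⟩
  rw [← hC] at c3 hT1
  -- the length of the shifts
  have hR32 : (32 : ℝ) ≤ (R : ℝ) ^ (19 / (20 * e) : ℝ) := by
    have h0 : (32 : ℝ) ≤ 32 * L ^ C := by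
      have := pw1 C
      linarith
    refine (h0.trans c3).trans ?_
    calc Real.exp (11 / (60 * (e : ℝ) ^ 2) * L) ≤ Real.exp (L / e * (19 / (20 * e))) := by
          apply Real.exp_le_exp.2
          have : L / e * (19 / (20 * e)) = 57 / (60 * (e : ℝ) ^ 2) * L := by field_simp; ring
          rw [this]
          have h7 : 11 / (60 * (e : ℝ) ^ 2) ≤ 57 / (60 * (e : ℝ) ^ 2) := by gcongr; norm_num
          exact mul_le_mul_of_nonneg_right h7 hL0.le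
      _ = (Real.exp (L / e)) ^ (19 / (20 * e) : ℝ) := by rw [Real.exp_mul]
      _ ≤ _ := Real.rpow_le_rpow (Real.exp_pos _).le hRexp (by positivity)
  have hKge : (X : ℝ) ^ (1 / 3 + 1 / ((20 * e : ℕ) : ℝ) : ℝ) ≤ ((2 * (Q * T) : ℕ) : ℝ) := by
    have hθ1 : 1 / 3 + 1 / ((20 * e : ℕ) : ℝ) ≤ 1 := by
      push_cast
      have : 1 / (20 * (e : ℝ)) ≤ 1 / 20 := one_div_le_one_div_of_le (by norm_num) (by linarith)
      linarith
    have h1 : (32 : ℝ) ^ (1 / 3 + 1 / ((20 * e : ℕ) : ℝ) : ℝ) ≤ (R : ℝ) ^ (19 / (20 * e) : ℝ) := by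
      refine le_trans ?_ hR32
      calc (32 : ℝ) ^ (1 / 3 + 1 / ((20 * e : ℕ) : ℝ) : ℝ) ≤ (32 : ℝ) ^ (1 : ℝ) :=
            Real.rpow_le_rpow_of_exponent_le (by norm_num) hθ1
        _ = 32 := Real.rpow_one _
    rw [hXr, Real.mul_rpow (by norm_num) hR0.le]
    calc (32 : ℝ) ^ (1 / 3 + 1 / ((20 * e : ℕ) : ℝ) : ℝ) * (R : ℝ) ^ (1 / 3 + 1 / ((20 * e : ℕ) : ℝ) : ℝ) ≤
        (R : ℝ) ^ (19 / (20 * e) : ℝ) * (R : ℝ) ^ (1 / 3 + 1 / ((20 * e : ℕ) : ℝ) : ℝ) :=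
          mul_le_mul_of_nonneg_right h1 (by positivity)
      _ = (R : ℝ) ^ (1 / 3 + 1 / e : ℝ) := by
          rw [← Real.rpow_add hR0]
          congr 1
          push_cast
          field_simp
          ring
      _ ≤ (Q : ℝ) * T := hT2
      _ ≤ ((2 * (Q * T) : ℕ) : ℝ) := by push_cast; linarith
  have hKX : 2 * (Q * T) ≤ X := by rw [← hX]; omega
  -- the function
  obtain ⟨f, hf⟩ : ∃ f : ℤ → ℝ, f = fun m => if (0 : ℤ) < m ∧ m ≤ ((16 * R : ℕ) : ℤ) then Ed z m else 0 := ⟨_, rfl⟩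
  have hS := hMK (2 * (Q * T)) hKge hKX 0 ((16 * R : ℕ) : ℤ)
  rw [← hf] at hS
  have hfP : ∀ m, |f m| ≤ 4 * L := by
    intro m
    rw [hf]
    simp only
    split_ifs with hc
    · refine Ed_bound z m L X hL0.le ?_ hlog2 hV
      have h1 : (m : ℝ) ≤ ((16 * R : ℕ) : ℝ) := by exact_mod_cast hc.2
      rw [hXr]
      push_cast at h1
      linarith
    · rw [abs_zero]; linarith
  have hfZ : ∀ m, f m ≠ 0 → |m| ≤ ((16 * R : ℕ) : ℤ) := by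
    intro m hm
    rw [hf] at hm
    simp only at hm
    split_ifs at hm with hc
    · rw [abs_of_pos hc.1]; exact hc.2
    · exact absurd rfl hm
  have hEq : ∀ b ∈ Icc 1 Q, ∀ c ∈ Icc 1 R, ∀ n ∈ Icc 1 T, Ed z ((b : ℤ) * n + c + s) = f ((b : ℤ) * n + c + s) := by
    intro b hb c hc n hn
    rw [mem_Icc] at hb hc hn
    rw [hf]
    simp only
    by_cases h0 : (0 : ℤ) < (b : ℤ) * n + c + s
    · rw [if_pos]
      refine ⟨h0, ?_⟩
      rw [abs_le] at hs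
      have q1 : (b : ℤ) * n ≤ Q * T := by
        exact_mod_cast Nat.mul_le_mul hb.2 hn.2
      have q4 : (Q : ℤ) * T ≤ R := by exact_mod_cast hcase
      have q5 : (c : ℤ) ≤ R := by exact_mod_cast hc.2
      have q6 : (0 : ℤ) ≤ R := by positivity
      push_cast
      linarith [hs.2]
    · rw [if_neg (by intro h; exact h0 h.1), Ed_zero z _ (by omega)]
  have hLHS : ∑ b ∈ Icc 1 Q, ∑ c ∈ Icc 1 R, (∑ n ∈ Icc 1 T, w n * Ed z ((b : ℤ) * n + c + s)) ^ 2 =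
      ∑ b ∈ Icc 1 Q, ∑ c ∈ Icc 1 R, (∑ n ∈ Icc 1 T, w n * f ((b : ℤ) * n + c + s)) ^ 2 := by
    refine sum_congr rfl fun b hb => sum_congr rfl fun c hc => ?_
    congr 1
    refine sum_congr rfl fun n hn => ?_
    rw [hEq b hb c hc n hn]
  rw [hLHS]
  obtain ⟨A2, hA2⟩ : ∃ A2 : ℕ, A2 = 2 * A + 7 := ⟨_, rfl⟩
  rw [← hA2] at hS c5
  obtain ⟨lX, hlX⟩ : ∃ lX : ℝ, lX = Real.log X := ⟨_, rfl⟩
  rw [← hlX] at hS hlog1 hlog2 hlogX0
  obtain ⟨S, hSd⟩ : ∃ S : ℝ, S = (X : ℝ) * ((2 * (Q * T) : ℕ) : ℝ) ^ 2 / lX ^ (2 * A2) := ⟨_, rfl⟩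
  rw [← hSd] at hS
  have hS0 : 0 ≤ S := by rw [hSd]; positivity
  have hS' : ∀ α : ℝ, ∑ x ∈ Icc (-(((16 * R : ℕ) : ℤ) + (2 * (Q * T) : ℕ))) ((16 * R : ℕ) : ℤ),
      ‖sw f (2 * (Q * T)) x α‖ ^ 2 ≤ S := by
    intro α
    refine le_trans ?_ (hS α)
    refine sum_le_sum_of_subset_of_nonneg ?_ (fun _ _ _ => by positivity)
    intro x hx
    rw [mem_Icc] at hx ⊢
    have q4 : (Q : ℤ) * T ≤ R := by exact_mod_cast hcase
    have q5 : (X : ℤ) = 32 * R := by rw [← hX]; push_cast; ring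
    have q6 : (0 : ℤ) ≤ R := by positivity
    have hx1 := hx.1
    have hx2 := hx.2
    push_cast at hx1 hx2
    rw [q5]
    constructor <;> linarith
  -- the grid
  obtain ⟨G, hGd⟩ : ∃ G : ℕ, G = ⌊(R : ℝ) / L ^ C⌋₊ := ⟨_, rfl⟩
  have hGle : (G : ℝ) ≤ R / L ^ C := by rw [hGd]; exact Nat.floor_le (by have := pw0 C; positivity)
  have hR2L : 1 ≤ (R : ℝ) / (2 * L ^ C) := by
    rw [le_div_iff₀ (by have := pw0 C; positivity), one_mul]
    have h1 : Real.exp (11 / (60 * (e : ℝ) ^ 2) * L) ≤ Real.exp (L / e) := by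
      apply Real.exp_le_exp.2
      have : L / e = 1 / e * L := by ring
      rw [this]
      refine mul_le_mul_of_nonneg_right ?_ hL0.le
      rw [div_le_div_iff₀ (by positivity) he0]
      nlinarith
    have := pw0 C
    linarith
  have hGge : (R : ℝ) / (2 * L ^ C) ≤ G := by
    have h1 : (R : ℝ) / L ^ C < G + 1 := by rw [hGd]; exact Nat.lt_floor_add_one _
    have h2 : (R : ℝ) / L ^ C = 2 * (R / (2 * L ^ C)) := by
      have := pw0 C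
      field_simp
    rw [h2] at h1
    linarith
  have hG1r : (1 : ℝ) ≤ G := hR2L.trans hGge
  have hG1 : 1 ≤ G := by exact_mod_cast hG1r
  obtain ⟨N, hN⟩ : ∃ N : ℕ, N = ⌈18 * L ^ C⌉₊ := ⟨_, rfl⟩
  have hNge : 18 * L ^ C ≤ N := by rw [hN]; exact Nat.le_ceil _
  have hNle : (N : ℝ) ≤ 19 * L ^ C := by
    have h1 := Nat.ceil_lt_add_one (show 0 ≤ 18 * L ^ C by have := pw0 C; positivity)
    rw [← hN] at h1
    have := pw1 C
    linarith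
  have h9 : 9 * R ≤ N * G := by
    have h1 : (9 : ℝ) * R ≤ N * G := by
      calc (9 : ℝ) * R = (18 * L ^ C) * (R / (2 * L ^ C)) := by
            have := pw0 C
            field_simp
            ring
        _ ≤ N * G := mul_le_mul hNge hGge (by have := pw0 C; positivity) (Nat.cast_nonneg _)
    exact_mod_cast h1
  have hlQT : Real.log ((Q * T : ℕ) : ℝ) ≤ 4 * L := by
    have h1 : Real.log ((Q * T : ℕ) : ℝ) ≤ Real.log H := by
      apply Real.log_le_log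
      · push_cast; exact hQT0
      · push_cast; linarith
    rw [← hL] at h1
    linarith
  have hlQT0 : 0 ≤ Real.log ((Q * T : ℕ) : ℝ) := Real.log_nonneg (by push_cast; exact hQT1)
  obtain ⟨lq, hlq⟩ : ∃ lq : ℝ, lq = Real.log ((Q * T : ℕ) : ℝ) := ⟨_, rfl⟩
  rw [← hlq] at hlQT hlQT0
  have hG := gen6 hGAL f (4 * L) hfP Q R G T (16 * R) N hG1 hQn hTn hcase s hs h9 hfZ S hS0 hS' w hw
    ((1 + lq) ^ 2 * (12 * R * (Q * T) * (4 * L)) / lX ^ A2) (by positivity) (by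
      rw [← hlq]
      have h1 : lX ^ (2 * A2) = (lX ^ A2) ^ 2 := by rw [← pow_mul, mul_comm]
      have h2 : 0 < lX ^ A2 := pow_pos hlogX0 _
      rw [hSd, h1, hXr]
      push_cast
      rw [div_pow, div_mul_eq_mul_div, ← mul_div_assoc]
      gcongr ?_ / _
      have h3 : ((1 + lq) ^ 2 * (12 * R * (Q * T) * (4 * L))) ^ 2 -
          (1 + lq) ^ 4 * (32 * R * (2 * (Q * T)) ^ 2 * (R * (4 * L) ^ 2)) =
          16 * (1 + lq) ^ 4 * ((R : ℝ) ^ 2 * (Q * T) ^ 2 * (4 * L) ^ 2) := by ring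
      have h4 : 0 ≤ 16 * (1 + lq) ^ 4 * ((R : ℝ) ^ 2 * (Q * T) ^ 2 * (4 * L) ^ 2) := by positivity
      linarith)
  refine hG.trans ?_
  have hLA0 : 0 < L ^ A := pw0 A
  have t1 : (Q : ℝ) * (T * (R * (4 * L) ^ 2)) ≤ 1 / 4 * ((Q : ℝ) * R * (T : ℝ) ^ 2 / L ^ A) := by
    have h1 : 64 * L ^ (A + 2) ≤ T := by
      refine le_trans ?_ hT1
      rw [hC, show A + 3 = A + 2 + 1 by ring, pow_succ L (A + 2), mul_comm]
      exact mul_le_mul_of_nonneg_left (by linarith) (pw0 _).le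
    rw [← mul_div_assoc, le_div_iff₀ hLA0]
    calc (Q : ℝ) * (T * (R * (4 * L) ^ 2)) * L ^ A = 1 / 4 * ((Q : ℝ) * R * T * (64 * L ^ (A + 2))) := by ring
      _ ≤ 1 / 4 * ((Q : ℝ) * R * T * T) := by gcongr
      _ = _ := by ring
  have t2 : (Q : ℝ) * ((T : ℝ) ^ 2 * (2 * G * (4 * L) ^ 2)) ≤ 1 / 4 * ((Q : ℝ) * R * (T : ℝ) ^ 2 / L ^ A) := by
    calc (Q : ℝ) * ((T : ℝ) ^ 2 * (2 * G * (4 * L) ^ 2)) ≤ Q * (T ^ 2 * (2 * (R / L ^ C) * (4 * L) ^ 2)) := by gcongr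
      _ = 32 / L * ((Q : ℝ) * R * (T : ℝ) ^ 2 / L ^ A) := by
          rw [hC, show L ^ (A + 3) = L ^ A * L ^ 3 by ring]
          field_simp
          ring
      _ ≤ 1 / 4 * ((Q : ℝ) * R * (T : ℝ) ^ 2 / L ^ A) := by
          refine mul_le_mul_of_nonneg_right ?_ (by positivity)
          rw [div_le_iff₀ hL0]; linarith
  have t4 : 2 * (T * ((2 * N + 1) * ((1 + lq) ^ 2 * (12 * R * (Q * T) * (4 * L)) / lX ^ A2))) ≤
      1 / 4 * ((Q : ℝ) * R * (T : ℝ) ^ 2 / L ^ A) := by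
    have h2 : (L / e) ^ A2 ≤ lX ^ A2 := pow_le_pow_left₀ (by positivity) hlog1 _
    have hNN : 2 * (N : ℝ) + 1 ≤ 40 * L ^ C := by
      have := pw1 C
      linarith
    have h3 : (1 + lq) ^ 2 * (12 * R * (Q * T) * (4 * L)) / lX ^ A2 ≤
        (5 * L) ^ 2 * (12 * R * (Q * T) * (4 * L)) / (L / e) ^ A2 := by
      have : 1 + lq ≤ 5 * L := by linarith
      refine div_le_div₀ (by positivity) ?_ (by positivity) h2
      gcongr
    calc 2 * (T * ((2 * N + 1) * ((1 + lq) ^ 2 * (12 * R * (Q * T) * (4 * L)) / lX ^ A2))) ≤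
          2 * (T * ((40 * L ^ C) * ((5 * L) ^ 2 * (12 * R * (Q * T) * (4 * L)) / (L / e) ^ A2))) := by
          have := pw0 C
          gcongr
      _ = 96000 * (e : ℝ) ^ A2 / L * ((Q : ℝ) * R * (T : ℝ) ^ 2 / L ^ A) := by
          rw [div_pow, hC, hA2, show L ^ (2 * A + 7) = L ^ (A + 3) * L ^ 3 * L * L ^ A by ring]
          have := pw0 (A + 3)
          field_simp
          ring
      _ ≤ 1 / 4 * ((Q : ℝ) * R * (T : ℝ) ^ 2 / L ^ A) := by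
          refine mul_le_mul_of_nonneg_right ?_ (by positivity)
          rw [div_le_iff₀ hL0]
          have : 0 ≤ (e : ℝ) ^ A2 := by positivity
          linarith
  have e1 : (Q : ℝ) * (T * (R * (4 * L) ^ 2) + (T : ℝ) ^ 2 * (2 * G * (4 * L) ^ 2)) =
    Q * (T * (R * (4 * L) ^ 2)) + Q * ((T : ℝ) ^ 2 * (2 * G * (4 * L) ^ 2)) := by ring
  have t5 : 0 ≤ (Q : ℝ) * R * (T : ℝ) ^ 2 / L ^ A := by positivity
  rw [e1]
  linarith

theorem main : S_MKT (1 / 3) → S_XI → S_GAL → S_UT5 := by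
  intro hM hXI hGAL e A he
  obtain ⟨E0', hM'⟩ := hM (20 * e) (2 * (2 * A + 7)) (by omega)
  refine ⟨E0' + 1, A + 3, fun E1 => ?_⟩
  obtain ⟨X0, hX0⟩ := hM' (E1 + 1)
  obtain ⟨N1, hN1⟩ := Pool.Agent.H373R2.T7.Vz_inv_small E1
  have he1 : (1 : ℝ) ≤ e := by exact_mod_cast he
  have he0 : (0 : ℝ) < e := by linarith
  have tl : Filter.Tendsto (fun H : ℕ => Real.log (H : ℝ)) Filter.atTop Filter.atTop :=
    Real.tendsto_log_atTop.comp tendsto_natCast_atTop_atTop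
  have t2 : Filter.Tendsto (fun L : ℝ => Real.exp (L / e)) Filter.atTop Filter.atTop :=
    Real.tendsto_exp_atTop.comp (Filter.tendsto_id.atTop_div_const he0)
  have ev := (((((Filter.eventually_ge_atTop (max 16 N1)).and (tl.eventually_ge_atTop (200 : ℝ))).and
    (tl.eventually_ge_atTop (4 * 307200 * (e : ℝ) ^ (2 * A + 7)))).and
    (tl.eventually (asy (11 / (60 * (e : ℝ) ^ 2)) (by positivity) (A + 3)))).and
    (tl.eventually_ge_atTop ((4 : ℝ) ^ E0'))).and ((tl.eventually_ge_atTop ((e : ℝ) ^ (E1 + 1))).and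
    (tl.eventually (t2.eventually_ge_atTop (X0 : ℝ))))
  obtain ⟨H₀, hH₀⟩ := Filter.eventually_atTop.1 ev
  refine ⟨H₀, ?_⟩
  intro H hH Q R T z hRg hT1 hLn hz1 hz2 s hs w hw
  obtain ⟨hQ1, hQR, hR2⟩ := hRg
  obtain ⟨hLn1, hLn2⟩ := hLn
  obtain ⟨⟨⟨⟨⟨a1, a2⟩, a3⟩, a4⟩, a5⟩, a6, a7⟩ := hH₀ H hH
  obtain ⟨L, hL⟩ : ∃ L : ℝ, L = Real.log H := ⟨_, rfl⟩
  rw [← hL] at a2 a3 a4 a5 a6 a7 hT1 hz1 hz2 ⊢
  have hL1 : 1 ≤ L := by linarith
  have hL0 : 0 < L := by linarith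
  have hH16 : 16 ≤ H := (le_max_left _ _).trans a1
  have hHr : (16 : ℝ) ≤ H := by exact_mod_cast hH16
  have hH0 : (0 : ℝ) < H := by linarith
  have hT1r : (1 : ℝ) ≤ T := (one_le_pow₀ hL1).trans hT1
  have hTn : 1 ≤ T := by exact_mod_cast hT1r
  have hz1r : (1 : ℝ) ≤ z := (one_le_pow₀ hL1).trans hz1
  have hzn : 1 ≤ z := by exact_mod_cast hz1r
  have hV : (Vz z)⁻¹ ≤ L := by
    rw [hL]
    exact hN1 H ((le_max_right _ _).trans a1) z hzn (by rw [← hL]; exact hz2)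
  have hQexp : Real.exp (L / e) ≤ Q := by
    refine le_trans (le_of_eq ?_) hQ1
    rw [Real.rpow_def_of_pos hH0, ← hL]
    congr 1; field_simp
  have hQRr : (Q : ℝ) ≤ R := by exact_mod_cast hQR
  have hRexp : Real.exp (L / e) ≤ R := hQexp.trans hQRr
  have hR1r : (1 : ℝ) ≤ R := le_trans (Real.one_le_exp (by positivity)) hRexp
  have hR0 : (0 : ℝ) < R := by linarith
  have hRH : (R : ℝ) ≤ H := by exact_mod_cast hR2
  -- the use of the mean square bound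
  have hzX : ∀ X : ℕ, (R : ℝ) ≤ X → (X : ℝ) ≤ (H : ℝ) ^ 4 → X0 ≤ X ∧ (Real.log X) ^ E0' ≤ (z : ℝ) ∧
      (z : ℝ) ≤ (Real.log X) ^ (E1 + 1) := by
    intro X h1 h2
    have hX0' : (0 : ℝ) < X := by linarith
    have l1 : L / e ≤ Real.log X := by
      rw [Real.le_log_iff_exp_le hX0']; exact hRexp.trans h1
    have l2 : Real.log X ≤ 4 * L := by
      have h3 := Real.log_le_log hX0' h2
      rw [Real.log_pow, ← hL] at h3
      exact_mod_cast h3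
    have hl0 : 0 ≤ Real.log X := le_trans (by positivity) l1
    refine ⟨by exact_mod_cast (a7.trans hRexp).trans h1, ?_, ?_⟩
    · refine le_trans ?_ hz1
      calc (Real.log X) ^ E0' ≤ (4 * L) ^ E0' := pow_le_pow_left₀ hl0 l2 _
        _ = 4 ^ E0' * L ^ E0' := by rw [mul_pow]
        _ ≤ L * L ^ E0' := mul_le_mul_of_nonneg_right a5 (by positivity)
        _ = L ^ (E0' + 1) := by ring
    · refine hz2.trans ?_
      calc L ^ E1 ≤ (L / e) ^ (E1 + 1) := by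
            rw [div_pow, le_div_iff₀ (by positivity), pow_succ L E1]
            exact mul_le_mul_of_nonneg_left a6 (by positivity)
        _ ≤ _ := pow_le_pow_left₀ (by positivity) l1 _
  rcases le_total R (Q * T) with hcase | hcase
  · have hcr : (R : ℝ) ≤ Q * T := by exact_mod_cast hcase
    have hTR3 : (Q : ℝ) * T ≤ R ^ 3 := by
      refine hLn2.trans ?_
      rw [← Real.rpow_natCast]
      refine Real.rpow_le_rpow_of_exponent_le hR1r ?_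
      have : (0 : ℝ) ≤ 1 / e := by positivity
      push_cast; linarith
    obtain ⟨m1, m2, m3⟩ := hzX (16 * Q * T) (by push_cast; linarith) (by
      push_cast
      have h5 : (Q : ℝ) * T ≤ H ^ 3 := hTR3.trans (pow_le_pow_left₀ hR0.le hRH 3)
      have h6 : (16 : ℝ) * (Q * T) ≤ H * H ^ 3 := by gcongr
      linarith)
    refine core1 hXI e A he H Q R T z L hL hH16 a2 a4 a3 hQ1 hQR hR2 hT1 hLn2 hcase hV s hs w hw ?_
    intro K hK1 hK2 Y₁ Y₂ α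
    exact hX0 (16 * Q * T) m1 z m2 m3 K hK1 hK2 Y₁ Y₂ α
  · obtain ⟨m1, m2, m3⟩ := hzX (32 * R) (by push_cast; linarith) (by
      push_cast
      have h5 : (32 : ℝ) ≤ H ^ 3 := by
        have : (16 : ℝ) ^ 3 ≤ H ^ 3 := pow_le_pow_left₀ (by norm_num) hHr 3
        linarith
      have h6 : (32 : ℝ) * R ≤ H ^ 3 * H := by gcongr
      linarith)
    refine core2 hGAL e A he H Q R T z L hL hH16 a2 a4 a3 hQ1 hQR hR2 hT1 hLn1 hcase hV s hs w hw ?_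
    intro K hK1 hK2 Y₁ Y₂ α
    exact hX0 (32 * R) m1 z m2 m3 K hK1 hK2 Y₁ Y₂ α

end Pool.Agent.helper24_UT.Ut5
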