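import Pool.Agent.helper24_UT.Ch9
import Pool.Agent.helper24_UT.Xi
import Pool.Agent.helper24_UT.Mtp
import Pool.Agent.helper24_UT.Ser3
import Pool.Agent.helper24_UT.Low
import Pool.Agent.helper24_UT.Tlp
import Pool.Agent.helper24_UT.Tld
import Pool.Agent.helper24_UT.R15
import Pool.Agent.helper24_UT.Ut5
import Pool.Agent.helper24_UT.Sys5
import Pool.Agent.helper24_UT.All5
import Pool.Agent.helper24_UT.Pp5
import Pool.Agent.helper24_UT.Mt5
import Pool.Agent.helper24_UT.Psi5
import Pool.Agent.helper24_UT.In5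
import Pool.Agent.helper24_UT.R10g
import Pool.Agent.helper24_UT.Psip5
import Pool.Agent.helper24_UT.Inp5
import Pool.Agent.helper24_UT.R11g
import Pool.Agent.helper24_UT.Ut4
import Pool.Agent.helper24_UT.Sys4
import Pool.Agent.helper24_UT.All4
import Pool.Agent.helper24_UT.Pp4
import Pool.Agent.helper24_UT.Ch2
import Pool.Agent.helper24_UT.Psi4
import Pool.Agent.helper24_UT.In4
import Pool.Agent.helper24_UT.R12
import Pool.Agent.helper24_UT.Mtf

/-!
# Project UT (helper24): assembly, part 10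
-/

set_option autoImplicit false

namespace Pool.Agent.helper24_UT.Ch

theorem t_R15 : S_R15 (1 / 3) := R15.main (1 / 3) (by norm_num) t_SGE t_MTS t_SRT Slb.main

theorem t_UT5 : S_UT5 := Ut5.main t_MKT Xi.main Gal.main
theorem t_ALL5 : S_ALL5 := All5.main (Sys5.main t_UT5)
theorem t_PSI5 : S_PSI5 := Psi5.main t_ALL5 Mt5.main Pp5.main
theorem t_PSIP5 : S_PSIP5 := Psip5.main t_ALL5 Mtp.main Pp5.main
theorem t_R10G : S_R10G := R10g.main t_PSI5 In5.main Tld.main Low.main
theorem t_R11G : S_R11G := R11g.main t_PSIP5 Inp5.main Tlp.main Low.main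

theorem t_UT4 : S_UT4 := Ut4.main t_MKT Xi.main
theorem t_ALL4 : S_ALL4 := All4.main (Sys4.main t_UT4)
theorem t_PSI4 : S_PSI4 := Psi4.main t_ALL4 t_MT3 Pp4.main
theorem t_R12 : S_R12 := R12.main t_PSI4 In4.main Ser3.main Low.main

end Pool.Agent.helper24_UT.Ch
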