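import Pool.Agent.helper24_UT.Stm17
import Pool.Agent.TH823.Fam.Fam2

/-!
# Project UT (helper24): polynomial values are families of small energy in short windows
-/

set_option autoImplicit false

namespace Pool.Agent.helper24_UT.Pf

open Finset Polynomial
open Pool.Agent.H373R2.T7 (energy)

lemma energy_zero (x : ℕ) (s : ℕ → ℤ) : energy 0 x s = 1 := by
  unfold energy
  rw [filter_true_of_mem]
  · rw [card_product, Fintype.card_piFinset]
    simp
  · intro q _
    simp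

theorem poly_fam (f : ℤ[X]) (hd : 1 ≤ f.natDegree) : ∃ p D N₀ : ℕ, 1 ≤ p ∧ 1 ≤ D ∧ ∀ N : ℕ, N₀ ≤ N → ∀ x : ℕ, 1 ≤ x →
    ∀ c : ℤ, Fam p 1 N (2 * D * x ^ f.natDegree) x (c - D * x ^ f.natDegree) (fun m => c + f.eval (m : ℤ)) := by
  obtain ⟨p, C1, hC1, h1⟩ := Pool.Agent.TH823.Fam.energy_poly' f hd
  obtain ⟨A, hA⟩ := Pool.Agent.TH823.Fam.poly_size f
  have hp : 1 ≤ p := by
    by_contra hcon
    have hp0 : p = 0 := by omega
    subst hp0
    obtain ⟨x, hx⟩ := exists_nat_gt (max C1 1)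
    have hx1 : (1 : ℝ) < x := (le_max_right _ _).trans_lt hx
    have h2 := h1 x (by exact_mod_cast hx1.le) 0
    rw [energy_zero] at h2
    have h3 : (x : ℝ) ≤ (x : ℝ) ^ f.natDegree := le_self_pow₀ hx1.le (by omega)
    have h4 : C1 < x := (le_max_left _ _).trans_lt hx
    norm_num at h2
    linarith
  have hlog : Filter.Tendsto (fun N : ℕ => Real.log (N : ℝ)) Filter.atTop Filter.atTop :=
    Real.tendsto_log_atTop.comp tendsto_natCast_atTop_atTop
  obtain ⟨N₀, hN₀⟩ := Filter.eventually_atTop.1 (hlog.eventually_ge_atTop (2 * (A + 1) * C1))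
  refine ⟨p, A + 1, N₀, hp, by omega, fun N hN x hx c => ⟨fun m hm => ?_, ?_⟩⟩
  · have h2 := abs_le.1 (hA x hx m hm)
    have h3 : (0 : ℤ) < (x : ℤ) ^ f.natDegree := by positivity
    push_cast
    constructor
    · nlinarith [h2.1]
    · nlinarith [h2.2]
  · have h2 := h1 x hx c
    have h3 := hN₀ N hN
    push_cast
    rw [pow_one]
    calc (energy p x (fun m => c + f.eval (m : ℤ)) : ℝ) * (2 * (A + 1) * (x : ℝ) ^ f.natDegree)
        = 2 * (A + 1) * ((energy p x (fun m => c + f.eval (m : ℤ)) : ℝ) * (x : ℝ) ^ f.natDegree) := by ring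
      _ ≤ 2 * (A + 1) * (C1 * (x : ℝ) ^ (2 * p)) := mul_le_mul_of_nonneg_left h2 (by positivity)
      _ = (2 * (A + 1) * C1) * (x : ℝ) ^ (2 * p) := by ring
      _ ≤ Real.log N * (x : ℝ) ^ (2 * p) := mul_le_mul_of_nonneg_right h3 (by positivity)

/-- comparison of `N` and `G N` -/
theorem scale (G : ℕ) (hG : 1 ≤ G) (ε : ℝ) (hε : 0 < ε) (K : ℕ) : ∃ N₀ : ℕ, ∀ N : ℕ, N₀ ≤ N →
    3 ≤ N ∧ 1 ≤ Real.log N ∧ (G : ℝ) ≤ Real.log N ∧ Real.log N ≤ Real.log ((G * N : ℕ) : ℝ) ∧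
    Real.log ((G * N : ℕ) : ℝ) ≤ 2 * Real.log N ∧
    (((G * N : ℕ) : ℝ)) ^ (1 / 3 + ε / 2 : ℝ) ≤ (N : ℝ) ^ (1 / 3 + ε : ℝ) ∧
    (N : ℝ) * Real.exp (-((4 * K : ℕ) * Real.log (Real.log N) ^ 2)) ≤
      ((G * N : ℕ) : ℝ) * Real.exp (-(K * Real.log (Real.log ((G * N : ℕ) : ℝ)) ^ 2)) := by
  have hlog : Filter.Tendsto (fun N : ℕ => Real.log (N : ℝ)) Filter.atTop Filter.atTop :=
    Real.tendsto_log_atTop.comp tendsto_natCast_atTop_atTop
  have hpw : Filter.Tendsto (fun N : ℕ => (N : ℝ) ^ (ε / 2)) Filter.atTop Filter.atTop :=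
    (tendsto_rpow_atTop (by positivity)).comp tendsto_natCast_atTop_atTop
  obtain ⟨N₁, h1⟩ := Filter.eventually_atTop.1 (hlog.eventually_ge_atTop (max 2 (G : ℝ)))
  obtain ⟨N₂, h2⟩ := Filter.eventually_atTop.1 (hpw.eventually_ge_atTop ((G : ℝ) ^ (1 / 3 + ε / 2 : ℝ)))
  refine ⟨max (max N₁ N₂) (max 3 G), fun N hN => ?_⟩
  have hN3 : 3 ≤ N := (le_max_left _ _).trans ((le_max_right _ _).trans hN)
  have hNG : G ≤ N := (le_max_right _ _).trans ((le_max_right _ _).trans hN)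
  have hL := h1 N ((le_max_left _ _).trans ((le_max_left _ _).trans hN))
  have hP := h2 N ((le_max_right _ _).trans ((le_max_left _ _).trans hN))
  have hL2 : 2 ≤ Real.log N := (le_max_left _ _).trans hL
  have hLG : (G : ℝ) ≤ Real.log N := (le_max_right _ _).trans hL
  have hN0 : (0 : ℝ) < N := by positivity
  have hG0 : (0 : ℝ) < G := by exact_mod_cast hG
  have hGN : ((G * N : ℕ) : ℝ) = G * N := by push_cast; ring
  have hl1 : Real.log N ≤ Real.log ((G * N : ℕ) : ℝ) := by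
    apply Real.log_le_log hN0
    rw [hGN]
    have : (1 : ℝ) ≤ G := by exact_mod_cast hG
    nlinarith
  have hl2 : Real.log ((G * N : ℕ) : ℝ) ≤ 2 * Real.log N := by
    rw [hGN, Real.log_mul hG0.ne' hN0.ne']
    have : Real.log G ≤ Real.log N := Real.log_le_log hG0 (by exact_mod_cast hNG)
    linarith
  refine ⟨hN3, by linarith, hLG, hl1, hl2, ?_, ?_⟩
  · rw [hGN, Real.mul_rpow hG0.le hN0.le]
    calc (G : ℝ) ^ (1 / 3 + ε / 2 : ℝ) * (N : ℝ) ^ (1 / 3 + ε / 2 : ℝ) ≤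
          (N : ℝ) ^ (ε / 2) * (N : ℝ) ^ (1 / 3 + ε / 2 : ℝ) :=
          mul_le_mul_of_nonneg_right hP (by positivity)
      _ = (N : ℝ) ^ (1 / 3 + ε : ℝ) := by
        rw [← Real.rpow_add hN0]
        congr 1
        ring
  · have hll0 : 0 < Real.log (Real.log N) := Real.log_pos (by linarith)
    have hll : Real.log (Real.log ((G * N : ℕ) : ℝ)) ≤ 2 * Real.log (Real.log N) := by
      calc Real.log (Real.log ((G * N : ℕ) : ℝ)) ≤ Real.log (2 * Real.log N) := Real.log_le_log (by linarith) hl2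
        _ = Real.log 2 + Real.log (Real.log N) := Real.log_mul (by norm_num) (by linarith)
        _ ≤ _ := by
          have : Real.log 2 ≤ Real.log (Real.log N) := Real.log_le_log (by norm_num) hL2
          linarith
    have hll1 : 0 ≤ Real.log (Real.log ((G * N : ℕ) : ℝ)) := Real.log_nonneg (by linarith)
    have hsq : Real.log (Real.log ((G * N : ℕ) : ℝ)) ^ 2 ≤ 4 * Real.log (Real.log N) ^ 2 := by nlinarith
    have hK : (0 : ℝ) ≤ K := Nat.cast_nonneg _
    rw [hGN] at *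
    calc (N : ℝ) * Real.exp (-((4 * K : ℕ) * Real.log (Real.log N) ^ 2)) ≤
          G * N * Real.exp (-((4 * K : ℕ) * Real.log (Real.log N) ^ 2)) := by
          apply mul_le_mul_of_nonneg_right _ (Real.exp_pos _).le
          have : (1 : ℝ) ≤ G := by exact_mod_cast hG
          nlinarith
      _ ≤ _ := by
          apply mul_le_mul_of_nonneg_left _ (by positivity)
          apply Real.exp_le_exp.2
          push_cast
          nlinarith [mul_le_mul_of_nonneg_left hsq hK]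

end Pool.Agent.helper24_UT.Pf
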