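import Pool.Agent.helper24_UT.Ch14

/-!
# Project UT (helper24): the constant of `n² + a` and its truncation, for almost all `a`
-/

set_option autoImplicit false

namespace Pool.Agent.helper24_UT.Cc

open Finset
open Pool.Agent.helper24_UT

open Classical in
/-- the full constant and the product over the primes up to `z` -/
theorem const_close (A : ℕ) : ∃ E₀ : ℕ, ∀ E₁ : ℕ, ∃ X₀ : ℕ, ∀ X : ℕ, X₀ ≤ X → ∀ z : ℕ,
    Real.log X ^ E₀ ≤ z → (z : ℝ) ≤ Real.log X ^ E₁ →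
    (((Icc (-(X : ℤ)) X).filter (fun a => ¬ ∃ h : ℝ, 0 < h ∧ Filter.Tendsto (hcut a) Filter.atTop (nhds h) ∧
      |h - sg z (qp a)| ≤ (h + 1) / Real.log X ^ A)).card : ℝ) ≤ 2 * (X / Real.log X ^ A) := by
  obtain ⟨E₀, h1⟩ := Ch.t_THW 5 A (by norm_num)
  obtain ⟨X₂, h2⟩ := Ch.t_R24 5 A (by norm_num)
  refine ⟨E₀, fun E₁ => ?_⟩
  obtain ⟨X₁, h1⟩ := h1 E₁
  refine ⟨max (max X₁ X₂) 100, fun X hX z hz1 hz2 => ?_⟩
  have k1 := h1 X ((le_max_left _ _).trans ((le_max_left _ _).trans hX)) z hz1 hz2 0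
  have k2 := h2 X ((le_max_right _ _).trans ((le_max_left _ _).trans hX)) 0
  have hX100 : 100 ≤ X := (le_max_right _ _).trans hX
  have hL0 : 0 < Real.log X := Real.log_pos (by exact_mod_cast (by omega : 1 < X))
  obtain ⟨hWd, -⟩ := R24.Wd_sqrt (1 / 3) (by norm_num) 5 X le_rfl hX100
  have hy0 : (0 : ℝ) < Nat.sqrt X := by
    have : 0 < Nat.sqrt X := Nat.sqrt_pos.2 (by omega)
    exact_mod_cast this
  have hsub : (Icc (-(X : ℤ)) X).filter (fun a => ¬ ∃ h : ℝ, 0 < h ∧ Filter.Tendsto (hcut a) Filter.atTop (nhds h) ∧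
      |h - sg z (qp a)| ≤ (h + 1) / Real.log X ^ A) ⊆
      ((Icc (-(X : ℤ)) X).filter (fun a => ∃ y : ℕ, Wd (1 / 3) 5 X 0 y ∧
        (y : ℝ) / (Real.log X) ^ A < |thw a 0 y - y * sg z (qp a)|)) ∪
      ((Icc (-(X : ℤ)) X).filter (fun a => ¬ GoodW (1 / 3) 5 A X 0 a)) := by
    intro a ha
    rw [mem_filter] at ha
    rw [mem_union, mem_filter, mem_filter]
    by_contra hcon
    push Not at hcon
    obtain ⟨c1, c2⟩ := hcon
    have d1 := c1 ha.1 (Nat.sqrt X) hWd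
    obtain ⟨h, hh, ht, d2⟩ := c2 ha.1
    have d2 := d2 (Nat.sqrt X) hWd
    apply ha.2
    refine ⟨h, hh, ht, ?_⟩
    set y : ℝ := (Nat.sqrt X : ℝ) with hy
    have hLA : 0 < Real.log X ^ A := pow_pos hL0 A
    have e1 : y * |h - sg z (qp a)| ≤ y * ((h + 1) / Real.log X ^ A) := by
      calc y * |h - sg z (qp a)| = |y * (h - sg z (qp a))| := by
            rw [abs_mul, abs_of_pos hy0]
        _ = |(thw a 0 (Nat.sqrt X) - y * sg z (qp a)) - (thw a 0 (Nat.sqrt X) - h * y)| := by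
            congr 1
            ring
        _ ≤ |thw a 0 (Nat.sqrt X) - y * sg z (qp a)| + |thw a 0 (Nat.sqrt X) - h * y| := abs_sub _ _
        _ ≤ y / Real.log X ^ A + h * y / Real.log X ^ A := add_le_add d1 d2
        _ = y * ((h + 1) / Real.log X ^ A) := by ring
    exact le_of_mul_le_mul_left e1 hy0
  refine (Nat.cast_le.2 ((card_le_card hsub).trans (card_union_le _ _))).trans ?_
  push_cast
  linarith

end Pool.Agent.helper24_UT.Cc
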