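import Pool.Agent.helper24_UT.Stm17
import Pool.Agent.H373R2.T7.TupleMain2

set_option autoImplicit false

namespace Pool.Agent.helper24_UT.Base

open Finset
open Pool.Agent.helper24_UT
open Pool.Agent.H373R2.T7
open Pool.Agent.H807R2.Dav (ee)

/-- the primes of the sieve -/
noncomputable def TD (z d : ℕ) : Finset ℕ := (pz z).filter (fun p => ¬ p ∣ d)

lemma TD_sub (z d : ℕ) : TD z d ⊆ pz z := filter_subset _ _

/-- the family of classes modulo `d * e` -/
noncomputable def LD {k : ℕ} (a : Fin k → ℤ) (z r d c q : ℕ) : Finset ℕ := by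
  classical exact if ∃ S ⊆ TD z d, S.card ≤ r ∧ d * ∏ p ∈ S, p = q then
    (range q).filter (fun b => b % d = c ∧ ∀ p ∈ (q / d).primeFactors, ¬ p ∣ b ∧ ∃ i, (p : ℤ) ∣ (b : ℤ) + a i) else ∅

lemma LD_eq {k : ℕ} (a : Fin k → ℤ) (z r d c : ℕ) (hd : 1 ≤ d) (S : Finset ℕ) (hS : S ⊆ TD z d) (hr : S.card ≤ r) :
    LD a z r d c (d * ∏ p ∈ S, p) = (range (d * ∏ p ∈ S, p)).filter
      (fun b => b % d = c ∧ ∀ p ∈ S, ¬ p ∣ b ∧ ∃ i, (p : ℤ) ∣ (b : ℤ) + a i) := by
  classical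
  unfold LD
  rw [if_pos ⟨S, hS, hr, rfl⟩]
  apply filter_congr
  intro b _
  rw [Nat.mul_div_cancel_left _ hd, primeFactors_prod' S (fun p hp => (mem_pz.1 (TD_sub z d (hS hp))).2)]

lemma LD_card {k : ℕ} (a : Fin k → ℤ) (z r d c : ℕ) (hd : 1 ≤ d) (hc : c < d) (S : Finset ℕ) (hS : S ⊆ TD z d)
    (hr : S.card ≤ r) : (LD a z r d c (d * ∏ p ∈ S, p)).card = ∏ p ∈ S, rhoP a p := by
  classical
  rw [LD_eq a z r d c hd S hS hr]
  have h := crt_aux (fun p b => ¬ p ∣ b ∧ ∃ i, (p : ℤ) ∣ (b : ℤ) + a i) S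
    (fun p hp => (mem_pz.1 (TD_sub z d (hS hp))).2) d hd (fun p hp => (mem_filter.1 (hS hp)).2) c
  have e : ∏ p ∈ S, rhoP a p = ∏ p ∈ S, ((range p).filter (fun b => ¬ p ∣ b ∧ ∃ i, (p : ℤ) ∣ (b : ℤ) + a i)).card := by
    apply prod_congr rfl
    intro p _
    unfold rhoP
    congr 1
  rw [e, ← h]
  congr 1
  apply filter_congr
  intro b _
  have h0 : b % d = c ↔ b ≡ c [MOD d] := by unfold Nat.ModEq; rw [Nat.mod_eq_of_lt hc]
  rw [h0]
  constructor
  · rintro ⟨h1, h⟩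
    refine ⟨h1, fun p hp => ?_⟩
    obtain ⟨h3, i, hi⟩ := h p hp
    exact ⟨fun h4 => h3 ((dvd_mod_iff b p p dvd_rfl).1 h4), i, (dvd_add_mod_iff b p p (a i) dvd_rfl).2 hi⟩
  · rintro ⟨h1, h⟩
    refine ⟨h1, fun p hp => ?_⟩
    obtain ⟨h3, i, hi⟩ := h p hp
    exact ⟨fun h4 => h3 ((dvd_mod_iff b p p dvd_rfl).2 h4), i, (dvd_add_mod_iff b p p (a i) dvd_rfl).1 hi⟩

lemma LD_fam {k : ℕ} (a : Fin k → ℤ) (z r d c : ℕ) (hd : 1 ≤ d) (hc : c < d) (hcd : c.Coprime d) (A : ℝ)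
    (hA : ((k + 1 : ℕ) : ℝ) ^ r ≤ A) : H343E.Fam A (LD a z r d c) := by
  classical
  have hA0 : 0 ≤ A := (pow_nonneg (Nat.cast_nonneg _) _).trans hA
  constructor
  · intro q b hb
    unfold LD at hb
    split_ifs at hb with h
    · rw [mem_filter, mem_range] at hb
      obtain ⟨S, hS, hr, hq⟩ := h
      have hqd : q / d = ∏ p ∈ S, p := by rw [← hq, Nat.mul_div_cancel_left _ hd]
      have hS0 : ∏ p ∈ S, p ≠ 0 := prod_ne_zero_iff.2 fun p hp => (mem_pz.1 (TD_sub z d (hS hp))).2.ne_zero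
      refine ⟨hb.1, ?_⟩
      rw [Nat.coprime_iff_gcd_eq_one]
      by_contra hne
      obtain ⟨p, hp, hpb, hpq⟩ := Nat.Prime.not_coprime_iff_dvd.1 hne
      rw [← hq] at hpq
      rcases hp.dvd_mul.1 hpq with h1 | h1
      · have h2 : p ∣ b % d := (dvd_mod_iff b d p h1).2 hpb
        rw [hb.2.1] at h2
        exact Nat.Prime.not_coprime_iff_dvd.2 ⟨p, hp, h2, h1⟩ hcd
      · rw [← hqd] at h1 hS0
        exact (hb.2.2 p (Nat.mem_primeFactors.2 ⟨hp, h1, hS0⟩)).1 hpb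
    · simp at hb
  · intro q
    by_cases h : ∃ S ⊆ TD z d, S.card ≤ r ∧ d * ∏ p ∈ S, p = q
    · obtain ⟨S, hS, hr, rfl⟩ := h
      rw [LD_card a z r d c hd hc S hS hr]
      refine le_trans ?_ hA
      push_cast
      have hk0 : (0 : ℝ) ≤ k := Nat.cast_nonneg k
      calc ∏ p ∈ S, (rhoP a p : ℝ) ≤ ∏ _p ∈ S, ((k : ℝ) + 1) := prod_le_prod (fun _ _ => Nat.cast_nonneg _)
            (fun p _ => by
              have h1 : (rhoP a p : ℝ) ≤ k := by exact_mod_cast rhoP_le_k a p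
              linarith)
        _ = ((k : ℝ) + 1) ^ S.card := by rw [prod_const]
        _ ≤ ((k : ℝ) + 1) ^ r := pow_le_pow_right₀ (by linarith) hr
    · have : LD a z r d c q = ∅ := by
        unfold LD
        rw [if_neg h]
      rw [this, card_empty, Nat.cast_zero]
      exact hA0

/-- the error term in progressions -/
noncomputable def EfD {k : ℕ} (a : Fin k → ℤ) (y z r d c e : ℕ) : ℝ :=
  ∑ b ∈ LD a z r d c (d * e), |lamAP y (d * e) b - lam1 y / (Nat.totient (d * e) : ℝ)|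

lemma EfD_nonneg {k : ℕ} (a : Fin k → ℤ) (y z r d c e : ℕ) : 0 ≤ EfD a y z r d c e := sum_nonneg fun _ _ => abs_nonneg _

lemma totient_dS (z d : ℕ) (S : Finset ℕ) (hS : S ⊆ TD z d) :
    Nat.totient (d * ∏ p ∈ S, p) = Nat.totient d * ∏ p ∈ S, (p - 1) := by
  have hSp : ∀ p ∈ S, p.Prime := fun p hp => (mem_pz.1 (TD_sub z d (hS hp))).2
  rw [Nat.totient_mul, totient_prod S hSp]
  apply Nat.Coprime.prod_right
  intro p hp
  rw [Nat.coprime_comm]
  exact (Nat.Prime.coprime_iff_not_dvd (hSp p hp)).2 (mem_filter.1 (hS hp)).2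

lemma per_S {k : ℕ} (a : Fin k → ℤ) (y z r d c : ℕ) (hd : 1 ≤ d) (hc : c < d) (S : Finset ℕ) (hS : S ⊆ TD z d)
    (hr : S.card ≤ r) :
    |∑ n ∈ ((Icc 1 y).filter (fun n => n % d = c)).filter (fun n : ℕ => ∀ p ∈ S, ¬ p ∣ n ∧ ∃ i, (p : ℤ) ∣ (n : ℤ) + a i),
      ArithmeticFunction.vonMangoldt n - lam1 y / (Nat.totient d : ℝ) * ∏ p ∈ S, ((rhoP a p : ℝ) / (p - 1 : ℝ))| ≤
      EfD a y z r d c (∏ p ∈ S, p) := by
  have hSp : ∀ p ∈ S, p.Prime := fun p hp => (mem_pz.1 (TD_sub z d (hS hp))).2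
  set e := ∏ p ∈ S, p with he
  have he1 : 1 ≤ e := Nat.pos_of_ne_zero (prod_ne_zero_iff.2 fun p hp => (hSp p hp).ne_zero)
  have hde : 0 < d * e := Nat.mul_pos hd he1
  have hpd : ∀ p ∈ S, p ∣ d * e := fun p hp => (dvd_prod_of_mem _ hp).mul_left d
  set W' : ℝ := ∑ n ∈ ((Icc 1 y).filter (fun n => n % d = c)).filter
    (fun n : ℕ => ∀ p ∈ S, ¬ p ∣ n ∧ ∃ i, (p : ℤ) ∣ (n : ℤ) + a i), ArithmeticFunction.vonMangoldt n with hW'
  have h1 : W' = ∑ b ∈ LD a z r d c (d * e), lamAP y (d * e) b := by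
    rw [hW', ← sum_fiberwise_of_maps_to (t := LD a z r d c (d * e)) (g := fun n => n % (d * e))]
    · apply sum_congr rfl
      intro b hb
      rw [he, LD_eq a z r d c hd S hS hr, ← he, mem_filter, mem_range] at hb
      unfold lamAP
      apply sum_congr _ (fun _ _ => rfl)
      ext n
      rw [mem_filter, mem_filter, mem_filter, mem_filter]
      constructor
      · rintro ⟨⟨⟨h1, h1'⟩, h2⟩, h3⟩
        refine ⟨h1, ?_⟩
        unfold Nat.ModEq
        rw [h3, Nat.mod_eq_of_lt hb.1]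
      · rintro ⟨h1, h2⟩
        unfold Nat.ModEq at h2
        rw [Nat.mod_eq_of_lt hb.1] at h2
        have h5 : n % d = c := by
          rw [← hb.2.1, ← h2, Nat.mod_mod_of_dvd _ (dvd_mul_right d e)]
        refine ⟨⟨⟨h1, h5⟩, fun p hp => ?_⟩, h2⟩
        obtain ⟨h3, i, hi⟩ := hb.2.2 p hp
        rw [← h2] at h3 hi
        exact ⟨fun h4 => h3 ((dvd_mod_iff n (d * e) p (hpd p hp)).2 h4), i,
          (dvd_add_mod_iff n (d * e) p (a i) (hpd p hp)).1 hi⟩
    · intro n hn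
      rw [mem_filter, mem_filter] at hn
      rw [he, LD_eq a z r d c hd S hS hr, ← he, mem_filter, mem_range]
      refine ⟨Nat.mod_lt _ hde, ?_, fun p hp => ?_⟩
      · rw [Nat.mod_mod_of_dvd _ (dvd_mul_right d e)]
        exact hn.1.2
      · obtain ⟨h3, i, hi⟩ := hn.2 p hp
        exact ⟨fun h4 => h3 ((dvd_mod_iff n (d * e) p (hpd p hp)).1 h4), i,
          (dvd_add_mod_iff n (d * e) p (a i) (hpd p hp)).2 hi⟩
  have h2 : lam1 y / (Nat.totient d : ℝ) * ∏ p ∈ S, ((rhoP a p : ℝ) / (p - 1 : ℝ)) =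
      ∑ b ∈ LD a z r d c (d * e), lam1 y / (Nat.totient (d * e) : ℝ) := by
    rw [sum_const, nsmul_eq_mul, he, LD_card a z r d c hd hc S hS hr, totient_dS z d S hS, prod_div_distrib]
    push_cast
    have h3 : ∏ p ∈ S, ((p - 1 : ℕ) : ℝ) = ∏ p ∈ S, ((p : ℝ) - 1) := by
      apply prod_congr rfl
      intro p hp
      rw [Nat.cast_sub (hSp p hp).one_le]
      push_cast
      ring
    rw [h3, div_mul_div_comm, mul_comm (∏ p ∈ S, (rhoP a p : ℝ)), mul_div_assoc, div_mul_eq_mul_div]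
    ring
  rw [h1, h2, ← sum_sub_distrib]
  exact abs_sum_le_sum_abs _ _

lemma rho_frac {k : ℕ} (a : Fin k → ℤ) {z p : ℕ} (hp : p ∈ pz z) :
    0 ≤ (rhoP a p : ℝ) / (p - 1 : ℝ) ∧ (rhoP a p : ℝ) / (p - 1 : ℝ) ≤ 1 := by
  have hp2 : (2 : ℝ) ≤ p := by exact_mod_cast (mem_pz.1 hp).2.two_le
  constructor
  · apply div_nonneg (Nat.cast_nonneg _); linarith
  · rw [div_le_one (by linarith)]
    have h1 := rhoP_le a p
    have h2 : (rhoP a p : ℝ) ≤ ((p - 1 : ℕ) : ℝ) := by exact_mod_cast h1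
    rw [Nat.cast_sub (mem_pz.1 hp).2.one_le] at h2
    push_cast at h2
    exact h2

lemma sieve1 {k : ℕ} (a : Fin k → ℤ) (y z r d c : ℕ) (hd : 1 ≤ d) (hc : c < d) :
    |∑ n ∈ ((Icc 1 y).filter (fun n => n % d = c)).filter
        (fun n : ℕ => ∀ p ∈ TD z d, ¬ (¬ p ∣ n ∧ ∃ i, (p : ℤ) ∣ (n : ℤ) + a i)),
      ArithmeticFunction.vonMangoldt n -
      lam1 y / (Nat.totient d : ℝ) * ∏ p ∈ TD z d, (1 - (rhoP a p : ℝ) / (p - 1 : ℝ))| ≤
    ∑ e ∈ Icc 1 ((z + 1) ^ r), EfD a y z r d c e +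
      2 * (lam1 y / (Nat.totient d : ℝ)) * Real.exp (3 * ((2 * k : ℕ) * (1 + Real.log z)) - r) := by
  have hψ : 0 ≤ lam1 y := sum_nonneg fun _ _ => ArithmeticFunction.vonMangoldt_nonneg
  have hX : 0 ≤ lam1 y / (Nat.totient d : ℝ) := div_nonneg hψ (Nat.cast_nonneg _)
  have key := sieve_gen' ((Icc 1 y).filter (fun n => n % d = c)) (fun n => ArithmeticFunction.vonMangoldt n)
    (fun _ _ => ArithmeticFunction.vonMangoldt_nonneg) (fun p n => ¬ p ∣ n ∧ ∃ i, (p : ℤ) ∣ (n : ℤ) + a i) (TD z d)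
    (fun p => (rhoP a p : ℝ) / (p - 1 : ℝ)) (fun p hp => rho_frac a (TD_sub z d hp)) (lam1 y / (Nat.totient d : ℝ)) hX
    (fun S => EfD a y z r d c (∏ p ∈ S, p)) r (fun S hS hr => per_S a y z r d c hd hc S hS hr)
  refine key.trans ?_
  apply add_le_add
  · refine le_trans ?_ (sum_small_le z r (fun e => EfD a y z r d c e) (fun e => EfD_nonneg a y z r d c e))
    apply sum_le_sum
    intro j _
    apply sum_le_sum_of_subset_of_nonneg (powersetCard_mono (TD_sub z d))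
    intro _ _ _
    exact EfD_nonneg _ _ _ _ _ _ _
  · apply mul_le_mul_of_nonneg_left _ (by positivity)
    have hg : ∀ p ∈ TD z d, (rhoP a p : ℝ) / (p - 1 : ℝ) ≤ (2 * k : ℕ) * (1 / (p : ℝ)) := by
      intro p hp
      have hp2 : (2 : ℝ) ≤ p := by exact_mod_cast (mem_pz.1 (TD_sub z d hp)).2.two_le
      have h6 : (rhoP a p : ℝ) ≤ k := by exact_mod_cast rhoP_le_k a p
      have hk : (0 : ℝ) ≤ k := Nat.cast_nonneg _
      rw [mul_one_div, div_le_div_iff₀ (by linarith) (by linarith)]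
      push_cast
      nlinarith
    refine (es_le (fun p hp => (rho_frac a (TD_sub z d hp)).1) r).trans ?_
    apply Real.exp_le_exp.2
    have h6 := sum_le_sum hg
    rw [← mul_sum] at h6
    have h7 : ∑ p ∈ TD z d, 1 / (p : ℝ) ≤ 1 + Real.log z := by
      refine le_trans ?_ (sum_pz_le z)
      exact sum_le_sum_of_subset_of_nonneg (TD_sub z d) (fun _ _ _ => by positivity)
    have h8 : ((2 * k : ℕ) : ℝ) * ∑ p ∈ TD z d, 1 / (p : ℝ) ≤ ((2 * k : ℕ) : ℝ) * (1 + Real.log z) :=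
      mul_le_mul_of_nonneg_left h7 (Nat.cast_nonneg _)
    linarith

/-- the sum over the class `c` modulo `d` -/
noncomputable def W0 {k : ℕ} (a : Fin k → ℤ) (y z d c : ℕ) : ℝ :=
  ∑ n ∈ ((Icc 1 y).filter (fun n => n % d = c)).filter (fun n : ℕ => ∀ p ∈ TD z d, ¬ ∃ i, (p : ℤ) ∣ (n : ℤ) + a i),
      ArithmeticFunction.vonMangoldt n

lemma sieve2 {k : ℕ} (a : Fin k → ℤ) (y z d c : ℕ) :
    |W0 a y z d c - ∑ n ∈ ((Icc 1 y).filter (fun n => n % d = c)).filter
        (fun n : ℕ => ∀ p ∈ TD z d, ¬ (¬ p ∣ n ∧ ∃ i, (p : ℤ) ∣ (n : ℤ) + a i)),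
      ArithmeticFunction.vonMangoldt n| ≤ z * ((Nat.log 2 y + 1 : ℝ) * Real.log y) := by
  unfold W0
  set s := (Icc 1 y).filter (fun n => n % d = c) with hs
  rw [sum_filter (s := s), sum_filter (s := s), ← sum_sub_distrib]
  refine (abs_sum_le_sum_abs _ _).trans ?_
  have h7 : ∀ n ∈ s, |(if (∀ p ∈ TD z d, ¬ ∃ i, (p : ℤ) ∣ (n : ℤ) + a i) then ArithmeticFunction.vonMangoldt n else 0) -
      (if (∀ p ∈ TD z d, ¬ (¬ p ∣ n ∧ ∃ i, (p : ℤ) ∣ (n : ℤ) + a i)) then
      ArithmeticFunction.vonMangoldt n else 0)| ≤ ∑ p ∈ pz z, if p ∣ n then ArithmeticFunction.vonMangoldt n else 0 := by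
    intro n _
    have h8 : (0 : ℝ) ≤ ArithmeticFunction.vonMangoldt n := ArithmeticFunction.vonMangoldt_nonneg
    have h9 : 0 ≤ ∑ p ∈ pz z, if p ∣ n then ArithmeticFunction.vonMangoldt n else 0 :=
      sum_nonneg fun p _ => by split_ifs <;> simp [h8]
    by_cases h10 : ∀ p ∈ TD z d, ¬ ∃ i, (p : ℤ) ∣ (n : ℤ) + a i
    · rw [if_pos h10, if_pos (fun p hp h => h10 p hp h.2), sub_self, abs_zero]
      exact h9
    · rw [if_neg h10, zero_sub, abs_neg]
      by_cases h11 : ∀ p ∈ TD z d, ¬ (¬ p ∣ n ∧ ∃ i, (p : ℤ) ∣ (n : ℤ) + a i)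
      · rw [if_pos h11, abs_of_nonneg h8]
        push Not at h10
        obtain ⟨p, hp, i, hi⟩ := h10
        have hpn : p ∣ n := by
          by_contra hcon
          exact h11 p hp ⟨hcon, i, hi⟩
        have h12 := single_le_sum (f := fun p => if p ∣ n then ArithmeticFunction.vonMangoldt n else (0 : ℝ))
          (s := pz z) (fun p _ => by split_ifs <;> simp [h8]) (TD_sub z d hp)
        simp only [if_pos hpn] at h12
        exact h12
      · rw [if_neg h11, abs_zero]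
        exact h9
  refine (sum_le_sum h7).trans ?_
  have h6 : ∑ n ∈ s, ∑ p ∈ pz z, (if p ∣ n then ArithmeticFunction.vonMangoldt n else (0 : ℝ)) ≤
      ∑ n ∈ Icc 1 y, ∑ p ∈ pz z, (if p ∣ n then ArithmeticFunction.vonMangoldt n else (0 : ℝ)) := by
    apply sum_le_sum_of_subset_of_nonneg (filter_subset _ _)
    intro n _ _
    exact sum_nonneg fun p _ => by split_ifs <;> simp [ArithmeticFunction.vonMangoldt_nonneg]
  refine h6.trans ?_
  rw [sum_comm]
  have h8 : ∀ p ∈ pz z, ∑ n ∈ Icc 1 y, (if p ∣ n then ArithmeticFunction.vonMangoldt n else 0) ≤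
      (Nat.log 2 y + 1 : ℝ) * Real.log y := by
    intro p hp
    rw [← sum_filter]
    exact lam_mult_prime y p (mem_pz.1 hp).2
  refine (sum_le_sum h8).trans ?_
  rw [sum_const, nsmul_eq_mul]
  apply mul_le_mul_of_nonneg_right
  · exact_mod_cast card_pz_le z
  · have := Real.log_natCast_nonneg y
    positivity

lemma bv_sum {k : ℕ} (a : Fin k → ℤ) (y z r d c M : ℕ) (hd : 1 ≤ d) :
    ∑ e ∈ Icc 1 M, EfD a y z r d c e ≤
      ∑ q ∈ Icc 1 (d * M), ∑ b ∈ LD a z r d c q, |H343E.psiAP y q b - H343E.psi1 y / (Nat.totient q : ℝ)| := by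
  have h1 : ∑ e ∈ Icc 1 M, EfD a y z r d c e = ∑ q ∈ (Icc 1 M).image (fun e => d * e),
      ∑ b ∈ LD a z r d c q, |H343E.psiAP y q b - H343E.psi1 y / (Nat.totient q : ℝ)| := by
    rw [sum_image]
    · apply sum_congr rfl
      intro e _
      unfold EfD
      apply sum_congr rfl
      intro b _
      rw [lamAP_eq, lam1_eq']
    · intro x _ x' _ h
      exact Nat.eq_of_mul_eq_mul_left hd h
  rw [h1]
  apply sum_le_sum_of_subset_of_nonneg
  · intro q hq
    rw [mem_image] at hq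
    obtain ⟨e, he, rfl⟩ := hq
    rw [mem_Icc] at he ⊢
    exact ⟨Nat.mul_pos hd he.1, Nat.mul_le_mul_left _ he.2⟩
  · intro q _ _
    exact sum_nonneg fun _ _ => abs_nonneg _


lemma prod_lz_pos {k : ℕ} (a : Fin k → ℤ) (z d c n : ℕ) (hn : n % d = c)
    (hgood : ∀ p ∈ pz z, p ∣ d → ∀ i, ¬ (p : ℤ) ∣ (c : ℤ) + a i)
    (h : ∀ p ∈ TD z d, ¬ ∃ i, (p : ℤ) ∣ (n : ℤ) + a i) : ∏ i, lz z ((n : ℤ) + a i) = ((Vz z)⁻¹) ^ k := by
  have h1 : ∀ i : Fin k, lz z ((n : ℤ) + a i) = (Vz z)⁻¹ := by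
    intro i
    unfold lz
    rw [if_pos]
    intro p hp hd'
    by_cases h2 : p ∣ d
    · apply hgood p hp h2 i
      rw [← hn]
      exact (dvd_add_mod_iff n d p (a i) h2).2 hd'
    · exact h p (mem_filter.2 ⟨hp, h2⟩) ⟨i, hd'⟩
  rw [prod_congr rfl (fun i _ => h1 i), prod_const, card_univ, Fintype.card_fin]

lemma prod_lz_zero {k : ℕ} (a : Fin k → ℤ) (z p n : ℕ) (hp : p ∈ pz z) (h : ∃ i, (p : ℤ) ∣ (n : ℤ) + a i) :
    ∏ i, lz z ((n : ℤ) + a i) = 0 := by
  obtain ⟨i, hi⟩ := h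
  apply prod_eq_zero (mem_univ i)
  unfold lz
  rw [if_neg]
  intro h2
  exact h2 p hp hi

lemma sum_lam {k : ℕ} (a : Fin k → ℤ) (y z d c : ℕ) (hgood : ∀ p ∈ pz z, p ∣ d → ∀ i, ¬ (p : ℤ) ∣ (c : ℤ) + a i) :
    ∑ n ∈ (Icc 1 y).filter (fun n => n % d = c), ArithmeticFunction.vonMangoldt n * ∏ i, lz z ((n : ℤ) + a i) =
      ((Vz z)⁻¹) ^ k * W0 a y z d c := by
  unfold W0
  rw [sum_filter (s := (Icc 1 y).filter (fun n => n % d = c)), mul_sum]
  apply sum_congr rfl
  intro n hn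
  rw [mem_filter] at hn
  by_cases h : ∀ p ∈ TD z d, ¬ ∃ i, (p : ℤ) ∣ (n : ℤ) + a i
  · rw [if_pos h, prod_lz_pos a z d c n hn.2 hgood h, mul_comm]
  · rw [if_neg h, mul_zero]
    push Not at h
    obtain ⟨p, hp, hi⟩ := h
    rw [prod_lz_zero a z p n (TD_sub z d hp) hi, mul_zero]

lemma totient_real (d : ℕ) : (Nat.totient d : ℝ) = d * ∏ p ∈ d.primeFactors, (1 - 1 / (p : ℝ)) := by
  have h := Nat.totient_eq_mul_prod_factors d
  have h1 : ((Nat.totient d : ℚ) : ℝ) = ((d * ∏ p ∈ d.primeFactors, (1 - (p : ℚ)⁻¹) : ℚ) : ℝ) := by rw [h]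
  push_cast at h1
  rw [h1]
  congr 1
  apply prod_congr rfl
  intro p _
  rw [one_div]

lemma Vz_split (z d : ℕ) (hd : 1 ≤ d) (hdz : d ≤ z) :
    Vz z = (Nat.totient d : ℝ) / d * ∏ p ∈ TD z d, (1 - 1 / (p : ℝ)) := by
  have hd0 : (d : ℝ) ≠ 0 := by
    have : (0 : ℝ) < d := by exact_mod_cast hd
    exact this.ne'
  have h1 : (pz z).filter (fun p => p ∣ d) = d.primeFactors := by
    ext p
    rw [mem_filter, mem_pz, Nat.mem_primeFactors]
    constructor
    · rintro ⟨⟨_, h2⟩, h3⟩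
      exact ⟨h2, h3, by omega⟩
    · rintro ⟨h2, h3, _⟩
      exact ⟨⟨(Nat.le_of_dvd hd h3).trans hdz, h2⟩, h3⟩
  unfold Vz TD
  rw [← prod_filter_mul_prod_filter_not (pz z) (fun p => p ∣ d), h1, totient_real d]
  congr 1
  field_simp

lemma nuf_eq {k : ℕ} (a : Fin k → ℤ) (p : ℕ) (hp : p.Prime) :
    nuf (fun _ : Fin (k + 1) => (1 : ℤ)) (Fin.cons 0 a) p = rhoP a p + 1 := by
  classical
  rw [← nuP_eq a p hp]
  unfold nuf nuP
  congr 1
  ext t
  rw [mem_filter, mem_filter, Fin.exists_fin_succ]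
  simp only [Fin.cons_zero, Fin.cons_succ, one_mul, add_zero, Int.natCast_dvd_natCast]

lemma gz_eq {k : ℕ} (a : Fin k → ℤ) (z d c : ℕ) (hd : 1 ≤ d) (hdz : d ≤ z) (hcd : c.Coprime d)
    (hgood : ∀ p ∈ pz z, p ∣ d → ∀ i, ¬ (p : ℤ) ∣ (c : ℤ) + a i) (y : ℝ) :
    y / d * gz z (fun _ : Fin (k + 1) => (1 : ℤ)) (Fin.cons 0 a) d c =
      ((Vz z)⁻¹) ^ k * (y / (Nat.totient d : ℝ) * ∏ p ∈ TD z d, (1 - (rhoP a p : ℝ) / (p - 1 : ℝ))) := by
  classical
  have hd0 : (0 : ℝ) < d := by exact_mod_cast hd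
  have hφ : (0 : ℝ) < Nat.totient d := by exact_mod_cast Nat.totient_pos.2 hd
  unfold gz
  rw [if_neg]
  · have h1 : ∏ p ∈ (pz z).filter (fun p => ¬ p ∣ d), (1 - (nuf (fun _ : Fin (k + 1) => (1 : ℤ)) (Fin.cons 0 a) p : ℝ) / p) =
        (∏ p ∈ TD z d, (1 - 1 / (p : ℝ))) * ∏ p ∈ TD z d, (1 - (rhoP a p : ℝ) / (p - 1 : ℝ)) := by
      rw [← prod_mul_distrib]
      apply prod_congr rfl
      intro p hp
      have hpp := (mem_pz.1 (TD_sub z d hp)).2
      have hp2 : (2 : ℝ) ≤ p := by exact_mod_cast hpp.two_le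
      rw [nuf_eq a p hpp]
      push_cast
      have h2 : (p : ℝ) - 1 ≠ 0 := by
        have : (0 : ℝ) < p - 1 := by linarith
        exact this.ne'
      have h3 : (p : ℝ) ≠ 0 := by positivity
      field_simp
      ring
    have h4 : ∏ p ∈ TD z d, (1 - 1 / (p : ℝ)) ≠ 0 := by
      rw [prod_ne_zero_iff]
      intro p hp
      have hp2 : (2 : ℝ) ≤ p := by exact_mod_cast (mem_pz.1 (TD_sub z d hp)).2.two_le
      have h5 : 1 / (p : ℝ) ≤ 1 / 2 := one_div_le_one_div_of_le (by norm_num) hp2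
      have : (0 : ℝ) < 1 - 1 / (p : ℝ) := by linarith
      exact this.ne'
    rw [h1, pow_succ]
    have h5 : (Vz z)⁻¹ = (d : ℝ) / (Nat.totient d : ℝ) * (∏ p ∈ TD z d, (1 - 1 / (p : ℝ)))⁻¹ := by
      rw [Vz_split z d hd hdz, mul_inv, inv_div]
    set P1 := ∏ p ∈ TD z d, (1 - 1 / (p : ℝ)) with hP1
    set P2 := ∏ p ∈ TD z d, (1 - (rhoP a p : ℝ) / (p - 1 : ℝ)) with hP2
    calc y / d * ((Vz z)⁻¹ ^ k * (Vz z)⁻¹ * (P1 * P2)) = (Vz z)⁻¹ ^ k * (y / d * (Vz z)⁻¹ * P1 * P2) := by ring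
      _ = (Vz z)⁻¹ ^ k * (y / d * ((d : ℝ) / (Nat.totient d : ℝ) * P1⁻¹) * P1 * P2) := by rw [← h5]
      _ = _ := by
        congr 1
        field_simp
  · rintro ⟨p, hp, hpd, i, hi⟩
    revert hi
    refine Fin.cases ?_ (fun j => ?_) i
    · intro hi
      rw [Fin.cons_zero, one_mul, add_zero, Int.natCast_dvd_natCast] at hi
      exact Nat.Prime.not_coprime_iff_dvd.2 ⟨p, (mem_pz.1 hp).2, hi, hpd⟩ hcd
    · intro hi
      rw [Fin.cons_succ, one_mul] at hi
      exact hgood p hp hpd j hi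


theorem main_pos (k J D E₁ : ℕ) : ∃ N₀ : ℕ, ∀ N : ℕ, N₀ ≤ N → ∀ z : ℕ, 1 ≤ z → (z : ℝ) ≤ Real.log N ^ E₁ →
    ∀ a : Fin k → ℤ, ∀ y : ℕ, y ≤ N → (N : ℝ) ≤ y * Real.log N ^ (J + 1) → ∀ d c : ℕ, 1 ≤ d →
    (d : ℝ) ≤ Real.log N ^ D → c < d → c.Coprime d →
    |W0 a y z d c - y / (Nat.totient d : ℝ) * ∏ p ∈ TD z d, (1 - (rhoP a p : ℝ) / (p - 1 : ℝ))| ≤
      N / Real.log N ^ J := by
  obtain ⟨n0, h0⟩ := choice (2 * k) E₁ (J + 1) 4
  set C' := (3 * ((2 * k) * (1 + E₁)) + (J + 1) + 1) * (k + 1) with hC'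
  set U1 := C' + (J + 1) with hU1
  obtain ⟨B, X0, hBV⟩ := H343E.unsmoothed U1
  obtain ⟨C, n1, hC, hpnt⟩ := pnt_lam (J + 1)
  obtain ⟨n2, h2⟩ := ev_log' (2 * D + J + B + E₁ + J + 20) 1
  obtain ⟨n3, h3⟩ := ev_L' (C * 2 ^ (J + 1) + 2 ^ U1 + 40)
  obtain ⟨n4, h4⟩ := ev_log' (J + 1) (|X0| + n1 + 1)
  refine ⟨max (max (max n0 n2) (max n3 n4)) 4, fun N hN z hz hzE a y hyN hNy d c hd hdD hc hcd => ?_⟩
  have b0 := le_trans (le_trans (le_trans (le_max_left _ _) (le_max_left _ _)) (le_max_left _ _)) hN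
  have b2 := le_trans (le_trans (le_trans (le_max_right _ _) (le_max_left _ _)) (le_max_left _ _)) hN
  have b3 := le_trans (le_trans (le_trans (le_max_left _ _) (le_max_right _ _)) (le_max_left _ _)) hN
  have b4 := le_trans (le_trans (le_trans (le_max_right _ _) (le_max_right _ _)) (le_max_left _ _)) hN
  have hN4 : 4 ≤ N := le_trans (le_max_right _ _) hN
  obtain ⟨r, hr1, hr2, hr3⟩ := h0 N b0 z hzE
  have a2 := h2 N b2
  have hL := h3 N b3
  have a4 := h4 N b4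
  have hNr : (4 : ℝ) ≤ N := by exact_mod_cast hN4
  have hN0 : (0 : ℝ) < N := by linarith
  set L := Real.log N with hLd
  have hC2 : 0 ≤ C * 2 ^ (J + 1) := by positivity
  have hU2 : (0 : ℝ) ≤ 2 ^ U1 := by positivity
  have hL40 : 40 ≤ L := by linarith
  have hL0 : 0 < L := by linarith
  have hL1 : 1 ≤ L := by linarith
  rw [one_mul] at a2
  have hss : √(N : ℝ) * √(N : ℝ) = N := Real.mul_self_sqrt hN0.le
  have hs0 : 0 < √(N : ℝ) := Real.sqrt_pos.2 hN0
  have hs1 : 1 ≤ √(N : ℝ) := (one_le_pow₀ hL1).trans a2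
  have hsN : √(N : ℝ) ≤ N := by nlinarith
  have hpow : ∀ j, j ≤ 2 * D + J + B + E₁ + J + 20 → L ^ j ≤ √(N : ℝ) :=
    fun j hj => (pow_le_pow_right₀ hL1 hj).trans a2
  have hLK : 0 < L ^ (J + 1) := by positivity
  -- `y` is large
  have hy1 : √(N : ℝ) * (|X0| + n1 + 1) ≤ y := by
    have h5 : √(N : ℝ) * ((|X0| + n1 + 1) * L ^ (J + 1)) ≤ y * L ^ (J + 1) := by
      calc √(N : ℝ) * ((|X0| + n1 + 1) * L ^ (J + 1)) ≤ √(N : ℝ) * √(N : ℝ) := mul_le_mul_of_nonneg_left a4 hs0.le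
        _ = N := hss
        _ ≤ _ := hNy
    rw [← mul_assoc] at h5
    exact le_of_mul_le_mul_right h5 hLK
  have hX0' : 0 ≤ |X0| := abs_nonneg _
  have hn1' : (0 : ℝ) ≤ n1 := Nat.cast_nonneg _
  have hyX : |X0| + n1 + 1 ≤ (y : ℝ) := by nlinarith
  have hys : √(N : ℝ) ≤ y := by nlinarith
  have hyX0 : X0 ≤ (y : ℝ) := by linarith [le_abs_self X0]
  have hyn1 : n1 ≤ y := by
    have h5 : (n1 : ℝ) ≤ y := by linarith
    exact_mod_cast h5
  have hy0 : (0 : ℝ) < y := by linarith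
  have hylog : L / 2 ≤ Real.log y := by
    have h5 := Real.log_le_log hs0 hys
    rw [Real.log_sqrt hN0.le] at h5
    exact h5
  have hyN' : (y : ℝ) ≤ N := by exact_mod_cast hyN
  have hylog2 : Real.log y ≤ L := Real.log_le_log hy0 hyN'
  have hylog0 : 0 < Real.log y := by linarith
  -- the level
  set D' : ℕ := (z + 1) ^ r with hD'
  have hD'1 : 1 ≤ D' := Nat.one_le_pow _ _ (by omega)
  have hM1 : (1 : ℝ) ≤ ((d * D' : ℕ) : ℝ) := by exact_mod_cast Nat.mul_pos hd hD'1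
  have hD'r : (D' : ℝ) = ((z : ℝ) + 1) ^ r := by rw [hD']; push_cast; ring
  have hD'2 : (D' : ℝ) ^ 2 ≤ √N := by
    have h5 : ((D' : ℝ) ^ 2) ^ 2 ≤ N := by rw [← pow_mul, hD'r]; exact hr2
    have h6 := Real.sqrt_le_sqrt h5
    rwa [Real.sqrt_sq (by positivity)] at h6
  have hM2 : ((d * D' : ℕ) : ℝ) ^ 2 ≤ L ^ (2 * D) * √(N : ℝ) := by
    push_cast
    rw [mul_pow]
    apply mul_le_mul _ hD'2 (by positivity) (by positivity)
    calc (d : ℝ) ^ 2 ≤ (L ^ D) ^ 2 := pow_le_pow_left₀ (Nat.cast_nonneg _) hdD 2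
      _ = _ := by rw [← pow_mul]; congr 1; ring
  have hyB : L ^ (2 * D) * √(N : ℝ) ≤ y / Real.log y ^ B := by
    rw [le_div_iff₀ (by positivity)]
    apply le_of_mul_le_mul_right _ hLK
    calc L ^ (2 * D) * √(N : ℝ) * Real.log y ^ B * L ^ (J + 1) ≤ L ^ (2 * D) * √(N : ℝ) * L ^ B * L ^ (J + 1) := by gcongr
      _ = L ^ (2 * D + (J + 1) + B) * √(N : ℝ) := by
          rw [show 2 * D + (J + 1) + B = 2 * D + (B + (J + 1)) by ring, pow_add L (2 * D), pow_add L B]; ring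
      _ ≤ √(N : ℝ) * √(N : ℝ) := mul_le_mul_of_nonneg_right (hpow _ (by omega)) hs0.le
      _ = N := hss
      _ ≤ _ := hNy
  have hMy : ((d * D' : ℕ) : ℝ) ≤ y / Real.log y ^ B := by
    refine le_trans ?_ (hM2.trans hyB)
    nlinarith
  have hAf1 : 1 ≤ L ^ C' := one_le_pow₀ hL1
  have hkA : ((k + 1 : ℕ) : ℝ) ^ r ≤ L ^ C' := hr3 (k + 1)
  have hbv := hBV y hyX0 (L ^ C') hAf1 (d * D') hMy ((hM2.trans hyB).trans (by
      apply div_le_div_of_nonneg_right _ (by positivity)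
      exact le_mul_of_one_le_left hy0.le hAf1)) (LD a z r d c) (LD_fam a z r d c hd hc hcd (L ^ C') hkA)
  have hEf : ∑ e ∈ Icc 1 D', EfD a y z r d c e ≤ L ^ C' * y / Real.log y ^ U1 := (bv_sum a y z r d c D' hd).trans hbv
  set T : ℝ := N / L ^ (J + 1) with hT
  have hT0 : 0 < T := by positivity
  have g1 : L ^ C' * y / Real.log y ^ U1 ≤ 2 ^ U1 * T := by
    have h5 : (L / 2) ^ U1 ≤ Real.log y ^ U1 := pow_le_pow_left₀ (by positivity) hylog _
    calc L ^ C' * y / Real.log y ^ U1 ≤ L ^ C' * N / (L / 2) ^ U1 :=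
          div_le_div₀ (by positivity) (mul_le_mul_of_nonneg_left hyN' (by positivity)) (by positivity) h5
      _ = 2 ^ U1 * T := by
          rw [hT, div_pow, hU1, pow_add L C']
          field_simp
  have g2 : C * (y / Real.log y ^ (J + 1)) ≤ C * 2 ^ (J + 1) * T := by
    have h5 : (L / 2) ^ (J + 1) ≤ Real.log y ^ (J + 1) := pow_le_pow_left₀ (by positivity) hylog _
    calc C * (y / Real.log y ^ (J + 1)) ≤ C * (N / (L / 2) ^ (J + 1)) := by
          apply mul_le_mul_of_nonneg_left _ hC.le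
          exact div_le_div₀ hN0.le hyN' (by positivity) h5
      _ = C * 2 ^ (J + 1) * T := by
          rw [hT, div_pow]
          field_simp
  have gL : L ^ (E₁ + 3) ≤ T := by
    rw [hT, le_div_iff₀ hLK, ← pow_add]
    exact (hpow _ (by omega)).trans hsN
  have g3 : 1 ≤ T := (one_le_pow₀ hL1).trans gL
  have hlog2 : (Nat.log 2 y : ℝ) ≤ 2 * L := by
    have h5 : 1 ≤ y := by
      have : (0 : ℝ) < y := hy0
      exact_mod_cast this
    exact (natlog_le y h5).trans (by linarith)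
  have g4 : (z : ℝ) * ((Nat.log 2 y + 1 : ℝ) * Real.log y) ≤ T := by
    refine le_trans ?_ gL
    have hl0 : (0 : ℝ) ≤ Nat.log 2 y := Nat.cast_nonneg _
    calc (z : ℝ) * ((Nat.log 2 y + 1 : ℝ) * Real.log y) ≤ L ^ E₁ * ((2 * L + 1) * L) := by gcongr
      _ ≤ L ^ E₁ * L ^ 3 := by
          apply mul_le_mul_of_nonneg_left _ (by positivity)
          have h5 : 2 * L + 1 ≤ L * L := by nlinarith
          calc (2 * L + 1) * L ≤ (L * L) * L := mul_le_mul_of_nonneg_right h5 hL0.le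
            _ = L ^ 3 := by ring
      _ = L ^ (E₁ + 3) := by rw [pow_add]
  have s1 := sieve1 a y z r d c hd hc
  have s2 := sieve2 a y z d c
  have s3 := hpnt y hyn1
  have hφ1 : (1 : ℝ) ≤ Nat.totient d := by exact_mod_cast Nat.totient_pos.2 hd
  have hψ := lam1_le y
  have hψ0 : 0 ≤ lam1 y := sum_nonneg fun _ _ => ArithmeticFunction.vonMangoldt_nonneg
  have hexp : Real.exp (3 * ((2 * k : ℕ) * (1 + Real.log z)) - r) ≤ 1 / L ^ (J + 1) := hr1
  have g5 : 2 * (lam1 y / (Nat.totient d : ℝ)) * Real.exp (3 * ((2 * k : ℕ) * (1 + Real.log z)) - r) ≤ 12 * T := by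
    have h5 : lam1 y / (Nat.totient d : ℝ) ≤ 6 * N := by
      refine (div_le_self hψ0 hφ1).trans ?_
      linarith
    calc 2 * (lam1 y / (Nat.totient d : ℝ)) * Real.exp (3 * ((2 * k : ℕ) * (1 + Real.log z)) - r) ≤
        2 * (6 * N) * (1 / L ^ (J + 1)) := by gcongr
      _ = 12 * T := by rw [hT]; ring
  set P1 : ℝ := ∏ p ∈ TD z d, (1 - (rhoP a p : ℝ) / (p - 1 : ℝ)) with hP1
  have hP10 : 0 ≤ P1 ∧ P1 ≤ 1 := by
    have hh : ∀ p ∈ TD z d, 0 ≤ 1 - (rhoP a p : ℝ) / (p - 1 : ℝ) ∧ 1 - (rhoP a p : ℝ) / (p - 1 : ℝ) ≤ 1 := by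
      intro p hp
      obtain ⟨h5, h6⟩ := rho_frac a (TD_sub z d hp)
      constructor <;> linarith
    exact ⟨prod_nonneg fun p hp => (hh p hp).1, prod_le_one (fun p hp => (hh p hp).1) (fun p hp => (hh p hp).2)⟩
  set W1 : ℝ := ∑ n ∈ ((Icc 1 y).filter (fun n => n % d = c)).filter
        (fun n : ℕ => ∀ p ∈ TD z d, ¬ (¬ p ∣ n ∧ ∃ i, (p : ℤ) ∣ (n : ℤ) + a i)),
      ArithmeticFunction.vonMangoldt n with hW1
  have e : W0 a y z d c - y / (Nat.totient d : ℝ) * P1 = (W0 a y z d c - W1) +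
      (W1 - lam1 y / (Nat.totient d : ℝ) * P1) + (lam1 y - y) / (Nat.totient d : ℝ) * P1 := by ring
  have s4 : |(lam1 y - y) / (Nat.totient d : ℝ) * P1| ≤ C * (y / Real.log y ^ (J + 1)) + 2 := by
    rw [abs_mul, abs_div, abs_of_nonneg hP10.1, abs_of_nonneg (show (0 : ℝ) ≤ Nat.totient d from Nat.cast_nonneg _)]
    calc |lam1 y - y| / (Nat.totient d : ℝ) * P1 ≤ |lam1 y - y| / (Nat.totient d : ℝ) * 1 := by
          apply mul_le_mul_of_nonneg_left hP10.2
          positivity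
      _ = |lam1 y - y| / (Nat.totient d : ℝ) := mul_one _
      _ ≤ |lam1 y - y| := div_le_self (abs_nonneg _) hφ1
      _ ≤ _ := s3
  have htot : |W0 a y z d c - y / (Nat.totient d : ℝ) * P1| ≤ (C * 2 ^ (J + 1) + 2 ^ U1 + 40) * T := by
    rw [e]
    have q1 := abs_add_le ((W0 a y z d c - W1) + (W1 - lam1 y / (Nat.totient d : ℝ) * P1))
      ((lam1 y - y) / (Nat.totient d : ℝ) * P1)
    have q2 := abs_add_le (W0 a y z d c - W1) (W1 - lam1 y / (Nat.totient d : ℝ) * P1)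
    have q3 : (C * 2 ^ (J + 1) + 2 ^ U1 + 40) * T = C * 2 ^ (J + 1) * T + 2 ^ U1 * T + 40 * T := by ring
    rw [q3]
    linarith
  refine htot.trans ?_
  calc (C * 2 ^ (J + 1) + 2 ^ U1 + 40) * T ≤ L * T := mul_le_mul_of_nonneg_right hL hT0.le
    _ = N / L ^ J := by rw [hT, pow_succ]; field_simp

lemma exp_small (B A : ℕ) : ∃ N₀ : ℕ, ∀ N : ℕ, N₀ ≤ N →
    Real.exp (B * Real.log (Real.log N) ^ 2) ≤ N / Real.log N ^ A := by
  have hlim : Filter.Tendsto (fun N : ℕ => Real.log (N : ℝ)) Filter.atTop Filter.atTop :=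
    Real.tendsto_log_atTop.comp (tendsto_natCast_atTop_atTop (R := ℝ))
  have h1 : ∀ᶠ N : ℕ in Filter.atTop, 1 ≤ Real.log (Real.log N) := by
    exact ((Real.tendsto_log_atTop.comp hlim).eventually_ge_atTop 1)
  have h2 : ∀ᶠ N : ℕ in Filter.atTop, ((B : ℝ) + A) * Real.log (Real.log N) ^ 2 ≤ Real.log N := by
    have h3 := (Real.isLittleO_pow_log_id_atTop (n := 2)).bound (show (0 : ℝ) < 1 / ((B : ℝ) + A + 1) by positivity)
    have h4 := hlim.eventually h3
    filter_upwards [h4, hlim.eventually_ge_atTop 1] with N h5 h6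
    simp only [id] at h5
    rw [Real.norm_of_nonneg (by positivity), Real.norm_of_nonneg (by linarith), one_div, inv_mul_eq_div,
      le_div_iff₀ (by positivity)] at h5
    have h7 : 0 ≤ Real.log (Real.log N) ^ 2 := by positivity
    nlinarith
  obtain ⟨N0, h0⟩ := Filter.eventually_atTop.1 (h1.and (h2.and (hlim.eventually_ge_atTop 1)))
  refine ⟨max N0 1, fun N hN => ?_⟩
  obtain ⟨ha, hb, hL⟩ := h0 N (le_trans (le_max_left _ _) hN)
  have hN1 : 1 ≤ N := le_trans (le_max_right _ _) hN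
  have hN0 : (0 : ℝ) < N := by exact_mod_cast hN1
  have hL0 : 0 < Real.log N := by linarith
  rw [le_div_iff₀ (by positivity)]
  have h3 : Real.log N ^ A = Real.exp (A * Real.log (Real.log N)) := by
    rw [mul_comm, Real.exp_mul, Real.exp_log hL0, Real.rpow_natCast]
  rw [h3, ← Real.exp_add]
  have h4 : Real.exp (Real.log N) = N := Real.exp_log hN0
  rw [← h4]
  apply Real.exp_le_exp.2
  rw [h4]
  have hA : (0 : ℝ) ≤ A := Nat.cast_nonneg _
  have h5 : (A : ℝ) * Real.log (Real.log N) ≤ A * Real.log (Real.log N) ^ 2 := by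
    apply mul_le_mul_of_nonneg_left _ hA
    nlinarith
  linarith


lemma lz_nonneg (z : ℕ) (m : ℤ) : 0 ≤ lz z m := by
  unfold lz
  split_ifs
  · exact (inv_pos.2 (Vz_pos z)).le
  · exact le_rfl

lemma lz_le (z : ℕ) (m : ℤ) : lz z m ≤ (Vz z)⁻¹ := by
  unfold lz
  split_ifs
  · exact le_rfl
  · exact (inv_pos.2 (Vz_pos z)).le

lemma lz_zero {z p : ℕ} (hp : p ∈ pz z) {n : ℕ} (h : p ∣ n) : lz z (n : ℤ) = 0 := by
  unfold lz
  rw [if_neg]
  intro h2
  exact h2 p hp (by exact_mod_cast h)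

/-- the difference of the primes and the model in the class `c` modulo `d` -/
noncomputable def SD {k : ℕ} (a : Fin k → ℤ) (z d c y : ℕ) : ℝ :=
  ∑ n ∈ (Icc 1 y).filter (fun n => n % d = c), (ArithmeticFunction.vonMangoldt n - lz z (n : ℤ)) * ∏ i, lz z ((n : ℤ) + a i)

theorem diff_class (hMTC : S_MTC) (k A D E₁ : ℕ) : ∃ N₀ : ℕ, ∀ N : ℕ, N₀ ≤ N → ∀ z : ℕ, Real.log N ^ D ≤ z →
    (z : ℝ) ≤ Real.log N ^ E₁ → ∀ a : Fin k → ℤ, ∀ y : ℕ, y ≤ N → ∀ d c : ℕ, 1 ≤ d →
    (d : ℝ) ≤ Real.log N ^ D → c < d → |SD a z d c y| ≤ 3 * (N / Real.log N ^ A) := by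
  obtain ⟨n0, h0⟩ := main_pos k (A + k) D E₁
  obtain ⟨B, n1, h1⟩ := hMTC (k + 1) E₁ A
  obtain ⟨n2, h2⟩ := exp_small B A
  obtain ⟨n3, h3⟩ := Vz_inv_small E₁
  obtain ⟨n4, h4⟩ := ev_log' (A + k + 4) 1
  obtain ⟨n5, h5⟩ := ev_L' 40
  refine ⟨max (max (max n0 n1) (max n2 n3)) (max (max n4 n5) 4), fun N hN z hzD hzE a y hyN d c hd hdD hc => ?_⟩
  have b0 := le_trans (le_trans (le_trans (le_max_left _ _) (le_max_left _ _)) (le_max_left _ _)) hN
  have b1 := le_trans (le_trans (le_trans (le_max_right _ _) (le_max_left _ _)) (le_max_left _ _)) hN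
  have b2 := le_trans (le_trans (le_trans (le_max_left _ _) (le_max_right _ _)) (le_max_left _ _)) hN
  have b3 := le_trans (le_trans (le_trans (le_max_right _ _) (le_max_right _ _)) (le_max_left _ _)) hN
  have b4 := le_trans (le_trans (le_trans (le_max_left _ _) (le_max_left _ _)) (le_max_right _ _)) hN
  have b5 := le_trans (le_trans (le_trans (le_max_right _ _) (le_max_left _ _)) (le_max_right _ _)) hN
  have hN4 : 4 ≤ N := le_trans (le_trans (le_max_right _ _) (le_max_right _ _)) hN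
  have hexp := h2 N b2
  have a4 := h4 N b4
  have hL40 := h5 N b5
  have hNr : (4 : ℝ) ≤ N := by exact_mod_cast hN4
  have hN0 : (0 : ℝ) < N := by linarith
  set L := Real.log N with hLd
  rw [one_mul] at a4
  have hL0 : 0 < L := by linarith
  have hL1 : 1 ≤ L := by linarith
  have hz1r : (1 : ℝ) ≤ z := (one_le_pow₀ hL1).trans hzD
  have hz : 1 ≤ z := by exact_mod_cast hz1r
  have hdz : d ≤ z := by
    have : (d : ℝ) ≤ z := hdD.trans hzD
    exact_mod_cast this
  have hV := h3 N b3 z hz hzE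
  have hV0 : 0 ≤ (Vz z)⁻¹ := (inv_pos.2 (Vz_pos z)).le
  have hs0 : 0 < √(N : ℝ) := Real.sqrt_pos.2 hN0
  have hss : √(N : ℝ) * √(N : ℝ) = N := Real.mul_self_sqrt hN0.le
  have hs1 : 1 ≤ √(N : ℝ) := (one_le_pow₀ hL1).trans a4
  have hsN : √(N : ℝ) ≤ N := by nlinarith
  have hyN' : (y : ℝ) ≤ N := by exact_mod_cast hyN
  set T : ℝ := N / L ^ A with hT
  have hT0 : 0 < T := by positivity
  have hLT : L ^ (k + 4) ≤ T := by
    rw [hT, le_div_iff₀ (by positivity), ← pow_add]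
    refine le_trans ?_ (a4.trans hsN)
    exact pow_le_pow_right₀ hL1 (by omega)
  have hprod : ∀ n : ℕ, 0 ≤ ∏ i, lz z ((n : ℤ) + a i) ∧ ∏ i, lz z ((n : ℤ) + a i) ≤ L ^ k := by
    intro n
    constructor
    · exact prod_nonneg fun i _ => lz_nonneg _ _
    · calc ∏ i, lz z ((n : ℤ) + a i) ≤ ∏ _i : Fin k, L :=
            prod_le_prod (fun i _ => lz_nonneg _ _) (fun i _ => (lz_le _ _).trans hV)
        _ = L ^ k := by rw [prod_const, card_univ, Fintype.card_fin]
  rcases lt_or_ge ((y : ℝ) * L ^ (A + k + 1)) N with hsmall | hbig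
  · -- short sums
    have h6 : |SD a z d c y| ≤ y * (L * L ^ k) := by
      unfold SD
      refine (abs_sum_le_sum_abs _ _).trans ?_
      have h7 : ∀ n ∈ (Icc 1 y).filter (fun n => n % d = c),
          |(ArithmeticFunction.vonMangoldt n - lz z (n : ℤ)) * ∏ i, lz z ((n : ℤ) + a i)| ≤ L * L ^ k := by
        intro n hn
        rw [mem_filter, mem_Icc] at hn
        rw [abs_mul, abs_of_nonneg (hprod n).1]
        apply mul_le_mul _ (hprod n).2 (hprod n).1 hL0.le
        have h8 : (0 : ℝ) ≤ ArithmeticFunction.vonMangoldt n := ArithmeticFunction.vonMangoldt_nonneg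
        have h9 : ArithmeticFunction.vonMangoldt n ≤ L := by
          refine ArithmeticFunction.vonMangoldt_le_log.trans ?_
          apply Real.log_le_log (by exact_mod_cast hn.1.1)
          exact_mod_cast hn.1.2.trans hyN
        have h10 := lz_nonneg z (n : ℤ)
        have h11 := (lz_le z (n : ℤ)).trans hV
        rw [abs_le]
        constructor <;> linarith
      refine (sum_le_sum h7).trans ?_
      rw [sum_const, nsmul_eq_mul]
      apply mul_le_mul_of_nonneg_right _ (by positivity)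
      have h8 : ((Icc 1 y).filter (fun n => n % d = c)).card ≤ y := by
        refine (card_filter_le _ _).trans ?_
        simp
      exact_mod_cast h8
    have h7 : y * (L * L ^ k) ≤ T := by
      rw [hT, le_div_iff₀ (by positivity)]
      calc y * (L * L ^ k) * L ^ A = y * L ^ (A + k + 1) := by rw [pow_succ, pow_add]; ring
        _ ≤ N := hsmall.le
    linarith
  · have hsplit : SD a z d c y = ∑ n ∈ (Icc 1 y).filter (fun n => n % d = c),
        ArithmeticFunction.vonMangoldt n * ∏ i, lz z ((n : ℤ) + a i) -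
        ∑ n ∈ (Icc 1 y).filter (fun n => n % d = c), lz z (n : ℤ) * ∏ i, lz z ((n : ℤ) + a i) := by
      unfold SD
      rw [← sum_sub_distrib]
      apply sum_congr rfl
      intro n _
      rw [sub_mul]
    by_cases hgood : ∀ p ∈ pz z, p ∣ d → ∀ i, ¬ (p : ℤ) ∣ (c : ℤ) + a i
    · by_cases hcd : c.Coprime d
      · -- the main case
        have hm := h0 N b0 z hz hzE a y hyN hbig d c hd hdD hc hcd
        have hmt := h1 N b1 z hz hzE (fun _ => 1) (Fin.cons 0 a) (fun _ => Or.inl rfl) d c y hd hyN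
        have e1 : ∑ n ∈ (Icc 1 y).filter (fun n => n % d = c % d),
            ∏ i : Fin (k + 1), lz z ((fun _ => (1 : ℤ)) i * (n : ℤ) + (Fin.cons 0 a : Fin (k + 1) → ℤ) i) =
            ∑ n ∈ (Icc 1 y).filter (fun n => n % d = c), lz z (n : ℤ) * ∏ i, lz z ((n : ℤ) + a i) := by
          rw [Nat.mod_eq_of_lt hc]
          apply sum_congr rfl
          intro n _
          rw [Fin.prod_univ_succ]
          simp only [Fin.cons_zero, Fin.cons_succ, one_mul, add_zero]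
        rw [e1, gz_eq a z d c hd hdz hcd hgood (y : ℝ)] at hmt
        rw [hsplit, sum_lam a y z d c hgood]
        set M0 : ℝ := y / (Nat.totient d : ℝ) * ∏ p ∈ TD z d, (1 - (rhoP a p : ℝ) / (p - 1 : ℝ)) with hM0
        set S2 : ℝ := ∑ n ∈ (Icc 1 y).filter (fun n => n % d = c), lz z (n : ℤ) * ∏ i, lz z ((n : ℤ) + a i) with hS2
        have h6 : |((Vz z)⁻¹) ^ k * W0 a y z d c - ((Vz z)⁻¹) ^ k * M0| ≤ T := by
          rw [← mul_sub, abs_mul, abs_of_nonneg (pow_nonneg hV0 k)]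
          calc ((Vz z)⁻¹) ^ k * |W0 a y z d c - M0| ≤ L ^ k * (N / L ^ (A + k)) :=
                mul_le_mul (pow_le_pow_left₀ hV0 hV k) hm (abs_nonneg _) (by positivity)
            _ = T := by rw [hT, pow_add]; field_simp
        have h7 : (N : ℝ) / d / L ^ A + Real.exp (B * Real.log L ^ 2) ≤ 2 * T := by
          have hd1 : (1 : ℝ) ≤ d := by exact_mod_cast hd
          have h8 : (N : ℝ) / d / L ^ A ≤ T := by
            rw [hT]
            apply div_le_div_of_nonneg_right _ (by positivity)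
            exact div_le_self hN0.le hd1
          linarith
        have h8 : |S2 - ((Vz z)⁻¹) ^ k * M0| ≤ 2 * T := hmt.trans h7
        have e2 : ((Vz z)⁻¹) ^ k * W0 a y z d c - S2 = (((Vz z)⁻¹) ^ k * W0 a y z d c - ((Vz z)⁻¹) ^ k * M0) -
          (S2 - ((Vz z)⁻¹) ^ k * M0) := by ring
        rw [e2]
        refine (abs_sub _ _).trans ?_
        linarith
      · -- a common factor of `c` and `d`
        obtain ⟨p, hp, hpc, hpd⟩ := Nat.Prime.not_coprime_iff_dvd.1 hcd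
        have hpz : p ∈ pz z := mem_pz.2 ⟨(Nat.le_of_dvd hd hpd).trans hdz, hp⟩
        have e1 : ∑ n ∈ (Icc 1 y).filter (fun n => n % d = c), lz z (n : ℤ) * ∏ i, lz z ((n : ℤ) + a i) = 0 := by
          apply sum_eq_zero
          intro n hn
          rw [mem_filter] at hn
          have h6 : p ∣ n := by
            rw [← dvd_mod_iff n d p hpd, hn.2]
            exact hpc
          rw [lz_zero hpz h6, zero_mul]
        rw [hsplit, e1, sub_zero]
        have h6 : |∑ n ∈ (Icc 1 y).filter (fun n => n % d = c),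
            ArithmeticFunction.vonMangoldt n * ∏ i, lz z ((n : ℤ) + a i)| ≤ L ^ k * ((Nat.log 2 y + 1 : ℝ) * Real.log y) := by
          rw [abs_of_nonneg (sum_nonneg fun n _ => mul_nonneg ArithmeticFunction.vonMangoldt_nonneg (hprod n).1)]
          calc ∑ n ∈ (Icc 1 y).filter (fun n => n % d = c), ArithmeticFunction.vonMangoldt n * ∏ i, lz z ((n : ℤ) + a i)
              ≤ ∑ n ∈ (Icc 1 y).filter (fun n => n % d = c), L ^ k * ArithmeticFunction.vonMangoldt n := by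
                apply sum_le_sum
                intro n _
                rw [mul_comm (L ^ k)]
                exact mul_le_mul_of_nonneg_left (hprod n).2 ArithmeticFunction.vonMangoldt_nonneg
            _ = L ^ k * ∑ n ∈ (Icc 1 y).filter (fun n => n % d = c), ArithmeticFunction.vonMangoldt n := by rw [mul_sum]
            _ ≤ L ^ k * ∑ n ∈ (Icc 1 y).filter (fun n => p ∣ n), ArithmeticFunction.vonMangoldt n := by
                apply mul_le_mul_of_nonneg_left _ (by positivity)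
                apply sum_le_sum_of_subset_of_nonneg
                · intro n hn
                  rw [mem_filter] at hn ⊢
                  refine ⟨hn.1, ?_⟩
                  rw [← dvd_mod_iff n d p hpd, hn.2]
                  exact hpc
                · intro _ _ _
                  exact ArithmeticFunction.vonMangoldt_nonneg
            _ ≤ _ := mul_le_mul_of_nonneg_left (lam_mult_prime y p hp) (by positivity)
        have h7 : L ^ k * ((Nat.log 2 y + 1 : ℝ) * Real.log y) ≤ T := by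
          refine le_trans ?_ hLT
          rcases Nat.eq_zero_or_pos y with hy | hy
          · rw [hy]
            simp only [Nat.log_zero_right, CharP.cast_eq_zero, zero_add, Real.log_zero, mul_zero]
            positivity
          · have h8 := natlog_le y hy
            have hy1 : (1 : ℝ) ≤ y := by exact_mod_cast hy
            have h9 : Real.log y ≤ L := Real.log_le_log (by linarith) hyN'
            have h10 : 0 ≤ Real.log y := Real.log_nonneg hy1
            have h11 : (0 : ℝ) ≤ Nat.log 2 y := Nat.cast_nonneg _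
            calc L ^ k * ((Nat.log 2 y + 1 : ℝ) * Real.log y) ≤ L ^ k * ((2 * L + 1) * L) := by
                  gcongr
                  linarith
              _ ≤ L ^ k * L ^ 4 := by
                  apply mul_le_mul_of_nonneg_left _ (by positivity)
                  have h12 : 2 * L + 1 ≤ L * L := by nlinarith
                  calc (2 * L + 1) * L ≤ (L * L) * L := mul_le_mul_of_nonneg_right h12 hL0.le
                    _ = L ^ 3 := by ring
                    _ ≤ L ^ 4 := pow_le_pow_right₀ hL1 (by norm_num)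
              _ = L ^ (k + 4) := by rw [pow_add]
        linarith
    · -- a prime divisor of `d` which divides `c + a i`
      push Not at hgood
      obtain ⟨p, hp, hpd, i, hi⟩ := hgood
      have e1 : SD a z d c y = 0 := by
        unfold SD
        apply sum_eq_zero
        intro n hn
        rw [mem_filter] at hn
        rw [prod_lz_zero a z p n hp ⟨i, ?_⟩, mul_zero]
        rw [← dvd_add_mod_iff n d p (a i) hpd, hn.2]
        exact hi
      rw [e1, abs_zero]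
      positivity


/-- the sum over the class `c` modulo `d` of the primes minus model, from the sums `SD` -/
lemma class_sum {k : ℕ} (a : Fin k → ℤ) (z d c y a0 : ℕ) (ha1 : ∀ i, (-a i).toNat ≤ a0)
    (ha2 : 1 ≤ a0 → ∃ i, (a0 : ℤ) ≤ -a i) :
    ∑ n ∈ (Icc 1 y).filter (fun n => n % d = c), Ed z (n : ℤ) * ∏ i, lamzI z ((n : ℤ) + a i) =
      SD a z d c y - SD a z d c (min y a0) := by
  have hpt : ∀ n ∈ (Icc 1 y).filter (fun n => n % d = c), Ed z (n : ℤ) * ∏ i, lamzI z ((n : ℤ) + a i) =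
      if a0 < n then (ArithmeticFunction.vonMangoldt n - lz z (n : ℤ)) * ∏ i, lz z ((n : ℤ) + a i) else 0 := by
    intro n hn
    rw [mem_filter, mem_Icc] at hn
    have hconv : ∀ m : ℤ, 1 ≤ m → lamzI z m = lz z m := by
      intro m hm
      unfold lamzI lamz lz
      rw [if_pos hm]
      have h2 : (∀ p ∈ pz z, ¬ p ∣ m.toNat) ↔ (∀ p ∈ pz z, ¬ (p : ℤ) ∣ m) := by
        have h3 : ∀ p : ℕ, (p ∣ m.toNat ↔ (p : ℤ) ∣ m) := by
          intro p
          rw [← Int.natCast_dvd_natCast, Int.toNat_of_nonneg (by omega)]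
        simp only [h3]
      simp only [h2]
    split_ifs with h
    · have h1 : Ed z (n : ℤ) = ArithmeticFunction.vonMangoldt n - lz z (n : ℤ) := by
        unfold Ed
        rw [hconv n (by omega)]
        unfold lamI
        rw [if_pos (by omega), Int.toNat_natCast]
      rw [h1]
      congr 1
      apply prod_congr rfl
      intro i _
      apply hconv
      have := ha1 i
      omega
    · obtain ⟨i, hi⟩ := ha2 (by omega)
      have h1 : lamzI z ((n : ℤ) + a i) = 0 := by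
        unfold lamzI
        rw [if_neg (by omega)]
      rw [prod_eq_zero (mem_univ i) h1, mul_zero]
  rw [sum_congr rfl hpt]
  unfold SD
  have h2 : ∑ n ∈ (Icc 1 (min y a0)).filter (fun n => n % d = c),
      (ArithmeticFunction.vonMangoldt n - lz z (n : ℤ)) * ∏ i, lz z ((n : ℤ) + a i) =
      ∑ n ∈ (Icc 1 y).filter (fun n => n % d = c), if a0 < n then 0 else
      (ArithmeticFunction.vonMangoldt n - lz z (n : ℤ)) * ∏ i, lz z ((n : ℤ) + a i) := by
    have h3 : (Icc 1 (min y a0)).filter (fun n => n % d = c) =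
        ((Icc 1 y).filter (fun n => n % d = c)).filter (fun n => ¬ a0 < n) := by
      ext n
      simp only [mem_filter, mem_Icc]
      omega
    rw [h3, sum_filter (s := (Icc 1 y).filter (fun n => n % d = c))]
    apply sum_congr rfl
    intro n _
    by_cases h4 : a0 < n <;> simp [h4]
  rw [h2, ← sum_sub_distrib]
  apply sum_congr rfl
  intro n _
  split_ifs <;> ring

theorem main : S_MTC → S_BASE := by
  intro hMTC k A B D
  refine ⟨D, fun E₁ => ?_⟩
  obtain ⟨n0, h0⟩ := diff_class hMTC k (A + D + 1) D E₁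
  obtain ⟨n1, h1⟩ := ev_L' 6
  refine ⟨max n0 (max n1 3), fun N hN z hzD hzE a ha y d hyN hd hdD b => ?_⟩
  have b0 := le_trans (le_max_left _ _) hN
  have b1 := le_trans (le_trans (le_max_left _ _) (le_max_right _ _)) hN
  have hN3 : 3 ≤ N := le_trans (le_trans (le_max_right _ _) (le_max_right _ _)) hN
  have hL6 := h1 N b1
  have hNr : (3 : ℝ) ≤ N := by exact_mod_cast hN3
  have hN0 : (0 : ℝ) < N := by linarith
  set L := Real.log N with hLd
  have hL0 : 0 < L := by linarith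
  have hd0 : (0 : ℝ) < d := by exact_mod_cast hd
  set a0 : ℕ := univ.sup (fun i => (-a i).toNat) with ha0
  have ha1 : ∀ i, (-a i).toNat ≤ a0 := fun i => le_sup (f := fun i => (-a i).toNat) (mem_univ i)
  have ha2 : 1 ≤ a0 → ∃ i, (a0 : ℤ) ≤ -a i := by
    intro h
    have hne : (univ : Finset (Fin k)).Nonempty := by
      by_contra hcon
      rw [not_nonempty_iff_eq_empty] at hcon
      rw [ha0, hcon, sup_empty] at h
      exact absurd h (by simp)
    obtain ⟨i, _, hi⟩ := exists_mem_eq_sup (univ : Finset (Fin k)) hne (fun i => (-a i).toNat)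
    refine ⟨i, ?_⟩
    rw [← ha0] at hi
    omega
  set F : ℕ → ℝ := fun n => Ed z (n : ℤ) * ∏ i, lamzI z ((n : ℤ) + a i) with hF
  have hclass : ∀ c ∈ range d, |∑ n ∈ (Icc 1 y).filter (fun n => n % d = c), F n| ≤ 6 * (N / L ^ (A + D + 1)) := by
    intro c hc
    rw [mem_range] at hc
    have e := class_sum a z d c y a0 ha1 ha2
    rw [hF]
    simp only
    rw [e]
    have q1 := h0 N b0 z hzD hzE a y hyN d c hd hdD hc
    have q2 := h0 N b0 z hzD hzE a (min y a0) ((min_le_left _ _).trans hyN) d c hd hdD hc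
    refine (abs_sub _ _).trans ?_
    linarith
  have hee : ∀ n c : ℕ, n % d = c → ee (n * ((b : ℝ) / d)) = ee (c * ((b : ℝ) / d)) := by
    intro n c hnc
    have h2 : (n : ℝ) = c + d * ((n / d : ℕ) : ℝ) := by
      have h3 := Nat.mod_add_div n d
      rw [hnc] at h3
      exact_mod_cast h3.symm
    generalize (n / d : ℕ) = m at h2
    have h3 : (n : ℝ) * ((b : ℝ) / d) = c * ((b : ℝ) / d) + (((m : ℤ) * b : ℤ) : ℝ) := by
      rw [h2]
      push_cast
      field_simp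
    rw [h3, Pool.Agent.H807R2.Dav.ee_add_int]
  have hsum : ∑ n ∈ Icc 1 y, ((F n : ℝ) : ℂ) * ee (n * ((b : ℝ) / d)) =
      ∑ c ∈ range d, ee (c * ((b : ℝ) / d)) * ((∑ n ∈ (Icc 1 y).filter (fun n => n % d = c), F n : ℝ) : ℂ) := by
    rw [← sum_fiberwise_of_maps_to (t := range d) (g := fun n => n % d) (fun n _ => mem_range.2 (Nat.mod_lt n hd))]
    apply sum_congr rfl
    intro c _
    push_cast
    rw [mul_sum]
    apply sum_congr rfl
    intro n hn
    rw [mem_filter] at hn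
    rw [hee n c hn.2, mul_comm]
  have hgoal : ‖∑ n ∈ Icc 1 y, ((F n : ℝ) : ℂ) * ee (n * ((b : ℝ) / d))‖ ≤ (N : ℝ) / L ^ A := by
    rw [hsum]
    refine (norm_sum_le _ _).trans ?_
    have h2 : ∀ c ∈ range d, ‖ee (c * ((b : ℝ) / d)) *
        ((∑ n ∈ (Icc 1 y).filter (fun n => n % d = c), F n : ℝ) : ℂ)‖ ≤ 6 * (N / L ^ (A + D + 1)) := by
      intro c hc
      rw [norm_mul, Pool.Agent.H807R2.Dav.norm_ee, one_mul, Complex.norm_real, Real.norm_eq_abs]
      exact hclass c hc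
    refine (sum_le_sum h2).trans ?_
    rw [sum_const, card_range, nsmul_eq_mul]
    calc (d : ℝ) * (6 * (N / L ^ (A + D + 1))) ≤ L ^ D * (6 * (N / L ^ (A + D + 1))) :=
          mul_le_mul_of_nonneg_right hdD (by positivity)
      _ = 6 / L * (N / L ^ A) := by rw [pow_succ, pow_add]; field_simp
      _ ≤ 1 * (N / L ^ A) := by
          apply mul_le_mul_of_nonneg_right _ (by positivity)
          rw [div_le_one hL0]
          exact hL6
      _ = _ := one_mul _
  exact hgoal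

end Pool.Agent.helper24_UT.Base
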