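import Pool.Agent.helper24_UT.Stm17
import Pool.Agent.TH892.RT.RT1

set_option autoImplicit false

namespace Pool.Agent.helper24_UT.Bdh

open Finset
open Pool.Agent.helper24_UT
open Pool.Agent.W110.HV (SN AD AD_nonneg AD_weighted frac_sum)
open Pool.Agent.TH892.RT (class_pars ee_eq)

/-- the sum over a class -/
noncomputable def CS (v : ℕ → ℂ) (y q r : ℕ) : ℂ := ∑ n ∈ (Icc 1 y).filter (fun n => n % q = r), v n

lemma harm (Q : ℕ) : ∑ q ∈ Icc 1 Q, (1 : ℝ) / q ≤ 1 + Real.log Q := by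
  have h := harmonic_le_one_add_log Q
  rw [harmonic_eq_sum_Icc] at h
  push_cast at h
  simpa [one_div] using h

lemma mult_sum (Q D : ℕ) (hD : 0 < D) :
    ∑ q ∈ (Icc 1 Q).filter (fun q => D ∣ q), (1 : ℝ) / q ≤ (1 + Real.log Q) / D := by
  have e : ∑ q ∈ (Icc 1 Q).filter (fun q => D ∣ q), (1 : ℝ) / q = ∑ m ∈ Icc 1 (Q / D), (1 : ℝ) / m / D := by
    refine sum_nbij' (fun q => q / D) (fun m => D * m) ?_ ?_ ?_ ?_ ?_
    · intro q hq
      rw [mem_filter, mem_Icc] at hq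
      rw [mem_Icc]
      exact ⟨Nat.div_pos (Nat.le_of_dvd hq.1.1 hq.2) hD, Nat.div_le_div_right hq.1.2⟩
    · intro m hm
      rw [mem_Icc] at hm
      rw [mem_filter, mem_Icc]
      refine ⟨⟨Nat.mul_pos hD hm.1, ?_⟩, dvd_mul_right _ _⟩
      rw [mul_comm]
      exact (Nat.le_div_iff_mul_le hD).1 hm.2
    · intro q hq
      rw [mem_filter] at hq
      exact Nat.mul_div_cancel' hq.2
    · intro m _
      exact Nat.mul_div_cancel_left m hD
    · intro q hq
      rw [mem_filter, mem_Icc] at hq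
      obtain ⟨m, rfl⟩ := hq.2
      rw [Nat.mul_div_cancel_left m hD]
      push_cast
      rw [div_div, mul_comm]
  rw [e, ← sum_div]
  apply div_le_div_of_nonneg_right _ (by positivity)
  refine le_trans ?_ (harm Q)
  apply sum_le_sum_of_subset_of_nonneg
  · exact Icc_subset_Icc_right (Nat.div_le_self _ _)
  · intro m _ _
    positivity

lemma swapq (v : ℕ → ℂ) (W Q : ℕ) :
    ∑ q ∈ Icc 1 Q, ∑ r ∈ range q, ‖CS v W q r‖ ^ 2 ≤
      (1 + Real.log Q) * ∑ D ∈ Icc 1 Q, AD W v D / D := by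
  have h1 : ∀ q ∈ Icc 1 Q, ∑ r ∈ range q, ‖CS v W q r‖ ^ 2 =
      ∑ D ∈ Icc 1 Q, if D ∣ q then AD W v D * (1 / (q : ℝ)) else 0 := by
    intro q hq
    rw [mem_Icc] at hq
    have hq0 : 0 < q := by omega
    have hqr : (0 : ℝ) < q := by exact_mod_cast hq0
    have e1 := class_pars W v q hq0
    have e2 : ∑ b ∈ range q, ‖SN W v ((b : ℝ) / q)‖ ^ 2 = ∑ D ∈ q.divisors, AD W v D :=
      frac_sum q hq0 (fun _ θ => ‖SN W v θ‖ ^ 2)
    have e3 : ∑ r ∈ range q, ‖CS v W q r‖ ^ 2 = (∑ D ∈ q.divisors, AD W v D) * (1 / (q : ℝ)) := by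
      rw [← e2, ← e1]
      unfold CS
      field_simp
    rw [e3, sum_mul, ← sum_filter]
    congr 1
    ext D
    rw [Nat.mem_divisors, mem_filter, mem_Icc]
    constructor
    · rintro ⟨hd, _⟩
      exact ⟨⟨Nat.pos_of_dvd_of_pos hd hq0, (Nat.le_of_dvd hq0 hd).trans hq.2⟩, hd⟩
    · rintro ⟨_, hd⟩
      exact ⟨hd, hq0.ne'⟩
  rw [sum_congr rfl h1, sum_comm, mul_sum]
  apply sum_le_sum
  intro D hD
  rw [mem_Icc] at hD
  rw [← sum_filter, ← mul_sum]
  calc AD W v D * ∑ q ∈ (Icc 1 Q).filter (fun q => D ∣ q), 1 / (q : ℝ)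
      ≤ AD W v D * ((1 + Real.log Q) / D) :=
        mul_le_mul_of_nonneg_left (mult_sum Q D (by omega)) (AD_nonneg _ _ _)
    _ = _ := by ring

lemma fixed_y (N D0 A' T Q y : ℕ) (L : ℝ) (hL : 1 ≤ L) (v : ℕ → ℂ) (hy : y ≤ N)
    (hQ : 1 + Real.log Q ≤ 2 * L) (hDA : D0 ≤ A')
    (hv : ∀ n ∈ Icc 1 N, ‖v n‖ ≤ L ^ T)
    (hs : ∀ y d : ℕ, y ≤ N → 1 ≤ d → (d : ℝ) ≤ L ^ A' → ∀ b : ℤ,
      ‖∑ n ∈ Icc 1 y, v n * Pool.Agent.H807R2.Dav.ee (n * ((b : ℝ) / d))‖ ≤ (N : ℝ) / L ^ A') :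
    ∑ q ∈ Icc 1 Q, ∑ r ∈ range q, ‖CS v y q r‖ ^ 2 ≤
      2 * L * (L ^ D0 * ((N : ℝ) / L ^ A') ^ 2 + 12 * ((N : ℝ) / L ^ D0 + Q) * (N * L ^ (2 * T))) := by
  have hL0 : 0 < L := by linarith
  refine (swapq v y Q).trans ?_
  have hAD0 : 0 ≤ ∑ D ∈ Icc 1 Q, AD y v D / D :=
    sum_nonneg fun D _ => div_nonneg (AD_nonneg _ _ _) (by positivity)
  refine (mul_le_mul_of_nonneg_right hQ hAD0).trans ?_
  apply mul_le_mul_of_nonneg_left _ (by linarith)
  set F := ⌊L ^ D0⌋₊ with hF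
  have hF1 : (F : ℝ) ≤ L ^ D0 := Nat.floor_le (by positivity)
  have hF2 : L ^ D0 ≤ ((F + 1 : ℕ) : ℝ) := by
    push_cast
    exact (Nat.lt_floor_add_one _).le
  have s0 : ∑ D ∈ Icc 1 Q, AD y v D / D ≤
      ∑ D ∈ Icc 1 F, AD y v D / D + ∑ D ∈ Icc (F + 1) Q, AD y v D / D := by
    rw [← sum_union]
    · apply sum_le_sum_of_subset_of_nonneg
      · intro D hD
        rw [mem_Icc] at hD
        rw [mem_union, mem_Icc, mem_Icc]
        omega
      · intro D _ _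
        exact div_nonneg (AD_nonneg _ _ _) (by positivity)
    · rw [disjoint_left]
      intro D hD hD'
      rw [mem_Icc] at hD hD'
      omega
  have s1 : ∑ D ∈ Icc 1 F, AD y v D / D ≤ L ^ D0 * ((N : ℝ) / L ^ A') ^ 2 := by
    calc ∑ D ∈ Icc 1 F, AD y v D / D ≤ ∑ D ∈ Icc 1 F, ((N : ℝ) / L ^ A') ^ 2 := by
          apply sum_le_sum
          intro D hD
          rw [mem_Icc] at hD
          have hD0 : (0 : ℝ) < D := by exact_mod_cast hD.1
          rw [div_le_iff₀ hD0]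
          unfold AD
          calc _ ≤ ∑ a ∈ (range D).filter (fun a => a.Coprime D), ((N : ℝ) / L ^ A') ^ 2 := by
                apply sum_le_sum
                intro a _
                apply pow_le_pow_left₀ (norm_nonneg _)
                have hDL : (D : ℝ) ≤ L ^ A' :=
                  le_trans (by exact_mod_cast hD.2) (hF1.trans (pow_le_pow_right₀ hL hDA))
                have := hs y D hy hD.1 hDL (a : ℤ)
                unfold SN
                refine le_trans (le_of_eq ?_) this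
                congr 1
                apply sum_congr rfl
                intro n _
                rw [ee_eq]
                push_cast
                rfl
            _ ≤ _ := by
                rw [sum_const, nsmul_eq_mul, mul_comm]
                apply mul_le_mul_of_nonneg_left _ (by positivity)
                have := card_filter_le (range D) (fun a => a.Coprime D)
                rw [card_range] at this
                exact_mod_cast this
      _ = F * ((N : ℝ) / L ^ A') ^ 2 := by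
          rw [sum_const, Nat.card_Icc, nsmul_eq_mul]
          simp
      _ ≤ _ := mul_le_mul_of_nonneg_right hF1 (by positivity)
  have s2 : ∑ D ∈ Icc (F + 1) Q, AD y v D / D ≤
      12 * ((N : ℝ) / L ^ D0 + Q) * (N * L ^ (2 * T)) := by
    refine (AD_weighted y v (F + 1) Q (by omega)).trans ?_
    have t1 : ∑ n ∈ Icc 1 y, ‖v n‖ ^ 2 ≤ N * L ^ (2 * T) := by
      calc ∑ n ∈ Icc 1 y, ‖v n‖ ^ 2 ≤ ∑ n ∈ Icc 1 y, L ^ (2 * T) := by
            apply sum_le_sum
            intro n hn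
            rw [mem_Icc] at hn
            have := hv n (mem_Icc.2 ⟨hn.1, hn.2.trans hy⟩)
            calc ‖v n‖ ^ 2 ≤ (L ^ T) ^ 2 := pow_le_pow_left₀ (norm_nonneg _) this 2
              _ = L ^ (2 * T) := by rw [← pow_mul, mul_comm]
        _ = y * L ^ (2 * T) := by
            rw [sum_const, Nat.card_Icc, nsmul_eq_mul]
            simp
        _ ≤ _ := mul_le_mul_of_nonneg_right (by exact_mod_cast hy) (by positivity)
    have t2 : (y : ℝ) / ((F + 1 : ℕ) : ℝ) ≤ (N : ℝ) / L ^ D0 :=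
      div_le_div₀ (by positivity) (by exact_mod_cast hy) (by positivity) hF2
    apply mul_le_mul _ t1 (sum_nonneg fun _ _ => by positivity) (by positivity)
    linarith
  linarith

lemma card_class (a b q r : ℕ) (hab : a ≤ b) (hq : 0 < q) (hr : r < q) :
    ((((Ioc a b).filter (fun n => n % q = r)).card : ℕ) : ℝ) ≤ ((b : ℝ) - a) / q + 1 := by
  have e : (Ioc a b).filter (fun n => n % q = r) = (Ioc a b).filter (fun n => n ≡ r [MOD q]) := by
    apply filter_congr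
    intro n _
    unfold Nat.ModEq
    rw [Nat.mod_eq_of_lt hr]
  rw [e]
  have h := Nat.Ioc_filter_modEq_card a b hq r
  have h1 : (((((Ioc a b).filter (fun n => n ≡ r [MOD q])).card : ℕ) : ℤ) : ℚ) ≤ ((b : ℚ) - a) / q + 1 := by
    rw [h]
    push_cast
    apply max_le
    · have k1 := Int.floor_le (((b : ℚ) - r) / q)
      have k2 := Int.lt_floor_add_one (((a : ℚ) - r) / q)
      have k3 : ((b : ℚ) - r) / q - ((a : ℚ) - r) / q = ((b : ℚ) - a) / q := by ring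
      linarith
    · have k4 : (a : ℚ) ≤ b := by exact_mod_cast hab
      have k5 : 0 ≤ ((b : ℚ) - a) / q := div_nonneg (by linarith) (by positivity)
      linarith
  have h2 : ((((((Ioc a b).filter (fun n => n ≡ r [MOD q])).card : ℕ) : ℤ) : ℚ) : ℝ) ≤
      ((((b : ℚ) - a) / q + 1 : ℚ) : ℝ) := by exact_mod_cast h1
  push_cast at h2
  exact h2

lemma CS_diff (v : ℕ → ℂ) (q r a b : ℕ) (hab : a ≤ b) :
    CS v b q r = CS v a q r + ∑ n ∈ (Ioc a b).filter (fun n => n % q = r), v n := by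
  unfold CS
  rw [← sum_union]
  · congr 1
    ext n
    rw [mem_union, mem_filter, mem_filter, mem_filter, mem_Icc, mem_Icc, mem_Ioc]
    constructor
    · rintro ⟨h1, h2⟩
      rcases le_or_gt n a with h3 | h3
      · exact Or.inl ⟨⟨h1.1, h3⟩, h2⟩
      · exact Or.inr ⟨⟨h3, h1.2⟩, h2⟩
    · rintro (⟨h1, h2⟩ | ⟨h1, h2⟩)
      · exact ⟨⟨h1.1, h1.2.trans hab⟩, h2⟩
      · exact ⟨⟨by omega, h1.2⟩, h2⟩
  · rw [disjoint_left]
    intro n h1 h2
    rw [mem_filter, mem_Icc] at h1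
    rw [mem_filter, mem_Ioc] at h2
    omega

lemma cell (v : ℕ → ℂ) (N T q r y h : ℕ) (L X : ℝ) (hL : 1 ≤ L) (hv : ∀ n ∈ Icc 1 N, ‖v n‖ ≤ L ^ T)
    (hq : 0 < q) (hr : r < q) (hy : y ≤ N) (hh : 0 < h) (hX : (h : ℝ) ≤ X + 1) :
    ‖CS v y q r‖ ^ 2 ≤ 2 * ‖CS v (h * (y / h)) q r‖ ^ 2 + 2 * (L ^ (2 * T) * (2 * X ^ 2 / q ^ 2 + 8)) := by
  have hle : h * (y / h) ≤ y := Nat.mul_div_le y h
  have hlt : y < h * (y / h) + h := by
    have h1 := Nat.div_add_mod y h
    have h2 := Nat.mod_lt y hh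
    omega
  have hqr : (0 : ℝ) < q := by exact_mod_cast hq
  rw [CS_diff v q r _ _ hle]
  set a := CS v (h * (y / h)) q r
  set b := ∑ n ∈ (Ioc (h * (y / h)) y).filter (fun n => n % q = r), v n with hb
  have hbn : ‖b‖ ≤ L ^ T * (X / q + 2) := by
    calc ‖b‖ ≤ ∑ n ∈ (Ioc (h * (y / h)) y).filter (fun n => n % q = r), ‖v n‖ := norm_sum_le _ _
      _ ≤ ∑ n ∈ (Ioc (h * (y / h)) y).filter (fun n => n % q = r), L ^ T := by
          apply sum_le_sum
          intro n hn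
          rw [mem_filter, mem_Ioc] at hn
          exact hv n (mem_Icc.2 ⟨by omega, by omega⟩)
      _ = L ^ T * ((((Ioc (h * (y / h)) y).filter (fun n => n % q = r)).card : ℕ) : ℝ) := by
          rw [sum_const, nsmul_eq_mul, mul_comm]
      _ ≤ _ := by
          apply mul_le_mul_of_nonneg_left _ (by positivity)
          refine (card_class _ _ q r hle hq hr).trans ?_
          have h3 : ((y : ℝ) - ((h * (y / h) : ℕ) : ℝ)) / q ≤ (X + 1) / q := by
            apply div_le_div_of_nonneg_right _ hqr.le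
            have h4 : ((y : ℕ) : ℝ) < ((h * (y / h) + h : ℕ) : ℝ) := by exact_mod_cast hlt
            rw [Nat.cast_add] at h4
            linarith
          have h1q : (1 : ℝ) / q ≤ 1 := by
            rw [div_le_one hqr]
            exact_mod_cast hq
          rw [add_div] at h3
          linarith
  have hsq : ‖a + b‖ ^ 2 ≤ 2 * ‖a‖ ^ 2 + 2 * ‖b‖ ^ 2 := by
    have h1 := norm_add_le a b
    have h2 : ‖a + b‖ ^ 2 ≤ (‖a‖ + ‖b‖) ^ 2 := pow_le_pow_left₀ (norm_nonneg _) h1 2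
    nlinarith [sq_nonneg (‖a‖ - ‖b‖)]
  have hb2 : ‖b‖ ^ 2 ≤ L ^ (2 * T) * (2 * X ^ 2 / q ^ 2 + 8) := by
    calc ‖b‖ ^ 2 ≤ (L ^ T * (X / q + 2)) ^ 2 := pow_le_pow_left₀ (norm_nonneg _) hbn 2
      _ = L ^ (2 * T) * (X / q + 2) ^ 2 := by rw [mul_pow, ← pow_mul, mul_comm T 2]
      _ ≤ L ^ (2 * T) * (2 * X ^ 2 / q ^ 2 + 8) := by
          apply mul_le_mul_of_nonneg_left _ (by positivity)
          have h5 : 2 * X ^ 2 / (q : ℝ) ^ 2 = 2 * (X / q) ^ 2 := by
            rw [div_pow]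
            ring
          rw [h5]
          nlinarith [sq_nonneg (X / q - 2)]
  linarith

lemma ratio (L : ℝ) (hL : 1 ≤ L) (a b c : ℕ) (h : a + c ≤ b) : L ^ a / L ^ b ≤ 1 / L ^ c := by
  have hL0 : 0 < L := by linarith
  rw [div_le_div_iff₀ (by positivity) (by positivity), one_mul, ← pow_add]
  exact pow_le_pow_right₀ hL h

lemma numerics (N L Q : ℝ) (A T V D0 A' B : ℕ) (hL : 224 ≤ L) (hN : 0 ≤ N) (hQ0 : 0 ≤ Q)
    (hQ : Q * L ^ B ≤ N) (hV : V = A + 2 * T + 2) (hD : D0 = A + V + 2 * T + 2) (hB : B = D0)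
    (hA : A' = A + V + D0 + 2) :
    2 * ((2 * L ^ V) * (2 * L * (L ^ D0 * (N / L ^ A') ^ 2 + 12 * (N / L ^ D0 + Q) * (N * L ^ (2 * T))))) +
      2 * (L ^ (2 * T) * (4 * L * (N / L ^ V) ^ 2 + 8 * Q ^ 2)) ≤ N ^ 2 / L ^ A := by
  have hL1 : 1 ≤ L := by linarith
  have hL0 : 0 < L := by linarith
  have hQ' : Q ≤ N / L ^ B := by
    rw [le_div_iff₀ (by positivity)]
    exact hQ
  have t1 : L ^ V * (L * (L ^ D0 * (N / L ^ A') ^ 2)) ≤ N ^ 2 * (1 / L ^ (A + 1)) := by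
    have e : L ^ V * (L * (L ^ D0 * (N / L ^ A') ^ 2)) = N ^ 2 * (L ^ (V + 1 + D0) / L ^ (2 * A')) := by
      rw [div_pow, ← pow_mul, mul_comm A' 2, pow_add, pow_add, pow_one]
      ring
    rw [e]
    exact mul_le_mul_of_nonneg_left (ratio L hL1 _ _ _ (by omega)) (by positivity)
  have t2 : L ^ V * (L * (N / L ^ D0 * (N * L ^ (2 * T)))) ≤ N ^ 2 * (1 / L ^ (A + 1)) := by
    have e : L ^ V * (L * (N / L ^ D0 * (N * L ^ (2 * T)))) = N ^ 2 * (L ^ (V + 1 + 2 * T) / L ^ D0) := by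
      rw [pow_add, pow_add, pow_one]
      ring
    rw [e]
    exact mul_le_mul_of_nonneg_left (ratio L hL1 _ _ _ (by omega)) (by positivity)
  have t3 : L ^ V * (L * (Q * (N * L ^ (2 * T)))) ≤ N ^ 2 * (1 / L ^ (A + 1)) := by
    have e0 : L ^ V * (L * (Q * (N * L ^ (2 * T)))) ≤ L ^ V * (L * (N / L ^ B * (N * L ^ (2 * T)))) := by
      gcongr
    have e : L ^ V * (L * (N / L ^ B * (N * L ^ (2 * T)))) = N ^ 2 * (L ^ (V + 1 + 2 * T) / L ^ B) := by
      rw [pow_add, pow_add, pow_one]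
      ring
    refine e0.trans ?_
    rw [e]
    exact mul_le_mul_of_nonneg_left (ratio L hL1 _ _ _ (by omega)) (by positivity)
  have t4 : L ^ (2 * T) * (L * (N / L ^ V) ^ 2) ≤ N ^ 2 * (1 / L ^ (A + 1)) := by
    have e : L ^ (2 * T) * (L * (N / L ^ V) ^ 2) = N ^ 2 * (L ^ (2 * T + 1) / L ^ (2 * V)) := by
      rw [div_pow, ← pow_mul, mul_comm V 2, pow_add, pow_one]
      ring
    rw [e]
    exact mul_le_mul_of_nonneg_left (ratio L hL1 _ _ _ (by omega)) (by positivity)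
  have t5 : L ^ (2 * T) * Q ^ 2 ≤ N ^ 2 * (1 / L ^ (A + 1)) := by
    have e0 : L ^ (2 * T) * Q ^ 2 ≤ L ^ (2 * T) * (N / L ^ B) ^ 2 := by
      gcongr
    have e : L ^ (2 * T) * (N / L ^ B) ^ 2 = N ^ 2 * (L ^ (2 * T) / L ^ (2 * B)) := by
      rw [div_pow, ← pow_mul, mul_comm B 2]
      ring
    refine e0.trans ?_
    rw [e]
    exact mul_le_mul_of_nonneg_left (ratio L hL1 _ _ _ (by omega)) (by positivity)
  have t6 : 224 * (N ^ 2 * (1 / L ^ (A + 1))) ≤ N ^ 2 / L ^ A := by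
    have e : N ^ 2 / L ^ A = L * (N ^ 2 * (1 / L ^ (A + 1))) := by
      rw [pow_succ L A]
      field_simp
    rw [e]
    exact mul_le_mul_of_nonneg_right hL (by positivity)
  have e : 2 * ((2 * L ^ V) * (2 * L * (L ^ D0 * (N / L ^ A') ^ 2 + 12 * (N / L ^ D0 + Q) * (N * L ^ (2 * T))))) +
      2 * (L ^ (2 * T) * (4 * L * (N / L ^ V) ^ 2 + 8 * Q ^ 2)) =
      8 * (L ^ V * (L * (L ^ D0 * (N / L ^ A') ^ 2))) + 96 * (L ^ V * (L * (N / L ^ D0 * (N * L ^ (2 * T))))) +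
      96 * (L ^ V * (L * (Q * (N * L ^ (2 * T))))) + 8 * (L ^ (2 * T) * (L * (N / L ^ V) ^ 2)) +
      16 * (L ^ (2 * T) * Q ^ 2) := by ring
  rw [e]
  linarith

theorem main : S_BDH := by
  intro A T
  set V : ℕ := A + 2 * T + 2 with hV
  set D0 : ℕ := A + V + 2 * T + 2 with hD0
  set A' : ℕ := A + V + D0 + 2 with hA'
  refine ⟨A', D0, ⌈Real.exp 224⌉₊, ?_⟩
  intro N hN Q hQ v hv hs y hy
  have hNe : Real.exp 224 ≤ N := (Nat.le_ceil _).trans (by exact_mod_cast hN)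
  have hNpos : (0 : ℝ) < N := (Real.exp_pos _).trans_le hNe
  have hL : 224 ≤ Real.log N := by
    rw [Real.le_log_iff_exp_le hNpos]
    exact hNe
  set L := Real.log N with hLdef
  have hL1 : 1 ≤ L := by linarith
  have hL0 : 0 < L := by linarith
  have hQN : (Q : ℝ) ≤ N := by
    have h1 : (1 : ℝ) ≤ L ^ D0 := one_le_pow₀ hL1
    have h2 : (Q : ℝ) * 1 ≤ Q * L ^ D0 := mul_le_mul_of_nonneg_left h1 (by positivity)
    linarith
  have hlQ : 1 + Real.log Q ≤ 2 * L := by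
    rcases Nat.eq_zero_or_pos Q with h0 | h0
    · rw [h0]
      simp
      linarith
    · have h1 : Real.log Q ≤ L := Real.log_le_log (by exact_mod_cast h0) hQN
      linarith
  set X : ℝ := (N : ℝ) / L ^ V with hX
  have hX0 : 0 < X := by positivity
  set h : ℕ := ⌈X⌉₊ with hh
  have hh0 : 0 < h := Nat.ceil_pos.2 hX0
  have hh1 : X ≤ h := Nat.le_ceil _
  have hh2 : (h : ℝ) ≤ X + 1 := (Nat.ceil_lt_add_one hX0.le).le
  set G : ℕ := N / h with hG
  have hG1 : ((G + 1 : ℕ) : ℝ) ≤ 2 * L ^ V := by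
    have h1 : (G : ℝ) ≤ L ^ V := by
      calc (G : ℝ) ≤ (N : ℝ) / h := Nat.cast_div_le
        _ ≤ (N : ℝ) / X := div_le_div_of_nonneg_left hNpos.le hX0 hh1
        _ = L ^ V := by
            rw [hX]
            field_simp
    have h2 : (1 : ℝ) ≤ L ^ V := one_le_pow₀ hL1
    push_cast
    linarith
  have step1 : ∑ q ∈ Icc 1 Q, ∑ r ∈ range q, ‖CS v (y q r) q r‖ ^ 2 ≤
      2 * (∑ q ∈ Icc 1 Q, ∑ r ∈ range q, ‖CS v (h * (y q r / h)) q r‖ ^ 2) +
      2 * ∑ q ∈ Icc 1 Q, ∑ r ∈ range q, (L ^ (2 * T) * (2 * X ^ 2 / q ^ 2 + 8)) := by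
    rw [mul_sum, mul_sum, ← sum_add_distrib]
    apply sum_le_sum
    intro q hq
    rw [mem_Icc] at hq
    rw [mul_sum, mul_sum, ← sum_add_distrib]
    apply sum_le_sum
    intro r hr
    rw [mem_range] at hr
    exact cell v N T q r (y q r) h L X hL1 hv (by omega) hr (hy q r) hh0 hh2
  set K : ℝ := 2 * L * (L ^ D0 * ((N : ℝ) / L ^ A') ^ 2 + 12 * ((N : ℝ) / L ^ D0 + Q) * (N * L ^ (2 * T))) with hK
  have hK0 : 0 ≤ K := by positivity
  have step2 : ∑ q ∈ Icc 1 Q, ∑ r ∈ range q, ‖CS v (h * (y q r / h)) q r‖ ^ 2 ≤ (2 * L ^ V) * K := by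
    calc ∑ q ∈ Icc 1 Q, ∑ r ∈ range q, ‖CS v (h * (y q r / h)) q r‖ ^ 2
        ≤ ∑ q ∈ Icc 1 Q, ∑ r ∈ range q, ∑ g ∈ range (G + 1), ‖CS v (h * g) q r‖ ^ 2 := by
          apply sum_le_sum
          intro q _
          apply sum_le_sum
          intro r _
          have hmem : y q r / h ∈ range (G + 1) := by
            rw [mem_range]
            exact Nat.lt_succ_of_le (Nat.div_le_div_right (hy q r))
          exact single_le_sum (f := fun g => ‖CS v (h * g) q r‖ ^ 2) (fun g _ => by positivity) hmem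
      _ = ∑ g ∈ range (G + 1), ∑ q ∈ Icc 1 Q, ∑ r ∈ range q, ‖CS v (h * g) q r‖ ^ 2 := by
          rw [sum_comm]
          apply sum_congr rfl
          intro q _
          rw [sum_comm]
      _ ≤ ∑ g ∈ range (G + 1), K := by
          apply sum_le_sum
          intro g hg
          rw [mem_range] at hg
          have hgN : h * g ≤ N := by
            calc h * g ≤ h * G := Nat.mul_le_mul_left _ (by omega)
              _ ≤ N := Nat.mul_div_le N h
          exact fixed_y N D0 A' T Q (h * g) L hL1 v hgN hlQ (by omega) hv hs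
      _ = ((G + 1 : ℕ) : ℝ) * K := by rw [sum_const, card_range, nsmul_eq_mul]
      _ ≤ _ := mul_le_mul_of_nonneg_right hG1 hK0
  have step3 : ∑ q ∈ Icc 1 Q, ∑ r ∈ range q, (L ^ (2 * T) * (2 * X ^ 2 / q ^ 2 + 8)) ≤
      L ^ (2 * T) * (4 * L * X ^ 2 + 8 * (Q : ℝ) ^ 2) := by
    calc ∑ q ∈ Icc 1 Q, ∑ r ∈ range q, (L ^ (2 * T) * (2 * X ^ 2 / q ^ 2 + 8))
        ≤ ∑ q ∈ Icc 1 Q, L ^ (2 * T) * (2 * X ^ 2 * (1 / (q : ℝ)) + 8 * Q) := by
          apply sum_le_sum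
          intro q hq
          rw [mem_Icc] at hq
          have hqr : (0 : ℝ) < q := by exact_mod_cast hq.1
          have hqQ : (q : ℝ) ≤ Q := by exact_mod_cast hq.2
          rw [sum_const, card_range, nsmul_eq_mul]
          have e : (q : ℝ) * (L ^ (2 * T) * (2 * X ^ 2 / q ^ 2 + 8)) =
              L ^ (2 * T) * (2 * X ^ 2 * (1 / (q : ℝ)) + 8 * q) := by
            field_simp
          rw [e]
          apply mul_le_mul_of_nonneg_left _ (by positivity)
          linarith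
      _ = L ^ (2 * T) * (2 * X ^ 2 * ∑ q ∈ Icc 1 Q, (1 / (q : ℝ)) + Q * (8 * Q)) := by
          rw [← mul_sum, sum_add_distrib, ← mul_sum, sum_const, Nat.card_Icc, nsmul_eq_mul]
          simp
      _ ≤ _ := by
          apply mul_le_mul_of_nonneg_left _ (by positivity)
          have h1 : 2 * X ^ 2 * ∑ q ∈ Icc 1 Q, (1 / (q : ℝ)) ≤ 2 * X ^ 2 * (2 * L) :=
            mul_le_mul_of_nonneg_left ((harm Q).trans hlQ) (by positivity)
          nlinarith [h1]
  have hnum := numerics N L Q A T V D0 A' D0 hL hNpos.le (by positivity) hQ hV hD0 rfl hA'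
  calc ∑ q ∈ Icc 1 Q, ∑ r ∈ range q, ‖∑ n ∈ (Icc 1 (y q r)).filter (fun n => n % q = r), v n‖ ^ 2
      = ∑ q ∈ Icc 1 Q, ∑ r ∈ range q, ‖CS v (y q r) q r‖ ^ 2 := rfl
    _ ≤ 2 * ((2 * L ^ V) * K) + 2 * (L ^ (2 * T) * (4 * L * X ^ 2 + 8 * (Q : ℝ) ^ 2)) := by
        linarith
    _ ≤ _ := hnum

end Pool.Agent.helper24_UT.Bdh
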