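/-
UT_DIL   (project UT of helper24: primes at almost all systems of polynomials; very_famous ids, partial results)
TARGET: prove the theorem at the end. Its statement uses the definitions in the modules Pool/Agent/helper24_UT/Stm.lean, Stm2.lean, Stm5.lean, Stm7.lean, Stm8.lean, Stm9.lean, Stm11.lean, Stm12.lean, Stm13.lean, Stm14.lean, Stm15.lean
(on origin/main; `git -C /workdir/pool/outputs/live pull`, then copy these files and the starting modules they import
to the same paths under /workdir/pool). You may import Mathlib and ANY starting module (copy it with its closure from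
outputs/live). READ the statement files first.
If the file named below helps, copy from it or import it. Put helper lemmas in the namespace below, do not change the target statement, no sorry, no native_decide, no new axioms,
no straight double quotes in the file. Paste the full proved file back as the result. If the statement is false or a
constant does not work out, set status='problem' and say exactly why.

PLAIN PROOF
L = log X. For fixed a (1 <= a <= L^C) write x = a x' + rho, 0 <= rho < a (Int.ediv, Int.emod). The multiples m = a m' in (x, x+K] are those with x' < m' <= x' + K', K' := (rho + K)/a (floor), Y1 < a m' <= Y2 iff floor(Y1/a) < m' <= floor(Y2/a) (Int.ediv), m/a = m', ee(m alpha) = ee(m' (a alpha)). So the sum sw is sw (Ed z restricted to (Y1/a, Y2/a]) K' x' (a alpha).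
For each rho S_MKT (2e, A1) at X with K' (K' >= K/a - 1 >= X^(theta + 1/(2e)), K' <= X if a >= 1: (rho + K)/a <= X as K <= X, rho <= a - 1: (K + a - 1)/a <= K for K >= 1) : sum over x' in [-X, X] <= X K'^2/L^A1, K' <= 2K/a + 1... <= 2K (crude); sum over rho < a <= L^C: <= L^C X 4K^2/L^A1 <= X K^2/L^A.
For x in [-X, X], x' is in [-X, X].
-/
import Pool.Agent.helper24_UT.Stm15

set_option autoImplicit false

namespace Pool.Agent.helper24_UT.Dil

open Finset Polynomial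
open Pool.Agent.helper24_UT
open Pool.Agent.H373R2.T7 (lamI lamzI lamz Vz pz lamP)
open Pool.Agent.H807R2.Dav (ee)

theorem sw_dil (z a K : ℕ) (ha : 1 ≤ a) (x Y₁ Y₂ : ℤ) (α : ℝ) (ρ : ℕ) (hρ : x % (a : ℤ) = (ρ : ℤ)) :
    sw (fun m => if (a : ℤ) ∣ m ∧ Y₁ < m ∧ m ≤ Y₂ then Ed z (m / a) else 0) K x α =
    sw (fun m => if Y₁ / (a : ℤ) < m ∧ m ≤ Y₂ / (a : ℤ) then Ed z m else 0) ((ρ + K) / a) (x / (a : ℤ)) (a * α) := by
  have ha0 : (0 : ℤ) < (a : ℤ) := by exact_mod_cast ha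
  have hx : (a : ℤ) * (x / (a : ℤ)) + (ρ : ℤ) = x := by
    rw [← hρ]
    exact Int.mul_ediv_add_emod x a
  have hρ0 : (0 : ℤ) ≤ (ρ : ℤ) := Int.natCast_nonneg _
  have hρa : (ρ : ℤ) < (a : ℤ) := by
    rw [← hρ]
    exact Int.emod_lt_of_pos x ha0
  have hinj : Set.InjOn (fun m' : ℤ => (a : ℤ) * m')
      (Ioc (x / (a : ℤ)) (x / (a : ℤ) + (((ρ + K) / a : ℕ) : ℤ)) : Finset ℤ) := by
    intro u _ v _ h
    exact mul_left_cancel₀ ha0.ne' h
  have hK : (((ρ + K) / a : ℕ) : ℤ) = ((ρ : ℤ) + K) / (a : ℤ) := by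
    push_cast
    rfl
  unfold sw
  have h1 : ∑ m ∈ Ioc x (x + (K : ℤ)),
      (((if (a : ℤ) ∣ m ∧ Y₁ < m ∧ m ≤ Y₂ then Ed z (m / a) else 0 : ℝ)) : ℂ) * ee (m * α) =
      ∑ m ∈ (Ioc (x / (a : ℤ)) (x / (a : ℤ) + (((ρ + K) / a : ℕ) : ℤ))).image (fun m' : ℤ => (a : ℤ) * m'),
      (((if (a : ℤ) ∣ m ∧ Y₁ < m ∧ m ≤ Y₂ then Ed z (m / a) else 0 : ℝ)) : ℂ) * ee (m * α) := by
    symm
    apply Finset.sum_subset
    · intro m hm
      rw [Finset.mem_image] at hm
      obtain ⟨m', hm', rfl⟩ := hm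
      rw [Finset.mem_Ioc] at hm' ⊢
      obtain ⟨h1, h2⟩ := hm'
      constructor
      · have : (a : ℤ) * (x / (a : ℤ) + 1) ≤ (a : ℤ) * m' := mul_le_mul_of_nonneg_left (by omega) ha0.le
        rw [mul_add, mul_one] at this
        omega
      · have h3 : m' - x / (a : ℤ) ≤ ((ρ : ℤ) + K) / (a : ℤ) := by
          rw [hK] at h2
          omega
        rw [Int.le_ediv_iff_mul_le ha0] at h3
        rw [sub_mul] at h3
        rw [mul_comm m', mul_comm (x / (a : ℤ))] at h3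
        omega
    · intro m hm hm'
      rw [if_neg]
      · simp
      · rintro ⟨⟨c, rfl⟩, _, _⟩
        apply hm'
        rw [Finset.mem_image]
        refine ⟨c, ?_, rfl⟩
        rw [Finset.mem_Ioc] at hm ⊢
        obtain ⟨h1, h2⟩ := hm
        constructor
        · by_contra hcon
          have : (a : ℤ) * c ≤ (a : ℤ) * (x / (a : ℤ)) := mul_le_mul_of_nonneg_left (by omega) ha0.le
          omega
        · have h3 : c - x / (a : ℤ) ≤ ((ρ : ℤ) + K) / (a : ℤ) := by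
            rw [Int.le_ediv_iff_mul_le ha0, sub_mul, mul_comm c, mul_comm (x / (a : ℤ))]
            omega
          rw [hK]
          omega
  rw [h1, Finset.sum_image hinj]
  apply Finset.sum_congr rfl
  intro m' _
  have h4 : ((a : ℤ) ∣ (a : ℤ) * m' ∧ Y₁ < (a : ℤ) * m' ∧ (a : ℤ) * m' ≤ Y₂) ↔
      (Y₁ / (a : ℤ) < m' ∧ m' ≤ Y₂ / (a : ℤ)) := by
    rw [Int.ediv_lt_iff_lt_mul ha0, Int.le_ediv_iff_mul_le ha0, mul_comm m']
    constructor
    · rintro ⟨_, h, h'⟩
      exact ⟨h, h'⟩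
    · rintro ⟨h, h'⟩
      exact ⟨dvd_mul_right _ _, h, h'⟩
  have h5 : ((a : ℤ) * m') / (a : ℤ) = m' := Int.mul_ediv_cancel_left m' ha0.ne'
  have h6 : (((a : ℤ) * m' : ℤ) : ℝ) * α = (m' : ℝ) * ((a : ℝ) * α) := by
    push_cast
    ring
  dsimp only
  by_cases hc : (Y₁ / (a : ℤ) < m' ∧ m' ≤ Y₂ / (a : ℤ))
  · rw [if_pos hc, if_pos (h4.2 hc), h5, h6]
  · rw [if_neg hc, if_neg (fun h => hc (h4.1 h))]
    simp

theorem main : ∀ θ : ℝ, 0 ≤ θ → S_MKT θ → S_DIL θ := by
  intro θ hθ hM e A C he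
  obtain ⟨E₀, hE₀⟩ := hM (2 * e) (A + C) (by omega)
  refine ⟨E₀, fun E₁ => ?_⟩
  obtain ⟨X₀, hX₀⟩ := hE₀ E₁
  have he0 : (0 : ℝ) < (e : ℝ) := by exact_mod_cast he
  have hs : (0 : ℝ) < 1 / (2 * (e : ℝ)) := by positivity
  have hlog := (isLittleO_log_rpow_rpow_atTop (C : ℝ) hs).bound (show (0 : ℝ) < 1 / 2 by norm_num)
  rw [Filter.eventually_atTop] at hlog
  obtain ⟨X₁, hX₁⟩ := hlog
  refine ⟨max X₀ (max 3 ⌈X₁⌉₊), ?_⟩
  intro X hX z hz1 hz2 K hK1 hK2 a ha1 ha2 Y₁ Y₂ α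
  have hXX₀ : X₀ ≤ X := le_trans (le_max_left _ _) hX
  have hX3 : 3 ≤ X := le_trans (le_trans (le_max_left _ _) (le_max_right _ _)) hX
  have hXX₁ : X₁ ≤ (X : ℝ) := by
    have : ⌈X₁⌉₊ ≤ X := le_trans (le_trans (le_max_right _ _) (le_max_right _ _)) hX
    exact le_trans (Nat.le_ceil _) (by exact_mod_cast this)
  have hX1 : (1 : ℝ) ≤ (X : ℝ) := by exact_mod_cast (by omega : 1 ≤ X)
  have hX0 : (0 : ℝ) < (X : ℝ) := by linarith
  have hL0 : 0 < Real.log X := Real.log_pos (by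
    have : (3 : ℝ) ≤ (X : ℝ) := by exact_mod_cast hX3
    linarith)
  have hLC : 2 * (Real.log X) ^ C ≤ (X : ℝ) ^ (1 / (2 * (e : ℝ))) := by
    have h := hX₁ X hXX₁
    rw [Real.rpow_natCast, Real.norm_of_nonneg (by positivity), Real.norm_of_nonneg (by positivity)] at h
    linarith
  have hLCpos : 0 < (Real.log X) ^ C := by positivity
  have hP1 : (1 : ℝ) ≤ (X : ℝ) ^ (θ + 1 / ((2 * e : ℕ) : ℝ)) :=
    Real.one_le_rpow hX1 (by positivity)
  have ha0 : (0 : ℝ) < (a : ℝ) := by exact_mod_cast ha1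
  have ha0' : (0 : ℤ) < (a : ℤ) := by exact_mod_cast ha1
  -- lower bound for K / a
  have hKa : (X : ℝ) ^ (θ + 1 / ((2 * e : ℕ) : ℝ)) + 1 ≤ (K : ℝ) / a := by
    rw [le_div_iff₀ ha0]
    have h1 : (X : ℝ) ^ (θ + 1 / (e : ℝ)) = (X : ℝ) ^ (θ + 1 / ((2 * e : ℕ) : ℝ)) *
        (X : ℝ) ^ (1 / (2 * (e : ℝ))) := by
      rw [← Real.rpow_add hX0]
      congr 1
      push_cast
      field_simp
      ring
    have h2 : (X : ℝ) ^ (θ + 1 / ((2 * e : ℕ) : ℝ)) * (2 * (Real.log X) ^ C) ≤ (K : ℝ) := by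
      refine le_trans ?_ hK1
      rw [h1]
      exact mul_le_mul_of_nonneg_left hLC (by positivity)
    calc ((X : ℝ) ^ (θ + 1 / ((2 * e : ℕ) : ℝ)) + 1) * a
        ≤ ((X : ℝ) ^ (θ + 1 / ((2 * e : ℕ) : ℝ)) + 1) * (Real.log X) ^ C :=
          mul_le_mul_of_nonneg_left ha2 (by positivity)
      _ ≤ ((X : ℝ) ^ (θ + 1 / ((2 * e : ℕ) : ℝ)) + (X : ℝ) ^ (θ + 1 / ((2 * e : ℕ) : ℝ))) *
          (Real.log X) ^ C := mul_le_mul_of_nonneg_right (by linarith) hLCpos.le
      _ = (X : ℝ) ^ (θ + 1 / ((2 * e : ℕ) : ℝ)) * (2 * (Real.log X) ^ C) := by ring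
      _ ≤ K := h2
  have hKpos : 1 ≤ K := by
    by_contra hcon
    have : K = 0 := by omega
    rw [this, Nat.cast_zero, zero_div] at hKa
    linarith [hP1]
  -- fibres
  have hfib : ∀ ρ ∈ range a, ∑ x ∈ (Icc (-(X : ℤ)) X).filter (fun x : ℤ => (x % (a : ℤ)).toNat = ρ),
      ‖sw (fun m => if (a : ℤ) ∣ m ∧ Y₁ < m ∧ m ≤ Y₂ then Ed z (m / a) else 0) K x α‖ ^ 2 ≤
      X * (K : ℝ) ^ 2 / (Real.log X) ^ (A + C) := by
    intro ρ hρ
    rw [Finset.mem_range] at hρ
    have hcong : ∀ x ∈ (Icc (-(X : ℤ)) X).filter (fun x : ℤ => (x % (a : ℤ)).toNat = ρ),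
        ‖sw (fun m => if (a : ℤ) ∣ m ∧ Y₁ < m ∧ m ≤ Y₂ then Ed z (m / a) else 0) K x α‖ ^ 2 =
        ‖sw (fun m => if Y₁ / (a : ℤ) < m ∧ m ≤ Y₂ / (a : ℤ) then Ed z m else 0) ((ρ + K) / a)
          (x / (a : ℤ)) (a * α)‖ ^ 2 := by
      intro x hx
      rw [Finset.mem_filter] at hx
      rw [sw_dil z a K ha1 x Y₁ Y₂ α ρ]
      have := Int.emod_nonneg x ha0'.ne'
      omega
    rw [Finset.sum_congr rfl hcong]
    have hinj : Set.InjOn (fun x : ℤ => x / (a : ℤ))
        ((Icc (-(X : ℤ)) X).filter (fun x : ℤ => (x % (a : ℤ)).toNat = ρ) : Finset ℤ) := by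
      intro x hx y hy hxy
      simp only [Finset.coe_filter, Set.mem_setOf_eq] at hx hy
      have h1 := Int.mul_ediv_add_emod x a
      have h2 := Int.mul_ediv_add_emod y a
      have h3 := Int.emod_nonneg x ha0'.ne'
      have h4 := Int.emod_nonneg y ha0'.ne'
      have h5 : x % (a : ℤ) = y % (a : ℤ) := by omega
      have h6 : x / (a : ℤ) = y / (a : ℤ) := hxy
      rw [h6, h5] at h1
      exact h1.symm.trans h2
    have himg := Finset.sum_image (f := fun y : ℤ =>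
      ‖sw (fun m => if Y₁ / (a : ℤ) < m ∧ m ≤ Y₂ / (a : ℤ) then Ed z m else 0) ((ρ + K) / a)
          y (a * α)‖ ^ 2) hinj
    rw [← himg]
    have hsub : ((Icc (-(X : ℤ)) X).filter (fun x : ℤ => (x % (a : ℤ)).toNat = ρ)).image
        (fun x : ℤ => x / (a : ℤ)) ⊆ Icc (-(X : ℤ)) X := by
      intro y hy
      rw [Finset.mem_image] at hy
      obtain ⟨x, hx, rfl⟩ := hy
      rw [Finset.mem_filter, Finset.mem_Icc] at hx
      rw [Finset.mem_Icc]
      obtain ⟨⟨h1, h2⟩, _⟩ := hx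
      constructor
      · rw [Int.le_ediv_iff_mul_le ha0']
        have : (X : ℤ) * 1 ≤ (X : ℤ) * a := mul_le_mul_of_nonneg_left (by omega) (by omega)
        rw [neg_mul]
        omega
      · rcases le_or_gt 0 x with h0 | h0
        · exact le_trans (Int.ediv_le_self _ h0) h2
        · have : x / (a : ℤ) < 0 := Int.ediv_neg_of_neg_of_pos h0 ha0'
          omega
    refine (Finset.sum_le_sum_of_subset_of_nonneg hsub (fun _ _ _ => by positivity)).trans ?_
    have hK'up : (ρ + K) / a ≤ K := by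
      apply Nat.div_le_of_le_mul
      have : a * K = K + (a - 1) * K := by
        obtain ⟨b, rfl⟩ : ∃ b, a = b + 1 := ⟨a - 1, by omega⟩
        simp
        ring
      rw [this]
      have h2 : (a - 1) * 1 ≤ (a - 1) * K := Nat.mul_le_mul_left _ hKpos
      omega
    have hK'low : (X : ℝ) ^ (θ + 1 / ((2 * e : ℕ) : ℝ)) ≤ (((ρ + K) / a : ℕ) : ℝ) := by
      have h1 : K / a ≤ (ρ + K) / a := Nat.div_le_div_right (by omega)
      have h2 : (K : ℝ) / a < ((K / a : ℕ) : ℝ) + 1 := by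
        rw [div_lt_iff₀ ha0]
        have h3 := Nat.lt_div_mul_add (a := K) ha1
        have h4 : K < (K / a + 1) * a := by
          rw [add_mul, one_mul]
          exact h3
        exact_mod_cast h4
      have h3 : ((K / a : ℕ) : ℝ) ≤ (((ρ + K) / a : ℕ) : ℝ) := by exact_mod_cast h1
      linarith
    have hmain := hX₀ X hXX₀ z hz1 hz2 ((ρ + K) / a) hK'low (hK'up.trans hK2) (Y₁ / (a : ℤ))
      (Y₂ / (a : ℤ)) (a * α)
    refine hmain.trans ?_
    apply div_le_div_of_nonneg_right _ (by positivity)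
    apply mul_le_mul_of_nonneg_left _ hX0.le
    have : (((ρ + K) / a : ℕ) : ℝ) ≤ (K : ℝ) := by exact_mod_cast hK'up
    exact pow_le_pow_left₀ (by positivity) this 2
  have hmaps : ∀ x ∈ Icc (-(X : ℤ)) X, (x % (a : ℤ)).toNat ∈ range a := by
    intro x _
    rw [Finset.mem_range]
    have h1 := Int.emod_nonneg x ha0'.ne'
    have h2 := Int.emod_lt_of_pos x ha0'
    omega
  rw [← Finset.sum_fiberwise_of_maps_to hmaps]
  refine (Finset.sum_le_sum hfib).trans ?_
  rw [Finset.sum_const, Finset.card_range, nsmul_eq_mul]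
  rw [pow_add, ← div_div, mul_div_assoc']
  rw [div_le_iff₀ hLCpos, mul_comm]
  exact mul_le_mul_of_nonneg_left ha2 (by positivity)

end Pool.Agent.helper24_UT.Dil
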