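import Pool.Agent.helper24_UT.Stm13
import Pool.Agent.helper24_UT.Inp

set_option autoImplicit false

namespace Pool.Agent.helper24_UT.Inp4

open Finset Polynomial
open Pool.Agent.helper24_UT
open Pool.Agent.helper24_UT.Inp (abel prod_cmp asy1 asy2 log_cmp small_sum inv_log_int lamP_le_log)
open Pool.Agent.H373R2.T7 (lamI lamzI lamz Vz pz lamP)
open Pool.Agent.H807R2.Dav (ee)

open Pool.Agent.H373R2.T7 (lamP_nonneg) in
theorem core (k e A m : ℕ) (he : 1 ≤ e) (H : ℕ) (hH4 : 4 ≤ H)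
    (c1 : (8 : ℝ) * e ≤ Real.log H) (c2 : (100 : ℝ) * 2 ^ k ≤ Real.log H)
    (c3 : Real.log H ^ (A + 3 * k + 21) ≤ Real.exp (Real.log H / (2 * e)))
    (c4 : 26 * 5 ^ k * Real.log H ^ (3 * A + 7 * k + 42) * Real.exp (Real.log H ^ (1 / (m + 1) : ℝ)) ≤
      Real.exp (Real.log H ^ (1 / m : ℝ)))
    (y : ℕ) (hy1 : Real.exp (Real.log H ^ (1 / m : ℝ)) ≤ y) (hy2 : y ≤ H ^ 2) (Q b : Fin k → ℕ) (F : Fin k → ℕ → ℤ) (S : ℝ)
    (h1 : ∀ i, (H : ℝ) ^ (1 / e : ℝ) ≤ Q i ∧ b i ≤ H ∧ (Q i : ℝ) / Real.log H ^ (A + 3 * k + 21) ≤ b i)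
    (h2 : ∀ i, ∀ n ∈ Icc 1 y, |((F i n - b i * n : ℤ) : ℝ)| * Real.log H ^ (2 * A + 6 * k + 40) ≤
      Q i * (n + 2 * Real.log H ^ (2 * A + 6 * k + 40)))
    (h3 : 0 ≤ S) (h3' : S ≤ Real.log H ^ (k + 2))
    (h4 : ∀ t : ℕ, Real.exp (Real.log H ^ (1 / (m + 1) : ℝ)) ≤ t → t ≤ y →
      |∑ n ∈ Icc 1 t, lamP (n : ℤ) * ∏ i, lamP (F i n) - t * S| ≤ t / Real.log H ^ (A + 3 * k + 20)) :
    |((open Classical in ((Icc 1 y).filter (fun n => n.Prime ∧ ∀ i, (F i n).natAbs.Prime)).card : ℕ) : ℝ) -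
      S * (∑ n ∈ Icc 2 y, 1 / Real.log n * ∏ i, 1 / Real.log (abs ((F i n : ℤ) : ℝ)))| ≤ y / Real.log H ^ A := by
  classical
  set L : ℝ := Real.log H with hL
  have he0 : (1 : ℝ) ≤ e := by exact_mod_cast he
  have hL8 : 8 ≤ L := by linarith
  have hL1 : 1 ≤ L := by linarith
  have hL0 : 0 < L := by linarith
  have hH4' : (4 : ℝ) ≤ H := by exact_mod_cast hH4
  have hH0 : (0 : ℝ) < H := by linarith
  have hHexp : Real.exp L = H := Real.exp_log hH0
  have pw : ∀ a c : ℕ, a ≤ c → L ^ a ≤ L ^ c := fun a c h => pow_le_pow_right₀ hL1 h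
  have pw1 : ∀ a : ℕ, 1 ≤ L ^ a := fun a => one_le_pow₀ hL1
  have pw0 : ∀ a : ℕ, 0 < L ^ a := fun a => pow_pos hL0 a
  obtain ⟨E, hE⟩ : ∃ E : ℝ, E = Real.exp (L ^ (1 / (m + 1) : ℝ)) := ⟨_, rfl⟩
  rw [← hE] at c4 h4
  have hE1 : 1 ≤ E := by
    rw [hE]; exact Real.one_le_exp (Real.rpow_nonneg hL0.le _)
  have hyE : 26 * 5 ^ k * L ^ (3 * A + 7 * k + 42) * E ≤ y := c4.trans hy1
  -- lower bounds for `b i`
  have hb1 : ∀ i, Real.exp (L / (2 * e)) ≤ b i := by
    intro i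
    refine le_trans ?_ (h1 i).2.2
    rw [le_div_iff₀ (pw0 _)]
    refine le_trans ?_ (h1 i).1
    rw [Real.rpow_def_of_pos hH0]
    calc Real.exp (L / (2 * e)) * L ^ (A + 3 * k + 21) ≤ Real.exp (L / (2 * e)) * Real.exp (L / (2 * e)) :=
          mul_le_mul_of_nonneg_left c3 (Real.exp_pos _).le
      _ = Real.exp (Real.log H * (1 / e)) := by
          rw [← Real.exp_add, ← hL]; congr 1; field_simp; ring
  have hb0 : ∀ i, (0 : ℝ) < b i := fun i => lt_of_lt_of_le (Real.exp_pos _) (hb1 i)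
  have hblog : ∀ i, 4 ≤ Real.log (b i) := by
    intro i
    have h5 : L / (2 * e) ≤ Real.log (b i) := (Real.le_log_iff_exp_le (hb0 i)).2 (hb1 i)
    refine le_trans ?_ h5
    rw [le_div_iff₀ (by positivity)]
    linarith
  have hQb : ∀ i, (Q i : ℝ) ≤ b i * L ^ (A + 3 * k + 21) := by
    intro i
    have := (h1 i).2.2
    rwa [div_le_iff₀ (pw0 _)] at this
  have hblog2 : ∀ i, ∀ n : ℕ, 1 ≤ n → 4 ≤ Real.log ((b i : ℝ) * n) := by
    intro i n hn
    refine (hblog i).trans (Real.log_le_log (hb0 i) ?_)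
    have : (1 : ℝ) ≤ n := by exact_mod_cast hn
    nlinarith [hb0 i]
  -- comparison for large `n`
  obtain ⟨P, hP⟩ : ∃ P : ℝ, P = L ^ (A + 3 * k + 19) := ⟨_, rfl⟩
  have hPL : L ≤ P := by rw [hP]; calc L = L ^ 1 := (pow_one L).symm
      _ ≤ _ := pw _ _ (by omega)
  have hP0 : 0 < P := by linarith
  have hM : L ^ (2 * A + 6 * k + 40) = L ^ (A + 3 * k + 21) * P := by
    rw [hP, ← pow_add]; congr 1; ring
  have hcl : ∀ i, ∀ n ∈ Icc 1 y, L ^ (2 * A + 6 * k + 40) ≤ n → |((F i n : ℤ) : ℝ) - (b i : ℝ) * n| ≤ 3 / P * ((b i : ℝ) * n) := by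
    intro i n hn hnM
    have h5 := h2 i n hn
    push_cast at h5
    have h6 : |((F i n : ℤ) : ℝ) - (b i : ℝ) * n| * L ^ (2 * A + 6 * k + 40) ≤ (b i * L ^ (A + 3 * k + 21)) * (3 * n) := by
      refine h5.trans ?_
      refine mul_le_mul (hQb i) (by linarith) ?_ (mul_nonneg (hb0 i).le (pw0 _).le)
      have := pw0 (2 * A + 6 * k + 40); positivity
    rw [hM] at h6
    have h7 : L ^ (A + 3 * k + 21) * (|((F i n : ℤ) : ℝ) - (b i : ℝ) * n| * P) ≤ L ^ (A + 3 * k + 21) * (3 * ((b i : ℝ) * n)) := by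
      linarith
    have h8 := le_of_mul_le_mul_left h7 (pw0 _)
    rw [div_mul_eq_mul_div, le_div_iff₀ hP0]
    exact h8
  have hδ : 3 / P ≤ 1 / 2 := by rw [div_le_iff₀ hP0]; linarith
  have hδ0 : 0 ≤ 3 / P := by positivity
  have hcmp : ∀ i, ∀ n ∈ Icc 2 y, L ^ (2 * A + 6 * k + 40) ≤ n → (b i : ℝ) * n / 2 ≤ F i n ∧
      1 ≤ Real.log (F i n) ∧ |Real.log (F i n) / Real.log ((b i : ℝ) * n) - 1| ≤ 2 * (3 / P) ∧
      |Real.log ((b i : ℝ) * n) / Real.log (F i n) - 1| ≤ 2 * (3 / P) := by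
    intro i n hn hnM
    rw [mem_Icc] at hn
    have hn0 : (0 : ℝ) < n := by exact_mod_cast (by omega : 0 < n)
    exact log_cmp _ _ _ (mul_pos (hb0 i) hn0) hδ0 hδ (hcl i n (mem_Icc.2 ⟨by omega, hn.2⟩) hnM)
      (by linarith [hblog2 i n (by omega)])
  -- crude bounds
  have hFcr : ∀ i, ∀ n ∈ Icc 1 y, ((F i n : ℤ) : ℝ) ≤ (H : ℝ) ^ 5 := by
    intro i n hn
    have h5 := h2 i n hn
    push_cast at h5
    rw [mem_Icc] at hn
    have hn1 : (1 : ℝ) ≤ n := by exact_mod_cast hn.1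
    have hnH : (n : ℝ) ≤ H * H := by
      have q := hn.2.trans hy2
      rw [pow_two] at q
      exact_mod_cast q
    have hbH : (b i : ℝ) ≤ H := by exact_mod_cast (h1 i).2.1
    have hLH : L ^ (A + 3 * k + 21) ≤ H := by
      refine c3.trans ?_
      rw [← hHexp]
      apply Real.exp_le_exp.2
      rw [div_le_iff₀ (by positivity)]
      nlinarith
    have hQH : (Q i : ℝ) ≤ H * H := (hQb i).trans (mul_le_mul hbH hLH (pw0 _).le hH0.le)
    have h6 : |((F i n : ℤ) : ℝ) - (b i : ℝ) * n| * L ^ (2 * A + 6 * k + 40) ≤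
        ((H * H) * (3 * (H * H))) * L ^ (2 * A + 6 * k + 40) := by
      refine h5.trans ?_
      rw [mul_assoc]
      refine mul_le_mul hQH ?_ ?_ (by positivity)
      · have := pw1 (2 * A + 6 * k + 40)
        nlinarith
      · have := pw0 (2 * A + 6 * k + 40); positivity
    have h7 := le_of_mul_le_mul_right h6 (pw0 _)
    have h8 := le_abs_self (((F i n : ℤ) : ℝ) - (b i : ℝ) * n)
    have h9 : (b i : ℝ) * n ≤ H * (H * H) := mul_le_mul hbH hnH (by linarith) hH0.le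
    have h10 : (H : ℝ) * (H * H) ≤ H * (H * H) * H := le_mul_of_one_le_right (by positivity) (by linarith)
    have h11 : (4 : ℝ) * (H * (H * H) * H) ≤ H ^ 5 := by
      calc (4 : ℝ) * (H * (H * H) * H) ≤ H * (H * (H * H) * H) := mul_le_mul_of_nonneg_right hH4' (by positivity)
        _ = (H : ℝ) ^ 5 := by ring
    linarith
  have hlamF : ∀ i, ∀ n ∈ Icc 1 y, lamP (F i n) ≤ 5 * L := by
    intro i n hn
    have h5 := lamP_le_log (F i n) ((H : ℝ) ^ 5) (one_le_pow₀ (by linarith)) (hFcr i n hn)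
    rw [Real.log_pow] at h5
    exact_mod_cast h5
  have hlamn : ∀ n ∈ Icc 1 y, lamP (n : ℤ) ≤ 2 * L := by
    intro n hn
    rw [mem_Icc] at hn
    have q := lamP_le_log (n : ℤ) ((H : ℝ) ^ 2) (one_le_pow₀ (by linarith)) (by
      push_cast
      exact_mod_cast hn.2.trans hy2)
    rw [Real.log_pow] at q
    exact_mod_cast q
  obtain ⟨W, hW⟩ : ∃ W : ℕ → ℝ, W = fun n : ℕ => lamP (n : ℤ) * ∏ i, lamP (F i n) := ⟨_, rfl⟩
  have hW0 : ∀ n, 0 ≤ W n := by
    intro n; rw [hW]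
    exact mul_nonneg (lamP_nonneg _) (prod_nonneg fun i _ => lamP_nonneg _)
  have hWle : ∀ n ∈ Icc 1 y, W n ≤ 2 * L * (5 * L) ^ k := by
    intro n hn
    rw [hW]
    refine mul_le_mul (hlamn n hn) ?_ (prod_nonneg fun i _ => lamP_nonneg _) (by linarith)
    calc ∏ i, lamP (F i n) ≤ ∏ _i : Fin k, (5 * L) := prod_le_prod (fun i _ => lamP_nonneg _) (fun i _ => hlamF i n hn)
      _ = (5 * L) ^ k := by simp
  have hW4 : 2 * L * (5 * L) ^ k ≤ 5 ^ k * L ^ (k + 2) := by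
    rw [mul_pow, pow_add, show 2 * L * (5 ^ k * L ^ k) = 5 ^ k * (L ^ k * (2 * L)) by ring]
    refine mul_le_mul_of_nonneg_left (mul_le_mul_of_nonneg_left ?_ (pw0 _).le) (by positivity)
    nlinarith
  obtain ⟨ρ, hρ⟩ : ∃ ρ : ℕ → ℝ, ρ = fun n : ℕ => 1 / Real.log n * ∏ i, 1 / Real.log ((b i : ℝ) * n) := ⟨_, rfl⟩
  have hlogn : ∀ n : ℕ, 2 ≤ n → 1 / 2 ≤ Real.log n := by
    intro n hn
    have h5 := Real.log_two_gt_d9
    have h6 : Real.log 2 ≤ Real.log n := Real.log_le_log (by norm_num) (by exact_mod_cast hn)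
    linarith
  have hρ0 : ∀ n : ℕ, 2 ≤ n → 0 ≤ ρ n := by
    intro n hn
    rw [hρ]
    refine mul_nonneg (by have := hlogn n hn; positivity) (prod_nonneg fun i _ => ?_)
    have := hblog2 i n (by omega); positivity
  have hρ2 : ∀ n : ℕ, 2 ≤ n → ρ n ≤ 2 := by
    intro n hn
    rw [hρ]
    have h5 : 1 / Real.log n ≤ 2 := by
      have := hlogn n hn
      rw [div_le_iff₀ (by linarith)]; linarith
    have h6 : ∏ i, 1 / Real.log ((b i : ℝ) * n) ≤ 1 := by
      refine prod_le_one (fun i _ => ?_) (fun i _ => ?_)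
      · have := hblog2 i n (by omega); positivity
      · have := hblog2 i n (by omega)
        rw [div_le_iff₀ (by linarith)]; linarith
    have h7 : 0 ≤ ∏ i, 1 / Real.log ((b i : ℝ) * n) := by
      refine prod_nonneg fun i _ => ?_
      have := hblog2 i n (by omega); positivity
    calc _ ≤ 2 * 1 := mul_le_mul h5 h6 h7 (by norm_num)
      _ = 2 := by norm_num
  have hρa : ∀ n : ℕ, 2 ≤ n → ρ (n + 1) ≤ ρ n := by
    intro n hn
    rw [hρ]
    have hn0 : (0 : ℝ) < n := by exact_mod_cast (by omega : 0 < n)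
    have hn1 : (n : ℝ) ≤ ((n + 1 : ℕ) : ℝ) := by push_cast; linarith
    refine mul_le_mul ?_ (prod_le_prod (fun i _ => ?_) (fun i _ => ?_)) (prod_nonneg fun i _ => ?_) ?_
    · exact one_div_le_one_div_of_le (by have := hlogn n hn; linarith) (Real.log_le_log hn0 hn1)
    · have := hblog2 i (n + 1) (by omega); positivity
    · refine one_div_le_one_div_of_le (by have := hblog2 i n (by omega); linarith) (Real.log_le_log (mul_pos (hb0 i) hn0) ?_)
      exact mul_le_mul_of_nonneg_left hn1 (hb0 i).le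
    · have := hblog2 i (n + 1) (by omega); positivity
    · have := hlogn n hn; positivity
  have hy26 : (26 : ℝ) ≤ y := by
    refine le_trans ?_ hyE
    have u1 : (1 : ℝ) ≤ 5 ^ k := one_le_pow₀ (by norm_num)
    have u2 := pw1 (3 * A + 7 * k + 42)
    have u3 : (1 : ℝ) ≤ 5 ^ k * L ^ (3 * A + 7 * k + 42) * E := by
      have := one_le_mul_of_one_le_of_one_le (one_le_mul_of_one_le_of_one_le u1 u2) hE1
      exact this
    nlinarith
  have hy2' : 2 ≤ y := by
    have : (2 : ℝ) ≤ y := by linarith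
    exact_mod_cast this
  -- partial sums
  obtain ⟨T, hTdef⟩ : ∃ T : ℝ, T = y / L ^ (A + 3 * k + 20) + E * (2 * 5 ^ k * L ^ (k + 2)) + L ^ (k + 2) := ⟨_, rfl⟩
  have hT : ∀ t, 2 ≤ t → t ≤ y → |∑ n ∈ Icc 2 t, (W n - S)| ≤ T := by
    intro t ht hty
    have htY : (t : ℝ) ≤ y := by exact_mod_cast hty
    have q1 : 0 ≤ (y : ℝ) / L ^ (A + 3 * k + 20) := by have := pw0 (A + 3 * k + 20); positivity
    have q2 : 0 ≤ E * (2 * 5 ^ k * L ^ (k + 2)) := by have := pw0 (k + 2); positivity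
    rcases le_or_gt E t with hEt | hEt
    · have h5 := h4 t hEt hty
      have e1 : ∑ n ∈ Icc 2 t, (W n - S) = (∑ n ∈ Icc 1 t, lamP (n : ℤ) * ∏ i, lamP (F i n) - t * S) + S := by
        have h6 : ∑ n ∈ Icc 1 t, lamP (n : ℤ) * ∏ i, lamP (F i n) = ∑ n ∈ Icc 1 t, W n := by rw [hW]
        have hW1 : W 1 = 0 := by
          rw [hW]
          have : lamP ((1 : ℕ) : ℤ) = 0 := by unfold lamP; simp [Nat.not_prime_one]
          simp only [this, zero_mul]
        have h7 : Icc 1 t = insert 1 (Icc 2 t) := by ext x; simp only [mem_Icc, mem_insert]; omega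
        rw [h6, h7, sum_insert (by simp), hW1, sum_sub_distrib, sum_const, Nat.card_Icc, nsmul_eq_mul]
        have h8 : ((t + 1 - 2 : ℕ) : ℝ) = t - 1 := by
          rw [show t + 1 - 2 = t - 1 by omega, Nat.cast_sub (by omega)]; simp
        rw [h8]; ring
      rw [e1]
      refine (abs_add_le _ _).trans ?_
      rw [abs_of_nonneg h3]
      have h9 : (t : ℝ) / L ^ (A + 3 * k + 20) ≤ y / L ^ (A + 3 * k + 20) :=
        div_le_div_of_nonneg_right htY (pw0 _).le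
      rw [hTdef]
      linarith
    · have h5 : ∀ n ∈ Icc 2 t, |W n - S| ≤ 2 * 5 ^ k * L ^ (k + 2) := by
        intro n hn
        rw [mem_Icc] at hn
        have h6 := hWle n (mem_Icc.2 ⟨by omega, by omega⟩)
        have h7 := hW0 n
        have h8 : L ^ (k + 2) ≤ 5 ^ k * L ^ (k + 2) := by
          have u1 : (1 : ℝ) ≤ 5 ^ k := one_le_pow₀ (by norm_num)
          nlinarith [pw0 (k + 2)]
        rw [abs_le]
        constructor <;> linarith
      refine (abs_sum_le_sum_abs _ _).trans ((sum_le_sum h5).trans ?_)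
      rw [sum_const, nsmul_eq_mul, Nat.card_Icc]
      have h6 : ((t + 1 - 2 : ℕ) : ℝ) ≤ E := by
        refine le_trans ?_ hEt.le
        exact_mod_cast (by omega : t + 1 - 2 ≤ t)
      have h7 := mul_le_mul_of_nonneg_right h6 (show 0 ≤ 2 * 5 ^ k * L ^ (k + 2) by have := pw0 (k + 2); positivity)
      rw [hTdef]
      have := pw0 (k + 2)
      linarith
  have hAbel : |∑ n ∈ Icc 2 y, (W n - S) * ρ n| ≤ T * 2 := by
    have h5 := abel (fun n => W n - S) ρ T (fun n hn => ⟨hρ0 n hn, hρa n hn⟩) y hy2' hT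
    have hT0 : 0 ≤ T := (abs_nonneg _).trans (hT 2 le_rfl hy2')
    exact h5.trans (mul_le_mul_of_nonneg_left (hρ2 2 le_rfl) hT0)
  -- the counting function
  obtain ⟨G, hG⟩ : ∃ G : ℕ → ℝ, G = fun n => if n.Prime ∧ ∀ i, (F i n).natAbs.Prime then 1 else 0 := ⟨_, rfl⟩
  have hcount : (((Icc 1 y).filter (fun n => n.Prime ∧ ∀ i, (F i n).natAbs.Prime)).card : ℝ) = ∑ n ∈ Icc 2 y, G n := by
    rw [hG, ← sum_filter, sum_const, nsmul_eq_mul, mul_one]
    congr 2
    ext n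
    simp only [mem_filter, mem_Icc]
    constructor
    · rintro ⟨⟨a1, a2⟩, a3, a4⟩; exact ⟨⟨a3.two_le, a2⟩, a3, a4⟩
    · rintro ⟨⟨a1, a2⟩, a3, a4⟩; exact ⟨⟨by omega, a2⟩, a3, a4⟩
  obtain ⟨D, hD⟩ : ∃ D : ℕ → ℝ, D = fun n : ℕ => 1 / Real.log n * ∏ i, 1 / Real.log (abs ((F i n : ℤ) : ℝ)) := ⟨_, rfl⟩
  have hε0 : 0 ≤ 2 * (3 / P) := by positivity
  have hε1 : 2 * (3 / P) ≤ 1 := by linarith
  have hGW : |∑ n ∈ Icc 2 y, (G n - W n * ρ n)| ≤ y * (2 ^ k * (2 * (3 / P))) +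
      L ^ (2 * A + 6 * k + 40) * (1 + 5 ^ k * L ^ (k + 2) * 2) := by
    refine small_sum _ y _ _ _ (pw0 _).le (by positivity) (by have := pw0 (k + 2); positivity) ?_ ?_
    · intro n hn hnM
      have hn' := hn
      rw [mem_Icc] at hn'
      have hn0 : (0 : ℝ) < n := by exact_mod_cast (by omega : 0 < n)
      have hFpos : ∀ i, 0 < F i n := by
        intro i
        have h5 := (hcmp i n hn hnM).1
        have h6 := mul_pos (hb0 i) hn0
        have : (0 : ℝ) < F i n := by linarith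
        exact_mod_cast this
      have hnat : ∀ i, (F i n).toNat = (F i n).natAbs := by
        intro i; have := hFpos i; omega
      have hcast : ∀ i, (((F i n).toNat : ℕ) : ℝ) = ((F i n : ℤ) : ℝ) := by
        intro i
        have : (((F i n).toNat : ℕ) : ℤ) = F i n := Int.toNat_of_nonneg (hFpos i).le
        exact_mod_cast congrArg (Int.cast : ℤ → ℝ) this
      by_cases hg : n.Prime ∧ ∀ i, (F i n).natAbs.Prime
      · have hGn : G n = 1 := by rw [hG]; simp only [if_pos hg]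
        have hWn : W n = Real.log n * ∏ i, Real.log (F i n) := by
          rw [hW]
          have a1 : lamP (n : ℤ) = Real.log n := by
            unfold lamP; rw [Int.toNat_natCast, if_pos hg.1]
          have a2 : ∀ i, lamP (F i n) = Real.log (F i n) := by
            intro i; unfold lamP; rw [hcast i, hnat i, if_pos (hg.2 i)]
          simp only [a1, a2]
        have h5 : W n * ρ n = ∏ i, (Real.log (F i n) / Real.log ((b i : ℝ) * n)) := by
          rw [hWn, hρ]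
          have hl : Real.log n ≠ 0 := by have := hlogn n hn'.1; positivity
          rw [show (Real.log n * ∏ i, Real.log (F i n)) * (1 / Real.log n * ∏ i, 1 / Real.log ((b i : ℝ) * n)) =
            (Real.log n * (1 / Real.log n)) * ((∏ i, Real.log (F i n)) * ∏ i, 1 / Real.log ((b i : ℝ) * n)) by ring,
            mul_one_div_cancel hl, one_mul, ← prod_mul_distrib]
          refine prod_congr rfl fun i _ => ?_
          rw [mul_one_div]
        rw [hGn, h5, abs_sub_comm]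
        exact prod_cmp _ _ hε0 hε1 (fun i => (hcmp i n hn hnM).2.2.1)
      · have hGn : G n = 0 := by rw [hG]; simp only [if_neg hg]
        have hWn : W n = 0 := by
          rw [hW]
          rw [not_and_or, not_forall] at hg
          rcases hg with hg | ⟨i, hg⟩
          · have a1 : lamP (n : ℤ) = 0 := by
              unfold lamP; rw [Int.toNat_natCast, if_neg hg]
            simp only [a1, zero_mul]
          · have a2 : lamP (F i n) = 0 := by
              unfold lamP; rw [hnat i, if_neg hg]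
            have a3 : ∏ i, lamP (F i n) = 0 := prod_eq_zero (mem_univ i) a2
            simp only [a3, mul_zero]
        rw [hGn, hWn, zero_mul, sub_zero, abs_zero]
        positivity
    · intro n hn _
      rw [mem_Icc] at hn
      have h5 : |G n| ≤ 1 := by
        rw [hG]; simp only; split_ifs <;> simp
      have h6 := hWle n (mem_Icc.2 ⟨by omega, hn.2⟩)
      have h7 := hW0 n
      have h8 : |W n * ρ n| ≤ (5 ^ k * L ^ (k + 2)) * 2 := by
        rw [abs_mul, abs_of_nonneg h7, abs_of_nonneg (hρ0 n hn.1)]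
        exact mul_le_mul (h6.trans hW4) (hρ2 n hn.1) (hρ0 n hn.1) (by have := pw0 (k + 2); positivity)
      calc |G n - W n * ρ n| ≤ |G n| + |W n * ρ n| := abs_sub _ _
        _ ≤ _ := add_le_add h5 h8
  have hRD : |∑ n ∈ Icc 2 y, (ρ n - D n)| ≤ y * (2 * (2 ^ k * (2 * (3 / P)))) +
      L ^ (2 * A + 6 * k + 40) * (2 + 2 * 2 ^ k) := by
    refine small_sum _ y _ _ _ (pw0 _).le (by positivity) (by positivity) ?_ ?_
    · intro n hn hnM
      have hn' := hn
      rw [mem_Icc] at hn'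
      have hn0 : (0 : ℝ) < n := by exact_mod_cast (by omega : 0 < n)
      have hFpos : ∀ i, (0 : ℝ) < F i n := by
        intro i
        have h5 := (hcmp i n hn hnM).1
        have h6 := mul_pos (hb0 i) hn0
        linarith
      have h5 : D n = ρ n * ∏ i, (Real.log ((b i : ℝ) * n) / Real.log (F i n)) := by
        rw [hD, hρ]
        simp only
        rw [mul_assoc, ← prod_mul_distrib]
        congr 1
        refine prod_congr rfl fun i _ => ?_
        have h6 := hblog2 i n (by omega)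
        rw [abs_of_pos (hFpos i)]
        have h7 : Real.log ((b i : ℝ) * n) ≠ 0 := by linarith
        field_simp
      rw [h5, show ρ n - ρ n * ∏ i, (Real.log ((b i : ℝ) * n) / Real.log (F i n)) =
        ρ n * -(∏ i, (Real.log ((b i : ℝ) * n) / Real.log (F i n)) - 1) by ring, abs_mul, abs_neg, abs_of_nonneg (hρ0 n hn'.1)]
      exact mul_le_mul (hρ2 n hn'.1) (prod_cmp _ _ hε0 hε1 (fun i => (hcmp i n hn hnM).2.2.2)) (abs_nonneg _) (by norm_num)
    · intro n hn _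
      rw [mem_Icc] at hn
      have h5 : |ρ n| ≤ 2 := by rw [abs_of_nonneg (hρ0 n hn.1)]; exact hρ2 n hn.1
      have h6 : |D n| ≤ 2 * 2 ^ k := by
        rw [hD]
        simp only
        rw [abs_mul, abs_prod]
        refine mul_le_mul ?_ ?_ (prod_nonneg fun i _ => abs_nonneg _) (by norm_num)
        · have := hlogn n hn.1
          rw [abs_of_nonneg (by positivity), div_le_iff₀ (by linarith)]; linarith
        · calc ∏ i, |1 / Real.log (abs ((F i n : ℤ) : ℝ))| ≤ ∏ _i : Fin k, (2 : ℝ) :=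
              prod_le_prod (fun i _ => abs_nonneg _) (fun i _ => inv_log_int _)
            _ = 2 ^ k := by simp
      calc |ρ n - D n| ≤ |ρ n| + |D n| := abs_sub _ _
        _ ≤ _ := add_le_add h5 h6
  -- combination
  have hsplit : ∑ n ∈ Icc 2 y, G n - S * ∑ n ∈ Icc 2 y, D n =
      ∑ n ∈ Icc 2 y, (G n - W n * ρ n) + ∑ n ∈ Icc 2 y, (W n - S) * ρ n + S * ∑ n ∈ Icc 2 y, (ρ n - D n) := by
    simp only [sub_mul, sum_sub_distrib, ← mul_sum]
    ring
  rw [hcount, show (∑ n ∈ Icc 2 y, 1 / Real.log n * ∏ i, 1 / Real.log (abs ((F i n : ℤ) : ℝ))) = ∑ n ∈ Icc 2 y, D n by rw [hD],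
    hsplit]
  have hS3 : |S * ∑ n ∈ Icc 2 y, (ρ n - D n)| ≤ L ^ (k + 2) * (y * (2 * (2 ^ k * (2 * (3 / P)))) +
      L ^ (2 * A + 6 * k + 40) * (2 + 2 * 2 ^ k)) := by
    rw [abs_mul, abs_of_nonneg h3]
    exact mul_le_mul h3' hRD (abs_nonneg _) (pw0 _).le
  have htot : |∑ n ∈ Icc 2 y, (G n - W n * ρ n) + ∑ n ∈ Icc 2 y, (W n - S) * ρ n + S * ∑ n ∈ Icc 2 y, (ρ n - D n)| ≤
      (y * (2 ^ k * (2 * (3 / P))) + L ^ (2 * A + 6 * k + 40) * (1 + 5 ^ k * L ^ (k + 2) * 2)) + T * 2 +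
      L ^ (k + 2) * (y * (2 * (2 ^ k * (2 * (3 / P)))) + L ^ (2 * A + 6 * k + 40) * (2 + 2 * 2 ^ k)) := by
    refine (abs_add_le _ _).trans (add_le_add ((abs_add_le _ _).trans (add_le_add hGW hAbel)) hS3)
  refine htot.trans ?_
  -- terms with y
  have hy0 : (0 : ℝ) ≤ y := by linarith
  have hA0 := pw0 A
  have g1 : 1 / L ^ (A + 3 * k + 20) ≤ 1 / 100 * (1 / L ^ A) := by
    have u1 : (1 : ℝ) ≤ 2 ^ k := one_le_pow₀ (by norm_num)
    have u2 : 100 * L ^ A ≤ L ^ (A + 3 * k + 20) := by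
      calc 100 * L ^ A ≤ L * L ^ A := by nlinarith
        _ = L ^ (A + 1) := by ring
        _ ≤ _ := pw _ _ (by omega)
    rw [div_mul_div_comm, one_mul]
    exact one_div_le_one_div_of_le (by positivity) u2
  have g2 : 2 ^ k * (1 / P) ≤ 1 / 100 * (1 / L ^ A) := by
    rw [mul_one_div, div_mul_div_comm, one_mul, div_le_div_iff₀ hP0 (by positivity)]
    calc 2 ^ k * (100 * L ^ A) = (100 * 2 ^ k) * L ^ A := by ring
      _ ≤ L * L ^ A := mul_le_mul_of_nonneg_right c2 hA0.le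
      _ = L ^ (A + 1) := by ring
      _ ≤ 1 * P := by rw [one_mul, hP]; exact pw _ _ (by omega)
  have g3 : L ^ (k + 2) * (2 ^ k * (1 / P)) ≤ 1 / 100 * (1 / L ^ A) := by
    rw [mul_one_div, mul_div_assoc', div_mul_div_comm, one_mul, div_le_div_iff₀ hP0 (by positivity)]
    calc L ^ (k + 2) * 2 ^ k * (100 * L ^ A) = (100 * 2 ^ k) * (L ^ (k + 2) * L ^ A) := by ring
      _ ≤ L * (L ^ (k + 2) * L ^ A) := mul_le_mul_of_nonneg_right c2 (by positivity)
      _ = L ^ (A + k + 3) := by ring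
      _ ≤ 1 * P := by rw [one_mul, hP]; exact pw _ _ (by omega)
  -- the other terms
  have hN : L ^ A * L ^ (2 * A + 6 * k + 40) * L ^ (k + 2) = L ^ (3 * A + 7 * k + 42) := by
    rw [← pow_add, ← pow_add]; congr 1; ring
  have g4 : 13 * 5 ^ k * (L ^ (2 * A + 6 * k + 40) * L ^ (k + 2)) * E ≤ y * (1 / L ^ A) / 2 := by
    rw [mul_one_div, div_div, le_div_iff₀ (by positivity)]
    calc 13 * 5 ^ k * (L ^ (2 * A + 6 * k + 40) * L ^ (k + 2)) * E * (L ^ A * 2) =
        26 * 5 ^ k * (L ^ A * L ^ (2 * A + 6 * k + 40) * L ^ (k + 2)) * E := by ring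
      _ ≤ y := by rw [hN]; exact hyE
  obtain ⟨X, hX⟩ : ∃ X : ℝ, X = L ^ (2 * A + 6 * k + 40) := ⟨_, rfl⟩
  obtain ⟨Z, hZ⟩ : ∃ Z : ℝ, Z = L ^ (k + 2) := ⟨_, rfl⟩
  obtain ⟨p2, hp2⟩ : ∃ p2 : ℝ, p2 = 2 ^ k := ⟨_, rfl⟩
  obtain ⟨p4, hp4⟩ : ∃ p4 : ℝ, p4 = 5 ^ k := ⟨_, rfl⟩
  have hX1 : 1 ≤ X := hX ▸ pw1 _
  have hZ1 : 1 ≤ Z := hZ ▸ pw1 _
  have hp21 : 1 ≤ p2 := hp2 ▸ one_le_pow₀ (by norm_num)
  have hp24 : p2 ≤ p4 := by rw [hp2, hp4]; exact pow_le_pow_left₀ (by norm_num) (by norm_num) k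
  rw [hTdef]
  rw [← hX, ← hZ, ← hp4] at g4
  rw [← hZ, ← hp2] at g3
  rw [← hp2] at g2
  rw [← hX, ← hZ, ← hp2, ← hp4]
  have r1 : X * (1 + p4 * Z * 2) + E * (2 * p4 * Z) * 2 + Z * 2 + Z * (X * (2 + 2 * p2)) ≤ 13 * p4 * (X * Z) * E := by
    have hp41 : 1 ≤ p4 := hp21.trans hp24
    have s1 : X ≤ p4 * (X * Z) * E := by
      calc X = 1 * (X * 1) * 1 := by ring
        _ ≤ p4 * (X * Z) * E := by gcongr
    have s2 : X * (p4 * Z) ≤ p4 * (X * Z) * E := by
      calc X * (p4 * Z) = p4 * (X * Z) * 1 := by ring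
        _ ≤ p4 * (X * Z) * E := by gcongr
    have s3 : E * (p4 * Z) ≤ p4 * (X * Z) * E := by
      calc E * (p4 * Z) = p4 * (1 * Z) * E := by ring
        _ ≤ p4 * (X * Z) * E := by gcongr
    have s4 : Z ≤ p4 * (X * Z) * E := by
      calc Z = 1 * (1 * Z) * 1 := by ring
        _ ≤ p4 * (X * Z) * E := by gcongr
    have s5 : Z * (X * 1) ≤ p4 * (X * Z) * E := by
      calc Z * (X * 1) = 1 * (X * Z) * 1 := by ring
        _ ≤ p4 * (X * Z) * E := by gcongr
    have s6 : Z * (X * p2) ≤ p4 * (X * Z) * E := by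
      calc Z * (X * p2) = p2 * (X * Z) * 1 := by ring
        _ ≤ p4 * (X * Z) * E := by gcongr
    linarith
  have r2 : y * (p2 * (2 * (3 / P))) + y / L ^ (A + 3 * k + 20) * 2 + Z * (y * (2 * (p2 * (2 * (3 / P))))) ≤ y * (1 / L ^ A) / 2 := by
    have t1 : y * (p2 * (2 * (3 / P))) ≤ y * (6 * (1 / 100 * (1 / L ^ A))) := by
      refine mul_le_mul_of_nonneg_left ?_ hy0
      calc p2 * (2 * (3 / P)) = 6 * (p2 * (1 / P)) := by ring
        _ ≤ _ := by linarith
    have t2 : (y : ℝ) / L ^ (A + 3 * k + 20) * 2 ≤ y * (2 * (1 / 100 * (1 / L ^ A))) := by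
      calc (y : ℝ) / L ^ (A + 3 * k + 20) * 2 = y * (2 * (1 / L ^ (A + 3 * k + 20))) := by ring
        _ ≤ _ := mul_le_mul_of_nonneg_left (by linarith) hy0
    have t3 : Z * (y * (2 * (p2 * (2 * (3 / P))))) ≤ y * (12 * (1 / 100 * (1 / L ^ A))) := by
      calc Z * (y * (2 * (p2 * (2 * (3 / P))))) = y * (12 * (Z * (p2 * (1 / P)))) := by ring
        _ ≤ _ := mul_le_mul_of_nonneg_left (by linarith) hy0
    have t4 : 0 ≤ (y : ℝ) * (1 / L ^ A) := by positivity
    linarith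
  have r3 : (y : ℝ) / L ^ A = y * (1 / L ^ A) := by ring
  rw [r3]
  linarith

theorem main : S_INP4 := by
  intro k e A m he hm
  refine ⟨A + 3 * k + 20, 2 * A + 6 * k + 40, ?_⟩
  have tl : Filter.Tendsto (fun H : ℕ => Real.log (H : ℝ)) Filter.atTop Filter.atTop :=
    Real.tendsto_log_atTop.comp tendsto_natCast_atTop_atTop
  have ev := (((Filter.eventually_ge_atTop 4).and (tl.eventually_ge_atTop ((8 : ℝ) * e))).and
    (tl.eventually_ge_atTop ((100 : ℝ) * 2 ^ k))).and ((tl.eventually (asy2 e (A + 3 * k + 21) he)).and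
    (tl.eventually (asy1 m (3 * A + 7 * k + 42) hm (26 * 5 ^ k))))
  obtain ⟨H₀, hH₀⟩ := Filter.eventually_atTop.1 ev
  refine ⟨H₀, by omega, ?_⟩
  intro H hH y hy1 hy2 Q b F S h1 h2 h3 h3' h4
  obtain ⟨⟨⟨a1, a2⟩, a3⟩, a4, a5⟩ := hH₀ H hH
  exact core k e A m he H a1 a2 a3 a4 a5 y hy1 hy2 Q b F S h1 h2 h3 h3' h4

end Pool.Agent.helper24_UT.Inp4
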