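import Pool.Agent.helper24_UT.Stm13
import Pool.Agent.helper24_UT.Psip

set_option autoImplicit false

namespace Pool.Agent.helper24_UT.Psip4

open Finset Polynomial
open Pool.Agent.helper24_UT
open Pool.Agent.helper24_UT.Psip
open Pool.Agent.H373R2.T7 (lamI lamzI lamz Vz pz lamP lamI_nonneg lamzI_nonneg lamP_nonneg lamP_le lamI_le
  lamzI_le Vz_pos Vz_inv_le)
open Pool.Agent.H807R2.Dav (ee)

/-- the numerical part -/
lemma psip4_num (k A E D B₁ : ℕ) (L y : ℝ) (hL : 6 ≤ L) (hD : D = B₁ + E * k + 6 * k + 2 * A + 20) (hy0 : 0 ≤ y)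
    (hyD : L ^ D ≤ y) (ly : ℝ) (hly : ly ≤ 2 * L) (hly0 : 0 ≤ ly) :
    (3 * L) * (y / L ^ (A + k + 6)) ≤ y / L ^ (A + 2) ∧
    (9 * L ^ (A + 2)) * ((2 * L) * (L ^ E) ^ k) ≤ y / L ^ (A + 2) ∧
    2 * Real.sqrt y * ly * (3 * (2 * L)) ^ k + (2 * L) * (3 * (2 * L)) ^ k * (y / L ^ (3 * k + A + 8)) ≤
      2 * (y / L ^ (A + 2)) ∧
    5 * (y / L ^ (A + 2)) ≤ y / L ^ A := by
  have hL1 : 1 ≤ L := by linarith
  have hL0 : 0 < L := by linarith
  have hpow : ∀ {a b : ℕ}, a ≤ b → L ^ a ≤ L ^ b := fun h => pow_le_pow_right₀ hL1 h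
  have hpos : ∀ a : ℕ, 0 < L ^ a := fun a => by positivity
  have h3k : (3 * (2 * L)) ^ k ≤ L ^ (3 * k) := by
    rw [pow_mul]
    refine pow_le_pow_left₀ (by positivity) ?_ k
    nlinarith [sq_nonneg (L - 6)]
  refine ⟨?_, ?_, ?_, ?_⟩
  · have h1 : 3 * L ≤ L ^ (k + 4) := by
      calc 3 * L ≤ L ^ 2 := by nlinarith
        _ ≤ L ^ (k + 4) := hpow (by omega)
    have e : A + k + 6 = (A + 2) + (k + 4) := by ring
    rw [e, pow_add, mul_div_assoc', div_le_div_iff₀ (by positivity) (by positivity)]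
    have : (3 * L) * (y * L ^ (A + 2)) ≤ L ^ (k + 4) * (y * L ^ (A + 2)) :=
      mul_le_mul_of_nonneg_right h1 (by positivity)
    linarith
  · rw [le_div_iff₀ (hpos _)]
    refine le_trans ?_ hyD
    have e : (9 * L ^ (A + 2)) * ((2 * L) * (L ^ E) ^ k) * L ^ (A + 2) = 18 * L ^ (2 * A + 5 + E * k) := by
      rw [← pow_mul]
      ring
    rw [e]
    have h18 : (18 : ℝ) ≤ L ^ 2 := by nlinarith
    calc 18 * L ^ (2 * A + 5 + E * k) ≤ L ^ 2 * L ^ (2 * A + 5 + E * k) :=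
          mul_le_mul_of_nonneg_right h18 (by positivity)
      _ = L ^ (2 + (2 * A + 5 + E * k)) := (pow_add L 2 (2 * A + 5 + E * k)).symm
      _ ≤ L ^ D := hpow (by omega)
  · have hs : L ^ (3 * k + A + 4) ≤ Real.sqrt y := by
      apply Real.le_sqrt_of_sq_le
      rw [← pow_mul]
      exact (hpow (by omega)).trans hyD
    have hsq : Real.sqrt y * Real.sqrt y = y := Real.mul_self_sqrt hy0
    have hs0 : 0 ≤ Real.sqrt y := Real.sqrt_nonneg y
    have h1 : 2 * Real.sqrt y * ly * (3 * (2 * L)) ^ k ≤ y / L ^ (A + 2) := by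
      rw [le_div_iff₀ (hpos _)]
      have h2 : 2 * ly * (3 * (2 * L)) ^ k * L ^ (A + 2) ≤ L ^ (3 * k + A + 4) := by
        have h4 : 2 * ly ≤ L * L := by nlinarith
        calc 2 * ly * (3 * (2 * L)) ^ k * L ^ (A + 2) ≤ L * L * L ^ (3 * k) * L ^ (A + 2) := by
              gcongr
          _ = L ^ (3 * k + A + 4) := by ring
      calc 2 * Real.sqrt y * ly * (3 * (2 * L)) ^ k * L ^ (A + 2)
          = Real.sqrt y * (2 * ly * (3 * (2 * L)) ^ k * L ^ (A + 2)) := by ring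
        _ ≤ Real.sqrt y * Real.sqrt y := mul_le_mul_of_nonneg_left (h2.trans hs) hs0
        _ = y := hsq
    have h2 : (2 * L) * (3 * (2 * L)) ^ k * (y / L ^ (3 * k + A + 8)) ≤ y / L ^ (A + 2) := by
      have h3 : (2 * L) * (3 * (2 * L)) ^ k ≤ L ^ (3 * k + 6) := by
        calc (2 * L) * (3 * (2 * L)) ^ k ≤ (L * L) * L ^ (3 * k) := by
              gcongr
              linarith
          _ = L ^ (3 * k + 2) := by ring
          _ ≤ L ^ (3 * k + 6) := hpow (by omega)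
      have e : 3 * k + A + 8 = (A + 2) + (3 * k + 6) := by ring
      rw [e, pow_add, mul_div_assoc', div_le_div_iff₀ (by positivity) (by positivity)]
      have : ((2 * L) * (3 * (2 * L)) ^ k) * (y * L ^ (A + 2)) ≤ L ^ (3 * k + 6) * (y * L ^ (A + 2)) :=
        mul_le_mul_of_nonneg_right h3 (by positivity)
      linarith
    linarith
  · rw [pow_add, mul_div_assoc', div_le_div_iff₀ (by positivity) (by positivity)]
    have h1 : 5 ≤ L ^ 2 := by nlinarith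
    have : 5 * (y * L ^ A) ≤ L ^ 2 * (y * L ^ A) := mul_le_mul_of_nonneg_right h1 (by positivity)
    linarith

/-- the values of the linear forms -/
lemma psip4_point {k H T A : ℕ} {L : ℝ} (hL : 2 ≤ L) (hH : 3 ≤ H) (hTH : T ≤ H ^ 2)
    {R : Fin k → ℕ} (hR : ∀ i, R i ≤ H) {s : Fin k → ℤ} (hs : ∀ i, |s i| ≤ 8 * R i)
    {v : Fin k → ℕ × ℕ} (hv : v ∈ Bq R R) (hv1 : ∀ i, (R i : ℝ) / L ^ (A + 1) ≤ (v i).1) {n : ℕ}
    (hn : n ∈ Icc 1 T) (i : Fin k) :
    (9 * L ^ (A + 2) ≤ n → 1 ≤ vl (fun i _ => s i) v i n) ∧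
      ((vl (fun i _ => s i) v i n : ℤ) : ℝ) ≤ (H : ℝ) ^ 5 := by
  have hm := psip_mem hv i
  have hsi := hs i
  rw [mem_Icc] at hn
  have hL0 : 0 < L := by linarith
  have hL1 : 1 ≤ L := by linarith
  have hLA : 0 < L ^ (A + 1) := by positivity
  have hH3 : (3 : ℝ) ≤ H := by exact_mod_cast hH
  have hn1 : (1 : ℝ) ≤ n := by exact_mod_cast hn.1
  have hnH : (n : ℝ) ≤ (H : ℝ) ^ 2 := by exact_mod_cast hn.2.trans hTH
  have hRH : (R i : ℝ) ≤ H := by exact_mod_cast hR i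
  have hb : ((v i).1 : ℝ) ≤ H := le_trans (by exact_mod_cast hm.1.2) hRH
  have hc : ((v i).2 : ℝ) ≤ H := le_trans (by exact_mod_cast hm.2.2) hRH
  have hc1 : (1 : ℝ) ≤ (v i).2 := by exact_mod_cast hm.2.1
  have hR0 : (0 : ℝ) ≤ R i := Nat.cast_nonneg _
  have hs1 : |((s i : ℤ) : ℝ)| ≤ 8 * R i := by
    have : ((|s i| : ℤ) : ℝ) ≤ ((8 * (R i : ℤ) : ℤ) : ℝ) := by exact_mod_cast hsi
    push_cast at this
    exact this
  have hs2 := abs_le.1 hs1
  have e : ((vl (fun i _ => s i) v i n : ℤ) : ℝ) = (v i).1 * n + (v i).2 + ((s i : ℤ) : ℝ) := by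
    unfold vl
    push_cast
    ring
  refine ⟨fun hnL => ?_, ?_⟩
  · have h2 := hv1 i
    rw [div_le_iff₀ hLA] at h2
    have hb0 : (0 : ℝ) ≤ (v i).1 := by positivity
    have h3 : 8 * L ^ (A + 1) ≤ n := by
      refine le_trans ?_ hnL
      have : L ^ (A + 1) ≤ L ^ (A + 2) := pow_le_pow_right₀ hL1 (by omega)
      have h0 : 0 < L ^ (A + 2) := by positivity
      linarith
    have h4 : 8 * (R i : ℝ) ≤ (v i).1 * n := by
      calc 8 * (R i : ℝ) ≤ 8 * ((v i).1 * L ^ (A + 1)) := by linarith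
        _ = (v i).1 * (8 * L ^ (A + 1)) := by ring
        _ ≤ (v i).1 * n := mul_le_mul_of_nonneg_left h3 hb0
    have : (1 : ℝ) ≤ ((vl (fun i _ => s i) v i n : ℤ) : ℝ) := by
      rw [e]
      linarith [hs2.1]
    exact_mod_cast this
  · rw [e]
    have k1 : ((v i).1 : ℝ) * n ≤ H * (H : ℝ) ^ 2 := mul_le_mul hb hnH (by linarith) (by linarith)
    have k2 : (9 : ℝ) * H ≤ (H : ℝ) ^ 3 := by nlinarith [sq_nonneg (H : ℝ), mul_self_nonneg ((H : ℝ) - 3)]
    have k3 : 2 * (H : ℝ) ^ 3 ≤ (H : ℝ) ^ 5 := by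
      have h9 : (9 : ℝ) ≤ (H : ℝ) ^ 2 := by nlinarith
      have h0 : (0 : ℝ) ≤ (H : ℝ) ^ 3 := by positivity
      calc 2 * (H : ℝ) ^ 3 ≤ (H : ℝ) ^ 2 * (H : ℝ) ^ 3 := mul_le_mul_of_nonneg_right (by linarith) h0
        _ = (H : ℝ) ^ 5 := by ring
    have k4 : H * (H : ℝ) ^ 2 = (H : ℝ) ^ 3 := by ring
    linarith [hs2.2]

theorem main : S_ALL4 → S_MTP → S_PP4 → S_PSIP4 := by
  classical
  intro hALL hMTP hPP k e A m he hm
  obtain ⟨E₀', B₁, hALL⟩ := hALL k e (A + k + 6) he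
  refine ⟨E₀' + 1, fun E hE => ?_⟩
  obtain ⟨H₁, hALL⟩ := hALL E
  obtain ⟨H₂, hMTP⟩ := hMTP k 1 E (A + 2) m hm
  obtain ⟨H₃, hPP⟩ := hPP k e (3 * k + A + 8) he
  obtain ⟨D, hD⟩ : ∃ D : ℕ, D = B₁ + E * k + 6 * k + 2 * A + 20 := ⟨_, rfl⟩
  obtain ⟨H₄, hgrow⟩ := psip_grow D m hm
  refine ⟨H₁ + H₂ + H₃ + H₄ + ⌈Real.exp (k + 6)⌉₊ + 3, fun H hH T hTH R hR s hs => ?_⟩
  have hgr := hgrow H (by omega)
  obtain ⟨L, hLdef⟩ : ∃ L : ℝ, L = Real.log H := ⟨_, rfl⟩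
  rw [← hLdef] at hgr
  simp only [← hLdef]
  have hH3 : 3 ≤ H := by omega
  have hH0 : (0 : ℝ) < H := by exact_mod_cast (by omega : 0 < H)
  have hLk : (k : ℝ) + 6 ≤ L := by
    rw [hLdef, Real.le_log_iff_exp_le hH0]
    refine (Nat.le_ceil _).trans ?_
    exact_mod_cast (by omega : ⌈Real.exp (k + 6)⌉₊ ≤ H)
  have hk0 : (0 : ℝ) ≤ k := by positivity
  have hL6 : 6 ≤ L := by linarith
  have hL1 : 1 ≤ L := by linarith
  have hL0 : 0 < L := by linarith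
  have hpow : ∀ {a b : ℕ}, a ≤ b → L ^ a ≤ L ^ b := fun h => pow_le_pow_right₀ hL1 h
  have hpos : ∀ a : ℕ, 0 < L ^ a := fun a => by positivity
  have hvq : 0 ≤ vq R R := prod_nonneg fun i _ => by positivity
  have hRH : ∀ i, R i ≤ H := fun i => (hR i).2.1
  -- the sieving limit
  obtain ⟨z, hz⟩ : ∃ z : ℕ, z = ⌊L ^ E⌋₊ := ⟨_, rfl⟩
  rw [← hz]
  have hzle : (z : ℝ) ≤ L ^ E := by rw [hz]; exact Nat.floor_le (by positivity)
  have hzge : L ^ E₀' ≤ z := by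
    have h1 : L ^ E < z + 1 := by rw [hz]; exact Nat.lt_floor_add_one _
    have h2 : L ^ (E₀' + 1) ≤ L ^ E := hpow hE
    have h3 : L ^ (E₀' + 1) = L ^ E₀' * L := pow_succ _ _
    have h4 : (1 : ℝ) ≤ L ^ E₀' := one_le_pow₀ hL1
    nlinarith
  have hz1 : 1 ≤ z := by
    have : (1 : ℝ) ≤ z := (one_le_pow₀ hL1).trans hzge
    exact_mod_cast this
  have hVz : (Vz z)⁻¹ ≤ L ^ E := (Vz_inv_le z hz1).trans hzle
  -- the logarithm of `T`
  have hlogT : ∀ n : ℕ, 1 ≤ n → n ≤ T → Real.log n ≤ 2 * L := by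
    intro n hn hnT
    have h1 : (n : ℝ) ≤ (H : ℝ) ^ 2 := by exact_mod_cast hnT.trans hTH
    calc Real.log n ≤ Real.log ((H : ℝ) ^ 2) := Real.log_le_log (by exact_mod_cast hn) h1
      _ = 2 * L := by rw [Real.log_pow, hLdef]; push_cast; rfl
  -- the weights
  obtain ⟨w, hw⟩ : ∃ w : ℕ → ℝ, w = fun n => if n ≤ T then ArithmeticFunction.vonMangoldt n / (3 * L) else 0 :=
    ⟨_, rfl⟩
  have hΛ : ∀ n : ℕ, n ≤ T → ArithmeticFunction.vonMangoldt n ≤ 2 * L := by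
    intro n hn
    rcases Nat.eq_zero_or_pos n with rfl | hn0
    · simp only [ArithmeticFunction.map_zero]
      linarith
    · exact ArithmeticFunction.vonMangoldt_le_log.trans (hlogT n hn0 hn)
  have hw1 : ∀ n, |w n| ≤ 1 := by
    intro n
    rw [hw]
    dsimp only
    split_ifs with hn
    · rw [abs_of_nonneg (div_nonneg ArithmeticFunction.vonMangoldt_nonneg (by linarith)), div_le_one (by linarith)]
      linarith [hΛ n hn]
    · rw [abs_zero]
      exact zero_le_one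
  obtain ⟨Bad₁, hs₁, hc₁, hb₁⟩ := hALL H (by omega) T R hR z (by rw [← hLdef]; exact hzge)
    (by rw [← hLdef]; exact hzle) s hs w hw1
  have hR2 : ∀ i, (H : ℝ) ^ (1 / e : ℝ) ≤ R i ∧ R i ≤ H ∧ (T : ℝ) ≤ (R i : ℝ) ^ 2 := by
    intro i
    obtain ⟨h1, h2, h3⟩ := hR i
    refine ⟨h1, h2, h3.trans ?_⟩
    have hRi : (1 : ℝ) ≤ R i := by
      refine le_trans ?_ h1
      exact Real.one_le_rpow (by exact_mod_cast (by omega : 1 ≤ H)) (by positivity)
    calc (R i : ℝ) ^ (2 - 1 / e : ℝ) ≤ (R i : ℝ) ^ (2 : ℝ) := by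
          apply Real.rpow_le_rpow_of_exponent_le hRi
          have : (0 : ℝ) ≤ 1 / e := by positivity
          linarith
      _ = (R i : ℝ) ^ 2 := by
          rw [← Real.rpow_natCast]
          norm_num
  obtain ⟨Bad₃, hs₃, hc₃, hb₃⟩ := hPP H (by omega) R T hR2 s hs
  have hM := hMTP H (by omega) z hz1 (by rw [← hLdef]; exact hzle)
  simp only [← hLdef] at hc₁ hb₁ hc₃ hb₃ hM
  obtain ⟨Bad₄, hBad4⟩ : ∃ Bad₄ : Finset (Fin k → ℕ × ℕ),
      Bad₄ = (Bq R R).filter (fun v => ∃ i, ((v i).1 : ℝ) < R i / L ^ (A + 1)) := ⟨_, rfl⟩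
  have hc₄ : (Bad₄.card : ℝ) ≤ k * (vq R R / L ^ (A + 1)) := by
    rw [hBad4]
    exact psip_small R R (L ^ (A + 1)) (hpos _)
  refine ⟨Bad₁ ∪ Bad₃ ∪ Bad₄, ?_, ?_, ?_⟩
  · refine union_subset (union_subset hs₁ hs₃) ?_
    rw [hBad4]
    exact filter_subset _ _
  · have h1 : ((Bad₁ ∪ Bad₃ ∪ Bad₄).card : ℝ) ≤ Bad₁.card + Bad₃.card + Bad₄.card := by
      have a1 := card_union_le (Bad₁ ∪ Bad₃) Bad₄
      have a2 := card_union_le Bad₁ Bad₃
      exact_mod_cast (by omega : (Bad₁ ∪ Bad₃ ∪ Bad₄).card ≤ Bad₁.card + Bad₃.card + Bad₄.card)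
    have h2 : vq R R / L ^ (A + k + 6) ≤ vq R R / L ^ (A + 1) :=
      div_le_div_of_nonneg_left hvq (hpos _) (hpow (by omega))
    have h3 : vq R R / L ^ (3 * k + A + 8) ≤ vq R R / L ^ (A + 1) :=
      div_le_div_of_nonneg_left hvq (hpos _) (hpow (by omega))
    have h4 : ((k : ℝ) + 2) * (vq R R / L ^ (A + 1)) ≤ vq R R / L ^ A := by
      rw [pow_succ, mul_div_assoc', div_le_div_iff₀ (by positivity) (by positivity)]
      have : ((k : ℝ) + 2) * (vq R R * L ^ A) ≤ L * (vq R R * L ^ A) :=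
        mul_le_mul_of_nonneg_right (by linarith) (by positivity)
      linarith
    linarith
  · intro v hv hvB
    simp only [mem_union, not_or] at hvB
    obtain ⟨⟨hv1, hv3⟩, hv4⟩ := hvB
    have hvb : ∀ i, (R i : ℝ) / L ^ (A + 1) ≤ (v i).1 := by
      intro i
      by_contra hcon
      rw [not_le] at hcon
      exact hv4 (by rw [hBad4, mem_filter]; exact ⟨hv, i, hcon⟩)
    refine ⟨hvb, fun y hy hyT => ?_⟩
    have hyD : L ^ D ≤ y := hgr.trans hy
    have hy0 : (0 : ℝ) ≤ y := by positivity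
    have hy1 : 1 ≤ y := by
      have : (1 : ℝ) ≤ y := (one_le_pow₀ hL1).trans hyD
      exact_mod_cast this
    have hyL : Real.log y ≤ 2 * L := hlogT y hy1 hyT
    have hsubT : ∀ n ∈ Icc 1 y, n ∈ Icc 1 T := by
      intro n hn
      rw [mem_Icc] at hn ⊢
      exact ⟨hn.1, hn.2.trans hyT⟩
    have hpt := fun n (hn : n ∈ Icc 1 y) i => psip4_point (A := A) (by linarith : 2 ≤ L)
      hH3 hTH hRH hs hv hvb (hsubT n hn) i
    -- the size of the logarithms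
    have hlog : Real.log ((H : ℝ) ^ 5) ≤ 3 * (2 * L) := by
      rw [Real.log_pow, ← hLdef]
      push_cast
      linarith
    have hX1 : (1 : ℝ) ≤ (H : ℝ) ^ 5 := by
      have : (1 : ℝ) ≤ H := by exact_mod_cast (by omega : 1 ≤ H)
      exact one_le_pow₀ this
    have hI : ∀ n ∈ Icc 1 y, ∀ i, lamI (vl (fun i _ => s i) v i n) ≤ 3 * (2 * L) := fun n hn i =>
      (lamI_le _ _ hX1 (hpt n hn i).2).trans hlog
    -- first comparison
    have c1 := hb₁ v hv hv1 y ((hpow (by omega)).trans hyD) hyT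
    have c1' : |∑ n ∈ Icc 1 y, ArithmeticFunction.vonMangoldt n * ∏ i, lamI (vl (fun i _ => s i) v i n) -
        ∑ n ∈ Icc 1 y, ArithmeticFunction.vonMangoldt n * ∏ i, lamzI z (vl (fun i _ => s i) v i n)| ≤
        (3 * L) * (y / L ^ (A + k + 6)) := by
      have e1 : ∑ n ∈ Icc 1 y, ArithmeticFunction.vonMangoldt n * ∏ i, lamI (vl (fun i _ => s i) v i n) -
        ∑ n ∈ Icc 1 y, ArithmeticFunction.vonMangoldt n * ∏ i, lamzI z (vl (fun i _ => s i) v i n) =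
        (3 * L) * ∑ n ∈ Icc 1 y, w n * (∏ i, lamI (vl (fun i _ => s i) v i n) -
          ∏ i, lamzI z (vl (fun i _ => s i) v i n)) := by
        rw [← sum_sub_distrib, mul_sum]
        refine sum_congr rfl fun n hn => ?_
        have h1 : (3 * L) * w n = ArithmeticFunction.vonMangoldt n := by
          rw [hw]
          dsimp only
          rw [if_pos (mem_Icc.1 (hsubT n hn)).2]
          field_simp
        rw [← mul_assoc, h1]
        ring
      rw [e1, abs_mul, abs_of_pos (by linarith : 0 < 3 * L)]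
      exact mul_le_mul_of_nonneg_left c1 (by linarith)
    have hdeg : ∀ i, (pl (fun i => C (s i)) v i).natDegree ≤ 1 := fun i =>
      psip_deg (r := 0) (fun i => C (s i)) (fun i => by rw [natDegree_C]) v i
    have c2 := hM (pl (fun i => C (s i)) v) hdeg y hy
    have c3 := psip_IP y hy1 (2 * L) (by linarith) hyL (vl (fun i _ => s i) v) hI _
      (by convert hb₃ v hv hv3 y hy1 hyT using 3)
    have c4 := psip_zl y z (2 * L) (9 * L ^ (A + 2)) (L ^ E) (by linarith) (by positivity) hyL hVz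
      (vl (fun i _ => s i) v) (fun n hn hnX i => (hpt n hn i).1 hnX)
    have evl : ∀ (i : Fin k) (n : ℕ), (pl (fun i => C (s i)) v i).eval (n : ℤ) = vl (fun i _ => s i) v i n := by
      intro i n
      rw [psip_vl]
      simp only [Polynomial.eval_C]
    have e2 : ∑ n ∈ Icc 1 y, lamP (n : ℤ) * ∏ i, lamP ((pl (fun i => C (s i)) v i).eval (n : ℤ)) =
        ∑ n ∈ Icc 1 y, lamP (n : ℤ) * ∏ i, lamP (vl (fun i _ => s i) v i n) := by
      refine sum_congr rfl fun n hn => ?_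
      congr 1
      refine prod_congr rfl fun i _ => ?_
      rw [evl]
    have e3 : ∑ n ∈ Icc 1 y, ArithmeticFunction.vonMangoldt n * ∏ i, lz z ((pl (fun i => C (s i)) v i).eval (n : ℤ)) =
        ∑ n ∈ Icc 1 y, ArithmeticFunction.vonMangoldt n * ∏ i, lz z (vl (fun i _ => s i) v i n) := by
      refine sum_congr rfl fun n hn => ?_
      congr 1
      refine prod_congr rfl fun i _ => ?_
      rw [evl]
    rw [e3] at c2
    rw [e2]
    obtain ⟨n1, n2, n3, n4⟩ := psip4_num k A E D B₁ L y hL6 hD hy0 hyD (Real.log y) hyL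
      (Real.log_natCast_nonneg y)
    obtain ⟨SI, hSI⟩ : ∃ S : ℝ, S = ∑ n ∈ Icc 1 y, ArithmeticFunction.vonMangoldt n *
        ∏ i, lamI (vl (fun i _ => s i) v i n) := ⟨_, rfl⟩
    obtain ⟨Sz, hSz⟩ : ∃ S : ℝ, S = ∑ n ∈ Icc 1 y, ArithmeticFunction.vonMangoldt n *
        ∏ i, lamzI z (vl (fun i _ => s i) v i n) := ⟨_, rfl⟩
    obtain ⟨Sl, hSl⟩ : ∃ S : ℝ, S = ∑ n ∈ Icc 1 y, ArithmeticFunction.vonMangoldt n *
        ∏ i, lz z (vl (fun i _ => s i) v i n) := ⟨_, rfl⟩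
    obtain ⟨SP, hSP⟩ : ∃ S : ℝ, S = ∑ n ∈ Icc 1 y, lamP (n : ℤ) * ∏ i, lamP (vl (fun i _ => s i) v i n) := ⟨_, rfl⟩
    rw [← hSI, ← hSz] at c1'
    rw [← hSl] at c2
    rw [← hSI, ← hSP] at c3
    rw [← hSz, ← hSl] at c4
    rw [← hSP]
    have h1 := abs_le.1 c1'
    have h2 := abs_le.1 c2
    have h3 := abs_le.1 c3
    have h4 := abs_le.1 c4
    rw [abs_le]
    constructor <;> linarith [h1.1, h1.2, h2.1, h2.2, h3.1, h3.2, h4.1, h4.2]

end Pool.Agent.helper24_UT.Psip4
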