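import Pool.Agent.helper24_UT.Stm15
import Pool.Agent.helper24_UT.In3
import Pool.Agent.helper24_UT.Pp3
import Pool.Agent.helper24_UT.R1

set_option autoImplicit false

namespace Pool.Agent.helper24_UT.R18

open Finset Polynomial
open Pool.Agent.helper24_UT
open Pool.Agent.H373R2.T7 (lamI lamzI lamz Vz pz lamP)
open Pool.Agent.H807R2.Dav (ee)

/-- the value `(c + b n) / a` -/
def mm (a b : ℕ) (c : ℤ) (n : ℕ) : ℤ := (c + b * n) / a

/-- the `n` in `(x, x + y]` with `a ∣ c + b n` -/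
def QQ (a b : ℕ) (c : ℤ) (x y : ℕ) : Finset ℕ := (Ioc x (x + y)).filter (fun n : ℕ => (a : ℤ) ∣ c + b * n)

lemma mm_mul {a b : ℕ} {c : ℤ} {n : ℕ} (h : (a : ℤ) ∣ c + b * n) : (a : ℤ) * mm a b c n = c + b * n := by
  unfold mm
  exact Int.mul_ediv_cancel' h

lemma lamzI_eq (z : ℕ) (m : ℤ) (hm : 1 ≤ m) : lamzI z m = lz z m := by
  unfold lamzI lz lamz
  rw [if_pos hm]
  have : (∀ p ∈ pz z, ¬ p ∣ m.toNat) ↔ ∀ p ∈ pz z, ¬ (p : ℤ) ∣ m := by
    constructor
    · intro h p hp hd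
      apply h p hp
      rw [← Int.natCast_dvd_natCast, Int.toNat_of_nonneg (by omega)]
      exact hd
    · intro h p hp hd
      apply h p hp
      rw [← Int.natCast_dvd_natCast, Int.toNat_of_nonneg (by omega)] at hd
      exact hd
  by_cases h : ∀ p ∈ pz z, ¬ p ∣ m.toNat
  · rw [if_pos h, if_pos (this.1 h)]
  · rw [if_neg h, if_neg (fun h' => h (this.2 h'))]

lemma lamzI_zero (z : ℕ) (m : ℤ) (hm : ¬ 1 ≤ m) : lamzI z m = 0 := by
  unfold lamzI
  rw [if_neg hm]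

/-- the sum of the model -/
lemma model (z a b p q x y K : ℕ) (c : ℤ) (s W : ℝ) (ha : 1 ≤ a) (hb : 1 ≤ b) (hab : IsCoprime (a : ℤ) b)
    (h : (a : ℤ) * p - b * q = c) (hy : y ≤ K) (hW : 0 ≤ W)
    (hM : ∀ T₁ T₂ : ℤ, T₁ ≤ T₂ → T₂ - T₁ ≤ K →
      |∑ t ∈ Ioc T₁ T₂, lz z ((a : ℤ) * t + q) * lz z ((b : ℤ) * t + p) - ((T₂ - T₁ : ℤ) : ℝ) * s| ≤ W) :
    |∑ n ∈ QQ a b c x y, lamzI z (n : ℤ) * lamzI z (mm a b c n) -
      (((QQ a b c x y).filter (fun n => 1 ≤ mm a b c n)).card : ℝ) * s| ≤ W := by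
  have ha0 : (0 : ℤ) < a := by exact_mod_cast ha
  have hb0 : (0 : ℤ) < b := by exact_mod_cast hb
  set T₁ : ℤ := max (((x : ℤ) - q) / a) ((-(p : ℤ)) / b) with hT₁
  set T₂ : ℤ := ((x : ℤ) + y - q) / a with hT₂
  set j : ℤ → ℕ := fun t => ((a : ℤ) * t + q).toNat with hj
  -- the points of the interval
  have hmem : ∀ t : ℤ, t ∈ Ioc T₁ T₂ ↔ ((x : ℤ) < a * t + q ∧ (a : ℤ) * t + q ≤ x + y ∧ 1 ≤ (b : ℤ) * t + p) := by
    intro t
    rw [mem_Ioc, hT₁, max_lt_iff, hT₂]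
    have e1 : ((x : ℤ) - q) / a < t ↔ (x : ℤ) - q < t * a := Int.ediv_lt_iff_lt_mul ha0
    have e2 : (-(p : ℤ)) / b < t ↔ -(p : ℤ) < t * b := Int.ediv_lt_iff_lt_mul hb0
    have e3 : t ≤ ((x : ℤ) + y - q) / a ↔ t * a ≤ (x : ℤ) + y - q := Int.le_ediv_iff_mul_le ha0
    rw [e1, e2, e3]
    constructor
    · rintro ⟨⟨h1, h2⟩, h3⟩
      refine ⟨by linarith [mul_comm t (a : ℤ)], by linarith [mul_comm t (a : ℤ)], ?_⟩
      have := mul_comm t (b : ℤ)
      omega
    · rintro ⟨h1, h2, h3⟩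
      refine ⟨⟨by linarith [mul_comm t (a : ℤ)], ?_⟩, by linarith [mul_comm t (a : ℤ)]⟩
      have := mul_comm t (b : ℤ)
      omega
  have hjc : ∀ t ∈ Ioc T₁ T₂, ((j t : ℕ) : ℤ) = a * t + q := by
    intro t ht
    have h1 := (hmem t).1 ht
    rw [hj]
    exact Int.toNat_of_nonneg (by have := h1.1; have : (0 : ℤ) ≤ x := Int.natCast_nonneg x; omega)
  have hval : ∀ t ∈ Ioc T₁ T₂, c + b * ((j t : ℕ) : ℤ) = a * (b * t + p) := by
    intro t ht
    rw [hjc t ht, ← h]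
    ring
  have hmmv : ∀ t ∈ Ioc T₁ T₂, mm a b c (j t) = b * t + p := by
    intro t ht
    unfold mm
    rw [hval t ht, Int.mul_ediv_cancel_left _ ha0.ne']
  have himg : (QQ a b c x y).filter (fun n => 1 ≤ mm a b c n) = (Ioc T₁ T₂).image j := by
    ext n
    rw [mem_image, mem_filter, QQ, mem_filter, mem_Ioc]
    constructor
    · rintro ⟨⟨⟨h1, h2⟩, h3⟩, h4⟩
      have h5 : (a : ℤ) ∣ (b : ℤ) * ((n : ℤ) - q) := by
        have e : (b : ℤ) * ((n : ℤ) - q) = (c + b * n) - a * p := by rw [← h]; ring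
        rw [e]
        exact dvd_sub h3 (dvd_mul_right _ _)
      obtain ⟨t, ht⟩ := hab.dvd_of_dvd_mul_left h5
      have hn : (n : ℤ) = a * t + q := by linarith
      have hm : mm a b c n = b * t + p := by
        unfold mm
        have e : c + b * (n : ℤ) = a * (b * t + p) := by rw [hn, ← h]; ring
        rw [e, Int.mul_ediv_cancel_left _ ha0.ne']
      refine ⟨t, (hmem t).2 ⟨?_, ?_, ?_⟩, ?_⟩
      · rw [← hn]; exact_mod_cast h1
      · rw [← hn]; exact_mod_cast h2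
      · rw [← hm]; exact h4
      · rw [hj]
        show ((a : ℤ) * t + q).toNat = n
        rw [← hn, Int.toNat_natCast]
    · rintro ⟨t, ht, rfl⟩
      have h1 := (hmem t).1 ht
      have h2 := hjc t ht
      refine ⟨⟨⟨?_, ?_⟩, ?_⟩, ?_⟩
      · zify; rw [h2]; exact h1.1
      · zify; rw [h2]; exact h1.2.1
      · rw [hval t ht]; exact dvd_mul_right _ _
      · rw [hmmv t ht]; exact h1.2.2
  have hinj : Set.InjOn j (Ioc T₁ T₂ : Finset ℤ) := by
    intro t ht t' ht' hh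
    have h1 := hjc t ht
    have h2 := hjc t' ht'
    rw [hh] at h1
    have h3 : (a : ℤ) * t = a * t' := by linarith
    exact mul_left_cancel₀ ha0.ne' h3
  have hsum : ∑ n ∈ QQ a b c x y, lamzI z (n : ℤ) * lamzI z (mm a b c n) =
      ∑ t ∈ Ioc T₁ T₂, lz z ((a : ℤ) * t + q) * lz z ((b : ℤ) * t + p) := by
    have e1 : ∑ n ∈ QQ a b c x y, lamzI z (n : ℤ) * lamzI z (mm a b c n) =
        ∑ n ∈ (QQ a b c x y).filter (fun n => 1 ≤ mm a b c n), lamzI z (n : ℤ) * lamzI z (mm a b c n) := by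
      rw [sum_filter]
      apply sum_congr rfl
      intro n _
      split_ifs with h1
      · rfl
      · rw [lamzI_zero z _ h1, mul_zero]
    rw [e1, himg, sum_image hinj]
    apply sum_congr rfl
    intro t ht
    have h1 := (hmem t).1 ht
    have hx0 : (0 : ℤ) ≤ x := Int.natCast_nonneg x
    rw [hmmv t ht, hjc t ht, lamzI_eq z _ (by omega), lamzI_eq z _ h1.2.2]
  have hcard : ((QQ a b c x y).filter (fun n => 1 ≤ mm a b c n)).card = (T₂ - T₁).toNat := by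
    rw [himg, card_image_of_injOn hinj, Int.card_Ioc]
  rw [hsum, hcard]
  rcases le_or_gt T₁ T₂ with hT | hT
  · have h1 : ((((T₂ - T₁).toNat : ℕ) : ℤ) : ℝ) = ((T₂ - T₁ : ℤ) : ℝ) := by
      rw [Int.toNat_of_nonneg (by omega)]
    have h2 : (((T₂ - T₁).toNat : ℕ) : ℝ) = ((T₂ - T₁ : ℤ) : ℝ) := by
      rw [← h1]; norm_cast
    rw [h2]
    refine hM T₁ T₂ hT ?_
    have h3 : T₂ ≤ ((x : ℤ) - q) / a + y := by
      rw [hT₂, ← Int.add_mul_ediv_right _ _ ha0.ne']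
      apply Int.ediv_le_ediv ha0
      have : (y : ℤ) * 1 ≤ y * a := mul_le_mul_of_nonneg_left (by exact_mod_cast ha) (Int.natCast_nonneg y)
      linarith
    have h4 : ((x : ℤ) - q) / a ≤ T₁ := le_max_left _ _
    have h5 : (y : ℤ) ≤ K := by exact_mod_cast hy
    omega
  · have h1 : Ioc T₁ T₂ = ∅ := Ioc_eq_empty (by omega)
    have h2 : (T₂ - T₁).toNat = 0 := by omega
    rw [h1, h2]
    simpa using hW

lemma lamP_le (m : ℤ) : 0 ≤ lamP m ∧ lamP m ≤ lamI m := by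
  unfold lamP lamI
  by_cases hm : 1 ≤ m
  · rw [if_pos hm]
    split_ifs with hp
    · exact ⟨Real.log_natCast_nonneg _, (ArithmeticFunction.vonMangoldt_apply_prime hp).ge⟩
    · exact ⟨le_rfl, ArithmeticFunction.vonMangoldt_nonneg⟩
  · rw [if_neg hm]
    have h0 : m.toNat = 0 := by omega
    rw [h0, if_neg Nat.not_prime_zero]
    exact ⟨le_rfl, le_rfl⟩

lemma lamI_le (m : ℤ) (U M : ℝ) (hU : 1 ≤ U) (hm : (m : ℝ) ≤ U) (hM : Real.log U ≤ M) : 0 ≤ lamI m ∧ lamI m ≤ M := by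
  have hM0 : 0 ≤ M := (Real.log_nonneg hU).trans hM
  unfold lamI
  by_cases h1 : 1 ≤ m
  · rw [if_pos h1]
    refine ⟨ArithmeticFunction.vonMangoldt_nonneg, ?_⟩
    refine (ArithmeticFunction.vonMangoldt_le_log).trans (le_trans ?_ hM)
    obtain ⟨n, rfl⟩ : ∃ n : ℕ, m = (n : ℤ) := ⟨m.toNat, by omega⟩
    rw [Int.toNat_natCast]
    have hn : (1 : ℝ) ≤ n := by exact_mod_cast h1
    exact Real.log_le_log (by linarith) (by exact_mod_cast hm)
  · rw [if_neg h1]
    exact ⟨le_rfl, hM0⟩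

lemma mm_inj {a b : ℕ} {c : ℤ} {x y : ℕ} (hb : 1 ≤ b) : Set.InjOn (mm a b c) (QQ a b c x y : Finset ℕ) := by
  intro n hn n' hn' hh
  have h1 := mm_mul (mem_filter.1 hn).2
  have h2 := mm_mul (mem_filter.1 hn').2
  rw [hh, h2] at h1
  have hb0 : (0 : ℤ) < b := by exact_mod_cast hb
  have h3 : (b : ℤ) * n = b * n' := by linarith
  have h4 := mul_left_cancel₀ hb0.ne' h3
  exact_mod_cast h4

/-- proper prime powers are rare in short intervals -/
lemma ppow (a b x y J : ℕ) (c : ℤ) (U M : ℝ) (ha : 1 ≤ a) (hb : 1 ≤ b) (hU : 1 ≤ U) (hM : Real.log U ≤ M)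
    (hn : ∀ n ∈ QQ a b c x y, (n : ℝ) ≤ U ∧ (mm a b c n : ℝ) ≤ U) (hJ : ∀ j : ℕ, (2 : ℝ) ^ j ≤ U → j ≤ J) :
    |∑ n ∈ QQ a b c x y, (lamI (n : ℤ) * lamI (mm a b c n) - lamP (n : ℤ) * lamP (mm a b c n))| ≤
      M ^ 2 * ((J * (Nat.sqrt y + 1) : ℕ) + (J * (Nat.sqrt (b * y) + 1) : ℕ)) := by
  classical
  have ha0 : (0 : ℤ) < a := by exact_mod_cast ha
  have hM0 : 0 ≤ M := (Real.log_nonneg hU).trans hM
  set B1 : Finset ℕ := (QQ a b c x y).filter (fun n : ℕ => lamI (n : ℤ) ≠ lamP (n : ℤ)) with hB1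
  set B2 : Finset ℕ := (QQ a b c x y).filter (fun n : ℕ => lamI (mm a b c n) ≠ lamP (mm a b c n)) with hB2
  have hpow : ∀ (m : ℤ) (j r : ℕ), (m : ℝ) ≤ U → 2 ≤ r → m = (r : ℤ) ^ j → j ≤ J := by
    intro m j r h1 h2 h3
    apply hJ
    refine le_trans ?_ h1
    rw [h3]
    push_cast
    exact pow_le_pow_left₀ (by norm_num) (by exact_mod_cast h2) j
  have h1 : B1.card ≤ J * (Nat.sqrt y + 1) := by
    refine le_trans ?_ (Pp3.card_pp y J (x : ℤ))
    apply card_le_card_of_injOn (fun n => n - x)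
    · intro n hn'
      rw [hB1, coe_filter] at hn'
      obtain ⟨h2, h3⟩ := hn'
      have h4 := (mem_Ioc.1 (mem_filter.1 h2).1)
      obtain ⟨j, r, hj, hr, hm⟩ := Pp3.ne_imp _ h3
      rw [coe_filter]
      beta_reduce
      refine ⟨mem_Icc.2 ⟨by omega, by omega⟩, j, r, hj, ?_, ?_⟩
      · exact hpow _ j r (by exact_mod_cast (hn n h2).1) hr hm
      · rw [← hm]
        omega
    · intro n hn1 n' hn1' hh
      rw [hB1, coe_filter] at hn1 hn1'
      have h4 := (mem_Ioc.1 (mem_filter.1 hn1.1).1)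
      have h5 := (mem_Ioc.1 (mem_filter.1 hn1'.1).1)
      simp only at hh
      omega
  have h2 : B2.card ≤ J * (Nat.sqrt (b * y) + 1) := by
    set m₀ : ℤ := (c + b * x) / a with hm₀
    refine le_trans ?_ (Pp3.card_pp (b * y) J m₀)
    have hrange : ∀ n ∈ QQ a b c x y, m₀ < mm a b c n ∧ mm a b c n ≤ m₀ + b * y := by
      intro n hn'
      have h4 := (mem_Ioc.1 (mem_filter.1 hn').1)
      have h5 := mm_mul (mem_filter.1 hn').2
      have h6 : (x : ℤ) < n := by exact_mod_cast h4.1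
      have h7 : (n : ℤ) ≤ x + y := by exact_mod_cast h4.2
      have hb0 : (0 : ℤ) < b := by exact_mod_cast hb
      constructor
      · rw [hm₀, Int.ediv_lt_iff_lt_mul ha0, mul_comm (mm a b c n) (a : ℤ), h5]
        have : (b : ℤ) * x < b * n := mul_lt_mul_of_pos_left h6 hb0
        linarith
      · rw [hm₀, ← Int.add_mul_ediv_right _ _ ha0.ne', Int.le_ediv_iff_mul_le ha0, mul_comm (mm a b c n) (a : ℤ), h5]
        have h8 : (b : ℤ) * n ≤ b * (x + y) := mul_le_mul_of_nonneg_left h7 hb0.le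
        have h9 : (b : ℤ) * y * 1 ≤ b * y * a :=
          mul_le_mul_of_nonneg_left (by exact_mod_cast ha) (by positivity)
        linarith [mul_add (b : ℤ) x y]
    apply card_le_card_of_injOn (fun n => (mm a b c n - m₀).toNat)
    · intro n hn'
      rw [hB2, coe_filter] at hn'
      obtain ⟨h2, h3⟩ := hn'
      have h4 := hrange n h2
      obtain ⟨j, r, hj, hr, hm⟩ := Pp3.ne_imp _ h3
      rw [coe_filter]
      beta_reduce
      have h6 : 1 ≤ (mm a b c n - m₀).toNat := by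
        have := h4.1
        clear_value m₀
        omega
      refine ⟨mem_Icc.2 ⟨h6, ?_⟩, j, r, hj, ?_, ?_⟩
      · zify
        rw [Int.toNat_of_nonneg (by linarith [h4.1])]
        linarith [h4.2]
      · exact hpow _ j r (hn n h2).2 hr hm
      · rw [← hm, Int.toNat_of_nonneg (by linarith [h4.1])]
        ring
    · intro n hn1 n' hn1' hh
      rw [hB2, coe_filter] at hn1 hn1'
      have h4 := hrange n hn1.1
      have h5 := hrange n' hn1'.1
      simp only at hh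
      refine mm_inj hb hn1.1 hn1'.1 ?_
      have e1 := h4.1
      have e2 := h5.1
      clear_value m₀
      omega
  have h3 : ∑ n ∈ QQ a b c x y, (lamI (n : ℤ) * lamI (mm a b c n) - lamP (n : ℤ) * lamP (mm a b c n)) =
      ∑ n ∈ B1 ∪ B2, (lamI (n : ℤ) * lamI (mm a b c n) - lamP (n : ℤ) * lamP (mm a b c n)) := by
    symm
    apply sum_subset
    · exact union_subset (filter_subset _ _) (filter_subset _ _)
    · intro n hn1 hn2
      rw [mem_union, not_or, hB1, hB2, mem_filter, mem_filter] at hn2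
      have e1 : lamI (n : ℤ) = lamP (n : ℤ) := by
        by_contra hne
        exact hn2.1 ⟨hn1, hne⟩
      have e2 : lamI (mm a b c n) = lamP (mm a b c n) := by
        by_contra hne
        exact hn2.2 ⟨hn1, hne⟩
      rw [e1, e2, sub_self]
  rw [h3]
  refine (abs_sum_le_sum_abs _ _).trans ?_
  have h4 : ∀ n ∈ B1 ∪ B2, |lamI (n : ℤ) * lamI (mm a b c n) - lamP (n : ℤ) * lamP (mm a b c n)| ≤ M ^ 2 := by
    intro n hn1
    have hn2 : n ∈ QQ a b c x y := (union_subset (filter_subset _ _) (filter_subset _ _)) hn1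
    have b1 := lamI_le (n : ℤ) U M hU (by exact_mod_cast (hn n hn2).1) hM
    have b2 := lamI_le (mm a b c n) U M hU (hn n hn2).2 hM
    have b3 := lamP_le (n : ℤ)
    have b4 := lamP_le (mm a b c n)
    have b5 : lamP (n : ℤ) * lamP (mm a b c n) ≤ lamI (n : ℤ) * lamI (mm a b c n) :=
      mul_le_mul b3.2 b4.2 b4.1 b1.1
    have b6 : lamI (n : ℤ) * lamI (mm a b c n) ≤ M * M := mul_le_mul b1.2 b2.2 b2.1 hM0
    have b7 : 0 ≤ lamP (n : ℤ) * lamP (mm a b c n) := mul_nonneg b3.1 b4.1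
    rw [abs_of_nonneg (by linarith)]
    nlinarith
  refine (sum_le_card_nsmul _ _ _ h4).trans ?_
  rw [nsmul_eq_mul, mul_comm]
  apply mul_le_mul_of_nonneg_left _ (by positivity)
  have h5 : (B1 ∪ B2).card ≤ J * (Nat.sqrt y + 1) + J * (Nat.sqrt (b * y) + 1) :=
    (card_union_le _ _).trans (add_le_add h1 h2)
  exact_mod_cast h5

/-- the number of the solutions -/
lemma cnt_eq (a b : ℕ) (c : ℤ) (X : ℕ) (ha : 1 ≤ a) : cnt3 a b c X =
    ((Icc 1 X).filter (fun n : ℕ => n.Prime ∧ (a : ℤ) ∣ c + b * n ∧ (mm a b c n).toNat.Prime)).card := by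
  have ha0 : (0 : ℤ) < a := by exact_mod_cast ha
  unfold cnt3
  set F := (Icc 1 X).filter (fun n : ℕ => n.Prime ∧ (a : ℤ) ∣ c + b * n ∧ (mm a b c n).toNat.Prime) with hF
  have h1 : {x : ℕ × ℕ | x.1.Prime ∧ x.2.Prime ∧ (a : ℤ) * x.1 - b * x.2 = c ∧ x.2 ≤ X} =
      (fun n : ℕ => ((mm a b c n).toNat, n)) '' (F : Set ℕ) := by
    ext ⟨p, q⟩
    simp only [Set.mem_ofPred_eq, Set.mem_image, mem_coe, hF, mem_filter, mem_Icc, Prod.mk.injEq]
    constructor
    · rintro ⟨h1, h2, h3, h4⟩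
      have e : c + b * (q : ℤ) = a * p := by linarith
      have e2 : mm a b c q = p := by
        unfold mm
        rw [e, Int.mul_ediv_cancel_left _ ha0.ne']
      refine ⟨q, ⟨⟨h2.one_le, h4⟩, h2, ?_, ?_⟩, ?_, rfl⟩
      · rw [e]; exact dvd_mul_right _ _
      · rw [e2, Int.toNat_natCast]; exact h1
      · rw [e2, Int.toNat_natCast]
    · rintro ⟨n, ⟨⟨h1, h2⟩, h3, h4, h5⟩, h6, rfl⟩
      subst h6
      refine ⟨h5, h3, ?_, h2⟩
      have e := mm_mul h4
      rw [Int.toNat_of_nonneg (by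
        by_contra hneg
        have h0 : (mm a b c n).toNat = 0 := by omega
        rw [h0] at h5
        exact Nat.not_prime_zero h5), e]
      ring
  rw [h1, Set.ncard_image_of_injective _ (fun n n' hh => (Prod.mk.inj hh).2), Set.ncard_coe_finset]

/-- the weight -/
noncomputable def rho (a b : ℕ) (c : ℤ) (n : ℕ) : ℝ := 1 / (Real.log (max 2 (((c : ℝ) + b * n) / a)) * Real.log n)

open Classical in
/-- the coefficient -/
noncomputable def al (a b : ℕ) (c : ℤ) (s : ℝ) (n : ℕ) : ℝ :=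
  if (a : ℤ) ∣ c + b * n ∧ 2 * (a : ℤ) ≤ c + b * n then lamP (n : ℤ) * lamP (mm a b c n) - s else 0

lemma card_Ioc_diff (P : ℕ → Prop) [DecidablePred P] (l x y : ℕ) (hl : l ≤ x + 1) :
    (((Icc l (x + y)).filter P).card : ℝ) - ((Icc l x).filter P).card = ((Ioc x (x + y)).filter P).card := by
  have h1 : (Icc l (x + y)).filter P = (Icc l x).filter P ∪ (Ioc x (x + y)).filter P := by
    rw [← filter_union]
    congr 1
    ext n
    simp only [mem_union, mem_Icc, mem_Ioc]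
    omega
  have h2 : Disjoint ((Icc l x).filter P) ((Ioc x (x + y)).filter P) := by
    apply disjoint_filter_filter
    rw [disjoint_left]
    intro n h1 h2
    rw [mem_Icc] at h1
    rw [mem_Ioc] at h2
    omega
  rw [h1, card_union_of_disjoint h2]
  push_cast
  ring

lemma sum_Ioc_diff (f : ℕ → ℝ) (P : ℕ → Prop) [DecidablePred P] (l x y : ℕ) (hl : l ≤ x + 1) :
    (∑ n ∈ (Icc l (x + y)).filter P, f n) - ∑ n ∈ (Icc l x).filter P, f n = ∑ n ∈ (Ioc x (x + y)).filter P, f n := by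
  have h1 : (Icc l (x + y)).filter P = (Icc l x).filter P ∪ (Ioc x (x + y)).filter P := by
    rw [← filter_union]
    congr 1
    ext n
    simp only [mem_union, mem_Icc, mem_Ioc]
    omega
  have h2 : Disjoint ((Icc l x).filter P) ((Ioc x (x + y)).filter P) := by
    apply disjoint_filter_filter
    rw [disjoint_left]
    intro n h1 h2
    rw [mem_Icc] at h1
    rw [mem_Ioc] at h2
    omega
  rw [h1, sum_union h2]
  ring

lemma diff_eq (a b : ℕ) (c : ℤ) (x y : ℕ) (ha : 1 ≤ a) (hx : 1 ≤ x) (s : ℝ) :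
    ((cnt3 a b c (x + y) : ℝ) - cnt3 a b c x) - s * (ex3 a b c (x + y) - ex3 a b c x) =
      ∑ n ∈ Ioc x (x + y), al a b c s n * rho a b c n := by
  classical
  have ha0 : (0 : ℤ) < a := by exact_mod_cast ha
  have haR : (0 : ℝ) < a := by exact_mod_cast ha
  have e1 : (cnt3 a b c (x + y) : ℝ) - cnt3 a b c x =
      (((Ioc x (x + y)).filter (fun n : ℕ => n.Prime ∧ (a : ℤ) ∣ c + b * n ∧ (mm a b c n).toNat.Prime)).card : ℝ) := by
    rw [cnt_eq a b c _ ha, cnt_eq a b c _ ha]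
    exact card_Ioc_diff _ 1 x y (by omega)
  have e2 : ex3 a b c (x + y) - ex3 a b c x =
      ∑ n ∈ (Ioc x (x + y)).filter (fun n : ℕ => (a : ℤ) ∣ c + b * n ∧ 2 * (a : ℤ) ≤ c + b * n),
        1 / (Real.log (((c : ℝ) + b * n) / a) * Real.log n) := by
    unfold ex3
    exact sum_Ioc_diff _ _ 2 x y (by omega)
  rw [e1, e2, card_filter, sum_filter]
  push_cast
  rw [mul_sum, ← sum_sub_distrib]
  apply sum_congr rfl
  intro n hn
  rw [mem_Ioc] at hn
  have hn2 : 2 ≤ n := by omega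
  have hln : 0 < Real.log n := Real.log_pos (by exact_mod_cast (by omega : 1 < n))
  unfold al
  by_cases h1 : (a : ℤ) ∣ c + b * n ∧ 2 * (a : ℤ) ≤ c + b * n
  · rw [if_pos h1, if_pos h1]
    obtain ⟨h2, h3⟩ := h1
    have h4 := mm_mul h2
    have h5 : 2 ≤ mm a b c n := by
      by_contra hlt
      push Not at hlt
      nlinarith
    have h6 : ((c : ℝ) + b * n) / a = (mm a b c n : ℝ) := by
      rw [div_eq_iff haR.ne', mul_comm (mm a b c n : ℝ) (a : ℝ)]
      exact_mod_cast h4.symm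
    have h7 : max 2 (((c : ℝ) + b * n) / a) = (mm a b c n : ℝ) := by
      rw [h6]
      exact max_eq_right (by exact_mod_cast h5)
    unfold rho
    rw [h7, h6]
    have h8 : (((mm a b c n).toNat : ℕ) : ℝ) = (mm a b c n : ℝ) := by
      have := Int.toNat_of_nonneg (show 0 ≤ mm a b c n by omega)
      exact_mod_cast congrArg (fun t : ℤ => (t : ℝ)) this
    have hlm : 0 < Real.log (mm a b c n : ℝ) := Real.log_pos (by exact_mod_cast (by omega : 1 < mm a b c n))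
    have h9 : lamP (n : ℤ) * lamP (mm a b c n) * (1 / (Real.log (mm a b c n : ℝ) * Real.log n)) =
        if n.Prime ∧ (a : ℤ) ∣ c + b * n ∧ (mm a b c n).toNat.Prime then 1 else 0 := by
      unfold lamP
      rw [Int.toNat_natCast, h8]
      by_cases g1 : n.Prime
      · by_cases g2 : (mm a b c n).toNat.Prime
        · rw [if_pos g1, if_pos g2, if_pos ⟨g1, h2, g2⟩]
          field_simp
        · rw [if_neg g2, if_neg (show ¬ (n.Prime ∧ (a : ℤ) ∣ c + b * n ∧ (mm a b c n).toNat.Prime) from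
            fun g => g2 g.2.2)]
          ring
      · rw [if_neg g1, if_neg (show ¬ (n.Prime ∧ (a : ℤ) ∣ c + b * n ∧ (mm a b c n).toNat.Prime) from
          fun g => g1 g.1)]
        ring
    rw [sub_mul, h9]
  · rw [if_neg h1, if_neg h1]
    rw [if_neg]
    · ring
    · rintro ⟨g1, g2, g3⟩
      apply h1
      refine ⟨g2, ?_⟩
      have h4 := mm_mul g2
      have h5 := g3.two_le
      have h6 : 2 ≤ mm a b c n := by omega
      nlinarith

lemma sum_shift (f : ℕ → ℝ) (x y : ℕ) : ∑ n ∈ Ioc x (x + y), f n = ∑ i ∈ Icc 1 y, f (x + i) := by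
  induction y with
  | zero => simp
  | succ y ih =>
    rw [← add_assoc, sum_Ioc_succ_top (by omega), sum_Icc_succ_top (by omega), ih, add_assoc]

lemma rho_nonneg (a b : ℕ) (c : ℤ) (n : ℕ) : 0 ≤ rho a b c n := by
  unfold rho
  have h1 : 0 ≤ Real.log (max 2 (((c : ℝ) + b * n) / a)) :=
    Real.log_nonneg (le_trans (by norm_num) (le_max_left _ _))
  have h2 : 0 ≤ Real.log n := Real.log_natCast_nonneg n
  positivity

lemma rho_anti (a b : ℕ) (c : ℤ) (n : ℕ) (ha : 1 ≤ a) (hn : 2 ≤ n) : rho a b c (n + 1) ≤ rho a b c n := by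
  unfold rho
  have haR : (0 : ℝ) < a := by exact_mod_cast ha
  have h1 : 0 < Real.log (max 2 (((c : ℝ) + b * n) / a)) :=
    Real.log_pos (lt_of_lt_of_le (by norm_num) (le_max_left _ _))
  have h2 : 0 < Real.log n := Real.log_pos (by exact_mod_cast (by omega : 1 < n))
  apply one_div_le_one_div_of_le (by positivity)
  apply mul_le_mul _ _ h2.le
  · exact (Real.log_nonneg (le_trans (by norm_num) (le_max_left _ _)))
  · apply Real.log_le_log (lt_of_lt_of_le (by norm_num) (le_max_left _ _))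
    apply max_le_max le_rfl
    apply div_le_div_of_nonneg_right _ haR.le
    push_cast
    nlinarith [(Nat.cast_nonneg b : (0 : ℝ) ≤ b)]
  · apply Real.log_le_log (by exact_mod_cast (by omega : 0 < n))
    push_cast
    linarith

lemma rho_le (a b : ℕ) (c : ℤ) (n : ℕ) (hn : 2 ≤ n) : rho a b c n ≤ 3 := by
  unfold rho
  have l2 := Real.log_two_gt_d9
  have h1 : Real.log 2 ≤ Real.log (max 2 (((c : ℝ) + b * n) / a)) :=
    Real.log_le_log (by norm_num) (le_max_left _ _)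
  have h2 : Real.log 2 ≤ Real.log n := Real.log_le_log (by norm_num) (by exact_mod_cast hn)
  rw [div_le_iff₀ (by nlinarith)]
  nlinarith

lemma abel_bound (a b : ℕ) (c : ℤ) (x y : ℕ) (s D : ℝ) (ha : 1 ≤ a) (hx : 1 ≤ x) (hD0 : 0 ≤ D)
    (hD : ∀ t ≤ y, |∑ n ∈ Ioc x (x + t), al a b c s n| ≤ D) :
    |((cnt3 a b c (x + y) : ℝ) - cnt3 a b c x) - s * (ex3 a b c (x + y) - ex3 a b c x)| ≤ 3 * D := by
  rw [diff_eq a b c x y ha hx s, sum_shift]
  rcases Nat.eq_zero_or_pos y with hy | hy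
  · subst hy
    simp
    exact hD0
  · have h1 := In3.abel (fun i => al a b c s (x + i)) (fun i => rho a b c (x + i)) D y
      (fun i hi _ => by
        have := rho_anti a b c (x + i) ha (by omega)
        rwa [add_assoc] at this)
      (fun i _ _ => rho_nonneg a b c (x + i))
      (fun t _ ht => by
        have := hD t ht
        rw [sum_shift] at this
        exact this) hy
    refine h1.trans ?_
    rw [mul_comm]
    exact mul_le_mul_of_nonneg_right (rho_le a b c (x + 1) (by omega)) hD0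

/-- the partial sums -/
lemma partial_eq (z a b x y : ℕ) (c : ℤ) (s g : ℝ) (ha : 1 ≤ a) :
    ∑ n ∈ Ioc x (x + y), al a b c s n =
      (∑ n ∈ QQ a b c x y, (lamI (n : ℤ) * lamI (mm a b c n) - lamzI z (n : ℤ) * lamzI z (mm a b c n))) -
      (∑ n ∈ QQ a b c x y, (lamI (n : ℤ) * lamI (mm a b c n) - lamP (n : ℤ) * lamP (mm a b c n))) +
      (∑ n ∈ QQ a b c x y, lamzI z (n : ℤ) * lamzI z (mm a b c n) -
        (((QQ a b c x y).filter (fun n => 1 ≤ mm a b c n)).card : ℝ) * g) +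
      (((QQ a b c x y).filter (fun n => 1 ≤ mm a b c n)).card : ℝ) * (g - s) +
      s * ((((QQ a b c x y).filter (fun n => 1 ≤ mm a b c n)).card : ℝ) -
        (((QQ a b c x y).filter (fun n => 2 ≤ mm a b c n)).card : ℝ)) := by
  classical
  have ha0 : (0 : ℤ) < a := by exact_mod_cast ha
  have h1 : ∑ n ∈ Ioc x (x + y), al a b c s n =
      ∑ n ∈ QQ a b c x y, lamP (n : ℤ) * lamP (mm a b c n) -
        s * (((QQ a b c x y).filter (fun n => 2 ≤ mm a b c n)).card : ℝ) := by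
    rw [card_filter]
    push_cast
    rw [mul_sum, ← sum_sub_distrib]
    unfold QQ
    rw [sum_filter]
    apply sum_congr rfl
    intro n _
    unfold al
    by_cases g1 : (a : ℤ) ∣ c + b * n
    · rw [if_pos g1]
      have h4 := mm_mul g1
      by_cases g2 : 2 ≤ mm a b c n
      · rw [if_pos g2, if_pos ⟨g1, by nlinarith⟩]
        ring
      · have g3 : ¬ ((a : ℤ) ∣ c + b * n ∧ 2 * (a : ℤ) ≤ c + b * n) := by
          rintro ⟨_, g4⟩
          apply g2
          by_contra hlt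
          push Not at hlt
          nlinarith
        rw [if_neg g2, if_neg g3]
        have h5 : lamP (mm a b c n) = 0 := by
          unfold lamP
          rw [if_neg]
          intro hp
          have := hp.two_le
          omega
        rw [h5]
        ring
    · rw [if_neg g1, if_neg (fun g => g1 g.1)]
  rw [h1, sum_sub_distrib, sum_sub_distrib]
  ring

lemma card_diff_le (a b x y : ℕ) (c : ℤ) (hb : 1 ≤ b) :
    0 ≤ (((QQ a b c x y).filter (fun n => 1 ≤ mm a b c n)).card : ℝ) -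
        (((QQ a b c x y).filter (fun n => 2 ≤ mm a b c n)).card : ℝ) ∧
      (((QQ a b c x y).filter (fun n => 1 ≤ mm a b c n)).card : ℝ) -
        (((QQ a b c x y).filter (fun n => 2 ≤ mm a b c n)).card : ℝ) ≤ 1 := by
  classical
  have h1 : (QQ a b c x y).filter (fun n => 2 ≤ mm a b c n) ⊆ (QQ a b c x y).filter (fun n => 1 ≤ mm a b c n) := by
    intro n hn
    rw [mem_filter] at hn ⊢
    exact ⟨hn.1, by omega⟩
  have h2 : (QQ a b c x y).filter (fun n => 1 ≤ mm a b c n) =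
      (QQ a b c x y).filter (fun n => 2 ≤ mm a b c n) ∪ (QQ a b c x y).filter (fun n => mm a b c n = 1) := by
    ext n
    simp only [mem_filter, mem_union]
    constructor
    · rintro ⟨g1, g2⟩
      by_cases g3 : 2 ≤ mm a b c n
      · exact Or.inl ⟨g1, g3⟩
      · exact Or.inr ⟨g1, by omega⟩
    · rintro (⟨g1, g2⟩ | ⟨g1, g2⟩)
      · exact ⟨g1, by omega⟩
      · exact ⟨g1, by omega⟩
  have h3 : ((QQ a b c x y).filter (fun n => mm a b c n = 1)).card ≤ 1 := by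
    rw [card_le_one]
    intro n hn n' hn'
    rw [mem_filter] at hn hn'
    exact mm_inj hb hn.1 hn'.1 (hn.2.trans hn'.2.symm)
  have h4 : ((QQ a b c x y).filter (fun n => 1 ≤ mm a b c n)).card ≤
      ((QQ a b c x y).filter (fun n => 2 ≤ mm a b c n)).card + 1 := by
    rw [h2]
    exact (card_union_le _ _).trans (by omega)
  have h5 := card_le_card h1
  have h4' : (((QQ a b c x y).filter (fun n => 1 ≤ mm a b c n)).card : ℝ) ≤
      ((QQ a b c x y).filter (fun n => 2 ≤ mm a b c n)).card + 1 := by exact_mod_cast h4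
  have h5' : (((QQ a b c x y).filter (fun n => 2 ≤ mm a b c n)).card : ℝ) ≤
      ((QQ a b c x y).filter (fun n => 1 ≤ mm a b c n)).card := by exact_mod_cast h5
  constructor <;> linarith

lemma card_QQ (a b x y : ℕ) (c : ℤ) (P : ℕ → Prop) [DecidablePred P] : (((QQ a b c x y).filter P).card : ℝ) ≤ y := by
  have h1 : ((QQ a b c x y).filter P).card ≤ (Ioc x (x + y)).card :=
    (card_filter_le _ _).trans (card_filter_le _ _)
  rw [Nat.card_Ioc] at h1
  exact_mod_cast (by omega : ((QQ a b c x y).filter P).card ≤ y)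

/-- the deterministic part -/
lemma det (z a b p q x K J : ℕ) (c : ℤ) (s g W D U M : ℝ) (ha : 1 ≤ a) (hb : 1 ≤ b) (hx : 1 ≤ x)
    (hab : IsCoprime (a : ℤ) b) (h : (a : ℤ) * p - b * q = c) (hW : 0 ≤ W) (hD : 0 ≤ D) (hs : 0 ≤ s)
    (hM : ∀ T₁ T₂ : ℤ, T₁ ≤ T₂ → T₂ - T₁ ≤ K →
      |∑ t ∈ Ioc T₁ T₂, lz z ((a : ℤ) * t + q) * lz z ((b : ℤ) * t + p) - ((T₂ - T₁ : ℤ) : ℝ) * g| ≤ W)
    (hDD : ∀ y ≤ K, |∑ n ∈ QQ a b c x y,
      (lamI (n : ℤ) * lamI (mm a b c n) - lamzI z (n : ℤ) * lamzI z (mm a b c n))| ≤ D)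
    (hU : 1 ≤ U) (hUM : Real.log U ≤ M)
    (hn : ∀ n ∈ QQ a b c x K, (n : ℝ) ≤ U ∧ (mm a b c n : ℝ) ≤ U) (hJ : ∀ j : ℕ, (2 : ℝ) ^ j ≤ U → j ≤ J) :
    ∀ y ≤ K, |((cnt3 a b c (x + y) : ℝ) - cnt3 a b c x) - s * (ex3 a b c (x + y) - ex3 a b c x)| ≤
      3 * (D + M ^ 2 * ((J * (Nat.sqrt K + 1) : ℕ) + (J * (Nat.sqrt (b * K) + 1) : ℕ)) + W + K * |g - s| + s) := by
  intro y hy
  have hPP0 : (0 : ℝ) ≤ M ^ 2 * ((J * (Nat.sqrt K + 1) : ℕ) + (J * (Nat.sqrt (b * K) + 1) : ℕ)) := by positivity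
  refine abel_bound a b c x y s _ ha hx (by positivity) ?_
  intro t ht
  have htK : t ≤ K := ht.trans hy
  rw [partial_eq z a b x t c s g ha]
  have b1 := hDD t htK
  have b2 : |∑ n ∈ QQ a b c x t, (lamI (n : ℤ) * lamI (mm a b c n) - lamP (n : ℤ) * lamP (mm a b c n))| ≤
      M ^ 2 * ((J * (Nat.sqrt K + 1) : ℕ) + (J * (Nat.sqrt (b * K) + 1) : ℕ)) := by
    refine (ppow a b x t J c U M ha hb hU hUM (fun n hn' => hn n ?_) hJ).trans ?_
    · unfold QQ at hn' ⊢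
      rw [mem_filter, mem_Ioc] at hn' ⊢
      exact ⟨⟨hn'.1.1, by omega⟩, hn'.2⟩
    · apply mul_le_mul_of_nonneg_left _ (by positivity)
      have e1 : J * (Nat.sqrt t + 1) ≤ J * (Nat.sqrt K + 1) :=
        Nat.mul_le_mul_left _ (Nat.add_le_add_right (Nat.sqrt_le_sqrt htK) 1)
      have e2 : J * (Nat.sqrt (b * t) + 1) ≤ J * (Nat.sqrt (b * K) + 1) :=
        Nat.mul_le_mul_left _ (Nat.add_le_add_right (Nat.sqrt_le_sqrt (Nat.mul_le_mul_left _ htK)) 1)
      have e3 : ((J * (Nat.sqrt t + 1) : ℕ) : ℝ) ≤ ((J * (Nat.sqrt K + 1) : ℕ) : ℝ) := by exact_mod_cast e1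
      have e4 : ((J * (Nat.sqrt (b * t) + 1) : ℕ) : ℝ) ≤ ((J * (Nat.sqrt (b * K) + 1) : ℕ) : ℝ) := by
        exact_mod_cast e2
      linarith
  have b3 := model z a b p q x t K c g W ha hb hab h htK hW hM
  have b4 : |(((QQ a b c x t).filter (fun n => 1 ≤ mm a b c n)).card : ℝ) * (g - s)| ≤ K * |g - s| := by
    rw [abs_mul, abs_of_nonneg (Nat.cast_nonneg _)]
    apply mul_le_mul_of_nonneg_right _ (abs_nonneg _)
    refine (card_QQ a b x t c _).trans ?_
    exact_mod_cast htK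
  obtain ⟨c1, c2⟩ := card_diff_le a b x t c hb
  have b5 : |s * ((((QQ a b c x t).filter (fun n => 1 ≤ mm a b c n)).card : ℝ) -
        (((QQ a b c x t).filter (fun n => 2 ≤ mm a b c n)).card : ℝ))| ≤ s := by
    rw [abs_mul, abs_of_nonneg hs, abs_of_nonneg c1]
    calc _ ≤ s * 1 := mul_le_mul_of_nonneg_left c2 hs
      _ = s := mul_one s
  rw [abs_le] at b1 b2 b3 b4 b5 ⊢
  constructor <;> linarith [b1.1, b1.2, b2.1, b2.2, b3.1, b3.2, b4.1, b4.2, b5.1, b5.2]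

lemma exists_pq (a b : ℕ) (c : ℤ) (ha : 1 ≤ a) (hb : 1 ≤ b) (hab : IsCoprime (a : ℤ) b) :
    ∃ p q : ℕ, (a : ℤ) * p - b * q = c := by
  obtain ⟨u, v, huv⟩ := hab
  have ha0 : (0 : ℤ) < a := by exact_mod_cast ha
  have ha1 : (1 : ℤ) ≤ a := by exact_mod_cast ha
  have hb0 : (0 : ℤ) < b := by exact_mod_cast hb
  have hb1 : (1 : ℤ) ≤ b := by exact_mod_cast hb
  have hr0 := Int.emod_nonneg (u * c) hb0.ne'
  have hrd := Int.emod_def (u * c) b
  set r := (u * c) % b with hr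
  have hP0 : 0 ≤ r + b * |c| := by positivity
  have e0 : (a : ℤ) * (r + b * |c|) - c = b * (- v * c - a * ((u * c) / b) + a * |c|) := by
    rw [hrd]
    linear_combination c * huv
  have hQ0 : 0 ≤ - v * c - a * ((u * c) / b) + a * |c| := by
    have h1 : (0 : ℤ) ≤ b * (- v * c - a * ((u * c) / b) + a * |c|) := by
      rw [← e0]
      have h2 : (1 : ℤ) * |c| ≤ (a * b) * |c| :=
        mul_le_mul_of_nonneg_right (by nlinarith) (abs_nonneg c)
      have h3 : c ≤ |c| := le_abs_self c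
      have h4 : 0 ≤ (a : ℤ) * r := mul_nonneg ha0.le hr0
      nlinarith
    by_contra hcon
    push Not at hcon
    nlinarith
  refine ⟨(r + b * |c|).toNat, (- v * c - a * ((u * c) / b) + a * |c|).toNat, ?_⟩
  rw [Int.toNat_of_nonneg hP0, Int.toNat_of_nonneg hQ0, ← e0]
  ring

/-- the choice of the parameters -/
lemma evK (e A1 C E N : ℕ) (he : 1 ≤ e) : ∃ N5 : ℕ, N ≤ N5 ∧ ∀ K : ℕ, N5 ≤ K → 3 ≤ K ∧ 1 ≤ Real.log K ∧
    (e : ℝ) ^ E ≤ Real.log K ∧ (e : ℝ) ^ A1 ≤ Real.log K ∧ (180 * (e * Real.log K) ^ (C + 3 + A1)) ^ 2 ≤ K := by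
  have hlim : Filter.Tendsto (fun N : ℕ => Real.log (N : ℝ)) Filter.atTop Filter.atTop :=
    Real.tendsto_log_atTop.comp (tendsto_natCast_atTop_atTop (R := ℝ))
  have he0 : (0 : ℝ) < e := by exact_mod_cast he
  set m := C + 3 + A1 with hm
  have h3 : ∀ᶠ N : ℕ in Filter.atTop, (180 * (e * Real.log N) ^ m) ^ 2 ≤ N := by
    have h4 := (tendsto_natCast_atTop_atTop (R := ℝ)).eventually
      ((Real.isLittleO_pow_log_id_atTop (n := 2 * m)).bound (show (0 : ℝ) < 1 / (180 ^ 2 * (e : ℝ) ^ (2 * m)) by positivity))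
    filter_upwards [h4, hlim.eventually_ge_atTop 1] with N h5 h6
    simp only [id] at h5
    rw [Real.norm_of_nonneg (by positivity), Real.norm_of_nonneg (by positivity), one_div, inv_mul_eq_div,
      le_div_iff₀ (by positivity)] at h5
    have e1 : (180 * (e * Real.log N) ^ m) ^ 2 = Real.log N ^ (2 * m) * (180 ^ 2 * (e : ℝ) ^ (2 * m)) := by
      rw [mul_pow, mul_pow, mul_pow, ← pow_mul, ← pow_mul, mul_comm m 2]
      ring
    rw [e1]
    exact h5
  obtain ⟨N0, h0⟩ := Filter.eventually_atTop.1 ((Filter.eventually_ge_atTop 3).and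
    ((hlim.eventually_ge_atTop 1).and ((hlim.eventually_ge_atTop ((e : ℝ) ^ E)).and
      ((hlim.eventually_ge_atTop ((e : ℝ) ^ A1)).and h3))))
  exact ⟨N0 + N, by omega, fun K hK => h0 K (by omega)⟩

lemma evX (C : ℕ) (T : ℝ) : ∃ N5 : ℕ, ∀ X : ℕ, N5 ≤ X → 3 ≤ X ∧ T ≤ Real.log X ∧ Real.log X ^ C ≤ X := by
  have hlim : Filter.Tendsto (fun N : ℕ => Real.log (N : ℝ)) Filter.atTop Filter.atTop :=
    Real.tendsto_log_atTop.comp (tendsto_natCast_atTop_atTop (R := ℝ))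
  have h3 : ∀ᶠ N : ℕ in Filter.atTop, Real.log N ^ C ≤ N := by
    have h4 := (tendsto_natCast_atTop_atTop (R := ℝ)).eventually
      ((Real.isLittleO_pow_log_id_atTop (n := C)).bound (show (0 : ℝ) < 1 by norm_num))
    filter_upwards [h4, hlim.eventually_ge_atTop 1] with N h5 h6
    simp only [id] at h5
    rw [Real.norm_of_nonneg (by positivity), Real.norm_of_nonneg (by positivity), one_mul] at h5
    exact h5
  obtain ⟨N0, h0⟩ := Filter.eventually_atTop.1 ((Filter.eventually_ge_atTop 3).and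
    ((hlim.eventually_ge_atTop T).and h3))
  exact ⟨N0, fun X hX => h0 X hX⟩

/-- the numerical part -/
lemma numer (A C E : ℕ) (L K g s W D PP b z : ℝ) (hL : 100 ≤ L) (hb1 : 1 ≤ b) (hbC : b ≤ L ^ C)
    (hE : A + 11 ≤ E) (hK : (180 * L ^ (C + 3 + (A + 1))) ^ 2 ≤ K) (hz : L ^ E / 2 ≤ z)
    (hs0 : 0 < s) (hg : g ≤ L ^ 2) (hgs : |g - s| ≤ s * (L ^ 2 / z))
    (hD : D ≤ K / L ^ (A + 1)) (hW : W ≤ K / L ^ (A + 1))
    (hPP : PP ≤ 45 * L ^ 3 * (√K + b * √K + 2)) :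
    3 * (D + PP + W + K * |g - s| + s) ≤ K / L ^ A := by
  have hL0 : 0 < L := by linarith
  have hL1 : 1 ≤ L := by linarith
  set Y := K / L ^ (A + 1) with hY
  have hm1 : (1 : ℝ) ≤ L ^ (C + 3 + (A + 1)) := one_le_pow₀ hL1
  have hK1 : 1 ≤ K := le_trans (by nlinarith) hK
  have hK0 : 0 ≤ K := by linarith
  have hsq : 180 * L ^ (C + 3 + (A + 1)) ≤ √K := Real.le_sqrt_of_sq_le hK
  have hsq1 : 1 ≤ √K := by nlinarith
  have hsK : √K * √K = K := Real.mul_self_sqrt hK0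
  -- the prime powers
  have hPP2 : PP ≤ Y := by
    rw [hY, le_div_iff₀ (by positivity)]
    have h1 : √K + b * √K + 2 ≤ 4 * (L ^ C * √K) := by
      have h2 : (1 : ℝ) ≤ L ^ C := one_le_pow₀ hL1
      have h3 : √K ≤ L ^ C * √K := by nlinarith
      have h4 : b * √K ≤ L ^ C * √K := mul_le_mul_of_nonneg_right hbC (by linarith)
      linarith
    have h2 : PP ≤ 180 * L ^ (C + 3) * √K := by
      refine hPP.trans ?_
      have h3 : 45 * L ^ 3 * (√K + b * √K + 2) ≤ 45 * L ^ 3 * (4 * (L ^ C * √K)) :=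
        mul_le_mul_of_nonneg_left h1 (by positivity)
      refine h3.trans (le_of_eq ?_)
      rw [pow_add]
      ring
    calc PP * L ^ (A + 1) ≤ 180 * L ^ (C + 3) * √K * L ^ (A + 1) := mul_le_mul_of_nonneg_right h2 (by positivity)
      _ = 180 * L ^ (C + 3 + (A + 1)) * √K := by rw [pow_add L (C + 3) (A + 1)]; ring
      _ ≤ √K * √K := mul_le_mul_of_nonneg_right hsq (by linarith)
      _ = K := hsK
  -- the singular series
  have hLE : L ^ (A + 11) ≤ L ^ E := pow_le_pow_right₀ hL1 hE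
  have hLA11 : L ^ (A + 11) = L ^ (A + 1) * L ^ 10 := by rw [← pow_add]
  have hLA1 : 1 ≤ L ^ (A + 1) := one_le_pow₀ hL1
  have hz0 : 0 < z := lt_of_lt_of_le (by positivity) hz
  have hδ : L ^ 2 / z ≤ 2 / (L ^ (A + 1) * L ^ 8) := by
    rw [div_le_div_iff₀ hz0 (by positivity)]
    have h1 : L ^ (A + 1) * L ^ 10 ≤ 2 * z := by
      rw [← hLA11]
      linarith
    calc L ^ 2 * (L ^ (A + 1) * L ^ 8) = L ^ (A + 1) * L ^ 10 := by ring
      _ ≤ 2 * z := h1
  have hL8 : (4 : ℝ) ≤ L ^ 8 := by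
    calc (4 : ℝ) ≤ L := by linarith
      _ = L ^ 1 := (pow_one L).symm
      _ ≤ L ^ 8 := pow_le_pow_right₀ hL1 (by norm_num)
  have hδ2 : L ^ 2 / z ≤ 1 / 2 := by
    refine hδ.trans ?_
    rw [div_le_div_iff₀ (by positivity) (by norm_num)]
    nlinarith
  have hs2 : s ≤ 2 * L ^ 2 := by
    have h1 := (abs_le.1 hgs).1
    nlinarith
  have hgs2 : K * |g - s| ≤ Y := by
    have h1 : |g - s| ≤ 2 * L ^ 2 * (2 / (L ^ (A + 1) * L ^ 8)) := by
      refine hgs.trans ?_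
      exact mul_le_mul hs2 hδ (by positivity) (by positivity)
    have h2 : 2 * L ^ 2 * (2 / (L ^ (A + 1) * L ^ 8)) ≤ 1 / L ^ (A + 1) := by
      rw [mul_div_assoc', div_le_div_iff₀ (by positivity) (by positivity)]
      have h3 : 4 * L ^ 2 ≤ L ^ 8 := by
        have : L ^ 8 = L ^ 6 * L ^ 2 := by ring
        rw [this]
        apply mul_le_mul_of_nonneg_right _ (by positivity)
        calc (4 : ℝ) ≤ L := by linarith
          _ = L ^ 1 := (pow_one L).symm
          _ ≤ L ^ 6 := pow_le_pow_right₀ hL1 (by norm_num)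
      nlinarith
    calc K * |g - s| ≤ K * (1 / L ^ (A + 1)) := mul_le_mul_of_nonneg_left (h1.trans h2) hK0
      _ = Y := by rw [hY]; ring
  have hs3 : s ≤ Y := by
    rw [hY, le_div_iff₀ (by positivity)]
    have h1 : L ^ (A + 3) ≤ L ^ (C + 3 + (A + 1)) := pow_le_pow_right₀ hL1 (by omega)
    have h2 : L ^ (A + 3) = L ^ 2 * L ^ (A + 1) := by rw [← pow_add]; congr 1; omega
    calc s * L ^ (A + 1) ≤ 2 * L ^ 2 * L ^ (A + 1) := mul_le_mul_of_nonneg_right hs2 (by positivity)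
      _ = 2 * L ^ (A + 3) := by rw [h2]; ring
      _ ≤ 180 * L ^ (C + 3 + (A + 1)) := by nlinarith
      _ ≤ (180 * L ^ (C + 3 + (A + 1))) ^ 2 := by nlinarith
      _ ≤ K := hK
  have hfin : 15 * Y ≤ K / L ^ A := by
    rw [hY, mul_div_assoc', div_le_div_iff₀ (by positivity) (by positivity), pow_succ]
    have h1 : 0 ≤ K * L ^ A := by positivity
    nlinarith
  linarith

theorem main : ∀ θ : ℝ, 0 ≤ θ → S_SAB θ → S_MTF → S_SER3 → S_R18 θ := by
  classical
  intro θ hθ hSAB hMTF hSER e A C he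
  obtain ⟨E₀, hS⟩ := hSAB e (2 * (A + 1) + A) C he
  set E : ℕ := E₀ + A + 11 with hE
  obtain ⟨X1, hS1⟩ := hS E
  obtain ⟨N2, hM1⟩ := hMTF (E + 1) (A + 2)
  obtain ⟨H3, hR1⟩ := hSER
  obtain ⟨N4, hV⟩ := Pool.Agent.H373R2.T7.Vz_inv_small E
  obtain ⟨N5, hN5, hK5⟩ := evK e (A + 1) C E N2 he
  obtain ⟨N6, hX6⟩ := evX C 100
  refine ⟨X1 + H3 + N4 + N6 + (N5 + 1) ^ e, fun X hX K hK1 hK2 a b haC hbC => ?_⟩
  obtain ⟨hX3, hL100, hLC⟩ := hX6 X (by omega)
  set L : ℝ := Real.log X with hL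
  have hL1 : 1 ≤ L := by linarith
  have hL0 : 0 < L := by linarith
  have hXR : (3 : ℝ) ≤ X := by exact_mod_cast hX3
  have he0 : (0 : ℝ) < e := by exact_mod_cast he
  -- the size of `K`
  have hKe : (X : ℝ) ^ (1 / e : ℝ) ≤ K :=
    le_trans (Real.rpow_le_rpow_of_exponent_le (by linarith) (by linarith)) hK1
  have hKN : N5 ≤ K := by
    have h1 : (((N5 + 1) ^ e : ℕ) : ℝ) ≤ X := by exact_mod_cast (by omega : (N5 + 1) ^ e ≤ X)
    have h2 : ((N5 + 1 : ℕ) : ℝ) ≤ (X : ℝ) ^ (1 / e : ℝ) := by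
      have h3 : ((N5 + 1 : ℕ) : ℝ) = ((((N5 + 1) ^ e : ℕ) : ℝ)) ^ (1 / e : ℝ) := by
        push_cast
        rw [← Real.rpow_natCast, ← Real.rpow_mul (by positivity), mul_one_div_cancel he0.ne', Real.rpow_one]
      rw [h3]
      exact Real.rpow_le_rpow (by positivity) h1 (by positivity)
    have h4 : ((N5 + 1 : ℕ) : ℝ) ≤ K := h2.trans hKe
    have h5 : N5 + 1 ≤ K := by exact_mod_cast h4
    omega
  obtain ⟨hK3, hlK1, hlKE, hlKA, hKbig⟩ := hK5 K hKN
  have hKR : (3 : ℝ) ≤ K := by exact_mod_cast hK3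
  have hK0 : (0 : ℝ) < K := by linarith
  have hLK : L ≤ e * Real.log K := by
    have h1 := Real.log_le_log (by positivity) hKe
    rw [Real.log_rpow (by linarith)] at h1
    rw [one_div, inv_mul_eq_div, div_le_iff₀ he0] at h1
    linarith
  have hKbig2 : (180 * L ^ (C + 3 + (A + 1))) ^ 2 ≤ K := by
    refine le_trans ?_ hKbig
    apply pow_le_pow_left₀ (by positivity)
    apply mul_le_mul_of_nonneg_left _ (by norm_num)
    exact pow_le_pow_left₀ hL0.le hLK _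
  -- the sieve level
  set z : ℕ := ⌊L ^ E⌋₊ with hz
  have hLE1 : L ≤ L ^ E := by
    calc L = L ^ 1 := (pow_one L).symm
      _ ≤ L ^ E := pow_le_pow_right₀ hL1 (by omega)
  have hzE : (z : ℝ) ≤ L ^ E := Nat.floor_le (by positivity)
  have hzge : L ^ E - 1 ≤ z := by
    have := Nat.lt_floor_add_one (L ^ E)
    rw [← hz] at this
    linarith
  have hzh : L ^ E / 2 ≤ z := by linarith
  have hz1 : 1 ≤ z := by
    have : (1 : ℝ) ≤ z := by linarith
    exact_mod_cast this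
  have hzE0 : L ^ E₀ ≤ z := by
    have h1 : L ^ E₀ * L ≤ L ^ E := by
      rw [← pow_succ]
      exact pow_le_pow_right₀ hL1 (by omega)
    have h2 : 1 ≤ L ^ E₀ := one_le_pow₀ hL1
    nlinarith
  have hz3 : L ^ 3 ≤ z := by
    have h1 : L ^ 3 * L ≤ L ^ E := by
      rw [← pow_succ]
      exact pow_le_pow_right₀ hL1 (by omega)
    have h2 : 1 ≤ L ^ 3 := one_le_pow₀ hL1
    nlinarith
  have hzK : (z : ℝ) ≤ Real.log K ^ (E + 1) := by
    refine hzE.trans ?_
    calc L ^ E ≤ (e * Real.log K) ^ E := pow_le_pow_left₀ hL0.le hLK _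
      _ = (e : ℝ) ^ E * Real.log K ^ E := mul_pow _ _ _
      _ ≤ Real.log K * Real.log K ^ E := mul_le_mul_of_nonneg_right hlKE (by positivity)
      _ = Real.log K ^ (E + 1) := by rw [pow_succ]; ring
  have hWW : (K : ℝ) / Real.log K ^ (A + 2) ≤ K / L ^ (A + 1) := by
    apply div_le_div_of_nonneg_left hK0.le (by positivity)
    calc L ^ (A + 1) ≤ (e * Real.log K) ^ (A + 1) := pow_le_pow_left₀ hL0.le hLK _
      _ = (e : ℝ) ^ (A + 1) * Real.log K ^ (A + 1) := mul_pow _ _ _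
      _ ≤ Real.log K * Real.log K ^ (A + 1) := mul_le_mul_of_nonneg_right hlKA (by positivity)
      _ = Real.log K ^ (A + 2) := by rw [pow_succ _ (A + 1)]; ring
  -- admissible numbers
  by_cases hne : ∃ c : ℤ, Adm3 a b c
  swap
  · have : (Icc 1 X ×ˢ Icc (-(X : ℤ)) X).filter (fun v : ℕ × ℤ => Adm3 a b v.2 ∧ ¬ Good18 A X K v.1 a b v.2) = ∅ := by
      rw [filter_eq_empty_iff]
      intro v _ hv
      exact hne ⟨v.2, hv.1⟩
    rw [this]
    simp only [card_empty, Nat.cast_zero]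
    positivity
  obtain ⟨c₀, ha, hb, -, hab, -⟩ := hne
  have haR : (1 : ℝ) ≤ a := by exact_mod_cast ha
  have hbR : (1 : ℝ) ≤ b := by exact_mod_cast hb
  have haX : a ≤ X := by
    have : (a : ℝ) ≤ X := haC.trans hLC
    exact_mod_cast this
  have hbX : b ≤ X := by
    have : (b : ℝ) ≤ X := hbC.trans hLC
    exact_mod_cast this
  set f : ℕ → ℤ → ℕ → ℝ := fun x c y => ∑ n ∈ QQ a b c x y,
    (lamI (n : ℤ) * lamI (mm a b c n) - lamzI z (n : ℤ) * lamzI z (mm a b c n)) with hf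
  have hmax : ∀ x c, ∃ y, y ≤ K ∧ ∀ y' ≤ K, |f x c y'| ≤ |f x c y| := by
    intro x c
    obtain ⟨y, hy, hy2⟩ := exists_max_image (range (K + 1)) (fun y => |f x c y|) ⟨0, mem_range.2 (by omega)⟩
    exact ⟨y, by have := mem_range.1 hy; omega, fun y' hy' => hy2 y' (mem_range.2 (by omega))⟩
  choose y hyK hymax using hmax
  have hsum := hS1 X (by omega) K hK1 hK2 z hzE0 hzE a b ha hb haC hbC y hyK
  have hsum2 : ∑ x ∈ Icc 1 X, ∑ c ∈ Icc (-(X : ℤ)) X, (f x c (y x c)) ^ 2 ≤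
      (X : ℝ) ^ 2 * (K : ℝ) ^ 2 / L ^ (2 * (A + 1) + A) := hsum
  rw [← sum_product'] at hsum2
  set G := (Icc 1 X ×ˢ Icc (-(X : ℤ)) X).filter (fun v : ℕ × ℤ => Adm3 a b v.2 ∧ ¬ Good18 A X K v.1 a b v.2) with hG
  have hbad : ∀ v ∈ G, ((K : ℝ) / L ^ (A + 1)) ^ 2 ≤ (f v.1 v.2 (y v.1 v.2)) ^ 2 := by
    rintro ⟨x, c⟩ hv
    rw [hG, mem_filter, mem_product, mem_Icc, mem_Icc] at hv
    obtain ⟨⟨⟨hx1, hx2⟩, hc1, hc2⟩, hAdm, hng⟩ := hv
    simp only at hx1 hx2 hc1 hc2 hAdm hng ⊢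
    rw [← sq_abs (f x c (y x c))]
    apply pow_le_pow_left₀ (by positivity)
    by_contra hlt
    push Not at hlt
    apply hng
    have hcX : |c| ≤ X := abs_le.2 ⟨hc1, hc2⟩
    obtain ⟨p, q, hpq⟩ := exists_pq a b c ha hb hab
    have hcX2 : |c| ≤ (X : ℤ) ^ 2 := by
      have : (X : ℤ) * 1 ≤ X * X := mul_le_mul_of_nonneg_left (by omega) (by omega)
      nlinarith
    obtain ⟨-, hs0, hgs⟩ := hR1 X (by omega) a b c p q hAdm haX hbX hcX2 hpq z hz3
    set g : ℝ := sg z (pl (fun _ : Fin 2 => 0) ![(b, p), (a, q)]) with hg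
    have hgL : g ≤ L ^ 2 := by
      refine (R1.sg_le _ _).trans ?_
      exact pow_le_pow_left₀ (inv_pos.2 (Pool.Agent.H373R2.T7.Vz_pos z)).le (hV X (by omega) z hz1 hzE) 2
    have hnU : ∀ n ∈ QQ a b c x K, (n : ℝ) ≤ (X : ℝ) ^ 3 ∧ (mm a b c n : ℝ) ≤ (X : ℝ) ^ 3 := by
      intro n hn
      unfold QQ at hn
      rw [mem_filter, mem_Ioc] at hn
      have h1 : (n : ℝ) ≤ 2 * X := by
        have : n ≤ 2 * X := by omega
        exact_mod_cast this
      have h2 : (2 : ℝ) * X ≤ (X : ℝ) ^ 3 := by nlinarith [mul_self_nonneg (X : ℝ)]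
      refine ⟨h1.trans h2, ?_⟩
      have h3 := mm_mul hn.2
      have h4 : (mm a b c n : ℤ) ≤ |c| + b * n := by
        have h5 : c ≤ |c| := le_abs_self c
        have h6 : (0 : ℤ) ≤ |c| + b * n := by positivity
        by_contra hcon
        push Not at hcon
        have h7 : (1 : ℤ) * mm a b c n ≤ a * mm a b c n :=
          mul_le_mul_of_nonneg_right (by exact_mod_cast ha) (by linarith)
        linarith
      have h5 : (mm a b c n : ℝ) ≤ X + X * (2 * X) := by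
        have h6 : (mm a b c n : ℝ) ≤ ((|c| : ℤ) : ℝ) + b * n := by exact_mod_cast h4
        have h7 : ((|c| : ℤ) : ℝ) ≤ X := by exact_mod_cast hcX
        have h8 : (b : ℝ) ≤ X := by exact_mod_cast hbX
        have h9 : (b : ℝ) * n ≤ X * (2 * X) := mul_le_mul h8 h1 (Nat.cast_nonneg _) (by linarith)
        linarith
      refine h5.trans ?_
      have h10 : (X : ℝ) ^ 3 = X * (X * X) := by ring
      rw [h10]
      nlinarith
    have hJ : ∀ j : ℕ, (2 : ℝ) ^ j ≤ (X : ℝ) ^ 3 → j ≤ ⌊5 * L⌋₊ := by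
      intro j hj
      apply Nat.le_floor
      have h1 := Real.log_le_log (by positivity) hj
      rw [Real.log_pow, Real.log_pow] at h1
      have h2 := Real.log_two_gt_d9
      have h3 : (0 : ℝ) ≤ j := Nat.cast_nonneg j
      push_cast at h1
      rw [← hL] at h1
      nlinarith
    have hdet := det z a b p q x K ⌊5 * L⌋₊ c (ser3 a b c) g ((K : ℝ) / Real.log K ^ (A + 2))
      ((K : ℝ) / L ^ (A + 1)) ((X : ℝ) ^ 3) (3 * L) ha hb hx1 hab hpq (by positivity) (by positivity) hs0.le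
      (fun T₁ T₂ h1 h2 => hM1 K (by omega) z hz1 hzK a b p q ha hb T₁ T₂ h1 h2)
      (fun y' hy' => (hymax x c y' hy').trans hlt.le)
      (one_le_pow₀ (by linarith)) (by rw [Real.log_pow, ← hL]; push_cast; exact le_rfl) hnU hJ
    intro y' hy'
    refine (hdet y' hy').trans ?_
    refine numer A C E L K g (ser3 a b c) _ _ _ b z hL100 hbR hbC (by omega) hKbig2 hzh hs0 hgL hgs le_rfl hWW ?_
    -- the prime powers
    have hJL : ((⌊5 * L⌋₊ : ℕ) : ℝ) ≤ 5 * L := Nat.floor_le (by positivity)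
    have hsq1 : ((Nat.sqrt K : ℕ) : ℝ) ≤ √K := by
      apply Real.le_sqrt_of_sq_le
      have := Nat.sqrt_le' K
      exact_mod_cast this
    have hsq2 : ((Nat.sqrt (b * K) : ℕ) : ℝ) ≤ b * √K := by
      have h1 : ((Nat.sqrt (b * K) : ℕ) : ℝ) ≤ √((b * K : ℕ) : ℝ) := by
        apply Real.le_sqrt_of_sq_le
        have := Nat.sqrt_le' (b * K)
        exact_mod_cast this
      refine h1.trans ?_
      push_cast
      rw [Real.sqrt_mul (Nat.cast_nonneg b)]
      apply mul_le_mul_of_nonneg_right _ (Real.sqrt_nonneg _)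
      rw [Real.sqrt_le_left (by linarith)]
      nlinarith
    push_cast
    have h1 : ((⌊5 * L⌋₊ : ℕ) : ℝ) * ((Nat.sqrt K : ℕ) + 1) + ((⌊5 * L⌋₊ : ℕ) : ℝ) * ((Nat.sqrt (b * K) : ℕ) + 1) ≤
        5 * L * (√K + b * √K + 2) := by
      have h2 : ((⌊5 * L⌋₊ : ℕ) : ℝ) * ((Nat.sqrt K : ℕ) + 1) + ((⌊5 * L⌋₊ : ℕ) : ℝ) * ((Nat.sqrt (b * K) : ℕ) + 1) =
          ((⌊5 * L⌋₊ : ℕ) : ℝ) * (((Nat.sqrt K : ℕ) : ℝ) + (Nat.sqrt (b * K) : ℕ) + 2) := by ring
      rw [h2]
      exact mul_le_mul hJL (by linarith) (by positivity) (by positivity)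
    calc (3 * L) ^ 2 * (((⌊5 * L⌋₊ : ℕ) : ℝ) * ((Nat.sqrt K : ℕ) + 1) + ((⌊5 * L⌋₊ : ℕ) : ℝ) * ((Nat.sqrt (b * K) : ℕ) + 1))
        ≤ (3 * L) ^ 2 * (5 * L * (√K + b * √K + 2)) := mul_le_mul_of_nonneg_left h1 (by positivity)
      _ = 45 * L ^ 3 * (√K + b * √K + 2) := by ring
  -- Markov
  have hcard : (G.card : ℝ) * ((K : ℝ) / L ^ (A + 1)) ^ 2 ≤ (X : ℝ) ^ 2 * (K : ℝ) ^ 2 / L ^ (2 * (A + 1) + A) := by
    refine le_trans ?_ hsum2
    have h1 : (G.card : ℝ) * ((K : ℝ) / L ^ (A + 1)) ^ 2 = ∑ _v ∈ G, ((K : ℝ) / L ^ (A + 1)) ^ 2 := by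
      rw [sum_const, nsmul_eq_mul]
    rw [h1]
    refine (sum_le_sum hbad).trans ?_
    exact sum_le_sum_of_subset_of_nonneg (filter_subset _ _) fun v _ _ => sq_nonneg _
  have h1 : (X : ℝ) ^ 2 * (K : ℝ) ^ 2 / L ^ (2 * (A + 1) + A) = (X : ℝ) ^ 2 / L ^ A * ((K : ℝ) / L ^ (A + 1)) ^ 2 := by
    rw [div_pow, div_mul_div_comm, ← pow_mul, ← pow_add]
    congr 2
    ring
  rw [h1] at hcard
  exact le_of_mul_le_mul_right hcard (by positivity)

end Pool.Agent.helper24_UT.R18
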