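import Pool.Agent.helper24_UT.Stm15

set_option autoImplicit false

namespace Pool.Agent.helper24_UT.Sab

open Finset Polynomial
open Pool.Agent.helper24_UT
open Pool.Agent.H373R2.T7 (lamI lamzI lamz Vz pz lamP)
open Pool.Agent.H807R2.Dav (ee)

/-! ### generalities -/

/-- the quadruple sum -/
noncomputable def TS {ι : Type} (X Q : ℕ) (V : Finset ι) (f : ℕ → ι → ℕ → ℕ → ℝ) : ℝ :=
  ∑ x ∈ Icc 1 X, ∑ v ∈ V, ∑ q ∈ Icc 1 Q, ∑ r ∈ range q, f x v q r

theorem TS_mono {ι : Type} (X Q : ℕ) (V : Finset ι) (f g : ℕ → ι → ℕ → ℕ → ℝ)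
    (hfg : ∀ x : ℕ, 1 ≤ x → x ≤ X → ∀ v ∈ V, ∀ q r : ℕ, 1 ≤ q → q ≤ Q → r < q →
      f x v q r ≤ g x v q r) : TS X Q V f ≤ TS X Q V g := by
  unfold TS
  refine sum_le_sum fun x hx => sum_le_sum fun v hv => sum_le_sum fun q hq =>
    sum_le_sum fun r hr => ?_
  rw [mem_Icc] at hq hx
  rw [mem_range] at hr
  exact hfg x hx.1 hx.2 v hv q r hq.1 hq.2 hr

theorem TS_add {ι : Type} (X Q : ℕ) (V : Finset ι) (f g : ℕ → ι → ℕ → ℕ → ℝ) :
    TS X Q V (fun x v q r => f x v q r + g x v q r) = TS X Q V f + TS X Q V g := by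
  unfold TS
  simp only [sum_add_distrib]

theorem TS_mul {ι : Type} (X Q : ℕ) (V : Finset ι) (c : ℝ) (f : ℕ → ι → ℕ → ℕ → ℝ) :
    TS X Q V (fun x v q r => c * f x v q r) = c * TS X Q V f := by
  unfold TS
  simp only [mul_sum]

theorem TS_sum {ι κ : Type} (X Q : ℕ) (V : Finset ι) (s : Finset κ)
    (f : κ → ℕ → ι → ℕ → ℕ → ℝ) :
    TS X Q V (fun x v q r => ∑ i ∈ s, f i x v q r) = ∑ i ∈ s, TS X Q V (f i) := by
  classical
  induction s using Finset.induction_on with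
  | empty => simp [TS]
  | insert a s ha ih =>
    rw [sum_insert ha, ← ih, ← TS_add]
    congr 1
    funext x v q r
    rw [sum_insert ha]

/-! ### the count -/

theorem cnt (a b q r : ℕ) (hab : a ≤ b) (hq : 1 ≤ q) (hr : r < q) :
    (((Ioc a b).filter (fun n => n % q = r)).card : ℝ) ≤ ((b : ℝ) - a) / q + 1 := by
  have h1 : (Ioc a b).filter (fun n => n % q = r) = (Ioc a b).filter (fun n => n ≡ r [MOD q]) := by
    refine filter_congr fun n _ => ?_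
    unfold Nat.ModEq
    rw [Nat.mod_eq_of_lt hr]
  have h2 := Nat.Ioc_filter_modEq_card a b (r := q) (by omega) r
  rw [← h1] at h2
  have hq0 : (0 : ℚ) < q := by exact_mod_cast hq
  have h3 : (((Ioc a b).filter (fun n => n % q = r)).card : ℚ) ≤ ((b : ℚ) - a) / q + 1 := by
    have h4 : ((((Ioc a b).filter (fun n => n % q = r)).card : ℤ) : ℚ) =
      ((max (⌊((b : ℚ) - r) / (q : ℚ)⌋ - ⌊((a : ℚ) - r) / (q : ℚ)⌋) 0 : ℤ) : ℚ) := by
      rw [h2]
    rw [Int.cast_natCast] at h4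
    rw [h4, Int.cast_max]
    apply max_le
    · push_cast
      have h5 := Int.floor_le (((b : ℚ) - r) / (q : ℚ))
      have h6 := Int.lt_floor_add_one (((a : ℚ) - r) / (q : ℚ))
      have h7 : ((b : ℚ) - a) / q = ((b : ℚ) - r) / (q : ℚ) - ((a : ℚ) - r) / (q : ℚ) := by
        field_simp
        ring
      rw [h7]
      linarith
    · have : (a : ℚ) ≤ b := by exact_mod_cast hab
      have : 0 ≤ ((b : ℚ) - a) / q := div_nonneg (by linarith) hq0.le
      push_cast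
      linarith
  have h8 := (Rat.cast_le (K := ℝ)).2 h3
  push_cast at h8
  exact h8

theorem steps (N J y : ℕ) (hJ : 1 ≤ J) (hy : y ≤ N) : ∃ i : ℕ, i < J ∧ i * N / J ≤ y ∧
    y ≤ (i + 1) * N / J := by
  rcases hy.lt_or_eq with h | h
  · have hN : 0 < N := by omega
    refine ⟨y * J / N, ?_, ?_, ?_⟩
    · rw [Nat.div_lt_iff_lt_mul hN, mul_comm]
      exact Nat.mul_lt_mul_of_pos_left h hJ
    · refine Nat.div_le_of_le_mul ?_
      rw [mul_comm J y]
      exact Nat.div_mul_le_self _ _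
    · rw [Nat.le_div_iff_mul_le (by omega)]
      have h2 := Nat.lt_mul_div_succ (y * J) hN
      rw [mul_comm N] at h2
      exact h2.le
  · subst h
    refine ⟨J - 1, by omega, ?_, ?_⟩
    · refine Nat.div_le_of_le_mul ?_
      exact Nat.mul_le_mul_right _ (by omega)
    · rw [Nat.sub_add_cancel hJ, Nat.mul_div_cancel_left _ (by omega)]

/-! ### sums over classes -/

/-- sum over a class in an interval -/
noncomputable def Cs (a : ℕ → ℝ) (x q r t : ℕ) : ℝ :=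
  ∑ n ∈ (Ioc x (x + t)).filter (fun n => n % q = r), a n

theorem Cs_mono (a : ℕ → ℝ) (ha : ∀ n, 0 ≤ a n) (x q r s t : ℕ) (hst : s ≤ t) :
    Cs a x q r s ≤ Cs a x q r t :=
  sum_le_sum_of_subset_of_nonneg (filter_subset_filter _ (Ioc_subset_Ioc_right (by omega)))
    (fun _ _ _ => ha _)

theorem Cs_sub (a b : ℕ → ℝ) (x q r t : ℕ) :
    Cs (fun n => a n - b n) x q r t = Cs a x q r t - Cs b x q r t := by
  unfold Cs
  rw [sum_sub_distrib]

theorem Cs_diff (b : ℕ → ℝ) (U : ℝ) (hU : 0 ≤ U)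
    (hb : ∀ n, b n ≤ U) (x q r s t : ℕ) (hst : s ≤ t)
    (hq : 1 ≤ q) (hr : r < q) :
    Cs b x q r t - Cs b x q r s ≤ U * (((t : ℝ) - s) / q + 1) := by
  have h1 : (Ioc x (x + t)).filter (fun n => n % q = r) =
      (Ioc x (x + s)).filter (fun n => n % q = r) ∪
        (Ioc (x + s) (x + t)).filter (fun n => n % q = r) := by
    rw [← filter_union]
    congr 1
    ext n
    rw [mem_union, mem_Ioc, mem_Ioc, mem_Ioc]
    omega
  have h2 : Disjoint ((Ioc x (x + s)).filter (fun n => n % q = r))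
      ((Ioc (x + s) (x + t)).filter (fun n => n % q = r)) := by
    rw [disjoint_left]
    intro n hn hn2
    rw [mem_filter, mem_Ioc] at hn
    rw [mem_filter, mem_Ioc] at hn2
    omega
  unfold Cs
  rw [h1, sum_union h2, add_sub_cancel_left]
  have h3 : ∑ n ∈ (Ioc (x + s) (x + t)).filter (fun n => n % q = r), b n ≤
      ∑ _n ∈ (Ioc (x + s) (x + t)).filter (fun n => n % q = r), U :=
    sum_le_sum fun n _ => hb n
  refine h3.trans ?_
  rw [sum_const, nsmul_eq_mul, mul_comm]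
  refine mul_le_mul_of_nonneg_left ((cnt (x + s) (x + t) q r (by omega) hq hr).trans (le_of_eq ?_)) hU
  push_cast
  ring

theorem step1 (a b : ℕ → ℝ) (ha : ∀ n, 0 ≤ a n) (hb0 : ∀ n, 0 ≤ b n) (U : ℝ) (hU : 0 ≤ U)
    (N J x y q r : ℕ) (hJ : 1 ≤ J) (hq : 1 ≤ q) (hr : r < q) (hy : y ≤ N)
    (hb : ∀ n, b n ≤ U) :
    (Cs (fun n => a n - b n) x q r y) ^ 2 ≤
      3 * ∑ i ∈ range (J + 1), (Cs (fun n => a n - b n) x q r (i * N / J)) ^ 2 +
        3 * (U * ((N : ℝ) / J / q + 2)) ^ 2 := by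
  obtain ⟨i, hi, h1, h2⟩ := steps N J y hJ hy
  set s := i * N / J with hs
  set t := (i + 1) * N / J with ht
  have hst : s ≤ t := h1.trans h2
  have hJ0 : (0 : ℝ) < J := by exact_mod_cast hJ
  have hq0 : (1 : ℝ) ≤ q := by exact_mod_cast hq
  have hdiff : (t : ℝ) - s ≤ (N : ℝ) / J + 1 := by
    have e1 : (t : ℝ) ≤ (((i + 1) * N : ℕ) : ℝ) / J := by
      rw [ht]
      exact Nat.cast_div_le
    have e2 : (((i * N : ℕ) : ℝ)) / J ≤ (s : ℝ) + 1 := by
      rw [div_le_iff₀ hJ0]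
      have h3 := Nat.lt_mul_div_succ (i * N) (show 0 < J by omega)
      rw [← hs, mul_comm J] at h3
      have h4 : ((i * N : ℕ) : ℝ) ≤ (((s + 1) * J : ℕ) : ℝ) := by exact_mod_cast h3.le
      push_cast at h4 ⊢
      exact h4
    have e3 : (((i + 1) * N : ℕ) : ℝ) / J = (((i * N : ℕ) : ℝ)) / J + (N : ℝ) / J := by
      push_cast
      ring
    linarith
  set E : ℝ := U * ((N : ℝ) / J / q + 2) with hE
  have hD : Cs b x q r t - Cs b x q r s ≤ E := by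
    refine (Cs_diff b U hU hb x q r s t hst hq hr).trans ?_
    refine mul_le_mul_of_nonneg_left ?_ hU
    have e4 : ((t : ℝ) - s) / q ≤ ((N : ℝ) / J + 1) / q :=
      div_le_div_of_nonneg_right hdiff (by linarith)
    have e5 : (1 : ℝ) / q ≤ 1 := by
      rw [div_le_one (by linarith)]
      exact hq0
    rw [add_div] at e4
    linarith
  have g1 := Cs_mono a ha x q r s y h1
  have g2 := Cs_mono a ha x q r y t h2
  have g3 := Cs_mono b hb0 x q r s y h1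
  have g4 := Cs_mono b hb0 x q r y t h2
  have f1 := Cs_sub a b x q r y
  have f2 := Cs_sub a b x q r s
  have f3 := Cs_sub a b x q r t
  have hup : Cs (fun n => a n - b n) x q r y ≤ |Cs (fun n => a n - b n) x q r t| + E := by
    have := le_abs_self (Cs (fun n => a n - b n) x q r t)
    linarith
  have hlo : -(|Cs (fun n => a n - b n) x q r s| + E) ≤ Cs (fun n => a n - b n) x q r y := by
    have := neg_abs_le (Cs (fun n => a n - b n) x q r s)
    linarith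
  have hE0 : 0 ≤ E := by positivity
  have habs : |Cs (fun n => a n - b n) x q r y| ≤ |Cs (fun n => a n - b n) x q r s| +
      |Cs (fun n => a n - b n) x q r t| + E := by
    have p1 := abs_nonneg (Cs (fun n => a n - b n) x q r s)
    have p2 := abs_nonneg (Cs (fun n => a n - b n) x q r t)
    rw [abs_le]
    constructor <;> linarith
  have hsq : (Cs (fun n => a n - b n) x q r y) ^ 2 ≤
      3 * ((Cs (fun n => a n - b n) x q r s) ^ 2 + (Cs (fun n => a n - b n) x q r t) ^ 2) +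
        3 * E ^ 2 := by
    have p1 := abs_nonneg (Cs (fun n => a n - b n) x q r s)
    have p2 := abs_nonneg (Cs (fun n => a n - b n) x q r t)
    rw [← sq_abs (Cs (fun n => a n - b n) x q r y), ← sq_abs (Cs (fun n => a n - b n) x q r s),
      ← sq_abs (Cs (fun n => a n - b n) x q r t)]
    have p3 := pow_le_pow_left₀ (abs_nonneg _) habs 2
    nlinarith [sq_nonneg (|Cs (fun n => a n - b n) x q r s| - |Cs (fun n => a n - b n) x q r t|),
      sq_nonneg (|Cs (fun n => a n - b n) x q r s| - E),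
      sq_nonneg (|Cs (fun n => a n - b n) x q r t| - E)]
  have hsub : (Cs (fun n => a n - b n) x q r s) ^ 2 + (Cs (fun n => a n - b n) x q r t) ^ 2 ≤
      ∑ i ∈ range (J + 1), (Cs (fun n => a n - b n) x q r (i * N / J)) ^ 2 := by
    have h5 : ({i, i + 1} : Finset ℕ) ⊆ range (J + 1) := by
      intro x hx
      rw [mem_insert, mem_singleton] at hx
      rw [mem_range]
      omega
    refine le_trans (le_of_eq ?_) (sum_le_sum_of_subset_of_nonneg h5 fun _ _ _ => sq_nonneg _)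
    rw [sum_pair (by omega)]
  linarith

theorem TSq {ι : Type} (X Q : ℕ) (V : Finset ι) (U Y : ℝ) :
    TS X Q V (fun _ _ q _ => (U * (Y / q + 2)) ^ 2) ≤
      ((X : ℝ) * V.card) * (U ^ 2 * (2 * Y ^ 2 * (1 + Real.log Q) + 8 * (Q : ℝ) ^ 2)) := by
  unfold TS
  rw [sum_const, sum_const, nsmul_eq_mul, nsmul_eq_mul, Nat.card_Icc, Nat.add_sub_cancel, mul_assoc]
  refine mul_le_mul_of_nonneg_left (mul_le_mul_of_nonneg_left ?_ (by positivity)) (by positivity)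
  have h1 : ∀ q ∈ Icc 1 Q, ∑ _r ∈ range q, (U * (Y / q + 2)) ^ 2 ≤
      U ^ 2 * (2 * Y ^ 2 * (1 / (q : ℝ)) + 8 * Q) := by
    intro q hq
    rw [mem_Icc] at hq
    rw [sum_const, card_range, nsmul_eq_mul]
    have hq0 : (0 : ℝ) < q := by exact_mod_cast hq.1
    have hqQ : (q : ℝ) ≤ Q := by exact_mod_cast hq.2
    have e1 : (q : ℝ) * (U * (Y / q + 2)) ^ 2 = U ^ 2 * (q * (Y / q + 2) ^ 2) := by ring
    rw [e1]
    refine mul_le_mul_of_nonneg_left ?_ (sq_nonneg U)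
    have e2 : (q : ℝ) * (Y / q + 2) ^ 2 ≤ q * (2 * (Y / q) ^ 2 + 8) := by
      refine mul_le_mul_of_nonneg_left ?_ hq0.le
      nlinarith [sq_nonneg (Y / q - 2)]
    have e3 : (q : ℝ) * (2 * (Y / q) ^ 2 + 8) = 2 * Y ^ 2 * (1 / (q : ℝ)) + 8 * q := by
      field_simp
    linarith
  refine (sum_le_sum h1).trans ?_
  rw [← mul_sum, sum_add_distrib, ← mul_sum, sum_const, Nat.card_Icc, nsmul_eq_mul,
    Nat.add_sub_cancel]
  refine mul_le_mul_of_nonneg_left ?_ (sq_nonneg U)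
  have h2 : ∑ n ∈ Icc 1 Q, 1 / (n : ℝ) ≤ 1 + Real.log Q := by
    have h3 : ∑ n ∈ Icc 1 Q, 1 / (n : ℝ) = ((harmonic Q : ℚ) : ℝ) := by
      rw [harmonic_eq_sum_Icc]
      push_cast
      simp
    rw [h3]
    exact harmonic_le_one_add_log Q
  have h4 : 2 * Y ^ 2 * ∑ n ∈ Icc 1 Q, 1 / (n : ℝ) ≤ 2 * Y ^ 2 * (1 + Real.log Q) :=
    mul_le_mul_of_nonneg_left h2 (by positivity)
  nlinarith

/-! ### sizes -/

theorem Vz_pos (z : ℕ) (hz : 1 ≤ z) : 0 < Vz z :=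
  lt_of_lt_of_le (by positivity) (Pool.Agent.H373R2.T7.Vz_ge z hz)

theorem lamzI_le (z : ℕ) (hz : 1 ≤ z) (m : ℤ) : lamzI z m ≤ (Vz z)⁻¹ := by
  have h := inv_nonneg.2 (Vz_pos z hz).le
  unfold lamzI lamz
  split_ifs
  · exact le_rfl
  · exact h
  · exact h

theorem lamI_le (N : ℕ) (hN : 3 ≤ N) (m : ℤ) (hm2 : m ≤ 3 * N) :
    lamI m ≤ 2 * Real.log N := by
  have hlog : 0 ≤ Real.log N := Real.log_natCast_nonneg N
  unfold lamI
  split_ifs with hm
  · refine ArithmeticFunction.vonMangoldt_le_log.trans ?_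
    have h1 : (m.toNat : ℝ) ≤ N * N := by
      have h2 : m.toNat ≤ 3 * N := by omega
      have h3 : 3 * N ≤ N * N := Nat.mul_le_mul_right _ hN
      exact_mod_cast h2.trans h3
    have h0 : (0 : ℝ) < m.toNat := by
      have : 0 < m.toNat := by omega
      exact_mod_cast this
    have hN0 : (N : ℝ) ≠ 0 := by
      have : (3 : ℝ) ≤ N := by exact_mod_cast hN
      linarith
    have h4 := Real.log_le_log h0 h1
    rw [Real.log_mul hN0 hN0] at h4
    linarith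
  · linarith

theorem fin (k A : ℕ) (c L K G Q J M lq : ℝ) (hL : 72 ≤ L) (hLC : 27 * c ≤ L)
    (hc : 0 ≤ c) (hK : 0 ≤ K) (hG : 0 ≤ G) (hQ0 : 0 ≤ Q)
    (hQ : Q * L ^ (2 * k + (A + k + 1 + A + 1)) ≤ K)
    (hJ1 : L ^ (A + k + 1) ≤ J) (hJ2 : J ≤ L ^ (A + k + 1) + 1)
    (hM : M ≤ c * (G * K ^ 2 / L ^ (A + k + 1 + A + 1)))
    (hlq : lq ≤ L) :
    3 * ((J + 1) * M) + 3 * (G * ((L ^ k) ^ 2 * (2 * (K / J) ^ 2 * (1 + lq) + 8 * Q ^ 2))) ≤
      G * K ^ 2 / L ^ A := by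
  have hL0 : 0 < L := by linarith
  have hL1 : 1 ≤ L := by linarith
  set Z : ℝ := G * K ^ 2 / L ^ A with hZ
  have hZ0 : 0 ≤ Z := by positivity
  have hm1 : 1 ≤ L ^ (A + k + 1) := one_le_pow₀ hL1
  have hJ0 : 0 < J := by linarith
  -- part 1
  have q1 : 3 * ((J + 1) * M) ≤ Z / 3 := by
    have a1 : J + 1 ≤ 3 * L ^ (A + k + 1) := by linarith
    have a2 : 0 ≤ c * (G * K ^ 2 / L ^ (A + k + 1 + A + 1)) := by
      positivity
    have a3 : (J + 1) * M ≤ 3 * L ^ (A + k + 1) *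
        (c * (G * K ^ 2 / L ^ (A + k + 1 + A + 1))) := by
      calc (J + 1) * M ≤ (J + 1) *
          (c * (G * K ^ 2 / L ^ (A + k + 1 + A + 1))) :=
            mul_le_mul_of_nonneg_left hM (by linarith)
        _ ≤ _ := mul_le_mul_of_nonneg_right a1 a2
    have a4 : 3 * L ^ (A + k + 1) *
        (c * (G * K ^ 2 / L ^ (A + k + 1 + A + 1))) = 3 * c * (Z / L) := by
      rw [hZ]
      have : L ^ (A + k + 1 + A + 1) = L ^ (A + k + 1) * L ^ A * L := by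
        rw [pow_succ, pow_add]
      rw [this]
      field_simp
    have a5 : 3 * (3 * c * (Z / L)) ≤ Z / 3 := by
      have a6 : 0 ≤ Z / L := by positivity
      have a7 : 3 * (3 * c * (Z / L)) = (27 * c) * (Z / L) / 3 := by ring
      rw [a7]
      have a8 := mul_le_mul_of_nonneg_right hLC a6
      have a9 : L * (Z / L) = Z := by field_simp
      linarith
    linarith
  -- part 2
  have hZL : 72 * (Z / L) ≤ Z := by
    rw [← mul_div_assoc, div_le_iff₀ hL0]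
    nlinarith
  have hkey : ∀ s : ℕ, A + 1 ≤ s → G * K ^ 2 / L ^ s ≤ Z / L := by
    intro s hs
    have e : Z / L = G * K ^ 2 / L ^ (A + 1) := by
      rw [hZ, div_div, ← pow_succ]
    rw [e]
    refine div_le_div_of_nonneg_left (by positivity) (by positivity) ?_
    exact pow_le_pow_right₀ hL1 hs
  have q2 : 3 * (G * ((L ^ k) ^ 2 * (2 * (K / J) ^ 2 * (1 + lq)))) ≤ 12 * (Z / L) := by
    have b1 : 1 + lq ≤ 2 * L := by linarith
    have b2 : (K / J) ^ 2 ≤ (K / L ^ (A + k + 1)) ^ 2 := by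
      refine pow_le_pow_left₀ (by positivity) ?_ 2
      exact div_le_div_of_nonneg_left hK (by positivity) hJ1
    have b3 : 2 * (K / J) ^ 2 * (1 + lq) ≤ 2 * (K / L ^ (A + k + 1)) ^ 2 * (2 * L) := by
      calc 2 * (K / J) ^ 2 * (1 + lq) ≤ 2 * (K / J) ^ 2 * (2 * L) :=
            mul_le_mul_of_nonneg_left b1 (by positivity)
        _ ≤ _ := mul_le_mul_of_nonneg_right (by linarith) (by positivity)
    have b4 : 3 * (G * ((L ^ k) ^ 2 * (2 * (K / J) ^ 2 * (1 + lq)))) ≤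
        3 * (G * ((L ^ k) ^ 2 * (2 * (K / L ^ (A + k + 1)) ^ 2 * (2 * L)))) := by
      gcongr
    have b5 : 3 * (G * ((L ^ k) ^ 2 * (2 * (K / L ^ (A + k + 1)) ^ 2 * (2 * L)))) =
        12 * (G * K ^ 2 / L ^ (2 * A + 1)) := by
      have c1 : L ^ (A + k + 1) = L ^ A * L ^ k * L := by
        rw [pow_succ, pow_add]
      have c2 : L ^ (2 * A + 1) = L ^ A * L ^ A * L := by
        rw [pow_succ, two_mul, pow_add]
      rw [c1, c2]
      field_simp
      ring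
    have b6 := hkey (2 * A + 1) (by omega)
    linarith
  have q3 : 3 * (G * ((L ^ k) ^ 2 * (8 * Q ^ 2))) ≤ 24 * (Z / L) := by
    have c1 : Q ≤ K / L ^ (2 * k + (A + k + 1 + A + 1)) := by
      rw [le_div_iff₀ (by positivity)]
      exact hQ
    have c2 : Q ^ 2 ≤ (K / L ^ (2 * k + (A + k + 1 + A + 1))) ^ 2 := pow_le_pow_left₀ hQ0 c1 2
    have c3 : 3 * (G * ((L ^ k) ^ 2 * (8 * Q ^ 2))) ≤
        3 * (G * ((L ^ k) ^ 2 * (8 * (K / L ^ (2 * k + (A + k + 1 + A + 1))) ^ 2))) := by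
      gcongr
    have c4 : 3 * (G * ((L ^ k) ^ 2 * (8 * (K / L ^ (2 * k + (A + k + 1 + A + 1))) ^ 2))) =
        24 * (G * K ^ 2 / L ^ (2 * k + 2 * (A + k + 1 + A + 1))) := by
      have d1 : L ^ (2 * k + (A + k + 1 + A + 1)) = L ^ k * L ^ k * L ^ (A + k + 1 + A + 1) := by
        rw [pow_add, two_mul, pow_add]
      have d2 : L ^ (2 * k + 2 * (A + k + 1 + A + 1)) =
          L ^ k * L ^ k * (L ^ (A + k + 1 + A + 1) * L ^ (A + k + 1 + A + 1)) := by
        rw [pow_add, two_mul, two_mul, pow_add, pow_add]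
      rw [d1, d2]
      field_simp
      ring
    have c5 := hkey (2 * k + 2 * (A + k + 1 + A + 1)) (by omega)
    linarith
  have e : 3 * (G * ((L ^ k) ^ 2 * (2 * (K / J) ^ 2 * (1 + lq) + 8 * Q ^ 2))) =
      3 * (G * ((L ^ k) ^ 2 * (2 * (K / J) ^ 2 * (1 + lq)))) +
      3 * (G * ((L ^ k) ^ 2 * (8 * Q ^ 2))) := by ring
  rw [e]
  linarith

/-- from fixed lengths to arbitrary lengths -/
theorem core {ι : Type} (V : Finset ι) (a b : ι → ℕ → ℝ) (k A : ℕ) (c L : ℝ) (X K Q : ℕ)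
    (hL : 72 ≤ L) (hLC : 27 * c ≤ L) (hc : 0 ≤ c) (ha : ∀ v n, 0 ≤ a v n) (hb0 : ∀ v n, 0 ≤ b v n)
    (hb : ∀ v n, b v n ≤ L ^ k) (hQ : (Q : ℝ) * L ^ (2 * k + (A + k + 1 + A + 1)) ≤ K)
    (hKJ : 2 * L ^ (A + k + 1) ≤ K) (hKL : Real.log K ≤ L)
    (hM : ∀ t : ℕ, 1 ≤ t → t ≤ K → (K : ℝ) ≤ t * (4 * L ^ (A + k + 1)) →
      TS X Q V (fun x v q r => (Cs (fun n => a v n - b v n) x q r t) ^ 2) ≤
        c * (((X : ℝ) * V.card) * (K : ℝ) ^ 2 / L ^ (A + k + 1 + A + 1)))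
    (y : ℕ → ι → ℕ → ℕ → ℕ) (hy : ∀ x v q r, y x v q r ≤ K) :
    TS X Q V (fun x v q r => (Cs (fun n => a v n - b v n) x q r (y x v q r)) ^ 2) ≤
      ((X : ℝ) * V.card) * (K : ℝ) ^ 2 / L ^ A := by
  have hL1 : 1 ≤ L := by linarith
  have hL0 : 0 < L := by linarith
  have hm1 : 1 ≤ L ^ (A + k + 1) := one_le_pow₀ hL1
  set J : ℕ := ⌈L ^ (A + k + 1)⌉₊ with hJdef
  have hJ1 : L ^ (A + k + 1) ≤ J := Nat.le_ceil _
  have hJ2 : (J : ℝ) ≤ L ^ (A + k + 1) + 1 := (Nat.ceil_lt_add_one (by positivity)).le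
  have hJ : 1 ≤ J := by
    exact_mod_cast hm1.trans hJ1
  have hJK : J ≤ K := by
    have : (J : ℝ) ≤ K := by linarith
    exact_mod_cast this
  have hmain : TS X Q V (fun x v q r => (Cs (fun n => a v n - b v n) x q r (y x v q r)) ^ 2) ≤
      3 * ∑ i ∈ range (J + 1), TS X Q V (fun x v q r =>
        (Cs (fun n => a v n - b v n) x q r (i * K / J)) ^ 2) +
      3 * TS X Q V (fun _ _ q _ => (L ^ k * ((K : ℝ) / J / q + 2)) ^ 2) := by
    rw [← TS_sum, ← TS_mul, ← TS_mul, ← TS_add]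
    refine TS_mono X Q V _ _ fun x _ _ v _ q r hq1 _ hr => ?_
    exact step1 _ _ (ha v) (hb0 v) (L ^ k) (by positivity) K J x (y x v q r) q r hJ hq1 hr
      (hy x v q r) (hb v)
  have hM1 : ∀ i ∈ range (J + 1), TS X Q V (fun x v q r =>
        (Cs (fun n => a v n - b v n) x q r (i * K / J)) ^ 2) ≤
      c * (((X : ℝ) * V.card) * (K : ℝ) ^ 2 / L ^ (A + k + 1 + A + 1)) := by
    intro i hi
    rw [mem_range] at hi
    rcases Nat.eq_zero_or_pos i with h0 | h0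
    · subst h0
      have e : TS X Q V (fun x v q r =>
        (Cs (fun n => a v n - b v n) x q r (0 * K / J)) ^ 2) = 0 := by
        unfold TS
        refine sum_eq_zero fun x _ => sum_eq_zero fun v _ => sum_eq_zero fun q _ =>
          sum_eq_zero fun r _ => ?_
        simp [Cs]
      rw [e]
      positivity
    · have h1 : i * K / J ≤ K := Nat.div_le_of_le_mul (Nat.mul_le_mul_right _ (by omega))
      have h2 : K / J ≤ i * K / J := Nat.div_le_div_right (Nat.le_mul_of_pos_left _ h0)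
      have h3 : 1 ≤ K / J := (Nat.one_le_div_iff (by omega)).2 hJK
      have h4 : K ≤ (i * K / J) * (2 * J) := by
        have h5 := Nat.lt_mul_div_succ K (show 0 < J by omega)
        have h6 : J * (K / J + 1) ≤ (i * K / J) * (2 * J) := by
          nlinarith
        omega
      refine hM _ (by omega) h1 ?_
      have h7 : (K : ℝ) ≤ ((i * K / J : ℕ) : ℝ) * (2 * J) := by exact_mod_cast h4
      refine h7.trans (mul_le_mul_of_nonneg_left (by linarith) (Nat.cast_nonneg _))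
  have hsum : ∑ i ∈ range (J + 1), TS X Q V (fun x v q r =>
        (Cs (fun n => a v n - b v n) x q r (i * K / J)) ^ 2) ≤ ((J : ℝ) + 1) *
      (c * (((X : ℝ) * V.card) * (K : ℝ) ^ 2 / L ^ (A + k + 1 + A + 1))) := by
    refine (sum_le_sum hM1).trans (le_of_eq ?_)
    rw [sum_const, card_range, nsmul_eq_mul]
    push_cast
    ring
  have hlq : Real.log Q ≤ L := by
    rcases Nat.eq_zero_or_pos Q with h0 | h0
    · rw [h0, Nat.cast_zero, Real.log_zero]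
      exact hL0.le
    · refine (Real.log_le_log (by exact_mod_cast h0) ?_).trans hKL
      have h1 : (1 : ℝ) ≤ L ^ (2 * k + (A + k + 1 + A + 1)) := one_le_pow₀ hL1
      have h2 : (0 : ℝ) ≤ Q := Nat.cast_nonneg Q
      nlinarith
  have hfin := fin k A c L K ((X : ℝ) * V.card) Q J _ (Real.log Q) hL hLC hc (by positivity)
    (by positivity) (Nat.cast_nonneg Q) hQ hJ1 hJ2 le_rfl hlq
  refine le_trans ?_ hfin
  have hTq := TSq X Q V (L ^ k) ((K : ℝ) / J)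
  linarith

/-! ### the input -/

/-- the property of the constant -/
def SupC (C : ℝ) : Prop := ∀ (f : ℤ → ℝ) (w : ℤ → ℂ) (a : ℤ) (X Z K Q : ℕ) (P S W : ℝ),
  1 ≤ K → 1 ≤ Z → 0 ≤ P → 0 ≤ W → (∀ m, |f m| ≤ P) → (∀ m, f m ≠ 0 → |m| ≤ Z) → (∀ n, ‖w n‖ ≤ W) →
  (∀ α : ℝ, ∑ x ∈ Icc (-((Z : ℤ) + K)) Z, ‖sw f K x α‖ ^ 2 ≤ S) →
  ∑ x ∈ Ioc a (a + X), ∑ h ∈ Icc (-(Z : ℤ)) Z, ∑ q ∈ Icc 1 Q, ∑ r ∈ range q,
    ‖∑ n ∈ (Ioc x (x + K)).filter (fun n => n % (q : ℤ) = r), w n * f (n + h)‖ ^ 2 ≤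
    C * W ^ 2 * X * K * (Q * Z * P ^ 2 + (1 + Real.log K) ^ 2 * Real.sqrt (S * Z) * P)


/-! ### the bound for fixed length -/

/-- the size of the bound -/
theorem Mb (D Ce : ℕ) (C L X N b t K l : ℝ) (hL : 1 ≤ L) (hC : 0 ≤ C) (hX : 0 ≤ X) (hb1 : 1 ≤ b)
    (hb : b ≤ L ^ Ce) (hN0 : 0 ≤ N) (hN : N ≤ 4 * b * X) (ht : 0 ≤ t) (htK : t ≤ K) (hl0 : 0 ≤ l)
    (hl : l ≤ 2 * L) (hKb : L ^ (3 * Ce + 4 + D) ≤ K) :
    C * (2 * L) ^ 2 * N * (b * t) * (1 * (4 * b * X) * (2 * L) ^ 2 +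
      (1 + l) ^ 2 * (8 * b * X * (b * t) / L ^ (4 * Ce + 5 + D)) * (2 * L)) ≤
      2560 * C * (X ^ 2 * K ^ 2 / L ^ D) := by
  have hL0 : 0 < L := by linarith
  have hb0 : 0 ≤ b := by linarith
  have hK : 0 ≤ K := ht.trans htK
  have hl9 : (1 + l) ^ 2 ≤ 9 * L ^ 2 := by nlinarith
  have h1 : C * (2 * L) ^ 2 * N * (b * t) * (1 * (4 * b * X) * (2 * L) ^ 2 +
      (1 + l) ^ 2 * (8 * b * X * (b * t) / L ^ (4 * Ce + 5 + D)) * (2 * L)) ≤
      C * (2 * L) ^ 2 * (4 * b * X) * (b * t) * (1 * (4 * b * X) * (2 * L) ^ 2 +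
      (9 * L ^ 2) * (8 * b * X * (b * t) / L ^ (4 * Ce + 5 + D)) * (2 * L)) := by
    gcongr
  refine h1.trans ?_
  have e1 : C * (2 * L) ^ 2 * (4 * b * X) * (b * t) * (1 * (4 * b * X) * (2 * L) ^ 2 +
      (9 * L ^ 2) * (8 * b * X * (b * t) / L ^ (4 * Ce + 5 + D)) * (2 * L)) =
      256 * (C * X ^ 2 * (b ^ 3 * L ^ 4 * t)) +
      2304 * (C * X ^ 2 * (b ^ 4 * L ^ 5 * t ^ 2 / L ^ (4 * Ce + 5 + D))) := by
    ring
  rw [e1]
  have p1 : b ^ 3 * L ^ 4 * t ≤ K ^ 2 / L ^ D := by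
    rw [le_div_iff₀ (by positivity)]
    have q1 : b ^ 3 ≤ (L ^ Ce) ^ 3 := pow_le_pow_left₀ hb0 hb 3
    have q2 : L ^ (3 * Ce + 4 + D) = (L ^ Ce) ^ 3 * L ^ 4 * L ^ D := by
      rw [pow_add, pow_add, ← pow_mul, mul_comm Ce 3]
    calc b ^ 3 * L ^ 4 * t * L ^ D ≤ (L ^ Ce) ^ 3 * L ^ 4 * K * L ^ D := by gcongr
      _ = L ^ (3 * Ce + 4 + D) * K := by rw [q2]; ring
      _ ≤ K * K := mul_le_mul_of_nonneg_right hKb hK
      _ = K ^ 2 := (sq K).symm
  have p2 : b ^ 4 * L ^ 5 * t ^ 2 / L ^ (4 * Ce + 5 + D) ≤ K ^ 2 / L ^ D := by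
    rw [div_le_div_iff₀ (by positivity) (by positivity)]
    have q1 : b ^ 4 ≤ (L ^ Ce) ^ 4 := pow_le_pow_left₀ hb0 hb 4
    have q2 : L ^ (4 * Ce + 5 + D) = (L ^ Ce) ^ 4 * L ^ 5 * L ^ D := by
      rw [pow_add, pow_add, ← pow_mul, mul_comm Ce 4]
    calc b ^ 4 * L ^ 5 * t ^ 2 * L ^ D ≤ (L ^ Ce) ^ 4 * L ^ 5 * K ^ 2 * L ^ D := by gcongr
      _ = K ^ 2 * L ^ (4 * Ce + 5 + D) := by rw [q2]; ring
  have p3 : C * X ^ 2 * (b ^ 3 * L ^ 4 * t) ≤ C * X ^ 2 * (K ^ 2 / L ^ D) :=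
    mul_le_mul_of_nonneg_left p1 (by positivity)
  have p4 : C * X ^ 2 * (b ^ 4 * L ^ 5 * t ^ 2 / L ^ (4 * Ce + 5 + D)) ≤
      C * X ^ 2 * (K ^ 2 / L ^ D) := mul_le_mul_of_nonneg_left p2 (by positivity)
  have e2 : 2560 * C * (X ^ 2 * K ^ 2 / L ^ D) = 2560 * (C * X ^ 2 * (K ^ 2 / L ^ D)) := by ring
  rw [e2]
  linarith

theorem supb (C : ℝ) (hC : SupC C) (hC0 : 0 ≤ C) (D Ce : ℕ) (L : ℝ) (hL : 1 ≤ L)
    (f : ℤ → ℝ) (w : ℤ → ℂ) (a0 : ℤ) (X N b t K : ℕ) (hX : 1 ≤ X) (hb1 : 1 ≤ b)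
    (hbC : (b : ℝ) ≤ L ^ Ce) (hN : N ≤ 4 * b * X) (ht : 1 ≤ t) (htK : t ≤ K)
    (hbt : Real.log ((b * t : ℕ) : ℝ) ≤ 2 * L) (hf : ∀ m, |f m| ≤ 2 * L)
    (hfs : ∀ m, f m ≠ 0 → |m| ≤ ((4 * b * X : ℕ) : ℤ)) (hw : ∀ n, ‖w n‖ ≤ 2 * L)
    (hKb : L ^ (3 * Ce + 4 + D) ≤ K)
    (hS : ∀ α : ℝ, ∑ x ∈ Icc (-(((4 * b * X : ℕ) : ℤ) + (b * t : ℕ))) ((4 * b * X : ℕ) : ℤ),
      ‖sw f (b * t) x α‖ ^ 2 ≤
      ((8 * b * X : ℕ) : ℝ) * ((b * t : ℕ) : ℝ) ^ 2 / L ^ (2 * (4 * Ce + 5 + D))) :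
    ∑ x ∈ Ioc a0 (a0 + N), ∑ h ∈ Icc (-((4 * b * X : ℕ) : ℤ)) ((4 * b * X : ℕ) : ℤ),
      ‖∑ n ∈ Ioc x (x + (b * t : ℕ)), w n * f (n + h)‖ ^ 2 ≤
      2560 * C * ((X : ℝ) ^ 2 * (K : ℝ) ^ 2 / L ^ D) := by
  have hL0 : 0 < L := by linarith
  have hbt1 : 1 ≤ b * t := Nat.mul_pos hb1 ht
  have hbX1 : 1 ≤ 4 * b * X := Nat.mul_pos (Nat.mul_pos (by norm_num) hb1) hX
  have h := hC f w a0 N (4 * b * X) (b * t) 1 (2 * L) _ (2 * L) hbt1 hbX1 (by linarith)
    (by linarith) hf hfs hw hS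
  have e1 : ∑ x ∈ Ioc a0 (a0 + N), ∑ h ∈ Icc (-((4 * b * X : ℕ) : ℤ)) ((4 * b * X : ℕ) : ℤ),
      ‖∑ n ∈ Ioc x (x + (b * t : ℕ)), w n * f (n + h)‖ ^ 2 =
      ∑ x ∈ Ioc a0 (a0 + N), ∑ h ∈ Icc (-((4 * b * X : ℕ) : ℤ)) ((4 * b * X : ℕ) : ℤ),
      ∑ q ∈ Icc 1 1, ∑ r ∈ range q,
      ‖∑ n ∈ (Ioc x (x + (b * t : ℕ))).filter (fun n => n % (q : ℤ) = r), w n * f (n + h)‖ ^ 2 := by
    refine sum_congr rfl fun x _ => sum_congr rfl fun h _ => ?_
    rw [Icc_self, sum_singleton, sum_range_one]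
    congr 3
    rw [filter_true_of_mem]
    intro n _
    simp
  rw [e1]
  refine h.trans ?_
  have hs : Real.sqrt (((8 * b * X : ℕ) : ℝ) * ((b * t : ℕ) : ℝ) ^ 2 /
      L ^ (2 * (4 * Ce + 5 + D)) * ((4 * b * X : ℕ) : ℝ)) ≤
      8 * b * X * (b * t) / L ^ (4 * Ce + 5 + D) := by
    rw [Real.sqrt_le_left (by positivity)]
    push_cast
    rw [two_mul (4 * Ce + 5 + D), pow_add]
    have e1 : 8 * (b : ℝ) * X * (b * t) ^ 2 / (L ^ (4 * Ce + 5 + D) * L ^ (4 * Ce + 5 + D)) *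
        (4 * b * X) = 32 * (b * X * (b * t) / L ^ (4 * Ce + 5 + D)) ^ 2 := by
      field_simp
      ring
    have e2 : (8 * (b : ℝ) * X * (b * t) / L ^ (4 * Ce + 5 + D)) ^ 2 =
        64 * (b * X * (b * t) / L ^ (4 * Ce + 5 + D)) ^ 2 := by
      field_simp
      ring
    rw [e1, e2]
    nlinarith [sq_nonneg ((b : ℝ) * X * (b * t) / L ^ (4 * Ce + 5 + D))]
  have hlt0 : 0 ≤ Real.log ((b * t : ℕ) : ℝ) := Real.log_natCast_nonneg _
  have hb := Mb D Ce C L X N b t K (Real.log ((b * t : ℕ) : ℝ)) hL hC0 (by positivity)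
    (by exact_mod_cast hb1) hbC (by positivity) (by exact_mod_cast hN) (by positivity)
    (by exact_mod_cast htK) hlt0 hbt hKb
  refine le_trans ?_ hb
  have hN0 : (0 : ℝ) ≤ N := Nat.cast_nonneg N
  push_cast at hs ⊢
  push_cast at hlt0
  gcongr

/-! ### the input: dilated sequences -/

theorem dil (θ : ℝ) (hθ : 0 ≤ θ) (h : S_DIL θ) (e s A C : ℕ) (he : 1 ≤ e) : ∃ E₀ : ℕ, ∀ E₁ : ℕ,
    ∃ X₀ : ℕ, ∀ X : ℕ, X₀ ≤ X → ∀ K : ℕ, (X : ℝ) ^ (θ + 1 / e : ℝ) ≤ K → K ≤ X → ∀ z : ℕ,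
    (Real.log X) ^ E₀ ≤ z → (z : ℝ) ≤ (Real.log X) ^ E₁ → ∀ t : ℕ, t ≤ K →
    (K : ℝ) ≤ t * (4 * (Real.log X) ^ s) → ∀ b : ℕ, 1 ≤ b → (b : ℝ) ≤ (Real.log X) ^ C →
    ∀ a : ℕ, 1 ≤ a → (a : ℝ) ≤ (Real.log X) ^ C → ∀ (Y : ℤ) (α : ℝ),
    ∑ x ∈ Icc (-((8 * b * X : ℕ) : ℤ)) ((8 * b * X : ℕ) : ℤ),
      ‖sw (fun m => if (a : ℤ) ∣ m ∧ 0 < m ∧ m ≤ Y then Ed z (m / a) else 0) (b * t) x α‖ ^ 2 ≤
      ((8 * b * X : ℕ) : ℝ) * ((b * t : ℕ) : ℝ) ^ 2 / (Real.log X) ^ A := by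
  obtain ⟨E, hE⟩ := h (2 * e) A C (by omega)
  refine ⟨E + 1, fun E₁ => ?_⟩
  obtain ⟨X₁, hX₁⟩ := hE E₁
  have he0 : (0 : ℝ) < e := by exact_mod_cast he
  have hlog : Filter.Tendsto (fun X : ℕ => Real.log (X : ℝ)) Filter.atTop Filter.atTop :=
    Real.tendsto_log_atTop.comp (tendsto_natCast_atTop_atTop (R := ℝ))
  have ev1 : ∀ᶠ X : ℕ in Filter.atTop, max 2 ((2 : ℝ) ^ E) ≤ Real.log (X : ℝ) :=
    hlog.eventually_ge_atTop _
  -- powers of the logarithm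
  have evp : ∀ (c : ℝ) (p : ℝ), 0 < c → ∀ δ : ℝ, 0 < δ → ∀ᶠ X : ℕ in Filter.atTop,
      c * (Real.log X) ^ p ≤ (X : ℝ) ^ δ := by
    intro c p hc δ hδ
    have h1 := (isLittleO_log_rpow_rpow_atTop p hδ).bound (show (0 : ℝ) < 1 / c by positivity)
    have h2 := (tendsto_natCast_atTop_atTop (R := ℝ)).eventually h1
    filter_upwards [h2, ev1] with X hX hX2
    have hl : 0 < Real.log (X : ℝ) := by
      have := (le_max_left (2 : ℝ) _).trans hX2
      linarith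
    rw [Real.norm_eq_abs, Real.norm_eq_abs, abs_of_nonneg (by positivity),
      abs_of_nonneg (by positivity)] at hX
    calc c * (Real.log X) ^ p ≤ c * (1 / c * (X : ℝ) ^ δ) := mul_le_mul_of_nonneg_left hX hc.le
      _ = _ := by field_simp
  have ev2 := evp ((8 : ℝ) ^ (θ + 1) * 4) (C * (θ + 1) + s) (by positivity) (1 / (2 * e))
    (by positivity)
  have ev3 := evp 8 C (by norm_num) 1 (by norm_num)
  obtain ⟨X₂, hX₂⟩ := Filter.eventually_atTop.1 (ev1.and (ev2.and ev3))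
  refine ⟨max (max X₁ X₂) 8, fun X hX K hK hKX z hz1 hz2 t htK hKt b hb1 hbC a ha1 haC Y α => ?_⟩
  have hXa : X₁ ≤ X := le_trans (le_trans (le_max_left _ _) (le_max_left _ _)) hX
  have hXb : X₂ ≤ X := le_trans (le_trans (le_max_right _ _) (le_max_left _ _)) hX
  have hXc : 8 ≤ X := le_trans (le_max_right _ _) hX
  obtain ⟨hl, hp, hp3⟩ := hX₂ X hXb
  have hl2 : 2 ≤ Real.log (X : ℝ) := (le_max_left _ _).trans hl
  have hlE : (2 : ℝ) ^ E ≤ Real.log (X : ℝ) := (le_max_right _ _).trans hl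
  set L := Real.log (X : ℝ) with hLdef
  have hL0 : 0 < L := by linarith
  have hXr : (8 : ℝ) ≤ X := by exact_mod_cast hXc
  have hX0 : (0 : ℝ) < X := by linarith
  have hbr : (1 : ℝ) ≤ b := by exact_mod_cast hb1
  rw [Real.rpow_one, Real.rpow_natCast] at hp3
  have h8b : 8 * (b : ℝ) ≤ X := le_trans (mul_le_mul_of_nonneg_left hbC (by norm_num)) hp3
  have hX8 : X ≤ 8 * b * X := Nat.le_mul_of_pos_left X (by omega)
  have hL5 : L ≤ Real.log ((8 * b * X : ℕ) : ℝ) := by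
    refine Real.log_le_log hX0 ?_
    exact_mod_cast hX8
  have hL5' : Real.log ((8 * b * X : ℕ) : ℝ) ≤ 2 * L := by
    push_cast
    have h1 : Real.log (8 * b * (X : ℝ)) ≤ Real.log ((X : ℝ) * X) :=
      Real.log_le_log (by positivity) (mul_le_mul_of_nonneg_right h8b hX0.le)
    rw [Real.log_mul hX0.ne' hX0.ne'] at h1
    linarith
  have hz1' : (Real.log ((8 * b * X : ℕ) : ℝ)) ^ E ≤ z := by
    refine le_trans ?_ hz1
    calc (Real.log ((8 * b * X : ℕ) : ℝ)) ^ E ≤ (2 * L) ^ E :=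
          pow_le_pow_left₀ (by linarith) hL5' E
      _ = 2 ^ E * L ^ E := mul_pow _ _ _
      _ ≤ L * L ^ E := mul_le_mul_of_nonneg_right hlE (by positivity)
      _ = L ^ (E + 1) := by rw [pow_succ, mul_comm]
  have hz2' : (z : ℝ) ≤ (Real.log ((8 * b * X : ℕ) : ℝ)) ^ E₁ :=
    hz2.trans (pow_le_pow_left₀ hL0.le hL5 E₁)
  have ha' : (a : ℝ) ≤ (Real.log ((8 * b * X : ℕ) : ℝ)) ^ C :=
    haC.trans (pow_le_pow_left₀ hL0.le hL5 C)
  have ht5 : (((8 * b * X : ℕ) : ℕ) : ℝ) ^ (θ + 1 / ((2 * e : ℕ) : ℝ) : ℝ) ≤ t := by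
    push_cast
    have h1 : (8 * b * (X : ℝ)) ^ (θ + 1 / (2 * e) : ℝ) =
        (8 * b : ℝ) ^ (θ + 1 / (2 * e) : ℝ) * (X : ℝ) ^ (θ + 1 / (2 * e) : ℝ) :=
      Real.mul_rpow (by positivity) hX0.le
    have he1 : (1 : ℝ) ≤ e := by exact_mod_cast he
    have h2 : (8 * b : ℝ) ^ (θ + 1 / (2 * e) : ℝ) ≤ (8 : ℝ) ^ (θ + 1) * L ^ (C * (θ + 1) : ℝ) := by
      calc (8 * b : ℝ) ^ (θ + 1 / (2 * e) : ℝ) ≤ (8 * b : ℝ) ^ (θ + 1 : ℝ) := by
            refine Real.rpow_le_rpow_of_exponent_le (by linarith) ?_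
            have : (1 : ℝ) / (2 * e) ≤ 1 := by
              rw [div_le_one (by positivity)]
              linarith
            linarith
        _ = (8 : ℝ) ^ (θ + 1) * (b : ℝ) ^ (θ + 1) := Real.mul_rpow (by norm_num) (by positivity)
        _ ≤ (8 : ℝ) ^ (θ + 1) * (L ^ C) ^ (θ + 1) := by
            refine mul_le_mul_of_nonneg_left ?_ (by positivity)
            exact Real.rpow_le_rpow (by positivity) hbC (by linarith)
        _ = _ := by
            rw [← Real.rpow_natCast L C, ← Real.rpow_mul hL0.le]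
    have h3 : (X : ℝ) ^ (θ + 1 / e : ℝ) = (X : ℝ) ^ (θ + 1 / (2 * e) : ℝ) *
        (X : ℝ) ^ (1 / (2 * e) : ℝ) := by
      rw [← Real.rpow_add hX0]
      congr 1
      field_simp
      ring
    have h4 : (X : ℝ) ^ (θ + 1 / (2 * e) : ℝ) * (((8 : ℝ) ^ (θ + 1) * L ^ (C * (θ + 1) : ℝ)) *
        (4 * L ^ s)) ≤ t * (4 * L ^ s) := by
      refine le_trans ?_ hKt
      refine le_trans ?_ hK
      rw [h3]
      refine mul_le_mul_of_nonneg_left ?_ (by positivity)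
      refine le_trans (le_of_eq ?_) hp
      rw [Real.rpow_add hL0, Real.rpow_natCast]
      ring
    have h5 : ((X : ℝ) ^ (θ + 1 / (2 * e) : ℝ) * ((8 : ℝ) ^ (θ + 1) * L ^ (C * (θ + 1) : ℝ))) *
        (4 * L ^ s) ≤ t * (4 * L ^ s) := by
      refine le_trans (le_of_eq ?_) h4
      ring
    have h6 := le_of_mul_le_mul_right h5 (by positivity)
    rw [h1]
    refine le_trans ?_ h6
    rw [mul_comm]
    exact mul_le_mul_of_nonneg_left h2 (by positivity)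
  have hbt5 : (((8 * b * X : ℕ) : ℕ) : ℝ) ^ (θ + 1 / ((2 * e : ℕ) : ℝ) : ℝ) ≤
      ((b * t : ℕ) : ℝ) := by
    refine ht5.trans ?_
    exact_mod_cast Nat.le_mul_of_pos_left t (by omega)
  have hbtX : b * t ≤ 8 * b * X := by
    have h1 : b * t ≤ b * X := Nat.mul_le_mul_left _ (htK.trans hKX)
    have h2 : b * X ≤ 8 * b * X := Nat.mul_le_mul_right _ (by omega)
    exact h1.trans h2
  have hmain := hX₁ (8 * b * X) (hXa.trans hX8) z hz1' hz2' (b * t) hbt5 hbtX a ha1 ha' 0 Y α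
  refine hmain.trans ?_
  have h7 : L ^ A ≤ (Real.log ((8 * b * X : ℕ) : ℝ)) ^ A := pow_le_pow_left₀ hL0.le hL5 A
  exact div_le_div_of_nonneg_left (by positivity) (by positivity) h7

/-! ### the two parts -/

/-- `Ed z` on the multiples of `a` in `(0, Z]` -/
noncomputable def Eg (a Z z : ℕ) (m : ℤ) : ℝ :=
  if (a : ℤ) ∣ m ∧ 0 < m ∧ m ≤ (Z : ℤ) then Ed z (m / a) else 0

theorem Ed_neg (z : ℕ) (m : ℤ) (hm : m ≤ 0) : Ed z m = 0 := by
  have h1 : ¬ (1 : ℤ) ≤ m := by omega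
  unfold Ed lamI lamzI
  rw [if_neg h1, if_neg h1, sub_zero]

theorem Eg_eq (a Z z : ℕ) (m : ℤ) (hm : m ≤ (Z : ℤ)) :
    Eg a Z z m = if (a : ℤ) ∣ m then Ed z (m / a) else 0 := by
  unfold Eg
  by_cases h : (a : ℤ) ∣ m
  · rw [if_pos h]
    split_ifs with h2
    · rfl
    · have h3 : m ≤ 0 := by
        by_contra h4
        exact h2 ⟨h, by omega, hm⟩
      have h5 : m / (a : ℤ) ≤ 0 := by
        rcases Nat.eq_zero_or_pos a with h6 | h6
        · rw [h6, Nat.cast_zero, Int.ediv_zero]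
        · exact (Int.ediv_le_ediv (by exact_mod_cast h6) h3).trans_eq (Int.zero_ediv _)
      rw [Ed_neg z _ h5]
  · rw [if_neg h, if_neg (fun h2 => h h2.1)]

theorem Eg_supp (a Z z : ℕ) (m : ℤ) (hm : Eg a Z z m ≠ 0) : |m| ≤ (Z : ℤ) := by
  unfold Eg at hm
  split_ifs at hm with h1
  · rw [abs_of_pos h1.2.1]
    exact h1.2.2
  · exact absurd rfl hm

theorem Eg_abs (a Z z : ℕ) (L : ℝ) (hL : 1 ≤ L) (ha : 1 ≤ a)
    (hb : ∀ m : ℤ, m ≤ (Z : ℤ) → lamI m ≤ 2 * L ∧ lamzI z m ≤ 2 * L) (m : ℤ) :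
    |Eg a Z z m| ≤ 2 * L := by
  unfold Eg
  split_ifs with hm
  · have h0 : m / (a : ℤ) ≤ Z := (Int.ediv_le_self _ hm.2.1.le).trans hm.2.2
    have h1 := hb _ h0
    have h2 := Pool.Agent.H373R2.T7.lamI_nonneg (m / a)
    have h3 := Pool.Agent.H373R2.T7.lamzI_nonneg z (m / a)
    unfold Ed
    rw [abs_le]
    constructor <;> linarith
  · rw [abs_zero]
    linarith

/-- sums over multiples -/
theorem dilsum (b x t : ℕ) (hb : 1 ≤ b) (c : ℤ) (F : ℤ → ℂ)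
    (hF : ∀ u, ¬ (b : ℤ) ∣ u - c → F u = 0) :
    ∑ u ∈ Ioc (c + b * x) (c + b * x + (b * t : ℕ)), F u = ∑ n ∈ Ioc x (x + t), F (c + b * n) := by
  classical
  have hb0 : (0 : ℤ) < b := by exact_mod_cast hb
  have hinj : Set.InjOn (fun n : ℕ => c + (b : ℤ) * n) (Ioc x (x + t) : Finset ℕ) := by
    intro n _ n' _ h
    have h' : c + (b : ℤ) * n = c + (b : ℤ) * n' := h
    have h2 : (b : ℤ) * n = (b : ℤ) * n' := by linarith
    have h3 := mul_left_cancel₀ hb0.ne' h2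
    exact_mod_cast h3
  rw [← sum_image (f := F) hinj]
  symm
  refine sum_subset ?_ ?_
  · intro u hu
    rw [mem_image] at hu
    obtain ⟨n, hn, rfl⟩ := hu
    rw [mem_Ioc] at hn
    rw [mem_Ioc]
    have h1 : (x : ℤ) < n := by exact_mod_cast hn.1
    have h2 : (n : ℤ) ≤ x + t := by exact_mod_cast hn.2
    push_cast
    constructor <;> nlinarith
  · intro u hu hnu
    refine hF u fun hd => hnu ?_
    obtain ⟨k, hk⟩ := hd
    rw [mem_Ioc] at hu
    push_cast at hu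
    have h1 : (x : ℤ) < k := by
      by_contra h2
      push Not at h2
      nlinarith
    have h2 : k ≤ x + t := by
      by_contra h3
      push Not at h3
      nlinarith
    rw [mem_image]
    refine ⟨k.toNat, ?_, ?_⟩
    · rw [mem_Ioc]
      omega
    · rw [Int.toNat_of_nonneg (by omega)]
      linarith

/-- embedding of sums -/
theorem emb {ι κ : Type} [DecidableEq κ] {s : Finset ι} {B : Finset κ} (i : ι → κ) (G : κ → ℝ)
    (hG : ∀ b, 0 ≤ G b) (hi : Set.InjOn i s) (hB : ∀ n ∈ s, i n ∈ B) :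
    ∑ n ∈ s, G (i n) ≤ ∑ b ∈ B, G b := by
  rw [← sum_image hi]
  exact sum_le_sum_of_subset_of_nonneg (image_subset_iff.2 hB) (fun _ _ _ => hG _)

section parts

variable (C : ℝ) (hC : SupC C) (hC0 : 0 ≤ C) (D Ce : ℕ) (L : ℝ) (hL : 1 ≤ L) (X t K z a b : ℕ)
  (hX : 1 ≤ X) (ht : 1 ≤ t) (htK : t ≤ K) (hKX : K ≤ X) (ha1 : 1 ≤ a) (hb1 : 1 ≤ b)
  (hbC : (b : ℝ) ≤ L ^ Ce) (hbt : Real.log ((b * t : ℕ) : ℝ) ≤ 2 * L)
  (hb : ∀ m : ℤ, m ≤ ((4 * b * X : ℕ) : ℤ) → lamI m ≤ 2 * L ∧ lamzI z m ≤ 2 * L)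
  (hbz : ∀ m : ℤ, lamzI z m ≤ 2 * L) (hKb : L ^ (3 * Ce + 4 + D) ≤ K)

include hC hC0 hL hX ht htK hKX hb1 hbC hbt hb hKb

theorem partA (ha1 : 1 ≤ a)
    (hS : ∀ α : ℝ, ∑ x ∈ Icc (-(((4 * b * X : ℕ) : ℤ) + (b * t : ℕ))) ((4 * b * X : ℕ) : ℤ),
      ‖sw (Eg a (4 * b * X) z) (b * t) x α‖ ^ 2 ≤
      ((8 * b * X : ℕ) : ℝ) * ((b * t : ℕ) : ℝ) ^ 2 / L ^ (2 * (4 * Ce + 5 + D))) :
    ∑ x ∈ Icc 1 X, ∑ c ∈ Icc (-(X : ℤ)) X, (∑ n ∈ Ioc x (x + t),
      if (a : ℤ) ∣ c + b * n then lamI (n : ℤ) * Ed z ((c + b * n) / a) else 0) ^ 2 ≤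
      2560 * C * ((X : ℝ) ^ 2 * (K : ℝ) ^ 2 / L ^ D) := by
  classical
  have hXb : X ≤ b * X := Nat.le_mul_of_pos_left X hb1
  have hmain := supb C hC hC0 D Ce L hL (Eg a (4 * b * X) z)
    (fun u => if (b : ℤ) ∣ u ∧ u ≤ ((2 * b * X : ℕ) : ℤ) then ((lamI (u / b) : ℝ) : ℂ) else 0)
    0 X (b * X) b t K hX hb1 hbC (by nlinarith) ht htK hbt (Eg_abs a (4 * b * X) z L hL ha1 hb)
    (Eg_supp a (4 * b * X) z) ?_ hKb hS
  · refine le_trans ?_ hmain
    refine le_trans ?_ (emb (s := Icc 1 X) (fun x : ℕ => (b : ℤ) * x) _ (fun _ =>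
      sum_nonneg fun _ _ => by positivity) ?_ ?_)
    · refine sum_le_sum fun x hx => ?_
      rw [mem_Icc] at hx
      refine le_trans ?_ (sum_le_sum_of_subset_of_nonneg (s := Icc (-(X : ℤ)) X) ?_
        (fun _ _ _ => by positivity))
      · refine sum_le_sum fun c hc => le_of_eq ?_
        rw [mem_Icc] at hc
        have h0 : (b : ℤ) * x = 0 + b * x := (zero_add _).symm
        rw [h0, dilsum b x t hb1 0]
        · have e : ∑ n ∈ Ioc x (x + t), (if (b : ℤ) ∣ (0 + (b : ℤ) * (n : ℤ)) ∧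
              0 + (b : ℤ) * (n : ℤ) ≤ ((2 * b * X : ℕ) : ℤ) then
              ((lamI ((0 + (b : ℤ) * (n : ℤ)) / b) : ℝ) : ℂ) else 0) *
              ((Eg a (4 * b * X) z (0 + (b : ℤ) * (n : ℤ) + c) : ℝ) : ℂ) =
              ((∑ n ∈ Ioc x (x + t), if (a : ℤ) ∣ c + b * n then
                lamI (n : ℤ) * Ed z ((c + b * n) / a) else 0 : ℝ) : ℂ) := by
            push_cast
            refine sum_congr rfl fun n hn => ?_
            rw [mem_Ioc] at hn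
            have hn2 : n ≤ 2 * X := by omega
            have hbn : b * n ≤ 2 * b * X := by
              calc b * n ≤ b * (2 * X) := Nat.mul_le_mul_left _ hn2
                _ = 2 * b * X := by ring
            have hbn' : (b : ℤ) * n ≤ ((2 * b * X : ℕ) : ℤ) := by exact_mod_cast hbn
            have hb0 : (b : ℤ) ≠ 0 := by omega
            have hle : (b : ℤ) * n + c ≤ ((4 * b * X : ℕ) : ℤ) := by
              have h1 : (X : ℤ) ≤ b * X := by exact_mod_cast hXb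
              push_cast at hbn' ⊢
              nlinarith
            rw [zero_add, if_pos ⟨Dvd.intro _ rfl, hbn'⟩, Int.mul_ediv_cancel_left _ hb0,
              Eg_eq _ _ _ _ hle, add_comm ((b : ℤ) * n) c]
            split_ifs with hd
            · push_cast
              ring
            · push_cast
              ring
          rw [e, Complex.norm_real, Real.norm_eq_abs, sq_abs]
        · intro u hu
          rw [sub_zero] at hu
          rw [if_neg (fun h => hu h.1), zero_mul]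
      · refine Icc_subset_Icc ?_ ?_
        · have h1 : (X : ℤ) ≤ b * X := by exact_mod_cast hXb
          push_cast
          nlinarith
        · have h1 : (X : ℤ) ≤ b * X := by exact_mod_cast hXb
          push_cast
          nlinarith
    · intro x _ x' _ h
      have h' : (b : ℤ) * x = (b : ℤ) * x' := h
      have h3 := mul_left_cancel₀ (show (b : ℤ) ≠ 0 by omega) h'
      exact_mod_cast h3
    · intro x hx
      rw [mem_Icc] at hx
      rw [mem_Ioc]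
      have h1 : (1 : ℤ) ≤ b * x := by exact_mod_cast Nat.mul_pos hb1 hx.1
      have h2 : b * x ≤ b * X := Nat.mul_le_mul_left _ hx.2
      have h3 : (b : ℤ) * x ≤ ((b * X : ℕ) : ℤ) := by exact_mod_cast h2
      constructor
      · omega
      · rw [zero_add]
        exact h3
  · intro u
    split_ifs with hu
    · rw [Complex.norm_real, Real.norm_eq_abs, abs_of_nonneg (Pool.Agent.H373R2.T7.lamI_nonneg _)]
      refine (hb _ ?_).1
      obtain ⟨k, hk⟩ := hu.1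
      have hb0 : (b : ℤ) ≠ 0 := by omega
      rw [hk, Int.mul_ediv_cancel_left _ hb0]
      have h1 : (b : ℤ) * k ≤ b * (2 * X) := by
        have := hu.2
        push_cast at this
        rw [hk] at this
        linarith
      have h2 : k ≤ 2 * X := le_of_mul_le_mul_left h1 (by omega)
      have h3 : (X : ℤ) ≤ b * X := by exact_mod_cast hXb
      push_cast
      nlinarith
    · rw [norm_zero]
      positivity

include hbz in
theorem partB
    (hS : ∀ α : ℝ, ∑ x ∈ Icc (-(((4 * b * X : ℕ) : ℤ) + (b * t : ℕ))) ((4 * b * X : ℕ) : ℤ),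
      ‖sw (Eg b (4 * b * X) z) (b * t) x α‖ ^ 2 ≤
      ((8 * b * X : ℕ) : ℝ) * ((b * t : ℕ) : ℝ) ^ 2 / L ^ (2 * (4 * Ce + 5 + D))) :
    ∑ x ∈ Icc 1 X, ∑ c ∈ Icc (-(X : ℤ)) X, (∑ n ∈ Ioc x (x + t),
      if (a : ℤ) ∣ c + b * n then Ed z (n : ℤ) * lamzI z ((c + b * n) / a) else 0) ^ 2 ≤
      2560 * C * ((X : ℝ) ^ 2 * (K : ℝ) ^ 2 / L ^ D) := by
  classical
  have hXb : X ≤ b * X := Nat.le_mul_of_pos_left X hb1
  have hXb' : (X : ℤ) ≤ b * X := by exact_mod_cast hXb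
  have hmain := supb C hC hC0 D Ce L hL (Eg b (4 * b * X) z)
    (fun u => if (a : ℤ) ∣ u then ((lamzI z (u / a) : ℝ) : ℂ) else 0)
    (-(X : ℤ) - 1) X ((b + 2) * X + 1) b t K hX hb1 hbC (by nlinarith) ht htK hbt
    (Eg_abs b (4 * b * X) z L hL hb1 hb) (Eg_supp b (4 * b * X) z) ?_ hKb hS
  · refine le_trans ?_ hmain
    rw [sum_comm]
    have hstep : ∀ c ∈ Icc (-(X : ℤ)) X, ∑ x ∈ Icc 1 X, (∑ n ∈ Ioc x (x + t),
        if (a : ℤ) ∣ c + b * n then Ed z (n : ℤ) * lamzI z ((c + b * n) / a) else 0) ^ 2 ≤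
        ∑ x ∈ Ioc (-(X : ℤ) - 1) (-(X : ℤ) - 1 + (((b + 2) * X + 1 : ℕ) : ℤ)),
        ‖∑ n ∈ Ioc x (x + (b * t : ℕ)), (if (a : ℤ) ∣ n then ((lamzI z (n / a) : ℝ) : ℂ) else 0) *
          (Eg b (4 * b * X) z (n + -c) : ℂ)‖ ^ 2 := by
      intro c hc
      rw [mem_Icc] at hc
      refine le_trans ?_ (emb (s := Icc 1 X) (fun x : ℕ => c + (b : ℤ) * x) _ (fun _ =>
        by positivity) ?_ ?_)
      · refine sum_le_sum fun x hx => le_of_eq ?_
        rw [mem_Icc] at hx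
        rw [dilsum b x t hb1 c]
        · have e : ∑ n ∈ Ioc x (x + t), (if (a : ℤ) ∣ (c + (b : ℤ) * (n : ℤ)) then
              ((lamzI z ((c + (b : ℤ) * (n : ℤ)) / a) : ℝ) : ℂ) else 0) *
              ((Eg b (4 * b * X) z (c + (b : ℤ) * (n : ℤ) + -c) : ℝ) : ℂ) =
              ((∑ n ∈ Ioc x (x + t), if (a : ℤ) ∣ c + b * n then
                Ed z (n : ℤ) * lamzI z ((c + b * n) / a) else 0 : ℝ) : ℂ) := by
            push_cast
            refine sum_congr rfl fun n hn => ?_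
            rw [mem_Ioc] at hn
            have hn2 : n ≤ 2 * X := by omega
            have hbn : b * n ≤ 4 * b * X := by
              calc b * n ≤ b * (4 * X) := Nat.mul_le_mul_left _ (by omega)
                _ = 4 * b * X := by ring
            have hbn' : (b : ℤ) * n ≤ ((4 * b * X : ℕ) : ℤ) := by exact_mod_cast hbn
            have hb0 : (b : ℤ) ≠ 0 := by omega
            have e1 : c + (b : ℤ) * (n : ℤ) + -c = (b : ℤ) * n := by ring
            rw [e1, Eg_eq _ _ _ _ hbn', if_pos (Dvd.intro _ rfl), Int.mul_ediv_cancel_left _ hb0]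
            split_ifs with hd
            · push_cast
              ring
            · push_cast
              ring
          rw [e, Complex.norm_real, Real.norm_eq_abs, sq_abs]
        · intro u hu
          have h1 : Eg b (4 * b * X) z (u + -c) = 0 := by
            unfold Eg
            rw [if_neg]
            rintro ⟨h2, -⟩
            exact hu (by rwa [sub_eq_add_neg])
          rw [h1]
          push_cast
          rw [mul_zero]
      · intro x _ x' _ h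
        have h' : c + (b : ℤ) * x = c + (b : ℤ) * x' := h
        have h3 := mul_left_cancel₀ (show (b : ℤ) ≠ 0 by omega) (add_left_cancel h')
        exact_mod_cast h3
      · intro x hx
        rw [mem_Icc] at hx
        rw [mem_Ioc]
        have h1 : (1 : ℤ) ≤ b * x := by exact_mod_cast Nat.mul_pos hb1 hx.1
        have h2 : b * x ≤ b * X := Nat.mul_le_mul_left _ hx.2
        have h3 : (b : ℤ) * x ≤ b * X := by exact_mod_cast h2
        push_cast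
        constructor
        · omega
        · nlinarith
    refine (sum_le_sum hstep).trans ?_
    rw [sum_comm]
    refine sum_le_sum fun x _ => ?_
    refine emb (s := Icc (-(X : ℤ)) X) (fun c : ℤ => -c) (fun h => ‖∑ n ∈ Ioc x (x + (b * t : ℕ)),
      (if (a : ℤ) ∣ n then ((lamzI z (n / a) : ℝ) : ℂ) else 0) *
          (Eg b (4 * b * X) z (n + h) : ℂ)‖ ^ 2) (fun _ => by positivity)
      (fun _ _ _ _ h => neg_injective h) ?_
    intro c hc
    rw [mem_Icc] at hc ⊢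
    push_cast
    constructor <;> nlinarith
  · intro u
    split_ifs with hu
    · rw [Complex.norm_real, Real.norm_eq_abs,
        abs_of_nonneg (Pool.Agent.H373R2.T7.lamzI_nonneg _ _)]
      exact hbz _
    · rw [norm_zero]
      positivity

end parts

/-! ### the result -/

theorem TS1 {ι : Type} (X : ℕ) (V : Finset ι) (g : ι → ℕ → ℝ) (t : ℕ → ι → ℕ → ℕ → ℕ) :
    TS X 1 V (fun x v q r => (Cs (g v) x q r (t x v q r)) ^ 2) =
      ∑ x ∈ Icc 1 X, ∑ v ∈ V, (∑ n ∈ Ioc x (x + t x v 1 0), g v n) ^ 2 := by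
  unfold TS Cs
  refine sum_congr rfl fun x _ => sum_congr rfl fun v _ => ?_
  rw [Icc_self, sum_singleton, sum_range_one]
  show (∑ n ∈ (Ioc x (x + t x v 1 0)).filter (fun n => n % 1 = 0), g v n) ^ 2 = _
  congr 1
  rw [filter_true_of_mem]
  intro n _
  exact Nat.mod_one n

theorem lamI_le2 (N : ℕ) (hN : 1 ≤ N) (m : ℤ) (hm2 : m ≤ ((N * N : ℕ) : ℤ)) :
    lamI m ≤ 2 * Real.log N := by
  have hlog : 0 ≤ Real.log N := Real.log_natCast_nonneg N
  unfold lamI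
  split_ifs with hm
  · refine ArithmeticFunction.vonMangoldt_le_log.trans ?_
    have h1 : (m.toNat : ℝ) ≤ N * N := by
      have h2 : m.toNat ≤ N * N := by omega
      exact_mod_cast h2
    have h0 : (0 : ℝ) < m.toNat := by
      have : 0 < m.toNat := by omega
      exact_mod_cast this
    have hN0 : (N : ℝ) ≠ 0 := by
      have : (1 : ℝ) ≤ N := by exact_mod_cast hN
      linarith
    have h4 := Real.log_le_log h0 h1
    rw [Real.log_mul hN0 hN0] at h4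
    linarith
  · linarith

theorem main : ∀ θ : ℝ, 0 ≤ θ → S_DIL θ → S_SUP → S_SAB θ := by
  intro θ hθ hD hT e A C he
  obtain ⟨C₀, hC1, hC⟩ := hT
  have hC' : SupC C₀ := hC
  obtain ⟨E₀, hE₀⟩ := dil θ hθ hD e (A + 1 + 2 + 1)
    (2 * (4 * C + 5 + (A + 1 + 2 + 1 + (A + 1) + 1))) C he
  refine ⟨E₀, fun E₁ => ?_⟩
  obtain ⟨X₀, hX₀⟩ := hE₀ E₁
  obtain ⟨N₁, hV⟩ := Pool.Agent.H373R2.T7.Vz_inv_small E₁
  have he0 : (0 : ℝ) < e := by exact_mod_cast he
  have hlog : Filter.Tendsto (fun X : ℕ => Real.log (X : ℝ)) Filter.atTop Filter.atTop :=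
    Real.tendsto_log_atTop.comp (tendsto_natCast_atTop_atTop (R := ℝ))
  have ev1 : ∀ᶠ X : ℕ in Filter.atTop,
      max 72 (27 * (10240 * C₀)) ≤ Real.log (X : ℝ) :=
    hlog.eventually_ge_atTop _
  set M : ℕ := 3 * C + 4 + (A + 1 + 2 + 1 + (A + 1) + 1) with hM
  have ev2 : ∀ᶠ X : ℕ in Filter.atTop, 8 * (Real.log X) ^ M ≤ (X : ℝ) ^ (1 / e : ℝ) := by
    have h1 := (isLittleO_log_rpow_rpow_atTop ((M : ℕ) : ℝ)
      (show (0 : ℝ) < 1 / e by positivity)).bound (show (0 : ℝ) < 1 / 8 by norm_num)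
    have h2 := (tendsto_natCast_atTop_atTop (R := ℝ)).eventually h1
    filter_upwards [h2, ev1] with X hX hX2
    have hl : 0 < Real.log (X : ℝ) := by
      have := (le_max_left (72 : ℝ) _).trans hX2
      linarith
    rw [Real.rpow_natCast, Real.norm_eq_abs, Real.norm_eq_abs, abs_of_nonneg (by positivity),
      abs_of_nonneg (by positivity)] at hX
    linarith
  obtain ⟨X₂, hX₂⟩ := Filter.eventually_atTop.1 (ev1.and ev2)
  refine ⟨max (max X₀ N₁) (max X₂ 3), fun X hX K hK hKX z hz1 hz2 a b ha1 hb1 haC hbC y hy => ?_⟩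
  have hXa : X₀ ≤ X := le_trans (le_trans (le_max_left _ _) (le_max_left _ _)) hX
  have hXb : N₁ ≤ X := le_trans (le_trans (le_max_right _ _) (le_max_left _ _)) hX
  have hXc : X₂ ≤ X := le_trans (le_trans (le_max_left _ _) (le_max_right _ _)) hX
  have hX3 : 3 ≤ X := le_trans (le_trans (le_max_right _ _) (le_max_right _ _)) hX
  obtain ⟨hl, hp⟩ := hX₂ X hXc
  have hL72 : 72 ≤ Real.log (X : ℝ) := (le_max_left _ _).trans hl
  have hLC : 27 * (10240 * C₀) ≤ Real.log (X : ℝ) := (le_max_right _ _).trans hl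
  have hdil := hX₀ X hXa K hK hKX z hz1 hz2
  set L := Real.log (X : ℝ) with hLdef
  have hL1 : 1 ≤ L := by linarith
  have hX1 : (1 : ℝ) ≤ X := by
    have : 1 ≤ X := by omega
    exact_mod_cast this
  have hz : 1 ≤ z := by
    have h1 : (1 : ℝ) ≤ L ^ E₀ := one_le_pow₀ hL1
    exact_mod_cast h1.trans hz1
  have hVL : (Vz z)⁻¹ ≤ L := hV X hXb z hz hz2
  have hbz1 : ∀ m : ℤ, lamzI z m ≤ L := fun m => (lamzI_le z hz m).trans hVL
  have hbz : ∀ m : ℤ, lamzI z m ≤ 2 * L := fun m => (hbz1 m).trans (by linarith)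
  have hKX' : (K : ℝ) ≤ X := by exact_mod_cast hKX
  have hKM : 8 * L ^ M ≤ K := by
    refine hp.trans (le_trans ?_ hK)
    refine Real.rpow_le_rpow_of_exponent_le hX1 ?_
    linarith
  have hLM0 : (1 : ℝ) ≤ L ^ M := one_le_pow₀ hL1
  have hK1 : (1 : ℝ) ≤ K := by linarith
  have hpow : ∀ i : ℕ, i ≤ M → L ^ i ≤ L ^ M := fun i hi => pow_le_pow_right₀ hL1 hi
  have h8b : 8 * (b : ℝ) ≤ X := by
    have h1 := hpow C (by omega)
    linarith
  have h8b' : 8 * b ≤ X := by exact_mod_cast h8b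
  have hb4 : 4 * b * X ≤ X * X := Nat.mul_le_mul_right _ (by omega)
  have hb : ∀ m : ℤ, m ≤ ((4 * b * X : ℕ) : ℤ) → lamI m ≤ 2 * L ∧ lamzI z m ≤ 2 * L :=
    fun m hm => ⟨lamI_le2 X (by omega) m (hm.trans (by exact_mod_cast hb4)), hbz m⟩
  have hKL : Real.log K ≤ L := Real.log_le_log (by linarith) hKX'
  have hbt : ∀ t : ℕ, 1 ≤ t → t ≤ K → Real.log ((b * t : ℕ) : ℝ) ≤ 2 * L := by
    intro t ht1 htK
    have h1 : b * t ≤ X * X := Nat.mul_le_mul (by omega) (htK.trans hKX)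
    have h2 : (0 : ℝ) < ((b * t : ℕ) : ℝ) := by exact_mod_cast Nat.mul_pos hb1 ht1
    have h3 : ((b * t : ℕ) : ℝ) ≤ (X : ℝ) * X := by exact_mod_cast h1
    have h4 := Real.log_le_log h2 h3
    rw [Real.log_mul (by linarith) (by linarith)] at h4
    linarith
  have hcard : ((Icc (-(X : ℤ)) X).card : ℝ) = 2 * X + 1 := by
    rw [Int.card_Icc]
    have : ((X : ℤ) + 1 - -(X : ℤ)).toNat = 2 * X + 1 := by omega
    rw [this]
    push_cast
    ring
  have hcore := core (Icc (-(X : ℤ)) X)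
    (fun (c : ℤ) n => if (a : ℤ) ∣ c + b * n then lamI (n : ℤ) * lamI ((c + b * n) / a) else 0)
    (fun (c : ℤ) n => if (a : ℤ) ∣ c + b * n then lamzI z (n : ℤ) * lamzI z ((c + b * n) / a)
      else 0) 2 (A + 1)
    (10240 * C₀) L X K 1 hL72 hLC (by linarith) ?_ ?_ ?_ ?_ ?_ hKL ?_ (fun x c _ _ => y x c)
    (fun x c _ _ => hy x c)
  · rw [TS1, hcard] at hcore
    refine le_trans (le_of_eq ?_) (hcore.trans ?_)
    · refine sum_congr rfl fun x _ => sum_congr rfl fun c _ => ?_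
      congr 1
      rw [sum_filter]
      refine sum_congr rfl fun n _ => ?_
      split_ifs
      · rfl
      · rw [sub_zero]
    · rw [pow_succ]
      have hL0 : 0 < L := by linarith
      rw [div_le_div_iff₀ (by positivity) (by positivity)]
      have h1 : (2 * (X : ℝ) + 1) ≤ X * L := by nlinarith
      have h2 : (X : ℝ) * (2 * X + 1) ≤ X * (X * L) :=
        mul_le_mul_of_nonneg_left h1 (by linarith)
      have h3 : (0 : ℝ) ≤ (K : ℝ) ^ 2 * L ^ A := by positivity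
      calc (X : ℝ) * (2 * X + 1) * (K : ℝ) ^ 2 * L ^ A = (X * (2 * X + 1)) * ((K : ℝ) ^ 2 * L ^ A) := by
            ring
        _ ≤ (X * (X * L)) * ((K : ℝ) ^ 2 * L ^ A) := mul_le_mul_of_nonneg_right h2 h3
        _ = _ := by ring
  · intro c n
    split_ifs
    · exact mul_nonneg (Pool.Agent.H373R2.T7.lamI_nonneg _) (Pool.Agent.H373R2.T7.lamI_nonneg _)
    · exact le_rfl
  · intro c n
    split_ifs
    · exact mul_nonneg (Pool.Agent.H373R2.T7.lamzI_nonneg _ _)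
        (Pool.Agent.H373R2.T7.lamzI_nonneg _ _)
    · exact le_rfl
  · intro c n
    split_ifs
    · rw [sq]
      exact mul_le_mul (hbz1 _) (hbz1 _) (Pool.Agent.H373R2.T7.lamzI_nonneg _ _) (by linarith)
    · positivity
  · rw [Nat.cast_one, one_mul]
    have h1 := hpow (2 * 2 + (A + 1 + 2 + 1 + (A + 1) + 1)) (by omega)
    linarith
  · have h1 := hpow (A + 1 + 2 + 1) (by omega)
    linarith
  · intro t ht1 htK hKt
    rw [TS1, hcard]
    have hsupp : ∀ (c : ℕ) (α : ℝ), 1 ≤ c → (c : ℝ) ≤ L ^ C →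
        ∑ x ∈ Icc (-(((4 * b * X : ℕ) : ℤ) + (b * t : ℕ))) ((4 * b * X : ℕ) : ℤ),
        ‖sw (Eg c (4 * b * X) z) (b * t) x α‖ ^ 2 ≤
        ((8 * b * X : ℕ) : ℝ) * ((b * t : ℕ) : ℝ) ^ 2 /
          L ^ (2 * (4 * C + 5 + (A + 1 + 2 + 1 + (A + 1) + 1))) := by
      intro c α hc1 hcC
      refine le_trans ?_ (hdil t htK hKt b hb1 hbC c hc1 hcC ((4 * b * X : ℕ) : ℤ) α)
      refine sum_le_sum_of_subset_of_nonneg ?_ (fun _ _ _ => by positivity)
      have h1 : b * t ≤ b * X := Nat.mul_le_mul_left _ (htK.trans hKX)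
      refine Icc_subset_Icc ?_ ?_
      · have h2 : 4 * b * X + b * t ≤ 8 * b * X := by nlinarith
        have h3 : (((4 * b * X : ℕ) : ℤ) + (b * t : ℕ)) ≤ ((8 * b * X : ℕ) : ℤ) := by
          exact_mod_cast h2
        linarith
      · have h2 : 4 * b * X ≤ 8 * b * X := by nlinarith
        exact_mod_cast h2
    have hKb : L ^ (3 * C + 4 + (A + 1 + 2 + 1 + (A + 1) + 1)) ≤ K := by linarith
    have hA := partA C₀ hC' (by linarith) (A + 1 + 2 + 1 + (A + 1) + 1) C L hL1 X t K z a b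
      (by omega) ht1 htK hKX hb1 hbC (hbt t ht1 htK) hb hKb ha1 (fun α => hsupp a α ha1 haC)
    have hB := partB C₀ hC' (by linarith) (A + 1 + 2 + 1 + (A + 1) + 1) C L hL1 X t K z a b
      (by omega) ht1 htK hKX hb1 hbC (hbt t ht1 htK) hb hbz hKb (fun α => hsupp b α hb1 hbC)
    have h1 : ∑ x ∈ Icc 1 X, ∑ c ∈ Icc (-(X : ℤ)) X, (∑ n ∈ Ioc x (x + t),
        ((if (a : ℤ) ∣ c + b * n then lamI (n : ℤ) * lamI ((c + b * n) / a) else 0) -
        (if (a : ℤ) ∣ c + b * n then lamzI z (n : ℤ) * lamzI z ((c + b * n) / a) else 0))) ^ 2 ≤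
        2 * (∑ x ∈ Icc 1 X, ∑ c ∈ Icc (-(X : ℤ)) X, (∑ n ∈ Ioc x (x + t),
      if (a : ℤ) ∣ c + b * n then lamI (n : ℤ) * Ed z ((c + b * n) / a) else 0) ^ 2) +
        2 * (∑ x ∈ Icc 1 X, ∑ c ∈ Icc (-(X : ℤ)) X, (∑ n ∈ Ioc x (x + t),
      if (a : ℤ) ∣ c + b * n then Ed z (n : ℤ) * lamzI z ((c + b * n) / a) else 0) ^ 2) := by
      rw [mul_sum, mul_sum, ← sum_add_distrib]
      refine sum_le_sum fun x _ => ?_
      rw [mul_sum, mul_sum, ← sum_add_distrib]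
      refine sum_le_sum fun c _ => ?_
      have e : ∑ n ∈ Ioc x (x + t),
        ((if (a : ℤ) ∣ c + b * n then lamI (n : ℤ) * lamI ((c + b * n) / a) else 0) -
        (if (a : ℤ) ∣ c + b * n then lamzI z (n : ℤ) * lamzI z ((c + b * n) / a) else 0)) =
        (∑ n ∈ Ioc x (x + t),
          if (a : ℤ) ∣ c + b * n then lamI (n : ℤ) * Ed z ((c + b * n) / a) else 0) +
        (∑ n ∈ Ioc x (x + t),
          if (a : ℤ) ∣ c + b * n then Ed z (n : ℤ) * lamzI z ((c + b * n) / a) else 0) := by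
        rw [← sum_add_distrib]
        refine sum_congr rfl fun n _ => ?_
        split_ifs
        · unfold Ed
          ring
        · ring
      rw [e]
      nlinarith [sq_nonneg ((∑ n ∈ Ioc x (x + t),
          if (a : ℤ) ∣ c + b * n then lamI (n : ℤ) * Ed z ((c + b * n) / a) else 0) -
        (∑ n ∈ Ioc x (x + t),
          if (a : ℤ) ∣ c + b * n then Ed z (n : ℤ) * lamzI z ((c + b * n) / a) else 0))]
    refine h1.trans ?_
    have h2 : (X : ℝ) ^ 2 * (K : ℝ) ^ 2 / L ^ (A + 1 + 2 + 1 + (A + 1) + 1) ≤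
        (X : ℝ) * (2 * X + 1) * (K : ℝ) ^ 2 / L ^ (A + 1 + 2 + 1 + (A + 1) + 1) := by
      have hL0 : 0 < L := by linarith
      refine div_le_div_of_nonneg_right ?_ (by positivity)
      refine mul_le_mul_of_nonneg_right ?_ (by positivity)
      nlinarith
    have h3 := mul_le_mul_of_nonneg_left h2 (show (0 : ℝ) ≤ 10240 * C₀ by linarith)
    linarith

end Pool.Agent.helper24_UT.Sab
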