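import Pool.Agent.helper24_UT.Ch10
import Pool.Agent.helper24_UT.Psip4
import Pool.Agent.helper24_UT.Inp4
import Pool.Agent.helper24_UT.R11
import Pool.Agent.helper24_UT.Dil
import Pool.Agent.helper24_UT.Sab
import Pool.Agent.helper24_UT.R18

/-!
# Project UT (helper24): assembly, part 11
-/

set_option autoImplicit false

namespace Pool.Agent.helper24_UT.Ch

theorem t_PSIP4 : S_PSIP4 := Psip4.main t_ALL4 Mtp.main Pp4.main
theorem t_R11 : S_R11 := R11.main t_PSIP4 Inp4.main Tlp.main Low.main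

theorem t_DIL : S_DIL (1 / 3) := Dil.main (1 / 3) (by norm_num) t_MKT
theorem t_SAB : S_SAB (1 / 3) := Sab.main (1 / 3) (by norm_num) t_DIL t_SUP
theorem t_R18 : S_R18 (1 / 3) := R18.main (1 / 3) (by norm_num) t_SAB Mtf.main Ser3.main

end Pool.Agent.helper24_UT.Ch
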