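import Pool.Agent.helper24_UT.Stm18
import Pool.Agent.H316R2.LS
import Pool.Agent.H373R2.T7.LamZ2
import Pool.Agent.H373R2.T7.Tuple

set_option autoImplicit false

namespace Pool.Agent.helper24_UT.Dyb

open Finset
open Pool.Agent.helper24_UT
open Pool.Agent.H373R2.T7 (lamI lamzI lamz Vz pz)

lemma decomp (f : ℤ → ℝ) (hf : ∀ m : ℤ, m ≤ 0 → f m = 0) (q a y T : ℕ) (hq : 1 ≤ q)
    (hy : y ≤ q * T) (haT : a ≤ q * T) :
    ∑ n ∈ (Icc 1 y).filter (fun n => n ≡ a [MOD q]), f (n : ℤ) =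
      ∑ t ∈ Icc 1 T, (if t ≤ (y - a) / q then (1:ℝ) else 0) * f ((q : ℤ) * t + a) +
      (if a ≤ y then f a else 0) +
      (∑ t ∈ Icc 1 T, f ((a : ℤ) - q * t) -
        ∑ t ∈ Icc 1 T, (if t ≤ (a - y - 1) / q then (1:ℝ) else 0) * f ((a : ℤ) - q * t)) := by
  classical
  set S := (Icc 1 y).filter (fun n => n ≡ a [MOD q]) with hS
  have hA : ∑ n ∈ S.filter (fun n => a < n), f (n : ℤ) =
      ∑ t ∈ Icc 1 T, (if t ≤ (y - a) / q then (1:ℝ) else 0) * f ((q : ℤ) * t + a) := by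
    simp_rw [ite_mul, one_mul, zero_mul]
    rw [← sum_filter]
    symm
    apply sum_nbij (fun t => a + q * t)
    · intro t ht
      rw [mem_filter, mem_Icc] at ht
      have h1 : t * q ≤ y - a := (Nat.le_div_iff_mul_le hq).1 ht.2
      have h2 : 1 ≤ t * q := Nat.mul_pos ht.1.1 hq
      have h3 : q * t = t * q := mul_comm _ _
      rw [mem_filter, hS, mem_filter, mem_Icc]
      refine ⟨⟨⟨by omega, by omega⟩, ?_⟩, by omega⟩
      exact Nat.add_mul_mod_self_left a q t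
    · intro t _ t' _ h
      simp only at h
      exact Nat.eq_of_mul_eq_mul_left hq (by omega)
    · intro n hn
      rw [mem_coe, mem_filter, hS, mem_filter, mem_Icc] at hn
      obtain ⟨⟨⟨h1, h2⟩, h3⟩, h4⟩ := hn
      obtain ⟨t, ht⟩ := (Nat.modEq_iff_dvd' h4.le).1 h3.symm
      have h3' : q * t = t * q := mul_comm _ _
      have ht1 : 1 ≤ t := by
        rcases Nat.eq_zero_or_pos t with h | h
        · subst h; omega
        · exact h
      refine ⟨t, ?_, by simp only; omega⟩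
      rw [mem_coe, mem_filter, mem_Icc]
      refine ⟨⟨ht1, ?_⟩, ?_⟩
      · exact Nat.le_of_mul_le_mul_left (by omega : q * t ≤ q * T) hq
      · rw [Nat.le_div_iff_mul_le hq]; omega
    · intro t _
      congr 1
      push_cast
      ring
  have hB : ∑ n ∈ (S.filter (fun n => ¬ a < n)).filter (fun n => n = a), f (n : ℤ) =
      (if a ≤ y then f a else 0) := by
    by_cases hay : a ≤ y ∧ 1 ≤ a
    · have : (S.filter (fun n => ¬ a < n)).filter (fun n => n = a) = {a} := by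
        ext n
        rw [mem_filter, mem_filter, hS, mem_filter, mem_Icc, mem_singleton]
        constructor
        · intro h; exact h.2
        · intro h; subst h
          exact ⟨⟨⟨⟨hay.2, hay.1⟩, Nat.ModEq.refl _⟩, lt_irrefl _⟩, rfl⟩
      rw [this, sum_singleton, if_pos hay.1]
    · have : (S.filter (fun n => ¬ a < n)).filter (fun n => n = a) = ∅ := by
        rw [eq_empty_iff_forall_notMem]
        intro n hn
        rw [mem_filter, mem_filter, hS, mem_filter, mem_Icc] at hn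
        omega
      rw [this, sum_empty]
      split_ifs with h
      · have : a = 0 := by omega
        subst this
        rw [hf _ (by simp)]
      · rfl
  have hC : ∑ n ∈ (S.filter (fun n => ¬ a < n)).filter (fun n => ¬ n = a), f (n : ℤ) =
      (∑ t ∈ Icc 1 T, f ((a : ℤ) - q * t) -
        ∑ t ∈ Icc 1 T, (if t ≤ (a - y - 1) / q then (1:ℝ) else 0) * f ((a : ℤ) - q * t)) := by
    rw [← sum_sub_distrib]
    have e1 : ∀ t ∈ Icc 1 T, f ((a : ℤ) - q * t) - (if t ≤ (a - y - 1) / q then (1:ℝ) else 0) * f ((a : ℤ) - q * t) =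
        if (q * t < a ∧ a ≤ y + q * t) then f ((a : ℤ) - q * t) else 0 := by
      intro t ht
      rw [mem_Icc] at ht
      have h2 : 1 ≤ q * t := Nat.mul_pos hq ht.1
      by_cases h1 : q * t < a
      · have h3 : t ≤ (a - y - 1) / q ↔ q * t ≤ a - y - 1 := by
          rw [Nat.le_div_iff_mul_le hq, mul_comm]
        by_cases h4 : a ≤ y + q * t
        · rw [if_neg (by rw [h3]; omega), if_pos ⟨h1, h4⟩]
          ring
        · rw [if_pos (by rw [h3]; omega), if_neg (by omega)]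
          ring
      · rw [hf ((a : ℤ) - q * t) (by
          have : (a : ℤ) ≤ q * t := by exact_mod_cast not_lt.1 h1
          omega)]
        simp
    rw [sum_congr rfl e1, ← sum_filter]
    symm
    apply sum_nbij (fun t => a - q * t)
    · intro t ht
      rw [mem_filter, mem_Icc] at ht
      have h2 : 1 ≤ q * t := Nat.mul_pos hq ht.1.1
      rw [mem_filter, mem_filter, hS, mem_filter, mem_Icc]
      refine ⟨⟨⟨⟨by omega, by omega⟩, ?_⟩, by omega⟩, by omega⟩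
      apply (Nat.modEq_iff_dvd' (by omega)).2
      refine ⟨t, by omega⟩
    · intro t ht t' ht' h
      rw [mem_coe, mem_filter] at ht ht'
      simp only at h
      exact Nat.eq_of_mul_eq_mul_left hq (by omega)
    · intro n hn
      rw [mem_coe, mem_filter, mem_filter, hS, mem_filter, mem_Icc] at hn
      obtain ⟨⟨⟨⟨h1, h2⟩, h3⟩, h4⟩, h5⟩ := hn
      obtain ⟨t, ht⟩ := (Nat.modEq_iff_dvd' (by omega : n ≤ a)).1 h3
      have ht1 : 1 ≤ t := by
        rcases Nat.eq_zero_or_pos t with h | h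
        · subst h; omega
        · exact h
      refine ⟨t, ?_, by simp only; omega⟩
      rw [mem_coe, mem_filter, mem_Icc]
      refine ⟨⟨ht1, ?_⟩, by omega, by omega⟩
      exact Nat.le_of_mul_le_mul_left (by omega : q * t ≤ q * T) hq
    · intro t ht
      rw [mem_filter] at ht
      congr 1
      rw [Nat.cast_sub (by omega)]
      push_cast
      ring
  rw [← sum_filter_add_sum_filter_not S (fun n => a < n), hA,
    ← sum_filter_add_sum_filter_not (S.filter (fun n => ¬ a < n)) (fun n => n = a), hB, hC]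
  ring

lemma grid (F : ℕ → ℝ) (T D J : ℕ) (P : ℝ) (hD : 1 ≤ D) (hJ : T < J * D) (hP0 : 0 ≤ P)
    (hP : ∀ t ∈ Icc 1 T, |F t| ≤ P) (s : ℕ) :
    (∑ t ∈ Icc 1 T, (if t ≤ s then (1:ℝ) else 0) * F t) ^ 2 ≤
      2 * ∑ j ∈ range J, (∑ t ∈ Icc 1 T, (if t ≤ j * D then (1:ℝ) else 0) * F t) ^ 2 + 2 * (D * P) ^ 2 := by
  set s' := min s T with hs'
  have e1 : ∑ t ∈ Icc 1 T, (if t ≤ s then (1:ℝ) else 0) * F t =
      ∑ t ∈ Icc 1 T, (if t ≤ s' then (1:ℝ) else 0) * F t := by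
    apply sum_congr rfl
    intro t ht
    rw [mem_Icc] at ht
    congr 1
    by_cases h : t ≤ s
    · rw [if_pos h, if_pos (by omega)]
    · rw [if_neg h, if_neg (by omega)]
  set j := s' / D with hj
  have hjs : j * D ≤ s' := Nat.div_mul_le_self _ _
  have hjs2 : s' < (j + 1) * D := by
    have := Nat.lt_mul_div_succ s' (show 0 < D from hD)
    rw [mul_comm]
    exact this
  have hjJ : j < J := by
    have : j * D < J * D := by omega
    exact Nat.lt_of_mul_lt_mul_right this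
  have e2 : ∑ t ∈ Icc 1 T, (if t ≤ s' then (1:ℝ) else 0) * F t =
      ∑ t ∈ Icc 1 T, (if t ≤ j * D then (1:ℝ) else 0) * F t +
      ∑ t ∈ Ioc (j * D) s', F t := by
    have e3 : ∑ t ∈ Ioc (j * D) s', F t = ∑ t ∈ Icc 1 T, (if j * D < t ∧ t ≤ s' then (1:ℝ) else 0) * F t := by
      simp_rw [ite_mul, one_mul, zero_mul]
      rw [← sum_filter]
      apply sum_congr _ (fun _ _ => rfl)
      ext t
      rw [mem_Ioc, mem_filter, mem_Icc]
      omega
    rw [e3, ← sum_add_distrib]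
    apply sum_congr rfl
    intro t ht
    rw [← add_mul]
    congr 1
    by_cases h : t ≤ s'
    · by_cases h2 : t ≤ j * D
      · rw [if_pos h, if_pos h2, if_neg (by omega)]; ring
      · rw [if_pos h, if_neg h2, if_pos (by omega)]; ring
    · rw [if_neg h, if_neg (by omega), if_neg (by omega)]; ring
  have e4 : |∑ t ∈ Ioc (j * D) s', F t| ≤ D * P := by
    calc |∑ t ∈ Ioc (j * D) s', F t| ≤ ∑ t ∈ Ioc (j * D) s', |F t| := abs_sum_le_sum_abs _ _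
      _ ≤ ∑ t ∈ Ioc (j * D) s', P := by
          apply sum_le_sum
          intro t ht
          rw [mem_Ioc] at ht
          exact hP t (mem_Icc.2 ⟨by omega, by omega⟩)
      _ = ((s' - j * D : ℕ) : ℝ) * P := by
          rw [sum_const, Nat.card_Ioc, nsmul_eq_mul]
      _ ≤ D * P := by
          apply mul_le_mul_of_nonneg_right _ hP0
          have : s' - j * D ≤ D := by
            rw [add_mul, one_mul] at hjs2
            omega
          exact_mod_cast this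
  have e5 : (∑ t ∈ Icc 1 T, (if t ≤ j * D then (1:ℝ) else 0) * F t) ^ 2 ≤
      ∑ j ∈ range J, (∑ t ∈ Icc 1 T, (if t ≤ j * D then (1:ℝ) else 0) * F t) ^ 2 :=
    single_le_sum (f := fun j => (∑ t ∈ Icc 1 T, (if t ≤ j * D then (1:ℝ) else 0) * F t) ^ 2)
      (fun _ _ => sq_nonneg _) (mem_range.2 hjJ)
  have e6 : (∑ t ∈ Ioc (j * D) s', F t) ^ 2 ≤ (D * P) ^ 2 := by
    rw [← sq_abs]
    exact pow_le_pow_left₀ (abs_nonneg _) e4 2
  rw [e1, e2]
  nlinarith [sq_nonneg (∑ t ∈ Icc 1 T, (if t ≤ j * D then (1:ℝ) else 0) * F t - ∑ t ∈ Ioc (j * D) s', F t)]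

/-- the segments, in mean -/
lemma seg (Fn : ℕ → ℕ → ℕ → ℝ) (Q R T D J : ℕ) (P S K : ℝ) (hD : 1 ≤ D) (hJ : T < J * D) (hP0 : 0 ≤ P) (hK : 0 ≤ K)
    (hP : ∀ b ∈ Icc 1 Q, ∀ c ∈ Icc 1 R, ∀ t ∈ Icc 1 T, |Fn b c t| ≤ P)
    (hU : ∀ w : ℕ → ℝ, (∀ n, |w n| ≤ 1) →
      ∑ b ∈ Icc 1 Q, ∑ c ∈ Icc 1 R, (∑ n ∈ Icc 1 T, w n * Fn b c n) ^ 2 ≤ S)
    (hfin : (Q * R : ℝ) * (2 * (J * S) + 2 * (Q * R) * (D * P) ^ 2) ≤ K ^ 2)
    (s : ℕ → ℕ → ℕ) :
    ∑ b ∈ Icc 1 Q, ∑ c ∈ Icc 1 R, |∑ n ∈ Icc 1 T, (if n ≤ s b c then (1:ℝ) else 0) * Fn b c n| ≤ K := by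
  have h1 : ∑ b ∈ Icc 1 Q, ∑ c ∈ Icc 1 R, (∑ n ∈ Icc 1 T, (if n ≤ s b c then (1:ℝ) else 0) * Fn b c n) ^ 2 ≤
      2 * (J * S) + 2 * (Q * R) * (D * P) ^ 2 := by
    calc ∑ b ∈ Icc 1 Q, ∑ c ∈ Icc 1 R, (∑ n ∈ Icc 1 T, (if n ≤ s b c then (1:ℝ) else 0) * Fn b c n) ^ 2 ≤
        ∑ b ∈ Icc 1 Q, ∑ c ∈ Icc 1 R, (2 * ∑ j ∈ range J, (∑ t ∈ Icc 1 T, (if t ≤ j * D then (1:ℝ) else 0) * Fn b c t) ^ 2 +
          2 * (D * P) ^ 2) :=
          sum_le_sum fun b hb => sum_le_sum fun c hc => grid (Fn b c) T D J P hD hJ hP0 (hP b hb c hc) (s b c)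
      _ = 2 * ∑ j ∈ range J, ∑ b ∈ Icc 1 Q, ∑ c ∈ Icc 1 R, (∑ t ∈ Icc 1 T, (if t ≤ j * D then (1:ℝ) else 0) * Fn b c t) ^ 2 +
          2 * (Q * R) * (D * P) ^ 2 := by
          simp_rw [sum_add_distrib, sum_const, Nat.card_Icc, nsmul_eq_mul, ← mul_sum]
          have : ∑ b ∈ Icc 1 Q, ∑ c ∈ Icc 1 R, ∑ j ∈ range J, (∑ t ∈ Icc 1 T, (if t ≤ j * D then (1:ℝ) else 0) * Fn b c t) ^ 2 =
              ∑ j ∈ range J, ∑ b ∈ Icc 1 Q, ∑ c ∈ Icc 1 R, (∑ t ∈ Icc 1 T, (if t ≤ j * D then (1:ℝ) else 0) * Fn b c t) ^ 2 := by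
            simp_rw [sum_comm (s := Icc 1 R) (t := range J)]
            exact sum_comm
          rw [this]
          simp only [Nat.add_sub_cancel]
          ring
      _ ≤ 2 * ∑ _j ∈ range J, S + 2 * (Q * R) * (D * P) ^ 2 := by
          gcongr with j hj
          apply hU (fun t => if t ≤ j * D then (1:ℝ) else 0)
          intro n
          split_ifs <;> simp
      _ = _ := by rw [sum_const, card_range, nsmul_eq_mul]
  have h2 : (∑ b ∈ Icc 1 Q, ∑ c ∈ Icc 1 R, |∑ n ∈ Icc 1 T, (if n ≤ s b c then (1:ℝ) else 0) * Fn b c n|) ^ 2 ≤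
      (Q * R : ℝ) * ∑ b ∈ Icc 1 Q, ∑ c ∈ Icc 1 R, (∑ n ∈ Icc 1 T, (if n ≤ s b c then (1:ℝ) else 0) * Fn b c n) ^ 2 := by
    rw [← sum_product', ← sum_product']
    have := sq_sum_le_card_mul_sum_sq (s := Icc 1 Q ×ˢ Icc 1 R)
      (f := fun x : ℕ × ℕ => |∑ n ∈ Icc 1 T, (if n ≤ s x.1 x.2 then (1:ℝ) else 0) * Fn x.1 x.2 n|)
    rw [card_product, Nat.card_Icc, Nat.card_Icc, Nat.add_sub_cancel, Nat.add_sub_cancel] at this
    push_cast at this
    simpa only [sq_abs] using this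
  have h3 : (∑ b ∈ Icc 1 Q, ∑ c ∈ Icc 1 R, |∑ n ∈ Icc 1 T, (if n ≤ s b c then (1:ℝ) else 0) * Fn b c n|) ^ 2 ≤ K ^ 2 :=
    h2.trans ((mul_le_mul_of_nonneg_left h1 (by positivity)).trans hfin)
  exact le_of_sq_le_sq h3 hK

lemma nuf_one (p : ℕ) (hp : 1 ≤ p) : nuf (fun _ : Fin 1 => (1:ℤ)) (fun _ => 0) p = 1 := by
  classical
  unfold nuf
  rw [card_eq_one]
  refine ⟨0, ?_⟩
  ext t
  rw [mem_filter, mem_range, mem_singleton]
  constructor
  · rintro ⟨h1, _, h2⟩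
    rw [one_mul, add_zero, Int.natCast_dvd_natCast] at h2
    exact Nat.eq_zero_of_dvd_of_lt h2 h1
  · intro h
    subst h
    exact ⟨hp, 0, by simp⟩

lemma sers_one : sers (fun _ : Fin 1 => (1:ℤ)) (fun _ => 0) = 1 := by
  unfold sers
  have : ∀ p : Nat.Primes, (1 - (nuf (fun _ : Fin 1 => (1:ℤ)) (fun _ => 0) p : ℝ) / ((p : ℕ) : ℝ)) / (1 - 1 / ((p : ℕ) : ℝ)) ^ 1 = 1 := by
    intro p
    rw [nuf_one _ p.2.one_le, pow_one, Nat.cast_one]
    apply div_self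
    have h2 : (2:ℝ) ≤ ((p : ℕ) : ℝ) := by exact_mod_cast p.2.two_le
    have : 1 / ((p : ℕ) : ℝ) < 1 := by
      rw [div_lt_one (by linarith)]; linarith
    linarith
  simp_rw [this]
  exact tprod_one

lemma phf_one (q : ℕ) : phf (fun _ : Fin 1 => (1:ℤ)) (fun _ => 0) q = q.totient := by
  classical
  unfold phf
  rw [Nat.totient_eq_card_coprime]
  congr 1
  ext t
  rw [mem_filter, mem_filter]
  apply and_congr_right
  intro _
  constructor
  · intro h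
    have h1 := h 0
    rw [one_mul, add_zero, Int.gcd_natCast_natCast] at h1
    exact Nat.Coprime.symm h1
  · intro h _
    rw [one_mul, add_zero, Int.gcd_natCast_natCast]
    exact Nat.Coprime.symm h

lemma lz_eq (z n : ℕ) (hn : 1 ≤ n) : lz z (n : ℤ) = lamzI z (n : ℤ) := by
  classical
  have h1 : (1:ℤ) ≤ (n : ℤ) := by exact_mod_cast hn
  have h2 : (∀ p ∈ pz z, ¬ (p : ℤ) ∣ (n : ℤ)) ↔ (∀ p ∈ pz z, ¬ p ∣ n) := by
    simp only [Int.natCast_dvd_natCast]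
  unfold lamzI
  rw [if_pos h1, Int.toNat_natCast]
  unfold lz lamz
  by_cases h : ∀ p ∈ pz z, ¬ p ∣ n
  · rw [if_pos (h2.2 h), if_pos h]
  · rw [if_neg (fun h3 => h (h2.1 h3)), if_neg h]

lemma Ed_nonpos (z : ℕ) (m : ℤ) (hm : m ≤ 0) : Ed z m = 0 := by
  unfold Ed lamI lamzI
  rw [if_neg (by omega), if_neg (by omega), sub_zero]

lemma Ed_abs (z : ℕ) (m : ℤ) (X L : ℝ) (hX : 1 ≤ X) (hm : (m : ℝ) ≤ X) (hL : Real.log X ≤ 2 * L)
    (hV : (Vz z)⁻¹ ≤ L) (hL0 : 0 ≤ L) : |Ed z m| ≤ 2 * L := by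
  unfold Ed
  have h1 := Pool.Agent.H373R2.T7.lamI_nonneg m
  have h2 := Pool.Agent.H373R2.T7.lamzI_nonneg z m
  have h3 := Pool.Agent.H373R2.T7.lamI_le m X hX hm
  have h4 := Pool.Agent.H373R2.T7.lamzI_le z m
  rw [abs_le]
  constructor <;> linarith

/-- the model in progressions -/
lemma model (N z q a y : ℕ) (L Er W : ℝ) (hq : 1 ≤ q) (hyN : y ≤ N)
    (hM : |∑ n ∈ (Icc 1 y).filter (fun n => n % q = a % q), ∏ i : Fin 1, lz z ((fun _ : Fin 1 => (1:ℤ)) i * n + (fun _ : Fin 1 => (0:ℤ)) i) -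
      (y : ℝ) / q * gz z (fun _ : Fin 1 => (1:ℤ)) (fun _ => 0) q a| ≤ Er + W)
    (hS : |gz z (fun _ : Fin 1 => (1:ℤ)) (fun _ => 0) q a - sers (fun _ : Fin 1 => (1:ℤ)) (fun _ => 0) *
      ((q : ℝ) / phf (fun _ : Fin 1 => (1:ℤ)) (fun _ => 0) q)| ≤ sers (fun _ : Fin 1 => (1:ℤ)) (fun _ => 0) *
      ((q : ℝ) / phf (fun _ : Fin 1 => (1:ℤ)) (fun _ => 0) q) * (L ^ 2 / z)) :
    |∑ n ∈ (Icc 1 y).filter (fun n => n ≡ a [MOD q]), lamzI z (n : ℤ) - (y : ℝ) / Nat.totient q| ≤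
      Er + W + N * (L ^ 2 / z) * (1 / (Nat.totient q : ℝ)) := by
  rw [sers_one, phf_one] at hS
  have hq0 : (0:ℝ) < q := by exact_mod_cast hq
  have ht0 : (0:ℝ) < Nat.totient q := by exact_mod_cast Nat.totient_pos.2 hq
  have e1 : ∑ n ∈ (Icc 1 y).filter (fun n => n % q = a % q), ∏ i : Fin 1, lz z ((fun _ : Fin 1 => (1:ℤ)) i * n + (fun _ : Fin 1 => (0:ℤ)) i) =
      ∑ n ∈ (Icc 1 y).filter (fun n => n ≡ a [MOD q]), lamzI z (n : ℤ) := by
    apply sum_congr rfl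
    intro n hn
    rw [mem_filter, mem_Icc] at hn
    rw [Fin.prod_univ_one]
    simp only [one_mul, add_zero]
    exact lz_eq z n hn.1.1
  rw [e1] at hM
  have e2 : |(y : ℝ) / q * gz z (fun _ : Fin 1 => (1:ℤ)) (fun _ => 0) q a - (y : ℝ) / Nat.totient q| ≤
      N * (L ^ 2 / z) * (1 / (Nat.totient q : ℝ)) := by
    have e3 : (y : ℝ) / q * gz z (fun _ : Fin 1 => (1:ℤ)) (fun _ => 0) q a - (y : ℝ) / Nat.totient q =
        (y : ℝ) / q * (gz z (fun _ : Fin 1 => (1:ℤ)) (fun _ => 0) q a - 1 * ((q : ℝ) / Nat.totient q)) := by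
      field_simp
    rw [e3, abs_mul, abs_of_nonneg (by positivity)]
    refine (mul_le_mul_of_nonneg_left hS (by positivity)).trans ?_
    have e4 : (y : ℝ) / q * (1 * ((q : ℝ) / Nat.totient q) * (L ^ 2 / z)) = y * (L ^ 2 / z) * (1 / (Nat.totient q : ℝ)) := by
      field_simp
    rw [e4]
    have : (y : ℝ) ≤ N := by exact_mod_cast hyN
    gcongr
  have e5 : ∑ n ∈ (Icc 1 y).filter (fun n => n ≡ a [MOD q]), lamzI z (n : ℤ) - (y : ℝ) / Nat.totient q =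
      (∑ n ∈ (Icc 1 y).filter (fun n => n ≡ a [MOD q]), lamzI z (n : ℤ) - (y : ℝ) / q * gz z (fun _ : Fin 1 => (1:ℤ)) (fun _ => 0) q a) +
      ((y : ℝ) / q * gz z (fun _ : Fin 1 => (1:ℤ)) (fun _ => 0) q a - (y : ℝ) / Nat.totient q) := by ring
  rw [e5]
  exact (abs_add_le _ _).trans (add_le_add hM e2)

lemma refl_sum (R : ℕ) (F : ℕ → ℝ) : ∑ c ∈ Icc 1 R, F c = ∑ c ∈ Icc 1 R, F (R + 1 - c) := by
  apply sum_nbij' (fun c => R + 1 - c) (fun c => R + 1 - c)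
  · intro c hc; rw [mem_Icc] at hc ⊢; omega
  · intro c hc; rw [mem_Icc] at hc ⊢; omega
  · intro c hc; rw [mem_Icc] at hc; omega
  · intro c hc; rw [mem_Icc] at hc; omega
  · intro c hc
    rw [mem_Icc] at hc
    congr 1
    omega

lemma conv (G : ℕ → ℕ → ℝ) (hG : ∀ q a, 0 ≤ G q a) (M R Q : ℕ) :
    ∑ a ∈ Ioc M (M + R), ∑ q ∈ Ioc Q (2 * Q), G q a ≤ ∑ b ∈ Icc 1 (2 * Q), ∑ c ∈ Icc 1 R, G b (M + c) := by
  rw [sum_comm]
  have h1 : ∀ q, ∑ a ∈ Ioc M (M + R), G q a = ∑ c ∈ Icc 1 R, G q (M + c) := by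
    intro q
    symm
    apply sum_nbij' (fun c => M + c) (fun a => a - M)
    · intro c hc; rw [mem_Icc] at hc; rw [mem_Ioc]; omega
    · intro c hc; rw [mem_Ioc] at hc; rw [mem_Icc]; omega
    · intro c hc; simp
    · intro c hc; rw [mem_Ioc] at hc; omega
    · intro c hc; rfl
  simp_rw [h1]
  apply sum_le_sum_of_subset_of_nonneg
  · intro q hq
    rw [mem_Ioc] at hq
    rw [mem_Icc]
    omega
  · intro q _ _
    exact sum_nonneg fun _ _ => hG _ _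

lemma inv_tot_le (n : ℕ) (hn : 1 ≤ n) : 1 / (Nat.totient n : ℝ) ≤ (n.divisors.card : ℝ) / n := by
  have h1 : n ≤ n.divisors.card * Nat.totient n := by
    calc n = ∑ d ∈ n.divisors, Nat.totient d := (Nat.sum_totient n).symm
      _ ≤ ∑ _d ∈ n.divisors, Nat.totient n := by
          apply sum_le_sum
          intro d hd
          exact Nat.le_of_dvd (Nat.totient_pos.mpr hn)
            (Nat.totient_dvd_of_dvd (Nat.dvd_of_mem_divisors hd))
      _ = _ := by rw [sum_const, smul_eq_mul]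
  have h2 : (0:ℝ) < Nat.totient n := by exact_mod_cast Nat.totient_pos.mpr hn
  have h3 : (0:ℝ) < n := by exact_mod_cast hn
  rw [div_le_div_iff₀ h2 h3, one_mul]
  exact_mod_cast h1

lemma sum_inv_tot (Q : ℕ) : ∑ e ∈ Ioc Q (2 * Q), 1 / (Nat.totient e : ℝ) ≤ (1 + Real.log (2 * Q : ℕ)) ^ 2 := by
  have h1 : ∑ e ∈ Ioc Q (2 * Q), 1 / (Nat.totient e : ℝ) ≤ ∑ e ∈ Icc 1 (2 * Q), 1 / (Nat.totient e : ℝ) := by
    apply sum_le_sum_of_subset_of_nonneg
    · intro q hq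
      rw [mem_Ioc] at hq
      rw [mem_Icc]
      omega
    · intro q _ _
      positivity
  refine h1.trans (le_trans (sum_le_sum fun e he => ?_) (Pool.Agent.H316R2.tau_sum_le (2 * Q)))
  rw [mem_Icc] at he
  exact inv_tot_le e he.1


lemma exp_small (L : ℝ) (B₁ k : ℕ) (hL : 1 ≤ L) (hl : 1 ≤ Real.log L) :
    Real.exp (-(((B₁ + k : ℕ) : ℝ) * Real.log L ^ 2)) * (Real.exp (B₁ * Real.log L ^ 2) * L ^ k) ≤ 1 := by
  have hL0 : 0 < L := by linarith
  have h1 : L ^ k = Real.exp (k * Real.log L) := by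
    rw [mul_comm, Real.exp_mul, Real.exp_log hL0, Real.rpow_natCast]
  rw [h1, ← Real.exp_add, ← Real.exp_add, Real.exp_le_one_iff]
  push_cast
  have h2 : (0:ℝ) ≤ k := Nat.cast_nonneg k
  nlinarith [mul_nonneg h2 (mul_nonneg (sub_nonneg.2 hl) (by linarith : (0:ℝ) ≤ Real.log L))]

/-- the bookkeeping of the constants in the mean square -/
lemma fin_bound (Q R T N A : ℕ) (L : ℝ) (hL : 200 ≤ L) (hQT : ((2 * Q : ℕ) : ℝ) * T ≤ 6 * N) (D J : ℕ)
    (hD : (D : ℝ) ≤ 2 * (T / L ^ (A + 4))) (hJ : (J : ℝ) ≤ 2 * L ^ (A + 4)) :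
    (((2 * Q : ℕ) : ℝ) * R) * (2 * (J * (((2 * Q : ℕ) : ℝ) * R * (T : ℝ) ^ 2 / L ^ (3 * A + 12))) +
      2 * (((2 * Q : ℕ) : ℝ) * R) * (D * (2 * L)) ^ 2) ≤ (36 * (R * N / L ^ (A + 3))) ^ 2 := by
  have hL0 : 0 < L := by linarith
  set q : ℝ := ((2 * Q : ℕ) : ℝ) with hq
  have hq0 : 0 ≤ q := Nat.cast_nonneg _
  have hR0 : (0:ℝ) ≤ R := Nat.cast_nonneg _
  have hT0 : (0:ℝ) ≤ T := Nat.cast_nonneg _
  have hN0 : (0:ℝ) ≤ N := Nat.cast_nonneg _
  have h1 : (J:ℝ) * (q * R * (T : ℝ) ^ 2 / L ^ (3 * A + 12)) ≤ q * R * (T ^ 2 / L ^ (2 * A + 6)) := by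
    calc (J:ℝ) * (q * R * (T : ℝ) ^ 2 / L ^ (3 * A + 12)) ≤ (2 * L ^ (A + 4)) * (q * R * (T : ℝ) ^ 2 / L ^ (3 * A + 12)) := by
          gcongr
      _ = q * R * (T ^ 2 / L ^ (2 * A + 6)) * (2 / L ^ 2) := by
          have : L ^ (3 * A + 12) = L ^ (A + 4) * (L ^ (2 * A + 6) * L ^ 2) := by
            rw [← pow_add, ← pow_add]; congr 1; ring
          rw [this]
          field_simp
      _ ≤ q * R * (T ^ 2 / L ^ (2 * A + 6)) * 1 := by
          gcongr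
          rw [div_le_one (by positivity)]
          nlinarith
      _ = _ := mul_one _
  have h2 : ((D:ℝ) * (2 * L)) ^ 2 ≤ 16 * (T ^ 2 / L ^ (2 * A + 6)) := by
    calc ((D:ℝ) * (2 * L)) ^ 2 ≤ (2 * (T / L ^ (A + 4)) * (2 * L)) ^ 2 := by gcongr
      _ = 16 * (T ^ 2 / L ^ (2 * A + 6)) := by
          have : (L ^ (A + 4)) ^ 2 = L ^ (2 * A + 6) * L ^ 2 := by
            rw [← pow_mul, ← pow_add]; congr 1; ring
          have e : (2 * ((T:ℝ) / L ^ (A + 4)) * (2 * L)) ^ 2 = 16 * (T ^ 2 * L ^ 2 / (L ^ (A + 4)) ^ 2) := by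
            field_simp
            ring
          rw [e, this]
          field_simp
  have h3 : (q * R) * (2 * (J * (q * R * (T : ℝ) ^ 2 / L ^ (3 * A + 12))) + 2 * (q * R) * (D * (2 * L)) ^ 2) ≤
      (q * R) * (2 * (q * R * (T ^ 2 / L ^ (2 * A + 6))) + 2 * (q * R) * (16 * (T ^ 2 / L ^ (2 * A + 6)))) := by
    gcongr
  refine h3.trans ?_
  have e3 : (q * R) * (2 * (q * R * (T ^ 2 / L ^ (2 * A + 6))) + 2 * (q * R) * (16 * (T ^ 2 / L ^ (2 * A + 6)))) =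
      34 * (R ^ 2 * (q * T) ^ 2 / L ^ (2 * A + 6)) := by
    field_simp
    ring
  have e4 : (36 * (R * N / L ^ (A + 3))) ^ 2 = 36 * (R ^ 2 * (6 * N) ^ 2 / L ^ (2 * A + 6)) := by
    have : (L ^ (A + 3)) ^ 2 = L ^ (2 * A + 6) := by
      rw [← pow_mul]; congr 1; ring
    rw [mul_pow, div_pow, this]
    field_simp
    ring
  rw [e3, e4]
  have h5 : (R:ℝ) ^ 2 * (q * T) ^ 2 / L ^ (2 * A + 6) ≤ R ^ 2 * (6 * N) ^ 2 / L ^ (2 * A + 6) := by
    gcongr
  have h6 : 0 ≤ (R:ℝ) ^ 2 * (6 * N) ^ 2 / L ^ (2 * A + 6) := by positivity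
  linarith

set_option maxHeartbeats 4000000 in
theorem main : S_UT6 → S_MTC → S_SRT → S_DYB := by
  intro hUT hMTC hSRT e A he
  obtain ⟨E₀, B₆, hUT⟩ := hUT (2 * e) (3 * A + 12) (by omega)
  obtain ⟨H₀, hUT⟩ := hUT (E₀ + A + 8)
  obtain ⟨B₁, N₁, hMTC⟩ := hMTC 1 (E₀ + A + 8) (A + 3)
  obtain ⟨N₂, hSRT⟩ := hSRT 1
  obtain ⟨N₃, hVz⟩ := Pool.Agent.H373R2.T7.Vz_inv_small (E₀ + A + 8)
  have hlim : Filter.Tendsto (fun N : ℕ => Real.log (N : ℝ)) Filter.atTop Filter.atTop :=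
    Real.tendsto_log_atTop.comp (tendsto_natCast_atTop_atTop (R := ℝ))
  obtain ⟨N₄, hN₄⟩ := Filter.eventually_atTop.1 (hlim.eventually_ge_atTop 200)
  refine ⟨B₁ + (B₆ + A + 10), max (max (max H₀ N₁) (max N₂ N₃)) (max N₄ (64 ^ e)), ?_⟩
  intro N hN R M Q hR hM hRQ hNQR hQ y hy
  simp only [max_le_iff] at hN
  obtain ⟨⟨⟨hN0, hN1⟩, hN2, hN3⟩, hN4, hN5⟩ := hN
  specialize hUT N hN0
  specialize hMTC N hN1
  specialize hSRT N hN2
  specialize hVz N hN3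
  have hL := hN₄ N hN4
  set L := Real.log N with hLdef
  have hL0 : 0 < L := by linarith
  have hL1 : 1 ≤ L := by linarith
  have hell : 1 ≤ Real.log L := by
    rw [← Real.log_exp 1]
    apply Real.log_le_log (Real.exp_pos _)
    have := Real.exp_one_lt_d9
    linarith
  have hNpos : 64 ≤ N := by
    calc 64 = 64 ^ 1 := by norm_num
      _ ≤ 64 ^ e := Nat.pow_le_pow_right (by norm_num) he
      _ ≤ N := hN5
  have hNr : (64:ℝ) ≤ N := by exact_mod_cast hNpos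
  have hNr0 : (0:ℝ) < N := by linarith
  have hRpos : (0:ℝ) < R := lt_of_lt_of_le (Real.rpow_pos_of_pos hNr0 _) hR
  have hR1 : 1 ≤ R := by exact_mod_cast hRpos
  have hQ1 : 1 ≤ Q := hR1.trans hRQ
  have hQr0 : (0:ℝ) < Q := by exact_mod_cast hQ1
  -- the size of Q
  set W := Real.exp (B₁ * Real.log L ^ 2) with hW
  have hW1 : 1 ≤ W := by rw [hW]; apply Real.one_le_exp; positivity
  have hQW : (Q:ℝ) * (W * L ^ (B₆ + A + 10)) ≤ N := by
    have h1 := exp_small L B₁ (B₆ + A + 10) hL1 hell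
    calc (Q:ℝ) * (W * L ^ (B₆ + A + 10)) ≤ (N * Real.exp (-(((B₁ + (B₆ + A + 10) : ℕ) : ℝ) * Real.log L ^ 2))) * (W * L ^ (B₆ + A + 10)) := by
          gcongr
      _ = N * (Real.exp (-(((B₁ + (B₆ + A + 10) : ℕ) : ℝ) * Real.log L ^ 2)) * (W * L ^ (B₆ + A + 10))) := by ring
      _ ≤ N * 1 := by gcongr
      _ = N := mul_one _
  have hQpow : ∀ k : ℕ, k ≤ B₆ + A + 10 → (Q:ℝ) * L ^ k ≤ N := by
    intro k hk
    refine le_trans ?_ hQW
    have h1 : L ^ k ≤ L ^ (B₆ + A + 10) := pow_le_pow_right₀ hL1 hk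
    have h2 : L ^ (B₆ + A + 10) ≤ W * L ^ (B₆ + A + 10) := le_mul_of_one_le_left (by positivity) hW1
    gcongr
    exact h1.trans h2
  have h2QN : 2 * Q ≤ N := by
    have h1 := hQpow 1 (by omega)
    rw [pow_one] at h1
    have : (2:ℝ) * Q ≤ N := by nlinarith
    exact_mod_cast this
  -- the length T
  set T := 2 * N / Q + 1 with hT
  have hT1 : 2 * N < Q * T := Nat.lt_mul_div_succ (2 * N) hQ1
  have hT2 : Q * T ≤ 3 * N := by
    have h1 : Q * (2 * N / Q) ≤ 2 * N := Nat.mul_div_le _ _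
    rw [hT, mul_add, mul_one]
    omega
  have hT1r : (2:ℝ) * N ≤ Q * T := by exact_mod_cast hT1.le
  have hT2r : (Q:ℝ) * T ≤ 3 * N := by exact_mod_cast hT2
  have hTpow : ∀ k : ℕ, k ≤ B₆ + A + 10 → L ^ k ≤ (T:ℝ) := by
    intro k hk
    have h1 := hQpow k hk
    exact le_of_mul_le_mul_left (by linarith) hQr0
  have hT0 : (0:ℝ) < T := by
    have := hTpow 0 (by omega)
    rw [pow_zero] at this
    linarith
  have hTR : (T:ℝ) * L ^ B₆ ≤ R := by
    have h1 : (Q:ℝ) * (T * L ^ B₆) ≤ Q * R := by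
      calc (Q:ℝ) * (T * L ^ B₆) = (Q * T) * L ^ B₆ := by ring
        _ ≤ (3 * N) * L ^ B₆ := by gcongr
        _ ≤ (L * N) * L ^ B₆ := by gcongr; linarith
        _ = N * L ^ (B₆ + 1) := by ring
        _ ≤ N * L ^ (B₁ + (B₆ + A + 10)) :=
            mul_le_mul_of_nonneg_left (pow_le_pow_right₀ hL1 (by omega)) hNr0.le
        _ ≤ Q * R := hNQR
    exact le_of_mul_le_mul_left h1 hQr0
  -- the exponents
  have he0 : (0:ℝ) < e := by exact_mod_cast he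
  have hexp : (((2 * Q : ℕ) : ℝ) * T) ^ (1 / 3 + 1 / ((2 * e : ℕ) : ℝ) : ℝ) ≤ R := by
    set x : ℝ := 1 / 3 + 1 / ((2 * e : ℕ) : ℝ) with hx
    have hinv : 1 / ((2 * e : ℕ) : ℝ) ≤ 1 / 2 := by
      apply one_div_le_one_div_of_le (by norm_num)
      push_cast
      have : (1:ℝ) ≤ e := by exact_mod_cast he
      linarith
    have hinv0 : 0 < 1 / ((2 * e : ℕ) : ℝ) := by positivity
    have hx0 : 0 ≤ x := by rw [hx]; linarith
    have hx1 : x ≤ 1 := by rw [hx]; linarith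
    have h1 : ((2 * Q : ℕ) : ℝ) * T ≤ 6 * N := by push_cast; linarith
    have h2 : (6:ℝ) ^ x ≤ 8 := by
      calc (6:ℝ) ^ x ≤ (6:ℝ) ^ (1:ℝ) := Real.rpow_le_rpow_of_exponent_le (by norm_num) hx1
        _ = 6 := Real.rpow_one _
        _ ≤ 8 := by norm_num
    have h3 : (8:ℝ) ≤ (N:ℝ) ^ (1 / ((2 * e : ℕ) : ℝ)) := by
      have h4 : ((8:ℝ) ^ (2 * e)) ^ (((2 * e : ℕ) : ℝ)⁻¹) = 8 :=
        Real.pow_rpow_inv_natCast (by norm_num) (by omega)
      have h5 : (8:ℝ) ^ (2 * e) ≤ N := by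
        rw [pow_mul]
        norm_num
        exact_mod_cast hN5
      calc (8:ℝ) = ((8:ℝ) ^ (2 * e)) ^ (((2 * e : ℕ) : ℝ)⁻¹) := h4.symm
        _ ≤ (N:ℝ) ^ (((2 * e : ℕ) : ℝ)⁻¹) := Real.rpow_le_rpow (by positivity) h5 (by positivity)
        _ = _ := by rw [one_div]
    calc (((2 * Q : ℕ) : ℝ) * T) ^ x ≤ (6 * N) ^ x := Real.rpow_le_rpow (by positivity) h1 hx0
      _ = 6 ^ x * (N:ℝ) ^ x := Real.mul_rpow (by norm_num) hNr0.le
      _ ≤ (N:ℝ) ^ (1 / ((2 * e : ℕ) : ℝ)) * (N:ℝ) ^ x := by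
          apply mul_le_mul_of_nonneg_right (h2.trans h3) (Real.rpow_nonneg hNr0.le _)
      _ = (N:ℝ) ^ (1 / 3 + 1 / e : ℝ) := by
          rw [← Real.rpow_add hNr0]
          congr 1
          rw [hx]
          push_cast
          field_simp
          ring
      _ ≤ R := hR
  have hRg : Rg (2 * e) N (2 * Q) R := by
    refine ⟨?_, by omega, h2QN⟩
    refine le_trans (Real.rpow_le_rpow_of_exponent_le (by linarith) ?_) hR
    have h1 : 1 / ((2 * e : ℕ) : ℝ) ≤ 1 / e := by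
      apply one_div_le_one_div_of_le he0
      push_cast
      linarith
    linarith
  -- the sieve level
  set z := ⌈L ^ (E₀ + A + 7)⌉₊ with hz
  have hz1 : L ^ (E₀ + A + 7) ≤ z := Nat.le_ceil _
  have hz2 : (z:ℝ) ≤ L ^ (E₀ + A + 8) := by
    have h1 : (z:ℝ) < L ^ (E₀ + A + 7) + 1 := Nat.ceil_lt_add_one (by positivity)
    have h2 : 1 ≤ L ^ (E₀ + A + 7) := one_le_pow₀ hL1
    calc (z:ℝ) ≤ L ^ (E₀ + A + 7) + 1 := h1.le
      _ ≤ L ^ (E₀ + A + 7) * L := by nlinarith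
      _ = _ := by ring
  have hzpow : ∀ k : ℕ, k ≤ E₀ + A + 7 → L ^ k ≤ (z:ℝ) := fun k hk => (pow_le_pow_right₀ hL1 hk).trans hz1
  have hzr0 : (0:ℝ) < z := lt_of_lt_of_le (by positivity) hz1
  have hz0 : 1 ≤ z := by exact_mod_cast hzr0
  have hV := hVz z hz0 hz2
  -- the size of Ed
  have hEd : ∀ m : ℤ, m ≤ 8 * N → |Ed z m| ≤ 2 * L := by
    intro m hm
    apply Ed_abs z m (8 * N) L (by linarith) (by exact_mod_cast hm) _ hV hL0.le
    rw [Real.log_mul (by norm_num) hNr0.ne']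
    have h8 : Real.log 8 ≤ 8 - 1 := Real.log_le_sub_one_of_pos (by norm_num)
    linarith
  -- the grid
  set D := ⌈(T:ℝ) / L ^ (A + 4)⌉₊ with hD
  set J := ⌊L ^ (A + 4)⌋₊ + 1 with hJ
  have hu1 : 1 ≤ (T:ℝ) / L ^ (A + 4) := by
    rw [le_div_iff₀ (by positivity), one_mul]
    exact hTpow _ (by omega)
  have hD1 : (T:ℝ) / L ^ (A + 4) ≤ D := Nat.le_ceil _
  have hD2 : (D:ℝ) ≤ 2 * ((T:ℝ) / L ^ (A + 4)) := by
    have h1 : (D:ℝ) < (T:ℝ) / L ^ (A + 4) + 1 := Nat.ceil_lt_add_one (by positivity)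
    linarith
  have hD3 : 1 ≤ D := by
    have : (1:ℝ) ≤ D := hu1.trans hD1
    exact_mod_cast this
  have hJ1 : L ^ (A + 4) < J := by
    rw [hJ]; push_cast
    exact Nat.lt_floor_add_one _
  have hJ2 : (J:ℝ) ≤ 2 * L ^ (A + 4) := by
    rw [hJ]; push_cast
    have h1 : ((⌊L ^ (A + 4)⌋₊ : ℕ) : ℝ) ≤ L ^ (A + 4) := Nat.floor_le (by positivity)
    have h2 : 1 ≤ L ^ (A + 4) := one_le_pow₀ hL1
    linarith
  have hJD : T < J * D := by
    have : (T:ℝ) < J * D := by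
      calc (T:ℝ) = L ^ (A + 4) * ((T:ℝ) / L ^ (A + 4)) := by field_simp
        _ < J * ((T:ℝ) / L ^ (A + 4)) := by gcongr
        _ ≤ J * D := by gcongr
    exact_mod_cast this
  have h6N : ((2 * Q : ℕ) : ℝ) * T ≤ 6 * N := by push_cast; linarith
  have hfin := fin_bound Q R T N A L hL h6N D J hD2 hJ2
  set K := 36 * (R * N / L ^ (A + 3)) with hK
  have hK0 : 0 ≤ K := by positivity
  have h2QT : 4 * N ≤ 2 * Q * T := by
    have : 2 * Q * T = 2 * (Q * T) := by ring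
    omega
  have h2QTr : (4:ℤ) * N ≤ ((2 * Q : ℕ) : ℤ) * T := by exact_mod_cast h2QT
  have hMz : (M:ℤ) ≤ N := by exact_mod_cast hM
  have hRN : R ≤ N := by omega
  -- positive side
  have hUp : ∀ w : ℕ → ℝ, (∀ n, |w n| ≤ 1) →
      ∑ b ∈ Icc 1 (2 * Q), ∑ c ∈ Icc 1 R, (∑ n ∈ Icc 1 T, w n * Ed z ((b : ℤ) * n + (M + c : ℕ))) ^ 2 ≤
        ((2 * Q : ℕ) : ℝ) * R * (T : ℝ) ^ 2 / L ^ (3 * A + 12) := by
    intro w hw
    have h1 := hUT (2 * Q) R hRg T (hTpow _ (by omega)) hTR hexp z (hzpow _ (by omega)) hz2 1 (Or.inl rfl)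
      (fun _ => (M:ℤ)) (fun n _ => by rw [abs_of_nonneg (by positivity)]; omega) w hw
    refine le_trans (le_of_eq ?_) h1
    apply sum_congr rfl; intro b _
    apply sum_congr rfl; intro c _
    congr 1
    apply sum_congr rfl; intro n _
    congr 2
    push_cast
    ring
  -- negative side
  have hUm : ∀ w : ℕ → ℝ, (∀ n, |w n| ≤ 1) →
      ∑ b ∈ Icc 1 (2 * Q), ∑ c ∈ Icc 1 R, (∑ n ∈ Icc 1 T, w n * Ed z (((M + c : ℕ) : ℤ) - b * n)) ^ 2 ≤
        ((2 * Q : ℕ) : ℝ) * R * (T : ℝ) ^ 2 / L ^ (3 * A + 12) := by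
    intro w hw
    have h1 := hUT (2 * Q) R hRg T (hTpow _ (by omega)) hTR hexp z (hzpow _ (by omega)) hz2 (-1) (Or.inr rfl)
      (fun _ => -(M:ℤ) - R - 1) (fun n _ => by
        rw [abs_le]
        constructor <;> omega) w hw
    refine le_trans (le_of_eq ?_) h1
    apply sum_congr rfl; intro b _
    rw [refl_sum]
    apply sum_congr rfl; intro c hc
    rw [mem_Icc] at hc
    congr 1
    apply sum_congr rfl; intro n _
    congr 2
    push_cast [Nat.cast_sub (by omega : c ≤ R + 1)]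
    ring
  have hPp : ∀ b ∈ Icc 1 (2 * Q), ∀ c ∈ Icc 1 R, ∀ t ∈ Icc 1 T, |Ed z ((b : ℤ) * t + (M + c : ℕ))| ≤ 2 * L := by
    intro b hb c hc t ht
    rw [mem_Icc] at hb hc ht
    apply hEd
    have h1 : b * t ≤ 2 * Q * T := Nat.mul_le_mul hb.2 ht.2
    have h2 : 2 * Q * T = 2 * (Q * T) := by ring
    have h3 : b * t + (M + c) ≤ 8 * N := by omega
    exact_mod_cast h3
  have hPm : ∀ b ∈ Icc 1 (2 * Q), ∀ c ∈ Icc 1 R, ∀ t ∈ Icc 1 T, |Ed z (((M + c : ℕ) : ℤ) - b * t)| ≤ 2 * L := by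
    intro b hb c hc t ht
    rw [mem_Icc] at hb hc ht
    apply hEd
    have h1 : (0:ℤ) ≤ (b:ℤ) * t := by positivity
    have h3 : M + c ≤ 8 * N := by omega
    have h4 : ((M + c : ℕ) : ℤ) ≤ 8 * N := by exact_mod_cast h3
    linarith
  have segp := fun s => seg (fun b c n => Ed z ((b : ℤ) * n + (M + c : ℕ))) (2 * Q) R T D J (2 * L) _ K hD3 hJD
    (by positivity) hK0 hPp hUp hfin s
  have segm := fun s => seg (fun b c n => Ed z (((M + c : ℕ) : ℤ) - b * n)) (2 * Q) R T D J (2 * L) _ K hD3 hJD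
    (by positivity) hK0 hPm hUm hfin s
  -- the pointwise bound
  set X1 : ℕ → ℕ → ℝ := fun q a => |∑ t ∈ Icc 1 T, (if t ≤ (y q a - a) / q then (1:ℝ) else 0) * Ed z ((q : ℤ) * t + a)| with hX1
  set X2 : ℕ → ℕ → ℝ := fun q a => |∑ t ∈ Icc 1 T, Ed z ((a : ℤ) - q * t)| with hX2
  set X3 : ℕ → ℕ → ℝ := fun q a => |∑ t ∈ Icc 1 T, (if t ≤ (a - y q a - 1) / q then (1:ℝ) else 0) * Ed z ((a : ℤ) - q * t)| with hX3
  have hpt : ∀ a ∈ Ioc M (M + R), ∀ q ∈ (Ioc Q (2 * Q)).filter (fun q => a.Coprime q),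
      |∑ n ∈ (Icc 1 (y q a)).filter (fun n => n ≡ a [MOD q]), ArithmeticFunction.vonMangoldt n -
        (y q a : ℝ) / Nat.totient q| ≤
      X1 q a + X2 q a + X3 q a + (2 * L + ((N : ℝ) / Q / L ^ (A + 3) + W) + N * (L ^ 2 / z) * (1 / (Nat.totient q : ℝ))) := by
    intro a ha q hq
    rw [mem_filter, mem_Ioc] at hq
    rw [mem_Ioc] at ha
    obtain ⟨⟨hq1, hq2⟩, hco⟩ := hq
    have hq0 : 1 ≤ q := by omega
    have hqr : (Q:ℝ) ≤ q := by exact_mod_cast hq1.le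
    have hqT : 2 * N ≤ q * T := hT1.le.trans (Nat.mul_le_mul_right T hq1.le)
    have hya := hy q a
    have hdec := decomp (Ed z) (fun m hm => Ed_nonpos z m hm) q a (y q a) T hq0 (by omega) (by omega)
    have hmod := model N z q a (y q a) L ((N : ℝ) / Q / L ^ (A + 3)) W hq0 hya (by
        refine (hMTC z hz0 hz2 (fun _ => 1) (fun _ => 0) (fun _ => Or.inl rfl) q a (y q a) hq0 hya).trans ?_
        have h1 : (N:ℝ) / q / L ^ (A + 3) ≤ (N : ℝ) / Q / L ^ (A + 3) := by gcongr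
        linarith)
      (by
        refine (hSRT (fun _ => 1) (fun _ => 0) (fun _ => Or.inl rfl) (fun _ => by simp) (fun i j hij => ?_) z
          (hzpow 3 (by omega)) q a hq0 (by omega) (fun i => ?_)).2.2
        · exact absurd (Subsingleton.elim i j) hij
        · rw [one_mul, add_zero, Int.gcd_natCast_natCast]
          exact hco)
    have hvM : ∑ n ∈ (Icc 1 (y q a)).filter (fun n => n ≡ a [MOD q]), ArithmeticFunction.vonMangoldt n =
        ∑ n ∈ (Icc 1 (y q a)).filter (fun n => n ≡ a [MOD q]), Ed z (n : ℤ) +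
        ∑ n ∈ (Icc 1 (y q a)).filter (fun n => n ≡ a [MOD q]), lamzI z (n : ℤ) := by
      rw [← sum_add_distrib]
      apply sum_congr rfl
      intro n hn
      rw [mem_filter, mem_Icc] at hn
      unfold Ed
      rw [sub_add_cancel]
      unfold lamI
      rw [if_pos (by exact_mod_cast hn.1.1), Int.toNat_natCast]
    have hmid : |(if a ≤ y q a then Ed z (a:ℤ) else 0)| ≤ 2 * L := by
      split_ifs
      · apply hEd
        have : a ≤ 8 * N := by omega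
        exact_mod_cast this
      · rw [abs_zero]; positivity
    rw [hvM, hdec]
    have hx1 : X1 q a = |∑ t ∈ Icc 1 T, (if t ≤ (y q a - a) / q then (1:ℝ) else 0) * Ed z ((q : ℤ) * t + a)| := rfl
    have hx2 : X2 q a = |∑ t ∈ Icc 1 T, Ed z ((a : ℤ) - q * t)| := rfl
    have hx3 : X3 q a = |∑ t ∈ Icc 1 T, (if t ≤ (a - y q a - 1) / q then (1:ℝ) else 0) * Ed z ((a : ℤ) - q * t)| := rfl
    rw [hx1, hx2, hx3]
    generalize ∑ t ∈ Icc 1 T, (if t ≤ (y q a - a) / q then (1:ℝ) else 0) * Ed z ((q : ℤ) * t + a) = u1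
    generalize ∑ t ∈ Icc 1 T, Ed z ((a : ℤ) - q * t) = u2
    generalize ∑ t ∈ Icc 1 T, (if t ≤ (a - y q a - 1) / q then (1:ℝ) else 0) * Ed z ((a : ℤ) - q * t) = u3
    generalize (if a ≤ y q a then Ed z (a:ℤ) else 0) = u0 at hmid ⊢
    generalize ∑ n ∈ (Icc 1 (y q a)).filter (fun n => n ≡ a [MOD q]), lamzI z (n : ℤ) = u4 at hmod ⊢
    have e1 : u1 + u0 + (u2 - u3) + u4 - (y q a : ℝ) / Nat.totient q =
        ((u1 + u0) + (u2 - u3)) + (u4 - (y q a : ℝ) / Nat.totient q) := by ring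
    rw [e1]
    have t1 := abs_add_le ((u1 + u0) + (u2 - u3)) (u4 - (y q a : ℝ) / Nat.totient q)
    have t2 := abs_add_le (u1 + u0) (u2 - u3)
    have t3 := abs_add_le u1 u0
    have t4 := abs_sub u2 u3
    linarith
  refine (sum_le_sum fun a ha => sum_le_sum fun q hq => hpt a ha q hq).trans ?_
  have hg0 : ∀ q : ℕ, 0 ≤ 2 * L + ((N : ℝ) / Q / L ^ (A + 3) + W) + N * (L ^ 2 / z) * (1 / (Nat.totient q : ℝ)) := by
    intro q
    have : 0 ≤ W := by linarith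
    positivity
  have hs1 : ∑ a ∈ Ioc M (M + R), ∑ q ∈ (Ioc Q (2 * Q)).filter (fun q => a.Coprime q),
      (X1 q a + X2 q a + X3 q a + (2 * L + ((N : ℝ) / Q / L ^ (A + 3) + W) + N * (L ^ 2 / z) * (1 / (Nat.totient q : ℝ)))) ≤
      ∑ a ∈ Ioc M (M + R), ∑ q ∈ Ioc Q (2 * Q),
      (X1 q a + X2 q a + X3 q a + (2 * L + ((N : ℝ) / Q / L ^ (A + 3) + W) + N * (L ^ 2 / z) * (1 / (Nat.totient q : ℝ)))) := by
    apply sum_le_sum
    intro a _
    apply sum_le_sum_of_subset_of_nonneg (filter_subset _ _)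
    intro q _ _
    have := hg0 q
    have h1 : 0 ≤ X1 q a := abs_nonneg _
    have h2 : 0 ≤ X2 q a := abs_nonneg _
    have h3 : 0 ≤ X3 q a := abs_nonneg _
    linarith
  refine hs1.trans ?_
  have c1 : ∑ a ∈ Ioc M (M + R), ∑ q ∈ Ioc Q (2 * Q), X1 q a ≤ K :=
    (conv X1 (fun _ _ => abs_nonneg _) M R Q).trans (segp (fun b c => (y b (M + c) - (M + c)) / b))
  have c2 : ∑ a ∈ Ioc M (M + R), ∑ q ∈ Ioc Q (2 * Q), X2 q a ≤ K := by
    refine (conv X2 (fun _ _ => abs_nonneg _) M R Q).trans (le_trans (le_of_eq ?_) (segm (fun b c => T)))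
    apply sum_congr rfl; intro b _
    apply sum_congr rfl; intro c _
    rw [hX2]
    simp only
    congr 1
    apply sum_congr rfl; intro n hn
    rw [mem_Icc] at hn
    rw [if_pos hn.2, one_mul]
  have c3 : ∑ a ∈ Ioc M (M + R), ∑ q ∈ Ioc Q (2 * Q), X3 q a ≤ K :=
    (conv X3 (fun _ _ => abs_nonneg _) M R Q).trans (segm (fun b c => (M + c - y b (M + c) - 1) / b))
  have c4 : ∑ a ∈ Ioc M (M + R), ∑ q ∈ Ioc Q (2 * Q), (2 * L + ((N : ℝ) / Q / L ^ (A + 3) + W) +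
      N * (L ^ 2 / z) * (1 / (Nat.totient q : ℝ))) ≤ 8 * (R * N / L ^ (A + 3)) := by
    rw [sum_const, Nat.card_Ioc, nsmul_eq_mul, Nat.add_sub_cancel_left]
    have d1 : ∑ q ∈ Ioc Q (2 * Q), (2 * L + ((N : ℝ) / Q / L ^ (A + 3) + W) + N * (L ^ 2 / z) * (1 / (Nat.totient q : ℝ))) =
        Q * (2 * L) + Q * ((N : ℝ) / Q / L ^ (A + 3)) + Q * W + N * (L ^ 2 / z) * ∑ q ∈ Ioc Q (2 * Q), 1 / (Nat.totient q : ℝ) := by
      rw [sum_add_distrib, sum_const, Nat.card_Ioc, nsmul_eq_mul, ← mul_sum]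
      have : 2 * Q - Q = Q := by omega
      rw [this]
      ring
    rw [d1]
    have d2 : (Q:ℝ) * (2 * L) ≤ 2 * (N / L ^ (A + 3)) := by
      have := hQpow (A + 4) (by omega)
      rw [mul_div_assoc', le_div_iff₀ (by positivity)]
      calc (Q:ℝ) * (2 * L) * L ^ (A + 3) = 2 * (Q * L ^ (A + 4)) := by ring
        _ ≤ 2 * N := by linarith
    have d3 : (Q:ℝ) * ((N : ℝ) / Q / L ^ (A + 3)) = N / L ^ (A + 3) := by field_simp
    have d4 : (Q:ℝ) * W ≤ N / L ^ (A + 3) := by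
      rw [le_div_iff₀ (by positivity)]
      calc (Q:ℝ) * W * L ^ (A + 3) = Q * (W * L ^ (A + 3)) := by ring
        _ ≤ Q * (W * L ^ (B₆ + A + 10)) :=
            mul_le_mul_of_nonneg_left (mul_le_mul_of_nonneg_left (pow_le_pow_right₀ hL1 (by omega))
              (by linarith)) hQr0.le
        _ ≤ N := hQW
    have d5 : ∑ q ∈ Ioc Q (2 * Q), 1 / (Nat.totient q : ℝ) ≤ 4 * L ^ 2 := by
      refine (sum_inv_tot Q).trans ?_
      have h1 : Real.log (2 * Q : ℕ) ≤ L := by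
        apply Real.log_le_log (by positivity)
        exact_mod_cast h2QN
      have h2 : 0 ≤ Real.log (2 * Q : ℕ) := Real.log_natCast_nonneg _
      calc (1 + Real.log (2 * Q : ℕ)) ^ 2 ≤ (2 * L) ^ 2 := by
            apply pow_le_pow_left₀ (by linarith)
            linarith
        _ = 4 * L ^ 2 := by ring
    have d6 : N * (L ^ 2 / z) * ∑ q ∈ Ioc Q (2 * Q), 1 / (Nat.totient q : ℝ) ≤ 4 * (N / L ^ (A + 3)) := by
      calc N * (L ^ 2 / z) * ∑ q ∈ Ioc Q (2 * Q), 1 / (Nat.totient q : ℝ) ≤ N * (L ^ 2 / z) * (4 * L ^ 2) := by gcongr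
        _ ≤ N * (L ^ 2 / L ^ (A + 7)) * (4 * L ^ 2) := by
            gcongr
            exact hzpow _ (by omega)
        _ = 4 * (N / L ^ (A + 3)) := by
            have : L ^ (A + 7) = L ^ (A + 3) * L ^ 2 * L ^ 2 := by ring
            rw [this]
            field_simp
    have d7 : (R:ℝ) * (Q * (2 * L) + Q * ((N : ℝ) / Q / L ^ (A + 3)) + Q * W + N * (L ^ 2 / z) * ∑ q ∈ Ioc Q (2 * Q), 1 / (Nat.totient q : ℝ)) ≤
        R * (8 * (N / L ^ (A + 3))) := by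
      apply mul_le_mul_of_nonneg_left _ hRpos.le
      rw [d3]
      linarith
    refine d7.trans (le_of_eq ?_)
    ring
  have c5 : ∑ a ∈ Ioc M (M + R), ∑ q ∈ Ioc Q (2 * Q),
      (X1 q a + X2 q a + X3 q a + (2 * L + ((N : ℝ) / Q / L ^ (A + 3) + W) + N * (L ^ 2 / z) * (1 / (Nat.totient q : ℝ)))) =
      ∑ a ∈ Ioc M (M + R), ∑ q ∈ Ioc Q (2 * Q), X1 q a + ∑ a ∈ Ioc M (M + R), ∑ q ∈ Ioc Q (2 * Q), X2 q a +
      ∑ a ∈ Ioc M (M + R), ∑ q ∈ Ioc Q (2 * Q), X3 q a + ∑ a ∈ Ioc M (M + R), ∑ q ∈ Ioc Q (2 * Q), (2 * L + ((N : ℝ) / Q / L ^ (A + 3) + W) +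
      N * (L ^ 2 / z) * (1 / (Nat.totient q : ℝ))) := by
    simp only [sum_add_distrib]
  rw [c5]
  have c6 : (R:ℝ) * N / L ^ (A + 3) * 116 ≤ R * N / L ^ A := by
    have : (R:ℝ) * N / L ^ A = R * N / L ^ (A + 3) * L ^ 3 := by
      have : L ^ (A + 3) = L ^ A * L ^ 3 := by ring
      rw [this]
      field_simp
    rw [this]
    gcongr
    nlinarith [mul_nonneg hL0.le hL0.le, mul_pos (mul_pos hL0 hL0) hL0]
  rw [hK] at c1 c2 c3
  linarith

end Pool.Agent.helper24_UT.Dyb
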