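import Pool.Agent.helper24_UT.Stm17

/-!
# Project UT (helper24), part 18: residues from short windows, large moduli. Statements.
-/

set_option autoImplicit false

namespace Pool.Agent.helper24_UT

open Finset
open Pool.Agent.H373R2.T7 (lamI lamzI lamz Vz pz energy)
open Pool.Agent.H807R2.Dav (ee)

/-- (200) no correlation of the primes minus their model along `b n + c + g n` or its negative, shorter boxes -/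
def S_UT6 : Prop := ∀ e A : ℕ, 1 ≤ e → ∃ E₀ B : ℕ, ∀ E₁ : ℕ, ∃ H₀ : ℕ, ∀ H : ℕ, H₀ ≤ H → ∀ Q R : ℕ, Rg e H Q R → ∀ T : ℕ,
  (Real.log H) ^ B ≤ T → (T : ℝ) * (Real.log H) ^ B ≤ R → ((Q : ℝ) * T) ^ (1 / 3 + 1 / e : ℝ) ≤ R →
  ∀ z : ℕ, (Real.log H) ^ E₀ ≤ z → (z : ℝ) ≤ (Real.log H) ^ E₁ → ∀ σ : ℤ, (σ = 1 ∨ σ = -1) →
  ∀ g : ℕ → ℤ, (∀ n ∈ Icc 1 T, |g n| ≤ Q * T) → ∀ w : ℕ → ℝ, (∀ n, |w n| ≤ 1) →
  ∑ b ∈ Icc 1 Q, ∑ c ∈ Icc 1 R, (∑ n ∈ Icc 1 T, w n * Ed z (σ * ((b : ℤ) * n + c + g n))) ^ 2 ≤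
    (Q : ℝ) * R * (T : ℝ) ^ 2 / (Real.log H) ^ A

/-- (201) primes in progressions, moduli in a dyadic block, residues from a short window -/
def S_DYB : Prop := ∀ e A : ℕ, 1 ≤ e → ∃ B N₀ : ℕ, ∀ N : ℕ, N₀ ≤ N → ∀ R M Q : ℕ, (N : ℝ) ^ (1 / 3 + 1 / e : ℝ) ≤ R →
  M ≤ N → R ≤ Q → (N : ℝ) * (Real.log N) ^ B ≤ (Q : ℝ) * R →
  (Q : ℝ) ≤ N * Real.exp (-(B * Real.log (Real.log N) ^ 2)) → ∀ y : ℕ → ℕ → ℕ, (∀ q a, y q a ≤ N) →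
  ∑ a ∈ Ioc M (M + R), ∑ q ∈ (Ioc Q (2 * Q)).filter (fun q => a.Coprime q),
    |∑ n ∈ (Icc 1 (y q a)).filter (fun n => n ≡ a [MOD q]), ArithmeticFunction.vonMangoldt n -
      (y q a : ℝ) / Nat.totient q| ≤ (R : ℝ) * N / (Real.log N) ^ A

open Classical in
/-- (202) the Elliott-Halberstam sum on average over the residues from a short window -/
def S_R22 : Prop := ∀ e A : ℕ, 1 ≤ e → ∃ B N₀ : ℕ, ∀ N : ℕ, N₀ ≤ N → ∀ R M Q : ℕ, (N : ℝ) ^ (1 / 3 + 1 / e : ℝ) ≤ R →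
  R ≤ N → M ≤ N → (Q : ℝ) ≤ N * Real.exp (-(B * Real.log (Real.log N) ^ 2)) →
  ∀ y : ℕ → ℕ → ℕ, (∀ q a, y q a ≤ N) →
  ∑ a ∈ Ioc M (M + R), ∑ q ∈ (Icc 1 Q).filter
      (fun q => a.Coprime q ∧ (q ≤ R ∨ (N : ℝ) * (Real.log N) ^ B ≤ (q : ℝ) * R)),
    |∑ n ∈ (Icc 1 (y q a)).filter (fun n => n ≡ a [MOD q]), ArithmeticFunction.vonMangoldt n -
      (y q a : ℝ) / Nat.totient q| ≤ (R : ℝ) * N / (Real.log N) ^ A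

end Pool.Agent.helper24_UT
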