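/-
UT_R22   (project UT of helper24): proof by helper599
-/
import Pool.Agent.helper24_UT.Stm18


set_option autoImplicit false

namespace Pool.Agent.helper24_UT.R22

open Finset
open Pool.Agent.helper24_UT
open Pool.Agent.H373R2.T7 (lamI lamzI lamz Vz pz lamP)
open Pool.Agent.H807R2.Dav (ee)

theorem cnt (a b q r : ℕ) (hab : a ≤ b) (hq : 1 ≤ q) (hr : r < q) :
    (((Ioc a b).filter (fun n => n % q = r)).card : ℝ) ≤ ((b : ℝ) - a) / q + 1 := by
  have h1 : (Ioc a b).filter (fun n => n % q = r) = (Ioc a b).filter (fun n => n ≡ r [MOD q]) := by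
    refine filter_congr fun n _ => ?_
    unfold Nat.ModEq
    rw [Nat.mod_eq_of_lt hr]
  have h2 := Nat.Ioc_filter_modEq_card a b (r := q) (by omega) r
  rw [← h1] at h2
  have hq0 : (0 : ℚ) < q := by exact_mod_cast hq
  have h3 : (((Ioc a b).filter (fun n => n % q = r)).card : ℚ) ≤ ((b : ℚ) - a) / q + 1 := by
    have h4 : ((((Ioc a b).filter (fun n => n % q = r)).card : ℤ) : ℚ) =
      ((max (⌊((b : ℚ) - r) / (q : ℚ)⌋ - ⌊((a : ℚ) - r) / (q : ℚ)⌋) 0 : ℤ) : ℚ) := by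
      rw [h2]
    rw [Int.cast_natCast] at h4
    rw [h4, Int.cast_max]
    apply max_le
    · push_cast
      have h5 := Int.floor_le (((b : ℚ) - r) / (q : ℚ))
      have h6 := Int.lt_floor_add_one (((a : ℚ) - r) / (q : ℚ))
      have h7 : ((b : ℚ) - a) / q = ((b : ℚ) - r) / (q : ℚ) - ((a : ℚ) - r) / (q : ℚ) := by
        field_simp
        ring
      rw [h7]
      linarith
    · have : (a : ℚ) ≤ b := by exact_mod_cast hab
      have : 0 ≤ ((b : ℚ) - a) / q := div_nonneg (by linarith) hq0.le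
      push_cast
      linarith
  have h8 := (Rat.cast_le (K := ℝ)).2 h3
  push_cast at h8
  exact h8

lemma lamzI_eq (z : ℕ) (m : ℤ) (hm : 1 ≤ m) : lamzI z m = lz z m := by
  unfold lamzI lz lamz
  rw [if_pos hm]
  have : (∀ p ∈ pz z, ¬ p ∣ m.toNat) ↔ ∀ p ∈ pz z, ¬ (p : ℤ) ∣ m := by
    constructor
    · intro h p hp hd
      apply h p hp
      rw [← Int.natCast_dvd_natCast, Int.toNat_of_nonneg (by omega)]
      exact hd
    · intro h p hp hd
      apply h p hp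
      rw [← Int.natCast_dvd_natCast, Int.toNat_of_nonneg (by omega)] at hd
      exact hd
  by_cases h : ∀ p ∈ pz z, ¬ p ∣ m.toNat
  · rw [if_pos h, if_pos (this.1 h)]
  · rw [if_neg h, if_neg (fun h' => h (this.2 h'))]

lemma gz_le {k : ℕ} (z : ℕ) (σ h : Fin k → ℤ) (q r : ℕ) : gz z σ h q r ≤ ((Vz z)⁻¹) ^ k := by
  have hV : 0 ≤ ((Vz z)⁻¹) ^ k := pow_nonneg (inv_nonneg.2 (Pool.Agent.H373R2.T7.Vz_pos z).le) _
  unfold gz
  split_ifs
  · exact hV
  · have : ∏ p ∈ (pz z).filter (fun p => ¬ p ∣ q), (1 - (nuf σ h p : ℝ) / p) ≤ 1 := by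
      apply prod_le_one
      · intro p hp
        rw [mem_filter, Pool.Agent.H373R2.T7.mem_pz] at hp
        have hp0 : (0 : ℝ) < p := by exact_mod_cast hp.1.2.pos
        rw [sub_nonneg, div_le_one hp0]
        unfold nuf
        exact_mod_cast (card_filter_le _ _).trans (by rw [card_range])
      · intro p _
        have : (0 : ℝ) ≤ (nuf σ h p : ℝ) / p := by positivity
        linarith
    calc _ ≤ ((Vz z)⁻¹) ^ k * 1 := mul_le_mul_of_nonneg_left this hV
      _ = _ := mul_one _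

lemma sum_inv_le (Q N : ℕ) (hQ : Q ≤ N) : ∑ q ∈ Icc 1 Q, 1 / (q : ℝ) ≤ 1 + Real.log N := by
  have h1 : ∑ q ∈ Icc 1 Q, 1 / (q : ℝ) ≤ ∑ q ∈ Icc 1 N, 1 / (q : ℝ) :=
    sum_le_sum_of_subset_of_nonneg (Icc_subset_Icc_right hQ) (fun _ _ _ => by positivity)
  refine h1.trans ?_
  have h2 : ∑ n ∈ Icc 1 N, 1 / (n : ℝ) = ((harmonic N : ℚ) : ℝ) := by
    rw [harmonic_eq_sum_Icc]
    push_cast
    simp
  rw [h2]
  exact harmonic_le_one_add_log N

/-- the form `t` -/
def s1 : Fin 1 → ℤ := fun _ => 1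

/-- no shift -/
def h1 : Fin 1 → ℤ := fun _ => 0

lemma nuf1 (p : ℕ) (hp : p.Prime) : nuf s1 h1 p = 1 := by
  unfold nuf
  rw [card_eq_one]
  refine ⟨0, ?_⟩
  ext t
  simp only [mem_filter, mem_range, mem_singleton, s1, h1, one_mul, add_zero]
  constructor
  · rintro ⟨ht, i, hi⟩
    have : p ∣ t := by exact_mod_cast hi
    rcases Nat.eq_zero_or_pos t with h | h
    · exact h
    · exact absurd (Nat.le_of_dvd h this) (by omega)
  · rintro rfl
    exact ⟨hp.pos, 0, by simp⟩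

lemma sers1 : sers s1 h1 = 1 := by
  unfold sers
  have : ∀ p : Nat.Primes, (1 - (nuf s1 h1 p : ℝ) / ((p : ℕ) : ℝ)) / (1 - 1 / ((p : ℕ) : ℝ)) ^ 1 = 1 := by
    intro p
    rw [nuf1 p p.2, Nat.cast_one, pow_one]
    apply div_self
    have h2 : (2 : ℝ) ≤ ((p : ℕ) : ℝ) := by exact_mod_cast p.2.two_le
    have : 1 / ((p : ℕ) : ℝ) ≤ 1 / 2 := one_div_le_one_div_of_le (by norm_num) h2
    linarith
  simp only [this, tprod_one]

lemma phf1 (q : ℕ) : phf s1 h1 q = Nat.totient q := by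
  unfold phf Nat.totient
  congr 1
  apply filter_congr
  intro t _
  simp only [s1, h1, one_mul, add_zero]
  constructor
  · intro h
    have := h 0
    rw [Int.gcd_natCast_natCast] at this
    exact Nat.coprime_comm.1 this
  · intro h _
    rw [Int.gcd_natCast_natCast]
    exact Nat.coprime_comm.1 h

lemma evN (A B1 : ℕ) : ∃ N5 : ℕ, ∀ N : ℕ, N5 ≤ N → 1 ≤ N ∧ 2304 ≤ Real.log N ∧ (A + B1 + 10 : ℝ) ≤ Real.log (Real.log N) := by
  have hlim : Filter.Tendsto (fun N : ℕ => Real.log (N : ℝ)) Filter.atTop Filter.atTop :=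
    Real.tendsto_log_atTop.comp (tendsto_natCast_atTop_atTop (R := ℝ))
  have h1 := hlim.eventually_ge_atTop 2304
  have h2 := (Real.tendsto_log_atTop.comp hlim).eventually_ge_atTop (A + B1 + 10 : ℝ)
  obtain ⟨N0, h0⟩ := Filter.eventually_atTop.1 ((Filter.eventually_ge_atTop 1).and (h1.and h2))
  exact ⟨N0, fun N hN => h0 N hN⟩

/-- the error of the primes minus their model -/
noncomputable def EE (z q r t : ℕ) : ℝ := ∑ n ∈ (Icc 1 t).filter (fun n => n % q = r), Ed z (n : ℤ)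

lemma lamI_nat (n : ℕ) (hn : 1 ≤ n) : lamI (n : ℤ) = ArithmeticFunction.vonMangoldt n := by
  unfold lamI
  rw [if_pos (by exact_mod_cast hn), Int.toNat_natCast]

lemma Ed_nat (z n : ℕ) (hn : 1 ≤ n) : Ed z (n : ℤ) = ArithmeticFunction.vonMangoldt n - lz z (n : ℤ) := by
  unfold Ed
  rw [lamI_nat n hn, lamzI_eq z _ (by exact_mod_cast hn)]

lemma lz_nonneg (z : ℕ) (m : ℤ) : 0 ≤ lz z m := by
  unfold lz
  split_ifs
  · exact inv_nonneg.2 (Pool.Agent.H373R2.T7.Vz_pos z).le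
  · exact le_rfl

lemma lz_le (z : ℕ) (m : ℤ) : lz z m ≤ (Vz z)⁻¹ := by
  unfold lz
  split_ifs
  · exact le_rfl
  · exact inv_nonneg.2 (Pool.Agent.H373R2.T7.Vz_pos z).le

lemma Ed_le (z n N : ℕ) (L : ℝ) (hL : L = Real.log N) (hn : 1 ≤ n) (hnN : n ≤ N) (hV : (Vz z)⁻¹ ≤ L) :
    |Ed z (n : ℤ)| ≤ L := by
  rw [Ed_nat z n hn]
  have h1 : 0 ≤ ArithmeticFunction.vonMangoldt n := ArithmeticFunction.vonMangoldt_nonneg
  have h2 : ArithmeticFunction.vonMangoldt n ≤ L := by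
    refine ArithmeticFunction.vonMangoldt_le_log.trans ?_
    rw [hL]
    exact Real.log_le_log (by exact_mod_cast hn) (by exact_mod_cast hnN)
  have h3 := lz_nonneg z (n : ℤ)
  have h4 := (lz_le z (n : ℤ)).trans hV
  rw [abs_le]
  constructor <;> linarith

lemma arith1 (L : ℝ) (hL : 2304 ≤ L) : 9 * (1 + L) * 100 ≤ L ^ 4 := by
  have g1 : 2304 * L ≤ L ^ 2 := by nlinarith
  have g2 : 1 ≤ L ^ 2 := by nlinarith
  have g3 : L ^ 2 ≤ L ^ 4 := by
    calc L ^ 2 = L ^ 2 * 1 := by ring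
      _ ≤ L ^ 2 * L ^ 2 := mul_le_mul_of_nonneg_left g2 (sq_nonneg L)
      _ = L ^ 4 := by ring
  linarith

lemma arith2 (L : ℝ) (hL : 2304 ≤ L) : 100 ≤ L ^ 2 := by nlinarith

lemma arith3 (a d v : ℝ) : (a + d + v) ^ 2 ≤ 3 * (a ^ 2 + d ^ 2 + v ^ 2) := by
  nlinarith [sq_nonneg (a - d), sq_nonneg (a - v), sq_nonneg (d - v)]

lemma arith4 (L : ℝ) (hL : 2304 ≤ L) : 2 * L ^ 2 ≤ L ^ 3 := by
  have : L ^ 3 = L * L ^ 2 := by ring
  rw [this]
  exact mul_le_mul_of_nonneg_right (by linarith) (sq_nonneg L)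

lemma arith5 (L x : ℝ) (hL : 2304 ≤ L) (hx : 1 ≤ x) : x + 1 ≤ x * L := by nlinarith

lemma arith6 (l k : ℝ) (hl : 0 ≤ l) (hk : k ≤ l) : -l ^ 2 + k * l ≤ 0 := by nlinarith

/-- the mean square over all classes to all moduli, worst initial segments -/
lemma msq (hBDH : S_BDH) (hBASE : S_BASE) (hMTC : S_MTC) (hSRT : S_SRT) (A : ℕ) : ∃ B N₀ : ℕ, ∀ N : ℕ, N₀ ≤ N →
    ∀ Q : ℕ, (Q : ℝ) ≤ N * Real.exp (-(B * Real.log (Real.log N) ^ 2)) →
    Q ≤ N ∧ ∃ F : ℕ → ℕ → ℝ, (∀ q r, 0 ≤ F q r) ∧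
      ∑ q ∈ Icc 1 Q, ∑ r ∈ range q, F q r ^ 2 ≤ (N : ℝ) ^ 2 / Real.log N ^ A ∧
      ∀ q ∈ Icc 1 Q, ∀ r, r < q → r.Coprime q → ∀ y ≤ N,
        |∑ n ∈ (Icc 1 y).filter (fun n => n % q = r), ArithmeticFunction.vonMangoldt n - (y : ℝ) / Nat.totient q| ≤
          F q r := by
  obtain ⟨A', B1, N1, hBDH⟩ := hBDH (A + 1) 1
  obtain ⟨E0, hBASE⟩ := hBASE 0 A' 0 A'
  obtain ⟨N2, hBASE⟩ := hBASE (E0 + A + 10 + 1)
  obtain ⟨B2, N3, hM⟩ := hMTC 1 (E0 + A + 10 + 1) (A + 2)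
  obtain ⟨N4, hR⟩ := hSRT 1
  obtain ⟨N5, hV⟩ := Pool.Agent.H373R2.T7.Vz_inv_small (E0 + A + 10 + 1)
  obtain ⟨N6, h6⟩ := evN A B1
  refine ⟨B2 + 1, N1 + N2 + N3 + N4 + N5 + N6, fun N hN Q hQ => ?_⟩
  obtain ⟨hN1, hL, hl⟩ := h6 N (by omega)
  set L := Real.log N with hLdef
  set l := Real.log L with hldef
  have hL0 : 0 < L := by linarith
  have hN0 : (0 : ℝ) < N := by exact_mod_cast hN1
  have hle : Real.exp l = L := Real.exp_log hL0
  -- the level
  set z : ℕ := ⌈L ^ (E0 + A + 10)⌉₊ with hzdef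
  have hz1 : L ^ (E0 + A + 10) ≤ z := Nat.le_ceil _
  have hz2 : (z : ℝ) ≤ L ^ (E0 + A + 10 + 1) := by
    have h1 : (z : ℝ) < L ^ (E0 + A + 10) + 1 := Nat.ceil_lt_add_one (by positivity)
    have h2 : 1 ≤ L ^ (E0 + A + 10) := one_le_pow₀ (by linarith)
    rw [pow_succ]
    exact h1.le.trans (arith5 L _ hL h2)
  have hzE : L ^ E0 ≤ z := (pow_le_pow_right₀ (by linarith) (by omega)).trans hz1
  have hz3 : L ^ 3 ≤ z := (pow_le_pow_right₀ (by linarith) (by omega)).trans hz1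
  have hzA : L ^ (A + 10) ≤ z := (pow_le_pow_right₀ (by linarith) (by omega)).trans hz1
  have hz0 : (0 : ℝ) < z := lt_of_lt_of_le (by positivity) hz3
  have hz1' : 1 ≤ z := by exact_mod_cast hz0
  have hVL : (Vz z)⁻¹ ≤ L := hV N (by omega) z hz1' hz2
  have hV0 : 0 ≤ (Vz z)⁻¹ := inv_nonneg.2 (Pool.Agent.H373R2.T7.Vz_pos z).le
  -- the exponentials
  set X : ℝ := Real.exp (-(((B2 + 1 : ℕ) : ℝ) * l ^ 2)) with hX
  set v : ℝ := Real.exp (B2 * l ^ 2) with hv
  have hXv : X * v = Real.exp (-l ^ 2) := by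
    rw [hX, hv, ← Real.exp_add]
    congr 1
    push_cast
    ring
  have hv1 : 1 ≤ v := Real.one_le_exp (by positivity)
  have hX0 : 0 < X := Real.exp_pos _
  have hXl : X ≤ Real.exp (-l ^ 2) := by
    rw [← hXv]
    exact le_mul_of_one_le_right hX0.le hv1
  have hl0 : 0 ≤ l := by
    have : (0 : ℝ) ≤ A + B1 + 10 := by positivity
    linarith
  have hpow : ∀ k : ℕ, (k : ℝ) ≤ l → Real.exp (-l ^ 2) * L ^ k ≤ 1 := by
    intro k hk
    have e1 : L ^ k = Real.exp (k * l) := by rw [Real.exp_nat_mul, hle]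
    rw [e1, ← Real.exp_add]
    apply Real.exp_le_one_iff.2
    exact arith6 l _ hl0 hk
  have hX1 : X ≤ 1 := by
    have := hpow 0 (by push_cast; exact hl0)
    rw [pow_zero, mul_one] at this
    linarith
  have hQX : (Q : ℝ) ≤ N * X := hQ
  have hQN : Q ≤ N := by
    have : (Q : ℝ) ≤ N := by
      refine hQX.trans ?_
      calc (N : ℝ) * X ≤ N * 1 := mul_le_mul_of_nonneg_left hX1 hN0.le
        _ = N := mul_one _
    exact_mod_cast this
  have hQB : (Q : ℝ) * L ^ B1 ≤ N := by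
    have h1 : X * L ^ B1 ≤ 1 := by
      refine le_trans ?_ (hpow B1 (by have : (0 : ℝ) ≤ A := by positivity
                                      linarith))
      exact mul_le_mul_of_nonneg_right hXl (by positivity)
    calc (Q : ℝ) * L ^ B1 ≤ N * X * L ^ B1 := mul_le_mul_of_nonneg_right hQX (by positivity)
      _ = N * (X * L ^ B1) := by ring
      _ ≤ N * 1 := mul_le_mul_of_nonneg_left h1 hN0.le
      _ = N := mul_one _
  refine ⟨hQN, ?_⟩
  -- worst initial segments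
  have hmax : ∀ q r : ℕ, ∃ t : ℕ, t ≤ N ∧ ∀ t' ≤ N, |EE z q r t'| ≤ |EE z q r t| := by
    intro q r
    obtain ⟨t, ht, h⟩ := exists_max_image (range (N + 1)) (fun t => |EE z q r t|) ⟨0, by simp⟩
    exact ⟨t, by rw [mem_range] at ht; omega, fun t' ht' => h t' (by rw [mem_range]; omega)⟩
  choose ts hts hmax using hmax
  have hvb : ∀ n ∈ Icc 1 N, ‖((Ed z (n : ℤ) : ℝ) : ℂ)‖ ≤ L ^ 1 := by
    intro n hn
    rw [mem_Icc] at hn
    rw [Complex.norm_real, Real.norm_eq_abs, pow_one]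
    exact Ed_le z n N L hLdef hn.1 hn.2 hVL
  have hbase : ∀ y d : ℕ, y ≤ N → 1 ≤ d → (d : ℝ) ≤ L ^ A' → ∀ b : ℤ,
      ‖∑ n ∈ Icc 1 y, ((Ed z (n : ℤ) : ℝ) : ℂ) * ee (n * ((b : ℝ) / d))‖ ≤ (N : ℝ) / L ^ A' := by
    intro y d hy hd hd2 b
    have h := hBASE N (by omega) z hzE hz2 (fun i => i.elim0) (fun i => i.elim0) y d hy hd hd2 b
    simpa using h
  have hG := hBDH N (by omega) Q hQB (fun n => ((Ed z (n : ℤ) : ℝ) : ℂ)) hvb hbase ts hts
  have hG' : ∑ q ∈ Icc 1 Q, ∑ r ∈ range q, EE z q r (ts q r) ^ 2 ≤ (N : ℝ) ^ 2 / L ^ (A + 1) := by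
    refine le_trans (le_of_eq ?_) hG
    apply sum_congr rfl
    intro q _
    apply sum_congr rfl
    intro r _
    rw [← Complex.ofReal_sum, Complex.norm_real, Real.norm_eq_abs, sq_abs]
    rfl
  set u : ℝ := (N : ℝ) / L ^ (A + 2) + 2 * N * L ^ 3 / z with hu
  have hu0 : 0 ≤ u := by positivity
  refine ⟨fun q r => |EE z q r (ts q r)| + u / q + v, fun q r => by positivity, ?_, ?_⟩
  · -- the sum of the squares
    have h1 : ∑ q ∈ Icc 1 Q, ∑ r ∈ range q, (|EE z q r (ts q r)| + u / q + v) ^ 2 ≤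
        ∑ q ∈ Icc 1 Q, ∑ r ∈ range q, 3 * (EE z q r (ts q r) ^ 2 + (u / q) ^ 2 + v ^ 2) := by
      apply sum_le_sum
      intro q _
      apply sum_le_sum
      intro r _
      rw [← sq_abs (EE z q r (ts q r))]
      exact arith3 _ _ _
    refine h1.trans ?_
    have h2 : ∑ q ∈ Icc 1 Q, ∑ r ∈ range q, 3 * (EE z q r (ts q r) ^ 2 + (u / q) ^ 2 + v ^ 2) =
        3 * (∑ q ∈ Icc 1 Q, ∑ r ∈ range q, EE z q r (ts q r) ^ 2 +
          ∑ q ∈ Icc 1 Q, (q : ℝ) * (u / q) ^ 2 + ∑ q ∈ Icc 1 Q, (q : ℝ) * v ^ 2) := by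
      rw [← sum_add_distrib, ← sum_add_distrib, mul_sum]
      apply sum_congr rfl
      intro q _
      rw [← mul_sum, sum_add_distrib, sum_add_distrib, sum_const, sum_const, card_range, nsmul_eq_mul, nsmul_eq_mul]
    rw [h2]
    have a3 : ∑ q ∈ Icc 1 Q, (q : ℝ) * (u / q) ^ 2 ≤ u ^ 2 * (1 + L) := by
      calc ∑ q ∈ Icc 1 Q, (q : ℝ) * (u / q) ^ 2 = ∑ q ∈ Icc 1 Q, u ^ 2 * (1 / (q : ℝ)) := by
            apply sum_congr rfl
            intro q hq
            have : (q : ℝ) ≠ 0 := by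
              have := (mem_Icc.1 hq).1
              positivity
            field_simp
        _ = u ^ 2 * ∑ q ∈ Icc 1 Q, (1 / (q : ℝ)) := by rw [mul_sum]
        _ ≤ _ := mul_le_mul_of_nonneg_left (sum_inv_le Q N hQN) (by positivity)
    have a4 : ∑ q ∈ Icc 1 Q, (q : ℝ) * v ^ 2 ≤ (Q * v) ^ 2 := by
      calc ∑ q ∈ Icc 1 Q, (q : ℝ) * v ^ 2 ≤ ∑ q ∈ Icc 1 Q, (Q : ℝ) * v ^ 2 := by
            apply sum_le_sum
            intro q hq
            have : (q : ℝ) ≤ Q := by exact_mod_cast (mem_Icc.1 hq).2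
            exact mul_le_mul_of_nonneg_right this (by positivity)
        _ = _ := by rw [sum_const, Nat.card_Icc, nsmul_eq_mul, Nat.add_sub_cancel]; ring
    -- the three terms, in units of `Y = N ^ 2 / L ^ A`
    set Y : ℝ := (N : ℝ) ^ 2 / L ^ A with hY
    have hY0 : 0 ≤ Y := by positivity
    have b1 : (N : ℝ) ^ 2 / L ^ (A + 1) ≤ Y / 100 := by
      have e : (N : ℝ) ^ 2 / L ^ (A + 1) = Y * (1 / L) := by
        rw [hY, pow_succ (L) A, one_div, ← div_eq_mul_inv, div_div]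
      have h : 1 / L ≤ 1 / 100 := one_div_le_one_div_of_le (by norm_num) (by linarith)
      rw [e]
      calc Y * (1 / L) ≤ Y * (1 / 100) := mul_le_mul_of_nonneg_left h hY0
        _ = Y / 100 := by ring
    have hLA : 1 ≤ L ^ A := one_le_pow₀ (by linarith)
    have hu3 : u ≤ 3 * N / L ^ (A + 2) := by
      have h3 : 2 * N * L ^ 3 / z ≤ 2 * N / L ^ (A + 2) := by
        rw [div_le_div_iff₀ hz0 (by positivity)]
        have e1 : L ^ 3 * L ^ (A + 2) ≤ z := by
          rw [← pow_add]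
          exact (pow_le_pow_right₀ (by linarith) (by omega)).trans hzA
        calc 2 * (N : ℝ) * L ^ 3 * L ^ (A + 2) = 2 * N * (L ^ 3 * L ^ (A + 2)) := by ring
          _ ≤ 2 * (N : ℝ) * (z : ℝ) := mul_le_mul_of_nonneg_left e1 (by positivity)
      calc u ≤ (N : ℝ) / L ^ (A + 2) + 2 * N / L ^ (A + 2) := by rw [hu]; linarith
        _ = 3 * N / L ^ (A + 2) := by ring
    have b2 : u ^ 2 * (1 + L) ≤ Y / 100 := by
      have e1 : u ^ 2 ≤ (3 * N / L ^ (A + 2)) ^ 2 := pow_le_pow_left₀ hu0 hu3 2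
      have e2 : (3 * N / L ^ (A + 2)) ^ 2 = Y * (9 / (L ^ A * L ^ 4)) := by
        rw [hY]
        field_simp
        ring
      have e3 : 9 / (L ^ A * L ^ 4) * (1 + L) ≤ 1 / 100 := by
        rw [div_mul_eq_mul_div, div_le_div_iff₀ (by positivity) (by norm_num)]
        have f1 : L ^ 4 ≤ L ^ A * L ^ 4 := le_mul_of_one_le_left (by positivity) hLA
        have f2 := arith1 L hL
        linarith
      calc u ^ 2 * (1 + L) ≤ Y * (9 / (L ^ A * L ^ 4)) * (1 + L) := by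
            rw [← e2]
            exact mul_le_mul_of_nonneg_right e1 (by linarith)
        _ = Y * (9 / (L ^ A * L ^ 4) * (1 + L)) := by ring
        _ ≤ Y * (1 / 100) := mul_le_mul_of_nonneg_left e3 hY0
        _ = Y / 100 := by ring
    have b3 : (Q * v) ^ 2 ≤ Y / 100 := by
      have e1 : Real.exp (-l ^ 2) * L ^ (A + 1) ≤ 1 := by
        apply hpow
        have : (0 : ℝ) ≤ B1 := by positivity
        push_cast
        linarith
      have e2 : (Q : ℝ) * v ≤ N / L ^ (A + 1) := by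
        rw [le_div_iff₀ (by positivity)]
        calc (Q : ℝ) * v * L ^ (A + 1) ≤ N * X * v * L ^ (A + 1) := by
              apply mul_le_mul_of_nonneg_right _ (by positivity)
              exact mul_le_mul_of_nonneg_right hQX (by positivity)
          _ = N * (Real.exp (-l ^ 2) * L ^ (A + 1)) := by rw [← hXv]; ring
          _ ≤ N * 1 := mul_le_mul_of_nonneg_left e1 hN0.le
          _ = N := mul_one _
      have e3 : ((Q : ℝ) * v) ^ 2 ≤ (N / L ^ (A + 1)) ^ 2 := pow_le_pow_left₀ (by positivity) e2 2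
      have e4 : ((N : ℝ) / L ^ (A + 1)) ^ 2 = Y * (1 / (L ^ A * L ^ 2)) := by
        rw [hY]
        field_simp
        ring
      have e5 : 1 / (L ^ A * L ^ 2) ≤ 1 / 100 := by
        apply one_div_le_one_div_of_le (by norm_num)
        have f1 : L ^ 2 ≤ L ^ A * L ^ 2 := le_mul_of_one_le_left (by positivity) hLA
        have f2 := arith2 L hL
        linarith
      rw [e4] at e3
      refine e3.trans ?_
      calc Y * (1 / (L ^ A * L ^ 2)) ≤ Y * (1 / 100) := mul_le_mul_of_nonneg_left e5 hY0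
        _ = Y / 100 := by ring
    linarith
  · -- the pointwise bound
    intro q hq r hr hcop y hy
    rw [mem_Icc] at hq
    have hq0 : (0 : ℝ) < q := by exact_mod_cast hq.1
    have hσ : ∀ i, s1 i = 1 ∨ s1 i = -1 := fun i => Or.inl rfl
    have hgcd : ∀ i, Int.gcd (s1 i * r + h1 i) q = 1 := by
      intro i
      simp only [s1, h1, one_mul, add_zero]
      rw [Int.gcd_natCast_natCast]
      exact hcop
    obtain ⟨_, hp0, hgs⟩ := hR N (by omega) s1 h1 hσ (by intro i; simp [h1])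
      (by intro i j hij; exact absurd (Subsingleton.elim i j) hij) z hz3 q r hq.1 (by omega) hgcd
    rw [phf1] at hp0
    rw [sers1, phf1, one_mul] at hgs
    have hp0' : (0 : ℝ) < (Nat.totient q : ℝ) := by exact_mod_cast hp0
    set g := gz z s1 h1 q r with hg
    set c : ℝ := (q : ℝ) / (Nat.totient q : ℝ) with hc
    have hc0 : 0 ≤ c := by positivity
    have hz2L : L ^ 2 / z ≤ 1 / 2 := by
      rw [div_le_iff₀ hz0]
      have := arith4 L hL
      linarith
    have hg2 : g ≤ L := by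
      refine (gz_le z s1 h1 q r).trans ?_
      rw [pow_one]
      exact hVL
    have hs2 : c ≤ 2 * L := by
      have h1 : c * (L ^ 2 / z) ≤ c * (1 / 2) := mul_le_mul_of_nonneg_left hz2L hc0
      have h2 := (abs_le.1 hgs).1
      linarith
    have hgs2 : |g - c| ≤ 2 * L * (L ^ 2 / z) :=
      hgs.trans (mul_le_mul_of_nonneg_right hs2 (by positivity))
    have hm := hM N (by omega) z hz1' hz2 s1 h1 hσ q r y hq.1 hy
    rw [Nat.mod_eq_of_lt hr] at hm
    have hprod : ∑ n ∈ (Icc 1 y).filter (fun n => n % q = r), ∏ i, lz z (s1 i * n + h1 i) =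
        ∑ n ∈ (Icc 1 y).filter (fun n => n % q = r), lz z (n : ℤ) := by
      apply sum_congr rfl
      intro n _
      simp [s1, h1]
    rw [hprod] at hm
    have hEE : EE z q r y = ∑ n ∈ (Icc 1 y).filter (fun n => n % q = r), ArithmeticFunction.vonMangoldt n -
        ∑ n ∈ (Icc 1 y).filter (fun n => n % q = r), lz z (n : ℤ) := by
      unfold EE
      rw [← sum_sub_distrib]
      apply sum_congr rfl
      intro n hn
      rw [mem_filter, mem_Icc] at hn
      exact Ed_nat z n hn.1.1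
    have h3 : |(y : ℝ) / q * g - y / (Nat.totient q : ℝ)| ≤ (2 * N * L ^ 3 / z) / q := by
      have e : (y : ℝ) / q * g - y / (Nat.totient q : ℝ) = (y : ℝ) / q * (g - c) := by
        rw [hc]
        field_simp
      rw [e, abs_mul, abs_of_nonneg (by positivity)]
      have htN : (y : ℝ) ≤ N := by exact_mod_cast hy
      calc (y : ℝ) / q * |g - c| ≤ N / q * (2 * L * (L ^ 2 / z)) :=
            mul_le_mul (div_le_div_of_nonneg_right htN hq0.le) hgs2 (abs_nonneg _) (by positivity)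
        _ = (2 * N * L ^ 3 / z) / q := by
            field_simp
    have h4 := hmax q r y hy
    have e5 : ∑ n ∈ (Icc 1 y).filter (fun n => n % q = r), ArithmeticFunction.vonMangoldt n -
        (y : ℝ) / Nat.totient q = EE z q r y + (∑ n ∈ (Icc 1 y).filter (fun n => n % q = r), lz z (n : ℤ) -
          (y : ℝ) / q * g) + ((y : ℝ) / q * g - y / (Nat.totient q : ℝ)) := by
      rw [hEE]
      ring
    rw [e5]
    have h5 := abs_add_le (EE z q r y + (∑ n ∈ (Icc 1 y).filter (fun n => n % q = r), lz z (n : ℤ) -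
          (y : ℝ) / q * g)) ((y : ℝ) / q * g - y / (Nat.totient q : ℝ))
    have h6 := abs_add_le (EE z q r y) (∑ n ∈ (Icc 1 y).filter (fun n => n % q = r), lz z (n : ℤ) -
          (y : ℝ) / q * g)
    have e6 : u / q = (N : ℝ) / q / L ^ (A + 2) + (2 * N * L ^ 3 / z) / q := by
      rw [hu]
      field_simp
    show _ ≤ |EE z q r (ts q r)| + u / q + v
    rw [e6]
    linarith

/-- the moduli `q ≤ R` -/
lemma partA (N R M Q : ℕ) (Y : ℝ) (F : ℕ → ℕ → ℝ) (hF0 : ∀ q r, 0 ≤ F q r) (hY : 0 ≤ Y)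
    (hF2 : ∑ q ∈ Icc 1 Q, ∑ r ∈ range q, F q r ^ 2 ≤ Y) (hQN : Q ≤ N)
    (T : ℕ → ℕ → ℝ) (hT : ∀ q ∈ Icc 1 Q, ∀ a : ℕ, a.Coprime q → T q a ≤ F q (a % q)) :
    ∑ a ∈ Ioc M (M + R), ∑ q ∈ (Icc 1 Q).filter (fun q => a.Coprime q ∧ q ≤ R), T q a ≤
      2 * R * Real.sqrt ((1 + Real.log N) * Y) := by
  have s1 : ∑ a ∈ Ioc M (M + R), ∑ q ∈ (Icc 1 Q).filter (fun q => a.Coprime q ∧ q ≤ R), T q a ≤
      ∑ a ∈ Ioc M (M + R), ∑ q ∈ (Icc 1 Q).filter (fun q => q ≤ R), F q (a % q) := by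
    apply sum_le_sum
    intro a _
    calc ∑ q ∈ (Icc 1 Q).filter (fun q => a.Coprime q ∧ q ≤ R), T q a ≤
          ∑ q ∈ (Icc 1 Q).filter (fun q => a.Coprime q ∧ q ≤ R), F q (a % q) := by
            apply sum_le_sum
            intro q hq
            rw [mem_filter] at hq
            exact hT q hq.1 a hq.2.1
      _ ≤ _ := by
            apply sum_le_sum_of_subset_of_nonneg
            · intro q hq
              rw [mem_filter] at hq ⊢
              exact ⟨hq.1, hq.2.2⟩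
            · intro q _ _
              exact hF0 _ _
  have s3 : ∀ q ∈ (Icc 1 Q).filter (fun q => q ≤ R), ∑ a ∈ Ioc M (M + R), F q (a % q) ≤
      ∑ r ∈ range q, (2 * R) * (1 / (q : ℝ) * F q r) := by
    intro q hq
    rw [mem_filter, mem_Icc] at hq
    obtain ⟨⟨hq1, hqQ⟩, hqR⟩ := hq
    have hq0 : (0 : ℝ) < q := by exact_mod_cast hq1
    have hmap : ∀ a ∈ Ioc M (M + R), a % q ∈ range q := fun a _ => mem_range.2 (Nat.mod_lt _ (by omega))
    rw [← sum_fiberwise_of_maps_to hmap]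
    apply sum_le_sum
    intro r hr
    rw [mem_range] at hr
    have e1 : ∑ a ∈ (Ioc M (M + R)).filter (fun a => a % q = r), F q (a % q) =
        (((Ioc M (M + R)).filter (fun a => a % q = r)).card : ℝ) * F q r := by
      rw [← nsmul_eq_mul, ← sum_const]
      apply sum_congr rfl
      intro a ha
      rw [mem_filter] at ha
      rw [ha.2]
    rw [e1]
    have e2 := cnt M (M + R) q r (by omega) hq1 hr
    have e3 : ((M + R : ℕ) : ℝ) - M = R := by push_cast; ring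
    rw [e3] at e2
    have e4 : (1 : ℝ) ≤ R / q := by
      rw [le_div_iff₀ hq0, one_mul]
      exact_mod_cast hqR
    calc (((Ioc M (M + R)).filter (fun a => a % q = r)).card : ℝ) * F q r ≤ (2 * (R / q)) * F q r :=
          mul_le_mul_of_nonneg_right (by linarith) (hF0 _ _)
      _ = (2 * R) * (1 / (q : ℝ) * F q r) := by ring
  have s4 : ∑ a ∈ Ioc M (M + R), ∑ q ∈ (Icc 1 Q).filter (fun q => q ≤ R), F q (a % q) ≤
      2 * R * ∑ q ∈ Icc 1 Q, ∑ r ∈ range q, 1 / (q : ℝ) * F q r := by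
    rw [sum_comm]
    refine (sum_le_sum s3).trans ?_
    rw [mul_sum]
    refine (sum_le_sum_of_subset_of_nonneg (filter_subset _ _) ?_).trans (le_of_eq ?_)
    · intro q _ _
      exact sum_nonneg fun r _ => mul_nonneg (by positivity) (mul_nonneg (by positivity) (hF0 _ _))
    · apply sum_congr rfl
      intro q _
      rw [mul_sum]
  have s5 : ∑ q ∈ Icc 1 Q, ∑ r ∈ range q, 1 / (q : ℝ) * F q r ≤ Real.sqrt ((1 + Real.log N) * Y) := by
    apply Real.le_sqrt_of_sq_le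
    have c1 := sum_mul_sq_le_sq_mul_sq ((Icc 1 Q).sigma (fun q => range q)) (fun x => 1 / (x.1 : ℝ)) (fun x => F x.1 x.2)
    rw [sum_sigma, sum_sigma, sum_sigma] at c1
    simp only at c1
    have c2 : ∑ q ∈ Icc 1 Q, ∑ r ∈ range q, (1 / (q : ℝ)) ^ 2 ≤ 1 + Real.log N := by
      refine le_trans (le_of_eq ?_) (sum_inv_le Q N hQN)
      apply sum_congr rfl
      intro q hq
      rw [mem_Icc] at hq
      have hq0 : (q : ℝ) ≠ 0 := by
        have := hq.1
        positivity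
      rw [sum_const, card_range, nsmul_eq_mul]
      field_simp
    refine c1.trans ?_
    have c3 : 0 ≤ ∑ q ∈ Icc 1 Q, ∑ r ∈ range q, F q r ^ 2 :=
      sum_nonneg fun q _ => sum_nonneg fun r _ => sq_nonneg _
    have c4 : 0 ≤ ∑ q ∈ Icc 1 Q, ∑ r ∈ range q, (1 / (q : ℝ)) ^ 2 :=
      sum_nonneg fun q _ => sum_nonneg fun r _ => sq_nonneg _
    exact mul_le_mul c2 hF2 c3 (c4.trans c2)
  exact s1.trans (s4.trans (mul_le_mul_of_nonneg_left s5 (by positivity)))

lemma exj (R q : ℕ) (hR : 1 ≤ R) (hq : R < q) : ∃ j, 2 ^ j * R < q ∧ q ≤ 2 * (2 ^ j * R) := by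
  have hex : ∃ j, q ≤ 2 ^ j * R := by
    refine ⟨q, ?_⟩
    have h1 : q < 2 ^ q := Nat.lt_two_pow_self
    calc q ≤ 2 ^ q * 1 := by omega
      _ ≤ 2 ^ q * R := Nat.mul_le_mul_left _ hR
  have h1 := Nat.find_spec hex
  have h2 := fun m (hm : m < Nat.find hex) => Nat.find_min hex hm
  rcases Nat.eq_zero_or_pos (Nat.find hex) with h0 | h0
  · rw [h0, pow_zero, one_mul] at h1
    omega
  · obtain ⟨k, hk⟩ : ∃ k, Nat.find hex = k + 1 := ⟨Nat.find hex - 1, by omega⟩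
    refine ⟨k, ?_, ?_⟩
    · have := h2 k (by omega)
      omega
    · rw [hk, pow_succ] at h1
      calc q ≤ 2 ^ k * 2 * R := h1
        _ = 2 * (2 ^ k * R) := by ring

lemma log_two (N : ℕ) (hN : 1 ≤ N) (hL : 2304 ≤ Real.log N) : ((Nat.log 2 N + 1 : ℕ) : ℝ) ≤ 2 * Real.log N := by
  have h1 : 2 ^ Nat.log 2 N ≤ N := Nat.pow_log_le_self 2 (by omega)
  have h2 : ((2 : ℝ) ^ Nat.log 2 N) ≤ N := by exact_mod_cast h1
  have h3 : (Nat.log 2 N : ℝ) * Real.log 2 ≤ Real.log N := by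
    rw [← Real.log_pow]
    exact Real.log_le_log (by positivity) h2
  have h4 := Real.log_two_gt_d9
  have h5 : (0 : ℝ) ≤ (Nat.log 2 N : ℝ) := by positivity
  push_cast
  nlinarith

theorem main : S_DYB → S_BDH → S_BASE → S_MTC → S_SRT → S_R22 := by
  intro hD hBDH hBASE hM hR e A he
  classical
  obtain ⟨B5, N5, hD⟩ := hD e (A + 2) he
  obtain ⟨B6, N6, hF⟩ := msq hBDH hBASE hM hR (2 * A + 4)
  obtain ⟨N7, h7⟩ := evN 0 0
  refine ⟨B5 + B6 + 1, N5 + N6 + N7, fun N hN R M Q hR1 hRN hMN hQ y hy => ?_⟩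
  obtain ⟨hN1, hL, hl⟩ := h7 N (by omega)
  set L := Real.log N with hLdef
  set l := Real.log L with hldef
  have hL0 : 0 < L := by linarith
  have hN0 : (0 : ℝ) < N := by exact_mod_cast hN1
  have hmon : ∀ B' : ℕ, B' ≤ B5 + B6 + 1 → (Q : ℝ) ≤ N * Real.exp (-(B' * l ^ 2)) := by
    intro B' hB'
    refine hQ.trans (mul_le_mul_of_nonneg_left (Real.exp_le_exp.2 ?_) hN0.le)
    have : (B' : ℝ) ≤ ((B5 + B6 + 1 : ℕ) : ℝ) := by exact_mod_cast hB'
    nlinarith [sq_nonneg l]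
  obtain ⟨hQN, F, hF0, hF2, hF3⟩ := hF N (by omega) Q (hmon B6 (by omega))
  have hRpos : 1 ≤ R := by
    have h1 : (1 : ℝ) ≤ (N : ℝ) ^ (1 / 3 + 1 / e : ℝ) := Real.one_le_rpow (by exact_mod_cast hN1) (by positivity)
    exact_mod_cast h1.trans hR1
  have hR0 : (0 : ℝ) < R := by exact_mod_cast hRpos
  set T : ℕ → ℕ → ℝ := fun q a => |∑ n ∈ (Icc 1 (y q a)).filter (fun n => n ≡ a [MOD q]), ArithmeticFunction.vonMangoldt n -
      (y q a : ℝ) / Nat.totient q| with hT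
  have hT0 : ∀ q a, 0 ≤ T q a := fun q a => abs_nonneg _
  set Z : ℝ := (R : ℝ) * N / L ^ A with hZ
  have hZ0 : 0 ≤ Z := by positivity
  -- the moduli `q ≤ R`
  have ha : ∑ a ∈ Ioc M (M + R), ∑ q ∈ (Icc 1 Q).filter (fun q => a.Coprime q ∧ q ≤ R), T q a ≤ Z / 2 := by
    have hTF : ∀ q ∈ Icc 1 Q, ∀ a : ℕ, a.Coprime q → T q a ≤ F q (a % q) := by
      intro q hq a haq
      have hq1 : 1 ≤ q := (mem_Icc.1 hq).1
      have h := hF3 q hq (a % q) (Nat.mod_lt _ (by omega)) (by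
        show Nat.gcd (a % q) q = 1
        rw [← Nat.gcd_rec, Nat.gcd_comm]
        exact haq) (y q a) (hy q a)
      exact h
    refine (partA N R M Q _ F hF0 (by positivity) hF2 hQN T hTF).trans ?_
    rw [← hLdef]
    have h1 : Real.sqrt ((1 + L) * ((N : ℝ) ^ 2 / L ^ (2 * A + 4))) ≤ N / (4 * L ^ A) := by
      apply Real.sqrt_le_iff.2
      refine ⟨by positivity, ?_⟩
      have e1 : ((N : ℝ) / (4 * L ^ A)) ^ 2 = N ^ 2 / L ^ (2 * A) * (1 / 16) := by
        rw [div_pow, mul_pow, ← pow_mul, mul_comm A 2]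
        field_simp
        norm_num
      have e2 : (1 + L) * ((N : ℝ) ^ 2 / L ^ (2 * A + 4)) = N ^ 2 / L ^ (2 * A) * ((1 + L) / L ^ 4) := by
        rw [pow_add]
        field_simp
      rw [e1, e2]
      apply mul_le_mul_of_nonneg_left _ (by positivity)
      rw [div_le_div_iff₀ (by positivity) (by norm_num)]
      have f2 := arith1 L hL
      linarith
    calc 2 * (R : ℝ) * Real.sqrt ((1 + L) * ((N : ℝ) ^ 2 / L ^ (2 * A + 4))) ≤ 2 * R * (N / (4 * L ^ A)) :=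
          mul_le_mul_of_nonneg_left h1 (by positivity)
      _ = Z / 2 := by
          rw [hZ]
          field_simp
          ring
  -- the moduli `q > R`
  have hb : ∑ a ∈ Ioc M (M + R), ∑ q ∈ (Icc 1 Q).filter
      (fun q => a.Coprime q ∧ R < q ∧ (N : ℝ) * L ^ (B5 + B6 + 1) ≤ (q : ℝ) * R), T q a ≤ Z / 2 := by
    set J : ℕ := Nat.log 2 N + 1 with hJ
    have hJL : (J : ℝ) ≤ 2 * L := log_two N hN1 hL
    set Act : Finset ℕ := (range J).filter (fun j => 2 ^ j * R < Q ∧ (N : ℝ) * L ^ B5 ≤ ((2 ^ j * R : ℕ) : ℝ) * R) with hAct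
    have hjex : ∀ q : ℕ, ∃ j : ℕ, R < q → 2 ^ j * R < q ∧ q ≤ 2 * (2 ^ j * R) := by
      intro q
      by_cases h : R < q
      · obtain ⟨j, hj⟩ := exj R q hRpos h
        exact ⟨j, fun _ => hj⟩
      · exact ⟨0, fun h' => absurd h' h⟩
    choose jf hjf using hjex
    have hblock : ∀ a ∈ Ioc M (M + R), ∑ q ∈ (Icc 1 Q).filter
        (fun q => a.Coprime q ∧ R < q ∧ (N : ℝ) * L ^ (B5 + B6 + 1) ≤ (q : ℝ) * R), T q a ≤
        ∑ j ∈ Act, ∑ q ∈ (Ioc (2 ^ j * R) (2 * (2 ^ j * R))).filter (fun q => a.Coprime q), T q a := by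
      intro a _
      have hmap : ∀ q ∈ (Icc 1 Q).filter (fun q => a.Coprime q ∧ R < q ∧ (N : ℝ) * L ^ (B5 + B6 + 1) ≤ (q : ℝ) * R),
          jf q ∈ Act := by
        intro q hq
        rw [mem_filter, mem_Icc] at hq
        obtain ⟨⟨hq1, hqQ⟩, hqa, hqR, hqN⟩ := hq
        obtain ⟨k1, k2⟩ := hjf q hqR
        rw [hAct, mem_filter, mem_range]
        refine ⟨?_, by omega, ?_⟩
        · have h1 : 2 ^ jf q ≤ N := by
            calc 2 ^ jf q ≤ 2 ^ jf q * R := Nat.le_mul_of_pos_right _ hRpos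
              _ ≤ N := by omega
          have := Nat.le_log_of_pow_le (by norm_num) h1
          omega
        · have k3 : (q : ℝ) ≤ 2 * ((2 ^ jf q * R : ℕ) : ℝ) := by exact_mod_cast k2
          have k4 : 2 * L ^ B5 ≤ L ^ (B5 + B6 + 1) := by
            have : L ^ (B5 + B6 + 1) = L ^ B5 * (L ^ B6 * L) := by ring
            rw [this]
            have h1 : 1 ≤ L ^ B6 := one_le_pow₀ (by linarith)
            have h2 : 2 ≤ L ^ B6 * L := by nlinarith
            have h3 : 0 < L ^ B5 := by positivity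
            nlinarith
          have k5 : (q : ℝ) * R ≤ 2 * ((2 ^ jf q * R : ℕ) : ℝ) * R := mul_le_mul_of_nonneg_right k3 hR0.le
          have k6 : (N : ℝ) * (2 * L ^ B5) ≤ N * L ^ (B5 + B6 + 1) := mul_le_mul_of_nonneg_left k4 hN0.le
          linarith
      rw [← sum_fiberwise_of_maps_to hmap]
      apply sum_le_sum
      intro j _
      apply sum_le_sum_of_subset_of_nonneg
      · intro q hq
        rw [mem_filter, mem_filter, mem_Icc] at hq
        obtain ⟨⟨⟨hq1, hqQ⟩, hqa, hqR, hqN⟩, hqj⟩ := hq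
        obtain ⟨k1, k2⟩ := hjf q hqR
        rw [hqj] at k1 k2
        rw [mem_filter, mem_Ioc]
        exact ⟨⟨k1, k2⟩, hqa⟩
      · intro q _ _
        exact hT0 _ _
    refine (sum_le_sum hblock).trans ?_
    rw [sum_comm]
    have hone : ∀ j ∈ Act, ∑ a ∈ Ioc M (M + R), ∑ q ∈ (Ioc (2 ^ j * R) (2 * (2 ^ j * R))).filter (fun q => a.Coprime q),
        T q a ≤ (R : ℝ) * N / L ^ (A + 2) := by
      intro j hj
      rw [hAct, mem_filter, mem_range] at hj
      obtain ⟨_, hj1, hj2⟩ := hj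
      refine hD N (by omega) R M (2 ^ j * R) hR1 hMN (Nat.le_mul_of_pos_left _ (by positivity)) hj2 ?_ y hy
      refine le_trans ?_ (hmon B5 (by omega))
      exact_mod_cast hj1.le
    refine (sum_le_sum hone).trans ?_
    rw [sum_const, nsmul_eq_mul]
    have hcard : (Act.card : ℝ) ≤ 2 * L := by
      refine le_trans ?_ hJL
      have : Act.card ≤ J := (card_filter_le _ _).trans (by rw [card_range])
      exact_mod_cast this
    calc (Act.card : ℝ) * ((R : ℝ) * N / L ^ (A + 2)) ≤ 2 * L * ((R : ℝ) * N / L ^ (A + 2)) :=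
          mul_le_mul_of_nonneg_right hcard (by positivity)
      _ = Z * (2 / L) := by
          rw [hZ, pow_add]
          field_simp
      _ ≤ Z * (1 / 2) := by
          apply mul_le_mul_of_nonneg_left _ hZ0
          rw [div_le_div_iff₀ hL0 (by norm_num)]
          linarith
      _ = Z / 2 := by ring
  -- together
  have hab : ∑ a ∈ Ioc M (M + R), ∑ q ∈ (Icc 1 Q).filter
      (fun q => a.Coprime q ∧ (q ≤ R ∨ (N : ℝ) * L ^ (B5 + B6 + 1) ≤ (q : ℝ) * R)), T q a ≤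
      ∑ a ∈ Ioc M (M + R), ∑ q ∈ (Icc 1 Q).filter (fun q => a.Coprime q ∧ q ≤ R), T q a +
      ∑ a ∈ Ioc M (M + R), ∑ q ∈ (Icc 1 Q).filter
        (fun q => a.Coprime q ∧ R < q ∧ (N : ℝ) * L ^ (B5 + B6 + 1) ≤ (q : ℝ) * R), T q a := by
    rw [← sum_add_distrib]
    apply sum_le_sum
    intro a _
    rw [sum_filter, sum_filter, sum_filter, ← sum_add_distrib]
    apply sum_le_sum
    intro q _
    have h0 := hT0 q a
    by_cases c1 : a.Coprime q
    · by_cases c2 : q ≤ R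
      · by_cases c3 : (N : ℝ) * L ^ (B5 + B6 + 1) ≤ (q : ℝ) * R
        · rw [if_pos ⟨c1, Or.inl c2⟩, if_pos ⟨c1, c2⟩, if_neg (fun h => absurd h.2.1 (by omega))]
          linarith
        · rw [if_pos ⟨c1, Or.inl c2⟩, if_pos ⟨c1, c2⟩, if_neg (fun h => absurd h.2.1 (by omega))]
          linarith
      · by_cases c3 : (N : ℝ) * L ^ (B5 + B6 + 1) ≤ (q : ℝ) * R
        · rw [if_pos ⟨c1, Or.inr c3⟩, if_neg (fun h => c2 h.2), if_pos ⟨c1, by omega, c3⟩]
          linarith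
        · rw [if_neg (fun h => h.2.elim c2 c3), if_neg (fun h => c2 h.2), if_neg (fun h => c3 h.2.2)]
          linarith
    · rw [if_neg (fun h => c1 h.1), if_neg (fun h => c1 h.1), if_neg (fun h => c1 h.1)]
      linarith
  have hfin : ∑ a ∈ Ioc M (M + R), ∑ q ∈ (Icc 1 Q).filter
      (fun q => a.Coprime q ∧ (q ≤ R ∨ (N : ℝ) * L ^ (B5 + B6 + 1) ≤ (q : ℝ) * R)), T q a ≤ Z := by linarith
  convert hfin using 4

end Pool.Agent.helper24_UT.R22
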