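import Pool.Agent.helper24_UT.Stm18
import Pool.Agent.helper24_UT.Ut3

set_option autoImplicit false

namespace Pool.Agent.helper24_UT.Ut6

open Finset
open Pool.Agent.helper24_UT
open Pool.Agent.H373R2.T7 (lamI lamzI lamz Vz pz)
open Pool.Agent.helper24_UT.Ut3 (NN_nonneg NN_le NN_congr NN_zero sum_Ico_cast M_bound pairs expand logpow
  loglarge numeric cmp Ed_zero Ed_bound)

lemma neg_emod {q r : ℕ} (hr : r < q) {m : ℤ} (h : m % (q : ℤ) = (r : ℤ)) :
    (-m) % (q : ℤ) = (((q - r) % q : ℕ) : ℤ) := by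
  have h1 : -m = ((q - r : ℕ) : ℤ) + (q : ℤ) * (-(m / q) - 1) := by
    have h2 := Int.emod_add_mul_ediv m q
    rw [h] at h2
    rw [Nat.cast_sub hr.le]
    linarith
  rw [h1, Int.add_mul_emod_self_left]
  norm_cast

lemma inv_mod {q r : ℕ} (hr : r < q) : (q - (q - r) % q) % q = r := by
  rcases Nat.eq_zero_or_pos r with h0 | h0
  · subst h0
    simp
  · rw [Nat.mod_eq_of_lt (by omega : q - r < q)]
    have : q - (q - r) = r := by omega
    rw [this, Nat.mod_eq_of_lt hr]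

/-- reflection of a window -/
lemma NN_refl (a : ℤ → ℝ) (u : ℤ) (W q : ℕ) (hq : 1 ≤ q) :
    NN (fun m => a (-m)) u W q = NN a (-u - W - 1) W q := by
  unfold NN
  apply sum_nbij' (fun r => (q - r) % q) (fun r => (q - r) % q)
  · intro r _
    rw [mem_range]
    exact Nat.mod_lt _ (by omega)
  · intro r _
    rw [mem_range]
    exact Nat.mod_lt _ (by omega)
  · intro r hr
    exact inv_mod (mem_range.1 hr)
  · intro r hr
    exact inv_mod (mem_range.1 hr)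
  · intro r hr
    rw [mem_range] at hr
    congr 1
    apply sum_nbij' (fun m => -m) (fun m => -m)
    · intro m hm
      rw [mem_filter, mem_Ioc] at hm ⊢
      refine ⟨⟨by omega, by omega⟩, ?_⟩
      exact neg_emod hr hm.2
    · intro m hm
      rw [mem_filter, mem_Ioc] at hm ⊢
      refine ⟨⟨by omega, by omega⟩, ?_⟩
      rw [neg_emod (Nat.mod_lt _ (by omega)) hm.2, inv_mod hr]
    · intro m _
      exact neg_neg m
    · intro m _
      exact neg_neg m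
    · intro m _
      rfl

/-- the sum over the windows of the reflected function -/
lemma M_refl (X W d : ℕ) (a : ℤ → ℝ) (ha0 : ∀ m : ℤ, m ≤ 0 → a m = 0) (hW : W ≤ X) (hd : 1 ≤ d) :
    ∑ u ∈ Icc (-(X : ℤ)) X, NN (fun m => a (-m)) u W d ≤ ∑ u ∈ Icc (-(X : ℤ)) X, NN a u W d := by
  have h1 : ∑ u ∈ Icc (-(X : ℤ)) X, NN (fun m => a (-m)) u W d =
      ∑ v ∈ (Icc (-(X : ℤ)) X).image (fun u : ℤ => -u - W - 1), NN a v W d := by
    rw [sum_image]
    · apply sum_congr rfl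
      intro u _
      exact NN_refl a u W d hd
    · intro x _ y _ hxy
      dsimp only at hxy
      omega
  rw [h1]
  have h2 : ∑ v ∈ ((Icc (-(X : ℤ)) X).image (fun u : ℤ => -u - W - 1)).filter
        (fun v => v ∈ Icc (-(X : ℤ)) X), NN a v W d =
      ∑ v ∈ (Icc (-(X : ℤ)) X).image (fun u : ℤ => -u - W - 1), NN a v W d := by
    apply sum_filter_of_ne
    intro v hv hne
    rw [mem_image] at hv
    obtain ⟨u, hu, rfl⟩ := hv
    rw [mem_Icc] at hu ⊢
    constructor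
    · by_contra hcon
      apply hne
      apply NN_zero
      intro m hm1 hm2
      apply ha0
      omega
    · omega
  rw [← h2]
  apply sum_le_sum_of_subset_of_nonneg
  · intro v hv
    exact (mem_filter.1 hv).2
  · intro v _ _
    exact NN_nonneg _ _ _ _

/-- the size of the windows -/
lemma windows (kD Bx Q R T H e : ℕ) (L : ℝ) (hL9 : 9 ≤ L) (he : 1 ≤ e) (hH : (0 : ℝ) < H)
    (hHR : (H : ℝ) ^ (1 / e : ℝ) ≤ R) (hRQ : R ≤ Q) (hT0 : 1 ≤ T) (hTB : (T : ℝ) * L ^ Bx ≤ R)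
    (hT : ((Q : ℝ) * T) ^ (1 / 3 + 1 / e : ℝ) ≤ R)
    (hbig : 10 * L ^ kD ≤ (H : ℝ) ^ (1 / e * (1 / (2 * e)) : ℝ)) (hB : 2 * (kD + 2) ≤ Bx) :
    T * L ^ kD ≤ ⌊(R : ℝ) / L ^ kD⌋₊ ∧
    ((5 * Q * T : ℕ) : ℝ) ^ (1 / 3 + 2 / ((4 * e : ℕ) : ℝ) : ℝ) ≤ ⌊(R : ℝ) / L ^ kD⌋₊ ∧
    L ^ Bx ≤ R ∧ T ≤ R := by
  have hL1 : 1 ≤ L := by linarith
  have hL0 : 0 < L := by linarith
  have her : (1 : ℝ) ≤ e := by exact_mod_cast he
  have her0 : (0 : ℝ) < e := by linarith
  have hRQr : (R : ℝ) ≤ Q := by exact_mod_cast hRQ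
  have hT1 : (1 : ℝ) ≤ T := by exact_mod_cast hT0
  have hLB : (1 : ℝ) ≤ L ^ Bx := one_le_pow₀ hL1
  have hLk : (1 : ℝ) ≤ L ^ kD := one_le_pow₀ hL1
  have hLk0 : (0 : ℝ) < L ^ kD := by linarith
  have hBR : L ^ Bx ≤ R := by
    refine le_trans ?_ hTB
    exact le_mul_of_one_le_left (by positivity) hT1
  have hTR : (T : ℝ) ≤ R := by
    refine le_trans ?_ hTB
    exact le_mul_of_one_le_right (by positivity) hLB
  have hR1 : (1 : ℝ) ≤ R := hLB.trans hBR
  have hR0 : (0 : ℝ) < R := by linarith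
  have hQ1 : (1 : ℝ) ≤ Q := hR1.trans hRQr
  have hQ0 : (0 : ℝ) < Q := by linarith
  have hpw : ∀ k : ℕ, k + 1 ≤ Bx → L * L ^ k ≤ L ^ Bx := by
    intro k hk
    calc L * L ^ k = L ^ (k + 1) := by ring
      _ ≤ L ^ Bx := pow_le_pow_right₀ hL1 hk
  have hfl : (R : ℝ) / (2 * L ^ kD) ≤ ⌊(R : ℝ) / L ^ kD⌋₊ := by
    have h1 : (R : ℝ) / L ^ kD < ⌊(R : ℝ) / L ^ kD⌋₊ + 1 := Nat.lt_floor_add_one _
    have h2 : 2 ≤ (R : ℝ) / L ^ kD := by
      rw [le_div_iff₀ hLk0]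
      have := hpw kD (by omega)
      nlinarith
    have h3 : (R : ℝ) / (2 * L ^ kD) = (R : ℝ) / L ^ kD / 2 := by
      field_simp
    rw [h3]
    linarith
  refine ⟨?_, ?_, hBR, by exact_mod_cast hTR⟩
  · refine le_trans ?_ hfl
    rw [le_div_iff₀ (by positivity)]
    have h1 := hpw (kD + kD) (by omega)
    have h2 : (0 : ℝ) ≤ L ^ (kD + kD) := by positivity
    calc (T : ℝ) * L ^ kD * (2 * L ^ kD) = T * (2 * L ^ (kD + kD)) := by ring
      _ ≤ T * (L * L ^ (kD + kD)) := by gcongr; linarith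
      _ ≤ T * L ^ Bx := by gcongr
      _ ≤ R := hTB
  · refine le_trans ?_ hfl
    rw [le_div_iff₀ (by positivity)]
    have hQT1 : (1 : ℝ) ≤ Q * T := by nlinarith
    have hQT0 : (0 : ℝ) < Q * T := by linarith
    have e1 : (1 / 3 + 2 / ((4 * e : ℕ) : ℝ) : ℝ) = 1 / 3 + 1 / (2 * e) := by
      push_cast
      field_simp
      ring
    have h5 : ((5 * Q * T : ℕ) : ℝ) ^ (1 / 3 + 2 / ((4 * e : ℕ) : ℝ) : ℝ) ≤
        5 * ((Q : ℝ) * T) ^ (1 / 3 + 1 / (2 * e) : ℝ) := by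
      rw [e1]
      have e2 : ((5 * Q * T : ℕ) : ℝ) = 5 * ((Q : ℝ) * T) := by push_cast; ring
      rw [e2, Real.mul_rpow (by norm_num) hQT0.le]
      have h6 : (5 : ℝ) ^ (1 / 3 + 1 / (2 * e) : ℝ) ≤ 5 := by
        calc (5 : ℝ) ^ (1 / 3 + 1 / (2 * e) : ℝ) ≤ (5 : ℝ) ^ (1 : ℝ) := by
              apply Real.rpow_le_rpow_of_exponent_le (by norm_num)
              have : (1 : ℝ) / (2 * e) ≤ 1 / 2 := by
                rw [div_le_div_iff₀ (by positivity) (by norm_num)]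
                linarith
              linarith
          _ = 5 := Real.rpow_one 5
      gcongr
    have h7 : 10 * L ^ kD ≤ ((Q : ℝ) * T) ^ (1 / (2 * e) : ℝ) := by
      refine hbig.trans ?_
      rw [Real.rpow_mul hH.le]
      apply Real.rpow_le_rpow (by positivity) _ (by positivity)
      calc (H : ℝ) ^ (1 / e : ℝ) ≤ R := hHR
        _ ≤ Q := hRQr
        _ ≤ Q * T := le_mul_of_one_le_right hQ0.le hT1
    have h8 : ((Q : ℝ) * T) ^ (1 / 3 + 1 / (2 * e) : ℝ) * ((Q : ℝ) * T) ^ (1 / (2 * e) : ℝ) =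
        ((Q : ℝ) * T) ^ (1 / 3 + 1 / e : ℝ) := by
      rw [← Real.rpow_add hQT0]
      congr 1
      field_simp
      ring
    have h9 : (0 : ℝ) ≤ ((Q : ℝ) * T) ^ (1 / 3 + 1 / (2 * e) : ℝ) := by positivity
    calc ((5 * Q * T : ℕ) : ℝ) ^ (1 / 3 + 2 / ((4 * e : ℕ) : ℝ) : ℝ) * (2 * L ^ kD)
        ≤ 5 * ((Q : ℝ) * T) ^ (1 / 3 + 1 / (2 * e) : ℝ) * (2 * L ^ kD) := by gcongr
      _ = ((Q : ℝ) * T) ^ (1 / 3 + 1 / (2 * e) : ℝ) * (10 * L ^ kD) := by ring
      _ ≤ ((Q : ℝ) * T) ^ (1 / 3 + 1 / (2 * e) : ℝ) * ((Q : ℝ) * T) ^ (1 / (2 * e) : ℝ) := by gcongr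
      _ = ((Q : ℝ) * T) ^ (1 / 3 + 1 / e : ℝ) := h8
      _ ≤ R := hT

set_option maxHeartbeats 4000000 in
theorem main : S_LSQ → S_PAIR3 → S_SI13 → S_UT6 := by
  intro hLSQ hPAIR hSI e A he
  obtain ⟨CL, hCL, hLS⟩ := hLSQ
  obtain ⟨CP, hCP, hPR⟩ := hPAIR
  obtain ⟨C1, hC1⟩ : ∃ C1 : ℕ, C1 = A + 4 := ⟨_, rfl⟩
  obtain ⟨kD, hkD⟩ : ∃ kD : ℕ, kD = C1 + A + 4 := ⟨_, rfl⟩
  obtain ⟨E0', hSI'⟩ := hSI (4 * e) (C1 + kD + A + 2) (kD + 1) (by omega)
  refine ⟨E0' + 1, C1 + 2 * kD + A + 4 + 2 * (kD + 2), fun E1 => ?_⟩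
  obtain ⟨Bx, hBx⟩ : ∃ Bx : ℕ, Bx = C1 + 2 * kD + A + 4 + 2 * (kD + 2) := ⟨_, rfl⟩
  rw [← hBx]
  obtain ⟨X0, hX0⟩ := hSI' (E1 + 1)
  obtain ⟨N1, hN1⟩ := Pool.Agent.H373R2.T7.Vz_inv_small E1
  have her : (1 : ℝ) ≤ e := by exact_mod_cast he
  have her0 : (0 : ℝ) < e := by linarith
  obtain ⟨N3, hN3⟩ := loglarge (max (115 * CP * CL) (max (3 ^ E0') (max 9
    (max ((e : ℝ) ^ (E1 + 1)) (max ((e : ℝ) ^ (kD + 1)) (max ((e : ℝ) ^ (C1 + kD + A + 2)) ((e : ℝ) * Real.log X0)))))))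
  obtain ⟨N4, hN4⟩ := logpow 10 (1 / e * (1 / (2 * e)) : ℝ) (by positivity) kD
  refine ⟨max (max (max N1 N3) 3) N4, ?_⟩
  intro H hH Q R hRg T hT1 hTB hT2 z hz1 hz2 σ hσ g hg w hw
  obtain ⟨hR1, hRQ, hQH⟩ := hRg
  have hHN1 : N1 ≤ H := by
    have := (le_max_left (max (max N1 N3) 3) N4).trans hH
    have h2 := le_max_left N1 N3
    have h3 := le_max_left (max N1 N3) 3
    omega
  have hHN3 : N3 ≤ H := by
    have := (le_max_left (max (max N1 N3) 3) N4).trans hH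
    have h2 := le_max_right N1 N3
    have h3 := le_max_left (max N1 N3) 3
    omega
  have hH3 : 3 ≤ H := by
    have := (le_max_left (max (max N1 N3) 3) N4).trans hH
    have h3 := le_max_right (max N1 N3) 3
    omega
  have hN4' := hN4 H ((le_max_right _ _).trans hH)
  have hLbig := hN3 H hHN3
  set L := Real.log H with hLdef
  simp only [max_le_iff] at hLbig
  obtain ⟨hLa, hLb, hLc, hLe1, hLe2, hLe3, hLe4⟩ := hLbig
  have hL1 : 1 ≤ L := by linarith
  have hL0 : 0 < L := by linarith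
  have hHr : (3 : ℝ) ≤ H := by exact_mod_cast hH3
  have hHr0 : (0 : ℝ) < H := by linarith
  have hQr : (R : ℝ) ≤ Q := by exact_mod_cast hRQ
  have hQHr : (Q : ℝ) ≤ H := by exact_mod_cast hQH
  have hH1e : (1 : ℝ) ≤ (H : ℝ) ^ (1 / e : ℝ) := Real.one_le_rpow (by linarith) (by positivity)
  have hRr1 : (1 : ℝ) ≤ R := hH1e.trans hR1
  have hQr1 : (1 : ℝ) ≤ Q := hRr1.trans hQr
  have hQn1 : 1 ≤ Q := by exact_mod_cast hQr1
  have hRn1 : 1 ≤ R := by exact_mod_cast hRr1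
  have hLB : L ^ (C1 + 2 * kD + A + 4) ≤ L ^ Bx := pow_le_pow_right₀ hL1 (by omega)
  have hT1b : L ^ (C1 + 2 * kD + A + 4) ≤ T := hLB.trans hT1
  have hT1' : (1 : ℝ) ≤ T := (one_le_pow₀ hL1).trans hT1
  have hT1n : 1 ≤ T := by exact_mod_cast hT1'
  have hz1' : (1 : ℝ) ≤ z := (one_le_pow₀ hL1).trans hz1
  have hz1n : 1 ≤ z := by exact_mod_cast hz1'
  have hVz := hN1 H hHN1 z hz1n hz2
  obtain ⟨hw1, hw2, hw3, hTR⟩ := windows kD Bx Q R T H e L hLc he (by linarith) hR1 hRQ hT1n hTB hT2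
    hN4' (by omega)
  set W : ℕ := ⌊(R : ℝ) / L ^ kD⌋₊ with hWdef
  set D : ℕ := ⌊L ^ kD⌋₊ with hDdef
  have hLk1 : (1 : ℝ) ≤ L ^ kD := one_le_pow₀ hL1
  have hLk0 : (0 : ℝ) < L ^ kD := by linarith
  have hWr1 : (1 : ℝ) ≤ W := by
    refine le_trans ?_ hw1
    nlinarith
  have hW1n : 1 ≤ W := by exact_mod_cast hWr1
  have hWL : (W : ℝ) * L ^ kD ≤ R := by
    rw [← le_div_iff₀ hLk0]
    exact Nat.floor_le (by positivity)
  have hWRr : (W : ℝ) ≤ R := by nlinarith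
  have hWR : W ≤ R := by exact_mod_cast hWRr
  have hWQ : W ≤ Q := hWR.trans hRQ
  have hTQ : T ≤ Q := hTR.trans hRQ
  have hD1 : (D : ℝ) ≤ L ^ kD := Nat.floor_le hLk0.le
  have hD1n : 1 ≤ D := Nat.le_floor (by exact_mod_cast hLk1)
  have hD2 : L ^ kD ≤ 2 * (D : ℝ) := by
    have h1 : L ^ kD < (D : ℝ) + 1 := Nat.lt_floor_add_one _
    have h2 : (1 : ℝ) ≤ D := by exact_mod_cast hD1n
    linarith
  obtain ⟨X, hXdef⟩ : ∃ X : ℕ, X = 5 * Q * T := ⟨_, rfl⟩
  have hXr : (X : ℝ) = 5 * Q * T := by rw [hXdef]; push_cast; ring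
  have hQX : Q ≤ X := by rw [hXdef]; nlinarith
  have hQXr : (Q : ℝ) ≤ X := by exact_mod_cast hQX
  have hXr1 : (1 : ℝ) ≤ X := hQr1.trans hQXr
  have hlogX1 : L ≤ e * Real.log X := by
    have h1 : Real.log ((H : ℝ) ^ (1 / e : ℝ)) ≤ Real.log X :=
      Real.log_le_log (by positivity) ((hR1.trans hQr).trans hQXr)
    rw [Real.log_rpow hHr0, ← hLdef] at h1
    calc L = e * (1 / e * L) := by field_simp
      _ ≤ e * Real.log X := by gcongr
  have hlog2X : Real.log (2 * X) ≤ 3 * L := by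
    have h1 : (2 * X : ℝ) ≤ (H : ℝ) ^ 3 := by
      rw [hXr]
      have h2 : (T : ℝ) ≤ H := by exact_mod_cast hTQ.trans hQH
      have h3 : (10 : ℝ) ≤ H := by
        have h4 := Real.add_one_le_exp L
        rw [hLdef, Real.exp_log hHr0] at h4
        rw [← hLdef] at h4
        linarith
      calc (2 * (5 * Q * T) : ℝ) = 10 * (Q * T) := by ring
        _ ≤ H * (H * H) := by gcongr
        _ = (H : ℝ) ^ 3 := by ring
    calc Real.log (2 * X) ≤ Real.log ((H : ℝ) ^ 3) := Real.log_le_log (by linarith) h1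
      _ = 3 * L := by rw [Real.log_pow]; push_cast; ring
  have hlogX2 : Real.log X ≤ 3 * L := by
    refine le_trans (Real.log_le_log (by linarith) ?_) hlog2X
    linarith
  have hlogX0 : 0 ≤ Real.log X := Real.log_nonneg hXr1
  have hXe : ∀ n : ℕ, (e : ℝ) ^ (n + 1) ≤ L → (e : ℝ) ^ n ≤ Real.log X := by
    intro n hn
    have h1 : (e : ℝ) * (e : ℝ) ^ n ≤ e * Real.log X := by
      calc (e : ℝ) * (e : ℝ) ^ n = (e : ℝ) ^ (n + 1) := by ring
        _ ≤ L := hn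
        _ ≤ _ := hlogX1
    exact le_of_mul_le_mul_left h1 her0
  have hXX0 : X0 ≤ X := by
    have h1 : Real.log X0 ≤ Real.log X := le_of_mul_le_mul_left (hLe4.trans hlogX1) her0
    rcases Nat.eq_zero_or_pos X0 with h0 | h0
    · rw [h0]; exact Nat.zero_le _
    · have h2 : (0 : ℝ) < X0 := by exact_mod_cast h0
      have h3 := (Real.log_le_log_iff h2 (by linarith)).1 h1
      exact_mod_cast h3
  -- the truncated function
  set a : ℤ → ℝ := fun m => if m ≤ 2 * X then Ed z m else 0 with hadef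
  have haP : ∀ m, |a m| ≤ 3 * L := by
    intro m
    rw [hadef]
    dsimp only
    split_ifs with hc
    · apply Ed_bound z m L (2 * X) hL0.le (by exact_mod_cast hc) hlog2X hVz
    · rw [abs_zero]; linarith
  have haE : ∀ m : ℤ, 0 < m → m ≤ 2 * X → a m = Ed z m := by
    intro m _ hm
    rw [hadef]
    dsimp only
    rw [if_pos hm]
  have ha0 : ∀ m : ℤ, m ≤ 0 → a m = 0 := by
    intro m hm
    rw [hadef]
    dsimp only
    rw [if_pos (by omega)]
    exact Ed_zero z m hm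
  -- the reflected function
  set a' : ℤ → ℝ := fun m => a (σ * m) with ha'def
  have haP' : ∀ m, |a' m| ≤ 3 * L := fun m => haP _
  -- replace `Ed` by `a'`
  have hrepl : ∑ b ∈ Icc 1 Q, ∑ c ∈ Icc 1 R,
        (∑ n ∈ Icc 1 T, w n * Ed z (σ * ((b : ℤ) * n + c + g n))) ^ 2 =
      ∑ b ∈ Icc 1 Q, ∑ c ∈ Icc 1 R, (∑ n ∈ Icc 1 T, w n * a' ((b : ℤ) * n + c + g n)) ^ 2 := by
    apply sum_congr rfl
    intro b hb
    apply sum_congr rfl
    intro c hc
    congr 1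
    apply sum_congr rfl
    intro n hn
    have hgn := hg n hn
    rw [mem_Icc] at hb hc hn
    congr 1
    rw [ha'def, hadef]
    dsimp only
    rw [if_pos]
    have h1 := (abs_le.1 hgn).2
    have h1' := (abs_le.1 hgn).1
    have h2 : (b : ℤ) * n ≤ Q * T := by
      exact_mod_cast Nat.mul_le_mul hb.2 hn.2
    have h2' : (0 : ℤ) ≤ (b : ℤ) * n := by positivity
    have h2'' : (0 : ℤ) ≤ (c : ℤ) := by positivity
    have h4 : (c : ℤ) ≤ Q * T := by
      have : c ≤ Q * T := by nlinarith [hc.2]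
      exact_mod_cast this
    have h5 : (X : ℤ) = 5 * (Q * T) := by rw [hXdef]; push_cast; ring
    rw [h5]
    have h6 : (0 : ℤ) ≤ Q * T := by positivity
    rcases hσ with hs | hs
    · rw [hs]
      linarith
    · rw [hs]
      linarith
  rw [hrepl]
  refine (expand Q R T a' g w hw).trans ?_
  -- the sums over the windows
  set M : ℕ → ℝ := fun q => ∑ u ∈ Icc (-(X : ℤ)) X, NN a' u W q with hM
  have hM0 : ∀ q, 0 ≤ M q := fun q => sum_nonneg (fun u _ => NN_nonneg _ _ _ _)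
  have hWX : W ≤ X := hWQ.trans hQX
  have hMd : ∀ d ∈ Icc 1 D, M d ≤ X * (W : ℝ) ^ 2 / L ^ (C1 + kD + A + 1) +
      (W + 1) * (D * (3 * L * W) ^ 2) := by
    intro d hd
    rw [mem_Icc] at hd
    have hdD : (d : ℝ) ≤ D := by exact_mod_cast hd.2
    have h1 := hX0 X hXX0 z (by
      calc Real.log X ^ E0' ≤ (3 * L) ^ E0' := by gcongr
        _ = 3 ^ E0' * L ^ E0' := mul_pow _ _ _
        _ ≤ L * L ^ E0' := by gcongr
        _ = L ^ (E0' + 1) := by ring
        _ ≤ z := hz1) (by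
      refine hz2.trans ?_
      exact cmp e E1 (Real.log X) L hlogX1 hL0.le (hXe E1 hLe1) hlogX0) d hd.1 (by
      refine (hdD.trans hD1).trans ?_
      exact cmp e kD (Real.log X) L hlogX1 hL0.le (hXe kD hLe2) hlogX0) W (by
      rw [hXdef]
      exact hw2) hWX
    have h2 := M_bound X W d (3 * L) _ a (Ed z) haP haE ha0 hWX h1
    have h0 : M d ≤ ∑ u ∈ Icc (-(X : ℤ)) X, NN a u W d := by
      rw [hM]
      dsimp only
      rcases hσ with hs | hs
      · rw [ha'def, hs]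
        simp only [one_mul]
        exact le_rfl
      · rw [ha'def, hs]
        simp only [neg_mul, one_mul]
        exact M_refl X W d a ha0 hWX hd.1
    refine (h0.trans h2).trans ?_
    apply add_le_add
    · have h3 : L ^ (C1 + kD + A + 1) ≤ Real.log X ^ (C1 + kD + A + 2) :=
        cmp e (C1 + kD + A + 1) (Real.log X) L hlogX1 hL0.le (hXe _ hLe3) hlogX0
      gcongr
    · gcongr
  have hqM : ∑ q ∈ Icc 1 T, (q : ℝ) * M q ≤ T * (D * (X * (W : ℝ) ^ 2 / L ^ (C1 + kD + A + 1) +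
      (W + 1) * (D * (3 * L * W) ^ 2))) + (2 * X + 1) * (CL * (T * W * (3 * L) ^ 2 * (W / D + T))) := by
    have h1 : ∑ q ∈ Icc 1 T, (q : ℝ) * M q =
        ∑ u ∈ Icc (-(X : ℤ)) X, ∑ q ∈ Icc 1 T, (q : ℝ) * NN a' u W q := by
      rw [sum_comm]
      apply sum_congr rfl
      intro q _
      rw [hM, mul_sum]
    have h2 : ∑ u ∈ Icc (-(X : ℤ)) X, ∑ q ∈ Icc 1 T, (q : ℝ) * NN a' u W q ≤
        ∑ u ∈ Icc (-(X : ℤ)) X, (T * ∑ d ∈ Icc 1 D, NN a' u W d +
          CL * (T * W * (3 * L) ^ 2 * ((W : ℝ) / D + T))) :=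
      sum_le_sum (fun u _ => hLS a' u T W D (3 * L) hD1n (by linarith) haP')
    rw [h1]
    refine h2.trans ?_
    rw [sum_add_distrib, ← mul_sum, sum_comm, sum_const, nsmul_eq_mul]
    apply add_le_add
    · apply mul_le_mul_of_nonneg_left _ (by linarith)
      refine (sum_le_card_nsmul (Icc 1 D) _ _ hMd).trans ?_
      rw [Nat.card_Icc, Nat.add_sub_cancel, nsmul_eq_mul]
    · apply mul_le_mul_of_nonneg_right _ (by positivity)
      rw [Int.card_Icc]
      have : ((X : ℤ) + 1 - -(X : ℤ)).toNat = 2 * X + 1 := by omega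
      rw [this]
      push_cast
      linarith
  -- the pairs
  have hLC1 : (1 : ℝ) ≤ L ^ C1 := one_le_pow₀ hL1
  have hp := pairs T (fun n n' => ∑ b ∈ Icc 1 Q, ∑ c ∈ Icc 1 R,
      a' ((b : ℤ) * n + c + g n) * a' ((b : ℤ) * n' + c + g n'))
    ((3 * L) ^ 2 * (Q * R)) (T / L ^ C1) (CP * ((3 * L) ^ 2 * Q * (W * (L ^ C1 + 1) + 1)))
    (fun q => CP * ((q : ℝ) * R * L ^ C1 / (W ^ 2 * T) * M q)) (by positivity) (by positivity)
    (by positivity) (fun q => by have := hM0 q; positivity)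
    (by
      intro n n' _ _
      refine (abs_sum_le_sum_abs _ _).trans ?_
      have h1 : ∀ b ∈ Icc 1 Q, |∑ c ∈ Icc 1 R, a' ((b : ℤ) * n + c + g n) * a' ((b : ℤ) * n' + c + g n')| ≤
          R * (3 * L) ^ 2 := by
        intro b _
        refine (abs_sum_le_sum_abs _ _).trans ?_
        refine (sum_le_card_nsmul (Icc 1 R) _ ((3 * L) ^ 2) ?_).trans ?_
        · intro c _
          rw [abs_mul, sq]
          exact mul_le_mul (haP' _) (haP' _) (abs_nonneg _) (by linarith)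
        · rw [Nat.card_Icc, Nat.add_sub_cancel, nsmul_eq_mul]
      refine (sum_le_card_nsmul (Icc 1 Q) _ _ h1).trans ?_
      rw [Nat.card_Icc, Nat.add_sub_cancel, nsmul_eq_mul]
      apply le_of_eq
      ring)
    (by
      intro n n'
      apply sum_congr rfl
      intro b _
      apply sum_congr rfl
      intro c _
      ring)
    (by
      intro n n' h1 h2 h3 h4 h5
      have hn'0 : (0 : ℝ) < n' := by exact_mod_cast h1
      have hnT : (n : ℝ) ≤ T := by exact_mod_cast h3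
      have hsub : ((n - n' : ℕ) : ℝ) = (n : ℝ) - n' := Nat.cast_sub h2.le
      have hq0 : (0 : ℝ) < (n : ℝ) - n' := by
        rw [sub_pos]; exact_mod_cast h2
      have hTL : 0 < (T : ℝ) / L ^ C1 := by positivity
      have hgn := hg n (by rw [mem_Icc]; omega)
      have hgn' := hg n' (by rw [mem_Icc]; omega)
      have hX5 : (X : ℤ) = 5 * (Q * T) := by rw [hXdef]; push_cast; ring
      have g1 : (Q : ℤ) * n ≤ Q * T := by exact_mod_cast Nat.mul_le_mul le_rfl h3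
      have g3 : (n : ℤ) * Q ≤ Q * T := by rw [mul_comm]; exact g1
      have g4 : (Q : ℤ) ≤ Q * T := by
        have : Q ≤ Q * T := Nat.le_mul_of_pos_right _ (by omega)
        exact_mod_cast this
      have g5 : (W : ℤ) ≤ Q := by exact_mod_cast hWQ
      have hpr := hPR a' (3 * L) (by linarith) haP' n n' Q R W X (g n) (g n') h1 h2
        (h3.trans hTR) hRQ hW1n (by rw [hX5]; linarith) (by rw [hX5]; linarith)
      refine hpr.trans ?_
      rw [hsub, ← mul_add]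
      apply mul_le_mul_of_nonneg_left _ (by linarith)
      apply add_le_add
      · apply mul_le_mul_of_nonneg_right _ (hM0 _)
        rw [div_le_div_iff₀ (by positivity) (by positivity)]
        have h6 : (T : ℝ) ≤ n' * L ^ C1 := by
          rw [div_lt_iff₀ (by positivity)] at h4
          exact h4.le
        have h7 : 0 ≤ ((n : ℝ) - n') * R * W ^ 2 := by positivity
        calc ((n : ℝ) - n') * R * (W ^ 2 * T) = ((n : ℝ) - n') * R * W ^ 2 * T := by ring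
          _ ≤ ((n : ℝ) - n') * R * W ^ 2 * (n' * L ^ C1) := by gcongr
          _ = ((n : ℝ) - n') * R * L ^ C1 * (W ^ 2 * n') := by ring
      · have h8 : (n : ℝ) / ((n : ℝ) - n') ≤ L ^ C1 := by
          rw [div_le_iff₀ hq0]
          rw [div_lt_iff₀ (by positivity)] at h5
          linarith
        gcongr)
  refine hp.trans ?_
  have hnum := numeric CL CP Q R T W D X L (3 * L) _ A C1 kD hCL hCP hC1 hkD hLa rfl hT1b hWL hw1 hWr1
    hD1 hD2 hXr (by
      refine le_trans ?_ hw3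
      apply pow_le_pow_right₀ hL1
      omega) hQr rfl
  refine le_trans ?_ hnum
  have hsumR : ∑ q ∈ Icc 1 T, CP * ((q : ℝ) * R * L ^ C1 / (W ^ 2 * T) * M q) =
      CP * (R * L ^ C1 / (W ^ 2 * T)) * ∑ q ∈ Icc 1 T, (q : ℝ) * M q := by
    rw [mul_sum]
    apply sum_congr rfl
    intro q _
    ring
  rw [hsumR]
  gcongr

end Pool.Agent.helper24_UT.Ut6
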