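import Pool.Agent.helper24_UT.Ch11
import Pool.Agent.helper24_UT.Base
import Pool.Agent.helper24_UT.Bdh
import Pool.Agent.helper24_UT.Ut6
import Pool.Agent.helper24_UT.Dyb
import Pool.Agent.helper24_UT.R22

/-!
# Project UT (helper24): assembly, part 12
-/

set_option autoImplicit false

namespace Pool.Agent.helper24_UT.Ch

theorem t_UT6 : S_UT6 := Ut6.main Lsq.main Pair3.main t_SI13
theorem t_DYB : S_DYB := Dyb.main t_UT6 Mtc.main t_SRT
theorem t_R22 : S_R22 := R22.main t_DYB Bdh.main (Base.main Mtc.main) Mtc.main t_SRT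

end Pool.Agent.helper24_UT.Ch
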