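import Pool.Agent.helper24_UT.Stm17
import Pool.Agent.H373R2.T7.BilE

set_option autoImplicit false

namespace Pool.Agent.helper24_UT.Fam

open Finset
open Pool.Agent.helper24_UT
open Pool.Agent.H373R2.T7 (energy orth conj_ee sq_expand majorant pow_expand moment_energy)
open Pool.Agent.H807R2.Dav (ee ee_add ee_int ee_zero ee_add_int norm_ee)

/-- the character of frequency `n` on the integers modulo `M` -/
noncomputable def ch (M : ℕ) (n : ℤ) (t : ZMod M) : ℂ := ee ((t.val : ℝ) * ((n : ℝ) / M))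

lemma ch_norm (M : ℕ) (n : ℤ) (t : ZMod M) : ‖ch M n t‖ = 1 := norm_ee _

lemma ch_zero (M : ℕ) (t : ZMod M) : ch M 0 t = 1 := by
  unfold ch
  simp [ee_zero]

lemma ch_addn (M : ℕ) (n n' : ℤ) (t : ZMod M) : ch M (n + n') t = ch M n t * ch M n' t := by
  unfold ch
  rw [← ee_add]
  congr 1
  push_cast
  ring

lemma ch_conj (M : ℕ) (n : ℤ) (t : ZMod M) : (starRingEnd ℂ) (ch M n t) = ch M (-n) t := by
  unfold ch
  rw [conj_ee]
  congr 1
  push_cast
  ring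

lemma ch_addt (M : ℕ) [NeZero M] (n : ℤ) (t t' : ZMod M) :
    ch M n (t + t') = ch M n t * ch M n t' := by
  unfold ch
  rw [← ee_add, ZMod.val_add]
  have hM : (M : ℝ) ≠ 0 := by exact_mod_cast NeZero.ne M
  have h1 := Nat.div_add_mod (t.val + t'.val) M
  generalize (t.val + t'.val) / M = q at h1
  generalize (t.val + t'.val) % M = r at h1
  have h2 : (M : ℝ) * (q : ℝ) + (r : ℝ) = (t.val : ℝ) + t'.val := by exact_mod_cast h1
  have h3 : (t.val : ℝ) * ((n : ℝ) / M) + (t'.val : ℝ) * ((n : ℝ) / M) =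
      (r : ℝ) * ((n : ℝ) / M) + ((((q : ℤ) * n : ℤ)) : ℝ) := by
    rw [← add_mul, ← h2]
    push_cast
    field_simp
    ring
  rw [h3, ee_add_int]

lemma sum_zmod {β : Type*} [AddCommMonoid β] (M : ℕ) [NeZero M] (F : ℕ → β) :
    ∑ t : ZMod M, F t.val = ∑ t ∈ range M, F t := by
  obtain ⟨k, hk⟩ := Nat.exists_eq_succ_of_ne_zero (NeZero.ne M)
  subst hk
  exact Fin.sum_univ_eq_sum_range F (k + 1)

lemma ortho (M : ℕ) [NeZero M] (n : ℤ) :
    ∑ t : ZMod M, ch M n t = if (M : ℤ) ∣ n then (M : ℂ) else 0 := by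
  have h := sum_zmod M (fun t => ee ((t : ℝ) * ((n : ℝ) / M)))
  rw [← orth M (Nat.one_le_iff_ne_zero.mpr (NeZero.ne M)) n, ← h]
  rfl

lemma expand {ι : Type*} (M : ℕ) [NeZero M] (I : Finset ι) (C : ι → ℂ) (φ : ι → ℤ) :
    (((∑ t : ZMod M, ‖∑ i ∈ I, C i * ch M (φ i) t‖ ^ 2 : ℝ)) : ℂ) =
      ∑ i ∈ I, ∑ j ∈ I, C i * (starRingEnd ℂ) (C j) *
        (if (M : ℤ) ∣ φ i - φ j then (M : ℂ) else 0) := by
  rw [← sq_expand I C φ M (Nat.one_le_iff_ne_zero.mpr (NeZero.ne M))]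
  rw [← sum_zmod M (fun t => ‖∑ i ∈ I, C i * ee ((t : ℝ) * ((φ i : ℝ) / M))‖ ^ 2)]
  rfl

lemma parseval {ι : Type*} [DecidableEq ι] (M : ℕ) [NeZero M] (I : Finset ι) (C : ι → ℂ)
    (φ : ι → ℤ) (hinj : ∀ i ∈ I, ∀ j ∈ I, (M : ℤ) ∣ φ i - φ j → i = j) :
    ∑ t : ZMod M, ‖∑ i ∈ I, C i * ch M (φ i) t‖ ^ 2 = M * ∑ i ∈ I, ‖C i‖ ^ 2 := by
  have h := expand M I C φ
  have h2 : ∑ i ∈ I, ∑ j ∈ I, C i * (starRingEnd ℂ) (C j) *
        (if (M : ℤ) ∣ φ i - φ j then (M : ℂ) else 0) = ((M * ∑ i ∈ I, ‖C i‖ ^ 2 : ℝ) : ℂ) := by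
    push_cast
    rw [mul_sum]
    apply sum_congr rfl
    intro i hi
    rw [sum_eq_single_of_mem i hi]
    · rw [sub_self, if_pos (dvd_zero _), Complex.mul_conj']
      ring
    · intro j hj hji
      rw [if_neg, mul_zero]
      intro hd
      exact hji (hinj i hi j hj hd).symm
  rw [h2] at h
  exact_mod_cast h

/-- the Fejer kernel -/
noncomputable def FL (M L : ℕ) (b : ZMod M) : ℝ := (1 / L : ℝ) * ‖∑ v ∈ range L, ch M (v : ℤ) b‖ ^ 2

lemma FL_nonneg (M L : ℕ) (b : ZMod M) : 0 ≤ FL M L b := by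
  unfold FL
  positivity

lemma FL_le (M L : ℕ) (hL : 1 ≤ L) (b : ZMod M) : FL M L b ≤ L := by
  have hL0 : (0 : ℝ) < L := by exact_mod_cast hL
  have h1 : ‖∑ v ∈ range L, ch M (v : ℤ) b‖ ≤ L := by
    refine (norm_sum_le _ _).trans ?_
    simp [ch_norm]
  unfold FL
  have h2 : ‖∑ v ∈ range L, ch M (v : ℤ) b‖ ^ 2 ≤ (L : ℝ) ^ 2 :=
    pow_le_pow_left₀ (norm_nonneg _) h1 2
  calc (1 / L : ℝ) * ‖∑ v ∈ range L, ch M (v : ℤ) b‖ ^ 2 ≤ (1 / L : ℝ) * (L : ℝ) ^ 2 :=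
        mul_le_mul_of_nonneg_left h2 (by positivity)
    _ = L := by field_simp

/-- number of pairs with given difference -/
lemma cnt (L u : ℕ) (hu : u ≤ L) :
    ∑ v ∈ range L, ∑ v' ∈ range L, (if v' = v + u then (1 : ℝ) else 0) = (L : ℝ) - u := by
  have h1 : ∀ v ∈ range L, ∑ v' ∈ range L, (if v' = v + u then (1 : ℝ) else 0) =
      if v < L - u then 1 else 0 := by
    intro v hv
    rw [sum_ite_eq']
    rw [mem_range] at hv
    by_cases h : v < L - u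
    · rw [if_pos h, if_pos (mem_range.mpr (by omega))]
    · rw [if_neg h, if_neg]
      intro h2
      rw [mem_range] at h2
      omega
  rw [sum_congr rfl h1, ← sum_filter, sum_const, nsmul_eq_mul, mul_one]
  have h2 : (range L).filter (fun v => v < L - u) = range (L - u) := by
    ext v
    simp only [mem_filter, mem_range]
    omega
  rw [h2, card_range, Nat.cast_sub hu]

lemma FL_coef (M L u : ℕ) [NeZero M] (hL : 1 ≤ L) (hu : u ≤ L) (hM : 2 * L < M) :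
    ∑ b : ZMod M, ch M (u : ℤ) b * (FL M L b : ℂ) = (M : ℂ) * (1 - (u : ℂ) / L) := by
  have hL0 : (L : ℂ) ≠ 0 := by
    have : L ≠ 0 := by omega
    exact_mod_cast this
  have h1 : ∀ b : ZMod M, ch M (u : ℤ) b * (FL M L b : ℂ) =
      ∑ v ∈ range L, ∑ v' ∈ range L, (1 / L : ℂ) * ch M ((u : ℤ) + v - v') b := by
    intro b
    unfold FL
    push_cast
    rw [← Complex.mul_conj', map_sum, sum_mul_sum, mul_sum, mul_sum]
    apply sum_congr rfl
    intro v _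
    rw [mul_sum, mul_sum]
    apply sum_congr rfl
    intro v' _
    rw [ch_conj, sub_eq_add_neg, ch_addn, ch_addn]
    ring
  rw [sum_congr rfl fun b _ => h1 b, sum_comm]
  have h2 : ∀ v ∈ range L, ∑ b : ZMod M, ∑ v' ∈ range L, (1 / L : ℂ) * ch M ((u : ℤ) + v - v') b =
      ∑ v' ∈ range L, (M / L : ℂ) * (((if v' = v + u then (1 : ℝ) else 0) : ℝ) : ℂ) := by
    intro v hv
    rw [sum_comm]
    apply sum_congr rfl
    intro v' hv'
    rw [← mul_sum, ortho]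
    rw [mem_range] at hv hv'
    by_cases h : v' = v + u
    · rw [if_pos h, if_pos (by subst h; push_cast; simp [add_comm])]
      push_cast
      ring
    · rw [if_neg h, if_neg]
      · simp
      · intro hd
        apply h
        have h3 : |(u : ℤ) + v - v'| < M := by
          rw [abs_lt]
          constructor <;> omega
        have := Int.eq_zero_of_abs_lt_dvd hd h3
        omega
  rw [sum_congr rfl h2]
  have h3 := cnt L u hu
  have h4 : ∑ v ∈ range L, ∑ v' ∈ range L, (M / L : ℂ) * (((if v' = v + u then (1 : ℝ) else 0) : ℝ) : ℂ) =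
      (M / L : ℂ) * ((∑ v ∈ range L, ∑ v' ∈ range L, (if v' = v + u then (1 : ℝ) else 0) : ℝ) : ℂ) := by
    push_cast
    rw [mul_sum]
    apply sum_congr rfl
    intro v _
    rw [mul_sum]
  rw [h4, h3]
  push_cast
  field_simp

lemma FL_sum (M L : ℕ) [NeZero M] (hL : 1 ≤ L) (hM : 2 * L < M) : ∑ b : ZMod M, FL M L b = M := by
  have h := FL_coef M L 0 hL (Nat.zero_le _) hM
  simp only [Nat.cast_zero, ch_zero, one_mul, zero_div, sub_zero, mul_one] at h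
  exact_mod_cast h


/-- Hoelder in the form of the power mean inequality -/
lemma holder {ι : Type*} (I : Finset ι) (z G : ι → ℝ) (hz : ∀ i ∈ I, 0 ≤ z i) (hG : ∀ i ∈ I, 0 ≤ G i)
    (n : ℕ) (hn : 1 ≤ n) :
    (∑ i ∈ I, z i * G i) ^ n ≤ (∑ i ∈ I, z i ^ n * G i) * (∑ i ∈ I, G i) ^ (n - 1) := by
  rcases (sum_nonneg hG).eq_or_lt with h0 | h0
  · have h1 : ∀ i ∈ I, G i = 0 := (sum_eq_zero_iff_of_nonneg hG).mp h0.symm
    have h2 : ∑ i ∈ I, z i * G i = 0 := sum_eq_zero fun i hi => by rw [h1 i hi, mul_zero]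
    have h3 : ∑ i ∈ I, z i ^ n * G i = 0 := sum_eq_zero fun i hi => by rw [h1 i hi, mul_zero]
    rw [h2, h3, zero_mul, zero_pow (by omega)]
  · set A := ∑ i ∈ I, G i with hA
    have h1 := Real.pow_arith_mean_le_arith_mean_pow I (fun i => G i / A) z
      (fun i hi => div_nonneg (hG i hi) h0.le) (by rw [← sum_div, ← hA, div_self h0.ne']) hz n
    have h2 : ∑ i ∈ I, G i / A * z i = (∑ i ∈ I, z i * G i) / A := by
      rw [sum_div]
      exact sum_congr rfl fun i _ => by ring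
    have h3 : ∑ i ∈ I, G i / A * z i ^ n = (∑ i ∈ I, z i ^ n * G i) / A := by
      rw [sum_div]
      exact sum_congr rfl fun i _ => by ring
    rw [h2, h3, div_pow, div_le_div_iff₀ (by positivity) h0] at h1
    obtain ⟨k, rfl⟩ : ∃ k, n = k + 1 := ⟨n - 1, by omega⟩
    rw [Nat.add_sub_cancel]
    have h4 : (∑ i ∈ I, z i * G i) ^ (k + 1) * A ≤ ((∑ i ∈ I, z i ^ (k + 1) * G i) * A ^ k) * A := by
      calc _ ≤ _ := h1
        _ = _ := by ring
    exact le_of_mul_le_mul_right h4 h0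

/-- Cauchy's inequality with weights -/
lemma cauchy {ι : Type*} (I : Finset ι) (a b F : ι → ℝ) (hF : ∀ i ∈ I, 0 ≤ F i) :
    (∑ i ∈ I, a i * b i * F i) ^ 2 ≤ (∑ i ∈ I, a i ^ 2 * F i) * (∑ i ∈ I, b i ^ 2 * F i) := by
  apply sum_sq_le_sum_mul_sum_of_sq_le_mul
  · intro i hi
    exact mul_nonneg (sq_nonneg _) (hF i hi)
  · intro i hi
    exact mul_nonneg (sq_nonneg _) (hF i hi)
  · intro i _
    apply le_of_eq
    ring

lemma energy_refl (p x : ℕ) (c : ℤ) (s : ℕ → ℤ) :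
    energy p x (fun m => c - s m) = energy p x s := by
  unfold energy
  congr 1
  apply filter_congr
  intro q _
  simp only [sum_sub_distrib]
  constructor <;> intro h <;> linarith

/-- the moment of the modified family sum -/
lemma moment (p x M H : ℕ) [NeZero M] (c : ℤ) (s : ℕ → ℤ) (d : ℕ → ℂ)
    (hs : ∀ j ∈ Icc 1 x, c < s j ∧ s j ≤ c + H) (hd : ∀ j ∈ Icc 1 x, ‖d j‖ ≤ 2)
    (hM : 2 * p * H < M) :
    ∑ g : ZMod M, ‖∑ j ∈ Icc 1 x, d j * ch M (c - s j) g‖ ^ (2 * p) ≤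
      4 ^ p * (M * energy p x s) := by
  have hM1 : 1 ≤ M := Nat.one_le_iff_ne_zero.mpr (NeZero.ne M)
  set F : ℕ → ℤ := fun j => c - s j with hF
  have h1 : ∀ t : ℕ, ‖∑ j ∈ Icc 1 x, d j * ee ((t : ℝ) * ((F j : ℝ) / M))‖ ^ (2 * p) =
      4 ^ p * ‖∑ v ∈ Fintype.piFinset (fun _ : Fin p => Icc 1 x), (∏ i, d (v i) / 2) *
        ee ((t : ℝ) * (((∑ i, F (v i) : ℤ) : ℝ) / M))‖ ^ 2 := by
    intro t
    rw [← pow_expand p x (fun j => d j / 2) F M t, norm_pow, ← pow_mul, mul_comm p 2]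
    have h2 : ∑ j ∈ Icc 1 x, d j * ee ((t : ℝ) * ((F j : ℝ) / M)) =
        2 * ∑ j ∈ Icc 1 x, d j / 2 * ee ((t : ℝ) * ((F j : ℝ) / M)) := by
      rw [mul_sum]
      exact sum_congr rfl fun j _ => by ring
    rw [h2, norm_mul, mul_pow]
    congr 1
    rw [pow_mul]
    norm_num
  have h2 : ∑ g : ZMod M, ‖∑ j ∈ Icc 1 x, d j * ch M (c - s j) g‖ ^ (2 * p) =
      ∑ t ∈ range M, ‖∑ j ∈ Icc 1 x, d j * ee ((t : ℝ) * ((F j : ℝ) / M))‖ ^ (2 * p) := by
    rw [← sum_zmod M (fun t => ‖∑ j ∈ Icc 1 x, d j * ee ((t : ℝ) * ((F j : ℝ) / M))‖ ^ (2 * p))]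
    rfl
  rw [h2, sum_congr rfl fun t _ => h1 t, ← mul_sum]
  apply mul_le_mul_of_nonneg_left _ (by positivity)
  have h3 := majorant (Fintype.piFinset (fun _ : Fin p => Icc 1 x)) (fun v => ∏ i, d (v i) / 2)
    (fun v => ∑ i, F (v i)) M hM1 (by
      intro v hv
      rw [Fintype.mem_piFinset] at hv
      rw [norm_prod]
      apply prod_le_one
      · intro i _
        exact norm_nonneg _
      · intro i _
        have := hd (v i) (hv i)
        rw [norm_div]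
        have h4 : ‖(2 : ℂ)‖ = 2 := by norm_num
        rw [h4]
        linarith)
  refine h3.trans ?_
  have h4 := moment_energy p x F M H hM1 (by
    intro m hm
    have := hs m hm
    rw [hF, abs_le]
    constructor <;> simp only <;> linarith [this.1, this.2]) hM
  rw [hF, energy_refl, ← hF] at h4
  rw [← h4]
  apply le_of_eq
  apply sum_congr rfl
  intro t _
  have h5 := pow_expand p x (fun _ => 1) F M t
  simp only [one_mul, prod_const_one] at h5
  rw [← h5, norm_pow, ← pow_mul, mul_comm p 2]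


lemma ch_val (M : ℕ) (m : ℤ) (g : ZMod M) : ee ((m : ℝ) * ((g.val : ℝ) / M)) = ch M m g := by
  unfold ch
  congr 1
  ring

lemma ch_negt (M : ℕ) [NeZero M] (n : ℤ) (t : ZMod M) : ch M n (-t) = ch M (-n) t := by
  have h1 : ch M n t * ch M n (-t) = 1 := by
    rw [← ch_addt, add_neg_cancel]
    unfold ch
    simp [ee_zero]
  have h2 : ch M n t * ch M (-n) t = 1 := by
    rw [← ch_addn, add_neg_cancel, ch_zero]
  have h3 : ch M n t ≠ 0 := by
    intro h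
    rw [h, zero_mul] at h1
    exact zero_ne_one h1
  exact mul_left_cancel₀ h3 (h1.trans h2.symm)

/-- product of the sum and the short geometric sum -/
lemma short (M L Z : ℕ) [NeZero M] (f : ℤ → ℝ) (hf : ∀ m, f m ≠ 0 → |m| ≤ Z) (g b : ZMod M) :
    (∑ m ∈ Icc (-(Z : ℤ)) Z, (f m : ℂ) * ch M m (g + b)) * ∑ v ∈ range L, ch M (v : ℤ) b =
      ∑ y ∈ Icc (-((Z : ℤ) + L)) Z, sw f L y ((g.val : ℝ) / M) * ch M (y + L) b := by
  have h1 : ∀ y ∈ Icc (-((Z : ℤ) + L)) Z, sw f L y ((g.val : ℝ) / M) * ch M (y + L) b =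
      ∑ m ∈ (Ioc y (y + (L : ℤ))).filter (fun m : ℤ => |m| ≤ (Z : ℤ)), (f m : ℂ) * ch M m g * ch M (y + L) b := by
    intro y _
    unfold sw
    rw [sum_mul, sum_filter_of_ne]
    · apply sum_congr rfl
      intro m _
      rw [ch_val]
    · intro m _ hne
      apply hf
      intro h0
      apply hne
      rw [h0]
      simp
  rw [sum_congr rfl h1]
  have h2 : ∀ y m : ℤ, (y ∈ Icc (-((Z : ℤ) + L)) (Z : ℤ) ∧ m ∈ (Ioc y (y + (L : ℤ))).filter (fun m : ℤ => |m| ≤ (Z : ℤ))) ↔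
      (y ∈ Ico (m - L) m ∧ m ∈ Icc (-(Z : ℤ)) Z) := by
    intro y m
    simp only [mem_Icc, mem_filter, mem_Ioc, mem_Ico, abs_le]
    constructor
    · rintro ⟨h3, h4, h5⟩
      exact ⟨⟨by linarith, by linarith⟩, by linarith, by linarith⟩
    · rintro ⟨h3, h4⟩
      exact ⟨⟨by linarith, by linarith⟩, ⟨by linarith, by linarith⟩, by linarith, by linarith⟩
  rw [sum_comm' h2, sum_mul]
  apply sum_congr rfl
  intro m _
  rw [mul_sum]
  apply sum_nbij' (fun v : ℕ => m + v - L) (fun y : ℤ => (y + L - m).toNat)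
  · intro v hv
    rw [mem_range] at hv
    rw [mem_Ico]
    constructor <;> omega
  · intro y hy
    rw [mem_Ico] at hy
    rw [mem_range]
    omega
  · intro v _
    omega
  · intro y hy
    rw [mem_Ico] at hy
    omega
  · intro v _
    have h3 : m + (v : ℤ) - L + L = m + v := by ring
    rw [h3, ch_addt, ch_addn]
    ring

/-- the first factor of the supremum -/
lemma sup1 (M H Z : ℕ) [NeZero M] (f : ℤ → ℝ) (hf : ∀ m, f m ≠ 0 → |m| ≤ Z) (S : ℝ) (hH : 1 ≤ H)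
    (hM : 2 * Z + 2 * H < M)
    (hS : ∀ α : ℝ, ∑ y ∈ Icc (-((Z : ℤ) + 2 * H)) Z, ‖sw f (2 * H) y α‖ ^ 2 ≤ S) (g : ZMod M) :
    ∑ b : ZMod M, ‖∑ m ∈ Icc (-(Z : ℤ)) Z, (f m : ℂ) * ch M m (g + b)‖ ^ 2 * FL M (2 * H) b ≤
      M * S / (2 * H : ℕ) := by
  have hL0 : (0 : ℝ) < (2 * H : ℕ) := by
    have : 0 < 2 * H := by omega
    exact_mod_cast this
  have h1 : ∀ b : ZMod M, ‖∑ m ∈ Icc (-(Z : ℤ)) Z, (f m : ℂ) * ch M m (g + b)‖ ^ 2 * FL M (2 * H) b =
      (1 / (2 * H : ℕ) : ℝ) * ‖∑ y ∈ Icc (-((Z : ℤ) + (2 * H : ℕ))) Z,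
        sw f (2 * H) y ((g.val : ℝ) / M) * ch M (y + (2 * H : ℕ)) b‖ ^ 2 := by
    intro b
    rw [← short M (2 * H) Z f hf g b, norm_mul, mul_pow]
    unfold FL
    ring
  rw [sum_congr rfl fun b _ => h1 b, ← mul_sum]
  rw [parseval M (Icc (-((Z : ℤ) + (2 * H : ℕ))) Z) (fun y => sw f (2 * H) y ((g.val : ℝ) / M))
    (fun y => y + (2 * H : ℕ))]
  · have h2 := hS ((g.val : ℝ) / M)
    have h3 : (-((Z : ℤ) + (2 * H : ℕ))) = (-((Z : ℤ) + 2 * H)) := by push_cast; ring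
    rw [h3]
    have hM0 : (0 : ℝ) ≤ M := Nat.cast_nonneg _
    calc (1 / (2 * H : ℕ) : ℝ) * (M * ∑ y ∈ Icc (-((Z : ℤ) + 2 * H)) Z,
          ‖sw f (2 * H) y ((g.val : ℝ) / M)‖ ^ 2) ≤ (1 / (2 * H : ℕ) : ℝ) * (M * S) := by
          apply mul_le_mul_of_nonneg_left _ (by positivity)
          exact mul_le_mul_of_nonneg_left h2 hM0
      _ = M * S / (2 * H : ℕ) := by ring
  · intro i hi j hj hd
    rw [mem_Icc] at hi hj
    have h3 : |(i + (2 * H : ℕ)) - (j + (2 * H : ℕ))| < (M : ℤ) := by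
      rw [abs_lt]
      constructor <;> omega
    have := Int.eq_zero_of_abs_lt_dvd hd h3
    omega

/-- the second factor of the supremum -/
lemma sup2 (M L : ℕ) [NeZero M] (hL : 1 ≤ L) (w : ℤ → ℂ) (T : Finset ℤ)
    (hT : ∀ n ∈ T, ∀ n' ∈ T, |n - n'| < (M : ℤ)) (g : ZMod M) :
    ∑ b : ZMod M, ‖∑ n ∈ T, w n * ch M (-n) (g + b)‖ ^ 2 * FL M L b ≤
      L * (M * ∑ n ∈ T, ‖w n‖ ^ 2) := by
  have h1 : ∑ b : ZMod M, ‖∑ n ∈ T, w n * ch M (-n) b‖ ^ 2 = M * ∑ n ∈ T, ‖w n‖ ^ 2 := by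
    apply parseval
    intro i hi j hj hd
    have h3 : |(-i) - (-j)| < (M : ℤ) := by
      have := hT i hi j hj
      rw [abs_lt] at this ⊢
      constructor <;> linarith [this.1, this.2]
    have := Int.eq_zero_of_abs_lt_dvd hd h3
    omega
  rw [← h1, ← Equiv.sum_comp (Equiv.addLeft g) (fun b => ‖∑ n ∈ T, w n * ch M (-n) b‖ ^ 2), mul_sum]
  apply sum_le_sum
  intro b _
  rw [mul_comm]
  exact mul_le_mul_of_nonneg_right (FL_le M L hL b) (by positivity)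


/-- orthogonality: the main identity -/
lemma ident (M x Z R : ℕ) [NeZero M] (s : ℕ → ℤ) (f : ℤ → ℝ) (w : ℤ → ℂ) (T : Finset ℤ) (cc : ℕ → ℂ)
    (hf : ∀ m, f m ≠ 0 → |m| ≤ Z) (hs : ∀ j ∈ Icc 1 x, |s j| ≤ R) (hT : ∀ n ∈ T, |n| ≤ R)
    (hM : Z + 2 * R < M) :
    ∑ a : ZMod M, (∑ m ∈ Icc (-(Z : ℤ)) Z, (f m : ℂ) * ch M m a) * (∑ n ∈ T, w n * ch M (-n) a) *
      (∑ j ∈ Icc 1 x, cc j * ch M (-(s j)) a) =
      M * ∑ j ∈ Icc 1 x, cc j * ∑ n ∈ T, w n * (f (n + s j) : ℂ) := by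
  have h1 : ∀ a : ZMod M, (∑ m ∈ Icc (-(Z : ℤ)) Z, (f m : ℂ) * ch M m a) * (∑ n ∈ T, w n * ch M (-n) a) *
      (∑ j ∈ Icc 1 x, cc j * ch M (-(s j)) a) =
      ∑ j ∈ Icc 1 x, ∑ n ∈ T, ∑ m ∈ Icc (-(Z : ℤ)) Z, cc j * w n * (f m : ℂ) * ch M (m + -n + -(s j)) a := by
    intro a
    rw [mul_comm, sum_mul]
    apply sum_congr rfl
    intro j _
    rw [mul_comm (∑ m ∈ Icc (-(Z : ℤ)) Z, (f m : ℂ) * ch M m a), sum_mul, mul_sum]
    apply sum_congr rfl
    intro n _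
    rw [mul_sum, mul_sum]
    apply sum_congr rfl
    intro m _
    rw [ch_addn, ch_addn]
    ring
  rw [sum_congr rfl fun a _ => h1 a, sum_comm, mul_sum]
  apply sum_congr rfl
  intro j hj
  rw [sum_comm, mul_sum, mul_sum]
  apply sum_congr rfl
  intro n hn
  rw [sum_comm]
  have h2 : ∀ m ∈ Icc (-(Z : ℤ)) Z, ∑ a : ZMod M, cc j * w n * (f m : ℂ) * ch M (m + -n + -(s j)) a =
      if m = n + s j then cc j * w n * (f m : ℂ) * M else 0 := by
    intro m hm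
    rw [← mul_sum, ortho]
    rw [mem_Icc] at hm
    have h3 := abs_le.1 (hs j hj)
    have h4 := abs_le.1 (hT n hn)
    by_cases h : m = n + s j
    · rw [if_pos h, if_pos]
      rw [h]
      ring_nf
      exact dvd_zero _
    · rw [if_neg h, if_neg, mul_zero]
      intro hd
      apply h
      have h5 : |m + -n + -(s j)| < (M : ℤ) := by
        rw [abs_lt]
        constructor <;> omega
      have := Int.eq_zero_of_abs_lt_dvd hd h5
      omega
  rw [sum_congr rfl h2, sum_ite_eq']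
  by_cases h : n + s j ∈ Icc (-(Z : ℤ)) Z
  · rw [if_pos h]
    ring
  · rw [if_neg h]
    have h3 : f (n + s j) = 0 := by
      by_contra h4
      apply h
      rw [mem_Icc]
      exact abs_le.1 (hf _ h4)
    rw [h3]
    simp

/-- the shifted family sum as a convolution with the Fejer kernel -/
lemma convo (M x H : ℕ) [NeZero M] (c : ℤ) (s : ℕ → ℤ) (cc : ℕ → ℂ) (hH : 1 ≤ H)
    (hs : ∀ j ∈ Icc 1 x, c < s j ∧ s j ≤ c + H) (hM : 4 * H < M) (a : ZMod M) :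
    (M : ℂ) * ∑ j ∈ Icc 1 x, cc j * ch M (-(s j)) a =
      ch M (-c) a * ∑ b : ZMod M,
        (∑ j ∈ Icc 1 x, (cc j / (1 - (((s j - c).toNat : ℕ) : ℂ) / ((2 * H : ℕ) : ℂ))) * ch M (c - s j) (a - b)) *
          (FL M (2 * H) b : ℂ) := by
  have hH0 : ((2 * H : ℕ) : ℂ) ≠ 0 := by
    have : 2 * H ≠ 0 := by omega
    exact_mod_cast this
  have h1 : ∑ b : ZMod M,
        (∑ j ∈ Icc 1 x, (cc j / (1 - (((s j - c).toNat : ℕ) : ℂ) / ((2 * H : ℕ) : ℂ))) * ch M (c - s j) (a - b)) *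
          (FL M (2 * H) b : ℂ) =
      ∑ j ∈ Icc 1 x, ∑ b : ZMod M, (cc j / (1 - (((s j - c).toNat : ℕ) : ℂ) / ((2 * H : ℕ) : ℂ))) * ch M (c - s j) a *
        (ch M (((s j - c).toNat : ℕ) : ℤ) b * (FL M (2 * H) b : ℂ)) := by
    rw [sum_comm]
    apply sum_congr rfl
    intro b _
    rw [sum_mul]
    apply sum_congr rfl
    intro j hj
    have h2 := hs j hj
    have h3 : (((s j - c).toNat : ℕ) : ℤ) = -(c - s j) := by omega
    rw [h3, sub_eq_add_neg a b, ch_addt, ch_negt]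
    ring
  rw [h1, mul_sum, mul_sum]
  apply sum_congr rfl
  intro j hj
  have h2 := hs j hj
  have h3 : (s j - c).toNat ≤ 2 * H := by omega
  have h4 : (s j - c).toNat ≤ H := by omega
  rw [← mul_sum, FL_coef M (2 * H) _ (by omega) h3 (by omega)]
  have h5 : (1 - (((s j - c).toNat : ℕ) : ℂ) / ((2 * H : ℕ) : ℂ)) ≠ 0 := by
    intro h6
    rw [sub_eq_zero, eq_div_iff hH0, one_mul] at h6
    have h7 : 2 * H = (s j - c).toNat := by exact_mod_cast h6
    omega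
  have h6 : ch M (-(s j)) a = ch M (-c) a * ch M (c - s j) a := by
    rw [← ch_addn]
    congr 1
    ring
  rw [h6]
  have h7 := div_mul_cancel₀ (cc j) h5
  linear_combination (-(M * ch M (-c) a * ch M (c - s j) a : ℂ)) * h7

/-- the coefficients of the modified family sum -/
lemma coef_le (H u : ℕ) (hH : 1 ≤ H) (hu : u ≤ H) (z : ℂ) (hz : ‖z‖ ≤ 1) :
    ‖z / (1 - ((u : ℕ) : ℂ) / ((2 * H : ℕ) : ℂ))‖ ≤ 2 := by
  have hH0 : (0 : ℝ) < ((2 * H : ℕ) : ℝ) := by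
    have : 0 < 2 * H := by omega
    exact_mod_cast this
  have h1 : (1 : ℂ) - ((u : ℕ) : ℂ) / ((2 * H : ℕ) : ℂ) = ((1 - (u : ℝ) / ((2 * H : ℕ) : ℝ) : ℝ) : ℂ) := by
    push_cast
    ring
  have h2 : (1 / 2 : ℝ) ≤ 1 - (u : ℝ) / ((2 * H : ℕ) : ℝ) := by
    have h3 : (u : ℝ) / ((2 * H : ℕ) : ℝ) ≤ 1 / 2 := by
      rw [div_le_iff₀ hH0]
      push_cast
      have : (u : ℝ) ≤ H := by exact_mod_cast hu
      linarith
    linarith
  rw [h1, norm_div, Complex.norm_real, Real.norm_of_nonneg (by linarith), div_le_iff₀ (by linarith)]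
  linarith

lemma aux_sum (M : ℕ) [NeZero M] (P q : ℂ) (X Y : ZMod M → ℂ) :
    P * (q * ∑ b, X b * Y b) = ∑ b, P * q * X b * Y b := by
  rw [← mul_assoc, mul_sum]
  exact sum_congr rfl fun b _ => by ring

theorem main : S_FAM := by
  intro p x H Z c s f w T S hp hH hs hf hS
  -- bounds and modulus
  obtain ⟨R, hRs, hRT⟩ : ∃ R : ℕ, (∀ j ∈ Icc 1 x, |s j| ≤ R) ∧ (∀ n ∈ T, |n| ≤ R) := by
    refine ⟨∑ j ∈ Icc 1 x, (s j).natAbs + ∑ n ∈ T, n.natAbs, ?_, ?_⟩
    · intro j hj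
      have h1 : (s j).natAbs ≤ ∑ j ∈ Icc 1 x, (s j).natAbs :=
        single_le_sum (f := fun j => (s j).natAbs) (fun _ _ => Nat.zero_le _) hj
      rw [Int.abs_eq_natAbs]
      omega
    · intro n hn
      have h1 : n.natAbs ≤ ∑ n ∈ T, n.natAbs :=
        single_le_sum (f := fun n : ℤ => n.natAbs) (fun _ _ => Nat.zero_le _) hn
      rw [Int.abs_eq_natAbs]
      omega
  obtain ⟨M, hM0, hM1, hM2, hM3, hM4⟩ : ∃ M : ℕ, M ≠ 0 ∧ Z + 2 * R < M ∧ 2 * Z + 2 * H < M ∧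
      4 * H < M ∧ 2 * p * H < M := by
    refine ⟨2 * Z + 2 * R + 4 * H + 2 * p * H + 1, ?_, ?_, ?_, ?_, ?_⟩
    · omega
    · have : 0 ≤ 2 * p * H := Nat.zero_le _
      omega
    · have : 0 ≤ 2 * p * H := Nat.zero_le _
      omega
    · have : 0 ≤ 2 * p * H := Nat.zero_le _
      omega
    · omega
  have : NeZero M := ⟨hM0⟩
  have hMr : (0 : ℝ) < M := by exact_mod_cast Nat.pos_of_ne_zero hM0
  set W : ℝ := ∑ n ∈ T, ‖w n‖ ^ 2 with hW
  set F2 : ℝ := ∑ m ∈ Icc (-(Z : ℤ)) Z, f m ^ 2 with hF2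
  have hW0 : 0 ≤ W := sum_nonneg fun _ _ => by positivity
  have hF0 : 0 ≤ F2 := sum_nonneg fun _ _ => by positivity
  -- the signs
  set A : ℕ → ℂ := fun j => ∑ n ∈ T, w n * f (n + s j) with hA
  set cc : ℕ → ℂ := fun j => (starRingEnd ℂ) (A j) / ‖A j‖ with hcc
  have hcc1 : ∀ j, ‖cc j‖ ≤ 1 := by
    intro j
    rw [hcc]
    simp only [norm_div, RCLike.norm_conj, Complex.norm_real, norm_norm]
    exact div_self_le_one _
  have hccA : ∀ j, cc j * A j = (‖A j‖ : ℂ) := by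
    intro j
    rw [hcc]
    simp only
    by_cases h0 : A j = 0
    · rw [h0]; simp
    · have h1 : (‖A j‖ : ℂ) ≠ 0 := by
        have := norm_ne_zero_iff.mpr h0
        exact_mod_cast this
      rw [div_mul_eq_mul_div, div_eq_iff h1, mul_comm, Complex.mul_conj']
      ring
  set T0 : ℝ := ∑ j ∈ Icc 1 x, ‖A j‖ with hT0
  have hT00 : 0 ≤ T0 := sum_nonneg fun _ _ => norm_nonneg _
  set Sf : ZMod M → ℂ := fun a => ∑ m ∈ Icc (-(Z : ℤ)) Z, (f m : ℂ) * ch M m a with hSf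
  set Wd : ZMod M → ℂ := fun a => ∑ n ∈ T, w n * ch M (-n) a with hWd
  set d : ℕ → ℂ := fun j => cc j / (1 - (((s j - c).toNat : ℕ) : ℂ) / ((2 * H : ℕ) : ℂ)) with hd
  set Et : ZMod M → ℂ := fun g => ∑ j ∈ Icc 1 x, d j * ch M (c - s j) g with hEt
  set G : ZMod M → ℝ := fun g => ∑ b : ZMod M, ‖Sf (g + b)‖ * ‖Wd (g + b)‖ * FL M (2 * H) b with hG
  have hG0 : ∀ g, 0 ≤ G g := fun g => sum_nonneg fun b _ =>
    mul_nonneg (mul_nonneg (norm_nonneg _) (norm_nonneg _)) (FL_nonneg _ _ _)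
  -- step 1: the identity
  have step1 : (M : ℝ) ^ 2 * T0 ≤ ∑ g : ZMod M, ‖Et g‖ * G g := by
    have h1 := ident M x Z R s f w T cc hf hRs hRT hM1
    have h2 : ∑ j ∈ Icc 1 x, cc j * ∑ n ∈ T, w n * (f (n + s j) : ℂ) = (T0 : ℂ) := by
      rw [hT0]
      push_cast
      exact sum_congr rfl fun j _ => hccA j
    rw [h2] at h1
    have h3 : ((M : ℂ)) ^ 2 * T0 = ∑ a : ZMod M, ∑ b : ZMod M,
        Sf a * Wd a * ch M (-c) a * Et (a - b) * (FL M (2 * H) b : ℂ) := by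
      have h4 : ((M : ℂ)) ^ 2 * T0 = M * (M * T0) := by ring
      rw [h4, ← h1, mul_sum]
      apply sum_congr rfl
      intro a _
      have h5 := convo M x H c s cc hH hs hM3 a
      have h6 : (M : ℂ) * ((∑ m ∈ Icc (-(Z : ℤ)) Z, (f m : ℂ) * ch M m a) * (∑ n ∈ T, w n * ch M (-n) a) *
          (∑ j ∈ Icc 1 x, cc j * ch M (-(s j)) a)) = Sf a * Wd a *
          ((M : ℂ) * (∑ j ∈ Icc 1 x, cc j * ch M (-(s j)) a)) := by
        rw [hSf, hWd]
        ring
      rw [h6, h5]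
      exact aux_sum M (Sf a * Wd a) (ch M (-c) a) (fun b => Et (a - b)) (fun b => (FL M (2 * H) b : ℂ))
    have h4 : ((M : ℝ)) ^ 2 * T0 = ‖((M : ℂ)) ^ 2 * T0‖ := by
      rw [norm_mul, norm_pow, Complex.norm_natCast, Complex.norm_real, Real.norm_of_nonneg hT00]
    rw [h4, h3]
    calc ‖∑ a : ZMod M, ∑ b : ZMod M, Sf a * Wd a * ch M (-c) a * Et (a - b) * (FL M (2 * H) b : ℂ)‖
        ≤ ∑ a : ZMod M, ∑ b : ZMod M, ‖Sf a * Wd a * ch M (-c) a * Et (a - b) * (FL M (2 * H) b : ℂ)‖ :=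
          (norm_sum_le _ _).trans (sum_le_sum fun a _ => norm_sum_le _ _)
      _ = ∑ b : ZMod M, ∑ a : ZMod M, ‖Sf a‖ * ‖Wd a‖ * ‖Et (a - b)‖ * FL M (2 * H) b := by
          rw [sum_comm]
          apply sum_congr rfl
          intro b _
          apply sum_congr rfl
          intro a _
          rw [norm_mul, norm_mul, norm_mul, norm_mul, ch_norm, mul_one, Complex.norm_real,
            Real.norm_of_nonneg (FL_nonneg _ _ _)]
      _ = ∑ b : ZMod M, ∑ g : ZMod M, ‖Et g‖ * (‖Sf (g + b)‖ * ‖Wd (g + b)‖ * FL M (2 * H) b) := by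
          apply sum_congr rfl
          intro b _
          rw [← Equiv.sum_comp (Equiv.addRight b)]
          apply sum_congr rfl
          intro g _
          simp only [Equiv.coe_addRight, add_sub_cancel_right]
          ring
      _ = ∑ g : ZMod M, ‖Et g‖ * G g := by
          rw [sum_comm]
          apply sum_congr rfl
          intro g _
          rw [hG]
          simp only
          rw [mul_sum]
  -- step 2: the supremum of G
  have step2 : ∀ g, G g ≤ M * Real.sqrt (S * W) := by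
    intro g
    have h1 := cauchy univ (fun b : ZMod M => ‖Sf (g + b)‖) (fun b => ‖Wd (g + b)‖)
      (fun b => FL M (2 * H) b) (fun b _ => FL_nonneg _ _ _)
    have h2 := sup1 M H Z f hf S hH hM2 hS g
    have h3 := sup2 M (2 * H) (by omega) w T (by
      intro n hn n' hn'
      have h4 := abs_le.1 (hRT n hn)
      have h5 := abs_le.1 (hRT n' hn')
      rw [abs_lt]
      constructor <;> omega) g
    have hL0 : (0 : ℝ) < (2 * H : ℕ) := by
      have : 0 < 2 * H := by omega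
      exact_mod_cast this
    have h4 : G g ^ 2 ≤ (M : ℝ) ^ 2 * (S * W) := by
      refine h1.trans ?_
      calc (∑ b : ZMod M, ‖Sf (g + b)‖ ^ 2 * FL M (2 * H) b) * (∑ b : ZMod M, ‖Wd (g + b)‖ ^ 2 * FL M (2 * H) b)
          ≤ (M * S / (2 * H : ℕ)) * ((2 * H : ℕ) * (M * W)) := by
            apply mul_le_mul h2 h3
            · exact sum_nonneg fun b _ => mul_nonneg (sq_nonneg _) (FL_nonneg _ _ _)
            · exact (sum_nonneg fun b _ => mul_nonneg (sq_nonneg _) (FL_nonneg _ _ _)).trans h2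
        _ = (M : ℝ) ^ 2 * (S * W) := by field_simp
    have h5 := Real.abs_le_sqrt h4
    rw [Real.sqrt_mul (by positivity), Real.sqrt_sq hMr.le] at h5
    exact (le_abs_self _).trans h5
  -- step 3: the sum of G
  have step3 : ∑ g : ZMod M, G g ≤ (M : ℝ) ^ 2 * Real.sqrt (F2 * W) := by
    have h1 : ∑ g : ZMod M, G g = M * ∑ a : ZMod M, ‖Sf a‖ * ‖Wd a‖ := by
      rw [hG]
      simp only
      rw [sum_comm]
      have h2 : ∀ b : ZMod M, ∑ g : ZMod M, ‖Sf (g + b)‖ * ‖Wd (g + b)‖ * FL M (2 * H) b =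
          FL M (2 * H) b * ∑ a : ZMod M, ‖Sf a‖ * ‖Wd a‖ := by
        intro b
        rw [← Equiv.sum_comp (Equiv.addRight b) (fun a => ‖Sf a‖ * ‖Wd a‖), mul_sum]
        apply sum_congr rfl
        intro g _
        simp only [Equiv.coe_addRight]
        ring
      rw [sum_congr rfl fun b _ => h2 b, ← sum_mul, FL_sum M (2 * H) (by omega) (by omega)]
    have h2 := cauchy univ (fun a : ZMod M => ‖Sf a‖) (fun a => ‖Wd a‖) (fun _ => 1) (fun _ _ => zero_le_one)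
    simp only [mul_one] at h2
    have h3 : ∑ a : ZMod M, ‖Sf a‖ ^ 2 = M * F2 := by
      rw [hSf]
      simp only
      rw [parseval M (Icc (-(Z : ℤ)) Z) (fun m => (f m : ℂ)) (fun m => m)]
      · rw [hF2]
        congr 1
        apply sum_congr rfl
        intro m _
        rw [Complex.norm_real, Real.norm_eq_abs, sq_abs]
      · intro i hi j hj hd
        rw [mem_Icc] at hi hj
        have h3 : |i - j| < (M : ℤ) := by
          rw [abs_lt]
          constructor <;> omega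
        have := Int.eq_zero_of_abs_lt_dvd hd h3
        omega
    have h4 : ∑ a : ZMod M, ‖Wd a‖ ^ 2 = M * W := by
      rw [hWd]
      simp only
      rw [parseval M T w (fun n => -n)]
      intro i hi j hj hd
      have h4 := abs_le.1 (hRT i hi)
      have h5 := abs_le.1 (hRT j hj)
      have h3 : |(-i) - (-j)| < (M : ℤ) := by
        rw [abs_lt]
        constructor <;> omega
      have := Int.eq_zero_of_abs_lt_dvd hd h3
      omega
    rw [h3, h4] at h2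
    have h5 : (M * F2) * (M * W) = (M : ℝ) ^ 2 * (F2 * W) := by ring
    rw [h5] at h2
    have h6 := Real.abs_le_sqrt h2
    rw [Real.sqrt_mul (by positivity), Real.sqrt_sq hMr.le] at h6
    rw [h1]
    calc (M : ℝ) * ∑ a : ZMod M, ‖Sf a‖ * ‖Wd a‖ ≤ M * (M * Real.sqrt (F2 * W)) :=
          mul_le_mul_of_nonneg_left ((le_abs_self _).trans h6) hMr.le
      _ = _ := by ring
  -- step 4: the moment
  have step4 : ∑ g : ZMod M, ‖Et g‖ ^ (2 * p) ≤ 4 ^ p * (M * energy p x s) := by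
    apply moment p x M H c s d hs _ hM4
    intro j hj
    have h2 := hs j hj
    exact coef_le H _ hH (by omega) (cc j) (hcc1 j)
  -- conclusion
  have h1 := holder univ (fun g : ZMod M => ‖Et g‖) G (fun _ _ => norm_nonneg _) (fun g _ => hG0 g) (2 * p) (by omega)
  have h2 : ∑ g : ZMod M, ‖Et g‖ ^ (2 * p) * G g ≤ (4 ^ p * (M * energy p x s)) * (M * Real.sqrt (S * W)) := by
    calc ∑ g : ZMod M, ‖Et g‖ ^ (2 * p) * G g ≤ ∑ g : ZMod M, ‖Et g‖ ^ (2 * p) * (M * Real.sqrt (S * W)) :=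
          sum_le_sum fun g _ => mul_le_mul_of_nonneg_left (step2 g) (by positivity)
      _ = (∑ g : ZMod M, ‖Et g‖ ^ (2 * p)) * (M * Real.sqrt (S * W)) := by rw [sum_mul]
      _ ≤ _ := mul_le_mul_of_nonneg_right step4 (by positivity)
  have h3 : (∑ g : ZMod M, G g) ^ (2 * p - 1) ≤ ((M : ℝ) ^ 2 * Real.sqrt (F2 * W)) ^ (2 * p - 1) :=
    pow_le_pow_left₀ (sum_nonneg fun g _ => hG0 g) step3 _
  have h4 : ((M : ℝ) ^ 2 * T0) ^ (2 * p) ≤ ((4 ^ p * (M * energy p x s)) * (M * Real.sqrt (S * W))) *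
      ((M : ℝ) ^ 2 * Real.sqrt (F2 * W)) ^ (2 * p - 1) := by
    calc ((M : ℝ) ^ 2 * T0) ^ (2 * p) ≤ (∑ g : ZMod M, ‖Et g‖ * G g) ^ (2 * p) :=
          pow_le_pow_left₀ (by positivity) step1 _
      _ ≤ _ := h1
      _ ≤ _ := mul_le_mul h2 h3 (pow_nonneg (sum_nonneg fun g _ => hG0 g) _) (by positivity)
  have h5 : ((M : ℝ) ^ 2) ^ (2 * p) * T0 ^ (2 * p) ≤ ((M : ℝ) ^ 2) ^ (2 * p) *
      (4 ^ p * energy p x s * Real.sqrt (S * W) * (Real.sqrt (F2 * W)) ^ (2 * p - 1)) := by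
    rw [← mul_pow]
    refine h4.trans (le_of_eq ?_)
    rw [mul_pow]
    obtain ⟨k, hk⟩ : ∃ k, 2 * p = k + 1 := ⟨2 * p - 1, by omega⟩
    rw [hk, Nat.add_sub_cancel]
    ring
  exact le_of_mul_le_mul_left h5 (by positivity)

end Pool.Agent.helper24_UT.Fam
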