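import Pool.Agent.helper24_UT.Stm17
import Pool.Agent.H373R2.T7.LamZ2
import Pool.Agent.H373R2.T7.Telesc

set_option autoImplicit false

namespace Pool.Agent.helper24_UT.Fbe

open Finset
open Pool.Agent.helper24_UT
open Pool.Agent.H373R2.T7 (lamI lamzI lamz Vz pz energy)
open Pool.Agent.H807R2.Dav (ee)

theorem tele {k : ℕ} (a b : Fin k → ℝ) :
    ∏ i, a i - ∏ i, b i = ∑ j, ∏ i, (if i < j then b i else if i = j then a i - b i else a i) := by
  have h := Finset.prod_sub_ordered (univ : Finset (Fin k)) a (fun i => a i - b i)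
  simp only [sub_sub_cancel] at h
  rw [h, sub_sub_cancel]
  refine sum_congr rfl fun j _ => ?_
  have h1 := Finset.prod_filter_mul_prod_filter_not (univ : Finset (Fin k)) (fun i => i < j)
    (fun i => if i < j then b i else if i = j then a i - b i else a i)
  rw [← h1]
  have h2 : (univ : Finset (Fin k)).filter (fun i => ¬ i < j) =
      insert j ((univ : Finset (Fin k)).filter (fun i => j < i)) := by
    ext i
    simp only [mem_filter, mem_univ, true_and, mem_insert, not_lt]
    constructor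
    · intro h
      rcases h.lt_or_eq with h | h
      · exact Or.inr h
      · exact Or.inl h.symm
    · rintro (h | h)
      · exact h.symm.le
      · exact h.le
  have h3 : ∏ i ∈ (univ : Finset (Fin k)).filter (fun i => i < j),
      (if i < j then b i else if i = j then a i - b i else a i) =
      ∏ i ∈ (univ : Finset (Fin k)).filter (fun i => i < j), b i := by
    refine prod_congr rfl fun i hi => ?_
    rw [mem_filter] at hi
    rw [if_pos hi.2]
  have h4 : ∏ i ∈ (univ : Finset (Fin k)).filter (fun i => j < i),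
      (if i < j then b i else if i = j then a i - b i else a i) =
      ∏ i ∈ (univ : Finset (Fin k)).filter (fun i => j < i), a i := by
    refine prod_congr rfl fun i hi => ?_
    rw [mem_filter] at hi
    rw [if_neg (not_lt.2 hi.2.le), if_neg hi.2.ne']
  rw [h2, prod_insert (by simp), h3, h4, if_neg (lt_irrefl j), if_pos rfl]
  ring

theorem lamI_le_log {m : ℤ} {X : ℝ} (hX : 1 ≤ X) (hm : (m : ℝ) ≤ X) : lamI m ≤ Real.log X := by
  unfold lamI
  split_ifs with h
  · have h1 : ((m.toNat : ℕ) : ℝ) = (m : ℝ) := by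
      have : ((m.toNat : ℕ) : ℤ) = m := Int.toNat_of_nonneg (by omega)
      exact_mod_cast this
    refine (ArithmeticFunction.vonMangoldt_le_log).trans ?_
    rw [h1]
    apply Real.log_le_log _ hm
    exact_mod_cast (by omega : 0 < m)
  · exact Real.log_nonneg hX

theorem lamzI_le (z : ℕ) (m : ℤ) : lamzI z m ≤ (Vz z)⁻¹ := by
  have h0 : 0 ≤ (Vz z)⁻¹ := (inv_pos.2 (Pool.Agent.H373R2.T7.Vz_pos z)).le
  unfold lamzI lamz
  split_ifs
  · exact le_rfl
  · exact h0
  · exact h0

open Classical in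
/-- counting the bad vectors coordinate by coordinate -/
theorem count_bad {k : ℕ} (x : Fin k → ℕ) (bad : Fin k → (Fin k → ℕ) → Prop) (δ : ℝ) (hδ : 0 ≤ δ)
    (h : ∀ j, ∀ m ∈ Fintype.piFinset (fun i => Icc 1 (x i)),
      (((Icc 1 (x j)).filter (fun v => bad j (Function.update m j v))).card : ℝ) ≤ x j * δ) :
    (((Fintype.piFinset (fun i => Icc 1 (x i))).filter (fun m => ∃ j, bad j m)).card : ℝ) ≤
      k * δ * ∏ i, (x i : ℝ) := by
  have h1 : ∀ j : Fin k, (((Fintype.piFinset (fun i => Icc 1 (x i))).filter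
      (fun m => bad j m)).card : ℝ) ≤ δ * ∏ i, (x i : ℝ) := by
    intro j
    rcases Nat.eq_zero_or_pos (x j) with h0 | h0
    · have he : Fintype.piFinset (fun i => Icc 1 (x i)) = ∅ := by
        rw [Fintype.piFinset_eq_empty]
        exact ⟨j, by rw [h0]; rfl⟩
      rw [he]
      simp only [filter_empty, card_empty, Nat.cast_zero]
      exact mul_nonneg hδ (prod_nonneg fun _ _ => Nat.cast_nonneg _)
    · have h2 := Pool.Agent.H373R2.T7.avg_coord (fun i => Icc 1 (x i)) j
        (fun m => if bad j m then (1 : ℝ) else 0)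
      have h3 : ∑ m ∈ Fintype.piFinset (fun i => Icc 1 (x i)),
          ∑ v ∈ Icc 1 (x j), (if bad j (Function.update m j v) then (1 : ℝ) else 0) ≤
          ∑ m ∈ Fintype.piFinset (fun i => Icc 1 (x i)), (x j * δ) := by
        refine sum_le_sum fun m hm => ?_
        have h4 := h j m hm
        rw [sum_boole]
        exact h4
      rw [h2, sum_const, nsmul_eq_mul, sum_boole, Fintype.card_piFinset] at h3
      simp only [Nat.card_Icc, Nat.add_sub_cancel] at h3
      push_cast at h3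
      have hx : (0 : ℝ) < x j := by exact_mod_cast h0
      have h5 : (x j : ℝ) * (((Fintype.piFinset (fun i => Icc 1 (x i))).filter
          (fun m => bad j m)).card : ℝ) ≤ (x j : ℝ) * (δ * ∏ i, (x i : ℝ)) := by
        calc _ ≤ _ := h3
          _ = _ := by ring
      exact le_of_mul_le_mul_left h5 hx
  have h6 : (Fintype.piFinset (fun i => Icc 1 (x i))).filter (fun m => ∃ j, bad j m) ⊆
      (univ : Finset (Fin k)).biUnion (fun j => (Fintype.piFinset (fun i => Icc 1 (x i))).filter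
        (fun m => bad j m)) := by
    intro m hm
    rw [mem_filter] at hm
    obtain ⟨hm1, j, hj⟩ := hm
    rw [mem_biUnion]
    exact ⟨j, mem_univ j, mem_filter.2 ⟨hm1, hj⟩⟩
  have h7 := (card_le_card h6).trans card_biUnion_le
  have h8 : (((Fintype.piFinset (fun i => Icc 1 (x i))).filter (fun m => ∃ j, bad j m)).card : ℝ) ≤
      ∑ j : Fin k, (((Fintype.piFinset (fun i => Icc 1 (x i))).filter
      (fun m => bad j m)).card : ℝ) := by exact_mod_cast h7
  refine h8.trans ((sum_le_sum fun j _ => h1 j).trans (le_of_eq ?_))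
  rw [sum_const, card_univ, Fintype.card_fin, nsmul_eq_mul]
  ring

/-- one factor is taken out of the telescoping product -/
theorem prod_out {k : ℕ} (a b : Fin k → ℝ) (j : Fin k) (c : ℝ) :
    ∏ i, (if i < j then b i else if i = j then c else a i) =
      (∏ i, (if i < j then b i else if i = j then 1 else a i)) * c := by
  rw [← mul_prod_erase univ _ (mem_univ j),
    ← mul_prod_erase univ (fun i => if i < j then b i else if i = j then 1 else a i) (mem_univ j)]
  simp only [lt_irrefl, if_false, if_true, one_mul]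
  rw [mul_comm]
  congr 1
  refine prod_congr rfl fun i hi => ?_
  have : i ≠ j := (mem_erase.1 hi).1
  simp only [this, if_false]

/-- the weight -/
noncomputable def GG {k : ℕ} (z N : ℕ) (s : Fin k → ℕ → ℤ) (m : Fin k → ℕ) (j : Fin k) (n : ℕ) : ℝ :=
  if n ≤ N then lamI (n : ℤ) * ∏ i, (if i < j then lamzI z ((n : ℤ) + s i (m i)) else
    if i = j then 1 else lamI ((n : ℤ) + s i (m i))) else 0

theorem GG_update {k : ℕ} (z N : ℕ) (s : Fin k → ℕ → ℤ) (m : Fin k → ℕ) (j : Fin k) (v n : ℕ) :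
    GG z N s (Function.update m j v) j n = GG z N s m j n := by
  unfold GG
  congr 2
  refine prod_congr rfl fun i _ => ?_
  by_cases hi : i = j
  · subst hi
    simp
  · rw [Function.update_of_ne hi]

theorem split {k : ℕ} (z N : ℕ) (s : Fin k → ℕ → ℤ) (m : Fin k → ℕ) {n : ℕ} (hn : n ≤ N) :
    lamI (n : ℤ) * ∏ i, lamI ((n : ℤ) + s i (m i)) - lamzI z (n : ℤ) * ∏ i, lamzI z ((n : ℤ) + s i (m i)) =
      ∑ j, GG z N s m j n * Ed z ((n : ℤ) + s j (m j)) +
        Ed z (n : ℤ) * ∏ i, lamzI z ((n : ℤ) + s i (m i)) := by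
  have h1 := tele (fun i => lamI ((n : ℤ) + s i (m i))) (fun i => lamzI z ((n : ℤ) + s i (m i)))
  have h2 : ∀ j : Fin k, GG z N s m j n * Ed z ((n : ℤ) + s j (m j)) =
      lamI (n : ℤ) * ∏ i, (if i < j then lamzI z ((n : ℤ) + s i (m i)) else
        if i = j then lamI ((n : ℤ) + s i (m i)) - lamzI z ((n : ℤ) + s i (m i)) else
          lamI ((n : ℤ) + s i (m i))) := by
    intro j
    have h3 : ∏ i, (if i < j then lamzI z ((n : ℤ) + s i (m i)) else
        if i = j then lamI ((n : ℤ) + s i (m i)) - lamzI z ((n : ℤ) + s i (m i)) else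
          lamI ((n : ℤ) + s i (m i))) = ∏ i, (if i < j then lamzI z ((n : ℤ) + s i (m i)) else
        if i = j then Ed z ((n : ℤ) + s j (m j)) else lamI ((n : ℤ) + s i (m i))) := by
      refine prod_congr rfl fun i _ => ?_
      by_cases hi : i = j
      · subst hi
        simp [Ed]
      · simp only [hi, if_false]
    rw [h3, prod_out]
    unfold GG
    rw [if_pos hn]
    ring
  rw [sum_congr rfl fun j _ => h2 j, ← mul_sum, ← h1]
  unfold Ed
  ring

theorem main : ∀ θ : ℝ, S_FTW θ → S_BDH → S_BASE → S_FBE θ := by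
  classical
  intro θ hFTW hBDH hBASE k p e A B' C hp he
  obtain ⟨A', B, NB, hB⟩ := hBDH A (2 * k + 6)
  set U := A + A' + k + 5 with hU
  obtain ⟨B0, hF⟩ := hFTW p e (B' + 1) C (2 * k + 4) U A' hp he
  obtain ⟨E0', hBa⟩ := hBASE k (A' + 2) (B' + 1) A'
  refine ⟨max B0 E0', B, fun E1 => ?_⟩
  obtain ⟨N1, hF1⟩ := hF E1
  obtain ⟨N2, hBa1⟩ := hBa E1
  obtain ⟨N3, hV⟩ := Pool.Agent.H373R2.T7.Vz_inv_small E1
  obtain ⟨N4, hN4⟩ : ∃ N4 : ℕ, ∀ N : ℕ, N4 ≤ N → 2 ≤ Real.log (N : ℝ) := by
    have hlim : Filter.Tendsto (fun N : ℕ => Real.log (N : ℝ)) Filter.atTop Filter.atTop :=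
      Real.tendsto_log_atTop.comp (tendsto_natCast_atTop_atTop (R := ℝ))
    exact Filter.eventually_atTop.1 (hlim.eventually_ge_atTop 2)
  refine ⟨NB + N1 + N2 + N3 + N4 + (B' + 2), fun N hN H x c s hH hc hfam z hz1 hz2 => ?_⟩
  have hL2 : 2 ≤ Real.log (N : ℝ) := hN4 N (by omega)
  set L := Real.log (N : ℝ) with hL
  have hL1 : 1 ≤ L := by linarith
  have hL0 : 0 < L := by linarith
  have hN0 : (0 : ℝ) < N := by
    have : 0 < N := by omega
    exact_mod_cast this
  have hzB : L ^ B0 ≤ z := (pow_le_pow_right₀ hL1 (le_max_left _ _)).trans hz1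
  have hzE : L ^ E0' ≤ z := (pow_le_pow_right₀ hL1 (le_max_right _ _)).trans hz1
  have hz1' : 1 ≤ z := by
    have : (1 : ℝ) ≤ z := (one_le_pow₀ hL1).trans hz1
    exact_mod_cast this
  have hVz : (Vz z)⁻¹ ≤ L := hV N (by omega) z hz1' hz2
  -- sizes
  have hcard : (N : ℝ) * (B' + 2) ≤ (N : ℝ) ^ 2 := by
    have : ((B' + 2 : ℕ) : ℝ) ≤ N := by
      have : B' + 2 ≤ N := by omega
      exact_mod_cast this
    push_cast at this
    nlinarith
  have hlog2 : Real.log ((N : ℝ) * (B' + 2)) ≤ 2 * L := by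
    have h1 := Real.log_le_log (by positivity) hcard
    rw [Real.log_pow] at h1
    push_cast at h1
    exact h1
  have hsz : ∀ m ∈ Fintype.piFinset (fun i => Icc 1 (x i)), ∀ i, -((B' + 1 : ℕ) : ℤ) * N ≤ s i (m i) ∧
      s i (m i) ≤ ((B' + 1 : ℕ) : ℤ) * N := by
    intro m hm i
    have h1 := (hfam i).1 (m i) (Fintype.mem_piFinset.1 hm i)
    have h2 := abs_le.1 (hc i)
    have h3 : ((H i : ℕ) : ℤ) ≤ N := by exact_mod_cast (hH i).2
    push_cast
    constructor
    · nlinarith [h1.1, h2.1]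
    · nlinarith [h1.2, h2.2]
  have hI : ∀ m ∈ Fintype.piFinset (fun i => Icc 1 (x i)), ∀ n : ℕ, n ≤ N → ∀ i,
      lamI ((n : ℤ) + s i (m i)) ≤ 2 * L := by
    intro m hm n hn i
    refine (lamI_le_log (X := (N : ℝ) * (B' + 2)) ?_ ?_).trans hlog2
    · have h1 : (1 : ℝ) ≤ N := by
        have : 1 ≤ N := by omega
        exact_mod_cast this
      have h2 : (0 : ℝ) ≤ B' := Nat.cast_nonneg _
      nlinarith
    · have h1 := (hsz m hm i).2
      have h2 : ((n : ℤ) + s i (m i)) ≤ (N : ℤ) * (B' + 2) := by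
        have : (n : ℤ) ≤ N := by exact_mod_cast hn
        push_cast at h1
        nlinarith
      exact_mod_cast h2
  have hI0 : ∀ n : ℕ, n ≤ N → lamI (n : ℤ) ≤ 2 * L := by
    intro n hn
    have h1 : (1 : ℝ) ≤ N := by
      have : 1 ≤ N := by omega
      exact_mod_cast this
    have h2 := lamI_le_log (m := (n : ℤ)) (X := (N : ℝ)) h1 (by exact_mod_cast hn)
    linarith
  have hZ : ∀ w : ℤ, lamzI z w ≤ 2 * L := fun w => by
    have := (lamzI_le z w).trans hVz
    linarith
  have hInn := Pool.Agent.H373R2.T7.lamI_nonneg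
  have hZnn := Pool.Agent.H373R2.T7.lamzI_nonneg z
  have hpow : (2 * L) ^ (k + 1) ≤ L ^ (2 * k + 2) := by
    have h1 : 2 * L ≤ L ^ 2 := by nlinarith
    calc (2 * L) ^ (k + 1) ≤ (L ^ 2) ^ (k + 1) := pow_le_pow_left₀ (by positivity) h1 _
      _ = L ^ (2 * k + 2) := by rw [← pow_mul]; congr 1
  -- bound of the weights
  have hG : ∀ m ∈ Fintype.piFinset (fun i => Icc 1 (x i)), ∀ (j : Fin k) (n : ℕ),
      |GG z N s m j n| ≤ L ^ (2 * k + 4) := by
    intro m hm j n
    unfold GG
    split_ifs with hn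
    · have hp0 : 0 ≤ ∏ i, (if i < j then lamzI z ((n : ℤ) + s i (m i)) else
          if i = j then 1 else lamI ((n : ℤ) + s i (m i))) := by
        refine prod_nonneg fun i _ => ?_
        split_ifs
        · exact hZnn _
        · exact zero_le_one
        · exact hInn _
      rw [abs_of_nonneg (mul_nonneg (hInn _) hp0)]
      have hp1 : ∏ i, (if i < j then lamzI z ((n : ℤ) + s i (m i)) else
          if i = j then 1 else lamI ((n : ℤ) + s i (m i))) ≤ (2 * L) ^ k := by
        calc _ ≤ ∏ _i : Fin k, (2 * L) := by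
              refine prod_le_prod (fun i _ => ?_) (fun i _ => ?_)
              · split_ifs
                · exact hZnn _
                · exact zero_le_one
                · exact hInn _
              · split_ifs
                · exact hZ _
                · linarith
                · exact hI m hm n hn i
          _ = (2 * L) ^ k := by simp
      calc lamI (n : ℤ) * _ ≤ (2 * L) * (2 * L) ^ k :=
            mul_le_mul (hI0 n hn) hp1 hp0 (by positivity)
        _ = (2 * L) ^ (k + 1) := by ring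
        _ ≤ L ^ (2 * k + 2) := hpow
        _ ≤ L ^ (2 * k + 4) := pow_le_pow_right₀ hL1 (by omega)
    · rw [abs_zero]; positivity
  -- the bad vectors
  set bad : Fin k → (Fin k → ℕ) → Prop := fun j m => ∃ y d : ℕ, ∃ b : ℤ, y ≤ (B' + 1) * N ∧ 1 ≤ d ∧
    (d : ℝ) ≤ L ^ A' ∧ (N : ℝ) / L ^ U < ‖∑ n ∈ Icc 1 y, ((GG z N s m j n : ℝ) : ℂ) *
      ee (n * ((b : ℝ) / d)) * (Ed z (1 * n + s j (m j)) : ℂ)‖ with hbad
  have hcount := count_bad x bad (1 / L ^ U) (by positivity) (by
    intro j m hm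
    have h1 := hF1 N (by omega) (H j) (hH j).1 (hH j).2 (c j) (x j) (s j) (by
      have := hc j
      push_cast
      nlinarith [Int.natCast_nonneg N]) (hfam j) z hzB hz2 1 (Or.inl rfl)
      (fun n => ((GG z N s m j n : ℝ) : ℂ)) (by
        intro n _
        rw [Complex.norm_real, Real.norm_eq_abs]
        exact hG m hm j n)
    have h2 : (Icc 1 (x j)).filter (fun v => bad j (Function.update m j v)) =
        (Icc 1 (x j)).filter (fun v => ∃ y d : ℕ, ∃ b : ℤ, y ≤ (B' + 1) * N ∧ 1 ≤ d ∧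
          (d : ℝ) ≤ L ^ A' ∧ (N : ℝ) / L ^ U < ‖∑ n ∈ Icc 1 y, ((GG z N s m j n : ℝ) : ℂ) *
            ee (n * ((b : ℝ) / d)) * (Ed z (1 * n + s j v) : ℂ)‖) := by
      refine filter_congr fun v _ => ?_
      simp only [hbad, GG_update, Function.update_self]
    rw [mul_one_div]
    refine le_trans (le_of_eq ?_) h1
    rw [h2])
  have hkL : (k : ℝ) ≤ L ^ k := by
    have h1 : (k : ℝ) ≤ 2 ^ k := by exact_mod_cast (Nat.lt_two_pow_self (n := k)).le
    exact h1.trans (pow_le_pow_left₀ (by norm_num) hL2 k)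
  have hfin : (k : ℝ) * (1 / L ^ U) * ∏ i, (x i : ℝ) ≤ (∏ i, (x i : ℝ)) / L ^ A := by
    have hx0 : 0 ≤ ∏ i, (x i : ℝ) := prod_nonneg fun _ _ => Nat.cast_nonneg _
    have h1 : (k : ℝ) * (1 / L ^ U) ≤ 1 / L ^ A := by
      rw [mul_one_div, div_le_div_iff₀ (by positivity) (by positivity), one_mul]
      calc (k : ℝ) * L ^ A ≤ L ^ k * L ^ A := by gcongr
        _ = L ^ (k + A) := by rw [pow_add]
        _ ≤ L ^ U := pow_le_pow_right₀ hL1 (by omega)
    calc _ ≤ 1 / L ^ A * ∏ i, (x i : ℝ) := mul_le_mul_of_nonneg_right h1 hx0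
      _ = _ := by ring
  refine le_trans ?_ (hcount.trans hfin)
  -- the inclusion
  have hsub : ∀ m ∈ Fintype.piFinset (fun i => Icc 1 (x i)), (∀ j, ¬ bad j m) →
      ∀ Q : ℕ, (Q : ℝ) * L ^ B ≤ N →
      ∀ y : ℕ → ℕ → ℕ, (∀ q r, y q r ≤ N) →
      ∑ q ∈ Icc 1 Q, ∑ r ∈ range q, (∑ n ∈ (Icc 1 (y q r)).filter (fun n => n % q = r),
        (lamI (n : ℤ) * ∏ i, lamI ((n : ℤ) + s i (m i)) - lamzI z (n : ℤ) *
          ∏ i, lamzI z ((n : ℤ) + s i (m i)))) ^ 2 ≤ (N : ℝ) ^ 2 / L ^ A := by
    intro m hm hgood Q hQ y hy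
    have hBm := hB N (by omega) Q hQ (fun n => ((lamI (n : ℤ) * ∏ i, lamI ((n : ℤ) + s i (m i)) -
      lamzI z (n : ℤ) * ∏ i, lamzI z ((n : ℤ) + s i (m i)) : ℝ) : ℂ)) (by
        intro n hn
        have hnN := (mem_Icc.1 hn).2
        rw [Complex.norm_real, Real.norm_eq_abs]
        have b1 : 0 ≤ ∏ i, lamI ((n : ℤ) + s i (m i)) := prod_nonneg fun _ _ => hInn _
        have b2 : 0 ≤ ∏ i, lamzI z ((n : ℤ) + s i (m i)) := prod_nonneg fun _ _ => hZnn _
        have b3 : ∏ i, lamI ((n : ℤ) + s i (m i)) ≤ (2 * L) ^ k := by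
          calc _ ≤ ∏ _i : Fin k, (2 * L) :=
                prod_le_prod (fun i _ => hInn _) (fun i _ => hI m hm n hnN i)
            _ = (2 * L) ^ k := by simp
        have b4 : ∏ i, lamzI z ((n : ℤ) + s i (m i)) ≤ (2 * L) ^ k := by
          calc _ ≤ ∏ _i : Fin k, (2 * L) :=
                prod_le_prod (fun i _ => hZnn _) (fun i _ => hZ _)
            _ = (2 * L) ^ k := by simp
        have b5 : lamI (n : ℤ) * ∏ i, lamI ((n : ℤ) + s i (m i)) ≤ (2 * L) ^ (k + 1) := by
          calc _ ≤ (2 * L) * (2 * L) ^ k := mul_le_mul (hI0 n hnN) b3 b1 (by positivity)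
            _ = _ := by ring
        have b6 : lamzI z (n : ℤ) * ∏ i, lamzI z ((n : ℤ) + s i (m i)) ≤ (2 * L) ^ (k + 1) := by
          calc _ ≤ (2 * L) * (2 * L) ^ k := mul_le_mul (hZ _) b4 b2 (by positivity)
            _ = _ := by ring
        have b7 : 0 ≤ lamI (n : ℤ) * ∏ i, lamI ((n : ℤ) + s i (m i)) := mul_nonneg (hInn _) b1
        have b8 : 0 ≤ lamzI z (n : ℤ) * ∏ i, lamzI z ((n : ℤ) + s i (m i)) :=
          mul_nonneg (hZnn _) b2
        have b9 : (2 * L) ^ (k + 1) ≤ L ^ (2 * k + 6) :=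
          hpow.trans (pow_le_pow_right₀ hL1 (by omega))
        rw [abs_le]
        constructor <;> linarith) (by
        intro y d hy hd1 hd b
        have e1 : ∀ n ∈ Icc 1 y, ((lamI (n : ℤ) * ∏ i, lamI ((n : ℤ) + s i (m i)) -
            lamzI z (n : ℤ) * ∏ i, lamzI z ((n : ℤ) + s i (m i)) : ℝ) : ℂ) *
              ee (n * ((b : ℝ) / d)) =
            ∑ j, ((GG z N s m j n : ℝ) : ℂ) * ee (n * ((b : ℝ) / d)) *
              (Ed z (1 * n + s j (m j)) : ℂ) +
            ((Ed z (n : ℤ) * ∏ i, lamzI z ((n : ℤ) + s i (m i)) : ℝ) : ℂ) *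
              ee (n * ((b : ℝ) / d)) := by
          intro n hn
          have hnN : n ≤ N := (mem_Icc.1 hn).2.trans hy
          rw [split z N s m hnN]
          push_cast
          rw [add_mul, sum_mul]
          congr 1
          refine sum_congr rfl fun j _ => ?_
          rw [one_mul]
          ring
        rw [sum_congr rfl e1, sum_add_distrib, sum_comm]
        have c1 : ∀ j : Fin k, ‖∑ n ∈ Icc 1 y, ((GG z N s m j n : ℝ) : ℂ) *
            ee (n * ((b : ℝ) / d)) * (Ed z (1 * n + s j (m j)) : ℂ)‖ ≤ (N : ℝ) / L ^ U := by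
          intro j
          by_contra hcon
          push Not at hcon
          refine hgood j ⟨y, d, b, ?_, hd1, hd, hcon⟩
          nlinarith
        have c2 := hBa1 N (by omega) z hzE hz2 (fun i => s i (m i)) (by
          intro i
          have := hsz m hm i
          rw [abs_le]
          constructor
          · linarith [this.1]
          · exact this.2) y d hy hd1 hd b
        refine (norm_add_le _ _).trans ?_
        have c3 : ‖∑ j : Fin k, ∑ n ∈ Icc 1 y, ((GG z N s m j n : ℝ) : ℂ) *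
            ee (n * ((b : ℝ) / d)) * (Ed z (1 * n + s j (m j)) : ℂ)‖ ≤ k * ((N : ℝ) / L ^ U) := by
          refine (norm_sum_le_of_le _ (fun j _ => c1 j)).trans (le_of_eq ?_)
          rw [sum_const, card_univ, Fintype.card_fin, nsmul_eq_mul]
        have c4 : (k : ℝ) * ((N : ℝ) / L ^ U) ≤ (1 / 2) * ((N : ℝ) / L ^ A') := by
          have d1 : (k : ℝ) * 2 * L ^ A' ≤ L ^ U := by
            calc (k : ℝ) * 2 * L ^ A' ≤ L ^ k * L * L ^ A' := by gcongr
              _ = L ^ (k + 1 + A') := by rw [pow_add, pow_add, pow_one]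
              _ ≤ L ^ U := pow_le_pow_right₀ hL1 (by omega)
          rw [mul_div_assoc', mul_div_assoc', div_le_div_iff₀ (by positivity) (by positivity)]
          nlinarith
        have c5 : (N : ℝ) / L ^ (A' + 2) ≤ (1 / 2) * ((N : ℝ) / L ^ A') := by
          have d1 : 2 * L ^ A' ≤ L ^ (A' + 2) := by
            calc 2 * L ^ A' ≤ L * L ^ A' := by gcongr
              _ = L ^ (A' + 1) := by ring
              _ ≤ L ^ (A' + 2) := pow_le_pow_right₀ hL1 (by omega)
          rw [mul_div_assoc', div_le_div_iff₀ (by positivity) (by positivity)]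
          nlinarith
        linarith) y hy
    refine le_trans (le_of_eq ?_) hBm
    refine sum_congr rfl fun q _ => sum_congr rfl fun r _ => ?_
    rw [← Complex.ofReal_sum, Complex.norm_real, Real.norm_eq_abs, sq_abs]
  have hcard2 : ((Fintype.piFinset (fun i => Icc 1 (x i))).filter (fun m => ¬ ∀ Q : ℕ,
      (Q : ℝ) * L ^ B ≤ N → ∀ y : ℕ → ℕ → ℕ, (∀ q r, y q r ≤ N) →
      ∑ q ∈ Icc 1 Q, ∑ r ∈ range q, (∑ n ∈ (Icc 1 (y q r)).filter (fun n => n % q = r),
        (lamI (n : ℤ) * ∏ i, lamI ((n : ℤ) + s i (m i)) - lamzI z (n : ℤ) *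
          ∏ i, lamzI z ((n : ℤ) + s i (m i)))) ^ 2 ≤ (N : ℝ) ^ 2 / L ^ A)).card ≤
      ((Fintype.piFinset (fun i => Icc 1 (x i))).filter (fun m => ∃ j, bad j m)).card := by
    refine card_le_card ?_
    intro m hm
    rw [mem_filter] at hm ⊢
    refine ⟨hm.1, ?_⟩
    by_contra hcon
    push Not at hcon
    exact hm.2 (hsub m hm.1 hcon)
  exact_mod_cast hcard2

end Pool.Agent.helper24_UT.Fbe
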