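import Pool.Agent.helper24_UT.Stm17

set_option autoImplicit false

namespace Pool.Agent.helper24_UT.Fge

open Finset
open Pool.Agent.helper24_UT
open Pool.Agent.H373R2.T7 (lamI lamzI lamz Vz pz energy)
open Pool.Agent.H807R2.Dav (ee)

lemma Ed_nonpos (z : ℕ) (m : ℤ) (hm : m ≤ 0) : Ed z m = 0 := by
  unfold Ed lamI lamzI
  rw [if_neg (by omega), if_neg (by omega), sub_zero]

lemma lamzI_nonpos (z : ℕ) (m : ℤ) (hm : m ≤ 0) : lamzI z m = 0 := by
  unfold lamzI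
  rw [if_neg (by omega)]

/-- the second sum, by reflection -/
lemma second (z : ℕ) (s : ℤ) (y M : ℕ) (β K : ℝ) (hs : s ≤ M + 1) (hK : 0 ≤ K)
    (h : ∀ t : ℕ, t ≤ M → ‖∑ n ∈ Icc 1 t, ((lamzI z (n : ℤ) : ℝ) : ℂ) * ee (n * (-β)) *
      (Ed z (-1 * n + s) : ℂ)‖ ≤ K) :
    ‖∑ n ∈ Icc 1 y, ee (n * β) * ((Ed z (n : ℤ) * lamzI z (s - n) : ℝ) : ℂ)‖ ≤ 2 * K := by
  by_cases hs1 : s ≤ 1
  · have h0 : ∑ n ∈ Icc 1 y, ee (n * β) * ((Ed z (n : ℤ) * lamzI z (s - n) : ℝ) : ℂ) = 0 := by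
      apply sum_eq_zero
      intro n hn
      rw [mem_Icc] at hn
      rw [lamzI_nonpos z _ (by omega), mul_zero, Complex.ofReal_zero, mul_zero]
    rw [h0, norm_zero]
    linarith
  · obtain ⟨S, hS⟩ : ∃ S : ℕ, s = (S : ℤ) + 1 := ⟨(s - 1).toNat, by omega⟩
    subst hS
    have hSM : S ≤ M := by omega
    set g : ℕ → ℂ := fun n => ((lamzI z (n : ℤ) : ℝ) : ℂ) * ee (n * (-β)) *
      (Ed z (-1 * n + ((S : ℤ) + 1)) : ℂ) with hg
    have e1 : ∑ n ∈ Icc 1 y, ee (n * β) * ((Ed z (n : ℤ) * lamzI z ((S : ℤ) + 1 - n) : ℝ) : ℂ) =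
        ee (((S : ℝ) + 1) * β) * ∑ n ∈ Ioc (S - y) S, g n := by
      have e2 : ∑ n ∈ Icc 1 y, ee (n * β) *
          ((Ed z (n : ℤ) * lamzI z ((S : ℤ) + 1 - n) : ℝ) : ℂ) =
          ∑ n ∈ (Icc 1 y).filter (fun n => n ≤ S), ee (n * β) *
          ((Ed z (n : ℤ) * lamzI z ((S : ℤ) + 1 - n) : ℝ) : ℂ) := by
        symm
        apply sum_subset (filter_subset _ _)
        intro n hn hn'
        rw [mem_filter, not_and] at hn'
        have := hn' hn
        rw [lamzI_nonpos z _ (by omega), mul_zero, Complex.ofReal_zero, mul_zero]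
      rw [e2, mul_sum]
      refine Finset.sum_bij' (fun n _ => S + 1 - n) (fun n _ => S + 1 - n) ?_ ?_ ?_ ?_ ?_
      · intro n hn
        rw [mem_filter, mem_Icc] at hn
        rw [mem_Ioc]
        omega
      · intro n hn
        rw [mem_Ioc] at hn
        rw [mem_filter, mem_Icc]
        omega
      · intro n hn
        rw [mem_filter, mem_Icc] at hn
        omega
      · intro n hn
        rw [mem_Ioc] at hn
        omega
      · intro n hn
        rw [mem_filter, mem_Icc] at hn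
        have h1 : ((S + 1 - n : ℕ) : ℤ) = (S : ℤ) + 1 - n := by omega
        have h2 : ((S + 1 - n : ℕ) : ℝ) = (S : ℝ) + 1 - n := by
          rw [Nat.cast_sub (by omega)]
          push_cast
          ring
        simp only [hg]
        rw [h1, h2]
        have h3 : -1 * ((S : ℤ) + 1 - n) + ((S : ℤ) + 1) = n := by ring
        rw [h3]
        have h4 : (n : ℝ) * β = ((S : ℝ) + 1) * β + ((S : ℝ) + 1 - n) * (-β) := by ring
        rw [h4, Pool.Agent.H807R2.Dav.ee_add]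
        push_cast
        ring
    have e3 : ∑ n ∈ Ioc (S - y) S, g n = ∑ n ∈ Icc 1 S, g n - ∑ n ∈ Icc 1 (S - y), g n := by
      rw [eq_sub_iff_add_eq, add_comm, ← sum_union]
      · apply sum_congr _ (fun _ _ => rfl)
        ext n
        rw [mem_union, mem_Icc, mem_Icc, mem_Ioc]
        omega
      · rw [disjoint_left]
        intro n hn hn'
        rw [mem_Icc] at hn
        rw [mem_Ioc] at hn'
        omega
    rw [e1, norm_mul, Pool.Agent.H807R2.Dav.norm_ee, one_mul, e3]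
    have h5 := h S hSM
    have h6 := h (S - y) (by omega)
    refine (norm_sub_le _ _).trans ?_
    linarith

lemma split_term (z n : ℕ) (s : ℤ) : lamI (n : ℤ) * lamI (s - n) - lamzI z (n : ℤ) * lamzI z (s - n) =
    lamI (n : ℤ) * Ed z (-1 * n + s) + Ed z (n : ℤ) * lamzI z (s - n) := by
  have h : (-1 * (n : ℤ) + s) = s - n := by ring
  rw [h]
  unfold Ed
  ring

/-- the twisted sums -/
lemma twist (z y d M : ℕ) (b s : ℤ) (K : ℝ) (hy : y ≤ M) (hs : s ≤ M + 1) (hK : 0 ≤ K)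
    (h1 : ∀ t : ℕ, t ≤ M → ∀ b : ℤ, ‖∑ n ∈ Icc 1 t, ((lamI (n : ℤ) : ℝ) : ℂ) *
      ee (n * ((b : ℝ) / d)) * (Ed z (-1 * n + s) : ℂ)‖ ≤ K)
    (h2 : ∀ t : ℕ, t ≤ M → ∀ b : ℤ, ‖∑ n ∈ Icc 1 t, ((lamzI z (n : ℤ) : ℝ) : ℂ) *
      ee (n * ((b : ℝ) / d)) * (Ed z (-1 * n + s) : ℂ)‖ ≤ K) :
    ‖∑ n ∈ Icc 1 y, ((lamI (n : ℤ) * lamI (s - n) - lamzI z (n : ℤ) * lamzI z (s - n) : ℝ) : ℂ) *
      ee (n * ((b : ℝ) / d))‖ ≤ 3 * K := by
  have e : ∑ n ∈ Icc 1 y, ((lamI (n : ℤ) * lamI (s - n) - lamzI z (n : ℤ) * lamzI z (s - n) : ℝ) : ℂ) *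
      ee (n * ((b : ℝ) / d)) = ∑ n ∈ Icc 1 y, ((lamI (n : ℤ) : ℝ) : ℂ) *
      ee (n * ((b : ℝ) / d)) * (Ed z (-1 * n + s) : ℂ) +
      ∑ n ∈ Icc 1 y, ee (n * ((b : ℝ) / d)) * ((Ed z (n : ℤ) * lamzI z (s - n) : ℝ) : ℂ) := by
    rw [← sum_add_distrib]
    apply sum_congr rfl
    intro n _
    rw [split_term]
    push_cast
    ring
  rw [e]
  have h3 := h1 y hy b
  have h4 := second z s y M ((b : ℝ) / d) K hs hK (fun t ht => by
    have h5 := h2 t ht (-b)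
    have h6 : (((-b : ℤ) : ℝ) / d) = -((b : ℝ) / d) := by push_cast; ring
    rw [h6] at h5
    exact h5)
  refine (norm_add_le _ _).trans ?_
  linarith

theorem main : ∀ θ : ℝ, S_FTW θ → S_BDH → S_FGE θ := by
  classical
  intro θ hF hB p e A B' C hp he
  obtain ⟨A', B, N1, hB1⟩ := hB A 6
  obtain ⟨E₀, hE⟩ := hF p e (B' + 2) C 3 (A + A' + 5) A' hp he
  refine ⟨E₀, B, fun E₁ => ?_⟩
  obtain ⟨N2, hN2⟩ := hE E₁
  obtain ⟨N3, hN3⟩ := Pool.Agent.H373R2.T7.Vz_inv_small E₁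
  obtain ⟨N4, hN4⟩ : ∃ N4 : ℕ, ∀ N : ℕ, N4 ≤ N → 3 ≤ Real.log N :=
    Filter.eventually_atTop.1
      ((Real.tendsto_log_atTop.comp (tendsto_natCast_atTop_atTop (R := ℝ))).eventually_ge_atTop 3)
  refine ⟨max (max N1 N2) (max N3 (max N4 (B' + 2))),
    fun N hN H x c s hH hHN hc hfam z hz0 hz1 => ?_⟩
  have k1 : N1 ≤ N := le_trans (le_trans (le_max_left _ _) (le_max_left _ _)) hN
  have k2 : N2 ≤ N := le_trans (le_trans (le_max_right _ _) (le_max_left _ _)) hN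
  have k3 : N3 ≤ N := le_trans (le_trans (le_max_left _ _) (le_max_right _ _)) hN
  have k4 : N4 ≤ N := le_trans (le_trans (le_max_left _ _)
    (le_trans (le_max_right _ _) (le_max_right _ _))) hN
  have k5 : B' + 2 ≤ N := le_trans (le_trans (le_max_right _ _)
    (le_trans (le_max_right _ _) (le_max_right _ _))) hN
  have hL3 := hN4 N k4
  set L := Real.log N with hL
  have hL0 : 0 < L := by linarith
  have hL1 : 1 ≤ L := by linarith
  have hNpos : (0 : ℝ) < N := by exact_mod_cast (by omega : 0 < N)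
  have hz1' : 1 ≤ z := by
    have : (1 : ℝ) ≤ z := le_trans (one_le_pow₀ hL1) hz0
    exact_mod_cast this
  have hV : (Vz z)⁻¹ ≤ L := hN3 N k3 z hz1' hz1
  have hlI : ∀ k : ℤ, k ≤ ((B' + 2) * N : ℕ) → lamI k ≤ 2 * L := by
    intro k hk
    have hB2 : (1 : ℝ) ≤ ((B' + 2 : ℕ) : ℝ) := by exact_mod_cast (by omega : 1 ≤ B' + 2)
    have hN1R : (1 : ℝ) ≤ N := by exact_mod_cast (by omega : 1 ≤ N)
    have h3 := Pool.Agent.H373R2.T7.lamI_le k (((B' + 2 : ℕ) : ℝ) * N)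
      (one_le_mul_of_one_le_of_one_le hB2 hN1R) (by exact_mod_cast hk)
    refine h3.trans ?_
    rw [Real.log_mul (by positivity) hNpos.ne', ← hL]
    have h4 : Real.log ((B' + 2 : ℕ) : ℝ) ≤ L := by
      rw [hL]
      apply Real.log_le_log (by positivity)
      exact_mod_cast k5
    linarith
  have hL3' : 2 * L ≤ L ^ 3 := by
    have : L ^ 3 = L * (L * L) := by ring
    nlinarith [mul_le_mul hL1 hL1 zero_le_one hL0.le]
  have hnorm : ∀ r : ℝ, 0 ≤ r → ‖((r : ℝ) : ℂ)‖ = r := fun r hr => by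
    rw [Complex.norm_real, Real.norm_of_nonneg hr]
  have hG1 : ∀ n ∈ Icc 1 ((B' + 2) * N), ‖(fun n : ℕ => ((lamI (n : ℤ) : ℝ) : ℂ)) n‖ ≤ L ^ 3 := by
    intro n hn
    rw [mem_Icc] at hn
    show ‖((lamI (n : ℤ) : ℝ) : ℂ)‖ ≤ L ^ 3
    rw [hnorm _ (Pool.Agent.H373R2.T7.lamI_nonneg _)]
    exact (hlI n (by exact_mod_cast hn.2)).trans hL3'
  have hG2 : ∀ n ∈ Icc 1 ((B' + 2) * N),
      ‖(fun n : ℕ => ((lamzI z (n : ℤ) : ℝ) : ℂ)) n‖ ≤ L ^ 3 := by
    intro n _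
    show ‖((lamzI z (n : ℤ) : ℝ) : ℂ)‖ ≤ L ^ 3
    rw [hnorm _ (Pool.Agent.H373R2.T7.lamzI_nonneg _ _)]
    have := (Pool.Agent.H373R2.T7.lamzI_le z n).trans hV
    linarith
  have hcL : |c| ≤ ((B' + 2 : ℕ) : ℤ) * N := by
    refine hc.trans ?_
    push_cast
    nlinarith
  have f1 := hN2 N k2 H hH hHN c x s hcL hfam z hz0 hz1 (-1) (Or.inr rfl) _ hG1
  have f2 := hN2 N k2 H hH hHN c x s hcL hfam z hz0 hz1 (-1) (Or.inr rfl) _ hG2
  rw [← hL] at f1 f2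
  set X1 := (Icc 1 x).filter (fun m => ∃ y d : ℕ, ∃ b : ℤ, y ≤ (B' + 2) * N ∧ 1 ≤ d ∧
    (d : ℝ) ≤ L ^ A' ∧ (N : ℝ) / L ^ (A + A' + 5) <
      ‖∑ n ∈ Icc 1 y, ((lamI (n : ℤ) : ℝ) : ℂ) * ee (n * ((b : ℝ) / d)) *
        (Ed z (-1 * n + s m) : ℂ)‖) with hX1
  set X2 := (Icc 1 x).filter (fun m => ∃ y d : ℕ, ∃ b : ℤ, y ≤ (B' + 2) * N ∧ 1 ≤ d ∧
    (d : ℝ) ≤ L ^ A' ∧ (N : ℝ) / L ^ (A + A' + 5) <
      ‖∑ n ∈ Icc 1 y, ((lamzI z (n : ℤ) : ℝ) : ℂ) * ee (n * ((b : ℝ) / d)) *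
        (Ed z (-1 * n + s m) : ℂ)‖) with hX2
  have g1 : (X1.card : ℝ) ≤ x / L ^ (A + A' + 5) := by
    convert f1 using 2
  have g2 : (X2.card : ℝ) ≤ x / L ^ (A + A' + 5) := by
    convert f2 using 2
  have hpow : 3 * L ^ A' ≤ L ^ (A + A' + 5) := by
    have h1 : L ^ (A + A' + 5) = L ^ A' * (L ^ (A + 4) * L) := by ring
    rw [h1]
    have h2 : 1 ≤ L ^ (A + 4) := one_le_pow₀ hL1
    have h3 : 3 ≤ L ^ (A + 4) * L := by nlinarith
    have h4 : 0 < L ^ A' := by positivity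
    nlinarith
  have hpow2 : 2 * L ^ A ≤ L ^ (A + A' + 5) := by
    have h1 : L ^ (A + A' + 5) = L ^ A * (L ^ (A' + 4) * L) := by ring
    rw [h1]
    have h2 : 1 ≤ L ^ (A' + 4) := one_le_pow₀ hL1
    have h3 : 2 ≤ L ^ (A' + 4) * L := by nlinarith
    have h4 : 0 < L ^ A := by positivity
    nlinarith
  have hsub : (Icc 1 x).filter (fun m => ¬ ∀ Q : ℕ, (Q : ℝ) * L ^ B ≤ N →
      ∀ y : ℕ → ℕ → ℕ, (∀ q r, y q r ≤ N) →
      ∑ q ∈ Icc 1 Q, ∑ r ∈ range q, (∑ n ∈ (Icc 1 (y q r)).filter (fun n => n % q = r),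
        (lamI (n : ℤ) * lamI (s m - n) - lamzI z (n : ℤ) * lamzI z (s m - n))) ^ 2 ≤
        (N : ℝ) ^ 2 / L ^ A) ⊆ X1 ∪ X2 := by
    intro m hm
    rw [mem_filter] at hm
    by_contra hcon
    rw [mem_union, not_or, hX1, hX2, mem_filter, mem_filter, not_and, not_and] at hcon
    have c1 := hcon.1 hm.1
    have c2 := hcon.2 hm.1
    apply hm.2
    push Not at c1 c2
    intro Q hQ y hy
    have hsm := hfam.1 m hm.1
    have hsB : s m ≤ ((B' + 1) * N : ℕ) := by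
      have h1 := le_abs_self c
      have h2 : (H : ℤ) ≤ N := by exact_mod_cast hHN
      push_cast
      linarith [hsm.2]
    have hsB2 : s m ≤ ((B' + 2) * N : ℕ) := by
      refine hsB.trans ?_
      exact_mod_cast Nat.mul_le_mul_right N (by omega)
    have hb := hB1 N k1 Q hQ (fun n => ((lamI (n : ℤ) * lamI (s m - n) -
      lamzI z (n : ℤ) * lamzI z (s m - n) : ℝ) : ℂ)) (by
        intro n hn
        rw [mem_Icc] at hn
        show ‖((lamI (n : ℤ) * lamI (s m - n) - lamzI z (n : ℤ) * lamzI z (s m - n) : ℝ) : ℂ)‖ ≤ L ^ 6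
        rw [Complex.norm_real, Real.norm_eq_abs]
        have hnB : (n : ℤ) ≤ ((B' + 2) * N : ℕ) := by
          have h1 : n ≤ (B' + 2) * N := by nlinarith [hn.2]
          exact_mod_cast h1
        have b1 := hlI n hnB
        have b2 := hlI (s m - n) (by omega)
        have b3 := (Pool.Agent.H373R2.T7.lamzI_le z (n : ℤ)).trans hV
        have b4 := (Pool.Agent.H373R2.T7.lamzI_le z (s m - n)).trans hV
        have b5 := Pool.Agent.H373R2.T7.lamI_nonneg (n : ℤ)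
        have b6 := Pool.Agent.H373R2.T7.lamI_nonneg (s m - n)
        have b7 := Pool.Agent.H373R2.T7.lamzI_nonneg z (n : ℤ)
        have b8 := Pool.Agent.H373R2.T7.lamzI_nonneg z (s m - n)
        have d1 : lamI (n : ℤ) * lamI (s m - n) ≤ (2 * L) * (2 * L) := mul_le_mul b1 b2 b6 (by linarith)
        have d2 : lamzI z (n : ℤ) * lamzI z (s m - n) ≤ (2 * L) * (2 * L) :=
          mul_le_mul (by linarith) (by linarith) b8 (by linarith)
        have d3 : 0 ≤ lamI (n : ℤ) * lamI (s m - n) := mul_nonneg b5 b6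
        have d4 : 0 ≤ lamzI z (n : ℤ) * lamzI z (s m - n) := mul_nonneg b7 b8
        have d5 : (2 * L) * (2 * L) ≤ L ^ 6 := by
          have h1 : L ^ 6 = (L * L) * ((L * L) * (L * L)) := by ring
          have h2 : 9 ≤ L * L := by nlinarith
          have h3 : 81 ≤ (L * L) * (L * L) := by nlinarith
          rw [h1]
          nlinarith
        rw [abs_le]
        constructor <;> linarith) (by
        intro t d ht hd hdL b
        have hK : (0 : ℝ) ≤ N / L ^ (A + A' + 5) := by positivity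
        have h1 := twist z t d ((B' + 2) * N) b (s m) (N / L ^ (A + A' + 5))
          (by nlinarith) (by push_cast at hsB2 ⊢; linarith) hK
          (fun t ht b => c1 t d b ht hd hdL) (fun t ht b => c2 t d b ht hd hdL)
        refine h1.trans ?_
        rw [← hL, mul_div_assoc', div_le_div_iff₀ (by positivity) (by positivity)]
        nlinarith [hpow, hNpos]) y hy
    refine le_trans (le_of_eq ?_) hb
    apply sum_congr rfl
    intro q _
    apply sum_congr rfl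
    intro r _
    rw [← Complex.ofReal_sum, Complex.norm_real, Real.norm_eq_abs, sq_abs]
  have h1 : (((Icc 1 x).filter (fun m => ¬ ∀ Q : ℕ, (Q : ℝ) * L ^ B ≤ N →
      ∀ y : ℕ → ℕ → ℕ, (∀ q r, y q r ≤ N) →
      ∑ q ∈ Icc 1 Q, ∑ r ∈ range q, (∑ n ∈ (Icc 1 (y q r)).filter (fun n => n % q = r),
        (lamI (n : ℤ) * lamI (s m - n) - lamzI z (n : ℤ) * lamzI z (s m - n))) ^ 2 ≤
        (N : ℝ) ^ 2 / L ^ A)).card : ℝ) ≤ X1.card + X2.card := by
    exact_mod_cast (card_le_card hsub).trans (card_union_le _ _)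
  have h2 : (x : ℝ) / L ^ (A + A' + 5) + x / L ^ (A + A' + 5) ≤ x / L ^ A := by
    rw [← add_div, div_le_div_iff₀ (by positivity) (by positivity)]
    have hx : (0 : ℝ) ≤ x := Nat.cast_nonneg _
    nlinarith [mul_le_mul_of_nonneg_left hpow2 hx]
  refine le_trans ?_ (h1.trans (le_trans (add_le_add g1 g2) h2))
  apply le_of_eq
  congr!

end Pool.Agent.helper24_UT.Fge
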