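import Pool.Agent.helper24_UT.Stm17
import Pool.Agent.H373R2.T7.LamZ2

set_option autoImplicit false

namespace Pool.Agent.helper24_UT.Ftw

open Finset
open Pool.Agent.helper24_UT
open Pool.Agent.H373R2.T7 (lamI lamzI lamz Vz pz)
open Pool.Agent.H807R2.Dav (ee)

theorem ee_one (x : ℝ) : ‖ee x‖ = 1 := by
  unfold ee
  have h : (2 * Real.pi * Complex.I * x : ℂ) = ((2 * Real.pi * x : ℝ) : ℂ) * Complex.I := by
    push_cast
    ring
  rw [h, Complex.norm_exp_ofReal_mul_I]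

theorem lamI_bd (m : ℤ) (X : ℝ) (hX : 1 ≤ X) (hm : (m : ℝ) ≤ X) : 0 ≤ lamI m ∧ lamI m ≤ Real.log X := by
  unfold Pool.Agent.H373R2.T7.lamI
  split_ifs with h
  · refine ⟨ArithmeticFunction.vonMangoldt_nonneg, ?_⟩
    refine ArithmeticFunction.vonMangoldt_le_log.trans ?_
    have h1 : ((m.toNat : ℕ) : ℝ) = (m : ℝ) := by
      have : ((m.toNat : ℕ) : ℤ) = m := Int.toNat_of_nonneg (by omega)
      exact_mod_cast this
    have h2 : (1 : ℝ) ≤ (m : ℝ) := by exact_mod_cast h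
    rw [h1]
    exact Real.log_le_log (by linarith) hm
  · exact ⟨le_rfl, Real.log_nonneg hX⟩

theorem Vz_pos (z : ℕ) : 0 < Vz z := by
  unfold Pool.Agent.H373R2.T7.Vz
  refine Finset.prod_pos fun p hp => ?_
  have h := (Pool.Agent.H373R2.T7.mem_pz.1 hp).2
  have h2 : (2 : ℝ) ≤ p := by exact_mod_cast h.two_le
  have h3 : 1 / (p : ℝ) ≤ 1 / 2 := by
    apply one_div_le_one_div_of_le (by norm_num) h2
  linarith

theorem lamzI_bd (z : ℕ) (m : ℤ) : 0 ≤ lamzI z m ∧ lamzI z m ≤ (Vz z)⁻¹ := by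
  have h := inv_pos.2 (Vz_pos z)
  unfold Pool.Agent.H373R2.T7.lamzI Pool.Agent.H373R2.T7.lamz
  split_ifs
  · exact ⟨h.le, le_rfl⟩
  · exact ⟨le_rfl, h.le⟩
  · exact ⟨le_rfl, h.le⟩

theorem main : ∀ θ : ℝ, S_LE θ → S_GRD → S_FTW θ := by
  intro θ hLE hGRD p e B C T U D hp he
  obtain ⟨U', N₁, hG1⟩ := hGRD B (T + 2) U D
  obtain ⟨B₀, hB₀⟩ := hLE p e B C (U' + T) hp he
  refine ⟨B₀, fun E => ?_⟩
  obtain ⟨N₂, hN₂⟩ := hB₀ E
  obtain ⟨N₃, hN₃⟩ := Pool.Agent.H373R2.T7.Vz_inv_small E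
  have hlim : Filter.Tendsto (fun N : ℕ => Real.log (N : ℝ)) Filter.atTop Filter.atTop :=
    Real.tendsto_log_atTop.comp (tendsto_natCast_atTop_atTop (R := ℝ))
  obtain ⟨N₄, hN₄⟩ := Filter.eventually_atTop.1 (hlim.eventually_ge_atTop 3)
  refine ⟨N₁ + N₂ + N₃ + N₄ + (2 * B + 1), ?_⟩
  intro N hN H hH1 hH2 c x s hc hFam z hz1 hz2 σ hσ G hG
  have hL : 3 ≤ Real.log N := hN₄ N (by omega)
  have hN1 : 2 * B + 1 ≤ N := by omega
  have hNpos : (1 : ℝ) ≤ N := by exact_mod_cast (by omega : 1 ≤ N)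
  have hLT : (1 : ℝ) ≤ (Real.log N) ^ T := one_le_pow₀ (by linarith)
  have hz0 : 1 ≤ z := by
    have h1 : (1 : ℝ) ≤ z := (one_le_pow₀ (by linarith)).trans hz1
    exact_mod_cast h1
  have hV := hN₃ N (by omega) z hz0 hz2
  -- the size of Ed
  have hEd : ∀ m ∈ Icc 1 x, ∀ n ∈ Icc 1 (B * N), |Ed z (σ * n + s m)| ≤ (Real.log N) ^ 2 := by
    intro m hm n hn
    have hs := hFam.1 m hm
    have hn2 := (Finset.mem_Icc.1 hn).2
    have hn3 : ((n : ℕ) : ℤ) ≤ B * N := by exact_mod_cast hn2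
    have hc2 : c ≤ B * N := (le_abs_self c).trans hc
    have hH3 : (H : ℤ) ≤ N := by exact_mod_cast hH2
    have hsz : σ * n + s m ≤ (2 * B + 1) * N := by
      have h0 : (0 : ℤ) ≤ n := Int.natCast_nonneg n
      have h1 : σ * (n : ℤ) ≤ n := by
        rcases hσ with rfl | rfl
        · linarith
        · linarith
      nlinarith
    have hszR : ((σ * n + s m : ℤ) : ℝ) ≤ (N : ℝ) ^ 2 := by
      have h1 : (σ * n + s m : ℤ) ≤ (N : ℤ) ^ 2 := by
        have h2 : ((2 * B + 1 : ℕ) : ℤ) ≤ N := by exact_mod_cast hN1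
        push_cast at h2
        have h3 : (0 : ℤ) ≤ N := Int.natCast_nonneg N
        nlinarith
      exact_mod_cast h1
    obtain ⟨a1, a2⟩ := lamI_bd (σ * n + s m) ((N : ℝ) ^ 2) (by nlinarith) hszR
    obtain ⟨b1, b2⟩ := lamzI_bd z (σ * n + s m)
    rw [Real.log_pow] at a2
    push_cast at a2
    have h4 : |Ed z (σ * n + s m)| ≤ 3 * Real.log N := by
      unfold Ed
      rw [abs_le]
      constructor <;> linarith
    nlinarith
  have hF : ∀ m ∈ Icc 1 x, ∀ n ∈ Icc 1 (B * N),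
      ‖G n * (Ed z (σ * n + s m) : ℂ)‖ ≤ (Real.log N) ^ (T + 2) := by
    intro m hm n hn
    rw [norm_mul, Complex.norm_real, Real.norm_eq_abs, pow_add]
    exact mul_le_mul (hG n hn) (hEd m hm n hn) (abs_nonneg _) (by positivity)
  have key := hG1 N (by omega) x (fun m n => G n * (Ed z (σ * n + s m) : ℂ)) hF (by
    intro y d hy hd1 hd2 b
    have h1 := hN₂ N (by omega) H hH1 hH2 c x s hc hFam z hz1 hz2 σ hσ y hy
      (fun n => if n ∈ Icc 1 (B * N) then G n * ee (n * ((b : ℝ) / d)) / ((Real.log N) ^ T : ℝ)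
        else 0) (by
        intro n
        split_ifs with hn
        · rw [norm_div, norm_mul, ee_one, mul_one, Complex.norm_real, Real.norm_of_nonneg
            (by positivity)]
          exact div_le_one_of_le₀ (hG n hn) (by positivity)
        · simp)
    have h2 : ∀ m, ∑ n ∈ Icc 1 y, (G n * (Ed z (σ * n + s m) : ℂ)) * ee (n * ((b : ℝ) / d)) =
        ((Real.log N) ^ T : ℝ) * ∑ n ∈ Icc 1 y, (if n ∈ Icc 1 (B * N) then
          G n * ee (n * ((b : ℝ) / d)) / ((Real.log N) ^ T : ℝ) else 0) *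
            (Ed z (σ * n + s m) : ℂ) := by
      intro m
      rw [Finset.mul_sum]
      refine Finset.sum_congr rfl fun n hn => ?_
      have hn' : n ∈ Icc 1 (B * N) := by
        rw [Finset.mem_Icc] at hn ⊢
        exact ⟨hn.1, hn.2.trans hy⟩
      have hne : (((Real.log N) ^ T : ℝ) : ℂ) ≠ 0 := by
        rw [Complex.ofReal_ne_zero]
        positivity
      rw [if_pos hn']
      field_simp
    simp only [h2, norm_mul, Complex.norm_real]
    rw [← Finset.mul_sum, Real.norm_of_nonneg (by positivity)]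
    calc (Real.log N) ^ T * ∑ m ∈ Icc 1 x, ‖∑ n ∈ Icc 1 y, (if n ∈ Icc 1 (B * N) then
          G n * ee (n * ((b : ℝ) / d)) / ((Real.log N) ^ T : ℝ) else 0) *
            (Ed z (σ * n + s m) : ℂ)‖
        ≤ (Real.log N) ^ T * ((N : ℝ) * x / (Real.log N) ^ (U' + T)) :=
          mul_le_mul_of_nonneg_left h1 (by positivity)
      _ = (N : ℝ) * x / (Real.log N) ^ U' := by
          rw [pow_add]
          field_simp)
  have hcongr : ∀ (m y d : ℕ) (b : ℤ),
      ∑ n ∈ Icc 1 y, G n * ee (n * ((b : ℝ) / d)) * (Ed z (σ * n + s m) : ℂ) =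
      ∑ n ∈ Icc 1 y, G n * (Ed z (σ * n + s m) : ℂ) * ee (n * ((b : ℝ) / d)) := by
    intro m y d b
    refine Finset.sum_congr rfl fun n _ => ?_
    ring
  refine le_trans (le_of_eq ?_) key
  congr 2
  ext m
  simp only [Finset.mem_filter, hcongr]

end Pool.Agent.helper24_UT.Ftw
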