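import Pool.Agent.helper24_UT.Stm17

set_option autoImplicit false

namespace Pool.Agent.helper24_UT.Ftwl

open Finset
open Pool.Agent.helper24_UT
open Pool.Agent.H807R2.Dav (ee norm_ee)

theorem abs_liI (m : ℤ) : |liI m| ≤ 1 := by
  unfold liI
  split_ifs
  · rw [abs_pow, abs_neg, abs_one, one_pow]
  · simp

theorem abs_muI (m : ℤ) : |muI m| ≤ 1 := by
  unfold muI
  split_ifs
  · have := @ArithmeticFunction.abs_moebius_le_one m.toNat
    rw [← Int.cast_abs]; exact_mod_cast this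
  · simp

theorem alg (g e f L : ℂ) (hL : L ≠ 0) : g * f * e = L * (g * e / L * f) := by
  field_simp

theorem main : ∀ θ : ℝ, S_LEL θ → S_GRD → S_FTWL θ := by
  classical
  intro θ hLEL hGRD p e B C T U D hp he
  obtain ⟨U', N₁, hG⟩ := hGRD B T U D
  obtain ⟨N₂, hL⟩ := hLEL p e B C (U' + T) hp he
  refine ⟨max (max N₁ N₂) 3, ?_⟩
  intro N hN H hH1 hH2 c x s hc hF f hf σ hσ G hGb
  have hN1 : N₁ ≤ N := le_trans (le_trans (le_max_left _ _) (le_max_left _ _)) hN
  have hN2 : N₂ ≤ N := le_trans (le_trans (le_max_right _ _) (le_max_left _ _)) hN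
  have hN3 : 3 ≤ N := le_trans (le_max_right _ _) hN
  have hL0 : 0 < Real.log (N : ℝ) := by
    apply Real.log_pos
    have : (3 : ℝ) ≤ N := by exact_mod_cast hN3
    linarith
  have hf1 : ∀ m, |f m| ≤ 1 := by
    intro m
    rcases hf with rfl | rfl
    · exact abs_liI m
    · exact abs_muI m
  have hLT : 0 < (Real.log (N : ℝ)) ^ T := pow_pos hL0 _
  have key := hG N hN1 x (fun m n => G n * (f (σ * n + s m) : ℂ)) ?_ ?_
  · have heq : ∀ (m y d : ℕ) (b : ℤ), ∑ n ∈ Icc 1 y, G n * ee (n * ((b : ℝ) / d)) * (f (σ * n + s m) : ℂ)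
        = ∑ n ∈ Icc 1 y, (fun m n => G n * (f (σ * n + s m) : ℂ)) m n * ee (n * ((b : ℝ) / d)) := by
      intro m y d b
      apply Finset.sum_congr rfl
      intro n _
      simp only
      ring
    refine le_trans ?_ key
    rw [Nat.cast_le]
    apply Finset.card_le_card
    intro m hm
    rw [Finset.mem_filter] at hm ⊢
    obtain ⟨hm1, y, d, b, h1, h2, h3, h4⟩ := hm
    refine ⟨hm1, y, d, b, h1, h2, h3, ?_⟩
    rw [← heq m y d b]
    exact h4
  · intro m _ n hn
    simp only [norm_mul, Complex.norm_real, Real.norm_eq_abs]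
    calc ‖G n‖ * |f (σ * n + s m)| ≤ (Real.log N) ^ T * 1 :=
          mul_le_mul (hGb n hn) (hf1 _) (abs_nonneg _) hLT.le
      _ = _ := mul_one _
  · intro y d hy hd1 hd2 b
    set G' : ℕ → ℂ := fun n => if n ∈ Icc 1 (B * N) then
      G n * ee (n * ((b : ℝ) / d)) / (((Real.log (N : ℝ)) ^ T : ℝ) : ℂ) else 0 with hG'
    have hG'1 : ∀ n, ‖G' n‖ ≤ 1 := by
      intro n
      simp only [hG']
      split_ifs with h
      · rw [norm_div, norm_mul, norm_ee, mul_one, Complex.norm_real, Real.norm_eq_abs, abs_of_pos hLT,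
          div_le_one hLT]
        exact hGb n h
      · simp
    have h1 := hL N hN2 H hH1 hH2 c x s hc hF f hf σ hσ y hy G' hG'1
    have h2 : ∀ m, ‖∑ n ∈ Icc 1 y, (fun m n => G n * (f (σ * n + s m) : ℂ)) m n * ee (n * ((b : ℝ) / d))‖
        = (Real.log (N : ℝ)) ^ T * ‖∑ n ∈ Icc 1 y, G' n * (f (σ * n + s m) : ℂ)‖ := by
      intro m
      have : ∑ n ∈ Icc 1 y, (fun m n => G n * (f (σ * n + s m) : ℂ)) m n * ee (n * ((b : ℝ) / d))
          = (((Real.log (N : ℝ)) ^ T : ℝ) : ℂ) * ∑ n ∈ Icc 1 y, G' n * (f (σ * n + s m) : ℂ) := by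
        rw [Finset.mul_sum]
        apply Finset.sum_congr rfl
        intro n hn
        have hmem : n ∈ Icc 1 (B * N) := by
          rw [Finset.mem_Icc] at hn ⊢
          exact ⟨hn.1, hn.2.trans hy⟩
        have hne : (((Real.log (N : ℝ)) ^ T : ℝ) : ℂ) ≠ 0 := by
          exact_mod_cast hLT.ne'
        simp only [hG', if_pos hmem]
        exact alg _ _ _ _ hne
      rw [this, norm_mul, Complex.norm_real, Real.norm_eq_abs, abs_of_pos hLT]
    rw [Finset.sum_congr rfl (fun m _ => h2 m), ← Finset.mul_sum]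
    calc (Real.log (N : ℝ)) ^ T * ∑ m ∈ Icc 1 x, ‖∑ n ∈ Icc 1 y, G' n * (f (σ * n + s m) : ℂ)‖
        ≤ (Real.log (N : ℝ)) ^ T * ((N : ℝ) * x / (Real.log N) ^ (U' + T)) :=
          mul_le_mul_of_nonneg_left h1 hLT.le
      _ = (N : ℝ) * x / (Real.log N) ^ U' := by
          rw [pow_add]
          field_simp

end Pool.Agent.helper24_UT.Ftwl
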