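import Pool.Agent.helper24_UT.Stm17

set_option autoImplicit false

namespace Pool.Agent.helper24_UT.Grd

open Finset
open Pool.Agent.helper24_UT
open Pool.Agent.H807R2.Dav (ee)

theorem ee_int (x : ℝ) (k : ℤ) : ee (x + k) = ee x := by
  unfold ee
  rw [show (2 * Real.pi * Complex.I * ((x + k : ℝ) : ℂ)) =
    2 * Real.pi * Complex.I * x + k * (2 * Real.pi * Complex.I) by push_cast; ring]
  rw [Complex.exp_add, Complex.exp_int_mul_two_pi_mul_I, mul_one]

theorem norm_ee (x : ℝ) : ‖ee x‖ = 1 := by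
  unfold ee
  rw [show (2 * Real.pi * Complex.I * (x : ℂ)) = ((2 * Real.pi * x : ℝ) : ℂ) * Complex.I by
    push_cast; ring]
  exact Complex.norm_exp_ofReal_mul_I _

theorem ee_mod (n : ℕ) (d : ℕ) (hd : 1 ≤ d) (b : ℤ) :
    ee (n * ((b : ℝ) / d)) = ee (n * (((b % d).toNat : ℝ) / d)) := by
  have hd0 : (d : ℝ) ≠ 0 := by
    have : (0 : ℝ) < d := by exact_mod_cast hd
    exact this.ne'
  have h0 : 0 ≤ b % d := Int.emod_nonneg _ (by omega)
  have h1 : (((b % d).toNat : ℕ) : ℝ) = ((b % d : ℤ) : ℝ) := by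
    have : (((b % d).toNat : ℕ) : ℤ) = b % d := Int.toNat_of_nonneg h0
    exact_mod_cast this
  have h2 : (b : ℝ) = ((b % d : ℤ) : ℝ) + d * ((b / d : ℤ) : ℝ) := by
    have := Int.emod_add_mul_ediv b d
    exact_mod_cast this.symm
  have h3 : (n : ℝ) * ((b : ℝ) / d) = n * (((b % d).toNat : ℝ) / d) + ((n * (b / d) : ℤ) : ℝ) := by
    rw [h1]
    conv_lhs => rw [h2]
    push_cast
    field_simp
  rw [h3, ee_int]

theorem large (B V : ℕ) : ∃ N₀ : ℕ, ∀ N : ℕ, N₀ ≤ N →
    1 ≤ N ∧ (B : ℝ) + 2 ≤ Real.log N ∧ Real.log N ^ V ≤ N := by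
  have h1 : ∀ᶠ x : ℝ in Filter.atTop, (B : ℝ) + 2 ≤ Real.log x :=
    Real.tendsto_log_atTop.eventually_ge_atTop _
  have h2 : ∀ᶠ x : ℝ in Filter.atTop, Real.log x ^ V ≤ x := by
    have := (Real.isLittleO_pow_log_id_atTop (n := V)).bound one_pos
    filter_upwards [this, Filter.eventually_ge_atTop (0 : ℝ)] with x hx hx0
    rw [one_mul, Real.norm_eq_abs, Real.norm_eq_abs, id, abs_of_nonneg hx0] at hx
    exact (le_abs_self _).trans hx
  have h3 := tendsto_natCast_atTop_atTop (R := ℝ) |>.eventually (h1.and h2)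
  obtain ⟨N₀, hN⟩ := Filter.eventually_atTop.1 h3
  exact ⟨max N₀ 1, fun N h => ⟨le_trans (le_max_right _ _) h, hN N (le_trans (le_max_left _ _) h)⟩⟩

theorem main : S_GRD := by
  classical
  intro B T U D
  obtain ⟨N₀, hN₀⟩ := large B (U + T + 2)
  refine ⟨2 * U + (U + T + 2) + 2 * D + 2, N₀, fun N hN x F hF hS => ?_⟩
  obtain ⟨hN1, hL, hLV⟩ := hN₀ N hN
  set L : ℝ := Real.log N with hLdef
  set V : ℕ := U + T + 2 with hV
  have hNpos : (0 : ℝ) < N := by exact_mod_cast hN1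
  have hB0 : (0 : ℝ) ≤ B := Nat.cast_nonneg B
  have hL2 : 2 ≤ L := by linarith
  have hL0 : 0 < L := by linarith
  have hL1 : 1 ≤ L := by linarith
  have hLVpos : 0 < L ^ V := by positivity
  -- the grid
  set w : ℕ := ⌈(N : ℝ) / L ^ V⌉₊ with hw
  have hw0 : 0 < w := Nat.ceil_pos.2 (by positivity)
  have hw2 : (N : ℝ) / L ^ V ≤ w := Nat.le_ceil _
  have hw3 : (w : ℝ) < N / L ^ V + 1 := Nat.ceil_lt_add_one (by positivity)
  set Dd : ℕ := ⌊L ^ D⌋₊ with hDd
  have hDd1 : (Dd : ℝ) ≤ L ^ D := Nat.floor_le (by positivity)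
  set P : ℕ × ℕ × ℕ → ℕ → Prop := fun t m =>
    (N : ℝ) / (2 * L ^ U) < ‖∑ n ∈ Icc 1 (t.1 * w), F m n * ee (n * ((t.2.2 : ℝ) / t.2.1))‖ with hP
  set I : Finset (ℕ × ℕ × ℕ) := range (B * N / w + 1) ×ˢ (Icc 1 Dd ×ˢ range Dd) with hI
  -- the exceptional set is covered
  have hcov : ((Icc 1 x).filter (fun m => ∃ y d : ℕ, ∃ b : ℤ, y ≤ B * N ∧ 1 ≤ d ∧ (d : ℝ) ≤ L ^ D ∧
      (N : ℝ) / L ^ U < ‖∑ n ∈ Icc 1 y, F m n * ee (n * ((b : ℝ) / d))‖)) ⊆
      I.biUnion fun t => (Icc 1 x).filter (P t) := by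
    intro m hm
    rw [mem_filter] at hm
    obtain ⟨hm1, y, d, b, hy, hd1, hdD, hbig⟩ := hm
    rw [mem_biUnion]
    have hdd : d ≤ Dd := Nat.le_floor hdD
    have hmod0 : 0 ≤ b % d := Int.emod_nonneg _ (by omega)
    have hmodlt : b % d < d := Int.emod_lt_of_pos _ (by omega)
    refine ⟨(y / w, d, (b % d).toNat), ?_, ?_⟩
    · rw [hI, mem_product, mem_product, mem_range, mem_Icc, mem_range]
      refine ⟨?_, ⟨hd1, hdd⟩, ?_⟩
      · exact Nat.lt_succ_of_le (Nat.div_le_div_right hy)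
      · have : (b % d).toNat < d := by omega
        exact lt_of_lt_of_le this hdd
    · rw [mem_filter]
      refine ⟨hm1, ?_⟩
      rw [hP]
      simp only
      have e1 : ∀ z : ℕ, ∑ n ∈ Icc 1 z, F m n * ee (n * ((b : ℝ) / d)) =
          ∑ n ∈ Icc 1 z, F m n * ee (n * (((b % d).toNat : ℝ) / d)) := by
        intro z
        exact sum_congr rfl fun n _ => by rw [ee_mod n d hd1 b]
      rw [← e1]
      have hle : y / w * w ≤ y := Nat.div_mul_le_self y w
      have hsub : Icc 1 (y / w * w) ⊆ Icc 1 y := Icc_subset_Icc_right hle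
      have e2 : ∑ n ∈ Icc 1 y, F m n * ee (n * ((b : ℝ) / d)) =
          ∑ n ∈ Icc 1 y \ Icc 1 (y / w * w), F m n * ee (n * ((b : ℝ) / d)) +
          ∑ n ∈ Icc 1 (y / w * w), F m n * ee (n * ((b : ℝ) / d)) := (sum_sdiff hsub).symm
      have e3 : ‖∑ n ∈ Icc 1 y \ Icc 1 (y / w * w), F m n * ee (n * ((b : ℝ) / d))‖ ≤
          (N : ℝ) / L ^ V * L ^ T := by
        refine (norm_sum_le _ _).trans ?_
        have h1 : ∀ n ∈ Icc 1 y \ Icc 1 (y / w * w),
            ‖F m n * ee (n * ((b : ℝ) / d))‖ ≤ L ^ T := by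
          intro n hn
          rw [mem_sdiff, mem_Icc] at hn
          rw [norm_mul, norm_ee, mul_one]
          exact hF m hm1 n (mem_Icc.2 ⟨hn.1.1, hn.1.2.trans hy⟩)
        refine (sum_le_card_nsmul _ _ _ h1).trans ?_
        rw [nsmul_eq_mul]
        refine mul_le_mul_of_nonneg_right ?_ (by positivity)
        have h2 : (Icc 1 y \ Icc 1 (y / w * w)).card = y - y / w * w := by
          rw [card_sdiff_of_subset hsub, Nat.card_Icc, Nat.card_Icc]
          omega
        have h3 : y - y / w * w + 1 ≤ w := by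
          have := Nat.div_add_mod y w
          have h4 := Nat.mod_lt y hw0
          have h5 : w * (y / w) = y / w * w := mul_comm _ _
          omega
        have h6 : (((Icc 1 y \ Icc 1 (y / w * w)).card : ℕ) : ℝ) + 1 ≤ w := by
          rw [h2]
          exact_mod_cast h3
        linarith
      have e4 : (N : ℝ) / L ^ V * L ^ T ≤ N / (2 * L ^ U) := by
        have h1 : (L : ℝ) ^ V = L ^ U * L ^ T * L ^ 2 := by
          rw [hV]; ring
        rw [h1, div_mul_eq_mul_div, div_le_div_iff₀ (by positivity) (by positivity)]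
        have h2 : (2 : ℝ) ≤ L ^ 2 := by nlinarith
        have h3 : 0 ≤ (N : ℝ) * L ^ T * L ^ U := by positivity
        nlinarith [mul_le_mul_of_nonneg_left h2 h3]
      have e5 : (N : ℝ) / L ^ U = N / (2 * L ^ U) + N / (2 * L ^ U) := by
        field_simp
        ring
      have e6 := norm_add_le (∑ n ∈ Icc 1 y \ Icc 1 (y / w * w), F m n * ee (n * ((b : ℝ) / d)))
        (∑ n ∈ Icc 1 (y / w * w), F m n * ee (n * ((b : ℝ) / d)))
      rw [← e2] at e6
      linarith
  -- Markov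
  have hmark : ∀ t ∈ I, (((Icc 1 x).filter (P t)).card : ℝ) ≤
      2 * L ^ U * (x / L ^ (2 * U + V + 2 * D + 2)) := by
    rintro ⟨g, d, b⟩ ht
    rw [hI, mem_product, mem_product, mem_range, mem_Icc, mem_range] at ht
    simp only at ht
    obtain ⟨hg, ⟨hd1, hdd⟩, hb⟩ := ht
    have hgw : g * w ≤ B * N := by
      have : g ≤ B * N / w := Nat.lt_succ_iff.1 hg
      exact (Nat.mul_le_mul_right w this).trans (Nat.div_mul_le_self _ _)
    have hdL : (d : ℝ) ≤ L ^ D := by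
      have : (d : ℝ) ≤ Dd := by exact_mod_cast hdd
      exact this.trans hDd1
    have h1 := hS (g * w) d hgw hd1 hdL (b : ℤ)
    have h2 : ∑ m ∈ (Icc 1 x).filter (P (g, d, b)), (N : ℝ) / (2 * L ^ U) ≤
        ∑ m ∈ Icc 1 x, ‖∑ n ∈ Icc 1 (g * w), F m n * ee (n * (((b : ℤ) : ℝ) / d))‖ := by
      refine le_trans (sum_le_sum fun m hm => ?_) (sum_le_sum_of_subset_of_nonneg
        (filter_subset _ _) fun m _ _ => norm_nonneg _)
      rw [mem_filter, hP] at hm
      have := hm.2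
      simp only at this
      push_cast
      exact this.le
    rw [sum_const, nsmul_eq_mul] at h2
    have h3 := h2.trans h1
    have h4 : (0 : ℝ) < N / (2 * L ^ U) := by positivity
    rw [← le_div_iff₀ h4] at h3
    refine h3.trans (le_of_eq ?_)
    field_simp
  -- the number of the triples
  have hcard : (I.card : ℝ) ≤ L ^ (V + 1 + 2 * D) := by
    rw [hI, card_product, card_product, card_range, Nat.card_Icc, card_range]
    push_cast
    have h1 : ((B * N / w : ℕ) : ℝ) ≤ B * L ^ V := by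
      refine Nat.cast_div_le.trans ?_
      have hwp : (0 : ℝ) < w := by exact_mod_cast hw0
      rw [div_le_iff₀ hwp]
      push_cast
      have h2 : (N : ℝ) ≤ L ^ V * w := by
        rw [div_le_iff₀ hLVpos] at hw2
        linarith
      nlinarith [mul_le_mul_of_nonneg_left h2 hB0]
    have h2 : ((B * N / w : ℕ) : ℝ) + 1 ≤ L ^ (V + 1) := by
      have h3 : (1 : ℝ) ≤ L ^ V := one_le_pow₀ hL1
      rw [pow_succ]
      nlinarith [mul_le_mul_of_nonneg_left hL hLVpos.le]
    have h3 : (((Dd + 1 - 1 : ℕ) : ℝ)) ≤ L ^ D := by simpa using hDd1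
    calc (((B * N / w : ℕ) : ℝ) + 1) * (((Dd + 1 - 1 : ℕ) : ℝ) * (Dd : ℝ))
        ≤ L ^ (V + 1) * (L ^ D * L ^ D) := by
          refine mul_le_mul h2 (mul_le_mul h3 hDd1 (Nat.cast_nonneg _) (by positivity))
            (by positivity) (by positivity)
      _ = L ^ (V + 1 + 2 * D) := by ring
  calc _ ≤ (((I.biUnion fun t => (Icc 1 x).filter (P t)).card : ℕ) : ℝ) := by
        exact_mod_cast card_le_card hcov
    _ ≤ ∑ t ∈ I, (((Icc 1 x).filter (P t)).card : ℝ) := by
        exact_mod_cast card_biUnion_le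
    _ ≤ ∑ _t ∈ I, 2 * L ^ U * (x / L ^ (2 * U + V + 2 * D + 2)) := sum_le_sum hmark
    _ = I.card * (2 * L ^ U * (x / L ^ (2 * U + V + 2 * D + 2))) := by
        rw [sum_const, nsmul_eq_mul]
    _ ≤ L ^ (V + 1 + 2 * D) * (2 * L ^ U * (x / L ^ (2 * U + V + 2 * D + 2))) := by gcongr
    _ = 2 * x / L ^ (U + 1) := by
        rw [show 2 * U + V + 2 * D + 2 = (V + 1 + 2 * D) + U + (U + 1) by ring, pow_add L _ (U + 1),
          pow_add L _ U]
        field_simp
    _ ≤ x / L ^ U := by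
        rw [pow_succ, div_le_div_iff₀ (by positivity) (by positivity)]
        have : 0 ≤ (x : ℝ) * L ^ U := by positivity
        nlinarith [mul_le_mul_of_nonneg_left hL2 this]

end Pool.Agent.helper24_UT.Grd
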