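import Pool.Agent.helper24_UT.Stm16
import Pool.Agent.H373R2.T7.EnergyDef

/-!
# Project UT (helper24), part 17: families of nearly minimal additive energy in short windows. Statements.
-/

set_option autoImplicit false

namespace Pool.Agent.helper24_UT

open Finset
open Pool.Agent.H373R2.T7 (lamI lamzI lamz Vz pz energy)
open Pool.Agent.H807R2.Dav (ee)

/-- (180) the first moment along a family in a short window, in terms of short exponential sums -/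
def S_FAM : Prop := ∀ (p x H Z : ℕ) (c : ℤ) (s : ℕ → ℤ) (f : ℤ → ℝ) (w : ℤ → ℂ) (T : Finset ℤ) (S : ℝ),
  1 ≤ p → 1 ≤ H → (∀ j ∈ Icc 1 x, c < s j ∧ s j ≤ c + H) → (∀ m, f m ≠ 0 → |m| ≤ Z) →
  (∀ α : ℝ, ∑ y ∈ Icc (-((Z : ℤ) + 2 * H)) Z, ‖sw f (2 * H) y α‖ ^ 2 ≤ S) →
  (∑ j ∈ Icc 1 x, ‖∑ n ∈ T, w n * f (n + s j)‖) ^ (2 * p) ≤
    4 ^ p * energy p x s * Real.sqrt (S * ∑ n ∈ T, ‖w n‖ ^ 2) *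
      (Real.sqrt ((∑ m ∈ Icc (-(Z : ℤ)) Z, f m ^ 2) * ∑ n ∈ T, ‖w n‖ ^ 2)) ^ (2 * p - 1)

/-- a family of integers in a window of length `H` with nearly minimal additive energy of order `p` -/
def Fam (p C N H x : ℕ) (c : ℤ) (s : ℕ → ℤ) : Prop :=
  (∀ m ∈ Icc 1 x, c < s m ∧ s m ≤ c + H) ∧ (energy p x s : ℝ) * H ≤ (Real.log N) ^ C * (x : ℝ) ^ (2 * p)

/-- (181) primes minus model along families in short windows -/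
def S_LE (θ : ℝ) : Prop := ∀ p e B C U : ℕ, 1 ≤ p → 1 ≤ e → ∃ B₀ : ℕ, ∀ E : ℕ, ∃ N₀ : ℕ, ∀ N : ℕ, N₀ ≤ N → ∀ H : ℕ,
  (N : ℝ) ^ (θ + 1 / e : ℝ) ≤ H → H ≤ N → ∀ (c : ℤ) (x : ℕ) (s : ℕ → ℤ), |c| ≤ B * N → Fam p C N H x c s →
  ∀ z : ℕ, (Real.log N) ^ B₀ ≤ z → (z : ℝ) ≤ (Real.log N) ^ E → ∀ σ : ℤ, (σ = 1 ∨ σ = -1) → ∀ y : ℕ, y ≤ B * N →
  ∀ G : ℕ → ℂ, (∀ n, ‖G n‖ ≤ 1) →
  ∑ m ∈ Icc 1 x, ‖∑ n ∈ Icc 1 y, G n * (Ed z (σ * n + s m) : ℂ)‖ ≤ (N : ℝ) * x / (Real.log N) ^ U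

/-- (182) the Liouville and the Moebius function along families in short windows -/
def S_LEL (θ : ℝ) : Prop := ∀ p e B C U : ℕ, 1 ≤ p → 1 ≤ e → ∃ N₀ : ℕ, ∀ N : ℕ, N₀ ≤ N → ∀ H : ℕ,
  (N : ℝ) ^ (θ + 1 / e : ℝ) ≤ H → H ≤ N → ∀ (c : ℤ) (x : ℕ) (s : ℕ → ℤ), |c| ≤ B * N → Fam p C N H x c s →
  ∀ f : ℤ → ℝ, (f = liI ∨ f = muI) → ∀ σ : ℤ, (σ = 1 ∨ σ = -1) → ∀ y : ℕ, y ≤ B * N →
  ∀ G : ℕ → ℂ, (∀ n, ‖G n‖ ≤ 1) →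
  ∑ m ∈ Icc 1 x, ‖∑ n ∈ Icc 1 y, G n * (f (σ * n + s m) : ℂ)‖ ≤ (N : ℝ) * x / (Real.log N) ^ U

open Classical in
/-- (183) from fixed sums to all initial segments and all twists with small denominators -/
def S_GRD : Prop := ∀ B T U D : ℕ, ∃ U' N₀ : ℕ, ∀ N : ℕ, N₀ ≤ N → ∀ (x : ℕ) (F : ℕ → ℕ → ℂ),
  (∀ m ∈ Icc 1 x, ∀ n ∈ Icc 1 (B * N), ‖F m n‖ ≤ (Real.log N) ^ T) →
  (∀ y d : ℕ, y ≤ B * N → 1 ≤ d → (d : ℝ) ≤ (Real.log N) ^ D → ∀ b : ℤ,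
    ∑ m ∈ Icc 1 x, ‖∑ n ∈ Icc 1 y, F m n * ee (n * ((b : ℝ) / d))‖ ≤ (N : ℝ) * x / (Real.log N) ^ U') →
  (((Icc 1 x).filter (fun m => ∃ y d : ℕ, ∃ b : ℤ, y ≤ B * N ∧ 1 ≤ d ∧ (d : ℝ) ≤ (Real.log N) ^ D ∧
    (N : ℝ) / (Real.log N) ^ U < ‖∑ n ∈ Icc 1 y, F m n * ee (n * ((b : ℝ) / d))‖)).card : ℝ) ≤ x / (Real.log N) ^ U

open Classical in
/-- (184) primes minus model, all initial segments and all twists with small denominators -/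
def S_FTW (θ : ℝ) : Prop := ∀ p e B C T U D : ℕ, 1 ≤ p → 1 ≤ e → ∃ B₀ : ℕ, ∀ E : ℕ, ∃ N₀ : ℕ, ∀ N : ℕ, N₀ ≤ N → ∀ H : ℕ,
  (N : ℝ) ^ (θ + 1 / e : ℝ) ≤ H → H ≤ N → ∀ (c : ℤ) (x : ℕ) (s : ℕ → ℤ), |c| ≤ B * N → Fam p C N H x c s →
  ∀ z : ℕ, (Real.log N) ^ B₀ ≤ z → (z : ℝ) ≤ (Real.log N) ^ E → ∀ σ : ℤ, (σ = 1 ∨ σ = -1) →
  ∀ G : ℕ → ℂ, (∀ n ∈ Icc 1 (B * N), ‖G n‖ ≤ (Real.log N) ^ T) →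
  (((Icc 1 x).filter (fun m => ∃ y d : ℕ, ∃ b : ℤ, y ≤ B * N ∧ 1 ≤ d ∧ (d : ℝ) ≤ (Real.log N) ^ D ∧
    (N : ℝ) / (Real.log N) ^ U < ‖∑ n ∈ Icc 1 y, G n * ee (n * ((b : ℝ) / d)) * (Ed z (σ * n + s m) : ℂ)‖)).card : ℝ) ≤
    x / (Real.log N) ^ U

open Classical in
/-- (185) the Liouville and the Moebius function, all initial segments and all twists with small denominators -/
def S_FTWL (θ : ℝ) : Prop := ∀ p e B C T U D : ℕ, 1 ≤ p → 1 ≤ e → ∃ N₀ : ℕ, ∀ N : ℕ, N₀ ≤ N → ∀ H : ℕ,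
  (N : ℝ) ^ (θ + 1 / e : ℝ) ≤ H → H ≤ N → ∀ (c : ℤ) (x : ℕ) (s : ℕ → ℤ), |c| ≤ B * N → Fam p C N H x c s →
  ∀ f : ℤ → ℝ, (f = liI ∨ f = muI) → ∀ σ : ℤ, (σ = 1 ∨ σ = -1) →
  ∀ G : ℕ → ℂ, (∀ n ∈ Icc 1 (B * N), ‖G n‖ ≤ (Real.log N) ^ T) →
  (((Icc 1 x).filter (fun m => ∃ y d : ℕ, ∃ b : ℤ, y ≤ B * N ∧ 1 ≤ d ∧ (d : ℝ) ≤ (Real.log N) ^ D ∧
    (N : ℝ) / (Real.log N) ^ U < ‖∑ n ∈ Icc 1 y, G n * ee (n * ((b : ℝ) / d)) * (f (σ * n + s m) : ℂ)‖)).card : ℝ) ≤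
    x / (Real.log N) ^ U

/-- (186) the mean square over all classes to all moduli from the twists with small denominators (large sieve) -/
def S_BDH : Prop := ∀ A T : ℕ, ∃ A' B N₀ : ℕ, ∀ N : ℕ, N₀ ≤ N → ∀ Q : ℕ, (Q : ℝ) * (Real.log N) ^ B ≤ N → ∀ v : ℕ → ℂ,
  (∀ n ∈ Icc 1 N, ‖v n‖ ≤ (Real.log N) ^ T) →
  (∀ y d : ℕ, y ≤ N → 1 ≤ d → (d : ℝ) ≤ (Real.log N) ^ A' → ∀ b : ℤ,
    ‖∑ n ∈ Icc 1 y, v n * ee (n * ((b : ℝ) / d))‖ ≤ (N : ℝ) / (Real.log N) ^ A') →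
  ∀ y : ℕ → ℕ → ℕ, (∀ q r, y q r ≤ N) →
  ∑ q ∈ Icc 1 Q, ∑ r ∈ range q, ‖∑ n ∈ (Icc 1 (y q r)).filter (fun n => n % q = r), v n‖ ^ 2 ≤
    (N : ℝ) ^ 2 / (Real.log N) ^ A

/-- (187) primes minus model against the model at fixed shifts, small denominators -/
def S_BASE : Prop := ∀ k A B D : ℕ, ∃ E₀ : ℕ, ∀ E₁ : ℕ, ∃ N₀ : ℕ, ∀ N : ℕ, N₀ ≤ N → ∀ z : ℕ,
  (Real.log N) ^ E₀ ≤ z → (z : ℝ) ≤ (Real.log N) ^ E₁ → ∀ a : Fin k → ℤ, (∀ i, |a i| ≤ B * N) →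
  ∀ y d : ℕ, y ≤ N → 1 ≤ d → (d : ℝ) ≤ (Real.log N) ^ D → ∀ b : ℤ,
  ‖∑ n ∈ Icc 1 y, ((Ed z (n : ℤ) * ∏ i, lamzI z ((n : ℤ) + a i) : ℝ) : ℂ) * ee (n * ((b : ℝ) / d))‖ ≤
    (N : ℝ) / (Real.log N) ^ A

open Classical in
/-- (188) primes `n` with prime translates `n + s i (m i)`, minus sieve model, for almost all members of the families -/
def S_FBE (θ : ℝ) : Prop := ∀ k p e A B' C : ℕ, 1 ≤ p → 1 ≤ e → ∃ E₀ B : ℕ, ∀ E₁ : ℕ, ∃ N₀ : ℕ, ∀ N : ℕ, N₀ ≤ N →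
  ∀ (H x : Fin k → ℕ) (c : Fin k → ℤ) (s : Fin k → ℕ → ℤ), (∀ i, (N : ℝ) ^ (θ + 1 / e : ℝ) ≤ H i ∧ H i ≤ N) →
  (∀ i, |c i| ≤ B' * N) → (∀ i, Fam p C N (H i) (x i) (c i) (s i)) →
  ∀ z : ℕ, (Real.log N) ^ E₀ ≤ z → (z : ℝ) ≤ (Real.log N) ^ E₁ →
  (((Fintype.piFinset (fun i => Icc 1 (x i))).filter (fun m => ¬ ∀ Q : ℕ, (Q : ℝ) * (Real.log N) ^ B ≤ N →
    ∀ y : ℕ → ℕ → ℕ, (∀ q r, y q r ≤ N) →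
    ∑ q ∈ Icc 1 Q, ∑ r ∈ range q, (∑ n ∈ (Icc 1 (y q r)).filter (fun n => n % q = r),
      (lamI (n : ℤ) * ∏ i, lamI ((n : ℤ) + s i (m i)) - lamzI z (n : ℤ) * ∏ i, lamzI z ((n : ℤ) + s i (m i)))) ^ 2 ≤
      (N : ℝ) ^ 2 / (Real.log N) ^ A)).card : ℝ) ≤ (∏ i, (x i : ℝ)) / (Real.log N) ^ A

open Classical in
/-- (189) Goldbach representations minus sieve model, for almost all members of the family -/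
def S_FGE (θ : ℝ) : Prop := ∀ p e A B' C : ℕ, 1 ≤ p → 1 ≤ e → ∃ E₀ B : ℕ, ∀ E₁ : ℕ, ∃ N₀ : ℕ, ∀ N : ℕ, N₀ ≤ N →
  ∀ (H x : ℕ) (c : ℤ) (s : ℕ → ℤ), (N : ℝ) ^ (θ + 1 / e : ℝ) ≤ H → H ≤ N → |c| ≤ B' * N → Fam p C N H x c s →
  ∀ z : ℕ, (Real.log N) ^ E₀ ≤ z → (z : ℝ) ≤ (Real.log N) ^ E₁ →
  (((Icc 1 x).filter (fun m => ¬ ∀ Q : ℕ, (Q : ℝ) * (Real.log N) ^ B ≤ N → ∀ y : ℕ → ℕ → ℕ, (∀ q r, y q r ≤ N) →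
    ∑ q ∈ Icc 1 Q, ∑ r ∈ range q, (∑ n ∈ (Icc 1 (y q r)).filter (fun n => n % q = r),
      (lamI (n : ℤ) * lamI (s m - n) - lamzI z (n : ℤ) * lamzI z (s m - n))) ^ 2 ≤
      (N : ℝ) ^ 2 / (Real.log N) ^ A)).card : ℝ) ≤ x / (Real.log N) ^ A

open Classical in
/-- (190) prime tuples `n, n + s 1 (m 1), ..., n + s k (m k)` for almost all members of families in short windows -/
def S_R19 (θ : ℝ) : Prop := ∀ k p e A B' C : ℕ, 1 ≤ k → 1 ≤ p → 1 ≤ e → ∃ B N₀ : ℕ, ∀ N : ℕ, N₀ ≤ N →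
  ∀ (H x c : Fin k → ℕ) (s : Fin k → ℕ → ℕ), (∀ i, (N : ℝ) ^ (θ + 1 / e : ℝ) ≤ H i ∧ H i ≤ N) → (∀ i, c i ≤ B' * N) →
  (∀ i, Fam p C N (H i) (x i) (c i : ℤ) (fun m => (s i m : ℤ))) →
  (((Fintype.piFinset (fun i => Icc 1 (x i))).filter
    (fun m => ¬ Good6 A B N (Fin.cons 0 (fun i => s i (m i)) : Fin (k + 1) → ℕ))).card : ℝ) ≤
    (∏ i, (x i : ℝ)) / (Real.log N) ^ A

open Classical in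
/-- (191) Goldbach representations of almost all members of families in short windows -/
def S_R20 (θ : ℝ) : Prop := ∀ p e A C : ℕ, 1 ≤ p → 1 ≤ e → ∃ B N₀ : ℕ, ∀ N : ℕ, N₀ ≤ N → ∀ (H x c : ℕ) (s : ℕ → ℕ),
  (N : ℝ) ^ (θ + 1 / e : ℝ) ≤ H → c + H ≤ N → Fam p C N H x (c : ℤ) (fun m => (s m : ℤ)) →
  (((Icc 1 x).filter (fun m => ¬ Good7 A B N (s m))).card : ℝ) ≤ x / (Real.log N) ^ A

open Classical in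
/-- (192) the Liouville and the Moebius function against arbitrary weights, almost all members of families in short windows -/
def S_R21 (θ : ℝ) : Prop := ∀ p e A B' C T : ℕ, 1 ≤ p → 1 ≤ e → ∃ B N₀ : ℕ, ∀ N : ℕ, N₀ ≤ N → ∀ H : ℕ,
  (N : ℝ) ^ (θ + 1 / e : ℝ) ≤ H → H ≤ N → ∀ (c : ℤ) (x : ℕ) (s : ℕ → ℤ), |c| ≤ B' * N → Fam p C N H x c s →
  ∀ f : ℤ → ℝ, (f = liI ∨ f = muI) → ∀ w : ℕ → ℂ, (∀ n ∈ Icc 1 N, ‖w n‖ ≤ (Real.log N) ^ T) →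
  (((Icc 1 x).filter (fun m => ¬ ∀ Q : ℕ, (Q : ℝ) * (Real.log N) ^ B ≤ N → ∀ y : ℕ → ℕ → ℕ, (∀ q r, y q r ≤ N) →
    ∑ q ∈ Icc 1 Q, ∑ r ∈ range q, ‖∑ n ∈ (Icc 1 (y q r)).filter (fun n => n % q = r), w n * (f (n + s m) : ℂ)‖ ^ 2 ≤
      (N : ℝ) ^ 2 / (Real.log N) ^ A)).card : ℝ) ≤ x / (Real.log N) ^ A

open Classical in
/-- (193) level of distribution for almost all residues from families in short windows -/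
def S_LV (θ : ℝ) : Prop := ∀ p e B C T U : ℕ, 1 ≤ p → 1 ≤ e → ∃ K N₀ : ℕ, ∀ N : ℕ, N₀ ≤ N → ∀ H : ℕ,
  (N : ℝ) ^ (θ + 1 / e : ℝ) ≤ H → H ≤ N → ∀ (c : ℤ) (x : ℕ) (s : ℕ → ℤ), |c| ≤ B * N → Fam p C N H x c s →
  ∀ lam : ℕ → ℝ, (∀ q, |lam q| ≤ (Real.log N) ^ T) → ∀ Q : ℕ, (Q : ℝ) ≤ N * Real.exp (-(K * Real.log (Real.log N) ^ 2)) →
  (((Icc 1 x).filter (fun m => 0 < s m ∧ ∃ y : ℕ, y ≤ B * N ∧ (N : ℝ) / (Real.log N) ^ U <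
    |∑ q ∈ (Icc 1 Q).filter (fun q => (s m).toNat.Coprime q), lam q *
      (∑ n ∈ (Icc 1 y).filter (fun n => n ≡ (s m).toNat [MOD q]), ArithmeticFunction.vonMangoldt n -
        (y : ℝ) / Nat.totient q)|)).card : ℝ) ≤ x / (Real.log N) ^ U

end Pool.Agent.helper24_UT
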