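/-
UT_LE   (project UT of helper24: primes at almost all systems of polynomials; very_famous ids, partial results)
-/
import Pool.Agent.helper24_UT.Stm17

set_option autoImplicit false

namespace Pool.Agent.helper24_UT.Le

open Finset
open Pool.Agent.helper24_UT

open Pool.Agent.H373R2.T7 (lamI lamzI lamz Vz pz energy)

theorem Vz_inv_nonneg' (z : ℕ) : 0 ≤ (Vz z)⁻¹ := by
  unfold Vz
  rw [inv_nonneg]
  refine Finset.prod_nonneg fun p hp => ?_
  have hp1 : (1 : ℝ) ≤ p := by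
    have := (Pool.Agent.H373R2.T7.mem_pz.1 hp).2.one_le
    exact_mod_cast this
  have : 1 / (p : ℝ) ≤ 1 := by rw [div_le_one (by linarith)]; exact hp1
  linarith

theorem lamz_le' (z n : ℕ) : lamz z n ≤ (Vz z)⁻¹ := by
  unfold lamz
  split_ifs
  · exact le_rfl
  · exact Vz_inv_nonneg' z

theorem Ed_le (z : ℕ) (Z : ℕ) (V : ℝ) (hV0 : 0 ≤ V) (hZ : Real.log Z ≤ V) (hV : (Vz z)⁻¹ ≤ V)
    (m : ℤ) (hm : m ≤ Z) : |Ed z m| ≤ V := by
  unfold Ed
  refine abs_sub_le_of_nonneg_of_le (Pool.Agent.H373R2.T7.lamI_nonneg m) ?_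
    (Pool.Agent.H373R2.T7.lamzI_nonneg z m) ?_
  · unfold lamI
    split_ifs with h
    · refine (ArithmeticFunction.vonMangoldt_le_log).trans (le_trans ?_ hZ)
      refine Real.log_le_log ?_ ?_
      · have : 0 < m.toNat := by omega
        exact_mod_cast this
      · have : m.toNat ≤ Z := by omega
        exact_mod_cast this
    · exact hV0
  · unfold lamzI
    split_ifs
    · exact (lamz_le' z _).trans hV
    · exact hV0

/-- the numerical estimate -/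
theorem numer (p C U A2 : ℕ) (hp : 1 ≤ p) (hA2 : A2 = C + 2 * p + 2 * p * U) (c1 N H x L S W F En T0 : ℝ)
    (hc1 : 1 ≤ c1) (hN : 1 ≤ N) (hH : 1 ≤ H) (hx : 0 ≤ x) (hL : 1 ≤ L)
    (hLc : 4 ^ p * (4 * c1) ^ (2 * p) ≤ L) (hW0 : 0 ≤ W) (hF0 : 0 ≤ F) (hS0 : 0 ≤ S)
    (hEn : En * H ≤ L ^ C * x ^ (2 * p)) (hS : S ≤ c1 * N * (2 * H) ^ 2 / L ^ (2 * A2))
    (hW : W ≤ c1 * N) (hF : F ≤ 12 * c1 * N * L ^ 2) (hEn0 : 0 ≤ En) (hT0 : 0 ≤ T0)
    (h : T0 ^ (2 * p) ≤ 4 ^ p * En * Real.sqrt (S * W) * (Real.sqrt (F * W)) ^ (2 * p - 1)) :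
    T0 ≤ N * x / L ^ U := by
  have hL0 : 0 < L := by linarith
  have hN0 : 0 < N := by linarith
  have hH0 : 0 < H := by linarith
  have hc0 : 0 < c1 := by linarith
  have h1 : Real.sqrt (S * W) ≤ 2 * c1 * N * H / L ^ A2 := by
    rw [Real.sqrt_le_left (by positivity)]
    calc S * W ≤ (c1 * N * (2 * H) ^ 2 / L ^ (2 * A2)) * (c1 * N) :=
          mul_le_mul hS hW hW0 (by positivity)
      _ = (2 * c1 * N * H / L ^ A2) ^ 2 := by
          rw [div_pow, ← pow_mul, mul_comm A2 2]; ring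
  have h2 : Real.sqrt (F * W) ≤ 4 * c1 * N * L := by
    rw [Real.sqrt_le_left (by positivity)]
    calc F * W ≤ (12 * c1 * N * L ^ 2) * (c1 * N) := mul_le_mul hF hW hW0 (by positivity)
      _ ≤ (4 * c1 * N * L) ^ 2 := by
          have : 0 ≤ (c1 * N * L) ^ 2 := sq_nonneg _
          nlinarith
  have h3 : En ≤ L ^ C * x ^ (2 * p) / H := by
    rw [le_div_iff₀ hH0]; exact hEn
  have h4 : T0 ^ (2 * p) ≤ 4 ^ p * (L ^ C * x ^ (2 * p) / H) * (2 * c1 * N * H / L ^ A2) *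
      (4 * c1 * N * L) ^ (2 * p - 1) := by
    refine h.trans ?_
    refine mul_le_mul ?_ (pow_le_pow_left₀ (Real.sqrt_nonneg _) h2 _) (by positivity) (by positivity)
    refine mul_le_mul ?_ h1 (Real.sqrt_nonneg _) (by positivity)
    exact mul_le_mul_of_nonneg_left h3 (by positivity)
  have h5 : 4 ^ p * (L ^ C * x ^ (2 * p) / H) * (2 * c1 * N * H / L ^ A2) *
      (4 * c1 * N * L) ^ (2 * p - 1) ≤
      4 ^ p * (L ^ C * x ^ (2 * p) / H) * (4 * c1 * N * H / L ^ A2) *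
      (4 * c1 * N * L) ^ (2 * p - 1) := by
    have : 2 * c1 * N * H / L ^ A2 ≤ 4 * c1 * N * H / L ^ A2 := by
      refine div_le_div_of_nonneg_right ?_ (by positivity)
      have : 0 ≤ c1 * N * H := by positivity
      nlinarith
    refine mul_le_mul_of_nonneg_right ?_ (by positivity)
    exact mul_le_mul_of_nonneg_left this (by positivity)
  have h6 : 4 ^ p * (L ^ C * x ^ (2 * p) / H) * (4 * c1 * N * H / L ^ A2) *
      (4 * c1 * N * L) ^ (2 * p - 1) =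
      (4 ^ p * (4 * c1) ^ (2 * p) / L) * (N * x / L ^ U) ^ (2 * p) := by
    obtain ⟨r, hr⟩ : ∃ r, 2 * p = r + 1 := ⟨2 * p - 1, by omega⟩
    have e1 : 2 * p - 1 = r := by omega
    have e2 : A2 = C + (r + 1) + (r + 1) * U := by rw [hA2, ← hr]
    rw [e1, e2, hr]
    rw [div_pow, ← pow_mul, mul_comm U (r + 1)]
    rw [pow_add L (C + (r + 1)), pow_add L C]
    have hLC : L ^ C ≠ 0 := by positivity
    have hLr : L ^ (r + 1) ≠ 0 := by positivity
    have hLU : L ^ ((r + 1) * U) ≠ 0 := by positivity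
    have e3 : L ^ (r + 1) = L ^ r * L := pow_succ _ _
    have hLr' : L ^ r ≠ 0 := by positivity
    rw [e3]
    field_simp
    ring
  have h7 : 4 ^ p * (4 * c1) ^ (2 * p) / L ≤ 1 := by
    rw [div_le_one hL0]; exact hLc
  have h8 : T0 ^ (2 * p) ≤ (N * x / L ^ U) ^ (2 * p) := by
    refine h4.trans (h5.trans ?_)
    rw [h6]
    have h9 : 0 ≤ (N * x / L ^ U) ^ (2 * p) := by positivity
    calc _ ≤ 1 * (N * x / L ^ U) ^ (2 * p) := mul_le_mul_of_nonneg_right h7 h9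
      _ = _ := one_mul _
  exact le_of_pow_le_pow_left₀ (by omega) (by positivity) h8

theorem main : ∀ θ : ℝ, 0 ≤ θ → S_FAM → S_MKT θ → S_LE θ := by
  intro θ hθ hFAM hMKT p e B C U hp he
  obtain ⟨A2, hA2⟩ : ∃ A2, A2 = C + 2 * p + 2 * p * U := ⟨_, rfl⟩
  obtain ⟨E₀, hE⟩ := hMKT (2 * e) (2 * A2) (by omega)
  refine ⟨E₀ + 1, fun E => ?_⟩
  obtain ⟨X₀, hX⟩ := hE E
  obtain ⟨N1, hN1⟩ := Pool.Agent.H373R2.T7.Vz_inv_small E
  obtain ⟨c1, hc1⟩ : ∃ c1 : ℝ, c1 = 2 * B + 4 := ⟨_, rfl⟩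
  have hc1' : 1 ≤ c1 := by
    have : (0 : ℝ) ≤ B := Nat.cast_nonneg B
    rw [hc1]; linarith
  obtain ⟨K0, hK0⟩ : ∃ K0 : ℝ, K0 = 2 ^ E₀ + 4 ^ p * (4 * c1) ^ (2 * p) + 1 := ⟨_, rfl⟩
  have hlim : Filter.Tendsto (fun N : ℕ => Real.log (N : ℝ)) Filter.atTop Filter.atTop :=
    Real.tendsto_log_atTop.comp (tendsto_natCast_atTop_atTop (R := ℝ))
  obtain ⟨N2, hN2⟩ := Filter.eventually_atTop.1 (hlim.eventually (Filter.eventually_ge_atTop K0))
  have he0 : (0 : ℝ) < e := by exact_mod_cast he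
  have hlim2 : Filter.Tendsto (fun N : ℕ => (N : ℝ) ^ (1 / (2 * (e : ℝ)))) Filter.atTop Filter.atTop :=
    (tendsto_rpow_atTop (by positivity)).comp (tendsto_natCast_atTop_atTop (R := ℝ))
  obtain ⟨N3, hN3⟩ := Filter.eventually_atTop.1
    (hlim2.eventually (Filter.eventually_ge_atTop (c1 ^ (θ + 1 / (2 * (e : ℝ))))))
  refine ⟨X₀ + N1 + N2 + N3 + 2 * B + 4, ?_⟩
  intro N hN H hH1 hH2 c x s hc hFam z hz1 hz2 σ hσ y hy G hG
  obtain ⟨hs, hen⟩ := hFam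
  have hNpos : 0 < N := by omega
  have hNr : (1 : ℝ) ≤ N := by exact_mod_cast hNpos
  have hL := hN2 N (by omega)
  have hV := hN1 N (by omega) z
  have hR := hN3 N (by omega)
  obtain ⟨L, hLdef⟩ : ∃ L : ℝ, L = Real.log N := ⟨_, rfl⟩
  rw [← hLdef] at hL hV hz1 hz2 hen ⊢
  have hp2 : (0 : ℝ) ≤ 2 ^ E₀ := by positivity
  have hp4 : 0 ≤ 4 ^ p * (4 * c1) ^ (2 * p) := by positivity
  have hL1 : 1 ≤ L := by rw [hK0] at hL; linarith
  have hL2 : 2 ^ E₀ ≤ L := by rw [hK0] at hL; linarith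
  have hL4 : 4 ^ p * (4 * c1) ^ (2 * p) ≤ L := by rw [hK0] at hL; linarith
  have hHpos : 0 < H := by
    have : (0 : ℝ) < H := lt_of_lt_of_le (Real.rpow_pos_of_pos (by linarith) _) hH1
    exact_mod_cast this
  have hHr : (1 : ℝ) ≤ H := by exact_mod_cast hHpos
  have hz : 1 ≤ z := by
    have : (1 : ℝ) ≤ z := (one_le_pow₀ hL1).trans hz1
    exact_mod_cast this
  have hVz := hV hz hz2
  -- the parameters
  obtain ⟨Z, hZ⟩ : ∃ Z : ℕ, Z = (2 * B + 2) * N := ⟨_, rfl⟩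
  obtain ⟨X, hXd⟩ : ∃ X : ℕ, X = Z + 2 * H := ⟨_, rfl⟩
  have hXN : N ≤ X := by rw [hXd, hZ]; nlinarith
  have hXle : X ≤ (2 * B + 4) * N := by rw [hXd, hZ]; nlinarith
  have hXr : (X : ℝ) ≤ c1 * N := by rw [hc1]; exact_mod_cast hXle
  have hNX : (N : ℝ) ≤ X := by exact_mod_cast hXN
  have hZX : Z ≤ X := by omega
  have hlogX1 : L ≤ Real.log X := by
    rw [hLdef]; exact Real.log_le_log (by linarith) hNX
  have hc1N : c1 ≤ N := by
    rw [hc1]
    have : 2 * B + 4 ≤ N := by omega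
    exact_mod_cast this
  have hlogX2 : Real.log X ≤ 2 * L := by
    have h1 : (X : ℝ) ≤ (N : ℝ) ^ 2 := by
      refine hXr.trans ?_
      rw [sq]
      exact mul_le_mul_of_nonneg_right hc1N (by linarith)
    have h2 := Real.log_le_log (by linarith) h1
    rw [Real.log_pow] at h2
    rw [hLdef]
    exact_mod_cast h2
  have hlogZ : Real.log Z ≤ 2 * L := by
    refine le_trans (Real.log_le_log ?_ (by exact_mod_cast hZX)) hlogX2
    have : 0 < Z := by rw [hZ]; positivity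
    exact_mod_cast this
  have hX' := hX X (by omega) z (by
    calc (Real.log X) ^ E₀ ≤ (2 * L) ^ E₀ := pow_le_pow_left₀ (by linarith) hlogX2 _
      _ = 2 ^ E₀ * L ^ E₀ := mul_pow _ _ _
      _ ≤ L * L ^ E₀ := mul_le_mul_of_nonneg_right hL2 (by positivity)
      _ = L ^ (E₀ + 1) := (pow_succ' _ _).symm
      _ ≤ z := hz1) (hz2.trans (pow_le_pow_left₀ (by linarith) hlogX1 _)) (2 * H) (by
    have e1 : (((2 * e : ℕ) : ℝ)) = 2 * (e : ℝ) := by push_cast; ring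
    rw [e1]
    calc (X : ℝ) ^ (θ + 1 / (2 * (e : ℝ))) ≤ (c1 * N) ^ (θ + 1 / (2 * (e : ℝ))) :=
          Real.rpow_le_rpow (by positivity) hXr (by positivity)
      _ = c1 ^ (θ + 1 / (2 * (e : ℝ))) * (N : ℝ) ^ (θ + 1 / (2 * (e : ℝ))) :=
          Real.mul_rpow (by linarith) (by linarith)
      _ ≤ (N : ℝ) ^ (1 / (2 * (e : ℝ))) * (N : ℝ) ^ (θ + 1 / (2 * (e : ℝ))) :=
          mul_le_mul_of_nonneg_right hR (by positivity)
      _ = (N : ℝ) ^ (θ + 1 / (e : ℝ)) := by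
          rw [← Real.rpow_add (by linarith)]
          congr 1
          field_simp
          ring
      _ ≤ H := hH1
      _ ≤ ((2 * H : ℕ) : ℝ) := by push_cast; linarith) (by omega)
  -- the function
  obtain ⟨f, hf⟩ : ∃ f : ℤ → ℝ, f = fun m => if -(Z : ℤ) - 1 < m ∧ m ≤ Z then Ed z m else 0 := ⟨_, rfl⟩
  have hfZ : ∀ m, f m ≠ 0 → |m| ≤ Z := by
    intro m hm
    rw [hf] at hm
    by_cases h : -(Z : ℤ) - 1 < m ∧ m ≤ Z
    · rw [abs_le]; omega
    · simp only [if_neg h] at hm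
      exact absurd rfl hm
  have hfb : ∀ m, |f m| ≤ 2 * L := by
    intro m
    rw [hf]
    by_cases h : -(Z : ℤ) - 1 < m ∧ m ≤ Z
    · simp only [if_pos h]
      exact Ed_le z Z (2 * L) (by linarith) hlogZ (by linarith) m h.2
    · simp only [if_neg h, abs_zero]
      linarith
  obtain ⟨S, hS⟩ : ∃ S : ℝ, S = X * ((2 * H : ℕ) : ℝ) ^ 2 / (Real.log X) ^ (2 * A2) := ⟨_, rfl⟩
  have hSum : ∀ α : ℝ, ∑ y ∈ Icc (-((Z : ℤ) + 2 * H)) Z, ‖sw f (2 * H) y α‖ ^ 2 ≤ S := by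
    intro α
    have h1 := hX' (-(Z : ℤ) - 1) Z α
    rw [hS, hf]
    refine le_trans (Finset.sum_le_sum_of_subset_of_nonneg ?_ fun _ _ _ => by positivity) h1
    intro m hm
    rw [mem_Icc] at hm ⊢
    rw [hXd]; push_cast
    omega
  -- the weights
  obtain ⟨T, hT⟩ : ∃ T : Finset ℤ, T = (Icc 1 y).image (fun n : ℕ => σ * (n : ℤ)) := ⟨_, rfl⟩
  obtain ⟨w, hw⟩ : ∃ w : ℤ → ℂ, w = fun m => G (σ * m).toNat := ⟨_, rfl⟩
  have hσ2 : ∀ n : ℤ, σ * (σ * n) = n := by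
    intro n
    rcases hσ with h | h <;> rw [h] <;> ring
  have hinj : Set.InjOn (fun n : ℕ => σ * (n : ℤ)) (Icc 1 y : Finset ℕ) := by
    intro a _ b _ hab
    have := congrArg (fun t => σ * t) hab
    simp only [hσ2] at this
    exact_mod_cast this
  have hwn : ∀ n : ℕ, w (σ * (n : ℤ)) = G n := by
    intro n; rw [hw]; simp only [hσ2, Int.toNat_natCast]
  have hWs : ∑ n ∈ T, ‖w n‖ ^ 2 = ∑ n ∈ Icc 1 y, ‖G n‖ ^ 2 := by
    rw [hT, Finset.sum_image hinj]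
    exact Finset.sum_congr rfl fun n _ => by rw [hwn]
  have hW : ∑ n ∈ T, ‖w n‖ ^ 2 ≤ c1 * N := by
    rw [hWs]
    calc ∑ n ∈ Icc 1 y, ‖G n‖ ^ 2 ≤ ∑ n ∈ Icc 1 y, (1 : ℝ) :=
          Finset.sum_le_sum fun n _ => pow_le_one₀ (norm_nonneg _) (hG n)
      _ = y := by simp
      _ ≤ B * N := by exact_mod_cast hy
      _ ≤ c1 * N := by
          refine mul_le_mul_of_nonneg_right ?_ (by linarith)
          have : (0 : ℝ) ≤ B := Nat.cast_nonneg B
          rw [hc1]; linarith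
  have hF : ∑ m ∈ Icc (-(Z : ℤ)) Z, f m ^ 2 ≤ 12 * c1 * N * L ^ 2 := by
    calc ∑ m ∈ Icc (-(Z : ℤ)) Z, f m ^ 2 ≤ ∑ m ∈ Icc (-(Z : ℤ)) Z, (2 * L) ^ 2 := by
          refine Finset.sum_le_sum fun m _ => ?_
          rw [← sq_abs (f m)]
          exact pow_le_pow_left₀ (abs_nonneg _) (hfb m) 2
      _ = (2 * Z + 1) * (2 * L) ^ 2 := by
          rw [Finset.sum_const, Int.card_Icc, nsmul_eq_mul]
          congr 1
          have : ((Z : ℤ) + 1 - -(Z : ℤ)).toNat = 2 * Z + 1 := by omega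
          rw [this]; push_cast; ring
      _ ≤ 12 * c1 * N * L ^ 2 := by
          have h1 : (Z : ℝ) + 2 * N ≤ c1 * N := by
            rw [hc1, hZ]; push_cast; linarith
          have h2 : (2 * (Z : ℝ) + 1) ≤ 3 * (c1 * N) := by
            have : (0 : ℝ) ≤ Z := Nat.cast_nonneg Z
            linarith
          have h3 : 0 ≤ (2 * L) ^ 2 := sq_nonneg _
          calc (2 * (Z : ℝ) + 1) * (2 * L) ^ 2 ≤ (3 * (c1 * N)) * (2 * L) ^ 2 :=
                mul_le_mul_of_nonneg_right h2 h3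
            _ = 12 * c1 * N * L ^ 2 := by ring
  have hfam := hFAM p x H Z c s f w T S hp hHpos hs hfZ hSum
  have hT0 : ∑ m ∈ Icc 1 x, ‖∑ n ∈ Icc 1 y, G n * (Ed z (σ * n + s m) : ℂ)‖ =
      ∑ j ∈ Icc 1 x, ‖∑ n ∈ T, w n * f (n + s j)‖ := by
    refine Finset.sum_congr rfl fun j hj => ?_
    congr 1
    rw [hT, Finset.sum_image hinj]
    refine Finset.sum_congr rfl fun n hn => ?_
    rw [hwn]
    have h1 := hs j hj
    have h2 : |c| ≤ B * N := by exact_mod_cast hc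
    have h3 : n ≤ B * N := (mem_Icc.1 hn).2.trans hy
    have h4 : |σ * (n : ℤ) + s j| ≤ Z := by
      have e1 : |σ * (n : ℤ)| = n := by
        rcases hσ with h | h <;> rw [h] <;> simp
      have e2 : |s j| ≤ B * N + H := by
        rw [abs_le] at h2 ⊢
        constructor
        · have : (0 : ℤ) ≤ H := Int.natCast_nonneg H
          linarith [h1.1, h2.1]
        · linarith [h1.2, h2.2]
      have e3 : (Z : ℤ) = (2 * B + 2) * N := by rw [hZ]; push_cast; ring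
      have e4 : (H : ℤ) ≤ N := by exact_mod_cast hH2
      have e5 : (n : ℤ) ≤ B * N := by exact_mod_cast h3
      have e6 : (0 : ℤ) ≤ N := Int.natCast_nonneg N
      calc |σ * (n : ℤ) + s j| ≤ |σ * (n : ℤ)| + |s j| := abs_add_le _ _
        _ ≤ B * N + (B * N + H) := by rw [e1]; linarith
        _ ≤ Z := by rw [e3]; linarith
    rw [abs_le] at h4
    rw [hf]
    have h5 : -(Z : ℤ) - 1 < σ * (n : ℤ) + s j ∧ σ * (n : ℤ) + s j ≤ Z := ⟨by linarith [h4.1], h4.2⟩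
    simp only [if_pos h5]
  rw [hT0]
  have hlogX0 : 0 < Real.log X := by linarith
  refine numer p C U A2 hp hA2 c1 N H x L S (∑ n ∈ T, ‖w n‖ ^ 2) (∑ m ∈ Icc (-(Z : ℤ)) Z, f m ^ 2)
    (energy p x s) _ hc1' hNr hHr (Nat.cast_nonneg x) hL1 hL4
    (Finset.sum_nonneg fun _ _ => by positivity) (Finset.sum_nonneg fun _ _ => by positivity)
    (by rw [hS]; positivity) hen ?_ hW hF (Nat.cast_nonneg _)
    (Finset.sum_nonneg fun _ _ => norm_nonneg _) hfam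
  rw [hS]
  have e1 : (((2 * H : ℕ) : ℝ)) = 2 * H := by push_cast; ring
  rw [e1]
  refine div_le_div₀ (by positivity) ?_ (by positivity) (pow_le_pow_left₀ (by linarith) hlogX1 _)
  exact mul_le_mul_of_nonneg_right hXr (by positivity)

end Pool.Agent.helper24_UT.Le
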