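import Pool.Agent.helper24_UT.Stm17

set_option autoImplicit false

namespace Pool.Agent.helper24_UT.Lel

open Finset
open Pool.Agent.helper24_UT
open Pool.Agent.H373R2.T7 (energy)
open Pool.Agent.H807R2.Dav (ee)

/-- the truncated bound for a function -/
def TB (θ : ℝ) (f : ℤ → ℝ) : Prop := ∀ e A : ℕ, 1 ≤ e → ∃ X₀ : ℕ, ∀ X : ℕ, X₀ ≤ X → ∀ K : ℕ,
  (X : ℝ) ^ (θ + 1 / e : ℝ) ≤ K → K ≤ X →
  ∀ (Y₁ Y₂ : ℤ) (α : ℝ), ∑ x ∈ Icc (-(X : ℤ)) X,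
    ‖sw (fun m => if Y₁ < m ∧ m ≤ Y₂ then f m else 0) K x α‖ ^ 2 ≤ X * (K : ℝ) ^ 2 / (Real.log X) ^ A

theorem tb_li {θ : ℝ} (h : S_MKLT θ) : TB θ liI := h

theorem tb_mu {θ : ℝ} (h : S_MKMT θ) : TB θ muI := by
  intro e A he
  obtain ⟨X₀, hX₀⟩ := h e A he
  refine ⟨X₀, fun X hX K h1 h2 Y₁ Y₂ α => ?_⟩
  have h3 := hX₀ X hX K h1 h2 Y₁ Y₂ α
  have h4 : (fun m : ℤ => if Y₁ < m ∧ m ≤ Y₂ then muI m else 0) =
      (fun m : ℤ => if 1 ≤ m ∧ Y₁ < m ∧ m ≤ Y₂ then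
        ((ArithmeticFunction.moebius m.toNat : ℤ) : ℝ) else 0) := by
    funext m
    unfold muI
    by_cases a1 : 1 ≤ m <;> by_cases a2 : Y₁ < m ∧ m ≤ Y₂ <;> simp [a1, a2]
  rw [h4]
  exact h3

theorem li_le (m : ℤ) : |liI m| ≤ 1 := by
  unfold liI
  split_ifs
  · rw [abs_pow]; simp
  · simp

theorem mu_le (m : ℤ) : |muI m| ≤ 1 := by
  unfold muI
  split_ifs
  · have h := ArithmeticFunction.abs_moebius_le_one (n := m.toNat)
    have h2 : ((|ArithmeticFunction.moebius m.toNat| : ℤ) : ℝ) ≤ ((1 : ℤ) : ℝ) := by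
      exact_mod_cast h
    rw [Int.cast_abs] at h2
    simpa using h2
  · simp

theorem core (θ : ℝ) (hθ : 0 ≤ θ) (hF : S_FAM) (f : ℤ → ℝ) (hf1 : ∀ m, |f m| ≤ 1) (hT : TB θ f)
    (p e B C U : ℕ) (hp : 1 ≤ p) (he : 1 ≤ e) :
    ∃ N₀ : ℕ, ∀ N : ℕ, N₀ ≤ N → ∀ H : ℕ,
  (N : ℝ) ^ (θ + 1 / e : ℝ) ≤ H → H ≤ N → ∀ (c : ℤ) (x : ℕ) (s : ℕ → ℤ), |c| ≤ B * N → Fam p C N H x c s →
  ∀ σ : ℤ, (σ = 1 ∨ σ = -1) → ∀ y : ℕ, y ≤ B * N →
  ∀ G : ℕ → ℂ, (∀ n, ‖G n‖ ≤ 1) →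
  ∑ m ∈ Icc 1 x, ‖∑ n ∈ Icc 1 y, G n * (f (σ * n + s m) : ℂ)‖ ≤ (N : ℝ) * x / (Real.log N) ^ U := by
  obtain ⟨X₀, hX₀⟩ := hT (2 * e) (2 * (C + 2 * p * U + 1)) (by omega)
  have heR : (0 : ℝ) < (e : ℝ) := by exact_mod_cast he
  have he0 : (0 : ℝ) < 1 / ((2 * e : ℕ) : ℝ) := by push_cast; positivity
  obtain ⟨c1, hc1⟩ : ∃ c1 : ℝ, c1 = 2 * B + 4 := ⟨_, rfl⟩
  have hB0 : (0 : ℝ) ≤ B := Nat.cast_nonneg B
  have hc1pos : 0 < c1 := by rw [hc1]; positivity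
  have h1 : ∀ᶠ N : ℕ in Filter.atTop,
      c1 ^ (θ + 1 / ((2 * e : ℕ) : ℝ)) ≤ (N : ℝ) ^ (1 / ((2 * e : ℕ) : ℝ)) :=
    ((tendsto_rpow_atTop he0).comp tendsto_natCast_atTop_atTop).eventually_ge_atTop _
  have h2 : ∀ᶠ N : ℕ in Filter.atTop, (4 * c1) ^ (2 * p) ≤ Real.log N :=
    (Real.tendsto_log_atTop.comp tendsto_natCast_atTop_atTop).eventually_ge_atTop _
  obtain ⟨N₀, hN₀⟩ := Filter.eventually_atTop.mp
    (h1.and (h2.and (Filter.eventually_ge_atTop (max X₀ 3))))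
  refine ⟨N₀, fun N hN H hH1 hH2 c x s hc hFam σ hσ y hy G hG => ?_⟩
  obtain ⟨hN1, hN2, hN3⟩ := hN₀ N hN
  have hNX : X₀ ≤ N := le_trans (le_max_left _ _) hN3
  have hN3' : 3 ≤ N := le_trans (le_max_right _ _) hN3
  have hNR : (3 : ℝ) ≤ N := by exact_mod_cast hN3'
  have hN0 : (0 : ℝ) < N := by linarith
  obtain ⟨Z, hZ⟩ : ∃ Z : ℕ, Z = (2 * B + 2) * N := ⟨_, rfl⟩
  obtain ⟨X, hX⟩ : ∃ X : ℕ, X = Z + 2 * H := ⟨_, rfl⟩
  obtain ⟨L, hL⟩ : ∃ L : ℝ, L = Real.log N := ⟨_, rfl⟩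
  have hXN : N ≤ X := by rw [hX, hZ]; nlinarith
  have hXle : (X : ℝ) ≤ c1 * N := by
    rw [hX, hZ, hc1]
    push_cast
    have : (H : ℝ) ≤ N := by exact_mod_cast hH2
    nlinarith
  have hH0 : (0 : ℝ) < H := lt_of_lt_of_le (Real.rpow_pos_of_pos hN0 _) hH1
  have hH1' : 1 ≤ H := by exact_mod_cast hH0
  have hL1 : 1 ≤ L := by
    rw [hL]
    refine le_trans ?_ hN2
    have : (1 : ℝ) ≤ 4 * c1 := by rw [hc1]; linarith
    exact one_le_pow₀ this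
  have hLX : L ≤ Real.log X := by
    rw [hL]
    exact Real.log_le_log hN0 (by exact_mod_cast hXN)
  -- the exponent condition
  have hK : (X : ℝ) ^ (θ + 1 / ((2 * e : ℕ) : ℝ)) ≤ ((2 * H : ℕ) : ℝ) := by
    have a0 : 0 ≤ θ + 1 / ((2 * e : ℕ) : ℝ) := by linarith
    have a1 : (X : ℝ) ^ (θ + 1 / ((2 * e : ℕ) : ℝ)) ≤ (c1 * N) ^ (θ + 1 / ((2 * e : ℕ) : ℝ)) :=
      Real.rpow_le_rpow (Nat.cast_nonneg _) hXle a0
    have a2 : (c1 * N : ℝ) ^ (θ + 1 / ((2 * e : ℕ) : ℝ)) =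
        c1 ^ (θ + 1 / ((2 * e : ℕ) : ℝ)) * (N : ℝ) ^ (θ + 1 / ((2 * e : ℕ) : ℝ)) :=
      Real.mul_rpow hc1pos.le hN0.le
    have a3 : (N : ℝ) ^ (θ + 1 / e : ℝ) =
        (N : ℝ) ^ (1 / ((2 * e : ℕ) : ℝ)) * (N : ℝ) ^ (θ + 1 / ((2 * e : ℕ) : ℝ)) := by
      rw [← Real.rpow_add hN0]
      congr 1
      push_cast
      field_simp
      ring
    have a4 : c1 ^ (θ + 1 / ((2 * e : ℕ) : ℝ)) * (N : ℝ) ^ (θ + 1 / ((2 * e : ℕ) : ℝ)) ≤
        (N : ℝ) ^ (1 / ((2 * e : ℕ) : ℝ)) * (N : ℝ) ^ (θ + 1 / ((2 * e : ℕ) : ℝ)) :=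
      mul_le_mul_of_nonneg_right hN1 (Real.rpow_nonneg hN0.le _)
    calc (X : ℝ) ^ (θ + 1 / ((2 * e : ℕ) : ℝ)) ≤ (N : ℝ) ^ (θ + 1 / e : ℝ) := by
          rw [a3]; exact a1.trans (a2.le.trans a4)
      _ ≤ H := hH1
      _ ≤ ((2 * H : ℕ) : ℝ) := by push_cast; linarith
  -- the truncated function
  obtain ⟨g, hg⟩ : ∃ g : ℤ → ℝ, g = fun m => if -(Z : ℤ) - 1 < m ∧ m ≤ Z then f m else 0 := ⟨_, rfl⟩
  have hgZ : ∀ m, g m ≠ 0 → |m| ≤ Z := by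
    intro m hm
    rw [hg] at hm
    simp only at hm
    by_cases h : -(Z : ℤ) - 1 < m ∧ m ≤ Z
    · rw [abs_le]; omega
    · rw [if_neg h] at hm; exact absurd rfl hm
  have hg1 : ∀ m, g m ^ 2 ≤ 1 := by
    intro m
    rw [hg]
    simp only
    split_ifs
    · rw [← sq_abs]
      have := hf1 m
      have h0 := abs_nonneg (f m)
      nlinarith
    · norm_num
  have hgf : ∀ m, |m| ≤ (Z : ℤ) → g m = f m := by
    intro m hm
    rw [hg]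
    simp only
    rw [abs_le] at hm
    rw [if_pos (by omega)]
  obtain ⟨A2, hA2⟩ : ∃ A2 : ℕ, A2 = C + 2 * p * U + 1 := ⟨_, rfl⟩
  obtain ⟨S, hS⟩ : ∃ S : ℝ, S = (2 * c1 * N * H / L ^ A2) ^ 2 / (c1 * N) := ⟨_, rfl⟩
  have hLpos : 0 < L := by linarith
  have hSb : ∀ α : ℝ, ∑ v ∈ Icc (-((Z : ℤ) + 2 * H)) Z, ‖sw g (2 * H) v α‖ ^ 2 ≤ S := by
    intro α
    have b1 := hX₀ X (hNX.trans hXN) (2 * H) hK (by rw [hX]; omega) (-(Z : ℤ) - 1) Z α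
    rw [← hg] at b1
    have b2 : ∑ v ∈ Icc (-((Z : ℤ) + 2 * H)) Z, ‖sw g (2 * H) v α‖ ^ 2 ≤
        ∑ v ∈ Icc (-(X : ℤ)) X, ‖sw g (2 * H) v α‖ ^ 2 := by
      apply Finset.sum_le_sum_of_subset_of_nonneg
      · intro v hv
        rw [Finset.mem_Icc] at hv ⊢
        have : (X : ℤ) = Z + 2 * H := by rw [hX]; push_cast; ring
        rw [this]
        omega
      · intro v _ _
        positivity
    refine b2.trans (b1.trans ?_)
    have b3 : S = c1 * N * (((2 * H : ℕ) : ℝ)) ^ 2 / L ^ (2 * A2) := by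
      rw [hS]
      push_cast
      field_simp
      rw [← pow_mul, mul_comm A2 2]
    rw [b3, ← hA2]
    have b4 : L ^ (2 * A2) ≤ Real.log X ^ (2 * A2) := pow_le_pow_left₀ hLpos.le hLX _
    have b5 : (X : ℝ) * ((2 * H : ℕ) : ℝ) ^ 2 ≤ c1 * N * ((2 * H : ℕ) : ℝ) ^ 2 :=
      mul_le_mul_of_nonneg_right hXle (by positivity)
    exact div_le_div₀ (by positivity) b5 (by positivity) b4
  -- the weight
  obtain ⟨T, hTd⟩ : ∃ T : Finset ℤ, T = (Icc 1 y).image (fun n : ℕ => σ * (n : ℤ)) := ⟨_, rfl⟩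
  have hinj : ∀ n ∈ Icc 1 y, ∀ n' ∈ Icc 1 y, σ * (n : ℤ) = σ * (n' : ℤ) → n = n' := by
    intro n _ n' _ h
    rcases hσ with h' | h' <;> rw [h'] at h <;> omega
  have hsumT : ∀ F : ℤ → ℂ, ∑ n ∈ T, F n = ∑ n ∈ Icc 1 y, F (σ * (n : ℤ)) := by
    intro F
    rw [hTd, Finset.sum_image hinj]
  have hTcard : (T.card : ℝ) ≤ c1 * N := by
    have c1' : T.card ≤ y := by
      rw [hTd]
      refine Finset.card_image_le.trans ?_
      simp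
    have c2 : (T.card : ℝ) ≤ B * N := by
      have : T.card ≤ B * N := c1'.trans hy
      exact_mod_cast this
    rw [hc1]
    nlinarith
  have hW : ∑ n ∈ T, ‖G n.natAbs‖ ^ 2 ≤ c1 * N := by
    calc ∑ n ∈ T, ‖G n.natAbs‖ ^ 2 ≤ ∑ n ∈ T, (1 : ℝ) := by
          apply Finset.sum_le_sum
          intro n _
          have := hG n.natAbs
          have h0 := norm_nonneg (G n.natAbs)
          nlinarith
      _ = T.card := by simp
      _ ≤ c1 * N := hTcard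
  have hW0 : 0 ≤ ∑ n ∈ T, ‖G n.natAbs‖ ^ 2 := Finset.sum_nonneg (fun _ _ => by positivity)
  have hG2 : ∑ m ∈ Icc (-(Z : ℤ)) Z, g m ^ 2 ≤ 4 * (c1 * N) := by
    calc ∑ m ∈ Icc (-(Z : ℤ)) Z, g m ^ 2 ≤ ∑ m ∈ Icc (-(Z : ℤ)) Z, (1 : ℝ) :=
          Finset.sum_le_sum (fun m _ => hg1 m)
      _ = ((Icc (-(Z : ℤ)) Z).card : ℝ) := by simp
      _ = 2 * Z + 1 := by
          rw [Int.card_Icc]
          have : ((Z : ℤ) + 1 - -(Z : ℤ)).toNat = 2 * Z + 1 := by omega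
          rw [this]
          push_cast
          ring
      _ ≤ 4 * (c1 * N) := by
          rw [hZ, hc1]
          push_cast
          nlinarith
  have hG20 : 0 ≤ ∑ m ∈ Icc (-(Z : ℤ)) Z, g m ^ 2 := Finset.sum_nonneg (fun _ _ => by positivity)
  have hfam := hF p x H Z c s g (fun n => G n.natAbs) T S hp hH1' hFam.1 hgZ hSb
  -- identify the left side
  obtain ⟨T0, hT0⟩ : ∃ T0 : ℝ, T0 = ∑ m ∈ Icc 1 x, ‖∑ n ∈ Icc 1 y, G n * (f (σ * n + s m) : ℂ)‖ := ⟨_, rfl⟩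
  have hT0' : ∑ j ∈ Icc 1 x, ‖∑ n ∈ T, G n.natAbs * (g (n + s j) : ℂ)‖ = T0 := by
    rw [hT0]
    apply Finset.sum_congr rfl
    intro j hj
    congr 1
    rw [hsumT]
    apply Finset.sum_congr rfl
    intro n hn
    have d1 : (σ * (n : ℤ)).natAbs = n := by
      rcases hσ with h' | h' <;> rw [h'] <;> omega
    rw [d1]
    have d2 : g (σ * (n : ℤ) + s j) = f (σ * n + s j) := by
      apply hgf
      obtain ⟨e1, e2⟩ := hFam.1 j hj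
      have e3 : n ≤ B * N := (Finset.mem_Icc.mp hn).2.trans hy
      have e4 : (n : ℤ) ≤ B * N := by exact_mod_cast e3
      have e5 : (H : ℤ) ≤ N := by exact_mod_cast hH2
      have e6 : (Z : ℤ) = 2 * (B * N) + 2 * N := by rw [hZ]; push_cast; ring
      have e7 : (0 : ℤ) ≤ n := Int.natCast_nonneg n
      rw [abs_le] at hc ⊢
      rw [e6]
      generalize (B : ℤ) * N = BN at *
      rcases hσ with h' | h' <;> rw [h'] <;> constructor <;> omega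
    rw [d2]
  rw [hT0'] at hfam
  rw [← hT0]
  have hT00 : 0 ≤ T0 := by rw [hT0]; exact Finset.sum_nonneg (fun _ _ => norm_nonneg _)
  have hP : (0 : ℝ) < c1 * N := by positivity
  have hq1 : Real.sqrt (S * ∑ n ∈ T, ‖G n.natAbs‖ ^ 2) ≤ 2 * c1 * N * H / L ^ A2 := by
    apply Real.sqrt_le_iff.mpr
    refine ⟨by positivity, ?_⟩
    have hS0 : 0 ≤ S := by rw [hS]; positivity
    calc S * ∑ n ∈ T, ‖G n.natAbs‖ ^ 2 ≤ S * (c1 * N) := mul_le_mul_of_nonneg_left hW hS0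
      _ = (2 * c1 * N * H / L ^ A2) ^ 2 := by
          rw [hS]
          exact div_mul_cancel₀ _ hP.ne'
  have hq2 : Real.sqrt ((∑ m ∈ Icc (-(Z : ℤ)) Z, g m ^ 2) * ∑ n ∈ T, ‖G n.natAbs‖ ^ 2) ≤
      2 * (c1 * N) := by
    apply Real.sqrt_le_iff.mpr
    refine ⟨by positivity, ?_⟩
    calc (∑ m ∈ Icc (-(Z : ℤ)) Z, g m ^ 2) * ∑ n ∈ T, ‖G n.natAbs‖ ^ 2
        ≤ (4 * (c1 * N)) * (c1 * N) := mul_le_mul hG2 hW hW0 (by positivity)
      _ = (2 * (c1 * N)) ^ 2 := by ring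
  have hen : (energy p x s : ℝ) * H ≤ L ^ C * (x : ℝ) ^ (2 * p) := by
    rw [hL]; exact hFam.2
  have hfin : T0 ^ (2 * p) ≤ ((N : ℝ) * x / L ^ U) ^ (2 * p) := by
    have hx0 : (0 : ℝ) ≤ x := Nat.cast_nonneg x
    have hen0 : (0 : ℝ) ≤ (energy p x s : ℝ) := Nat.cast_nonneg _
    calc T0 ^ (2 * p) ≤ 4 ^ p * energy p x s * Real.sqrt (S * ∑ n ∈ T, ‖G n.natAbs‖ ^ 2) *
        (Real.sqrt ((∑ m ∈ Icc (-(Z : ℤ)) Z, g m ^ 2) * ∑ n ∈ T, ‖G n.natAbs‖ ^ 2)) ^ (2 * p - 1) := hfam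
      _ ≤ 4 ^ p * energy p x s * (2 * c1 * N * H / L ^ A2) * (2 * (c1 * N)) ^ (2 * p - 1) := by
          apply mul_le_mul
          · exact mul_le_mul_of_nonneg_left hq1 (by positivity)
          · exact pow_le_pow_left₀ (Real.sqrt_nonneg _) hq2 _
          · positivity
          · positivity
      _ = 4 ^ p * (energy p x s * H) * (2 * (c1 * N)) ^ (2 * p) / L ^ A2 := by
          have : (2 * (c1 * N) : ℝ) ^ (2 * p) = (2 * (c1 * N)) ^ (2 * p - 1) * (2 * (c1 * N)) := by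
            rw [← pow_succ]
            congr 1
            omega
          rw [this]
          ring
      _ ≤ 4 ^ p * (L ^ C * (x : ℝ) ^ (2 * p)) * (2 * (c1 * N)) ^ (2 * p) / L ^ A2 := by
          apply div_le_div_of_nonneg_right _ (by positivity)
          apply mul_le_mul_of_nonneg_right _ (by positivity)
          exact mul_le_mul_of_nonneg_left hen (by positivity)
      _ = (4 * c1) ^ (2 * p) * (((N : ℝ) * x) ^ (2 * p) * (L ^ C / L ^ A2)) := by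
          have : (4 : ℝ) ^ p = 2 ^ (2 * p) := by rw [pow_mul]; norm_num
          rw [this]
          have h4 : (4 : ℝ) = 2 * 2 := by norm_num
          rw [h4]
          simp only [mul_pow]
          ring
      _ ≤ L * (((N : ℝ) * x) ^ (2 * p) * (L ^ C / L ^ A2)) := by
          apply mul_le_mul_of_nonneg_right _ (by positivity)
          rw [hL]; exact hN2
      _ = ((N : ℝ) * x / L ^ U) ^ (2 * p) := by
          rw [div_pow, ← pow_mul, hA2]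
          have : L ^ (C + 2 * p * U + 1) = L ^ C * L ^ (U * (2 * p)) * L := by
            rw [← pow_add, ← pow_succ]
            congr 1
            ring
          rw [this]
          field_simp
  have hfin2 : T0 ≤ (N : ℝ) * x / L ^ U :=
    (pow_le_pow_iff_left₀ hT00 (by positivity) (by omega)).mp hfin
  rw [hL] at hfin2
  exact hfin2

theorem main : ∀ θ : ℝ, 0 ≤ θ → S_FAM → S_MKLT θ → S_MKMT θ → S_LEL θ := by
  intro θ hθ hF h1 h2 p e B C U hp he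
  obtain ⟨N₁, hN₁⟩ := core θ hθ hF liI li_le (tb_li h1) p e B C U hp he
  obtain ⟨N₂, hN₂⟩ := core θ hθ hF muI mu_le (tb_mu h2) p e B C U hp he
  refine ⟨max N₁ N₂, fun N hN H hH1 hH2 c x s hc hFam f hf σ hσ y hy G hG => ?_⟩
  rcases hf with rfl | rfl
  · exact hN₁ N (le_trans (le_max_left _ _) hN) H hH1 hH2 c x s hc hFam σ hσ y hy G hG
  · exact hN₂ N (le_trans (le_max_right _ _) hN) H hH1 hH2 c x s hc hFam σ hσ y hy G hG

end Pool.Agent.helper24_UT.Lel
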