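import Pool.Agent.helper24_UT.Stm17
import Pool.Agent.TH646.LV.Level

set_option autoImplicit false

/-! Level of distribution `N exp (-K (log log N) ^ 2)` for the residues from a family of nearly minimal additive energy in a
short window (following `Pool.Agent.TH646.LV.Level`). -/

namespace Pool.Agent.helper24_UT.Lv

open Finset
open Pool.Agent.helper24_UT
open Pool.Agent.H373R2.T7
open Pool.Agent.W93.AU (dI)
open Pool.Agent.W93.LV
open Pool.Agent.TH646.LV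
open Pool.Agent.H807R2.Dav (ee)

theorem bd_s (p B C N H x : ℕ) (c : ℤ) (s : ℕ → ℤ) (hc : |c| ≤ B * N) (hH : H ≤ N) (hF : Fam p C N H x c s) :
    ∀ m ∈ Icc 1 x, |s m| ≤ ((B + 1 : ℕ) : ℤ) * N := by
  intro m hm
  obtain ⟨h1, h2⟩ := hF.1 m hm
  obtain ⟨h3, h4⟩ := abs_le.1 hc
  have h5 : (H : ℤ) ≤ N := by exact_mod_cast hH
  rw [abs_le]
  push_cast
  constructor <;> nlinarith

theorem ee0 : ee 0 = 1 := by
  unfold ee
  simp

theorem norm_sum (z y : ℕ) (G : ℕ → ℝ) (f : ℕ → ℤ) :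
    ‖∑ n ∈ Icc 1 y, (G n : ℂ) * ee (n * (((0 : ℤ) : ℝ) / ((1 : ℕ) : ℝ))) * (Ed z (f n) : ℂ)‖ =
      |∑ n ∈ Icc 1 y, G n * dI z (f n)| := by
  have h : ∑ n ∈ Icc 1 y, (G n : ℂ) * ee (n * (((0 : ℤ) : ℝ) / ((1 : ℕ) : ℝ))) * (Ed z (f n) : ℂ) =
      ((∑ n ∈ Icc 1 y, G n * dI z (f n) : ℝ) : ℂ) := by
    push_cast
    refine sum_congr rfl fun n _ => ?_
    have h1 : (n : ℝ) * ((0 : ℝ) / 1) = 0 := by simp
    rw [h1, ee0, mul_one]
    rfl
  rw [h, Complex.norm_real, Real.norm_eq_abs]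

open Classical in
theorem ftwo (θ : ℝ) (hF : S_FTW θ) (p e B C T U : ℕ) (hp : 1 ≤ p) (he : 1 ≤ e) : ∃ B0 : ℕ, ∀ E : ℕ, ∃ N₀ : ℕ,
    ∀ N : ℕ, N₀ ≤ N → ∀ H : ℕ, (N : ℝ) ^ (θ + 1 / e : ℝ) ≤ H → H ≤ N →
    ∀ (c : ℤ) (x : ℕ) (s : ℕ → ℤ), |c| ≤ B * N → Fam p C N H x c s →
    ∀ z : ℕ, Real.log N ^ B0 ≤ z → (z : ℝ) ≤ Real.log N ^ E →
    ∀ G : ℕ → ℝ, (∀ n, |G n| ≤ Real.log N ^ T) →
    ∀ S : Finset ℕ, S ⊆ Icc 1 x → (∀ m ∈ S,
      (∃ N' : ℕ, N' ≤ (B + 1) * N ∧ N / Real.log N ^ U < |∑ n ∈ Icc 1 N', G n * dI z ((n : ℤ) + s m)|) ∨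
      (∃ N' : ℕ, (N' : ℤ) < s m ∧ N / Real.log N ^ U < |∑ n ∈ Icc 1 N', G n * dI z (s m - (n : ℤ))|)) →
    (S.card : ℝ) ≤ x / Real.log N ^ U := by
  obtain ⟨B0, h0⟩ := hF p e (B + 1) C T (U + 1) 0 hp he
  refine ⟨B0, fun E => ?_⟩
  obtain ⟨n0, h1⟩ := h0 E
  refine ⟨n0 + 9, fun N hN H hH1 hH2 c x s hc hFam z hz1 hz2 G hG S hSx hS => ?_⟩
  have hN9 : (9 : ℝ) ≤ N := by exact_mod_cast (by omega : 9 ≤ N)
  have hL2 : 2 ≤ Real.log (N : ℝ) := by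
    rw [Real.le_log_iff_exp_le (by linarith)]
    have h3 : Real.exp 2 = Real.exp 1 * Real.exp 1 := by rw [← Real.exp_add]; norm_num
    have h4 := Real.exp_one_lt_d9
    have h5 := Real.exp_pos 1
    rw [h3]
    nlinarith
  have hc' : |c| ≤ ((B + 1 : ℕ) : ℤ) * N := by
    push_cast
    have : (0 : ℤ) ≤ N := Int.natCast_nonneg N
    linarith
  have hbs := bd_s p B C N H x c s hc hH2 hFam
  have key := fun σ hσ => h1 N (by omega) H hH1 hH2 c x s hc' hFam z hz1 hz2 σ hσ (fun n => (G n : ℂ))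
    (fun n _ => by
      have h6 : ‖((G n : ℝ) : ℂ)‖ = |G n| := by rw [Complex.norm_real, Real.norm_eq_abs]
      rw [h6]; exact hG n)
  have key1 := key 1 (Or.inl rfl)
  have key2 := key (-1) (Or.inr rfl)
  obtain ⟨L, hL⟩ : ∃ L, L = Real.log (N : ℝ) := ⟨_, rfl⟩
  rw [← hL] at hL2 key1 key2 hS ⊢
  have hL0 : 0 < L := by linarith
  have hUU : (N : ℝ) / L ^ (U + 1) ≤ N / L ^ U := by
    apply div_le_div_of_nonneg_left (by linarith) (by positivity)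
    exact pow_le_pow_right₀ (by linarith) (by omega)
  set F1 : Finset ℕ := (Icc 1 x).filter (fun m => ∃ y d : ℕ, ∃ b : ℤ, y ≤ (B + 1) * N ∧ 1 ≤ d ∧ (d : ℝ) ≤ L ^ 0 ∧
    (N : ℝ) / L ^ (U + 1) < ‖∑ n ∈ Icc 1 y, (G n : ℂ) * ee (n * ((b : ℝ) / d)) * (Ed z ((1 : ℤ) * n + s m) : ℂ)‖) with hF1
  set F2 : Finset ℕ := (Icc 1 x).filter (fun m => ∃ y d : ℕ, ∃ b : ℤ, y ≤ (B + 1) * N ∧ 1 ≤ d ∧ (d : ℝ) ≤ L ^ 0 ∧
    (N : ℝ) / L ^ (U + 1) < ‖∑ n ∈ Icc 1 y, (G n : ℂ) * ee (n * ((b : ℝ) / d)) * (Ed z ((-1 : ℤ) * n + s m) : ℂ)‖) with hF2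
  have hsub : S ⊆ F1 ∪ F2 := by
    intro m hm
    rw [mem_union]
    rcases hS m hm with ⟨y, hy, hlt⟩ | ⟨y, hy, hlt⟩
    · left
      rw [hF1, mem_filter]
      refine ⟨hSx hm, y, 1, 0, hy, le_rfl, by simp, ?_⟩
      rw [norm_sum z y G (fun n => (1 : ℤ) * n + s m)]
      simp only [one_mul]
      linarith
    · right
      rw [hF2, mem_filter]
      have h7 : y ≤ (B + 1) * N := by
        have h8 := (abs_le.1 (hbs m (hSx hm))).2
        have h9 : (y : ℤ) ≤ (((B + 1) * N : ℕ) : ℤ) := by push_cast at h8 ⊢; linarith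
        exact_mod_cast h9
      refine ⟨hSx hm, y, 1, 0, h7, le_rfl, by simp, ?_⟩
      rw [norm_sum z y G (fun n => (-1 : ℤ) * n + s m)]
      have h10 : ∀ n : ℕ, (-1 : ℤ) * n + s m = s m - n := fun n => by ring
      simp only [h10]
      linarith
  have hcard : (S.card : ℝ) ≤ F1.card + F2.card := by
    exact_mod_cast (card_le_card hsub).trans (card_union_le _ _)
  have hfin : (x : ℝ) / L ^ (U + 1) + x / L ^ (U + 1) ≤ x / L ^ U := by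
    have h11 : (x : ℝ) / L ^ (U + 1) + x / L ^ (U + 1) = (x / L ^ U) * (2 / L) := by
      field_simp
      ring
    rw [h11]
    have h12 : 2 / L ≤ 1 := by rw [div_le_one hL0]; exact hL2
    have h13 : (0 : ℝ) ≤ x / L ^ U := by positivity
    nlinarith
  linarith

open Classical in
set_option maxHeartbeats 4000000 in
theorem lv_fam2 (θ : ℝ) (hF : S_FTW θ) (p e B' C T U : ℕ) (hp : 1 ≤ p) (he : 1 ≤ e) : ∃ K N₀ : ℕ, ∀ N : ℕ, N₀ ≤ N →
    ∀ H : ℕ, (N : ℝ) ^ (θ + 1 / e : ℝ) ≤ H → H ≤ N →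
    ∀ (c : ℤ) (x : ℕ) (s : ℕ → ℤ), |c| ≤ B' * N → Fam p C N H x c s →
    ∀ lam : ℕ → ℝ, (∀ q, |lam q| ≤ Real.log N ^ T) → ∀ Q : ℕ,
    (Q : ℝ) ≤ N * Real.exp (-(K * Real.log (Real.log N) ^ 2)) →
    ∀ S : Finset ℕ, S ⊆ Icc 1 x → (∀ m ∈ S, 0 < s m ∧ ∃ y ≤ (B' + 1) * N, N / Real.log N ^ U <
      |∑ q ∈ (Icc 1 Q).filter (fun q => (s m).toNat.Coprime q),
        lam q * (Fu (fun n => ArithmeticFunction.vonMangoldt n) y q (s m).toNat - (y : ℝ) / Nat.totient q)|) →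
    (S.card : ℝ) ≤ x / Real.log N ^ U := by
  obtain ⟨B, hBB⟩ : ∃ B, B = B' + 1 := ⟨_, rfl⟩
  obtain ⟨B0, h0⟩ := ftwo θ hF p e B' C (T + (T + U + 5)) (U + 1) hp he
  rw [← hBB] at h0
  obtain ⟨E1, hE1⟩ : ∃ E1, E1 = B0 + T + U + 5 := ⟨_, rfl⟩
  obtain ⟨n0, h0⟩ := h0 (E1 + 1)
  obtain ⟨n1, h1⟩ := choice2 (E1 + 1) (T + U + 3)
  obtain ⟨n2, h2⟩ := Vz_inv_small (E1 + 1)
  obtain ⟨K1, hK1⟩ : ∃ K1 : ℕ, K1 = (3 * (1 + (E1 + 1)) + (T + U + 3) + 1) * ((E1 + 1) + 1) := ⟨_, rfl⟩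
  obtain ⟨C0, hC0⟩ : ∃ C0 : ℕ, C0 = B + 1 := ⟨_, rfl⟩
  obtain ⟨R, hR⟩ := exists_nat_ge (4 + 504 * (C0 : ℝ) + Real.log (C0 : ℝ) + 2)
  have hC01 : 1 ≤ C0 := by omega
  have hlC0 : 0 ≤ Real.log (C0 : ℝ) := Real.log_natCast_nonneg C0
  refine ⟨K1 + (T + U + 8), n0 + n1 + n2 + 3 ^ R + 3, fun N hN H hH1 hH2 c x s hc hFam lam hlam Q hQ S hSx hP => ?_⟩
  have hs : ∀ m ∈ Icc 1 x, |s m| ≤ B * N := by rw [hBB]; exact bd_s p B' C N H x c s hc hH2 hFam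
  rw [← hBB] at hP
  obtain ⟨P3, hP3⟩ : ∃ P3 : ℕ, P3 = 3 ^ R := ⟨_, rfl⟩
  rw [← hP3] at hN
  have hN1 : 1 ≤ N := by omega
  have hNr : (1 : ℝ) ≤ N := by exact_mod_cast hN1
  have hN0 : (0 : ℝ) < N := by linarith
  obtain ⟨L, hL⟩ : ∃ L, L = Real.log (N : ℝ) := ⟨_, rfl⟩
  have hLR : (R : ℝ) ≤ L := by
    rw [hL, Real.le_log_iff_exp_le hN0]
    have h1 : Real.exp (R : ℝ) ≤ (3 : ℝ) ^ R := by
      rw [show (R : ℝ) = R * 1 by ring, Real.exp_nat_mul]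
      exact pow_le_pow_left₀ (Real.exp_pos _).le (by linarith [Real.exp_one_lt_d9]) R
    refine h1.trans ?_
    exact_mod_cast (by rw [← hP3]; omega : 3 ^ R ≤ N)
  have hC0r : (1 : ℝ) ≤ C0 := by exact_mod_cast hC01
  have hbig : 4 + 504 * (C0 : ℝ) ≤ L := by linarith
  have hL1 : 1 ≤ L := by linarith
  have hL0 : 0 < L := by linarith
  -- the level
  obtain ⟨z, hz⟩ : ∃ z, z = ⌈L ^ E1⌉₊ := ⟨_, rfl⟩
  have hz1 : L ^ E1 ≤ z := by rw [hz]; exact Nat.le_ceil _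
  have hz2 : (z : ℝ) ≤ L ^ (E1 + 1) := by
    have q1 : (z : ℝ) < L ^ E1 + 1 := by rw [hz]; exact Nat.ceil_lt_add_one (by positivity)
    have q2 : 1 ≤ L ^ E1 := one_le_pow₀ (by linarith)
    rw [pow_succ]
    nlinarith
  have hzge : 1 ≤ z := by
    have : (1 : ℝ) ≤ z := (one_le_pow₀ hL1).trans hz1
    exact_mod_cast this
  -- the range
  obtain ⟨X, hX⟩ : ∃ X : ℕ, X = C0 * N := ⟨_, rfl⟩
  have hXN : N ≤ X := by rw [hX]; exact Nat.le_mul_of_pos_left _ (by omega)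
  have hBcX : B * N ≤ X := by rw [hX, hC0]; exact Nat.mul_le_mul_right _ (by omega)
  obtain ⟨Lx, hLx⟩ : ∃ Lx, Lx = Real.log (X : ℝ) := ⟨_, rfl⟩
  have hLx1 : L ≤ Lx := by
    rw [hL, hLx]
    exact Real.log_le_log hN0 (by exact_mod_cast hXN)
  have hLx2 : Lx ≤ 2 * L := by
    rw [hLx, hX]
    push_cast
    rw [Real.log_mul (by positivity) hN0.ne', ← hL]
    linarith
  have hV := h2 X (by omega) z hzge (by rw [← hLx]; exact hz2.trans (pow_le_pow_left₀ hL0.le hLx1 _))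
  rw [← hLx] at hV
  -- the sieve
  obtain ⟨r, hr1, hr2⟩ := h1 N (by omega) z (by rw [← hL]; exact hz2)
  rw [← hL] at hr1 hr2 hQ
  obtain ⟨ℓ, hℓ⟩ : ∃ ℓ, ℓ = Real.log L := ⟨_, rfl⟩
  rw [← hℓ, ← hK1] at hr2
  rw [← hℓ] at hQ
  have hℓ1 : 1 ≤ ℓ := by
    rw [hℓ, Real.le_log_iff_exp_le hL0]
    linarith [Real.exp_one_lt_d9]
  obtain ⟨W, hW⟩ : ∃ W : ℝ, W = ((z : ℝ) + 1) ^ r := ⟨_, rfl⟩
  rw [← hW] at hr2
  have hW1 : 1 ≤ W := by rw [hW]; exact one_le_pow₀ (by linarith [(Nat.cast_nonneg z : (0 : ℝ) ≤ z)])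
  have h54 : 54 * L ^ (T + U + 4) ≤ Real.exp (((T + U + 8 : ℕ) : ℝ) * ℓ ^ 2) := by
    have q0 : (54 : ℝ) ≤ Real.exp 4 := by
      have q1 := Real.exp_one_gt_d9
      calc (54 : ℝ) ≤ 2.7182818283 ^ 4 := by norm_num
        _ ≤ Real.exp 1 ^ 4 := pow_le_pow_left₀ (by norm_num) q1.le 4
        _ = Real.exp 4 := by rw [← Real.exp_nat_mul]; norm_num
    have q2 : L ^ (T + U + 4) = Real.exp (((T + U + 4 : ℕ) : ℝ) * ℓ) := by
      rw [Real.exp_nat_mul, hℓ, Real.exp_log hL0]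
    rw [q2]
    calc 54 * Real.exp (((T + U + 4 : ℕ) : ℝ) * ℓ) ≤ Real.exp 4 * Real.exp (((T + U + 4 : ℕ) : ℝ) * ℓ) :=
          mul_le_mul_of_nonneg_right q0 (Real.exp_pos _).le
      _ = Real.exp (4 + ((T + U + 4 : ℕ) : ℝ) * ℓ) := (Real.exp_add _ _).symm
      _ ≤ _ := by
          apply Real.exp_le_exp.2
          have q3 : ℓ ≤ ℓ ^ 2 := by nlinarith
          have q4 : (0 : ℝ) ≤ ((T + U + 4 : ℕ) : ℝ) := Nat.cast_nonneg _
          have q5 : ((T + U + 8 : ℕ) : ℝ) = ((T + U + 4 : ℕ) : ℝ) + 4 := by push_cast; ring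
          rw [q5, add_mul]
          have q6 := mul_le_mul_of_nonneg_left q3 q4
          nlinarith
  have hQN : (Q : ℝ) ≤ N := by
    refine hQ.trans ?_
    calc (N : ℝ) * Real.exp (-(((K1 + (T + U + 8) : ℕ) : ℝ) * ℓ ^ 2)) ≤ N * 1 := by
          apply mul_le_mul_of_nonneg_left _ hN0.le
          rw [Real.exp_le_one_iff, neg_nonpos]
          positivity
      _ = N := mul_one _
  have hQX : Q ≤ X := by
    have q2 : Q ≤ N := by exact_mod_cast hQN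
    omega
  have hQW : 54 * L ^ (T + U + 4) * ((Q : ℝ) * W) ≤ N := by
    calc 54 * L ^ (T + U + 4) * ((Q : ℝ) * W) ≤ Real.exp (((T + U + 8 : ℕ) : ℝ) * ℓ ^ 2) *
          ((N * Real.exp (-(((K1 + (T + U + 8) : ℕ) : ℝ) * ℓ ^ 2))) * Real.exp ((K1 : ℝ) * ℓ ^ 2)) :=
          mul_le_mul h54 (mul_le_mul hQ hr2 (by linarith) (by positivity)) (by positivity) (Real.exp_pos _).le
      _ = N * Real.exp (((T + U + 8 : ℕ) : ℝ) * ℓ ^ 2 + -(((K1 + (T + U + 8) : ℕ) : ℝ) * ℓ ^ 2) + (K1 : ℝ) * ℓ ^ 2) := by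
          rw [Real.exp_add, Real.exp_add]
          ring
      _ = N := by
          have e : ((T + U + 8 : ℕ) : ℝ) * ℓ ^ 2 + -(((K1 + (T + U + 8) : ℕ) : ℝ) * ℓ ^ 2) + (K1 : ℝ) * ℓ ^ 2 = 0 := by
            push_cast
            ring
          rw [e, Real.exp_zero, mul_one]
  -- the exceptional set
  rw [← hL] at hlam hP
  have hτ : (0 : ℝ) < L ^ (T + U + 5) := by positivity
  have key := h0 N (by omega) H hH1 hH2 c x s hc hFam z (by rw [← hL]; exact (pow_le_pow_right₀ hL1 (by omega)).trans hz1)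
    (by rw [← hL]; exact hz2)
    (DT lam Q (L ^ (T + U + 5))) (fun n => by
      refine (DT_le lam Q _ (L ^ T) hτ.le hlam n).trans (le_of_eq ?_)
      rw [← hL, ← pow_add]) S hSx (by
      intro m hm
      obtain ⟨ha0, y, hy, hlt⟩ := hP m hm
      obtain ⟨a, haa⟩ : ∃ a, a = (s m).toNat := ⟨_, rfl⟩
      have has : ((a : ℕ) : ℤ) = s m := by rw [haa]; exact Int.toNat_of_nonneg ha0.le
      have ha : 0 < a := by
        have : (0 : ℤ) < a := by rw [has]; exact ha0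
        exact_mod_cast this
      rw [← haa] at hlt
      rw [← has, ← hL]
      by_contra hcon
      rw [not_or] at hcon
      obtain ⟨c1, c2⟩ := hcon
      push Not at c1 c2
      have haX : a ≤ X := by
        have g1 := (abs_le.1 (hs m (hSx hm))).2
        rw [← has] at g1
        have g2 : a ≤ B * N := by exact_mod_cast g1
        exact g2.trans hBcX
      have hyX : y ≤ X := hy.trans hBcX
      have s1 := c1 (y - a) (by omega)
      have s2 := c2 (a - 1) (by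
        have : a - 1 < a := by omega
        exact_mod_cast this)
      have s3 := c2 (a - 1 - y) (by
        have : a - 1 - y < a := by omega
        exact_mod_cast this)
      have d1 := det1 lam Q y a z r X (L ^ T) Lx Lx ha hzge haX hyX hQX hlam hV hLx.symm le_rfl (by linarith)
      have d2 := three lam Q a y z X (L ^ (T + U + 5)) (L ^ T) Lx hτ hlam ha haX hyX hLx.symm hV (by linarith)
      rw [← hW] at d1
      have d3 : 1 + Real.log (X : ℝ) ≤ 2 * Lx := by rw [← hLx]; linarith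
      have d4 : Lx * (L ^ T / L ^ (T + U + 5) * (X * (1 + Real.log X) ^ 3)) ≤ Lx * (L ^ T / L ^ (T + U + 5) * (X * (2 * Lx) ^ 3)) := by
        have g0 := log1_nonneg X
        have g1 : 0 ≤ Lx := by linarith
        gcongr
      have d5 := fin_num L Lx N X Q W (Real.exp (3 * (1 + Real.log z) - r)) z _ _ _ C0 T U E1 hL1 (by linarith) hLx2 hN0
        (by rw [hX]; push_cast; rfl) (by linarith) (Nat.cast_nonneg Q) hW1 (Real.exp_pos _).le (by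
          refine le_trans (le_of_eq ?_) hr1
          push_cast
          ring_nf) (by exact_mod_cast hzge) hz1 (by omega) hQW hbig s1 s2 s3
      linarith)
  rw [← hL] at key ⊢
  refine key.trans ?_
  apply div_le_div_of_nonneg_left (Nat.cast_nonneg _) (by positivity)
  exact pow_le_pow_right₀ hL1 (by omega)


theorem main : ∀ θ : ℝ, S_FTW θ → S_LV θ := by
  classical
  intro θ hF p e B C T U hp he
  obtain ⟨K, N₀, h⟩ := lv_fam2 θ hF p e B C T U hp he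
  refine ⟨K, N₀, fun N hN H hH1 hH2 c x s hc hFam lam hlam Q hQ => ?_⟩
  refine h N hN H hH1 hH2 c x s hc hFam lam hlam Q hQ _ (filter_subset _ _) ?_
  intro m hm
  rw [mem_filter] at hm
  obtain ⟨_, h0, y, hy, hlt⟩ := hm
  refine ⟨h0, y, hy.trans (Nat.mul_le_mul_right _ (by omega)), ?_⟩
  exact hlt

end Pool.Agent.helper24_UT.Lv
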