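import Pool.Agent.helper24_UT.Stm14

set_option autoImplicit false

namespace Pool.Agent.helper24_UT.R6c

open Finset
open Pool.Agent.helper24_UT
open Pool.Agent.H373R2.T7 (lamI lamzI lamz Vz pz lamP)
open Pool.Agent.H807R2.Dav (ee)

/-- Abel summation with a decreasing weight -/
lemma abel (a ρ : ℕ → ℝ) (D : ℝ) (T : ℕ) (hρ : ∀ m, 1 ≤ m → 0 ≤ ρ m) (hd : ∀ m, 1 ≤ m → ρ (m + 1) ≤ ρ m)
    (hD0 : 0 ≤ D) (hD : ∀ t ∈ Icc 1 T, |∑ m ∈ Icc 1 t, a m| ≤ D) :
    |∑ m ∈ Icc 1 T, a m * ρ m| ≤ D * ρ 1 := by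
  rcases Nat.eq_zero_or_pos T with hT | hT
  · subst hT
    simp only [zero_lt_one, Icc_eq_empty_of_lt, sum_empty, abs_zero]
    exact mul_nonneg hD0 (hρ 1 le_rfl)
  have hT : 1 ≤ T := hT
  have key : ∀ T, 1 ≤ T → ∑ m ∈ Icc 1 T, a m * ρ m =
      (∑ m ∈ Icc 1 T, a m) * ρ T + ∑ m ∈ Ico 1 T, (∑ j ∈ Icc 1 m, a j) * (ρ m - ρ (m + 1)) := by
    intro T hT
    induction T, hT using Nat.le_induction with
    | base => simp
    | succ T hT ih =>
      rw [sum_Icc_succ_top (by omega), sum_Icc_succ_top (by omega), sum_Ico_succ_top hT, ih]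
      ring
  have tel : ∑ m ∈ Ico 1 T, (ρ m - ρ (m + 1)) = ρ 1 - ρ T := by
    rw [← neg_sub (ρ T) (ρ 1), ← sum_Ico_sub ρ hT, ← sum_neg_distrib]
    exact sum_congr rfl fun m _ => by ring
  rw [key T hT]
  have h1 : |(∑ m ∈ Icc 1 T, a m) * ρ T| ≤ D * ρ T := by
    rw [abs_mul, abs_of_nonneg (hρ T hT)]
    exact mul_le_mul_of_nonneg_right (hD T (mem_Icc.2 ⟨hT, le_rfl⟩)) (hρ T hT)
  have h2 : |∑ m ∈ Ico 1 T, (∑ j ∈ Icc 1 m, a j) * (ρ m - ρ (m + 1))| ≤ D * ∑ m ∈ Ico 1 T, (ρ m - ρ (m + 1)) := by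
    refine (abs_sum_le_sum_abs _ _).trans ?_
    rw [mul_sum]
    apply sum_le_sum
    intro m hm
    rw [mem_Ico] at hm
    have hm0 : 0 ≤ ρ m - ρ (m + 1) := by linarith [hd m hm.1]
    rw [abs_mul, abs_of_nonneg hm0]
    exact mul_le_mul_of_nonneg_right (hD m (mem_Icc.2 ⟨hm.1, by omega⟩)) hm0
  calc _ ≤ |(∑ m ∈ Icc 1 T, a m) * ρ T| + |∑ m ∈ Ico 1 T, (∑ j ∈ Icc 1 m, a j) * (ρ m - ρ (m + 1))| := abs_add_le _ _
    _ ≤ D * ρ T + D * ∑ m ∈ Ico 1 T, (ρ m - ρ (m + 1)) := add_le_add h1 h2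
    _ = _ := by rw [tel]; ring

/-- the weight -/
noncomputable def rh {k : ℕ} (h : Fin k → ℕ) (m : ℕ) : ℝ := ∏ i, 1 / Real.log ((m + h i : ℕ) : ℝ)

lemma log_ge (m : ℕ) (hm : 2 ≤ m) : 1 / 2 ≤ Real.log m := by
  have h1 : Real.log 2 ≤ Real.log m := Real.log_le_log (by norm_num) (by exact_mod_cast hm)
  have h2 := Real.log_two_gt_d9
  linarith

variable {k : ℕ}

lemma rh_nonneg (h : Fin k → ℕ) (m : ℕ) : 0 ≤ rh h m :=
  prod_nonneg fun _ _ => div_nonneg zero_le_one (Real.log_natCast_nonneg _)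

lemma rh_le (h : Fin k → ℕ) (hh : ∀ i, 1 ≤ h i) (m : ℕ) (hm : 1 ≤ m) : rh h m ≤ 2 ^ k := by
  unfold rh
  calc ∏ i, 1 / Real.log ((m + h i : ℕ) : ℝ) ≤ ∏ _j : Fin k, (2 : ℝ) := by
        apply prod_le_prod
        · intro i _
          exact div_nonneg zero_le_one (Real.log_natCast_nonneg _)
        · intro i _
          have := log_ge (m + h i) (by have := hh i; omega)
          rw [div_le_iff₀ (by linarith)]
          linarith
    _ = 2 ^ k := by simp

lemma rh_anti (h : Fin k → ℕ) (hh : ∀ i, 1 ≤ h i) (m : ℕ) (hm : 1 ≤ m) : rh h (m + 1) ≤ rh h m := by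
  unfold rh
  apply prod_le_prod
  · intro i _
    exact div_nonneg zero_le_one (Real.log_natCast_nonneg _)
  · intro i _
    have := log_ge (m + h i) (by have := hh i; omega)
    apply one_div_le_one_div_of_le (by linarith)
    apply Real.log_le_log
    · have : 0 < m + h i := by omega
      exact_mod_cast this
    · exact_mod_cast (by omega : m + h i ≤ m + 1 + h i)

/-- prime tuples in a class -/
noncomputable def PP (h : Fin k → ℕ) (q r t : ℕ) : ℝ :=
  ∑ m ∈ (Icc 1 t).filter (fun m => m % q = r), ∏ i, lamP ((m : ℤ) + h i)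

lemma cntT_eq (h : Fin k → ℕ) (hh : ∀ i, 1 ≤ h i) (q r y : ℕ) :
    (cntT h q r y : ℝ) = ∑ m ∈ Icc 1 y, (if m % q = r then ∏ i, lamP ((m : ℤ) + h i) else 0) * rh h m := by
  unfold cntT
  rw [card_filter]
  push_cast
  apply sum_congr rfl
  intro m hm
  rw [mem_Icc] at hm
  by_cases h1 : m % q = r
  · rw [if_pos h1]
    by_cases h2 : ∀ i, (m + h i).Prime
    · rw [if_pos ⟨h1, h2⟩]
      unfold rh
      rw [← prod_mul_distrib]
      symm
      apply prod_eq_one
      intro i _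
      unfold lamP
      have e1 : ((m : ℤ) + h i).toNat = m + h i := by omega
      rw [e1, if_pos (h2 i)]
      have := log_ge (m + h i) (by have := hh i; omega)
      have h3 : Real.log ((m + h i : ℕ) : ℝ) ≠ 0 := by linarith
      field_simp
    · rw [if_neg (fun h3 => h2 h3.2)]
      rw [not_forall] at h2
      obtain ⟨i, hi⟩ := h2
      have : ∏ i, lamP ((m : ℤ) + h i) = 0 := by
        apply prod_eq_zero (mem_univ i)
        unfold lamP
        have e1 : ((m : ℤ) + h i).toNat = m + h i := by omega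
        rw [e1, if_neg hi]
      rw [this, zero_mul]
  · rw [if_neg (fun h3 => h1 h3.1), if_neg h1, zero_mul]

lemma cnt_le (h : Fin k → ℕ) (hh : ∀ i, 1 ≤ h i) (q r y : ℕ) (c D : ℝ) (hD : ∀ t, t ≤ y → |PP h q r t - t * c| ≤ D)
    (hD0 : 0 ≤ D) : |(cntT h q r y : ℝ) - c * expT h y| ≤ 2 ^ k * D := by
  have e1 : (cntT h q r y : ℝ) - c * expT h y =
      ∑ m ∈ Icc 1 y, ((if m % q = r then ∏ i, lamP ((m : ℤ) + h i) else 0) - c) * rh h m := by
    rw [cntT_eq h hh]
    unfold expT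
    rw [mul_sum, ← sum_sub_distrib]
    apply sum_congr rfl
    intro m _
    unfold rh
    ring
  rw [e1]
  have h1 : ∀ t ∈ Icc 1 y, |∑ m ∈ Icc 1 t, ((if m % q = r then ∏ i, lamP ((m : ℤ) + h i) else 0) - c)| ≤ D := by
    intro t ht
    rw [mem_Icc] at ht
    have e2 : ∑ m ∈ Icc 1 t, ((if m % q = r then ∏ i, lamP ((m : ℤ) + h i) else 0) - c) = PP h q r t - t * c := by
      rw [sum_sub_distrib, sum_const, Nat.card_Icc, nsmul_eq_mul, Nat.add_sub_cancel]
      congr 1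
      unfold PP
      rw [sum_filter]
    rw [e2]
    exact hD t ht.2
  have h2 := abel _ (rh h) D y (fun m _ => rh_nonneg h m) (fun m hm => rh_anti h hh m hm) hD0 h1
  have h3 := rh_le h hh 1 le_rfl
  calc _ ≤ _ := h2
    _ ≤ D * 2 ^ k := mul_le_mul_of_nonneg_left h3 hD0
    _ = _ := by ring

/-- the loss from replacing von Mangoldt by the primes -/
noncomputable def ww (h : Fin k → ℕ) (N q r : ℕ) : ℝ := ∑ m ∈ (Icc 1 N).filter (fun m => m % q = r),
  (∏ i, lamI ((m : ℤ) + h i) - ∏ i, lamP ((m : ℤ) + h i))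

lemma term_nonneg (h : Fin k → ℕ) (m : ℕ) : 0 ≤ ∏ i, lamI ((m : ℤ) + h i) - ∏ i, lamP ((m : ℤ) + h i) := by
  rw [sub_nonneg]
  apply prod_le_prod
  · intro i _
    exact Pool.Agent.H373R2.T7.lamP_nonneg _
  · intro i _
    exact Pool.Agent.H373R2.T7.lamP_le _

lemma ww_nonneg (h : Fin k → ℕ) (N q r : ℕ) : 0 ≤ ww h N q r := sum_nonneg fun m _ => term_nonneg h m

lemma pp_le (h : Fin k → ℕ) (N q r t : ℕ) (ht : t ≤ N) :
    |PP h q r t - ∑ m ∈ (Icc 1 t).filter (fun m => m % q = r), ∏ i, lamI ((m : ℤ) + h i)| ≤ ww h N q r := by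
  unfold PP ww
  rw [abs_sub_comm, ← sum_sub_distrib, abs_of_nonneg (sum_nonneg fun m _ => term_nonneg h m)]
  apply sum_le_sum_of_subset_of_nonneg
  · apply filter_subset_filter
    apply Icc_subset_Icc_right
    omega
  · intro m _ _
    exact term_nonneg h m

lemma prod_diff {ι : Type*} [DecidableEq ι] (s : Finset ι) (a b : ι → ℝ) (M : ℝ) (hM : 1 ≤ M) (hb : ∀ i, 0 ≤ b i) (hab : ∀ i, b i ≤ a i)
    (ha : ∀ i ∈ s, a i ≤ M) : ∏ i ∈ s, a i - ∏ i ∈ s, b i ≤ M ^ s.card * ∑ i ∈ s, (a i - b i) := by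
  induction s using Finset.induction_on with
  | empty => simp
  | insert i s hi ih =>
    rw [prod_insert hi, prod_insert hi, sum_insert hi, card_insert_of_notMem hi]
    have ih := ih (fun j hj => ha j (mem_insert_of_mem hj))
    have h0 : 0 ≤ ∑ i ∈ s, (a i - b i) := sum_nonneg fun j _ => by linarith [hab j]
    have hM0 : 0 ≤ M := by linarith
    have h1 : ∏ i ∈ s, b i ≤ M ^ s.card := by
      calc ∏ i ∈ s, b i ≤ ∏ _i ∈ s, M := prod_le_prod (fun j _ => hb j) (fun j hj => (hab j).trans (ha j (mem_insert_of_mem hj)))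
        _ = _ := by rw [prod_const]
    have h2 : 0 ≤ ∏ i ∈ s, a i - ∏ i ∈ s, b i := by
      rw [sub_nonneg]
      exact prod_le_prod (fun j _ => hb j) (fun j _ => hab j)
    have hai : a i ≤ M := ha i (mem_insert_self _ _)
    have hp : 1 ≤ M ^ s.card := one_le_pow₀ hM
    have hdi : 0 ≤ a i - b i := by linarith [hab i]
    calc a i * ∏ i ∈ s, a i - b i * ∏ i ∈ s, b i = a i * (∏ i ∈ s, a i - ∏ i ∈ s, b i) + (a i - b i) * ∏ i ∈ s, b i := by ring
      _ ≤ M * (M ^ s.card * ∑ i ∈ s, (a i - b i)) + (a i - b i) * M ^ s.card := by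
          apply add_le_add
          · exact mul_le_mul hai ih h2 hM0
          · exact mul_le_mul_of_nonneg_left h1 hdi
      _ ≤ M * (M ^ s.card * ∑ i ∈ s, (a i - b i)) + M * ((a i - b i) * M ^ s.card) := by
          have : 0 ≤ (a i - b i) * M ^ s.card := by positivity
          nlinarith
      _ = _ := by ring

lemma ww_sum (h : Fin k → ℕ) (N N' q : ℕ) (hN : 1 ≤ N') (hn : ∀ i, N + h i ≤ N') (hq : 1 ≤ q) (hΛ : 1 ≤ Real.log N') :
    ∑ r ∈ range q, ww h N q r ^ 2 ≤ 4 * k ^ 2 * N' * Real.log N' ^ (2 * k + 2) := by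
  set Λ := Real.log N' with hΛd
  have hN1 : (1 : ℝ) ≤ N' := by exact_mod_cast hN
  have h1 : ∑ r ∈ range q, ww h N q r ^ 2 ≤ (∑ r ∈ range q, ww h N q r) ^ 2 :=
    sum_sq_le_sq_sum_of_nonneg (fun r _ => ww_nonneg h N q r)
  have h2 : ∑ r ∈ range q, ww h N q r = ∑ m ∈ Icc 1 N, (∏ i, lamI ((m : ℤ) + h i) - ∏ i, lamP ((m : ℤ) + h i)) := by
    unfold ww
    rw [sum_fiberwise_of_maps_to]
    intro m _
    rw [mem_range]
    exact Nat.mod_lt _ (by omega)
  have h3 : ∀ i, ∑ m ∈ Icc 1 N, (lamI ((m : ℤ) + h i) - lamP ((m : ℤ) + h i)) ≤ 2 * √(N' : ℝ) * Λ := by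
    intro i
    exact Pool.Agent.H373R2.T7.pp_sum N N' (h i) hN (fun m hm => by
      rw [mem_Icc] at hm
      have := hn i
      omega)
  have h5 : ∀ m ∈ Icc 1 N, ∏ i, lamI ((m : ℤ) + h i) - ∏ i, lamP ((m : ℤ) + h i) ≤
      Λ ^ k * ∑ i, (lamI ((m : ℤ) + h i) - lamP ((m : ℤ) + h i)) := by
    intro m hm
    rw [mem_Icc] at hm
    have := prod_diff univ (fun i => lamI ((m : ℤ) + h i)) (fun i => lamP ((m : ℤ) + h i)) Λ hΛ
      (fun i => Pool.Agent.H373R2.T7.lamP_nonneg _) (fun i => Pool.Agent.H373R2.T7.lamP_le _)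
      (fun i _ => Pool.Agent.H373R2.T7.lamI_le _ N' hN1 (by
        have h6 : (m : ℤ) + h i ≤ N' := by
          have := hn i
          omega
        exact_mod_cast h6))
    rw [card_univ, Fintype.card_fin] at this
    exact this
  have h6 : ∑ r ∈ range q, ww h N q r ≤ 2 * k * Λ ^ (k + 1) * √(N' : ℝ) := by
    rw [h2]
    refine (sum_le_sum h5).trans ?_
    rw [← mul_sum, sum_comm]
    calc Λ ^ k * ∑ i, ∑ m ∈ Icc 1 N, (lamI ((m : ℤ) + h i) - lamP ((m : ℤ) + h i)) ≤ Λ ^ k * ∑ _i : Fin k, (2 * √(N' : ℝ) * Λ) := by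
          apply mul_le_mul_of_nonneg_left (sum_le_sum fun i _ => h3 i) (by positivity)
      _ = _ := by
          rw [sum_const, card_univ, Fintype.card_fin, nsmul_eq_mul, pow_succ]
          ring
  refine h1.trans ?_
  calc (∑ r ∈ range q, ww h N q r) ^ 2 ≤ (2 * k * Λ ^ (k + 1) * √(N' : ℝ)) ^ 2 :=
        pow_le_pow_left₀ (sum_nonneg fun r _ => ww_nonneg h N q r) h6 2
    _ = 4 * k ^ 2 * (√(N' : ℝ)) ^ 2 * Λ ^ (2 * k + 2) := by ring
    _ = _ := by rw [Real.sq_sqrt (by positivity)]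

/-- the difference of the sums -/
noncomputable def Ef (z : ℕ) (h : Fin k → ℕ) (q r t : ℕ) : ℝ := ∑ m ∈ (Icc 1 t).filter (fun m => m % q = r),
  (∏ i, lamI ((m : ℤ) + h i) - ∏ i, lamzI z ((m : ℤ) + h i))

lemma lamzI_eq (z : ℕ) (m : ℤ) (hm : 1 ≤ m) : lamzI z m = lz z m := by
  unfold lamzI lz lamz
  rw [if_pos hm]
  have : (∀ p ∈ pz z, ¬ p ∣ m.toNat) ↔ ∀ p ∈ pz z, ¬ (p : ℤ) ∣ m := by
    constructor
    · intro h p hp hd
      apply h p hp
      rw [← Int.natCast_dvd_natCast, Int.toNat_of_nonneg (by omega)]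
      exact hd
    · intro h p hp hd
      apply h p hp
      rw [← Int.natCast_dvd_natCast, Int.toNat_of_nonneg (by omega)] at hd
      exact hd
  by_cases h : ∀ p ∈ pz z, ¬ p ∣ m.toNat
  · rw [if_pos h, if_pos (this.1 h)]
  · rw [if_neg h, if_neg (fun h' => h (this.2 h'))]

lemma model_sum (z : ℕ) (h : Fin k → ℕ) (q r t : ℕ) :
    ∑ m ∈ (Icc 1 t).filter (fun m => m % q = r), ∏ i, lamzI z ((m : ℤ) + h i) =
    ∑ m ∈ (Icc 1 t).filter (fun m => m % q = r), ∏ i, lz z ((fun _ : Fin k => (1 : ℤ)) i * m + (fun i => (h i : ℤ)) i) := by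
  apply sum_congr rfl
  intro m hm
  rw [mem_filter, mem_Icc] at hm
  apply prod_congr rfl
  intro i _
  rw [lamzI_eq z _ (by omega)]
  simp only [one_mul]

lemma gz_nonneg {k : ℕ} (z : ℕ) (σ h : Fin k → ℤ) (q r : ℕ) : 0 ≤ gz z σ h q r := by
  unfold gz
  split_ifs
  · exact le_rfl
  · apply mul_nonneg (pow_nonneg (inv_nonneg.2 (Pool.Agent.H373R2.T7.Vz_pos z).le) _)
    apply prod_nonneg
    intro p hp
    rw [mem_filter, Pool.Agent.H373R2.T7.mem_pz] at hp
    have hp0 : (0 : ℝ) < p := by exact_mod_cast hp.1.2.pos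
    rw [sub_nonneg, div_le_one hp0]
    unfold nuf
    exact_mod_cast (card_filter_le _ _).trans (by rw [card_range])

lemma gz_le {k : ℕ} (z : ℕ) (σ h : Fin k → ℤ) (q r : ℕ) : gz z σ h q r ≤ ((Vz z)⁻¹) ^ k := by
  have hV : 0 ≤ ((Vz z)⁻¹) ^ k := pow_nonneg (inv_nonneg.2 (Pool.Agent.H373R2.T7.Vz_pos z).le) _
  unfold gz
  split_ifs
  · exact hV
  · have : ∏ p ∈ (pz z).filter (fun p => ¬ p ∣ q), (1 - (nuf σ h p : ℝ) / p) ≤ 1 := by
      apply prod_le_one
      · intro p hp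
        rw [mem_filter, Pool.Agent.H373R2.T7.mem_pz] at hp
        have hp0 : (0 : ℝ) < p := by exact_mod_cast hp.1.2.pos
        rw [sub_nonneg, div_le_one hp0]
        unfold nuf
        exact_mod_cast (card_filter_le _ _).trans (by rw [card_range])
      · intro p _
        have : (0 : ℝ) ≤ (nuf σ h p : ℝ) / p := by positivity
        linarith
    calc _ ≤ ((Vz z)⁻¹) ^ k * 1 := mul_le_mul_of_nonneg_left this hV
      _ = _ := mul_one _

lemma pt (N z : ℕ) (h : Fin k → ℕ) (q r t : ℕ) (L V W c g : ℝ) (hq : 1 ≤ q) (hr : r < q) (ht : t ≤ N)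
    (hM : |∑ m ∈ (Icc 1 t).filter (fun m => m % q = r % q), ∏ i, lz z ((fun _ : Fin k => (1 : ℤ)) i * m + (fun i => (h i : ℤ)) i) -
      (t : ℝ) / q * g| ≤ (N : ℝ) / q / V + W)
    (hg : |g - q * c| ≤ L) :
    |PP h q r t - t * c| ≤ ww h N q r + |Ef z h q r t| + ((N : ℝ) / q / V + W) + (N : ℝ) / q * L := by
  have hq0 : (0 : ℝ) < q := by exact_mod_cast hq
  have h1 := pp_le h N q r t ht
  have h2 : Ef z h q r t = ∑ m ∈ (Icc 1 t).filter (fun m => m % q = r), ∏ i, lamI ((m : ℤ) + h i) -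
      ∑ m ∈ (Icc 1 t).filter (fun m => m % q = r), ∏ i, lz z ((fun _ : Fin k => (1 : ℤ)) i * m + (fun i => (h i : ℤ)) i) := by
    unfold Ef
    rw [sum_sub_distrib, model_sum z h q r t]
  rw [Nat.mod_eq_of_lt hr] at hM
  have h3 : |(t : ℝ) / q * g - t * c| ≤ (N : ℝ) / q * L := by
    have e : (t : ℝ) / q * g - t * c = (t : ℝ) / q * (g - q * c) := by
      field_simp
    rw [e, abs_mul, abs_of_nonneg (by positivity)]
    have htN : (t : ℝ) ≤ N := by exact_mod_cast ht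
    have hL : 0 ≤ L := (abs_nonneg _).trans hg
    exact mul_le_mul (div_le_div_of_nonneg_right htN hq0.le) hg (abs_nonneg _) (by positivity)
  have e : PP h q r t - t * c = (PP h q r t - ∑ m ∈ (Icc 1 t).filter (fun m => m % q = r), ∏ i, lamI ((m : ℤ) + h i)) +
      Ef z h q r t + (∑ m ∈ (Icc 1 t).filter (fun m => m % q = r), ∏ i, lz z ((fun _ : Fin k => (1 : ℤ)) i * m + (fun i => (h i : ℤ)) i) -
        (t : ℝ) / q * g) + ((t : ℝ) / q * g - t * c) := by
    rw [h2]; ring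
  rw [e]
  refine (abs_add_le _ _).trans (add_le_add ((abs_add_le _ _).trans (add_le_add ((abs_add_le _ _).trans (add_le_add h1 le_rfl)) hM)) h3)

lemma sum_inv_le (Q N : ℕ) (hQ : Q ≤ N) : ∑ q ∈ Icc 1 Q, 1 / (q : ℝ) ≤ 1 + Real.log N := by
  have h1 : ∑ q ∈ Icc 1 Q, 1 / (q : ℝ) ≤ ∑ q ∈ Icc 1 N, 1 / (q : ℝ) :=
    sum_le_sum_of_subset_of_nonneg (Icc_subset_Icc_right hQ) (fun _ _ _ => by positivity)
  refine h1.trans ?_
  have h2 : ∑ n ∈ Icc 1 N, 1 / (n : ℝ) = ((harmonic N : ℚ) : ℝ) := by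
    rw [harmonic_eq_sum_Icc]
    push_cast
    simp
  rw [h2]
  exact harmonic_le_one_add_log N

/-- summing up -/
lemma total (N Q : ℕ) (hQ : Q ≤ N) (F : ℕ → Finset ℕ) (hF : ∀ q, F q ⊆ range q)
    (x E w : ℕ → ℕ → ℝ) (K u v G Y : ℝ)
    (hx : ∀ q ∈ Icc 1 Q, ∀ r ∈ F q, |x q r| ≤ K * (w q r + |E q r| + u / q + v))
    (hw : ∀ q ∈ Icc 1 Q, ∑ r ∈ range q, w q r ^ 2 ≤ Y)
    (hE : ∑ q ∈ Icc 1 Q, ∑ r ∈ range q, E q r ^ 2 ≤ G) :
    ∑ q ∈ Icc 1 Q, ∑ r ∈ F q, x q r ^ 2 ≤
      4 * K ^ 2 * (Q * Y + G + u ^ 2 * (1 + Real.log N) + (Q * v) ^ 2) := by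
  have h1 : ∑ q ∈ Icc 1 Q, ∑ r ∈ F q, x q r ^ 2 ≤
      ∑ q ∈ Icc 1 Q, ∑ r ∈ range q, 4 * K ^ 2 * (w q r ^ 2 + E q r ^ 2 + (u / q) ^ 2 + v ^ 2) := by
    apply sum_le_sum
    intro q hq
    calc ∑ r ∈ F q, x q r ^ 2 ≤ ∑ r ∈ F q, 4 * K ^ 2 * (w q r ^ 2 + E q r ^ 2 + (u / q) ^ 2 + v ^ 2) := by
          apply sum_le_sum
          intro r hr
          have h := hx q hq r hr
          have h0 := abs_nonneg (x q r)
          have e1 : x q r ^ 2 = |x q r| ^ 2 := (sq_abs _).symm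
          have e2 : E q r ^ 2 = |E q r| ^ 2 := (sq_abs _).symm
          rw [e1, e2]
          refine (pow_le_pow_left₀ h0 h 2).trans ?_
          set a := w q r
          set b := |E q r|
          set d := u / q
          rw [mul_pow, mul_comm (4 : ℝ), mul_assoc]
          apply mul_le_mul_of_nonneg_left _ (sq_nonneg K)
          nlinarith [sq_nonneg (a - b), sq_nonneg (a - d), sq_nonneg (a - v), sq_nonneg (b - d), sq_nonneg (b - v), sq_nonneg (d - v)]
      _ ≤ _ := sum_le_sum_of_subset_of_nonneg (hF q) (fun _ _ _ => by positivity)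
  refine h1.trans ?_
  have h2 : ∑ q ∈ Icc 1 Q, ∑ r ∈ range q, 4 * K ^ 2 * (w q r ^ 2 + E q r ^ 2 + (u / q) ^ 2 + v ^ 2) =
      4 * K ^ 2 * (∑ q ∈ Icc 1 Q, ∑ r ∈ range q, w q r ^ 2 + ∑ q ∈ Icc 1 Q, ∑ r ∈ range q, E q r ^ 2 +
        ∑ q ∈ Icc 1 Q, (q : ℝ) * (u / q) ^ 2 + ∑ q ∈ Icc 1 Q, (q : ℝ) * v ^ 2) := by
    rw [← sum_add_distrib, ← sum_add_distrib, ← sum_add_distrib, mul_sum]
    apply sum_congr rfl
    intro q _
    rw [← mul_sum, sum_add_distrib, sum_add_distrib, sum_add_distrib, sum_const, sum_const, card_range, nsmul_eq_mul, nsmul_eq_mul]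
  rw [h2]
  apply mul_le_mul_of_nonneg_left _ (by positivity)
  have a1 : ∑ q ∈ Icc 1 Q, ∑ r ∈ range q, w q r ^ 2 ≤ Q * Y := by
    calc _ ≤ ∑ q ∈ Icc 1 Q, Y := sum_le_sum fun q hq => hw q hq
      _ = _ := by rw [sum_const, Nat.card_Icc, nsmul_eq_mul, Nat.add_sub_cancel]
  have a3 : ∑ q ∈ Icc 1 Q, (q : ℝ) * (u / q) ^ 2 ≤ u ^ 2 * (1 + Real.log N) := by
    calc ∑ q ∈ Icc 1 Q, (q : ℝ) * (u / q) ^ 2 = ∑ q ∈ Icc 1 Q, u ^ 2 * (1 / (q : ℝ)) := by
          apply sum_congr rfl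
          intro q hq
          have : (q : ℝ) ≠ 0 := by
            have := (mem_Icc.1 hq).1
            positivity
          field_simp
      _ = u ^ 2 * ∑ q ∈ Icc 1 Q, (1 / (q : ℝ)) := by rw [mul_sum]
      _ ≤ _ := mul_le_mul_of_nonneg_left (sum_inv_le Q N hQ) (by positivity)
  have a4 : ∑ q ∈ Icc 1 Q, (q : ℝ) * v ^ 2 ≤ (Q * v) ^ 2 := by
    calc ∑ q ∈ Icc 1 Q, (q : ℝ) * v ^ 2 ≤ ∑ q ∈ Icc 1 Q, (Q : ℝ) * v ^ 2 := by
          apply sum_le_sum
          intro q hq
          have : (q : ℝ) ≤ Q := by exact_mod_cast (mem_Icc.1 hq).2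
          exact mul_le_mul_of_nonneg_right this (by positivity)
      _ = _ := by rw [sum_const, Nat.card_Icc, nsmul_eq_mul, Nat.add_sub_cancel]; ring
  linarith

/-- the vectors with two equal entries -/
lemma card_eq_le (s : Fin k → Finset ℕ) (H : ℕ) (hs : ∀ i, (s i).card = H) (i j : Fin k) (hij : i ≠ j) :
    ((Fintype.piFinset s).filter (fun h => h i = h j)).card ≤ H ^ (k - 1) := by
  have h1 : (Fintype.piFinset (Function.update s j {0})).card = H ^ (k - 1) := by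
    rw [Fintype.card_piFinset, ← prod_erase_mul univ _ (mem_univ j), Function.update_self, card_singleton, mul_one]
    calc ∏ l ∈ univ.erase j, (Function.update s j {0} l).card = ∏ _l ∈ univ.erase j, H := by
          apply prod_congr rfl
          intro l hl
          rw [Function.update_of_ne (ne_of_mem_erase hl), hs]
      _ = H ^ (k - 1) := by
          rw [prod_const, card_erase_of_mem (mem_univ j), card_univ, Fintype.card_fin]
  rw [← h1]
  apply card_le_card_of_injOn (fun h => Function.update h j 0)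
  · intro h hh
    have hh' := (mem_filter.1 hh).1
    rw [Fintype.mem_piFinset] at hh'
    simp only [mem_coe, Fintype.mem_piFinset]
    intro l
    by_cases hl : l = j
    · subst hl
      rw [Function.update_self, Function.update_self]
      simp
    · rw [Function.update_of_ne hl, Function.update_of_ne hl]
      exact hh' l
  · intro h hh h' hh' he
    have e1 := (mem_filter.1 hh).2
    have e2 := (mem_filter.1 hh').2
    have e3 : ∀ l, l ≠ j → h l = h' l := by
      intro l hl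
      have := congrFun he l
      simp only at this
      rwa [Function.update_of_ne hl, Function.update_of_ne hl] at this
    funext l
    by_cases hl : l = j
    · subst hl
      rw [← e1, ← e2]
      exact e3 i hij
    · exact e3 l hl

open Classical in
lemma card_noninj (s : Fin k → Finset ℕ) (H : ℕ) (hs : ∀ i, (s i).card = H) :
    ((Fintype.piFinset s).filter (fun h => ¬ Function.Injective h)).card ≤ k ^ 2 * H ^ (k - 1) := by
  have h1 : (Fintype.piFinset s).filter (fun h => ¬ Function.Injective h) ⊆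
      ((univ ×ˢ univ : Finset (Fin k × Fin k)).filter (fun p => p.1 ≠ p.2)).biUnion
        (fun p => (Fintype.piFinset s).filter (fun h => h p.1 = h p.2)) := by
    intro h hh
    rw [mem_filter] at hh
    obtain ⟨hh1, hh2⟩ := hh
    unfold Function.Injective at hh2
    push Not at hh2
    obtain ⟨i, j, e, hij⟩ := hh2
    rw [mem_biUnion]
    exact ⟨(i, j), by simp [hij], by rw [mem_filter]; exact ⟨hh1, e⟩⟩
  refine (card_le_card h1).trans (card_biUnion_le.trans ?_)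
  calc _ ≤ ∑ _p ∈ (univ ×ˢ univ : Finset (Fin k × Fin k)).filter (fun p => p.1 ≠ p.2), H ^ (k - 1) := by
        apply sum_le_sum
        intro p hp
        exact card_eq_le s H hs p.1 p.2 (mem_filter.1 hp).2
    _ = ((univ ×ˢ univ : Finset (Fin k × Fin k)).filter (fun p => p.1 ≠ p.2)).card * H ^ (k - 1) := by
        rw [sum_const, smul_eq_mul]
    _ ≤ k ^ 2 * H ^ (k - 1) := by
        apply Nat.mul_le_mul_right
        refine (card_filter_le _ _).trans ?_
        rw [card_product, card_univ, Fintype.card_fin, sq]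

lemma evN (A B1 k e C : ℕ) (K : ℝ) (he : 1 ≤ e) : ∃ N5 : ℕ, ∀ N : ℕ, N5 ≤ N → 1 ≤ N ∧ K ≤ Real.log N ∧
    (A + B1 + 2 * k + 10 : ℝ) ≤ Real.log (Real.log N) ∧ 2 * Real.log N ^ (A + k + 2) ≤ N ∧ C + 2 ≤ N ∧
    2 * k ^ 2 * Real.log N ^ A ≤ (N : ℝ) ^ (1 / e : ℝ) := by
  have hlim : Filter.Tendsto (fun N : ℕ => Real.log (N : ℝ)) Filter.atTop Filter.atTop :=
    Real.tendsto_log_atTop.comp (tendsto_natCast_atTop_atTop (R := ℝ))
  have h1 := hlim.eventually_ge_atTop K
  have h2 := (Real.tendsto_log_atTop.comp hlim).eventually_ge_atTop (A + B1 + 2 * k + 10 : ℝ)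
  have h3 : ∀ᶠ N : ℕ in Filter.atTop, 2 * Real.log N ^ (A + k + 2) ≤ N := by
    have h4 := (tendsto_natCast_atTop_atTop (R := ℝ)).eventually
      ((Real.isLittleO_pow_log_id_atTop (n := A + k + 2)).bound (show (0 : ℝ) < 1 / 2 by norm_num))
    filter_upwards [h4, hlim.eventually_ge_atTop 1] with N h5 h6
    simp only [id] at h5
    rw [Real.norm_of_nonneg (by positivity), Real.norm_of_nonneg (by positivity)] at h5
    linarith
  have h6 : ∀ᶠ N : ℕ in Filter.atTop, 2 * k ^ 2 * Real.log N ^ A ≤ (N : ℝ) ^ (1 / e : ℝ) := by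
    have he0 : (0 : ℝ) < 1 / e := by
      have : (0 : ℝ) < e := by exact_mod_cast he
      positivity
    have h7 := (isLittleO_log_rpow_rpow_atTop (s := 1 / (e : ℝ)) (A : ℝ) he0).bound
      (show (0 : ℝ) < 1 / (2 * k ^ 2 + 1) by positivity)
    have h8 := (tendsto_natCast_atTop_atTop (R := ℝ)).eventually h7
    filter_upwards [h8, hlim.eventually_ge_atTop 1] with N h9 h10
    rw [Real.rpow_natCast, Real.norm_of_nonneg (by positivity), Real.norm_of_nonneg (by positivity)] at h9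
    rw [div_mul_eq_mul_div, one_mul, le_div_iff₀ (by positivity)] at h9
    have : 0 ≤ Real.log N ^ A := by positivity
    nlinarith
  obtain ⟨N0, h0⟩ := Filter.eventually_atTop.1 ((Filter.eventually_ge_atTop 1).and (h1.and (h2.and (h3.and
    ((Filter.eventually_ge_atTop (C + 2)).and h6)))))
  exact ⟨N0, fun N hN => h0 N hN⟩

theorem main : ∀ θ : ℝ, 0 ≤ θ → S_BDC θ → S_MTC → S_SRT → S_SLB → S_R6C θ := by
  intro θ hθ hBo hM hR _ k e A C hk he
  classical
  obtain ⟨E0, B1, hBo⟩ := hBo k e (2 * A + 2) C hk he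
  obtain ⟨B2, N2, hM⟩ := hM k (E0 + A + k + 10 + 1) (A + 2)
  obtain ⟨N1, hBo⟩ := hBo (E0 + A + k + 10 + 1)
  obtain ⟨N3, hR⟩ := hR k
  obtain ⟨N4, hV⟩ := Pool.Agent.H373R2.T7.Vz_inv_small (E0 + A + k + 10 + 1)
  set K0 : ℝ := 4 ^ (k + 2) + 4 * k ^ 2 * (C + 2) * 2 ^ (2 * k + 2) + 100 with hK0
  obtain ⟨N5, h5⟩ := evN A B1 k e C K0 he
  refine ⟨B2 + 1, N1 + N2 + N3 + N4 + N5, fun N hN H hH hHN c₀ hc₀ => ?_⟩
  obtain ⟨hN1, hL', hl, hLN, hCN, hHk⟩ := h5 N (by omega)
  set L := Real.log N with hLdef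
  set l := Real.log L with hldef
  have hKp1 : 0 < (4 : ℝ) ^ (k + 2) := by positivity
  have hKp2 : 0 ≤ 4 * (k : ℝ) ^ 2 * (C + 2) * 2 ^ (2 * k + 2) := by positivity
  have hL : 100 ≤ L := by linarith
  have hL4 : (4 : ℝ) ^ (k + 2) ≤ L := by linarith
  have hLY : 4 * (k : ℝ) ^ 2 * (C + 2) * 2 ^ (2 * k + 2) ≤ L := by linarith
  have hL0 : 0 < L := by linarith
  have hN0 : (0 : ℝ) < N := by exact_mod_cast hN1
  have hle : Real.exp l = L := Real.exp_log hL0
  -- the larger bound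
  set N' : ℕ := (C + 2) * N with hN'
  have hN'N : N ≤ N' := by
    rw [hN']
    exact Nat.le_mul_of_pos_left N (by omega)
  have hN'1 : 1 ≤ N' := by omega
  have hΛ : Real.log N' ≤ 2 * L := by
    have h1 : (N' : ℝ) ≤ (N : ℝ) ^ 2 := by
      rw [hN', sq]
      push_cast
      apply mul_le_mul_of_nonneg_right _ hN0.le
      exact_mod_cast hCN
    have h2 : Real.log N' ≤ Real.log ((N : ℝ) ^ 2) := Real.log_le_log (by exact_mod_cast hN'1) h1
    rw [Real.log_pow] at h2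
    exact_mod_cast h2
  have hΛ1 : L ≤ Real.log N' := Real.log_le_log hN0 (by exact_mod_cast hN'N)
  -- the level
  set z : ℕ := ⌈L ^ (E0 + A + k + 10)⌉₊ with hzdef
  have hz1 : L ^ (E0 + A + k + 10) ≤ z := Nat.le_ceil _
  have hz2 : (z : ℝ) ≤ L ^ (E0 + A + k + 10 + 1) := by
    have h1 : (z : ℝ) < L ^ (E0 + A + k + 10) + 1 := Nat.ceil_lt_add_one (by positivity)
    have h2 : 1 ≤ L ^ (E0 + A + k + 10) := one_le_pow₀ (by linarith)
    have h3 : L ^ (E0 + A + k + 10) * 2 ≤ L ^ (E0 + A + k + 10) * L := mul_le_mul_of_nonneg_left (by linarith) (by positivity)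
    rw [pow_succ]
    linarith
  have hzE : L ^ E0 ≤ z := (pow_le_pow_right₀ (by linarith) (by omega)).trans hz1
  have hz4 : L ^ 4 ≤ z := (pow_le_pow_right₀ (by linarith) (by omega)).trans hz1
  have hz3 : (Real.log N') ^ 3 ≤ z := by
    calc (Real.log N') ^ 3 ≤ (2 * L) ^ 3 := pow_le_pow_left₀ (by linarith) hΛ 3
      _ = 8 * L ^ 3 := by ring
      _ ≤ L * L ^ 3 := mul_le_mul_of_nonneg_right (by linarith) (by positivity)
      _ = L ^ 4 := by ring
      _ ≤ z := hz4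
  have hzA : L ^ (A + k + 10) ≤ z := (pow_le_pow_right₀ (by linarith) (by omega)).trans hz1
  have hz0 : (0 : ℝ) < z := lt_of_lt_of_le (by positivity) hz4
  have hz1' : 1 ≤ z := by exact_mod_cast hz0
  have hVL : (Vz z)⁻¹ ≤ L := hV N (by omega) z hz1' hz2
  have hV0 : 0 ≤ (Vz z)⁻¹ := inv_nonneg.2 (Pool.Agent.H373R2.T7.Vz_pos z).le
  -- the exponentials
  set X : ℝ := Real.exp (-(((B2 + 1 : ℕ) : ℝ) * l ^ 2)) with hX
  set v : ℝ := Real.exp (B2 * l ^ 2) with hv
  have hXv : X * v = Real.exp (-l ^ 2) := by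
    rw [hX, hv, ← Real.exp_add]
    congr 1
    push_cast
    ring
  have hv1 : 1 ≤ v := Real.one_le_exp (by positivity)
  have hX0 : 0 < X := Real.exp_pos _
  have hXl : X ≤ Real.exp (-l ^ 2) := by
    rw [← hXv]
    exact le_mul_of_one_le_right hX0.le hv1
  have hA0 : (0 : ℝ) ≤ A := by positivity
  have hB0 : (0 : ℝ) ≤ B1 := by positivity
  have hk0 : (0 : ℝ) ≤ k := by positivity
  have hl0 : 0 ≤ l := by linarith
  have hpow : ∀ j : ℕ, (j : ℝ) ≤ l → Real.exp (-l ^ 2) * L ^ j ≤ 1 := by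
    intro j hj
    have e1 : L ^ j = Real.exp (j * l) := by rw [Real.exp_nat_mul, hle]
    rw [e1, ← Real.exp_add]
    apply Real.exp_le_one_iff.2
    have h2 := mul_le_mul_of_nonneg_right hj hl0
    have h3 : l ^ 2 = l * l := sq l
    linarith
  have hX1 : X ≤ 1 := by
    have := hpow 0 (by push_cast; linarith)
    rw [pow_zero, mul_one] at this
    linarith
  -- the maximal moduli
  set Q0 : ℕ := ⌊(N : ℝ) * X⌋₊ with hQ0
  have hQ0X : (Q0 : ℝ) ≤ N * X := Nat.floor_le (by positivity)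
  have hQ0B : (Q0 : ℝ) * L ^ B1 ≤ N := by
    have h1 : X * L ^ B1 ≤ 1 := by
      refine le_trans ?_ (hpow B1 (by linarith))
      exact mul_le_mul_of_nonneg_right hXl (by positivity)
    calc (Q0 : ℝ) * L ^ B1 ≤ N * X * L ^ B1 := mul_le_mul_of_nonneg_right hQ0X (by positivity)
      _ = N * (X * L ^ B1) := by ring
      _ ≤ N * 1 := mul_le_mul_of_nonneg_left h1 hN0.le
      _ = N := mul_one _
  -- worst initial segments
  have hmax : ∀ (h : Fin k → ℕ) (q r : ℕ), ∃ t : ℕ, t ≤ N ∧ ∀ t' ≤ N, |Ef z h q r t'| ≤ |Ef z h q r t| := by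
    intro h q r
    obtain ⟨t, ht, h1⟩ := exists_max_image (range (N + 1)) (fun t => |Ef z h q r t|) ⟨0, by simp⟩
    exact ⟨t, by rw [mem_range] at ht; omega, fun t' ht' => h1 t' (by rw [mem_range]; omega)⟩
  choose ts hts hmax using hmax
  have hGG := hBo N (by omega) H hH hHN c₀ hc₀ z hzE hz2 Q0 hQ0B ts hts
  set G : (Fin k → ℕ) → ℝ := fun h => ∑ q ∈ Icc 1 Q0, ∑ r ∈ range q, Ef z h q r (ts h q r) ^ 2 with hGdef
  set P : Finset (Fin k → ℕ) := Fintype.piFinset (fun i : Fin k => Ioc (c₀ i) (c₀ i + H)) with hP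
  have hGG' : ∑ h ∈ P, G h ≤ (H : ℝ) ^ k * (N : ℝ) ^ 2 / L ^ (2 * A + 2) := hGG
  have hG0 : ∀ h, 0 ≤ G h := fun h => sum_nonneg fun q _ => sum_nonneg fun r _ => sq_nonneg _
  -- the good vectors
  have hgood : ∀ h ∈ P, Function.Injective h → G h ≤ (N : ℝ) ^ 2 / L ^ (A + 1) → Good6 A (B2 + 1) N h := by
    intro h hh hinj hGn
    refine ⟨hinj, ?_⟩
    intro Q hQ y hy
    rw [hP, Fintype.mem_piFinset] at hh
    have hh1 : ∀ i, 1 ≤ h i := fun i => by
      have := hh i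
      rw [mem_Ioc] at this
      omega
    have hh2 : ∀ i, N + h i ≤ N' := fun i => by
      have h1 := hh i
      rw [mem_Ioc] at h1
      have h2 := hc₀ i
      have h3 : N' = C * N + N + N := by rw [hN']; ring
      omega
    have hQQ0 : Q ≤ Q0 := Nat.le_floor hQ
    have hQN : Q ≤ N := by
      have : (Q : ℝ) ≤ N := by
        refine hQ.trans ?_
        calc (N : ℝ) * X ≤ N * 1 := mul_le_mul_of_nonneg_left hX1 hN0.le
          _ = N := mul_one _
      exact_mod_cast this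
    set σ : Fin k → ℤ := fun _ => 1 with hσd
    set hz : Fin k → ℤ := fun i => (h i : ℤ) with hhz
    set u : ℝ := (N : ℝ) / L ^ (A + 2) + 8 * N * L ^ (k + 2) / z with hu
    have hc : ∀ q ∈ Icc 1 Q, ∀ r ∈ (range q).filter (fun r => ∀ i, (r + h i).Coprime q),
        |(cntT h q r (y q r) : ℝ) - sers σ hz / phf σ hz q * expT h (y q r)| ≤
        2 ^ k * (ww h N q r + |Ef z h q r (ts h q r)| + u / q + v) := by
      intro q hq r hr
      rw [mem_Icc] at hq
      rw [mem_filter, mem_range] at hr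
      obtain ⟨hr1, hr2⟩ := hr
      have hq0 : (0 : ℝ) < q := by exact_mod_cast hq.1
      have hσ : ∀ i, σ i = 1 ∨ σ i = -1 := fun i => Or.inl rfl
      have hha : ∀ i, |hz i| ≤ (N' : ℤ) := by
        intro i
        rw [hhz]
        simp only
        rw [abs_of_nonneg (by omega)]
        have := hh2 i
        omega
      have hne : ∀ i j, i ≠ j → σ i * hz j ≠ σ j * hz i := by
        intro i j hij h1
        rw [hσd, hhz] at h1
        simp only [one_mul, Nat.cast_inj] at h1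
        exact hij (hinj h1.symm)
      have hgcd : ∀ i, Int.gcd (σ i * r + hz i) q = 1 := by
        intro i
        rw [hσd, hhz]
        simp only [one_mul]
        have := hr2 i
        rw [← Nat.cast_add, Int.gcd_natCast_natCast]
        exact this
      obtain ⟨hs0, hp0, hgs⟩ := hR N' (by omega) σ hz hσ hha hne z hz3 q r hq.1 (by omega) hgcd
      have hp0' : (0 : ℝ) < phf σ hz q := by exact_mod_cast hp0
      set g := gz z σ hz q r with hg
      set c : ℝ := sers σ hz / phf σ hz q with hc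
      have hqc : sers σ hz * ((q : ℝ) / phf σ hz q) = q * c := by
        rw [hc]
        field_simp
      have hc0 : 0 ≤ c := div_nonneg hs0 hp0'.le
      rw [hqc] at hgs
      have hΛ2 : (Real.log N') ^ 2 / z ≤ 4 * L ^ 2 / z := by
        apply div_le_div_of_nonneg_right _ hz0.le
        calc (Real.log N') ^ 2 ≤ (2 * L) ^ 2 := pow_le_pow_left₀ (by linarith) hΛ 2
          _ = 4 * L ^ 2 := by ring
      have hz2L : 4 * L ^ 2 / z ≤ 1 / 2 := by
        rw [div_le_iff₀ hz0]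
        have : 8 * L ^ 2 ≤ L ^ 4 := by
          have h1 : 8 ≤ L ^ 2 := by
            calc (8 : ℝ) ≤ L := by linarith
              _ ≤ L ^ 2 := le_self_pow₀ (by linarith) (by norm_num)
          calc 8 * L ^ 2 ≤ L ^ 2 * L ^ 2 := mul_le_mul_of_nonneg_right h1 (by positivity)
            _ = L ^ 4 := by ring
        linarith
      have hg2 : g ≤ L ^ k := by
        refine (gz_le z σ hz q r).trans ?_
        exact pow_le_pow_left₀ hV0 hVL k
      have hgs1 : |g - q * c| ≤ q * c * (4 * L ^ 2 / z) :=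
        hgs.trans (mul_le_mul_of_nonneg_left hΛ2 (by positivity))
      have hs2 : q * c ≤ 2 * L ^ k := by
        have h1 : q * c * (4 * L ^ 2 / z) ≤ q * c * (1 / 2) := mul_le_mul_of_nonneg_left hz2L (by positivity)
        have h2 := (abs_le.1 hgs1).1
        linarith
      have hgs2 : |g - q * c| ≤ 2 * L ^ k * (4 * L ^ 2 / z) :=
        hgs1.trans (mul_le_mul_of_nonneg_right hs2 (by positivity))
      have hD : ∀ t, t ≤ y q r → |PP h q r t - t * c| ≤
          ww h N q r + |Ef z h q r (ts h q r)| + ((N : ℝ) / q / L ^ (A + 2) + v) + (N : ℝ) / q * (2 * L ^ k * (4 * L ^ 2 / z)) := by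
        intro t ht
        have hty := hy q r
        have h1 := hM N (by omega) z hz1' hz2 σ hz hσ q r t hq.1 (by omega)
        have h2 := pt N z h q r t (2 * L ^ k * (4 * L ^ 2 / z)) (L ^ (A + 2)) v c g hq.1 hr1 (by omega) h1 hgs2
        have h3 := hmax h q r t (by omega)
        linarith
      have hD0 : 0 ≤ ww h N q r + |Ef z h q r (ts h q r)| + ((N : ℝ) / q / L ^ (A + 2) + v) +
          (N : ℝ) / q * (2 * L ^ k * (4 * L ^ 2 / z)) :=
        (abs_nonneg _).trans (hD 0 (Nat.zero_le _))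
      refine (cnt_le h hh1 q r (y q r) c _ hD hD0).trans ?_
      apply mul_le_mul_of_nonneg_left _ (by positivity)
      have hu2 : u / q = (N : ℝ) / q / L ^ (A + 2) + (N : ℝ) / q * (2 * L ^ k * (4 * L ^ 2 / z)) := by
        rw [hu, pow_add L k 2]
        field_simp
        ring
      rw [hu2]
      linarith
    have hw : ∀ q ∈ Icc 1 Q, ∑ r ∈ range q, ww h N q r ^ 2 ≤ 4 * k ^ 2 * N' * (2 * L) ^ (2 * k + 2) := by
      intro q hq
      refine (ww_sum h N N' q hN'1 hh2 (mem_Icc.1 hq).1 (by linarith)).trans ?_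
      apply mul_le_mul_of_nonneg_left _ (by positivity)
      exact pow_le_pow_left₀ (by linarith) hΛ _
    have ht := total N Q hQN (fun q => (range q).filter (fun r => ∀ i, (r + h i).Coprime q)) (fun q => filter_subset _ _)
      (fun q r => (cntT h q r (y q r) : ℝ) - sers σ hz / phf σ hz q * expT h (y q r))
      (fun q r => Ef z h q r (ts h q r)) (ww h N) (2 ^ k) u v ((N : ℝ) ^ 2 / L ^ (A + 1))
      (4 * k ^ 2 * N' * (2 * L) ^ (2 * k + 2)) hc hw
      (by
        refine le_trans ?_ hGn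
        apply sum_le_sum_of_subset_of_nonneg (Icc_subset_Icc_right hQQ0)
        intro _ _ _
        exact sum_nonneg fun r _ => sq_nonneg _)
    refine le_trans (le_of_eq ?_) (ht.trans ?_)
    · rfl
    have hA1 : 0 < L ^ (A + 1) := by positivity
    have hA6 : Real.exp (-l ^ 2) ≤ 1 / L ^ (A + 2 * k + 4) := by
      rw [le_div_iff₀ (by positivity)]
      refine hpow (A + 2 * k + 4) ?_
      push_cast
      linarith
    have hQX : (Q : ℝ) ≤ N * X := hQ
    set W : ℝ := (N : ℝ) ^ 2 / L ^ (A + 1) with hW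
    have hW0 : 0 < W := by positivity
    have b1 : (Q : ℝ) * (4 * k ^ 2 * N' * (2 * L) ^ (2 * k + 2)) ≤ W := by
      calc (Q : ℝ) * (4 * k ^ 2 * N' * (2 * L) ^ (2 * k + 2)) ≤
            (N * (1 / L ^ (A + 2 * k + 4))) * (4 * k ^ 2 * N' * (2 * L) ^ (2 * k + 2)) := by
            apply mul_le_mul_of_nonneg_right _ (by positivity)
            exact hQX.trans (mul_le_mul_of_nonneg_left (hXl.trans hA6) hN0.le)
        _ = W * (4 * k ^ 2 * (C + 2) * 2 ^ (2 * k + 2) / L) := by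
            rw [hW, hN', show A + 2 * k + 4 = (A + 1) + (2 * k + 2) + 1 by ring, pow_add L (A + 1 + (2 * k + 2)),
              pow_add L (A + 1), mul_pow, pow_one]
            push_cast
            field_simp
        _ ≤ W * 1 := by
            apply mul_le_mul_of_nonneg_left _ hW0.le
            rw [div_le_one hL0]
            exact hLY
        _ = W := mul_one _
    have hu3 : u ≤ 3 * (N : ℝ) / L ^ (A + 2) := by
      have c1 : 8 * (N : ℝ) * L ^ (k + 2) / z ≤ (N : ℝ) / L ^ (A + 2) := by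
        rw [div_le_div_iff₀ hz0 (by positivity)]
        have : 8 * L ^ (k + 2) * L ^ (A + 2) ≤ z := by
          refine le_trans ?_ hzA
          rw [show A + k + 10 = 6 + ((k + 2) + (A + 2)) by ring, pow_add L 6, pow_add L (k + 2), mul_assoc]
          have e4 : 8 ≤ L ^ 6 := by
            calc (8 : ℝ) ≤ L := by linarith
              _ ≤ L ^ 6 := le_self_pow₀ (by linarith) (by norm_num)
          exact mul_le_mul_of_nonneg_right e4 (by positivity)
        calc 8 * (N : ℝ) * L ^ (k + 2) * L ^ (A + 2) = N * (8 * L ^ (k + 2) * L ^ (A + 2)) := by ring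
          _ ≤ N * z := mul_le_mul_of_nonneg_left this hN0.le
      have c3 : 3 * (N : ℝ) / L ^ (A + 2) = (N : ℝ) / L ^ (A + 2) + (N : ℝ) / L ^ (A + 2) + (N : ℝ) / L ^ (A + 2) := by ring
      have c4 : 0 ≤ (N : ℝ) / L ^ (A + 2) := by positivity
      rw [hu, c3]
      linarith
    have hu0 : 0 ≤ u := by positivity
    have b3 : u ^ 2 * (1 + L) ≤ W := by
      calc u ^ 2 * (1 + L) ≤ (3 * (N : ℝ) / L ^ (A + 2)) ^ 2 * (2 * L) := by
            apply mul_le_mul (pow_le_pow_left₀ hu0 hu3 2) (by linarith) (by linarith) (by positivity)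
        _ = W * (18 / L ^ (A + 2)) := by
            rw [hW]
            rw [show A + 2 = (A + 1) + 1 by ring, pow_succ L (A + 1)]
            field_simp
            ring
        _ ≤ W * 1 := by
            apply mul_le_mul_of_nonneg_left _ hW0.le
            rw [div_le_one (by positivity)]
            calc (18 : ℝ) ≤ L := by linarith
              _ ≤ L ^ (A + 2) := le_self_pow₀ (by linarith) (by omega)
        _ = W := mul_one _
    have b4 : ((Q : ℝ) * v) ^ 2 ≤ W := by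
      have d1 : (Q : ℝ) * v ≤ N * Real.exp (-l ^ 2) := by
        calc (Q : ℝ) * v ≤ N * X * v := mul_le_mul_of_nonneg_right hQX (by linarith)
          _ = N * (X * v) := by ring
          _ = _ := by rw [hXv]
      have d2 : Real.exp (-l ^ 2) ≤ 1 := Real.exp_le_one_iff.2 (by linarith [sq_nonneg l])
      have d3 : Real.exp (-l ^ 2) ≤ 1 / L ^ (A + 1) := by
        refine hA6.trans ?_
        apply one_div_le_one_div_of_le hA1
        exact pow_le_pow_right₀ (by linarith) (by omega)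
      calc ((Q : ℝ) * v) ^ 2 ≤ (N * Real.exp (-l ^ 2)) ^ 2 := pow_le_pow_left₀ (by positivity) d1 2
        _ = N ^ 2 * (Real.exp (-l ^ 2) * Real.exp (-l ^ 2)) := by ring
        _ ≤ N ^ 2 * (1 / L ^ (A + 1) * 1) := by
            apply mul_le_mul_of_nonneg_left _ (by positivity)
            exact mul_le_mul d3 d2 (Real.exp_pos _).le (by positivity)
        _ = W := by rw [hW]; ring
    have hK4 : 4 * ((2 : ℝ) ^ k) ^ 2 * (4 * W) = 4 ^ (k + 2) * W := by
      have : ((2 : ℝ) ^ k) ^ 2 = 4 ^ k := by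
        rw [← pow_mul, mul_comm, pow_mul]
        norm_num
      rw [this, pow_add]
      ring
    calc 4 * ((2 : ℝ) ^ k) ^ 2 * ((Q : ℝ) * (4 * k ^ 2 * N' * (2 * L) ^ (2 * k + 2)) + W + u ^ 2 * (1 + L) + (Q * v) ^ 2)
        ≤ 4 * ((2 : ℝ) ^ k) ^ 2 * (4 * W) := by
          apply mul_le_mul_of_nonneg_left _ (by positivity)
          linarith
      _ = 4 ^ (k + 2) * W := hK4
      _ ≤ L * W := mul_le_mul_of_nonneg_right hL4 hW0.le
      _ = (N : ℝ) ^ 2 / L ^ A := by
          rw [hW, pow_succ L A]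
          field_simp
  -- Markov
  have hsub : P.filter (fun h => ¬ Good6 A (B2 + 1) N h) ⊆
      P.filter (fun h => (N : ℝ) ^ 2 / L ^ (A + 1) < G h) ∪ P.filter (fun h => ¬ Function.Injective h) := by
    intro h hh
    rw [mem_filter] at hh
    rw [mem_union, mem_filter, mem_filter]
    by_cases h1 : Function.Injective h
    · left
      refine ⟨hh.1, ?_⟩
      by_contra h2
      exact hh.2 (hgood h hh.1 h1 (not_lt.1 h2))
    · right
      exact ⟨hh.1, h1⟩
  have hmk : ((P.filter (fun h => (N : ℝ) ^ 2 / L ^ (A + 1) < G h)).card : ℝ) * ((N : ℝ) ^ 2 / L ^ (A + 1)) ≤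
      (H : ℝ) ^ k * (N : ℝ) ^ 2 / L ^ (2 * A + 2) := by
    refine le_trans ?_ hGG'
    rw [← nsmul_eq_mul, ← sum_const]
    calc _ ≤ ∑ h ∈ P.filter (fun h => (N : ℝ) ^ 2 / L ^ (A + 1) < G h), G h :=
          sum_le_sum fun h hh => (mem_filter.1 hh).2.le
      _ ≤ _ := sum_le_sum_of_subset_of_nonneg (filter_subset _ _) (fun h _ _ => hG0 h)
  have hcard : ((P.filter (fun h => ¬ Good6 A (B2 + 1) N h)).card : ℝ) ≤
      ((P.filter (fun h => (N : ℝ) ^ 2 / L ^ (A + 1) < G h)).card : ℝ) +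
      ((P.filter (fun h => ¬ Function.Injective h)).card : ℝ) := by
    exact_mod_cast (card_le_card hsub).trans (card_union_le _ _)
  have hfin : ((P.filter (fun h => (N : ℝ) ^ 2 / L ^ (A + 1) < G h)).card : ℝ) ≤ (H : ℝ) ^ k / L ^ (A + 1) := by
    have hpos : 0 < (N : ℝ) ^ 2 / L ^ (A + 1) := by positivity
    rw [← mul_le_mul_iff_left₀ hpos]
    refine hmk.trans (le_of_eq ?_)
    rw [show 2 * A + 2 = (A + 1) + (A + 1) by ring, pow_add L (A + 1) (A + 1)]
    field_simp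
  have hninj : ((P.filter (fun h => ¬ Function.Injective h)).card : ℝ) ≤ (H : ℝ) ^ k / (2 * L ^ A) := by
    have h1 := card_noninj (fun i : Fin k => Ioc (c₀ i) (c₀ i + H)) H (fun i => by rw [Nat.card_Ioc]; omega)
    have h2 : ((P.filter (fun h => ¬ Function.Injective h)).card : ℝ) ≤ (k : ℝ) ^ 2 * (H : ℝ) ^ (k - 1) := by
      exact_mod_cast h1
    refine h2.trans ?_
    have h3 : 2 * (k : ℝ) ^ 2 * L ^ A ≤ H := by
      refine hHk.trans (le_trans ?_ hH)
      apply Real.rpow_le_rpow_of_exponent_le (by exact_mod_cast hN1)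
      linarith
    rw [le_div_iff₀ (by positivity)]
    have h4 : (H : ℝ) ^ k = (H : ℝ) ^ (k - 1) * H := by
      rw [← pow_succ]
      congr 1
      omega
    rw [h4]
    calc (k : ℝ) ^ 2 * (H : ℝ) ^ (k - 1) * (2 * L ^ A) = (H : ℝ) ^ (k - 1) * (2 * (k : ℝ) ^ 2 * L ^ A) := by ring
      _ ≤ _ := mul_le_mul_of_nonneg_left h3 (by positivity)
  have hsum : (H : ℝ) ^ k / L ^ (A + 1) + (H : ℝ) ^ k / (2 * L ^ A) ≤ (H : ℝ) ^ k / L ^ A := by
    have h1 : (H : ℝ) ^ k / L ^ (A + 1) ≤ (H : ℝ) ^ k / (2 * L ^ A) := by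
      apply div_le_div_of_nonneg_left (by positivity) (by positivity)
      rw [pow_succ, mul_comm]
      exact mul_le_mul_of_nonneg_left (by linarith) (by positivity)
    have h2 : (H : ℝ) ^ k / (2 * L ^ A) + (H : ℝ) ^ k / (2 * L ^ A) = (H : ℝ) ^ k / L ^ A := by
      field_simp
      ring
    linarith
  have hend := (hcard.trans (add_le_add hfin hninj)).trans hsum
  convert hend using 3

end Pool.Agent.helper24_UT.R6c
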