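import Pool.Agent.helper24_UT.Stm17
import Pool.Agent.helper24_UT.R6c
import Pool.Agent.H560R3.GB.Tup2

set_option autoImplicit false

namespace Pool.Agent.helper24_UT.R19

open Finset
open Pool.Agent.helper24_UT
open Pool.Agent.H373R2.T7 (lamI lamzI lamz Vz pz lamP)

section forms

variable {k : ℕ}

/-- prime tuples and weights, without a condition on the shifts -/
lemma cntT_eq (h : Fin k → ℕ) (q r y : ℕ) :
    (cntT h q r y : ℝ) = ∑ m ∈ Icc 1 y, (if m % q = r then ∏ i, lamP ((m : ℤ) + h i) else 0) * R6c.rh h m := by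
  unfold cntT
  rw [card_filter]
  push_cast
  apply sum_congr rfl
  intro m hm
  rw [mem_Icc] at hm
  by_cases h1 : m % q = r
  · rw [if_pos h1]
    by_cases h2 : ∀ i, (m + h i).Prime
    · rw [if_pos ⟨h1, h2⟩]
      unfold R6c.rh
      rw [← prod_mul_distrib]
      symm
      apply prod_eq_one
      intro i _
      unfold lamP
      have e1 : ((m : ℤ) + h i).toNat = m + h i := by omega
      rw [e1, if_pos (h2 i)]
      have := R6c.log_ge (m + h i) (h2 i).two_le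
      have h3 : Real.log ((m + h i : ℕ) : ℝ) ≠ 0 := by linarith
      field_simp
    · rw [if_neg (fun h3 => h2 h3.2)]
      rw [not_forall] at h2
      obtain ⟨i, hi⟩ := h2
      have : ∏ i, lamP ((m : ℤ) + h i) = 0 := by
        apply prod_eq_zero (mem_univ i)
        unfold lamP
        have e1 : ((m : ℤ) + h i).toNat = m + h i := by omega
        rw [e1, if_neg hi]
      rw [this, zero_mul]
  · rw [if_neg (fun h3 => h1 h3.1), if_neg h1, zero_mul]

lemma rh_le (h : Fin k → ℕ) (m : ℕ) (hm : 2 ≤ m) : R6c.rh h m ≤ 2 ^ k := by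
  unfold R6c.rh
  calc ∏ i, 1 / Real.log ((m + h i : ℕ) : ℝ) ≤ ∏ _j : Fin k, (2 : ℝ) := by
        apply prod_le_prod
        · intro i _
          exact div_nonneg zero_le_one (Real.log_natCast_nonneg _)
        · intro i _
          have := R6c.log_ge (m + h i) (by omega)
          rw [div_le_iff₀ (by linarith)]
          linarith
    _ = 2 ^ k := by simp

lemma rh_anti (h : Fin k → ℕ) (m : ℕ) (hm : 2 ≤ m) : R6c.rh h (m + 1) ≤ R6c.rh h m := by
  unfold R6c.rh
  apply prod_le_prod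
  · intro i _
    exact div_nonneg zero_le_one (Real.log_natCast_nonneg _)
  · intro i _
    have := R6c.log_ge (m + h i) (by omega)
    apply one_div_le_one_div_of_le (by linarith)
    apply Real.log_le_log
    · have : 0 < m + h i := by omega
      exact_mod_cast this
    · exact_mod_cast (by omega : m + h i ≤ m + 1 + h i)

lemma rh_one (h : Fin k → ℕ) (i₀ : Fin k) (h0 : h i₀ = 0) : R6c.rh h 1 = 0 := by
  unfold R6c.rh
  apply prod_eq_zero (mem_univ i₀)
  rw [h0]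
  simp

lemma cnt_le (h : Fin k → ℕ) (i₀ : Fin k) (h0 : h i₀ = 0) (q r y : ℕ) (c D : ℝ)
    (hD : ∀ t, t ≤ y → |R6c.PP h q r t - t * c| ≤ D)
    (hD0 : 0 ≤ D) : |(cntT h q r y : ℝ) - c * expT h y| ≤ 2 ^ k * 2 * D := by
  set a : ℕ → ℝ := fun m => (if m % q = r then ∏ i, lamP ((m : ℤ) + h i) else 0) - c with ha
  set ρ : ℕ → ℝ := fun m => R6c.rh h (max m 2) with hρ
  have e1 : (cntT h q r y : ℝ) - c * expT h y = ∑ m ∈ Icc 1 y, a m * R6c.rh h m := by
    rw [cntT_eq h]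
    unfold expT
    rw [mul_sum, ← sum_sub_distrib]
    apply sum_congr rfl
    intro m _
    simp only [ha]
    unfold R6c.rh
    ring
  have h1 : ∀ t ∈ Icc 1 y, |∑ m ∈ Icc 1 t, a m| ≤ D := by
    intro t ht
    rw [mem_Icc] at ht
    have e2 : ∑ m ∈ Icc 1 t, a m = R6c.PP h q r t - t * c := by
      simp only [ha]
      rw [sum_sub_distrib, sum_const, Nat.card_Icc, nsmul_eq_mul, Nat.add_sub_cancel]
      congr 1
      unfold R6c.PP
      rw [sum_filter]
    rw [e2]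
    exact hD t ht.2
  have h2 := R6c.abel a ρ D y (fun m _ => R6c.rh_nonneg h _) (fun m hm => by
    simp only [hρ]
    rcases Nat.lt_or_ge m 2 with h5 | h5
    · have h6 : m = 1 := by omega
      subst h6
      exact le_of_eq (by norm_num)
    · rw [max_eq_left (by omega), max_eq_left h5]
      exact rh_anti h m h5) hD0 h1
  have h3 : ρ 1 ≤ 2 ^ k := rh_le h _ (by norm_num)
  have h3' : 0 ≤ ρ 1 := R6c.rh_nonneg h _
  rw [e1]
  rcases Nat.eq_zero_or_pos y with hy | hy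
  · subst hy
    simp only [zero_lt_one, Icc_eq_empty_of_lt, sum_empty, abs_zero]
    positivity
  have h4 : ∑ m ∈ Icc 1 y, a m * R6c.rh h m = ∑ m ∈ Icc 1 y, a m * ρ m - a 1 * ρ 1 := by
    have h5 : (1 : ℕ) ∈ Icc 1 y := mem_Icc.2 ⟨le_rfl, hy⟩
    rw [← add_sum_erase _ _ h5, ← add_sum_erase (Icc 1 y) (fun m => a m * ρ m) h5, rh_one h i₀ h0]
    have h6 : ∑ m ∈ (Icc 1 y).erase 1, a m * R6c.rh h m = ∑ m ∈ (Icc 1 y).erase 1, a m * ρ m := by
      apply sum_congr rfl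
      intro m hm
      rw [mem_erase, mem_Icc] at hm
      simp only [hρ]
      rw [max_eq_left (by omega)]
    rw [h6]
    ring
  have h7 : |a 1| ≤ D := by
    have := h1 1 (mem_Icc.2 ⟨le_rfl, hy⟩)
    simpa using this
  rw [h4]
  calc |∑ m ∈ Icc 1 y, a m * ρ m - a 1 * ρ 1| ≤ |∑ m ∈ Icc 1 y, a m * ρ m| + |a 1 * ρ 1| := abs_sub _ _
    _ ≤ D * ρ 1 + D * ρ 1 := by
        apply add_le_add h2
        rw [abs_mul, abs_of_nonneg h3']
        exact mul_le_mul_of_nonneg_right h7 h3'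
    _ ≤ D * 2 ^ k + D * 2 ^ k := by
        have := mul_le_mul_of_nonneg_left h3 hD0
        linarith
    _ = _ := by ring

end forms

/-- the deterministic part: from the mean square bound for the difference to the mean square bound for the primes -/
lemma key (κ A E0 B1 B' : ℕ) (hM : S_MTC) (hR : S_SRT) : ∃ B2 N₀ : ℕ, ∀ N : ℕ, N₀ ≤ N → ∃ z Q0 : ℕ,
    (Real.log N) ^ E0 ≤ z ∧ (z : ℝ) ≤ (Real.log N) ^ (E0 + A + κ + 10 + 1) ∧ (Q0 : ℝ) * (Real.log N) ^ B1 ≤ N ∧
    ∀ (h : Fin κ → ℕ) (i₀ : Fin κ), h i₀ = 0 → Function.Injective h → (∀ i, h i ≤ (B' + 1) * N) →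
    (∀ y : ℕ → ℕ → ℕ, (∀ q r, y q r ≤ N) → ∑ q ∈ Icc 1 Q0, ∑ r ∈ range q, R6c.Ef z h q r (y q r) ^ 2 ≤
      (N : ℝ) ^ 2 / (Real.log N) ^ (A + 1)) → Good6 A (B2 + 1) N h := by
  classical
  obtain ⟨B2, N2, hM⟩ := hM κ (E0 + A + κ + 10 + 1) (A + 2)
  obtain ⟨N3, hR⟩ := hR κ
  obtain ⟨N4, hV⟩ := Pool.Agent.H373R2.T7.Vz_inv_small (E0 + A + κ + 10 + 1)
  set K0 : ℝ := 4 ^ (κ + 3) + 4 * κ ^ 2 * (B' + 2) * 2 ^ (2 * κ + 2) + 100 with hK0
  obtain ⟨N5, h5⟩ := R6c.evN A B1 κ 1 B' K0 le_rfl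
  refine ⟨B2, N2 + N3 + N4 + N5, fun N hN => ?_⟩
  obtain ⟨hN1, hL', hl, hLN, hCN, -⟩ := h5 N (by omega)
  set L := Real.log N with hLdef
  set l := Real.log L with hldef
  have hKp1 : 0 < (4 : ℝ) ^ (κ + 3) := by positivity
  have hKp2 : 0 ≤ 4 * (κ : ℝ) ^ 2 * (B' + 2) * 2 ^ (2 * κ + 2) := by positivity
  have hL : 100 ≤ L := by linarith
  have hL4 : (4 : ℝ) ^ (κ + 3) ≤ L := by linarith
  have hLY : 4 * (κ : ℝ) ^ 2 * (B' + 2) * 2 ^ (2 * κ + 2) ≤ L := by linarith
  have hL0 : 0 < L := by linarith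
  have hN0 : (0 : ℝ) < N := by exact_mod_cast hN1
  have hle : Real.exp l = L := Real.exp_log hL0
  -- the larger bound
  set N' : ℕ := (B' + 2) * N with hN'
  have hN'N : N ≤ N' := by
    rw [hN']
    exact Nat.le_mul_of_pos_left N (by omega)
  have hN'1 : 1 ≤ N' := by omega
  have hΛ : Real.log N' ≤ 2 * L := by
    have h1 : (N' : ℝ) ≤ (N : ℝ) ^ 2 := by
      rw [hN', sq]
      push_cast
      apply mul_le_mul_of_nonneg_right _ hN0.le
      exact_mod_cast hCN
    have h2 : Real.log N' ≤ Real.log ((N : ℝ) ^ 2) := Real.log_le_log (by exact_mod_cast hN'1) h1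
    rw [Real.log_pow] at h2
    exact_mod_cast h2
  have hΛ1 : L ≤ Real.log N' := Real.log_le_log hN0 (by exact_mod_cast hN'N)
  -- the level
  set z : ℕ := ⌈L ^ (E0 + A + κ + 10)⌉₊ with hzdef
  have hz1 : L ^ (E0 + A + κ + 10) ≤ z := Nat.le_ceil _
  have hz2 : (z : ℝ) ≤ L ^ (E0 + A + κ + 10 + 1) := by
    have h1 : (z : ℝ) < L ^ (E0 + A + κ + 10) + 1 := Nat.ceil_lt_add_one (by positivity)
    have h2 : 1 ≤ L ^ (E0 + A + κ + 10) := one_le_pow₀ (by linarith)
    have h3 : L ^ (E0 + A + κ + 10) * 2 ≤ L ^ (E0 + A + κ + 10) * L := mul_le_mul_of_nonneg_left (by linarith) (by positivity)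
    rw [pow_succ]
    linarith
  have hzE : L ^ E0 ≤ z := (pow_le_pow_right₀ (by linarith) (by omega)).trans hz1
  have hz4 : L ^ 4 ≤ z := (pow_le_pow_right₀ (by linarith) (by omega)).trans hz1
  have hz3 : (Real.log N') ^ 3 ≤ z := by
    calc (Real.log N') ^ 3 ≤ (2 * L) ^ 3 := pow_le_pow_left₀ (by linarith) hΛ 3
      _ = 8 * L ^ 3 := by ring
      _ ≤ L * L ^ 3 := mul_le_mul_of_nonneg_right (by linarith) (by positivity)
      _ = L ^ 4 := by ring
      _ ≤ z := hz4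
  have hzA : L ^ (A + κ + 10) ≤ z := (pow_le_pow_right₀ (by linarith) (by omega)).trans hz1
  have hz0 : (0 : ℝ) < z := lt_of_lt_of_le (by positivity) hz4
  have hz1' : 1 ≤ z := by exact_mod_cast hz0
  have hVL : (Vz z)⁻¹ ≤ L := hV N (by omega) z hz1' hz2
  have hV0 : 0 ≤ (Vz z)⁻¹ := inv_nonneg.2 (Pool.Agent.H373R2.T7.Vz_pos z).le
  -- the exponentials
  set X : ℝ := Real.exp (-(((B2 + 1 : ℕ) : ℝ) * l ^ 2)) with hX
  set v : ℝ := Real.exp (B2 * l ^ 2) with hv
  have hXv : X * v = Real.exp (-l ^ 2) := by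
    rw [hX, hv, ← Real.exp_add]
    congr 1
    push_cast
    ring
  have hv1 : 1 ≤ v := Real.one_le_exp (by positivity)
  have hX0 : 0 < X := Real.exp_pos _
  have hXl : X ≤ Real.exp (-l ^ 2) := by
    rw [← hXv]
    exact le_mul_of_one_le_right hX0.le hv1
  have hA0 : (0 : ℝ) ≤ A := by positivity
  have hB0 : (0 : ℝ) ≤ B1 := by positivity
  have hk0 : (0 : ℝ) ≤ κ := by positivity
  have hl0 : 0 ≤ l := by linarith
  have hpow : ∀ j : ℕ, (j : ℝ) ≤ l → Real.exp (-l ^ 2) * L ^ j ≤ 1 := by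
    intro j hj
    have e1 : L ^ j = Real.exp (j * l) := by rw [Real.exp_nat_mul, hle]
    rw [e1, ← Real.exp_add]
    apply Real.exp_le_one_iff.2
    have h2 := mul_le_mul_of_nonneg_right hj hl0
    have h3 : l ^ 2 = l * l := sq l
    linarith
  have hX1 : X ≤ 1 := by
    have := hpow 0 (by push_cast; linarith)
    rw [pow_zero, mul_one] at this
    linarith
  -- the maximal moduli
  set Q0 : ℕ := ⌊(N : ℝ) * X⌋₊ with hQ0
  have hQ0X : (Q0 : ℝ) ≤ N * X := Nat.floor_le (by positivity)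
  have hQ0B : (Q0 : ℝ) * L ^ B1 ≤ N := by
    have h1 : X * L ^ B1 ≤ 1 := by
      refine le_trans ?_ (hpow B1 (by linarith))
      exact mul_le_mul_of_nonneg_right hXl (by positivity)
    calc (Q0 : ℝ) * L ^ B1 ≤ N * X * L ^ B1 := mul_le_mul_of_nonneg_right hQ0X (by positivity)
      _ = N * (X * L ^ B1) := by ring
      _ ≤ N * 1 := mul_le_mul_of_nonneg_left h1 hN0.le
      _ = N := mul_one _
  refine ⟨z, Q0, hzE, hz2, hQ0B, ?_⟩
  intro h i₀ hi₀ hinj hhB hGn'
  -- worst initial segments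
  have hmax : ∀ (q r : ℕ), ∃ t : ℕ, t ≤ N ∧ ∀ t' ≤ N, |R6c.Ef z h q r t'| ≤ |R6c.Ef z h q r t| := by
    intro q r
    obtain ⟨t, ht, h1⟩ := exists_max_image (range (N + 1)) (fun t => |R6c.Ef z h q r t|) ⟨0, by simp⟩
    exact ⟨t, by rw [mem_range] at ht; omega, fun t' ht' => h1 t' (by rw [mem_range]; omega)⟩
  choose ts hts hmax using hmax
  have hGn := hGn' ts hts
  refine ⟨hinj, ?_⟩
  intro Q hQ y hy
  have hh2 : ∀ i, N + h i ≤ N' := fun i => by
    have h1 := hhB i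
    have h3 : N' = (B' + 1) * N + N := by rw [hN']; ring
    omega
  have hQQ0 : Q ≤ Q0 := Nat.le_floor hQ
  have hQN : Q ≤ N := by
    have : (Q : ℝ) ≤ N := by
      refine hQ.trans ?_
      calc (N : ℝ) * X ≤ N * 1 := mul_le_mul_of_nonneg_left hX1 hN0.le
        _ = N := mul_one _
    exact_mod_cast this
  set σ : Fin κ → ℤ := fun _ => 1 with hσd
  set hz : Fin κ → ℤ := fun i => (h i : ℤ) with hhz
  set u : ℝ := (N : ℝ) / L ^ (A + 2) + 8 * N * L ^ (κ + 2) / z with hu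
  have hc : ∀ q ∈ Icc 1 Q, ∀ r ∈ (range q).filter (fun r => ∀ i, (r + h i).Coprime q),
      |(cntT h q r (y q r) : ℝ) - sers σ hz / phf σ hz q * expT h (y q r)| ≤
      2 ^ κ * 2 * (R6c.ww h N q r + |R6c.Ef z h q r (ts q r)| + u / q + v) := by
    intro q hq r hr
    rw [mem_Icc] at hq
    rw [mem_filter, mem_range] at hr
    obtain ⟨hr1, hr2⟩ := hr
    have hq0 : (0 : ℝ) < q := by exact_mod_cast hq.1
    have hσ : ∀ i, σ i = 1 ∨ σ i = -1 := fun i => Or.inl rfl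
    have hha : ∀ i, |hz i| ≤ (N' : ℤ) := by
      intro i
      rw [hhz]
      simp only
      rw [abs_of_nonneg (by omega)]
      have := hh2 i
      omega
    have hne : ∀ i j, i ≠ j → σ i * hz j ≠ σ j * hz i := by
      intro i j hij h1
      rw [hσd, hhz] at h1
      simp only [one_mul, Nat.cast_inj] at h1
      exact hij (hinj h1.symm)
    have hgcd : ∀ i, Int.gcd (σ i * r + hz i) q = 1 := by
      intro i
      rw [hσd, hhz]
      simp only [one_mul]
      have := hr2 i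
      rw [← Nat.cast_add, Int.gcd_natCast_natCast]
      exact this
    obtain ⟨hs0, hp0, hgs⟩ := hR N' (by omega) σ hz hσ hha hne z hz3 q r hq.1 (by omega) hgcd
    have hp0' : (0 : ℝ) < phf σ hz q := by exact_mod_cast hp0
    set g := gz z σ hz q r with hg
    set c : ℝ := sers σ hz / phf σ hz q with hc
    have hqc : sers σ hz * ((q : ℝ) / phf σ hz q) = q * c := by
      rw [hc]
      field_simp
    have hc0 : 0 ≤ c := div_nonneg hs0 hp0'.le
    rw [hqc] at hgs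
    have hΛ2 : (Real.log N') ^ 2 / z ≤ 4 * L ^ 2 / z := by
      apply div_le_div_of_nonneg_right _ hz0.le
      calc (Real.log N') ^ 2 ≤ (2 * L) ^ 2 := pow_le_pow_left₀ (by linarith) hΛ 2
        _ = 4 * L ^ 2 := by ring
    have hz2L : 4 * L ^ 2 / z ≤ 1 / 2 := by
      rw [div_le_iff₀ hz0]
      have : 8 * L ^ 2 ≤ L ^ 4 := by
        have h1 : 8 ≤ L ^ 2 := by
          calc (8 : ℝ) ≤ L := by linarith
            _ ≤ L ^ 2 := le_self_pow₀ (by linarith) (by norm_num)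
        calc 8 * L ^ 2 ≤ L ^ 2 * L ^ 2 := mul_le_mul_of_nonneg_right h1 (by positivity)
          _ = L ^ 4 := by ring
      linarith
    have hg2 : g ≤ L ^ κ := by
      refine (R6c.gz_le z σ hz q r).trans ?_
      exact pow_le_pow_left₀ hV0 hVL κ
    have hgs1 : |g - q * c| ≤ q * c * (4 * L ^ 2 / z) :=
      hgs.trans (mul_le_mul_of_nonneg_left hΛ2 (by positivity))
    have hs2 : q * c ≤ 2 * L ^ κ := by
      have h1 : q * c * (4 * L ^ 2 / z) ≤ q * c * (1 / 2) := mul_le_mul_of_nonneg_left hz2L (by positivity)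
      have h2 := (abs_le.1 hgs1).1
      linarith
    have hgs2 : |g - q * c| ≤ 2 * L ^ κ * (4 * L ^ 2 / z) :=
      hgs1.trans (mul_le_mul_of_nonneg_right hs2 (by positivity))
    have hD : ∀ t, t ≤ y q r → |R6c.PP h q r t - t * c| ≤
        R6c.ww h N q r + |R6c.Ef z h q r (ts q r)| + ((N : ℝ) / q / L ^ (A + 2) + v) + (N : ℝ) / q * (2 * L ^ κ * (4 * L ^ 2 / z)) := by
      intro t ht
      have hty := hy q r
      have h1 := hM N (by omega) z hz1' hz2 σ hz hσ q r t hq.1 (by omega)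
      have h2 := R6c.pt N z h q r t (2 * L ^ κ * (4 * L ^ 2 / z)) (L ^ (A + 2)) v c g hq.1 hr1 (by omega) h1 hgs2
      have h3 := hmax q r t (by omega)
      linarith
    have hD0 : 0 ≤ R6c.ww h N q r + |R6c.Ef z h q r (ts q r)| + ((N : ℝ) / q / L ^ (A + 2) + v) +
        (N : ℝ) / q * (2 * L ^ κ * (4 * L ^ 2 / z)) :=
      (abs_nonneg _).trans (hD 0 (Nat.zero_le _))
    refine (cnt_le h i₀ hi₀ q r (y q r) c _ hD hD0).trans ?_
    apply mul_le_mul_of_nonneg_left _ (by positivity)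
    have hu2 : u / q = (N : ℝ) / q / L ^ (A + 2) + (N : ℝ) / q * (2 * L ^ κ * (4 * L ^ 2 / z)) := by
      rw [hu, pow_add L κ 2]
      field_simp
      ring
    rw [hu2]
    linarith
  have hw : ∀ q ∈ Icc 1 Q, ∑ r ∈ range q, R6c.ww h N q r ^ 2 ≤ 4 * κ ^ 2 * N' * (2 * L) ^ (2 * κ + 2) := by
    intro q hq
    refine (R6c.ww_sum h N N' q hN'1 hh2 (mem_Icc.1 hq).1 (by linarith)).trans ?_
    apply mul_le_mul_of_nonneg_left _ (by positivity)
    exact pow_le_pow_left₀ (by linarith) hΛ _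
  have ht := R6c.total N Q hQN (fun q => (range q).filter (fun r => ∀ i, (r + h i).Coprime q)) (fun q => filter_subset _ _)
    (fun q r => (cntT h q r (y q r) : ℝ) - sers σ hz / phf σ hz q * expT h (y q r))
    (fun q r => R6c.Ef z h q r (ts q r)) (R6c.ww h N) (2 ^ κ * 2) u v ((N : ℝ) ^ 2 / L ^ (A + 1))
    (4 * κ ^ 2 * N' * (2 * L) ^ (2 * κ + 2)) hc hw
    (by
      refine le_trans ?_ hGn
      apply sum_le_sum_of_subset_of_nonneg (Icc_subset_Icc_right hQQ0)
      intro _ _ _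
      exact sum_nonneg fun r _ => sq_nonneg _)
  refine le_trans (le_of_eq ?_) (ht.trans ?_)
  · rfl
  have hA1 : 0 < L ^ (A + 1) := by positivity
  have hA6 : Real.exp (-l ^ 2) ≤ 1 / L ^ (A + 2 * κ + 4) := by
    rw [le_div_iff₀ (by positivity)]
    refine hpow (A + 2 * κ + 4) ?_
    push_cast
    linarith
  have hQX : (Q : ℝ) ≤ N * X := hQ
  set W : ℝ := (N : ℝ) ^ 2 / L ^ (A + 1) with hW
  have hW0 : 0 < W := by positivity
  have b1 : (Q : ℝ) * (4 * κ ^ 2 * N' * (2 * L) ^ (2 * κ + 2)) ≤ W := by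
    calc (Q : ℝ) * (4 * κ ^ 2 * N' * (2 * L) ^ (2 * κ + 2)) ≤
          (N * (1 / L ^ (A + 2 * κ + 4))) * (4 * κ ^ 2 * N' * (2 * L) ^ (2 * κ + 2)) := by
          apply mul_le_mul_of_nonneg_right _ (by positivity)
          exact hQX.trans (mul_le_mul_of_nonneg_left (hXl.trans hA6) hN0.le)
      _ = W * (4 * κ ^ 2 * (B' + 2) * 2 ^ (2 * κ + 2) / L) := by
          rw [hW, hN', show A + 2 * κ + 4 = (A + 1) + (2 * κ + 2) + 1 by ring, pow_add L (A + 1 + (2 * κ + 2)),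
            pow_add L (A + 1), mul_pow, pow_one]
          push_cast
          field_simp
      _ ≤ W * 1 := by
          apply mul_le_mul_of_nonneg_left _ hW0.le
          rw [div_le_one hL0]
          exact hLY
      _ = W := mul_one _
  have hu3 : u ≤ 3 * (N : ℝ) / L ^ (A + 2) := by
    have c1 : 8 * (N : ℝ) * L ^ (κ + 2) / z ≤ (N : ℝ) / L ^ (A + 2) := by
      rw [div_le_div_iff₀ hz0 (by positivity)]
      have : 8 * L ^ (κ + 2) * L ^ (A + 2) ≤ z := by
        refine le_trans ?_ hzA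
        rw [show A + κ + 10 = 6 + ((κ + 2) + (A + 2)) by ring, pow_add L 6, pow_add L (κ + 2), mul_assoc]
        have e4 : 8 ≤ L ^ 6 := by
          calc (8 : ℝ) ≤ L := by linarith
            _ ≤ L ^ 6 := le_self_pow₀ (by linarith) (by norm_num)
        exact mul_le_mul_of_nonneg_right e4 (by positivity)
      calc 8 * (N : ℝ) * L ^ (κ + 2) * L ^ (A + 2) = N * (8 * L ^ (κ + 2) * L ^ (A + 2)) := by ring
        _ ≤ N * z := mul_le_mul_of_nonneg_left this hN0.le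
    have c3 : 3 * (N : ℝ) / L ^ (A + 2) = (N : ℝ) / L ^ (A + 2) + (N : ℝ) / L ^ (A + 2) + (N : ℝ) / L ^ (A + 2) := by ring
    have c4 : 0 ≤ (N : ℝ) / L ^ (A + 2) := by positivity
    rw [hu, c3]
    linarith
  have hu0 : 0 ≤ u := by positivity
  have b3 : u ^ 2 * (1 + L) ≤ W := by
    calc u ^ 2 * (1 + L) ≤ (3 * (N : ℝ) / L ^ (A + 2)) ^ 2 * (2 * L) := by
          apply mul_le_mul (pow_le_pow_left₀ hu0 hu3 2) (by linarith) (by linarith) (by positivity)
      _ = W * (18 / L ^ (A + 2)) := by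
          rw [hW]
          rw [show A + 2 = (A + 1) + 1 by ring, pow_succ L (A + 1)]
          field_simp
          ring
      _ ≤ W * 1 := by
          apply mul_le_mul_of_nonneg_left _ hW0.le
          rw [div_le_one (by positivity)]
          calc (18 : ℝ) ≤ L := by linarith
            _ ≤ L ^ (A + 2) := le_self_pow₀ (by linarith) (by omega)
      _ = W := mul_one _
  have b4 : ((Q : ℝ) * v) ^ 2 ≤ W := by
    have d1 : (Q : ℝ) * v ≤ N * Real.exp (-l ^ 2) := by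
      calc (Q : ℝ) * v ≤ N * X * v := mul_le_mul_of_nonneg_right hQX (by linarith)
        _ = N * (X * v) := by ring
        _ = _ := by rw [hXv]
    have d2 : Real.exp (-l ^ 2) ≤ 1 := Real.exp_le_one_iff.2 (by linarith [sq_nonneg l])
    have d3 : Real.exp (-l ^ 2) ≤ 1 / L ^ (A + 1) := by
      refine hA6.trans ?_
      apply one_div_le_one_div_of_le hA1
      exact pow_le_pow_right₀ (by linarith) (by omega)
    calc ((Q : ℝ) * v) ^ 2 ≤ (N * Real.exp (-l ^ 2)) ^ 2 := pow_le_pow_left₀ (by positivity) d1 2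
      _ = N ^ 2 * (Real.exp (-l ^ 2) * Real.exp (-l ^ 2)) := by ring
      _ ≤ N ^ 2 * (1 / L ^ (A + 1) * 1) := by
          apply mul_le_mul_of_nonneg_left _ (by positivity)
          exact mul_le_mul d3 d2 (Real.exp_pos _).le (by positivity)
      _ = W := by rw [hW]; ring
  have hK4 : 4 * ((2 : ℝ) ^ κ * 2) ^ 2 * (4 * W) = 4 ^ (κ + 3) * W := by
    have : ((2 : ℝ) ^ κ) ^ 2 = 4 ^ κ := by
      rw [← pow_mul, mul_comm, pow_mul]
      norm_num
    rw [mul_pow, this, pow_add]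
    ring
  calc 4 * ((2 : ℝ) ^ κ * 2) ^ 2 * ((Q : ℝ) * (4 * κ ^ 2 * N' * (2 * L) ^ (2 * κ + 2)) + W + u ^ 2 * (1 + L) + (Q * v) ^ 2)
      ≤ 4 * ((2 : ℝ) ^ κ * 2) ^ 2 * (4 * W) := by
        apply mul_le_mul_of_nonneg_left _ (by positivity)
        linarith
    _ = 4 ^ (κ + 3) * W := hK4
    _ ≤ L * W := mul_le_mul_of_nonneg_right hL4 hW0.le
    _ = (N : ℝ) ^ 2 / L ^ A := by
        rw [hW, pow_succ L A]
        field_simp

theorem main : ∀ θ : ℝ, 0 ≤ θ → S_FBE θ → S_MTC → S_SRT → S_SLB → S_R19 θ := by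
  intro θ hθ hBo hM hR _ k p e A B' C hk hp he
  classical
  obtain ⟨E0, B1, hBo⟩ := hBo k p e (A + 1) B' C hp he
  obtain ⟨B2, N1, hkey⟩ := key (k + 1) A E0 B1 B' hM hR
  obtain ⟨N2, hBo⟩ := hBo (E0 + A + (k + 1) + 10 + 1)
  obtain ⟨N3, h5⟩ := R6c.evN (C + 2 * p * (A + 3)) 0 1 e 0 (k + k * k + 16 : ℝ) he
  refine ⟨B2 + 1, N1 + N2 + N3, fun N hN H x c s hH hc hs => ?_⟩
  obtain ⟨hN1, hL', -, -, -, hLe⟩ := h5 N (by omega)
  obtain ⟨z, Q0, hz1, hz2, hQ0, hkey⟩ := hkey N (by omega)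
  set L := Real.log N with hLdef
  have hk0 : (0 : ℝ) ≤ k := Nat.cast_nonneg _
  have hL16 : 16 ≤ L := by nlinarith
  have hLk : (k : ℝ) + k * k ≤ L := by linarith
  have hL1 : 1 ≤ L := by linarith
  have hL0 : 0 < L := by linarith
  have hN1r : (1 : ℝ) ≤ N := by exact_mod_cast hN1
  have hN0 : (0 : ℝ) < N := by linarith
  set Box := Fintype.piFinset (fun i => Icc 1 (x i)) with hBox
  -- an empty box
  by_cases hx : ∀ i, 1 ≤ x i
  swap
  · rw [not_forall] at hx
    obtain ⟨i, hi⟩ := hx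
    have hE : Box = ∅ := by
      rw [Finset.eq_empty_iff_forall_notMem]
      intro m hm
      rw [hBox, Fintype.mem_piFinset] at hm
      have h1 := mem_Icc.1 (hm i)
      omega
    rw [hE, filter_empty, card_empty, Nat.cast_zero]
    positivity
  -- multiplicities
  have hmult : ∀ i, ∀ v : ℤ, (((Icc 1 (x i)).filter (fun m => (s i m : ℤ) = v)).card : ℝ) ≤ 1 / L ^ (A + 3) * x i := by
    intro i v
    have h6 := Pool.Agent.H560R3.GB.mult_le p (x i) (s i) v
    have hHi : L ^ (C + 2 * p * (A + 3)) ≤ H i := by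
      have h7 : 2 * ((1 : ℕ) : ℝ) ^ 2 * L ^ (C + 2 * p * (A + 3)) ≤ (N : ℝ) ^ (1 / e : ℝ) := hLe
      have h8 : (N : ℝ) ^ (1 / e : ℝ) ≤ (N : ℝ) ^ (θ + 1 / e : ℝ) :=
        Real.rpow_le_rpow_of_exponent_le hN1r (by linarith)
      have h9 : 0 ≤ L ^ (C + 2 * p * (A + 3)) := by positivity
      rw [Nat.cast_one, one_pow, mul_one] at h7
      linarith [(hH i).1]
    have hHi0 : (0 : ℝ) < H i := lt_of_lt_of_le (by positivity) hHi
    have h7 : (Pool.Agent.H373R2.T7.energy p (x i) (fun m => (s i m : ℤ)) : ℝ) ≤ (1 / L ^ (A + 3) * x i) ^ (2 * p) := by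
      have h8 := (hs i).2
      rw [← le_div_iff₀ hHi0] at h8
      refine h8.trans ?_
      rw [div_le_iff₀ hHi0, mul_pow, div_pow, one_pow, ← pow_mul]
      have h10 : L ^ (C + 2 * p * (A + 3)) = L ^ C * L ^ ((A + 3) * (2 * p)) := by
        rw [← pow_add]; congr 1; ring
      rw [h10] at hHi
      have hp0 : 0 < L ^ ((A + 3) * (2 * p)) := by positivity
      have hx0 : 0 ≤ (x i : ℝ) ^ (2 * p) := by positivity
      calc L ^ C * (x i : ℝ) ^ (2 * p) = 1 / L ^ ((A + 3) * (2 * p)) * (x i : ℝ) ^ (2 * p) * (L ^ C * L ^ ((A + 3) * (2 * p))) := by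
            field_simp
        _ ≤ 1 / L ^ ((A + 3) * (2 * p)) * (x i : ℝ) ^ (2 * p) * H i :=
            mul_le_mul_of_nonneg_left hHi (by positivity)
    exact le_of_pow_le_pow_left₀ (by omega) (by positivity) (h6.trans h7)
  have hDeg := Pool.Agent.H560R3.GB.fdegenerate x s hx (1 / L ^ (A + 3)) (by positivity) hmult
  have hA := hBo N (by omega) H x (fun i => (c i : ℤ)) (fun i m => (s i m : ℤ)) hH
    (fun i => by
      rw [abs_of_nonneg (by omega)]
      exact_mod_cast hc i) hs z hz1 hz2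
  rw [← hBox] at hDeg hA
  set S1 := Box.filter (fun m => ¬ ∀ Q : ℕ, (Q : ℝ) * L ^ B1 ≤ N →
    ∀ y : ℕ → ℕ → ℕ, (∀ q r, y q r ≤ N) →
    ∑ q ∈ Icc 1 Q, ∑ r ∈ range q, (∑ n ∈ (Icc 1 (y q r)).filter (fun n => n % q = r),
      (lamI (n : ℤ) * ∏ i, lamI ((n : ℤ) + (s i (m i) : ℤ)) - lamzI z (n : ℤ) * ∏ i, lamzI z ((n : ℤ) + (s i (m i) : ℤ)))) ^ 2 ≤
      (N : ℝ) ^ 2 / L ^ (A + 1)) with hS1
  set S2 := Box.filter (fun m : Fin k → ℕ => (∃ i, (s i (m i) : ℤ) = 0) ∨
      ∃ i j, i ≠ j ∧ (s i (m i) : ℤ) = (s j (m j) : ℤ)) with hS2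
  have hsub : Box.filter (fun m => ¬ Good6 A (B2 + 1) N (Fin.cons 0 (fun i => s i (m i)) : Fin (k + 1) → ℕ)) ⊆ S1 ∪ S2 := by
    intro m hm
    rw [mem_filter] at hm
    rw [mem_union]
    by_contra hcon
    rw [not_or] at hcon
    obtain ⟨hn1, hn2⟩ := hcon
    rw [hS1, mem_filter, not_and, not_not] at hn1
    rw [hS2, mem_filter, not_and, not_or] at hn2
    have hn1 := hn1 hm.1
    obtain ⟨hq1, hq2⟩ := hn2 hm.1
    have hmB := Fintype.mem_piFinset.1 hm.1
    apply hm.2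
    refine hkey (Fin.cons 0 (fun i => s i (m i))) 0 (Fin.cons_zero _ _) ?_ ?_ ?_
    · intro i j hij
      refine Fin.cases ?_ (fun i => ?_) i hij
      · refine Fin.cases ?_ (fun j => ?_) j
        · intro _; rfl
        · intro h1
          rw [Fin.cons_zero, Fin.cons_succ] at h1
          exact absurd ⟨j, by rw [← h1]; rfl⟩ hq1
      · refine Fin.cases ?_ (fun j => ?_) j
        · intro h1
          rw [Fin.cons_zero, Fin.cons_succ] at h1
          exact absurd ⟨i, by rw [h1]; rfl⟩ hq1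
        · intro h1
          rw [Fin.cons_succ, Fin.cons_succ] at h1
          by_contra h2
          exact hq2 ⟨i, j, fun h3 => h2 (by rw [h3]), by rw [h1]⟩
    · refine Fin.cases ?_ (fun i => ?_)
      · rw [Fin.cons_zero]; exact Nat.zero_le _
      · rw [Fin.cons_succ]
        have h1 := ((hs i).1 (m i) (hmB i)).2
        have h2 := hc i
        have h3 : H i ≤ N := (hH i).2
        have h4 : (s i (m i) : ℤ) ≤ (c i : ℤ) + (H i : ℤ) := h1
        have h5 : (B' + 1) * N = B' * N + N := by ring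
        omega
    · intro y hy
      refine le_trans (le_of_eq ?_) (hn1 Q0 hQ0 y hy)
      unfold R6c.Ef
      simp only [Fin.prod_univ_succ, Fin.cons_zero, Fin.cons_succ, Nat.cast_zero, add_zero]
  have hcard : ((Box.filter (fun m => ¬ Good6 A (B2 + 1) N (Fin.cons 0 (fun i => s i (m i)) : Fin (k + 1) → ℕ))).card : ℝ) ≤
      S1.card + S2.card := by
    exact_mod_cast (card_le_card hsub).trans (card_union_le _ _)
  refine hcard.trans ((add_le_add hA hDeg).trans ?_)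
  have hprod : 0 < ∏ i, (x i : ℝ) := prod_pos fun i _ => by exact_mod_cast hx i
  set Q : ℝ := (∏ i, (x i : ℝ)) / L ^ A with hQ
  have hQ0 : 0 < Q := by positivity
  have e1 : (∏ i, (x i : ℝ)) / L ^ (A + 1) = Q * (1 / L) := by rw [hQ, pow_succ]; field_simp
  have e2 : ((k : ℝ) + k * k) * (1 / L ^ (A + 3) * ∏ i, (x i : ℝ)) = Q * ((k + k * k) / L ^ 3) := by rw [hQ, pow_add]; field_simp
  rw [e1, e2, ← mul_add]
  have h6 : 1 / L + ((k : ℝ) + k * k) / L ^ 3 ≤ 1 := by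
    have h7 : 1 / L ≤ 1 / 16 := one_div_le_one_div_of_le (by norm_num) hL16
    have h8 : ((k : ℝ) + k * k) / L ^ 3 ≤ 1 / 2 := by
      rw [div_le_iff₀ (by positivity)]
      have h9 : 2 * L ≤ L ^ 3 := by nlinarith [sq_nonneg (L - 1)]
      linarith
    linarith
  calc Q * _ ≤ Q * 1 := mul_le_mul_of_nonneg_left h6 hQ0.le
    _ = Q := mul_one _

end Pool.Agent.helper24_UT.R19
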