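import Pool.Agent.helper24_UT.Stm12

set_option autoImplicit false

namespace Pool.Agent.helper24_UT.R7

open Finset
open Pool.Agent.helper24_UT
open Pool.Agent.H373R2.T7 (lamI lamzI lamz Vz pz lamP)
open Pool.Agent.H807R2.Dav (ee)

lemma abel (a ρ : ℕ → ℝ) (D : ℝ) (T : ℕ) (hT : 2 ≤ T) (hD : ∀ t ∈ Icc 2 T, |∑ m ∈ Icc 2 t, a m| ≤ D) :
    |∑ m ∈ Icc 2 T, a m * ρ m| ≤ D * (|ρ T| + ∑ m ∈ Ico 2 T, |ρ (m + 1) - ρ m|) := by
  have key : ∀ T, 2 ≤ T → ∑ m ∈ Icc 2 T, a m * ρ m =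
      (∑ m ∈ Icc 2 T, a m) * ρ T - ∑ m ∈ Ico 2 T, (∑ j ∈ Icc 2 m, a j) * (ρ (m + 1) - ρ m) := by
    intro T hT
    induction T, hT using Nat.le_induction with
    | base => simp
    | succ T hT ih =>
      rw [sum_Icc_succ_top (by omega), sum_Icc_succ_top (by omega), sum_Ico_succ_top hT, ih]
      ring
  rw [key T hT]
  have h1 : |(∑ m ∈ Icc 2 T, a m) * ρ T| ≤ D * |ρ T| := by
    rw [abs_mul]
    exact mul_le_mul_of_nonneg_right (hD T (mem_Icc.2 ⟨hT, le_rfl⟩)) (abs_nonneg _)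
  have h2 : |∑ m ∈ Ico 2 T, (∑ j ∈ Icc 2 m, a j) * (ρ (m + 1) - ρ m)| ≤ D * ∑ m ∈ Ico 2 T, |ρ (m + 1) - ρ m| := by
    refine (abs_sum_le_sum_abs _ _).trans ?_
    rw [mul_sum]
    apply sum_le_sum
    intro m hm
    rw [mem_Ico] at hm
    rw [abs_mul]
    exact mul_le_mul_of_nonneg_right (hD m (mem_Icc.2 ⟨hm.1, by omega⟩)) (abs_nonneg _)
  calc _ ≤ |(∑ m ∈ Icc 2 T, a m) * ρ T| + |∑ m ∈ Ico 2 T, (∑ j ∈ Icc 2 m, a j) * (ρ (m + 1) - ρ m)| := abs_sub _ _
    _ ≤ _ := by rw [mul_add]; exact add_le_add h1 h2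

/-- the weight -/
noncomputable def rh (n m : ℕ) : ℝ := 1 / (Real.log m * Real.log ((n - m : ℕ) : ℝ))

lemma log_ge (m : ℕ) (hm : 2 ≤ m) : 1 / 2 ≤ Real.log m := by
  have h1 : Real.log 2 ≤ Real.log m := Real.log_le_log (by norm_num) (by exact_mod_cast hm)
  have h2 := Real.log_two_gt_d9
  linarith

lemma bv (n T : ℕ) (hT : 2 ≤ T) (hn : T + 2 ≤ n) : |rh n T| + ∑ m ∈ Ico 2 T, |rh n (m + 1) - rh n m| ≤ 12 := by
  set f : ℕ → ℝ := fun m => (Real.log m)⁻¹ with hf
  set g : ℕ → ℝ := fun m => (Real.log ((n - m : ℕ) : ℝ))⁻¹ with hg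
  have hr : ∀ m, rh n m = f m * g m := by
    intro m
    simp only [rh, hf, hg]
    rw [one_div, mul_inv]
  have f0 : ∀ m, 2 ≤ m → 0 ≤ f m := fun m hm => inv_nonneg.2 (by linarith [log_ge m hm])
  have f2 : ∀ m, 2 ≤ m → f m ≤ 2 := fun m hm => by
    have := log_ge m hm
    simp only [hf]
    rw [inv_le_comm₀ (by linarith) (by norm_num)]
    linarith
  have g0 : ∀ m, m ≤ T → 0 ≤ g m := fun m hm => inv_nonneg.2 (by linarith [log_ge (n - m) (by omega)])
  have g2 : ∀ m, m ≤ T → g m ≤ 2 := fun m hm => by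
    have := log_ge (n - m) (by omega)
    simp only [hg]
    rw [inv_le_comm₀ (by linarith) (by norm_num)]
    linarith
  have fd : ∀ m, 2 ≤ m → f (m + 1) ≤ f m := by
    intro m hm
    simp only [hf]
    have := log_ge m hm
    apply inv_anti₀ (by linarith)
    apply Real.log_le_log (by exact_mod_cast (by omega : 0 < m))
    exact_mod_cast (by omega : m ≤ m + 1)
  have gd : ∀ m, m + 1 ≤ T → g m ≤ g (m + 1) := by
    intro m hm
    simp only [hg]
    have := log_ge (n - (m + 1)) (by omega)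
    apply inv_anti₀ (by linarith)
    apply Real.log_le_log (by exact_mod_cast (by omega : 0 < n - (m + 1)))
    exact_mod_cast (by omega : n - (m + 1) ≤ n - m)
  have h1 : |rh n T| ≤ 4 := by
    rw [hr, abs_of_nonneg (mul_nonneg (f0 T hT) (g0 T le_rfl))]
    have := mul_le_mul (f2 T hT) (g2 T le_rfl) (g0 T le_rfl) (by norm_num)
    linarith
  have h2 : ∑ m ∈ Ico 2 T, |rh n (m + 1) - rh n m| ≤ ∑ m ∈ Ico 2 T, (2 * (f m - f (m + 1)) + 2 * (g (m + 1) - g m)) := by
    apply sum_le_sum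
    intro m hm
    rw [mem_Ico] at hm
    rw [hr, hr]
    have e : f (m + 1) * g (m + 1) - f m * g m = -((f m - f (m + 1)) * g (m + 1)) + f m * (g (m + 1) - g m) := by ring
    rw [e]
    refine (abs_add_le _ _).trans ?_
    rw [abs_neg, abs_of_nonneg (mul_nonneg (by linarith [fd m hm.1]) (g0 (m + 1) (by omega))),
      abs_of_nonneg (mul_nonneg (f0 m hm.1) (by linarith [gd m (by omega)]))]
    apply add_le_add
    · rw [mul_comm]
      exact mul_le_mul_of_nonneg_right (g2 (m + 1) (by omega)) (by linarith [fd m hm.1])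
    · exact mul_le_mul_of_nonneg_right (f2 m hm.1) (by linarith [gd m (by omega)])
  have h3 : ∑ m ∈ Ico 2 T, (2 * (f m - f (m + 1)) + 2 * (g (m + 1) - g m)) = 2 * (f 2 - f T) + 2 * (g T - g 2) := by
    rw [sum_add_distrib, ← mul_sum, ← mul_sum]
    have e1 : ∑ m ∈ Ico 2 T, (f m - f (m + 1)) = f 2 - f T := by
      rw [← neg_sub (f T) (f 2), ← sum_Ico_sub f hT, ← sum_neg_distrib]
      exact sum_congr rfl fun m _ => by ring
    have e2 : ∑ m ∈ Ico 2 T, (g (m + 1) - g m) = g T - g 2 := sum_Ico_sub g hT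
    rw [e1, e2]
  have := f2 2 le_rfl
  have := f0 T hT
  have := g2 T le_rfl
  have := g0 2 hT
  linarith

/-- prime pairs in a class -/
noncomputable def PP (n q r t : ℕ) : ℝ := ∑ m ∈ (Icc 1 t).filter (fun m => m % q = r), lamP (m : ℤ) * lamP ((n : ℤ) - m)

lemma cntG_eq (n q r y : ℕ) :
    (cntG n q r y : ℝ) = ∑ m ∈ Icc 2 (min y (n - 2)), (if m % q = r then lamP (m : ℤ) * lamP ((n : ℤ) - m) else 0) * rh n m := by
  unfold cntG
  rw [card_filter]
  push_cast
  have hsub : Icc 2 (min y (n - 2)) ⊆ Icc 1 y := by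
    intro m hm
    rw [mem_Icc] at hm ⊢
    omega
  rw [← sum_subset hsub]
  · apply sum_congr rfl
    intro m hm
    rw [mem_Icc] at hm
    have hmn : m + 2 ≤ n := by omega
    have e1 : ((n : ℤ) - m).toNat = n - m := by omega
    unfold lamP rh
    rw [Int.toNat_natCast, e1]
    by_cases h1 : m % q = r
    · by_cases h2 : m.Prime
      · by_cases h3 : (n - m).Prime
        · rw [if_pos ⟨h1, h2, by omega, h3⟩, if_pos h1, if_pos h2, if_pos h3]
          have l1 := log_ge m hm.1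
          have l2 := log_ge (n - m) (by omega)
          have : Real.log m ≠ 0 := by linarith
          have : Real.log ((n - m : ℕ) : ℝ) ≠ 0 := by linarith
          field_simp
        · rw [if_neg (fun h => h3 h.2.2.2), if_pos h1, if_neg h3, mul_zero, zero_mul]
      · rw [if_neg (fun h => h2 h.2.1), if_pos h1, if_neg h2, zero_mul, zero_mul]
    · rw [if_neg (fun h => h1 h.1), if_neg h1, zero_mul]
  · intro m hm hm2
    rw [if_neg]
    rintro ⟨_, h2, h3, h4⟩
    apply hm2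
    rw [mem_Icc] at hm ⊢
    have := h2.two_le
    have := h4.two_le
    omega

lemma cnt_le (n q r y : ℕ) (c D : ℝ) (hD : ∀ t, t ≤ y → t < n → |PP n q r t - t * c| ≤ D) (hD0 : 0 ≤ D) :
    |(cntG n q r y : ℝ) - c * expG n y| ≤ 12 * (D + |c|) := by
  set T := min y (n - 2) with hTdef
  have e1 : (cntG n q r y : ℝ) - c * expG n y =
      ∑ m ∈ Icc 2 T, ((if m % q = r then lamP (m : ℤ) * lamP ((n : ℤ) - m) else 0) - c) * rh n m := by
    rw [cntG_eq]
    unfold expG
    rw [mul_sum, ← sum_sub_distrib]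
    apply sum_congr rfl
    intro m _
    unfold rh
    ring
  rw [e1]
  rcases lt_or_ge T 2 with hT | hT
  · rw [Icc_eq_empty (by omega), sum_empty, abs_zero]
    have := abs_nonneg c
    linarith
  have hTn : T + 2 ≤ n := by omega
  have h1 : ∀ t ∈ Icc 2 T, |∑ m ∈ Icc 2 t, ((if m % q = r then lamP (m : ℤ) * lamP ((n : ℤ) - m) else 0) - c)| ≤ D + |c| := by
    intro t ht
    rw [mem_Icc] at ht
    have e2 : ∑ m ∈ Icc 2 t, ((if m % q = r then lamP (m : ℤ) * lamP ((n : ℤ) - m) else 0) - c) = (PP n q r t - t * c) + c := by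
      rw [sum_sub_distrib]
      have e3 : ∑ m ∈ Icc 2 t, (if m % q = r then lamP (m : ℤ) * lamP ((n : ℤ) - m) else 0) = PP n q r t := by
        unfold PP
        rw [sum_filter]
        apply sum_subset
        · intro m hm
          rw [mem_Icc] at hm ⊢
          omega
        · intro m hm hm2
          rw [mem_Icc] at hm hm2
          have : m = 1 := by omega
          subst this
          have : lamP ((1 : ℕ) : ℤ) = 0 := by
            unfold lamP
            rw [Int.toNat_natCast, if_neg Nat.not_prime_one]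
          rw [this, zero_mul, ite_self]
      rw [e3, sum_const, Nat.card_Icc, nsmul_eq_mul]
      have : ((t + 1 - 2 : ℕ) : ℝ) = (t : ℝ) - 1 := by
        rw [Nat.cast_sub (by omega)]
        push_cast
        ring
      rw [this]
      ring
    rw [e2]
    exact (abs_add_le _ _).trans (add_le_add (hD t (by omega) (by omega)) le_rfl)
  have h2 := abel _ (rh n) _ T hT h1
  have h3 := bv n T hT hTn
  have := abs_nonneg c
  calc _ ≤ _ := h2
    _ ≤ (D + |c|) * 12 := mul_le_mul_of_nonneg_left h3 (by linarith)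
    _ = _ := by ring


/-- the loss from replacing von Mangoldt by the primes -/
noncomputable def ww (n q r : ℕ) : ℝ := ∑ m ∈ (Icc 1 (n - 1)).filter (fun m => m % q = r),
  (lamI (m : ℤ) * lamI ((n : ℤ) - m) - lamP (m : ℤ) * lamP ((n : ℤ) - m))

lemma term_nonneg (n m : ℕ) : 0 ≤ lamI (m : ℤ) * lamI ((n : ℤ) - m) - lamP (m : ℤ) * lamP ((n : ℤ) - m) := by
  have h1 := Pool.Agent.H373R2.T7.lamP_le (m : ℤ)
  have h2 := Pool.Agent.H373R2.T7.lamP_le ((n : ℤ) - m)
  have h3 := Pool.Agent.H373R2.T7.lamP_nonneg (m : ℤ)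
  have h4 := Pool.Agent.H373R2.T7.lamP_nonneg ((n : ℤ) - m)
  have := mul_le_mul h1 h2 h4 (h3.trans h1)
  linarith

lemma ww_nonneg (n q r : ℕ) : 0 ≤ ww n q r := sum_nonneg fun m _ => term_nonneg n m

lemma pp_le (n q r t : ℕ) (ht : t < n) :
    |PP n q r t - ∑ m ∈ (Icc 1 t).filter (fun m => m % q = r), lamI (m : ℤ) * lamI ((n : ℤ) - m)| ≤ ww n q r := by
  unfold PP ww
  rw [abs_sub_comm, ← sum_sub_distrib, abs_of_nonneg (sum_nonneg fun m _ => term_nonneg n m)]
  apply sum_le_sum_of_subset_of_nonneg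
  · apply filter_subset_filter
    apply Icc_subset_Icc_right
    omega
  · intro m _ _
    exact term_nonneg n m

lemma ww_sum (n N q : ℕ) (hN : 1 ≤ N) (hn : n ≤ N) (hq : 1 ≤ q) :
    ∑ r ∈ range q, ww n q r ^ 2 ≤ 16 * N * Real.log N ^ 4 := by
  have hL : 0 ≤ Real.log N := Real.log_natCast_nonneg N
  have hN1 : (1 : ℝ) ≤ N := by exact_mod_cast hN
  have h1 : ∑ r ∈ range q, ww n q r ^ 2 ≤ (∑ r ∈ range q, ww n q r) ^ 2 :=
    sum_sq_le_sq_sum_of_nonneg (fun r _ => ww_nonneg n q r)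
  have h2 : ∑ r ∈ range q, ww n q r = ∑ m ∈ Icc 1 (n - 1), (lamI (m : ℤ) * lamI ((n : ℤ) - m) - lamP (m : ℤ) * lamP ((n : ℤ) - m)) := by
    unfold ww
    rw [sum_fiberwise_of_maps_to]
    intro m _
    rw [mem_range]
    exact Nat.mod_lt _ (by omega)
  have h3 : ∑ m ∈ Icc 1 (n - 1), (lamI (m : ℤ) - lamP (m : ℤ)) ≤ 2 * √(N : ℝ) * Real.log N := by
    have := Pool.Agent.H373R2.T7.pp_sum (n - 1) N 0 hN (fun m hm => by rw [mem_Icc] at hm; omega)
    simpa using this
  have h4 : ∑ m ∈ Icc 1 (n - 1), (lamI ((n : ℤ) - m) - lamP ((n : ℤ) - m)) = ∑ m ∈ Icc 1 (n - 1), (lamI (m : ℤ) - lamP (m : ℤ)) := by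
    apply sum_nbij' (fun m => n - m) (fun m => n - m)
    · intro m hm
      rw [mem_Icc] at hm ⊢
      omega
    · intro m hm
      rw [mem_Icc] at hm ⊢
      omega
    · intro m hm
      rw [mem_Icc] at hm
      omega
    · intro m hm
      rw [mem_Icc] at hm
      omega
    · intro m hm
      rw [mem_Icc] at hm
      have : ((n - m : ℕ) : ℤ) = (n : ℤ) - m := by omega
      rw [this]
  have h5 : ∀ m ∈ Icc 1 (n - 1), lamI (m : ℤ) * lamI ((n : ℤ) - m) - lamP (m : ℤ) * lamP ((n : ℤ) - m) ≤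
      Real.log N * ((lamI (m : ℤ) - lamP (m : ℤ)) + (lamI ((n : ℤ) - m) - lamP ((n : ℤ) - m))) := by
    intro m hm
    rw [mem_Icc] at hm
    have a1 := Pool.Agent.H373R2.T7.lamI_le ((n : ℤ) - m) N hN1 (by
      have : (n : ℤ) - m ≤ N := by omega
      exact_mod_cast this)
    have a2 := Pool.Agent.H373R2.T7.lamI_le (m : ℤ) N hN1 (by
      have : (m : ℤ) ≤ N := by omega
      exact_mod_cast this)
    have b1 := Pool.Agent.H373R2.T7.lamP_le (m : ℤ)
    have b2 := Pool.Agent.H373R2.T7.lamP_le ((n : ℤ) - m)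
    have e : lamI (m : ℤ) * lamI ((n : ℤ) - m) - lamP (m : ℤ) * lamP ((n : ℤ) - m) =
      (lamI (m : ℤ) - lamP (m : ℤ)) * lamI ((n : ℤ) - m) + lamP (m : ℤ) * (lamI ((n : ℤ) - m) - lamP ((n : ℤ) - m)) := by ring
    rw [e, mul_add]
    apply add_le_add
    · rw [mul_comm]
      exact mul_le_mul_of_nonneg_right a1 (by linarith)
    · exact mul_le_mul_of_nonneg_right (b1.trans a2) (by linarith)
  have h6 : ∑ r ∈ range q, ww n q r ≤ 4 * √(N : ℝ) * Real.log N ^ 2 := by
    rw [h2]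
    refine (sum_le_sum h5).trans ?_
    rw [← mul_sum, sum_add_distrib, h4]
    calc Real.log N * (∑ m ∈ Icc 1 (n - 1), (lamI (m : ℤ) - lamP (m : ℤ)) + ∑ m ∈ Icc 1 (n - 1), (lamI (m : ℤ) - lamP (m : ℤ)))
        ≤ Real.log N * (2 * √(N : ℝ) * Real.log N + 2 * √(N : ℝ) * Real.log N) := mul_le_mul_of_nonneg_left (by linarith) hL
      _ = _ := by ring
  refine h1.trans ?_
  calc (∑ r ∈ range q, ww n q r) ^ 2 ≤ (4 * √(N : ℝ) * Real.log N ^ 2) ^ 2 :=
        pow_le_pow_left₀ (sum_nonneg fun r _ => ww_nonneg n q r) h6 2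
    _ = 16 * (√(N : ℝ)) ^ 2 * Real.log N ^ 4 := by ring
    _ = _ := by rw [Real.sq_sqrt (by positivity)]

/-- the difference of the sums -/
noncomputable def Ef (z n q r t : ℕ) : ℝ := ∑ m ∈ (Icc 1 t).filter (fun m => m % q = r),
  (lamI (m : ℤ) * lamI ((n : ℤ) - m) - lamzI z (m : ℤ) * lamzI z ((n : ℤ) - m))

lemma lamzI_eq (z : ℕ) (m : ℤ) (hm : 1 ≤ m) : lamzI z m = lz z m := by
  unfold lamzI lz lamz
  rw [if_pos hm]
  have : (∀ p ∈ pz z, ¬ p ∣ m.toNat) ↔ ∀ p ∈ pz z, ¬ (p : ℤ) ∣ m := by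
    constructor
    · intro h p hp hd
      apply h p hp
      rw [← Int.natCast_dvd_natCast, Int.toNat_of_nonneg (by omega)]
      exact hd
    · intro h p hp hd
      apply h p hp
      rw [← Int.natCast_dvd_natCast, Int.toNat_of_nonneg (by omega)] at hd
      exact hd
  by_cases h : ∀ p ∈ pz z, ¬ p ∣ m.toNat
  · rw [if_pos h, if_pos (this.1 h)]
  · rw [if_neg h, if_neg (fun h' => h (this.2 h'))]

lemma model_sum (z n q r t : ℕ) (ht : t < n) :
    ∑ m ∈ (Icc 1 t).filter (fun m => m % q = r), lamzI z (m : ℤ) * lamzI z ((n : ℤ) - m) =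
    ∑ m ∈ (Icc 1 t).filter (fun m => m % q = r), ∏ i, lz z (sG i * m + hG n i) := by
  apply sum_congr rfl
  intro m hm
  rw [mem_filter, mem_Icc] at hm
  rw [Fin.prod_univ_two, lamzI_eq z m (by omega), lamzI_eq z _ (by omega)]
  simp only [sG, hG, Matrix.cons_val_zero, Matrix.cons_val_one]
  congr 2
  · ring
  · ring

lemma gz_nonneg {k : ℕ} (z : ℕ) (σ h : Fin k → ℤ) (q r : ℕ) : 0 ≤ gz z σ h q r := by
  unfold gz
  split_ifs
  · exact le_rfl
  · apply mul_nonneg (pow_nonneg (inv_nonneg.2 (Pool.Agent.H373R2.T7.Vz_pos z).le) _)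
    apply prod_nonneg
    intro p hp
    rw [mem_filter, Pool.Agent.H373R2.T7.mem_pz] at hp
    have hp0 : (0 : ℝ) < p := by exact_mod_cast hp.1.2.pos
    rw [sub_nonneg, div_le_one hp0]
    unfold nuf
    exact_mod_cast (card_filter_le _ _).trans (by rw [card_range])

lemma gz_le {k : ℕ} (z : ℕ) (σ h : Fin k → ℤ) (q r : ℕ) : gz z σ h q r ≤ ((Vz z)⁻¹) ^ k := by
  have hV : 0 ≤ ((Vz z)⁻¹) ^ k := pow_nonneg (inv_nonneg.2 (Pool.Agent.H373R2.T7.Vz_pos z).le) _
  unfold gz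
  split_ifs
  · exact hV
  · have : ∏ p ∈ (pz z).filter (fun p => ¬ p ∣ q), (1 - (nuf σ h p : ℝ) / p) ≤ 1 := by
      apply prod_le_one
      · intro p hp
        rw [mem_filter, Pool.Agent.H373R2.T7.mem_pz] at hp
        have hp0 : (0 : ℝ) < p := by exact_mod_cast hp.1.2.pos
        rw [sub_nonneg, div_le_one hp0]
        unfold nuf
        exact_mod_cast (card_filter_le _ _).trans (by rw [card_range])
      · intro p _
        have : (0 : ℝ) ≤ (nuf σ h p : ℝ) / p := by positivity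
        linarith
    calc _ ≤ ((Vz z)⁻¹) ^ k * 1 := mul_le_mul_of_nonneg_left this hV
      _ = _ := mul_one _

lemma pt (N z n q r t : ℕ) (L V W c g : ℝ) (hq : 1 ≤ q) (hr : r < q) (hn : n ≤ N) (ht : t < n)
    (hM : |∑ m ∈ (Icc 1 t).filter (fun m => m % q = r % q), ∏ i, lz z (sG i * m + hG n i) - (t : ℝ) / q * g| ≤ (N : ℝ) / q / V + W)
    (hg : |g - q * c| ≤ L) :
    |PP n q r t - t * c| ≤ ww n q r + |Ef z n q r t| + ((N : ℝ) / q / V + W) + (N : ℝ) / q * L := by
  have hq0 : (0 : ℝ) < q := by exact_mod_cast hq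
  have h1 := pp_le n q r t ht
  have h2 : Ef z n q r t = ∑ m ∈ (Icc 1 t).filter (fun m => m % q = r), lamI (m : ℤ) * lamI ((n : ℤ) - m) -
      ∑ m ∈ (Icc 1 t).filter (fun m => m % q = r), ∏ i, lz z (sG i * m + hG n i) := by
    unfold Ef
    rw [sum_sub_distrib, model_sum z n q r t ht]
  rw [Nat.mod_eq_of_lt hr] at hM
  have h3 : |(t : ℝ) / q * g - t * c| ≤ (N : ℝ) / q * L := by
    have e : (t : ℝ) / q * g - t * c = (t : ℝ) / q * (g - q * c) := by
      field_simp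
    rw [e, abs_mul, abs_of_nonneg (by positivity)]
    have htN : (t : ℝ) ≤ N := by exact_mod_cast (by omega : t ≤ N)
    have hL : 0 ≤ L := (abs_nonneg _).trans hg
    exact mul_le_mul (div_le_div_of_nonneg_right htN hq0.le) hg (abs_nonneg _) (by positivity)
  have e : PP n q r t - t * c = (PP n q r t - ∑ m ∈ (Icc 1 t).filter (fun m => m % q = r), lamI (m : ℤ) * lamI ((n : ℤ) - m)) +
      Ef z n q r t + (∑ m ∈ (Icc 1 t).filter (fun m => m % q = r), ∏ i, lz z (sG i * m + hG n i) - (t : ℝ) / q * g) +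
      ((t : ℝ) / q * g - t * c) := by
    rw [h2]; ring
  rw [e]
  refine (abs_add_le _ _).trans (add_le_add ((abs_add_le _ _).trans (add_le_add ((abs_add_le _ _).trans (add_le_add h1 le_rfl)) hM)) h3)

lemma sum_inv_le (Q N : ℕ) (hQ : Q ≤ N) : ∑ q ∈ Icc 1 Q, 1 / (q : ℝ) ≤ 1 + Real.log N := by
  have h1 : ∑ q ∈ Icc 1 Q, 1 / (q : ℝ) ≤ ∑ q ∈ Icc 1 N, 1 / (q : ℝ) :=
    sum_le_sum_of_subset_of_nonneg (Icc_subset_Icc_right hQ) (fun _ _ _ => by positivity)
  refine h1.trans ?_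
  have h2 : ∑ n ∈ Icc 1 N, 1 / (n : ℝ) = ((harmonic N : ℚ) : ℝ) := by
    rw [harmonic_eq_sum_Icc]
    push_cast
    simp
  rw [h2]
  exact harmonic_le_one_add_log N

/-- summing up -/
lemma total (N Q n : ℕ) (hN : 1 ≤ N) (hn : n ≤ N) (hQ : Q ≤ N) (F : ℕ → ℕ → Finset ℕ) (hF : ∀ n q, F n q ⊆ range q)
    (x E : ℕ → ℕ → ℝ) (u v G : ℝ) 
    (hx : ∀ q ∈ Icc 1 Q, ∀ r ∈ F n q, |x q r| ≤ 12 * (ww n q r + |E q r| + u / q + v))
    (hE : ∑ q ∈ Icc 1 Q, ∑ r ∈ range q, E q r ^ 2 ≤ G) :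
    ∑ q ∈ Icc 1 Q, ∑ r ∈ F n q, x q r ^ 2 ≤
      576 * (Q * (16 * N * Real.log N ^ 4) + G + u ^ 2 * (1 + Real.log N) + (Q * v) ^ 2) := by
  have h1 : ∑ q ∈ Icc 1 Q, ∑ r ∈ F n q, x q r ^ 2 ≤
      ∑ q ∈ Icc 1 Q, ∑ r ∈ range q, 576 * (ww n q r ^ 2 + E q r ^ 2 + (u / q) ^ 2 + v ^ 2) := by
    apply sum_le_sum
    intro q hq
    calc ∑ r ∈ F n q, x q r ^ 2 ≤ ∑ r ∈ F n q, 576 * (ww n q r ^ 2 + E q r ^ 2 + (u / q) ^ 2 + v ^ 2) := by
          apply sum_le_sum
          intro r hr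
          have h := hx q hq r hr
          have h0 := abs_nonneg (x q r)
          have e1 : x q r ^ 2 = |x q r| ^ 2 := (sq_abs _).symm
          have e2 : E q r ^ 2 = |E q r| ^ 2 := (sq_abs _).symm
          rw [e1, e2]
          refine (pow_le_pow_left₀ h0 h 2).trans ?_
          set a := ww n q r
          set b := |E q r|
          set d := u / q
          nlinarith [sq_nonneg (a - b), sq_nonneg (a - d), sq_nonneg (a - v), sq_nonneg (b - d), sq_nonneg (b - v), sq_nonneg (d - v)]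
      _ ≤ _ := sum_le_sum_of_subset_of_nonneg (hF n q) (fun _ _ _ => by positivity)
  refine h1.trans ?_
  have h2 : ∑ q ∈ Icc 1 Q, ∑ r ∈ range q, 576 * (ww n q r ^ 2 + E q r ^ 2 + (u / q) ^ 2 + v ^ 2) =
      576 * (∑ q ∈ Icc 1 Q, ∑ r ∈ range q, ww n q r ^ 2 + ∑ q ∈ Icc 1 Q, ∑ r ∈ range q, E q r ^ 2 +
        ∑ q ∈ Icc 1 Q, (q : ℝ) * (u / q) ^ 2 + ∑ q ∈ Icc 1 Q, (q : ℝ) * v ^ 2) := by
    rw [← sum_add_distrib, ← sum_add_distrib, ← sum_add_distrib, mul_sum]
    apply sum_congr rfl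
    intro q _
    rw [← mul_sum, sum_add_distrib, sum_add_distrib, sum_add_distrib, sum_const, sum_const, card_range, nsmul_eq_mul, nsmul_eq_mul]
  rw [h2]
  apply mul_le_mul_of_nonneg_left _ (by norm_num)
  have a1 : ∑ q ∈ Icc 1 Q, ∑ r ∈ range q, ww n q r ^ 2 ≤ Q * (16 * N * Real.log N ^ 4) := by
    calc _ ≤ ∑ q ∈ Icc 1 Q, (16 * N * Real.log N ^ 4) := sum_le_sum fun q hq => ww_sum n N q hN hn (mem_Icc.1 hq).1
      _ = _ := by rw [sum_const, Nat.card_Icc, nsmul_eq_mul, Nat.add_sub_cancel]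
  have a3 : ∑ q ∈ Icc 1 Q, (q : ℝ) * (u / q) ^ 2 ≤ u ^ 2 * (1 + Real.log N) := by
    calc ∑ q ∈ Icc 1 Q, (q : ℝ) * (u / q) ^ 2 = ∑ q ∈ Icc 1 Q, u ^ 2 * (1 / (q : ℝ)) := by
          apply sum_congr rfl
          intro q hq
          have : (q : ℝ) ≠ 0 := by
            have := (mem_Icc.1 hq).1
            positivity
          field_simp
      _ = u ^ 2 * ∑ q ∈ Icc 1 Q, (1 / (q : ℝ)) := by rw [mul_sum]
      _ ≤ _ := mul_le_mul_of_nonneg_left (sum_inv_le Q N hQ) (by positivity)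
  have a4 : ∑ q ∈ Icc 1 Q, (q : ℝ) * v ^ 2 ≤ (Q * v) ^ 2 := by
    calc ∑ q ∈ Icc 1 Q, (q : ℝ) * v ^ 2 ≤ ∑ q ∈ Icc 1 Q, (Q : ℝ) * v ^ 2 := by
          apply sum_le_sum
          intro q hq
          have : (q : ℝ) ≤ Q := by exact_mod_cast (mem_Icc.1 hq).2
          exact mul_le_mul_of_nonneg_right this (by positivity)
      _ = _ := by rw [sum_const, Nat.card_Icc, nsmul_eq_mul, Nat.add_sub_cancel]; ring
  linarith

lemma evN (A B1 : ℕ) : ∃ N5 : ℕ, ∀ N : ℕ, N5 ≤ N → 1 ≤ N ∧ 2304 ≤ Real.log N ∧ (A + B1 + 10 : ℝ) ≤ Real.log (Real.log N) ∧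
    2 * Real.log N ^ (A + 4) ≤ N := by
  have hlim : Filter.Tendsto (fun N : ℕ => Real.log (N : ℝ)) Filter.atTop Filter.atTop :=
    Real.tendsto_log_atTop.comp (tendsto_natCast_atTop_atTop (R := ℝ))
  have h1 := hlim.eventually_ge_atTop 2304
  have h2 := (Real.tendsto_log_atTop.comp hlim).eventually_ge_atTop (A + B1 + 10 : ℝ)
  have h3 : ∀ᶠ N : ℕ in Filter.atTop, 2 * Real.log N ^ (A + 4) ≤ N := by
    have h4 := (tendsto_natCast_atTop_atTop (R := ℝ)).eventually
      ((Real.isLittleO_pow_log_id_atTop (n := A + 4)).bound (show (0 : ℝ) < 1 / 2 by norm_num))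
    filter_upwards [h4, hlim.eventually_ge_atTop 1] with N h5 h6
    simp only [id] at h5
    rw [Real.norm_of_nonneg (by positivity), Real.norm_of_nonneg (by positivity)] at h5
    linarith
  obtain ⟨N0, h0⟩ := Filter.eventually_atTop.1 ((Filter.eventually_ge_atTop 1).and (h1.and (h2.and h3)))
  exact ⟨N0, fun N hN => h0 N hN⟩

theorem main : ∀ θ : ℝ, 0 ≤ θ → S_GOE θ → S_MTC → S_SRT → S_SLB → S_R7 θ := by
  intro θ _ hGo hM hR _ e A he
  classical
  obtain ⟨E0, B1, hGo⟩ := hGo e (2 * A + 1) he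
  obtain ⟨B2, N2, hM⟩ := hM 2 (E0 + A + 10 + 1) (A + 2)
  obtain ⟨N1, hGo⟩ := hGo (E0 + A + 10 + 1)
  obtain ⟨N3, hR⟩ := hR 2
  obtain ⟨N4, hV⟩ := Pool.Agent.H373R2.T7.Vz_inv_small (E0 + A + 10 + 1)
  obtain ⟨N5, h5⟩ := evN A B1
  refine ⟨B2 + 1, N1 + N2 + N3 + N4 + N5, fun N hN M H hH hMH => ?_⟩
  obtain ⟨hN1, hL, hl, hLN⟩ := h5 N (by omega)
  set L := Real.log N with hLdef
  set l := Real.log L with hldef
  have hL0 : 0 < L := by linarith
  have hN0 : (0 : ℝ) < N := by exact_mod_cast hN1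
  have hle : Real.exp l = L := Real.exp_log hL0
  -- the level
  set z : ℕ := ⌈L ^ (E0 + A + 10)⌉₊ with hzdef
  have hz1 : L ^ (E0 + A + 10) ≤ z := Nat.le_ceil _
  have hz2 : (z : ℝ) ≤ L ^ (E0 + A + 10 + 1) := by
    have h1 : (z : ℝ) < L ^ (E0 + A + 10) + 1 := Nat.ceil_lt_add_one (by positivity)
    have h2 : 1 ≤ L ^ (E0 + A + 10) := one_le_pow₀ (by linarith)
    rw [pow_succ]
    nlinarith
  have hzE : L ^ E0 ≤ z := (pow_le_pow_right₀ (by linarith) (by omega)).trans hz1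
  have hz3 : L ^ 3 ≤ z := (pow_le_pow_right₀ (by linarith) (by omega)).trans hz1
  have hzA : L ^ (A + 10) ≤ z := (pow_le_pow_right₀ (by linarith) (by omega)).trans hz1
  have hz0 : (0 : ℝ) < z := lt_of_lt_of_le (by positivity) hz3
  have hz1' : 1 ≤ z := by exact_mod_cast hz0
  have hVL : (Vz z)⁻¹ ≤ L := hV N (by omega) z hz1' hz2
  have hV0 : 0 ≤ (Vz z)⁻¹ := inv_nonneg.2 (Pool.Agent.H373R2.T7.Vz_pos z).le
  -- the exponentials
  set X : ℝ := Real.exp (-(((B2 + 1 : ℕ) : ℝ) * l ^ 2)) with hX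
  set v : ℝ := Real.exp (B2 * l ^ 2) with hv
  have hXv : X * v = Real.exp (-l ^ 2) := by
    rw [hX, hv, ← Real.exp_add]
    congr 1
    push_cast
    ring
  have hv1 : 1 ≤ v := Real.one_le_exp (by positivity)
  have hX0 : 0 < X := Real.exp_pos _
  have hXl : X ≤ Real.exp (-l ^ 2) := by
    rw [← hXv]
    nlinarith
  have hpow : ∀ k : ℕ, (k : ℝ) ≤ l → Real.exp (-l ^ 2) * L ^ k ≤ 1 := by
    intro k hk
    have e1 : L ^ k = Real.exp (k * l) := by rw [Real.exp_nat_mul, hle]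
    rw [e1, ← Real.exp_add]
    apply Real.exp_le_one_iff.2
    have hl0 : 0 ≤ l := by
      have : (0 : ℝ) ≤ A + B1 + 10 := by positivity
      linarith
    nlinarith
  have hX1 : X ≤ 1 := by
    have := hpow 0 (by push_cast; have : (0 : ℝ) ≤ A + B1 + 10 := by positivity
                       linarith)
    rw [pow_zero, mul_one] at this
    linarith
  -- the maximal moduli
  set Q0 : ℕ := ⌊(N : ℝ) * X⌋₊ with hQ0
  have hQ0X : (Q0 : ℝ) ≤ N * X := Nat.floor_le (by positivity)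
  have hQ0B : (Q0 : ℝ) * L ^ B1 ≤ N := by
    have h1 : X * L ^ B1 ≤ 1 := by
      refine le_trans ?_ (hpow B1 (by have : (0 : ℝ) ≤ A := by positivity
                                      linarith))
      exact mul_le_mul_of_nonneg_right hXl (by positivity)
    calc (Q0 : ℝ) * L ^ B1 ≤ N * X * L ^ B1 := mul_le_mul_of_nonneg_right hQ0X (by positivity)
      _ = N * (X * L ^ B1) := by ring
      _ ≤ N * 1 := mul_le_mul_of_nonneg_left h1 hN0.le
      _ = N := mul_one _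
  -- worst initial segments
  have hmax : ∀ n q r : ℕ, ∃ t : ℕ, t ≤ N ∧ ∀ t' ≤ N, |Ef z n q r t'| ≤ |Ef z n q r t| := by
    intro n q r
    obtain ⟨t, ht, h⟩ := exists_max_image (range (N + 1)) (fun t => |Ef z n q r t|) ⟨0, by simp⟩
    exact ⟨t, by rw [mem_range] at ht; omega, fun t' ht' => h t' (by rw [mem_range]; omega)⟩
  choose ts hts hmax using hmax
  have hGG := hGo N (by omega) M H hH hMH z hzE hz2 Q0 hQ0B ts hts
  set G : ℕ → ℝ := fun n => ∑ q ∈ Icc 1 Q0, ∑ r ∈ range q, Ef z n q r (ts n q r) ^ 2 with hGdef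
  have hGG' : ∑ n ∈ Ioc M N, G n ≤ (H : ℝ) * (N : ℝ) ^ 2 / L ^ (2 * A + 1) := hGG
  have hG0 : ∀ n, 0 ≤ G n := fun n => sum_nonneg fun q _ => sum_nonneg fun r _ => sq_nonneg _
  -- the good numbers
  have hgood : ∀ n ∈ Ioc M N, G n ≤ (N : ℝ) ^ 2 / L ^ (A + 1) → Good7 A (B2 + 1) N n := by
    intro n hn hGn Q hQ y hy
    rw [mem_Ioc] at hn
    have hn1 : 1 ≤ n := by omega
    have hQQ0 : Q ≤ Q0 := Nat.le_floor hQ
    have hQN : Q ≤ N := by
      have : (Q : ℝ) ≤ N := by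
        refine hQ.trans ?_
        calc (N : ℝ) * X ≤ N * 1 := mul_le_mul_of_nonneg_left hX1 hN0.le
          _ = N := mul_one _
      exact_mod_cast this
    set u : ℝ := (N : ℝ) / L ^ (A + 2) + 2 * N * L ^ 4 / z + 2 * L ^ 2 with hu
    have hc : ∀ q ∈ Icc 1 Q, ∀ r ∈ (range q).filter (fun r : ℕ => r.Coprime q ∧ Int.gcd ((n : ℤ) - r) q = 1),
        |(cntG n q r (y q r) : ℝ) - sers sG (hG n) / phf sG (hG n) q * expG n (y q r)| ≤
        12 * (ww n q r + |Ef z n q r (ts n q r)| + u / q + v) := by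
      intro q hq r hr
      rw [mem_Icc] at hq
      rw [mem_filter, mem_range] at hr
      obtain ⟨hr1, hr2, hr3⟩ := hr
      have hq0 : (0 : ℝ) < q := by exact_mod_cast hq.1
      have hσ : ∀ i, sG i = 1 ∨ sG i = -1 := by
        rw [Fin.forall_fin_two]
        simp [sG]
      have hh : ∀ i, |hG n i| ≤ (N : ℤ) := by
        rw [Fin.forall_fin_two]
        simp only [hG, Matrix.cons_val_zero, Matrix.cons_val_one, abs_zero]
        refine ⟨by omega, ?_⟩
        rw [abs_of_nonneg (by omega)]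
        omega
      have hne : ∀ i j, i ≠ j → sG i * hG n j ≠ sG j * hG n i := by
        rw [Fin.forall_fin_two]
        rw [Fin.forall_fin_two, Fin.forall_fin_two]
        simp only [sG, hG, Matrix.cons_val_zero, Matrix.cons_val_one]
        refine ⟨⟨fun h => absurd rfl h, fun _ => by omega⟩, fun _ => by omega, fun h => absurd rfl h⟩
      have hgcd : ∀ i, Int.gcd (sG i * r + hG n i) q = 1 := by
        rw [Fin.forall_fin_two]
        simp only [sG, hG, Matrix.cons_val_zero, Matrix.cons_val_one]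
        constructor
        · rw [one_mul, add_zero, Int.gcd_natCast_natCast]
          exact hr2
        · rw [show (-1 : ℤ) * r + n = (n : ℤ) - r by ring]
          exact hr3
      obtain ⟨hs0, hp0, hgs⟩ := hR N (by omega) sG (hG n) hσ hh hne z hz3 q r hq.1 (by omega) hgcd
      have hp0' : (0 : ℝ) < phf sG (hG n) q := by exact_mod_cast hp0
      set g := gz z sG (hG n) q r with hg
      set c : ℝ := sers sG (hG n) / phf sG (hG n) q with hc
      have hqc : sers sG (hG n) * ((q : ℝ) / phf sG (hG n) q) = q * c := by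
        rw [hc]
        field_simp
      have hc0 : 0 ≤ c := div_nonneg hs0 hp0'.le
      rw [hqc] at hgs
      have hz2L : L ^ 2 / z ≤ 1 / 2 := by
        rw [div_le_iff₀ hz0]
        nlinarith [sq_nonneg L]
      have hg2 : g ≤ L ^ 2 := by
        refine (gz_le z sG (hG n) q r).trans ?_
        exact pow_le_pow_left₀ hV0 hVL 2
      have hs2 : q * c ≤ 2 * L ^ 2 := by
        have h1 : q * c * (L ^ 2 / z) ≤ q * c * (1 / 2) := mul_le_mul_of_nonneg_left hz2L (by positivity)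
        have h2 := (abs_le.1 hgs).1
        linarith
      have hgs2 : |g - q * c| ≤ 2 * L ^ 2 * (L ^ 2 / z) :=
        hgs.trans (mul_le_mul_of_nonneg_right hs2 (by positivity))
      have hD : ∀ t, t ≤ y q r → t < n → |PP n q r t - t * c| ≤
          ww n q r + |Ef z n q r (ts n q r)| + ((N : ℝ) / q / L ^ (A + 2) + v) + (N : ℝ) / q * (2 * L ^ 2 * (L ^ 2 / z)) := by
        intro t _ htn
        have h1 := hM N (by omega) z hz1' hz2 sG (hG n) hσ q r t hq.1 (by omega)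
        have h2 := pt N z n q r t (2 * L ^ 2 * (L ^ 2 / z)) (L ^ (A + 2)) v c g hq.1 hr1 hn.2 htn h1 hgs2
        have h3 := hmax n q r t (by omega)
        linarith
      have hD0 : 0 ≤ ww n q r + |Ef z n q r (ts n q r)| + ((N : ℝ) / q / L ^ (A + 2) + v) + (N : ℝ) / q * (2 * L ^ 2 * (L ^ 2 / z)) :=
        (abs_nonneg _).trans (hD 0 (Nat.zero_le _) (by omega))
      refine (cnt_le n q r (y q r) c _ hD hD0).trans ?_
      apply mul_le_mul_of_nonneg_left _ (by norm_num)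
      have hcq : |c| ≤ 2 * L ^ 2 / q := by
        rw [abs_of_nonneg hc0, le_div_iff₀ hq0, mul_comm]
        exact hs2
      have hu2 : u / q = (N : ℝ) / q / L ^ (A + 2) + (N : ℝ) / q * (2 * L ^ 2 * (L ^ 2 / z)) + 2 * L ^ 2 / q := by
        rw [hu]
        field_simp
      rw [hu2]
      linarith
    have ht := total N Q n hN1 hn.2 hQN
      (fun n q => (range q).filter (fun r : ℕ => r.Coprime q ∧ Int.gcd ((n : ℤ) - r) q = 1)) (fun n q => filter_subset _ _)
      (fun q r => (cntG n q r (y q r) : ℝ) - sers sG (hG n) / phf sG (hG n) q * expG n (y q r))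
      (fun q r => Ef z n q r (ts n q r)) u v ((N : ℝ) ^ 2 / L ^ (A + 1)) hc
      (by
        refine le_trans ?_ hGn
        apply sum_le_sum_of_subset_of_nonneg (Icc_subset_Icc_right hQQ0)
        intro _ _ _
        exact sum_nonneg fun r _ => sq_nonneg _)
    refine ht.trans ?_
    have hA1 : 0 < L ^ (A + 1) := by positivity
    have hA6 : Real.exp (-l ^ 2) ≤ 1 / L ^ (A + 6) := by
      rw [le_div_iff₀ (by positivity)]
      refine hpow (A + 6) ?_
      push_cast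
      have : (0 : ℝ) ≤ B1 := by positivity
      linarith
    have hQX : (Q : ℝ) ≤ N * X := hQ
    set W : ℝ := (N : ℝ) ^ 2 / L ^ (A + 1) with hW
    have hW0 : 0 < W := by positivity
    have b1 : (Q : ℝ) * (16 * N * L ^ 4) ≤ W := by
      calc (Q : ℝ) * (16 * N * L ^ 4) ≤ (N * (1 / L ^ (A + 6))) * (16 * N * L ^ 4) := by
            apply mul_le_mul_of_nonneg_right _ (by positivity)
            exact hQX.trans (mul_le_mul_of_nonneg_left (hXl.trans hA6) hN0.le)
        _ = W * (16 / L) := by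
            rw [hW]
            rw [show A + 6 = (A + 1) + 5 by ring, pow_add]
            field_simp
        _ ≤ W * 1 := by
            apply mul_le_mul_of_nonneg_left _ hW0.le
            rw [div_le_one hL0]
            linarith
        _ = W := mul_one _
    have hu3 : u ≤ 3 * (N : ℝ) / L ^ (A + 2) := by
      have c1 : 2 * (N : ℝ) * L ^ 4 / z ≤ (N : ℝ) / L ^ (A + 2) := by
        rw [div_le_div_iff₀ hz0 (by positivity)]
        have : 2 * L ^ 4 * L ^ (A + 2) ≤ z := by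
          refine le_trans ?_ hzA
          rw [show A + 10 = 4 + (4 + (A + 2)) by ring, pow_add L 4, pow_add L 4]
          have e4 : 2 ≤ L ^ 4 := by
            calc (2 : ℝ) ≤ 2304 := by norm_num
              _ ≤ L := hL
              _ ≤ L ^ 4 := le_self_pow₀ (by linarith) (by norm_num)
          have e5 : 0 ≤ L ^ 4 * L ^ (A + 2) := by positivity
          nlinarith
        nlinarith
      have c2 : 2 * L ^ 2 ≤ (N : ℝ) / L ^ (A + 2) := by
        rw [le_div_iff₀ (by positivity)]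
        refine le_trans (le_of_eq ?_) hLN
        rw [show A + 4 = 2 + (A + 2) by ring, pow_add]
        ring
      have c3 : 3 * (N : ℝ) / L ^ (A + 2) = (N : ℝ) / L ^ (A + 2) + (N : ℝ) / L ^ (A + 2) + (N : ℝ) / L ^ (A + 2) := by ring
      rw [hu, c3]
      linarith
    have hu0 : 0 ≤ u := by positivity
    have b3 : u ^ 2 * (1 + L) ≤ W := by
      calc u ^ 2 * (1 + L) ≤ (3 * (N : ℝ) / L ^ (A + 2)) ^ 2 * (2 * L) := by
            apply mul_le_mul (pow_le_pow_left₀ hu0 hu3 2) (by linarith) (by linarith) (by positivity)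
        _ = W * (18 / L ^ (A + 2)) := by
            rw [hW]
            rw [show A + 2 = (A + 1) + 1 by ring, pow_succ L (A + 1)]
            field_simp
            ring
        _ ≤ W * 1 := by
            apply mul_le_mul_of_nonneg_left _ hW0.le
            rw [div_le_one (by positivity)]
            calc (18 : ℝ) ≤ L := by linarith
              _ ≤ L ^ (A + 2) := le_self_pow₀ (by linarith) (by omega)
        _ = W := mul_one _
    have b4 : ((Q : ℝ) * v) ^ 2 ≤ W := by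
      have d1 : (Q : ℝ) * v ≤ N * Real.exp (-l ^ 2) := by
        calc (Q : ℝ) * v ≤ N * X * v := mul_le_mul_of_nonneg_right hQX (by linarith)
          _ = N * (X * v) := by ring
          _ = _ := by rw [hXv]
      have d2 : Real.exp (-l ^ 2) ≤ 1 := Real.exp_le_one_iff.2 (by nlinarith [sq_nonneg l])
      have d3 : Real.exp (-l ^ 2) ≤ 1 / L ^ (A + 1) := by
        refine hA6.trans ?_
        apply one_div_le_one_div_of_le hA1
        exact pow_le_pow_right₀ (by linarith) (by omega)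
      calc ((Q : ℝ) * v) ^ 2 ≤ (N * Real.exp (-l ^ 2)) ^ 2 := pow_le_pow_left₀ (by positivity) d1 2
        _ = N ^ 2 * (Real.exp (-l ^ 2) * Real.exp (-l ^ 2)) := by ring
        _ ≤ N ^ 2 * (1 / L ^ (A + 1) * 1) := by
            apply mul_le_mul_of_nonneg_left _ (by positivity)
            exact mul_le_mul d3 d2 (Real.exp_pos _).le (by positivity)
        _ = W := by rw [hW]; ring
    calc 576 * ((Q : ℝ) * (16 * N * L ^ 4) + W + u ^ 2 * (1 + L) + (Q * v) ^ 2) ≤ 576 * (W + W + W + W) := by linarith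
      _ = 2304 * W := by ring
      _ ≤ L * W := mul_le_mul_of_nonneg_right hL hW0.le
      _ = (N : ℝ) ^ 2 / L ^ A := by
          rw [hW, pow_succ L A]
          field_simp
  -- Markov
  have hsub : (Ioc M N).filter (fun n => ¬ Good7 A (B2 + 1) N n) ⊆ (Ioc M N).filter (fun n => (N : ℝ) ^ 2 / L ^ (A + 1) < G n) := by
    intro n hn
    rw [mem_filter] at hn ⊢
    refine ⟨hn.1, ?_⟩
    by_contra h
    exact hn.2 (hgood n hn.1 (not_lt.1 h))
  have hmk : (((Ioc M N).filter (fun n => (N : ℝ) ^ 2 / L ^ (A + 1) < G n)).card : ℝ) * ((N : ℝ) ^ 2 / L ^ (A + 1)) ≤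
      (H : ℝ) * (N : ℝ) ^ 2 / L ^ (2 * A + 1) := by
    refine le_trans ?_ hGG'
    rw [← nsmul_eq_mul, ← sum_const]
    calc _ ≤ ∑ n ∈ (Ioc M N).filter (fun n => (N : ℝ) ^ 2 / L ^ (A + 1) < G n), G n :=
          sum_le_sum fun n hn => (mem_filter.1 hn).2.le
      _ ≤ _ := sum_le_sum_of_subset_of_nonneg (filter_subset _ _) (fun n _ _ => hG0 n)
  have hcard : (((Ioc M N).filter (fun n => ¬ Good7 A (B2 + 1) N n)).card : ℝ) ≤
      (((Ioc M N).filter (fun n => (N : ℝ) ^ 2 / L ^ (A + 1) < G n)).card : ℝ) := by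
    exact_mod_cast card_le_card hsub
  have hfin : (((Ioc M N).filter (fun n => (N : ℝ) ^ 2 / L ^ (A + 1) < G n)).card : ℝ) ≤ (H : ℝ) / L ^ A := by
    have hpos : 0 < (N : ℝ) ^ 2 / L ^ (A + 1) := by positivity
    rw [← mul_le_mul_iff_left₀ hpos]
    refine hmk.trans (le_of_eq ?_)
    rw [show 2 * A + 1 = A + (A + 1) by ring, pow_add]
    field_simp
  convert hcard.trans hfin using 3

end Pool.Agent.helper24_UT.R7
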