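import Pool.Agent.helper24_UT.Stm17
import Pool.Agent.helper24_UT.R7

set_option autoImplicit false

namespace Pool.Agent.helper24_UT.R20

open Finset
open Pool.Agent.helper24_UT
open Pool.Agent.H373R2.T7 (lamI lamzI lamz Vz pz lamP)
open Pool.Agent.H807R2.Dav (ee)
open Pool.Agent.helper24_UT.R7 (evN total Ef PP pt cnt_le gz_le)

theorem main : ∀ θ : ℝ, 0 ≤ θ → S_FGE θ → S_MTC → S_SRT → S_SLB → S_R20 θ := by
  intro θ _ hGo hM hR _ p e A C hp he
  classical
  obtain ⟨E0, B1, hGo⟩ := hGo p e (A + 1) 1 C hp he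
  obtain ⟨B2, N2, hM⟩ := hM 2 (E0 + A + 10 + 1) (A + 2)
  obtain ⟨N1, hGo⟩ := hGo (E0 + A + 10 + 1)
  obtain ⟨N3, hR⟩ := hR 2
  obtain ⟨N4, hV⟩ := Pool.Agent.H373R2.T7.Vz_inv_small (E0 + A + 10 + 1)
  obtain ⟨N5, h5⟩ := evN A B1
  refine ⟨B2 + 1, N1 + N2 + N3 + N4 + N5, fun N hN H x c s hH hMH hF => ?_⟩
  obtain ⟨hN1, hL, hl, hLN⟩ := h5 N (by omega)
  set L := Real.log N with hLdef
  set l := Real.log L with hldef
  have hL0 : 0 < L := by linarith
  have hN0 : (0 : ℝ) < N := by exact_mod_cast hN1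
  have hle : Real.exp l = L := Real.exp_log hL0
  -- the level
  set z : ℕ := ⌈L ^ (E0 + A + 10)⌉₊ with hzdef
  have hz1 : L ^ (E0 + A + 10) ≤ z := Nat.le_ceil _
  have hz2 : (z : ℝ) ≤ L ^ (E0 + A + 10 + 1) := by
    have h1 : (z : ℝ) < L ^ (E0 + A + 10) + 1 := Nat.ceil_lt_add_one (by positivity)
    have h2 : 1 ≤ L ^ (E0 + A + 10) := one_le_pow₀ (by linarith)
    rw [pow_succ]
    nlinarith
  have hzE : L ^ E0 ≤ z := (pow_le_pow_right₀ (by linarith) (by omega)).trans hz1
  have hz3 : L ^ 3 ≤ z := (pow_le_pow_right₀ (by linarith) (by omega)).trans hz1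
  have hzA : L ^ (A + 10) ≤ z := (pow_le_pow_right₀ (by linarith) (by omega)).trans hz1
  have hz0 : (0 : ℝ) < z := lt_of_lt_of_le (by positivity) hz3
  have hz1' : 1 ≤ z := by exact_mod_cast hz0
  have hVL : (Vz z)⁻¹ ≤ L := hV N (by omega) z hz1' hz2
  have hV0 : 0 ≤ (Vz z)⁻¹ := inv_nonneg.2 (Pool.Agent.H373R2.T7.Vz_pos z).le
  -- the exponentials
  set X : ℝ := Real.exp (-(((B2 + 1 : ℕ) : ℝ) * l ^ 2)) with hX
  set v : ℝ := Real.exp (B2 * l ^ 2) with hv
  have hXv : X * v = Real.exp (-l ^ 2) := by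
    rw [hX, hv, ← Real.exp_add]
    congr 1
    push_cast
    ring
  have hv1 : 1 ≤ v := Real.one_le_exp (by positivity)
  have hX0 : 0 < X := Real.exp_pos _
  have hXl : X ≤ Real.exp (-l ^ 2) := by
    rw [← hXv]
    nlinarith
  have hpow : ∀ k : ℕ, (k : ℝ) ≤ l → Real.exp (-l ^ 2) * L ^ k ≤ 1 := by
    intro k hk
    have e1 : L ^ k = Real.exp (k * l) := by rw [Real.exp_nat_mul, hle]
    rw [e1, ← Real.exp_add]
    apply Real.exp_le_one_iff.2
    have hl0 : 0 ≤ l := by
      have : (0 : ℝ) ≤ A + B1 + 10 := by positivity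
      linarith
    nlinarith
  have hX1 : X ≤ 1 := by
    have := hpow 0 (by push_cast; have : (0 : ℝ) ≤ A + B1 + 10 := by positivity
                       linarith)
    rw [pow_zero, mul_one] at this
    linarith
  -- the maximal moduli
  set Q0 : ℕ := ⌊(N : ℝ) * X⌋₊ with hQ0
  have hQ0X : (Q0 : ℝ) ≤ N * X := Nat.floor_le (by positivity)
  have hQ0B : (Q0 : ℝ) * L ^ B1 ≤ N := by
    have h1 : X * L ^ B1 ≤ 1 := by
      refine le_trans ?_ (hpow B1 (by have : (0 : ℝ) ≤ A := by positivity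
                                      linarith))
      exact mul_le_mul_of_nonneg_right hXl (by positivity)
    calc (Q0 : ℝ) * L ^ B1 ≤ N * X * L ^ B1 := mul_le_mul_of_nonneg_right hQ0X (by positivity)
      _ = N * (X * L ^ B1) := by ring
      _ ≤ N * 1 := mul_le_mul_of_nonneg_left h1 hN0.le
      _ = N := mul_one _
  -- worst initial segments
  have hmax : ∀ n q r : ℕ, ∃ t : ℕ, t ≤ N ∧ ∀ t' ≤ N, |Ef z n q r t'| ≤ |Ef z n q r t| := by
    intro n q r
    obtain ⟨t, ht, h⟩ := exists_max_image (range (N + 1)) (fun t => |Ef z n q r t|) ⟨0, by simp⟩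
    exact ⟨t, by rw [mem_range] at ht; omega, fun t' ht' => h t' (by rw [mem_range]; omega)⟩
  choose ts hts hmax using hmax
  have hGG := hGo N (by omega) H x (c : ℤ) (fun m => (s m : ℤ)) hH (by omega)
    (by rw [abs_of_nonneg (by omega)]; push_cast; omega) hF z hzE hz2
  set G : ℕ → ℝ := fun n => ∑ q ∈ Icc 1 Q0, ∑ r ∈ range q, Ef z n q r (ts n q r) ^ 2 with hGdef
  -- the good numbers
  have hgood : ∀ n, 1 ≤ n ∧ n ≤ N → G n ≤ (N : ℝ) ^ 2 / L ^ (A + 1) → Good7 A (B2 + 1) N n := by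
    intro n hn hGn Q hQ y hy
    have hn1 : 1 ≤ n := by omega
    have hQQ0 : Q ≤ Q0 := Nat.le_floor hQ
    have hQN : Q ≤ N := by
      have : (Q : ℝ) ≤ N := by
        refine hQ.trans ?_
        calc (N : ℝ) * X ≤ N * 1 := mul_le_mul_of_nonneg_left hX1 hN0.le
          _ = N := mul_one _
      exact_mod_cast this
    set u : ℝ := (N : ℝ) / L ^ (A + 2) + 2 * N * L ^ 4 / z + 2 * L ^ 2 with hu
    have hc : ∀ q ∈ Icc 1 Q, ∀ r ∈ (range q).filter (fun r : ℕ => r.Coprime q ∧ Int.gcd ((n : ℤ) - r) q = 1),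
        |(cntG n q r (y q r) : ℝ) - sers sG (hG n) / phf sG (hG n) q * expG n (y q r)| ≤
        12 * (R7.ww n q r + |Ef z n q r (ts n q r)| + u / q + v) := by
      intro q hq r hr
      rw [mem_Icc] at hq
      rw [mem_filter, mem_range] at hr
      obtain ⟨hr1, hr2, hr3⟩ := hr
      have hq0 : (0 : ℝ) < q := by exact_mod_cast hq.1
      have hσ : ∀ i, sG i = 1 ∨ sG i = -1 := by
        rw [Fin.forall_fin_two]
        simp [sG]
      have hh : ∀ i, |hG n i| ≤ (N : ℤ) := by
        rw [Fin.forall_fin_two]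
        simp only [hG, Matrix.cons_val_zero, Matrix.cons_val_one, abs_zero]
        refine ⟨by omega, ?_⟩
        rw [abs_of_nonneg (by omega)]
        omega
      have hne : ∀ i j, i ≠ j → sG i * hG n j ≠ sG j * hG n i := by
        rw [Fin.forall_fin_two]
        rw [Fin.forall_fin_two, Fin.forall_fin_two]
        simp only [sG, hG, Matrix.cons_val_zero, Matrix.cons_val_one]
        refine ⟨⟨fun h => absurd rfl h, fun _ => by omega⟩, fun _ => by omega, fun h => absurd rfl h⟩
      have hgcd : ∀ i, Int.gcd (sG i * r + hG n i) q = 1 := by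
        rw [Fin.forall_fin_two]
        simp only [sG, hG, Matrix.cons_val_zero, Matrix.cons_val_one]
        constructor
        · rw [one_mul, add_zero, Int.gcd_natCast_natCast]
          exact hr2
        · rw [show (-1 : ℤ) * r + n = (n : ℤ) - r by ring]
          exact hr3
      obtain ⟨hs0, hp0, hgs⟩ := hR N (by omega) sG (hG n) hσ hh hne z hz3 q r hq.1 (by omega) hgcd
      have hp0' : (0 : ℝ) < phf sG (hG n) q := by exact_mod_cast hp0
      set g := gz z sG (hG n) q r with hg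
      set c : ℝ := sers sG (hG n) / phf sG (hG n) q with hc
      have hqc : sers sG (hG n) * ((q : ℝ) / phf sG (hG n) q) = q * c := by
        rw [hc]
        field_simp
      have hc0 : 0 ≤ c := div_nonneg hs0 hp0'.le
      rw [hqc] at hgs
      have hz2L : L ^ 2 / z ≤ 1 / 2 := by
        rw [div_le_iff₀ hz0]
        nlinarith [sq_nonneg L]
      have hg2 : g ≤ L ^ 2 := by
        refine (gz_le z sG (hG n) q r).trans ?_
        exact pow_le_pow_left₀ hV0 hVL 2
      have hs2 : q * c ≤ 2 * L ^ 2 := by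
        have h1 : q * c * (L ^ 2 / z) ≤ q * c * (1 / 2) := mul_le_mul_of_nonneg_left hz2L (by positivity)
        have h2 := (abs_le.1 hgs).1
        linarith
      have hgs2 : |g - q * c| ≤ 2 * L ^ 2 * (L ^ 2 / z) :=
        hgs.trans (mul_le_mul_of_nonneg_right hs2 (by positivity))
      have hD : ∀ t, t ≤ y q r → t < n → |PP n q r t - t * c| ≤
          R7.ww n q r + |Ef z n q r (ts n q r)| + ((N : ℝ) / q / L ^ (A + 2) + v) + (N : ℝ) / q * (2 * L ^ 2 * (L ^ 2 / z)) := by
        intro t _ htn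
        have h1 := hM N (by omega) z hz1' hz2 sG (hG n) hσ q r t hq.1 (by omega)
        have h2 := pt N z n q r t (2 * L ^ 2 * (L ^ 2 / z)) (L ^ (A + 2)) v c g hq.1 hr1 hn.2 htn h1 hgs2
        have h3 := hmax n q r t (by omega)
        linarith
      have hD0 : 0 ≤ R7.ww n q r + |Ef z n q r (ts n q r)| + ((N : ℝ) / q / L ^ (A + 2) + v) + (N : ℝ) / q * (2 * L ^ 2 * (L ^ 2 / z)) :=
        (abs_nonneg _).trans (hD 0 (Nat.zero_le _) (by omega))
      refine (cnt_le n q r (y q r) c _ hD hD0).trans ?_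
      apply mul_le_mul_of_nonneg_left _ (by norm_num)
      have hcq : |c| ≤ 2 * L ^ 2 / q := by
        rw [abs_of_nonneg hc0, le_div_iff₀ hq0, mul_comm]
        exact hs2
      have hu2 : u / q = (N : ℝ) / q / L ^ (A + 2) + (N : ℝ) / q * (2 * L ^ 2 * (L ^ 2 / z)) + 2 * L ^ 2 / q := by
        rw [hu]
        field_simp
      rw [hu2]
      linarith
    have ht := total N Q n hN1 hn.2 hQN
      (fun n q => (range q).filter (fun r : ℕ => r.Coprime q ∧ Int.gcd ((n : ℤ) - r) q = 1)) (fun n q => filter_subset _ _)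
      (fun q r => (cntG n q r (y q r) : ℝ) - sers sG (hG n) / phf sG (hG n) q * expG n (y q r))
      (fun q r => Ef z n q r (ts n q r)) u v ((N : ℝ) ^ 2 / L ^ (A + 1)) hc
      (by
        refine le_trans ?_ hGn
        apply sum_le_sum_of_subset_of_nonneg (Icc_subset_Icc_right hQQ0)
        intro _ _ _
        exact sum_nonneg fun r _ => sq_nonneg _)
    refine ht.trans ?_
    have hA1 : 0 < L ^ (A + 1) := by positivity
    have hA6 : Real.exp (-l ^ 2) ≤ 1 / L ^ (A + 6) := by
      rw [le_div_iff₀ (by positivity)]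
      refine hpow (A + 6) ?_
      push_cast
      have : (0 : ℝ) ≤ B1 := by positivity
      linarith
    have hQX : (Q : ℝ) ≤ N * X := hQ
    set W : ℝ := (N : ℝ) ^ 2 / L ^ (A + 1) with hW
    have hW0 : 0 < W := by positivity
    have b1 : (Q : ℝ) * (16 * N * L ^ 4) ≤ W := by
      calc (Q : ℝ) * (16 * N * L ^ 4) ≤ (N * (1 / L ^ (A + 6))) * (16 * N * L ^ 4) := by
            apply mul_le_mul_of_nonneg_right _ (by positivity)
            exact hQX.trans (mul_le_mul_of_nonneg_left (hXl.trans hA6) hN0.le)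
        _ = W * (16 / L) := by
            rw [hW]
            rw [show A + 6 = (A + 1) + 5 by ring, pow_add]
            field_simp
        _ ≤ W * 1 := by
            apply mul_le_mul_of_nonneg_left _ hW0.le
            rw [div_le_one hL0]
            linarith
        _ = W := mul_one _
    have hu3 : u ≤ 3 * (N : ℝ) / L ^ (A + 2) := by
      have c1 : 2 * (N : ℝ) * L ^ 4 / z ≤ (N : ℝ) / L ^ (A + 2) := by
        rw [div_le_div_iff₀ hz0 (by positivity)]
        have : 2 * L ^ 4 * L ^ (A + 2) ≤ z := by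
          refine le_trans ?_ hzA
          rw [show A + 10 = 4 + (4 + (A + 2)) by ring, pow_add L 4, pow_add L 4]
          have e4 : 2 ≤ L ^ 4 := by
            calc (2 : ℝ) ≤ 2304 := by norm_num
              _ ≤ L := hL
              _ ≤ L ^ 4 := le_self_pow₀ (by linarith) (by norm_num)
          have e5 : 0 ≤ L ^ 4 * L ^ (A + 2) := by positivity
          nlinarith
        nlinarith
      have c2 : 2 * L ^ 2 ≤ (N : ℝ) / L ^ (A + 2) := by
        rw [le_div_iff₀ (by positivity)]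
        refine le_trans (le_of_eq ?_) hLN
        rw [show A + 4 = 2 + (A + 2) by ring, pow_add]
        ring
      have c3 : 3 * (N : ℝ) / L ^ (A + 2) = (N : ℝ) / L ^ (A + 2) + (N : ℝ) / L ^ (A + 2) + (N : ℝ) / L ^ (A + 2) := by ring
      rw [hu, c3]
      linarith
    have hu0 : 0 ≤ u := by positivity
    have b3 : u ^ 2 * (1 + L) ≤ W := by
      calc u ^ 2 * (1 + L) ≤ (3 * (N : ℝ) / L ^ (A + 2)) ^ 2 * (2 * L) := by
            apply mul_le_mul (pow_le_pow_left₀ hu0 hu3 2) (by linarith) (by linarith) (by positivity)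
        _ = W * (18 / L ^ (A + 2)) := by
            rw [hW]
            rw [show A + 2 = (A + 1) + 1 by ring, pow_succ L (A + 1)]
            field_simp
            ring
        _ ≤ W * 1 := by
            apply mul_le_mul_of_nonneg_left _ hW0.le
            rw [div_le_one (by positivity)]
            calc (18 : ℝ) ≤ L := by linarith
              _ ≤ L ^ (A + 2) := le_self_pow₀ (by linarith) (by omega)
        _ = W := mul_one _
    have b4 : ((Q : ℝ) * v) ^ 2 ≤ W := by
      have d1 : (Q : ℝ) * v ≤ N * Real.exp (-l ^ 2) := by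
        calc (Q : ℝ) * v ≤ N * X * v := mul_le_mul_of_nonneg_right hQX (by linarith)
          _ = N * (X * v) := by ring
          _ = _ := by rw [hXv]
      have d2 : Real.exp (-l ^ 2) ≤ 1 := Real.exp_le_one_iff.2 (by nlinarith [sq_nonneg l])
      have d3 : Real.exp (-l ^ 2) ≤ 1 / L ^ (A + 1) := by
        refine hA6.trans ?_
        apply one_div_le_one_div_of_le hA1
        exact pow_le_pow_right₀ (by linarith) (by omega)
      calc ((Q : ℝ) * v) ^ 2 ≤ (N * Real.exp (-l ^ 2)) ^ 2 := pow_le_pow_left₀ (by positivity) d1 2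
        _ = N ^ 2 * (Real.exp (-l ^ 2) * Real.exp (-l ^ 2)) := by ring
        _ ≤ N ^ 2 * (1 / L ^ (A + 1) * 1) := by
            apply mul_le_mul_of_nonneg_left _ (by positivity)
            exact mul_le_mul d3 d2 (Real.exp_pos _).le (by positivity)
        _ = W := by rw [hW]; ring
    calc 576 * ((Q : ℝ) * (16 * N * L ^ 4) + W + u ^ 2 * (1 + L) + (Q * v) ^ 2) ≤ 576 * (W + W + W + W) := by linarith
      _ = 2304 * W := by ring
      _ ≤ L * W := mul_le_mul_of_nonneg_right hL hW0.le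
      _ = (N : ℝ) ^ 2 / L ^ A := by
          rw [hW, pow_succ L A]
          field_simp
  -- the members of the family
  have hsub : (Icc 1 x).filter (fun m => ¬ Good7 A (B2 + 1) N (s m)) ⊆
      (Icc 1 x).filter (fun m => ¬ ∀ Q : ℕ, (Q : ℝ) * L ^ B1 ≤ N → ∀ y : ℕ → ℕ → ℕ,
        (∀ q r, y q r ≤ N) → ∑ q ∈ Icc 1 Q, ∑ r ∈ range q,
          (∑ n ∈ (Icc 1 (y q r)).filter (fun n => n % q = r),
            (lamI (n : ℤ) * lamI (((s m : ℕ) : ℤ) - n) - lamzI z (n : ℤ) * lamzI z (((s m : ℕ) : ℤ) - n))) ^ 2 ≤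
          (N : ℝ) ^ 2 / L ^ (A + 1)) := by
    intro m hm
    rw [mem_filter] at hm ⊢
    refine ⟨hm.1, fun h => hm.2 ?_⟩
    have hs : (c : ℤ) < ((s m : ℕ) : ℤ) ∧ ((s m : ℕ) : ℤ) ≤ (c : ℤ) + H := hF.1 m hm.1
    refine hgood (s m) ⟨by omega, by omega⟩ ?_
    exact h Q0 hQ0B (ts (s m)) (hts (s m))
  have hcard : (((Icc 1 x).filter (fun m => ¬ Good7 A (B2 + 1) N (s m))).card : ℝ) ≤
      (x : ℝ) / L ^ (A + 1) := by
    refine le_trans ?_ hGG
    refine le_trans (Nat.cast_le.2 (card_le_card hsub)) (le_of_eq ?_)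
    congr!
  have hfin : (x : ℝ) / L ^ (A + 1) ≤ (x : ℝ) / L ^ A := by
    apply div_le_div_of_nonneg_left (by positivity) (by positivity)
    exact pow_le_pow_right₀ (by linarith) (by omega)
  convert hcard.trans hfin using 3

end Pool.Agent.helper24_UT.R20
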