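import Pool.Agent.helper24_UT.Stm17

set_option autoImplicit false

namespace Pool.Agent.helper24_UT.R21

open Finset
open Pool.Agent.helper24_UT

theorem abs_liI (m : ℤ) : |liI m| ≤ 1 := by
  unfold liI
  split_ifs
  · rw [abs_pow, abs_neg, abs_one, one_pow]
  · simp

theorem abs_muI (m : ℤ) : |muI m| ≤ 1 := by
  unfold muI
  split_ifs
  · exact_mod_cast ArithmeticFunction.abs_moebius_le_one
  · simp

theorem main : ∀ θ : ℝ, S_FTWL θ → S_BDH → S_R21 θ := by
  classical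
  intro θ hFT hB p e A B' C T hp he
  obtain ⟨A', B, N₁, h1⟩ := hB A T
  obtain ⟨N₂, h2⟩ := hFT p e (B' + 1) C T (A + A' + 1) A' hp he
  refine ⟨B, max (max N₁ N₂) 3, ?_⟩
  intro N hN H hH1 hH2 c x s hc hFam f hf w hw
  have hN1 : N₁ ≤ N := (le_max_left _ _).trans ((le_max_left _ _).trans hN)
  have hN2 : N₂ ≤ N := (le_max_right _ _).trans ((le_max_left _ _).trans hN)
  have hN3 : 3 ≤ N := (le_max_right _ _).trans hN
  have hlog : 1 ≤ Real.log N := by
    have h3 : Real.exp 1 ≤ 3 := by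
      have := Real.exp_one_lt_d9
      linarith
    have h4 : (3 : ℝ) ≤ N := by exact_mod_cast hN3
    rw [← Real.log_exp 1]
    exact Real.log_le_log (Real.exp_pos 1) (h3.trans h4)
  have hlog0 : 0 < Real.log N := by linarith
  have hf1 : ∀ m, |f m| ≤ 1 := by
    intro m
    rcases hf with rfl | rfl
    · exact abs_liI m
    · exact abs_muI m
  have hc' : |c| ≤ ((B' + 1 : ℕ) : ℤ) * N := by
    push_cast
    have : (0 : ℤ) ≤ N := Int.natCast_nonneg N
    nlinarith
  have hG : ∀ n ∈ Icc 1 ((B' + 1) * N), ‖(fun n : ℕ => if n ≤ N then w n else (0 : ℂ)) n‖ ≤ (Real.log N) ^ T := by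
    intro n hn
    rw [mem_Icc] at hn
    by_cases h : n ≤ N
    · simp only [if_pos h]
      exact hw n (mem_Icc.2 ⟨hn.1, h⟩)
    · simp only [if_neg h, norm_zero]
      positivity
  have h3 := h2 N hN2 H hH1 hH2 c x s hc' hFam f hf 1 (Or.inl rfl)
    (fun n : ℕ => if n ≤ N then w n else (0 : ℂ)) hG
  have hx : (x : ℝ) / (Real.log N) ^ (A + A' + 1) ≤ x / (Real.log N) ^ A := by
    apply div_le_div_of_nonneg_left (by positivity) (by positivity)
    exact pow_le_pow_right₀ hlog (by omega)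
  refine le_trans ?_ (h3.trans hx)
  rw [Nat.cast_le]
  apply Finset.card_le_card
  intro m hm
  rw [mem_filter] at hm ⊢
  refine ⟨hm.1, ?_⟩
  by_contra hcon
  push Not at hcon
  apply hm.2
  intro Q hQ y hy
  have hv : ∀ n ∈ Icc 1 N, ‖w n * (f ((n : ℤ) + s m) : ℂ)‖ ≤ (Real.log N) ^ T := by
    intro n hn
    rw [norm_mul, Complex.norm_real, Real.norm_eq_abs]
    calc ‖w n‖ * |f ((n : ℤ) + s m)| ≤ ‖w n‖ * 1 := mul_le_mul_of_nonneg_left (hf1 _) (norm_nonneg _)
      _ = ‖w n‖ := mul_one _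
      _ ≤ _ := hw n hn
  refine h1 N hN1 Q hQ (fun n => w n * (f ((n : ℤ) + s m) : ℂ)) hv ?_ y hy
  intro y' d hy' hd hd' b
  have h4 := hcon y' d b (by nlinarith) hd hd'
  have h5 : ∑ n ∈ Icc 1 y', w n * (f ((n : ℤ) + s m) : ℂ) * Pool.Agent.H807R2.Dav.ee (n * ((b : ℝ) / d)) =
      ∑ n ∈ Icc 1 y', (if n ≤ N then w n else (0 : ℂ)) * Pool.Agent.H807R2.Dav.ee (n * ((b : ℝ) / d)) *
        (f (1 * (n : ℤ) + s m) : ℂ) := by
    apply Finset.sum_congr rfl
    intro n hn
    rw [mem_Icc] at hn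
    rw [if_pos (hn.2.trans hy'), one_mul]
    ring
  rw [h5]
  refine h4.trans ?_
  apply div_le_div_of_nonneg_left (by positivity) (by positivity)
  exact pow_le_pow_right₀ hlog (by omega)

end Pool.Agent.helper24_UT.R21
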