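import Pool.Agent.helper24_UT.Ch12
import Pool.Agent.helper24_UT.Fam
import Pool.Agent.helper24_UT.Le
import Pool.Agent.helper24_UT.Lel
import Pool.Agent.helper24_UT.Grd
import Pool.Agent.helper24_UT.Ftw
import Pool.Agent.helper24_UT.Ftwl
import Pool.Agent.helper24_UT.Fbe
import Pool.Agent.helper24_UT.Fge
import Pool.Agent.helper24_UT.R19
import Pool.Agent.helper24_UT.R20
import Pool.Agent.helper24_UT.R21
import Pool.Agent.helper24_UT.Lv

/-!
# Project UT (helper24): assembly, part 13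
-/

set_option autoImplicit false

namespace Pool.Agent.helper24_UT.Ch

theorem t_LE : S_LE (1 / 3) := Le.main (1 / 3) (by norm_num) Fam.main t_MKT
theorem t_LEL : S_LEL (1 / 3) := Lel.main (1 / 3) (by norm_num) Fam.main t_MKLT t_MKMT
theorem t_FTW : S_FTW (1 / 3) := Ftw.main (1 / 3) t_LE Grd.main
theorem t_FTWL : S_FTWL (1 / 3) := Ftwl.main (1 / 3) t_LEL Grd.main
theorem t_FBE : S_FBE (1 / 3) := Fbe.main (1 / 3) t_FTW Bdh.main (Base.main Mtc.main)
theorem t_FGE : S_FGE (1 / 3) := Fge.main (1 / 3) t_FTW Bdh.main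
theorem t_R19 : S_R19 (1 / 3) := R19.main (1 / 3) (by norm_num) t_FBE Mtc.main t_SRT Slb.main
theorem t_R20 : S_R20 (1 / 3) := R20.main (1 / 3) (by norm_num) t_FGE Mtc.main t_SRT Slb.main
theorem t_R21 : S_R21 (1 / 3) := R21.main (1 / 3) t_FTWL Bdh.main
theorem t_LV : S_LV (1 / 3) := Lv.main (1 / 3) t_FTW

end Pool.Agent.helper24_UT.Ch
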