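import Pool.Agent.helper24_UT.Stm20

set_option autoImplicit false

namespace Pool.Agent.helper24_UT.En2

open Finset Polynomial
open Pool.Agent.helper24_UT
open Pool.Agent.H373R2.T7 (energy)

/-! ### the shifted energy is at most the energy -/

theorem shift_le {α W : Type} [DecidableEq W] [AddCommGroup W] (P : Finset α)
    (φ : α → W) (w0 : W) :
    ((P ×ˢ P).filter (fun q => φ q.1 = φ q.2 + w0)).card ≤
      ((P ×ˢ P).filter (fun q => φ q.1 = φ q.2)).card := by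
  classical
  set R : W → ℕ := fun w => (P.filter (fun j => φ j = w)).card with hR
  set I : Finset W := P.image φ with hI
  have h0 : ∀ v : W, ((P ×ˢ P).filter (fun q => φ q.1 = φ q.2 + v)).card =
      ∑ w ∈ I, R w * R (w + v) := by
    intro v
    rw [Finset.card_filter, Finset.sum_product_right]
    have h1 : ∀ k ∈ P, (∑ j ∈ P, if φ j = φ k + v then 1 else 0) = R (φ k + v) := by
      intro k _
      show _ = (P.filter (fun j => φ j = φ k + v)).card
      rw [Finset.card_filter]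
    rw [Finset.sum_congr rfl h1]
    have h2 := Finset.sum_comp (s := P) (fun w => R (w + v)) φ
    simp only [smul_eq_mul] at h2
    exact h2
  have h1 := h0 w0
  have h2 := h0 0
  simp only [add_zero] at h2
  rw [h1, h2]
  have h3 : ∑ w ∈ I, R (w + w0) * R (w + w0) ≤ ∑ w ∈ I, R w * R w := by
    have e : ∑ w ∈ I, R (w + w0) * R (w + w0) = ∑ w ∈ I.image (fun w => w + w0), R w * R w :=
      (Finset.sum_image (f := fun w => R w * R w) (g := fun w => w + w0) (s := I)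
        (fun x _ y _ hxy => add_right_cancel hxy)).symm
    rw [e]
    refine Finset.sum_le_sum_of_ne_zero fun w _ hw => ?_
    have hw' : R w ≠ 0 := fun h => hw (by rw [h, zero_mul])
    obtain ⟨j, hj⟩ := Finset.card_pos.1 (Nat.pos_of_ne_zero hw')
    rw [Finset.mem_filter] at hj
    exact Finset.mem_image.2 ⟨j, hj.1, hj.2⟩
  have h4 : 2 * ∑ w ∈ I, R w * R (w + w0) ≤
      ∑ w ∈ I, R w * R w + ∑ w ∈ I, R (w + w0) * R (w + w0) := by
    rw [Finset.mul_sum, ← Finset.sum_add_distrib]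
    refine Finset.sum_le_sum fun w _ => ?_
    zify
    nlinarith [sq_nonneg ((R w : ℤ) - R (w + w0))]
  omega

/-! ### the sum of the divisor function -/

theorem sum_div_le (y : ℕ) :
    (∑ n ∈ Icc 1 y, (n.divisors.card : ℝ)) ≤ y * (1 + Real.log y) := by
  have h1 : ∀ n ∈ Icc 1 y, (n.divisors.card : ℝ) = ∑ d ∈ Icc 1 y, if d ∣ n then (1 : ℝ) else 0 := by
    intro n hn
    rw [Finset.mem_Icc] at hn
    rw [← Finset.natCast_card_filter]
    congr 2
    ext d
    rw [Nat.mem_divisors, Finset.mem_filter, Finset.mem_Icc]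
    constructor
    · rintro ⟨h, h'⟩
      exact ⟨⟨Nat.pos_of_dvd_of_pos h hn.1, (Nat.le_of_dvd hn.1 h).trans hn.2⟩, h⟩
    · rintro ⟨_, h⟩
      exact ⟨h, by omega⟩
  rw [Finset.sum_congr rfl h1, Finset.sum_comm]
  have h2 : ∀ d ∈ Icc 1 y, (∑ n ∈ Icc 1 y, if d ∣ n then (1 : ℝ) else 0) ≤ y * (d : ℝ)⁻¹ := by
    intro d hd
    rw [Finset.mem_Icc] at hd
    rw [← Finset.natCast_card_filter]
    have h3 := Nat.Ioc_filter_dvd_card_eq_div y d
    have h4 : Icc 1 y = Ioc 0 y := by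
      ext n
      rw [Finset.mem_Icc, Finset.mem_Ioc]
      omega
    rw [h4, h3, ← div_eq_mul_inv]
    exact Nat.cast_div_le
  refine (Finset.sum_le_sum h2).trans ?_
  rw [← Finset.mul_sum]
  refine mul_le_mul_of_nonneg_left ?_ (Nat.cast_nonneg _)
  have h5 := harmonic_le_one_add_log y
  rw [harmonic_eq_sum_Icc] at h5
  push_cast at h5
  exact h5

/-! ### solutions of `a b = c d` -/

/-- the interval -/
noncomputable def D (y : ℕ) : Finset ℤ := Icc (-(y : ℤ)) y

theorem card_D (y : ℕ) : (D y).card = 2 * y + 1 := by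
  unfold D
  rw [Int.card_Icc]
  omega

theorem natAbs_fiber (s : Finset ℤ) (n : ℕ) : (s.filter (fun a => a.natAbs = n)).card ≤ 2 := by
  have h : s.filter (fun a => a.natAbs = n) ⊆ {(n : ℤ), -(n : ℤ)} := by
    intro a ha
    rw [Finset.mem_filter] at ha
    rw [Finset.mem_insert, Finset.mem_singleton]
    have := ha.2
    omega
  exact (Finset.card_le_card h).trans Finset.card_le_two

theorem sum_natAbs (y : ℕ) (g : ℕ → ℕ) :
    ∑ a ∈ (D y).filter (fun a => a ≠ 0), g a.natAbs ≤ 2 * ∑ n ∈ Icc 1 y, g n := by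
  have h1 : ∀ a ∈ (D y).filter (fun a => a ≠ 0), a.natAbs ∈ Icc 1 y := by
    intro a ha
    unfold D at ha
    rw [Finset.mem_filter, Finset.mem_Icc] at ha
    rw [Finset.mem_Icc]
    omega
  rw [← Finset.sum_fiberwise_of_maps_to h1, Finset.mul_sum]
  refine Finset.sum_le_sum fun n _ => ?_
  have h2 : ∀ a ∈ ((D y).filter (fun a => a ≠ 0)).filter (fun a => a.natAbs = n),
      g a.natAbs = g n := by
    intro a ha
    rw [(Finset.mem_filter.1 ha).2]
  rw [Finset.sum_congr rfl h2, Finset.sum_const, smul_eq_mul]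
  exact Nat.mul_le_mul_right _ (natAbs_fiber _ n)

theorem fact_card (y : ℕ) (n : ℤ) (hn : n ≠ 0) :
    (((D y) ×ˢ (D y)).filter (fun t => n = t.1 * t.2)).card ≤ 2 * n.natAbs.divisors.card := by
  have h1 : ∀ t ∈ ((D y) ×ˢ (D y)).filter (fun t => n = t.1 * t.2),
      t.1.natAbs ∈ n.natAbs.divisors := by
    intro t ht
    have ht' := (Finset.mem_filter.1 ht).2
    rw [Nat.mem_divisors]
    refine ⟨?_, by omega⟩
    rw [ht', Int.natAbs_mul]
    exact Nat.dvd_mul_right _ _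
  rw [Finset.card_eq_sum_card_fiberwise (f := fun t => t.1.natAbs) (t := n.natAbs.divisors)
    (fun t ht => h1 t ht)]
  have h2 : ∀ e ∈ n.natAbs.divisors, ((((D y) ×ˢ (D y)).filter (fun t => n = t.1 * t.2)).filter
      (fun t => t.1.natAbs = e)).card ≤ 2 := by
    intro e _
    have h3 : ((((D y) ×ˢ (D y)).filter (fun t => n = t.1 * t.2)).filter
        (fun t => t.1.natAbs = e)).card ≤ ((D y).filter (fun a => a.natAbs = e)).card := by
      refine Finset.card_le_card_of_injOn (fun t => t.1) ?_ ?_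
      · intro t ht
        have ht1 := Finset.mem_filter.1 (Finset.mem_coe.1 ht)
        have ht2 := Finset.mem_filter.1 ht1.1
        have ht3 := Finset.mem_product.1 ht2.1
        exact Finset.mem_coe.2 (Finset.mem_filter.2 ⟨ht3.1, ht1.2⟩)
      · intro t ht t' ht' h
        have ht1 := Finset.mem_filter.1 (Finset.mem_coe.1 ht)
        have ht2 := (Finset.mem_filter.1 ht1.1).2
        have ht1' := Finset.mem_filter.1 (Finset.mem_coe.1 ht')
        have ht2' := (Finset.mem_filter.1 ht1'.1).2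
        have h' : t.1 = t'.1 := h
        have h0 : t.1 ≠ 0 := fun h0 => hn (by rw [ht2, h0, zero_mul])
        have h5 : t.1 * t.2 = t.1 * t'.2 := by
          calc t.1 * t.2 = n := ht2.symm
            _ = t'.1 * t'.2 := ht2'
            _ = t.1 * t'.2 := by rw [h']
        exact Prod.ext h' (mul_left_cancel₀ h0 h5)
    exact h3.trans (natAbs_fiber _ e)
  refine (Finset.sum_le_sum h2).trans ?_
  rw [Finset.sum_const, smul_eq_mul, mul_comm]

/-- the solutions -/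
noncomputable def T (y : ℕ) : Finset ((ℤ × ℤ) × (ℤ × ℤ)) :=
  (((D y) ×ˢ (D y)) ×ˢ ((D y) ×ˢ (D y))).filter (fun t => t.1.1 * t.1.2 = t.2.1 * t.2.2)

theorem card_Z (y : ℕ) :
    (((D y) ×ˢ (D y)).filter (fun t => t.1 * t.2 = 0)).card ≤ 2 * (2 * y + 1) := by
  have h : ((D y) ×ˢ (D y)).filter (fun t => t.1 * t.2 = 0) ⊆
      (({(0 : ℤ)} : Finset ℤ) ×ˢ (D y)) ∪ ((D y) ×ˢ ({(0 : ℤ)} : Finset ℤ)) := by
    intro t ht
    rw [Finset.mem_filter, Finset.mem_product] at ht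
    rw [Finset.mem_union, Finset.mem_product, Finset.mem_product, Finset.mem_singleton,
      Finset.mem_singleton]
    rcases mul_eq_zero.1 ht.2 with h | h
    · exact Or.inl ⟨h, ht.1.2⟩
    · exact Or.inr ⟨ht.1.1, h⟩
  refine (Finset.card_le_card h).trans ((Finset.card_union_le _ _).trans ?_)
  rw [Finset.card_product, Finset.card_product, card_D, Finset.card_singleton]
  omega

theorem card_T (y : ℕ) : (T y).card ≤ (2 * (2 * y + 1)) ^ 2 +
    2 * (2 * ∑ n ∈ Icc 1 y, n.divisors.card) ^ 2 := by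
  have hs : T y ⊆ ((((D y) ×ˢ (D y)).filter (fun t => t.1 * t.2 = 0)) ×ˢ
      (((D y) ×ˢ (D y)).filter (fun t => t.1 * t.2 = 0))) ∪
      (((((D y).filter (fun a => a ≠ 0)) ×ˢ ((D y).filter (fun a => a ≠ 0))) ×ˢ
        ((D y) ×ˢ (D y))).filter (fun t => t.1.1 * t.1.2 = t.2.1 * t.2.2)) := by
    intro t ht
    unfold T at ht
    rw [Finset.mem_filter, Finset.mem_product, Finset.mem_product, Finset.mem_product] at ht
    obtain ⟨⟨⟨ha, hb⟩, ⟨hc, hd⟩⟩, he⟩ := ht
    rw [Finset.mem_union]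
    by_cases h0 : t.1.1 * t.1.2 = 0
    · refine Or.inl ?_
      rw [Finset.mem_product, Finset.mem_filter, Finset.mem_filter, Finset.mem_product,
        Finset.mem_product]
      exact ⟨⟨⟨ha, hb⟩, h0⟩, ⟨⟨hc, hd⟩, by rw [← he]; exact h0⟩⟩
    · refine Or.inr ?_
      have h1 : t.1.1 ≠ 0 := fun h => h0 (by rw [h, zero_mul])
      have h2 : t.1.2 ≠ 0 := fun h => h0 (by rw [h, mul_zero])
      rw [Finset.mem_filter, Finset.mem_product, Finset.mem_product, Finset.mem_product,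
        Finset.mem_filter, Finset.mem_filter]
      exact ⟨⟨⟨⟨ha, h1⟩, ⟨hb, h2⟩⟩, ⟨hc, hd⟩⟩, he⟩
  refine (Finset.card_le_card hs).trans ((Finset.card_union_le _ _).trans ?_)
  refine Nat.add_le_add ?_ ?_
  · rw [Finset.card_product, pow_two]
    exact Nat.mul_le_mul (card_Z y) (card_Z y)
  · rw [Finset.card_filter, Finset.sum_product]
    have h1 : ∀ s ∈ ((D y).filter (fun a => a ≠ 0)) ×ˢ ((D y).filter (fun a => a ≠ 0)),
        (∑ t ∈ (D y) ×ˢ (D y), if s.1 * s.2 = t.1 * t.2 then 1 else 0) ≤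
          2 * (s.1.natAbs.divisors.card * s.2.natAbs.divisors.card) := by
      intro s hs'
      rw [Finset.mem_product, Finset.mem_filter, Finset.mem_filter] at hs'
      have h0 : s.1 * s.2 ≠ 0 := mul_ne_zero hs'.1.2 hs'.2.2
      rw [← Finset.card_filter]
      refine (fact_card y _ h0).trans (Nat.mul_le_mul_left _ ?_)
      rw [Int.natAbs_mul, Nat.divisors_mul]
      exact Finset.card_mul_le
    refine (Finset.sum_le_sum h1).trans ?_
    rw [← Finset.mul_sum]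
    refine Nat.mul_le_mul_left _ ?_
    rw [Finset.sum_product]
    simp only
    rw [← Finset.sum_mul_sum, pow_two]
    exact Nat.mul_le_mul (sum_natAbs y fun n => n.divisors.card)
      (sum_natAbs y fun n => n.divisors.card)

/-! ### the system of two equations -/

/-- the box -/
def P (y : ℕ) : Finset (Fin 3 → ℕ) := Fintype.piFinset fun _ : Fin 3 => Icc 1 y

/-- the sum and the sum of the squares -/
def ph (j : Fin 3 → ℕ) : ℤ × ℤ := (∑ i, (j i : ℤ), ∑ i, (j i : ℤ) ^ 2)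

theorem mem_P {y : ℕ} {j : Fin 3 → ℕ} (h : j ∈ P y) (i : Fin 3) : 1 ≤ (j i : ℤ) ∧ (j i : ℤ) ≤ y := by
  unfold P at h
  rw [Fintype.mem_piFinset] at h
  have := Finset.mem_Icc.1 (h i)
  omega

theorem card_J (y : ℕ) :
    (((P y) ×ˢ (P y)).filter (fun q => ph q.1 = ph q.2)).card ≤ (T y).card * y := by
  have h0 : (T y).card * y = ((T y) ×ˢ (Icc 1 y)).card := by
    rw [Finset.card_product, Nat.card_Icc]
    simp
  rw [h0]
  refine Finset.card_le_card_of_injOn (fun q => (((((q.1 0 : ℕ) : ℤ) - (q.2 2 : ℕ),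
    ((q.1 1 : ℕ) : ℤ) - (q.2 2 : ℕ)), (((q.2 0 : ℕ) : ℤ) - (q.1 2 : ℕ),
    ((q.2 1 : ℕ) : ℤ) - (q.1 2 : ℕ))), q.2 2)) ?_ ?_
  · intro q hq
    rw [Finset.mem_coe, Finset.mem_filter, Finset.mem_product] at hq
    obtain ⟨⟨h1, h2⟩, h3⟩ := hq
    unfold ph at h3
    rw [Prod.mk.injEq] at h3
    simp only [Fin.sum_univ_three] at h3
    obtain ⟨e1, e2⟩ := h3
    have a0 := mem_P h1 0
    have a1 := mem_P h1 1
    have a2 := mem_P h1 2
    have b0 := mem_P h2 0
    have b1 := mem_P h2 1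
    have b2 := mem_P h2 2
    rw [Finset.mem_coe, Finset.mem_product]
    refine ⟨?_, ?_⟩
    · unfold T D
      simp only [Finset.mem_filter, Finset.mem_product, Finset.mem_Icc]
      refine ⟨⟨⟨⟨by omega, by omega⟩, ⟨by omega, by omega⟩⟩, ⟨⟨by omega, by omega⟩,
        ⟨by omega, by omega⟩⟩⟩, ?_⟩
      have e3 : (q.1 0 : ℤ) = q.2 0 + q.2 1 + q.2 2 - q.1 1 - q.1 2 := by linarith
      rw [e3] at e2 ⊢
      nlinarith
    · rw [Finset.mem_Icc]
      show 1 ≤ q.2 2 ∧ q.2 2 ≤ y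
      omega
  · intro q hq q' hq' h
    rw [Finset.mem_coe, Finset.mem_filter, Finset.mem_product] at hq hq'
    obtain ⟨⟨h1, h2⟩, h3⟩ := hq
    obtain ⟨⟨h1', h2'⟩, h3'⟩ := hq'
    unfold ph at h3 h3'
    rw [Prod.mk.injEq] at h3 h3'
    simp only [Fin.sum_univ_three] at h3 h3'
    simp only [Prod.mk.injEq] at h
    obtain ⟨⟨⟨f1, f2⟩, ⟨f3, f4⟩⟩, f5⟩ := h
    have e1 := h3.1
    have e1' := h3'.1
    refine Prod.ext ?_ ?_
    · funext i
      fin_cases i
      · show q.1 0 = q'.1 0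
        omega
      · show q.1 1 = q'.1 1
        omega
      · show q.1 2 = q'.1 2
        omega
    · funext i
      fin_cases i
      · show q.2 0 = q'.2 0
        omega
      · show q.2 1 = q'.2 1
        omega
      · show q.2 2 = q'.2 2
        omega

/-! ### the energy -/

theorem energy_le (m y : ℕ) :
    (energy 3 y (fun j => ((m : ℤ) + j) ^ 2)) * (2 * m + y) ≤
      (((P y) ×ˢ (P y)).filter (fun q => ph q.1 = ph q.2)).card * (6 * y ^ 2 + 6 * y ^ 2 + 2 * m + y) := by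
  classical
  set J := (((P y) ×ˢ (P y)).filter (fun q => ph q.1 = ph q.2)).card with hJ
  set B : ℕ := Nat.findGreatest (fun b => 2 * m * b ≤ 3 * y ^ 2) (3 * y) with hB
  have hB1 : 2 * m * B ≤ 3 * y ^ 2 :=
    Nat.findGreatest_spec (P := fun b => 2 * m * b ≤ 3 * y ^ 2) (Nat.zero_le (3 * y)) (by simp)
  have hB2 : B ≤ 3 * y := Nat.findGreatest_le _
  have h1 : energy 3 y (fun j => ((m : ℤ) + j) ^ 2) ≤ (2 * B + 1) * J := by
    have hs : (((P y) ×ˢ (P y)).filter (fun q => ∑ i, ((m : ℤ) + (q.1 i : ℕ)) ^ 2 =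
        ∑ i, ((m : ℤ) + (q.2 i : ℕ)) ^ 2)) ⊆ (Icc (-(B : ℤ)) B).biUnion fun u =>
          ((P y) ×ˢ (P y)).filter (fun q => ph q.1 = ph q.2 + (u, -2 * m * u)) := by
      intro q hq
      rw [Finset.mem_filter, Finset.mem_product] at hq
      obtain ⟨⟨h1, h2⟩, h3⟩ := hq
      simp only [Fin.sum_univ_three] at h3
      have a0 := mem_P h1 0
      have a1 := mem_P h1 1
      have a2 := mem_P h1 2
      have b0 := mem_P h2 0
      have b1 := mem_P h2 1
      have b2 := mem_P h2 2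
      set u : ℤ := ((q.1 0 : ℤ) + q.1 1 + q.1 2) - ((q.2 0 : ℤ) + q.2 1 + q.2 2) with hu
      have hv : ((q.1 0 : ℤ) ^ 2 + (q.1 1 : ℤ) ^ 2 + (q.1 2 : ℤ) ^ 2) -
          ((q.2 0 : ℤ) ^ 2 + (q.2 1 : ℤ) ^ 2 + (q.2 2 : ℤ) ^ 2) = -2 * m * u := by
        rw [hu]
        linarith
      have hsq : ∀ x : ℤ, 1 ≤ x → x ≤ y → 0 ≤ x ^ 2 ∧ x ^ 2 ≤ (y : ℤ) ^ 2 := by
        intro x hx hx'
        exact ⟨sq_nonneg _, by nlinarith⟩
      have c0 := hsq _ a0.1 a0.2
      have c1 := hsq _ a1.1 a1.2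
      have c2 := hsq _ a2.1 a2.2
      have d0 := hsq _ b0.1 b0.2
      have d1 := hsq _ b1.1 b1.2
      have d2 := hsq _ b2.1 b2.2
      have hub : u.natAbs ≤ B := by
        refine Nat.le_findGreatest (by omega) ?_
        have h5 : ((2 * m * u.natAbs : ℕ) : ℤ) ≤ 3 * (y : ℤ) ^ 2 := by
          push_cast
          rcases abs_cases u with ⟨h6, h7⟩ | ⟨h6, h7⟩
          · rw [h6]
            linarith
          · rw [h6]
            linarith
        exact_mod_cast h5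
      rw [Finset.mem_biUnion]
      refine ⟨u, Finset.mem_Icc.2 (by omega), ?_⟩
      rw [Finset.mem_filter, Finset.mem_product]
      refine ⟨⟨h1, h2⟩, ?_⟩
      unfold ph
      rw [Prod.mk_add_mk, Prod.mk.injEq]
      simp only [Fin.sum_univ_three]
      constructor
      · rw [hu]
        ring
      · linarith
    have h2 := (Finset.card_le_card hs).trans Finset.card_biUnion_le
    refine h2.trans ?_
    have h3 : ∀ u ∈ Icc (-(B : ℤ)) B,
        (((P y) ×ˢ (P y)).filter (fun q => ph q.1 = ph q.2 + (u, -2 * m * u))).card ≤ J :=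
      fun u _ => shift_le (P y) ph (u, -2 * m * u)
    refine (Finset.sum_le_sum h3).trans ?_
    rw [Finset.sum_const, smul_eq_mul, Int.card_Icc]
    refine Nat.mul_le_mul_right _ ?_
    omega
  have h2 : (2 * B + 1) * (2 * m + y) ≤ 6 * y ^ 2 + 6 * y ^ 2 + 2 * m + y := by
    have h3 : B * y ≤ 3 * y * y := Nat.mul_le_mul_right _ hB2
    nlinarith
  calc (energy 3 y (fun j => ((m : ℤ) + j) ^ 2)) * (2 * m + y) ≤
      ((2 * B + 1) * J) * (2 * m + y) := Nat.mul_le_mul_right _ h1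
    _ = J * ((2 * B + 1) * (2 * m + y)) := by ring
    _ ≤ _ := Nat.mul_le_mul_left _ h2

theorem main : S_EN2 := by
  refine ⟨660, fun m y hy hm => ?_⟩
  have hy1 : (2 : ℝ) ≤ y := by exact_mod_cast hy
  have hm1 : (m : ℝ) ≤ (y : ℝ) ^ 2 := by exact_mod_cast hm
  set L : ℝ := 1 + Real.log y with hL
  have hL1 : 1 ≤ L := by
    have : 0 ≤ Real.log y := Real.log_nonneg (by linarith)
    linarith
  set J : ℕ := (((P y) ×ˢ (P y)).filter (fun q => ph q.1 = ph q.2)).card with hJ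
  have hS := sum_div_le y
  rw [← hL] at hS
  have hS0 : (0 : ℝ) ≤ ∑ n ∈ Icc 1 y, (n.divisors.card : ℝ) :=
    Finset.sum_nonneg fun n _ => Nat.cast_nonneg _
  have hT : ((T y).card : ℝ) ≤ 44 * (y : ℝ) ^ 2 * L ^ 2 := by
    have h1 : ((T y).card : ℝ) ≤ (2 * (2 * (y : ℝ) + 1)) ^ 2 +
        2 * (2 * ∑ n ∈ Icc 1 y, (n.divisors.card : ℝ)) ^ 2 := by
      exact_mod_cast card_T y
    have h2 : (2 * ∑ n ∈ Icc 1 y, (n.divisors.card : ℝ)) ^ 2 ≤ (2 * (y * L)) ^ 2 :=
      pow_le_pow_left₀ (by linarith) (by linarith) 2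
    have h3 : (2 * (2 * (y : ℝ) + 1)) ^ 2 ≤ 36 * (y : ℝ) ^ 2 * L ^ 2 := by
      have h4 : (2 * (2 * (y : ℝ) + 1)) ^ 2 ≤ (6 * (y : ℝ)) ^ 2 :=
        pow_le_pow_left₀ (by positivity) (by linarith) 2
      have h5 : (1 : ℝ) ≤ L ^ 2 := one_le_pow₀ hL1
      nlinarith [sq_nonneg (y : ℝ)]
    nlinarith
  have hJ1 : (J : ℝ) ≤ 44 * (y : ℝ) ^ 3 * L ^ 2 := by
    have h1 : (J : ℝ) ≤ (T y).card * y := by exact_mod_cast card_J y
    have h2 : ((T y).card : ℝ) * y ≤ 44 * (y : ℝ) ^ 2 * L ^ 2 * y :=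
      mul_le_mul_of_nonneg_right hT (Nat.cast_nonneg _)
    nlinarith
  have hE : (energy 3 y (fun j => ((m : ℤ) + j) ^ 2) : ℝ) * (2 * m + y) ≤
      J * (6 * (y : ℝ) ^ 2 + 6 * (y : ℝ) ^ 2 + 2 * m + y) := by
    exact_mod_cast energy_le m y
  have h6 : 6 * (y : ℝ) ^ 2 + 6 * (y : ℝ) ^ 2 + 2 * m + y ≤ 15 * (y : ℝ) ^ 2 := by nlinarith
  have h7 : (energy 3 y (fun j => ((m : ℤ) + j) ^ 2) : ℝ) * (2 * m + y) ≤
      44 * (y : ℝ) ^ 3 * L ^ 2 * (15 * (y : ℝ) ^ 2) :=
    hE.trans (mul_le_mul hJ1 h6 (by positivity) (by positivity))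
  have h8 : L ^ 2 ≤ L ^ 660 := pow_le_pow_right₀ hL1 (by norm_num)
  calc (energy 3 y (fun j => ((m : ℤ) + j) ^ 2) : ℝ) * (y * (2 * m + y)) =
      ((energy 3 y (fun j => ((m : ℤ) + j) ^ 2) : ℝ) * (2 * m + y)) * y := by ring
    _ ≤ (44 * (y : ℝ) ^ 3 * L ^ 2 * (15 * (y : ℝ) ^ 2)) * y :=
        mul_le_mul_of_nonneg_right h7 (Nat.cast_nonneg _)
    _ = 660 * (y : ℝ) ^ 6 * L ^ 2 := by ring
    _ ≤ 660 * (y : ℝ) ^ 6 * L ^ 660 := mul_le_mul_of_nonneg_left h8 (by positivity)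
    _ = _ := by push_cast; rfl

end Pool.Agent.helper24_UT.En2
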