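import Pool.Agent.helper24_UT.Stm19

/-!
# Project UT (helper24), part 20: values of `n² + a` in short windows for almost all `a`. Statements.
-/

set_option autoImplicit false

namespace Pool.Agent.helper24_UT

open Finset Polynomial
open Pool.Agent.H373R2.T7 (lamI lamzI lamz Vz pz energy)

/-- (220) the additive energy of order `3` of the squares in `(m², (m + y)²]` -/
def S_EN2 : Prop := ∃ K : ℕ, ∀ m y : ℕ, 2 ≤ y → m ≤ y ^ 2 →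
  (energy 3 y (fun j => ((m : ℤ) + j) ^ 2) : ℝ) * (y * (2 * m + y)) ≤ K * (y : ℝ) ^ 6 * (1 + Real.log y) ^ K

/-- the sum of `log |n² + a|` over the `n`, `m < n ≤ m + y`, for which `|n² + a|` is prime -/
noncomputable def thw (a : ℤ) (m y : ℕ) : ℝ :=
  ∑ n ∈ Ioc m (m + y), if ((n : ℤ) ^ 2 + a).natAbs.Prime then Real.log (((n : ℤ) ^ 2 + a).natAbs : ℝ) else 0

/-- the windows `(m, m + y]` with `√m ≤ y`, `y (m + y) ≥ X^(θ + 1/e)`, `(m + y)² ≤ X` -/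
def Wd (θ : ℝ) (e X m y : ℕ) : Prop := m ≤ y ^ 2 ∧ (X : ℝ) ^ (θ + 1 / e : ℝ) ≤ (y : ℝ) * (m + y) ∧ (m + y) ^ 2 ≤ X

open Classical in
/-- (221) primes minus model at the values of `n² + a`, `m < n ≤ m + y`, for almost all `a` and all `y` -/
def S_SQW (θ : ℝ) : Prop := ∀ e A : ℕ, 1 ≤ e → ∃ E₀ : ℕ, ∀ E₁ : ℕ, ∃ X₀ : ℕ, ∀ X : ℕ, X₀ ≤ X → ∀ z : ℕ,
  (Real.log X) ^ E₀ ≤ z → (z : ℝ) ≤ (Real.log X) ^ E₁ → ∀ m : ℕ,
  (((Icc (-(X : ℤ)) X).filter (fun a => ∃ y : ℕ, Wd θ e X m y ∧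
    (y : ℝ) / (Real.log X) ^ A < |∑ n ∈ Ioc m (m + y), (Ed z ((n : ℤ) ^ 2 + a) + Ed z (-((n : ℤ) ^ 2 + a)))|)).card : ℝ) ≤
    X / (Real.log X) ^ A

open Classical in
/-- (222) the number of primes `|n² + a|` in the window and the truncated product, for almost all `a` and all `y` -/
def S_THW (θ : ℝ) : Prop := ∀ e A : ℕ, 1 ≤ e → ∃ E₀ : ℕ, ∀ E₁ : ℕ, ∃ X₀ : ℕ, ∀ X : ℕ, X₀ ≤ X → ∀ z : ℕ,
  (Real.log X) ^ E₀ ≤ z → (z : ℝ) ≤ (Real.log X) ^ E₁ → ∀ m : ℕ,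
  (((Icc (-(X : ℤ)) X).filter (fun a => ∃ y : ℕ, Wd θ e X m y ∧
    (y : ℝ) / (Real.log X) ^ A < |thw a m y - y * sg z (qp a)|)).card : ℝ) ≤ X / (Real.log X) ^ A

/-- the formula of Hardy and Littlewood for `n² + a`, `m < n ≤ m + y`, with the full constant, for all `y` in the range -/
def GoodW (θ : ℝ) (e A X m : ℕ) (a : ℤ) : Prop := ∃ h : ℝ, 0 < h ∧ Filter.Tendsto (hcut a) Filter.atTop (nhds h) ∧
  ∀ y : ℕ, Wd θ e X m y → |thw a m y - h * y| ≤ h * y / (Real.log X) ^ A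

open Classical in
/-- (223) the formula of Hardy and Littlewood with the full constant in short windows -/
def S_R24 (θ : ℝ) : Prop := ∀ e A : ℕ, 1 ≤ e → ∃ X₀ : ℕ, ∀ X : ℕ, X₀ ≤ X → ∀ m : ℕ,
  (((Icc (-(X : ℤ)) X).filter (fun a => ¬ GoodW θ e A X m a)).card : ℝ) ≤ X / (Real.log X) ^ A

end Pool.Agent.helper24_UT
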