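/-
UT_R24   (project UT of helper24: primes at almost all systems of polynomials; very_famous ids, partial results)
TARGET: prove the theorem at the end. Its statement uses the definitions in the modules Pool/Agent/helper24_UT/Stm2.lean, Stm5.lean, Stm17.lean, Stm19.lean, Stm20.lean
(on origin/main; `git -C /workdir/pool/outputs/live pull`, then copy these files and the starting modules they import
to the same paths under /workdir/pool). You may import Mathlib and ANY starting module (copy it with its closure from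
outputs/live). READ the statement files first.
If the file named below helps, copy from it or import it. Put helper lemmas in the namespace below, do not change the target statement, no sorry, no native_decide, no new axioms,
no straight double quotes in the file. Paste the full proved file back as the result. If the statement is false or a
constant does not work out, set status='problem' and say exactly why.

PLAIN PROOF
The same as the parallel job UT_R23 (m = 0). L = log X. Wd theta e X m y implies Wd theta e' X m y for e' >= e; use e' := max(e, 5) (theta + 1/5 < 1), so we may assume e >= 5.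
The starting theorem fin_w (Pool/Agent/R460/SC/..., used in Pool/Agent/Results/MP_391708_nt/FullConstantInClasses.lean: theorem result there with rho, A, C, T, modulus q = 1, b = 0 - that results file is a starting file and can be imported) says: for all but X/L^(A+1) of the |a| <= X the product converges to some H (IsConstant a H: Tendsto (product a) atTop (nhds H), product = hcut) and |theta a y - H y| <= sqrt X/L^C' for all y <= sqrt X (theta a y = thw a 0 y).
S_THW with A' := A + 10, for m' = 0: for all but X/L^(A') of the a: |thw a 0 y0 - y0 sg z (qp a)| <= y0/L^(A') with y0 := floor(sqrt X) (Wd theta e X 0 y0 holds: y0^2 >= X/2 >= X^(theta + 1/e)); z := ceil(L^(E0)). So |H - sg z (qp a)| <= 2/L^(A') + 2/L^(C'); C' = A'.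
Lower bound: sg z (qp a) = prod_{p<=z} (1 - om p/p)/(1 - 1/p), om p <= 2, om 2 = 1: the factor for p = 2 is 1, for p >= 3 it is >= 1 - 2/p; the product is >= (Vz z)^2 >= 1/L^2 (HP_ge in Pool/Agent/Helper735_BDH/Loc.lean on origin/main, Vz_inv_small in Pool/Agent/H373R2/T7/LamZ2.lean: (Vz z)^(-1) <= L). So H >= 1/L^2 - 4/L^(A') >= 1/(2 L^2) > 0.
S_THW for the given m: for all but X/L^(A') of the a, all y with Wd theta e X m y: |thw a m y - y sg| <= y/L^(A'). So |thw a m y - H y| <= y/L^(A') + |sg - H| y <= 5 y/L^(A') <= H y/L^A.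
-/
import Pool.Agent.helper24_UT.Stm20
import Pool.Agent.helper24_UT.Low
import Pool.Agent.Results.MP_391708_nt.FullConstantInClasses

set_option autoImplicit false

namespace Pool.Agent.helper24_UT.R24

open Finset Polynomial
open Pool.Agent.helper24_UT

lemma thw_zero (a : ℤ) (y : ℕ) :
    thw a 0 y = Pool.Agent.Results.MP_391708_nt.FullConstantInClasses.theta a y := by
  unfold thw Pool.Agent.Results.MP_391708_nt.FullConstantInClasses.theta
  rw [zero_add]
  rfl

lemma Wd_mono (θ : ℝ) (e e' X m y : ℕ) (he : 1 ≤ e) (hee : e ≤ e') (hX : 1 ≤ X) (h : Wd θ e X m y) :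
    Wd θ e' X m y := by
  obtain ⟨h1, h2, h3⟩ := h
  refine ⟨h1, le_trans ?_ h2, h3⟩
  refine Real.rpow_le_rpow_of_exponent_le (by exact_mod_cast hX) ?_
  have he0 : (0 : ℝ) < e := by exact_mod_cast he
  have hee' : (e : ℝ) ≤ e' := by exact_mod_cast hee
  have := one_div_le_one_div_of_le he0 hee'
  linarith

/-- the longest window -/
lemma Wd_sqrt (θ : ℝ) (hθ : θ ≤ 1 / 2) (e X : ℕ) (he : 5 ≤ e) (hX : 100 ≤ X) :
    Wd θ e X 0 (Nat.sqrt X) ∧ Real.sqrt X / 2 ≤ (Nat.sqrt X : ℝ) := by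
  have hX1 : (100 : ℝ) ≤ X := by exact_mod_cast hX
  have hX0 : (0 : ℝ) < X := by linarith
  have hs : Real.sqrt X < Nat.sqrt X + 1 := by
    rw [Real.sqrt_lt' (by positivity)]
    exact_mod_cast Nat.lt_succ_sqrt' X
  have hs2 : Real.sqrt X * Real.sqrt X = X := Real.mul_self_sqrt hX0.le
  have hs10 : 10 ≤ Real.sqrt X := Real.le_sqrt_of_sq_le (by linarith)
  have hs3 : (Nat.sqrt X : ℝ) ^ 2 ≤ X := by exact_mod_cast Nat.sqrt_le' X
  have hge : Real.sqrt X - 1 ≤ (Nat.sqrt X : ℝ) := by linarith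
  have hq : (X : ℝ) / 2 ≤ (Nat.sqrt X : ℝ) * (Nat.sqrt X : ℝ) := by
    nlinarith
  refine ⟨⟨Nat.zero_le _, ?_, ?_⟩, by linarith⟩
  · have h1 : (X : ℝ) ^ (θ + 1 / (e : ℝ)) ≤ (X : ℝ) ^ ((7 : ℝ) / 10) := by
      refine Real.rpow_le_rpow_of_exponent_le (by linarith) ?_
      have : 1 / (e : ℝ) ≤ 1 / 5 := one_div_le_one_div_of_le (by norm_num) (by exact_mod_cast he)
      linarith
    have h2 : (X : ℝ) ^ ((7 : ℝ) / 10) * 2 ≤ X := by
      have h3 : (2 : ℝ) ≤ (X : ℝ) ^ ((3 : ℝ) / 10) := by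
        have h4 : ((100 : ℝ)) ^ ((3 : ℝ) / 10) ≤ (X : ℝ) ^ ((3 : ℝ) / 10) :=
          Real.rpow_le_rpow (by norm_num) hX1 (by norm_num)
        have h5 : (2 : ℝ) ≤ (100 : ℝ) ^ ((3 : ℝ) / 10) := by
          have h6 : (2 : ℝ) = (1024 : ℝ) ^ ((1 : ℝ) / 10) := by
            rw [show (1024 : ℝ) = 2 ^ (10 : ℝ) by norm_num, ← Real.rpow_mul (by norm_num)]
            norm_num
          have h7 : (100 : ℝ) ^ ((3 : ℝ) / 10) = (1000000 : ℝ) ^ ((1 : ℝ) / 10) := by
            rw [show (1000000 : ℝ) = 100 ^ (3 : ℝ) by norm_num, ← Real.rpow_mul (by norm_num)]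
            norm_num
          rw [h7, h6]
          exact Real.rpow_le_rpow (by norm_num) (by norm_num) (by norm_num)
        linarith
      calc (X : ℝ) ^ ((7 : ℝ) / 10) * 2 ≤ (X : ℝ) ^ ((7 : ℝ) / 10) * (X : ℝ) ^ ((3 : ℝ) / 10) :=
            mul_le_mul_of_nonneg_left h3 (by positivity)
        _ = X := by
            rw [← Real.rpow_add hX0]
            norm_num
    have h8 : ((0 : ℕ) : ℝ) + (Nat.sqrt X : ℝ) = (Nat.sqrt X : ℝ) := by simp
    rw [h8]
    linarith
  · rw [zero_add]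
    exact Nat.sqrt_le' X

/-- deterministic part -/
lemma core (L S H t ys yn y : ℝ) (A : ℕ) (hL : 8 ≤ L) (hS : 1 / L ≤ S) (hys : ys ≤ 2 * yn) (hyn : 0 < yn)
    (h0 : |t - yn * S| ≤ yn / L ^ (A + 10)) (h1 : |t - H * yn| ≤ ys / L ^ (A + 10)) :
    0 < H ∧ ∀ u : ℝ, 0 ≤ y → |u - y * S| ≤ y / L ^ (A + 10) → |u - H * y| ≤ H * y / L ^ A := by
  have hL0 : 0 < L := by linarith
  have hP : 0 < L ^ (A + 10) := by positivity
  have hd : |H - S| ≤ 3 / L ^ (A + 10) := by
    have h2 : yn * |H - S| ≤ yn * (3 / L ^ (A + 10)) := by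
      have h3 : yn * |H - S| = |yn * (H - S)| := by rw [abs_mul, abs_of_pos hyn]
      rw [h3]
      have h4 : yn * (H - S) = (t - yn * S) - (t - H * yn) := by ring
      rw [h4]
      refine (abs_sub _ _).trans ?_
      have h5 : ys / L ^ (A + 10) ≤ 2 * yn / L ^ (A + 10) := div_le_div_of_nonneg_right hys hP.le
      have h6 : yn * (3 / L ^ (A + 10)) = yn / L ^ (A + 10) + 2 * yn / L ^ (A + 10) := by ring
      linarith
    exact le_of_mul_le_mul_left h2 hyn
  have hpow : L ^ (A + 10) = L ^ A * L ^ 10 := pow_add _ _ _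
  have hLA : 1 ≤ L ^ A := one_le_pow₀ (by linarith)
  have hL8 : (8 : ℝ) ^ 9 ≤ L ^ 9 := pow_le_pow_left₀ (by norm_num) hL 9
  have hL10 : L ^ 10 = L * L ^ 9 := by ring
  have h3 : 3 / L ^ (A + 10) ≤ 1 / (2 * L) := by
    rw [div_le_div_iff₀ hP (by positivity), hpow, hL10]
    have : (L * L ^ 9) ≤ L ^ A * (L * L ^ 9) := le_mul_of_one_le_left (by positivity) hLA
    nlinarith
  have hHS := abs_le.1 hd
  have hH : 1 / (2 * L) ≤ H := by
    have : 1 / L = 1 / (2 * L) + 1 / (2 * L) := by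
      field_simp
      norm_num
    linarith [hHS.1]
  have hH0 : 0 < H := lt_of_lt_of_le (by positivity) hH
  refine ⟨hH0, fun u hy hu => ?_⟩
  have h4 : u - H * y = (u - y * S) - y * (H - S) := by ring
  rw [h4]
  refine (abs_sub _ _).trans ?_
  rw [abs_mul, abs_of_nonneg hy]
  have h5 : y * |H - S| ≤ y * (3 / L ^ (A + 10)) := mul_le_mul_of_nonneg_left hd hy
  have h6 : 4 / L ^ 10 ≤ H := by
    refine le_trans ?_ hH
    rw [div_le_div_iff₀ (by positivity) (by positivity), hL10]
    nlinarith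
  have h7 : y / L ^ (A + 10) + y * (3 / L ^ (A + 10)) = (4 / L ^ 10) * y / L ^ A := by
    rw [hpow]
    field_simp
    norm_num
  have h8 : (4 / L ^ 10) * y / L ^ A ≤ H * y / L ^ A :=
    div_le_div_of_nonneg_right (mul_le_mul_of_nonneg_right h6 hy) (by positivity)
  linarith

theorem main : ∀ θ : ℝ, 0 ≤ θ → θ ≤ 1 / 2 → S_THW θ → S_R24 θ := by
  classical
  intro θ hθ0 hθ hT e A he
  obtain ⟨E₀, hE⟩ := hT (max e 5) (A + 10) (by omega)
  obtain ⟨X1, h1⟩ := hE (E₀ + 1)
  obtain ⟨X2, h2⟩ := Pool.Agent.Results.MP_391708_nt.FullConstantInClasses.result (1 / 4) (by norm_num)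
    (A + 1) (A + 10) 0
  obtain ⟨X3, h3⟩ := Low.main 1 2 (E₀ + 1)
  obtain ⟨X4, h4⟩ := Filter.eventually_atTop.1 ((Real.tendsto_log_atTop.comp
    (tendsto_natCast_atTop_atTop (R := ℝ))).eventually_ge_atTop 8)
  refine ⟨X1 + X2 + X3 + X4 + 100, fun X hX m => ?_⟩
  have hL8 : 8 ≤ Real.log X := h4 X (by omega)
  obtain ⟨L, hL⟩ : ∃ L, L = Real.log (X : ℝ) := ⟨_, rfl⟩
  rw [← hL] at hL8
  have hX1 : (1 : ℝ) ≤ X := by exact_mod_cast (by omega : 1 ≤ X)
  obtain ⟨z, hz⟩ : ∃ z : ℕ, z = ⌈L ^ E₀⌉₊ := ⟨_, rfl⟩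
  have hz1 : L ^ E₀ ≤ z := by rw [hz]; exact Nat.le_ceil _
  have hz2 : (z : ℝ) ≤ L ^ (E₀ + 1) := by
    have k1 : (z : ℝ) < L ^ E₀ + 1 := by rw [hz]; exact Nat.ceil_lt_add_one (by positivity)
    have k2 : 1 ≤ L ^ E₀ := one_le_pow₀ (by linarith)
    rw [pow_succ]
    nlinarith
  have g1 := h1 X (by omega) z (hL ▸ hz1) (hL ▸ hz2)
  have g2 := h2 X (by omega) 1 le_rfl
    (by
      rw [Nat.cast_one]
      exact Real.one_le_rpow hX1 (by norm_num))
    (by simp) 0 (by simp)
  have g3 := h3 X (by omega) z (hL ▸ hz2)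
  rw [← hL] at g1 g2 g3 ⊢
  obtain ⟨hWd, hsq⟩ := Wd_sqrt θ hθ (max e 5) X (le_max_right _ _) (by omega)
  have hyn : (0 : ℝ) < Nat.sqrt X := by
    have : 0 < Nat.sqrt X := Nat.sqrt_pos.2 (by omega)
    exact_mod_cast this
  have hsub : (Icc (-(X : ℤ)) X).filter (fun a => ¬ GoodW θ e A X m a) ⊆
      ((Icc (-(X : ℤ)) X).filter (fun a => ∃ y : ℕ, Wd θ (max e 5) X 0 y ∧
        (y : ℝ) / L ^ (A + 10) < |thw a 0 y - y * sg z (qp a)|)) ∪
      (((Icc (-(X : ℤ)) X).filter (fun a => ∃ y : ℕ, Wd θ (max e 5) X m y ∧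
        (y : ℝ) / L ^ (A + 10) < |thw a m y - y * sg z (qp a)|)) ∪
      ((Icc (-(X : ℤ)) X).filter (fun a : ℤ => a ≡ 0 [ZMOD (1 : ℕ)] ∧
        ¬ Pool.Agent.Results.MP_391708_nt.FullConstantInClasses.Good (A + 10) X a))) := by
    intro a ha
    rw [mem_filter] at ha
    rw [mem_union, mem_union, mem_filter, mem_filter, mem_filter]
    by_contra hcon
    push Not at hcon
    obtain ⟨c1, c2, c3⟩ := hcon
    have d1 := c1 ha.1
    have d2 := c2 ha.1
    have d3 := c3 ha.1 (by
      rw [Nat.cast_one]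
      exact Int.modEq_one)
    obtain ⟨-, H, hH, hth⟩ := d3
    apply ha.2
    have e1 := d1 (Nat.sqrt X) hWd
    have e2 := hth (Nat.sqrt X) (Nat.sqrt_le' X)
    rw [← thw_zero, ← hL] at e2
    have e3 : 1 / L ≤ sg z (qp a) := by
      refine g3 (qp a) (fun i => ?_) (fun p hp => ?_)
      · unfold qp
        exact Polynomial.natDegree_X_pow_add_C.le
      · by_contra hno
        push Not at hno
        obtain ⟨i0, k0⟩ := hno 0
        obtain ⟨i1, k1⟩ := hno 1
        unfold qp at k0 k1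
        simp only [eval_add, eval_pow, eval_X, eval_C] at k0 k1
        have k2 := dvd_sub k1 k0
        have k3 : ((1 : ℤ) ^ 2 + a - (0 ^ 2 + a)) = 1 := by ring
        rw [k3] at k2
        have k4 := Int.le_of_dvd one_pos k2
        have := hp.two_le
        omega
    have hc := fun y => core L (sg z (qp a)) H (thw a 0 (Nat.sqrt X)) (Real.sqrt X) (Nat.sqrt X) y A hL8 e3
      (by linarith) hyn e1 e2
    refine ⟨H, (hc 0).1, hH, fun y hy => ?_⟩
    rw [← hL]
    exact (hc y).2 _ (Nat.cast_nonneg _) (d2 y (Wd_mono θ e (max e 5) X m y he (le_max_left _ _) (by omega) hy))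
  have hcard := (card_le_card hsub).trans ((card_union_le _ _).trans
    (Nat.add_le_add_left (card_union_le _ _) _))
  have hcard' : (((Icc (-(X : ℤ)) X).filter (fun a => ¬ GoodW θ e A X m a)).card : ℝ) ≤
      X / L ^ (A + 10) + (X / L ^ (A + 10) + X / ((1 : ℕ) * L ^ (A + 1))) := by
    refine le_trans (Nat.cast_le.2 hcard) ?_
    rw [Nat.cast_add, Nat.cast_add]
    refine add_le_add (g1 0) (add_le_add (g1 m) ?_)
    exact g2
  refine hcard'.trans ?_
  have hL0 : 0 < L := by linarith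
  have k1 : X / L ^ (A + 10) ≤ X / L ^ A * (1 / 8) := by
    rw [pow_add, ← div_div, div_eq_mul_one_div (_ / _) (L ^ 10)]
    refine mul_le_mul_of_nonneg_left ?_ (by positivity)
    refine one_div_le_one_div_of_le (by norm_num) ?_
    calc (8 : ℝ) ≤ 8 ^ 10 := by norm_num
      _ ≤ L ^ 10 := pow_le_pow_left₀ (by norm_num) hL8 10
  have k2 : X / ((1 : ℕ) * L ^ (A + 1)) ≤ X / L ^ A * (1 / 8) := by
    rw [Nat.cast_one, one_mul, pow_add, pow_one, ← div_div, div_eq_mul_one_div (_ / _) L]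
    refine mul_le_mul_of_nonneg_left ?_ (by positivity)
    exact one_div_le_one_div_of_le (by norm_num) hL8
  have k3 : 0 ≤ X / L ^ A := by positivity
  linarith

end Pool.Agent.helper24_UT.R24
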