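import Pool.Agent.helper24_UT.Stm22

set_option autoImplicit false

namespace Pool.Agent.helper24_UT.R32

open Finset
open Pool.Agent.helper24_UT
open Pool.Agent.H373R2.T7 (energy)

/-- the numbers `2 (m + j)² + 2 (m + j) + 2` -/
def sq (m j : ℕ) : ℕ := 2 * (m + j) ^ 2 + 2 * (m + j) + 2

lemma energy_le (m y : ℕ) : energy 3 y (fun j => (sq m j : ℤ)) ≤
    energy 3 (2 * y + 1) (fun j => (((2 * m : ℕ) : ℤ) + j) ^ 2) := by
  unfold energy
  apply card_le_card_of_injOn (fun q => (fun i => 2 * q.1 i + 1, fun i => 2 * q.2 i + 1))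
  · intro q hq
    rw [mem_coe, mem_filter, mem_product, Fintype.mem_piFinset, Fintype.mem_piFinset] at hq
    obtain ⟨⟨h1, h2⟩, h3⟩ := hq
    rw [mem_coe, mem_filter, mem_product, Fintype.mem_piFinset, Fintype.mem_piFinset]
    refine ⟨⟨fun i => ?_, fun i => ?_⟩, ?_⟩
    · have := mem_Icc.mp (h1 i)
      rw [mem_Icc]
      constructor
      · show 1 ≤ 2 * q.1 i + 1
        omega
      · show 2 * q.1 i + 1 ≤ 2 * y + 1
        omega
    · have := mem_Icc.mp (h2 i)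
      rw [mem_Icc]
      constructor
      · show 1 ≤ 2 * q.2 i + 1
        omega
      · show 2 * q.2 i + 1 ≤ 2 * y + 1
        omega
    · simp only [Fin.sum_univ_three, sq] at h3 ⊢
      push_cast at h3 ⊢
      linarith
  · intro q _ q' _ h
    simp only [Prod.mk.injEq] at h
    obtain ⟨h1, h2⟩ := h
    refine Prod.ext ?_ ?_
    · funext i
      have := congrFun h1 i
      omega
    · funext i
      have := congrFun h2 i
      omega

lemma ev (B : ℝ) : ∃ N₀ : ℕ, ∀ N : ℕ, N₀ ≤ N → B ≤ Real.log N := by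
  have hlim : Filter.Tendsto (fun N : ℕ => Real.log (N : ℝ)) Filter.atTop Filter.atTop :=
    Real.tendsto_log_atTop.comp (tendsto_natCast_atTop_atTop (R := ℝ))
  exact Filter.eventually_atTop.mp (hlim.eventually_ge_atTop B)

theorem main : ∀ θ : ℝ, 0 ≤ θ → S_EN2 → S_R20 θ → S_R32 θ := by
  intro θ _ hEN h20 e A he
  obtain ⟨K, hK⟩ := hEN
  obtain ⟨B, N₀, h1⟩ := h20 3 e A (K + 1) (by norm_num) he
  obtain ⟨N₁, h2⟩ := ev (max 1 ((K : ℝ) * 729 * 2 ^ K))
  refine ⟨B, max N₀ N₁, fun X hX m y hy hm hXy hsX => ?_⟩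
  have hX0 : N₀ ≤ X := le_trans (le_max_left _ _) hX
  have hX1 : N₁ ≤ X := le_trans (le_max_right _ _) hX
  have hL := h2 X hX1
  set L := Real.log (X : ℝ) with hLdef
  have hL1 : 1 ≤ L := le_trans (le_max_left _ _) hL
  have hLK : (K : ℝ) * 729 * 2 ^ K ≤ L := le_trans (le_max_right _ _) hL
  have hyr : (2 : ℝ) ≤ y := by exact_mod_cast hy
  have hfam : Fam 3 (K + 1) X (2 * y * (2 * m + y + 1)) y ((2 * m ^ 2 + 2 * m + 2 : ℕ) : ℤ) (fun j => (sq m j : ℤ)) := by
    refine ⟨fun j hj => ?_, ?_⟩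
    · have hj1 := (mem_Icc.mp hj).1
      have hj2 := (mem_Icc.mp hj).2
      constructor
      · have : 2 * m ^ 2 + 2 * m + 2 < sq m j := by
          unfold sq
          nlinarith
        show ((2 * m ^ 2 + 2 * m + 2 : ℕ) : ℤ) < (sq m j : ℤ)
        exact_mod_cast this
      · have : sq m j ≤ 2 * m ^ 2 + 2 * m + 2 + 2 * y * (2 * m + y + 1) := by
          have h3 : sq m j ≤ sq m y := by
            unfold sq
            gcongr
          refine le_trans h3 (le_of_eq ?_)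
          unfold sq
          ring
        show (sq m j : ℤ) ≤ ((2 * m ^ 2 + 2 * m + 2 : ℕ) : ℤ) + ((2 * y * (2 * m + y + 1) : ℕ) : ℤ)
        exact_mod_cast this
    · have h3 := hK (2 * m) (2 * y + 1) (by omega) (by nlinarith)
      have h4 : (energy 3 y (fun j => (sq m j : ℤ)) : ℝ) ≤ (energy 3 (2 * y + 1) (fun j => (((2 * m : ℕ) : ℤ) + j) ^ 2) : ℝ) := by
        exact_mod_cast energy_le m y
      have h5 : ((2 * y * (2 * m + y + 1) : ℕ) : ℝ) ≤ ((2 * y + 1 : ℕ) : ℝ) * (2 * ((2 * m : ℕ) : ℝ) + ((2 * y + 1 : ℕ) : ℝ)) := by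
        push_cast
        have : (0 : ℝ) ≤ m := Nat.cast_nonneg m
        nlinarith
      have h6 : ((2 * y + 1 : ℕ) : ℝ) ^ 6 ≤ 729 * (y : ℝ) ^ 6 := by
        have h7 : ((2 * y + 1 : ℕ) : ℝ) ≤ 3 * y := by
          push_cast
          linarith
        calc ((2 * y + 1 : ℕ) : ℝ) ^ 6 ≤ (3 * y) ^ 6 := by gcongr
          _ = 729 * (y : ℝ) ^ 6 := by ring
      have h8 : 1 + Real.log ((2 * y + 1 : ℕ) : ℝ) ≤ 2 * L := by
        have h9 : 2 * y + 1 ≤ X := by nlinarith
        have h10 : Real.log ((2 * y + 1 : ℕ) : ℝ) ≤ L := by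
          apply Real.log_le_log
          · positivity
          · exact_mod_cast h9
        linarith
      have h8' : 0 ≤ 1 + Real.log ((2 * y + 1 : ℕ) : ℝ) := by
        have := Real.log_natCast_nonneg (2 * y + 1)
        linarith
      calc (energy 3 y (fun j => (sq m j : ℤ)) : ℝ) * ((2 * y * (2 * m + y + 1) : ℕ) : ℝ)
          ≤ (energy 3 (2 * y + 1) (fun j => (((2 * m : ℕ) : ℤ) + j) ^ 2) : ℝ) *
            (((2 * y + 1 : ℕ) : ℝ) * (2 * ((2 * m : ℕ) : ℝ) + ((2 * y + 1 : ℕ) : ℝ))) := by gcongr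
        _ ≤ K * ((2 * y + 1 : ℕ) : ℝ) ^ 6 * (1 + Real.log ((2 * y + 1 : ℕ) : ℝ)) ^ K := h3
        _ ≤ K * (729 * (y : ℝ) ^ 6) * (2 * L) ^ K := by gcongr
        _ = ((K : ℝ) * 729 * 2 ^ K) * L ^ K * (y : ℝ) ^ 6 := by
            rw [mul_pow]
            ring
        _ ≤ L * L ^ K * (y : ℝ) ^ 6 := by gcongr
        _ = L ^ (K + 1) * (y : ℝ) ^ (2 * 3) := by ring
  have h11 := h1 X hX0 (2 * y * (2 * m + y + 1)) y (2 * m ^ 2 + 2 * m + 2) (sq m) (by
    refine le_trans hXy ?_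
    push_cast
    have : (0 : ℝ) ≤ m := Nat.cast_nonneg m
    nlinarith) (by
    refine le_trans (le_of_eq ?_) hsX
    ring) hfam
  refine le_trans ?_ h11
  classical
  refine Nat.cast_le.mpr ?_
  apply card_le_card_of_injOn (fun n => n - m)
  · intro n hn
    rw [mem_coe, mem_filter, mem_Ioc] at hn
    obtain ⟨⟨h12, h13⟩, h14⟩ := hn
    rw [mem_coe, mem_filter, mem_Icc]
    refine ⟨⟨show 1 ≤ n - m by omega, show n - m ≤ y by omega⟩, ?_⟩
    have h15 : sq m (n - m) = 2 * n ^ 2 + 2 * n + 2 := by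
      unfold sq
      rw [Nat.add_sub_of_le h12.le]
    show ¬ Good7 A B X (sq m (n - m))
    rw [h15]
    exact h14
  · intro n hn n' hn' h
    rw [mem_coe, mem_filter, mem_Ioc] at hn hn'
    simp only at h
    omega

end Pool.Agent.helper24_UT.R32

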