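/-
UT_SQW   (project UT of helper24: primes at almost all systems of polynomials; very_famous ids, partial results)
TARGET: prove the theorem at the end. Its statement uses the definitions in the modules Pool/Agent/helper24_UT/Stm2.lean, Stm5.lean, Stm17.lean, Stm19.lean, Stm20.lean
(on origin/main; `git -C /workdir/pool/outputs/live pull`, then copy these files and the starting modules they import
to the same paths under /workdir/pool). You may import Mathlib and ANY starting module (copy it with its closure from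
outputs/live). READ the statement files first.
If the file named below helps, copy from it or import it. Put helper lemmas in the namespace below, do not change the target statement, no sorry, no native_decide, no new axioms,
no straight double quotes in the file. Paste the full proved file back as the result. If the statement is false or a
constant does not work out, set status='problem' and say exactly why.

PLAIN PROOF
The same as the parallel job UT_SQE (the case m = 0, windows = initial segments) for windows (m, m + y]. L = log X. S_EN2 gives K. V := A + 4. Dual use of S_LE with p = 3, N := X, B := 1, C := K + 1, U := A + 2V + 8 or so, exponent e: for a natural number Y with Wd theta e X m Y take x := Y, H := Y (2m + Y) (X^(theta+1/e) <= Y (m + Y) <= H <= (m+Y)^2 <= X) and the family s j = (m + j)^2, c = m^2 (values in (m^2, m^2 + H]) or s j = -(m+j)^2, c = -m^2 - H - 1: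
Fam 3 C X H Y c s by S_EN2 (the energy is unchanged under s -> -s; (1 + log Y)^K * K <= L^(K+1)); |c| <= 1 * X (c = -m^2-H-1: |c| <= X + 1; use B := 2).
By duality: for sigma = +-1 and any c_n with |c_n| <= 1: sum_{j<=Y} |sum_{n<=X} c_n Ed z (sigma n + s j)| <= X Y/L^U, hence sum_{n<=X} |sum_{j<=Y} Ed z (sigma n + s j)| <= X Y/L^U (choose c_n = the sign of the inner sum, exchange the sums).
 * a = n in [1, X]: Ed z ((m+j)^2 + a) (sigma = 1); Ed z (-(..)) = 0.   * a = -n: Ed z ((m+j)^2 - n) (sigma = -1) and Ed z (n - (m+j)^2) (sigma = 1, s = -(m+j)^2). a = 0: one value (X/L^A >= 1).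
Markov: for each grid point Y the number of the a with |sum over the window| > Y/(2 L^A) is at most 8 X L^(A-U). Reindex n = m + j.
Grid: for fixed m the set of the y with Wd theta e X m y is an interval [y0, y1]; grid points Y in [y0, y1] (including y0) so that for each y in [y0, y1] there is a grid point Y <= y with y - Y <= 2 y/L^V + 1; at most 4 L^(V+2) points. The terms m + Y < n <= m + y contribute at most (2y/L^V + 1) * 6L <= y/(2 L^A) (|Ed z v| <= 3L for |v| <= 2X: Vz_inv_small in Pool/Agent/H373R2/T7/LamZ2.lean; y is large: 2 y^3 >= y (m + y) >= X^(1/e)).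
-/
import Pool.Agent.helper24_UT.Stm20
import Pool.Agent.H373R2.T7.LamZ2

set_option autoImplicit false

namespace Pool.Agent.helper24_UT.Sqw

open Finset Polynomial
open Pool.Agent.helper24_UT
open Pool.Agent.H373R2.T7 (lamI lamzI lamz Vz pz energy)

theorem sw_lamI_bd (m : ℤ) (X : ℝ) (hX : 1 ≤ X) (hm : (m : ℝ) ≤ X) :
    0 ≤ lamI m ∧ lamI m ≤ Real.log X := by
  unfold Pool.Agent.H373R2.T7.lamI
  split_ifs with h
  · refine ⟨ArithmeticFunction.vonMangoldt_nonneg, ?_⟩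
    refine ArithmeticFunction.vonMangoldt_le_log.trans ?_
    have h1 : ((m.toNat : ℕ) : ℝ) = (m : ℝ) := by
      have : ((m.toNat : ℕ) : ℤ) = m := Int.toNat_of_nonneg (by omega)
      exact_mod_cast this
    have h2 : (1 : ℝ) ≤ (m : ℝ) := by exact_mod_cast h
    rw [h1]
    exact Real.log_le_log (by linarith) hm
  · exact ⟨le_rfl, Real.log_nonneg hX⟩

theorem sw_Vz_pos (z : ℕ) : 0 < Vz z := by
  unfold Pool.Agent.H373R2.T7.Vz
  refine Finset.prod_pos fun p hp => ?_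
  have h := (Pool.Agent.H373R2.T7.mem_pz.1 hp).2
  have h2 : (2 : ℝ) ≤ p := by exact_mod_cast h.two_le
  have h3 : 1 / (p : ℝ) ≤ 1 / 2 := by
    apply one_div_le_one_div_of_le (by norm_num) h2
  linarith

theorem sw_lamzI_bd (z : ℕ) (m : ℤ) : 0 ≤ lamzI z m ∧ lamzI z m ≤ (Vz z)⁻¹ := by
  have h := inv_pos.2 (sw_Vz_pos z)
  unfold Pool.Agent.H373R2.T7.lamzI Pool.Agent.H373R2.T7.lamz
  split_ifs
  · exact ⟨h.le, le_rfl⟩
  · exact ⟨le_rfl, h.le⟩
  · exact ⟨le_rfl, h.le⟩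

/-- size of the difference -/
theorem sw_Ed_bd (z X : ℕ) (hX : 1 ≤ Real.log X) (hV : (Vz z)⁻¹ ≤ Real.log X) (v : ℤ)
    (hv : v ≤ 2 * X) : |Ed z v| ≤ 2 * Real.log X := by
  have hX1 : (1 : ℝ) ≤ X := by
    by_contra h
    have h0 : X = 0 := by
      have : (X : ℝ) < 1 := not_le.1 h
      have : X < 1 := by exact_mod_cast this
      omega
    rw [h0] at hX
    simp at hX
    linarith
  have h1 := sw_lamI_bd v (2 * X) (by linarith) (by exact_mod_cast hv)
  have h2 := sw_lamzI_bd z v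
  have h3 : Real.log (2 * X) ≤ 2 * Real.log X := by
    rw [Real.log_mul (by norm_num) (by linarith)]
    have : Real.log 2 ≤ 1 := by
      have := Real.log_two_lt_d9
      linarith
    linarith
  unfold Ed
  rw [abs_le]
  constructor <;> linarith

theorem sw_dual {α β : Type} (S : Finset α) (T : Finset β) (F : α → β → ℝ) (B : ℝ)
    (h : ∀ ε : α → ℝ, (∀ n, |ε n| ≤ 1) → ∑ j ∈ T, |∑ n ∈ S, ε n * F n j| ≤ B) :
    ∑ n ∈ S, |∑ j ∈ T, F n j| ≤ B := by
  classical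
  have h1 := h (fun n => if 0 ≤ ∑ j ∈ T, F n j then 1 else -1) (fun n => by
    split_ifs <;> simp)
  refine le_trans (le_of_eq ?_) ((Finset.sum_le_sum fun j _ => le_abs_self _).trans h1)
  rw [Finset.sum_comm]
  refine Finset.sum_congr rfl fun n _ => ?_
  rw [← Finset.mul_sum]
  split_ifs with h2
  · rw [abs_of_nonneg h2, one_mul]
  · rw [abs_of_neg (not_le.1 h2)]
    ring

open Classical in
theorem sw_markov {α : Type} (S : Finset α) (f : α → ℝ) (B lam : ℝ) (hl : 0 < lam)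
    (hf : ∀ a ∈ S, 0 ≤ f a) (h : ∑ a ∈ S, f a ≤ B) :
    ((S.filter (fun a => lam < f a)).card : ℝ) ≤ B / lam := by
  rw [le_div_iff₀ hl]
  calc ((S.filter (fun a => lam < f a)).card : ℝ) * lam
      = ∑ a ∈ S.filter (fun a => lam < f a), lam := by
        rw [Finset.sum_const, nsmul_eq_mul]
    _ ≤ ∑ a ∈ S.filter (fun a => lam < f a), f a :=
        Finset.sum_le_sum fun a ha => (Finset.mem_filter.1 ha).2.le
    _ ≤ ∑ a ∈ S, f a :=
        Finset.sum_le_sum_of_subset_of_nonneg (Finset.filter_subset _ _) fun a ha _ => hf a ha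
    _ ≤ B := h

theorem sw_energy (p x : ℕ) (s t : ℕ → ℤ) (σ c : ℤ) (hσ : σ ≠ 0) (h : ∀ j, t j = σ * s j + c) :
    energy p x t = energy p x s := by
  unfold Pool.Agent.H373R2.T7.energy
  congr 1
  apply Finset.filter_congr
  intro q _
  simp only [h, Finset.sum_add_distrib, ← Finset.mul_sum]
  constructor
  · intro h1
    exact mul_left_cancel₀ hσ (add_right_cancel h1)
  · intro h1
    rw [h1]

theorem sw_grid (y R X : ℕ) (hy : 1 ≤ y) (hR : 1 ≤ R) (hX : y ≤ X) :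
    ∃ k ∈ range (Nat.log 2 X + 1), ∃ t ∈ range (2 * R + 1),
      (t * 2 ^ k + (R - 1)) / R ≤ y ∧ y * R ≤ ((t * 2 ^ k + (R - 1)) / R) * R + y := by
  refine ⟨Nat.log 2 y, ?_, y * R / 2 ^ (Nat.log 2 y), ?_, ?_, ?_⟩
  · rw [Finset.mem_range]
    exact Nat.lt_succ_of_le (Nat.log_mono_right hX)
  · rw [Finset.mem_range]
    apply Nat.lt_succ_of_le
    have h1 : y < 2 ^ (Nat.log 2 y).succ := Nat.lt_pow_succ_log_self (by norm_num) y
    have hp : 0 < 2 ^ (Nat.log 2 y) := by positivity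
    rw [Nat.div_le_iff_le_mul_add_pred hp]
    have : y * R ≤ 2 ^ (Nat.log 2 y).succ * R := Nat.mul_le_mul_right _ h1.le
    rw [pow_succ] at this
    calc y * R ≤ 2 ^ Nat.log 2 y * 2 * R := this
      _ = 2 ^ Nat.log 2 y * (2 * R) := by ring
      _ ≤ _ := Nat.le_add_right _ _
  · have h1 : y * R / 2 ^ (Nat.log 2 y) * 2 ^ (Nat.log 2 y) ≤ y * R := Nat.div_mul_le_self _ _
    rw [Nat.div_le_iff_le_mul_add_pred hR]
    rw [mul_comm R y]
    omega
  · have h2 : y * R < y * R / 2 ^ (Nat.log 2 y) * 2 ^ (Nat.log 2 y) + 2 ^ (Nat.log 2 y) :=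
      Nat.lt_div_mul_add (by positivity)
    have h3 : 2 ^ (Nat.log 2 y) ≤ y := Nat.pow_log_le_self 2 (by omega)
    set x := y * R / 2 ^ (Nat.log 2 y) * 2 ^ (Nat.log 2 y) with hx
    have h4 : x + (R - 1) < (x + (R - 1)) / R * R + R := Nat.lt_div_mul_add (by omega)
    omega

/-- one window sum -/
noncomputable def TT (z m Y : ℕ) (a : ℤ) : ℝ :=
  ∑ n ∈ Ioc m (m + Y), (Ed z ((n : ℤ) ^ 2 + a) + Ed z (-((n : ℤ) ^ 2 + a)))

theorem sw_TT (z m Y : ℕ) (a : ℤ) : TT z m Y a =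
    ∑ j ∈ Icc 1 Y, Ed z (((m : ℤ) + j) ^ 2 + a) + ∑ j ∈ Icc 1 Y, Ed z (-(((m : ℤ) + j) ^ 2 + a)) := by
  unfold TT
  rw [← Finset.sum_add_distrib]
  symm
  refine Finset.sum_nbij' (fun j => m + j) (fun n => n - m) ?_ ?_ ?_ ?_ ?_
  · intro j hj
    rw [Finset.mem_Icc] at hj
    rw [Finset.mem_Ioc]
    omega
  · intro n hn
    rw [Finset.mem_Ioc] at hn
    rw [Finset.mem_Icc]
    omega
  · intro j _
    omega
  · intro n hn
    rw [Finset.mem_Ioc] at hn
    omega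
  · intro j _
    push_cast
    rfl

theorem sw_re1 (X : ℕ) (f : ℤ → ℝ) :
    ∑ a ∈ Icc (-(X : ℤ)) X, f a = ∑ n ∈ Icc 1 (2 * X + 1), f ((n : ℤ) - X - 1) := by
  symm
  refine Finset.sum_nbij' (fun n : ℕ => (n : ℤ) - X - 1) (fun a : ℤ => (a + X + 1).toNat) ?_ ?_ ?_ ?_ ?_
  · intro n hn
    rw [Finset.mem_Icc] at hn ⊢
    omega
  · intro a ha
    rw [Finset.mem_Icc] at ha ⊢
    omega
  · intro n _
    omega
  · intro a ha
    rw [Finset.mem_Icc] at ha
    omega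
  · intro n _
    rfl

theorem sw_re2 (X : ℕ) (f : ℤ → ℝ) :
    ∑ a ∈ Icc (-(X : ℤ)) X, f a = ∑ n ∈ Icc 1 (2 * X + 1), f ((X : ℤ) + 1 - n) := by
  symm
  refine Finset.sum_nbij' (fun n : ℕ => (X : ℤ) + 1 - n) (fun a : ℤ => (X + 1 - a).toNat) ?_ ?_ ?_ ?_ ?_
  · intro n hn
    rw [Finset.mem_Icc] at hn ⊢
    omega
  · intro a ha
    rw [Finset.mem_Icc] at ha ⊢
    omega
  · intro n _
    omega
  · intro a ha
    rw [Finset.mem_Icc] at ha
    omega
  · intro n _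
    rfl

/-- the fixed window -/
theorem sw_fix (θ : ℝ) (e K U X z : ℕ) (hX : 2 ≤ X) (L : ℝ) (hL : L = Real.log X)
    (hLE : ∀ H : ℕ, (X : ℝ) ^ (θ + 1 / e : ℝ) ≤ H → H ≤ X → ∀ (c : ℤ) (x : ℕ) (s : ℕ → ℤ),
      |c| ≤ (3 : ℕ) * X → Fam 3 (K + 1) X H x c s → ∀ y : ℕ, y ≤ 3 * X →
      ∀ G : ℕ → ℂ, (∀ n, ‖G n‖ ≤ 1) →
      ∑ m ∈ Icc 1 x, ‖∑ n ∈ Icc 1 y, G n * (Ed z ((1 : ℤ) * n + s m) : ℂ)‖ ≤ (X : ℝ) * x / L ^ U)
    (m Y : ℕ) (hY1 : (X : ℝ) ^ (θ + 1 / e : ℝ) ≤ (Y : ℝ) * (m + Y)) (hY2 : (m + Y) ^ 2 ≤ X)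
    (hEN : (energy 3 Y (fun j => ((m : ℤ) + j) ^ 2) : ℝ) * (Y * (2 * m + Y)) ≤
      L ^ (K + 1) * (Y : ℝ) ^ 6) :
    ∑ a ∈ Icc (-(X : ℤ)) X, |TT z m Y a| ≤ 2 * ((X : ℝ) * Y / L ^ U) := by
  have hH1 : (X : ℝ) ^ (θ + 1 / e : ℝ) ≤ ((Y * (2 * m + Y) : ℕ) : ℝ) := by
    refine hY1.trans ?_
    push_cast
    have h1 : (0 : ℝ) ≤ m := Nat.cast_nonneg m
    have h2 : (0 : ℝ) ≤ Y := Nat.cast_nonneg Y
    nlinarith
  have hH2 : Y * (2 * m + Y) ≤ X := by
    refine le_trans ?_ hY2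
    nlinarith [Nat.zero_le (m ^ 2)]
  have hm2 : (m : ℤ) ^ 2 ≤ X := by
    have : m ^ 2 ≤ (m + Y) ^ 2 := Nat.pow_le_pow_left (by omega) 2
    exact_mod_cast this.trans hY2
  have hmY2 : ((m : ℤ) + Y) ^ 2 ≤ X := by exact_mod_cast hY2
  have hX' : (2 : ℤ) ≤ X := by exact_mod_cast hX
  have hen : ∀ (s : ℕ → ℤ) (c : ℤ) (σ c' : ℤ), σ ≠ 0 → (∀ j, s j = σ * ((m : ℤ) + j) ^ 2 + c') →
      (∀ j ∈ Icc 1 Y, c < s j ∧ s j ≤ c + ((Y * (2 * m + Y) : ℕ) : ℤ)) →
      Fam 3 (K + 1) X (Y * (2 * m + Y)) Y c s := by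
    intro s c σ c' hσ hs hc
    refine ⟨hc, ?_⟩
    rw [sw_energy 3 Y (fun j => ((m : ℤ) + j) ^ 2) s σ c' hσ hs, ← hL]
    push_cast
    exact hEN
  have key : ∀ (s : ℕ → ℤ) (c : ℤ), |c| ≤ (3 : ℕ) * (X : ℤ) →
      Fam 3 (K + 1) X (Y * (2 * m + Y)) Y c s →
      ∑ n ∈ Icc 1 (2 * X + 1), |∑ j ∈ Icc 1 Y, Ed z ((n : ℤ) + s j)| ≤ (X : ℝ) * Y / L ^ U := by
    intro s c hc hF
    apply sw_dual
    intro ε hε
    have h := hLE (Y * (2 * m + Y)) hH1 hH2 c Y s hc hF (2 * X + 1) (by omega)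
      (fun n => (ε n : ℂ)) (fun n => by rw [Complex.norm_real]; exact hε n)
    refine le_trans (le_of_eq ?_) h
    refine Finset.sum_congr rfl fun j _ => ?_
    have e1 : (∑ n ∈ Icc 1 (2 * X + 1), (ε n : ℂ) * (Ed z ((1 : ℤ) * n + s j) : ℂ)) =
        ((∑ n ∈ Icc 1 (2 * X + 1), ε n * Ed z ((n : ℤ) + s j) : ℝ) : ℂ) := by
      push_cast
      refine Finset.sum_congr rfl fun n _ => ?_
      rw [one_mul]
    rw [e1, Complex.norm_real, Real.norm_eq_abs]
  have hj : ∀ j ∈ Icc 1 Y, (m : ℤ) ^ 2 < ((m : ℤ) + j) ^ 2 ∧ ((m : ℤ) + j) ^ 2 ≤ ((m : ℤ) + Y) ^ 2 := by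
    intro j hj
    rw [Finset.mem_Icc] at hj
    have h0 : (0 : ℤ) ≤ m := Int.natCast_nonneg m
    have h1 : (1 : ℤ) ≤ j := by exact_mod_cast hj.1
    have h2 : (j : ℤ) ≤ Y := by exact_mod_cast hj.2
    constructor <;> nlinarith
  have hHz : ((Y * (2 * m + Y) : ℕ) : ℤ) = ((m : ℤ) + Y) ^ 2 - (m : ℤ) ^ 2 := by
    push_cast
    ring
  have k1 : ∑ a ∈ Icc (-(X : ℤ)) X, |∑ j ∈ Icc 1 Y, Ed z (((m : ℤ) + j) ^ 2 + a)| ≤
      (X : ℝ) * Y / L ^ U := by
    rw [sw_re1 X (fun a => |∑ j ∈ Icc 1 Y, Ed z (((m : ℤ) + j) ^ 2 + a)|)]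
    refine le_trans (le_of_eq ?_) (key (fun j => ((m : ℤ) + j) ^ 2 - X - 1) ((m : ℤ) ^ 2 - X - 1) ?_ ?_)
    · refine Finset.sum_congr rfl fun n _ => ?_
      congr 1
      refine Finset.sum_congr rfl fun j _ => ?_
      congr 1
      ring
    · have h0 : (0 : ℤ) ≤ (m : ℤ) ^ 2 := sq_nonneg _
      rw [abs_le]
      push_cast
      constructor <;> linarith
    · refine hen _ _ 1 (-X - 1) one_ne_zero (fun j => by ring) fun j hj' => ?_
      have := hj j hj'
      rw [hHz]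
      constructor <;> linarith
  have k2 : ∑ a ∈ Icc (-(X : ℤ)) X, |∑ j ∈ Icc 1 Y, Ed z (-(((m : ℤ) + j) ^ 2 + a))| ≤
      (X : ℝ) * Y / L ^ U := by
    rw [sw_re2 X (fun a => |∑ j ∈ Icc 1 Y, Ed z (-(((m : ℤ) + j) ^ 2 + a))|)]
    refine le_trans (le_of_eq ?_) (key (fun j => -((m : ℤ) + j) ^ 2 - X - 1)
      (-((m : ℤ) + Y) ^ 2 - X - 2) ?_ ?_)
    · refine Finset.sum_congr rfl fun n _ => ?_
      congr 1
      refine Finset.sum_congr rfl fun j _ => ?_
      congr 1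
      ring
    · have h0 : (0 : ℤ) ≤ ((m : ℤ) + Y) ^ 2 := sq_nonneg _
      rw [abs_le]
      push_cast
      constructor <;> linarith
    · refine hen _ _ (-1) (-X - 1) (by norm_num) (fun j => by ring) fun j hj' => ?_
      have := hj j hj'
      rw [hHz]
      constructor <;> linarith
  calc ∑ a ∈ Icc (-(X : ℤ)) X, |TT z m Y a|
      ≤ ∑ a ∈ Icc (-(X : ℤ)) X, (|∑ j ∈ Icc 1 Y, Ed z (((m : ℤ) + j) ^ 2 + a)| +
          |∑ j ∈ Icc 1 Y, Ed z (-(((m : ℤ) + j) ^ 2 + a))|) := by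
        refine Finset.sum_le_sum fun a _ => ?_
        rw [sw_TT]
        exact abs_add_le _ _
    _ ≤ 2 * ((X : ℝ) * Y / L ^ U) := by
        rw [Finset.sum_add_distrib]
        linarith

/-- nearby windows -/
theorem sw_near (z X m y Y : ℕ) (L : ℝ) (hL : L = Real.log X) (hL1 : 1 ≤ L)
    (hV : (Vz z)⁻¹ ≤ Real.log X) (a : ℤ) (ha : a ∈ Icc (-(X : ℤ)) X) (hYy : Y ≤ y)
    (hy2 : (m + y) ^ 2 ≤ X) : |TT z m y a - TT z m Y a| ≤ ((y : ℝ) - Y) * (4 * L) := by
  have h1 : TT z m y a - TT z m Y a = ∑ n ∈ Ioc (m + Y) (m + y),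
      (Ed z ((n : ℤ) ^ 2 + a) + Ed z (-((n : ℤ) ^ 2 + a))) := by
    unfold TT
    rw [← Finset.sum_Ioc_consecutive _ (show m ≤ m + Y by omega) (show m + Y ≤ m + y by omega)]
    ring
  rw [h1]
  refine (Finset.abs_sum_le_sum_abs _ _).trans ?_
  have h2 : ∀ n ∈ Ioc (m + Y) (m + y),
      |Ed z ((n : ℤ) ^ 2 + a) + Ed z (-((n : ℤ) ^ 2 + a))| ≤ 4 * L := by
    intro n hn
    rw [Finset.mem_Ioc] at hn
    rw [Finset.mem_Icc] at ha
    have h3 : (n : ℤ) ^ 2 ≤ X := by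
      have : n ^ 2 ≤ (m + y) ^ 2 := Nat.pow_le_pow_left hn.2 2
      exact_mod_cast this.trans hy2
    have h4 : (0 : ℤ) ≤ (n : ℤ) ^ 2 := sq_nonneg _
    have e1 := sw_Ed_bd z X (by rw [← hL]; exact hL1) hV ((n : ℤ) ^ 2 + a) (by linarith [ha.2])
    have e2 := sw_Ed_bd z X (by rw [← hL]; exact hL1) hV (-((n : ℤ) ^ 2 + a)) (by linarith [ha.1, ha.2])
    rw [← hL] at e1 e2
    refine (abs_add_le _ _).trans ?_
    linarith
  refine (Finset.sum_le_sum h2).trans ?_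
  rw [Finset.sum_const, Nat.card_Ioc, nsmul_eq_mul]
  have e : ((m + y - (m + Y) : ℕ) : ℝ) = (y : ℝ) - Y := by
    rw [Nat.cast_sub (by omega)]
    push_cast
    ring
  rw [e]

theorem main : ∀ θ : ℝ, 0 ≤ θ → S_LE θ → S_EN2 → S_SQW θ := by
  classical
  intro θ hθ hLE hEN e A he
  obtain ⟨K, hK⟩ := hEN
  obtain ⟨B₀, hB₀⟩ := hLE 3 e 3 (K + 1) (3 * A + 4) (by norm_num) he
  refine ⟨B₀, fun E₁ => ?_⟩
  obtain ⟨N₂, hN₂⟩ := hB₀ E₁
  obtain ⟨N₃, hN₃⟩ := Pool.Agent.H373R2.T7.Vz_inv_small E₁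
  have hlim : Filter.Tendsto (fun N : ℕ => Real.log (N : ℝ)) Filter.atTop Filter.atTop :=
    Real.tendsto_log_atTop.comp (tendsto_natCast_atTop_atTop (R := ℝ))
  obtain ⟨N₄, hN₄⟩ := Filter.eventually_atTop.1 (hlim.eventually_ge_atTop (60 + K : ℝ))
  obtain ⟨N₅, hN₅⟩ : ∃ N₅ : ℕ, N₅ = 3 ^ e := ⟨_, rfl⟩
  refine ⟨N₂ + N₃ + N₄ + N₅ + 2, ?_⟩
  intro X hX z hz1 hz2 m
  have hK0 : (0 : ℝ) ≤ K := Nat.cast_nonneg K
  obtain ⟨L, hL⟩ : ∃ L, L = Real.log X := ⟨_, rfl⟩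
  have hLb : 60 + K ≤ L := by rw [hL]; exact hN₄ X (by omega)
  have hX1 : (1 : ℝ) ≤ X := by exact_mod_cast (by omega : 1 ≤ X)
  have hz0 : 1 ≤ z := by
    have h1 : (1 : ℝ) ≤ z := by
      refine (one_le_pow₀ ?_).trans hz1
      rw [← hL]; linarith
    exact_mod_cast h1
  have hV := hN₃ X (by omega) z hz0 hz2
  have hbig : (2 : ℝ) < (X : ℝ) ^ (θ + 1 / e : ℝ) := by
    have he0 : (0 : ℝ) < e := by exact_mod_cast he
    have h1 : (3 : ℝ) ^ e ≤ X := by
      have : 3 ^ e ≤ X := by rw [← hN₅]; omega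
      exact_mod_cast this
    have h2 : (3 : ℝ) ≤ (X : ℝ) ^ (1 / e : ℝ) := by
      have h3 : ((3 : ℝ) ^ e) ^ (1 / e : ℝ) ≤ (X : ℝ) ^ (1 / e : ℝ) :=
        Real.rpow_le_rpow (by positivity) h1 (by positivity)
      rw [← Real.rpow_natCast, ← Real.rpow_mul (by norm_num), mul_one_div_cancel he0.ne',
        Real.rpow_one] at h3
      exact h3
    have h4 : (X : ℝ) ^ (1 / e : ℝ) ≤ (X : ℝ) ^ (θ + 1 / e : ℝ) :=
      Real.rpow_le_rpow_of_exponent_le hX1 (by linarith)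
    linarith
  have hLE' := fun H h1 h2 c x s h3 h4 y h5 G h6 =>
    hN₂ X (by omega) H h1 h2 c x s h3 h4 z hz1 hz2 1 (Or.inl rfl) y h5 G h6
  -- windows are long
  have hlong : ∀ Y, Wd θ e X m Y → 2 ≤ Y := by
    intro Y hY
    by_contra hcon
    have hY1 : Y ≤ 1 := by omega
    have h1 : m ≤ 1 := by
      refine hY.1.trans ?_
      calc Y ^ 2 ≤ 1 ^ 2 := Nat.pow_le_pow_left hY1 2
        _ = 1 := by norm_num
    have h2 : Y * (m + Y) ≤ 2 := by
      calc Y * (m + Y) ≤ 1 * (1 + 1) := Nat.mul_le_mul hY1 (by omega)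
        _ = 2 := by norm_num
    have h3 : ((Y : ℝ) * (m + Y)) ≤ 2 := by exact_mod_cast h2
    linarith [hY.2.1]
  -- the mean over `a`
  have hmean : ∀ Y, Wd θ e X m Y →
      ∑ a ∈ Icc (-(X : ℤ)) X, |TT z m Y a| ≤ 2 * ((X : ℝ) * Y / L ^ (3 * A + 4)) := by
    intro Y hY
    have hY2 := hlong Y hY
    refine sw_fix θ e K (3 * A + 4) X z (by omega) L hL ?_ m Y hY.2.1 hY.2.2 ?_
    · rw [hL]
      exact hLE'
    · have h1 := hK m Y hY2 hY.1
      refine h1.trans ?_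
      have hYr : (2 : ℝ) ≤ Y := by exact_mod_cast hY2
      have h2 : Real.log Y ≤ L / 2 := by
        have h3 : (Y : ℝ) ^ 2 ≤ X := by
          have : Y ^ 2 ≤ (m + Y) ^ 2 := Nat.pow_le_pow_left (by omega) 2
          exact_mod_cast this.trans hY.2.2
        have h4 := Real.log_le_log (by positivity) h3
        rw [Real.log_pow, ← hL] at h4
        push_cast at h4
        linarith
      have h3 : (1 + Real.log Y) ^ K ≤ L ^ K := by
        apply pow_le_pow_left₀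
        · have := Real.log_nonneg (show (1 : ℝ) ≤ Y by linarith)
          linarith
        · linarith
      have h4 : (K : ℝ) * (1 + Real.log Y) ^ K ≤ L ^ (K + 1) := by
        rw [pow_succ, mul_comm (L ^ K) L]
        exact mul_le_mul (by linarith) h3 (pow_nonneg (by
          have := Real.log_nonneg (show (1 : ℝ) ≤ Y by linarith)
          linarith) _) (by linarith)
      calc (K : ℝ) * (Y : ℝ) ^ 6 * (1 + Real.log Y) ^ K
          = (K : ℝ) * (1 + Real.log Y) ^ K * (Y : ℝ) ^ 6 := by ring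
        _ ≤ L ^ (K + 1) * (Y : ℝ) ^ 6 := mul_le_mul_of_nonneg_right h4 (by positivity)
  have hL0 : 0 < L := by linarith
  -- Markov
  have hmk : ∀ Y, Wd θ e X m Y →
      (((Icc (-(X : ℤ)) X).filter (fun a => (Y : ℝ) / (2 * L ^ A) < |TT z m Y a|)).card : ℝ) ≤
        4 * X * L ^ A / L ^ (3 * A + 4) := by
    intro Y hY
    have hY0 : (0 : ℝ) < Y := by
      have := hlong Y hY
      exact_mod_cast (by omega : 0 < Y)
    refine (sw_markov _ (fun a => |TT z m Y a|) _ ((Y : ℝ) / (2 * L ^ A)) (by positivity)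
      (fun a _ => abs_nonneg _) (hmean Y hY)).trans (le_of_eq ?_)
    field_simp
    ring
  -- the grid
  set y0 : ℕ := sInf {y | Wd θ e X m y} with hy0
  set R : ℕ := ⌈L ^ (A + 2)⌉₊ with hR
  have hRL : L ^ (A + 2) ≤ R := Nat.le_ceil _
  have hR1 : 1 ≤ R := by
    have : (1 : ℝ) ≤ R := (one_le_pow₀ (by linarith)).trans hRL
    exact_mod_cast this
  set Yf : ℕ × ℕ → ℕ := fun p => max ((p.2 * 2 ^ p.1 + (R - 1)) / R) y0 with hYf
  set P : Finset (ℕ × ℕ) := (range (Nat.log 2 X + 1) ×ˢ range (2 * R + 1)).filter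
    (fun p => Wd θ e X m (Yf p)) with hP
  have hsub : (Icc (-(X : ℤ)) X).filter (fun a => ∃ y : ℕ, Wd θ e X m y ∧
      (y : ℝ) / (Real.log X) ^ A < |∑ n ∈ Ioc m (m + y), (Ed z ((n : ℤ) ^ 2 + a) +
        Ed z (-((n : ℤ) ^ 2 + a)))|) ⊆ P.biUnion (fun p => (Icc (-(X : ℤ)) X).filter
      (fun a => (Yf p : ℝ) / (2 * L ^ A) < |TT z m (Yf p) a|)) := by
    intro a ha
    rw [Finset.mem_filter] at ha
    obtain ⟨ha1, y, hy, hya⟩ := ha
    have hy2 := hlong y hy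
    have hyX : y ≤ X := by
      refine le_trans ?_ hy.2.2
      nlinarith [Nat.zero_le m]
    have hy0y : y0 ≤ y := Nat.sInf_le hy
    have hne : {y | Wd θ e X m y}.Nonempty := ⟨y, hy⟩
    have hy0W : Wd θ e X m y0 := Nat.sInf_mem hne
    obtain ⟨k, hk, t, ht, h1, h2⟩ := sw_grid y R X (by omega) hR1 hyX
    obtain ⟨Y', hY'⟩ : ∃ Y', Y' = (t * 2 ^ k + (R - 1)) / R := ⟨_, rfl⟩
    rw [← hY'] at h1 h2
    have hYk : Yf (k, t) = max Y' y0 := by rw [hYf, hY']
    obtain ⟨Y, hY⟩ : ∃ Y, Y = Yf (k, t) := ⟨_, rfl⟩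
    have hYy : Y ≤ y := by rw [hY, hYk]; exact max_le h1 hy0y
    have hY0 : y0 ≤ Y := by rw [hY, hYk]; exact le_max_right _ _
    have hY1 : Y' ≤ Y := by rw [hY, hYk]; exact le_max_left _ _
    have hYW : Wd θ e X m Y := by
      refine ⟨hy0W.1.trans (Nat.pow_le_pow_left hY0 2), hy0W.2.1.trans ?_,
        (Nat.pow_le_pow_left (by omega) 2).trans hy.2.2⟩
      have : (y0 : ℝ) ≤ Y := by exact_mod_cast hY0
      gcongr
    rw [Finset.mem_biUnion]
    refine ⟨(k, t), ?_, ?_⟩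
    · rw [hP, Finset.mem_filter, Finset.mem_product]
      exact ⟨⟨hk, ht⟩, by rw [← hY]; exact hYW⟩
    · rw [← hY, Finset.mem_filter]
      refine ⟨ha1, ?_⟩
      have hn := sw_near z X m y Y L hL (by linarith) hV a ha1 hYy hy.2.2
      rw [← hL] at hya
      change (y : ℝ) / L ^ A < |TT z m y a| at hya
      have h3 : ((y : ℝ) - Y) * L ^ (A + 2) ≤ y := by
        have h4 : ((y : ℝ) - Y) * R ≤ y := by
          have h5 : (y : ℝ) * R ≤ Y' * R + y := by exact_mod_cast h2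
          have h6 : (Y' : ℝ) ≤ Y := by exact_mod_cast hY1
          have h7 : (0 : ℝ) ≤ R := Nat.cast_nonneg R
          nlinarith
        have h5 : (0 : ℝ) ≤ (y : ℝ) - Y := by
          have : (Y : ℝ) ≤ y := by exact_mod_cast hYy
          linarith
        exact (mul_le_mul_of_nonneg_left hRL h5).trans h4
      have h4 : ((y : ℝ) - Y) * (4 * L) ≤ y / (2 * L ^ A) := by
        rw [le_div_iff₀ (by positivity)]
        have h5 : ((y : ℝ) - Y) * (4 * L) * (2 * L ^ A) * L = 8 * (((y : ℝ) - Y) * L ^ (A + 2)) := by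
          ring
        have h6 : ((y : ℝ) - Y) * (4 * L) * (2 * L ^ A) * L ≤ y * L := by
          rw [h5]
          have : (0 : ℝ) ≤ y := Nat.cast_nonneg y
          nlinarith
        exact le_of_mul_le_mul_right h6 hL0
      have h5 : (Y : ℝ) / (2 * L ^ A) ≤ y / (2 * L ^ A) := by
        have : (Y : ℝ) ≤ y := by exact_mod_cast hYy
        gcongr
      have h6 : (y : ℝ) / L ^ A = y / (2 * L ^ A) + y / (2 * L ^ A) := by
        field_simp
        ring
      have h7 := abs_sub_abs_le_abs_sub (TT z m y a) (TT z m Y a)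
      linarith
  have hcard : (P.card : ℝ) ≤ 15 * L ^ (A + 3) := by
    have h1 : P.card ≤ (Nat.log 2 X + 1) * (2 * R + 1) := by
      rw [hP]
      refine (Finset.card_filter_le _ _).trans ?_
      rw [Finset.card_product, Finset.card_range, Finset.card_range]
    have h2 : ((Nat.log 2 X : ℕ) : ℝ) ≤ 2 * L := by
      have h3 : (2 : ℝ) ^ (Nat.log 2 X) ≤ X := by
        have : 2 ^ (Nat.log 2 X) ≤ X := Nat.pow_log_le_self 2 (by omega)
        exact_mod_cast this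
      have h4 := Real.log_le_log (by positivity) h3
      rw [Real.log_pow, ← hL] at h4
      have h5 := Real.log_two_gt_d9
      have h6 : (0 : ℝ) ≤ (Nat.log 2 X : ℕ) := Nat.cast_nonneg _
      nlinarith
    have h3 : (R : ℝ) ≤ 2 * L ^ (A + 2) := by
      have h4 : (R : ℝ) < L ^ (A + 2) + 1 := Nat.ceil_lt_add_one (by positivity)
      have h5 : (1 : ℝ) ≤ L ^ (A + 2) := one_le_pow₀ (by linarith)
      linarith
    have h4 : (P.card : ℝ) ≤ ((Nat.log 2 X : ℕ) + 1) * (2 * R + 1) := by exact_mod_cast h1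
    have h5 : (1 : ℝ) ≤ L ^ (A + 2) := one_le_pow₀ (by linarith)
    refine h4.trans ?_
    calc (((Nat.log 2 X : ℕ) : ℝ) + 1) * (2 * R + 1) ≤ (3 * L) * (5 * L ^ (A + 2)) := by
          apply mul_le_mul (by linarith) (by linarith) (by positivity) (by positivity)
      _ = 15 * L ^ (A + 3) := by ring
  have hfin := (Finset.card_le_card hsub).trans Finset.card_biUnion_le
  have hfin2 : (((Icc (-(X : ℤ)) X).filter (fun a => ∃ y : ℕ, Wd θ e X m y ∧
      (y : ℝ) / (Real.log X) ^ A < |∑ n ∈ Ioc m (m + y), (Ed z ((n : ℤ) ^ 2 + a) +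
        Ed z (-((n : ℤ) ^ 2 + a)))|)).card : ℝ) ≤ ∑ p ∈ P, (((Icc (-(X : ℤ)) X).filter
      (fun a => (Yf p : ℝ) / (2 * L ^ A) < |TT z m (Yf p) a|)).card : ℝ) := by
    exact_mod_cast hfin
  refine hfin2.trans ((Finset.sum_le_sum fun p hp => hmk (Yf p) (Finset.mem_filter.1 hp).2).trans ?_)
  rw [Finset.sum_const, nsmul_eq_mul, ← hL]
  calc (P.card : ℝ) * (4 * X * L ^ A / L ^ (3 * A + 4))
      ≤ (15 * L ^ (A + 3)) * (4 * X * L ^ A / L ^ (3 * A + 4)) :=
        mul_le_mul_of_nonneg_right hcard (by positivity)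
    _ = 60 / L * (X / L ^ A) := by
        field_simp
        ring
    _ ≤ 1 * (X / L ^ A) := by
        apply mul_le_mul_of_nonneg_right _ (by positivity)
        rw [div_le_one hL0]
        linarith
    _ = X / L ^ A := one_mul _

end Pool.Agent.helper24_UT.Sqw
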