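/-
UT_THW   (project UT of helper24: primes at almost all systems of polynomials; very_famous ids, partial results)
-/
import Pool.Agent.helper24_UT.Stm20

set_option autoImplicit false

namespace Pool.Agent.helper24_UT.Thw

open Finset Polynomial
open Pool.Agent.helper24_UT
open Pool.Agent.H373R2.T7 (lamI lamzI lamz Vz pz energy)

/-- the logarithm on the primes -/
noncomputable def thp (l : ℕ) : ℝ := if l.Prime then Real.log l else 0

/-- the von Mangoldt function outside the primes -/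
noncomputable def ppw (l : ℕ) : ℝ := if l.Prime then 0 else ArithmeticFunction.vonMangoldt l

lemma vm_split (l : ℕ) : ArithmeticFunction.vonMangoldt l = thp l + ppw l := by
  unfold thp ppw
  split_ifs with h
  · rw [ArithmeticFunction.vonMangoldt_apply_prime h, add_zero]
  · rw [zero_add]

lemma ppw_nn (l : ℕ) : 0 ≤ ppw l := by
  unfold ppw
  split_ifs
  · exact le_rfl
  · exact ArithmeticFunction.vonMangoldt_nonneg

lemma ppw_zero : ppw 0 = 0 := by
  unfold ppw
  rw [if_neg (by norm_num)]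
  simp

lemma sum_ppw {N : ℕ} (hN : 1 ≤ N) : ∑ l ∈ Icc 1 N, ppw l ≤ 2 * Real.sqrt N * Real.log N := by
  have h1 := Chebyshev.psi_sub_theta_le (x := (N : ℝ)) (by exact_mod_cast hN)
  rw [Chebyshev.psi_sub_theta_eq_sum_not_prime, Nat.floor_natCast, sum_filter] at h1
  refine le_trans (le_of_eq ?_) h1
  refine sum_congr ?_ fun l _ => ?_
  · ext b
    rw [mem_Icc, mem_Ioc]
    omega
  · unfold ppw
    by_cases h : l.Prime
    · rw [if_pos h, if_neg (not_not.2 h)]
    · rw [if_neg h, if_pos h]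

lemma sum_abs_le (w : ℕ → ℝ) (hw : ∀ m, 0 ≤ w m) (hw0 : w 0 = 0) (X n : ℕ) (hn : n ^ 2 ≤ X) :
    ∑ K ∈ Icc (-(X : ℤ)) X, w ((n : ℤ) ^ 2 + K).natAbs ≤ 2 * ∑ m ∈ Icc 1 (2 * X), w m := by
  have hn' : (n : ℤ) ^ 2 ≤ X := by exact_mod_cast hn
  have hn0 : (0 : ℤ) ≤ (n : ℤ) ^ 2 := by positivity
  rw [← sum_fiberwise_of_maps_to (s := Icc (-(X : ℤ)) X) (t := range (2 * X + 1))
    (g := fun K : ℤ => ((n : ℤ) ^ 2 + K).natAbs) (fun K hK => by
      rw [mem_Icc] at hK
      rw [mem_range]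
      omega)]
  have h1 : ∀ m ∈ range (2 * X + 1), ∑ K ∈ (Icc (-(X : ℤ)) X).filter (fun K => ((n : ℤ) ^ 2 + K).natAbs = m),
      w ((n : ℤ) ^ 2 + K).natAbs ≤ 2 * w m := by
    intro m _
    calc ∑ K ∈ (Icc (-(X : ℤ)) X).filter (fun K => ((n : ℤ) ^ 2 + K).natAbs = m), w ((n : ℤ) ^ 2 + K).natAbs
        = ∑ _K ∈ (Icc (-(X : ℤ)) X).filter (fun K => ((n : ℤ) ^ 2 + K).natAbs = m), w m := by
          refine sum_congr rfl fun K hK => ?_
          rw [(mem_filter.1 hK).2]
      _ = ((((Icc (-(X : ℤ)) X).filter (fun K => ((n : ℤ) ^ 2 + K).natAbs = m)).card : ℕ) : ℝ) * w m := by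
          rw [sum_const, nsmul_eq_mul]
      _ ≤ 2 * w m := by
          apply mul_le_mul_of_nonneg_right _ (hw m)
          have h2 : (Icc (-(X : ℤ)) X).filter (fun K => ((n : ℤ) ^ 2 + K).natAbs = m) ⊆
              {(m : ℤ) - (n : ℤ) ^ 2, -(m : ℤ) - (n : ℤ) ^ 2} := by
            intro K hK
            rw [mem_filter] at hK
            rw [mem_insert, mem_singleton]
            omega
          exact_mod_cast (card_le_card h2).trans card_le_two
  refine (sum_le_sum h1).trans ?_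
  rw [← mul_sum, sum_range_succ']
  rw [hw0, add_zero]
  apply le_of_eq
  congr 1
  rw [← sum_image (s := range (2 * X)) (g := fun i => i + 1) (f := fun m => w m) (fun a _ b _ h => Nat.succ_injective h)]
  apply sum_congr _ fun _ _ => rfl
  ext m
  rw [mem_image, mem_Icc]
  constructor
  · rintro ⟨i, hi, rfl⟩
    rw [mem_range] at hi
    omega
  · intro h
    exact ⟨m - 1, mem_range.2 (by omega), by omega⟩

lemma markov (s : Finset ℤ) (F : ℤ → ℝ) (hF : ∀ K, 0 ≤ F K) (S T : ℝ) (hT : 0 < T) (h : ∑ K ∈ s, F K ≤ S) :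
    (((s.filter (fun K => T < F K)).card : ℕ) : ℝ) ≤ S / T := by
  rw [le_div_iff₀ hT]
  calc (((s.filter (fun K => T < F K)).card : ℕ) : ℝ) * T = ∑ _K ∈ s.filter (fun K => T < F K), T := by
        rw [sum_const, nsmul_eq_mul]
    _ ≤ ∑ K ∈ s.filter (fun K => T < F K), F K := sum_le_sum fun K hK => (mem_filter.1 hK).2.le
    _ ≤ ∑ K ∈ s, F K := sum_le_sum_of_subset_of_nonneg (filter_subset _ _) fun K _ _ => hF K
    _ ≤ S := h

/-- the weighted sum over the prime powers -/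
noncomputable def WW (m M : ℕ) (a : ℤ) : ℝ := ∑ n ∈ Ioc m M, ppw ((n : ℤ) ^ 2 + a).natAbs / ((n : ℝ) - m)

lemma WW_nn (m M : ℕ) (a : ℤ) : 0 ≤ WW m M a := by
  refine sum_nonneg fun n hn => ?_
  rw [mem_Ioc] at hn
  have h : (m : ℝ) < n := by exact_mod_cast hn.1
  exact div_nonneg (ppw_nn _) (by linarith)

lemma win_le (m y M : ℕ) (hM : m + y ≤ M) (a : ℤ) :
    ∑ n ∈ Ioc m (m + y), ppw ((n : ℤ) ^ 2 + a).natAbs ≤ y * WW m M a := by
  unfold WW
  rw [mul_sum]
  calc ∑ n ∈ Ioc m (m + y), ppw ((n : ℤ) ^ 2 + a).natAbs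
      ≤ ∑ n ∈ Ioc m (m + y), (y : ℝ) * (ppw ((n : ℤ) ^ 2 + a).natAbs / ((n : ℝ) - m)) := by
        refine sum_le_sum fun n hn => ?_
        rw [mem_Ioc] at hn
        have h : (m : ℝ) < n := by exact_mod_cast hn.1
        have h2 : (n : ℝ) ≤ m + y := by exact_mod_cast hn.2
        rw [mul_div_assoc', le_div_iff₀ (by linarith), mul_comm]
        exact mul_le_mul_of_nonneg_right (by linarith) (ppw_nn _)
    _ ≤ _ := by
        refine sum_le_sum_of_subset_of_nonneg (Ioc_subset_Ioc_right hM) fun n hn _ => ?_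
        rw [mem_Ioc] at hn
        have h : (m : ℝ) < n := by exact_mod_cast hn.1
        exact mul_nonneg (Nat.cast_nonneg _) (div_nonneg (ppw_nn _) (by linarith))

lemma harm (m M : ℕ) : ∑ n ∈ Ioc m M, 1 / ((n : ℝ) - m) ≤ 1 + Real.log M := by
  have h1 : ∑ n ∈ Ioc m M, 1 / ((n : ℝ) - m) = ∑ j ∈ Icc 1 (M - m), (1 / (j : ℝ)) := by
    refine sum_bij' (fun n _ => n - m) (fun j _ => j + m) ?_ ?_ ?_ ?_ ?_
    · intro n hn
      rw [mem_Ioc] at hn
      rw [mem_Icc]
      omega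
    · intro j hj
      rw [mem_Icc] at hj
      rw [mem_Ioc]
      omega
    · intro n hn
      rw [mem_Ioc] at hn
      show n - m + m = n
      omega
    · intro j hj
      show j + m - m = j
      omega
    · intro n hn
      rw [mem_Ioc] at hn
      rw [Nat.cast_sub (by omega)]
  rw [h1]
  have h2 := harmonic_le_one_add_log (M - m)
  have h3 : ∑ j ∈ Icc 1 (M - m), (1 / (j : ℝ)) = ((harmonic (M - m) : ℚ) : ℝ) := by
    rw [harmonic_eq_sum_Icc]
    push_cast
    exact sum_congr rfl fun _ _ => one_div _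
  rw [h3]
  refine h2.trans ?_
  rcases Nat.eq_zero_or_pos (M - m) with h | h
  · rw [h]
    simp only [Nat.cast_zero, Real.log_zero, add_zero]
    have := Real.log_natCast_nonneg M
    linarith
  · have : Real.log ((M - m : ℕ) : ℝ) ≤ Real.log M :=
      Real.log_le_log (by exact_mod_cast h) (by exact_mod_cast Nat.sub_le _ _)
    linarith

lemma WW_sum (m X : ℕ) (hX : 1 ≤ X) : ∑ a ∈ Icc (-(X : ℤ)) X, WW m (Nat.sqrt X) a ≤
    (1 + Real.log X) * (4 * (Real.sqrt (2 * X) * Real.log (2 * X))) := by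
  unfold WW
  rw [sum_comm]
  have hb : 0 ≤ 4 * (Real.sqrt (2 * X) * Real.log (2 * X)) := by
    have : 0 ≤ Real.log (2 * X) := by
      have := Real.log_natCast_nonneg (2 * X)
      push_cast at this
      exact this
    positivity
  calc ∑ n ∈ Ioc m (Nat.sqrt X), ∑ a ∈ Icc (-(X : ℤ)) X, ppw ((n : ℤ) ^ 2 + a).natAbs / ((n : ℝ) - m)
      ≤ ∑ n ∈ Ioc m (Nat.sqrt X), 1 / ((n : ℝ) - m) * (4 * (Real.sqrt (2 * X) * Real.log (2 * X))) := by
        refine sum_le_sum fun n hn => ?_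
        rw [mem_Ioc] at hn
        have h : (m : ℝ) < n := by exact_mod_cast hn.1
        rw [← sum_div, div_eq_mul_one_div, mul_comm]
        refine mul_le_mul_of_nonneg_left ?_ (div_nonneg zero_le_one (by linarith))
        have hn2 : n ^ 2 ≤ X := (Nat.pow_le_pow_left hn.2 2).trans (Nat.sqrt_le' X)
        refine (sum_abs_le ppw ppw_nn ppw_zero X n hn2).trans ?_
        have := sum_ppw (N := 2 * X) (by omega)
        push_cast at this
        linarith
    _ = (∑ n ∈ Ioc m (Nat.sqrt X), 1 / ((n : ℝ) - m)) * (4 * (Real.sqrt (2 * X) * Real.log (2 * X))) := by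
        rw [sum_mul]
    _ ≤ _ := by
        refine mul_le_mul_of_nonneg_right ?_ hb
        refine (harm m _).trans ?_
        have : Real.log ((Nat.sqrt X : ℕ) : ℝ) ≤ Real.log X := by
          apply Real.log_le_log
          · exact_mod_cast Nat.sqrt_pos.2 (by omega)
          · exact_mod_cast Nat.sqrt_le_self X
        linarith

lemma lam_id (v : ℤ) : lamI v + lamI (-v) = ArithmeticFunction.vonMangoldt v.natAbs := by
  unfold lamI
  rcases lt_trichotomy v 0 with h | h | h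
  · rw [if_neg (by omega), if_pos (by omega), zero_add]
    congr 1
    omega
  · subst h
    simp
  · rw [if_pos (by omega), if_neg (by omega), add_zero]
    congr 1
    omega

lemma lz_id (z : ℕ) (hz : 2 ≤ z) (v : ℤ) : lamzI z v + lamzI z (-v) = lz z v := by
  have key : ∀ w : ℤ, 1 ≤ w → lamz z w.toNat = lz z w := by
    intro w hw
    unfold lamz lz
    have : (∀ p ∈ pz z, ¬ p ∣ w.toNat) ↔ ∀ p ∈ pz z, ¬ (p : ℤ) ∣ w := by
      refine forall₂_congr fun p _ => ?_
      rw [← Int.natCast_dvd_natCast, Int.toNat_of_nonneg (by omega)]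
    by_cases h : ∀ p ∈ pz z, ¬ p ∣ w.toNat
    · rw [if_pos h, if_pos (this.1 h)]
    · rw [if_neg h, if_neg (fun h' => h (this.2 h'))]
  have ev : ∀ w : ℤ, lz z (-w) = lz z w := by
    intro w
    unfold lz
    simp only [dvd_neg]
  unfold lamzI
  rcases lt_trichotomy v 0 with h | h | h
  · rw [if_neg (by omega), if_pos (by omega), zero_add, key _ (by omega), ev]
  · subst h
    rw [if_neg (by norm_num), if_neg (by norm_num), add_zero]
    unfold lz
    rw [if_neg]
    intro h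
    refine h 2 ?_ (dvd_zero _)
    rw [Pool.Agent.H373R2.T7.mem_pz]
    exact ⟨hz, Nat.prime_two⟩
  · rw [if_pos (by omega), if_neg (by omega), add_zero, key _ (by omega)]

lemma ed_id (z : ℕ) (hz : 2 ≤ z) (v : ℤ) : Ed z v + Ed z (-v) = thp v.natAbs + ppw v.natAbs - lz z v := by
  unfold Ed
  rw [← vm_split, ← lam_id, ← lz_id z hz]
  ring

/-- the shifted polynomial -/
noncomputable def Fm (m : ℕ) (a : ℤ) : Fin 1 → ℤ[X] := fun _ => (X + C (m : ℤ)) ^ 2 + C a

lemma Fm_deg (m : ℕ) (a : ℤ) (i : Fin 1) : (Fm m a i).natDegree ≤ 2 := by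
  unfold Fm
  compute_degree

lemma Fm_eval (m : ℕ) (a : ℤ) (i : Fin 1) (t : ℤ) : (Fm m a i).eval t = (t + m) ^ 2 + a := by
  unfold Fm
  simp

lemma qp_eval (a : ℤ) (i : Fin 1) (t : ℤ) : (qp a i).eval t = t ^ 2 + a := by
  unfold qp
  simp

lemma om_eq (m : ℕ) (a : ℤ) (p : ℕ) (hp : 1 ≤ p) : om (Fm m a) p = om (qp a) p := by
  classical
  unfold om
  refine card_bij (fun t _ => (t + m) % p) ?_ ?_ ?_
  · intro t ht
    rw [mem_filter, mem_range] at ht ⊢
    refine ⟨Nat.mod_lt _ hp, ?_⟩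
    obtain ⟨i, hi⟩ := ht.2
    refine ⟨i, ?_⟩
    rw [Fm_eval] at hi
    rw [qp_eval]
    rw [← Int.modEq_zero_iff_dvd] at hi ⊢
    refine Int.ModEq.trans ?_ hi
    refine Int.ModEq.add_right _ (Int.ModEq.pow 2 ?_)
    push_cast
    exact Int.mod_modEq _ _
  · intro t ht t' ht' h
    rw [mem_filter, mem_range] at ht ht'
    have h1 : t + m ≡ t' + m [MOD p] := h
    have h2 := Nat.ModEq.add_right_cancel' m h1
    exact Nat.ModEq.eq_of_lt_of_lt h2 ht.1 ht'.1
  · intro u hu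
    rw [mem_filter, mem_range] at hu
    have hq : (u + (p - m % p)) % p < p := Nat.mod_lt _ hp
    have h0 : ((u + (p - m % p)) % p + m) % p = u := by
      have h1 : m % p < p := Nat.mod_lt _ hp
      have h2 : ((u + (p - m % p)) % p + m) ≡ (u + (p - m % p)) + m % p [MOD p] :=
        Nat.ModEq.add (Nat.mod_modEq _ _) (Nat.mod_modEq _ _).symm
      have h3 : (u + (p - m % p)) + m % p = u + p := by omega
      rw [h3] at h2
      have h4 : (u + p) % p = u := by
        rw [Nat.add_mod_right, Nat.mod_eq_of_lt hu.1]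
      exact Eq.trans h2 h4
    refine ⟨(u + (p - m % p)) % p, ?_, h0⟩
    rw [mem_filter, mem_range]
    refine ⟨hq, ?_⟩
    obtain ⟨i, hi⟩ := hu.2
    refine ⟨i, ?_⟩
    rw [qp_eval] at hi
    rw [Fm_eval]
    rw [← Int.modEq_zero_iff_dvd] at hi ⊢
    refine Int.ModEq.trans ?_ hi
    refine Int.ModEq.add_right _ (Int.ModEq.pow 2 ?_)
    have h5 : (((((u + (p - m % p)) % p + m) % p : ℕ)) : ℤ) = (u : ℤ) := by rw [h0]
    rw [← h5]
    push_cast
    exact (Int.mod_modEq _ _).symm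

lemma sg_eq (z m : ℕ) (a : ℤ) : sg z (Fm m a) = sg z (qp a) := by
  unfold sg
  refine prod_congr rfl fun p hp => ?_
  rw [om_eq m a p (Pool.Agent.H373R2.T7.mem_pz.1 hp).2.one_lt.le]

lemma sum_shift (f : ℕ → ℝ) (m y : ℕ) : ∑ n ∈ Ioc m (m + y), f n = ∑ j ∈ Icc 1 y, f (j + m) := by
  refine sum_bij' (fun n _ => n - m) (fun j _ => j + m) ?_ ?_ ?_ ?_ ?_
  · intro n hn
    rw [mem_Ioc] at hn
    rw [mem_Icc]
    omega
  · intro j hj
    rw [mem_Icc] at hj
    rw [mem_Ioc]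
    omega
  · intro n hn
    rw [mem_Ioc] at hn
    show n - m + m = n
    omega
  · intro j hj
    show j + m - m = j
    omega
  · intro n hn
    rw [mem_Ioc] at hn
    rw [show n - m + m = n by omega]

/-- the eventual inequalities -/
lemma ev_all (A e : ℕ) (he : 1 ≤ e) : ∃ X₀ : ℕ, ∀ X : ℕ, X₀ ≤ X → 3 ≤ X ∧ 2 ≤ Real.log X ∧
    (1 + Real.log X) * (4 * (Real.sqrt (2 * X) * Real.log (2 * X))) * Real.log X ^ (A + 3) ≤ X / Real.log X ^ (A + 3) ∧
    3 * Real.sqrt (Real.log X) + 1 ≤ Real.log X / e := by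
  have t1 : Filter.Tendsto (fun X : ℕ => Real.log X) Filter.atTop Filter.atTop :=
    Real.tendsto_log_atTop.comp tendsto_natCast_atTop_atTop
  have t2 : ∀ᶠ X : ℕ in Filter.atTop, Real.log X ^ (4 * A + 17) ≤ X := by
    have h1 := (Real.isLittleO_pow_log_id_atTop (n := 4 * A + 17)).bound (c := 1) one_pos
    filter_upwards [tendsto_natCast_atTop_atTop.eventually h1, Filter.eventually_ge_atTop 1] with X hX hX1
    simp only [id, norm_pow, Real.norm_eq_abs, one_mul] at hX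
    rw [abs_of_nonneg (Real.log_natCast_nonneg X), abs_of_nonneg (Nat.cast_nonneg X)] at hX
    exact hX
  have t3 := (Filter.eventually_ge_atTop 3).and ((t1.eventually_ge_atTop (1024 + 16 * (e : ℝ) ^ 2)).and t2)
  obtain ⟨X₀, hX₀⟩ := Filter.eventually_atTop.1 t3
  refine ⟨X₀, fun X hX => ?_⟩
  obtain ⟨h3, hL, hP⟩ := hX₀ X hX
  have hX3 : (3 : ℝ) ≤ X := by exact_mod_cast h3
  have he' : (1 : ℝ) ≤ e := by exact_mod_cast he
  have hl2 : Real.log (2 * X) ≤ 2 * Real.log X := by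
    rw [Real.log_mul (by norm_num) (by linarith), two_mul]
    have := Real.log_le_log (by norm_num : (0 : ℝ) < 2) (by linarith : (2 : ℝ) ≤ X)
    linarith
  have hl2' : 0 ≤ Real.log (2 * X) := Real.log_nonneg (by linarith)
  set L := Real.log X with hLd
  have hL1 : 1024 ≤ L := by nlinarith [sq_nonneg (e : ℝ)]
  have hL0 : 0 < L := by linarith
  refine ⟨h3, by linarith, ?_, ?_⟩
  · have hs : Real.sqrt (2 * X) ≤ 2 * Real.sqrt X := by
      rw [Real.sqrt_le_left (by positivity), mul_pow, Real.sq_sqrt (by linarith)]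
      linarith
    have hk : 32 * L ^ (2 * A + 8) ≤ Real.sqrt X := by
      apply Real.le_sqrt_of_sq_le
      calc (32 * L ^ (2 * A + 8)) ^ 2 = 1024 * L ^ (4 * A + 16) := by
            rw [mul_pow, ← pow_mul]; norm_num; congr 1; ring
        _ ≤ L * L ^ (4 * A + 16) := mul_le_mul_of_nonneg_right hL1 (by positivity)
        _ = L ^ (4 * A + 17) := by ring
        _ ≤ X := hP
    rw [le_div_iff₀ (by positivity)]
    calc (1 + L) * (4 * (Real.sqrt (2 * X) * Real.log (2 * X))) * L ^ (A + 3) * L ^ (A + 3)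
        ≤ (2 * L) * (4 * ((2 * Real.sqrt X) * (2 * L))) * L ^ (A + 3) * L ^ (A + 3) := by
          gcongr
          linarith
      _ = (32 * L ^ (2 * A + 8)) * Real.sqrt X := by ring
      _ ≤ Real.sqrt X * Real.sqrt X := mul_le_mul_of_nonneg_right hk (Real.sqrt_nonneg _)
      _ = X := Real.mul_self_sqrt (by linarith)
  · have hs : 4 * (e : ℝ) ≤ Real.sqrt L := by
      apply Real.le_sqrt_of_sq_le
      rw [mul_pow]
      norm_num
      linarith
    rw [le_div_iff₀ (by linarith)]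
    have hss : Real.sqrt L * Real.sqrt L = L := Real.mul_self_sqrt hL0.le
    nlinarith [mul_le_mul_of_nonneg_left hs (Real.sqrt_nonneg L), mul_le_mul_of_nonneg_left he' (Real.sqrt_nonneg L)]

theorem main : ∀ θ : ℝ, 0 ≤ θ → S_SQW θ → S_MTL → S_THW θ := by
  classical
  intro θ hθ hS hM e A he
  obtain ⟨E₀, hE₀⟩ := hS e (A + 3) he
  refine ⟨max E₀ 1, fun E₁ => ?_⟩
  obtain ⟨X₁, hX₁⟩ := hE₀ E₁
  obtain ⟨X₂, hX₂⟩ := hM 1 2 E₁ (A + 3)
  obtain ⟨X₃, hX₃⟩ := ev_all A e he
  refine ⟨max X₁ (max X₂ X₃), fun X hX z hz1 hz2 m => ?_⟩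
  have hXa : X₁ ≤ X := le_trans (le_max_left _ _) hX
  have hXb : X₂ ≤ X := le_trans (le_trans (le_max_left _ _) (le_max_right _ _)) hX
  have hXc : X₃ ≤ X := le_trans (le_trans (le_max_right _ _) (le_max_right _ _)) hX
  obtain ⟨hX3, hL, hpp, hsq⟩ := hX₃ X hXc
  set L := Real.log X with hLdef
  have hL0 : 0 < L := by linarith
  have hLp : ∀ k : ℕ, 0 < L ^ k := fun k => pow_pos hL0 k
  have hzE : L ^ E₀ ≤ z := le_trans (pow_le_pow_right₀ (by linarith) (le_max_left _ _)) hz1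
  have hz2' : (2 : ℝ) ≤ z := by
    refine le_trans hL (le_trans ?_ hz1)
    calc L = L ^ 1 := (pow_one _).symm
      _ ≤ _ := pow_le_pow_right₀ (by linarith) (le_max_right _ _)
  have hz : 2 ≤ z := by exact_mod_cast hz2'
  have b1 := hX₁ X hXa z hzE hz2 m
  have b2 := markov (Icc (-(X : ℤ)) X) (WW m (Nat.sqrt X)) (WW_nn m _) _ (1 / L ^ (A + 3)) (by positivity)
    (WW_sum m X (by omega))
  have b3 : (((Icc (-(X : ℤ)) X).filter (fun a => 1 / L ^ (A + 3) < WW m (Nat.sqrt X) a)).card : ℝ) ≤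
      X / L ^ (A + 3) := by
    refine b2.trans (le_trans (le_of_eq ?_) hpp)
    rw [div_div_eq_mul_div, div_one]
  have hsub : (Icc (-(X : ℤ)) X).filter (fun a => ∃ y : ℕ, Wd θ e X m y ∧
      (y : ℝ) / L ^ A < |thw a m y - y * sg z (qp a)|) ⊆
      ((Icc (-(X : ℤ)) X).filter (fun a => ∃ y : ℕ, Wd θ e X m y ∧
        (y : ℝ) / L ^ (A + 3) < |∑ n ∈ Ioc m (m + y), (Ed z ((n : ℤ) ^ 2 + a) + Ed z (-((n : ℤ) ^ 2 + a)))|)) ∪
      ((Icc (-(X : ℤ)) X).filter (fun a => 1 / L ^ (A + 3) < WW m (Nat.sqrt X) a)) := by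
    intro a ha
    rw [mem_filter] at ha
    rw [mem_union, mem_filter, mem_filter]
    by_contra hcon
    rw [not_or, not_and, not_and] at hcon
    have c1 := hcon.1 ha.1
    have c2 := not_lt.1 (hcon.2 ha.1)
    obtain ⟨y, hW, hy⟩ := ha.2
    have c3 := not_lt.1 (fun h => c1 ⟨y, hW, h⟩)
    have c4 : ∑ n ∈ Ioc m (m + y), ppw ((n : ℤ) ^ 2 + a).natAbs ≤ y / L ^ (A + 3) := by
      refine (win_le m y (Nat.sqrt X) (Nat.le_sqrt'.2 hW.2.2) a).trans ?_
      rw [div_eq_mul_one_div]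
      exact mul_le_mul_of_nonneg_left c2 (Nat.cast_nonneg _)
    have c4' : 0 ≤ ∑ n ∈ Ioc m (m + y), ppw ((n : ℤ) ^ 2 + a).natAbs := sum_nonneg fun _ _ => ppw_nn _
    -- the length
    have hy0 : Real.exp (Real.sqrt L) ≤ y := by
      have hX0 : (0 : ℝ) < X := by
        have : 0 < X := by omega
        exact_mod_cast this
      have d1 : Real.exp (3 * Real.sqrt L + 1) ≤ (X : ℝ) ^ (θ + 1 / e : ℝ) := by
        rw [Real.rpow_def_of_pos hX0]
        apply Real.exp_le_exp.2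
        refine hsq.trans ?_
        rw [← hLdef]
        have : 0 ≤ L * θ := mul_nonneg hL0.le hθ
        calc L / e = L * (1 / e) := by rw [mul_one_div]
          _ ≤ _ := by rw [mul_add]; linarith
      have d2 : (m : ℝ) ≤ (y : ℝ) ^ 2 := by exact_mod_cast hW.1
      have d3 : Real.exp (3 * Real.sqrt L + 1) ≤ (y : ℝ) * (m + y) := d1.trans hW.2.1
      have hy1 : (1 : ℝ) ≤ y := by
        rcases Nat.eq_zero_or_pos y with h | h
        · exfalso
          rw [h, Nat.cast_zero, zero_mul] at d3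
          exact absurd d3 (not_le.2 (Real.exp_pos _))
        · exact_mod_cast h
      have d4 : (y : ℝ) * (m + y) ≤ 2 * (y : ℝ) ^ 3 := by
        nlinarith [mul_le_mul_of_nonneg_left d2 (by linarith : (0 : ℝ) ≤ y), mul_nonneg (by linarith : (0 : ℝ) ≤ (y : ℝ) - 1) (sq_nonneg (y : ℝ))]
      have d5 : (2 : ℝ) * Real.exp (Real.sqrt L) ^ 3 ≤ Real.exp (3 * Real.sqrt L + 1) := by
        rw [← Real.exp_nat_mul, Real.exp_add, mul_comm]
        push_cast
        exact mul_le_mul_of_nonneg_left (by have := Real.add_one_le_exp (1 : ℝ); linarith) (Real.exp_pos _).le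
      by_contra hc
      have d6 : (y : ℝ) ^ 3 < Real.exp (Real.sqrt L) ^ 3 := pow_lt_pow_left₀ (not_le.1 hc) (by linarith) (by norm_num)
      linarith
    have c5 := hX₂ X hXb z (by omega) hz2 (Fm m a) (Fm_deg m a) y hy0
    rw [sg_eq] at c5
    have c6 : ∑ n ∈ Icc 1 y, ∏ i : Fin 1, lz z ((Fm m a i).eval (n : ℤ)) = ∑ n ∈ Ioc m (m + y), lz z ((n : ℤ) ^ 2 + a) := by
      rw [sum_shift (fun n => lz z ((n : ℤ) ^ 2 + a))]
      refine sum_congr rfl fun n _ => ?_
      rw [Fin.prod_univ_one, Fm_eval]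
      push_cast
      rfl
    rw [c6] at c5
    have c7 : thw a m y = ∑ n ∈ Ioc m (m + y), (Ed z ((n : ℤ) ^ 2 + a) + Ed z (-((n : ℤ) ^ 2 + a))) +
        ∑ n ∈ Ioc m (m + y), lz z ((n : ℤ) ^ 2 + a) - ∑ n ∈ Ioc m (m + y), ppw ((n : ℤ) ^ 2 + a).natAbs := by
      rw [← sum_add_distrib, ← sum_sub_distrib]
      unfold thw
      refine sum_congr rfl fun n _ => ?_
      rw [ed_id z hz]
      unfold thp
      ring
    have e1 := abs_le.1 c3
    have e2 := abs_le.1 c5
    have e3 : |thw a m y - y * sg z (qp a)| ≤ 3 * (y / L ^ (A + 3)) := by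
      rw [c7, abs_le]
      constructor <;> linarith [e1.1, e1.2, e2.1, e2.2]
    have e4 : 3 * ((y : ℝ) / L ^ (A + 3)) ≤ y / L ^ A := by
      rw [pow_add, mul_div_assoc', div_le_div_iff₀ (by positivity) (by positivity)]
      have : (8 : ℝ) ≤ L ^ 3 := by
        calc (8 : ℝ) = 2 ^ 3 := by norm_num
          _ ≤ _ := pow_le_pow_left₀ (by norm_num) hL 3
      nlinarith [mul_nonneg (Nat.cast_nonneg y : (0 : ℝ) ≤ y) (hLp A).le]
    linarith
  have hcard := (Nat.cast_le (α := ℝ)).2 ((card_le_card hsub).trans (card_union_le _ _))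
  push_cast at hcard
  refine hcard.trans ((add_le_add b1 b3).trans ?_)
  rw [← hLdef, pow_add]
  rw [← add_div, div_le_div_iff₀ (by positivity) (by positivity)]
  have : (8 : ℝ) ≤ L ^ 3 := by
    calc (8 : ℝ) = 2 ^ 3 := by norm_num
      _ ≤ _ := pow_le_pow_left₀ (by norm_num) hL 3
  nlinarith [mul_nonneg (Nat.cast_nonneg X : (0 : ℝ) ≤ X) (hLp A).le]

end Pool.Agent.helper24_UT.Thw
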