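import Pool.Agent.helper24_UT.Ch13
import Pool.Agent.helper24_UT.En2
import Pool.Agent.helper24_UT.Sqw
import Pool.Agent.helper24_UT.Thw
import Pool.Agent.helper24_UT.R24
import Pool.Agent.helper24_UT.R32

/-!
# Project UT (helper24): assembly, part 14
-/

set_option autoImplicit false

namespace Pool.Agent.helper24_UT.Ch

theorem t_SQW : S_SQW (1 / 3) := Sqw.main (1 / 3) (by norm_num) t_LE En2.main
theorem t_THW : S_THW (1 / 3) := Thw.main (1 / 3) (by norm_num) t_SQW Mtl.main
theorem t_R24 : S_R24 (1 / 3) := R24.main (1 / 3) (by norm_num) (by norm_num) t_THW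
theorem t_R32 : S_R32 (1 / 3) := R32.main (1 / 3) (by norm_num) En2.main t_R20

end Pool.Agent.helper24_UT.Ch
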