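import Pool.Agent.helper24_UT.Stm21
import Pool.Agent.TH823.Fam.Fam2
import Pool.Agent.H373R2.T7.LamZ2

set_option autoImplicit false

namespace Pool.Agent.helper24_UT.Dp

open Finset Polynomial
open Pool.Agent.helper24_UT

theorem lamI_bd (m : ℤ) (X : ℝ) (hX : 1 ≤ X) (hm : (m : ℝ) ≤ X) :
    0 ≤ Pool.Agent.H373R2.T7.lamI m ∧ Pool.Agent.H373R2.T7.lamI m ≤ Real.log X := by
  unfold Pool.Agent.H373R2.T7.lamI
  split_ifs with h
  · refine ⟨ArithmeticFunction.vonMangoldt_nonneg, ?_⟩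
    refine ArithmeticFunction.vonMangoldt_le_log.trans ?_
    have h1 : ((m.toNat : ℕ) : ℝ) = (m : ℝ) := by
      have : ((m.toNat : ℕ) : ℤ) = m := Int.toNat_of_nonneg (by omega)
      exact_mod_cast this
    have h2 : (1 : ℝ) ≤ (m : ℝ) := by exact_mod_cast h
    rw [h1]
    exact Real.log_le_log (by linarith) hm
  · exact ⟨le_rfl, Real.log_nonneg hX⟩

theorem Vz_pos (z : ℕ) : 0 < Pool.Agent.H373R2.T7.Vz z := by
  unfold Pool.Agent.H373R2.T7.Vz
  refine Finset.prod_pos fun p hp => ?_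
  have h := (Pool.Agent.H373R2.T7.mem_pz.1 hp).2
  have h2 : (2 : ℝ) ≤ p := by exact_mod_cast h.two_le
  have h3 : 1 / (p : ℝ) ≤ 1 / 2 := by
    apply one_div_le_one_div_of_le (by norm_num) h2
  linarith

theorem lamzI_bd (z : ℕ) (m : ℤ) :
    0 ≤ Pool.Agent.H373R2.T7.lamzI z m ∧ Pool.Agent.H373R2.T7.lamzI z m ≤ (Pool.Agent.H373R2.T7.Vz z)⁻¹ := by
  have h := inv_pos.2 (Vz_pos z)
  unfold Pool.Agent.H373R2.T7.lamzI Pool.Agent.H373R2.T7.lamz
  split_ifs
  · exact ⟨h.le, le_rfl⟩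
  · exact ⟨le_rfl, h.le⟩
  · exact ⟨le_rfl, h.le⟩

theorem Ed_bd (z N : ℕ) (v : ℤ) (hN : 1 ≤ N) (hv : v ≤ (N : ℤ) ^ 2)
    (hV : (Pool.Agent.H373R2.T7.Vz z)⁻¹ ≤ Real.log N) : |Ed z v| ≤ 2 * Real.log N := by
  have hN1 : (1 : ℝ) ≤ N := by exact_mod_cast hN
  have hvR : (v : ℝ) ≤ (N : ℝ) ^ 2 := by exact_mod_cast hv
  obtain ⟨a1, a2⟩ := lamI_bd v ((N : ℝ) ^ 2) (by nlinarith) hvR
  obtain ⟨b1, b2⟩ := lamzI_bd z v
  rw [Real.log_pow] at a2
  push_cast at a2
  have hL : 0 ≤ Real.log N := Real.log_nonneg hN1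
  unfold Ed
  rw [abs_le]
  constructor <;> linarith

/-- duality -/
theorem dual (Y M : ℕ) (u : ℕ → ℝ) (g : ℕ → ℕ → ℝ) (P R : ℝ) (hP : 0 ≤ P)
    (hu : ∀ m ∈ Icc 1 Y, |u m| ≤ P)
    (h : ∀ G : ℕ → ℂ, (∀ n, ‖G n‖ ≤ 1) →
      ∑ m ∈ Icc 1 Y, ‖∑ n ∈ Icc 1 M, G n * (g m n : ℂ)‖ ≤ R) :
    ∑ n ∈ Icc 1 M, |∑ m ∈ Icc 1 Y, u m * g m n| ≤ P * R := by
  set w : ℕ → ℝ := fun n => ∑ m ∈ Icc 1 Y, u m * g m n with hw
  set ε : ℕ → ℝ := fun n => if 0 ≤ w n then 1 else -1 with hε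
  have h1 := h (fun n => ((ε n : ℝ) : ℂ)) (by
    intro n
    rw [Complex.norm_real, hε]
    dsimp only
    split_ifs <;> simp)
  have h2 : ∀ n, |w n| = ε n * w n := by
    intro n
    rw [hε]
    dsimp only
    split_ifs with h3
    · rw [abs_of_nonneg h3, one_mul]
    · rw [abs_of_neg (lt_of_not_ge h3)]
      ring
  have h3 : ∑ n ∈ Icc 1 M, |w n| = ∑ m ∈ Icc 1 Y, u m * ∑ n ∈ Icc 1 M, ε n * g m n := by
    simp only [h2]
    rw [hw]
    simp only [Finset.mul_sum]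
    rw [Finset.sum_comm]
    refine Finset.sum_congr rfl fun m _ => Finset.sum_congr rfl fun n _ => ?_
    ring
  calc ∑ n ∈ Icc 1 M, |w n| = ∑ m ∈ Icc 1 Y, u m * ∑ n ∈ Icc 1 M, ε n * g m n := h3
    _ ≤ ∑ m ∈ Icc 1 Y, P * ‖∑ n ∈ Icc 1 M, ((ε n : ℝ) : ℂ) * (g m n : ℂ)‖ := by
        refine Finset.sum_le_sum fun m hm => ?_
        have h4 : ‖∑ n ∈ Icc 1 M, ((ε n : ℝ) : ℂ) * (g m n : ℂ)‖ = |∑ n ∈ Icc 1 M, ε n * g m n| := by
          rw [← Real.norm_eq_abs, ← Complex.norm_real]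
          push_cast
          rfl
        rw [h4]
        refine (le_abs_self _).trans ?_
        rw [abs_mul]
        exact mul_le_mul_of_nonneg_right (hu m hm) (abs_nonneg _)
    _ = P * ∑ m ∈ Icc 1 Y, ‖∑ n ∈ Icc 1 M, ((ε n : ℝ) : ℂ) * (g m n : ℂ)‖ := by
        rw [Finset.mul_sum]
    _ ≤ P * R := mul_le_mul_of_nonneg_left h1 hP

/-- Markov -/
theorem markov (S : Finset ℕ) (w : ℕ → ℝ) (t R : ℝ) (ht : 0 < t) (h : ∑ n ∈ S, |w n| ≤ R) :
    ((S.filter (fun n => t < |w n|)).card : ℝ) ≤ R / t := by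
  rw [le_div_iff₀ ht]
  calc ((S.filter (fun n => t < |w n|)).card : ℝ) * t
      = ∑ _n ∈ S.filter (fun n => t < |w n|), t := by rw [Finset.sum_const, nsmul_eq_mul]
    _ ≤ ∑ n ∈ S.filter (fun n => t < |w n|), |w n| :=
        Finset.sum_le_sum fun n hn => (Finset.mem_filter.1 hn).2.le
    _ ≤ ∑ n ∈ S, |w n| :=
        Finset.sum_le_sum_of_subset_of_nonneg (Finset.filter_subset _ _) fun _ _ _ => abs_nonneg _
    _ ≤ R := h

/-- the grid -/
noncomputable def gr (M k : ℕ) : ℕ := ⌊Real.exp ((k : ℝ) / M)⌋₊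

theorem grid (M : ℕ) (hM : 1 ≤ M) (y : ℕ) (hy : 1 ≤ y) :
    ∃ k : ℕ, (k : ℝ) ≤ M * Real.log y ∧ 1 ≤ gr M k ∧ gr M k ≤ y ∧ y ≤ 8 * gr M k ∧
      (y : ℝ) - gr M k ≤ 2 * y / M + 1 := by
  have hM0 : (1 : ℝ) ≤ M := by exact_mod_cast hM
  have hy0 : (1 : ℝ) ≤ y := by exact_mod_cast hy
  have hlog : 0 ≤ Real.log y := Real.log_nonneg hy0
  have hml : 0 ≤ (M : ℝ) * Real.log y := by positivity
  refine ⟨⌊(M : ℝ) * Real.log y⌋₊, Nat.floor_le hml, ?_⟩
  set k := ⌊(M : ℝ) * Real.log y⌋₊ with hk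
  have hk1 : (k : ℝ) ≤ M * Real.log y := Nat.floor_le hml
  have hk2 : (M : ℝ) * Real.log y < k + 1 := Nat.lt_floor_add_one _
  set X := Real.exp ((k : ℝ) / M) with hX
  have hX1 : 1 ≤ X := by
    rw [hX]
    exact Real.one_le_exp (by positivity)
  have hXy : X ≤ y := by
    rw [hX]
    calc Real.exp ((k : ℝ) / M) ≤ Real.exp (Real.log y) := by
          apply Real.exp_le_exp.2
          rw [div_le_iff₀ (by linarith)]
          linarith
      _ = y := Real.exp_log (by linarith)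
  have hinv : 0 ≤ 1 / (M : ℝ) ∧ 1 / (M : ℝ) ≤ 1 := by
    constructor
    · positivity
    · rw [div_le_one (by linarith)]
      exact hM0
  have hyX : (y : ℝ) ≤ X * (1 + 2 / M) := by
    have h1 : Real.log y ≤ (k : ℝ) / M + 1 / M := by
      rw [← add_div, le_div_iff₀ (by linarith)]
      linarith
    have h2 : Real.exp (1 / (M : ℝ)) ≤ 1 + 2 / M := by
      have h3 := Real.abs_exp_sub_one_le (x := 1 / (M : ℝ)) (by rw [abs_of_nonneg hinv.1]; exact hinv.2)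
      rw [abs_of_nonneg hinv.1] at h3
      have h4 := (abs_le.1 h3).2
      have h5 : 2 * (1 / (M : ℝ)) = 2 / M := by ring
      linarith
    calc (y : ℝ) = Real.exp (Real.log y) := (Real.exp_log (by linarith)).symm
      _ ≤ Real.exp ((k : ℝ) / M + 1 / M) := Real.exp_le_exp.2 h1
      _ = X * Real.exp (1 / (M : ℝ)) := Real.exp_add _ _
      _ ≤ X * (1 + 2 / M) := mul_le_mul_of_nonneg_left h2 (by linarith)
  have hY1 : 1 ≤ gr M k := by
    unfold gr
    rw [Nat.one_le_floor_iff]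
    exact hX1
  have hYX : ((gr M k : ℕ) : ℝ) ≤ X := Nat.floor_le (by linarith)
  have hXY : X < gr M k + 1 := Nat.lt_floor_add_one _
  refine ⟨hY1, ?_, ?_, ?_⟩
  · exact_mod_cast hYX.trans hXy
  · have h1 : (1 : ℝ) ≤ gr M k := by exact_mod_cast hY1
    have h2 : 2 / (M : ℝ) ≤ 2 := by
      rw [div_le_iff₀ (by linarith)]
      linarith
    have h3 : (y : ℝ) ≤ 8 * gr M k := by nlinarith
    exact_mod_cast h3
  · have h1 : X * (2 / M) ≤ 2 * y / M := by
      have : (2 : ℝ) * y / M = y * (2 / M) := by ring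
      rw [this]
      exact mul_le_mul_of_nonneg_right hXy (by positivity)
    nlinarith


theorem energy_zero_order (x : ℕ) (s : ℕ → ℤ) : Pool.Agent.H373R2.T7.energy 0 x s = 1 := by
  unfold Pool.Agent.H373R2.T7.energy
  simp

theorem energy_ge (F : ℤ[X]) (hd : 1 ≤ F.natDegree) :
    ∃ p : ℕ, 1 ≤ p ∧ ∃ C : ℝ, 0 < C ∧ ∀ x : ℕ, 1 ≤ x → ∀ σ : ℤ, (σ = 1 ∨ σ = -1) →
      (Pool.Agent.H373R2.T7.energy p x (fun m => σ * F.eval (m : ℤ)) : ℝ) * (x : ℝ) ^ F.natDegree ≤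
        C * (x : ℝ) ^ (2 * p) := by
  obtain ⟨p, C, hC, h⟩ := Pool.Agent.TH823.Fam.energy_poly' F hd
  refine ⟨p, ?_, C, hC, ?_⟩
  · by_contra hcon
    have hp : p = 0 := by omega
    subst hp
    have h1 := h (⌈C⌉₊ + 1) (by omega) 0
    rw [energy_zero_order] at h1
    have h2 : C < ((⌈C⌉₊ + 1 : ℕ) : ℝ) := by
      push_cast
      have := Nat.le_ceil C
      linarith
    have h3 : ((⌈C⌉₊ + 1 : ℕ) : ℝ) ≤ ((⌈C⌉₊ + 1 : ℕ) : ℝ) ^ F.natDegree := by
      apply le_self_pow₀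
      · exact_mod_cast (by omega : 1 ≤ ⌈C⌉₊ + 1)
      · omega
    simp only [Nat.mul_zero, pow_zero, mul_one, Nat.cast_one, one_mul] at h1
    linarith
  · intro x hx σ hσ
    have h1 := h x hx 0
    simp only [zero_add] at h1
    rcases hσ with rfl | rfl
    · simpa using h1
    · have h2 : (fun m : ℕ => (-1 : ℤ) * F.eval (m : ℤ)) = fun m : ℕ => - (F.eval (m : ℤ)) := by
        funext m
        ring
      rw [h2, Pool.Agent.TH823.Fam.energy_neg p x (fun m => F.eval (m : ℤ))]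
      exact h1

theorem key (θ : ℝ) (hLE : S_LE θ) (F : ℤ[X]) (hF : 1 ≤ F.natDegree) (e U : ℕ) (he : 1 ≤ e) :
    ∃ E₀ : ℕ, ∀ E₁ : ℕ, ∃ N₀ : ℕ, ∀ N : ℕ, N₀ ≤ N → ∀ z : ℕ, (Real.log N) ^ E₀ ≤ z →
      (z : ℝ) ≤ (Real.log N) ^ E₁ → ∀ Y : ℕ, (N : ℝ) ^ (θ + 1 / e : ℝ) ≤ (8 * Y : ℝ) ^ F.natDegree →
      Y ^ F.natDegree ≤ N → ∀ σ τ : ℤ, (σ = 1 ∨ σ = -1) → (τ = 1 ∨ τ = -1) → ∀ G : ℕ → ℂ, (∀ n, ‖G n‖ ≤ 1) →
      ∑ m ∈ Icc 1 Y, ‖∑ n ∈ Icc 1 N, G n * (Ed z (τ * n + σ * F.eval (m : ℤ)) : ℂ)‖ ≤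
        (N : ℝ) * Y / (Real.log N) ^ U := by
  obtain ⟨p, hp, C1, hC1, hen⟩ := energy_ge F hF
  obtain ⟨A0, hA0⟩ := Pool.Agent.TH823.Fam.poly_size F
  set A1 := A0 + 1 with hA1
  set d := F.natDegree with hd
  have hA : ∀ x : ℕ, 1 ≤ x → ∀ m ∈ Icc 1 x, |F.eval (m : ℤ)| ≤ A1 * (x : ℤ) ^ d := by
    intro x hx m hm
    refine (hA0 x hx m hm).trans ?_
    rw [hA1]
    push_cast
    have : (0 : ℤ) ≤ (x : ℤ) ^ d := by positivity
    nlinarith
  obtain ⟨B₀, hB₀⟩ := hLE p (2 * e) 1 1 (U + 1) hp (by omega)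
  refine ⟨B₀ + 1, fun E => ?_⟩
  obtain ⟨N₁, hN₁⟩ := hB₀ E
  set K : ℕ := 2 * A1 + 1 with hK
  obtain ⟨N₂, hN₂⟩ := Pool.Agent.H373R2.T7.ev_L' (max (max 1 ((2 : ℝ) ^ B₀)) (max (K : ℝ) (K * C1)))
  -- the size of the window
  have hpow : ∃ N₃ : ℕ, ∀ N : ℕ, N₃ ≤ N → (K : ℝ) ^ (θ + 1 / ((2 * e : ℕ) : ℝ)) * 8 ^ d ≤ (N : ℝ) ^ (1 / (2 * (e : ℝ))) := by
    have hpos : (0 : ℝ) < 1 / (2 * (e : ℝ)) := by
      have : (1 : ℝ) ≤ e := by exact_mod_cast he
      positivity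
    have h1 := (tendsto_rpow_atTop hpos).comp (tendsto_natCast_atTop_atTop (R := ℝ))
    obtain ⟨N₃, h3⟩ := Filter.eventually_atTop.1 (h1.eventually_ge_atTop ((K : ℝ) ^ (θ + 1 / ((2 * e : ℕ) : ℝ)) * 8 ^ d))
    exact ⟨N₃, h3⟩
  obtain ⟨N₃, hN₃⟩ := hpow
  refine ⟨N₁ + N₂ + N₃ + 1, ?_⟩
  intro N hN z hz1 hz2 Y hY1 hY2 σ τ hσ hτ G hG
  have hNpos : (1 : ℝ) ≤ N := by exact_mod_cast (by omega : 1 ≤ N)
  have hL := hN₂ N (by omega)
  have hL1 : 1 ≤ Real.log N := le_trans (le_trans (le_max_left _ _) (le_max_left _ _)) hL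
  have hL2 : (2 : ℝ) ^ B₀ ≤ Real.log N := le_trans (le_trans (le_max_right _ _) (le_max_left _ _)) hL
  have hL3 : (K : ℝ) ≤ Real.log N := le_trans (le_trans (le_max_left _ _) (le_max_right _ _)) hL
  have hL4 : (K : ℝ) * C1 ≤ Real.log N := le_trans (le_trans (le_max_right _ _) (le_max_right _ _)) hL
  have hY0 : 1 ≤ Y := by
    by_contra hcon
    have h0 : Y = 0 := by omega
    rw [h0, Nat.cast_zero, mul_zero, zero_pow (by omega)] at hY1
    have : (0 : ℝ) < (N : ℝ) ^ (θ + 1 / e : ℝ) := Real.rpow_pos_of_pos (by linarith) _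
    linarith
  have hYR : (1 : ℝ) ≤ Y := by exact_mod_cast hY0
  set N' : ℕ := K * N with hN'
  have hKpos : (1 : ℝ) ≤ K := by exact_mod_cast (by omega : 1 ≤ K)
  have hNN' : N ≤ N' := by
    rw [hN']
    exact Nat.le_mul_of_pos_left N (by omega)
  have hNN'R : (N : ℝ) ≤ N' := by exact_mod_cast hNN'
  have hlog1 : Real.log N ≤ Real.log N' := Real.log_le_log (by linarith) hNN'R
  have hlog2 : Real.log N' ≤ 2 * Real.log N := by
    have h1 : (N' : ℝ) = K * N := by rw [hN']; push_cast; rfl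
    rw [h1, Real.log_mul (by linarith) (by linarith)]
    have h2 : Real.log K ≤ K - 1 := Real.log_le_sub_one_of_pos (by linarith)
    linarith
  set H : ℕ := 2 * A1 * Y ^ d + 1 with hH
  have hA1pos : 1 ≤ A1 := by omega
  have hYd : (1 : ℕ) ≤ Y ^ d := Nat.one_le_pow _ _ hY0
  have hHN' : H ≤ N' := by
    rw [hH, hN', hK]
    have h1 : 2 * A1 * Y ^ d ≤ 2 * A1 * N := Nat.mul_le_mul_left _ hY2
    have h2 : 1 ≤ N := by omega
    nlinarith
  have hHlow : (N' : ℝ) ^ (θ + 1 / ((2 * e : ℕ) : ℝ) : ℝ) ≤ H := by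
    have h1 : (N' : ℝ) = K * N := by rw [hN']; push_cast; rfl
    rw [h1, Real.mul_rpow (by linarith) (by linarith)]
    have h2 := hN₃ N (by omega)
    have heR : (1 : ℝ) ≤ e := by exact_mod_cast he
    have h3 : (N : ℝ) ^ (θ + 1 / (e : ℝ)) = (N : ℝ) ^ (θ + 1 / ((2 * e : ℕ) : ℝ)) * (N : ℝ) ^ (1 / (2 * (e : ℝ))) := by
      rw [← Real.rpow_add (by linarith)]
      congr 1
      push_cast
      field_simp
      ring
    have h4 : (0 : ℝ) < (N : ℝ) ^ (θ + 1 / ((2 * e : ℕ) : ℝ)) := Real.rpow_pos_of_pos (by linarith) _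
    have h5 : (H : ℝ) = 2 * A1 * (Y : ℝ) ^ d + 1 := by
      rw [hH]
      push_cast
      rfl
    have h6 : (N : ℝ) ^ (θ + 1 / (e : ℝ)) ≤ 8 ^ d * (Y : ℝ) ^ d := by
      rw [← mul_pow]
      exact hY1
    have h7 : (K : ℝ) ^ (θ + 1 / ((2 * e : ℕ) : ℝ)) * 8 ^ d * (N : ℝ) ^ (θ + 1 / ((2 * e : ℕ) : ℝ)) ≤ 8 ^ d * (Y : ℝ) ^ d := by
      refine le_trans ?_ h6
      rw [h3, mul_comm ((N : ℝ) ^ (θ + 1 / ((2 * e : ℕ) : ℝ))) _]
      exact mul_le_mul_of_nonneg_right h2 h4.le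
    have h8 : (K : ℝ) ^ (θ + 1 / ((2 * e : ℕ) : ℝ)) * (N : ℝ) ^ (θ + 1 / ((2 * e : ℕ) : ℝ)) ≤ (Y : ℝ) ^ d := by
      have h9 : (0 : ℝ) < 8 ^ d := by positivity
      have h10 : 8 ^ d * ((K : ℝ) ^ (θ + 1 / ((2 * e : ℕ) : ℝ)) * (N : ℝ) ^ (θ + 1 / ((2 * e : ℕ) : ℝ))) ≤ 8 ^ d * (Y : ℝ) ^ d := by
        linarith
      exact le_of_mul_le_mul_left h10 h9
    refine h8.trans ?_
    rw [h5]
    have h11 : (1 : ℝ) ≤ A1 := by exact_mod_cast hA1pos
    have h12 : (0 : ℝ) ≤ (Y : ℝ) ^ d := by positivity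
    nlinarith
  have hc : |(-((A1 : ℤ) * (Y : ℤ) ^ d) - 1)| ≤ (1 : ℕ) * (N' : ℤ) := by
    have h1 : (0 : ℤ) ≤ (A1 : ℤ) * (Y : ℤ) ^ d := by positivity
    rw [abs_of_nonpos (by linarith)]
    have h2 : ((2 * A1 * Y ^ d + 1 : ℕ) : ℤ) ≤ (N' : ℤ) := by exact_mod_cast hHN'
    push_cast at h2 ⊢
    nlinarith
  have hFam : Fam p 1 N' H Y (-((A1 : ℤ) * (Y : ℤ) ^ d) - 1) (fun m => σ * F.eval (m : ℤ)) := by
    constructor
    · intro m hm
      have h1 := abs_le.1 (hA Y hY0 m hm)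
      have h2 : ((H : ℕ) : ℤ) = 2 * A1 * (Y : ℤ) ^ d + 1 := by
        rw [hH]
        push_cast
        rfl
      rw [h2]
      rcases hσ with rfl | rfl
      · constructor <;> linarith [h1.1, h1.2]
      · constructor <;> linarith [h1.1, h1.2]
    · have h1 := hen Y hY0 σ hσ
      have h2 : (H : ℝ) ≤ K * (Y : ℝ) ^ d := by
        have h3 : H ≤ K * Y ^ d := by
          rw [hH, hK]
          nlinarith
        exact_mod_cast h3
      have hE0 : (0 : ℝ) ≤ (Pool.Agent.H373R2.T7.energy p Y (fun m => σ * F.eval (m : ℤ)) : ℝ) := Nat.cast_nonneg _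
      calc (Pool.Agent.H373R2.T7.energy p Y (fun m => σ * F.eval (m : ℤ)) : ℝ) * H
          ≤ (Pool.Agent.H373R2.T7.energy p Y (fun m => σ * F.eval (m : ℤ)) : ℝ) * (K * (Y : ℝ) ^ d) :=
            mul_le_mul_of_nonneg_left h2 hE0
        _ = K * ((Pool.Agent.H373R2.T7.energy p Y (fun m => σ * F.eval (m : ℤ)) : ℝ) * (Y : ℝ) ^ d) := by ring
        _ ≤ K * (C1 * (Y : ℝ) ^ (2 * p)) := mul_le_mul_of_nonneg_left h1 (by linarith)
        _ = (K * C1) * (Y : ℝ) ^ (2 * p) := by ring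
        _ ≤ (Real.log N') ^ 1 * (Y : ℝ) ^ (2 * p) := by
            apply mul_le_mul_of_nonneg_right _ (by positivity)
            rw [pow_one]
            linarith
  have hz1' : (Real.log N') ^ B₀ ≤ z := by
    refine le_trans ?_ hz1
    calc (Real.log N') ^ B₀ ≤ (2 * Real.log N) ^ B₀ := pow_le_pow_left₀ (by linarith) hlog2 _
      _ = 2 ^ B₀ * (Real.log N) ^ B₀ := mul_pow _ _ _
      _ ≤ Real.log N * (Real.log N) ^ B₀ := mul_le_mul_of_nonneg_right hL2 (by positivity)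
      _ = (Real.log N) ^ (B₀ + 1) := by rw [pow_succ]; ring
  have hz2' : (z : ℝ) ≤ (Real.log N') ^ E := by
    refine hz2.trans ?_
    exact pow_le_pow_left₀ (by linarith) hlog1 _
  have hmain := hN₁ N' (by omega) H hHlow hHN' _ Y _ hc hFam z hz1' hz2' τ hτ N (by omega) G hG
  refine hmain.trans ?_
  have h1 : (N' : ℝ) = K * N := by rw [hN']; push_cast; rfl
  have hL0 : (0 : ℝ) < Real.log N := by linarith
  calc (N' : ℝ) * Y / (Real.log N') ^ (U + 1) ≤ (N' : ℝ) * Y / (Real.log N) ^ (U + 1) := by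
        apply div_le_div_of_nonneg_left (by positivity) (by positivity)
        exact pow_le_pow_left₀ (by linarith) hlog1 _
    _ = (K / Real.log N) * (N * Y / (Real.log N) ^ U) := by
        rw [h1, pow_succ]
        field_simp
    _ ≤ 1 * (N * Y / (Real.log N) ^ U) := by
        apply mul_le_mul_of_nonneg_right _ (by positivity)
        rw [div_le_one hL0]
        exact hL3
    _ = (N : ℝ) * Y / (Real.log N) ^ U := one_mul _


theorem big (c : ℝ) (hc : 0 ≤ c) (k d e : ℕ) (he : 1 ≤ e) :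
    ∃ N₀ : ℕ, ∀ N : ℕ, N₀ ≤ N → (c * (Real.log N) ^ k) ^ d ≤ (N : ℝ) ^ (1 / (e : ℝ)) := by
  have hpos : (0 : ℝ) < 1 / (e : ℝ) := by
    have : (1 : ℝ) ≤ e := by exact_mod_cast he
    positivity
  have h := (isLittleO_log_rpow_rpow_atTop ((k * d : ℕ) : ℝ) hpos).bound (show (0 : ℝ) < 1 / (c ^ d + 1) by positivity)
  have h2 := (tendsto_natCast_atTop_atTop (R := ℝ)).eventually h
  obtain ⟨N₀, h0⟩ := Filter.eventually_atTop.1 h2
  refine ⟨N₀ + 1, fun N hN => ?_⟩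
  have h3 := h0 N (by omega)
  have hN1 : (1 : ℝ) ≤ N := by exact_mod_cast (by omega : 1 ≤ N)
  have hL : 0 ≤ Real.log N := Real.log_nonneg hN1
  rw [Real.rpow_natCast, Real.norm_of_nonneg (by positivity), Real.norm_of_nonneg (by positivity)] at h3
  have hcd : 0 ≤ c ^ d := by positivity
  calc (c * (Real.log N) ^ k) ^ d = c ^ d * (Real.log N) ^ (k * d) := by rw [mul_pow, ← pow_mul]
    _ ≤ c ^ d * (1 / (c ^ d + 1) * (N : ℝ) ^ (1 / (e : ℝ))) := mul_le_mul_of_nonneg_left h3 hcd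
    _ = (c ^ d / (c ^ d + 1)) * (N : ℝ) ^ (1 / (e : ℝ)) := by ring
    _ ≤ 1 * (N : ℝ) ^ (1 / (e : ℝ)) := by
        apply mul_le_mul_of_nonneg_right _ (by positivity)
        rw [div_le_one (by positivity)]
        linarith
    _ = (N : ℝ) ^ (1 / (e : ℝ)) := one_mul _

theorem fin1 (A T : ℕ) (N L K : ℝ) (hL : 100 ≤ L) (hN : 0 ≤ N) (hK : K ≤ 3 * L ^ (A + T + 5)) :
    (K * 2) * (N / L ^ (A + (A + T + 4) + 5)) ≤ (1 / 2) * (N / L ^ A) := by
  have hL0 : 0 < L := by linarith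
  calc (K * 2) * (N / L ^ (A + (A + T + 4) + 5))
      ≤ (3 * L ^ (A + T + 5) * 2) * (N / L ^ (A + (A + T + 4) + 5)) := by
        apply mul_le_mul_of_nonneg_right _ (by positivity)
        linarith
    _ = (6 / L ^ 4) * (N / L ^ A) := by
        have e1 : L ^ (A + (A + T + 4) + 5) = L ^ (A + T + 5) * L ^ 4 * L ^ A := by
          rw [← pow_add, ← pow_add]
          congr 1
          ring
        rw [e1]
        field_simp
        ring
    _ ≤ (1 / 2) * (N / L ^ A) := by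
        apply mul_le_mul_of_nonneg_right _ (by positivity)
        have : (12 : ℝ) ≤ L ^ 4 := by
          calc (12 : ℝ) ≤ 100 ^ 4 := by norm_num
            _ ≤ L ^ 4 := pow_le_pow_left₀ (by norm_num) hL _
        rw [div_le_div_iff₀ (by positivity) (by norm_num)]
        linarith

theorem tail1 (A T : ℕ) (y L D : ℝ) (hL : 100 ≤ L) (hy : 0 ≤ y) (hy8 : 8 * L ^ (A + T + 1) ≤ y)
    (h3 : D ≤ 2 * y / L ^ (A + T + 4) + 1) : D * (L ^ T * (2 * L)) ≤ y / (2 * L ^ A) := by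
  have hL0 : 0 < L := by linarith
  have h4 : (0 : ℝ) ≤ L ^ T * (2 * L) := by positivity
  refine (mul_le_mul_of_nonneg_right h3 h4).trans ?_
  have h5 : (2 * y / L ^ (A + T + 4) + 1) * (L ^ T * (2 * L)) =
      (4 / L ^ 3) * (y / L ^ A) + (2 * L ^ (A + T + 1)) / L ^ A := by
    have e1 : L ^ (A + T + 4) = L ^ A * L ^ T * L * L ^ 3 := by
      rw [← pow_add, ← pow_succ, ← pow_add]
    have e2 : L ^ (A + T + 1) = L ^ A * L ^ T * L := by
      rw [← pow_add, ← pow_succ]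
    rw [e1, e2]
    field_simp
    ring
  rw [h5]
  have h6 : 4 / L ^ 3 ≤ 1 / 4 := by
    have : (16 : ℝ) ≤ L ^ 3 := by
      calc (16 : ℝ) ≤ 100 ^ 3 := by norm_num
        _ ≤ L ^ 3 := pow_le_pow_left₀ (by norm_num) hL _
    rw [div_le_div_iff₀ (by positivity) (by norm_num)]
    linarith
  have h7 : (0 : ℝ) ≤ y / L ^ A := by positivity
  have h8 : (2 * L ^ (A + T + 1)) / L ^ A ≤ (1 / 4) * (y / L ^ A) := by
    rw [← mul_div_assoc]
    apply div_le_div_of_nonneg_right _ (by positivity)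
    linarith
  have h9 : y / (2 * L ^ A) = (1 / 2) * (y / L ^ A) := by
    field_simp
  rw [h9]
  nlinarith

theorem mk1 (A T : ℕ) (N Y L : ℝ) (hL : 100 ≤ L) (hN : 0 ≤ N) (hY : 1 ≤ Y) :
    L ^ T * (N * Y / L ^ (2 * A + T + (A + T + 4) + 6)) / (Y / (2 * L ^ A)) ≤ N / L ^ (A + (A + T + 4) + 5) := by
  have hL0 : 0 < L := by linarith
  have h1 : L ^ T * (N * Y / L ^ (2 * A + T + (A + T + 4) + 6)) / (Y / (2 * L ^ A)) =
      (2 / L) * (N / L ^ (A + (A + T + 4) + 5)) := by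
    have hYne : Y ≠ 0 := by linarith
    have e1 : L ^ (2 * A + T + (A + T + 4) + 6) = L ^ A * L ^ T * L * L ^ (A + (A + T + 4) + 5) := by
      rw [← pow_add, ← pow_succ, ← pow_add]
      congr 1
      ring
    rw [e1]
    field_simp
  rw [h1]
  have h2 : 2 / L ≤ 1 := by
    rw [div_le_one hL0]
    linarith
  have h3 : (0 : ℝ) ≤ N / L ^ (A + (A + T + 4) + 5) := by positivity
  nlinarith

theorem main : ∀ θ : ℝ, 0 ≤ θ → S_LE θ → S_DP θ := by
  intro θ hθ hLE F hF e A T he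
  obtain ⟨E₀, hE₀⟩ := key θ hLE F hF e (2 * A + T + (A + T + 4) + 6) he
  obtain ⟨A0, hA0⟩ := Pool.Agent.TH823.Fam.poly_size F
  refine ⟨E₀, fun E₁ => ?_⟩
  obtain ⟨N₁, hN₁⟩ := hE₀ E₁
  obtain ⟨N₂, hN₂⟩ := Pool.Agent.H373R2.T7.Vz_inv_small E₁
  obtain ⟨N₃, hN₃⟩ := Pool.Agent.H373R2.T7.ev_L' 100
  set d := F.natDegree with hd
  obtain ⟨N₄, hN₄⟩ := big 8 (by norm_num) (A + T + 1) d e he
  obtain ⟨N₅, hN₅⟩ := Pool.Agent.H373R2.T7.ev_log' A 2
  refine ⟨N₁ + N₂ + N₃ + N₄ + N₅ + A0 + 1, ?_⟩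
  intro N hN z hz1 hz2 u hu σ hσ
  have hNpos : (1 : ℝ) ≤ N := by exact_mod_cast (by omega : 1 ≤ N)
  set L := Real.log N with hLdef
  have hL : 100 ≤ L := hN₃ N (by omega)
  have hL0 : 0 < L := by linarith
  have hL1 : 1 ≤ L := by linarith
  have hz0 : 1 ≤ z := by
    have h1 : (1 : ℝ) ≤ z := (one_le_pow₀ hL1).trans hz1
    exact_mod_cast h1
  have hV := hN₂ N (by omega) z hz0 hz2
  have hNA : 2 * L ^ A ≤ N := by
    refine (hN₅ N (by omega)).trans ?_
    rw [Real.sqrt_le_left (by linarith)]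
    nlinarith
  set M : ℕ := ⌈L ^ (A + T + 4)⌉₊ with hM
  have hLV : (1 : ℝ) ≤ L ^ (A + T + 4) := one_le_pow₀ hL1
  have hM1 : L ^ (A + T + 4) ≤ M := Nat.le_ceil _
  have hM2 : (M : ℝ) ≤ 2 * L ^ (A + T + 4) := by
    have := Nat.ceil_lt_add_one (show 0 ≤ L ^ (A + T + 4) by linarith)
    linarith
  have hM0 : 1 ≤ M := by
    have : (1 : ℝ) ≤ M := hLV.trans hM1
    exact_mod_cast this
  set Kk : ℕ := ⌊(M : ℝ) * L⌋₊ + 1 with hKk
  have hKkb : (Kk : ℝ) ≤ 3 * L ^ (A + T + 5) := by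
    rw [hKk]
    push_cast
    have h1 : ((⌊(M : ℝ) * L⌋₊ : ℕ) : ℝ) ≤ M * L := Nat.floor_le (by positivity)
    have h2 : (M : ℝ) * L ≤ 2 * L ^ (A + T + 5) := by
      calc (M : ℝ) * L ≤ (2 * L ^ (A + T + 4)) * L := mul_le_mul_of_nonneg_right hM2 hL0.le
        _ = 2 * L ^ (A + T + 5) := by rw [pow_succ L (A + T + 4)]; ring
    have h3 : (1 : ℝ) ≤ L ^ (A + T + 5) := one_le_pow₀ hL1
    linarith
  -- the bad sets
  set S : ℤ → ℕ → ℕ → ℝ := fun τ Y n => ∑ m ∈ Icc 1 Y, u m * Ed z (σ * τ * n + σ * F.eval (m : ℤ)) with hS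
  let Cond : ℕ → Prop := fun Y => 1 ≤ Y ∧ (N : ℝ) ^ (θ + 1 / e : ℝ) ≤ (8 * Y : ℝ) ^ d ∧ Y ^ d ≤ N
  classical
  set Bad : ℕ × ℤ → Finset ℤ := fun q =>
    ((Icc 1 N).filter (fun n => Cond (gr M q.1) ∧ (gr M q.1 : ℝ) / (2 * L ^ A) < |S q.2 (gr M q.1) n|)).image
      (fun n : ℕ => q.2 * (n : ℤ)) with hBad
  set I : Finset (ℕ × ℤ) := (range Kk) ×ˢ ({1, -1} : Finset ℤ) with hI
  have hBadcard : ∀ q ∈ I, ((Bad q).card : ℝ) ≤ N / L ^ (A + (A + T + 4) + 5) := by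
    intro q hq
    rw [hI, Finset.mem_product] at hq
    have hτ : q.2 = 1 ∨ q.2 = -1 := by simpa using hq.2
    by_cases hC : Cond (gr M q.1)
    · set Y := gr M q.1 with hY
      have hY0 : (1 : ℝ) ≤ Y := by exact_mod_cast hC.1
      have hYN : Y ≤ N := (Nat.le_self_pow (by omega) Y).trans hC.2.2
      have hk := hN₁ N (by omega) z hz1 hz2 Y hC.2.1 hC.2.2 σ (σ * q.2) hσ (by
        rcases hσ with h1 | h1 <;> rcases hτ with h2 | h2 <;> rw [h1, h2] <;> simp)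
      have hd1 := dual Y N u (fun m n => Ed z (σ * q.2 * n + σ * F.eval (m : ℤ))) (L ^ T) _ (by positivity)
        (by
          intro m hm
          exact hu m ((Finset.mem_Icc.1 hm).2.trans hYN)) hk
      have hmk := markov (Icc 1 N) (fun n => S q.2 Y n) ((Y : ℝ) / (2 * L ^ A)) _ (by positivity) hd1
      have hcard : ((Bad q).card : ℝ) ≤ (((Icc 1 N).filter (fun n => (Y : ℝ) / (2 * L ^ A) < |S q.2 Y n|)).card : ℝ) := by
        rw [hBad]
        dsimp only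
        rw [← hY]
        norm_cast
        refine (Finset.card_image_le).trans ?_
        apply Finset.card_le_card
        intro n hn
        rw [Finset.mem_filter] at hn ⊢
        exact ⟨hn.1, hn.2.2⟩
      refine hcard.trans (hmk.trans ?_)
      exact mk1 A T N Y L hL (by linarith) hY0
    · have h1 : Bad q = ∅ := by
        rw [hBad]
        dsimp only
        rw [Finset.image_eq_empty, Finset.filter_eq_empty_iff]
        intro n _ hn
        exact hC hn.1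
      rw [h1, Finset.card_empty, Nat.cast_zero]
      positivity
  have hsub : ((Icc (-(N : ℤ)) N).filter (fun a => ∃ y : ℕ, Yr θ e N d y ∧
      (y : ℝ) / L ^ A < |∑ n ∈ Icc 1 y, u n * Ed z (σ * (F.eval (n : ℤ) + a))|)) ⊆ {0} ∪ I.biUnion Bad := by
    intro a ha
    rw [Finset.mem_filter, Finset.mem_Icc] at ha
    obtain ⟨⟨ha1, ha2⟩, y, hy, hya⟩ := ha
    rw [Finset.mem_union]
    by_cases ha0 : a = 0
    · left
      simp [ha0]
    · right
      rw [Finset.mem_biUnion]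
      -- the sign
      obtain ⟨τ, n, hτ, hn1, han⟩ : ∃ τ : ℤ, ∃ n : ℕ, (τ = 1 ∨ τ = -1) ∧ 1 ≤ n ∧ a = τ * n := by
        rcases lt_trichotomy a 0 with h | h | h
        · exact ⟨-1, a.natAbs, Or.inr rfl, by omega, by omega⟩
        · exact absurd h ha0
        · exact ⟨1, a.natAbs, Or.inl rfl, by omega, by omega⟩
      have hnN : n ≤ N := by
        rcases hτ with h | h <;> rw [h] at han <;> omega
      have hlow : (N : ℝ) ^ (1 / (e : ℝ)) ≤ (y : ℝ) ^ d := by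
        refine le_trans ?_ hy.1
        apply Real.rpow_le_rpow_of_exponent_le hNpos
        linarith
      have hy8 : 8 * L ^ (A + T + 1) ≤ y := by
        have h1 := (hN₄ N (by omega)).trans hlow
        exact le_of_pow_le_pow_left₀ (by omega) (Nat.cast_nonneg _) h1
      have hy1R : (1 : ℝ) ≤ y := by
        have : (1 : ℝ) ≤ L ^ (A + T + 1) := one_le_pow₀ hL1
        linarith
      have hy1 : 1 ≤ y := by exact_mod_cast hy1R
      have hyN : y ≤ N := (Nat.le_self_pow (by omega) y).trans hy.2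
      obtain ⟨k, hk1, hk2, hk3, hk4, hk5⟩ := grid M hM0 y hy1
      set Y := gr M k with hY
      have hkK : k ∈ range Kk := by
        rw [Finset.mem_range, hKk, Nat.lt_succ_iff]
        apply Nat.le_floor
        refine hk1.trans ?_
        apply mul_le_mul_of_nonneg_left _ (Nat.cast_nonneg _)
        exact Real.log_le_log (by linarith) (by exact_mod_cast hyN)
      refine ⟨(k, τ), ?_, ?_⟩
      · rw [hI, Finset.mem_product]
        refine ⟨hkK, ?_⟩
        simpa using hτ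
      · rw [hBad]
        dsimp only
        rw [Finset.mem_image]
        refine ⟨n, ?_, han.symm⟩
        rw [Finset.mem_filter, Finset.mem_Icc, ← hY]
        refine ⟨⟨hn1, hnN⟩, ⟨hk2, ?_, ?_⟩, ?_⟩
        · refine hy.1.trans ?_
          apply pow_le_pow_left₀ (Nat.cast_nonneg _)
          exact_mod_cast hk4
        · exact (Nat.pow_le_pow_left hk3 d).trans hy.2
        · -- the tail
          have hEd : ∀ m ∈ Icc 1 y, |Ed z (σ * (F.eval (m : ℤ) + a))| ≤ 2 * L := by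
            intro m hm
            apply Ed_bd z N _ (by omega) _ hV
            have h1 := hA0 y hy1 m hm
            have h2 : ((y : ℤ)) ^ d ≤ N := by exact_mod_cast hy.2
            have h3 : |F.eval (m : ℤ)| ≤ A0 * N :=
              h1.trans (mul_le_mul_of_nonneg_left h2 (Int.natCast_nonneg _))
            have h4 := abs_le.1 h3
            have h5 : (A0 : ℤ) + 1 ≤ N := by
              have : A0 + 1 ≤ N := by omega
              exact_mod_cast this
            have h6 : (0 : ℤ) ≤ N := Int.natCast_nonneg N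
            have h7 : σ * (F.eval (m : ℤ) + a) ≤ A0 * N + N := by
              rcases hσ with h | h <;> rw [h]
              · linarith [h4.2]
              · linarith [h4.1]
            nlinarith
          have hsplit : ∑ m ∈ Icc 1 y, u m * Ed z (σ * (F.eval (m : ℤ) + a)) =
              S τ Y n + ∑ m ∈ Ioc Y y, u m * Ed z (σ * (F.eval (m : ℤ) + a)) := by
            have h1 : Icc 1 y = Icc 1 Y ∪ Ioc Y y := by
              ext m
              simp only [Finset.mem_union, Finset.mem_Icc, Finset.mem_Ioc]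
              omega
            have h2 : Disjoint (Icc 1 Y) (Ioc Y y) := by
              rw [Finset.disjoint_left]
              intro m hm hm2
              rw [Finset.mem_Icc] at hm
              rw [Finset.mem_Ioc] at hm2
              omega
            rw [h1, Finset.sum_union h2]
            congr 1
            rw [hS]
            dsimp only
            refine Finset.sum_congr rfl fun m _ => ?_
            congr 2
            rw [han]
            ring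
          have htail : |∑ m ∈ Ioc Y y, u m * Ed z (σ * (F.eval (m : ℤ) + a))| ≤ (y : ℝ) / (2 * L ^ A) := by
            have h1 : |∑ m ∈ Ioc Y y, u m * Ed z (σ * (F.eval (m : ℤ) + a))| ≤ ((y : ℝ) - Y) * (L ^ T * (2 * L)) := by
              refine (Finset.abs_sum_le_sum_abs _ _).trans ?_
              have h2 : ∀ m ∈ Ioc Y y, |u m * Ed z (σ * (F.eval (m : ℤ) + a))| ≤ L ^ T * (2 * L) := by
                intro m hm
                rw [Finset.mem_Ioc] at hm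
                rw [abs_mul]
                apply mul_le_mul (hu m (hm.2.trans hyN)) _ (abs_nonneg _) (by positivity)
                apply hEd
                rw [Finset.mem_Icc]
                exact ⟨by omega, hm.2⟩
              refine (Finset.sum_le_card_nsmul _ _ _ h2).trans ?_
              rw [Nat.card_Ioc, nsmul_eq_mul, Nat.cast_sub hk3]
            refine h1.trans ?_
            have h3 : (y : ℝ) - Y ≤ 2 * y / L ^ (A + T + 4) + 1 := by
              refine hk5.trans ?_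
              have : 2 * (y : ℝ) / M ≤ 2 * y / L ^ (A + T + 4) :=
                div_le_div_of_nonneg_left (by positivity) (by positivity) hM1
              linarith
            exact tail1 A T y L _ hL (by linarith) hy8 h3
          rw [hsplit] at hya
          have h10 := hya.trans_le (abs_add_le _ _)
          have h11 : (Y : ℝ) / (2 * L ^ A) ≤ (y : ℝ) / (2 * L ^ A) := by
            apply div_le_div_of_nonneg_right _ (by positivity)
            exact_mod_cast hk3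
          have h12 : (y : ℝ) / L ^ A = (y : ℝ) / (2 * L ^ A) + (y : ℝ) / (2 * L ^ A) := by
            field_simp
            ring
          linarith
  have hcard : (((Icc (-(N : ℤ)) N).filter (fun a => ∃ y : ℕ, Yr θ e N d y ∧
      (y : ℝ) / L ^ A < |∑ n ∈ Icc 1 y, u n * Ed z (σ * (F.eval (n : ℤ) + a))|)).card : ℝ) ≤
      1 + ∑ q ∈ I, ((Bad q).card : ℝ) := by
    have h1 := Finset.card_le_card hsub
    have h2 : ({0} ∪ I.biUnion Bad : Finset ℤ).card ≤ 1 + ∑ q ∈ I, (Bad q).card := by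
      refine (Finset.card_union_le _ _).trans ?_
      rw [Finset.card_singleton]
      exact Nat.add_le_add_left Finset.card_biUnion_le 1
    have h3 := h1.trans h2
    exact_mod_cast h3
  have hsum : ∑ q ∈ I, ((Bad q).card : ℝ) ≤ (Kk * 2) * (N / L ^ (A + (A + T + 4) + 5)) := by
    refine (Finset.sum_le_card_nsmul _ _ _ hBadcard).trans ?_
    rw [hI, Finset.card_product, Finset.card_range, nsmul_eq_mul]
    apply le_of_eq
    have : ({1, -1} : Finset ℤ).card = 2 := by decide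
    rw [this]
    push_cast
    ring
  have hfin : (Kk * 2) * ((N : ℝ) / L ^ (A + (A + T + 4) + 5)) ≤ (1 / 2) * (N / L ^ A) :=
    fin1 A T N L Kk hL (by linarith) hKkb
  have hone : (1 : ℝ) ≤ (1 / 2) * (N / L ^ A) := by
    have h1 : (2 : ℝ) ≤ N / L ^ A := by
      rw [le_div_iff₀ (by positivity)]
      exact hNA
    linarith
  have hfinal : (((Icc (-(N : ℤ)) N).filter (fun a => ∃ y : ℕ, Yr θ e N d y ∧
      (y : ℝ) / L ^ A < |∑ n ∈ Icc 1 y, u n * Ed z (σ * (F.eval (n : ℤ) + a))|)).card : ℝ) ≤ N / L ^ A := by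
    linarith
  convert hfinal using 2

end Pool.Agent.helper24_UT.Dp
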