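import Pool.Agent.helper24_UT.Stm21
import Pool.Agent.TH823.Fam.Fam2

set_option autoImplicit false

namespace Pool.Agent.helper24_UT.Dpl

open Finset Polynomial
open Pool.Agent.helper24_UT
open Pool.Agent.H373R2.T7 (lamI lamzI lamz Vz pz energy)

/-- close lengths have close logarithms -/
theorem close {L : ℝ} (hL : 2 ≤ L) (V : ℕ) {y Y : ℕ} (hY : 1 ≤ Y) (hYy : Y ≤ y)
    (h : ⌊L ^ V * Real.log y⌋₊ = ⌊L ^ V * Real.log Y⌋₊) : (y : ℝ) - Y ≤ y / L ^ V := by
  have hLV : 0 < L ^ V := by positivity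
  have hY0 : (0 : ℝ) < Y := by exact_mod_cast hY
  have hy0 : (0 : ℝ) < y := by exact_mod_cast (by omega : 0 < y)
  have h1 : L ^ V * Real.log y < ⌊L ^ V * Real.log y⌋₊ + 1 := Nat.lt_floor_add_one _
  have h2 : (⌊L ^ V * Real.log Y⌋₊ : ℝ) ≤ L ^ V * Real.log Y :=
    Nat.floor_le (mul_nonneg hLV.le (Real.log_nonneg (by exact_mod_cast hY)))
  rw [h] at h1
  have h3 : L ^ V * (Real.log y - Real.log Y) < 1 := by nlinarith
  have h4 : Real.log y - Real.log Y < 1 / L ^ V := by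
    rw [lt_div_iff₀ hLV]
    nlinarith
  have h5 : Real.log (y / Y) < 1 / L ^ V := by
    rw [Real.log_div hy0.ne' hY0.ne']
    exact h4
  have h6 : 1 - 1 / L ^ V ≤ Y / y := by
    have h7 := Real.add_one_le_exp (Real.log (Y / y))
    rw [Real.exp_log (by positivity)] at h7
    have h8 : Real.log ((Y : ℝ) / y) = - Real.log (y / Y) := by
      rw [← Real.log_inv, inv_div]
    rw [h8] at h7
    linarith
  rw [le_div_iff₀ hy0] at h6
  have h9 : (1 - 1 / L ^ V) * (y : ℝ) = y - y / L ^ V := by ring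
  linarith

open Classical in
/-- one representative per class -/
theorem reps (P : ℕ → Prop) (cls : ℕ → ℕ) (N K : ℕ) (hP : ∀ y, P y → y ≤ N ∧ cls y < K) :
    ∃ R : Finset ℕ, R.card ≤ K ∧ (∀ Y ∈ R, P Y) ∧ ∀ y, P y → ∃ Y ∈ R, Y ≤ y ∧ cls y = cls Y := by
  refine ⟨(range (N + 1)).filter (fun Y => P Y ∧ ∀ y, P y → cls y = cls Y → Y ≤ y), ?_, ?_, ?_⟩
  · have h := Finset.card_le_card_of_injOn (s := (range (N + 1)).filter
      (fun Y => P Y ∧ ∀ y, P y → cls y = cls Y → Y ≤ y)) (t := range K) cls ?_ ?_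
    · simpa using h
    · intro Y hY
      have := (mem_filter.1 hY).2.1
      exact mem_coe.2 (mem_range.2 (hP Y this).2)
    · intro Y hY Y' hY' hcc
      have h1 := (mem_filter.1 hY).2
      have h2 := (mem_filter.1 hY').2
      exact le_antisymm (h1.2 Y' h2.1 hcc.symm) (h2.2 Y h1.1 hcc)
  · intro Y hY
    exact (mem_filter.1 hY).2.1
  · intro y hy
    have hex : ∃ Y, P Y ∧ cls Y = cls y := ⟨y, hy, rfl⟩
    have h1 := Nat.find_spec hex
    refine ⟨Nat.find hex, ?_, Nat.find_min' hex ⟨hy, rfl⟩, h1.2.symm⟩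
    rw [mem_filter, mem_range]
    refine ⟨by have := (hP _ h1.1).1; omega, h1.1, fun y' hy' hc => ?_⟩
    exact Nat.find_min' hex ⟨hy', hc.trans h1.2⟩

open Classical in
/-- Markov -/
theorem markov (N : ℕ) (S : ℕ → ℝ) (t B : ℝ) (ht : 0 < t) (h : ∑ n ∈ Icc 1 N, |S n| ≤ B) :
    (((Icc 1 N).filter (fun n => t < |S n|)).card : ℝ) ≤ B / t := by
  rw [le_div_iff₀ ht]
  refine le_trans ?_ h
  calc (((Icc 1 N).filter (fun n => t < |S n|)).card : ℝ) * t
      = ∑ n ∈ (Icc 1 N).filter (fun n => t < |S n|), t := by rw [sum_const, nsmul_eq_mul]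
    _ ≤ ∑ n ∈ (Icc 1 N).filter (fun n => t < |S n|), |S n| :=
        sum_le_sum fun n hn => (mem_filter.1 hn).2.le
    _ ≤ _ := sum_le_sum_of_subset_of_nonneg (filter_subset _ _) fun _ _ _ => abs_nonneg _

open Classical in
theorem core (F : ℤ[X]) (d e A T N : ℕ) (θ L : ℝ) (hL : 2 ≤ L) (hd : 1 ≤ d) (hN : 1 ≤ N)
    (hLN : L = Real.log N) (u : ℕ → ℝ) (hu : ∀ n, n ≤ N → |u n| ≤ L ^ T) (f g : ℤ → ℝ)
    (hf1 : ∀ v, |f v| ≤ 1) (hfg : ∀ v, f v = g v + g (-v)) (M : ℝ) (hM : 0 ≤ M)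
    (h : ∀ Y, Yr θ e N d Y → ∀ s s' : ℤ, (s = 1 ∨ s = -1) → (s' = 1 ∨ s' = -1) →
      ∑ n ∈ Icc 1 N, |∑ j ∈ Icc 1 Y, u j * g (s' * (n : ℤ) + s * F.eval (j : ℤ))| ≤ Y * M) :
    (((Icc (-(N : ℤ)) N).filter (fun a => ∃ y : ℕ, Yr θ e N d y ∧
      (y : ℝ) / L ^ A < |∑ n ∈ Icc 1 y, u n * f (F.eval (n : ℤ) + a)|)).card : ℝ) ≤
      1 + 2 * L ^ (A + T + 2) * (16 * L ^ A * M) := by
  set V := A + T + 1 with hV
  have hL0 : 0 < L := by linarith
  have hN0 : (0 : ℝ) < N := by exact_mod_cast hN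
  -- lengths are positive and at most `N`
  have hpos : ∀ y, Yr θ e N d y → 1 ≤ y ∧ y ≤ N := by
    intro y hy
    constructor
    · by_contra hcon
      have h0 : y = 0 := by omega
      have h1 := hy.1
      rw [h0, Nat.cast_zero, zero_pow (by omega)] at h1
      have := Real.rpow_pos_of_pos hN0 (θ + 1 / e : ℝ)
      linarith
    · exact (Nat.le_self_pow (by omega) y).trans hy.2
  set cls : ℕ → ℕ := fun y => ⌊L ^ V * Real.log y⌋₊ with hcls
  obtain ⟨R, hR1, hR2, hR3⟩ := reps (Yr θ e N d) cls N (⌊L ^ (V + 1)⌋₊ + 1) (by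
    intro y hy
    refine ⟨(hpos y hy).2, Nat.lt_succ_of_le ?_⟩
    apply Nat.floor_le_floor
    rw [pow_succ]
    apply mul_le_mul_of_nonneg_left _ (by positivity)
    rw [hLN]
    apply Real.log_le_log
    · exact_mod_cast (hpos y hy).1
    · exact_mod_cast (hpos y hy).2)
  set bad : ℤ → ℤ → ℕ → Finset ℤ := fun s s' Y =>
    ((Icc 1 N).filter (fun n : ℕ => (Y : ℝ) / (4 * L ^ A) <
      |∑ j ∈ Icc 1 Y, u j * g (s' * (n : ℤ) + s * F.eval (j : ℤ))|)).image (fun n : ℕ => s * s' * (n : ℤ)) with hbad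
  have hsub : (Icc (-(N : ℤ)) N).filter (fun a => ∃ y : ℕ, Yr θ e N d y ∧
      (y : ℝ) / L ^ A < |∑ n ∈ Icc 1 y, u n * f (F.eval (n : ℤ) + a)|) ⊆
      {0} ∪ R.biUnion (fun Y => (bad 1 1 Y ∪ bad 1 (-1) Y) ∪ (bad (-1) 1 Y ∪ bad (-1) (-1) Y)) := by
    intro a ha
    rw [mem_filter, mem_Icc] at ha
    obtain ⟨⟨ha1, ha2⟩, y, hy1, hy2⟩ := ha
    rw [mem_union, mem_singleton]
    by_cases ha0 : a = 0
    · exact Or.inl ha0
    right
    obtain ⟨Y, hYR, hYy, hYc⟩ := hR3 y hy1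
    have hY1 : 1 ≤ Y := (hpos Y (hR2 Y hYR)).1
    have hyN : y ≤ N := (hpos y hy1).2
    have hclose := close hL V hY1 hYy hYc
    have hy0 : (0 : ℝ) < y := by exact_mod_cast (by omega : 0 < y)
    have hY0 : (0 : ℝ) < Y := by exact_mod_cast hY1
    have hYley : (Y : ℝ) ≤ y := by exact_mod_cast hYy
    rw [mem_biUnion]
    refine ⟨Y, hYR, ?_⟩
    -- the sum at the grid point is large
    have hbig : (Y : ℝ) / (2 * L ^ A) < |∑ n ∈ Icc 1 Y, u n * f (F.eval (n : ℤ) + a)| := by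
      by_contra hcon
      push Not at hcon
      have hsplit : ∑ n ∈ Icc 1 y, u n * f (F.eval (n : ℤ) + a) =
          ∑ n ∈ Icc 1 Y, u n * f (F.eval (n : ℤ) + a) + ∑ n ∈ Ioc Y y, u n * f (F.eval (n : ℤ) + a) := by
        rw [← sum_union]
        · congr 1
          ext n
          simp only [mem_Icc, mem_union, mem_Ioc]
          omega
        · rw [disjoint_left]
          intro n h1 h2
          rw [mem_Icc] at h1
          rw [mem_Ioc] at h2
          omega
      have htail : |∑ n ∈ Ioc Y y, u n * f (F.eval (n : ℤ) + a)| ≤ y / (2 * L ^ A) := by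
        calc |∑ n ∈ Ioc Y y, u n * f (F.eval (n : ℤ) + a)|
            ≤ ∑ n ∈ Ioc Y y, |u n * f (F.eval (n : ℤ) + a)| := abs_sum_le_sum_abs _ _
          _ ≤ ∑ n ∈ Ioc Y y, L ^ T := by
              apply sum_le_sum
              intro n hn
              rw [mem_Ioc] at hn
              rw [abs_mul]
              calc |u n| * |f (F.eval (n : ℤ) + a)| ≤ L ^ T * 1 :=
                    mul_le_mul (hu n (by omega)) (hf1 _) (abs_nonneg _) (by positivity)
                _ = L ^ T := mul_one _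
          _ = (y - Y) * L ^ T := by
              rw [sum_const, Nat.card_Ioc, nsmul_eq_mul, Nat.cast_sub hYy]
          _ ≤ (y / L ^ V) * L ^ T := mul_le_mul_of_nonneg_right hclose (by positivity)
          _ = y / (L ^ A * L) := by
              rw [hV, pow_add, pow_add, pow_one]
              field_simp
          _ ≤ y / (2 * L ^ A) := by
              apply div_le_div_of_nonneg_left hy0.le (by positivity)
              rw [mul_comm]
              exact mul_le_mul_of_nonneg_left hL (by positivity)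
      rw [hsplit] at hy2
      have h1 := abs_add_le (∑ n ∈ Icc 1 Y, u n * f (F.eval (n : ℤ) + a))
        (∑ n ∈ Ioc Y y, u n * f (F.eval (n : ℤ) + a))
      have h2 : (Y : ℝ) / (2 * L ^ A) ≤ y / (2 * L ^ A) :=
        div_le_div_of_nonneg_right hYley (by positivity)
      have h3 : (y : ℝ) / L ^ A = y / (2 * L ^ A) + y / (2 * L ^ A) := by
        field_simp
        ring
      linarith
    -- one sign
    have hsign : ∃ s : ℤ, (s = 1 ∨ s = -1) ∧ (Y : ℝ) / (4 * L ^ A) <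
        |∑ n ∈ Icc 1 Y, u n * g (s * (F.eval (n : ℤ) + a))| := by
      by_contra hcon
      push Not at hcon
      have h1 := hcon 1 (Or.inl rfl)
      have h2 := hcon (-1) (Or.inr rfl)
      have h3 : ∑ n ∈ Icc 1 Y, u n * f (F.eval (n : ℤ) + a) =
          ∑ n ∈ Icc 1 Y, u n * g (1 * (F.eval (n : ℤ) + a)) +
          ∑ n ∈ Icc 1 Y, u n * g (-1 * (F.eval (n : ℤ) + a)) := by
        rw [← sum_add_distrib]
        refine sum_congr rfl fun n _ => ?_
        rw [hfg, one_mul, neg_one_mul]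
        ring
      rw [h3] at hbig
      have h4 := abs_add_le (∑ n ∈ Icc 1 Y, u n * g (1 * (F.eval (n : ℤ) + a)))
        (∑ n ∈ Icc 1 Y, u n * g (-1 * (F.eval (n : ℤ) + a)))
      have h5 : (Y : ℝ) / (2 * L ^ A) = Y / (4 * L ^ A) + Y / (4 * L ^ A) := by
        field_simp
        ring
      linarith
    obtain ⟨s, hs, hs2⟩ := hsign
    -- the sign of `a`
    obtain ⟨τ, hτ, hτ2⟩ : ∃ τ : ℤ, (τ = 1 ∨ τ = -1) ∧ a = τ * (a.natAbs : ℤ) := by
      rcases le_total 0 a with h0 | h0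
      · exact ⟨1, Or.inl rfl, by rw [one_mul, Int.natAbs_of_nonneg h0]⟩
      · refine ⟨-1, Or.inr rfl, ?_⟩
        rw [neg_one_mul, Int.ofNat_natAbs_of_nonpos h0, neg_neg]
    have hmem : a ∈ bad s (s * τ) Y := by
      rw [hbad]
      simp only [mem_image, mem_filter, mem_Icc]
      refine ⟨a.natAbs, ⟨⟨by omega, by omega⟩, ?_⟩, ?_⟩
      · have h1 : ∀ j : ℕ, s * τ * (a.natAbs : ℤ) + s * F.eval (j : ℤ) = s * (F.eval (j : ℤ) + a) := by
          intro j
          conv_rhs => rw [hτ2]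
          ring
        simp only [h1]
        exact hs2
      · have h2 : s * (s * τ) = τ := by
          rcases hs with rfl | rfl <;> ring
        rw [h2, ← hτ2]
    rcases hs with rfl | rfl <;> rcases hτ with rfl | rfl <;> simp only [mul_one, mul_neg, neg_neg] at hmem <;>
      simp only [mem_union] <;> tauto
  have hcard : ∀ Y ∈ R, ∀ s s' : ℤ, (s = 1 ∨ s = -1) → (s' = 1 ∨ s' = -1) →
      ((bad s s' Y).card : ℝ) ≤ 4 * L ^ A * M := by
    intro Y hY s s' hs hs'
    have hY1 : 1 ≤ Y := (hpos Y (hR2 Y hY)).1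
    have hY0 : (0 : ℝ) < Y := by exact_mod_cast hY1
    have h1 := markov N (fun n : ℕ => ∑ j ∈ Icc 1 Y, u j * g (s' * (n : ℤ) + s * F.eval (j : ℤ)))
      ((Y : ℝ) / (4 * L ^ A)) (Y * M) (by positivity) (h Y (hR2 Y hY) s s' hs hs')
    have h2 : ((bad s s' Y).card : ℝ) ≤ (((Icc 1 N).filter (fun n : ℕ => (Y : ℝ) / (4 * L ^ A) <
      |∑ j ∈ Icc 1 Y, u j * g (s' * (n : ℤ) + s * F.eval (j : ℤ))|)).card : ℝ) := by
      exact_mod_cast card_image_le
    refine h2.trans (h1.trans (le_of_eq ?_))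
    field_simp
  have hfin := card_le_card hsub
  have hfin2 : (({0} ∪ R.biUnion (fun Y => (bad 1 1 Y ∪ bad 1 (-1) Y) ∪
      (bad (-1) 1 Y ∪ bad (-1) (-1) Y)) : Finset ℤ).card : ℝ) ≤ 1 + R.card * (16 * L ^ A * M) := by
    have h1 := card_union_le ({0} : Finset ℤ) (R.biUnion (fun Y => (bad 1 1 Y ∪ bad 1 (-1) Y) ∪
      (bad (-1) 1 Y ∪ bad (-1) (-1) Y)))
    have h2 : ((R.biUnion (fun Y => (bad 1 1 Y ∪ bad 1 (-1) Y) ∪
      (bad (-1) 1 Y ∪ bad (-1) (-1) Y))).card : ℝ) ≤ R.card * (16 * L ^ A * M) := by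
      have h3 : ((R.biUnion (fun Y => (bad 1 1 Y ∪ bad 1 (-1) Y) ∪
        (bad (-1) 1 Y ∪ bad (-1) (-1) Y))).card : ℝ) ≤
        ∑ Y ∈ R, (((bad 1 1 Y ∪ bad 1 (-1) Y) ∪ (bad (-1) 1 Y ∪ bad (-1) (-1) Y)).card : ℝ) := by
        exact_mod_cast card_biUnion_le
      refine h3.trans ?_
      rw [← nsmul_eq_mul, ← sum_const]
      apply sum_le_sum
      intro Y hY
      have c1 := hcard Y hY 1 1 (Or.inl rfl) (Or.inl rfl)
      have c2 := hcard Y hY 1 (-1) (Or.inl rfl) (Or.inr rfl)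
      have c3 := hcard Y hY (-1) 1 (Or.inr rfl) (Or.inl rfl)
      have c4 := hcard Y hY (-1) (-1) (Or.inr rfl) (Or.inr rfl)
      have k1 := card_union_le (bad 1 1 Y ∪ bad 1 (-1) Y) (bad (-1) 1 Y ∪ bad (-1) (-1) Y)
      have k2 := card_union_le (bad 1 1 Y) (bad 1 (-1) Y)
      have k3 := card_union_le (bad (-1) 1 Y) (bad (-1) (-1) Y)
      have k4 : (((bad 1 1 Y ∪ bad 1 (-1) Y) ∪ (bad (-1) 1 Y ∪ bad (-1) (-1) Y)).card : ℝ) ≤
          (bad 1 1 Y).card + (bad 1 (-1) Y).card + ((bad (-1) 1 Y).card + (bad (-1) (-1) Y).card) := by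
        exact_mod_cast k1.trans (Nat.add_le_add k2 k3)
      linarith
    have h4 : (({0} ∪ R.biUnion (fun Y => (bad 1 1 Y ∪ bad 1 (-1) Y) ∪
      (bad (-1) 1 Y ∪ bad (-1) (-1) Y)) : Finset ℤ).card : ℝ) ≤ 1 + ((R.biUnion (fun Y =>
      (bad 1 1 Y ∪ bad 1 (-1) Y) ∪ (bad (-1) 1 Y ∪ bad (-1) (-1) Y))).card : ℝ) := by
      rw [card_singleton] at h1
      exact_mod_cast h1
    linarith
  have hRc : (R.card : ℝ) ≤ 2 * L ^ (A + T + 2) := by
    have h1 : (R.card : ℝ) ≤ ⌊L ^ (V + 1)⌋₊ + 1 := by exact_mod_cast hR1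
    have h2 : (⌊L ^ (V + 1)⌋₊ : ℝ) ≤ L ^ (V + 1) := Nat.floor_le (by positivity)
    have h3 : 1 ≤ L ^ (V + 1) := one_le_pow₀ (by linarith)
    have h4 : V + 1 = A + T + 2 := by omega
    rw [← h4]
    linarith
  calc _ ≤ (({0} ∪ R.biUnion (fun Y => (bad 1 1 Y ∪ bad 1 (-1) Y) ∪
      (bad (-1) 1 Y ∪ bad (-1) (-1) Y)) : Finset ℤ).card : ℝ) := by exact_mod_cast hfin
    _ ≤ 1 + R.card * (16 * L ^ A * M) := hfin2
    _ ≤ _ := by
      have : (R.card : ℝ) * (16 * L ^ A * M) ≤ 2 * L ^ (A + T + 2) * (16 * L ^ A * M) :=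
        mul_le_mul_of_nonneg_right hRc (by positivity)
      linarith

/-- duality -/
theorem dual (N Y : ℕ) (u : ℕ → ℝ) (W B : ℝ) (hW : 0 ≤ W) (hu : ∀ j, j ≤ Y → |u j| ≤ W) (k : ℕ → ℕ → ℝ)
    (h : ∀ G : ℕ → ℂ, (∀ n, ‖G n‖ ≤ 1) → ∑ j ∈ Icc 1 Y, ‖∑ n ∈ Icc 1 N, G n * (k n j : ℂ)‖ ≤ B) :
    ∑ n ∈ Icc 1 N, |∑ j ∈ Icc 1 Y, u j * k n j| ≤ W * B := by
  set ε : ℕ → ℝ := fun n => if 0 ≤ ∑ j ∈ Icc 1 Y, u j * k n j then 1 else -1 with hε
  have hε1 : ∀ n, |ε n| ≤ 1 := by
    intro n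
    rw [hε]
    dsimp only
    split_ifs <;> simp
  have h1 : ∀ n, |∑ j ∈ Icc 1 Y, u j * k n j| = ε n * ∑ j ∈ Icc 1 Y, u j * k n j := by
    intro n
    rw [hε]
    dsimp only
    split_ifs with h0
    · rw [abs_of_nonneg h0, one_mul]
    · rw [abs_of_neg (not_le.1 h0), neg_one_mul]
  have h2 := h (fun n => (ε n : ℂ)) (fun n => by rw [Complex.norm_real]; exact hε1 n)
  calc ∑ n ∈ Icc 1 N, |∑ j ∈ Icc 1 Y, u j * k n j|
      = ∑ n ∈ Icc 1 N, ∑ j ∈ Icc 1 Y, u j * (ε n * k n j) := by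
        refine sum_congr rfl fun n _ => ?_
        rw [h1 n, mul_sum]
        refine sum_congr rfl fun j _ => ?_
        ring
    _ = ∑ j ∈ Icc 1 Y, u j * ∑ n ∈ Icc 1 N, ε n * k n j := by
        rw [sum_comm]
        refine sum_congr rfl fun j _ => ?_
        rw [mul_sum]
    _ ≤ ∑ j ∈ Icc 1 Y, W * ‖∑ n ∈ Icc 1 N, (ε n : ℂ) * (k n j : ℂ)‖ := by
        apply sum_le_sum
        intro j hj
        have h3 : (∑ n ∈ Icc 1 N, (ε n : ℂ) * (k n j : ℂ)) = ((∑ n ∈ Icc 1 N, ε n * k n j : ℝ) : ℂ) := by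
          push_cast
          rfl
        rw [h3, Complex.norm_real, Real.norm_eq_abs]
        refine (le_abs_self _).trans ?_
        rw [abs_mul]
        exact mul_le_mul_of_nonneg_right (hu j (mem_Icc.1 hj).2) (abs_nonneg _)
    _ = W * ∑ j ∈ Icc 1 Y, ‖∑ n ∈ Icc 1 N, (ε n : ℂ) * (k n j : ℂ)‖ := by rw [mul_sum]
    _ ≤ W * B := mul_le_mul_of_nonneg_left h2 hW

theorem energy_sign (p x : ℕ) (F : ℤ[X]) (s : ℤ) (hs : s = 1 ∨ s = -1) :
    energy p x (fun j => s * F.eval (j : ℤ)) = energy p x (fun j => (0 : ℤ) + F.eval (j : ℤ)) := by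
  rcases hs with rfl | rfl
  · congr 1
    funext j
    ring
  · rw [← Pool.Agent.TH823.Fam.energy_neg]
    congr 1
    funext j
    ring

theorem main : ∀ θ : ℝ, 0 ≤ θ → S_LEL θ → S_DPL θ := by
  intro θ hθ hLEL F hd e A T he
  set d := F.natDegree with hdd
  obtain ⟨p, C1, hC1, hE⟩ := Pool.Agent.TH823.Fam.energy_poly' F hd
  obtain ⟨A0, hA0⟩ := Pool.Agent.TH823.Fam.poly_size F
  set A1 := A0 + 1 with hA1
  have hp : 1 ≤ p := by
    by_contra hcon
    have hp0 : p = 0 := by omega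
    subst hp0
    have h1 := hE (⌈C1⌉₊ + 1) (by omega) 0
    have h2 : energy 0 (⌈C1⌉₊ + 1) (fun m => 0 + F.eval (m : ℤ)) = 1 := by
      unfold energy
      simp
    rw [h2, Nat.cast_one, one_mul, mul_zero, pow_zero, mul_one] at h1
    have h3 : C1 < ((⌈C1⌉₊ + 1 : ℕ) : ℝ) := by
      push_cast
      have := Nat.le_ceil C1
      linarith
    have h4 : ((⌈C1⌉₊ + 1 : ℕ) : ℝ) ≤ ((⌈C1⌉₊ + 1 : ℕ) : ℝ) ^ F.natDegree :=
      le_self_pow₀ (by exact_mod_cast (by omega : 1 ≤ ⌈C1⌉₊ + 1)) (by omega)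
    linarith
  set U := 3 * A + 2 * T + 6 with hU
  obtain ⟨N1, hN1⟩ := hLEL p (2 * e) 2 1 U hp (by omega)
  -- largeness
  have hlim : Filter.Tendsto (fun N : ℕ => Real.log (N : ℝ)) Filter.atTop Filter.atTop :=
    Real.tendsto_log_atTop.comp (tendsto_natCast_atTop_atTop (R := ℝ))
  obtain ⟨N2, hN2⟩ := Filter.eventually_atTop.1 (hlim.eventually_ge_atTop
    (max 2 (max (C1 * (2 * A1 + 1)) (64 * (2 * A1 + 1)))))
  obtain ⟨N3, hN3⟩ : ∃ N3 : ℕ, ∀ N : ℕ, N3 ≤ N →
      ((2 * A1 + 1 : ℕ) : ℝ) ^ (θ + 1 / (2 * e : ℝ)) ≤ (N : ℝ) ^ (1 / (2 * e : ℝ)) := by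
    have hh : Filter.Tendsto (fun N : ℕ => (N : ℝ) ^ (1 / (2 * e : ℝ))) Filter.atTop Filter.atTop :=
      (tendsto_rpow_atTop (by positivity)).comp (tendsto_natCast_atTop_atTop (R := ℝ))
    exact Filter.eventually_atTop.1 (hh.eventually_ge_atTop _)
  obtain ⟨N4, hN4⟩ : ∃ N4 : ℕ, ∀ N : ℕ, N4 ≤ N → 2 * Real.log (N : ℝ) ^ A ≤ N := by
    have hh : (fun x : ℝ => Real.log x ^ A) =o[Filter.atTop] fun x => x := by
      have := isLittleO_log_rpow_rpow_atTop (A : ℝ) (s := 1) one_pos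
      simpa using this
    have h2 := hh.def (c := 1 / 2) (by norm_num)
    have h3 := (tendsto_natCast_atTop_atTop (R := ℝ)).eventually h2
    obtain ⟨N4, h4⟩ := Filter.eventually_atTop.1 h3
    refine ⟨N4 + 1, fun N hN => ?_⟩
    have h5 := h4 N (by omega)
    have h6 : (0 : ℝ) ≤ Real.log N := Real.log_natCast_nonneg N
    rw [Real.norm_of_nonneg (by positivity), Real.norm_of_nonneg (by positivity)] at h5
    linarith
  refine ⟨N1 + N2 + N3 + N4 + 1, fun N hN u hu f hf => ?_⟩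
  have hLL := hN2 N (by omega)
  set L := Real.log (N : ℝ) with hL
  have hL2 : 2 ≤ L := le_trans (le_max_left _ _) hLL
  have hLC : C1 * (2 * A1 + 1) ≤ L := le_trans ((le_max_left _ _).trans (le_max_right _ _)) hLL
  have hLA : 64 * (2 * (A1 : ℝ) + 1) ≤ L := le_trans ((le_max_right _ _).trans (le_max_right _ _)) hLL
  have hL0 : 0 < L := by linarith
  have hN0 : (0 : ℝ) < N := by exact_mod_cast (by omega : 0 < N)
  set N' := (2 * A1 + 1) * N with hN'
  have hNN' : N ≤ N' := Nat.le_mul_of_pos_left N (by omega)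
  have hLL' : L ≤ Real.log N' := by
    rw [hL]
    exact Real.log_le_log hN0 (by exact_mod_cast hNN')
  obtain ⟨g, hg, hfg, hf1⟩ : ∃ g : ℤ → ℝ, (g = liI ∨ g = muI) ∧ (∀ v, f v = g v + g (-v)) ∧ ∀ v, |f v| ≤ 1 := by
    rcases hf with rfl | rfl
    · refine ⟨liI, Or.inl rfl, fun v => ?_, fun v => ?_⟩
      · unfold liB liI
        rcases lt_trichotomy v 0 with h0 | h0 | h0
        · rw [if_neg h0.ne, if_neg (by omega), if_pos (by omega), zero_add]
          have : v.natAbs = (-v).toNat := by omega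
          rw [this]
        · subst h0
          simp
        · rw [if_neg h0.ne', if_pos (by omega), if_neg (by omega), add_zero]
          have : v.natAbs = v.toNat := by omega
          rw [this]
      · unfold liB
        split_ifs
        · simp
        · simp
    · refine ⟨muI, Or.inr rfl, fun v => ?_, fun v => ?_⟩
      · unfold muB muI
        rcases lt_trichotomy v 0 with h0 | h0 | h0
        · rw [if_neg (by omega), if_pos (by omega), zero_add]
          have : v.natAbs = (-v).toNat := by omega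
          rw [this]
        · subst h0
          simp
        · rw [if_pos (by omega), if_neg (by omega), add_zero]
          have : v.natAbs = v.toNat := by omega
          rw [this]
      · unfold muB
        have := ArithmeticFunction.abs_moebius_le_one (n := v.natAbs)
        exact_mod_cast this
  have hcore := core F d e A T N θ L hL2 hd (by omega) rfl u hu f g hf1 hfg
    (L ^ T * (N' / L ^ U)) (by positivity) (by
      intro Y hY s s' hs hs'
      have hYpos : 1 ≤ Y := by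
        by_contra hcon
        have h0 : Y = 0 := by omega
        have h1 := hY.1
        rw [h0, Nat.cast_zero, zero_pow (by omega)] at h1
        have := Real.rpow_pos_of_pos hN0 (θ + 1 / e : ℝ)
        linarith
      have hYN : Y ≤ N := (Nat.le_self_pow (by omega) Y).trans hY.2
      have hY0 : (0 : ℝ) < Y := by exact_mod_cast hYpos
      set H := 2 * A1 * Y ^ d + 1 with hH
      have hYd1 : 1 ≤ Y ^ d := Nat.one_le_pow _ _ hYpos
      have hHN : H ≤ N' := by
        rw [hH, hN']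
        have := hY.2
        nlinarith
      have hHlow : (N' : ℝ) ^ (θ + 1 / ((2 * e : ℕ) : ℝ) : ℝ) ≤ H := by
        have h1 : (N' : ℝ) = ((2 * A1 + 1 : ℕ) : ℝ) * (N : ℝ) := by rw [hN']; push_cast; ring
        have h2 : (((2 * e : ℕ) : ℝ)) = 2 * (e : ℝ) := by push_cast; ring
        rw [h1, h2, Real.mul_rpow (by positivity) (by positivity)]
        have he0 : (0 : ℝ) < e := by exact_mod_cast he
        calc ((2 * A1 + 1 : ℕ) : ℝ) ^ (θ + 1 / (2 * e : ℝ)) * (N : ℝ) ^ (θ + 1 / (2 * e : ℝ))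
            ≤ (N : ℝ) ^ (1 / (2 * e : ℝ)) * (N : ℝ) ^ (θ + 1 / (2 * e : ℝ)) :=
              mul_le_mul_of_nonneg_right (hN3 N (by omega)) (by positivity)
          _ = (N : ℝ) ^ (θ + 1 / e : ℝ) := by
              rw [← Real.rpow_add hN0]
              congr 1
              field_simp
              ring
          _ ≤ (Y : ℝ) ^ d := hY.1
          _ ≤ H := by
              rw [hH]
              have : Y ^ d ≤ 2 * A1 * Y ^ d + 1 := by nlinarith
              exact_mod_cast this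
      have hc : |-((A1 : ℤ) * (Y : ℤ) ^ d) - 1| ≤ (2 : ℕ) * (N' : ℤ) := by
        have h1 : A1 * Y ^ d + 1 ≤ 2 * N' := by
          rw [hN']
          have := hY.2
          nlinarith
        have h2 : (A1 : ℤ) * (Y : ℤ) ^ d + 1 ≤ 2 * (N' : ℤ) := by exact_mod_cast h1
        have h3 : (0 : ℤ) ≤ (A1 : ℤ) * (Y : ℤ) ^ d := by positivity
        rw [abs_of_nonpos (by linarith)]
        push_cast
        linarith
      have hfam : Fam p 1 N' H Y (-((A1 : ℤ) * (Y : ℤ) ^ d) - 1) (fun j => s * F.eval (j : ℤ)) := by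
        refine ⟨fun m hm => ?_, ?_⟩
        · have h1 := hA0 Y hYpos m hm
          have h2 : |s * F.eval (m : ℤ)| ≤ (A1 : ℤ) * (Y : ℤ) ^ d := by
            have h3 : |s * F.eval (m : ℤ)| = |F.eval (m : ℤ)| := by
              rcases hs with rfl | rfl
              · rw [one_mul]
              · rw [neg_one_mul, abs_neg]
            rw [h3]
            refine h1.trans ?_
            rw [← hdd, hA1]
            push_cast
            have : (0 : ℤ) ≤ (Y : ℤ) ^ d := by positivity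
            nlinarith
          have h4 := abs_le.1 h2
          constructor
          · linarith
          · rw [hH]
            push_cast
            linarith
        · rw [energy_sign p Y F s hs]
          have h1 := hE Y hYpos 0
          rw [← hdd] at h1
          have h2 : (H : ℝ) ≤ (2 * A1 + 1) * (Y : ℝ) ^ d := by
            rw [hH]
            push_cast
            have : (1 : ℝ) ≤ (Y : ℝ) ^ d := by exact_mod_cast hYd1
            linarith
          calc (energy p Y (fun j => (0 : ℤ) + F.eval (j : ℤ)) : ℝ) * H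
              ≤ (energy p Y (fun j => (0 : ℤ) + F.eval (j : ℤ)) : ℝ) * ((2 * A1 + 1) * (Y : ℝ) ^ d) :=
                mul_le_mul_of_nonneg_left h2 (Nat.cast_nonneg _)
            _ = (2 * A1 + 1) * ((energy p Y (fun j => (0 : ℤ) + F.eval (j : ℤ)) : ℝ) * (Y : ℝ) ^ d) := by ring
            _ ≤ (2 * A1 + 1) * (C1 * (Y : ℝ) ^ (2 * p)) := mul_le_mul_of_nonneg_left h1 (by positivity)
            _ = (C1 * (2 * A1 + 1)) * (Y : ℝ) ^ (2 * p) := by ring
            _ ≤ Real.log N' * (Y : ℝ) ^ (2 * p) :=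
                mul_le_mul_of_nonneg_right (hLC.trans hLL') (by positivity)
            _ = Real.log N' ^ 1 * (Y : ℝ) ^ (2 * p) := by rw [pow_one]
      have hY2 : N ≤ 2 * N' := by omega
      have key := hN1 N' (by omega) H hHlow hHN (-((A1 : ℤ) * (Y : ℤ) ^ d) - 1) Y
        (fun j => s * F.eval (j : ℤ)) hc hfam g hg s' hs' N hY2
      have hdual := dual N Y u (L ^ T) ((N' : ℝ) * Y / Real.log N' ^ U) (by positivity)
        (fun j hj => hu j (hj.trans hYN)) (fun n j => g (s' * (n : ℤ) + s * F.eval (j : ℤ))) key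
      refine hdual.trans ?_
      have h5 : (N' : ℝ) * Y / Real.log N' ^ U ≤ (N' : ℝ) * Y / L ^ U := by
        apply div_le_div_of_nonneg_left (by positivity) (by positivity)
        exact pow_le_pow_left₀ hL0.le hLL' U
      calc L ^ T * ((N' : ℝ) * Y / Real.log N' ^ U) ≤ L ^ T * ((N' : ℝ) * Y / L ^ U) :=
            mul_le_mul_of_nonneg_left h5 (by positivity)
        _ = Y * (L ^ T * (N' / L ^ U)) := by ring)
  refine hcore.trans ?_
  have h1 : 2 * L ^ (A + T + 2) * (16 * L ^ A * (L ^ T * ((N' : ℝ) / L ^ U))) ≤ N / (2 * L ^ A) := by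
    have h2 : (N' : ℝ) = (2 * A1 + 1) * N := by rw [hN']; push_cast; ring
    rw [h2, hU]
    have h3 : 2 * L ^ (A + T + 2) * (16 * L ^ A * (L ^ T * ((2 * (A1 : ℝ) + 1) * N / L ^ (3 * A + 2 * T + 6)))) =
        (32 * (2 * A1 + 1)) * N / (L ^ A * L ^ 4) := by
      rw [show 3 * A + 2 * T + 6 = (A + T + 2) + A + T + A + 4 by ring]
      rw [pow_add, pow_add, pow_add, pow_add]
      field_simp
      ring
    rw [h3, div_le_div_iff₀ (by positivity) (by positivity)]
    have h4 : L ≤ L ^ 4 := le_self_pow₀ (by linarith) (by norm_num)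
    have h5 : 32 * (2 * (A1 : ℝ) + 1) * 2 ≤ L ^ 4 := by linarith
    calc 32 * (2 * (A1 : ℝ) + 1) * N * (2 * L ^ A) = (32 * (2 * A1 + 1) * 2) * (N * L ^ A) := by ring
      _ ≤ L ^ 4 * (N * L ^ A) := mul_le_mul_of_nonneg_right h5 (by positivity)
      _ = N * (L ^ A * L ^ 4) := by ring
  have h6 : 1 ≤ (N : ℝ) / (2 * L ^ A) := by
    rw [le_div_iff₀ (by positivity), one_mul]
    exact hN4 N (by omega)
  have h7 : (N : ℝ) / L ^ A = N / (2 * L ^ A) + N / (2 * L ^ A) := by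
    field_simp
    ring
  linarith

end Pool.Agent.helper24_UT.Dpl
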