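import Pool.Agent.helper24_UT.Stm21
import Pool.Agent.TH823.Fam.Fam2
import Pool.Agent.H373R2.T7.LamZ2

set_option autoImplicit false

namespace Pool.Agent.helper24_UT.Dpt

open Finset Polynomial
open Pool.Agent.helper24_UT
open Pool.Agent.H373R2.T7 (lamI lamzI lamz Vz pz energy)

theorem tele {k : ℕ} (a b : Fin k → ℝ) :
    ∏ i, a i - ∏ i, b i = ∑ j, ∏ i, (if i < j then b i else if i = j then a i - b i else a i) := by
  have h := Finset.prod_sub_ordered (univ : Finset (Fin k)) a (fun i => a i - b i)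
  simp only [sub_sub_cancel] at h
  rw [h, sub_sub_cancel]
  refine sum_congr rfl fun j _ => ?_
  have h1 := Finset.prod_filter_mul_prod_filter_not (univ : Finset (Fin k)) (fun i => i < j)
    (fun i => if i < j then b i else if i = j then a i - b i else a i)
  rw [← h1]
  have h2 : (univ : Finset (Fin k)).filter (fun i => ¬ i < j) =
      insert j ((univ : Finset (Fin k)).filter (fun i => j < i)) := by
    ext i
    simp only [mem_filter, mem_univ, true_and, mem_insert, not_lt]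
    constructor
    · intro h
      rcases h.lt_or_eq with h | h
      · exact Or.inr h
      · exact Or.inl h.symm
    · rintro (h | h)
      · exact h.symm.le
      · exact h.le
  have h3 : ∏ i ∈ (univ : Finset (Fin k)).filter (fun i => i < j),
      (if i < j then b i else if i = j then a i - b i else a i) =
      ∏ i ∈ (univ : Finset (Fin k)).filter (fun i => i < j), b i := by
    refine prod_congr rfl fun i hi => ?_
    rw [mem_filter] at hi
    rw [if_pos hi.2]
  have h4 : ∏ i ∈ (univ : Finset (Fin k)).filter (fun i => j < i),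
      (if i < j then b i else if i = j then a i - b i else a i) =
      ∏ i ∈ (univ : Finset (Fin k)).filter (fun i => j < i), a i := by
    refine prod_congr rfl fun i hi => ?_
    rw [mem_filter] at hi
    rw [if_neg (not_lt.2 hi.2.le), if_neg hi.2.ne']
  rw [h2, prod_insert (by simp), h3, h4, if_neg (lt_irrefl j), if_pos rfl]
  ring

/-- one factor is taken out of the telescoping product -/
theorem prod_out {k : ℕ} (a b : Fin k → ℝ) (j : Fin k) (c : ℝ) :
    ∏ i, (if i < j then b i else if i = j then c else a i) =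
      (∏ i, (if i < j then b i else if i = j then 1 else a i)) * c := by
  rw [← mul_prod_erase univ _ (mem_univ j),
    ← mul_prod_erase univ (fun i => if i < j then b i else if i = j then 1 else a i) (mem_univ j)]
  simp only [lt_irrefl, if_false, if_true, one_mul]
  rw [mul_comm]
  congr 1
  refine prod_congr rfl fun i hi => ?_
  have : i ≠ j := (mem_erase.1 hi).1
  simp only [this, if_false]

/-- averaging over one coordinate -/
theorem avg_coord {k : ℕ} (s : Fin k → Finset ℤ) (i : Fin k) (Φ : (Fin k → ℤ) → ℝ) :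
    ∑ m ∈ Fintype.piFinset s, ∑ v ∈ s i, Φ (Function.update m i v) = (s i).card * ∑ m ∈ Fintype.piFinset s, Φ m := by
  rw [← sum_product']
  have h1 : ((s i).card : ℝ) * ∑ m ∈ Fintype.piFinset s, Φ m = ∑ q ∈ Fintype.piFinset s ×ˢ s i, Φ q.1 := by
    rw [sum_product, mul_sum]
    apply sum_congr rfl
    intro m _
    simp only [sum_const, nsmul_eq_mul]
  rw [h1]
  refine sum_bij' (fun q _ => (Function.update q.1 i q.2, q.1 i)) (fun q _ => (Function.update q.1 i q.2, q.1 i)) ?_ ?_ ?_ ?_ ?_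
  · rintro ⟨m, v⟩ hq
    rw [mem_product, Fintype.mem_piFinset] at hq ⊢
    refine ⟨fun j => ?_, hq.1 i⟩
    by_cases hj : j = i
    · subst hj; simpa using hq.2
    · simpa [Function.update_of_ne hj] using hq.1 j
  · rintro ⟨m, v⟩ hq
    rw [mem_product, Fintype.mem_piFinset] at hq ⊢
    refine ⟨fun j => ?_, hq.1 i⟩
    by_cases hj : j = i
    · subst hj; simpa using hq.2
    · simpa [Function.update_of_ne hj] using hq.1 j
  · rintro ⟨m, v⟩ _
    simp
  · rintro ⟨m, v⟩ _
    simp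
  · rintro ⟨m, v⟩ _
    rfl

open Classical in
/-- counting the bad vectors coordinate by coordinate -/
theorem count_bad {k : ℕ} (S : Finset ℤ) (hS : S.Nonempty) (bad : Fin k → (Fin k → ℤ) → Prop) (δ : ℝ)
    (h : ∀ j, ∀ m ∈ Fintype.piFinset (fun _ : Fin k => S),
      ((S.filter (fun v => bad j (Function.update m j v))).card : ℝ) ≤ S.card * δ) :
    (((Fintype.piFinset (fun _ : Fin k => S)).filter (fun m => ∃ j, bad j m)).card : ℝ) ≤
      k * δ * (S.card : ℝ) ^ k := by
  have h1 : ∀ j : Fin k, (((Fintype.piFinset (fun _ : Fin k => S)).filter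
      (fun m => bad j m)).card : ℝ) ≤ δ * (S.card : ℝ) ^ k := by
    intro j
    have h2 := avg_coord (fun _ : Fin k => S) j (fun m => if bad j m then (1 : ℝ) else 0)
    have h3 : ∑ m ∈ Fintype.piFinset (fun _ : Fin k => S),
        ∑ v ∈ S, (if bad j (Function.update m j v) then (1 : ℝ) else 0) ≤
        ∑ m ∈ Fintype.piFinset (fun _ : Fin k => S), (S.card * δ) := by
      refine sum_le_sum fun m hm => ?_
      have h4 := h j m hm
      rw [sum_boole]
      exact h4
    rw [h2, sum_const, nsmul_eq_mul, sum_boole, Fintype.card_piFinset] at h3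
    simp only [prod_const, card_univ, Fintype.card_fin] at h3
    push_cast at h3
    have hx : (0 : ℝ) < S.card := by exact_mod_cast card_pos.2 hS
    have h5 : (S.card : ℝ) * (((Fintype.piFinset (fun _ : Fin k => S)).filter
        (fun m => bad j m)).card : ℝ) ≤ (S.card : ℝ) * (δ * (S.card : ℝ) ^ k) := by
      calc _ ≤ _ := h3
        _ = _ := by ring
    exact le_of_mul_le_mul_left h5 hx
  have h6 : (Fintype.piFinset (fun _ : Fin k => S)).filter (fun m => ∃ j, bad j m) ⊆
      (univ : Finset (Fin k)).biUnion (fun j => (Fintype.piFinset (fun _ : Fin k => S)).filter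
        (fun m => bad j m)) := by
    intro m hm
    rw [mem_filter] at hm
    obtain ⟨hm1, j, hj⟩ := hm
    rw [mem_biUnion]
    exact ⟨j, mem_univ j, mem_filter.2 ⟨hm1, hj⟩⟩
  have h7 := (card_le_card h6).trans card_biUnion_le
  have h8 : (((Fintype.piFinset (fun _ : Fin k => S)).filter (fun m => ∃ j, bad j m)).card : ℝ) ≤
      ∑ j : Fin k, (((Fintype.piFinset (fun _ : Fin k => S)).filter
      (fun m => bad j m)).card : ℝ) := by exact_mod_cast h7
  refine h8.trans ((sum_le_sum fun j _ => h1 j).trans (le_of_eq ?_))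
  rw [sum_const, card_univ, Fintype.card_fin, nsmul_eq_mul]
  ring

/-- the weight -/
noncomputable def WW {r : ℕ} (z N d : ℕ) (u : ℕ → ℝ) (F : Fin r → ℤ[X]) (a : Fin r → ℤ) (j : Fin r) (n : ℕ) : ℝ :=
  if 1 ≤ n ∧ n ^ d ≤ N then u n * ∏ i, (if i < j then lz z ((F i).eval (n : ℤ) + a i) else
    if i = j then 1 else lamA ((F i).eval (n : ℤ) + a i)) else 0

theorem WW_update {r : ℕ} (z N d : ℕ) (u : ℕ → ℝ) (F : Fin r → ℤ[X]) (a : Fin r → ℤ) (j : Fin r) (v : ℤ) (n : ℕ) :
    WW z N d u F (Function.update a j v) j n = WW z N d u F a j n := by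
  unfold WW
  congr 2
  refine prod_congr rfl fun i _ => ?_
  by_cases hi : i = j
  · subst hi
    simp
  · rw [Function.update_of_ne hi]

/-- the difference of the von Mangoldt function and the model on all integers -/
theorem diff_eq {z : ℕ} (hz : 2 ≤ z) (v : ℤ) : lamA v - lz z v = Ed z v + Ed z (-v) := by
  classical
  have key : ∀ w : ℤ, 1 ≤ w → lamA w - lz z w = Ed z w ∧ Ed z (-w) = 0 := by
    intro w hw
    have hw1 : w.natAbs = w.toNat := by omega
    constructor
    · unfold Ed lamA lz lamI lamzI lamz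
      rw [if_pos hw, if_pos hw, hw1]
      congr 1
      have h1 : ∀ p : ℕ, (p : ℤ) ∣ w ↔ p ∣ w.toNat := by
        intro p
        have h2 : ((w.toNat : ℕ) : ℤ) = w := Int.toNat_of_nonneg (by omega)
        conv_lhs => rw [← h2]
        exact Int.natCast_dvd_natCast
      simp only [h1]
    · unfold Ed lamI lamzI
      rw [if_neg (by omega), if_neg (by omega), sub_zero]
  rcases lt_trichotomy v 0 with h0 | h0 | h0
  · obtain ⟨h1, h2⟩ := key (-v) (by omega)
    rw [neg_neg] at h2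
    rw [h2, zero_add, ← h1]
    congr 1
    · unfold lamA
      rw [Int.natAbs_neg]
    · unfold lz
      simp only [dvd_neg]
  · subst h0
    have h2 : 2 ∈ pz z := by
      unfold pz
      rw [mem_filter, mem_Icc]
      exact ⟨⟨by omega, hz⟩, Nat.prime_two⟩
    have h3 : lz z 0 = 0 := by
      unfold lz
      rw [if_neg]
      intro h4
      exact h4 2 h2 (dvd_zero _)
    have h4 : lamA 0 = 0 := by
      unfold lamA
      simp
    have h5 : Ed z 0 = 0 := by
      unfold Ed lamI lamzI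
      simp
    rw [h3, h4, neg_zero, h5]
    ring
  · obtain ⟨h1, h2⟩ := key v (by omega)
    rw [h1, h2, add_zero]

theorem split {r : ℕ} {z N d : ℕ} (hz : 2 ≤ z) (u : ℕ → ℝ) (F : Fin r → ℤ[X]) (a : Fin r → ℤ) {n : ℕ}
    (hn : 1 ≤ n ∧ n ^ d ≤ N) :
    u n * (∏ i, lamA ((F i).eval (n : ℤ) + a i) - ∏ i, lz z ((F i).eval (n : ℤ) + a i)) =
      ∑ j, (WW z N d u F a j n * Ed z (1 * ((F j).eval (n : ℤ) + a j)) +
        WW z N d u F a j n * Ed z (-1 * ((F j).eval (n : ℤ) + a j))) := by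
  rw [tele, mul_sum]
  refine sum_congr rfl fun j _ => ?_
  have h3 : ∏ i, (if i < j then lz z ((F i).eval (n : ℤ) + a i) else
        if i = j then lamA ((F i).eval (n : ℤ) + a i) - lz z ((F i).eval (n : ℤ) + a i) else
          lamA ((F i).eval (n : ℤ) + a i)) = ∏ i, (if i < j then lz z ((F i).eval (n : ℤ) + a i) else
        if i = j then (lamA ((F j).eval (n : ℤ) + a j) - lz z ((F j).eval (n : ℤ) + a j)) else
          lamA ((F i).eval (n : ℤ) + a i)) := by
    refine prod_congr rfl fun i _ => ?_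
    by_cases hi : i = j
    · subst hi
      rfl
    · simp only [hi, if_false]
  rw [h3, prod_out, diff_eq hz]
  unfold WW
  rw [if_pos hn, one_mul, neg_one_mul]
  ring

theorem lamA_le {v : ℤ} {X : ℝ} (hX : 1 ≤ X) (hv : (|v| : ℝ) ≤ X) : lamA v ≤ Real.log X := by
  unfold lamA
  refine (ArithmeticFunction.vonMangoldt_le_log).trans ?_
  rcases Nat.eq_zero_or_pos v.natAbs with h | h
  · rw [h, Nat.cast_zero, Real.log_zero]
    exact Real.log_nonneg hX
  · apply Real.log_le_log (by exact_mod_cast h)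
    have : ((v.natAbs : ℕ) : ℝ) = |(v : ℝ)| := by
      rw [Nat.cast_natAbs]
      push_cast
      rfl
    rw [this]
    exact hv

theorem main : ∀ θ : ℝ, 0 ≤ θ → S_DP θ → S_DPT θ := by
  classical
  intro θ hθ hDP r d F hd hF e A T he
  have h1 : ∀ j : Fin r, ∃ E₀ : ℕ, ∀ E₁ : ℕ, ∃ N₀ : ℕ, ∀ N : ℕ, N₀ ≤ N →
      ∀ z : ℕ, (Real.log N) ^ E₀ ≤ z → (z : ℝ) ≤ (Real.log N) ^ E₁ → ∀ u : ℕ → ℝ,
      (∀ n, n ≤ N → |u n| ≤ (Real.log N) ^ (T + 2 * r)) →
      ∀ σ : ℤ, (σ = 1 ∨ σ = -1) →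
      (((Icc (-(N : ℤ)) N).filter (fun a => ∃ y : ℕ, Yr θ e N (F j).natDegree y ∧
      (y : ℝ) / (Real.log N) ^ (A + 1) < |∑ n ∈ Icc 1 y, u n * Ed z (σ * ((F j).eval (n : ℤ) + a))|)).card : ℝ) ≤
      N / (Real.log N) ^ (A + 1) := by
    intro j
    obtain ⟨E₀, h⟩ := hDP (F j) (by rw [hF j]; exact hd) e (A + 1) (T + 2 * r) he
    refine ⟨E₀, fun E₁ => ?_⟩
    obtain ⟨N₀, h'⟩ := h E₁
    refine ⟨N₀, fun N hN z hz1 hz2 u hu σ hσ => ?_⟩
    convert h' N hN z hz1 hz2 u hu σ hσ using 3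
  choose E0 hE0 using h1
  refine ⟨∑ j, E0 j + 1, fun E₁ => ?_⟩
  choose N0 hN0 using fun j => hE0 j E₁
  choose A0 hA0 using fun j => Pool.Agent.TH823.Fam.poly_size (F j)
  set B := ∑ j, A0 j + 1 with hB
  have hBj : ∀ j, A0 j ≤ B := fun j => (single_le_sum (fun i _ => Nat.zero_le _) (mem_univ j)).trans (by omega)
  obtain ⟨N3, hV⟩ := Pool.Agent.H373R2.T7.Vz_inv_small E₁
  obtain ⟨N4, hN4⟩ : ∃ N4 : ℕ, ∀ N : ℕ, N4 ≤ N → max 2 ((2 * r : ℝ) * 3 ^ r) ≤ Real.log (N : ℝ) := by
    have hlim : Filter.Tendsto (fun N : ℕ => Real.log (N : ℝ)) Filter.atTop Filter.atTop :=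
      Real.tendsto_log_atTop.comp (tendsto_natCast_atTop_atTop (R := ℝ))
    exact Filter.eventually_atTop.1 (hlim.eventually_ge_atTop _)
  refine ⟨∑ j, N0 j + N3 + N4 + (B + 1) + 1, fun N hN z hz1 hz2 u hu => ?_⟩
  have hNj : ∀ j, N0 j ≤ N := fun j =>
    (single_le_sum (f := N0) (fun i _ => Nat.zero_le _) (mem_univ j)).trans (by omega)
  have hLL := hN4 N (by omega)
  set L := Real.log (N : ℝ) with hL
  have hL2 : 2 ≤ L := le_trans (le_max_left _ _) hLL
  have hLr : (2 * r : ℝ) * 3 ^ r ≤ L := le_trans (le_max_right _ _) hLL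
  have hL1 : 1 ≤ L := by linarith
  have hL0 : 0 < L := by linarith
  have hNpos : (0 : ℝ) < N := by exact_mod_cast (by omega : 0 < N)
  have hz2' : 2 ≤ z := by
    have h1 : L ^ 1 ≤ L ^ (∑ j, E0 j + 1) := pow_le_pow_right₀ hL1 (by omega)
    rw [pow_one] at h1
    have : (2 : ℝ) ≤ z := by linarith
    exact_mod_cast this
  have hzE : ∀ j, L ^ (E0 j) ≤ z := fun j => (pow_le_pow_right₀ hL1
    ((single_le_sum (f := E0) (fun i _ => Nat.zero_le _) (mem_univ j)).trans (by omega))).trans hz1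
  have hVz : (Vz z)⁻¹ ≤ L := hV N (by omega) z (by omega) hz2
  -- sizes
  have hlz0 : ∀ v, 0 ≤ lz z v := by
    intro v
    unfold lz
    split_ifs
    · exact (inv_pos.2 (Pool.Agent.H373R2.T7.Vz_pos z)).le
    · exact le_rfl
  have hlz : ∀ v, lz z v ≤ L ^ 2 := by
    intro v
    have h2 : L ≤ L ^ 2 := by nlinarith
    unfold lz
    split_ifs
    · exact hVz.trans h2
    · positivity
  have hlamA0 : ∀ v, 0 ≤ lamA v := fun v => ArithmeticFunction.vonMangoldt_nonneg
  have hBN : ((B : ℝ) + 1) * N ≤ (N : ℝ) ^ 2 := by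
    have : ((B + 1 : ℕ) : ℝ) ≤ N := by exact_mod_cast (by omega : B + 1 ≤ N)
    push_cast at this
    nlinarith
  have hlamA : ∀ (i : Fin r) (n : ℕ) (v : ℤ), 1 ≤ n → n ^ d ≤ N → v ∈ Icc (-(N : ℤ)) N →
      lamA ((F i).eval (n : ℤ) + v) ≤ L ^ 2 := by
    intro i n v hn1 hn2 hv
    rw [mem_Icc] at hv
    have h2 := hA0 i n hn1 n (mem_Icc.2 ⟨hn1, le_rfl⟩)
    rw [hF i] at h2
    have h3 : |(F i).eval (n : ℤ)| ≤ (B : ℤ) * N := by
      refine h2.trans ?_
      have h4 : ((n : ℤ)) ^ d ≤ N := by exact_mod_cast hn2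
      have h5 : ((A0 i : ℕ) : ℤ) ≤ B := by exact_mod_cast hBj i
      have h6 : (0 : ℤ) ≤ (n : ℤ) ^ d := by positivity
      calc (A0 i : ℤ) * (n : ℤ) ^ d ≤ (B : ℤ) * (n : ℤ) ^ d := mul_le_mul_of_nonneg_right h5 h6
        _ ≤ (B : ℤ) * N := mul_le_mul_of_nonneg_left h4 (by positivity)
    have h7 : |(F i).eval (n : ℤ) + v| ≤ ((B : ℤ) + 1) * N := by
      refine (abs_add_le _ _).trans ?_
      have : |v| ≤ N := abs_le.2 hv
      linarith
    have h8 : (|(((F i).eval (n : ℤ) + v : ℤ) : ℝ)|) ≤ ((B : ℝ) + 1) * N := by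
      have h9 : ((|(F i).eval (n : ℤ) + v| : ℤ) : ℝ) ≤ ((((B : ℤ) + 1) * N : ℤ) : ℝ) := by exact_mod_cast h7
      rw [Int.cast_abs] at h9
      refine h9.trans (le_of_eq ?_)
      push_cast
      ring
    have h10 : (1 : ℝ) ≤ ((B : ℝ) + 1) * N := by
      have : (1 : ℝ) ≤ N := by exact_mod_cast (by omega : 1 ≤ N)
      have hB0 : (0 : ℝ) ≤ B := Nat.cast_nonneg _
      nlinarith
    refine (lamA_le h10 (by exact_mod_cast h8)).trans ?_
    calc Real.log (((B : ℝ) + 1) * N) ≤ Real.log ((N : ℝ) ^ 2) := Real.log_le_log (by positivity) hBN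
      _ = 2 * L := by rw [Real.log_pow]; push_cast; ring
      _ ≤ L ^ 2 := by nlinarith
  -- bound of the weights
  have hW : ∀ a ∈ Fintype.piFinset (fun _ : Fin r => Icc (-(N : ℤ)) N), ∀ (j : Fin r) (n : ℕ), n ≤ N →
      |WW z N d u F a j n| ≤ L ^ (T + 2 * r) := by
    intro a ha j n hn
    rw [Fintype.mem_piFinset] at ha
    unfold WW
    split_ifs with hc
    · have hf0 : ∀ i : Fin r, 0 ≤ (if i < j then lz z ((F i).eval (n : ℤ) + a i) else
          if i = j then 1 else lamA ((F i).eval (n : ℤ) + a i)) := by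
        intro i
        split_ifs
        · exact hlz0 _
        · exact zero_le_one
        · exact hlamA0 _
      have hp1 : ∏ i, (if i < j then lz z ((F i).eval (n : ℤ) + a i) else
          if i = j then 1 else lamA ((F i).eval (n : ℤ) + a i)) ≤ (L ^ 2) ^ r := by
        calc _ ≤ ∏ _i : Fin r, (L ^ 2) := by
              refine prod_le_prod (fun i _ => hf0 i) (fun i _ => ?_)
              split_ifs
              · exact hlz _
              · exact one_le_pow₀ hL1
              · exact hlamA i n (a i) hc.1 hc.2 (ha i)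
          _ = (L ^ 2) ^ r := by simp
      rw [abs_mul, abs_of_nonneg (prod_nonneg fun i _ => hf0 i), pow_add, pow_mul]
      exact mul_le_mul (hu n hn) hp1 (prod_nonneg fun i _ => hf0 i) (by positivity)
    · rw [abs_zero]
      positivity
  -- the bad vectors
  set bad : Fin r → (Fin r → ℤ) → Prop := fun j a => ∃ σ : ℤ, (σ = 1 ∨ σ = -1) ∧ ∃ y : ℕ, Yr θ e N d y ∧
    (y : ℝ) / L ^ (A + 1) < |∑ n ∈ Icc 1 y, WW z N d u F a j n * Ed z (σ * ((F j).eval (n : ℤ) + a j))| with hbad
  have hSc : ((Icc (-(N : ℤ)) N).card : ℝ) = 2 * N + 1 := by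
    rw [Int.card_Icc]
    have : (((N : ℤ) + 1 - -(N : ℤ)).toNat : ℤ) = 2 * N + 1 := by
      rw [Int.toNat_of_nonneg (by omega)]
      ring
    exact_mod_cast this
  have hcount := count_bad (k := r) (Icc (-(N : ℤ)) N) ⟨0, by rw [mem_Icc]; omega⟩ bad (1 / L ^ (A + 1)) (by
    intro j a ha
    have hsub : (Icc (-(N : ℤ)) N).filter (fun v => bad j (Function.update a j v)) ⊆
        (Icc (-(N : ℤ)) N).filter (fun v => ∃ y : ℕ, Yr θ e N (F j).natDegree y ∧ (y : ℝ) / L ^ (A + 1) <
          |∑ n ∈ Icc 1 y, WW z N d u F a j n * Ed z (1 * ((F j).eval (n : ℤ) + v))|) ∪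
        (Icc (-(N : ℤ)) N).filter (fun v => ∃ y : ℕ, Yr θ e N (F j).natDegree y ∧ (y : ℝ) / L ^ (A + 1) <
          |∑ n ∈ Icc 1 y, WW z N d u F a j n * Ed z (-1 * ((F j).eval (n : ℤ) + v))|) := by
      intro v hv
      rw [mem_filter] at hv
      obtain ⟨hv1, σ, hσ, y, hy1, hy2⟩ := hv
      simp only [WW_update, Function.update_self] at hy2
      rw [mem_union, mem_filter, mem_filter, hF j]
      rcases hσ with rfl | rfl
      · exact Or.inl ⟨hv1, y, hy1, hy2⟩
      · exact Or.inr ⟨hv1, y, hy1, hy2⟩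
    have k1 := hN0 j N (hNj j) z (hzE j) hz2 (WW z N d u F a j) (fun n hn => hW a ha j n hn) 1 (Or.inl rfl)
    have k2 := hN0 j N (hNj j) z (hzE j) hz2 (WW z N d u F a j) (fun n hn => hW a ha j n hn) (-1) (Or.inr rfl)
    have k3 := (Nat.cast_le (α := ℝ)).2 ((card_le_card hsub).trans (card_union_le _ _))
    rw [Nat.cast_add] at k3
    refine k3.trans ?_
    refine (add_le_add k1 k2).trans ?_
    rw [hSc, mul_one_div, ← add_div]
    apply div_le_div_of_nonneg_right _ (by positivity)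
    linarith)
  have hfin : (r : ℝ) * (1 / L ^ (A + 1)) * ((Icc (-(N : ℤ)) N).card : ℝ) ^ r ≤ (N : ℝ) ^ r / L ^ A := by
    have h2 : ((Icc (-(N : ℤ)) N).card : ℝ) ^ r ≤ 3 ^ r * (N : ℝ) ^ r := by
      rw [← mul_pow, hSc]
      apply pow_le_pow_left₀ (by positivity)
      have : (1 : ℝ) ≤ N := by exact_mod_cast (by omega : 1 ≤ N)
      linarith
    calc (r : ℝ) * (1 / L ^ (A + 1)) * ((Icc (-(N : ℤ)) N).card : ℝ) ^ r
        ≤ (r : ℝ) * (1 / L ^ (A + 1)) * (3 ^ r * (N : ℝ) ^ r) := mul_le_mul_of_nonneg_left h2 (by positivity)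
      _ = (r * 3 ^ r) * ((N : ℝ) ^ r / (L ^ A * L)) := by
          rw [pow_succ]
          field_simp
      _ ≤ L * ((N : ℝ) ^ r / (L ^ A * L)) := by
          apply mul_le_mul_of_nonneg_right _ (by positivity)
          have : (0 : ℝ) ≤ r * 3 ^ r := by positivity
          linarith
      _ = (N : ℝ) ^ r / L ^ A := by field_simp
  refine le_trans ?_ (hcount.trans hfin)
  have hsubset : (Fintype.piFinset (fun _ : Fin r => Icc (-(N : ℤ)) N)).filter (fun a => ∃ y : ℕ, Yr θ e N d y ∧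
      (y : ℝ) / L ^ A < |∑ n ∈ Icc 1 y, u n * (∏ i, lamA ((F i).eval (n : ℤ) + a i) -
      ∏ i, lz z ((F i).eval (n : ℤ) + a i))|) ⊆
      (Fintype.piFinset (fun _ : Fin r => Icc (-(N : ℤ)) N)).filter (fun a => ∃ j, bad j a) := by
    intro a ha
    rw [mem_filter] at ha ⊢
    refine ⟨ha.1, ?_⟩
    obtain ⟨y, hy1, hy2⟩ := ha.2
    by_contra hcon
    push Not at hcon
    have hj : ∀ j (σ : ℤ), (σ = 1 ∨ σ = -1) →
        |∑ n ∈ Icc 1 y, WW z N d u F a j n * Ed z (σ * ((F j).eval (n : ℤ) + a j))| ≤ (y : ℝ) / L ^ (A + 1) := by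
      intro j σ hσ
      by_contra hc2
      exact hcon j ⟨σ, hσ, y, hy1, not_le.1 hc2⟩
    have hsum : ∑ n ∈ Icc 1 y, u n * (∏ i, lamA ((F i).eval (n : ℤ) + a i) -
        ∏ i, lz z ((F i).eval (n : ℤ) + a i)) =
        ∑ j, (∑ n ∈ Icc 1 y, WW z N d u F a j n * Ed z (1 * ((F j).eval (n : ℤ) + a j)) +
          ∑ n ∈ Icc 1 y, WW z N d u F a j n * Ed z (-1 * ((F j).eval (n : ℤ) + a j))) := by
      rw [sum_congr rfl fun n hn => split hz2' u F a (n := n) (N := N) (d := d) ⟨(mem_Icc.1 hn).1,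
        (Nat.pow_le_pow_left (mem_Icc.1 hn).2 d).trans hy1.2⟩]
      rw [sum_comm]
      refine sum_congr rfl fun j _ => ?_
      rw [sum_add_distrib]
    have hle : |∑ n ∈ Icc 1 y, u n * (∏ i, lamA ((F i).eval (n : ℤ) + a i) -
        ∏ i, lz z ((F i).eval (n : ℤ) + a i))| ≤ (2 * r) * ((y : ℝ) / L ^ (A + 1)) := by
      rw [hsum]
      refine (abs_sum_le_sum_abs _ _).trans ?_
      calc _ ≤ ∑ _j : Fin r, 2 * ((y : ℝ) / L ^ (A + 1)) := by
            apply sum_le_sum
            intro j _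
            refine (abs_add_le _ _).trans ?_
            have k1 := hj j 1 (Or.inl rfl)
            have k2 := hj j (-1) (Or.inr rfl)
            linarith
        _ = _ := by
            rw [sum_const, card_univ, Fintype.card_fin, nsmul_eq_mul]
            ring
    have hlt := hy2.trans_le hle
    have h3 : (2 * r : ℝ) * ((y : ℝ) / L ^ (A + 1)) ≤ (y : ℝ) / L ^ A := by
      have h4 : (2 * r : ℝ) ≤ L := by
        have h5 : (1 : ℝ) ≤ 3 ^ r := one_le_pow₀ (by norm_num)
        have h6 : (0 : ℝ) ≤ 2 * r := by positivity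
        nlinarith
      calc (2 * r : ℝ) * ((y : ℝ) / L ^ (A + 1)) ≤ L * ((y : ℝ) / L ^ (A + 1)) :=
            mul_le_mul_of_nonneg_right h4 (by positivity)
        _ = (y : ℝ) / L ^ A := by
            rw [pow_succ]
            field_simp
    linarith
  exact_mod_cast card_le_card hsubset

end Pool.Agent.helper24_UT.Dpt
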