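import Pool.Agent.helper24_UT.Stm21

set_option autoImplicit false

namespace Pool.Agent.helper24_UT.R25

open Finset Polynomial
open Pool.Agent.helper24_UT

/-- proper prime powers -/
def PPw (m : ℕ) : Prop := IsPrimePow m ∧ ¬ m.Prime

open Classical in
/-- the number of proper prime powers up to `M` -/
lemma count_pp (M : ℕ) :
    ((Icc 1 M).filter PPw).card ≤ Nat.sqrt M * Nat.log 2 M := by
  have hsub : (Icc 1 M).filter PPw ⊆
      (Icc 1 (Nat.sqrt M) ×ˢ Icc 1 (Nat.log 2 M)).image (fun x => x.1 ^ x.2) := by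
    intro m hm
    simp only [Finset.mem_filter, Finset.mem_Icc] at hm
    obtain ⟨⟨h1, h2⟩, h3, h4⟩ := hm
    rw [isPrimePow_nat_iff] at h3
    obtain ⟨p, k, hp, hk, rfl⟩ := h3
    have hk2 : 2 ≤ k := by
      by_contra hcon
      have : k = 1 := by omega
      subst this
      apply h4
      simpa using hp
    simp only [Finset.mem_image, Finset.mem_product, Finset.mem_Icc, Prod.exists]
    refine ⟨p, k, ⟨⟨hp.one_lt.le, ?_⟩, hk, ?_⟩, rfl⟩
    · rw [Nat.le_sqrt']
      exact (Nat.pow_le_pow_right hp.pos hk2).trans h2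
    · have : 2 ^ k ≤ M := (Nat.pow_le_pow_left hp.two_le k).trans h2
      exact (Nat.le_log_iff_pow_le (by norm_num) (by omega)).mpr this
  refine (Finset.card_le_card hsub).trans (Finset.card_image_le.trans ?_)
  rw [Finset.card_product, Nat.card_Icc, Nat.card_Icc]
  simp

open Classical in
/-- the number of integers `|v| ≤ M` with `|v|` a proper prime power -/
lemma count_ppz (M : ℕ) (S : Finset ℤ) (hS : ∀ v ∈ S, v.natAbs ≤ M ∧ PPw v.natAbs) :
    S.card ≤ 2 * (Nat.sqrt M * Nat.log 2 M) := by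
  have hsub : S ⊆ ((Icc 1 M).filter PPw).image (fun m : ℕ => (m : ℤ)) ∪
      ((Icc 1 M).filter PPw).image (fun m : ℕ => -(m : ℤ)) := by
    intro v hv
    obtain ⟨h1, h2⟩ := hS v hv
    have h3 : v.natAbs ∈ (Icc 1 M).filter PPw := by
      simp only [Finset.mem_filter, Finset.mem_Icc]
      exact ⟨⟨h2.1.one_lt.le, h1⟩, h2⟩
    rw [Finset.mem_union, Finset.mem_image, Finset.mem_image]
    rcases Int.natAbs_eq v with h | h
    · left
      exact ⟨v.natAbs, h3, h.symm⟩
    · right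
      exact ⟨v.natAbs, h3, h.symm⟩
  have h1 := (Finset.card_le_card hsub).trans (Finset.card_union_le _ _)
  have h2 : (((Icc 1 M).filter PPw).image (fun m : ℕ => (m : ℤ))).card ≤
      ((Icc 1 M).filter PPw).card := Finset.card_image_le
  have h3 : (((Icc 1 M).filter PPw).image (fun m : ℕ => -(m : ℤ))).card ≤
      ((Icc 1 M).filter PPw).card := Finset.card_image_le
  have h4 := count_pp M
  omega

/-- the sum of the absolute values of the coefficients -/
noncomputable def cf (F : ℤ[X]) : ℕ := ∑ i ∈ range (F.natDegree + 1), (F.coeff i).natAbs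

lemma eval_le (F : ℤ[X]) (n : ℕ) (hn : 1 ≤ n) :
    (F.eval (n : ℤ)).natAbs ≤ cf F * n ^ F.natDegree := by
  rw [Polynomial.eval_eq_sum_range]
  have h1 : (∑ i ∈ range (F.natDegree + 1), F.coeff i * (n : ℤ) ^ i).natAbs ≤
      ∑ i ∈ range (F.natDegree + 1), (F.coeff i * (n : ℤ) ^ i).natAbs :=
    Int.natAbs_sum_le _ _
  refine h1.trans ?_
  unfold cf
  rw [Finset.sum_mul]
  refine Finset.sum_le_sum fun i hi => ?_
  rw [Int.natAbs_mul, Int.natAbs_pow, Int.natAbs_natCast]
  refine Nat.mul_le_mul_left _ (Nat.pow_le_pow_right hn ?_)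
  have := Finset.mem_range.mp hi
  omega

open Classical in
/-- the weighted number of proper prime powers -/
noncomputable def Sw (F : ℤ[X]) (N d : ℕ) (a : ℤ) : ℝ :=
  ∑ n ∈ (Icc 1 N).filter (fun n => n ^ d ≤ N),
    if PPw (F.eval (n : ℤ) + a).natAbs then 1 / (n : ℝ) else 0

open Classical in
lemma Sw_nonneg (F : ℤ[X]) (N d : ℕ) (a : ℤ) : 0 ≤ Sw F N d a := by
  unfold Sw
  refine Finset.sum_nonneg fun n _ => ?_
  split_ifs <;> positivity

open Classical in
lemma Sw_count (F : ℤ[X]) (N d : ℕ) (hd : 1 ≤ d) (a : ℤ) (y : ℕ) (hy : y ^ d ≤ N) :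
    (((Icc 1 y).filter (fun n : ℕ => PPw (F.eval (n : ℤ) + a).natAbs)).card : ℝ) ≤
      y * Sw F N d a := by
  unfold Sw
  rw [Finset.mul_sum]
  have h0 : (((Icc 1 y).filter (fun n : ℕ => PPw (F.eval (n : ℤ) + a).natAbs)).card : ℝ) =
      ∑ n ∈ Icc 1 y, if PPw (F.eval (n : ℤ) + a).natAbs then (1 : ℝ) else 0 := by
    rw [Finset.sum_boole]
  rw [h0]
  have hsub : Icc 1 y ⊆ (Icc 1 N).filter (fun n => n ^ d ≤ N) := by
    intro n hn
    simp only [Finset.mem_filter, Finset.mem_Icc] at hn ⊢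
    have h1 : n ^ d ≤ N := (Nat.pow_le_pow_left hn.2 d).trans hy
    have h2 : n ≤ n ^ d := Nat.le_self_pow (by omega) n
    exact ⟨⟨hn.1, h2.trans h1⟩, h1⟩
  refine le_trans ?_ (Finset.sum_le_sum_of_subset_of_nonneg hsub ?_)
  · refine Finset.sum_le_sum fun n hn => ?_
    split_ifs
    · simp only [Finset.mem_Icc] at hn
      have hn1 : (0 : ℝ) < n := by exact_mod_cast hn.1
      rw [mul_one_div, le_div_iff₀ hn1, one_mul]
      exact_mod_cast hn.2
    · simp
  · intro n _ _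
    split_ifs <;> positivity

open Classical in
lemma Sw_sum (F : ℤ[X]) (N : ℕ) :
    ∑ a ∈ Icc (-(N : ℤ)) N, Sw F N F.natDegree a ≤
      (1 + Real.log N) * (2 * (Nat.sqrt ((cf F + 1) * N) * Nat.log 2 ((cf F + 1) * N)) : ℕ) := by
  unfold Sw
  rw [Finset.sum_comm]
  have h1 : ∀ n ∈ (Icc 1 N).filter (fun n => n ^ F.natDegree ≤ N),
      ∑ a ∈ Icc (-(N : ℤ)) N, (if PPw (F.eval (n : ℤ) + a).natAbs then 1 / (n : ℝ) else 0) ≤
      (1 / (n : ℝ)) * (2 * (Nat.sqrt ((cf F + 1) * N) * Nat.log 2 ((cf F + 1) * N)) : ℕ) := by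
    intro n hn
    simp only [Finset.mem_filter, Finset.mem_Icc] at hn
    have h2 : ∑ a ∈ Icc (-(N : ℤ)) N, (if PPw (F.eval (n : ℤ) + a).natAbs then 1 / (n : ℝ) else 0) =
        (1 / (n : ℝ)) * (((Icc (-(N : ℤ)) N).filter
          (fun a => PPw (F.eval (n : ℤ) + a).natAbs)).card : ℝ) := by
      rw [← Finset.sum_boole, Finset.mul_sum]
      refine Finset.sum_congr rfl fun a _ => ?_
      split_ifs <;> simp
    rw [h2]
    refine mul_le_mul_of_nonneg_left ?_ (by positivity)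
    have h3 : ((Icc (-(N : ℤ)) N).filter (fun a => PPw (F.eval (n : ℤ) + a).natAbs)).card =
        (((Icc (-(N : ℤ)) N).filter (fun a => PPw (F.eval (n : ℤ) + a).natAbs)).image
          (fun a => F.eval (n : ℤ) + a)).card := by
      rw [Finset.card_image_of_injective]
      intro a b hab
      exact add_left_cancel hab
    rw [h3]
    have h4 := count_ppz ((cf F + 1) * N)
      (((Icc (-(N : ℤ)) N).filter (fun a => PPw (F.eval (n : ℤ) + a).natAbs)).image
          (fun a => F.eval (n : ℤ) + a)) ?_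
    · exact_mod_cast h4
    · intro v hv
      simp only [Finset.mem_image, Finset.mem_filter, Finset.mem_Icc] at hv
      obtain ⟨a, ⟨⟨ha1, ha2⟩, ha3⟩, rfl⟩ := hv
      refine ⟨?_, ha3⟩
      refine (Int.natAbs_add_le _ _).trans ?_
      have h5 := eval_le F n hn.1.1
      have h6 : cf F * n ^ F.natDegree ≤ cf F * N := Nat.mul_le_mul_left _ hn.2
      have h7 : a.natAbs ≤ N := by omega
      calc (F.eval (n : ℤ)).natAbs + a.natAbs ≤ cf F * N + N := by omega
        _ = _ := by ring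
  refine (Finset.sum_le_sum h1).trans ?_
  rw [← Finset.sum_mul]
  refine mul_le_mul_of_nonneg_right ?_ (by positivity)
  have h2 : ∑ n ∈ (Icc 1 N).filter (fun n => n ^ F.natDegree ≤ N), 1 / (n : ℝ) ≤
      ∑ n ∈ Icc 1 N, 1 / (n : ℝ) := by
    refine Finset.sum_le_sum_of_subset_of_nonneg (Finset.filter_subset _ _) ?_
    intro n _ _
    positivity
  refine h2.trans ?_
  have h3 := harmonic_le_one_add_log N
  rw [harmonic_eq_sum_Icc] at h3
  push_cast at h3
  simpa [one_div] using h3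

lemma asym (C : ℝ) (k : ℕ) : ∃ N₀ : ℕ, ∀ N : ℕ, N₀ ≤ N →
    C * (Real.log N) ^ k ≤ Real.sqrt N := by
  have h1 := (isLittleO_log_rpow_rpow_atTop (k : ℝ) (show (0 : ℝ) < 1 / 2 by norm_num)).bound
    (show (0 : ℝ) < 1 / (|C| + 1) by positivity)
  have h2 := (tendsto_natCast_atTop_atTop (R := ℝ)).eventually h1
  obtain ⟨N₀, hN₀⟩ := Filter.eventually_atTop.mp h2
  refine ⟨N₀ + 1, fun N hN => ?_⟩
  have h3 := hN₀ N (by omega)
  rw [Real.rpow_natCast, ← Real.sqrt_eq_rpow, Real.norm_of_nonneg (Real.sqrt_nonneg _)] at h3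
  have h4 : 0 ≤ Real.log N := Real.log_natCast_nonneg N
  rw [Real.norm_of_nonneg (pow_nonneg h4 k)] at h3
  have h5 : (|C| + 1) * (Real.log N) ^ k ≤ Real.sqrt N := by
    calc (|C| + 1) * (Real.log N) ^ k ≤ (|C| + 1) * (1 / (|C| + 1) * Real.sqrt N) :=
          mul_le_mul_of_nonneg_left h3 (by positivity)
      _ = Real.sqrt N := by field_simp
  have h6 : C ≤ |C| + 1 := (le_abs_self C).trans (by linarith)
  exact (mul_le_mul_of_nonneg_right h6 (pow_nonneg h4 k)).trans h5

lemma logs (C : ℝ) : ∃ N₀ : ℕ, ∀ N : ℕ, N₀ ≤ N → C ≤ Real.log N := by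
  have h2 := (Real.tendsto_log_atTop.comp (tendsto_natCast_atTop_atTop (R := ℝ))).eventually
    (Filter.eventually_ge_atTop C)
  obtain ⟨N₀, hN₀⟩ := Filter.eventually_atTop.mp h2
  exact ⟨N₀, fun N hN => hN₀ N hN⟩

open Classical in
lemma cnt_bad (F : ℤ[X]) (K K' : ℕ) : ∃ N₀ : ℕ, ∀ N : ℕ, N₀ ≤ N →
    (((Icc (-(N : ℤ)) N).filter (fun a => 1 / (Real.log N) ^ K < Sw F N F.natDegree a)).card : ℝ) ≤
      N / (Real.log N) ^ K' := by
  obtain ⟨N₁, h1⟩ := asym (16 * ((cf F : ℝ) + 1)) (K + K' + 2)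
  obtain ⟨N₂, h2⟩ := logs 1
  refine ⟨N₁ + N₂ + cf F + 2, fun N hN => ?_⟩
  have hL : 1 ≤ Real.log N := h2 N (by omega)
  have hs := h1 N (by omega)
  have hN2 : cf F + 1 ≤ N := by omega
  have hN0 : (0 : ℝ) < N := by
    have : 0 < N := by omega
    exact_mod_cast this
  set L := Real.log N with hLdef
  have hL0 : 0 < L := by linarith
  set B := (Icc (-(N : ℤ)) N).filter (fun a => 1 / L ^ K < Sw F N F.natDegree a) with hB
  have hm : (B.card : ℝ) * (1 / L ^ K) ≤ ∑ a ∈ Icc (-(N : ℤ)) N, Sw F N F.natDegree a := by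
    calc (B.card : ℝ) * (1 / L ^ K) = ∑ a ∈ B, 1 / L ^ K := by
          rw [Finset.sum_const, nsmul_eq_mul]
      _ ≤ ∑ a ∈ B, Sw F N F.natDegree a := by
          refine Finset.sum_le_sum fun a ha => ?_
          rw [hB, Finset.mem_filter] at ha
          exact ha.2.le
      _ ≤ _ := Finset.sum_le_sum_of_subset_of_nonneg (Finset.filter_subset _ _)
          fun a _ _ => Sw_nonneg F N _ a
  have hs2 := hm.trans (Sw_sum F N)
  -- bound the numbers
  have hM : ((Nat.sqrt ((cf F + 1) * N) : ℕ) : ℝ) ≤ ((cf F : ℝ) + 1) * Real.sqrt N := by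
    refine (Real.nat_sqrt_le_real_sqrt).trans ?_
    push_cast
    rw [Real.sqrt_mul (by positivity)]
    refine mul_le_mul_of_nonneg_right ?_ (Real.sqrt_nonneg _)
    rw [Real.sqrt_le_left (by positivity)]
    nlinarith [Nat.cast_nonneg (α := ℝ) (cf F)]
  have hlg : ((Nat.log 2 ((cf F + 1) * N) : ℕ) : ℝ) ≤ 4 * L := by
    have hM0 : (cf F + 1) * N ≠ 0 := by
      have : 0 < N := by omega
      positivity
    have h3 : 2 ^ (Nat.log 2 ((cf F + 1) * N)) ≤ N ^ 2 := by
      refine (Nat.pow_log_le_self 2 hM0).trans ?_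
      rw [sq]
      exact Nat.mul_le_mul_right _ hN2
    have h4 : (2 : ℝ) ^ (Nat.log 2 ((cf F + 1) * N)) ≤ (N : ℝ) ^ 2 := by exact_mod_cast h3
    have h5 := Real.log_le_log (by positivity) h4
    rw [Real.log_pow, Real.log_pow] at h5
    have h6 : (1 : ℝ) / 2 ≤ Real.log 2 := by
      have := Real.log_two_gt_d9
      linarith
    have h7 : ((Nat.log 2 ((cf F + 1) * N) : ℕ) : ℝ) * (1 / 2) ≤
        ((Nat.log 2 ((cf F + 1) * N) : ℕ) : ℝ) * Real.log 2 :=
      mul_le_mul_of_nonneg_left h6 (Nat.cast_nonneg _)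
    push_cast at h5
    linarith
  have h8 : (B.card : ℝ) * (1 / L ^ K) ≤ 16 * ((cf F : ℝ) + 1) * L ^ 2 * Real.sqrt N := by
    refine hs2.trans ?_
    push_cast
    have h9 : ((Nat.sqrt ((cf F + 1) * N) : ℕ) : ℝ) * ((Nat.log 2 ((cf F + 1) * N) : ℕ) : ℝ) ≤
        (((cf F : ℝ) + 1) * Real.sqrt N) * (4 * L) :=
      mul_le_mul hM hlg (Nat.cast_nonneg _) (by positivity)
    calc (1 + L) * (2 * (((Nat.sqrt ((cf F + 1) * N) : ℕ) : ℝ) *
          ((Nat.log 2 ((cf F + 1) * N) : ℕ) : ℝ)))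
        ≤ (2 * L) * (2 * ((((cf F : ℝ) + 1) * Real.sqrt N) * (4 * L))) := by
          refine mul_le_mul (by linarith) (by linarith) (by positivity) (by positivity)
      _ = _ := by ring
  rw [mul_one_div, div_le_iff₀ (by positivity)] at h8
  rw [le_div_iff₀ (by positivity)]
  have hsq : Real.sqrt N * Real.sqrt N = N := Real.mul_self_sqrt hN0.le
  calc (B.card : ℝ) * L ^ K' ≤ (16 * ((cf F : ℝ) + 1) * L ^ 2 * Real.sqrt N * L ^ K) * L ^ K' :=
        mul_le_mul_of_nonneg_right h8 (by positivity)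
    _ = (16 * ((cf F : ℝ) + 1) * L ^ (K + K' + 2)) * Real.sqrt N := by ring
    _ ≤ Real.sqrt N * Real.sqrt N := mul_le_mul_of_nonneg_right hs (Real.sqrt_nonneg _)
    _ = N := hsq

open Classical in
/-- vectors with one bad coordinate -/
lemma card_coord {r : ℕ} (S : Finset ℤ) (B : Fin r → Finset ℤ) (hB : ∀ i, B i ⊆ S) (b s : ℝ)
    (hb : ∀ i, ((B i).card : ℝ) ≤ b) (hs : (S.card : ℝ) ≤ s) (hb0 : 0 ≤ b) :
    (((Fintype.piFinset (fun _ : Fin r => S)).filter (fun a => ∃ i, a i ∈ B i)).card : ℝ) ≤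
      r * (b * s ^ (r - 1)) := by
  have hsub : (Fintype.piFinset (fun _ : Fin r => S)).filter (fun a => ∃ i, a i ∈ B i) ⊆
      univ.biUnion (fun i : Fin r => Fintype.piFinset (Function.update (fun _ : Fin r => S) i (B i))) := by
    intro a ha
    simp only [Finset.mem_filter, Fintype.mem_piFinset] at ha
    obtain ⟨h1, i, hi⟩ := ha
    rw [Finset.mem_biUnion]
    refine ⟨i, Finset.mem_univ _, ?_⟩
    rw [Fintype.mem_piFinset]
    intro j
    by_cases hj : j = i
    · subst hj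
      rw [Function.update_self]
      exact hi
    · rw [Function.update_of_ne hj]
      exact h1 j
  have h1 := (Finset.card_le_card hsub).trans Finset.card_biUnion_le
  have h2 : ∀ i : Fin r, ((Fintype.piFinset (Function.update (fun _ : Fin r => S) i (B i))).card : ℝ) ≤
      b * s ^ (r - 1) := by
    intro i
    rw [Fintype.card_piFinset]
    have h3 : ∀ j, (Function.update (fun _ : Fin r => S) i (B i) j).card =
        Function.update (fun _ : Fin r => S.card) i (B i).card j := by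
      intro j
      by_cases hj : j = i
      · subst hj
        simp
      · simp [hj]
    simp only [h3]
    rw [Finset.prod_update_of_mem (Finset.mem_univ i)]
    rw [Finset.prod_const]
    have h4 : (univ \ {i} : Finset (Fin r)).card = r - 1 := by
      rw [Finset.card_sdiff_of_subset (by simp)]
      simp
    rw [h4]
    push_cast
    exact mul_le_mul (hb i) (pow_le_pow_left₀ (Nat.cast_nonneg _) hs _) (by positivity) hb0
  calc (((Fintype.piFinset (fun _ : Fin r => S)).filter (fun a => ∃ i, a i ∈ B i)).card : ℝ)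
      ≤ ((∑ i : Fin r, (Fintype.piFinset (Function.update (fun _ : Fin r => S) i (B i))).card : ℕ) : ℝ) := by
        exact_mod_cast h1
    _ = ∑ i : Fin r, ((Fintype.piFinset (Function.update (fun _ : Fin r => S) i (B i))).card : ℝ) := by
        push_cast
        rfl
    _ ≤ ∑ _i : Fin r, b * s ^ (r - 1) := Finset.sum_le_sum fun i _ => h2 i
    _ = _ := by
        rw [Finset.sum_const, Finset.card_univ, Fintype.card_fin, nsmul_eq_mul]

lemma lamA_nonneg (v : ℤ) : 0 ≤ lamA v := ArithmeticFunction.vonMangoldt_nonneg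

lemma lamA_of_not {v : ℤ} (h1 : ¬ PPw v.natAbs) (h2 : ¬ v.natAbs.Prime) : lamA v = 0 := by
  unfold lamA
  rw [ArithmeticFunction.vonMangoldt_eq_zero_iff]
  intro h
  exact h1 ⟨h, h2⟩

lemma lamA_of_prime {v : ℤ} (h : v.natAbs.Prime) : lamA v = Real.log (v.natAbs : ℝ) := by
  unfold lamA
  exact ArithmeticFunction.vonMangoldt_apply_prime h

lemma lamA_le (N : ℕ) (v : ℤ) (hN : 1 ≤ N) (h : v.natAbs ≤ N ^ 2) :
    lamA v ≤ 2 * Real.log N := by
  unfold lamA
  refine ArithmeticFunction.vonMangoldt_le_log.trans ?_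
  have hN0 : (0 : ℝ) < N := by exact_mod_cast hN
  rcases Nat.eq_zero_or_pos v.natAbs with h0 | h0
  · rw [h0]
    simp only [Nat.cast_zero, Real.log_zero]
    have := Real.log_natCast_nonneg N
    linarith
  · have h1 : Real.log (v.natAbs : ℝ) ≤ Real.log ((N : ℝ) ^ 2) := by
      refine Real.log_le_log (by exact_mod_cast h0) ?_
      exact_mod_cast h
    rw [Real.log_pow] at h1
    push_cast at h1
    exact h1

open Classical in
lemma comp {r d : ℕ} (hd : 1 ≤ d) (F : Fin r → ℤ[X]) (hF : ∀ i, (F i).natDegree = d) (N : ℕ)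
    (hc : ∀ i, cf (F i) + 1 ≤ N) (hN : 1 ≤ N) (a : Fin r → ℤ) (ha : ∀ i, (a i).natAbs ≤ N)
    (T : ℕ) (u : ℕ → ℝ) (hu : ∀ n, n ≤ N → |u n| ≤ (Real.log N) ^ T) (y : ℕ) (hy : y ^ d ≤ N) :
    |thU u F a y - ∑ n ∈ Icc 1 y, u n * ∏ i, lamA ((F i).eval (n : ℤ) + a i)| ≤
      ((Real.log N) ^ T * (2 * Real.log N) ^ r) *
        (((Icc 1 y).filter (fun n : ℕ => ∃ i, PPw ((F i).eval (n : ℤ) + a i).natAbs)).card : ℝ) := by
  unfold thU
  rw [Finset.sum_filter, ← Finset.sum_sub_distrib]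
  refine (Finset.abs_sum_le_sum_abs _ _).trans ?_
  have hL0 : 0 ≤ Real.log N := Real.log_natCast_nonneg N
  have hcard : ((Real.log N) ^ T * (2 * Real.log N) ^ r) *
        (((Icc 1 y).filter (fun n : ℕ => ∃ i, PPw ((F i).eval (n : ℤ) + a i).natAbs)).card : ℝ) =
      ∑ n ∈ Icc 1 y, if (∃ i, PPw ((F i).eval (n : ℤ) + a i).natAbs) then
        ((Real.log N) ^ T * (2 * Real.log N) ^ r) else 0 := by
    rw [← Finset.sum_filter, Finset.sum_const, nsmul_eq_mul]
    ring
  rw [hcard]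
  refine Finset.sum_le_sum fun n hn => ?_
  simp only [Finset.mem_Icc] at hn
  have hnd : n ^ d ≤ N := (Nat.pow_le_pow_left hn.2 d).trans hy
  have hnN : n ≤ N := (Nat.le_self_pow (by omega) n).trans hnd
  have hv : ∀ i, ((F i).eval (n : ℤ) + a i).natAbs ≤ N ^ 2 := by
    intro i
    refine (Int.natAbs_add_le _ _).trans ?_
    have h5 := eval_le (F i) n hn.1
    rw [hF i] at h5
    have h6 : cf (F i) * n ^ d ≤ cf (F i) * N := Nat.mul_le_mul_left _ hnd
    have h7 := ha i
    calc ((F i).eval (n : ℤ)).natAbs + (a i).natAbs ≤ cf (F i) * N + N := by omega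
      _ = (cf (F i) + 1) * N := by ring
      _ ≤ N * N := Nat.mul_le_mul_right _ (hc i)
      _ = N ^ 2 := by ring
  have hprod : |∏ i, lamA ((F i).eval (n : ℤ) + a i)| ≤ (2 * Real.log N) ^ r := by
    rw [abs_of_nonneg (Finset.prod_nonneg fun i _ => lamA_nonneg _)]
    calc ∏ i, lamA ((F i).eval (n : ℤ) + a i) ≤ ∏ _i : Fin r, (2 * Real.log N) :=
          Finset.prod_le_prod (fun i _ => lamA_nonneg _) fun i _ => lamA_le N _ hN (hv i)
      _ = _ := by rw [Finset.prod_const, Finset.card_univ, Fintype.card_fin]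
  by_cases hpp : ∃ i, PPw ((F i).eval (n : ℤ) + a i).natAbs
  · rw [if_pos hpp]
    have hnot : ¬ ∀ i, ((F i).eval (n : ℤ) + a i).natAbs.Prime := by
      intro hall
      obtain ⟨i, hi⟩ := hpp
      exact hi.2 (hall i)
    rw [if_neg hnot, zero_sub, abs_neg, abs_mul]
    exact mul_le_mul (hu n hnN) hprod (abs_nonneg _) (by positivity)
  · rw [if_neg hpp]
    push Not at hpp
    by_cases hall : ∀ i, ((F i).eval (n : ℤ) + a i).natAbs.Prime
    · rw [if_pos hall]
      have : ∏ i, lamA ((F i).eval (n : ℤ) + a i) =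
          ∏ i, Real.log (((F i).eval (n : ℤ) + a i).natAbs : ℝ) :=
        Finset.prod_congr rfl fun i _ => lamA_of_prime (hall i)
      rw [this, sub_self, abs_zero]
    · rw [if_neg hall]
      push Not at hall
      obtain ⟨i, hi⟩ := hall
      have : ∏ i, lamA ((F i).eval (n : ℤ) + a i) = 0 :=
        Finset.prod_eq_zero (Finset.mem_univ i) (lamA_of_not (hpp i) hi)
      rw [this, mul_zero, sub_zero, abs_zero]

theorem main : ∀ θ : ℝ, 0 ≤ θ → S_DPT θ → S_R25 θ := by
  classical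
  intro θ _ hD r d F hd hF e A T he
  obtain ⟨E₀, h1⟩ := hD r d F hd hF e (A + 1) T he
  refine ⟨E₀, fun E₁ => ?_⟩
  obtain ⟨N₁, h2⟩ := h1 E₁
  have hbad := fun i : Fin r => cnt_bad (F i) (A + T + r + 2) (A + 2)
  choose N₂ hN₂ using hbad
  obtain ⟨N₃, h3⟩ := logs (2 + r * 3 ^ r + 2 ^ r * r)
  refine ⟨N₁ + ∑ i, N₂ i + N₃ + ∑ i, (cf (F i) + 1) + 3, fun N hN => ?_⟩
  intro z hz1 hz2 u hu
  have hN2i : ∀ i, N₂ i ≤ N := fun i => by
    have := Finset.single_le_sum (f := N₂) (fun j _ => Nat.zero_le _) (Finset.mem_univ i)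
    omega
  have hci : ∀ i, cf (F i) + 1 ≤ N := fun i => by
    have := Finset.single_le_sum (f := fun i => cf (F i) + 1) (fun j _ => Nat.zero_le _)
      (Finset.mem_univ i)
    omega
  have hL := h3 N (by omega)
  have hmain := h2 N (by omega) z hz1 hz2 u hu
  have hN3 : 3 ≤ N := by omega
  have hN0 : (0 : ℝ) < N := by
    have : 0 < N := by omega
    exact_mod_cast this
  set L := Real.log N with hLdef
  have hp1 : (0 : ℝ) ≤ r * 3 ^ r := by positivity
  have hp2 : (0 : ℝ) ≤ 2 ^ r * r := by positivity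
  have hL2 : 2 ≤ L := by linarith
  have hL3 : (r : ℝ) * 3 ^ r ≤ L := by linarith
  have hL4 : (2 : ℝ) ^ r * r ≤ L := by linarith
  have hL0 : 0 < L := by linarith
  set S := Icc (-(N : ℤ)) N with hS
  set B : Fin r → Finset ℤ := fun i => S.filter
    (fun a => 1 / L ^ (A + T + r + 2) < Sw (F i) N (F i).natDegree a) with hB
  set B1 := (Fintype.piFinset (fun _ : Fin r => S)).filter (fun a => ∃ y : ℕ, Yr θ e N d y ∧
    (y : ℝ) / L ^ (A + 1) < |∑ n ∈ Icc 1 y, u n * (∏ i, lamA ((F i).eval (n : ℤ) + a i) -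
      ∏ i, lz z ((F i).eval (n : ℤ) + a i))|) with hB1
  set B2 := (Fintype.piFinset (fun _ : Fin r => S)).filter (fun a => ∃ i, a i ∈ B i) with hB2
  have hcoord : (B2.card : ℝ) ≤ r * ((N / L ^ (A + 2)) * (3 * (N : ℝ)) ^ (r - 1)) := by
    refine card_coord S B (fun i => Finset.filter_subset _ _) _ _ (fun i => hN₂ i N (hN2i i)) ?_
      (by positivity)
    rw [hS, Int.card_Icc]
    have : ((N : ℤ) + 1 - -(N : ℤ)).toNat = 2 * N + 1 := by omega
    rw [this]
    push_cast
    have : (1 : ℝ) ≤ N := by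
      have : 1 ≤ N := by omega
      exact_mod_cast this
    linarith
  have hB2c : (B2.card : ℝ) ≤ (N : ℝ) ^ r / L ^ (A + 1) := by
    refine hcoord.trans ?_
    rcases Nat.eq_zero_or_pos r with hr | hr
    · rw [hr]
      simp only [Nat.cast_zero, zero_mul, pow_zero]
      positivity
    · have h5 : (N : ℝ) * (3 * (N : ℝ)) ^ (r - 1) ≤ 3 ^ r * (N : ℝ) ^ r := by
        obtain ⟨k, rfl⟩ : ∃ k, r = k + 1 := ⟨r - 1, by omega⟩
        rw [Nat.add_sub_cancel, mul_pow, pow_succ, pow_succ]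
        have : (0 : ℝ) ≤ 3 ^ k * (N : ℝ) ^ k * N := by positivity
        nlinarith
      calc (r : ℝ) * ((N / L ^ (A + 2)) * (3 * (N : ℝ)) ^ (r - 1))
          = r * ((N : ℝ) * (3 * (N : ℝ)) ^ (r - 1)) / L ^ (A + 2) := by ring
        _ ≤ r * (3 ^ r * (N : ℝ) ^ r) / L ^ (A + 2) := by
            refine div_le_div_of_nonneg_right ?_ (by positivity)
            exact mul_le_mul_of_nonneg_left h5 (Nat.cast_nonneg _)
        _ = (r * 3 ^ r) * ((N : ℝ) ^ r / L ^ (A + 2)) := by ring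
        _ ≤ L * ((N : ℝ) ^ r / L ^ (A + 2)) := mul_le_mul_of_nonneg_right hL3 (by positivity)
        _ = (N : ℝ) ^ r / L ^ (A + 1) := by
            rw [pow_succ L (A + 1)]
            field_simp
  have hsub : (Fintype.piFinset (fun _ : Fin r => S)).filter (fun a => ∃ y : ℕ, Yr θ e N d y ∧
    (y : ℝ) / L ^ A < |thU u F a y - ∑ n ∈ Icc 1 y, u n * ∏ i, lz z ((F i).eval (n : ℤ) + a i)|) ⊆
      B1 ∪ B2 := by
    intro a ha
    rw [Finset.mem_filter] at ha
    obtain ⟨ha1, y, hy1, hy2⟩ := ha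
    rw [Finset.mem_union]
    by_contra hcon
    push Not at hcon
    obtain ⟨hn1, hn2⟩ := hcon
    apply hn1
    rw [hB1, Finset.mem_filter]
    refine ⟨ha1, y, hy1, ?_⟩
    have hyd : y ^ d ≤ N := hy1.2
    have hai : ∀ i, (a i).natAbs ≤ N := by
      intro i
      have := Fintype.mem_piFinset.mp ha1 i
      rw [hS, Finset.mem_Icc] at this
      omega
    have hcmp := comp hd F hF N hci (by omega) a hai T u hu y hyd
    have hcnt : (((Icc 1 y).filter
        (fun n : ℕ => ∃ i, PPw ((F i).eval (n : ℤ) + a i).natAbs)).card : ℝ) ≤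
        r * (y * (1 / L ^ (A + T + r + 2))) := by
      have hsub2 : (Icc 1 y).filter (fun n : ℕ => ∃ i, PPw ((F i).eval (n : ℤ) + a i).natAbs) ⊆
          univ.biUnion (fun i : Fin r =>
            (Icc 1 y).filter (fun n : ℕ => PPw ((F i).eval (n : ℤ) + a i).natAbs)) := by
        intro n hn
        simp only [Finset.mem_filter, Finset.mem_biUnion, Finset.mem_univ, true_and] at hn ⊢
        obtain ⟨h5, i, hi⟩ := hn
        exact ⟨i, h5, hi⟩
      have h6 := (Finset.card_le_card hsub2).trans Finset.card_biUnion_le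
      have h7 : (((Icc 1 y).filter
        (fun n : ℕ => ∃ i, PPw ((F i).eval (n : ℤ) + a i).natAbs)).card : ℝ) ≤
        ∑ i : Fin r, (((Icc 1 y).filter
          (fun n : ℕ => PPw ((F i).eval (n : ℤ) + a i).natAbs)).card : ℝ) := by
        exact_mod_cast h6
      refine h7.trans ?_
      calc ∑ i : Fin r, (((Icc 1 y).filter
          (fun n : ℕ => PPw ((F i).eval (n : ℤ) + a i).natAbs)).card : ℝ)
          ≤ ∑ _i : Fin r, (y * (1 / L ^ (A + T + r + 2)) : ℝ) := by
            refine Finset.sum_le_sum fun i _ => ?_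
            refine (Sw_count (F i) N d hd (a i) y hyd).trans ?_
            refine mul_le_mul_of_nonneg_left ?_ (Nat.cast_nonneg _)
            by_contra hlt
            push Not at hlt
            apply hn2
            rw [hB2, Finset.mem_filter]
            refine ⟨ha1, i, ?_⟩
            rw [hB]
            simp only [Finset.mem_filter]
            refine ⟨Fintype.mem_piFinset.mp ha1 i, ?_⟩
            rw [hF i]
            exact hlt
        _ = _ := by rw [Finset.sum_const, Finset.card_univ, Fintype.card_fin, nsmul_eq_mul]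
    have hfin : (L ^ T * (2 * L) ^ r) * (r * (y * (1 / L ^ (A + T + r + 2)))) ≤
        y / L ^ (A + 1) := by
      have e1 : (L ^ T * (2 * L) ^ r) * (r * (y * (1 / L ^ (A + T + r + 2)))) =
          (2 ^ r * r) * (y / L ^ (A + 2)) := by
        have : L ^ (A + T + r + 2) = L ^ T * L ^ r * L ^ (A + 2) := by ring
        rw [this, mul_pow]
        field_simp
      rw [e1]
      calc ((2 : ℝ) ^ r * r) * (y / L ^ (A + 2)) ≤ L * (y / L ^ (A + 2)) :=
            mul_le_mul_of_nonneg_right hL4 (by positivity)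
        _ = y / L ^ (A + 1) := by
            rw [pow_succ L (A + 1)]
            field_simp
    have hXY := hcmp.trans ((mul_le_mul_of_nonneg_left hcnt (by positivity)).trans hfin)
    have hy3 : 2 * ((y : ℝ) / L ^ (A + 1)) ≤ y / L ^ A := by
      have e2 : (y : ℝ) / L ^ A = L * (y / L ^ (A + 1)) := by
        rw [pow_succ L A]
        field_simp
      rw [e2]
      exact mul_le_mul_of_nonneg_right hL2 (by positivity)
    have hsum : ∑ n ∈ Icc 1 y, u n * (∏ i, lamA ((F i).eval (n : ℤ) + a i) -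
        ∏ i, lz z ((F i).eval (n : ℤ) + a i)) =
        ∑ n ∈ Icc 1 y, u n * ∏ i, lamA ((F i).eval (n : ℤ) + a i) -
        ∑ n ∈ Icc 1 y, u n * ∏ i, lz z ((F i).eval (n : ℤ) + a i) := by
      rw [← Finset.sum_sub_distrib]
      refine Finset.sum_congr rfl fun n _ => ?_
      ring
    rw [hsum]
    have htri := abs_sub_le (thU u F a y)
      (∑ n ∈ Icc 1 y, u n * ∏ i, lamA ((F i).eval (n : ℤ) + a i))
      (∑ n ∈ Icc 1 y, u n * ∏ i, lz z ((F i).eval (n : ℤ) + a i))
    linarith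
  have hc1 := (Finset.card_le_card hsub).trans (Finset.card_union_le _ _)
  have hc2 : (((Fintype.piFinset (fun _ : Fin r => S)).filter (fun a => ∃ y : ℕ, Yr θ e N d y ∧
    (y : ℝ) / L ^ A < |thU u F a y - ∑ n ∈ Icc 1 y, u n *
      ∏ i, lz z ((F i).eval (n : ℤ) + a i)|)).card : ℝ) ≤ B1.card + B2.card := by
    exact_mod_cast hc1
  have hend : 2 * ((N : ℝ) ^ r / L ^ (A + 1)) ≤ (N : ℝ) ^ r / L ^ A := by
    have e2 : (N : ℝ) ^ r / L ^ A = L * ((N : ℝ) ^ r / L ^ (A + 1)) := by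
      rw [pow_succ L A]
      field_simp
    rw [e2]
    exact mul_le_mul_of_nonneg_right hL2 (by positivity)
  have hB1c : (B1.card : ℝ) ≤ (N : ℝ) ^ r / L ^ (A + 1) := by
    refine le_trans (le_of_eq ?_) hmain
    congr!
  refine le_trans (le_of_eq ?_) (hc2.trans (by linarith))
  congr!

end Pool.Agent.helper24_UT.R25
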