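import Pool.Agent.helper24_UT.Stm21
import Pool.Agent.H373R2.T7.LamZ2

set_option autoImplicit false

namespace Pool.Agent.helper24_UT.R27

open Finset Polynomial
open Pool.Agent.helper24_UT
open Pool.Agent.H373R2.T7 (Vz pz)

lemma lgP_nonneg (n : ℕ) : 0 ≤ lgP n := by
  unfold lgP
  split_ifs
  · exact Real.log_natCast_nonneg n
  · exact le_rfl

lemma lgP_le (n : ℕ) : lgP n ≤ ArithmeticFunction.vonMangoldt n := by
  unfold lgP
  split_ifs with h
  · rw [ArithmeticFunction.vonMangoldt_apply_prime h]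
  · exact ArithmeticFunction.vonMangoldt_nonneg

lemma sum_diff (y : ℕ) : ∑ n ∈ Icc 1 y, (ArithmeticFunction.vonMangoldt n - lgP n) =
    Chebyshev.psi (y : ℝ) - Chebyshev.theta (y : ℝ) := by
  have hI : ∀ f : ℕ → ℝ, f 0 = 0 → ∑ n ∈ Icc 0 y, f n = ∑ n ∈ Icc 1 y, f n := by
    intro f hf
    symm
    apply sum_subset
    · intro n hn
      rw [mem_Icc] at hn ⊢
      omega
    · intro n hn hn2
      rw [mem_Icc] at hn hn2
      have : n = 0 := by omega
      rw [this, hf]
  rw [sum_sub_distrib, Chebyshev.psi_eq_sum_Icc, Chebyshev.theta_eq_sum_Icc, Nat.floor_natCast, sum_filter]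
  congr 1
  · rw [hI]
    simp
  · rw [hI]
    · apply sum_congr rfl
      intro n _
      unfold lgP
      split_ifs <;> rfl
    · simp

lemma sum_diff_le (y : ℕ) (hy : 1 ≤ y) : ∑ n ∈ Icc 1 y, (ArithmeticFunction.vonMangoldt n - lgP n) ≤
    2 * √(y : ℝ) * Real.log y := by
  rw [sum_diff]
  exact Chebyshev.psi_sub_theta_le (by exact_mod_cast hy)

lemma lz_abs (z : ℕ) (m : ℤ) (L : ℝ) (hL : 0 ≤ L) (hV : (Vz z)⁻¹ ≤ L) (hV0 : 0 < Vz z) : |lz z m| ≤ L := by
  unfold lz
  split_ifs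
  · rw [abs_of_nonneg (by positivity)]
    exact hV
  · simpa using hL

lemma tail {r : ℕ} (z y : ℕ) (hy : 1 ≤ y) (L : ℝ) (hL : 0 ≤ L) (hV : (Vz z)⁻¹ ≤ L) (hV0 : 0 < Vz z) (g : Fin r → ℕ → ℤ) :
    |∑ n ∈ Icc 1 y, lgP n * ∏ i, lz z (g i n) - ∑ n ∈ Icc 1 y, ArithmeticFunction.vonMangoldt n * ∏ i, lz z (g i n)| ≤
      (2 * √(y : ℝ) * Real.log y) * L ^ r := by
  rw [← sum_sub_distrib]
  calc |∑ n ∈ Icc 1 y, (lgP n * ∏ i, lz z (g i n) - ArithmeticFunction.vonMangoldt n * ∏ i, lz z (g i n))|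
      ≤ ∑ n ∈ Icc 1 y, |lgP n * ∏ i, lz z (g i n) - ArithmeticFunction.vonMangoldt n * ∏ i, lz z (g i n)| :=
        abs_sum_le_sum_abs _ _
    _ ≤ ∑ n ∈ Icc 1 y, (ArithmeticFunction.vonMangoldt n - lgP n) * L ^ r := by
        apply sum_le_sum
        intro n _
        rw [← sub_mul, abs_mul, abs_sub_comm, abs_of_nonneg (sub_nonneg.mpr (lgP_le n))]
        apply mul_le_mul_of_nonneg_left _ (sub_nonneg.mpr (lgP_le n))
        rw [abs_prod]
        calc ∏ i, |lz z (g i n)| ≤ ∏ _i : Fin r, L :=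
              prod_le_prod (fun _ _ => abs_nonneg _) (fun i _ => lz_abs z (g i n) L hL hV hV0)
          _ = L ^ r := by simp
    _ = (∑ n ∈ Icc 1 y, (ArithmeticFunction.vonMangoldt n - lgP n)) * L ^ r := by rw [sum_mul]
    _ ≤ (2 * √(y : ℝ) * Real.log y) * L ^ r := by
        apply mul_le_mul_of_nonneg_right (sum_diff_le y hy) (by positivity)

lemma ev (K : ℕ) (c B : ℝ) (hc : 0 < c) : ∃ N₀ : ℕ, ∀ N : ℕ, N₀ ≤ N →
    B ≤ Real.log N ∧ 2 * Real.log N ^ K ≤ Real.exp (c * Real.log N) := by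
  have hlim : Filter.Tendsto (fun N : ℕ => Real.log (N : ℝ)) Filter.atTop Filter.atTop :=
    Real.tendsto_log_atTop.comp (tendsto_natCast_atTop_atTop (R := ℝ))
  have h1 := (isLittleO_pow_exp_pos_mul_atTop (k := K) hc).bound (show (0 : ℝ) < 1 / 2 by norm_num)
  have h2 : ∀ᶠ N : ℕ in Filter.atTop, B ≤ Real.log N ∧ 2 * Real.log N ^ K ≤ Real.exp (c * Real.log N) := by
    filter_upwards [hlim.eventually h1, hlim.eventually_ge_atTop 0, hlim.eventually_ge_atTop B] with N h3 h4 h5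
    refine ⟨h5, ?_⟩
    rw [Real.norm_of_nonneg (by positivity), Real.norm_of_nonneg (Real.exp_pos _).le] at h3
    linarith
  exact Filter.eventually_atTop.mp h2

theorem main : ∀ θ : ℝ, 0 ≤ θ → S_R25 θ → S_MTP → S_R27 θ := by
  intro θ hθ h25 hM r d F hd hF e A he
  obtain ⟨E₀, hE⟩ := h25 r d F hd hF e (A + 2) 1 he
  refine ⟨E₀, fun E₁ => ?_⟩
  obtain ⟨N₁, h1⟩ := hE E₁
  obtain ⟨H₀, h2⟩ := hM r d E₁ (A + 2) 3 (by norm_num)
  obtain ⟨N₂, h3⟩ := Pool.Agent.H373R2.T7.Vz_inv_small E₁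
  have hde : (0 : ℝ) < d * e := by
    have h4 : 0 < d * e := Nat.mul_pos hd he
    exact_mod_cast h4
  obtain ⟨N₃, h4⟩ := ev (r + A + 3) (1 / (2 * (d * e))) (max 3 (((d : ℝ) * e) ^ 3)) (by positivity)
  refine ⟨max (max N₁ H₀) (max N₂ (max N₃ 1)), fun N hN z hz0 hz1 => ?_⟩
  have hN1 : N₁ ≤ N := le_trans (le_trans (le_max_left _ _) (le_max_left _ _)) hN
  have hNH : H₀ ≤ N := le_trans (le_trans (le_max_right _ _) (le_max_left _ _)) hN
  have hN2 : N₂ ≤ N := le_trans (le_trans (le_max_left _ _) (le_max_right _ _)) hN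
  have hN3 : N₃ ≤ N := le_trans (le_trans (le_trans (le_max_left _ _) (le_max_right _ _)) (le_max_right _ _)) hN
  have hN0 : 1 ≤ N := le_trans (le_trans (le_trans (le_max_right _ _) (le_max_right _ _)) (le_max_right _ _)) hN
  have hNr : (0 : ℝ) < N := by exact_mod_cast hN0
  obtain ⟨hL, hLe⟩ := h4 N hN3
  set L := Real.log (N : ℝ) with hLdef
  have hL3 : 3 ≤ L := le_trans (le_max_left _ _) hL
  have hLd : ((d : ℝ) * e) ^ 3 ≤ L := le_trans (le_max_right _ _) hL
  have hL0 : 0 < L := by linarith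
  have hL1 : 1 ≤ L := by linarith
  have hz : 1 ≤ z := by
    have h5 : (1 : ℝ) ≤ z := le_trans (one_le_pow₀ hL1) hz0
    exact_mod_cast h5
  have hV : (Vz z)⁻¹ ≤ L := h3 N hN2 z hz hz1
  have hV0 : 0 < Vz z := Pool.Agent.H373R2.T7.Vz_pos z
  have hu : ∀ n, n ≤ N → |lgP n| ≤ L ^ 1 := by
    intro n hn
    rw [abs_of_nonneg (lgP_nonneg n), pow_one]
    unfold lgP
    split_ifs with hp
    · exact Real.log_le_log (by exact_mod_cast hp.pos) (by exact_mod_cast hn)
    · exact hL0.le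
  have hb := h1 N hN1 z hz0 hz1 lgP hu
  have hkey : ∀ y : ℕ, Yr θ e N d y → ∀ a : Fin r → ℤ,
      |thU lgP F a y - ∑ n ∈ Icc 1 y, lgP n * ∏ i, lz z ((F i).eval (n : ℤ) + a i)| ≤ (y : ℝ) / L ^ (A + 2) →
      |thU lgP F a y - y * sgp z (fun i => F i + C (a i))| ≤ (y : ℝ) / L ^ A := by
    intro y hy a ha
    obtain ⟨hy1, hy2⟩ := hy
    have hyd : (0 : ℝ) < (y : ℝ) ^ d := lt_of_lt_of_le (Real.rpow_pos_of_pos hNr _) hy1
    have hy0 : 1 ≤ y := by
      rcases Nat.eq_zero_or_pos y with h | h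
      · rw [h] at hyd
        rw [Nat.cast_zero, zero_pow (by omega)] at hyd
        exact absurd hyd (lt_irrefl _)
      · exact h
    have hyr : (0 : ℝ) < y := by exact_mod_cast hy0
    have hyN : y ≤ N := le_trans (Nat.le_self_pow (by omega) y) hy2
    have hlyN : Real.log y ≤ L := Real.log_le_log hyr (by exact_mod_cast hyN)
    have hly0 : 0 ≤ Real.log y := Real.log_natCast_nonneg y
    have he0 : (0 : ℝ) < e := by exact_mod_cast he
    have hly : L ≤ (d * e) * Real.log y := by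
      have h5 := Real.log_le_log (Real.rpow_pos_of_pos hNr _) hy1
      rw [Real.log_rpow hNr, Real.log_pow] at h5
      have h6 : L * (1 / e) ≤ d * Real.log y := by
        calc L * (1 / e) = (0 + 1 / e) * L := by ring
          _ ≤ (θ + 1 / e) * L := by gcongr
          _ ≤ _ := h5
      calc L = (L * (1 / e)) * e := by field_simp
        _ ≤ (d * Real.log y) * e := by gcongr
        _ = _ := by ring
    have hw : Real.exp (L ^ (1 / ((3 : ℕ) : ℝ))) ≤ y := by
      have hw0 : (L ^ (1 / ((3 : ℕ) : ℝ))) ^ 3 = L := by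
        rw [← Real.rpow_natCast, ← Real.rpow_mul hL0.le]
        norm_num
      set w := L ^ (1 / ((3 : ℕ) : ℝ)) with hwd
      have hw1 : 0 ≤ w := Real.rpow_nonneg hL0.le _
      have hw2 : (d : ℝ) * e ≤ w := by
        rw [← hw0] at hLd
        exact le_of_pow_le_pow_left₀ (by norm_num) hw1 hLd
      have hw3 : 1 ≤ w := by
        rw [hwd]
        exact Real.one_le_rpow hL1 (by norm_num)
      have hw4 : w * (d * e) ≤ L := by
        calc w * (d * e) ≤ w * w := by gcongr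
          _ ≤ w * w * w := by nlinarith [mul_nonneg hw1 hw1]
          _ = w ^ 3 := by ring
          _ = L := hw0
      have hw5 : w ≤ Real.log y := by
        have h7 : (d * e) * w ≤ (d * e) * Real.log y := by linarith
        exact le_of_mul_le_mul_left h7 hde
      calc Real.exp w ≤ Real.exp (Real.log y) := Real.exp_le_exp.mpr hw5
        _ = y := Real.exp_log hyr
    have hm := h2 N hNH z hz hz1 (fun i => F i + C (a i)) (by
      intro i
      rw [natDegree_add_C, hF i]) y hw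
    have hev : ∀ n : ℕ, ∏ i, lz z ((F i + C (a i)).eval (n : ℤ)) = ∏ i, lz z ((F i).eval (n : ℤ) + a i) := by
      intro n
      apply prod_congr rfl
      intro i _
      rw [eval_add, eval_C]
    simp only [hev] at hm
    have ht := tail z y hy0 L hL0.le hV hV0 (fun i n => (F i).eval (n : ℤ) + a i)
    have hsq : 2 * L ^ (r + A + 3) ≤ √(y : ℝ) := by
      calc 2 * L ^ (r + A + 3) ≤ Real.exp (1 / (2 * (d * e)) * L) := hLe
        _ ≤ Real.exp (Real.log y / 2) := by
            apply Real.exp_le_exp.mpr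
            rw [div_mul_eq_mul_div, one_mul, div_le_div_iff₀ (by positivity) (by norm_num)]
            nlinarith
        _ = √(y : ℝ) := by
            rw [Real.sqrt_eq_rpow, Real.rpow_def_of_pos hyr]
            congr 1
            ring
    have ht2 : (2 * √(y : ℝ) * Real.log y) * L ^ r ≤ (y : ℝ) / L ^ (A + 2) := by
      rw [le_div_iff₀ (by positivity)]
      calc (2 * √(y : ℝ) * Real.log y) * L ^ r * L ^ (A + 2) ≤ (2 * √(y : ℝ) * L) * L ^ r * L ^ (A + 2) := by gcongr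
        _ = √(y : ℝ) * (2 * L ^ (r + A + 3)) := by ring
        _ ≤ √(y : ℝ) * √(y : ℝ) := by gcongr
        _ = y := Real.mul_self_sqrt hyr.le
    have hfin : 3 * ((y : ℝ) / L ^ (A + 2)) ≤ (y : ℝ) / L ^ A := by
      rw [← mul_div_assoc, div_le_div_iff₀ (by positivity) (by positivity)]
      have h9 : 3 ≤ L ^ 2 := by nlinarith
      calc 3 * (y : ℝ) * L ^ A ≤ L ^ 2 * (y : ℝ) * L ^ A := by gcongr
        _ = (y : ℝ) * L ^ (A + 2) := by ring
    have htri : |thU lgP F a y - y * sgp z (fun i => F i + C (a i))| ≤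
        |thU lgP F a y - ∑ n ∈ Icc 1 y, lgP n * ∏ i, lz z ((F i).eval (n : ℤ) + a i)| +
        |∑ n ∈ Icc 1 y, lgP n * ∏ i, lz z ((F i).eval (n : ℤ) + a i) -
          ∑ n ∈ Icc 1 y, ArithmeticFunction.vonMangoldt n * ∏ i, lz z ((F i).eval (n : ℤ) + a i)| +
        |∑ n ∈ Icc 1 y, ArithmeticFunction.vonMangoldt n * ∏ i, lz z ((F i).eval (n : ℤ) + a i) -
          y * sgp z (fun i => F i + C (a i))| := by
      refine le_trans (le_of_eq ?_) (le_trans (abs_add_le _ _) (add_le_add_left (abs_add_le _ _) _))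
      congr 1
      ring
    have ht3 := le_trans ht ht2
    linarith
  refine le_trans ?_ (le_trans hb ?_)
  · classical
    refine Nat.cast_le.mpr (card_le_card ?_)
    intro a ha
    rw [mem_filter] at ha ⊢
    obtain ⟨ha0, y, hy, hya⟩ := ha
    refine ⟨ha0, y, hy, ?_⟩
    by_contra hcon
    push Not at hcon
    exact absurd (hkey y hy a hcon) (not_le.mpr hya)
  · apply div_le_div_of_nonneg_left (by positivity) (by positivity)
    exact pow_le_pow_right₀ hL1 (by omega)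

end Pool.Agent.helper24_UT.R27

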