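import Pool.Agent.helper24_UT.Ch13
import Pool.Agent.helper24_UT.Dp
import Pool.Agent.helper24_UT.Dpl
import Pool.Agent.helper24_UT.Dpt
import Pool.Agent.helper24_UT.R25
import Pool.Agent.helper24_UT.R27

/-!
# Project UT (helper24): assembly, part 15
-/

set_option autoImplicit false

namespace Pool.Agent.helper24_UT.Ch

theorem t_DP : S_DP (1 / 3) := Dp.main (1 / 3) (by norm_num) t_LE
theorem t_DPL : S_DPL (1 / 3) := Dpl.main (1 / 3) (by norm_num) t_LEL
theorem t_DPT : S_DPT (1 / 3) := Dpt.main (1 / 3) (by norm_num) t_DP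
theorem t_R25 : S_R25 (1 / 3) := R25.main (1 / 3) (by norm_num) t_DPT
theorem t_R27 : S_R27 (1 / 3) := R27.main (1 / 3) (by norm_num) t_R25 Mtp.main

end Pool.Agent.helper24_UT.Ch
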