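import Pool.Agent.helper24_UT.Stm22

set_option autoImplicit false

namespace Pool.Agent.helper24_UT.Opp

open Finset
open Pool.Agent.helper24_UT

/-- the length condition: `(2 N²)^(5/12) ≤ N` -/
lemma pow_cond (N : ℕ) (hN : 6 ≤ N) :
    (((2 * N ^ 2 : ℕ) : ℝ)) ^ ((1 / 3 : ℝ) + 1 / ((12 : ℕ) : ℝ)) ≤ (N : ℝ) := by
  have hN' : (6 : ℝ) ≤ N := by exact_mod_cast hN
  have hx : (0 : ℝ) ≤ ((2 * N ^ 2 : ℕ) : ℝ) := by positivity
  have e1 : ((1 / 3 : ℝ) + 1 / ((12 : ℕ) : ℝ)) = (5 : ℝ) * (1 / 12 : ℝ) := by norm_num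
  rw [e1, Real.rpow_mul hx]
  have e2 : (((2 * N ^ 2 : ℕ) : ℝ)) ^ (5 : ℝ) ≤ (N : ℝ) ^ (12 : ℝ) := by
    have h5 : (5 : ℝ) = ((5 : ℕ) : ℝ) := by norm_num
    have h12 : (12 : ℝ) = ((12 : ℕ) : ℝ) := by norm_num
    rw [h5, h12, Real.rpow_natCast, Real.rpow_natCast]
    push_cast
    have : (2 * (N : ℝ) ^ 2) ^ 5 = 32 * (N : ℝ) ^ 10 := by ring
    rw [this]
    have h2 : (N : ℝ) ^ 12 = (N : ℝ) ^ 2 * (N : ℝ) ^ 10 := by ring
    rw [h2]
    have h3 : (32 : ℝ) ≤ (N : ℝ) ^ 2 := by nlinarith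
    exact mul_le_mul_of_nonneg_right h3 (by positivity)
  calc ((((2 * N ^ 2 : ℕ) : ℝ)) ^ (5 : ℝ)) ^ (1 / 12 : ℝ) ≤ ((N : ℝ) ^ (12 : ℝ)) ^ (1 / 12 : ℝ) :=
        Real.rpow_le_rpow (by positivity) e2 (by norm_num)
    _ = (N : ℝ) := by
        rw [← Real.rpow_mul (by positivity)]
        norm_num

/-- facts about `log X`, `X = 2 N²` -/
lemma log_facts (N : ℕ) (hL : (4 : ℝ) ≤ Real.log (N : ℝ)) :
    Real.log (N : ℝ) ≤ Real.log ((2 * N ^ 2 : ℕ) : ℝ) ∧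
    Real.log ((2 * N ^ 2 : ℕ) : ℝ) ≤ Real.log (N : ℝ) ^ 2 := by
  have hN : (0 : ℝ) < N := by
    rcases Nat.eq_zero_or_pos N with h | h
    · subst h; simp at hL; linarith
    · exact_mod_cast h
  have e : Real.log ((2 * N ^ 2 : ℕ) : ℝ) = Real.log 2 + 2 * Real.log (N : ℝ) := by
    push_cast
    rw [Real.log_mul (by norm_num) (by positivity), Real.log_pow]
    push_cast; ring
  have h2 : 0 < Real.log 2 := Real.log_pos (by norm_num)
  have h2' : Real.log 2 ≤ 1 := by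
    have := Real.log_two_lt_d9; linarith
  rw [e]
  constructor
  · linarith
  · nlinarith

/-- `log log X ≤ 2 log log N` -/
lemma loglog_sq (N : ℕ) (hL : (4 : ℝ) ≤ Real.log (N : ℝ)) :
    Real.log (Real.log ((2 * N ^ 2 : ℕ) : ℝ)) ^ 2 ≤ 4 * Real.log (Real.log (N : ℝ)) ^ 2 := by
  obtain ⟨h1, h2⟩ := log_facts N hL
  have h3 : 0 ≤ Real.log (Real.log ((2 * N ^ 2 : ℕ) : ℝ)) := Real.log_nonneg (by linarith)
  have h4 : Real.log (Real.log ((2 * N ^ 2 : ℕ) : ℝ)) ≤ 2 * Real.log (Real.log (N : ℝ)) := by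
    calc Real.log (Real.log ((2 * N ^ 2 : ℕ) : ℝ)) ≤ Real.log (Real.log (N : ℝ) ^ 2) :=
          Real.log_le_log (by linarith) h2
      _ = 2 * Real.log (Real.log (N : ℝ)) := by rw [Real.log_pow]; push_cast; ring
  calc Real.log (Real.log ((2 * N ^ 2 : ℕ) : ℝ)) ^ 2 ≤ (2 * Real.log (Real.log (N : ℝ))) ^ 2 :=
        pow_le_pow_left₀ h3 h4 2
    _ = 4 * Real.log (Real.log (N : ℝ)) ^ 2 := by ring

/-- transfer of goodness -/
lemma transfer (A B1 N n u : ℕ) (hL : (4 : ℝ) ≤ Real.log (N : ℝ)) (hn : n ≤ N)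
    (h : Good28 (A + 1) B1 (2 * N ^ 2) N u) : Good33 A (4 * B1) N n u := by
  intro Q hQ y hy
  obtain ⟨h1, h2⟩ := log_facts N hL
  have hQ' : (Q : ℝ) ≤ (N : ℝ) * Real.exp (-((B1 : ℝ) * Real.log (Real.log ((2 * N ^ 2 : ℕ) : ℝ)) ^ 2)) := by
    refine hQ.trans ?_
    apply mul_le_mul_of_nonneg_left _ (Nat.cast_nonneg N)
    apply Real.exp_le_exp.mpr
    have := loglog_sq N hL
    have hB : (0 : ℝ) ≤ (B1 : ℝ) := Nat.cast_nonneg B1
    push_cast at this ⊢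
    nlinarith [mul_le_mul_of_nonneg_left this hB]
  have h3 := h Q hQ' y (fun q r => (hy q r).trans hn)
  refine h3.trans ?_
  have hLpos : 0 < Real.log (N : ℝ) := by linarith
  apply div_le_div_of_nonneg_left (by positivity) (by positivity)
  calc Real.log (N : ℝ) ^ A ≤ Real.log (N : ℝ) ^ (A + 1) :=
        pow_le_pow_right₀ (by linarith) (Nat.le_succ A)
    _ ≤ Real.log ((2 * N ^ 2 : ℕ) : ℝ) ^ (A + 1) := pow_le_pow_left₀ hLpos.le h1 _

/-- a family with gaps `≥ 2 (n₀ + 1)` has few members in a window of length `N` -/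
lemma few (n₀ N M : ℕ) (v : ℕ → ℕ)
    (hv : ∀ s s', n₀ + 1 ≤ s → s ≤ s' → v s + 2 * (n₀ + 1) * (s' - s) ≤ v s') (x : ℕ) (R : ℝ)
    (hR : (N : ℝ) ≤ (n₀ + 1 : ℝ) * R) (hR0 : 2 ≤ R) :
    (((Icc 1 M).filter (fun j => x ≤ v (n₀ + j) ∧ v (n₀ + j) < x + N)).card : ℝ) ≤ R := by
  classical
  set S := (Icc 1 M).filter (fun j => x ≤ v (n₀ + j) ∧ v (n₀ + j) < x + N) with hS
  rcases S.eq_empty_or_nonempty with h | h
  · rw [h]; simp; linarith
  · set a := S.min' h with ha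
    set b := S.max' h with hb
    have haS : a ∈ S := S.min'_mem h
    have hbS : b ∈ S := S.max'_mem h
    have hab : a ≤ b := S.min'_le b hbS
    have hsub : S ⊆ Icc a b := by
      intro j hj
      exact mem_Icc.mpr ⟨S.min'_le j hj, S.le_max' j hj⟩
    have hcard : S.card ≤ b + 1 - a := by
      have := card_le_card hsub
      rwa [Nat.card_Icc] at this
    have haS' := haS
    have hbS' := hbS
    rw [hS, mem_filter, mem_Icc] at haS' hbS'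
    have hgap := hv (n₀ + a) (n₀ + b) (by omega) (by omega)
    have e : n₀ + b - (n₀ + a) = b - a := by omega
    rw [e] at hgap
    have h5 : 2 * (n₀ + 1) * (b - a) < N := by omega
    have h6 : (2 * ((n₀ : ℝ) + 1) * ((b - a : ℕ) : ℝ)) < N := by exact_mod_cast h5
    have h7 : 2 * ((b - a : ℕ) : ℝ) < R := by
      have hpos : (0 : ℝ) < (n₀ : ℝ) + 1 := by positivity
      have : ((n₀ : ℝ) + 1) * (2 * ((b - a : ℕ) : ℝ)) < ((n₀ : ℝ) + 1) * R := by nlinarith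
      exact lt_of_mul_lt_mul_left this hpos.le
    have h8 : (S.card : ℝ) ≤ ((b - a : ℕ) : ℝ) + 1 := by
      have : S.card ≤ (b - a) + 1 := by omega
      exact_mod_cast this
    linarith

lemma gap1 (n₀ s s' : ℕ) (h : n₀ + 1 ≤ s) (h' : s ≤ s') :
    s ^ 2 + 2 * (n₀ + 1) * (s' - s) ≤ s' ^ 2 := by
  obtain ⟨d, rfl⟩ := Nat.exists_eq_add_of_le h'
  obtain ⟨t, rfl⟩ := Nat.exists_eq_add_of_le h
  rw [Nat.add_sub_cancel_left]
  nlinarith [Nat.zero_le (t * d), Nat.zero_le (d * d)]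

lemma gap2 (n₀ s s' : ℕ) (h : n₀ + 1 ≤ s) (h' : s ≤ s') :
    (s ^ 2 - s) + 2 * (n₀ + 1) * (s' - s) ≤ s' ^ 2 - s' := by
  obtain ⟨d, rfl⟩ := Nat.exists_eq_add_of_le h'
  obtain ⟨t, rfl⟩ := Nat.exists_eq_add_of_le h
  rw [Nat.add_sub_cancel_left]
  have e1 : (n₀ + 1 + t) ^ 2 - (n₀ + 1 + t) = (n₀ + 1 + t) * (n₀ + t) := by
    rw [Nat.sub_eq_iff_eq_add (by nlinarith)]; ring
  have e2 : (n₀ + 1 + t + d) ^ 2 - (n₀ + 1 + t + d) = (n₀ + 1 + t + d) * (n₀ + t + d) := by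
    rw [Nat.sub_eq_iff_eq_add (by nlinarith)]; ring
  rw [e1, e2]
  rcases Nat.eq_zero_or_pos d with hd | hd
  · subst hd; simp
  · nlinarith [Nat.zero_le (t * d), Nat.mul_le_mul_left d (show 1 ≤ d from hd)]

/-- the special windows -/
lemma spw (A N n₀ M : ℕ) (v : ℕ → ℕ) (hL : (4 : ℝ) ≤ Real.log (N : ℝ))
    (hn₀ : (N : ℝ) ≤ ((n₀ : ℝ) + 1) * Real.log (N : ℝ) ^ (A + 1)) (hM : n₀ + M = N) (hM2 : N ≤ 2 * M)
    (hv : ∀ s s', n₀ + 1 ≤ s → s ≤ s' → v s + 2 * (n₀ + 1) * (s' - s) ≤ v s')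
    (hv2 : ∀ s, v s ≤ s ^ 2) :
    SpW (A + 1) (2 * N ^ 2) N M (fun j => v (n₀ + j)) := by
  obtain ⟨h1, h2⟩ := log_facts N hL
  have hpow : Real.log (N : ℝ) ^ (A + 1) ≤ Real.log ((2 * N ^ 2 : ℕ) : ℝ) ^ (A + 1) :=
    pow_le_pow_left₀ (by linarith) h1 _
  have hbig : (4 : ℝ) ≤ Real.log (N : ℝ) ^ (A + 1) :=
    hL.trans (le_self_pow₀ (by linarith) (by omega))
  refine ⟨?_, ?_, ?_⟩
  · intro j hj
    rw [mem_Icc] at hj
    have : n₀ + j ≤ N := by omega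
    calc v (n₀ + j) ≤ (n₀ + j) ^ 2 := hv2 _
      _ ≤ N ^ 2 := Nat.pow_le_pow_left this 2
      _ ≤ 2 * N ^ 2 := by omega
  · intro x
    exact (few n₀ N M v hv x _ hn₀ (by linarith)).trans hpow
  · have hM2' : (N : ℝ) ≤ 2 * M := by exact_mod_cast hM2
    have hbig' : (4 : ℝ) ≤ Real.log ((2 * N ^ 2 : ℕ) : ℝ) ^ (A + 1) := hbig.trans hpow
    have hMpos : (0 : ℝ) ≤ M := Nat.cast_nonneg M
    have hNpos : (0 : ℝ) ≤ N := Nat.cast_nonneg N
    calc ((2 * N ^ 2 : ℕ) : ℝ) = 2 * (N : ℝ) * N := by push_cast; ring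
      _ ≤ 2 * (2 * M) * N := by nlinarith
      _ = (M : ℝ) * N * 4 := by ring
      _ ≤ (M : ℝ) * N * Real.log ((2 * N ^ 2 : ℕ) : ℝ) ^ (A + 1) :=
          mul_le_mul_of_nonneg_left hbig' (by positivity)

theorem main : S_R28 (1 / 3) → S_OPP := by
  classical
  intro hR A
  obtain ⟨B1, X₀, hX⟩ := hR 12 (A + 1) (A + 1) (by norm_num)
  have hev : ∀ᶠ N : ℕ in Filter.atTop, (4 : ℝ) ≤ Real.log (N : ℝ) :=
    (Real.tendsto_log_atTop.comp tendsto_natCast_atTop_atTop).eventually_ge_atTop 4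
  obtain ⟨N₁, hN₁⟩ := Filter.eventually_atTop.mp hev
  refine ⟨4 * B1, max (max N₁ X₀) 6, ?_⟩
  intro N hN
  have hNN₁ : N₁ ≤ N := le_trans (le_trans (le_max_left _ _) (le_max_left _ _)) hN
  have hNX₀ : X₀ ≤ N := le_trans (le_trans (le_max_right _ _) (le_max_left _ _)) hN
  have hN6 : 6 ≤ N := le_trans (le_max_right _ _) hN
  have hL := hN₁ N hNN₁
  set L := Real.log (N : ℝ) with hLdef
  have hLpos : 0 < L := by linarith
  have hLA : (4 : ℝ) ≤ L ^ (A + 1) := hL.trans (le_self_pow₀ (by linarith) (by omega))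
  have hLApos : (0 : ℝ) < L ^ (A + 1) := by positivity
  set n₀ := ⌊(N : ℝ) / L ^ (A + 1)⌋₊ with hn₀
  have hN0 : (0 : ℝ) < (N : ℝ) := by exact_mod_cast (by omega : 0 < N)
  have hfl : (n₀ : ℝ) ≤ (N : ℝ) / L ^ (A + 1) := Nat.floor_le (by positivity)
  have hfl2 : (N : ℝ) ≤ ((n₀ : ℝ) + 1) * L ^ (A + 1) := by
    have := Nat.lt_floor_add_one ((N : ℝ) / L ^ (A + 1))
    rw [div_lt_iff₀ hLApos] at this
    exact this.le
  have hn₀4 : 4 * n₀ ≤ N := by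
    have : (n₀ : ℝ) * 4 ≤ N := by
      have h1 : (n₀ : ℝ) * L ^ (A + 1) ≤ N := by
        rwa [le_div_iff₀ hLApos] at hfl
      have h2 : (n₀ : ℝ) * 4 ≤ (n₀ : ℝ) * L ^ (A + 1) :=
        mul_le_mul_of_nonneg_left hLA (Nat.cast_nonneg n₀)
      linarith
    have : n₀ * 4 ≤ N := by exact_mod_cast this
    omega
  obtain ⟨M, hM⟩ : ∃ M, n₀ + M = N := ⟨N - n₀, by omega⟩
  have hM2 : N ≤ 2 * M := by omega
  have hXN : X₀ ≤ 2 * N ^ 2 := by nlinarith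
  have hKX : N ≤ 2 * N ^ 2 := by nlinarith
  have hpc := pow_cond N hN6
  have hs1 := spw A N n₀ M (fun s => s ^ 2 - s) hL hfl2 hM hM2 (gap2 n₀) (fun s => Nat.sub_le _ _)
  have hs2 := spw A N n₀ M (fun s => s ^ 2) hL hfl2 hM hM2 (gap1 n₀) (fun s => le_refl _)
  have r1 := hX (2 * N ^ 2) hXN N hpc hKX M _ hs1
  have r2 := hX (2 * N ^ 2) hXN N hpc hKX M _ hs2
  obtain ⟨hl1, hl2⟩ := log_facts N hL
  set T1 := (Icc 1 M).filter (fun j => ¬ Good28 (A + 1) B1 (2 * N ^ 2) N ((n₀ + j) ^ 2 - (n₀ + j))) with hT1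
  set T2 := (Icc 1 M).filter (fun j => ¬ Good28 (A + 1) B1 (2 * N ^ 2) N ((n₀ + j) ^ 2)) with hT2
  have hbound : ∀ T : Finset ℕ, ((T.card : ℝ) ≤ (M : ℝ) / Real.log ((2 * N ^ 2 : ℕ) : ℝ) ^ (A + 1)) →
      (T.card : ℝ) ≤ (N : ℝ) / L ^ (A + 1) := by
    intro T hT
    refine hT.trans ?_
    have hMN : (M : ℝ) ≤ N := by exact_mod_cast (by omega : M ≤ N)
    apply div_le_div₀ hN0.le hMN hLApos
    exact pow_le_pow_left₀ hLpos.le hl1 _
  have c1 := hbound T1 r1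
  have c2 := hbound T2 r2
  have hsub : (Icc 1 N).filter (fun n => ¬ (Good33 A (4 * B1) N n (n ^ 2 - n) ∧ Good33 A (4 * B1) N n (n ^ 2))) ⊆
      (Icc 1 n₀ ∪ T1.image (fun j => n₀ + j)) ∪ T2.image (fun j => n₀ + j) := by
    intro n hn
    rw [mem_filter, mem_Icc] at hn
    obtain ⟨⟨hn1, hn2⟩, hn3⟩ := hn
    rcases Nat.lt_or_ge n₀ n with h | h
    · have hj : n₀ + (n - n₀) = n := by omega
      have hjI : n - n₀ ∈ Icc 1 M := mem_Icc.mpr ⟨by omega, by omega⟩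
      by_cases hg : Good28 (A + 1) B1 (2 * N ^ 2) N (n ^ 2 - n)
      · have hg2 : ¬ Good28 (A + 1) B1 (2 * N ^ 2) N (n ^ 2) := by
          intro hg2
          exact hn3 ⟨transfer A B1 N n _ hL hn2 hg, transfer A B1 N n _ hL hn2 hg2⟩
        apply mem_union_right
        rw [mem_image]
        refine ⟨n - n₀, ?_, hj⟩
        rw [hT2, mem_filter]
        refine ⟨hjI, ?_⟩
        rw [hj]; exact hg2
      · apply mem_union_left
        apply mem_union_right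
        rw [mem_image]
        refine ⟨n - n₀, ?_, hj⟩
        rw [hT1, mem_filter]
        refine ⟨hjI, ?_⟩
        rw [hj]; exact hg
    · apply mem_union_left
      apply mem_union_left
      exact mem_Icc.mpr ⟨hn1, h⟩
  have hcard : ((Icc 1 N).filter (fun n => ¬ (Good33 A (4 * B1) N n (n ^ 2 - n) ∧ Good33 A (4 * B1) N n (n ^ 2)))).card ≤
      n₀ + T1.card + T2.card := by
    refine (card_le_card hsub).trans ?_
    refine (card_union_le _ _).trans ?_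
    apply Nat.add_le_add
    · refine (card_union_le _ _).trans ?_
      apply Nat.add_le_add
      · rw [Nat.card_Icc]; omega
      · exact card_image_le
    · exact card_image_le
  have hcard' : (((Icc 1 N).filter (fun n => ¬ (Good33 A (4 * B1) N n (n ^ 2 - n) ∧ Good33 A (4 * B1) N n (n ^ 2)))).card : ℝ) ≤
      (n₀ : ℝ) + T1.card + T2.card := by exact_mod_cast hcard
  refine hcard'.trans ?_
  have hfin : 3 * ((N : ℝ) / L ^ (A + 1)) ≤ (N : ℝ) / L ^ A := by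
    rw [pow_succ]
    rw [show 3 * ((N : ℝ) / (L ^ A * L)) = ((N : ℝ) / L ^ A) * (3 / L) by field_simp]
    have h3L : 3 / L ≤ 1 := by rw [div_le_one hLpos]; linarith
    have : 0 ≤ (N : ℝ) / L ^ A := by positivity
    nlinarith
  linarith

end Pool.Agent.helper24_UT.Opp
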