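import Pool.Agent.helper24_UT.Stm22
import Pool.Agent.H316R2.LS

set_option autoImplicit false

namespace Pool.Agent.helper24_UT.R28

open Finset
open Pool.Agent.helper24_UT

/-- the shift of the class -/
lemma mod_shift (n h q r : ℕ) (hr : r < q) : n % q = r ↔ (n + h) % q = (r + h) % q := by
  have h1 : (n + h) % q = (r + h) % q ↔ n ≡ r [MOD q] := by
    constructor
    · intro hh
      exact Nat.ModEq.add_right_cancel' h hh
    · intro hh
      exact Nat.ModEq.add_right h hh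
  rw [h1, Nat.ModEq, Nat.mod_eq_of_lt hr]

lemma mm (h q r : ℕ) (hq : 1 ≤ q) : (r + (q - h % q) + h) % q = r % q := by
  have hm : h % q < q := Nat.mod_lt _ hq
  have h1 : r + (q - h % q) + h = r + q + q * (h / q) := by
    have := Nat.div_add_mod h q
    omega
  rw [h1, Nat.add_mul_mod_self_left, Nat.add_mod_right]

lemma pcl_diff (q r a b : ℕ) (hab : a ≤ b) :
    (pcl q r b : ℝ) - pcl q r a = (((Ioc a b).filter (fun p => p.Prime ∧ p % q = r)).card : ℝ) := by
  have h : Icc 1 b = Icc 1 a ∪ Ioc a b := by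
    ext m; simp only [mem_Icc, mem_union, mem_Ioc]; omega
  have hd : Disjoint (Icc 1 a) (Ioc a b) := by
    rw [disjoint_left]; intro m hm hm'
    rw [mem_Icc] at hm; rw [mem_Ioc] at hm'; omega
  unfold pcl
  rw [h, filter_union, card_union_of_disjoint (disjoint_filter_filter hd)]
  push_cast; ring

lemma cntT_diff (h : Fin 1 → ℕ) (q r x y : ℕ) (hr : r < q) :
    (cntT h q r (x + y) : ℝ) - cntT h q r x =
      (pcl q ((r + h 0) % q) (x + h 0 + y) : ℝ) - pcl q ((r + h 0) % q) (x + h 0) := by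
  classical
  rw [pcl_diff _ _ _ _ (Nat.le_add_right _ _)]
  have hI : Icc 1 (x + y) = Icc 1 x ∪ Ioc x (x + y) := by
    ext m; simp only [mem_Icc, mem_union, mem_Ioc]; omega
  have hd : Disjoint (Icc 1 x) (Ioc x (x + y)) := by
    rw [disjoint_left]; intro m hm hm'
    rw [mem_Icc] at hm; rw [mem_Ioc] at hm'; omega
  have h1 : (cntT h q r (x + y) : ℝ) - cntT h q r x =
      (((Ioc x (x + y)).filter (fun n => n % q = r ∧ ∀ i, (n + h i).Prime)).card : ℝ) := by
    unfold cntT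
    rw [hI, filter_union, card_union_of_disjoint (disjoint_filter_filter hd)]
    push_cast
    ring_nf
  rw [h1]
  norm_cast
  refine card_nbij' (fun n => n + h 0) (fun p => p - h 0) ?_ ?_ ?_ ?_
  · intro n hn
    simp only [coe_filter, mem_Ioc, Set.mem_ofPred_eq] at hn ⊢
    obtain ⟨⟨h1, h2⟩, h3, h4⟩ := hn
    exact ⟨by omega, h4 0, (mod_shift n (h 0) q r hr).1 h3⟩
  · intro p hp
    simp only [coe_filter, mem_Ioc, Set.mem_ofPred_eq] at hp ⊢
    obtain ⟨⟨h1, h2⟩, h3, h4⟩ := hp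
    have h5 : p - h 0 + h 0 = p := by omega
    refine ⟨by omega, ?_, ?_⟩
    · rw [mod_shift (p - h 0) (h 0) q r hr, h5]; exact h4
    · intro i
      rw [Subsingleton.elim i 0, h5]; exact h3
  · intro n _
    simp
  · intro p hp
    simp only [coe_filter, mem_Ioc, Set.mem_ofPred_eq] at hp
    change p - h 0 + h 0 = p
    omega

lemma expT_diff (h : Fin 1 → ℕ) (x y : ℕ) :
    expT h (x + y) - expT h x = ∑ m ∈ Ioc (x + h 0) (x + h 0 + y), 1 / Real.log (m : ℝ) := by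
  have hI : Icc 1 (x + y) = Icc 1 x ∪ Ioc x (x + y) := by
    ext m; simp only [mem_Icc, mem_union, mem_Ioc]; omega
  have hd : Disjoint (Icc 1 x) (Ioc x (x + y)) := by
    rw [disjoint_left]; intro m hm hm'
    rw [mem_Icc] at hm; rw [mem_Ioc] at hm'; omega
  unfold expT
  rw [hI, sum_union hd, add_sub_cancel_left]
  refine sum_nbij' (fun n => n + h 0) (fun p => p - h 0) ?_ ?_ ?_ ?_ ?_
  · intro n hn; rw [mem_Ioc] at hn ⊢; omega
  · intro n hn; rw [mem_Ioc] at hn ⊢; omega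
  · intro n _; simp
  · intro n hn; rw [mem_Ioc] at hn; omega
  · intro n _
    simp

lemma nuf_one' (h : Fin 1 → ℕ) (p : ℕ) (hp : 0 < p) :
    nuf (fun _ : Fin 1 => (1:ℤ)) (fun i => (h i : ℤ)) p = 1 := by
  classical
  unfold nuf
  rw [card_eq_one]
  refine ⟨(p - h 0 % p) % p, ?_⟩
  ext t
  rw [mem_filter, mem_range, mem_singleton]
  have hdvd : (∃ i : Fin 1, (p : ℤ) ∣ 1 * (t : ℤ) + (h i : ℤ)) ↔ p ∣ t + h 0 := by
    constructor
    · rintro ⟨i, hi⟩
      rw [Subsingleton.elim i 0, one_mul] at hi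
      exact_mod_cast hi
    · intro hh
      refine ⟨0, ?_⟩
      rw [one_mul]
      exact_mod_cast hh
  rw [hdvd]
  have hm : h 0 % p < p := Nat.mod_lt _ hp
  constructor
  · rintro ⟨h1, h2⟩
    have h3 : (t + h 0 % p) % p = 0 := by
      rw [Nat.add_mod, Nat.mod_mod, ← Nat.add_mod]
      exact Nat.mod_eq_zero_of_dvd h2
    obtain ⟨c, hc⟩ := Nat.dvd_of_mod_eq_zero h3
    have h4 : t + h 0 % p < 2 * p := by omega
    have h5 : c < 2 := by
      by_contra hcc
      push Not at hcc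
      have := Nat.mul_le_mul_left p hcc
      omega
    interval_cases c
    · have e1 : h 0 % p = 0 := by omega
      have e2 : t = 0 := by omega
      rw [e1, Nat.sub_zero, Nat.mod_self]
      exact e2
    · rw [Nat.mod_eq_of_lt (by omega)]
      omega
  · intro ht
    refine ⟨by rw [ht]; exact Nat.mod_lt _ hp, ?_⟩
    rw [ht]
    apply Nat.dvd_of_mod_eq_zero
    rw [Nat.mod_add_mod]
    have := mm (h 0) p 0 hp
    rw [zero_add, Nat.zero_mod] at this
    exact this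

lemma sers_one' (h : Fin 1 → ℕ) : sers (fun _ : Fin 1 => (1:ℤ)) (fun i => (h i : ℤ)) = 1 := by
  unfold sers
  have : ∀ p : Nat.Primes, (1 - (nuf (fun _ : Fin 1 => (1:ℤ)) (fun i => (h i : ℤ)) p : ℝ) /
      ((p : ℕ) : ℝ)) / (1 - 1 / ((p : ℕ) : ℝ)) ^ 1 = 1 := by
    intro p
    rw [nuf_one' h _ p.2.pos, pow_one, Nat.cast_one]
    apply div_self
    have h2 : (2:ℝ) ≤ ((p : ℕ) : ℝ) := by exact_mod_cast p.2.two_le
    have : 1 / ((p : ℕ) : ℝ) < 1 := by
      rw [div_lt_one (by linarith)]; linarith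
    linarith
  simp_rw [this]
  exact tprod_one

/-- reindexing of the classes -/
lemma sum_shift (h q : ℕ) (hq : 1 ≤ q) (F : ℕ → ℝ) :
    ∑ r ∈ (range q).filter (fun r => (r + h).Coprime q), F ((r + h) % q) =
      ∑ r ∈ (range q).filter (fun r => r.Coprime q), F r := by
  refine sum_nbij' (fun r => (r + h) % q) (fun r => (r + (q - h % q)) % q) ?_ ?_ ?_ ?_ ?_
  · intro r hr
    rw [mem_filter, mem_range] at hr ⊢
    refine ⟨Nat.mod_lt _ hq, ?_⟩
    have := hr.2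
    rw [Nat.coprime_iff_gcd_eq_one] at this ⊢
    rw [← this, ← Nat.gcd_rec, Nat.gcd_comm]
  · intro r hr
    rw [mem_filter, mem_range] at hr ⊢
    refine ⟨Nat.mod_lt _ hq, ?_⟩
    have h1 : ((r + (q - h % q)) % q + h) % q = r := by
      rw [Nat.mod_add_mod, mm h q r hq, Nat.mod_eq_of_lt hr.1]
    have h2 := hr.2
    rw [Nat.coprime_iff_gcd_eq_one] at h2 ⊢
    rw [Nat.gcd_comm, Nat.gcd_rec, h1, h2]
  · intro r hr
    rw [mem_filter, mem_range] at hr
    rw [Nat.mod_add_mod, add_right_comm, mm h q r hq, Nat.mod_eq_of_lt hr.1]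
  · intro r hr
    rw [mem_filter, mem_range] at hr
    rw [Nat.mod_add_mod, mm h q r hq, Nat.mod_eq_of_lt hr.1]
  · intro r _
    rfl

lemma phf_one' (h : Fin 1 → ℕ) (q : ℕ) (hq : 1 ≤ q) :
    phf (fun _ : Fin 1 => (1:ℤ)) (fun i => (h i : ℤ)) q = q.totient := by
  classical
  have h1 := sum_shift (h 0) q hq (fun _ => (1:ℝ))
  rw [sum_const, sum_const, nsmul_eq_mul, nsmul_eq_mul, mul_one, mul_one] at h1
  have h2 : ((range q).filter (fun r => (r + h 0).Coprime q)).card =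
      ((range q).filter (fun r => r.Coprime q)).card := by exact_mod_cast h1
  unfold phf
  rw [Nat.totient_eq_card_coprime]
  have h3 : (range q).filter (fun a => q.Coprime a) = (range q).filter (fun r => r.Coprime q) := by
    apply filter_congr
    intro a _
    exact Nat.coprime_comm
  rw [h3, ← h2]
  congr 1
  apply filter_congr
  intro t _
  constructor
  · intro hh
    have h4 := hh 0
    have h5 : (1 : ℤ) * (t : ℤ) + ((h 0 : ℕ) : ℤ) = ((t + h 0 : ℕ) : ℤ) := by push_cast; ring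
    rw [h5, Int.gcd_natCast_natCast] at h4
    exact h4
  · intro hh i
    rw [Subsingleton.elim i 0]
    have h5 : (1 : ℤ) * (t : ℤ) + ((h 0 : ℕ) : ℤ) = ((t + h 0 : ℕ) : ℤ) := by push_cast; ring
    rw [h5, Int.gcd_natCast_natCast]
    exact hh

/-- a good pair gives a good position -/
lemma good_of_pair (A B X K x : ℕ) (h : Fin 1 → ℕ) (hG : Good14 A B X K x h) :
    Good28 A B X K (x + h 0) := by
  intro Q hQ y hy
  have h1 := hG.2 Q hQ (fun q r => y q ((r + h 0) % q)) (fun q r => hy _ _)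
  refine le_trans (le_of_eq ?_) h1
  apply sum_congr rfl
  intro q hq
  rw [mem_Icc] at hq
  rw [← sum_shift (h 0) q hq.1]
  have hf : (range q).filter (fun r => ∀ i, (r + h i).Coprime q) =
      (range q).filter (fun r => (r + h 0).Coprime q) := by
    apply filter_congr
    intro r _
    constructor
    · intro hh; exact hh 0
    · intro hh i; rw [Subsingleton.elim i 0]; exact hh
  rw [hf]
  apply sum_congr rfl
  intro r hr
  rw [mem_filter, mem_range] at hr
  rw [cntT_diff h q r x _ hr.1, expT_diff, sers_one', phf_one' h q hq.1]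

/-- number of primes minus expectation on `(a, b]` -/
noncomputable def dl (q r a b : ℕ) : ℝ :=
  ((pcl q r b : ℝ) - pcl q r a) - 1 / (Nat.totient q : ℝ) * ∑ m ∈ Ioc a b, 1 / Real.log (m : ℝ)

lemma dl_add (q r a b c : ℕ) (hab : a ≤ b) (hbc : b ≤ c) :
    dl q r a c = dl q r a b + dl q r b c := by
  unfold dl
  rw [← sum_Ioc_consecutive _ hab hbc]
  ring

lemma dl_self (q r a : ℕ) : dl q r a a = 0 := by simp [dl]

lemma cnt_class (q r a b : ℕ) (hq : 1 ≤ q) (hab : a ≤ b) :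
    (((Ioc a b).filter (fun p => p.Prime ∧ p % q = r)).card : ℝ) ≤ ((b - a : ℕ) : ℝ) / q + 1 := by
  have h1 : ((Ioc a b).filter (fun p => p.Prime ∧ p % q = r)).card ≤ (range ((b - a) / q + 1)).card := by
    apply card_le_card_of_injOn (fun n => (n - a - 1) / q)
    · intro n hn
      simp only [coe_filter, mem_Ioc, Set.mem_ofPred_eq] at hn
      simp only [coe_range, Set.mem_Iio]
      have : (n - a - 1) / q ≤ (b - a) / q := Nat.div_le_div_right (by omega)
      omega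
    · intro n hn m hm hnm
      simp only [coe_filter, mem_Ioc, Set.mem_ofPred_eq] at hn hm
      simp only at hnm
      have e1 : n % q = m % q := by rw [hn.2.2, hm.2.2]
      have e2 := Nat.div_add_mod (n - a - 1) q
      have e3 := Nat.div_add_mod (m - a - 1) q
      have e4 : (n - a - 1) % q < q := Nat.mod_lt _ hq
      have e5 : (m - a - 1) % q < q := Nat.mod_lt _ hq
      rw [hnm] at e2
      rcases le_total n m with h | h
      · have e6 : q ∣ m - n := (Nat.modEq_iff_dvd' h).1 e1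
        rcases Nat.eq_zero_or_pos (m - n) with h0 | h0
        · omega
        · have := Nat.le_of_dvd h0 e6
          omega
      · have e6 : q ∣ n - m := (Nat.modEq_iff_dvd' h).1 e1.symm
        rcases Nat.eq_zero_or_pos (n - m) with h0 | h0
        · omega
        · have := Nat.le_of_dvd h0 e6
          omega
  rw [card_range] at h1
  have h2 : (((b - a) / q : ℕ) : ℝ) ≤ ((b - a : ℕ) : ℝ) / q := Nat.cast_div_le
  have h3 : (((Ioc a b).filter (fun p => p.Prime ∧ p % q = r)).card : ℝ) ≤ (((b - a) / q : ℕ) : ℝ) + 1 := by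
    exact_mod_cast h1
  linarith

lemma log_inv (m : ℕ) : 0 ≤ 1 / Real.log (m : ℝ) ∧ 1 / Real.log (m : ℝ) ≤ 2 := by
  have h0 : 0 ≤ Real.log (m : ℝ) := Real.log_natCast_nonneg m
  refine ⟨by positivity, ?_⟩
  rcases Nat.lt_or_ge m 2 with h | h
  · interval_cases m <;> simp
  · have h1 : Real.log 2 ≤ Real.log m := Real.log_le_log (by norm_num) (by exact_mod_cast h)
    have h2 := Real.log_two_gt_d9
    have h3 : 1 / Real.log (m : ℝ) ≤ 1 / (1 / 2) := one_div_le_one_div_of_le (by norm_num) (by linarith)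
    linarith

lemma sq_sub_le (x y a b : ℝ) (hx : 0 ≤ x) (hy : 0 ≤ y) (hxa : x ≤ a) (hyb : y ≤ b) :
    (x - y) ^ 2 ≤ a ^ 2 + b ^ 2 := by
  have h1 : x ^ 2 ≤ a ^ 2 := pow_le_pow_left₀ hx hxa 2
  have h2 : y ^ 2 ≤ b ^ 2 := pow_le_pow_left₀ hy hyb 2
  nlinarith [mul_nonneg hx hy]

lemma dl_small (q r a b D : ℕ) (hq : 1 ≤ q) (hab : a ≤ b) (hD : b - a ≤ D) :
    dl q r a b ^ 2 ≤ 2 * (D : ℝ) ^ 2 / q ^ 2 + 2 + 4 * (D : ℝ) ^ 2 / (Nat.totient q : ℝ) ^ 2 := by
  have hq0 : (0:ℝ) < q := by exact_mod_cast hq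
  have hφ : (0:ℝ) < Nat.totient q := by exact_mod_cast Nat.totient_pos.mpr hq
  have hDr : ((b - a : ℕ) : ℝ) ≤ D := by exact_mod_cast hD
  have hba0 : (0:ℝ) ≤ ((b - a : ℕ) : ℝ) := Nat.cast_nonneg _
  have h1 := cnt_class q r a b hq hab
  have hdl : dl q r a b = (((Ioc a b).filter (fun p => p.Prime ∧ p % q = r)).card : ℝ) -
      1 / (Nat.totient q : ℝ) * ∑ m ∈ Ioc a b, 1 / Real.log (m : ℝ) := by
    unfold dl
    rw [pcl_diff q r a b hab]
  rw [hdl]
  generalize (((Ioc a b).filter (fun p => p.Prime ∧ p % q = r)).card) = N at h1 ⊢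
  have h2 : ∑ m ∈ Ioc a b, 1 / Real.log (m : ℝ) ≤ 2 * D := by
    calc ∑ m ∈ Ioc a b, 1 / Real.log (m : ℝ) ≤ ∑ m ∈ Ioc a b, (2:ℝ) :=
          sum_le_sum fun m _ => (log_inv m).2
      _ = ((b - a : ℕ) : ℝ) * 2 := by rw [sum_const, Nat.card_Ioc, nsmul_eq_mul]
      _ ≤ 2 * D := by linarith
  have h3 : 0 ≤ ∑ m ∈ Ioc a b, 1 / Real.log (m : ℝ) := sum_nonneg fun m _ => (log_inv m).1
  have h1' : (N : ℝ) ≤ (D : ℝ) / q + 1 := h1.trans (by gcongr)
  have h4 := sq_sub_le (N : ℝ) (1 / (Nat.totient q : ℝ) * ∑ m ∈ Ioc a b, 1 / Real.log (m : ℝ))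
    ((D : ℝ) / q + 1) (1 / (Nat.totient q : ℝ) * (2 * D)) (Nat.cast_nonneg N)
    (mul_nonneg (by positivity) h3) h1' (mul_le_mul_of_nonneg_left h2 (by positivity))
  refine h4.trans ?_
  have h5 : ((D : ℝ) / q + 1) ^ 2 ≤ 2 * (D : ℝ) ^ 2 / q ^ 2 + 2 := by
    have : 2 * (D : ℝ) ^ 2 / q ^ 2 = 2 * ((D : ℝ) / q) ^ 2 := by rw [div_pow]; ring
    rw [this]
    nlinarith [sq_nonneg ((D : ℝ) / q - 1)]
  have h6 : (1 / (Nat.totient q : ℝ) * (2 * D)) ^ 2 = 4 * (D : ℝ) ^ 2 / (Nat.totient q : ℝ) ^ 2 := by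
    field_simp
    ring
  linarith

lemma inv_tot_le (n : ℕ) (hn : 1 ≤ n) : 1 / (Nat.totient n : ℝ) ≤ (n.divisors.card : ℝ) / n := by
  have h1 : n ≤ n.divisors.card * Nat.totient n := by
    calc n = ∑ d ∈ n.divisors, Nat.totient d := (Nat.sum_totient n).symm
      _ ≤ ∑ _d ∈ n.divisors, Nat.totient n := by
          apply sum_le_sum
          intro d hd
          exact Nat.le_of_dvd (Nat.totient_pos.mpr hn)
            (Nat.totient_dvd_of_dvd (Nat.dvd_of_mem_divisors hd))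
      _ = _ := by rw [sum_const, smul_eq_mul]
  have h2 : (0:ℝ) < Nat.totient n := by exact_mod_cast Nat.totient_pos.mpr hn
  have h3 : (0:ℝ) < n := by exact_mod_cast hn
  rw [div_le_div_iff₀ h2 h3, one_mul]
  exact_mod_cast h1

lemma card_cop (q : ℕ) : ((range q).filter (fun r => r.Coprime q)).card = Nat.totient q := by
  rw [Nat.totient_eq_card_coprime]
  congr 1
  apply filter_congr
  intro a _
  exact Nat.coprime_comm

/-- mean square of the short pieces -/
lemma sum_dl_small (Q D : ℕ) (a b : ℕ → ℕ → ℕ) (hab : ∀ q r, a q r ≤ b q r)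
    (hD : ∀ q r, b q r - a q r ≤ D) :
    ∑ q ∈ Icc 1 Q, ∑ r ∈ (range q).filter (fun r => r.Coprime q), dl q r (a q r) (b q r) ^ 2 ≤
      6 * (D : ℝ) ^ 2 * (1 + Real.log Q) ^ 2 + 2 * (Q : ℝ) ^ 2 := by
  have hD0 : (0:ℝ) ≤ (D : ℝ) ^ 2 := sq_nonneg _
  have hl : 0 ≤ Real.log (Q : ℝ) := Real.log_natCast_nonneg Q
  have h1 : ∀ q ∈ Icc 1 Q, ∑ r ∈ (range q).filter (fun r => r.Coprime q),
      dl q r (a q r) (b q r) ^ 2 ≤ 2 * (D : ℝ) ^ 2 * (1 / q) + 2 * Q +
        4 * (D : ℝ) ^ 2 * ((q.divisors.card : ℝ) / q) := by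
    intro q hq
    rw [mem_Icc] at hq
    have hq0 : (0:ℝ) < q := by exact_mod_cast hq.1
    have hφ : (0:ℝ) < Nat.totient q := by exact_mod_cast Nat.totient_pos.mpr hq.1
    have hφq : (Nat.totient q : ℝ) ≤ q := by exact_mod_cast Nat.totient_le q
    have hqQ : (q : ℝ) ≤ Q := by exact_mod_cast hq.2
    calc ∑ r ∈ (range q).filter (fun r => r.Coprime q), dl q r (a q r) (b q r) ^ 2
        ≤ ∑ r ∈ (range q).filter (fun r => r.Coprime q),
          (2 * (D : ℝ) ^ 2 / q ^ 2 + 2 + 4 * (D : ℝ) ^ 2 / (Nat.totient q : ℝ) ^ 2) :=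
          sum_le_sum fun r _ => dl_small q r _ _ D hq.1 (hab q r) (hD q r)
      _ = (Nat.totient q : ℝ) * (2 * (D : ℝ) ^ 2 / q ^ 2 + 2 +
          4 * (D : ℝ) ^ 2 / (Nat.totient q : ℝ) ^ 2) := by
          rw [sum_const, card_cop, nsmul_eq_mul]
      _ = (Nat.totient q : ℝ) * (2 * (D : ℝ) ^ 2 / q ^ 2) + 2 * (Nat.totient q : ℝ) +
          4 * (D : ℝ) ^ 2 * (1 / (Nat.totient q : ℝ)) := by
          field_simp
      _ ≤ (q : ℝ) * (2 * (D : ℝ) ^ 2 / q ^ 2) + 2 * (Q : ℝ) +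
          4 * (D : ℝ) ^ 2 * ((q.divisors.card : ℝ) / q) := by
          have h2 := inv_tot_le q hq.1
          have h3 : (Nat.totient q : ℝ) ≤ Q := hφq.trans hqQ
          have h4 : (Nat.totient q : ℝ) * (2 * (D : ℝ) ^ 2 / q ^ 2) ≤ (q : ℝ) * (2 * (D : ℝ) ^ 2 / q ^ 2) :=
            mul_le_mul_of_nonneg_right hφq (by positivity)
          have h5 : 4 * (D : ℝ) ^ 2 * (1 / (Nat.totient q : ℝ)) ≤
            4 * (D : ℝ) ^ 2 * ((q.divisors.card : ℝ) / q) := mul_le_mul_of_nonneg_left h2 (by positivity)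
          linarith
      _ = _ := by
          field_simp
  calc _ ≤ ∑ q ∈ Icc 1 Q, (2 * (D : ℝ) ^ 2 * (1 / q) + 2 * Q +
        4 * (D : ℝ) ^ 2 * ((q.divisors.card : ℝ) / q)) := sum_le_sum h1
    _ = 2 * (D : ℝ) ^ 2 * ∑ q ∈ Icc 1 Q, (1 / (q : ℝ)) + 2 * (Q : ℝ) ^ 2 +
        4 * (D : ℝ) ^ 2 * ∑ q ∈ Icc 1 Q, ((q.divisors.card : ℝ) / q) := by
        have e1 : ∑ q ∈ Icc 1 Q, 2 * (D : ℝ) ^ 2 * (1 / (q : ℝ)) =
          2 * (D : ℝ) ^ 2 * ∑ q ∈ Icc 1 Q, (1 / (q : ℝ)) := (mul_sum _ _ _).symm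
        have e2 : ∑ q ∈ Icc 1 Q, 4 * (D : ℝ) ^ 2 * ((q.divisors.card : ℝ) / q) =
          4 * (D : ℝ) ^ 2 * ∑ q ∈ Icc 1 Q, ((q.divisors.card : ℝ) / q) := (mul_sum _ _ _).symm
        have e3 : ∑ q ∈ Icc 1 Q, 2 * (Q : ℝ) = 2 * (Q : ℝ) ^ 2 := by
          rw [sum_const, Nat.card_Icc, nsmul_eq_mul, Nat.add_sub_cancel]; ring
        rw [sum_add_distrib, sum_add_distrib, e1, e2, e3]
    _ ≤ 2 * (D : ℝ) ^ 2 * (1 + Real.log Q) + 2 * (Q : ℝ) ^ 2 +
        4 * (D : ℝ) ^ 2 * (1 + Real.log Q) ^ 2 := by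
        have h2 := Pool.Agent.H316R2.harm_sum_le Q
        have h3 := Pool.Agent.H316R2.tau_sum_le Q
        gcongr
    _ ≤ _ := by
        have h4 : 1 + Real.log Q ≤ (1 + Real.log Q) ^ 2 := by nlinarith
        nlinarith [mul_le_mul_of_nonneg_left h4 hD0]

/-- additivity in the form in which it is used -/
lemma dl_split (q r u t y : ℕ) (hut : u ≤ t) :
    dl q r u (u + y) = dl q r t (t + (u + y - t)) + dl q r u (min (u + y) t) := by
  rcases le_total (u + y) t with h | h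
  · have h1 : u + y - t = 0 := by omega
    rw [h1, add_zero, dl_self, min_eq_left h, zero_add]
  · have h1 : t + (u + y - t) = u + y := by omega
    rw [h1, min_eq_right h, dl_add q r u t (u + y) hut h, add_comm]

lemma good28_iff (A B X K u : ℕ) : Good28 A B X K u ↔ ∀ Q : ℕ,
    (Q : ℝ) ≤ K * Real.exp (-(B * Real.log (Real.log X) ^ 2)) →
    ∀ y : ℕ → ℕ → ℕ, (∀ q r, y q r ≤ K) →
    ∑ q ∈ Icc 1 Q, ∑ r ∈ (range q).filter (fun r => r.Coprime q),
      dl q r u (u + y q r) ^ 2 ≤ (K : ℝ) ^ 2 / (Real.log X) ^ A := Iff.rfl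

/-- passage from `t` to `u` -/
lemma transfer (A A1 B1 X K t u D : ℕ) (hA1 : A + 1 ≤ A1) (hL : 2048 ≤ Real.log (X : ℝ))
    (hKX : K ≤ X) (hD : (D : ℝ) ≤ K / (Real.log X) ^ (A + 4)) (hut : u ≤ t) (htD : t ≤ u + D)
    (hG : Good28 A1 B1 (2 * X) K t) : Good28 A (4 * B1 + A + 2) X K u := by
  rw [good28_iff] at hG ⊢
  intro Q hQ y hy
  set L := Real.log (X : ℝ) with hLdef
  have hL0 : 0 < L := by linarith
  have hL1 : 1 ≤ L := by linarith
  have hX0 : 0 < X := by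
    rcases Nat.eq_zero_or_pos X with h | h
    · subst h; simp at hLdef; linarith
    · exact h
  have hXr : (0:ℝ) < X := by exact_mod_cast hX0
  have hK0 : (0:ℝ) ≤ K := Nat.cast_nonneg K
  have hl : 1 ≤ Real.log L := by
    rw [Real.le_log_iff_exp_le hL0]
    have := Real.exp_one_lt_d9
    linarith
  -- the logarithm of `2 X`
  have hL2 : Real.log ((2 * X : ℕ) : ℝ) = Real.log 2 + L := by
    push_cast
    rw [Real.log_mul (by norm_num) hXr.ne']
  have hlog2 : Real.log 2 ≤ 1 := by have := Real.log_two_lt_d9; linarith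
  have hlog2' : 0 ≤ Real.log 2 := Real.log_nonneg (by norm_num)
  have hLL : L ≤ Real.log ((2 * X : ℕ) : ℝ) := by rw [hL2]; linarith
  have hll2 : Real.log (Real.log ((2 * X : ℕ) : ℝ)) ≤ 2 * Real.log L := by
    have h1 : Real.log ((2 * X : ℕ) : ℝ) ≤ L ^ 2 := by rw [hL2]; nlinarith
    calc Real.log (Real.log ((2 * X : ℕ) : ℝ)) ≤ Real.log (L ^ 2) :=
          Real.log_le_log (by linarith) h1
      _ = 2 * Real.log L := by rw [Real.log_pow]; norm_num
  have hll0 : 0 ≤ Real.log (Real.log ((2 * X : ℕ) : ℝ)) := Real.log_nonneg (by linarith)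
  have hsq : Real.log (Real.log ((2 * X : ℕ) : ℝ)) ^ 2 ≤ 4 * Real.log L ^ 2 := by
    calc _ ≤ (2 * Real.log L) ^ 2 := pow_le_pow_left₀ hll0 hll2 2
      _ = _ := by ring
  have hB1 : (0:ℝ) ≤ B1 := Nat.cast_nonneg _
  have hA0 : (0:ℝ) ≤ A := Nat.cast_nonneg _
  have hQ1 : (Q : ℝ) ≤ K * Real.exp (-(B1 * Real.log (Real.log ((2 * X : ℕ) : ℝ)) ^ 2)) := by
    refine hQ.trans (mul_le_mul_of_nonneg_left (Real.exp_le_exp.2 ?_) hK0)
    have h1 := mul_le_mul_of_nonneg_left hsq hB1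
    have h2 : 0 ≤ (A + 2 : ℝ) * Real.log L ^ 2 := by positivity
    have h3 : ((4 * B1 + A + 2 : ℕ) : ℝ) * Real.log L ^ 2 =
      B1 * (4 * Real.log L ^ 2) + (A + 2 : ℝ) * Real.log L ^ 2 := by push_cast; ring
    rw [h3]
    linarith
  have hQ2 : (Q : ℝ) ≤ K / L ^ (A + 1) := by
    refine hQ.trans ?_
    rw [div_eq_mul_inv]
    refine mul_le_mul_of_nonneg_left ?_ hK0
    have h1 : (L ^ (A + 1))⁻¹ = Real.exp (-(((A + 1 : ℕ) : ℝ) * Real.log L)) := by
      rw [Real.exp_neg, mul_comm, Real.exp_mul, Real.exp_log hL0, Real.rpow_natCast]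
    rw [h1]
    apply Real.exp_le_exp.2
    push_cast
    nlinarith [mul_nonneg hB1 (sq_nonneg (Real.log L)), mul_nonneg hA0 (mul_nonneg (by linarith : 0 ≤ Real.log L) (by linarith : 0 ≤ Real.log L - 1)), mul_nonneg (by linarith : 0 ≤ Real.log L) (by linarith : 0 ≤ Real.log L - 1)]
  have hQK : (Q : ℝ) ≤ K := by
    refine hQ2.trans (div_le_self hK0 (one_le_pow₀ hL1))
  have hlogQ : Real.log (Q : ℝ) ≤ L := by
    rcases Nat.eq_zero_or_pos Q with h | h
    · subst h; simp; linarith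
    · exact Real.log_le_log (by exact_mod_cast h) (hQK.trans (by exact_mod_cast hKX))
  have hlogQ0 : 0 ≤ Real.log (Q : ℝ) := Real.log_natCast_nonneg Q
  have h1 := hG Q hQ1 (fun q r => u + y q r - t) (fun q r => by have := hy q r; omega)
  have h2 := sum_dl_small Q D (fun _ _ => u) (fun q r => min (u + y q r) t)
    (fun q r => le_min (Nat.le_add_right _ _) hut) (fun q r => by
      have := min_le_right (u + y q r) t; omega)
  have h3 : ∑ q ∈ Icc 1 Q, ∑ r ∈ (range q).filter (fun r => r.Coprime q),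
      dl q r u (u + y q r) ^ 2 ≤
      2 * (∑ q ∈ Icc 1 Q, ∑ r ∈ (range q).filter (fun r => r.Coprime q),
        dl q r t (t + (u + y q r - t)) ^ 2) +
      2 * (∑ q ∈ Icc 1 Q, ∑ r ∈ (range q).filter (fun r => r.Coprime q),
        dl q r u (min (u + y q r) t) ^ 2) := by
    rw [mul_sum, mul_sum, ← sum_add_distrib]
    apply sum_le_sum
    intro q _
    rw [mul_sum, mul_sum, ← sum_add_distrib]
    apply sum_le_sum
    intro r _
    rw [dl_split q r u t (y q r) hut]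
    nlinarith [sq_nonneg (dl q r t (t + (u + y q r - t)) - dl q r u (min (u + y q r) t))]
  have hLA : (0:ℝ) < L ^ A := by positivity
  have h4 : (K : ℝ) ^ 2 / Real.log ((2 * X : ℕ) : ℝ) ^ A1 ≤ (K : ℝ) ^ 2 / L ^ (A + 1) := by
    apply div_le_div_of_nonneg_left (sq_nonneg _) (by positivity)
    calc L ^ (A + 1) ≤ L ^ A1 := pow_le_pow_right₀ hL1 hA1
      _ ≤ _ := pow_le_pow_left₀ hL0.le hLL _
  have h5 : 6 * (D : ℝ) ^ 2 * (1 + Real.log Q) ^ 2 ≤ 24 * (K : ℝ) ^ 2 / L ^ (A + 1) := by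
    have h6 : (1 + Real.log (Q : ℝ)) ^ 2 ≤ (2 * L) ^ 2 := by
      apply pow_le_pow_left₀ <;> linarith
    have h7 : (D : ℝ) ^ 2 ≤ (K / L ^ (A + 4)) ^ 2 := by
      apply pow_le_pow_left₀ (Nat.cast_nonneg _) hD
    calc 6 * (D : ℝ) ^ 2 * (1 + Real.log Q) ^ 2 ≤ 6 * (K / L ^ (A + 4)) ^ 2 * (2 * L) ^ 2 := by gcongr
      _ = 24 * (K : ℝ) ^ 2 / L ^ (2 * A + 6) := by
          rw [div_pow, ← pow_mul]
          have : L ^ ((A + 4) * 2) = L ^ (2 * A + 6) * L ^ 2 := by rw [← pow_add]; congr 1; ring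
          rw [this]
          field_simp
          ring
      _ ≤ 24 * (K : ℝ) ^ 2 / L ^ (A + 1) := by
          apply div_le_div_of_nonneg_left (by positivity) (by positivity)
          exact pow_le_pow_right₀ hL1 (by omega)
  have h8 : 2 * (Q : ℝ) ^ 2 ≤ 2 * (K : ℝ) ^ 2 / L ^ (A + 1) := by
    have h9 : (Q : ℝ) ^ 2 ≤ (K / L ^ (A + 1)) ^ 2 := pow_le_pow_left₀ (Nat.cast_nonneg _) hQ2 2
    calc 2 * (Q : ℝ) ^ 2 ≤ 2 * (K / L ^ (A + 1)) ^ 2 := by gcongr
      _ = 2 * (K : ℝ) ^ 2 / L ^ ((A + 1) * 2) := by rw [div_pow, ← pow_mul]; ring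
      _ ≤ _ := by
          apply div_le_div_of_nonneg_left (by positivity) (by positivity)
          exact pow_le_pow_right₀ hL1 (by omega)
  have h10 : 54 * (K : ℝ) ^ 2 / L ^ (A + 1) ≤ (K : ℝ) ^ 2 / L ^ A := by
    rw [div_le_div_iff₀ (by positivity) hLA, pow_succ]
    have : 54 * (K:ℝ) ^ 2 * L ^ A ≤ L * ((K:ℝ) ^ 2 * L ^ A) := by
      have : (0:ℝ) ≤ (K:ℝ) ^ 2 * L ^ A := by positivity
      nlinarith
    calc 54 * (K:ℝ) ^ 2 * L ^ A ≤ L * ((K:ℝ) ^ 2 * L ^ A) := this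
      _ = _ := by ring
  have h11 : 2 * ((K : ℝ) ^ 2 / L ^ (A + 1)) + 2 * (24 * (K : ℝ) ^ 2 / L ^ (A + 1) +
      2 * (K : ℝ) ^ 2 / L ^ (A + 1)) = 54 * (K : ℝ) ^ 2 / L ^ (A + 1) := by ring
  calc _ ≤ _ := h3
    _ ≤ 2 * ((K : ℝ) ^ 2 / L ^ (A + 1)) + 2 * (24 * (K : ℝ) ^ 2 / L ^ (A + 1) +
      2 * (K : ℝ) ^ 2 / L ^ (A + 1)) := by
        have h12 := h1.trans h4
        have h13 := h2.trans (add_le_add h5 h8)
        linarith
    _ = 54 * (K : ℝ) ^ 2 / L ^ (A + 1) := h11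
    _ ≤ _ := h10

/-- double counting -/
lemma dc (S Bt : Finset ℕ) (u : ℕ → ℕ) (D R : ℕ) (c : ℝ)
    (h1 : ∀ j ∈ S, R ≤ (Bt.filter (fun t => u j ≤ t ∧ t ≤ u j + D)).card)
    (h2 : ∀ t ∈ Bt, ((S.filter (fun j => u j ≤ t ∧ t ≤ u j + D)).card : ℝ) ≤ c) :
    (S.card : ℝ) * R ≤ Bt.card * c := by
  have e := Finset.sum_card_bipartiteAbove_eq_sum_card_bipartiteBelow (s := S) (t := Bt)
    (fun j t => u j ≤ t ∧ t ≤ u j + D)
  unfold bipartiteAbove bipartiteBelow at e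
  have h3 : S.card * R ≤ ∑ j ∈ S, (Bt.filter (fun t => u j ≤ t ∧ t ≤ u j + D)).card := by
    calc S.card * R = ∑ _j ∈ S, R := by rw [sum_const, smul_eq_mul]
      _ ≤ _ := sum_le_sum h1
  rw [e] at h3
  calc (S.card : ℝ) * R = ((S.card * R : ℕ) : ℝ) := by push_cast; ring
    _ ≤ ((∑ t ∈ Bt, (S.filter (fun j => u j ≤ t ∧ t ≤ u j + D)).card : ℕ) : ℝ) := by exact_mod_cast h3
    _ = ∑ t ∈ Bt, ((S.filter (fun j => u j ≤ t ∧ t ≤ u j + D)).card : ℝ) := by push_cast; rfl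
    _ ≤ ∑ _t ∈ Bt, c := sum_le_sum h2
    _ = Bt.card * c := by rw [sum_const, nsmul_eq_mul]

open Classical in
/-- the number of bad positions -/
lemma bad_count (X1 T0 : ℕ) (P : ℕ → Prop) (Bd : ℕ → (Fin 1 → ℕ) → Prop)
    (hP : ∀ x h, P (x + h 0) → Bd x h) :
    ((Icc T0 X1).filter P).card * (T0 - 1) ≤
      ((Icc 1 X1 ×ˢ Fintype.piFinset (fun _ : Fin 1 => Icc 1 X1)).filter (fun v => Bd v.1 v.2)).card := by
  have h1 : ((Icc T0 X1).filter P).card * (T0 - 1) ≤
      (((Icc T0 X1).filter P).sigma (fun t => Icc 1 (t - 1))).card := by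
    rw [card_sigma]
    calc ((Icc T0 X1).filter P).card * (T0 - 1) = ∑ _t ∈ (Icc T0 X1).filter P, (T0 - 1) := by
          rw [sum_const, smul_eq_mul]
      _ ≤ _ := by
          apply sum_le_sum
          intro t ht
          rw [mem_filter, mem_Icc] at ht
          rw [Nat.card_Icc]
          omega
  refine h1.trans ?_
  apply card_le_card_of_injOn (fun p => (p.2, fun _ => p.1 - p.2))
  · rintro ⟨t, x⟩ hp
    simp only [coe_sigma, Set.mem_sigma_iff, mem_coe, mem_filter, mem_Icc] at hp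
    obtain ⟨⟨⟨h2, h3⟩, h4⟩, h5, h6⟩ := hp
    simp only [coe_filter, mem_product, mem_Icc, Fintype.mem_piFinset, Set.mem_ofPred_eq]
    refine ⟨⟨⟨by omega, by omega⟩, fun _ => ⟨by omega, by omega⟩⟩, ?_⟩
    apply hP
    have : x + (t - x) = t := by omega
    rw [this]; exact h4
  · rintro ⟨t, x⟩ hp ⟨t', x'⟩ hp' he
    simp only [coe_sigma, Set.mem_sigma_iff, mem_coe, mem_filter, mem_Icc] at hp hp'
    simp only [Prod.mk.injEq] at he
    obtain ⟨e1, e2⟩ := he
    have e3 : t - x = t' - x' := congrFun e2 0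
    subst e1
    have : t = t' := by omega
    subst this
    rfl

/-- the number of windows that begin below `T` -/
lemma low_count (C X K M T : ℕ) (u : ℕ → ℕ) (hK : 1 ≤ K) (hu : SpW C X K M u) :
    (((Icc 1 M).filter (fun j => u j < T)).card : ℝ) ≤ ((T : ℝ) / K + 1) * (Real.log X) ^ C := by
  have h1 : (Icc 1 M).filter (fun j => u j < T) ⊆ (range (T / K + 1)).biUnion
      (fun i => (Icc 1 M).filter (fun j => K * i ≤ u j ∧ u j < K * i + K)) := by
    intro j hj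
    rw [mem_filter] at hj
    rw [mem_biUnion]
    refine ⟨u j / K, ?_, ?_⟩
    · rw [mem_range]
      have : u j / K ≤ T / K := Nat.div_le_div_right hj.2.le
      omega
    · rw [mem_filter]
      have e2 := Nat.div_add_mod (u j) K
      have e4 : u j % K < K := Nat.mod_lt _ hK
      exact ⟨hj.1, by omega, by omega⟩
  have h2 : (((Icc 1 M).filter (fun j => u j < T)).card : ℝ) ≤ ∑ i ∈ range (T / K + 1),
      (((Icc 1 M).filter (fun j => K * i ≤ u j ∧ u j < K * i + K)).card : ℝ) := by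
    exact_mod_cast (card_le_card h1).trans card_biUnion_le
  refine h2.trans ?_
  calc _ ≤ ∑ _i ∈ range (T / K + 1), (Real.log X) ^ C := sum_le_sum fun i _ => hu.2.1 (K * i)
    _ = (((T / K : ℕ) : ℝ) + 1) * (Real.log X) ^ C := by
        rw [sum_const, card_range, nsmul_eq_mul]; push_cast; ring
    _ ≤ _ := by
        have h3 : (((T / K : ℕ) : ℝ)) ≤ (T : ℝ) / K := Nat.cast_div_le
        have h4 : 0 ≤ (Real.log (X : ℝ)) ^ C := pow_nonneg (Real.log_natCast_nonneg X) C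
        exact mul_le_mul_of_nonneg_right (by linarith) h4

/-- the windows that contain a given point near their beginning -/
lemma near_count (C X K M D t : ℕ) (u : ℕ → ℕ) (S : Finset ℕ) (hS : S ⊆ Icc 1 M) (hDK : D < K)
    (hu : SpW C X K M u) :
    ((S.filter (fun j => u j ≤ t ∧ t ≤ u j + D)).card : ℝ) ≤ (Real.log X) ^ C := by
  refine le_trans ?_ (hu.2.1 (t - D))
  have : S.filter (fun j => u j ≤ t ∧ t ≤ u j + D) ⊆
      (Icc 1 M).filter (fun j => t - D ≤ u j ∧ u j < t - D + K) := by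
    intro j hj
    rw [mem_filter] at hj ⊢
    exact ⟨hS hj.1, by omega, by omega⟩
  exact_mod_cast card_le_card this

open Classical in
/-- the whole count for a fixed large `X` -/
lemma count_main (A C B1 X K M : ℕ) (u : ℕ → ℕ) (hL : 2048 ≤ Real.log (X : ℝ))
    (hX : 64 * (Real.log X) ^ (2 * A + 2 * C + 4) ≤ X) (hK : 1 ≤ K) (hKX : K ≤ X)
    (hu : SpW C X K M u)
    (hcnt : (((Icc 1 (2 * X) ×ˢ Fintype.piFinset (fun _ : Fin 1 => Icc 1 (2 * X))).filter
      (fun v => ¬ Good14 (5 * A + 5 * C + 9) B1 (2 * X) K v.1 v.2)).card : ℝ) ≤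
      ((2 * X : ℕ) : ℝ) ^ (1 + 1) / (Real.log (2 * X : ℕ)) ^ (5 * A + 5 * C + 9)) :
    (((Icc 1 M).filter (fun j => ¬ Good28 A (4 * B1 + A + 2) X K (u j))).card : ℝ) ≤
      M / (Real.log X) ^ A := by
  set L := Real.log (X : ℝ) with hLdef
  have hL0 : 0 < L := by linarith
  have hL1 : 1 ≤ L := by linarith
  have hX0 : 0 < X := by
    rcases Nat.eq_zero_or_pos X with h | h
    · subst h; simp at hLdef; linarith
    · exact h
  have hXr : (0:ℝ) < X := by exact_mod_cast hX0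
  have hKr : (0:ℝ) < K := by exact_mod_cast hK
  have hKr1 : (1:ℝ) ≤ K := by exact_mod_cast hK
  have hKXr : (K:ℝ) ≤ X := by exact_mod_cast hKX
  have hMr : (0:ℝ) ≤ M := Nat.cast_nonneg M
  have hXM : (X:ℝ) ≤ M * K * L ^ C := hu.2.2
  set A1 := 5 * A + 5 * C + 9 with hA1
  have hLL : L ≤ Real.log ((2 * X : ℕ) : ℝ) := by
    apply Real.log_le_log hXr
    exact_mod_cast (by omega : X ≤ 2 * X)
  have hcnt2 : (((Icc 1 (2 * X) ×ˢ Fintype.piFinset (fun _ : Fin 1 => Icc 1 (2 * X))).filter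
      (fun v => ¬ Good14 A1 B1 (2 * X) K v.1 v.2)).card : ℝ) ≤ 4 * (X : ℝ) ^ 2 / L ^ A1 := by
    refine hcnt.trans ?_
    have h1 : ((2 * X : ℕ) : ℝ) ^ (1 + 1) = 4 * (X : ℝ) ^ 2 := by push_cast; ring
    rw [h1]
    apply div_le_div_of_nonneg_left (by positivity) (by positivity)
    exact pow_le_pow_left₀ hL0.le hLL _
  set D : ℕ := ⌊(K : ℝ) / L ^ (A + 4)⌋₊ with hDdef
  have hDle : (D : ℝ) ≤ K / L ^ (A + 4) := Nat.floor_le (by positivity)
  have hDlt : (K : ℝ) / L ^ (A + 4) < D + 1 := Nat.lt_floor_add_one _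
  have hDK : D < K := by
    have h1 : (K : ℝ) / L ^ (A + 4) < K := by
      rw [div_lt_iff₀ (by positivity)]
      have : 1 < L ^ (A + 4) := one_lt_pow₀ (by linarith) (by omega)
      nlinarith
    have : (D : ℝ) < K := lt_of_le_of_lt hDle h1
    exact_mod_cast this
  set S := (Icc 1 M).filter (fun j => ¬ Good28 A (4 * B1 + A + 2) X K (u j)) with hS
  have hSM : S ⊆ Icc 1 M := filter_subset _ _
  have hbad : ∀ j ∈ S, ∀ t, u j ≤ t → t ≤ u j + D → ¬ Good28 A1 B1 (2 * X) K t := by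
    intro j hj t h1 h2 hG
    rw [hS, mem_filter] at hj
    exact hj.2 (transfer A A1 B1 X K t (u j) D (by omega) hL hKX hDle h1 h2 hG)
  have hbt : ∀ T0 : ℕ, ((((Icc T0 (2 * X)).filter (fun t => ¬ Good28 A1 B1 (2 * X) K t)).card : ℝ)) *
      ((T0 - 1 : ℕ) : ℝ) ≤ 4 * (X : ℝ) ^ 2 / L ^ A1 := by
    intro T0
    have h1 := bad_count (2 * X) T0 (fun t => ¬ Good28 A1 B1 (2 * X) K t)
      (fun x h => ¬ Good14 A1 B1 (2 * X) K x h) (fun x h h1 h2 => h1 (good_of_pair _ _ _ _ _ _ h2))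
    refine le_trans ?_ hcnt2
    have h2 : ((Icc T0 (2 * X)).filter (fun t => ¬ Good28 A1 B1 (2 * X) K t)).card * (T0 - 1) ≤
      ((Icc 1 (2 * X) ×ˢ Fintype.piFinset (fun _ : Fin 1 => Icc 1 (2 * X))).filter
        (fun v => ¬ Good14 A1 B1 (2 * X) K v.1 v.2)).card := by convert h1
    rw [← Nat.cast_mul]
    exact Nat.cast_le.2 h2
  -- the two cases
  rcases le_or_gt ((X : ℝ)) (4 * L ^ (A + 2 * C) * K) with hcase | hcase
  · -- long windows
    set T0 := D / 2 + 1 with hT0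
    set Bt := (Icc T0 (2 * X)).filter (fun t => ¬ Good28 A1 B1 (2 * X) K t) with hBt
    have h1 := dc S Bt u D (D - D / 2) (L ^ C) (fun j hj => ?_)
      (fun t _ => near_count C X K M D t u S hSM hDK hu)
    · have h2 := hbt T0
      have hT1 : T0 - 1 = D / 2 := by omega
      rw [hT1] at h2
      -- size of `D`
      set y := (K : ℝ) / L ^ (A + 4) with hy
      have hy16 : 16 ≤ y := by
        rw [hy, le_div_iff₀ (by positivity)]
        have h3 : 64 * L ^ (2 * A + 2 * C + 4) ≤ 4 * L ^ (A + 2 * C) * K := hX.trans hcase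
        have h4 : L ^ (2 * A + 2 * C + 4) = L ^ (A + 2 * C) * L ^ (A + 4) := by
          rw [← pow_add]; congr 1; ring
        rw [h4] at h3
        have h5 : (0:ℝ) < L ^ (A + 2 * C) := by positivity
        have h6 : L ^ (A + 2 * C) * (16 * L ^ (A + 4)) ≤ L ^ (A + 2 * C) * K := by linarith
        exact le_of_mul_le_mul_left h6 h5
      have hR : (D : ℝ) / 2 ≤ ((D - D / 2 : ℕ) : ℝ) := by
        have : D ≤ 2 * (D - D / 2) := by omega
        have : (D : ℝ) ≤ 2 * ((D - D / 2 : ℕ) : ℝ) := by exact_mod_cast this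
        linarith
      have hH : ((D : ℝ) - 1) / 2 ≤ ((D / 2 : ℕ) : ℝ) := by
        have : D ≤ 2 * (D / 2) + 1 := by omega
        have : (D : ℝ) ≤ 2 * ((D / 2 : ℕ) : ℝ) + 1 := by exact_mod_cast this
        linarith
      have hprod : y ^ 2 / 8 ≤ ((D - D / 2 : ℕ) : ℝ) * ((D / 2 : ℕ) : ℝ) := by
        have h3 : (y - 1) / 2 ≤ ((D - D / 2 : ℕ) : ℝ) := by linarith
        have h4 : (y - 2) / 2 ≤ ((D / 2 : ℕ) : ℝ) := by linarith
        have h5 : (y - 1) / 2 * ((y - 2) / 2) ≤ ((D - D / 2 : ℕ) : ℝ) * ((D / 2 : ℕ) : ℝ) :=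
          mul_le_mul h3 h4 (by linarith) (by positivity)
        nlinarith
      have hS0 : (0:ℝ) ≤ S.card := Nat.cast_nonneg _
      have h3 : (S.card : ℝ) * (y ^ 2 / 8) ≤ 4 * (X : ℝ) ^ 2 / L ^ A1 * L ^ C := by
        calc (S.card : ℝ) * (y ^ 2 / 8) ≤ (S.card : ℝ) *
              (((D - D / 2 : ℕ) : ℝ) * ((D / 2 : ℕ) : ℝ)) := mul_le_mul_of_nonneg_left hprod hS0
          _ = (S.card : ℝ) * ((D - D / 2 : ℕ) : ℝ) * ((D / 2 : ℕ) : ℝ) := by ring
          _ ≤ (Bt.card : ℝ) * L ^ C * ((D / 2 : ℕ) : ℝ) :=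
              mul_le_mul_of_nonneg_right h1 (Nat.cast_nonneg _)
          _ = (Bt.card : ℝ) * ((D / 2 : ℕ) : ℝ) * L ^ C := by ring
          _ ≤ _ := mul_le_mul_of_nonneg_right h2 (by positivity)
      have hM1 : (1:ℝ) ≤ M := by
        rcases Nat.eq_zero_or_pos M with h | h
        · rw [h, Nat.cast_zero, zero_mul, zero_mul] at hXM
          linarith
        · exact_mod_cast h
      have h4 : (X : ℝ) ^ 2 ≤ (4 * L ^ (A + 2 * C) * K) ^ 2 := pow_le_pow_left₀ hXr.le hcase 2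
      have h5 : y ^ 2 = K ^ 2 / L ^ (2 * A + 8) := by
        rw [hy, div_pow, ← pow_mul]; congr 2; ring
      have h6 : (S.card : ℝ) * L ^ A ≤ 1 := by
        have h7 : (S.card : ℝ) * (K ^ 2 / L ^ (2 * A + 8)) ≤
            512 * L ^ (2 * A + 5 * C) * K ^ 2 / L ^ A1 := by
          rw [← h5]
          calc (S.card : ℝ) * y ^ 2 = 8 * ((S.card : ℝ) * (y ^ 2 / 8)) := by ring
            _ ≤ 8 * (4 * (X : ℝ) ^ 2 / L ^ A1 * L ^ C) := by linarith
            _ ≤ 8 * (4 * (4 * L ^ (A + 2 * C) * K) ^ 2 / L ^ A1 * L ^ C) := by gcongr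
            _ = 512 * L ^ (2 * A + 5 * C) * K ^ 2 / L ^ A1 := by
                have : L ^ (2 * A + 5 * C) = (L ^ (A + 2 * C)) ^ 2 * L ^ C := by
                  rw [← pow_mul, ← pow_add]; congr 1; ring
                rw [this]; ring
        have h8 : L ^ A1 = L ^ (2 * A + 5 * C) * L ^ (2 * A + 8) * L ^ A * L := by
          rw [hA1, ← pow_add, ← pow_add, ← pow_succ]; congr 1; ring
        rw [h8, mul_div_assoc', div_le_div_iff₀ (by positivity) (by positivity)] at h7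
        have h9 : (0:ℝ) < K ^ 2 * L ^ (2 * A + 5 * C) * L ^ (2 * A + 8) := by positivity
        have h10 : ((S.card : ℝ) * L ^ A * L) * (K ^ 2 * L ^ (2 * A + 5 * C) * L ^ (2 * A + 8)) ≤
            512 * (K ^ 2 * L ^ (2 * A + 5 * C) * L ^ (2 * A + 8)) := by
          calc _ = (S.card : ℝ) * K ^ 2 * (L ^ (2 * A + 5 * C) * L ^ (2 * A + 8) * L ^ A * L) := by ring
            _ ≤ _ := h7
            _ = _ := by ring
        have h11 := le_of_mul_le_mul_right h10 h9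
        have h12 : (0:ℝ) ≤ (S.card : ℝ) * L ^ A := by positivity
        nlinarith
      rw [le_div_iff₀ (by positivity)]
      linarith
    · -- the positions in the window
      have h3 : Icc (max (u j) T0) (u j + D) ⊆ Bt.filter (fun t => u j ≤ t ∧ t ≤ u j + D) := by
        intro t ht
        rw [mem_Icc] at ht
        have h4 : u j ≤ t := (le_max_left _ _).trans ht.1
        have h5 : T0 ≤ t := (le_max_right _ _).trans ht.1
        have h6 := hu.1 j (hSM hj)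
        rw [mem_filter, hBt, mem_filter, mem_Icc]
        exact ⟨⟨⟨h5, by omega⟩, hbad j hj t h4 ht.2⟩, h4, ht.2⟩
      refine le_trans ?_ (card_le_card h3)
      rw [Nat.card_Icc]
      rcases le_total (u j) T0 with h | h
      · rw [max_eq_right h]; omega
      · rw [max_eq_left h]; omega
  · -- short windows
    set y := (X : ℝ) / (4 * L ^ (A + 2 * C)) with hy
    set T0 : ℕ := ⌊y⌋₊ with hT0
    have hy0 : 0 ≤ y := by positivity
    have hTle : (T0 : ℝ) ≤ y := Nat.floor_le hy0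
    have hTlt : y < T0 + 1 := Nat.lt_floor_add_one _
    have hy16 : 16 ≤ y := by
      rw [hy, le_div_iff₀ (by positivity)]
      have h4 : L ^ (A + 2 * C) ≤ L ^ (2 * A + 2 * C + 4) := pow_le_pow_right₀ hL1 (by omega)
      linarith
    set Bt := (Icc T0 (2 * X)).filter (fun t => ¬ Good28 A1 B1 (2 * X) K t) with hBt
    set Sb := S.filter (fun j => T0 ≤ u j) with hSb
    set Sa := (Icc 1 M).filter (fun j => u j < T0) with hSa
    have hsplit : S.card ≤ Sa.card + Sb.card := by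
      have : S ⊆ Sa ∪ Sb := by
        intro j hj
        rw [mem_union, hSa, hSb, mem_filter, mem_filter]
        rcases lt_or_ge (u j) T0 with h | h
        · exact Or.inl ⟨hSM hj, h⟩
        · exact Or.inr ⟨hj, h⟩
      exact (card_le_card this).trans (card_union_le _ _)
    have hSa1 : (Sa.card : ℝ) ≤ M / (2 * L ^ A) := by
      have h1 := low_count C X K M T0 u hK hu
      refine h1.trans ?_
      have h2 : 1 ≤ y / K := by
        rw [hy, le_div_iff₀ hKr, one_mul, le_div_iff₀ (by positivity)]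
        linarith
      have h3 : (T0 : ℝ) / K ≤ y / K := by gcongr
      calc ((T0 : ℝ) / K + 1) * L ^ C ≤ (2 * (y / K)) * L ^ C := by
            apply mul_le_mul_of_nonneg_right _ (by positivity)
            linarith
        _ = X / (2 * K * L ^ (A + C)) := by
            rw [hy]
            have : L ^ (A + 2 * C) = L ^ (A + C) * L ^ C := by rw [← pow_add]; congr 1; ring
            rw [this]
            field_simp
            ring
        _ ≤ (M * K * L ^ C) / (2 * K * L ^ (A + C)) := by gcongr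
        _ = M / (2 * L ^ A) := by
            rw [pow_add]
            field_simp
    have h1 := dc Sb Bt u D (D + 1) (L ^ C) (fun j hj => ?_)
      (fun t _ => near_count C X K M D t u Sb ((filter_subset _ _).trans hSM) hDK hu)
    · have h2 := hbt T0
      have hT1 : y / 2 ≤ ((T0 - 1 : ℕ) : ℝ) := by
        have h3 : T0 ≤ (T0 - 1) + 1 := by omega
        have h4 : (T0 : ℝ) ≤ ((T0 - 1 : ℕ) : ℝ) + 1 := by exact_mod_cast h3
        linarith
      have hSb0 : (0:ℝ) ≤ Sb.card := Nat.cast_nonneg _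
      have hBt0 : (0:ℝ) ≤ Bt.card := Nat.cast_nonneg _
      have h3 : (Sb.card : ℝ) * (K / L ^ (A + 4)) * (y / 2) ≤ 4 * (X : ℝ) ^ 2 / L ^ A1 * L ^ C := by
        calc (Sb.card : ℝ) * (K / L ^ (A + 4)) * (y / 2) ≤
              (Sb.card : ℝ) * ((D + 1 : ℕ) : ℝ) * (y / 2) := by
              push_cast
              gcongr
          _ ≤ (Bt.card : ℝ) * L ^ C * (y / 2) := mul_le_mul_of_nonneg_right h1 (by positivity)
          _ ≤ (Bt.card : ℝ) * L ^ C * ((T0 - 1 : ℕ) : ℝ) :=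
              mul_le_mul_of_nonneg_left hT1 (by positivity)
          _ = (Bt.card : ℝ) * ((T0 - 1 : ℕ) : ℝ) * L ^ C := by ring
          _ ≤ _ := mul_le_mul_of_nonneg_right h2 (by positivity)
      have h4 : (Sb.card : ℝ) * (2 * L ^ A) ≤ M := by
        have h5 : (Sb.card : ℝ) * K * L ^ A1 ≤ 32 * X * L ^ (2 * A + 3 * C + 4) := by
          rw [hy] at h3
          have h6 : (Sb.card : ℝ) * (K / L ^ (A + 4)) * (X / (4 * L ^ (A + 2 * C)) / 2) =
              (Sb.card : ℝ) * K * X / (8 * (L ^ (A + 4) * L ^ (A + 2 * C))) := by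
            field_simp
            ring
          have h7 : 4 * (X : ℝ) ^ 2 / L ^ A1 * L ^ C = 4 * (X : ℝ) ^ 2 * L ^ C / L ^ A1 := by ring
          rw [h6, h7, div_le_div_iff₀ (by positivity) (by positivity)] at h3
          have h8 : ((Sb.card : ℝ) * K * L ^ A1) * X ≤ (32 * X * L ^ (2 * A + 3 * C + 4)) * X := by
            calc _ = (Sb.card : ℝ) * K * X * L ^ A1 := by ring
              _ ≤ _ := h3
              _ = (32 * X * (L ^ C * L ^ (A + 4) * L ^ (A + 2 * C))) * X := by ring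
              _ = _ := by
                  have : L ^ C * L ^ (A + 4) * L ^ (A + 2 * C) = L ^ (2 * A + 3 * C + 4) := by
                    rw [← pow_add, ← pow_add]; congr 1; ring
                  rw [this]
          exact le_of_mul_le_mul_right h8 hXr
        have h9 : (Sb.card : ℝ) * K * L ^ A1 ≤ 32 * (M * K * L ^ C) * L ^ (2 * A + 3 * C + 4) := by
          refine h5.trans ?_
          gcongr
        have h10 : L ^ A1 = L ^ A * L ^ (2 * A + C) * (L ^ (2 * A + 4 * C + 4) * L ^ 5) := by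
          rw [hA1, ← pow_add, ← pow_add, ← pow_add]; congr 1; ring
        have h11 : L ^ C * L ^ (2 * A + 3 * C + 4) = L ^ (2 * A + 4 * C + 4) := by
          rw [← pow_add]; congr 1; ring
        have h12 : ((Sb.card : ℝ) * (2 * L ^ A)) * (L ^ (2 * A + C) * L ^ 5) *
            (K * L ^ (2 * A + 4 * C + 4)) ≤ (64 * M) * (K * L ^ (2 * A + 4 * C + 4)) := by
          calc _ = 2 * ((Sb.card : ℝ) * K * (L ^ A * L ^ (2 * A + C) * (L ^ (2 * A + 4 * C + 4) * L ^ 5))) := by ring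
            _ ≤ 2 * (32 * (M * K * L ^ C) * L ^ (2 * A + 3 * C + 4)) := by
                rw [← h10]; linarith
            _ = 64 * M * (K * (L ^ C * L ^ (2 * A + 3 * C + 4))) := by ring
            _ = _ := by rw [h11]
        have h13 := le_of_mul_le_mul_right h12 (by positivity)
        have h14 : 64 ≤ L ^ (2 * A + C) * L ^ 5 := by
          have h15 : 1 ≤ L ^ (2 * A + C) := one_le_pow₀ hL1
          have h16 : L ≤ L ^ 5 := le_self_pow₀ hL1 (by norm_num)
          nlinarith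
        have h17 : (0:ℝ) ≤ (Sb.card : ℝ) * (2 * L ^ A) := by positivity
        nlinarith
      have h5 : (Sb.card : ℝ) ≤ M / (2 * L ^ A) := by
        rw [le_div_iff₀ (by positivity)]; exact h4
      have h6 : (S.card : ℝ) ≤ Sa.card + Sb.card := by exact_mod_cast hsplit
      calc (S.card : ℝ) ≤ Sa.card + Sb.card := h6
        _ ≤ M / (2 * L ^ A) + M / (2 * L ^ A) := add_le_add hSa1 h5
        _ = M / L ^ A := by field_simp; ring
    · rw [hSb, mem_filter] at hj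
      have h3 : Icc (u j) (u j + D) ⊆ Bt.filter (fun t => u j ≤ t ∧ t ≤ u j + D) := by
        intro t ht
        rw [mem_Icc] at ht
        have h6 := hu.1 j (hSM hj.1)
        rw [mem_filter, hBt, mem_filter, mem_Icc]
        exact ⟨⟨⟨by omega, by omega⟩, hbad j hj.1 t ht.1 ht.2⟩, ht.1, ht.2⟩
      refine le_trans ?_ (card_le_card h3)
      rw [Nat.card_Icc]
      omega

lemma ev_pow (θ : ℝ) (e : ℕ) (he : 1 ≤ e) : ∃ X₀ : ℕ, ∀ X : ℕ, X₀ ≤ X →
    ((2 * X : ℕ) : ℝ) ^ (θ + 1 / (2 * e : ℕ) : ℝ) ≤ (X : ℝ) ^ (θ + 1 / e : ℝ) := by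
  have he0 : (0:ℝ) < e := by exact_mod_cast he
  have h1 : Filter.Tendsto (fun X : ℕ => (X : ℝ) ^ (1 / (2 * e : ℝ))) Filter.atTop Filter.atTop :=
    (tendsto_rpow_atTop (by positivity)).comp (tendsto_natCast_atTop_atTop (R := ℝ))
  obtain ⟨X₀, h0⟩ := Filter.eventually_atTop.1 ((Filter.eventually_ge_atTop 1).and
    (h1.eventually_ge_atTop ((2:ℝ) ^ (θ + 1 / (2 * e : ℕ) : ℝ))))
  refine ⟨X₀, fun X hX => ?_⟩
  obtain ⟨h2, h3⟩ := h0 X hX
  have hX0 : (0:ℝ) < X := by exact_mod_cast h2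
  push_cast at h3 ⊢
  rw [Real.mul_rpow (by norm_num) hX0.le]
  have h4 : (X : ℝ) ^ (θ + 1 / (e : ℝ)) = (X : ℝ) ^ (1 / (2 * e : ℝ)) * (X : ℝ) ^ (θ + 1 / (2 * (e:ℝ))) := by
    rw [← Real.rpow_add hX0]
    congr 1
    field_simp
    ring
  rw [h4]
  exact mul_le_mul_of_nonneg_right h3 (by positivity)

lemma ev_log (n : ℕ) : ∃ X₀ : ℕ, ∀ X : ℕ, X₀ ≤ X → 2048 ≤ Real.log (X : ℝ) ∧
    64 * (Real.log (X : ℝ)) ^ n ≤ X := by
  have hlim : Filter.Tendsto (fun N : ℕ => Real.log (N : ℝ)) Filter.atTop Filter.atTop :=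
    Real.tendsto_log_atTop.comp (tendsto_natCast_atTop_atTop (R := ℝ))
  have h1 := hlim.eventually_ge_atTop 2048
  have h2 : ∀ᶠ X : ℕ in Filter.atTop, 64 * (Real.log (X : ℝ)) ^ n ≤ X := by
    have h3 : (fun x : ℝ => (Real.log x) ^ n) =o[Filter.atTop] (fun x : ℝ => x) :=
      Real.isLittleO_pow_log_id_atTop
    have h4 := (h3.comp_tendsto (tendsto_natCast_atTop_atTop (R := ℝ))).bound (c := 1 / 64) (by norm_num)
    filter_upwards [h4, Filter.eventually_ge_atTop 1] with X hX hX1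
    simp only [Function.comp] at hX
    rw [Real.norm_of_nonneg (pow_nonneg (Real.log_natCast_nonneg X) n),
      Real.norm_of_nonneg (Nat.cast_nonneg X)] at hX
    linarith
  obtain ⟨X₀, h0⟩ := Filter.eventually_atTop.1 (h1.and h2)
  exact ⟨X₀, fun X hX => h0 X hX⟩

theorem main : ∀ θ : ℝ, 0 ≤ θ → S_R14 θ → S_R28 θ := by
  intro θ hθ h14 e A C he
  obtain ⟨B1, X1, hR⟩ := h14 1 (2 * e) (5 * A + 5 * C + 9) le_rfl (by omega)
  obtain ⟨X2, hX2⟩ := ev_pow θ e he
  obtain ⟨X3, hX3⟩ := ev_log (2 * A + 2 * C + 4)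
  refine ⟨4 * B1 + A + 2, X1 + X2 + X3 + 1, fun X hX K hK hKX M u hu => ?_⟩
  obtain ⟨hL, hbig⟩ := hX3 X (by omega)
  have hX0 : (0:ℝ) < X := by exact_mod_cast (by omega : 0 < X)
  have hK1 : 1 ≤ K := by
    have h1 : (0:ℝ) < (X : ℝ) ^ (θ + 1 / e : ℝ) := Real.rpow_pos_of_pos hX0 _
    have h2 : (0:ℝ) < K := lt_of_lt_of_le h1 hK
    exact_mod_cast h2
  have h1 := hR (2 * X) (by omega) K ((hX2 X (by omega)).trans hK) (by omega)
  exact count_main A C B1 X K M u hL hbig hK1 hKX hu h1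

end Pool.Agent.helper24_UT.R28
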