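import Pool.Agent.helper24_UT.Ch13
import Pool.Agent.helper24_UT.R28
import Pool.Agent.helper24_UT.Opp

/-!
# Project UT (helper24): assembly, part 16
-/

set_option autoImplicit false

namespace Pool.Agent.helper24_UT.Ch

theorem t_R28 : S_R28 (1 / 3) := R28.main (1 / 3) (by norm_num) t_R14
theorem t_OPP : S_OPP := Opp.main t_R28

end Pool.Agent.helper24_UT.Ch
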