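import Pool.Agent.helper24_UT.Stm22
import Pool.Agent.helper24_UT.Stm18

/-!
# Project UT (helper24), part 23: the Elliott-Halberstam sum on average over short windows of residues, all moduli. Statements.
-/

set_option autoImplicit false

namespace Pool.Agent.helper24_UT

open Finset

/-- the number of the primes `p ≤ x` -/
def pi1 (x : ℕ) : ℕ := ((Icc 1 x).filter (fun p => p.Prime)).card

/-- the number of the primes `p ≤ x` with `p ≡ a (mod q)` -/
def piA (x q a : ℕ) : ℕ := ((Icc 1 x).filter (fun p => p.Prime ∧ p ≡ a [MOD q])).card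

open Classical in
/-- (250) the Elliott-Halberstam sum on average over the residues from a short window, all moduli -/
def S_R33 : Prop := ∀ e A : ℕ, 1 ≤ e → ∃ B N₀ : ℕ, ∀ N : ℕ, N₀ ≤ N → ∀ R M Q : ℕ, (N : ℝ) ^ (1 / 3 + 1 / e : ℝ) ≤ R →
  M + R ≤ N → (Q : ℝ) ≤ N * Real.exp (-(B * Real.log (Real.log N) ^ 2)) →
  ∑ a ∈ Ioc M (M + R), ∑ q ∈ (Icc 1 Q).filter (fun q => a.Coprime q),
    |(piA N q a : ℝ) - (pi1 N : ℝ) / Nat.totient q| ≤ (R : ℝ) * N / (Real.log N) ^ A

end Pool.Agent.helper24_UT
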