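/-
UT_R33   (project UT of helper24), proof by helper732.
-/
import Pool.Agent.helper24_UT.Stm23
import Pool.Agent.Results.MP_00e23e_nt.ShortIntervalResidues
import Pool.Agent.H442R2.EHI.Bounds

set_option autoImplicit false

namespace Pool.Agent.helper24_UT.R33

open Finset
open Pool.Agent.helper24_UT

/-- proper prime powers -/
def PPw (n : ℕ) : Prop := IsPrimePow n ∧ ¬ n.Prime

lemma card_pow_window (M R k : ℕ) (hk : 2 ≤ k) :
    ((Icc 1 (M + R)).filter (fun b => M < b ^ k ∧ b ^ k ≤ M + R)).card ≤ Nat.sqrt R + 1 := by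
  set S := (Icc 1 (M + R)).filter (fun b => M < b ^ k ∧ b ^ k ≤ M + R) with hS
  rcases S.eq_empty_or_nonempty with h | h
  · rw [h]; simp
  · have hb0 := S.min'_mem h
    set b0 := S.min' h with hb0d
    have hsub : S ⊆ Icc b0 (b0 + Nat.sqrt R) := by
      intro b hb
      have hle : b0 ≤ b := S.min'_le b hb
      rw [mem_Icc]
      refine ⟨hle, ?_⟩
      have h1 := (mem_filter.1 hb).2.2
      have h2 := (mem_filter.1 hb0).2.1
      obtain ⟨j, rfl⟩ := Nat.exists_eq_add_of_le hle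
      have h3 : b0 ^ k + j ^ k ≤ (b0 + j) ^ k :=
        pow_add_pow_le (Nat.zero_le _) (Nat.zero_le _) (by omega)
      have h4 : j ^ 2 ≤ j ^ k := by
        rcases Nat.eq_zero_or_pos j with h0 | h0
        · subst h0; simp
        · exact Nat.pow_le_pow_right h0 hk
      have h5 : j * j ≤ R := by
        rw [← sq]; omega
      have := Nat.le_sqrt.2 h5
      omega
    calc S.card ≤ (Icc b0 (b0 + Nat.sqrt R)).card := card_le_card hsub
      _ = Nat.sqrt R + 1 := by rw [Nat.card_Icc]; omega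

open Classical in
lemma card_pp_window (M R : ℕ) :
    ((Ioc M (M + R)).filter PPw).card ≤ (Nat.sqrt R + 1) * (Nat.log 2 (M + R) + 1) := by
  have hsub : (Ioc M (M + R)).filter PPw ⊆ (Icc 2 (Nat.log 2 (M + R))).biUnion
      (fun k => ((Icc 1 (M + R)).filter (fun b => M < b ^ k ∧ b ^ k ≤ M + R)).image (fun b => b ^ k)) := by
    intro n hn
    obtain ⟨hn1, hn2, hn3⟩ := mem_filter.1 hn
    rw [mem_Ioc] at hn1
    obtain ⟨p, k, hp, hk, hpk⟩ := (isPrimePow_nat_iff n).1 hn2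
    have hk1 : k ≠ 1 := by
      rintro rfl
      apply hn3
      rw [← hpk, pow_one]
      exact hp
    have hk2 : 2 ≤ k := by omega
    rw [mem_biUnion]
    refine ⟨k, ?_, ?_⟩
    · rw [mem_Icc]
      refine ⟨hk2, ?_⟩
      apply Nat.le_log_of_pow_le (by norm_num)
      calc 2 ^ k ≤ p ^ k := Nat.pow_le_pow_left hp.two_le k
        _ = n := hpk
        _ ≤ M + R := hn1.2
    · rw [mem_image]
      refine ⟨p, ?_, hpk⟩
      rw [mem_filter, mem_Icc]
      have : p ≤ p ^ k := Nat.le_self_pow (by omega) p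
      refine ⟨⟨hp.one_lt.le, by omega⟩, by omega, by omega⟩
  calc ((Ioc M (M + R)).filter PPw).card ≤ _ := card_le_card hsub
    _ ≤ ∑ k ∈ Icc 2 (Nat.log 2 (M + R)), (Nat.sqrt R + 1) := by
        refine card_biUnion_le.trans (sum_le_sum ?_)
        intro k hk
        rw [mem_Icc] at hk
        exact card_image_le.trans (card_pow_window M R k hk.1)
    _ = (Nat.log 2 (M + R) + 1 - 2) * (Nat.sqrt R + 1) := by
        rw [sum_const, Nat.card_Icc, smul_eq_mul]
    _ ≤ (Nat.sqrt R + 1) * (Nat.log 2 (M + R) + 1) := by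
        rw [mul_comm]
        exact Nat.mul_le_mul_left _ (by omega)

/-- divisors in a range of large numbers -/
lemma div_count (n a N : ℕ) (hn : n ≤ N) (ha : a ≤ N) (hne : n ≠ a) (F : Finset ℕ) (T : ℝ) (hT : 0 ≤ T)
    (hF : ∀ q ∈ F, (N : ℝ) ≤ T * q) :
    ((F.filter (fun q => n ≡ a [MOD q])).card : ℝ) ≤ T := by
  set m : ℕ := ((a : ℤ) - n).natAbs with hm
  have hm0 : 0 < m := by
    rw [hm, Int.natAbs_pos]
    intro h
    apply hne
    omega
  have hmN : m ≤ N := by omega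
  have hdv : ∀ q ∈ F.filter (fun q => n ≡ a [MOD q]), q ∣ m := by
    intro q hq
    have h1 := (mem_filter.1 hq).2
    rw [Nat.modEq_iff_dvd] at h1
    exact Int.natCast_dvd.1 h1
  have hcard : (F.filter (fun q => n ≡ a [MOD q])).card ≤ (Icc 1 ⌊T⌋₊).card := by
    apply card_le_card_of_injOn (fun q => m / q)
    · intro q hq
      have hq' : q ∈ F.filter (fun q => n ≡ a [MOD q]) := hq
      have hd := hdv q hq'
      obtain ⟨c, hc⟩ := hd
      have hq0 : 0 < q := by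
        rcases Nat.eq_zero_or_pos q with h0 | h0
        · subst h0; simp at hc; omega
        · exact h0
      have e : m / q = c := by rw [hc, Nat.mul_div_cancel_left _ hq0]
      have hc0 : 0 < c := by
        rcases Nat.eq_zero_or_pos c with h0 | h0
        · subst h0; simp at hc; omega
        · exact h0
      show m / q ∈ (Icc 1 ⌊T⌋₊ : Finset ℕ)
      rw [e, mem_Icc]
      refine ⟨hc0, Nat.le_floor ?_⟩
      have h1 := hF q (mem_filter.1 hq').1
      have h2 : (m : ℝ) ≤ N := by exact_mod_cast hmN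
      have h3 : (m : ℝ) = q * c := by exact_mod_cast hc
      have h4 : (0 : ℝ) < q := by exact_mod_cast hq0
      have h5 : (q : ℝ) * c ≤ q * T := by linarith [mul_comm T (q : ℝ)]
      exact le_of_mul_le_mul_left h5 h4
    · intro q hq q' hq' h
      have h1 := hdv q hq
      have h2 := hdv q' hq'
      simp only at h
      obtain ⟨c, hc⟩ := h1
      obtain ⟨c', hc'⟩ := h2
      have hq0 : 0 < q := by
        rcases Nat.eq_zero_or_pos q with h0 | h0
        · subst h0; simp at hc; omega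
        · exact h0
      have hq0' : 0 < q' := by
        rcases Nat.eq_zero_or_pos q' with h0 | h0
        · subst h0; simp at hc'; omega
        · exact h0
      have e : m / q = c := by rw [hc, Nat.mul_div_cancel_left _ hq0]
      have e' : m / q' = c' := by rw [hc', Nat.mul_div_cancel_left _ hq0']
      rw [e, e'] at h
      subst h
      have hc0 : 0 < c := by
        rcases Nat.eq_zero_or_pos c with h0 | h0
        · subst h0; simp at hc; omega
        · exact h0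
      have : q * c = q' * c := by rw [← hc, ← hc']
      exact Nat.eq_of_mul_eq_mul_right hc0 this
  rw [Nat.card_Icc, Nat.add_sub_cancel] at hcard
  calc ((F.filter (fun q => n ≡ a [MOD q])).card : ℝ) ≤ (⌊T⌋₊ : ℝ) := by exact_mod_cast hcard
    _ ≤ T := Nat.floor_le hT

/-- the weighted count of the prime powers -/
noncomputable def PL (N q a : ℕ) : ℝ :=
  ∑ n ∈ (Icc 2 N).filter (fun n => n ≡ a [MOD q]), ArithmeticFunction.vonMangoldt n / Real.log n

open Classical in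
lemma pl_sub (N q a : ℕ) : |(piA N q a : ℝ) - PL N q a| ≤
    ((((Icc 1 N).filter PPw).filter (fun n => n ≡ a [MOD q])).card : ℝ) := by
  have e1 : (piA N q a : ℝ) = ∑ n ∈ (Icc 2 N).filter (fun n => n ≡ a [MOD q]),
      (if n.Prime then (1 : ℝ) else 0) := by
    rw [← sum_filter, sum_const, nsmul_eq_mul, mul_one, filter_filter]
    unfold piA
    congr 2
    ext n
    simp only [mem_filter, mem_Icc]
    constructor
    · rintro ⟨⟨h1, h2⟩, h3, h4⟩
      exact ⟨⟨h3.two_le, h2⟩, h4, h3⟩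
    · rintro ⟨⟨h1, h2⟩, h3, h4⟩
      exact ⟨⟨by omega, h2⟩, h4, h3⟩
  have e2 : ((((Icc 1 N).filter PPw).filter (fun n => n ≡ a [MOD q])).card : ℝ) =
      ∑ n ∈ (Icc 2 N).filter (fun n => n ≡ a [MOD q]), (if PPw n then (1 : ℝ) else 0) := by
    rw [← sum_filter, sum_const, nsmul_eq_mul, mul_one, filter_filter, filter_filter]
    congr 2
    ext n
    simp only [mem_filter, mem_Icc]
    constructor
    · rintro ⟨⟨h1, h2⟩, h3, h4⟩
      exact ⟨⟨h3.1.two_le, h2⟩, h4, h3⟩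
    · rintro ⟨⟨h1, h2⟩, h3, h4⟩
      exact ⟨⟨by omega, h2⟩, h4, h3⟩
  rw [e1, e2, PL, ← sum_sub_distrib]
  refine (abs_sum_le_sum_abs _ _).trans (sum_le_sum ?_)
  intro n hn
  have hn2 : 2 ≤ n := (mem_Icc.1 (mem_filter.1 hn).1).1
  have hl : 0 < Real.log n := Real.log_pos (by exact_mod_cast hn2)
  by_cases hp : n.Prime
  · have hpp : ¬ PPw n := fun h => h.2 hp
    rw [if_pos hp, if_neg hpp, ArithmeticFunction.vonMangoldt_apply_prime hp, div_self hl.ne', sub_self,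
      abs_zero]
  · rw [if_neg hp, zero_sub, abs_neg, abs_of_nonneg
      (div_nonneg ArithmeticFunction.vonMangoldt_nonneg hl.le)]
    by_cases hpp : IsPrimePow n
    · rw [if_pos (show PPw n from ⟨hpp, hp⟩), div_le_one hl]
      exact ArithmeticFunction.vonMangoldt_le_log
    · have h0 : ArithmeticFunction.vonMangoldt n = 0 := by
        by_contra h
        exact hpp (ArithmeticFunction.vonMangoldt_ne_zero_iff.1 h)
      rw [h0, zero_div]
      split_ifs <;> norm_num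

/-- partial summation -/
lemma abel_id (D : ℕ → ℝ) (N : ℕ) (hN : 2 ≤ N) :
    ∑ n ∈ Icc 2 N, (D n - D (n - 1)) / Real.log n =
      D N / Real.log N - D 1 / Real.log 2 +
        ∑ n ∈ Ico 2 N, D n * (1 / Real.log n - 1 / Real.log ((n + 1 : ℕ) : ℝ)) := by
  induction N, hN using Nat.le_induction with
  | base => simp; ring
  | succ N hN ih =>
    have e1 : Icc 2 (N + 1) = insert (N + 1) (Icc 2 N) := by
      ext n; simp only [mem_Icc, mem_insert]; omega
    have e2 : Ico 2 (N + 1) = insert N (Ico 2 N) := by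
      ext n; simp only [mem_Ico, mem_insert]; omega
    rw [e1, sum_insert (by simp), e2, sum_insert (by simp), ih]
    simp only [Nat.add_sub_cancel]
    ring

lemma abel_tel (N : ℕ) (hN : 2 ≤ N) :
    ∑ n ∈ Ico 2 N, (1 / Real.log n - 1 / Real.log ((n + 1 : ℕ) : ℝ)) =
      1 / Real.log 2 - 1 / Real.log N := by
  induction N, hN using Nat.le_induction with
  | base => simp
  | succ N hN ih =>
    have e2 : Ico 2 (N + 1) = insert N (Ico 2 N) := by
      ext n; simp only [mem_Ico, mem_insert]; omega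
    rw [e2, sum_insert (by simp), ih]
    ring

lemma abel_sum {ι : Type} (I : Finset ι) (D : ι → ℕ → ℝ) (X : ℝ) (N : ℕ) (hN : 2 ≤ N)
    (hX : ∀ m, 1 ≤ m → m ≤ N → ∑ i ∈ I, |D i m| ≤ X) :
    ∑ i ∈ I, |∑ n ∈ Icc 2 N, (D i n - D i (n - 1)) / Real.log n| ≤ 3 * X := by
  have hl2 : 0 < Real.log 2 := Real.log_pos (by norm_num)
  have hlN : 0 < Real.log N := Real.log_pos (by exact_mod_cast (by omega : 1 < N))
  have hw : ∀ n ∈ Ico 2 N, 0 ≤ 1 / Real.log n - 1 / Real.log ((n + 1 : ℕ) : ℝ) := by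
    intro n hn
    have h2 : 2 ≤ n := (mem_Ico.1 hn).1
    have h3 : 0 < Real.log n := Real.log_pos (by exact_mod_cast (by omega : 1 < n))
    have h4 : Real.log n ≤ Real.log ((n + 1 : ℕ) : ℝ) :=
      Real.log_le_log (by exact_mod_cast (by omega : 0 < n)) (by exact_mod_cast (by omega : n ≤ n + 1))
    have := one_div_le_one_div_of_le h3 h4
    linarith
  have h1 : ∀ i ∈ I, |∑ n ∈ Icc 2 N, (D i n - D i (n - 1)) / Real.log n| ≤
      |D i N| / Real.log N + |D i 1| / Real.log 2 +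
        ∑ n ∈ Ico 2 N, |D i n| * (1 / Real.log n - 1 / Real.log ((n + 1 : ℕ) : ℝ)) := by
    intro i _
    rw [abel_id (D i) N hN]
    refine (abs_add_le _ _).trans (add_le_add ?_ ?_)
    · refine (abs_sub _ _).trans (le_of_eq ?_)
      rw [abs_div, abs_div, abs_of_pos hlN, abs_of_pos hl2]
    · refine (abs_sum_le_sum_abs _ _).trans (le_of_eq (sum_congr rfl ?_))
      intro n hn
      rw [abs_mul, abs_of_nonneg (hw n hn)]
  refine (sum_le_sum h1).trans ?_
  rw [sum_add_distrib, sum_add_distrib, ← sum_div, ← sum_div, sum_comm]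
  have hXN := hX N (by omega) le_rfl
  have hX1 := hX 1 le_rfl (by omega)
  have h2 : ∑ n ∈ Ico 2 N, ∑ i ∈ I, |D i n| * (1 / Real.log n - 1 / Real.log ((n + 1 : ℕ) : ℝ)) ≤
      ∑ n ∈ Ico 2 N, X * (1 / Real.log n - 1 / Real.log ((n + 1 : ℕ) : ℝ)) := by
    apply sum_le_sum
    intro n hn
    rw [← sum_mul]
    have h3 := mem_Ico.1 hn
    exact mul_le_mul_of_nonneg_right (hX n (by omega) (by omega)) (hw n hn)
  rw [← mul_sum, abel_tel N hN] at h2
  have h3 : (∑ i ∈ I, |D i N|) / Real.log N ≤ X / Real.log N := div_le_div_of_nonneg_right hXN hlN.le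
  have h4 : (∑ i ∈ I, |D i 1|) / Real.log 2 ≤ X / Real.log 2 := div_le_div_of_nonneg_right hX1 hl2.le
  have hX0 : 0 ≤ X := (sum_nonneg fun i _ => abs_nonneg _).trans hX1
  have h5 : (2 : ℝ) / 3 ≤ Real.log 2 := by have := Real.log_two_gt_d9; linarith
  have h6 : X / Real.log 2 ≤ X * (3 / 2) := by
    rw [div_le_iff₀ hl2]
    nlinarith
  have h7 : X * (1 / Real.log 2 - 1 / Real.log N) = X / Real.log 2 - X / Real.log N := by ring
  linarith

/-- `ψ(m; q, a) - m/φ(q)` -/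
noncomputable def DD (q a m : ℕ) : ℝ :=
  ∑ n ∈ (Icc 1 m).filter (fun n => n ≡ a [MOD q]), ArithmeticFunction.vonMangoldt n -
    (m : ℝ) / Nat.totient q

lemma DD_diff (q a n : ℕ) (hn : 2 ≤ n) : DD q a n - DD q a (n - 1) =
    (if n ≡ a [MOD q] then ArithmeticFunction.vonMangoldt n else 0) - 1 / Nat.totient q := by
  obtain ⟨m, rfl⟩ : ∃ m, n = m + 1 := ⟨n - 1, by omega⟩
  unfold DD
  rw [sum_filter, sum_filter]
  have e1 : Icc 1 (m + 1) = insert (m + 1) (Icc 1 m) := by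
    ext k; simp only [mem_Icc, mem_insert]; omega
  rw [Nat.add_sub_cancel, e1, sum_insert (by simp)]
  push_cast
  ring

/-- the logarithmic integral, as a sum -/
noncomputable def LI (N : ℕ) : ℝ := ∑ n ∈ Icc 2 N, 1 / Real.log n

lemma PL_eq (N q a : ℕ) : PL N q a - LI N / Nat.totient q =
    ∑ n ∈ Icc 2 N, (DD q a n - DD q a (n - 1)) / Real.log n := by
  unfold PL LI
  rw [sum_filter, sum_div, ← sum_sub_distrib]
  apply sum_congr rfl
  intro n hn
  rw [DD_diff q a n (mem_Icc.1 hn).1]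
  split_ifs <;> ring

open Classical in
lemma pp_sum (N M R : ℕ) (hMR : M + R ≤ N) (F : ℕ → Finset ℕ) (T : ℝ) (hT : 0 ≤ T)
    (hF : ∀ a, ∀ q ∈ F a, 1 ≤ q ∧ q ≤ N ∧ (N : ℝ) ≤ T * q) :
    ∑ a ∈ Ioc M (M + R), ∑ q ∈ F a,
      ((((Icc 1 N).filter PPw).filter (fun n => n ≡ a [MOD q])).card : ℝ) ≤
    R * ((Icc 1 N).filter PPw).card * T + N * ((Ioc M (M + R)).filter PPw).card := by
  have h1 : ∀ a ∈ Ioc M (M + R), ∑ q ∈ F a,
      ((((Icc 1 N).filter PPw).filter (fun n => n ≡ a [MOD q])).card : ℝ) ≤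
      ((Icc 1 N).filter PPw).card * T + (if PPw a then (N : ℝ) else 0) := by
    intro a ha
    rw [mem_Ioc] at ha
    have e1 : ∑ q ∈ F a, ((((Icc 1 N).filter PPw).filter (fun n => n ≡ a [MOD q])).card : ℝ) =
        ∑ n ∈ (Icc 1 N).filter PPw, (((F a).filter (fun q => n ≡ a [MOD q])).card : ℝ) := by
      have e2 : ∀ q ∈ F a, ((((Icc 1 N).filter PPw).filter (fun n => n ≡ a [MOD q])).card : ℝ) =
          ∑ n ∈ (Icc 1 N).filter PPw, (if n ≡ a [MOD q] then (1 : ℝ) else 0) := by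
        intro q _
        rw [← sum_filter, sum_const, nsmul_eq_mul, mul_one]
      have e3 : ∀ n ∈ (Icc 1 N).filter PPw, (((F a).filter (fun q => n ≡ a [MOD q])).card : ℝ) =
          ∑ q ∈ F a, (if n ≡ a [MOD q] then (1 : ℝ) else 0) := by
        intro q _
        rw [← sum_filter, sum_const, nsmul_eq_mul, mul_one]
      rw [sum_congr rfl e2, sum_congr rfl e3, sum_comm]
    rw [e1]
    have h2 : ∀ n ∈ (Icc 1 N).filter PPw, (((F a).filter (fun q => n ≡ a [MOD q])).card : ℝ) ≤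
        T + (if n = a then (N : ℝ) else 0) := by
      intro n hn
      have hn' := mem_Icc.1 (mem_filter.1 hn).1
      by_cases hna : n = a
      · rw [if_pos hna]
        have h3 : ((F a).filter (fun q => n ≡ a [MOD q])).card ≤ (Icc 1 N).card := by
          apply card_le_card
          intro q hq
          have := hF a q (mem_filter.1 hq).1
          rw [mem_Icc]
          exact ⟨this.1, this.2.1⟩
        rw [Nat.card_Icc, Nat.add_sub_cancel] at h3
        have h4 : (((F a).filter (fun q => n ≡ a [MOD q])).card : ℝ) ≤ N := by exact_mod_cast h3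
        linarith
      · rw [if_neg hna, add_zero]
        exact div_count n a N hn'.2 (by omega) hna (F a) T hT (fun q hq => (hF a q hq).2.2)
    refine (sum_le_sum h2).trans ?_
    rw [sum_add_distrib, sum_const, nsmul_eq_mul]
    apply add_le_add le_rfl
    rw [sum_ite_eq']
    by_cases hpa : PPw a
    · rw [if_pos hpa]
      split_ifs
      · exact le_rfl
      · positivity
    · rw [if_neg hpa, if_neg]
      intro h
      exact hpa (mem_filter.1 h).2
  refine (sum_le_sum h1).trans (le_of_eq ?_)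
  rw [sum_add_distrib, sum_const, nsmul_eq_mul, Nat.card_Ioc, Nat.add_sub_cancel_left, ← sum_filter,
    sum_const, nsmul_eq_mul]
  ring

lemma phi_sum (N : ℕ) (F : Finset ℕ) (hF : ∀ q ∈ F, 1 ≤ q ∧ q ≤ N) (Φ : ℝ)
    (hΦ : ∑ q ∈ Icc 1 N, 1 / (Nat.totient q : ℝ) ≤ Φ) : ∑ q ∈ F, 1 / (Nat.totient q : ℝ) ≤ Φ := by
  refine le_trans (sum_le_sum_of_subset_of_nonneg ?_ ?_) hΦ
  · intro q hq
    exact mem_Icc.2 (hF q hq)
  · intro q _ _
    positivity

lemma pi1_eq (N a : ℕ) : pi1 N = piA N 1 a := by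
  unfold pi1 piA
  congr 1
  ext p
  simp only [mem_filter, Nat.modEq_one, and_true]

lemma PL_one (N a b : ℕ) : PL N 1 a = PL N 1 b := by
  unfold PL
  congr 1
  ext p
  simp only [mem_filter, Nat.modEq_one, and_true]

open Classical in
lemma large_part (N M R Q D0 : ℕ) (hN : 3 ≤ N) (hMR : M + R ≤ N) (hQN : Q ≤ N) (T : ℝ)
    (hT : 0 ≤ T) (hD : ∀ q : ℕ, D0 < q → (N : ℝ) ≤ T * q) (X : ℝ) (G : ℕ → Finset ℕ)
    (hG1 : ∀ a ∈ Ioc M (M + R), ∀ q, 1 ≤ q → q ≤ Q → a.Coprime q → D0 < q → q ∈ G a)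
    (hG2 : 1 ≤ Q → ∀ a ∈ Ioc M (M + R), 1 ∈ G a)
    (hG : ∀ m, m ≤ N → ∑ a ∈ Ioc M (M + R), ∑ q ∈ G a, |DD q a m| ≤ X) (F : ℕ → Finset ℕ)
    (hF : ∀ a, ∀ q ∈ F a, 1 ≤ q ∧ q ≤ Q ∧ a.Coprime q ∧ D0 < q) (Φ : ℝ)
    (hΦ : ∑ q ∈ Icc 1 N, 1 / (Nat.totient q : ℝ) ≤ Φ) :
    ∑ a ∈ Ioc M (M + R), ∑ q ∈ F a, |(piA N q a : ℝ) - (pi1 N : ℝ) / Nat.totient q| ≤
      (R * ((Icc 1 N).filter PPw).card * T + N * ((Ioc M (M + R)).filter PPw).card) + 3 * X +
        3 * X * Φ + R * ((Icc 1 N).filter PPw).card * Φ := by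
  have hX0 : 0 ≤ X := (sum_nonneg fun a _ => sum_nonneg fun q _ => abs_nonneg _).trans (hG 0 (Nat.zero_le _))
  have hΦ0 : 0 ≤ Φ := le_trans (sum_nonneg fun q _ => by positivity) hΦ
  rcases Nat.eq_zero_or_pos Q with hQ0 | hQ1
  · have h0 : ∀ a, F a = ∅ := by
      intro a
      rw [eq_empty_iff_forall_notMem]
      intro q hq
      have := hF a q hq
      omega
    have h1 : ∑ a ∈ Ioc M (M + R), ∑ q ∈ F a, |(piA N q a : ℝ) - (pi1 N : ℝ) / Nat.totient q| = 0 := by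
      apply sum_eq_zero
      intro a _
      rw [h0 a, sum_empty]
    rw [h1]
    positivity
  -- the part with `LI`
  have h2 : ∑ a ∈ Ioc M (M + R), ∑ q ∈ G a, |PL N q a - LI N / Nat.totient q| ≤ 3 * X := by
    have h3 := abel_sum ((Ioc M (M + R)).sigma G) (fun x m => DD x.2 x.1 m) X N (by omega) (by
      intro m _ hm
      rw [sum_sigma]
      exact hG m hm)
    rw [sum_sigma] at h3
    simpa only [← PL_eq] using h3
  have h3 : (R : ℝ) * |LI N - PL N 1 0| ≤ 3 * X := by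
    have h4 : ∑ a ∈ Ioc M (M + R), |PL N 1 a - LI N / Nat.totient 1| ≤ 3 * X := by
      refine le_trans (sum_le_sum ?_) h2
      intro a ha
      exact single_le_sum (f := fun q => |PL N q a - LI N / Nat.totient q|)
        (fun q _ => abs_nonneg _) (hG2 hQ1 a ha)
    have h5 : ∑ a ∈ Ioc M (M + R), |PL N 1 a - LI N / Nat.totient 1| = R * |LI N - PL N 1 0| := by
      have h6 : ∀ a ∈ Ioc M (M + R), |PL N 1 a - LI N / Nat.totient 1| = |LI N - PL N 1 0| := by
        intro a _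
        rw [PL_one N a 0, abs_sub_comm]
        simp
      rw [sum_congr rfl h6, sum_const, nsmul_eq_mul, Nat.card_Ioc, Nat.add_sub_cancel_left]
    rw [← h5]
    exact h4
  have h4 : |PL N 1 0 - pi1 N| ≤ ((Icc 1 N).filter PPw).card := by
    have h5 := pl_sub N 1 0
    rw [abs_sub_comm, pi1_eq N 0]
    refine h5.trans ?_
    exact_mod_cast card_filter_le _ _
  have hpt : ∀ a ∈ Ioc M (M + R), ∀ q ∈ F a, |(piA N q a : ℝ) - (pi1 N : ℝ) / Nat.totient q| ≤
      ((((Icc 1 N).filter PPw).filter (fun n => n ≡ a [MOD q])).card : ℝ) +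
        |PL N q a - LI N / Nat.totient q| + (|LI N - PL N 1 0| + ((Icc 1 N).filter PPw).card) *
          (1 / (Nat.totient q : ℝ)) := by
    intro a _ q hq
    have hφ : 0 ≤ 1 / (Nat.totient q : ℝ) := by positivity
    have e : (piA N q a : ℝ) - (pi1 N : ℝ) / Nat.totient q = (piA N q a - PL N q a) +
        (PL N q a - LI N / Nat.totient q) + ((LI N - PL N 1 0) + (PL N 1 0 - pi1 N)) *
          (1 / (Nat.totient q : ℝ)) := by ring
    rw [e]
    refine (abs_add_le _ _).trans (add_le_add ((abs_add_le _ _).trans (add_le_add (pl_sub N q a) le_rfl)) ?_)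
    rw [abs_mul, abs_of_nonneg hφ]
    apply mul_le_mul_of_nonneg_right _ hφ
    exact (abs_add_le _ _).trans (add_le_add le_rfl h4)
  have hsum := sum_le_sum fun a (ha : a ∈ Ioc M (M + R)) => sum_le_sum (hpt a ha)
  refine hsum.trans ?_
  simp only [sum_add_distrib]
  have k1 := pp_sum N M R hMR F T hT (by
    intro a q hq
    have := hF a q hq
    exact ⟨this.1, by omega, hD q this.2.2.2⟩)
  have k2 : ∑ a ∈ Ioc M (M + R), ∑ q ∈ F a, |PL N q a - LI N / Nat.totient q| ≤ 3 * X := by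
    refine le_trans (sum_le_sum ?_) h2
    intro a ha
    apply sum_le_sum_of_subset_of_nonneg
    · intro q hq
      have := hF a q hq
      exact hG1 a ha q this.1 this.2.1 this.2.2.1 this.2.2.2
    · intro q _ _
      exact abs_nonneg _
  have k3 : ∑ a ∈ Ioc M (M + R), ∑ q ∈ F a, (|LI N - PL N 1 0| + ((Icc 1 N).filter PPw).card) *
      (1 / (Nat.totient q : ℝ)) ≤ 3 * X * Φ + R * ((Icc 1 N).filter PPw).card * Φ := by
    have k4 : ∀ a ∈ Ioc M (M + R), ∑ q ∈ F a, (|LI N - PL N 1 0| + ((Icc 1 N).filter PPw).card) *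
        (1 / (Nat.totient q : ℝ)) ≤ (|LI N - PL N 1 0| + ((Icc 1 N).filter PPw).card) * Φ := by
      intro a _
      rw [← mul_sum]
      apply mul_le_mul_of_nonneg_left _ (by positivity)
      apply phi_sum N (F a) _ Φ hΦ
      intro q hq
      have := hF a q hq
      exact ⟨this.1, by omega⟩
    refine (sum_le_sum k4).trans ?_
    rw [sum_const, nsmul_eq_mul, Nat.card_Ioc, Nat.add_sub_cancel_left]
    have k5 := mul_le_mul_of_nonneg_right h3 hΦ0
    nlinarith
  linarith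

open Pool.Agent.Results.MP_00e23e_nt.ShortIntervalResidues (E primeCount)

lemma small_part (N M R D0 : ℕ) (hDN : D0 ≤ N) (hD1 : 1 ≤ D0) (F : ℕ → Finset ℕ)
    (hF : ∀ a, ∀ q ∈ F a, 1 ≤ q ∧ q ≤ D0 ∧ a.Coprime q) (Y : ℝ)
    (hY : ∑ a ∈ Ioc M (M + R), ∑ d ∈ (Icc 1 D0).filter (fun d => a.Coprime d), |E N d a| ≤ Y)
    (Φ : ℝ) (hΦ : ∑ q ∈ Icc 1 N, 1 / (Nat.totient q : ℝ) ≤ Φ) :
    ∑ a ∈ Ioc M (M + R), ∑ q ∈ F a, |(piA N q a : ℝ) - (pi1 N : ℝ) / Nat.totient q| ≤ Y + Y * Φ := by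
  have hΦ0 : 0 ≤ Φ := le_trans (sum_nonneg fun q _ => by positivity) hΦ
  have hpt : ∀ a ∈ Ioc M (M + R), ∀ q ∈ F a, |(piA N q a : ℝ) - (pi1 N : ℝ) / Nat.totient q| ≤
      |E N q a| + |E N 1 a| * (1 / (Nat.totient q : ℝ)) := by
    intro a _ q hq
    have hφ : 0 ≤ 1 / (Nat.totient q : ℝ) := by positivity
    have e : (piA N q a : ℝ) - (pi1 N : ℝ) / Nat.totient q = E N q a - E N 1 a *
          (1 / (Nat.totient q : ℝ)) := by
      have e1 : (primeCount N 1 a : ℝ) = pi1 N := by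
        rw [pi1_eq N a]; rfl
      have e2 : (primeCount N q a : ℝ) = piA N q a := rfl
      unfold E
      rw [e1, e2]
      simp only [Nat.totient_one, Nat.cast_one, div_one]
      ring
    rw [e]
    refine (abs_sub _ _).trans (le_of_eq ?_)
    rw [abs_mul, abs_of_nonneg hφ]
  have hsum := sum_le_sum fun a (ha : a ∈ Ioc M (M + R)) => sum_le_sum (hpt a ha)
  refine hsum.trans ?_
  simp only [sum_add_distrib]
  apply add_le_add
  · refine le_trans (sum_le_sum ?_) hY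
    intro a _
    apply sum_le_sum_of_subset_of_nonneg
    · intro q hq
      have := hF a q hq
      rw [mem_filter, mem_Icc]
      exact ⟨⟨this.1, this.2.1⟩, this.2.2⟩
    · intro q _ _
      exact abs_nonneg _
  · have k1 : ∑ a ∈ Ioc M (M + R), |E N 1 a| ≤ Y := by
      refine le_trans (sum_le_sum ?_) hY
      intro a _
      exact single_le_sum (f := fun d => |E N d a|) (fun q _ => abs_nonneg _)
        (mem_filter.2 ⟨mem_Icc.2 ⟨le_rfl, hD1⟩, Nat.coprime_one_right a⟩)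
    refine le_trans (sum_le_sum (g := fun a => |E N 1 a| * Φ) ?_) ?_
    · intro a _
      rw [← mul_sum]
      apply mul_le_mul_of_nonneg_left _ (abs_nonneg _)
      apply phi_sum N (F a) _ Φ hΦ
      intro q hq
      have := hF a q hq
      exact ⟨this.1, by omega⟩
    · rw [← sum_mul]
      exact mul_le_mul_of_nonneg_right k1 hΦ0

open Filter in
lemma ev_log_pow (c : ℝ) (k : ℕ) (δ : ℝ) (hδ : 0 < δ) :
    ∀ᶠ N : ℕ in atTop, c * (Real.log N) ^ k ≤ (N : ℝ) ^ δ := by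
  have h := isLittleO_log_rpow_rpow_atTop (s := δ) (k : ℝ) hδ
  have hc : (0 : ℝ) < 1 / (|c| + 1) := by positivity
  have h1 := (h.def hc).and (eventually_ge_atTop (1 : ℝ))
  have h2 := tendsto_natCast_atTop_atTop (R := ℝ) |>.eventually h1
  filter_upwards [h2] with N hN
  obtain ⟨h3, h4⟩ := hN
  rw [Real.norm_eq_abs, Real.norm_eq_abs, Real.rpow_natCast] at h3
  have h5 : 0 ≤ (N : ℝ) ^ δ := Real.rpow_nonneg (by linarith) _
  rw [abs_of_nonneg h5] at h3
  calc c * (Real.log N) ^ k ≤ |c * (Real.log N) ^ k| := le_abs_self _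
    _ = |c| * |(Real.log N) ^ k| := abs_mul _ _
    _ ≤ |c| * (1 / (|c| + 1) * (N : ℝ) ^ δ) := mul_le_mul_of_nonneg_left h3 (abs_nonneg _)
    _ = |c| / (|c| + 1) * (N : ℝ) ^ δ := by ring
    _ ≤ 1 * (N : ℝ) ^ δ := by
        apply mul_le_mul_of_nonneg_right _ h5
        rw [div_le_one (by positivity)]
        linarith
    _ = (N : ℝ) ^ δ := one_mul _

open Filter in
lemma ev_log_ge (c : ℝ) : ∀ᶠ N : ℕ in atTop, c ≤ Real.log N :=
  (Real.tendsto_log_atTop.comp tendsto_natCast_atTop_atTop).eventually (eventually_ge_atTop c)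

lemma log2_le (N : ℕ) (hN : 3 ≤ N) (hL : 1 ≤ Real.log N) : (Nat.log 2 N : ℝ) + 1 ≤ 3 * Real.log N := by
  have h1 : 2 ^ (Nat.log 2 N) ≤ N := Nat.pow_log_le_self 2 (by omega)
  have h2 : ((2 : ℝ)) ^ (Nat.log 2 N) ≤ N := by exact_mod_cast h1
  have h3 := Real.log_le_log (by positivity) h2
  rw [Real.log_pow] at h3
  have h5 : (1 : ℝ) / 2 ≤ Real.log 2 := by have := Real.log_two_gt_d9; linarith
  have h6 : (0 : ℝ) ≤ (Nat.log 2 N : ℝ) := Nat.cast_nonneg _
  nlinarith

/-- the numerical estimates -/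
lemma numer (A : ℕ) (n r L t sr C Φ P W : ℝ) (hL : 3 ≤ L) (ht : 384 * L ^ (A + 3) ≤ t) (hn : n = t ^ 6)
    (hsr : t ≤ sr) (hr : r = sr ^ 2) (hC0 : 0 ≤ C) (hC : 36 * C ≤ L) (hΦ0 : 0 ≤ Φ) (hΦ : Φ ≤ 8 * L ^ 2)
    (hP0 : 0 ≤ P) (hP : P ≤ 6 * t ^ 3 * L) (hW : W ≤ 6 * sr * L) :
    (C * (r * n / L ^ (A + 6)) + C * (r * n / L ^ (A + 6)) * Φ) +
      ((r * P * t + n * W) + 3 * (r * n / L ^ (A + 9)) + 3 * (r * n / L ^ (A + 9)) * Φ + r * P * Φ) ≤
      r * n / L ^ A := by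
  have hL1 : 1 ≤ L := by linarith
  have hL0 : 0 < L := by linarith
  have hLA : 0 < L ^ A := by positivity
  have hLA1 : 1 ≤ L ^ A := one_le_pow₀ hL1
  have ht1 : 1 ≤ t := by
    have : 1 ≤ L ^ (A + 3) := one_le_pow₀ hL1
    linarith
  have ht0 : 0 < t := by linarith
  have hsr0 : 0 < sr := by linarith
  have hr0 : 0 < r := by rw [hr]; positivity
  have hn0 : 0 < n := by rw [hn]; positivity
  set Z := r * n / L ^ A with hZ
  have hZ0 : 0 < Z := by positivity
  have e6 : r * n / L ^ (A + 6) = Z / L ^ 6 := by rw [hZ, pow_add, div_div]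
  have e9 : r * n / L ^ (A + 9) = Z / L ^ 9 := by rw [hZ, pow_add, div_div]
  rw [e6, e9]
  have k1 : C * (Z / L ^ 6) + C * (Z / L ^ 6) * Φ ≤ Z / 4 := by
    have a1 : C * (Z / L ^ 6) + C * (Z / L ^ 6) * Φ ≤ C * (Z / L ^ 6) * (9 * L ^ 2) := by
      have a2 : 0 ≤ C * (Z / L ^ 6) := by positivity
      have a3 : 1 + Φ ≤ 9 * L ^ 2 := by nlinarith
      calc C * (Z / L ^ 6) + C * (Z / L ^ 6) * Φ = C * (Z / L ^ 6) * (1 + Φ) := by ring
        _ ≤ _ := mul_le_mul_of_nonneg_left a3 a2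
    have a4 : C * (Z / L ^ 6) * (9 * L ^ 2) = (9 * C) * Z / L ^ 4 := by
      field_simp
    rw [a4] at a1
    refine a1.trans ?_
    rw [div_le_div_iff₀ (by positivity) (by norm_num)]
    have a5 : 36 * C ≤ L ^ 4 := by
      have : L ^ 1 ≤ L ^ 4 := pow_le_pow_right₀ hL1 (by norm_num)
      linarith [pow_one L]
    nlinarith
  have hK1 : 48 * L ^ (A + 1) ≤ t := by
    have : L ^ (A + 1) ≤ L ^ (A + 3) := pow_le_pow_right₀ hL1 (by omega)
    have h0 : 0 < L ^ (A + 3) := by positivity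
    linarith
  have k2 : r * P * t ≤ Z / 8 := by
    have a1 : r * P * t ≤ r * (6 * t ^ 3 * L) * t := by
      apply mul_le_mul_of_nonneg_right _ (by linarith)
      exact mul_le_mul_of_nonneg_left hP hr0.le
    refine a1.trans ?_
    rw [hZ, hn, div_div, le_div_iff₀ (by positivity)]
    have a2 : 48 * L ^ (A + 1) ≤ t ^ 2 := by nlinarith
    have a3 : r * (6 * t ^ 3 * L) * t * (L ^ A * 8) = (r * t ^ 4) * (48 * L ^ (A + 1)) := by ring
    rw [a3]
    calc (r * t ^ 4) * (48 * L ^ (A + 1)) ≤ (r * t ^ 4) * t ^ 2 :=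
          mul_le_mul_of_nonneg_left a2 (by positivity)
      _ = r * t ^ 6 := by ring
  have k3 : n * W ≤ Z / 8 := by
    have a1 : n * W ≤ n * (6 * sr * L) := mul_le_mul_of_nonneg_left hW hn0.le
    refine a1.trans ?_
    rw [hZ, div_div, le_div_iff₀ (by positivity)]
    have a2 : 48 * L ^ (A + 1) ≤ sr := by linarith
    have a3 : n * (6 * sr * L) * (L ^ A * 8) = (n * sr) * (48 * L ^ (A + 1)) := by ring
    rw [a3]
    calc (n * sr) * (48 * L ^ (A + 1)) ≤ (n * sr) * sr :=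
          mul_le_mul_of_nonneg_left a2 (by positivity)
      _ = r * n := by rw [hr]; ring
  have hL9 : 24 ≤ L ^ 9 := by
    have : (3 : ℝ) ^ 9 ≤ L ^ 9 := pow_le_pow_left₀ (by norm_num) hL 9
    norm_num at this
    linarith
  have hL7 : 192 ≤ L ^ 7 := by
    have : (3 : ℝ) ^ 7 ≤ L ^ 7 := pow_le_pow_left₀ (by norm_num) hL 7
    norm_num at this
    linarith
  have k4 : 3 * (Z / L ^ 9) ≤ Z / 8 := by
    rw [← mul_div_assoc, div_le_div_iff₀ (by positivity) (by norm_num)]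
    nlinarith
  have k5 : 3 * (Z / L ^ 9) * Φ ≤ Z / 8 := by
    have a1 : 3 * (Z / L ^ 9) * Φ ≤ 3 * (Z / L ^ 9) * (8 * L ^ 2) :=
      mul_le_mul_of_nonneg_left hΦ (by positivity)
    have a2 : 3 * (Z / L ^ 9) * (8 * L ^ 2) = 24 * Z / L ^ 7 := by
      field_simp
      ring
    rw [a2] at a1
    refine a1.trans ?_
    rw [div_le_div_iff₀ (by positivity) (by norm_num)]
    nlinarith
  have k6 : r * P * Φ ≤ Z / 8 := by
    have a1 : r * P * Φ ≤ r * (6 * t ^ 3 * L) * (8 * L ^ 2) :=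
      mul_le_mul (mul_le_mul_of_nonneg_left hP hr0.le) hΦ hΦ0 (by positivity)
    refine a1.trans ?_
    rw [hZ, hn, div_div, le_div_iff₀ (by positivity)]
    have a2 : 384 * L ^ (A + 3) ≤ t ^ 3 := by
      have : t ^ 1 ≤ t ^ 3 := pow_le_pow_right₀ ht1 (by norm_num)
      linarith [pow_one t]
    have a3 : r * (6 * t ^ 3 * L) * (8 * L ^ 2) * (L ^ A * 8) = (r * t ^ 3) * (384 * L ^ (A + 3)) := by ring
    rw [a3]
    calc (r * t ^ 3) * (384 * L ^ (A + 3)) ≤ (r * t ^ 3) * t ^ 3 :=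
          mul_le_mul_of_nonneg_left a2 (by positivity)
      _ = r * t ^ 6 := by ring
  linarith

open Classical Filter in
theorem main : S_R22 → S_R33 := by
  intro h e A he
  obtain ⟨B2, N2, h2⟩ := h e (A + 9) he
  obtain ⟨B1, C1, h1⟩ := Pool.Agent.Results.MP_00e23e_nt.ShortIntervalResidues.result (1 / 6)
    (by norm_num) (A + 6)
  have he' : (0 : ℝ) < 1 / (e : ℝ) := by
    have : (0 : ℝ) < e := by exact_mod_cast he
    positivity
  obtain ⟨N0, hN0⟩ := eventually_atTop.1 ((ev_log_pow 1 B1 (1 / (e : ℝ)) he').and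
    ((ev_log_pow 1 B2 (1 / 6) (by norm_num)).and ((ev_log_pow 384 (A + 3) (1 / 6) (by norm_num)).and
    ((ev_log_ge 3).and ((ev_log_ge (36 * |C1|)).and (eventually_ge_atTop (max 3 N2)))))))
  refine ⟨B2, N0, ?_⟩
  intro N hN R M Q hR hMR hQ
  obtain ⟨c3, c4, c6, c2, c5, c1⟩ := hN0 N hN
  have hN3 : 3 ≤ N := le_trans (le_max_left _ _) c1
  have hN2 : N2 ≤ N := le_trans (le_max_right _ _) c1
  have hn0 : (0 : ℝ) < N := by exact_mod_cast (by omega : 0 < N)
  have hn1 : (1 : ℝ) ≤ N := by exact_mod_cast (by omega : 1 ≤ N)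
  have hL1 : 1 ≤ Real.log N := by linarith
  set L := Real.log N with hLdef
  set t : ℝ := (N : ℝ) ^ (1 / 6 : ℝ) with ht
  have ht1 : 1 ≤ t := Real.one_le_rpow hn1 (by norm_num)
  have ht6 : (N : ℝ) = t ^ 6 := by
    rw [ht, ← Real.rpow_natCast, ← Real.rpow_mul hn0.le]
    norm_num
  have ht2 : (N : ℝ) ^ (1 / 3 : ℝ) = t ^ 2 := by
    rw [ht, ← Real.rpow_natCast, ← Real.rpow_mul hn0.le]
    norm_num
  have hR3 : (N : ℝ) ^ (1 / 3 : ℝ) ≤ R := by
    refine le_trans (Real.rpow_le_rpow_of_exponent_le hn1 ?_) hR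
    linarith
  have hrt : t ^ 2 ≤ R := by rw [← ht2]; exact hR3
  have hr1 : (1 : ℝ) ≤ R := by nlinarith
  have hR1 : 1 ≤ R := by exact_mod_cast hr1
  have hsr : t ≤ Real.sqrt R := by
    apply Real.le_sqrt_of_sq_le
    exact hrt
  have hsr2 : (R : ℝ) = Real.sqrt R ^ 2 := by rw [Real.sq_sqrt (by linarith)]
  have hQN : Q ≤ N := by
    have h3 : (Q : ℝ) ≤ N := by
      refine hQ.trans ?_
      have h4 : Real.exp (-(B2 * Real.log (Real.log N) ^ 2)) ≤ 1 := by
        rw [Real.exp_le_one_iff]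
        have : (0 : ℝ) ≤ B2 * Real.log (Real.log N) ^ 2 := by positivity
        linarith
      nlinarith
    exact_mod_cast h3
  -- the threshold
  set D0 : ℕ := ⌊(N : ℝ) ^ (1 - 1 / 6 : ℝ)⌋₊ with hD0
  have h56 : (N : ℝ) ^ (1 - 1 / 6 : ℝ) = t ^ 5 := by
    rw [ht, ← Real.rpow_natCast, ← Real.rpow_mul hn0.le]
    norm_num
  have hDN : D0 ≤ N := by
    have h3 : (D0 : ℝ) ≤ N := by
      calc (D0 : ℝ) ≤ (N : ℝ) ^ (1 - 1 / 6 : ℝ) := Nat.floor_le (by positivity)
        _ = t ^ 5 := h56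
        _ ≤ t ^ 6 := pow_le_pow_right₀ ht1 (by norm_num)
        _ = N := ht6.symm
    exact_mod_cast h3
  have hD1 : 1 ≤ D0 := by
    apply Nat.le_floor
    rw [h56]
    push_cast
    exact one_le_pow₀ ht1
  have hDq : ∀ q : ℕ, D0 < q → t ^ 5 < (q : ℝ) := by
    intro q hq
    rw [← h56]
    exact Nat.lt_of_floor_lt hq
  have hDT : ∀ q : ℕ, D0 < q → (N : ℝ) ≤ t * q := by
    intro q hq
    have h3 := hDq q hq
    have h4 : (0 : ℝ) < t := by linarith
    calc (N : ℝ) = t * t ^ 5 := by rw [ht6]; ring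
      _ ≤ t * q := mul_le_mul_of_nonneg_left h3.le h4.le
  -- the constant `Φ`
  set Φ : ℝ := 2 * (1 + Real.log N) ^ 2 with hΦd
  have hΦ := Pool.Agent.H442R2.EHI.Bd.sum_inv_tot N (by omega)
  have hΦ8 : Φ ≤ 8 * L ^ 2 := by rw [hΦd]; nlinarith
  have hΦ0 : 0 ≤ Φ := by positivity
  -- small moduli
  have hs := (h1 N hN3 R M hMR).1 (by
    refine le_trans ?_ hR
    rw [Real.rpow_add hn0]
    apply mul_le_mul_of_nonneg_left _ (by positivity)
    linarith)
  have hs' : ∑ a ∈ Ioc M (M + R), ∑ d ∈ (Icc 1 D0).filter (fun d => a.Coprime d), |E N d a| ≤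
      |C1| * ((R : ℝ) * N / L ^ (A + 6)) := by
    refine le_trans ?_ (mul_le_mul_of_nonneg_right (le_abs_self C1) (by positivity))
    exact hs
  set f : ℕ → ℕ → ℝ := fun a q => |(piA N q a : ℝ) - (pi1 N : ℝ) / Nat.totient q| with hf
  set F : ℕ → Finset ℕ := fun a => (Icc 1 Q).filter (fun q => a.Coprime q) with hF
  have p1 := small_part N M R D0 hDN hD1 (fun a => (F a).filter (fun q => q ≤ D0)) (by
    intro a q hq
    have h3 := mem_filter.1 hq
    have h4 := mem_filter.1 h3.1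
    exact ⟨(mem_Icc.1 h4.1).1, h3.2, h4.2⟩) _ hs' Φ hΦ
  -- large moduli
  have hG : ∀ m, m ≤ N → ∑ a ∈ Ioc M (M + R), ∑ q ∈ (Icc 1 Q).filter
      (fun q => a.Coprime q ∧ (q ≤ R ∨ (N : ℝ) * (Real.log N) ^ B2 ≤ (q : ℝ) * R)), |DD q a m| ≤
      (R : ℝ) * N / L ^ (A + 9) := fun m hm =>
    h2 N hN2 R M Q hR (by omega) (by omega) hQ (fun _ _ => m) (fun _ _ => hm)
  have p2 := large_part N M R Q D0 hN3 hMR hQN t (by linarith) hDT _ (fun a => (Icc 1 Q).filter
      (fun q => a.Coprime q ∧ (q ≤ R ∨ (N : ℝ) * (Real.log N) ^ B2 ≤ (q : ℝ) * R))) (by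
    intro a _ q hq1 hq2 hq3 hq4
    rw [mem_filter, mem_Icc]
    refine ⟨⟨hq1, hq2⟩, hq3, Or.inr ?_⟩
    have h3 := hDq q hq4
    have h5 : (Real.log N) ^ B2 ≤ t := by linarith
    calc (N : ℝ) * (Real.log N) ^ B2 ≤ N * t := mul_le_mul_of_nonneg_left h5 hn0.le
      _ = t ^ 5 * t ^ 2 := by rw [ht6]; ring
      _ ≤ (q : ℝ) * R := mul_le_mul h3.le hrt (by positivity) (by positivity)) (by
    intro hQ1 a _
    rw [mem_filter, mem_Icc]
    exact ⟨⟨le_rfl, hQ1⟩, Nat.coprime_one_right a, Or.inl hR1⟩) hG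
    (fun a => (F a).filter (fun q => ¬ q ≤ D0)) (by
    intro a q hq
    have h3 := mem_filter.1 hq
    have h4 := mem_filter.1 h3.1
    exact ⟨(mem_Icc.1 h4.1).1, (mem_Icc.1 h4.1).2, h4.2, by omega⟩) Φ hΦ
  have hsplit : ∑ a ∈ Ioc M (M + R), ∑ q ∈ F a, f a q =
      ∑ a ∈ Ioc M (M + R), ∑ q ∈ (F a).filter (fun q => q ≤ D0), f a q +
      ∑ a ∈ Ioc M (M + R), ∑ q ∈ (F a).filter (fun q => ¬ q ≤ D0), f a q := by
    rw [← sum_add_distrib]
    apply sum_congr rfl
    intro a _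
    rw [sum_filter_add_sum_filter_not]
  have hlog2 := log2_le N hN3 hL1
  -- the number of the proper prime powers
  have hP : (((Icc 1 N).filter PPw).card : ℝ) ≤ 6 * t ^ 3 * L := by
    have h3 := card_pp_window 0 N
    have e1 : Ioc 0 (0 + N) = Icc 1 N := by ext x; simp only [mem_Ioc, mem_Icc]; omega
    rw [e1, zero_add] at h3
    have h4 : (((Icc 1 N).filter PPw).card : ℝ) ≤ ((Nat.sqrt N : ℝ) + 1) * ((Nat.log 2 N : ℝ) + 1) := by
      exact_mod_cast h3
    have h5 : (Nat.sqrt N : ℝ) ≤ t ^ 3 := by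
      refine Real.nat_sqrt_le_real_sqrt.trans ?_
      rw [Real.sqrt_le_left (by positivity)]
      rw [ht6]
      apply le_of_eq
      ring
    have h6 : (1 : ℝ) ≤ t ^ 3 := one_le_pow₀ ht1
    calc (((Icc 1 N).filter PPw).card : ℝ) ≤ ((Nat.sqrt N : ℝ) + 1) * ((Nat.log 2 N : ℝ) + 1) := h4
      _ ≤ (2 * t ^ 3) * (3 * L) := mul_le_mul (by linarith) hlog2 (by positivity) (by positivity)
      _ = 6 * t ^ 3 * L := by ring
  have hW : (((Ioc M (M + R)).filter PPw).card : ℝ) ≤ 6 * Real.sqrt R * L := by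
    have h3 := card_pp_window M R
    have h4 : (((Ioc M (M + R)).filter PPw).card : ℝ) ≤
        ((Nat.sqrt R : ℝ) + 1) * ((Nat.log 2 (M + R) : ℝ) + 1) := by
      exact_mod_cast h3
    have h5 : (Nat.sqrt R : ℝ) ≤ Real.sqrt R := Real.nat_sqrt_le_real_sqrt
    have h6 : (1 : ℝ) ≤ Real.sqrt R := by linarith
    have h7 : (Nat.log 2 (M + R) : ℝ) ≤ Nat.log 2 N := by
      exact_mod_cast Nat.log_mono_right hMR
    calc (((Ioc M (M + R)).filter PPw).card : ℝ) ≤
          ((Nat.sqrt R : ℝ) + 1) * ((Nat.log 2 (M + R) : ℝ) + 1) := h4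
      _ ≤ (2 * Real.sqrt R) * (3 * L) := mul_le_mul (by linarith) (by linarith) (by positivity) (by positivity)
      _ = 6 * Real.sqrt R * L := by ring
  have hfin := numer A N R L t (Real.sqrt R) |C1| Φ ((Icc 1 N).filter PPw).card
    ((Ioc M (M + R)).filter PPw).card c2 c6 ht6 hsr hsr2 (abs_nonneg _) c5 hΦ0 hΦ8 (Nat.cast_nonneg _) hP hW
  calc ∑ a ∈ Ioc M (M + R), ∑ q ∈ F a, f a q = _ := hsplit
    _ ≤ _ := add_le_add p1 p2
    _ ≤ _ := hfin

end Pool.Agent.helper24_UT.R33
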