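import Pool.Agent.helper24_UT.Ch12
import Pool.Agent.helper24_UT.R33

/-!
# Project UT (helper24): assembly, part 17
-/

set_option autoImplicit false

namespace Pool.Agent.helper24_UT.Ch

theorem t_R33 : S_R33 := R33.main t_R22

end Pool.Agent.helper24_UT.Ch
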