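import Pool.Agent.helper24_UT.Stm24
import Pool.Agent.helper24_UT.Stm17
import Pool.Agent.H373R2.T7.LamZ2
import Pool.Agent.TH823.Fam.Fam2

set_option autoImplicit false

namespace Pool.Agent.helper24_UT.R36

open Finset Polynomial
open Pool.Agent.helper24_UT
open Pool.Agent.H373R2.T7 (lamI lamzI lamz Vz pz energy)
open Pool.Agent.H807R2.Dav (ee norm_ee ee_add_int ee_eq)

lemma lz_nonneg (z : ℕ) (m : ℤ) : 0 ≤ lz z m := by
  unfold lz
  split_ifs
  · exact (inv_pos.2 (Pool.Agent.H373R2.T7.Vz_pos z)).le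
  · exact le_rfl

lemma lz_le (z : ℕ) (m : ℤ) : lz z m ≤ (Vz z)⁻¹ := by
  have h0 : 0 ≤ (Vz z)⁻¹ := (inv_pos.2 (Pool.Agent.H373R2.T7.Vz_pos z)).le
  unfold lz
  split_ifs
  · exact le_rfl
  · exact h0

lemma prW_nonneg {r : ℕ} (F : Fin r → ℤ[X]) (a : Fin r → ℤ) (n : ℕ) : 0 ≤ prW F a n := by
  unfold prW
  split_ifs with h
  · exact prod_nonneg fun i _ => Real.log_natCast_nonneg _
  · exact le_rfl

lemma prW_le {r : ℕ} (F : Fin r → ℤ[X]) (a : Fin r → ℤ) (n N : ℕ) (_hN : 1 ≤ N)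
    (h : ∀ i, ((F i).eval (n : ℤ) + a i).natAbs ≤ N ^ 2) : prW F a n ≤ (2 * Real.log N) ^ r := by
  have hL : 0 ≤ Real.log (N : ℝ) := Real.log_natCast_nonneg N
  unfold prW
  split_ifs with hp
  · calc ∏ i, Real.log (((F i).eval (n : ℤ) + a i).natAbs : ℝ) ≤ ∏ _i : Fin r, (2 * Real.log N) := by
          refine prod_le_prod (fun i _ => Real.log_natCast_nonneg _) fun i _ => ?_
          have h1 : (0 : ℝ) < (((F i).eval (n : ℤ) + a i).natAbs : ℝ) := by
            exact_mod_cast (hp i).pos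
          have h2 : ((((F i).eval (n : ℤ) + a i).natAbs : ℕ) : ℝ) ≤ (N : ℝ) ^ 2 := by
            exact_mod_cast h i
          have h3 := Real.log_le_log h1 h2
          rw [Real.log_pow] at h3
          push_cast at h3
          exact h3
      _ = (2 * Real.log N) ^ r := by rw [prod_const, card_univ, Fintype.card_fin]
  · positivity

/-- the difference of the primes and the model -/
noncomputable def wd {r : ℕ} (z : ℕ) (F : Fin r → ℤ[X]) (a : Fin r → ℤ) (n : ℕ) : ℝ :=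
  prW F a n - ∏ i, lz z ((F i).eval (n : ℤ) + a i)

lemma wd_le {r : ℕ} (z : ℕ) (F : Fin r → ℤ[X]) (a : Fin r → ℤ) (n N : ℕ) (hN : 1 ≤ N)
    (h : ∀ i, ((F i).eval (n : ℤ) + a i).natAbs ≤ N ^ 2) (hL : 2 ≤ Real.log (N : ℝ))
    (hV : (Vz z)⁻¹ ≤ Real.log N) : |wd z F a n| ≤ (Real.log N) ^ (2 * r) := by
  set L := Real.log (N : ℝ) with hLd
  have hL0 : 0 ≤ L := by linarith
  have h1 := prW_le F a n N hN h
  have h0 := prW_nonneg F a n
  have h2 : 0 ≤ ∏ i, lz z ((F i).eval (n : ℤ) + a i) := prod_nonneg fun i _ => lz_nonneg _ _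
  have h3 : ∏ i, lz z ((F i).eval (n : ℤ) + a i) ≤ (2 * L) ^ r := by
    calc ∏ i, lz z ((F i).eval (n : ℤ) + a i) ≤ ∏ _i : Fin r, (2 * L) := by
          refine prod_le_prod (fun i _ => lz_nonneg _ _) fun i _ => ?_
          have := (lz_le z ((F i).eval (n : ℤ) + a i)).trans hV
          linarith
      _ = (2 * L) ^ r := by rw [prod_const, card_univ, Fintype.card_fin]
  have h4 : (2 * L) ^ r ≤ L ^ (2 * r) := by
    rw [pow_mul]
    exact pow_le_pow_left₀ (by positivity) (by nlinarith) r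
  unfold wd
  rw [abs_le]
  constructor <;> linarith

lemma thU_eq {r : ℕ} (z : ℕ) (F : Fin r → ℤ[X]) (a : Fin r → ℤ) (u : ℕ → ℝ) (y : ℕ) :
    thU u F a y - ∑ n ∈ Icc 1 y, u n * ∏ i, lz z ((F i).eval (n : ℤ) + a i) =
      ∑ n ∈ Icc 1 y, u n * wd z F a n := by
  unfold thU wd prW
  rw [sum_filter, ← sum_sub_distrib]
  refine sum_congr rfl fun n _ => ?_
  split_ifs <;> ring

/-- the trigonometric weights -/
noncomputable def tw (u : ℕ → ℝ) (c : ℕ × ℕ × Bool) (n : ℕ) : ℝ :=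
  u n * (if c.2.2 then Real.cos (2 * Real.pi * (n * ((c.1 : ℝ) / c.2.1))) else
    Real.sin (2 * Real.pi * (n * ((c.1 : ℝ) / c.2.1))))

lemma tw_le (u : ℕ → ℝ) (c : ℕ × ℕ × Bool) (n : ℕ) : |tw u c n| ≤ |u n| := by
  unfold tw
  rw [abs_mul]
  have : |(if c.2.2 then Real.cos (2 * Real.pi * (n * ((c.1 : ℝ) / c.2.1))) else
    Real.sin (2 * Real.pi * (n * ((c.1 : ℝ) / c.2.1))))| ≤ 1 := by
    split_ifs
    · exact Real.abs_cos_le_one _
    · exact Real.abs_sin_le_one _
  calc |u n| * _ ≤ |u n| * 1 := mul_le_mul_of_nonneg_left this (abs_nonneg _)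
    _ = |u n| := mul_one _

lemma ee_cs (x : ℝ) : ee x = (Real.cos (2 * Real.pi * x) : ℂ) + (Real.sin (2 * Real.pi * x) : ℂ) * Complex.I := by
  rw [ee_eq, Complex.exp_mul_I, Complex.ofReal_cos, Complex.ofReal_sin]

lemma sum_ee (u v : ℕ → ℝ) (b m y : ℕ) :
    ‖∑ n ∈ Icc 1 y, ((u n * v n : ℝ) : ℂ) * ee (n * ((b : ℝ) / m))‖ ≤
      |∑ n ∈ Icc 1 y, tw u (b, m, true) n * v n| + |∑ n ∈ Icc 1 y, tw u (b, m, false) n * v n| := by
  have h1 : ∑ n ∈ Icc 1 y, ((u n * v n : ℝ) : ℂ) * ee (n * ((b : ℝ) / m)) =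
      ((∑ n ∈ Icc 1 y, tw u (b, m, true) n * v n : ℝ) : ℂ) +
        ((∑ n ∈ Icc 1 y, tw u (b, m, false) n * v n : ℝ) : ℂ) * Complex.I := by
    rw [Complex.ofReal_sum, Complex.ofReal_sum, sum_mul, ← sum_add_distrib]
    refine sum_congr rfl fun n _ => ?_
    rw [ee_cs]
    unfold tw
    simp only [if_true, Bool.false_eq_true, if_false]
    push_cast
    ring
  rw [h1]
  refine (norm_add_le _ _).trans ?_
  rw [norm_mul, Complex.norm_I, mul_one, Complex.norm_real, Complex.norm_real, Real.norm_eq_abs,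
    Real.norm_eq_abs]

lemma ee_mod (n m : ℕ) (b : ℤ) (hm : 1 ≤ m) :
    ee (n * ((b : ℝ) / m)) = ee (n * (((b % (m : ℤ)).toNat : ℝ) / m)) := by
  have h1 : 0 ≤ b % (m : ℤ) := Int.emod_nonneg b (by omega)
  have h2 : (((b % (m : ℤ)).toNat : ℕ) : ℝ) = ((b % (m : ℤ) : ℤ) : ℝ) := by
    have : (((b % (m : ℤ)).toNat : ℕ) : ℤ) = b % (m : ℤ) := Int.toNat_of_nonneg h1
    exact_mod_cast this
  have h3 : ((b : ℤ) : ℝ) = m * ((b / (m : ℤ) : ℤ) : ℝ) + ((b % (m : ℤ) : ℤ) : ℝ) := by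
    have := Int.mul_ediv_add_emod b (m : ℤ)
    exact_mod_cast this.symm
  have hm0 : (m : ℝ) ≠ 0 := by
    have : 0 < m := hm
    positivity
  have h4 : (n : ℝ) * ((b : ℝ) / m) = n * (((b % (m : ℤ)).toNat : ℝ) / m) +
      ((n * (b / (m : ℤ)) : ℤ) : ℝ) := by
    rw [h2, h3]
    push_cast
    field_simp
    ring
  rw [h4, ee_add_int]

lemma logs (C : ℝ) : ∃ N₀ : ℕ, ∀ N : ℕ, N₀ ≤ N → C ≤ Real.log N := by
  have h2 := (Real.tendsto_log_atTop.comp (tendsto_natCast_atTop_atTop (R := ℝ))).eventually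
    (Filter.eventually_ge_atTop C)
  obtain ⟨N₀, hN₀⟩ := Filter.eventually_atTop.mp h2
  exact ⟨N₀, fun N hN => hN₀ N hN⟩

lemma asym (k : ℕ) (δ : ℝ) (hδ : 0 < δ) : ∃ N₀ : ℕ, ∀ N : ℕ, N₀ ≤ N →
    (Real.log N) ^ k ≤ (N : ℝ) ^ δ := by
  have h1 := (isLittleO_log_rpow_rpow_atTop (k : ℝ) hδ).bound (show (0 : ℝ) < 1 by norm_num)
  have h2 := (tendsto_natCast_atTop_atTop (R := ℝ)).eventually h1
  obtain ⟨N₀, hN₀⟩ := Filter.eventually_atTop.mp h2
  refine ⟨N₀ + 1, fun N hN => ?_⟩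
  have h3 := hN₀ N (by omega)
  rw [Real.rpow_natCast, Real.norm_of_nonneg (Real.rpow_nonneg (Nat.cast_nonneg _) _), one_mul] at h3
  have h4 : 0 ≤ Real.log N := Real.log_natCast_nonneg N
  rw [Real.norm_of_nonneg (pow_nonneg h4 k)] at h3
  exact h3

open Classical in
theorem main : ∀ θ : ℝ, 0 ≤ θ → S_R25 θ → S_BDH → S_R36 θ := by
  intro θ hθ h25 hBDH r d F hd hF e A T he
  obtain ⟨A1, B, N₁, hB⟩ := hBDH (A + 1) (T + 2 * r + 1)
  set A2 := 2 * A1 + A + 5 with hA2
  obtain ⟨E₀, h1⟩ := h25 r d F hd hF (2 * e) A2 T (by omega)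
  refine ⟨E₀, B, fun E₁ => ?_⟩
  obtain ⟨N₂, h2⟩ := h1 E₁
  obtain ⟨N₃, hV⟩ := Pool.Agent.H373R2.T7.Vz_inv_small E₁
  have hps := fun i : Fin r => Pool.Agent.TH823.Fam.poly_size (F i)
  choose K hK using hps
  set D := A1 + T + 2 * r with hD
  obtain ⟨N₄, h4⟩ := asym (D * d) (1 / (2 * e : ℕ)) (by positivity)
  set c : ℝ := (d : ℝ) * e with hc
  obtain ⟨N₅, h5⟩ := logs (2 + c * (c ^ (T + 2 * r) + c ^ A + Real.log (N₁ + 1) + 1))
  refine ⟨N₂ + N₃ + N₄ + N₅ + ∑ i, (K i + 1) + 3, fun N hN z hz1 hz2 u hu => ?_⟩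
  have hKi : ∀ i, K i + 1 ≤ N := fun i => by
    have := Finset.single_le_sum (f := fun i => K i + 1) (fun j _ => Nat.zero_le _)
      (Finset.mem_univ i)
    omega
  have hN1 : 1 ≤ N := by omega
  have hN0 : (0 : ℝ) < N := by exact_mod_cast hN1
  have hd0 : (1 : ℝ) ≤ d := by exact_mod_cast hd
  have he0 : (1 : ℝ) ≤ e := by exact_mod_cast he
  have hc1 : 1 ≤ c := by nlinarith
  have hLb := h5 N (by omega)
  have h25' := fun cc : ℕ × ℕ × Bool => h2 N (by omega) z hz1 hz2 (tw u cc)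
    (fun n hn => (tw_le u cc n).trans (hu n hn))
  have hasym := h4 N (by omega)
  have hlogN1 : 0 ≤ Real.log ((N₁ : ℝ) + 1) := Real.log_nonneg (by
    have : (0 : ℝ) ≤ N₁ := Nat.cast_nonneg _
    linarith)
  set L := Real.log (N : ℝ) with hL
  have hcT : 0 ≤ c * c ^ (T + 2 * r) := by positivity
  have hcA : 0 ≤ c * c ^ A := by positivity
  have hcN : 0 ≤ c * Real.log ((N₁ : ℝ) + 1) := by positivity
  have hL2 : 2 ≤ L := by nlinarith
  have hL1 : 1 ≤ L := by linarith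
  have hL0 : 0 < L := by linarith
  have hVz : (Vz z)⁻¹ ≤ L := by
    refine hV N (by omega) z ?_ hz2
    have : (1 : ℝ) ≤ z := (one_le_pow₀ hL1).trans hz1
    exact_mod_cast this
  set S := Fintype.piFinset (fun _ : Fin r => Icc (-(N : ℤ)) N) with hS
  set Bad : ℕ × ℕ × Bool → Finset (Fin r → ℤ) := fun cc => S.filter (fun a => ∃ y : ℕ, Yr θ (2 * e) N d y ∧
    (y : ℝ) / L ^ A2 < |thU (tw u cc) F a y -
      ∑ n ∈ Icc 1 y, tw u cc n * ∏ i, lz z ((F i).eval (n : ℤ) + a i)|) with hBad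
  have hBadc : ∀ cc, ((Bad cc).card : ℝ) ≤ (N : ℝ) ^ r / L ^ A2 := by
    intro cc
    refine le_trans (le_of_eq ?_) (h25' cc)
    rw [hBad]
  set M := ⌊L ^ A1⌋₊ with hM
  set I := range (M + 1) ×ˢ (range (M + 1) ×ˢ (univ : Finset Bool)) with hI
  have hIc : (I.card : ℝ) ≤ L ^ (2 * A1 + 3) := by
    rw [hI, card_product, card_product, card_range, card_univ, Fintype.card_bool]
    push_cast
    have hM1 : (M : ℝ) ≤ L ^ A1 := Nat.floor_le (by positivity)
    have hM2 : (1 : ℝ) ≤ L ^ A1 := one_le_pow₀ hL1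
    have hM3 : (M : ℝ) + 1 ≤ 2 * L ^ A1 := by linarith
    have hM0 : (0 : ℝ) ≤ M := Nat.cast_nonneg _
    have h8 : (8 : ℝ) ≤ L ^ 3 := by
      calc (8 : ℝ) = 2 ^ 3 := by norm_num
        _ ≤ L ^ 3 := pow_le_pow_left₀ (by norm_num) hL2 3
    calc ((M : ℝ) + 1) * (((M : ℝ) + 1) * 2) ≤ (2 * L ^ A1) * ((2 * L ^ A1) * 2) := by gcongr
      _ = 8 * L ^ (2 * A1) := by rw [two_mul A1, pow_add]; ring
      _ ≤ L ^ 3 * L ^ (2 * A1) := by gcongr
      _ = L ^ (2 * A1 + 3) := by rw [pow_add]; ring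
  have hsub : S.filter (fun a => ∃ y : ℕ, Yr θ e N d y ∧
    ¬ ∀ Q : ℕ, (Q : ℝ) * L ^ B ≤ y → ∀ w : ℕ → ℕ → ℕ, (∀ q s, w q s ≤ y) →
      ∑ q ∈ Icc 1 Q, ∑ s ∈ range q, (∑ n ∈ (Icc 1 (w q s)).filter (fun n => n % q = s),
        u n * (prW F a n - ∏ i, lz z ((F i).eval (n : ℤ) + a i))) ^ 2 ≤
        (y : ℝ) ^ 2 / L ^ A) ⊆ I.biUnion Bad := by
    intro a ha
    rw [mem_filter] at ha
    obtain ⟨haS, y, hy, hnot⟩ := ha
    by_contra hcon
    apply hnot
    have hgood : ∀ cc ∈ I, ∀ y' : ℕ, Yr θ (2 * e) N d y' →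
        |∑ n ∈ Icc 1 y', tw u cc n * wd z F a n| ≤ (y' : ℝ) / L ^ A2 := by
      intro cc hcc y' hy'
      by_contra hlt
      rw [not_le] at hlt
      apply hcon
      rw [mem_biUnion]
      refine ⟨cc, hcc, ?_⟩
      rw [hBad]
      simp only [mem_filter]
      refine ⟨haS, y', hy', ?_⟩
      rw [thU_eq]
      exact hlt
    -- sizes
    have hyN : y ≤ N := (Nat.le_self_pow (by omega) y).trans hy.2
    have hy0 : 1 ≤ y := by
      by_contra h0
      have h0' : y = 0 := by omega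
      have h6 := hy.1
      rw [h0', Nat.cast_zero, zero_pow (by omega)] at h6
      have h7 : 0 < (N : ℝ) ^ (θ + 1 / e : ℝ) := Real.rpow_pos_of_pos hN0 _
      linarith
    have hyR : (0 : ℝ) < y := by exact_mod_cast hy0
    set l := Real.log (y : ℝ) with hl
    have hlL : l ≤ L := Real.log_le_log hyR (by exact_mod_cast hyN)
    have hLl : L ≤ c * l := by
      have h6 := Real.log_le_log (Real.rpow_pos_of_pos hN0 _) hy.1
      rw [Real.log_rpow hN0, Real.log_pow, ← hL, ← hl] at h6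
      have h7 : 1 / (e : ℝ) * L ≤ (θ + 1 / e) * L := by
        apply mul_le_mul_of_nonneg_right _ hL0.le
        linarith
      have h8 : 1 / (e : ℝ) * L ≤ d * l := h7.trans h6
      have h9 := mul_le_mul_of_nonneg_left h8 (by linarith : (0 : ℝ) ≤ e)
      have h10 : (e : ℝ) * (1 / e * L) = L := by field_simp
      rw [h10] at h9
      rw [hc]
      linarith
    have hlb : c ^ (T + 2 * r) + c ^ A + Real.log ((N₁ : ℝ) + 1) + 1 ≤ l := by
      have h6 : c * (c ^ (T + 2 * r) + c ^ A + Real.log (N₁ + 1) + 1) ≤ c * l := by linarith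
      exact le_of_mul_le_mul_left h6 (by linarith)
    have hcT' : 0 ≤ c ^ (T + 2 * r) := by positivity
    have hcA' : 0 ≤ c ^ A := by positivity
    have hl1 : 1 ≤ l := by linarith
    have hl0 : 0 < l := by linarith
    have hyN1 : N₁ ≤ y := by
      have h6 : Real.log ((N₁ : ℝ) + 1) ≤ Real.log y := by rw [← hl]; linarith
      have h7 := (Real.log_le_log_iff (by positivity) hyR).1 h6
      have h8 : (N₁ : ℝ) ≤ y := by linarith
      exact_mod_cast h8
    have hvb : ∀ n ∈ Icc 1 y, |u n * wd z F a n| ≤ L ^ (T + 2 * r) := by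
      intro n hn
      rw [mem_Icc] at hn
      have hnd : n ^ d ≤ N := (Nat.pow_le_pow_left hn.2 d).trans hy.2
      have hnN : n ≤ N := hn.2.trans hyN
      have h6 : ∀ i, ((F i).eval (n : ℤ) + a i).natAbs ≤ N ^ 2 := by
        intro i
        have h7 := hK i n hn.1 n (mem_Icc.2 ⟨hn.1, le_rfl⟩)
        rw [hF i] at h7
        have h8 := Fintype.mem_piFinset.mp haS i
        rw [mem_Icc] at h8
        have h9 : |(F i).eval (n : ℤ)| ≤ (K i : ℤ) * N := by
          refine h7.trans ?_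
          have : ((n : ℤ)) ^ d ≤ N := by exact_mod_cast hnd
          exact mul_le_mul_of_nonneg_left this (by positivity)
        have h10 : |a i| ≤ (N : ℤ) := abs_le.2 ⟨h8.1, h8.2⟩
        have h11 : |(F i).eval (n : ℤ) + a i| ≤ (N : ℤ) ^ 2 := by
          refine (abs_add_le _ _).trans ?_
          have h12 : ((K i : ℤ) + 1) ≤ N := by exact_mod_cast hKi i
          have h13 : (0 : ℤ) ≤ N := by positivity
          nlinarith
        have h12 : ((((F i).eval (n : ℤ) + a i).natAbs : ℕ) : ℤ) ≤ (N : ℤ) ^ 2 := by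
          rw [Int.natCast_natAbs]
          exact h11
        exact_mod_cast h12
      have h7 := wd_le z F a n N hN1 h6 hL2 hVz
      rw [abs_mul, pow_add]
      exact mul_le_mul (hu n hnN) h7 (abs_nonneg _) (by positivity)
    have hvb' : L ^ (T + 2 * r) ≤ l ^ (T + 2 * r + 1) := by
      calc L ^ (T + 2 * r) ≤ (c * l) ^ (T + 2 * r) := pow_le_pow_left₀ hL0.le hLl _
        _ = c ^ (T + 2 * r) * l ^ (T + 2 * r) := mul_pow _ _ _
        _ ≤ l * l ^ (T + 2 * r) := by
          apply mul_le_mul_of_nonneg_right _ (by positivity)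
          linarith
        _ = l ^ (T + 2 * r + 1) := by ring
    intro Q hQ w hw
    have hmain := hB y hyN1 Q (by
        refine le_trans ?_ hQ
        exact mul_le_mul_of_nonneg_left (pow_le_pow_left₀ hl0.le hlL B) (Nat.cast_nonneg _))
      (fun n => ((u n * wd z F a n : ℝ) : ℂ)) (by
        intro n hn
        rw [Complex.norm_real, Real.norm_eq_abs]
        exact (hvb n hn).trans hvb') (by
        intro y' m hy'y hm hmA b
        have hmL : (m : ℝ) ≤ L ^ A1 := hmA.trans (pow_le_pow_left₀ hl0.le hlL _)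
        have hmM : m ≤ M := Nat.le_floor hmL
        have hgoal : (y : ℝ) / L ^ A1 ≤ y / l ^ A1 := by
          apply div_le_div_of_nonneg_left hyR.le (by positivity)
          exact pow_le_pow_left₀ hl0.le hlL _
        refine le_trans ?_ hgoal
        by_cases hY : Yr θ (2 * e) N d y'
        · have hmod : ∑ n ∈ Icc 1 y', ((u n * wd z F a n : ℝ) : ℂ) * ee (n * ((b : ℝ) / m)) =
              ∑ n ∈ Icc 1 y', ((u n * wd z F a n : ℝ) : ℂ) *
                ee (n * (((b % (m : ℤ)).toNat : ℝ) / m)) :=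
            sum_congr rfl fun n _ => by rw [ee_mod n m b hm]
          rw [hmod]
          refine (sum_ee u (wd z F a) (b % (m : ℤ)).toNat m y').trans ?_
          have hbm : (b % (m : ℤ)).toNat < M + 1 := by
            have h6 : b % (m : ℤ) < m := Int.emod_lt_of_pos b (by omega)
            have h7 : 0 ≤ b % (m : ℤ) := Int.emod_nonneg b (by omega)
            omega
          have hmem : ∀ t : Bool, ((b % (m : ℤ)).toNat, m, t) ∈ I := by
            intro t
            rw [hI, mem_product, mem_product]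
            exact ⟨mem_range.2 hbm, mem_range.2 (Nat.lt_succ_of_le hmM), mem_univ _⟩
          have g1 := hgood _ (hmem true) y' hY
          have g2 := hgood _ (hmem false) y' hY
          have hy'R : (y' : ℝ) ≤ y := by exact_mod_cast hy'y
          calc _ ≤ (y' : ℝ) / L ^ A2 + y' / L ^ A2 := add_le_add g1 g2
            _ = 2 * (y' : ℝ) / L ^ A2 := by ring
            _ ≤ L * y / L ^ A2 := by gcongr
            _ = y / L ^ (2 * A1 + A + 4) := by
              rw [hA2, pow_succ L (2 * A1 + A + 4)]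
              field_simp
            _ ≤ y / L ^ A1 := by
              apply div_le_div_of_nonneg_left hyR.le (by positivity)
              exact pow_le_pow_right₀ hL1 (by omega)
        · have hy'd : y' ^ d ≤ N := (Nat.pow_le_pow_left hy'y d).trans hy.2
          have hlt : (y' : ℝ) ^ d < (N : ℝ) ^ (θ + 1 / (2 * e : ℕ) : ℝ) := by
            by_contra hge
            rw [not_lt] at hge
            exact hY ⟨hge, hy'd⟩
          have hprod : ((y' : ℝ) * L ^ D) ^ d ≤ (y : ℝ) ^ d := by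
            calc ((y' : ℝ) * L ^ D) ^ d = (y' : ℝ) ^ d * L ^ (D * d) := by rw [mul_pow, pow_mul]
              _ ≤ (N : ℝ) ^ (θ + 1 / (2 * e : ℕ) : ℝ) * (N : ℝ) ^ (1 / (2 * e : ℕ) : ℝ) := by
                gcongr
              _ = (N : ℝ) ^ (θ + 1 / e : ℝ) := by
                rw [← Real.rpow_add hN0]
                congr 1
                push_cast
                field_simp
                ring
              _ ≤ (y : ℝ) ^ d := hy.1
          have hy'L : (y' : ℝ) * L ^ D ≤ y :=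
            (pow_le_pow_iff_left₀ (by positivity) hyR.le (by omega)).1 hprod
          have htriv : ‖∑ n ∈ Icc 1 y', ((u n * wd z F a n : ℝ) : ℂ) * ee (n * ((b : ℝ) / m))‖ ≤
              y' * L ^ (T + 2 * r) := by
            refine (norm_sum_le _ _).trans ?_
            calc ∑ n ∈ Icc 1 y', ‖((u n * wd z F a n : ℝ) : ℂ) * ee (n * ((b : ℝ) / m))‖ ≤
                ∑ _n ∈ Icc 1 y', L ^ (T + 2 * r) := by
                  refine sum_le_sum fun n hn => ?_
                  rw [norm_mul, norm_ee, mul_one, Complex.norm_real, Real.norm_eq_abs]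
                  apply hvb n
                  rw [mem_Icc] at hn ⊢
                  omega
              _ = y' * L ^ (T + 2 * r) := by
                rw [sum_const, Nat.card_Icc, nsmul_eq_mul, Nat.add_sub_cancel]
          refine htriv.trans ?_
          rw [le_div_iff₀ (by positivity)]
          calc (y' : ℝ) * L ^ (T + 2 * r) * L ^ A1 = y' * L ^ D := by
                rw [hD, mul_assoc, ← pow_add]
                congr 2
                omega
            _ ≤ y := hy'L) w hw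
    have hAl : L ^ A ≤ l ^ (A + 1) := by
      calc L ^ A ≤ (c * l) ^ A := pow_le_pow_left₀ hL0.le hLl _
        _ = c ^ A * l ^ A := mul_pow _ _ _
        _ ≤ l * l ^ A := by
          apply mul_le_mul_of_nonneg_right _ (by positivity)
          linarith
        _ = l ^ (A + 1) := by ring
    calc ∑ q ∈ Icc 1 Q, ∑ s ∈ range q, (∑ n ∈ (Icc 1 (w q s)).filter (fun n => n % q = s),
        u n * (prW F a n - ∏ i, lz z ((F i).eval (n : ℤ) + a i))) ^ 2 =
        ∑ q ∈ Icc 1 Q, ∑ s ∈ range q, ‖∑ n ∈ (Icc 1 (w q s)).filter (fun n => n % q = s),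
          ((u n * wd z F a n : ℝ) : ℂ)‖ ^ 2 := by
          refine sum_congr rfl fun q _ => sum_congr rfl fun s _ => ?_
          rw [← Complex.ofReal_sum, Complex.norm_real, Real.norm_eq_abs, sq_abs]
          rfl
      _ ≤ (y : ℝ) ^ 2 / l ^ (A + 1) := hmain
      _ ≤ (y : ℝ) ^ 2 / L ^ A := by
        apply div_le_div_of_nonneg_left (by positivity) (by positivity) hAl
  have hcard : ((I.biUnion Bad).card : ℝ) ≤ (N : ℝ) ^ r / L ^ A := by
    have h6 : ((I.biUnion Bad).card : ℝ) ≤ ∑ cc ∈ I, ((Bad cc).card : ℝ) := by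
      exact_mod_cast card_biUnion_le
    refine h6.trans ((sum_le_sum fun cc _ => hBadc cc).trans ?_)
    rw [sum_const, nsmul_eq_mul]
    calc (I.card : ℝ) * ((N : ℝ) ^ r / L ^ A2) ≤ L ^ (2 * A1 + 3) * ((N : ℝ) ^ r / L ^ A2) := by
          gcongr
      _ = (N : ℝ) ^ r / L ^ (A + 2) := by
        rw [hA2, show 2 * A1 + A + 5 = (2 * A1 + 3) + (A + 2) by ring, pow_add L (2 * A1 + 3)]
        field_simp
      _ ≤ (N : ℝ) ^ r / L ^ A := by
        apply div_le_div_of_nonneg_left (by positivity) (by positivity)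
        exact pow_le_pow_right₀ hL1 (by omega)
  have hfin : ((S.filter (fun a => ∃ y : ℕ, Yr θ e N d y ∧
    ¬ ∀ Q : ℕ, (Q : ℝ) * L ^ B ≤ y → ∀ w : ℕ → ℕ → ℕ, (∀ q s, w q s ≤ y) →
      ∑ q ∈ Icc 1 Q, ∑ s ∈ range q, (∑ n ∈ (Icc 1 (w q s)).filter (fun n => n % q = s),
        u n * (prW F a n - ∏ i, lz z ((F i).eval (n : ℤ) + a i))) ^ 2 ≤
        (y : ℝ) ^ 2 / L ^ A)).card : ℝ) ≤ ((I.biUnion Bad).card : ℝ) := by
    exact_mod_cast card_le_card hsub
  exact hfin.trans hcard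

end Pool.Agent.helper24_UT.R36
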