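import Pool.Agent.helper24_UT.Stm21

/-!
# Project UT (helper24), part 24: few values of `F(n) + a`, `n` in all classes to all moduli. Statements.
-/

set_option autoImplicit false

namespace Pool.Agent.helper24_UT

open Finset Polynomial
open Pool.Agent.H373R2.T7 (lamI lamzI lamz Vz pz energy)

open Classical in
/-- (260) the Liouville and the Moebius function of `|F(n) + a|` in all classes to all moduli, with arbitrary weights -/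
def S_R35 (θ : ℝ) : Prop := ∀ F : ℤ[X], 1 ≤ F.natDegree → ∀ e A T : ℕ, 1 ≤ e → ∃ B N₀ : ℕ, ∀ N : ℕ, N₀ ≤ N →
  ∀ u : ℕ → ℝ, (∀ n, n ≤ N → |u n| ≤ (Real.log N) ^ T) → ∀ f : ℤ → ℝ, (f = liB ∨ f = muB) →
  (((Icc (-(N : ℤ)) N).filter (fun a => ∃ y : ℕ, Yr θ e N F.natDegree y ∧
    ¬ ∀ Q : ℕ, (Q : ℝ) * (Real.log N) ^ B ≤ y → ∀ w : ℕ → ℕ → ℕ, (∀ q s, w q s ≤ y) →
      ∑ q ∈ Icc 1 Q, ∑ s ∈ range q, (∑ n ∈ (Icc 1 (w q s)).filter (fun n => n % q = s), u n * f (F.eval (n : ℤ) + a)) ^ 2 ≤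
        (y : ℝ) ^ 2 / (Real.log N) ^ A)).card : ℝ) ≤ N / (Real.log N) ^ A

open Classical in
/-- `∏ log |F_i(n) + a_i|` if all `|F_i(n) + a_i|` are prime, `0` otherwise -/
noncomputable def prW {r : ℕ} (F : Fin r → ℤ[X]) (a : Fin r → ℤ) (n : ℕ) : ℝ :=
  if ∀ i, ((F i).eval (n : ℤ) + a i).natAbs.Prime then ∏ i, Real.log (((F i).eval (n : ℤ) + a i).natAbs : ℝ) else 0

open Classical in
/-- (261) prime values minus model in all classes to all moduli, with arbitrary weights -/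
def S_R36 (θ : ℝ) : Prop := ∀ (r d : ℕ) (F : Fin r → ℤ[X]), 1 ≤ d → (∀ i, (F i).natDegree = d) → ∀ e A T : ℕ, 1 ≤ e →
  ∃ E₀ B : ℕ, ∀ E₁ : ℕ, ∃ N₀ : ℕ, ∀ N : ℕ, N₀ ≤ N →
  ∀ z : ℕ, (Real.log N) ^ E₀ ≤ z → (z : ℝ) ≤ (Real.log N) ^ E₁ → ∀ u : ℕ → ℝ, (∀ n, n ≤ N → |u n| ≤ (Real.log N) ^ T) →
  (((Fintype.piFinset (fun _ : Fin r => Icc (-(N : ℤ)) N)).filter (fun a => ∃ y : ℕ, Yr θ e N d y ∧
    ¬ ∀ Q : ℕ, (Q : ℝ) * (Real.log N) ^ B ≤ y → ∀ w : ℕ → ℕ → ℕ, (∀ q s, w q s ≤ y) →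
      ∑ q ∈ Icc 1 Q, ∑ s ∈ range q, (∑ n ∈ (Icc 1 (w q s)).filter (fun n => n % q = s),
        u n * (prW F a n - ∏ i, lz z ((F i).eval (n : ℤ) + a i))) ^ 2 ≤
        (y : ℝ) ^ 2 / (Real.log N) ^ A)).card : ℝ) ≤ (N : ℝ) ^ r / (Real.log N) ^ A

open Classical in
/-- (262) simultaneous prime values, the arguments in all classes to all moduli, with the Euler product -/
def S_R37 (θ : ℝ) : Prop := ∀ (r d : ℕ) (F : Fin r → ℤ[X]), 1 ≤ d → (∀ i, (F i).natDegree = d) → ∀ e A : ℕ, 1 ≤ e →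
  ∃ E₀ : ℕ, ∀ E₁ : ℕ, ∃ N₀ : ℕ, ∀ N : ℕ, N₀ ≤ N → ∀ z : ℕ, (Real.log N) ^ E₀ ≤ z → (z : ℝ) ≤ (Real.log N) ^ E₁ →
  (((Fintype.piFinset (fun _ : Fin r => Icc (-(N : ℤ)) N)).filter (fun a => ∃ y : ℕ, Yr θ e N d y ∧
    ¬ ∀ Q : ℕ, (Q : ℝ) * Real.exp (2 * Real.sqrt (Real.log N)) ≤ y → ∀ w : ℕ → ℕ → ℕ, (∀ q s, w q s ≤ y) →
      ∑ q ∈ Icc 1 Q, ∑ s ∈ range q, (∑ n ∈ (Icc 1 (w q s)).filter (fun n => n % q = s), prW F a n -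
        (w q s : ℝ) / q * sg z (fun i => (F i).comp (C (q : ℤ) * X + C (s : ℤ)) + C (a i))) ^ 2 ≤
        (y : ℝ) ^ 2 / (Real.log N) ^ A)).card : ℝ) ≤ (N : ℝ) ^ r / (Real.log N) ^ A

end Pool.Agent.helper24_UT
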