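/-
UT_R37   (project UT of helper24: primes at almost all systems of polynomials; very_famous ids, partial results)
-/
import Pool.Agent.helper24_UT.Stm24
import Pool.Agent.helper24_UT.Stm17

set_option autoImplicit false

namespace Pool.Agent.helper24_UT.R37

open Finset Polynomial
open Pool.Agent.helper24_UT
open Pool.Agent.H373R2.T7 (Vz pz mem_pz Vz_pos Vz_inv_small)

theorem expbig (c : ℝ) (K : ℕ) : ∃ N₀ : ℕ, ∀ N : ℕ, N₀ ≤ N →
    c * (Real.log N) ^ K ≤ Real.exp (2 * Real.sqrt (Real.log N)) := by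
  have hlim : Filter.Tendsto (fun N : ℕ => Real.log (N : ℝ)) Filter.atTop Filter.atTop :=
    Real.tendsto_log_atTop.comp (tendsto_natCast_atTop_atTop (R := ℝ))
  have hs : Filter.Tendsto (fun N : ℕ => Real.sqrt (Real.log (N : ℝ))) Filter.atTop Filter.atTop :=
    Real.tendsto_sqrt_atTop.comp hlim
  have h3 := (Real.isLittleO_pow_exp_atTop (n := 2 * K)).bound (show (0 : ℝ) < 1 / (|c| + 1) by positivity)
  have h4 := hs.eventually h3
  obtain ⟨N0, h0⟩ := Filter.eventually_atTop.1 (h4.and (hlim.eventually_ge_atTop 1))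
  refine ⟨N0, fun N hN => ?_⟩
  obtain ⟨h5, h6⟩ := h0 N hN
  have hL0 : 0 ≤ Real.log (N : ℝ) := by linarith
  rw [Real.norm_of_nonneg (by positivity), Real.norm_of_nonneg (Real.exp_pos _).le, pow_mul,
    Real.sq_sqrt hL0, one_div, inv_mul_eq_div, le_div_iff₀ (by positivity)] at h5
  have h7 : c * Real.log N ^ K ≤ Real.log N ^ K * (|c| + 1) := by
    have := le_abs_self c
    have h8 : 0 ≤ Real.log (N : ℝ) ^ K := by positivity
    nlinarith
  refine (h7.trans h5).trans ?_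
  apply Real.exp_le_exp.mpr
  have := Real.sqrt_nonneg (Real.log (N : ℝ))
  linarith

theorem class_sum (q s W : ℕ) (hq : 1 ≤ q) (hs : s < q) (g : ℕ → ℝ) (M : ℝ) (hM : ∀ n, |g n| ≤ M) :
    |∑ n ∈ (Icc 1 W).filter (fun n => n % q = s), g n - ∑ m ∈ Icc 1 ((W - s) / q), g (q * m + s)| ≤ M := by
  have hM0 : 0 ≤ M := (abs_nonneg _).trans (hM 0)
  have hinj : Set.InjOn (fun m => q * m + s) (Icc 1 ((W - s) / q) : Set ℕ) := by
    intro m _ m' _ h
    simp only at h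
    exact Nat.eq_of_mul_eq_mul_left hq (Nat.add_right_cancel h)
  have hI : (Icc 1 ((W - s) / q)).image (fun m => q * m + s) ⊆
      (Icc 1 W).filter (fun n => n % q = s) := by
    intro n hn
    obtain ⟨m, hm, rfl⟩ := Finset.mem_image.mp hn
    obtain ⟨h1, h2⟩ := Finset.mem_Icc.mp hm
    have h3 : m * q ≤ W - s := (Nat.le_div_iff_mul_le hq).mp h2
    have h4 : 1 ≤ m * q := Nat.mul_pos h1 hq
    rw [Finset.mem_filter, Finset.mem_Icc]
    rw [mul_comm q m]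
    refine ⟨⟨by omega, by omega⟩, ?_⟩
    rw [Nat.mul_add_mod_self_right, Nat.mod_eq_of_lt hs]
  rw [← Finset.sum_image (f := g) hinj, ← Finset.sum_sdiff hI, add_sub_cancel_right]
  have hsub : (Icc 1 W).filter (fun n => n % q = s) \
      (Icc 1 ((W - s) / q)).image (fun m => q * m + s) ⊆ {s} := by
    intro n hn
    rw [Finset.mem_sdiff, Finset.mem_filter, Finset.mem_Icc] at hn
    obtain ⟨⟨⟨h1, h2⟩, h3⟩, h4⟩ := hn
    rw [Finset.mem_singleton]
    have h5 := Nat.div_add_mod n q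
    rw [h3] at h5
    by_contra hne
    apply h4
    rw [Finset.mem_image]
    refine ⟨n / q, Finset.mem_Icc.mpr ⟨?_, ?_⟩, h5⟩
    · rcases Nat.eq_zero_or_pos (n / q) with h6 | h6
      · rw [h6] at h5
        omega
      · exact h6
    · rw [Nat.le_div_iff_mul_le hq, mul_comm]
      omega
  refine (Finset.abs_sum_le_sum_abs _ _).trans ?_
  refine (Finset.sum_le_sum fun n _ => hM n).trans ?_
  rw [Finset.sum_const, nsmul_eq_mul]
  have h7 : ((((Icc 1 W).filter (fun n => n % q = s) \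
      (Icc 1 ((W - s) / q)).image (fun m => q * m + s)).card : ℕ) : ℝ) ≤ 1 := by
    have := Finset.card_le_card hsub
    rw [Finset.card_singleton] at this
    exact_mod_cast this
  nlinarith

theorem Y_bd (q s W : ℕ) (hq : 1 ≤ q) (hs : s < q) :
    (((W - s) / q : ℕ) : ℝ) ≤ (W : ℝ) / q ∧ |(((W - s) / q : ℕ) : ℝ) - (W : ℝ) / q| ≤ 2 := by
  have hq0 : (0 : ℝ) < q := by exact_mod_cast hq
  have h1 : (W - s) / q * q ≤ W := (Nat.div_mul_le_self _ _).trans (Nat.sub_le _ _)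
  have h2 : W ≤ q * ((W - s) / q + 2) := by
    have h3 := Nat.lt_mul_div_succ (W - s) hq
    have h4 : q * ((W - s) / q + 2) = q * ((W - s) / q + 1) + q := by ring
    rw [h4]
    have : q * ((W - s) / q + 1) = q * ((W - s) / q).succ := rfl
    omega
  have h1' : (((W - s) / q : ℕ) : ℝ) * q ≤ W := by exact_mod_cast h1
  have h2' : (W : ℝ) ≤ q * ((((W - s) / q : ℕ) : ℝ) + 2) := by exact_mod_cast h2
  have h3 : (((W - s) / q : ℕ) : ℝ) ≤ (W : ℝ) / q := by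
    rw [le_div_iff₀ hq0]; exact h1'
  have h4 : (W : ℝ) / q ≤ (((W - s) / q : ℕ) : ℝ) + 2 := by
    rw [div_le_iff₀ hq0]; linarith
  refine ⟨h3, ?_⟩
  rw [abs_le]
  constructor <;> linarith

theorem lz_bd (z : ℕ) (L : ℝ) (hV : (Vz z)⁻¹ ≤ L) (m : ℤ) : 0 ≤ lz z m ∧ lz z m ≤ L := by
  have h0 : 0 < (Vz z)⁻¹ := inv_pos.mpr (Vz_pos z)
  unfold lz
  split_ifs
  · exact ⟨h0.le, hV⟩
  · exact ⟨le_rfl, h0.le.trans hV⟩

theorem prod_bd {r : ℕ} (z : ℕ) (L : ℝ) (hV : (Vz z)⁻¹ ≤ L) (m : Fin r → ℤ) :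
    |∏ i, lz z (m i)| ≤ L ^ r := by
  rw [abs_of_nonneg (Finset.prod_nonneg fun i _ => (lz_bd z L hV _).1)]
  refine (Finset.prod_le_prod (fun i _ => (lz_bd z L hV _).1) (fun i _ => (lz_bd z L hV _).2)).trans ?_
  rw [Finset.prod_const, Finset.card_univ, Fintype.card_fin]

theorem sg_bd {r : ℕ} (z : ℕ) (L : ℝ) (hV : (Vz z)⁻¹ ≤ L) (G : Fin r → ℤ[X]) : |sg z G| ≤ L ^ r := by
  have hp2 : ∀ p ∈ pz z, (2 : ℝ) ≤ p := fun p hp => by
    exact_mod_cast (mem_pz.mp hp).2.two_le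
  have hpos : ∀ p ∈ pz z, (0 : ℝ) < 1 - 1 / p := fun p hp => by
    have := hp2 p hp
    rw [sub_pos, div_lt_one (by linarith)]
    linarith
  have hom : ∀ p ∈ pz z, (0 : ℝ) ≤ 1 - (om G p : ℝ) / p ∧ 1 - (om G p : ℝ) / p ≤ 1 := fun p hp => by
    have h2 := hp2 p hp
    have h3 : om G p ≤ p := by
      unfold om
      refine (Finset.card_filter_le _ _).trans ?_
      rw [Finset.card_range]
    have h4 : (om G p : ℝ) ≤ p := by exact_mod_cast h3
    have h5 : (0 : ℝ) ≤ om G p := Nat.cast_nonneg _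
    constructor
    · rw [sub_nonneg, div_le_one (by linarith)]; exact h4
    · have : (0 : ℝ) ≤ (om G p : ℝ) / p := by positivity
      linarith
  have h0 : 0 ≤ sg z G := by
    unfold sg
    exact Finset.prod_nonneg fun p hp => div_nonneg (hom p hp).1 (pow_nonneg (hpos p hp).le _)
  rw [abs_of_nonneg h0]
  have h1 : sg z G ≤ ((Vz z)⁻¹) ^ r := by
    unfold sg Vz
    rw [← Finset.prod_inv_distrib, ← Finset.prod_pow]
    apply Finset.prod_le_prod
    · intro p hp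
      exact div_nonneg (hom p hp).1 (pow_nonneg (hpos p hp).le _)
    · intro p hp
      rw [inv_pow, ← one_div]
      exact div_le_div_of_nonneg_right (hom p hp).2 (pow_nonneg (hpos p hp).le _)
  refine h1.trans ?_
  exact pow_le_pow_left₀ (inv_pos.mpr (Vz_pos z)).le hV r

theorem deg_bd {d : ℕ} (F : ℤ[X]) (hF : F.natDegree = d) (q s : ℕ) (a : ℤ) :
    (F.comp (C (q : ℤ) * X + C (s : ℤ)) + C a).natDegree ≤ d := by
  refine (natDegree_add_le _ _).trans ?_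
  rw [natDegree_C, max_le_iff]
  refine ⟨?_, Nat.zero_le _⟩
  refine natDegree_comp_le.trans ?_
  rw [hF]
  have := natDegree_linear_le (a := (q : ℤ)) (b := (s : ℤ))
  nlinarith

theorem class_bd {r d : ℕ} (F : Fin r → ℤ[X]) (hF : ∀ i, (F i).natDegree = d) (A : ℕ) (L : ℝ)
    (hL32 : 32 ≤ L) (z : ℕ) (hV : (Vz z)⁻¹ ≤ L)
    (hM : ∀ G : Fin r → ℤ[X], (∀ i, (G i).natDegree ≤ d) → ∀ y : ℕ, Real.exp (Real.sqrt L) ≤ y →
      |∑ n ∈ Icc 1 y, ∏ i, lz z ((G i).eval (n : ℤ)) - y * sg z G| ≤ y / L ^ (A + 2))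
    (a : Fin r → ℤ) (y W q s : ℕ) (hq : 1 ≤ q) (hs : s < q) (hW : W ≤ y) :
    |∑ n ∈ (Icc 1 W).filter (fun n => n % q = s), ∏ i, lz z ((F i).eval (n : ℤ) + a i) -
      (W : ℝ) / q * sg z (fun i => (F i).comp (C (q : ℤ) * X + C (s : ℤ)) + C (a i))| ≤
      5 * L ^ r * Real.exp (Real.sqrt L) + (y : ℝ) / q / L ^ (A + 2) := by
  set G : Fin r → ℤ[X] := fun i => (F i).comp (C (q : ℤ) * X + C (s : ℤ)) + C (a i) with hG
  set g : ℕ → ℝ := fun n => ∏ i, lz z ((F i).eval (n : ℤ) + a i) with hg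
  have hq0 : (0 : ℝ) < q := by exact_mod_cast hq
  have hL0 : 0 < L := by linarith
  have hLr : 0 < L ^ r := by positivity
  have hgb : ∀ n, |g n| ≤ L ^ r := fun n => prod_bd z L hV _
  obtain ⟨Y, hY⟩ : ∃ Y : ℕ, Y = (W - s) / q := ⟨_, rfl⟩
  have h1 := class_sum q s W hq hs g (L ^ r) hgb
  obtain ⟨h2, h3⟩ := Y_bd q s W hq hs
  rw [← hY] at h1 h2 h3
  have hsg := sg_bd z L hV G
  have heval : ∀ m : ℕ, g (q * m + s) = ∏ i, lz z ((G i).eval (m : ℤ)) := by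
    intro m
    simp only [hg, hG]
    apply Finset.prod_congr rfl
    intro i _
    congr 1
    simp only [eval_add, eval_comp, eval_mul, eval_C, eval_X]
    push_cast
    rfl
  have hYy : (Y : ℝ) ≤ (y : ℝ) / q := by
    refine h2.trans ?_
    apply div_le_div_of_nonneg_right _ hq0.le
    exact_mod_cast hW
  have he1 : 1 ≤ Real.exp (Real.sqrt L) := Real.one_le_exp (Real.sqrt_nonneg _)
  have hY0 : (0 : ℝ) ≤ Y := Nat.cast_nonneg _
  have hyq : 0 ≤ (y : ℝ) / q / L ^ (A + 2) := by positivity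
  have hsum : ∑ m ∈ Icc 1 Y, g (q * m + s) = ∑ m ∈ Icc 1 Y, ∏ i, lz z ((G i).eval (m : ℤ)) :=
    Finset.sum_congr rfl fun m _ => heval m
  have hmid : |∑ m ∈ Icc 1 Y, g (q * m + s) - Y * sg z G| ≤
      2 * L ^ r * Real.exp (Real.sqrt L) + (y : ℝ) / q / L ^ (A + 2) := by
    by_cases hbig : Real.exp (Real.sqrt L) ≤ Y
    · rw [hsum]
      refine (hM G (fun i => deg_bd (F i) (hF i) q s (a i)) Y hbig).trans ?_
      have h4 : (Y : ℝ) / L ^ (A + 2) ≤ (y : ℝ) / q / L ^ (A + 2) :=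
        div_le_div_of_nonneg_right hYy (by positivity)
      have h5 : 0 ≤ 2 * L ^ r * Real.exp (Real.sqrt L) := by positivity
      linarith
    · push Not at hbig
      have h4 : |∑ m ∈ Icc 1 Y, g (q * m + s)| ≤ Y * L ^ r := by
        refine (Finset.abs_sum_le_sum_abs _ _).trans ?_
        refine (Finset.sum_le_sum fun m _ => hgb _).trans ?_
        rw [Finset.sum_const, Nat.card_Icc, Nat.add_sub_cancel, nsmul_eq_mul]
      have h5 : |(Y : ℝ) * sg z G| ≤ Y * L ^ r := by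
        rw [abs_mul, abs_of_nonneg hY0]
        exact mul_le_mul_of_nonneg_left hsg hY0
      have h6 : (Y : ℝ) * L ^ r ≤ Real.exp (Real.sqrt L) * L ^ r :=
        mul_le_mul_of_nonneg_right hbig.le hLr.le
      have h7 := abs_sub (∑ m ∈ Icc 1 Y, g (q * m + s)) (Y * sg z G)
      nlinarith
  have hlast : |((Y : ℝ) - (W : ℝ) / q) * sg z G| ≤ 2 * L ^ r := by
    rw [abs_mul]
    exact mul_le_mul h3 hsg (abs_nonneg _) (by norm_num)
  have hdec : ∑ n ∈ (Icc 1 W).filter (fun n => n % q = s), g n - (W : ℝ) / q * sg z G =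
      (∑ n ∈ (Icc 1 W).filter (fun n => n % q = s), g n - ∑ m ∈ Icc 1 Y, g (q * m + s)) +
      ((∑ m ∈ Icc 1 Y, g (q * m + s) - Y * sg z G) + ((Y : ℝ) - (W : ℝ) / q) * sg z G) := by ring
  rw [hdec]
  refine (abs_add_le _ _).trans ?_
  have h8 := abs_add_le (∑ m ∈ Icc 1 Y, g (q * m + s) - Y * sg z G) (((Y : ℝ) - (W : ℝ) / q) * sg z G)
  have h9 : L ^ r ≤ L ^ r * Real.exp (Real.sqrt L) := le_mul_of_one_le_right hLr.le he1
  nlinarith

theorem core {r d : ℕ} (F : Fin r → ℤ[X]) (hF : ∀ i, (F i).natDegree = d) (A : ℕ) (N : ℕ) (L : ℝ)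
    (hLN : L = Real.log N) (hL32 : 32 ≤ L) (z : ℕ) (hV : (Vz z)⁻¹ ≤ L)
    (hM : ∀ G : Fin r → ℤ[X], (∀ i, (G i).natDegree ≤ d) → ∀ y : ℕ, Real.exp (Real.sqrt L) ≤ y →
      |∑ n ∈ Icc 1 y, ∏ i, lz z ((G i).eval (n : ℤ)) - y * sg z G| ≤ y / L ^ (A + 2))
    (a : Fin r → ℤ) (y Q : ℕ) (hyN : y ≤ N) (hQ : (Q : ℝ) * Real.exp (2 * Real.sqrt L) ≤ y)
    (hexp : 400 * L ^ (2 * r + A) ≤ Real.exp (2 * Real.sqrt L)) (w : ℕ → ℕ → ℕ)
    (hw : ∀ q s, w q s ≤ y) (P : ℕ → ℝ)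
    (h36 : ∑ q ∈ Icc 1 Q, ∑ s ∈ range q, (∑ n ∈ (Icc 1 (w q s)).filter (fun n => n % q = s),
      (P n - ∏ i, lz z ((F i).eval (n : ℤ) + a i))) ^ 2 ≤ (y : ℝ) ^ 2 / L ^ (A + 2)) :
    ∑ q ∈ Icc 1 Q, ∑ s ∈ range q, (∑ n ∈ (Icc 1 (w q s)).filter (fun n => n % q = s), P n -
        (w q s : ℝ) / q * sg z (fun i => (F i).comp (C (q : ℤ) * X + C (s : ℤ)) + C (a i))) ^ 2 ≤
        (y : ℝ) ^ 2 / L ^ A := by
  obtain ⟨e1, he1⟩ : ∃ e1, e1 = Real.exp (Real.sqrt L) := ⟨_, rfl⟩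
  obtain ⟨e2, he2⟩ : ∃ e2, e2 = Real.exp (2 * Real.sqrt L) := ⟨_, rfl⟩
  have he12 : e1 ^ 2 = e2 := by rw [he1, he2, ← Real.exp_nat_mul]; norm_num
  have he1p : 0 < e1 := by rw [he1]; exact Real.exp_pos _
  have he2p : 0 < e2 := by rw [he2]; exact Real.exp_pos _
  have he2g : 1 ≤ e2 := by
    rw [he2]; exact Real.one_le_exp (by positivity)
  rw [← he2] at hQ hexp
  have hL0 : 0 < L := by linarith
  have hQ0 : (0 : ℝ) ≤ Q := Nat.cast_nonneg _
  have hy0 : (0 : ℝ) ≤ y := Nat.cast_nonneg _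
  have hQy : (Q : ℝ) ≤ y := by nlinarith
  -- the pointwise bound
  have hpt : ∀ q ∈ Icc 1 Q, ∀ s ∈ range q,
      (∑ n ∈ (Icc 1 (w q s)).filter (fun n => n % q = s), P n -
        (w q s : ℝ) / q * sg z (fun i => (F i).comp (C (q : ℤ) * X + C (s : ℤ)) + C (a i))) ^ 2 ≤
      2 * (∑ n ∈ (Icc 1 (w q s)).filter (fun n => n % q = s),
        (P n - ∏ i, lz z ((F i).eval (n : ℤ) + a i))) ^ 2 +
      (100 * (L ^ (2 * r) * e2) + 4 * (y : ℝ) ^ 2 / L ^ (2 * A + 4) * (1 / (q : ℝ) ^ 2)) := by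
    intro q hq s hs
    have hq1 : 1 ≤ q := (Finset.mem_Icc.mp hq).1
    have hq0 : (0 : ℝ) < q := by exact_mod_cast hq1
    have hsq : s < q := Finset.mem_range.mp hs
    have hb := class_bd F hF A L hL32 z hV hM a y (w q s) q s hq1 hsq (hw q s)
    rw [← he1] at hb
    set x1 := ∑ n ∈ (Icc 1 (w q s)).filter (fun n => n % q = s),
        (P n - ∏ i, lz z ((F i).eval (n : ℤ) + a i)) with hx1
    set x2 := ∑ n ∈ (Icc 1 (w q s)).filter (fun n => n % q = s), ∏ i, lz z ((F i).eval (n : ℤ) + a i) -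
      (w q s : ℝ) / q * sg z (fun i => (F i).comp (C (q : ℤ) * X + C (s : ℤ)) + C (a i)) with hx2
    have hx : ∑ n ∈ (Icc 1 (w q s)).filter (fun n => n % q = s), P n -
        (w q s : ℝ) / q * sg z (fun i => (F i).comp (C (q : ℤ) * X + C (s : ℤ)) + C (a i)) = x1 + x2 := by
      rw [hx1, hx2, Finset.sum_sub_distrib]; ring
    rw [hx]
    have h1 : x2 ^ 2 ≤ (5 * L ^ r * e1 + (y : ℝ) / q / L ^ (A + 2)) ^ 2 := by
      rw [← sq_abs x2]
      exact pow_le_pow_left₀ (abs_nonneg _) hb 2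
    have h2 : (5 * L ^ r * e1 + (y : ℝ) / q / L ^ (A + 2)) ^ 2 ≤
        2 * (5 * L ^ r * e1) ^ 2 + 2 * ((y : ℝ) / q / L ^ (A + 2)) ^ 2 := by
      nlinarith [sq_nonneg (5 * L ^ r * e1 - (y : ℝ) / q / L ^ (A + 2))]
    have h3 : (5 * L ^ r * e1) ^ 2 = 25 * (L ^ (2 * r) * e2) := by
      rw [← he12, mul_comm 2 r, pow_mul]; ring
    have h4 : ((y : ℝ) / q / L ^ (A + 2)) ^ 2 = (y : ℝ) ^ 2 / L ^ (2 * A + 4) * (1 / (q : ℝ) ^ 2) := by
      rw [div_pow, div_pow, ← pow_mul, show (A + 2) * 2 = 2 * A + 4 by ring]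
      field_simp
    rw [h3, h4] at h2
    have h5 : (x1 + x2) ^ 2 ≤ 2 * x1 ^ 2 + 2 * x2 ^ 2 := by nlinarith [sq_nonneg (x1 - x2)]
    have h6 : 4 * (y : ℝ) ^ 2 / L ^ (2 * A + 4) * (1 / (q : ℝ) ^ 2) =
      2 * (2 * ((y : ℝ) ^ 2 / L ^ (2 * A + 4) * (1 / (q : ℝ) ^ 2))) := by ring
    rw [h6]
    linarith
  have hsum : ∑ q ∈ Icc 1 Q, ∑ s ∈ range q, (∑ n ∈ (Icc 1 (w q s)).filter (fun n => n % q = s), P n -
        (w q s : ℝ) / q * sg z (fun i => (F i).comp (C (q : ℤ) * X + C (s : ℤ)) + C (a i))) ^ 2 ≤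
      2 * ((y : ℝ) ^ 2 / L ^ (A + 2)) + (100 * (L ^ (2 * r) * e2) * (Q : ℝ) ^ 2 +
        4 * (y : ℝ) ^ 2 / L ^ (2 * A + 4) * (1 + Real.log Q)) := by
    refine (Finset.sum_le_sum fun q hq => Finset.sum_le_sum fun s hs => hpt q hq s hs).trans ?_
    have hsplit : ∀ (X : ℕ → ℕ → ℝ) (c1 c2 : ℝ),
        ∑ q ∈ Icc 1 Q, ∑ s ∈ range q, (2 * X q s + (c1 + c2 * (1 / (q : ℝ) ^ 2))) =
        2 * ∑ q ∈ Icc 1 Q, ∑ s ∈ range q, X q s + (∑ q ∈ Icc 1 Q, (q : ℝ) * c1 +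
          ∑ q ∈ Icc 1 Q, (q : ℝ) * (c2 * (1 / (q : ℝ) ^ 2))) := by
      intro X c1 c2
      rw [Finset.mul_sum, ← Finset.sum_add_distrib, ← Finset.sum_add_distrib]
      apply Finset.sum_congr rfl
      intro q _
      rw [Finset.sum_add_distrib, ← Finset.mul_sum, Finset.sum_const, Finset.card_range, nsmul_eq_mul]
      ring
    rw [hsplit]
    apply add_le_add
    · exact mul_le_mul_of_nonneg_left h36 (by norm_num)
    · apply add_le_add
      · rw [← Finset.sum_mul, mul_comm]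
        apply mul_le_mul_of_nonneg_left _ (by positivity)
        have h7 : ∀ q ∈ Icc 1 Q, (q : ℝ) ≤ Q := fun q hq => by
          exact_mod_cast (Finset.mem_Icc.mp hq).2
        refine (Finset.sum_le_sum h7).trans ?_
        rw [Finset.sum_const, Nat.card_Icc, Nat.add_sub_cancel, nsmul_eq_mul, sq]
      · have h7 : ∑ q ∈ Icc 1 Q, (q : ℝ) * (4 * (y : ℝ) ^ 2 / L ^ (2 * A + 4) * (1 / (q : ℝ) ^ 2)) =
            4 * (y : ℝ) ^ 2 / L ^ (2 * A + 4) * ∑ q ∈ Icc 1 Q, ((q : ℝ))⁻¹ := by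
          rw [Finset.mul_sum]
          apply Finset.sum_congr rfl
          intro q hq
          have hq0 : (q : ℝ) ≠ 0 := by
            have := (Finset.mem_Icc.mp hq).1
            positivity
          field_simp
        rw [h7]
        apply mul_le_mul_of_nonneg_left _ (by positivity)
        have h8 := harmonic_le_one_add_log Q
        rw [harmonic_eq_sum_Icc] at h8
        push_cast at h8
        exact h8
  refine hsum.trans ?_
  have hlogQ : Real.log Q ≤ L := by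
    rcases Nat.eq_zero_or_pos Q with h | h
    · rw [h, Nat.cast_zero, Real.log_zero]; exact hL0.le
    · rw [hLN]
      apply Real.log_le_log (by exact_mod_cast h)
      have : (y : ℝ) ≤ N := by exact_mod_cast hyN
      linarith
  have hLA : 0 < L ^ A := by positivity
  -- first term
  have t1 : 2 * ((y : ℝ) ^ 2 / L ^ (A + 2)) ≤ (1 / 2) * ((y : ℝ) ^ 2 / L ^ A) := by
    have h1 : (y : ℝ) ^ 2 / L ^ (A + 2) = (y : ℝ) ^ 2 / L ^ A * (1 / L ^ 2) := by
      rw [pow_add]; field_simp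
    rw [h1]
    have h2 : 1 / L ^ 2 ≤ 1 / 4 := by
      apply one_div_le_one_div_of_le (by norm_num)
      nlinarith
    have h3 : 0 ≤ (y : ℝ) ^ 2 / L ^ A := by positivity
    nlinarith
  -- second term
  have t2 : 100 * (L ^ (2 * r) * e2) * (Q : ℝ) ^ 2 ≤ (1 / 4) * ((y : ℝ) ^ 2 / L ^ A) := by
    have h1 : ((Q : ℝ) * e2) ^ 2 ≤ (y : ℝ) ^ 2 := pow_le_pow_left₀ (by positivity) hQ 2
    have h2 : (1 / 4 : ℝ) * ((y : ℝ) ^ 2 / L ^ A) = (y : ℝ) ^ 2 / (4 * L ^ A) := by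
      field_simp
    rw [h2, le_div_iff₀ (by positivity)]
    have h3 : 100 * (L ^ (2 * r) * e2) * (Q : ℝ) ^ 2 * (4 * L ^ A) =
        (400 * L ^ (2 * r + A)) * (e2 * (Q : ℝ) ^ 2) := by
      rw [pow_add]; ring
    rw [h3]
    calc (400 * L ^ (2 * r + A)) * (e2 * (Q : ℝ) ^ 2) ≤ e2 * (e2 * (Q : ℝ) ^ 2) :=
          mul_le_mul_of_nonneg_right hexp (by positivity)
      _ = ((Q : ℝ) * e2) ^ 2 := by ring
      _ ≤ _ := h1
  -- third term
  have t3 : 4 * (y : ℝ) ^ 2 / L ^ (2 * A + 4) * (1 + Real.log Q) ≤ (1 / 4) * ((y : ℝ) ^ 2 / L ^ A) := by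
    have h1 : 4 * (y : ℝ) ^ 2 / L ^ (2 * A + 4) * (1 + Real.log Q) ≤
        4 * (y : ℝ) ^ 2 / L ^ (2 * A + 4) * (2 * L) := by
      apply mul_le_mul_of_nonneg_left _ (by positivity)
      linarith
    refine h1.trans ?_
    have h2 : 4 * (y : ℝ) ^ 2 / L ^ (2 * A + 4) * (2 * L) =
        (y : ℝ) ^ 2 / L ^ A * (8 / (L ^ A * L ^ 3)) := by
      rw [show 2 * A + 4 = A + A + 3 + 1 by ring, pow_add, pow_add, pow_add, pow_one]
      field_simp
      ring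
    rw [h2]
    have h3 : 8 / (L ^ A * L ^ 3) ≤ 1 / 4 := by
      rw [div_le_div_iff₀ (by positivity) (by norm_num)]
      have h4 : 1 ≤ L ^ A := one_le_pow₀ (by linarith)
      have h5 : 32 ≤ L ^ 3 := by
        have : L ≤ L ^ 3 := by nlinarith [sq_nonneg L]
        linarith
      nlinarith
    have h6 : 0 ≤ (y : ℝ) ^ 2 / L ^ A := by positivity
    nlinarith
  have h7 : (y : ℝ) ^ 2 / L ^ A = (1 / 2) * ((y : ℝ) ^ 2 / L ^ A) + ((1 / 4) * ((y : ℝ) ^ 2 / L ^ A) +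
    (1 / 4) * ((y : ℝ) ^ 2 / L ^ A)) := by ring
  rw [h7]
  exact add_le_add t1 (add_le_add t2 t3)

theorem main : ∀ θ : ℝ, 0 ≤ θ → S_R36 θ → S_MTL → S_R37 θ := by
  classical
  intro θ _ h36 hMTL r d F hd hF e A he
  obtain ⟨E₀, B, h36⟩ := h36 r d F hd hF e (A + 2) 0 he
  refine ⟨E₀, fun E₁ => ?_⟩
  obtain ⟨N1, h36⟩ := h36 E₁
  obtain ⟨N2, hM⟩ := hMTL r d E₁ (A + 2)
  obtain ⟨N3, hV⟩ := Vz_inv_small E₁
  have hlim : Filter.Tendsto (fun N : ℕ => Real.log (N : ℝ)) Filter.atTop Filter.atTop :=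
    Real.tendsto_log_atTop.comp (tendsto_natCast_atTop_atTop (R := ℝ))
  obtain ⟨N4, hL32⟩ := Filter.eventually_atTop.1 (hlim.eventually_ge_atTop 32)
  obtain ⟨N5, hexp1⟩ := expbig 1 B
  obtain ⟨N6, hexp2⟩ := expbig 400 (2 * r + A)
  refine ⟨N1 + N2 + N3 + N4 + N5 + N6 + 1, fun N hN z hz0 hz1 => ?_⟩
  have key := h36 N (by omega) z hz0 hz1 (fun _ => 1) (by simp)
  have hL := hL32 N (by omega)
  have hz : 1 ≤ z := by
    have h1 : (1 : ℝ) ≤ (Real.log N) ^ E₀ := one_le_pow₀ (by linarith)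
    have h2 : (1 : ℝ) ≤ z := h1.trans hz0
    exact_mod_cast h2
  have hVz := hV N (by omega) z hz hz1
  have hM' := hM N (by omega) z hz hz1
  have hx1 := hexp1 N (by omega)
  have hx2 := hexp2 N (by omega)
  rw [one_mul] at hx1
  refine le_trans ?_ (key.trans ?_)
  · apply Nat.cast_le.mpr
    apply Finset.card_le_card
    intro a ha
    obtain ⟨hbox, y, hY, hbad⟩ := Finset.mem_filter.mp ha
    refine Finset.mem_filter.mpr ⟨hbox, y, hY, fun hgood => hbad ?_⟩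
    intro Q hQ w hw
    have hyN : y ≤ N := by
      refine le_trans ?_ hY.2
      exact Nat.le_self_pow (by omega) y
    have hQB : (Q : ℝ) * (Real.log N) ^ B ≤ y :=
      (mul_le_mul_of_nonneg_left hx1 (Nat.cast_nonneg _)).trans hQ
    have hg := hgood Q hQB w hw
    simp only [one_mul] at hg
    exact core F hF A N (Real.log N) rfl hL z hVz hM' a y Q hyN hQ hx2 w hw (prW F a) hg
  · apply div_le_div_of_nonneg_left (by positivity) (by positivity)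
    exact pow_le_pow_right₀ (by linarith) (by omega)

end Pool.Agent.helper24_UT.R37
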