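import Pool.Agent.helper24_UT.Ch15
import Pool.Agent.helper24_UT.R36
import Pool.Agent.helper24_UT.R37

/-!
# Project UT (helper24): assembly, part 18
-/

set_option autoImplicit false

namespace Pool.Agent.helper24_UT.Ch

theorem t_R36 : S_R36 (1 / 3) := R36.main (1 / 3) (by norm_num) t_R25 Bdh.main
theorem t_R37 : S_R37 (1 / 3) := R37.main (1 / 3) (by norm_num) t_R36 Mtl.main

end Pool.Agent.helper24_UT.Ch
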