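import Pool.Agent.helper24_UT.Stm24
import Pool.Agent.helper24_UT.Stm17

set_option autoImplicit false

namespace Pool.Agent.helper24_UT.R35

open Finset Polynomial
open Pool.Agent.helper24_UT
open Pool.Agent.H807R2.Dav (ee)

lemma ee_re (x : ℝ) : (ee x).re = Real.cos (2 * Real.pi * x) := by
  rw [Pool.Agent.H807R2.Dav.ee_eq, Complex.exp_ofReal_mul_I_re]

lemma ee_im (x : ℝ) : (ee x).im = Real.sin (2 * Real.pi * x) := by
  rw [Pool.Agent.H807R2.Dav.ee_eq, Complex.exp_ofReal_mul_I_im]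

lemma f_le (f : ℤ → ℝ) (hf : f = liB ∨ f = muB) (v : ℤ) : |f v| ≤ 1 := by
  rcases hf with rfl | rfl
  · unfold liB
    split_ifs
    · simp
    · rw [abs_pow, abs_neg, abs_one, one_pow]
  · unfold muB
    have h := ArithmeticFunction.abs_moebius_le_one (n := v.natAbs)
    exact_mod_cast h

lemma norm_sum_le' (w : ℕ → ℝ) (x : ℕ → ℝ) (s : Finset ℕ) :
    ‖∑ n ∈ s, ((w n : ℝ) : ℂ) * ee (x n)‖ ≤
      |∑ n ∈ s, w n * Real.cos (2 * Real.pi * x n)| +
        |∑ n ∈ s, w n * Real.sin (2 * Real.pi * x n)| := by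
  refine (Complex.norm_le_abs_re_add_abs_im _).trans_eq ?_
  congr 1
  · congr 1
    rw [Complex.re_sum]
    refine sum_congr rfl fun n _ => ?_
    rw [Complex.re_ofReal_mul, ee_re]
  · congr 1
    rw [Complex.im_sum]
    refine sum_congr rfl fun n _ => ?_
    rw [Complex.im_ofReal_mul, ee_im]

lemma ee_per (n m : ℕ) (hm : 1 ≤ m) (b : ℤ) :
    ee ((n : ℝ) * ((b : ℝ) / m)) = ee ((n : ℝ) * (((b % m).toNat : ℝ) / m)) := by
  have hm0 : (m : ℝ) ≠ 0 := by positivity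
  have h0 : 0 ≤ b % m := Int.emod_nonneg _ (by omega)
  have h1 : ((b % m).toNat : ℤ) = b % m := Int.toNat_of_nonneg h0
  have h2 : (m : ℤ) * (b / m) + b % m = b := Int.mul_ediv_add_emod b m
  have h3 : (b : ℝ) = m * ((b / m : ℤ) : ℝ) + ((b % m).toNat : ℝ) := by
    have h4 : (((b % m).toNat : ℕ) : ℝ) = ((b % m : ℤ) : ℝ) := by
      rw [← Int.cast_natCast, h1]
    rw [h4]
    have := congrArg (Int.cast : ℤ → ℝ) h2
    push_cast at this ⊢
    linarith
  have h4 : (n : ℝ) * ((b : ℝ) / m) =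
      (n : ℝ) * (((b % m).toNat : ℝ) / m) + (((n : ℤ) * (b / m) : ℤ) : ℝ) := by
    rw [h3]
    push_cast
    field_simp
    ring
  rw [h4, Pool.Agent.H807R2.Dav.ee_add_int]

lemma evt_pow (K : ℕ) (s : ℝ) (hs : 0 < s) :
    ∀ᶠ N : ℕ in Filter.atTop, Real.log N ^ K ≤ (N : ℝ) ^ s := by
  have h1 := (isLittleO_log_rpow_rpow_atTop (K : ℝ) hs).bound (zero_lt_one)
  have h2 := (tendsto_natCast_atTop_atTop (R := ℝ)).eventually h1
  filter_upwards [h2] with N hN
  have h3 : 0 ≤ Real.log N := Real.log_natCast_nonneg N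
  rw [Real.norm_of_nonneg (by positivity), Real.norm_of_nonneg (by positivity), one_mul,
    Real.rpow_natCast] at hN
  exact hN

lemma evt_log (c : ℝ) : ∀ᶠ N : ℕ in Filter.atTop, c ≤ Real.log N :=
  (Real.tendsto_log_atTop.comp (tendsto_natCast_atTop_atTop (R := ℝ))).eventually
    (Filter.eventually_ge_atTop c)

lemma evt_rpow (c s : ℝ) (hs : 0 < s) : ∀ᶠ N : ℕ in Filter.atTop, c ≤ (N : ℝ) ^ s :=
  ((tendsto_rpow_atTop hs).comp (tendsto_natCast_atTop_atTop (R := ℝ))).eventually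
    (Filter.eventually_ge_atTop c)

theorem main : ∀ θ : ℝ, 0 ≤ θ → S_DPL θ → S_BDH → S_R35 θ := by
  classical
  intro θ hθ hDPL hBDH F hF e A T he
  obtain ⟨d, hd⟩ : ∃ d, d = F.natDegree := ⟨_, rfl⟩
  rw [← hd] at hF
  obtain ⟨A', B, N₁, hB⟩ := hBDH (A + 1) (T + 1)
  obtain ⟨A2, hA2⟩ : ∃ A2, A2 = 2 * A' + A + 1 := ⟨_, rfl⟩
  obtain ⟨N₂, hN₂⟩ := hDPL F (by rw [← hd]; exact hF) (2 * e) A2 T (by omega)
  rw [← hd] at hN₂ ⊢
  have he0 : (0 : ℝ) < e := by exact_mod_cast he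
  have hd0 : (0 : ℝ) < d := by exact_mod_cast hF
  have hde : (1 : ℝ) ≤ (d : ℝ) * e := by
    have : 1 ≤ d * e := Nat.mul_pos hF he
    exact_mod_cast this
  have hev : ∀ᶠ N : ℕ in Filter.atTop, N₂ ≤ N ∧ 1 ≤ N ∧ 2 ≤ Real.log N ∧
      ((d : ℝ) * e) ^ (A + T + 2) ≤ Real.log N ∧
      Real.log N ^ (d * (A' + T)) ≤ (N : ℝ) ^ (1 / (2 * e) : ℝ) ∧
      (N₁ : ℝ) ^ d ≤ (N : ℝ) ^ (1 / e : ℝ) := by
    filter_upwards [Filter.eventually_ge_atTop N₂, Filter.eventually_ge_atTop 1, evt_log 2,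
      evt_log (((d : ℝ) * e) ^ (A + T + 2)), evt_pow (d * (A' + T)) (1 / (2 * e) : ℝ) (by positivity),
      evt_rpow ((N₁ : ℝ) ^ d) (1 / e : ℝ) (by positivity)] with N a1 a2 a3 a4 a5 a6
    exact ⟨a1, a2, a3, a4, a5, a6⟩
  obtain ⟨N₀, hN₀⟩ := Filter.eventually_atTop.1 hev
  refine ⟨B, N₀, fun N hN u hu f hf => ?_⟩
  obtain ⟨h1, h2, h3, h4, h5, h6⟩ := hN₀ N hN
  have hN2 := hN₂ N h1
  obtain ⟨L, hL⟩ : ∃ L, L = Real.log N := ⟨_, rfl⟩
  rw [← hL] at h3 h4 h5 hu hN2 ⊢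
  have hL0 : 0 < L := by linarith
  have hNr : (1 : ℝ) ≤ N := by exact_mod_cast h2
  have hf1 := f_le f hf
  obtain ⟨M, hM⟩ : ∃ M, M = ⌊L ^ A'⌋₊ := ⟨_, rfl⟩
  have hMle : (M : ℝ) ≤ L ^ A' := by rw [hM]; exact Nat.floor_le (by positivity)
  -- the bad sets
  obtain ⟨BC, hBCd⟩ : ∃ BC : ℕ → ℕ → Finset ℤ, BC = fun (m b : ℕ) => (Icc (-(N : ℤ)) N).filter (fun a =>
    ∃ y : ℕ, Yr θ (2 * e) N d y ∧ (y : ℝ) / L ^ A2 <
      |∑ n ∈ Icc 1 y, (u n * Real.cos (2 * Real.pi * ((n : ℝ) * ((b : ℝ) / m)))) *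
        f (F.eval (n : ℤ) + a)|) := ⟨_, rfl⟩
  obtain ⟨BS, hBSd⟩ : ∃ BS : ℕ → ℕ → Finset ℤ, BS = fun (m b : ℕ) => (Icc (-(N : ℤ)) N).filter (fun a =>
    ∃ y : ℕ, Yr θ (2 * e) N d y ∧ (y : ℝ) / L ^ A2 <
      |∑ n ∈ Icc 1 y, (u n * Real.sin (2 * Real.pi * ((n : ℝ) * ((b : ℝ) / m)))) *
        f (F.eval (n : ℤ) + a)|) := ⟨_, rfl⟩
  have hBC : ∀ m b, ((BC m b).card : ℝ) ≤ N / L ^ A2 := by
    intro m b
    rw [hBCd]
    refine hN2 (fun n => u n * Real.cos (2 * Real.pi * ((n : ℝ) * ((b : ℝ) / m)))) (fun n hn => ?_) f hf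
    rw [abs_mul]
    calc |u n| * |Real.cos (2 * Real.pi * ((n : ℝ) * ((b : ℝ) / m)))| ≤ L ^ T * 1 :=
          mul_le_mul (hu n hn) (Real.abs_cos_le_one _) (abs_nonneg _) (by positivity)
      _ = L ^ T := mul_one _
  have hBS : ∀ m b, ((BS m b).card : ℝ) ≤ N / L ^ A2 := by
    intro m b
    rw [hBSd]
    refine hN2 (fun n => u n * Real.sin (2 * Real.pi * ((n : ℝ) * ((b : ℝ) / m)))) (fun n hn => ?_) f hf
    rw [abs_mul]
    calc |u n| * |Real.sin (2 * Real.pi * ((n : ℝ) * ((b : ℝ) / m)))| ≤ L ^ T * 1 :=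
          mul_le_mul (hu n hn) (Real.abs_sin_le_one _) (abs_nonneg _) (by positivity)
      _ = L ^ T := mul_one _
  obtain ⟨Bad, hBad⟩ : ∃ Bad : Finset ℤ, Bad = (Icc 1 M).biUnion fun m =>
      (range m).biUnion fun b => BC m b ∪ BS m b := ⟨_, rfl⟩
  have hcard : (Bad.card : ℝ) ≤ (M : ℝ) * (M * (2 * (N / L ^ A2))) := by
    calc (Bad.card : ℝ) ≤ ∑ m ∈ Icc 1 M, (((range m).biUnion fun b => BC m b ∪ BS m b).card : ℝ) := by
          rw [hBad]; exact_mod_cast card_biUnion_le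
      _ ≤ ∑ m ∈ Icc 1 M, ((M : ℝ) * (2 * (N / L ^ A2))) := by
          refine sum_le_sum fun m hm => ?_
          rw [mem_Icc] at hm
          calc (((range m).biUnion fun b => BC m b ∪ BS m b).card : ℝ)
              ≤ ∑ b ∈ range m, ((BC m b ∪ BS m b).card : ℝ) := by exact_mod_cast card_biUnion_le
            _ ≤ ∑ b ∈ range m, ((2 : ℝ) * (N / L ^ A2)) := by
                refine sum_le_sum fun b _ => ?_
                calc ((BC m b ∪ BS m b).card : ℝ) ≤ (BC m b).card + (BS m b).card := by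
                      exact_mod_cast card_union_le _ _
                  _ ≤ _ := by linarith [hBC m b, hBS m b]
            _ = m * (2 * (N / L ^ A2)) := by rw [sum_const, card_range, nsmul_eq_mul]
            _ ≤ M * (2 * (N / L ^ A2)) := by
                have : (m : ℝ) ≤ M := by exact_mod_cast hm.2
                gcongr
      _ = M * (M * (2 * (N / L ^ A2))) := by
          rw [sum_const, Nat.card_Icc, nsmul_eq_mul, Nat.add_sub_cancel]
  have hcard2 : (Bad.card : ℝ) ≤ N / L ^ A := by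
    refine hcard.trans ?_
    calc (M : ℝ) * (M * (2 * (N / L ^ A2))) ≤ L ^ A' * (L ^ A' * (2 * (N / L ^ A2))) := by gcongr
      _ = (2 / L) * (N / L ^ A) := by
          rw [hA2]
          have e1 : L ^ (2 * A' + A + 1) = L ^ A' * L ^ A' * L ^ A * L := by ring
          rw [e1]
          field_simp
      _ ≤ 1 * (N / L ^ A) := by
          have : 2 / L ≤ 1 := by rw [div_le_one hL0]; exact h3
          gcongr
      _ = N / L ^ A := one_mul _
  -- exponential sums outside the bad set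
  have key : ∀ a ∈ Icc (-(N : ℤ)) N, a ∉ Bad → ∀ y' m : ℕ, Yr θ (2 * e) N d y' → 1 ≤ m → m ≤ M →
      ∀ b : ℤ, ‖∑ n ∈ Icc 1 y', ((u n * f (F.eval (n : ℤ) + a) : ℝ) : ℂ) * ee ((n : ℝ) * ((b : ℝ) / m))‖ ≤
        2 * (y' / L ^ A2) := by
    intro a ha haB y' m hy' hm1 hmM b
    have hb1 : (b % m).toNat < m := by
      have h0 : 0 ≤ b % m := Int.emod_nonneg _ (by omega)
      have h1 : b % m < m := Int.emod_lt_of_pos _ (by omega)
      omega
    have hnot : a ∉ BC m (b % m).toNat ∪ BS m (b % m).toNat := by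
      intro hc
      apply haB
      rw [hBad, mem_biUnion]
      refine ⟨m, mem_Icc.2 ⟨hm1, hmM⟩, ?_⟩
      rw [mem_biUnion]
      exact ⟨(b % m).toNat, mem_range.2 hb1, hc⟩
    rw [mem_union, not_or] at hnot
    obtain ⟨hn1, hn2⟩ := hnot
    rw [hBCd] at hn1
    rw [hBSd] at hn2
    simp only [mem_filter, not_and, not_exists, not_lt] at hn1 hn2
    have g1 := hn1 ha y' hy'
    have g2 := hn2 ha y' hy'
    have hsum : ∑ n ∈ Icc 1 y', ((u n * f (F.eval (n : ℤ) + a) : ℝ) : ℂ) * ee ((n : ℝ) * ((b : ℝ) / m)) =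
        ∑ n ∈ Icc 1 y', ((u n * f (F.eval (n : ℤ) + a) : ℝ) : ℂ) *
          ee ((n : ℝ) * (((b % m).toNat : ℝ) / m)) := by
      refine sum_congr rfl fun n _ => ?_
      rw [ee_per n m hm1 b]
    rw [hsum]
    refine (norm_sum_le' (fun n => u n * f (F.eval (n : ℤ) + a))
      (fun n => (n : ℝ) * (((b % m).toNat : ℝ) / m)) (Icc 1 y')).trans ?_
    have k1 : ∑ n ∈ Icc 1 y', (u n * f (F.eval (n : ℤ) + a)) *
        Real.cos (2 * Real.pi * ((n : ℝ) * (((b % m).toNat : ℝ) / m))) =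
        ∑ n ∈ Icc 1 y', (u n * Real.cos (2 * Real.pi * ((n : ℝ) * (((b % m).toNat : ℝ) / m)))) *
          f (F.eval (n : ℤ) + a) := sum_congr rfl fun n _ => by ring
    have k2 : ∑ n ∈ Icc 1 y', (u n * f (F.eval (n : ℤ) + a)) *
        Real.sin (2 * Real.pi * ((n : ℝ) * (((b % m).toNat : ℝ) / m))) =
        ∑ n ∈ Icc 1 y', (u n * Real.sin (2 * Real.pi * ((n : ℝ) * (((b % m).toNat : ℝ) / m)))) *
          f (F.eval (n : ℤ) + a) := sum_congr rfl fun n _ => by ring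
    simp only [k1, k2]
    linarith
  -- the inclusion
  refine le_trans ?_ hcard2
  have hsub : (Icc (-(N : ℤ)) N).filter (fun a => ∃ y : ℕ, Yr θ e N d y ∧
      ¬ ∀ Q : ℕ, (Q : ℝ) * L ^ B ≤ y → ∀ w : ℕ → ℕ → ℕ, (∀ q s, w q s ≤ y) →
      ∑ q ∈ Icc 1 Q, ∑ s ∈ range q, (∑ n ∈ (Icc 1 (w q s)).filter (fun n => n % q = s),
        u n * f (F.eval (n : ℤ) + a)) ^ 2 ≤ (y : ℝ) ^ 2 / L ^ A) ⊆ Bad := by
    intro a ha
    rw [mem_filter] at ha
    obtain ⟨haI, y, hy, hnot⟩ := ha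
    by_contra haB
    apply hnot
    intro Q hQ w hw
    obtain ⟨hy1, hy2⟩ := hy
    have hNe : (N : ℝ) ^ (1 / e : ℝ) ≤ (y : ℝ) ^ d := by
      refine le_trans ?_ hy1
      exact Real.rpow_le_rpow_of_exponent_le hNr (by linarith)
    have hy0 : 0 < y := by
      rcases Nat.eq_zero_or_pos y with h | h
      · exfalso
        rw [h] at hNe
        have : (0 : ℝ) < (N : ℝ) ^ (1 / e : ℝ) := by positivity
        have h7 : ((0 : ℕ) : ℝ) ^ d = 0 := by
          rw [Nat.cast_zero, zero_pow (by omega)]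
        rw [h7] at hNe
        linarith
      · exact h
    have hyr : (1 : ℝ) ≤ y := by exact_mod_cast hy0
    have hyN : y ≤ N := (Nat.le_self_pow (by omega) y).trans hy2
    have hyNr : (y : ℝ) ≤ N := by exact_mod_cast hyN
    have hly : Real.log y ≤ L := by rw [hL]; exact Real.log_le_log (by linarith) hyNr
    have hly0 : 0 ≤ Real.log y := Real.log_nonneg hyr
    have hlow : L / (d * e) ≤ Real.log y := by
      have g1 := Real.log_le_log (by positivity) hNe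
      rw [Real.log_rpow (by linarith), Real.log_pow, ← hL] at g1
      rw [div_le_iff₀ (by positivity)]
      have g2 : 1 / (e : ℝ) * L * e = L := by field_simp
      nlinarith
    have hN1y : N₁ ≤ y := by
      by_contra hc
      push Not at hc
      have g1 : (y : ℝ) ^ d < (N₁ : ℝ) ^ d :=
        pow_lt_pow_left₀ (by exact_mod_cast hc) (by positivity) (by omega)
      linarith
    have hpow : ∀ K : ℕ, K ≤ A + T + 1 → L ^ K ≤ Real.log y ^ (K + 1) := by
      intro K hK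
      have g1 : (L / (d * e)) ^ (K + 1) ≤ Real.log y ^ (K + 1) := by gcongr
      refine le_trans ?_ g1
      rw [div_pow, le_div_iff₀ (by positivity), pow_succ L K]
      have g2 : ((d : ℝ) * e) ^ (K + 1) ≤ ((d : ℝ) * e) ^ (A + T + 2) :=
        pow_le_pow_right₀ hde (by omega)
      have g3 : (0 : ℝ) ≤ L ^ K := by positivity
      nlinarith
    have hlyp : 0 < Real.log y := lt_of_lt_of_le (by positivity) hlow
    have hbd : ∀ n ∈ Icc 1 y, |u n * f (F.eval (n : ℤ) + a)| ≤ L ^ T := by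
      intro n hn
      rw [mem_Icc] at hn
      rw [abs_mul]
      calc |u n| * |f (F.eval (n : ℤ) + a)| ≤ L ^ T * 1 :=
            mul_le_mul (hu n (hn.2.trans hyN)) (hf1 _) (abs_nonneg _) (by positivity)
        _ = L ^ T := mul_one _
    have hLT := hpow T (by omega)
    have hres := hB y hN1y Q ?_ (fun n => ((u n * f (F.eval (n : ℤ) + a) : ℝ) : ℂ)) ?_ ?_ w hw
    · have conv : ∑ q ∈ Icc 1 Q, ∑ s ∈ range q, (∑ n ∈ (Icc 1 (w q s)).filter (fun n => n % q = s),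
          u n * f (F.eval (n : ℤ) + a)) ^ 2 =
          ∑ q ∈ Icc 1 Q, ∑ s ∈ range q, ‖∑ n ∈ (Icc 1 (w q s)).filter (fun n => n % q = s),
            ((u n * f (F.eval (n : ℤ) + a) : ℝ) : ℂ)‖ ^ 2 := by
        refine sum_congr rfl fun q _ => sum_congr rfl fun s _ => ?_
        rw [← Complex.ofReal_sum, Complex.norm_real, Real.norm_eq_abs, sq_abs]
      rw [conv]
      refine hres.trans ?_
      have g1 := hpow A (by omega)
      exact div_le_div_of_nonneg_left (by positivity) (by positivity) g1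
    · refine le_trans ?_ hQ
      have : Real.log y ^ B ≤ L ^ B := by gcongr
      gcongr
    · intro n hn
      rw [Complex.norm_real, Real.norm_eq_abs]
      exact (hbd n hn).trans hLT
    · intro y' m hy'y hm1 hmA b
      have hmM : m ≤ M := by
        rw [hM]
        apply Nat.le_floor
        refine hmA.trans ?_
        gcongr
      have hfin : (y : ℝ) / L ^ A' ≤ y / Real.log y ^ A' := by
        apply div_le_div_of_nonneg_left (by positivity) (by positivity)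
        gcongr
      rcases le_or_gt ((y' : ℝ) * L ^ (A' + T)) y with hcase | hcase
      · refine le_trans ?_ hfin
        calc ‖∑ n ∈ Icc 1 y', ((u n * f (F.eval (n : ℤ) + a) : ℝ) : ℂ) * ee ((n : ℝ) * ((b : ℝ) / m))‖
            ≤ ∑ n ∈ Icc 1 y', ‖((u n * f (F.eval (n : ℤ) + a) : ℝ) : ℂ) * ee ((n : ℝ) * ((b : ℝ) / m))‖ :=
              norm_sum_le _ _
          _ ≤ ∑ n ∈ Icc 1 y', L ^ T := by
              refine sum_le_sum fun n hn => ?_
              rw [norm_mul, Pool.Agent.H807R2.Dav.norm_ee, mul_one, Complex.norm_real, Real.norm_eq_abs]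
              rw [mem_Icc] at hn
              exact hbd n (mem_Icc.2 ⟨hn.1, hn.2.trans hy'y⟩)
          _ = y' * L ^ T := by rw [sum_const, Nat.card_Icc, nsmul_eq_mul, Nat.add_sub_cancel]
          _ ≤ y / L ^ A' := by
              rw [le_div_iff₀ (by positivity)]
              calc (y' : ℝ) * L ^ T * L ^ A' = y' * L ^ (A' + T) := by rw [pow_add]; ring
                _ ≤ y := hcase
      · have hYr : Yr θ (2 * e) N d y' := by
          refine ⟨?_, (Nat.pow_le_pow_left hy'y d).trans hy2⟩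
          have g1 : (y : ℝ) ^ d ≤ (y' : ℝ) ^ d * L ^ (d * (A' + T)) := by
            calc (y : ℝ) ^ d ≤ ((y' : ℝ) * L ^ (A' + T)) ^ d := by gcongr
              _ = (y' : ℝ) ^ d * L ^ (d * (A' + T)) := by rw [mul_pow, ← pow_mul, mul_comm (A' + T) d]
          have g2 : (N : ℝ) ^ (θ + 1 / ((2 * e : ℕ) : ℝ)) * (N : ℝ) ^ (1 / (2 * e) : ℝ) =
              (N : ℝ) ^ (θ + 1 / e : ℝ) := by
            rw [← Real.rpow_add (by linarith)]
            congr 1
            push_cast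
            field_simp
            ring
          have g3 : (0 : ℝ) < (N : ℝ) ^ (1 / (2 * e) : ℝ) := by positivity
          have g4 : (0 : ℝ) ≤ (y' : ℝ) ^ d := by positivity
          have g5 : (N : ℝ) ^ (θ + 1 / ((2 * e : ℕ) : ℝ)) * (N : ℝ) ^ (1 / (2 * e) : ℝ) ≤
              (y' : ℝ) ^ d * (N : ℝ) ^ (1 / (2 * e) : ℝ) := by
            rw [g2]
            calc (N : ℝ) ^ (θ + 1 / e : ℝ) ≤ (y : ℝ) ^ d := hy1
              _ ≤ (y' : ℝ) ^ d * L ^ (d * (A' + T)) := g1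
              _ ≤ (y' : ℝ) ^ d * (N : ℝ) ^ (1 / (2 * e) : ℝ) := by gcongr
          exact le_of_mul_le_mul_right g5 g3
        refine (key a haI haB y' m hYr hm1 hmM b).trans (le_trans ?_ hfin)
        have g1 : (y' : ℝ) ≤ y := by exact_mod_cast hy'y
        rw [hA2]
        have e1 : L ^ (2 * A' + A + 1) = L ^ A' * (L ^ (A' + A) * L) := by ring
        rw [e1]
        have g6 : 1 ≤ L ^ (A' + A) := one_le_pow₀ (by linarith)
        have g7 : 2 ≤ L ^ (A' + A) * L := by nlinarith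
        calc 2 * ((y' : ℝ) / (L ^ A' * (L ^ (A' + A) * L))) ≤ 2 * ((y : ℝ) / (L ^ A' * 2)) := by
              gcongr
          _ = y / L ^ A' := by
              field_simp
  exact_mod_cast card_le_card hsub

end Pool.Agent.helper24_UT.R35
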