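import Pool.Agent.helper24_UT.Ch15
import Pool.Agent.helper24_UT.R35

/-!
# Project UT (helper24): assembly, part 19
-/

set_option autoImplicit false

namespace Pool.Agent.helper24_UT.Ch

theorem t_R35 : S_R35 (1 / 3) := R35.main (1 / 3) (by norm_num) t_DPL Bdh.main

end Pool.Agent.helper24_UT.Ch
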