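import Pool.Agent.helper24_UT.Stm22

set_option autoImplicit false

namespace Pool.Agent.helper24_UT.R30

open Finset
open Pool.Agent.helper24_UT

/-! ### translation -/

lemma sum_trans {q c : ℕ} (f : ℕ → ℝ) : ∑ r ∈ range q, f ((r + c) % q) = ∑ r ∈ range q, f r := by
  have hinj : Set.InjOn (fun r => (r + c) % q) (range q : Set ℕ) := by
    intro a ha b hb hab
    rw [coe_range, Set.mem_Iio] at ha hb
    have h1 : a ≡ b [MOD q] := Nat.ModEq.add_right_cancel' c hab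
    exact Nat.ModEq.eq_of_lt_of_lt h1 ha hb
  have hmap : ∀ r ∈ range q, (r + c) % q ∈ range q := by
    intro r hr
    rw [mem_range] at hr ⊢
    exact Nat.mod_lt _ (by omega)
  have himg : (range q).image (fun r => (r + c) % q) = range q := by
    apply Finset.eq_of_subset_of_card_le
    · intro m hm
      obtain ⟨r, hr, rfl⟩ := mem_image.1 hm
      exact hmap r hr
    · rw [card_image_of_injOn hinj]
  conv_rhs => rw [← himg]
  rw [sum_image hinj]

lemma dvd_shift (p r c a : ℕ) : p ∣ (r + c) % p + a ↔ p ∣ r + (c + a) := by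
  have h1 : (r + c) % p + a ≡ r + (c + a) [MOD p] := by
    rw [← add_assoc]
    exact Nat.ModEq.add_right a (Nat.mod_modEq _ _)
  exact (Nat.ModEq.dvd_iff h1 dvd_rfl)

lemma cop_shift (q r c a : ℕ) : ((r + c) % q + a).Coprime q ↔ (r + (c + a)).Coprime q := by
  have h1 : (r + c) % q + a ≡ r + (c + a) [MOD q] := by
    rw [← add_assoc]
    exact Nat.ModEq.add_right a (Nat.mod_modEq _ _)
  have h2 := Nat.ModEq.gcd_eq h1
  rw [Nat.coprime_iff_gcd_eq_one, Nat.coprime_iff_gcd_eq_one, h2]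

section tr

variable {k c : ℕ} {g h : Fin k → ℕ}

lemma nuf_trans (hg : ∀ i, g i = c + h i) (p : ℕ) :
    nuf (fun _ => 1) (fun i => (g i : ℤ)) p = nuf (fun _ => 1) (fun i => (h i : ℤ)) p := by
  unfold nuf
  rw [← Nat.cast_inj (R := ℝ), card_filter, card_filter]
  push_cast
  rw [← sum_trans (c := c) (fun r => if ∃ i, (p : ℤ) ∣ 1 * (r : ℤ) + h i then (1 : ℝ) else 0)]
  apply sum_congr rfl
  intro r _
  have h1 : (∃ i, (p : ℤ) ∣ 1 * (r : ℤ) + g i) ↔ ∃ i, (p : ℤ) ∣ 1 * (((r + c) % p : ℕ) : ℤ) + h i := by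
    apply exists_congr
    intro i
    rw [one_mul, one_mul, hg i]
    have e1 : (r : ℤ) + ((c + h i : ℕ) : ℤ) = ((r + (c + h i) : ℕ) : ℤ) := by push_cast; ring
    have e2 : (((r + c) % p : ℕ) : ℤ) + (h i : ℤ) = (((r + c) % p + h i : ℕ) : ℤ) := by push_cast; ring
    rw [e1, e2, Int.natCast_dvd_natCast, Int.natCast_dvd_natCast]
    exact (dvd_shift p r c (h i)).symm
  by_cases h2 : ∃ i, (p : ℤ) ∣ 1 * (r : ℤ) + g i
  · rw [if_pos h2, if_pos (h1.1 h2)]
  · rw [if_neg h2, if_neg (fun h3 => h2 (h1.2 h3))]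

lemma phf_trans (hg : ∀ i, g i = c + h i) (q : ℕ) :
    phf (fun _ => 1) (fun i => (g i : ℤ)) q = phf (fun _ => 1) (fun i => (h i : ℤ)) q := by
  unfold phf
  rw [← Nat.cast_inj (R := ℝ), card_filter, card_filter]
  push_cast
  rw [← sum_trans (c := c) (fun r => if ∀ i, Int.gcd (1 * (r : ℤ) + h i) q = 1 then (1 : ℝ) else 0)]
  apply sum_congr rfl
  intro r _
  have h1 : (∀ i, Int.gcd (1 * (r : ℤ) + g i) q = 1) ↔ ∀ i, Int.gcd (1 * (((r + c) % q : ℕ) : ℤ) + h i) q = 1 := by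
    apply forall_congr'
    intro i
    rw [one_mul, one_mul, hg i]
    have e1 : (r : ℤ) + ((c + h i : ℕ) : ℤ) = ((r + (c + h i) : ℕ) : ℤ) := by push_cast; ring
    have e2 : (((r + c) % q : ℕ) : ℤ) + (h i : ℤ) = (((r + c) % q + h i : ℕ) : ℤ) := by push_cast; ring
    rw [e1, e2, Int.gcd_natCast_natCast, Int.gcd_natCast_natCast]
    exact (cop_shift q r c (h i)).symm
  by_cases h2 : ∀ i, Int.gcd (1 * (r : ℤ) + g i) q = 1
  · rw [if_pos h2, if_pos (h1.1 h2)]
  · rw [if_neg h2, if_neg (fun h3 => h2 (h1.2 h3))]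

lemma sers_trans (hg : ∀ i, g i = c + h i) :
    sers (fun _ => 1) (fun i => (g i : ℤ)) = sers (fun _ => 1) (fun i => (h i : ℤ)) := by
  unfold sers
  apply tprod_congr
  intro p
  rw [nuf_trans hg]

end tr

lemma diffsum (g : ℕ → ℝ) (x y : ℕ) : ∑ n ∈ Icc 1 (x + y), g n - ∑ n ∈ Icc 1 x, g n = ∑ n ∈ Ioc x (x + y), g n := by
  induction y with
  | zero => simp
  | succ y ih =>
    rw [← add_assoc, sum_Icc_succ_top (by omega), sum_Ioc_succ_top (by omega), ← ih]
    ring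

lemma sum_shift (F : ℕ → ℝ) (x y c : ℕ) : ∑ n ∈ Ioc x (x + y), F (n + c) = ∑ n ∈ Ioc (x + c) (x + c + y), F n := by
  apply sum_nbij' (fun n => n + c) (fun n => n - c)
  · intro n hn
    rw [mem_Ioc] at hn ⊢
    omega
  · intro n hn
    rw [mem_Ioc] at hn ⊢
    omega
  · intro n _
    simp
  · intro n hn
    rw [mem_Ioc] at hn
    omega
  · intro n _
    rfl

lemma cntT_sub {k : ℕ} (h : Fin k → ℕ) (q r x y : ℕ) : (cntT h q r (x + y) : ℝ) - cntT h q r x =
    ∑ n ∈ Ioc x (x + y), (if n % q = r ∧ ∀ i, (n + h i).Prime then (1 : ℝ) else 0) := by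
  unfold cntT
  rw [card_filter, card_filter]
  push_cast
  exact diffsum _ _ _

lemma expT_sub {k : ℕ} (h : Fin k → ℕ) (x y : ℕ) : expT h (x + y) - expT h x =
    ∑ n ∈ Ioc x (x + y), ∏ i, 1 / Real.log ((n + h i : ℕ) : ℝ) := by
  unfold expT
  exact diffsum _ _ _

lemma mod_shift {q r c n : ℕ} (hr : r < q) : (n + c) % q = (r + c) % q ↔ n % q = r := by
  constructor
  · intro h
    have h1 : n ≡ r [MOD q] := Nat.ModEq.add_right_cancel' c h
    unfold Nat.ModEq at h1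
    rwa [Nat.mod_eq_of_lt hr] at h1
  · intro h
    have h1 : n ≡ r [MOD q] := by
      unfold Nat.ModEq
      rw [Nat.mod_eq_of_lt hr]
      exact h
    exact Nat.ModEq.add_right c h1

/-- translation of the tuples -/
lemma good_trans {k A B X K x c : ℕ} {g h : Fin k → ℕ} (hg : ∀ i, g i = c + h i) (H : Good14 A B X K x g) :
    Good14 A B X K (x + c) h := by
  refine ⟨fun i j hij => H.1 (by rw [hg, hg, hij]), fun Q hQ y hy => ?_⟩
  refine le_trans (le_of_eq ?_) (H.2 Q hQ (fun q r => y q ((r + c) % q)) (fun q r => hy _ _))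
  apply sum_congr rfl
  intro q hq
  rw [sum_filter, sum_filter]
  rw [← sum_trans (c := c) (fun r => if ∀ i, (r + h i).Coprime q then
    (((cntT h q r (x + c + y q r) : ℝ) - cntT h q r (x + c)) - sers (fun _ => 1) (fun i => (h i : ℤ)) /
        phf (fun _ => 1) (fun i => (h i : ℤ)) q * (expT h (x + c + y q r) - expT h (x + c))) ^ 2 else 0)]
  apply sum_congr rfl
  intro r hr
  rw [mem_range] at hr
  have h1 : (∀ i, ((r + c) % q + h i).Coprime q) ↔ ∀ i, (r + g i).Coprime q := by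
    apply forall_congr'
    intro i
    rw [hg i]
    exact cop_shift q r c (h i)
  by_cases h2 : ∀ i, (r + g i).Coprime q
  · rw [if_pos h2, if_pos (h1.2 h2), sers_trans hg, phf_trans hg]
    congr 2
    · rw [cntT_sub, cntT_sub, ← sum_shift]
      apply sum_congr rfl
      intro n _
      have h3 : ((n + c) % q = (r + c) % q ∧ ∀ i, (n + c + h i).Prime) ↔ (n % q = r ∧ ∀ i, (n + g i).Prime) := by
        rw [mod_shift hr]
        apply and_congr Iff.rfl
        apply forall_congr'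
        intro i
        rw [hg i, add_assoc]
      by_cases h4 : n % q = r ∧ ∀ i, (n + g i).Prime
      · rw [if_pos h4, if_pos (h3.2 h4)]
      · rw [if_neg h4, if_neg (fun h5 => h4 (h3.1 h5))]
    · rw [expT_sub, expT_sub, ← sum_shift (fun n => ∏ i, 1 / Real.log ((n + h i : ℕ) : ℝ))]
      congr 1
      apply sum_congr rfl
      intro n _
      apply prod_congr rfl
      intro i _
      rw [hg i, add_assoc]
  · rw [if_neg h2, if_neg (fun h5 => h2 (h1.1 h5))]

/-! ### moving the window -/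

lemma cls (q r x a : ℕ) (hq : 1 ≤ q) : (((Ioc x (x + a)).filter (fun n => n % q = r)).card : ℝ) ≤ a / q + 1 := by
  by_cases hr : r < q
  · have h1 : (Ioc x (x + a)).filter (fun n => n % q = r) = (Ioc x (x + a)).filter (fun n => n ≡ r [MOD q]) := by
      apply filter_congr
      intro n _
      unfold Nat.ModEq
      rw [Nat.mod_eq_of_lt hr]
    rw [h1]
    have h2 := Nat.Ioc_filter_modEq_card x (x + a) (r := q) (by omega) r
    have h3 : (((Ioc x (x + a)).filter (fun n => n ≡ r [MOD q])).card : ℤ) ≤ (a : ℚ) / q + 1 := by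
      rw [h2]
      push_cast
      have hq0 : (0 : ℚ) < q := by exact_mod_cast hq
      apply max_le
      · have h4 := Int.floor_le (((x : ℚ) + a - r) / q)
        have h5 := Int.lt_floor_add_one (((x : ℚ) - r) / q)
        have h6 : ((x : ℚ) + a - r) / q = ((x : ℚ) - r) / q + a / q := by ring
        rw [h6] at h4
        rw [h6]
        linarith
      · positivity
    have h7 : (((Ioc x (x + a)).filter (fun n => n ≡ r [MOD q])).card : ℚ) ≤ (a : ℚ) / q + 1 := by exact_mod_cast h3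
    have h8 := (Rat.cast_le (K := ℝ)).2 h7
    push_cast at h8
    exact h8
  · have h1 : (Ioc x (x + a)).filter (fun n => n % q = r) = ∅ := by
      apply filter_eq_empty_iff.2
      intro n _ h2
      have := Nat.mod_lt n (by omega : q > 0)
      omega
    rw [h1, card_empty]
    push_cast
    positivity

lemma cnt_bd {k : ℕ} (h : Fin k → ℕ) (q r x a : ℕ) (hq : 1 ≤ q) :
    0 ≤ (cntT h q r (x + a) : ℝ) - cntT h q r x ∧ (cntT h q r (x + a) : ℝ) - cntT h q r x ≤ a / q + 1 := by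
  rw [cntT_sub]
  constructor
  · exact sum_nonneg fun n _ => by split_ifs <;> norm_num
  · refine le_trans ?_ (cls q r x a hq)
    rw [card_filter]
    push_cast
    apply sum_le_sum
    intro n _
    by_cases h1 : n % q = r
    · rw [if_pos h1]
      split_ifs <;> norm_num
    · rw [if_neg (fun h => h1 h.1), if_neg h1]

lemma rh_le {k : ℕ} (h : Fin k → ℕ) (n : ℕ) : ∏ i, 1 / Real.log ((n + h i : ℕ) : ℝ) ≤ 2 ^ k := by
  calc ∏ i, 1 / Real.log ((n + h i : ℕ) : ℝ) ≤ ∏ _i : Fin k, (2 : ℝ) := by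
        apply prod_le_prod
        · intro i _
          exact one_div_nonneg.2 (Real.log_natCast_nonneg _)
        · intro i _
          rcases Nat.lt_or_ge (n + h i) 2 with h1 | h1
          · have h2 : Real.log ((n + h i : ℕ) : ℝ) = 0 := by
              rcases Nat.eq_zero_or_pos (n + h i) with h3 | h3
              · rw [h3]
                simp
              · have h4 : n + h i = 1 := by omega
                rw [h4]
                simp
            rw [h2]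
            norm_num
          · have h3 : Real.log 2 ≤ Real.log ((n + h i : ℕ) : ℝ) := Real.log_le_log (by norm_num) (by exact_mod_cast h1)
            have h4 := Real.log_two_gt_d9
            rw [div_le_iff₀ (by linarith)]
            linarith
    _ = 2 ^ k := by rw [prod_const, card_univ, Fintype.card_fin]

lemma exp_bd {k : ℕ} (h : Fin k → ℕ) (x a : ℕ) :
    0 ≤ expT h (x + a) - expT h x ∧ expT h (x + a) - expT h x ≤ a * 2 ^ k := by
  rw [expT_sub]
  constructor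
  · exact sum_nonneg fun n _ => prod_nonneg fun _ _ => one_div_nonneg.2 (Real.log_natCast_nonneg _)
  · calc _ ≤ ∑ n ∈ Ioc x (x + a), (2 : ℝ) ^ k := sum_le_sum fun n _ => rh_le h n
      _ = _ := by rw [sum_const, Nat.card_Ioc, nsmul_eq_mul, Nat.add_sub_cancel_left]

lemma exp_lb {k : ℕ} (h : Fin k → ℕ) (x a Y : ℕ) (hx : 1 ≤ x) (hY : ∀ i, x + a + h i ≤ Y) :
    (a : ℝ) ≤ Real.log Y ^ k * (expT h (x + a) - expT h x) := by
  rw [expT_sub, mul_sum]
  calc (a : ℝ) = ∑ n ∈ Ioc x (x + a), (1 : ℝ) := by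
        rw [sum_const, Nat.card_Ioc, nsmul_eq_mul, Nat.add_sub_cancel_left, mul_one]
    _ ≤ _ := by
        apply sum_le_sum
        intro n hn
        rw [mem_Ioc] at hn
        have e1 : Real.log Y ^ k = ∏ _i : Fin k, Real.log Y := by rw [prod_const, card_univ, Fintype.card_fin]
        rw [e1, ← prod_mul_distrib]
        calc (1 : ℝ) = ∏ _i : Fin k, (1 : ℝ) := by rw [prod_const_one]
          _ ≤ _ := by
              apply prod_le_prod
              · intro i _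
                exact zero_le_one
              · intro i _
                have h1 : Real.log 2 ≤ Real.log ((n + h i : ℕ) : ℝ) :=
                  Real.log_le_log (by norm_num) (by exact_mod_cast (by omega : 2 ≤ n + h i))
                have h2 := Real.log_two_gt_d9
                have h3 : Real.log ((n + h i : ℕ) : ℝ) ≤ Real.log Y := by
                  apply Real.log_le_log
                  · exact_mod_cast (by omega : 0 < n + h i)
                  · have := hY i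
                    exact_mod_cast (by omega : n + h i ≤ Y)
                have h4 : 0 < Real.log ((n + h i : ℕ) : ℝ) := by linarith
                rw [mul_one_div, one_le_div h4]
                exact h3

lemma pt {k : ℕ} (h : Fin k → ℕ) (q r u a D y Y : ℕ) (c : ℝ) (hq : 1 ≤ q) (ha : a ≤ D) (ht : 1 ≤ u + a)
    (hY : ∀ i, u + a + D + h i ≤ Y) (hΛ : 1 ≤ Real.log Y) :
    (((cntT h q r (u + y) : ℝ) - cntT h q r u) - c * (expT h (u + y) - expT h u)) ^ 2 ≤
    9 * (2 * Real.log Y) ^ (2 * k) *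
      ((((cntT h q r (u + a + y) : ℝ) - cntT h q r (u + a)) - c * (expT h (u + a + y) - expT h (u + a))) ^ 2 +
       (((cntT h q r (u + a + D) : ℝ) - cntT h q r (u + a)) - c * (expT h (u + a + D) - expT h (u + a))) ^ 2 +
       ((D : ℝ) / q + 1) ^ 2) := by
  have hq0 : (0 : ℝ) < q := by exact_mod_cast hq
  have ha' : (a : ℝ) ≤ D := by exact_mod_cast ha
  have hδ : (a : ℝ) / q + 1 ≤ (D : ℝ) / q + 1 := by
    have := div_le_div_of_nonneg_right ha' hq0.le
    linarith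
  set δ : ℝ := (D : ℝ) / q + 1 with hδdef
  have hδ0 : 0 ≤ δ := by positivity
  have e1 : u + a + y = u + y + a := by ring
  rw [e1]
  obtain ⟨a1, a2⟩ := cnt_bd h q r u a hq
  obtain ⟨b1, b2⟩ := cnt_bd h q r (u + y) a hq
  obtain ⟨c1, c2⟩ := cnt_bd h q r (u + a) D hq
  obtain ⟨x1, x2⟩ := exp_bd h u a
  obtain ⟨y1, y2⟩ := exp_bd h (u + y) a
  obtain ⟨z1, z2⟩ := exp_bd h (u + a) D
  have lb := exp_lb h (u + a) D Y ht hY
  set Λ := Real.log Y with hΛdef
  set w : ℝ := (2 * Λ) ^ k with hw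
  have hw1 : 1 ≤ w := one_le_pow₀ (by linarith)
  have hW : (2 * Λ) ^ (2 * k) = w ^ 2 := by rw [hw, ← pow_mul, mul_comm k 2]
  rw [hW]
  set α := (cntT h q r (u + a) : ℝ) - cntT h q r u with hα
  set β := (cntT h q r (u + y + a) : ℝ) - cntT h q r (u + y) with hβ
  set γ := (cntT h q r (u + a + D) : ℝ) - cntT h q r (u + a) with hγ
  set ξ := expT h (u + a) - expT h u with hξ
  set η := expT h (u + y + a) - expT h (u + y) with hη
  set ζ := expT h (u + a + D) - expT h (u + a) with hζ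
  set E2 := ((cntT h q r (u + y + a) : ℝ) - cntT h q r (u + a)) - c * (expT h (u + y + a) - expT h (u + a)) with hE2
  set ED := γ - c * ζ with hED
  have e2 : ((cntT h q r (u + y) : ℝ) - cntT h q r u) - c * (expT h (u + y) - expT h u) = E2 + (α - β) - c * (ξ - η) := by
    rw [hE2, hα, hβ, hξ, hη]
    ring
  rw [e2]
  have hαβ : (α - β) ^ 2 ≤ δ ^ 2 := by
    apply sq_le_sq'
    · linarith
    · linarith
  have hDw : (D : ℝ) * 2 ^ k ≤ w * ζ := by
    rw [hw, mul_pow]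
    calc (D : ℝ) * 2 ^ k ≤ Λ ^ k * ζ * 2 ^ k := mul_le_mul_of_nonneg_right lb (by positivity)
      _ = _ := by ring
  have ha2 : (a : ℝ) * 2 ^ k ≤ D * 2 ^ k := mul_le_mul_of_nonneg_right ha' (by positivity)
  have hξη : (ξ - η) ^ 2 ≤ (w * ζ) ^ 2 := by
    apply sq_le_sq'
    · linarith
    · linarith
  have hcξ : (c * (ξ - η)) ^ 2 ≤ w ^ 2 * (2 * δ ^ 2 + 2 * ED ^ 2) := by
    have h1 : c * ζ = γ - ED := by rw [hED]; ring
    have h2 : γ ^ 2 ≤ δ ^ 2 := pow_le_pow_left₀ c1 c2 2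
    calc (c * (ξ - η)) ^ 2 = c ^ 2 * (ξ - η) ^ 2 := by ring
      _ ≤ c ^ 2 * (w * ζ) ^ 2 := mul_le_mul_of_nonneg_left hξη (sq_nonneg c)
      _ = w ^ 2 * (c * ζ) ^ 2 := by ring
      _ = w ^ 2 * (γ - ED) ^ 2 := by rw [h1]
      _ ≤ w ^ 2 * (2 * δ ^ 2 + 2 * ED ^ 2) := by
          apply mul_le_mul_of_nonneg_left _ (sq_nonneg w)
          nlinarith [sq_nonneg (γ + ED)]
  have h3 : (E2 + (α - β) - c * (ξ - η)) ^ 2 ≤ 3 * (E2 ^ 2 + (α - β) ^ 2 + (c * (ξ - η)) ^ 2) := by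
    nlinarith [sq_nonneg (E2 - (α - β)), sq_nonneg (E2 + c * (ξ - η)), sq_nonneg ((α - β) + c * (ξ - η))]
  have hw2 : 1 ≤ w ^ 2 := one_le_pow₀ hw1
  have k1 : E2 ^ 2 ≤ w ^ 2 * E2 ^ 2 := le_mul_of_one_le_left (sq_nonneg _) hw2
  have k2 : δ ^ 2 ≤ w ^ 2 * δ ^ 2 := le_mul_of_one_le_left (sq_nonneg _) hw2
  have k3 : 0 ≤ w ^ 2 * ED ^ 2 := by positivity
  have k4 : 0 ≤ w ^ 2 * E2 ^ 2 := by positivity
  calc (E2 + (α - β) - c * (ξ - η)) ^ 2 ≤ 3 * (E2 ^ 2 + (α - β) ^ 2 + (c * (ξ - η)) ^ 2) := h3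
    _ ≤ 3 * (w ^ 2 * E2 ^ 2 + w ^ 2 * δ ^ 2 + w ^ 2 * (2 * δ ^ 2 + 2 * ED ^ 2)) := by linarith
    _ ≤ 9 * w ^ 2 * (E2 ^ 2 + ED ^ 2 + δ ^ 2) := by nlinarith

lemma harm (Q : ℕ) : ∑ q ∈ Icc 1 Q, (1 : ℝ) / q ≤ 1 + Real.log Q := by
  have h1 := harmonic_le_one_add_log Q
  have h2 : ((harmonic Q : ℚ) : ℝ) = ∑ q ∈ Icc 1 Q, (1 : ℝ) / q := by
    rw [harmonic_eq_sum_Icc]
    push_cast
    exact sum_congr rfl fun q _ => by rw [one_div]
  rw [← h2]
  exact h1

lemma sumq (D Q : ℕ) (s : ℕ → Finset ℕ) (hs : ∀ q, s q ⊆ range q) :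
    ∑ q ∈ Icc 1 Q, ∑ r ∈ s q, ((D : ℝ) / q + 1) ^ 2 ≤ 2 * (D : ℝ) ^ 2 * (1 + Real.log Q) + 2 * (Q : ℝ) ^ 2 := by
  have h1 : ∀ q ∈ Icc 1 Q, ∑ r ∈ s q, ((D : ℝ) / q + 1) ^ 2 ≤ 2 * (D : ℝ) ^ 2 * (1 / q) + 2 * Q := by
    intro q hq
    rw [mem_Icc] at hq
    have hq0 : (0 : ℝ) < q := by exact_mod_cast hq.1
    have hqQ : (q : ℝ) ≤ Q := by exact_mod_cast hq.2
    rw [sum_const, nsmul_eq_mul]
    have h2 : ((s q).card : ℝ) ≤ q := by
      have := card_le_card (hs q)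
      rw [card_range] at this
      exact_mod_cast this
    calc ((s q).card : ℝ) * ((D : ℝ) / q + 1) ^ 2 ≤ q * ((D : ℝ) / q + 1) ^ 2 :=
          mul_le_mul_of_nonneg_right h2 (sq_nonneg _)
      _ ≤ q * (2 * ((D : ℝ) / q) ^ 2 + 2) := by
          apply mul_le_mul_of_nonneg_left _ hq0.le
          nlinarith [sq_nonneg ((D : ℝ) / q - 1)]
      _ = 2 * (D : ℝ) ^ 2 * (1 / q) + 2 * q := by
          field_simp
      _ ≤ _ := by linarith
  refine (sum_le_sum h1).trans ?_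
  rw [sum_add_distrib, ← mul_sum, sum_const, Nat.card_Icc, Nat.add_sub_cancel, nsmul_eq_mul]
  have h3 := mul_le_mul_of_nonneg_left (harm Q) (by positivity : (0 : ℝ) ≤ 2 * (D : ℝ) ^ 2)
  have h4 : (Q : ℝ) * (2 * Q) = 2 * (Q : ℝ) ^ 2 := by ring
  linarith

lemma move {k : ℕ} {A B A1 B1 X X1 K u a D Y : ℕ} {h : Fin k → ℕ} (H : Good14 A1 B1 X1 K (u + a) h) (ha : a ≤ D)
    (hDK : D ≤ K) (ht : 1 ≤ u + a) (hY : ∀ i, u + a + D + h i ≤ Y) (hΛ : 1 ≤ Real.log Y)
    (hQ1 : (K : ℝ) * Real.exp (-(B * Real.log (Real.log X) ^ 2)) ≤ K * Real.exp (-(B1 * Real.log (Real.log X1) ^ 2)))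
    (hfin : 9 * (2 * Real.log Y) ^ (2 * k) * (2 * ((K : ℝ) ^ 2 / Real.log X1 ^ A1) +
      (2 * (D : ℝ) ^ 2 * (1 + Real.log K) + 2 * ((K : ℝ) * Real.exp (-(B * Real.log (Real.log X) ^ 2))) ^ 2)) ≤
      (K : ℝ) ^ 2 / Real.log X ^ A) : Good14 A B X K u h := by
  refine ⟨H.1, fun Q hQ y hy => ?_⟩
  refine le_trans ?_ hfin
  have hQ' := hQ.trans hQ1
  have s1 := H.2 Q hQ' y hy
  have s2 := H.2 Q hQ' (fun _ _ => D) (fun _ _ => hDK)
  have s3 := sumq D Q (fun q => (range q).filter (fun r => ∀ i, (r + h i).Coprime q)) (fun q => filter_subset _ _)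
  have hQK : Q ≤ K := by
    have h1 : Real.exp (-(B * Real.log (Real.log X) ^ 2)) ≤ 1 := by
      rw [Real.exp_le_one_iff]
      have : (0 : ℝ) ≤ B * Real.log (Real.log X) ^ 2 := by positivity
      linarith
    have h2 : (Q : ℝ) ≤ K := hQ.trans (mul_le_of_le_one_right (Nat.cast_nonneg K) h1)
    exact_mod_cast h2
  have hlog : Real.log Q ≤ Real.log K := by
    rcases Nat.eq_zero_or_pos Q with h0 | h0
    · rw [h0]
      simp only [Nat.cast_zero, Real.log_zero]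
      exact Real.log_natCast_nonneg K
    · exact Real.log_le_log (by exact_mod_cast h0) (by exact_mod_cast hQK)
  have s3' : 2 * (D : ℝ) ^ 2 * (1 + Real.log Q) + 2 * (Q : ℝ) ^ 2 ≤
      2 * (D : ℝ) ^ 2 * (1 + Real.log K) + 2 * ((K : ℝ) * Real.exp (-(B * Real.log (Real.log X) ^ 2))) ^ 2 := by
    have h1 : 2 * (D : ℝ) ^ 2 * (1 + Real.log Q) ≤ 2 * (D : ℝ) ^ 2 * (1 + Real.log K) := by
      apply mul_le_mul_of_nonneg_left _ (by positivity)
      linarith
    have h2 : (Q : ℝ) ^ 2 ≤ ((K : ℝ) * Real.exp (-(B * Real.log (Real.log X) ^ 2))) ^ 2 :=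
      pow_le_pow_left₀ (Nat.cast_nonneg Q) hQ 2
    linarith
  calc _ ≤ ∑ q ∈ Icc 1 Q, ∑ r ∈ (range q).filter (fun r => ∀ i, (r + h i).Coprime q), 9 * (2 * Real.log Y) ^ (2 * k) *
      ((((cntT h q r (u + a + y q r) : ℝ) - cntT h q r (u + a)) - sers (fun _ => 1) (fun i => (h i : ℤ)) /
        phf (fun _ => 1) (fun i => (h i : ℤ)) q * (expT h (u + a + y q r) - expT h (u + a))) ^ 2 +
       (((cntT h q r (u + a + D) : ℝ) - cntT h q r (u + a)) - sers (fun _ => 1) (fun i => (h i : ℤ)) /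
        phf (fun _ => 1) (fun i => (h i : ℤ)) q * (expT h (u + a + D) - expT h (u + a))) ^ 2 +
       ((D : ℝ) / q + 1) ^ 2) := by
        apply sum_le_sum
        intro q hq
        rw [mem_Icc] at hq
        apply sum_le_sum
        intro r _
        exact pt h q r u a D (y q r) Y _ hq.1 ha ht hY hΛ
    _ ≤ _ := by
        simp only [← mul_sum, sum_add_distrib]
        apply mul_le_mul_of_nonneg_left _ (by positivity)
        linarith

/-! ### counting -/

section count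

variable {k : ℕ}

open Classical in
lemma count1 (X T0 : ℕ) (P : ℕ → (Fin k → ℕ) → Prop) (P' : ℕ → (Fin (k + 1) → ℕ) → Prop)
    (hP : ∀ (x g0 : ℕ) (h : Fin k → ℕ), P' x (Fin.cons g0 (fun i => g0 + h i)) → P (x + g0) h) (hT : T0 - 1 ≤ X) :
    ((Icc T0 (2 * X) ×ˢ Fintype.piFinset (fun _ : Fin k => Icc 1 X)).filter (fun v => ¬ P v.1 v.2)).card * (T0 - 1) ≤
    ((Icc 1 (2 * X) ×ˢ Fintype.piFinset (fun _ : Fin (k + 1) => Icc 1 (2 * X))).filter (fun v => ¬ P' v.1 v.2)).card := by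
  have e : (T0 - 1) = (Icc 1 (T0 - 1)).card := by
    rw [Nat.card_Icc]
    omega
  conv_lhs => rw [e]
  rw [← card_product]
  apply card_le_card_of_injOn (fun w : (ℕ × (Fin k → ℕ)) × ℕ =>
    (w.1.1 - w.2, (Fin.cons w.2 (fun i => w.2 + w.1.2 i) : Fin (k + 1) → ℕ)))
  · rintro ⟨⟨t, h⟩, g0⟩ hw
    simp only [mem_coe, mem_filter, mem_product, mem_Icc, Fintype.mem_piFinset] at hw ⊢
    obtain ⟨⟨⟨⟨ht1, ht2⟩, hh⟩, hb⟩, hg1, hg2⟩ := hw
    refine ⟨⟨⟨by omega, by omega⟩, ?_⟩, ?_⟩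
    · intro i
      refine Fin.cases ?_ (fun i => ?_) i
      · rw [Fin.cons_zero]
        omega
      · rw [Fin.cons_succ]
        have := hh i
        omega
    · intro h1
      apply hb
      have := hP _ _ _ h1
      rwa [Nat.sub_add_cancel (by omega)] at this
  · rintro ⟨⟨t, h⟩, g0⟩ hw ⟨⟨t', h'⟩, g0'⟩ hw' heq
    simp only [mem_coe, mem_filter, mem_product, mem_Icc, Fintype.mem_piFinset] at hw hw'
    simp only [Prod.mk.injEq] at heq
    obtain ⟨h1, h2⟩ := heq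
    have h3 : g0 = g0' := by
      have := congrFun h2 0
      rwa [Fin.cons_zero, Fin.cons_zero] at this
    subst h3
    have h4 : h = h' := by
      funext i
      have := congrFun h2 i.succ
      rw [Fin.cons_succ, Fin.cons_succ] at this
      omega
    subst h4
    have h5 : t = t' := by omega
    rw [h5]

open Classical in
lemma count2 (X T0 D K M n m : ℕ) (u : ℕ → ℕ) (P : ℕ → (Fin k → ℕ) → Prop) (S : Finset (ℕ × (Fin k → ℕ)))
    (hDK : D < K) (hu : ∀ j ∈ Icc 1 M, u j ≤ X) (hDX : D ≤ X)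
    (hn : ∀ x : ℕ, ((Icc 1 M).filter (fun j => x ≤ u j ∧ u j < x + K)).card ≤ n)
    (hS : ∀ v ∈ S, v.1 ∈ Icc 1 M ∧ (∀ i, v.2 i ∈ Icc 1 X) ∧ (∀ t, T0 ≤ t → u v.1 ≤ t → t ≤ u v.1 + D → ¬ P t v.2) ∧
      m + max T0 (u v.1) ≤ u v.1 + D + 1) :
    S.card * m ≤ ((Icc T0 (2 * X) ×ˢ Fintype.piFinset (fun _ : Fin k => Icc 1 X)).filter (fun v => ¬ P v.1 v.2)).card * n := by
  apply card_mul_le_card_mul (fun (v : ℕ × (Fin k → ℕ)) (w : ℕ × (Fin k → ℕ)) => v.2 = w.2 ∧ u v.1 ≤ w.1 ∧ w.1 ≤ u v.1 + D)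
  · rintro ⟨j, h⟩ hv
    obtain ⟨hj, hh, hb, hm⟩ := hS _ hv
    simp only at hj hh hb hm
    have hcard : m ≤ (Icc (max T0 (u j)) (u j + D)).card := by
      rw [Nat.card_Icc]
      omega
    refine hcard.trans ?_
    apply card_le_card_of_injOn (fun t => (t, h))
    · intro t ht
      rw [mem_coe, mem_Icc] at ht
      have := hu j hj
      rw [mem_coe, bipartiteAbove, mem_filter, mem_filter, mem_product, mem_Icc, Fintype.mem_piFinset]
      refine ⟨⟨⟨⟨?_, ?_⟩, hh⟩, hb t ?_ ?_ ht.2⟩, rfl, ?_, ht.2⟩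
      all_goals (try simp only)
      all_goals omega
    · intro a _ b _ hab
      exact (Prod.mk.inj hab).1
  · rintro ⟨t, h⟩ hw
    refine le_trans ?_ (hn (t - D))
    apply card_le_card_of_injOn Prod.fst
    · rintro ⟨j, h'⟩ hv
      rw [mem_coe, bipartiteBelow, mem_filter] at hv
      obtain ⟨hvS, h1, h2, h3⟩ := hv
      have := (hS _ hvS).1
      simp only at h1 h2 h3 this
      rw [mem_coe, mem_filter]
      refine ⟨this, ?_, ?_⟩
      · simp only
        omega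
      · simp only
        omega
    · rintro ⟨j, h1⟩ hv ⟨j', h2⟩ hv' hjj
      rw [mem_coe, bipartiteBelow, mem_filter] at hv hv'
      simp only at hv hv' hjj
      rw [hjj, hv.2.1, hv'.2.1]

open Classical in
lemma count3 (T0 K M n : ℕ) (u : ℕ → ℕ) (hK : 1 ≤ K)
    (hn : ∀ x : ℕ, ((Icc 1 M).filter (fun j => x ≤ u j ∧ u j < x + K)).card ≤ n) :
    ((Icc 1 M).filter (fun j => u j < T0)).card ≤ (T0 / K + 1) * n := by
  have h1 : (Icc 1 M).filter (fun j => u j < T0) ⊆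
      (range (T0 / K + 1)).biUnion (fun i => (Icc 1 M).filter (fun j => i * K ≤ u j ∧ u j < i * K + K)) := by
    intro j hj
    rw [mem_filter] at hj
    rw [mem_biUnion]
    refine ⟨u j / K, ?_, ?_⟩
    · rw [mem_range, Nat.lt_succ_iff]
      exact Nat.div_le_div_right hj.2.le
    · rw [mem_filter]
      refine ⟨hj.1, Nat.div_mul_le_self _ _, ?_⟩
      have h2 := Nat.div_add_mod (u j) K
      have h3 := Nat.mod_lt (u j) hK
      rw [mul_comm] at h2
      omega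
  refine (card_le_card h1).trans ?_
  refine (card_biUnion_le_card_mul _ _ n (fun i _ => hn _)).trans ?_
  rw [card_range]

end count

/-! ### large X -/

lemma evX (θ : ℝ) (e V W : ℕ) (c0 : ℝ) (he : 1 ≤ e) : ∃ X₀ : ℕ, ∀ X : ℕ, X₀ ≤ X →
    c0 ≤ Real.log X ∧ 4 * Real.log X ^ V ≤ (X : ℝ) ^ (1 / e : ℝ) ∧ 4 * Real.log X ^ W ≤ X ∧
    (2 * (X : ℝ)) ^ (θ + 1 / (2 * e) : ℝ) ≤ (X : ℝ) ^ (θ + 1 / e : ℝ) := by
  have he0 : (0 : ℝ) < e := by exact_mod_cast he
  have t0 : Filter.Tendsto (fun n : ℕ => (n : ℝ)) Filter.atTop Filter.atTop := tendsto_natCast_atTop_atTop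
  have h1 : ∀ᶠ x : ℝ in Filter.atTop, c0 ≤ Real.log x := Real.tendsto_log_atTop.eventually_ge_atTop c0
  have h2 : ∀ᶠ x : ℝ in Filter.atTop, 4 * Real.log x ^ V ≤ x ^ (1 / e : ℝ) := by
    have h := (isLittleO_log_rpow_rpow_atTop (V : ℝ) (by positivity : (0 : ℝ) < 1 / e)).bound
      (by norm_num : (0 : ℝ) < 1 / 4)
    filter_upwards [h, Filter.eventually_ge_atTop (1 : ℝ)] with x hx hx1
    rw [Real.rpow_natCast, Real.norm_of_nonneg (pow_nonneg (Real.log_nonneg hx1) _),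
      Real.norm_of_nonneg (Real.rpow_nonneg (by linarith) _)] at hx
    linarith
  have h3 : ∀ᶠ x : ℝ in Filter.atTop, 4 * Real.log x ^ W ≤ x := by
    have h := (isLittleO_log_rpow_rpow_atTop (W : ℝ) (by norm_num : (0 : ℝ) < 1)).bound
      (by norm_num : (0 : ℝ) < 1 / 4)
    filter_upwards [h, Filter.eventually_ge_atTop (1 : ℝ)] with x hx hx1
    rw [Real.rpow_natCast, Real.norm_of_nonneg (pow_nonneg (Real.log_nonneg hx1) _),
      Real.rpow_one, Real.norm_of_nonneg (by linarith)] at hx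
    linarith
  have h4 : ∀ᶠ x : ℝ in Filter.atTop, (2 * x) ^ (θ + 1 / (2 * e) : ℝ) ≤ x ^ (θ + 1 / e : ℝ) := by
    have h := (tendsto_rpow_atTop (by positivity : (0 : ℝ) < 1 / (2 * e))).eventually_ge_atTop
      ((2 : ℝ) ^ (θ + 1 / (2 * e) : ℝ))
    filter_upwards [h, Filter.eventually_ge_atTop (1 : ℝ)] with x hx hx1
    rw [Real.mul_rpow (by norm_num) (by linarith)]
    have e1 : (θ + 1 / e : ℝ) = 1 / (2 * e) + (θ + 1 / (2 * e)) := by
      field_simp
      ring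
    rw [e1, Real.rpow_add (by linarith : (0 : ℝ) < x) (1 / (2 * e)) (θ + 1 / (2 * e))]
    exact mul_le_mul_of_nonneg_right hx (Real.rpow_nonneg (by linarith : (0 : ℝ) ≤ x) _)
  have h5 := t0.eventually (h1.and (h2.and (h3.and h4)))
  obtain ⟨X₀, hX₀⟩ := Filter.eventually_atTop.1 h5
  exact ⟨X₀, fun X hX => hX₀ X hX⟩

theorem main : ∀ θ : ℝ, 0 ≤ θ → S_R14 θ → S_R30 θ := by
  classical
  intro θ hθ H k e A C hk he
  obtain ⟨V, hV⟩ : ∃ V, V = A + (k + 1) + 1 := ⟨_, rfl⟩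
  obtain ⟨W1, hW1⟩ : ∃ W1, W1 = 2 * C + A + 1 := ⟨_, rfl⟩
  obtain ⟨W2, hW2⟩ : ∃ W2, W2 = W1 + V + 1 := ⟨_, rfl⟩
  obtain ⟨A1, hA1⟩ : ∃ A1, A1 = V + 2 * C + W2 + A + 1 := ⟨_, rfl⟩
  obtain ⟨B1, X1, H⟩ := H (k + 1) (2 * e) A1 (by omega) (by omega)
  obtain ⟨B, hB⟩ : ∃ B, B = 4 * B1 + V := ⟨_, rfl⟩
  obtain ⟨X2, hX2⟩ := evX θ e V W2 (2 ^ (k + 6) + 72 * 16 ^ (k + 1) + 100) he
  refine ⟨B, X1 + X2 + 10, fun X hX K hK1 hK2 M u hSp => ?_⟩
  obtain ⟨hLc, hXV, hXW, hXθ⟩ := hX2 X (by omega)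
  obtain ⟨hSp1, hSp2, hSp3⟩ := hSp
  have hX10 : (10 : ℝ) ≤ X := by exact_mod_cast (by omega : 10 ≤ X)
  have hX0 : (0 : ℝ) < X := by linarith
  obtain ⟨L, hL⟩ : ∃ L, L = Real.log X := ⟨_, rfl⟩
  rw [← hL] at hLc hXV hXW hSp2 hSp3
  have q1 : (0 : ℝ) < 2 ^ (k + 6) := by positivity
  have q2 : (0 : ℝ) < 72 * 16 ^ (k + 1) := by positivity
  have hL100 : 100 ≤ L := by linarith
  have hL0 : 0 < L := by linarith
  have hL1 : 1 ≤ L := by linarith
  have hLk : (2 : ℝ) ^ (k + 6) ≤ L := by linarith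
  have hLk2 : (72 : ℝ) * 16 ^ (k + 1) ≤ L := by linarith
  -- double logarithms
  obtain ⟨l, hl⟩ : ∃ l, l = Real.log L := ⟨_, rfl⟩
  have hl1 : 1 ≤ l := by
    rw [hl, Real.le_log_iff_exp_le hL0]
    have := Real.exp_one_lt_d9
    linarith
  have hel : Real.exp l = L := by rw [hl, Real.exp_log hL0]
  have hlog2X : Real.log ((2 * X : ℕ) : ℝ) ≤ 2 * L := by
    push_cast
    rw [Real.log_mul (by norm_num) hX0.ne']
    have := Real.log_two_lt_d9
    linarith
  have hlog2X' : L ≤ Real.log ((2 * X : ℕ) : ℝ) := by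
    rw [hL]
    exact Real.log_le_log hX0 (by push_cast; linarith)
  have hlog4X : Real.log ((4 * X : ℕ) : ℝ) ≤ 2 * L := by
    push_cast
    rw [Real.log_mul (by norm_num) hX0.ne']
    have h1 : Real.log 4 = 2 * Real.log 2 := by
      rw [show (4 : ℝ) = 2 ^ 2 by norm_num, Real.log_pow]
      norm_num
    have := Real.log_two_lt_d9
    linarith
  have hlog4X' : L ≤ Real.log ((4 * X : ℕ) : ℝ) := by
    rw [hL]
    exact Real.log_le_log hX0 (by push_cast; linarith)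
  have hll : Real.log (Real.log ((2 * X : ℕ) : ℝ)) ≤ 2 * l := by
    have h1 : Real.log (Real.log ((2 * X : ℕ) : ℝ)) ≤ Real.log (2 * L) := Real.log_le_log (by linarith) hlog2X
    rw [Real.log_mul (by norm_num) hL0.ne'] at h1
    have := Real.log_two_lt_d9
    linarith
  have hll0 : 0 ≤ Real.log (Real.log ((2 * X : ℕ) : ℝ)) := Real.log_nonneg (by linarith)
  have hexp1 : Real.exp (-(B * l ^ 2)) ≤ Real.exp (-(B1 * Real.log (Real.log ((2 * X : ℕ) : ℝ)) ^ 2)) := by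
    rw [Real.exp_le_exp, neg_le_neg_iff]
    have h1 : Real.log (Real.log ((2 * X : ℕ) : ℝ)) ^ 2 ≤ (2 * l) ^ 2 := pow_le_pow_left₀ hll0 hll 2
    calc (B1 : ℝ) * Real.log (Real.log ((2 * X : ℕ) : ℝ)) ^ 2 ≤ B1 * (2 * l) ^ 2 :=
          mul_le_mul_of_nonneg_left h1 (Nat.cast_nonneg B1)
      _ = (4 * B1 : ℝ) * l ^ 2 := by ring
      _ ≤ B * l ^ 2 := by
          apply mul_le_mul_of_nonneg_right _ (sq_nonneg l)
          rw [hB]
          push_cast
          have := Nat.cast_nonneg (α := ℝ) V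
          linarith
  have hexp2 : Real.exp (-(B * l ^ 2)) ≤ 1 / L ^ V := by
    have h1 : 1 / L ^ V = Real.exp (-(V * l)) := by
      rw [Real.exp_neg, Real.exp_nat_mul, hel, one_div]
    rw [h1, Real.exp_le_exp, neg_le_neg_iff]
    have h2 : l ≤ l ^ 2 := by nlinarith
    calc (V : ℝ) * l ≤ V * l ^ 2 := mul_le_mul_of_nonneg_left h2 (Nat.cast_nonneg V)
      _ ≤ B * l ^ 2 := by
          apply mul_le_mul_of_nonneg_right _ (sq_nonneg l)
          rw [hB]
          push_cast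
          have := Nat.cast_nonneg (α := ℝ) B1
          linarith
  -- powers
  obtain ⟨v, hv⟩ : ∃ v, v = L ^ V := ⟨_, rfl⟩
  obtain ⟨p, hp⟩ : ∃ p, p = L ^ C := ⟨_, rfl⟩
  obtain ⟨a, ha⟩ : ∃ a, a = L ^ A := ⟨_, rfl⟩
  obtain ⟨w, hw⟩ : ∃ w, w = L ^ W2 := ⟨_, rfl⟩
  have hv1 : 1 ≤ v := by rw [hv]; exact one_le_pow₀ hL1
  have hp1 : 1 ≤ p := by rw [hp]; exact one_le_pow₀ hL1
  have ha1 : 1 ≤ a := by rw [ha]; exact one_le_pow₀ hL1
  have hw1 : 1 ≤ w := by rw [hw]; exact one_le_pow₀ hL1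
  have hLv : L ≤ v := by rw [hv]; exact le_self_pow₀ hL1 (by omega)
  have hW1' : L ^ W1 = p ^ 2 * a * L := by
    rw [hW1, hp, ha, ← pow_mul, pow_succ, pow_add]
    ring
  have hw' : w = p ^ 2 * a * L * v * L := by
    rw [hw, hW2, pow_succ, pow_add, hW1', hv]
  have hA1' : L ^ A1 = v * p ^ 2 * w * a * L := by
    rw [hA1, pow_succ, pow_add, pow_add, pow_add, hv, hp, hw, ha, ← pow_mul, mul_comm C 2]
  rw [← hv] at hXV hexp2
  rw [← hw] at hXW
  rw [← hp] at hSp2 hSp3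
  -- K
  have hK4 : 4 * v ≤ K := by
    refine hXV.trans (le_trans ?_ hK1)
    exact Real.rpow_le_rpow_of_exponent_le (by linarith) (by linarith)
  have hK0 : (0 : ℝ) < K := by linarith
  have hKX : (K : ℝ) ≤ X := by exact_mod_cast hK2
  have hv0 : 0 < v := by linarith
  have hw0 : 0 < w := by linarith
  have hp0 : 0 < p := by linarith
  have ha0 : 0 < a := by linarith
  have hKv : 4 ≤ (K : ℝ) / v := by rwa [le_div_iff₀ hv0]
  obtain ⟨D, hD⟩ : ∃ D, D = ⌊(K : ℝ) / v⌋₊ := ⟨_, rfl⟩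
  have hD1 : (D : ℝ) ≤ K / v := by rw [hD]; exact Nat.floor_le (by positivity)
  have hD2 : (K : ℝ) / v < D + 1 := by rw [hD]; exact Nat.lt_floor_add_one _
  have hDK : D < K := by
    have h1 : (K : ℝ) / v ≤ K / 100 := by
      apply div_le_div_of_nonneg_left hK0.le (by norm_num) (by linarith)
    have h2 : (D : ℝ) < K := by linarith
    exact_mod_cast h2
  obtain ⟨T0, hT0⟩ : ∃ T0, T0 = ⌈(X : ℝ) / w⌉₊ + 1 := ⟨_, rfl⟩
  have hXw : 4 ≤ (X : ℝ) / w := by rwa [le_div_iff₀ hw0]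
  have hT1 : (X : ℝ) / w ≤ ((T0 - 1 : ℕ) : ℝ) := by
    rw [hT0, Nat.add_sub_cancel]
    exact Nat.le_ceil _
  have hT2 : (T0 : ℝ) ≤ 2 * (X / w) := by
    have h1 : (⌈(X : ℝ) / w⌉₊ : ℝ) < X / w + 1 := Nat.ceil_lt_add_one (by positivity)
    rw [hT0]
    push_cast
    linarith
  have hTX : T0 - 1 ≤ X := by
    have h1 : (X : ℝ) / w ≤ X / 100 := by
      apply div_le_div_of_nonneg_left hX0.le (by norm_num)
      rw [hw]
      exact hL100.trans (le_self_pow₀ hL1 (by omega))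
    have h2 : (T0 : ℝ) ≤ X := by linarith
    have h3 : T0 ≤ X := by exact_mod_cast h2
    omega
  obtain ⟨n, hn⟩ : ∃ n, n = ⌊p⌋₊ := ⟨_, rfl⟩
  have hn1 : (n : ℝ) ≤ p := by rw [hn]; exact Nat.floor_le hp0.le
  have hn2 : ∀ x : ℕ, ((Icc 1 M).filter (fun j => x ≤ u j ∧ u j < x + K)).card ≤ n := by
    intro x
    rw [hn]
    apply Nat.le_floor
    convert hSp2 x
  -- the good pairs
  have hP : ∀ (x g0 : ℕ) (h : Fin k → ℕ), Good14 A1 B1 (2 * X) K x (Fin.cons g0 (fun i => g0 + h i) : Fin (k + 1) → ℕ) →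
      Good14 A1 B1 (2 * X) K (x + g0) (Fin.cons 0 h : Fin (k + 1) → ℕ) := by
    intro x g0 h hg
    apply good_trans _ hg
    intro i
    refine Fin.cases ?_ (fun i => ?_) i
    · rw [Fin.cons_zero, Fin.cons_zero, add_zero]
    · rw [Fin.cons_succ, Fin.cons_succ]
  have hfin : 9 * (2 * Real.log ((4 * X : ℕ) : ℝ)) ^ (2 * (k + 1)) *
      (2 * ((K : ℝ) ^ 2 / Real.log ((2 * X : ℕ) : ℝ) ^ A1) +
      (2 * (D : ℝ) ^ 2 * (1 + Real.log K) + 2 * ((K : ℝ) * Real.exp (-(B * Real.log (Real.log X) ^ 2))) ^ 2)) ≤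
      (K : ℝ) ^ 2 / Real.log X ^ A := by
    rw [← hL, ← hl, ← ha]
    have h1 : (2 * Real.log ((4 * X : ℕ) : ℝ)) ^ (2 * (k + 1)) ≤ 16 ^ (k + 1) * L ^ (2 * (k + 1)) := by
      calc (2 * Real.log ((4 * X : ℕ) : ℝ)) ^ (2 * (k + 1)) ≤ (4 * L) ^ (2 * (k + 1)) :=
            pow_le_pow_left₀ (by linarith) (by linarith) _
        _ = _ := by rw [mul_pow, pow_mul 4]; norm_num
    have h2 : (K : ℝ) ^ 2 / Real.log ((2 * X : ℕ) : ℝ) ^ A1 ≤ (K : ℝ) ^ 2 / v ^ 2 := by
      apply div_le_div_of_nonneg_left (by positivity) (by positivity)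
      calc v ^ 2 = L ^ (2 * V) := by rw [hv, ← pow_mul, mul_comm]
        _ ≤ L ^ A1 := pow_le_pow_right₀ hL1 (by omega)
        _ ≤ _ := pow_le_pow_left₀ hL0.le hlog2X' _
    have h3 : 2 * (D : ℝ) ^ 2 * (1 + Real.log K) ≤ 4 * L * ((K : ℝ) ^ 2 / v ^ 2) := by
      have g1 : Real.log K ≤ L := by
        rw [hL]
        exact Real.log_le_log hK0 hKX
      have g2 : (D : ℝ) ^ 2 ≤ (K : ℝ) ^ 2 / v ^ 2 := by
        rw [← div_pow]
        exact pow_le_pow_left₀ (Nat.cast_nonneg D) hD1 2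
      have g3 : 0 ≤ Real.log K := Real.log_natCast_nonneg K
      calc 2 * (D : ℝ) ^ 2 * (1 + Real.log K) ≤ 2 * ((K : ℝ) ^ 2 / v ^ 2) * (2 * L) := by
            apply mul_le_mul _ (by linarith) (by linarith) (by positivity)
            linarith
        _ = _ := by ring
    have h4 : 2 * ((K : ℝ) * Real.exp (-(B * l ^ 2))) ^ 2 ≤ 2 * ((K : ℝ) ^ 2 / v ^ 2) := by
      have g1 : (K : ℝ) * Real.exp (-(B * l ^ 2)) ≤ K * (1 / v) := mul_le_mul_of_nonneg_left hexp2 hK0.le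
      have g2 : ((K : ℝ) * Real.exp (-(B * l ^ 2))) ^ 2 ≤ (K * (1 / v)) ^ 2 := pow_le_pow_left₀ (by positivity) g1 2
      have g3 : ((K : ℝ) * (1 / v)) ^ 2 = (K : ℝ) ^ 2 / v ^ 2 := by ring
      linarith
    have h5 : (2 * ((K : ℝ) ^ 2 / Real.log ((2 * X : ℕ) : ℝ) ^ A1) +
      (2 * (D : ℝ) ^ 2 * (1 + Real.log K) + 2 * ((K : ℝ) * Real.exp (-(B * l ^ 2))) ^ 2)) ≤
      8 * L * ((K : ℝ) ^ 2 / v ^ 2) := by
      have g1 : 0 ≤ (K : ℝ) ^ 2 / v ^ 2 := by positivity
      have g2 : (K : ℝ) ^ 2 / v ^ 2 ≤ L * ((K : ℝ) ^ 2 / v ^ 2) := le_mul_of_one_le_left g1 hL1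
      linarith
    have h6 : v ^ 2 = L ^ (2 * (k + 1)) * a * (a * L * L) := by
      rw [hv, ha, hV, ← pow_mul, ← pow_succ, ← pow_succ, ← pow_add, ← pow_add]
      congr 1
      ring
    calc _ ≤ 9 * (16 ^ (k + 1) * L ^ (2 * (k + 1))) * (8 * L * ((K : ℝ) ^ 2 / v ^ 2)) := by
          apply mul_le_mul _ h5 (by positivity) (by positivity)
          linarith
      _ = (72 * 16 ^ (k + 1)) * (L ^ (2 * (k + 1)) * L * ((K : ℝ) ^ 2 / v ^ 2)) := by ring
      _ ≤ L * (L ^ (2 * (k + 1)) * L * ((K : ℝ) ^ 2 / v ^ 2)) := mul_le_mul_of_nonneg_right hLk2 (by positivity)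
      _ = (K : ℝ) ^ 2 / a * (1 / a) := by
          rw [h6]
          field_simp
      _ ≤ (K : ℝ) ^ 2 / a * 1 := by
          apply mul_le_mul_of_nonneg_left _ (by positivity)
          rw [div_le_one ha0]
          exact ha1
      _ = _ := mul_one _
  have hmove : ∀ j ∈ Icc 1 M, ∀ h : Fin k → ℕ, (∀ i, h i ∈ Icc 1 X) → ∀ t, T0 ≤ t → u j ≤ t → t ≤ u j + D →
      Good14 A1 B1 (2 * X) K t (Fin.cons 0 h : Fin (k + 1) → ℕ) →
      Good14 A B X K (u j) (Fin.cons 0 h : Fin (k + 1) → ℕ) := by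
    intro j hj h hh t ht1 ht2 ht3 hG
    obtain ⟨b, rfl⟩ := Nat.exists_eq_add_of_le ht2
    have hj' := hSp1 j hj
    refine move (D := D) (Y := 4 * X) hG (by omega) hDK.le (by omega) ?_ (by linarith) ?_ hfin
    · intro i
      refine Fin.cases ?_ (fun i => ?_) i
      · rw [Fin.cons_zero]
        omega
      · rw [Fin.cons_succ]
        have := hh i
        rw [mem_Icc] at this
        omega
    · apply mul_le_mul_of_nonneg_left _ hK0.le
      rw [← hL, ← hl]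
      exact hexp1
  -- the pairs
  obtain ⟨J0, hJ0⟩ : ∃ J0 : Finset ℕ, J0 = if (K : ℝ) * L ^ W1 ≤ X then (Icc 1 M).filter (fun j => u j < T0) else ∅ :=
    ⟨_, rfl⟩
  obtain ⟨PP, hPP⟩ : ∃ PP : Finset (ℕ × (Fin k → ℕ)), PP = (Icc 1 M ×ˢ Fintype.piFinset (fun _ : Fin k => Icc 1 X)).filter
    (fun v => ¬ Good14 A B X K (u v.1) (Fin.cons 0 v.2 : Fin (k + 1) → ℕ)) := ⟨_, rfl⟩
  suffices hgoal : (PP.card : ℝ) ≤ M * (X : ℝ) ^ k / Real.log X ^ A by
    rw [hPP] at hgoal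
    convert hgoal
  rw [← hL, ← ha]
  have hsplit : PP.card ≤ J0.card * X ^ k + (PP.filter (fun v => v.1 ∉ J0)).card := by
    have h1 : PP ⊆ (J0 ×ˢ Fintype.piFinset (fun _ : Fin k => Icc 1 X)) ∪ PP.filter (fun v => v.1 ∉ J0) := by
      intro v hv'
      rw [mem_union]
      by_cases hvJ : v.1 ∈ J0
      · left
        rw [hPP, mem_filter, mem_product] at hv'
        rw [mem_product]
        exact ⟨hvJ, hv'.1.2⟩
      · right
        rw [mem_filter]
        exact ⟨hv', hvJ⟩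
    refine (card_le_card h1).trans ((card_union_le _ _).trans ?_)
    rw [card_product, Fintype.card_piFinset_const, Nat.card_Icc, Nat.add_sub_cancel]
  obtain ⟨m, hm⟩ : ∃ m, m = (D + 1) / 2 := ⟨_, rfl⟩
  have c2 := count2 X T0 D K M n m u (fun t h => Good14 A1 B1 (2 * X) K t (Fin.cons 0 h : Fin (k + 1) → ℕ))
    (PP.filter (fun v => v.1 ∉ J0)) hDK hSp1 (by omega) (by convert hn2) (by
      rintro ⟨j, h⟩ hv'
      rw [mem_filter, hPP, mem_filter, mem_product, Fintype.mem_piFinset] at hv'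
      obtain ⟨⟨⟨hj, hh⟩, hbad⟩, hjJ⟩ := hv'
      simp only at hj hh hbad hjJ ⊢
      refine ⟨hj, hh, fun t ht1 ht2 ht3 hG => hbad (hmove j hj h hh t ht1 ht2 ht3 hG), ?_⟩
      by_cases hcase : (K : ℝ) * L ^ W1 ≤ X
      · rw [hJ0, if_pos hcase, mem_filter, not_and, not_lt] at hjJ
        have := hjJ hj
        omega
      · rw [not_le] at hcase
        have h1 : 4 * (T0 : ℝ) ≤ D + 1 := by
          have g1 : (X : ℝ) / w ≤ (K : ℝ) / v / L := by
            rw [hw', hW1'] at *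
            rw [div_div, div_le_div_iff₀ (by positivity) (by positivity)]
            calc (X : ℝ) * (v * L) ≤ (K * (p ^ 2 * a * L)) * (v * L) := by
                  apply mul_le_mul_of_nonneg_right hcase.le (by positivity)
              _ = _ := by ring
          have g2 : (K : ℝ) / v / L ≤ (K : ℝ) / v / 8 := by
            apply div_le_div_of_nonneg_left (by positivity) (by norm_num) (by linarith)
          linarith
        have h2 : 4 * T0 ≤ D + 1 := by exact_mod_cast h1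
        omega)
  have c1 := count1 X T0 (fun t h => Good14 A1 B1 (2 * X) K t (Fin.cons 0 h : Fin (k + 1) → ℕ))
    (fun x g => Good14 A1 B1 (2 * X) K x g) hP hTX
  have c3 := count3 T0 K M n u (by omega) (by convert hn2)
  have c14 := H (2 * X) (by omega) K (by
    refine le_trans (le_of_eq ?_) (hXθ.trans hK1)
    push_cast
    rfl) (by omega)
  obtain ⟨bt, hbt⟩ : ∃ bt : ℕ, bt = ((Icc T0 (2 * X) ×ˢ Fintype.piFinset (fun _ : Fin k => Icc 1 X)).filter
    (fun v => ¬ Good14 A1 B1 (2 * X) K v.1 (Fin.cons 0 v.2 : Fin (k + 1) → ℕ))).card := ⟨_, rfl⟩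
  obtain ⟨bx, hbx⟩ : ∃ bx : ℕ, bx = ((Icc 1 (2 * X) ×ˢ Fintype.piFinset (fun _ : Fin (k + 1) => Icc 1 (2 * X))).filter
    (fun v => ¬ Good14 A1 B1 (2 * X) K v.1 v.2)).card := ⟨_, rfl⟩
  obtain ⟨s, hs⟩ : ∃ s : ℕ, s = (PP.filter (fun v => v.1 ∉ J0)).card := ⟨_, rfl⟩
  have c2' : s * m ≤ bt * n := by rw [hs, hbt]; convert c2
  have c1' : bt * (T0 - 1) ≤ bx := by rw [hbt, hbx]; convert c1
  have c14' : (bx : ℝ) ≤ ((2 * X : ℕ) : ℝ) ^ (k + 1 + 1) / Real.log ((2 * X : ℕ) : ℝ) ^ A1 := by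
    rw [hbx]; convert c14
  rw [← hs] at hsplit
  -- real inequalities
  have hXM : (X : ℝ) ≤ M * K * p := hSp3
  have hXk0 : (0 : ℝ) < (X : ℝ) ^ k := by positivity
  have r1 : (s : ℝ) * (2 * a) ≤ M * (X : ℝ) ^ k := by
    have g1 : (s : ℝ) * m * ((T0 - 1 : ℕ) : ℝ) ≤ bx * n := by
      have : s * m * (T0 - 1) ≤ bx * n := by
        calc s * m * (T0 - 1) ≤ bt * n * (T0 - 1) := Nat.mul_le_mul_right _ c2'
          _ = bt * (T0 - 1) * n := by ring
          _ ≤ bx * n := Nat.mul_le_mul_right _ c1'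
      exact_mod_cast this
    have g2 : (K : ℝ) / (4 * v) ≤ m := by
      have h1 : (D : ℝ) / 2 ≤ m := by
        have : D ≤ 2 * m := by omega
        have h2 : (D : ℝ) ≤ 2 * m := by exact_mod_cast this
        linarith
      have h3 : (K : ℝ) / (4 * v) = (K : ℝ) / v / 4 := by
        rw [div_div, mul_comm]
      rw [h3]
      linarith
    have g3 : (bx : ℝ) ≤ (2 * (X : ℝ)) ^ (k + 2) / (v * p ^ 2 * w * a * L) := by
      refine c14'.trans ?_
      push_cast
      apply div_le_div_of_nonneg_left (by positivity) (by positivity)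
      rw [← hA1']
      apply pow_le_pow_left₀ hL0.le
      have := hlog2X'
      push_cast at this
      exact this
    have g4 : (s : ℝ) * (K / (4 * v)) * (X / w) ≤ (2 * (X : ℝ)) ^ (k + 2) / (v * p ^ 2 * w * a * L) * p := by
      calc (s : ℝ) * (K / (4 * v)) * (X / w) ≤ s * m * ((T0 - 1 : ℕ) : ℝ) := by
            apply mul_le_mul _ hT1 (by positivity) (by positivity)
            exact mul_le_mul_of_nonneg_left g2 (Nat.cast_nonneg s)
        _ ≤ bx * n := g1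
        _ ≤ _ := mul_le_mul g3 hn1 (Nat.cast_nonneg n) (by positivity)
    have g5 : (s : ℝ) * K * (p * a * L) ≤ 2 ^ (k + 4) * ((X : ℝ) ^ k * X) := by
      have h1 := mul_le_mul_of_nonneg_right g4 (by positivity : 0 ≤ 4 * v * w * p * a * L / X)
      have h2 : (s : ℝ) * (K / (4 * v)) * (X / w) * (4 * v * w * p * a * L / X) = s * K * (p * a * L) := by
        field_simp
      have h3 : (2 * (X : ℝ)) ^ (k + 2) / (v * p ^ 2 * w * a * L) * p * (4 * v * w * p * a * L / X) =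
          2 ^ (k + 4) * ((X : ℝ) ^ k * X) := by
        rw [mul_pow, pow_add, pow_add, pow_add]
        field_simp
        ring
      rwa [h2, h3] at h1
    have g6 : (s : ℝ) * a * L * (K * p) ≤ 2 ^ (k + 4) * ((X : ℝ) ^ k * M) * (K * p) := by
      calc (s : ℝ) * a * L * (K * p) = (s : ℝ) * K * (p * a * L) := by ring
        _ ≤ 2 ^ (k + 4) * ((X : ℝ) ^ k * X) := g5
        _ ≤ 2 ^ (k + 4) * ((X : ℝ) ^ k * (M * K * p)) := by
            apply mul_le_mul_of_nonneg_left _ (by positivity)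
            exact mul_le_mul_of_nonneg_left hXM hXk0.le
        _ = _ := by ring
    have g7 : (s : ℝ) * a * L ≤ 2 ^ (k + 4) * ((X : ℝ) ^ k * M) := le_of_mul_le_mul_right g6 (by positivity)
    have g8 : (s : ℝ) * a * (2 * 2 ^ (k + 4)) ≤ (s : ℝ) * a * L := by
      apply mul_le_mul_of_nonneg_left _ (by positivity)
      have : (2 : ℝ) ^ (k + 6) = 4 * 2 ^ (k + 4) := by
        rw [show k + 6 = k + 4 + 2 by ring, pow_add]
        norm_num
        ring
      have h9 : (0 : ℝ) < 2 ^ (k + 4) := by positivity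
      linarith
    have g9 : ((s : ℝ) * (2 * a)) * 2 ^ (k + 4) ≤ (M * (X : ℝ) ^ k) * 2 ^ (k + 4) := by
      calc ((s : ℝ) * (2 * a)) * 2 ^ (k + 4) = (s : ℝ) * a * (2 * 2 ^ (k + 4)) := by ring
        _ ≤ _ := g8.trans g7
        _ = _ := by ring
    exact le_of_mul_le_mul_right g9 (by positivity)
  have r2 : (J0.card : ℝ) * (2 * a) ≤ M := by
    by_cases hcase : (K : ℝ) * L ^ W1 ≤ X
    · have h1 : (J0.card : ℝ) * K ≤ (T0 + K) * p := by
        have e0 : J0.card ≤ (T0 / K + 1) * n := by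
          rw [hJ0, if_pos hcase]
          convert c3
        have e1 : J0.card * K ≤ (T0 + K) * n := by
          calc J0.card * K ≤ (T0 / K + 1) * n * K := Nat.mul_le_mul_right _ e0
            _ = (T0 / K * K + K) * n := by ring
            _ ≤ (T0 + K) * n := Nat.mul_le_mul_right _ (Nat.add_le_add_right (Nat.div_mul_le_self _ _) _)
        have e2 : (J0.card : ℝ) * K ≤ (T0 + K) * n := by exact_mod_cast e1
        exact e2.trans (mul_le_mul_of_nonneg_left hn1 (by positivity))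
      rw [hW1'] at hcase
      have h2 : (K : ℝ) * (4 * p ^ 2 * a) ≤ X := by
        refine le_trans ?_ hcase
        apply mul_le_mul_of_nonneg_left _ hK0.le
        have : 4 * (p ^ 2 * a) ≤ L * (p ^ 2 * a) := mul_le_mul_of_nonneg_right (by linarith) (by positivity)
        linarith
      have h3 : (T0 : ℝ) * (4 * p ^ 2 * a) ≤ X := by
        calc (T0 : ℝ) * (4 * p ^ 2 * a) ≤ 2 * (X / w) * (4 * p ^ 2 * a) :=
              mul_le_mul_of_nonneg_right hT2 (by positivity)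
          _ = X * (8 / (L * (v * L))) := by
              rw [hw']
              field_simp
              ring
          _ ≤ X * 1 := by
              apply mul_le_mul_of_nonneg_left _ hX0.le
              rw [div_le_one (by positivity)]
              have : L * 1 ≤ L * (v * L) := mul_le_mul_of_nonneg_left (by nlinarith) hL0.le
              linarith
          _ = X := mul_one _
      have h4 : (J0.card : ℝ) * (2 * a) * (K * p) ≤ M * (K * p) := by
        calc (J0.card : ℝ) * (2 * a) * (K * p) = (J0.card : ℝ) * K * (2 * a * p) := by ring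
          _ ≤ (T0 + K) * p * (2 * a * p) := mul_le_mul_of_nonneg_right h1 (by positivity)
          _ = (T0 * (4 * p ^ 2 * a) + K * (4 * p ^ 2 * a)) / 2 := by ring
          _ ≤ X := by linarith
          _ ≤ M * K * p := hXM
          _ = _ := by ring
      exact le_of_mul_le_mul_right h4 (by positivity)
    · rw [hJ0, if_neg hcase, card_empty]
      simp
  have hsplit' : (PP.card : ℝ) ≤ J0.card * (X : ℝ) ^ k + s := by exact_mod_cast hsplit
  rw [le_div_iff₀ ha0]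
  have r3 : (J0.card : ℝ) * (2 * a) * (X : ℝ) ^ k ≤ M * (X : ℝ) ^ k := mul_le_mul_of_nonneg_right r2 hXk0.le
  calc (PP.card : ℝ) * a ≤ (J0.card * (X : ℝ) ^ k + s) * a := mul_le_mul_of_nonneg_right hsplit' ha0.le
    _ = ((J0.card : ℝ) * (2 * a) * (X : ℝ) ^ k + s * (2 * a)) / 2 := by ring
    _ ≤ (M * (X : ℝ) ^ k + M * (X : ℝ) ^ k) / 2 := by linarith
    _ = _ := by ring

end Pool.Agent.helper24_UT.R30
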