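import Pool.Agent.helper24_UT.Ch13
import Pool.Agent.helper24_UT.R30

/-!
# Project UT (helper24): assembly, part 20
-/

set_option autoImplicit false

namespace Pool.Agent.helper24_UT.Ch

theorem t_R30 : S_R30 (1 / 3) := R30.main (1 / 3) (by norm_num) t_R14

end Pool.Agent.helper24_UT.Ch
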