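import Pool.Agent.helper24_UT.Stm24

/-!
# Project UT (helper24), part 25: values of `n² + a` in windows `(m, m + y]`, arbitrary weights, all classes to all moduli. Statements.
-/

set_option autoImplicit false

namespace Pool.Agent.helper24_UT

open Finset Polynomial
open Pool.Agent.H373R2.T7 (lamI lamzI lamz Vz pz energy)

/-- `log |n² + a|` if `|n² + a|` is a prime, `0` otherwise -/
noncomputable def lq (a : ℤ) (n : ℕ) : ℝ :=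
  if ((n : ℤ) ^ 2 + a).natAbs.Prime then Real.log (((n : ℤ) ^ 2 + a).natAbs : ℝ) else 0

open Classical in
/-- (270) primes minus model at the values of `n² + a`, `m < n ≤ m + y`, with arbitrary weights, for almost all `a` and all `y` -/
def S_SQU (θ : ℝ) : Prop := ∀ e A T : ℕ, 1 ≤ e → ∃ E₀ : ℕ, ∀ E₁ : ℕ, ∃ X₀ : ℕ, ∀ X : ℕ, X₀ ≤ X → ∀ z : ℕ,
  (Real.log X) ^ E₀ ≤ z → (z : ℝ) ≤ (Real.log X) ^ E₁ → ∀ (m : ℕ) (u : ℕ → ℝ), (∀ n, |u n| ≤ (Real.log X) ^ T) →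
  (((Icc (-(X : ℤ)) X).filter (fun a => ∃ y : ℕ, Wd θ e X m y ∧
    (y : ℝ) / (Real.log X) ^ A <
      |∑ n ∈ Ioc m (m + y), u n * (Ed z ((n : ℤ) ^ 2 + a) + Ed z (-((n : ℤ) ^ 2 + a)))|)).card : ℝ) ≤
    X / (Real.log X) ^ A

open Classical in
/-- (271) the same with the logarithm on the primes -/
def S_SQP (θ : ℝ) : Prop := ∀ e A T : ℕ, 1 ≤ e → ∃ E₀ : ℕ, ∀ E₁ : ℕ, ∃ X₀ : ℕ, ∀ X : ℕ, X₀ ≤ X → ∀ z : ℕ,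
  (Real.log X) ^ E₀ ≤ z → (z : ℝ) ≤ (Real.log X) ^ E₁ → ∀ (m : ℕ) (u : ℕ → ℝ), (∀ n, |u n| ≤ (Real.log X) ^ T) →
  (((Icc (-(X : ℤ)) X).filter (fun a => ∃ y : ℕ, Wd θ e X m y ∧
    (y : ℝ) / (Real.log X) ^ A < |∑ n ∈ Ioc m (m + y), u n * (lq a n - lz z ((n : ℤ) ^ 2 + a))|)).card : ℝ) ≤
    X / (Real.log X) ^ A

open Classical in
/-- (272) all classes to all moduli, arbitrary weights -/
def S_SQC (θ : ℝ) : Prop := ∀ e A T : ℕ, 1 ≤ e → ∃ E₀ B : ℕ, ∀ E₁ : ℕ, ∃ X₀ : ℕ, ∀ X : ℕ, X₀ ≤ X → ∀ z : ℕ,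
  (Real.log X) ^ E₀ ≤ z → (z : ℝ) ≤ (Real.log X) ^ E₁ → ∀ (m : ℕ) (u : ℕ → ℝ), (∀ n, |u n| ≤ (Real.log X) ^ T) →
  (((Icc (-(X : ℤ)) X).filter (fun a => ∃ y : ℕ, Wd θ e X m y ∧
    ¬ ∀ Q : ℕ, (Q : ℝ) * (Real.log X) ^ B ≤ y → ∀ w : ℕ → ℕ → ℕ, (∀ q s, w q s ≤ y) →
      ∑ q ∈ Icc 1 Q, ∑ s ∈ range q, (∑ n ∈ (Ioc m (m + w q s)).filter (fun n => n % q = s),
        u n * (lq a n - lz z ((n : ℤ) ^ 2 + a))) ^ 2 ≤ (y : ℝ) ^ 2 / (Real.log X) ^ A)).card : ℝ) ≤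
    X / (Real.log X) ^ A

open Classical in
/-- (273) all classes to all moduli, the Euler product -/
def S_SQH (θ : ℝ) : Prop := ∀ e A : ℕ, 1 ≤ e → ∃ E₀ : ℕ, ∀ E₁ : ℕ, ∃ X₀ : ℕ, ∀ N : ℕ, X₀ ≤ N → ∀ z : ℕ,
  (Real.log N) ^ E₀ ≤ z → (z : ℝ) ≤ (Real.log N) ^ E₁ → ∀ m : ℕ,
  (((Icc (-(N : ℤ)) N).filter (fun a => ∃ y : ℕ, Wd θ e N m y ∧
    ¬ ∀ Q : ℕ, (Q : ℝ) * Real.exp (2 * Real.sqrt (Real.log N)) ≤ y → ∀ w : ℕ → ℕ → ℕ, (∀ q s, w q s ≤ y) →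
      ∑ q ∈ Icc 1 Q, ∑ s ∈ range q, (∑ n ∈ (Ioc m (m + w q s)).filter (fun n => n % q = s), lq a n -
        (w q s : ℝ) / q * sg z (fun _ : Fin 1 => (C (q : ℤ) * X + C (s : ℤ)) ^ 2 + C a)) ^ 2 ≤
        (y : ℝ) ^ 2 / (Real.log N) ^ A)).card : ℝ) ≤ N / (Real.log N) ^ A

end Pool.Agent.helper24_UT
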