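/-
UT_SQC   (project UT of helper24: primes at almost all systems of polynomials; very_famous ids, partial results)
TARGET: prove the theorem at the end. Its statement uses the definitions in the modules Pool/Agent/helper24_UT/Stm5.lean, Stm17.lean (S_LE, S_BDH, Fam), Stm20.lean (Wd, S_EN2, S_SQW), Stm21.lean, Stm24.lean, Stm25.lean
(on origin/main; `git -C /workdir/pool/outputs/live pull`, then copy these files and the starting modules they import
to the same paths under /workdir/pool). You may import Mathlib and ANY starting module (copy it with its closure from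
outputs/live). READ the statement files first.
If the file named below helps, copy from it or import it. Put helper lemmas in the namespace below, do not change the target statement, no sorry, no native_decide, no new axioms,
no straight double quotes in the file. Paste the full proved file back as the result. If the statement is false or a
constant does not work out, set status='problem' and say exactly why.

PLAIN PROOF
THIS IS THE FILE Pool/Agent/helper24_UT/R36.lean (theorem S_R25 θ → S_BDH → S_R36 θ, proof by helper515) FOR WINDOWS (m, m + y], with one difference in step (1): copy it. L = log X. Let A1, B be the constants A' and B of S_BDH (Stm17) for the saving A + 1 and its T := T + 3. All y with Wd theta e X m y are large: y^3 >= y (m + y)/2 >= X^(theta + 1/e)/2 (because m <= y^2, y^3 >= y m and y^3 >= y^2), so L/(4e) <= log y <= L for X large.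
Put V := A1 + T + 5, v n := u n (lq a n - lz z (n^2 + a)).
(1) The bad a: let G be the set of the grid numbers floor(2^i (1 + j/L^V)), 0 <= i <= 2 L, 0 <= j <= L^V (at most 4 L^(V+2) numbers Y'). For every pair (b, k) with 1 <= k <= L^(A1), 0 <= b < k and every Y' in G apply S_SQP (exponent e, the same T, saving A2 := 3 A1 + V + A + 10 or larger) with the real weights u'(n) := u n cos(2 pi n b/k) for n <= m + Y', u'(n) := 0 for n > m + Y', and the same with sin: the weights do not depend on a. Outside a set of at most 8 L^(2 A1 + V + 2) X/L^(A2) <= X/L^(A+1) of the a we have, for all y with Wd theta e X m y, all (b, k) and all Y' in G with Y' <= y: |sum_(m < n <= m + Y') v n ee(n (b/k))| <= 2 y/L^(A2); b may be any integer (periodicity). (The cut-off is inside the weights: this gives ALL initial segments of the window, also those shorter than sqrt m.)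
(2) For such a and y with Wd theta e X m y apply S_BDH with N := y and the sequence v'(j) := v (m + j), 1 <= j <= y (|v' j| <= L^T 3L <= (log y)^(T+3): |n^2 + a| <= 2X, lz z v <= (Vz z)^(-1) <= L, Vz_inv_small in Pool/Agent/H373R2/T7/LamZ2.lean). Its hypothesis: ee((m+j) b/k) = ee(m b/k) ee(j b/k), the first factor has norm 1. For y' <= y, k <= (log y)^(A1) <= L^(A1): choose a grid number Y' <= y' with y' - Y' <= y'/L^V + 1 (for y' >= 1); the terms between contribute at most (y/L^V + 1) L^T 3L <= y/(2 L^(A1)); the sum up to Y' is at most 2 y/L^(A2) <= y/(2 L^(A1)); and y/L^(A1) <= y/(log y)^(A1).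
Its conclusion for Q (log y)^B <= y (follows from Q L^B <= y), with the classes shifted (n % q = s for n = m + j iff j % q = r with s = (r + m) % q, r -> (r + m) % q is a bijection of range q; choose y q r := w q ((r + m) % q)), is the assertion with y^2/(log y)^(A+1) <= y^2/L^A (log y >= L/(4e)).
-/
import Pool.Agent.helper24_UT.Stm25
import Pool.Agent.helper24_UT.Stm17
import Pool.Agent.helper24_UT.R36

set_option autoImplicit false

namespace Pool.Agent.helper24_UT.Sqc

open Finset Polynomial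
open Pool.Agent.helper24_UT
open Pool.Agent.H373R2.T7 (lamI lamzI lamz Vz pz energy)
open Pool.Agent.H807R2.Dav (ee norm_ee ee_add_int ee_eq ee_add)
open Pool.Agent.helper24_UT.R36 (lz_nonneg lz_le tw_le ee_cs ee_mod logs asym)

/-- the geometric grid -/
lemma grid (δ : ℝ) (hδ : 0 < δ) (hδ1 : δ ≤ 1) (L : ℝ) (y' : ℕ) (hy' : 1 ≤ y')
    (hL : Real.log y' ≤ L) :
    ∃ i : ℕ, (i : ℝ) ≤ 2 * L / δ ∧ ⌊(1 + δ) ^ i⌋₊ ≤ y' ∧
      (y' : ℝ) - (⌊(1 + δ) ^ i⌋₊ : ℝ) ≤ δ * y' + 1 := by
  have hyR : (1 : ℝ) ≤ y' := by exact_mod_cast hy'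
  obtain ⟨i, h1, h2⟩ := exists_nat_pow_near hyR (show (1 : ℝ) < 1 + δ by linarith)
  have hp : 0 < (1 + δ) ^ i := by positivity
  refine ⟨i, ?_, ?_, ?_⟩
  · have h3 := Real.log_le_log hp h1
    rw [Real.log_pow] at h3
    have h4 := Real.one_sub_inv_le_log_of_pos (show 0 < 1 + δ by linarith)
    have h5 : δ / 2 ≤ 1 - (1 + δ)⁻¹ := by
      rw [div_le_iff₀ (by norm_num)]
      have h6 : (1 - (1 + δ)⁻¹) * 2 = 2 * δ / (1 + δ) := by field_simp; ring
      rw [h6, le_div_iff₀ (by linarith)]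
      nlinarith
    have h7 : (i : ℝ) * (δ / 2) ≤ L := by
      calc (i : ℝ) * (δ / 2) ≤ i * Real.log (1 + δ) :=
            mul_le_mul_of_nonneg_left (h5.trans h4) (Nat.cast_nonneg _)
        _ ≤ L := h3.trans hL
    rw [le_div_iff₀ hδ]
    linarith
  · have := Nat.floor_le_floor h1
    rwa [Nat.floor_natCast] at this
  · have h3 := Nat.lt_floor_add_one ((1 + δ) ^ i)
    rw [pow_succ] at h2
    have h4 : δ * (1 + δ) ^ i ≤ δ * y' := mul_le_mul_of_nonneg_left h1 hδ.le
    nlinarith

lemma sum_ee (u v : ℕ → ℝ) (b k : ℕ) (s : Finset ℕ) :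
    ‖∑ n ∈ s, ((u n * v n : ℝ) : ℂ) * ee (n * ((b : ℝ) / k))‖ ≤
      |∑ n ∈ s, R36.tw u (b, k, true) n * v n| + |∑ n ∈ s, R36.tw u (b, k, false) n * v n| := by
  have h1 : ∑ n ∈ s, ((u n * v n : ℝ) : ℂ) * ee (n * ((b : ℝ) / k)) =
      ((∑ n ∈ s, R36.tw u (b, k, true) n * v n : ℝ) : ℂ) +
        ((∑ n ∈ s, R36.tw u (b, k, false) n * v n : ℝ) : ℂ) * Complex.I := by
    rw [Complex.ofReal_sum, Complex.ofReal_sum, sum_mul, ← sum_add_distrib]
    refine sum_congr rfl fun n _ => ?_
    rw [ee_cs]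
    unfold R36.tw
    simp only [if_true, Bool.false_eq_true, if_false]
    push_cast
    ring
  rw [h1]
  refine (norm_add_le _ _).trans ?_
  rw [norm_mul, Complex.norm_I, mul_one, Complex.norm_real, Complex.norm_real, Real.norm_eq_abs,
    Real.norm_eq_abs]

/-- weights with cut-off -/
noncomputable def cw (u : ℕ → ℝ) (m Y : ℕ) (c : ℕ × ℕ × Bool) (n : ℕ) : ℝ :=
  if n ≤ m + Y then R36.tw u c n else 0

lemma cw_le (u : ℕ → ℝ) (m Y : ℕ) (c : ℕ × ℕ × Bool) (n : ℕ) : |cw u m Y c n| ≤ |u n| := by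
  unfold cw
  split_ifs
  · exact tw_le u c n
  · rw [abs_zero]
    exact abs_nonneg _

lemma cw_sum (u v : ℕ → ℝ) (m Y y : ℕ) (c : ℕ × ℕ × Bool) (hY : Y ≤ y) :
    ∑ n ∈ Ioc m (m + y), cw u m Y c n * v n = ∑ n ∈ Ioc m (m + Y), R36.tw u c n * v n := by
  rw [← sum_Ioc_consecutive _ (Nat.le_add_right m Y) (Nat.add_le_add_left hY m)]
  have h2 : ∑ n ∈ Ioc (m + Y) (m + y), cw u m Y c n * v n = 0 := by
    refine sum_eq_zero fun n hn => ?_
    rw [mem_Ioc] at hn
    unfold cw
    rw [if_neg (by omega), zero_mul]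
  rw [h2, add_zero]
  refine sum_congr rfl fun n hn => ?_
  rw [mem_Ioc] at hn
  unfold cw
  rw [if_pos hn.2]

lemma shift {M : Type*} [AddCommMonoid M] (f : ℕ → M) (m y : ℕ) :
    ∑ j ∈ Icc 1 y, f (m + j) = ∑ n ∈ Ioc m (m + y), f n := by
  refine sum_nbij' (fun j => m + j) (fun n => n - m) ?_ ?_ ?_ ?_ ?_
  · intro j hj
    rw [mem_Icc] at hj
    rw [mem_Ioc]
    omega
  · intro n hn
    rw [mem_Ioc] at hn
    rw [mem_Icc]
    omega
  · intro j _
    omega
  · intro n hn
    rw [mem_Ioc] at hn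
    omega
  · intro j _
    rfl

lemma shift_filter {M : Type*} [AddCommMonoid M] (f : ℕ → M) (m y q r : ℕ) (hr : r < q) :
    ∑ j ∈ (Icc 1 y).filter (fun j => j % q = r), f (m + j) =
      ∑ n ∈ (Ioc m (m + y)).filter (fun n => n % q = (r + m) % q), f n := by
  rw [sum_filter, sum_filter, ← shift (fun n => if n % q = (r + m) % q then f n else 0)]
  refine sum_congr rfl fun j _ => ?_
  have h : (j % q = r) ↔ ((m + j) % q = (r + m) % q) := by
    constructor
    · intro h
      rw [← h, Nat.add_comm m j, Nat.add_mod, Nat.add_mod (j % q) m, Nat.mod_mod]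
    · intro h
      have h1 : (m + j) ≡ (m + r) [MOD q] := by
        unfold Nat.ModEq
        rw [h, Nat.add_comm r m]
      have h2 : j ≡ r [MOD q] := Nat.ModEq.add_left_cancel' m h1
      have h3 : j % q = r % q := h2
      rw [h3, Nat.mod_eq_of_lt hr]
  by_cases hj : j % q = r
  · rw [if_pos hj, if_pos (h.1 hj)]
  · rw [if_neg hj, if_neg (fun h' => hj (h.2 h'))]

lemma range_shift {M : Type*} [AddCommMonoid M] (g : ℕ → M) (m q : ℕ) :
    ∑ s ∈ range q, g s = ∑ r ∈ range q, g ((r + m) % q) := by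
  rcases Nat.eq_zero_or_pos q with hq | hq
  · subst hq
    simp
  symm
  have hmq : m % q < q := Nat.mod_lt _ hq
  refine sum_nbij' (fun r => (r + m) % q) (fun s => (s + (q - m % q)) % q) ?_ ?_ ?_ ?_ ?_
  · intro r _
    rw [mem_range]
    exact Nat.mod_lt _ hq
  · intro s _
    rw [mem_range]
    exact Nat.mod_lt _ hq
  · intro r hr
    rw [mem_range] at hr
    have h1 : ((r + m) % q + (q - m % q)) ≡ r [MOD q] := by
      have h2 : (r + m) % q ≡ r + m % q [MOD q] := by
        refine (Nat.mod_modEq _ _).trans ?_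
        exact Nat.ModEq.add_left r (Nat.mod_modEq m q).symm
      have h3 := h2.add_right (q - m % q)
      refine h3.trans ?_
      have h4 : r + m % q + (q - m % q) = r + q := by omega
      rw [h4]
      unfold Nat.ModEq
      rw [Nat.add_mod_right]
    have h5 : ((r + m) % q + (q - m % q)) % q = r % q := h1
    show ((r + m) % q + (q - m % q)) % q = r
    rw [h5, Nat.mod_eq_of_lt hr]
  · intro s hs
    rw [mem_range] at hs
    have h1 : ((s + (q - m % q)) % q + m) ≡ s [MOD q] := by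
      have h2 : (s + (q - m % q)) % q + m ≡ s + (q - m % q) + m % q [MOD q] :=
        (Nat.mod_modEq _ _).add (Nat.mod_modEq m q).symm
      refine h2.trans ?_
      have h4 : s + (q - m % q) + m % q = s + q := by omega
      rw [h4]
      unfold Nat.ModEq
      rw [Nat.add_mod_right]
    have h5 : ((s + (q - m % q)) % q + m) % q = s % q := h1
    show ((s + (q - m % q)) % q + m) % q = s
    rw [h5, Nat.mod_eq_of_lt hs]
  · intro r _
    rfl

lemma lq_nonneg (a : ℤ) (n : ℕ) : 0 ≤ lq a n := by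
  unfold lq
  split_ifs
  · exact Real.log_natCast_nonneg _
  · exact le_rfl

lemma wd_le (a : ℤ) (n z X : ℕ) (hX : 2 ≤ X) (hn : n ^ 2 ≤ X) (ha : |a| ≤ X)
    (hL : 2 ≤ Real.log (X : ℝ)) (hV : (Vz z)⁻¹ ≤ Real.log X) :
    |lq a n - lz z ((n : ℤ) ^ 2 + a)| ≤ (Real.log X) ^ 2 := by
  have h0 := lq_nonneg a n
  have h0' := lz_nonneg z ((n : ℤ) ^ 2 + a)
  have h1 := (lz_le z ((n : ℤ) ^ 2 + a)).trans hV
  have h2 : lq a n ≤ 2 * Real.log X := by
    unfold lq
    split_ifs with hp
    · have h3 : (0 : ℝ) < (((n : ℤ) ^ 2 + a).natAbs : ℝ) := by exact_mod_cast hp.pos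
      have h4 : ((n : ℤ) ^ 2 + a).natAbs ≤ X ^ 2 := by
        have h5 : |(n : ℤ) ^ 2 + a| ≤ (X : ℤ) ^ 2 := by
          have h6 : ((n : ℤ)) ^ 2 ≤ X := by exact_mod_cast hn
          have h7 := abs_le.1 ha
          have h8 : (2 : ℤ) ≤ X := by exact_mod_cast hX
          rw [abs_le]
          constructor <;> nlinarith [sq_nonneg (n : ℤ)]
        have h9 : ((((n : ℤ) ^ 2 + a).natAbs : ℕ) : ℤ) ≤ (X : ℤ) ^ 2 := by
          rw [Int.natCast_natAbs]
          exact h5
        exact_mod_cast h9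
      have h5 : ((((n : ℤ) ^ 2 + a).natAbs : ℕ) : ℝ) ≤ (X : ℝ) ^ 2 := by exact_mod_cast h4
      have h6 := Real.log_le_log h3 h5
      rw [Real.log_pow] at h6
      push_cast at h6
      exact h6
    · linarith
  rw [abs_le]
  constructor <;> nlinarith

open Classical in
theorem main : ∀ θ : ℝ, 0 ≤ θ → S_SQP θ → S_BDH → S_SQC θ := by
  intro θ hθ hP hBDH e A T he
  obtain ⟨A1, B, N₁, hB⟩ := hBDH (A + 1) (T + 3)
  set V := A1 + T + 5 with hVdef
  set A2 := 3 * A1 + V + A + 10 with hA2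
  obtain ⟨E₀, h1⟩ := hP e A2 T he
  refine ⟨E₀, B, fun E₁ => ?_⟩
  obtain ⟨X₂, h2⟩ := h1 E₁
  obtain ⟨X₃, hV⟩ := Pool.Agent.H373R2.T7.Vz_inv_small E₁
  obtain ⟨X₄, h4⟩ := asym (A1 + T + 4) (1 / (4 * e : ℕ)) (by positivity)
  set c : ℝ := 4 * e with hc
  obtain ⟨X₅, h5⟩ := logs (2 + c * (c ^ (T + 2) + c ^ A + Real.log (N₁ + 1) + 1))
  refine ⟨X₂ + X₃ + X₄ + X₅ + 3, fun X hX z hz1 hz2 m u hu => ?_⟩
  have hX1 : 1 ≤ X := by omega
  have hX0 : (0 : ℝ) < X := by exact_mod_cast hX1
  have he0 : (1 : ℝ) ≤ e := by exact_mod_cast he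
  have hc1 : 1 ≤ c := by linarith
  have hLb := h5 X (by omega)
  have hP' := fun (Y : ℕ) (cc : ℕ × ℕ × Bool) => h2 X (by omega) z hz1 hz2 m (cw u m Y cc)
    (fun n => (cw_le u m Y cc n).trans (hu n))
  have hasym := h4 X (by omega)
  have hlogN1 : 0 ≤ Real.log ((N₁ : ℝ) + 1) := Real.log_nonneg (by
    have : (0 : ℝ) ≤ N₁ := Nat.cast_nonneg _
    linarith)
  set L := Real.log (X : ℝ) with hL
  have hcT : 0 ≤ c * c ^ (T + 2) := by positivity
  have hcA : 0 ≤ c * c ^ A := by positivity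
  have hcN : 0 ≤ c * Real.log ((N₁ : ℝ) + 1) := by positivity
  have hLc : c + 2 ≤ L := by nlinarith
  have hL2 : 2 ≤ L := by linarith
  have hL1 : 1 ≤ L := by linarith
  have hL0 : 0 < L := by linarith
  have hVz : (Vz z)⁻¹ ≤ L := by
    refine hV X (by omega) z ?_ hz2
    have : (1 : ℝ) ≤ z := (one_le_pow₀ hL1).trans hz1
    exact_mod_cast this
  set S := Icc (-(X : ℤ)) X with hS
  set δ : ℝ := 1 / L ^ V with hδdef
  have hδ0 : 0 < δ := by positivity
  have hδ1 : δ ≤ 1 := by
    rw [hδdef, div_le_one (by positivity)]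
    exact one_le_pow₀ hL1
  set gp : ℕ → ℕ := fun i => ⌊(1 + δ) ^ i⌋₊ with hgp
  set Bad : ℕ × ℕ × ℕ × Bool → Finset ℤ := fun cc => S.filter (fun a => ∃ y : ℕ, Wd θ e X m y ∧
    (y : ℝ) / L ^ A2 < |∑ n ∈ Ioc m (m + y), cw u m (gp cc.1) cc.2 n *
      (lq a n - lz z ((n : ℤ) ^ 2 + a))|) with hBad
  have hBadc : ∀ cc, ((Bad cc).card : ℝ) ≤ X / L ^ A2 := by
    intro cc
    refine le_trans (le_of_eq ?_) (hP' (gp cc.1) cc.2)
    rw [hBad]
  set M := ⌊L ^ A1⌋₊ with hM
  set G := ⌊2 * L / δ⌋₊ with hG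
  set I := range (G + 1) ×ˢ (range (M + 1) ×ˢ (range (M + 1) ×ˢ (univ : Finset Bool))) with hI
  have hIc : (I.card : ℝ) ≤ L ^ (2 * A1 + V + 6) := by
    rw [hI, card_product, card_product, card_product, card_range, card_range, card_univ,
      Fintype.card_bool]
    push_cast
    have hM1 : (M : ℝ) ≤ L ^ A1 := Nat.floor_le (by positivity)
    have hM2 : (1 : ℝ) ≤ L ^ A1 := one_le_pow₀ hL1
    have hM3 : (M : ℝ) + 1 ≤ 2 * L ^ A1 := by linarith
    have hM0 : (0 : ℝ) ≤ M := Nat.cast_nonneg _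
    have hG1 : (G : ℝ) ≤ 2 * L / δ := Nat.floor_le (by positivity)
    have hG0 : (0 : ℝ) ≤ G := Nat.cast_nonneg _
    have hG2 : 2 * L / δ = 2 * L ^ (V + 1) := by
      rw [hδdef, pow_succ, div_div_eq_mul_div, div_one]
      ring
    have hG3 : (1 : ℝ) ≤ L ^ (V + 1) := one_le_pow₀ hL1
    have hG4 : (G : ℝ) + 1 ≤ 3 * L ^ (V + 1) := by linarith
    have h24 : (24 : ℝ) ≤ L ^ 5 := by
      calc (24 : ℝ) ≤ 2 ^ 5 := by norm_num
        _ ≤ L ^ 5 := pow_le_pow_left₀ (by norm_num) hL2 5
    calc ((G : ℝ) + 1) * (((M : ℝ) + 1) * (((M : ℝ) + 1) * 2)) ≤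
        (3 * L ^ (V + 1)) * ((2 * L ^ A1) * ((2 * L ^ A1) * 2)) := by gcongr
      _ = 24 * L ^ (2 * A1 + V + 1) := by
          rw [show 2 * A1 + V + 1 = (V + 1) + A1 + A1 by ring, pow_add, pow_add]
          ring
      _ ≤ L ^ 5 * L ^ (2 * A1 + V + 1) := by gcongr
      _ = L ^ (2 * A1 + V + 6) := by rw [← pow_add]; congr 1; ring
  have hsub : S.filter (fun a => ∃ y : ℕ, Wd θ e X m y ∧
    ¬ ∀ Q : ℕ, (Q : ℝ) * L ^ B ≤ y → ∀ w : ℕ → ℕ → ℕ, (∀ q s, w q s ≤ y) →
      ∑ q ∈ Icc 1 Q, ∑ s ∈ range q, (∑ n ∈ (Ioc m (m + w q s)).filter (fun n => n % q = s),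
        u n * (lq a n - lz z ((n : ℤ) ^ 2 + a))) ^ 2 ≤
        (y : ℝ) ^ 2 / L ^ A) ⊆ I.biUnion Bad := by
    intro a ha
    rw [mem_filter] at ha
    obtain ⟨haS, y, hy, hnot⟩ := ha
    by_contra hcon
    apply hnot
    have hgood : ∀ cc ∈ I, gp cc.1 ≤ y →
        |∑ n ∈ Ioc m (m + gp cc.1), R36.tw u cc.2 n * (lq a n - lz z ((n : ℤ) ^ 2 + a))| ≤
          (y : ℝ) / L ^ A2 := by
      intro cc hcc hgy
      by_contra hlt
      rw [not_le] at hlt
      apply hcon
      rw [mem_biUnion]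
      refine ⟨cc, hcc, ?_⟩
      rw [hBad]
      simp only [mem_filter]
      refine ⟨haS, y, hy, ?_⟩
      rw [cw_sum u (fun n => lq a n - lz z ((n : ℤ) ^ 2 + a)) m (gp cc.1) y cc.2 hgy]
      exact hlt
    -- sizes
    obtain ⟨hy1, hy2, hy3⟩ := hy
    have hyX : y ≤ X := by
      calc y ≤ y ^ 2 := Nat.le_self_pow (by norm_num) y
        _ ≤ (m + y) ^ 2 := Nat.pow_le_pow_left (by omega) 2
        _ ≤ X := hy3
    have hy0 : 1 ≤ y := by
      by_contra h0
      have h0' : y = 0 := by omega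
      rw [h0', Nat.cast_zero, zero_mul] at hy2
      have h7 : 0 < (X : ℝ) ^ (θ + 1 / e : ℝ) := Real.rpow_pos_of_pos hX0 _
      linarith
    have hyR : (0 : ℝ) < y := by exact_mod_cast hy0
    have hyR1 : (1 : ℝ) ≤ y := by exact_mod_cast hy0
    set l := Real.log (y : ℝ) with hl
    have hlL : l ≤ L := Real.log_le_log hyR (by exact_mod_cast hyX)
    have hLl : L ≤ c * l := by
      have h6 : (y : ℝ) * (m + y) ≤ 2 * (y : ℝ) ^ 3 := by
        have h7 : (m : ℝ) ≤ (y : ℝ) ^ 2 := by exact_mod_cast hy1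
        nlinarith [mul_le_mul_of_nonneg_left h7 hyR.le, mul_nonneg hyR.le hyR.le,
          mul_nonneg (mul_nonneg hyR.le hyR.le) (sub_nonneg.2 hyR1)]
      have h7 := Real.log_le_log (Real.rpow_pos_of_pos hX0 _) (hy2.trans h6)
      rw [Real.log_rpow hX0, Real.log_mul (by norm_num) (by positivity), Real.log_pow, ← hL,
        ← hl] at h7
      push_cast at h7
      have h8 : 1 / (e : ℝ) * L ≤ (θ + 1 / e) * L := by
        apply mul_le_mul_of_nonneg_right _ hL0.le
        linarith
      have h9 := mul_le_mul_of_nonneg_left (h8.trans h7) (by linarith : (0 : ℝ) ≤ e)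
      have h10 : (e : ℝ) * (1 / e * L) = L := by field_simp
      rw [h10] at h9
      have h11 : Real.log 2 ≤ 1 := by
        have := Real.log_two_lt_d9
        linarith
      have h12 : (e : ℝ) * Real.log 2 ≤ e := by nlinarith
      rw [hc] at hLc ⊢
      nlinarith
    have hlb : c ^ (T + 2) + c ^ A + Real.log ((N₁ : ℝ) + 1) + 1 ≤ l := by
      have h6 : c * (c ^ (T + 2) + c ^ A + Real.log (N₁ + 1) + 1) ≤ c * l := by linarith
      exact le_of_mul_le_mul_left h6 (by linarith)
    have hcT' : 0 ≤ c ^ (T + 2) := by positivity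
    have hcA' : 0 ≤ c ^ A := by positivity
    have hl1 : 1 ≤ l := by linarith
    have hl0 : 0 < l := by linarith
    have hyN1 : N₁ ≤ y := by
      have h6 : Real.log ((N₁ : ℝ) + 1) ≤ Real.log y := by rw [← hl]; linarith
      have h7 := (Real.log_le_log_iff (by positivity) hyR).1 h6
      have h8 : (N₁ : ℝ) ≤ y := by linarith
      exact_mod_cast h8
    have hyL : L ^ (A1 + T + 4) ≤ y := by
      refine hasym.trans ?_
      have h6 : (X : ℝ) ^ (1 / (4 * e : ℕ) : ℝ) = Real.exp (L / c) := by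
        rw [Real.rpow_def_of_pos hX0, ← hL, hc]
        push_cast
        congr 1
        ring
      rw [h6, ← Real.exp_log hyR, ← hl]
      apply Real.exp_le_exp.2
      rw [div_le_iff₀ (by linarith)]
      linarith
    have haX : |a| ≤ (X : ℤ) := by
      rw [hS, mem_Icc] at haS
      exact abs_le.2 haS
    have hvb : ∀ n ∈ Ioc m (m + y), |u n * (lq a n - lz z ((n : ℤ) ^ 2 + a))| ≤ L ^ (T + 2) := by
      intro n hn
      rw [mem_Ioc] at hn
      have hnX : n ^ 2 ≤ X := (Nat.pow_le_pow_left hn.2 2).trans hy3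
      have h7 := wd_le a n z X (by omega) hnX haX hL2 hVz
      rw [abs_mul, pow_add]
      exact mul_le_mul (hu n) h7 (abs_nonneg _) (by positivity)
    have hvb' : L ^ (T + 2) ≤ l ^ (T + 3) := by
      calc L ^ (T + 2) ≤ (c * l) ^ (T + 2) := pow_le_pow_left₀ hL0.le hLl _
        _ = c ^ (T + 2) * l ^ (T + 2) := mul_pow _ _ _
        _ ≤ l * l ^ (T + 2) := by
          apply mul_le_mul_of_nonneg_right _ (by positivity)
          linarith
        _ = l ^ (T + 3) := by ring
    intro Q hQ w hw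
    have hmain := hB y hyN1 Q (by
        refine le_trans ?_ hQ
        exact mul_le_mul_of_nonneg_left (pow_le_pow_left₀ hl0.le hlL B) (Nat.cast_nonneg _))
      (fun j => ((u (m + j) * (lq a (m + j) - lz z (((m + j : ℕ) : ℤ) ^ 2 + a)) : ℝ) : ℂ)) (by
        intro j hj
        rw [mem_Icc] at hj
        rw [Complex.norm_real, Real.norm_eq_abs]
        exact (hvb (m + j) (mem_Ioc.2 (by omega))).trans hvb') (by
        intro y' k hy'y hk hkA b
        have hkL : (k : ℝ) ≤ L ^ A1 := hkA.trans (pow_le_pow_left₀ hl0.le hlL _)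
        have hkM : k ≤ M := Nat.le_floor hkL
        have hgoal : (y : ℝ) / L ^ A1 ≤ y / l ^ A1 := by
          apply div_le_div_of_nonneg_left hyR.le (by positivity)
          exact pow_le_pow_left₀ hl0.le hlL _
        refine le_trans ?_ hgoal
        rcases Nat.eq_zero_or_pos y' with h0 | hpos
        · rw [h0]
          simp only [sum_empty, norm_zero, show (Icc 1 0 : Finset ℕ) = ∅ from rfl]
          positivity
        -- the phase
        have hphase : ‖∑ j ∈ Icc 1 y', ((u (m + j) * (lq a (m + j) -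
            lz z (((m + j : ℕ) : ℤ) ^ 2 + a)) : ℝ) : ℂ) * ee (j * ((b : ℝ) / k))‖ =
            ‖∑ n ∈ Ioc m (m + y'), ((u n * (lq a n - lz z ((n : ℤ) ^ 2 + a)) : ℝ) : ℂ) *
              ee (n * ((b : ℝ) / k))‖ := by
          rw [← shift (fun n => ((u n * (lq a n - lz z ((n : ℤ) ^ 2 + a)) : ℝ) : ℂ) *
              ee (n * ((b : ℝ) / k)))]
          have h6 : ∑ j ∈ Icc 1 y', ((u (m + j) * (lq a (m + j) -
              lz z (((m + j : ℕ) : ℤ) ^ 2 + a)) : ℝ) : ℂ) * ee (((m + j : ℕ) : ℝ) * ((b : ℝ) / k)) =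
              ee (m * ((b : ℝ) / k)) * ∑ j ∈ Icc 1 y', ((u (m + j) * (lq a (m + j) -
              lz z (((m + j : ℕ) : ℤ) ^ 2 + a)) : ℝ) : ℂ) * ee (j * ((b : ℝ) / k)) := by
            rw [mul_sum]
            refine sum_congr rfl fun j _ => ?_
            have h7 : ((m + j : ℕ) : ℝ) * ((b : ℝ) / k) = m * ((b : ℝ) / k) + j * ((b : ℝ) / k) := by
              push_cast
              ring
            rw [h7, ee_add]
            ring
          rw [h6, norm_mul, norm_ee, one_mul]
        rw [hphase]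
        -- the grid point
        obtain ⟨i, hi1, hi2, hi3⟩ := grid δ hδ0 hδ1 L y' hpos (by
          refine le_trans (Real.log_le_log (by exact_mod_cast hpos) ?_) hlL
          exact_mod_cast hy'y)
        have hiG : i ≤ G := Nat.le_floor hi1
        have hgy' : gp i ≤ y' := hi2
        rw [← sum_Ioc_consecutive _ (Nat.le_add_right m (gp i)) (Nat.add_le_add_left hgy' m)]
        have hmod : ∑ n ∈ Ioc m (m + gp i), ((u n * (lq a n - lz z ((n : ℤ) ^ 2 + a)) : ℝ) : ℂ) *
            ee (n * ((b : ℝ) / k)) =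
            ∑ n ∈ Ioc m (m + gp i), ((u n * (lq a n - lz z ((n : ℤ) ^ 2 + a)) : ℝ) : ℂ) *
              ee (n * (((b % (k : ℤ)).toNat : ℝ) / k)) :=
          sum_congr rfl fun n _ => by rw [ee_mod n k b hk]
        have hbm : (b % (k : ℤ)).toNat < M + 1 := by
          have h6 : b % (k : ℤ) < k := Int.emod_lt_of_pos b (by omega)
          have h7 : 0 ≤ b % (k : ℤ) := Int.emod_nonneg b (by omega)
          omega
        have hmem : ∀ t : Bool, (i, (b % (k : ℤ)).toNat, k, t) ∈ I := by
          intro t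
          rw [hI, mem_product, mem_product, mem_product]
          exact ⟨mem_range.2 (Nat.lt_succ_of_le hiG), mem_range.2 hbm,
            mem_range.2 (Nat.lt_succ_of_le hkM), mem_univ _⟩
        have g1 := hgood _ (hmem true) (hgy'.trans hy'y)
        have g2 := hgood _ (hmem false) (hgy'.trans hy'y)
        have hfirst : ‖∑ n ∈ Ioc m (m + gp i), ((u n * (lq a n - lz z ((n : ℤ) ^ 2 + a)) : ℝ) : ℂ) *
            ee (n * ((b : ℝ) / k))‖ ≤ (y : ℝ) / L ^ A2 + y / L ^ A2 := by
          rw [hmod]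
          exact (sum_ee u (fun n => lq a n - lz z ((n : ℤ) ^ 2 + a)) (b % (k : ℤ)).toNat k
            (Ioc m (m + gp i))).trans (add_le_add g1 g2)
        have hsecond : ‖∑ n ∈ Ioc (m + gp i) (m + y'),
            ((u n * (lq a n - lz z ((n : ℤ) ^ 2 + a)) : ℝ) : ℂ) * ee (n * ((b : ℝ) / k))‖ ≤
            (δ * y + 1) * L ^ (T + 2) := by
          refine (norm_sum_le _ _).trans ?_
          calc ∑ n ∈ Ioc (m + gp i) (m + y'),
              ‖((u n * (lq a n - lz z ((n : ℤ) ^ 2 + a)) : ℝ) : ℂ) * ee (n * ((b : ℝ) / k))‖ ≤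
              ∑ _n ∈ Ioc (m + gp i) (m + y'), L ^ (T + 2) := by
                refine sum_le_sum fun n hn => ?_
                rw [norm_mul, norm_ee, mul_one, Complex.norm_real, Real.norm_eq_abs]
                apply hvb n
                rw [mem_Ioc] at hn ⊢
                omega
            _ = ((y' : ℝ) - gp i) * L ^ (T + 2) := by
                rw [sum_const, Nat.card_Ioc, nsmul_eq_mul]
                congr 1
                rw [show m + y' - (m + gp i) = y' - gp i by omega, Nat.cast_sub hgy']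
            _ ≤ (δ * y + 1) * L ^ (T + 2) := by
                apply mul_le_mul_of_nonneg_right _ (by positivity)
                refine hi3.trans ?_
                have h6 : (y' : ℝ) ≤ y := by exact_mod_cast hy'y
                have h7 := mul_le_mul_of_nonneg_left h6 hδ0.le
                linarith
        refine (norm_add_le _ _).trans ((add_le_add hfirst hsecond).trans ?_)
        have hP1 : 0 < L ^ A1 := by positivity
        have e1 : (y : ℝ) / L ^ A2 ≤ (1 / 8) * (y / L ^ A1) := by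
          have h8 : (8 : ℝ) ≤ L ^ 3 := by
            calc (8 : ℝ) = 2 ^ 3 := by norm_num
              _ ≤ L ^ 3 := pow_le_pow_left₀ (by norm_num) hL2 3
          have h9 : 8 * L ^ A1 ≤ L ^ A2 := by
            calc 8 * L ^ A1 ≤ L ^ 3 * L ^ A1 := by gcongr
              _ = L ^ (A1 + 3) := by rw [pow_add]; ring
              _ ≤ L ^ A2 := pow_le_pow_right₀ hL1 (by omega)
          rw [div_le_iff₀ (by positivity)]
          calc (y : ℝ) = 1 / 8 * (y / L ^ A1) * (8 * L ^ A1) := by field_simp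
            _ ≤ 1 / 8 * (y / L ^ A1) * L ^ A2 := by gcongr
        have e2 : δ * y * L ^ (T + 2) ≤ (1 / 8) * (y / L ^ A1) := by
          have h8 : (8 : ℝ) ≤ L ^ 3 := by
            calc (8 : ℝ) = 2 ^ 3 := by norm_num
              _ ≤ L ^ 3 := pow_le_pow_left₀ (by norm_num) hL2 3
          have h9 : L ^ V = L ^ A1 * L ^ 3 * L ^ (T + 2) := by
            rw [hVdef, ← pow_add, ← pow_add]
            congr 1
            ring
          rw [hδdef, h9]
          calc 1 / (L ^ A1 * L ^ 3 * L ^ (T + 2)) * y * L ^ (T + 2) = y / L ^ A1 * (1 / L ^ 3) := by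
                field_simp
            _ ≤ y / L ^ A1 * (1 / 8) := by gcongr
            _ = _ := by ring
        have e3 : L ^ (T + 2) ≤ (1 / 4) * (y / L ^ A1) := by
          have h8 : (4 : ℝ) ≤ L ^ 2 := by
            calc (4 : ℝ) = 2 ^ 2 := by norm_num
              _ ≤ L ^ 2 := pow_le_pow_left₀ (by norm_num) hL2 2
          have h9 : 4 * L ^ (T + 2) * L ^ A1 ≤ y := by
            calc 4 * L ^ (T + 2) * L ^ A1 ≤ L ^ 2 * L ^ (T + 2) * L ^ A1 := by gcongr
              _ = L ^ (A1 + T + 4) := by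
                rw [← pow_add, ← pow_add]
                congr 1
                ring
              _ ≤ y := hyL
          rw [← le_div_iff₀ hP1] at h9
          linarith
        have e4 : 0 ≤ y / L ^ A1 := by positivity
        calc (y : ℝ) / L ^ A2 + y / L ^ A2 + (δ * y + 1) * L ^ (T + 2) =
            y / L ^ A2 + y / L ^ A2 + δ * y * L ^ (T + 2) + L ^ (T + 2) := by ring
          _ ≤ y / L ^ A1 := by linarith) (fun q r => w q ((r + m) % q)) (fun q r => hw _ _)
    have hAl : L ^ A ≤ l ^ (A + 1) := by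
      calc L ^ A ≤ (c * l) ^ A := pow_le_pow_left₀ hL0.le hLl _
        _ = c ^ A * l ^ A := mul_pow _ _ _
        _ ≤ l * l ^ A := by
          apply mul_le_mul_of_nonneg_right _ (by positivity)
          linarith
        _ = l ^ (A + 1) := by ring
    calc ∑ q ∈ Icc 1 Q, ∑ s ∈ range q, (∑ n ∈ (Ioc m (m + w q s)).filter (fun n => n % q = s),
        u n * (lq a n - lz z ((n : ℤ) ^ 2 + a))) ^ 2 =
        ∑ q ∈ Icc 1 Q, ∑ r ∈ range q,
          ‖∑ j ∈ (Icc 1 (w q ((r + m) % q))).filter (fun j => j % q = r),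
          ((u (m + j) * (lq a (m + j) - lz z (((m + j : ℕ) : ℤ) ^ 2 + a)) : ℝ) : ℂ)‖ ^ 2 := by
          refine sum_congr rfl fun q _ => ?_
          rw [range_shift _ m q]
          refine sum_congr rfl fun r hr => ?_
          rw [← Complex.ofReal_sum, Complex.norm_real, Real.norm_eq_abs, sq_abs,
            shift_filter (fun n => u n * (lq a n - lz z ((n : ℤ) ^ 2 + a))) m
              (w q ((r + m) % q)) q r (mem_range.1 hr)]
      _ ≤ (y : ℝ) ^ 2 / l ^ (A + 1) := hmain
      _ ≤ (y : ℝ) ^ 2 / L ^ A := by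
        apply div_le_div_of_nonneg_left (by positivity) (by positivity) hAl
  have hcard : ((I.biUnion Bad).card : ℝ) ≤ X / L ^ A := by
    have h6 : ((I.biUnion Bad).card : ℝ) ≤ ∑ cc ∈ I, ((Bad cc).card : ℝ) := by
      exact_mod_cast card_biUnion_le
    refine h6.trans ((sum_le_sum fun cc _ => hBadc cc).trans ?_)
    rw [sum_const, nsmul_eq_mul]
    calc (I.card : ℝ) * (X / L ^ A2) ≤ L ^ (2 * A1 + V + 6) * (X / L ^ A2) := by
          gcongr
      _ = X / L ^ (A1 + A + 4) := by
        rw [hA2, show 3 * A1 + V + A + 10 = (2 * A1 + V + 6) + (A1 + A + 4) by ring,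
          pow_add L (2 * A1 + V + 6)]
        field_simp
      _ ≤ X / L ^ A := by
        apply div_le_div_of_nonneg_left (by positivity) (by positivity)
        exact pow_le_pow_right₀ hL1 (by omega)
  have hfin : ((S.filter (fun a => ∃ y : ℕ, Wd θ e X m y ∧
    ¬ ∀ Q : ℕ, (Q : ℝ) * L ^ B ≤ y → ∀ w : ℕ → ℕ → ℕ, (∀ q s, w q s ≤ y) →
      ∑ q ∈ Icc 1 Q, ∑ s ∈ range q, (∑ n ∈ (Ioc m (m + w q s)).filter (fun n => n % q = s),
        u n * (lq a n - lz z ((n : ℤ) ^ 2 + a))) ^ 2 ≤
        (y : ℝ) ^ 2 / L ^ A)).card : ℝ) ≤ ((I.biUnion Bad).card : ℝ) := by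
    exact_mod_cast card_le_card hsub
  exact hfin.trans hcard

end Pool.Agent.helper24_UT.Sqc
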