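/-
UT_SQP   (project UT of helper24: primes at almost all systems of polynomials; very_famous ids, partial results)
-/
import Pool.Agent.helper24_UT.Stm25
import Pool.Agent.helper24_UT.Stm17
import Pool.Agent.helper24_UT.Thw

set_option autoImplicit false

namespace Pool.Agent.helper24_UT.Sqp

open Finset Polynomial
open Pool.Agent.helper24_UT
open Pool.Agent.helper24_UT.Thw (thp ppw ppw_nn markov WW WW_nn win_le WW_sum ed_id ev_all)

lemma lq_eq (a : ℤ) (n : ℕ) : lq a n = thp ((n : ℤ) ^ 2 + a).natAbs := rfl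

theorem main : ∀ θ : ℝ, 0 ≤ θ → S_SQU θ → S_SQP θ := by
  classical
  intro θ _ hS e A T he
  obtain ⟨E₀, hE₀⟩ := hS e (A + 3) T he
  refine ⟨max E₀ 1, fun E₁ => ?_⟩
  obtain ⟨X₁, hX₁⟩ := hE₀ E₁
  obtain ⟨X₃, hX₃⟩ := ev_all (A + T) e he
  refine ⟨max X₁ X₃, fun X hX z hz1 hz2 m u hu => ?_⟩
  have hXa : X₁ ≤ X := le_trans (le_max_left _ _) hX
  have hXc : X₃ ≤ X := le_trans (le_max_right _ _) hX
  obtain ⟨hX3, hL, hpp, _⟩ := hX₃ X hXc
  set L := Real.log X with hLdef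
  have hL0 : 0 < L := by linarith
  have hLp : ∀ k : ℕ, 0 < L ^ k := fun k => pow_pos hL0 k
  have hzE : L ^ E₀ ≤ z := le_trans (pow_le_pow_right₀ (by linarith) (le_max_left _ _)) hz1
  have hz2' : (2 : ℝ) ≤ z := by
    refine le_trans hL (le_trans ?_ hz1)
    calc L = L ^ 1 := (pow_one _).symm
      _ ≤ _ := pow_le_pow_right₀ (by linarith) (le_max_right _ _)
  have hz : 2 ≤ z := by exact_mod_cast hz2'
  have b1 := hX₁ X hXa z hzE hz2 m u hu
  have b2 := markov (Icc (-(X : ℤ)) X) (WW m (Nat.sqrt X)) (WW_nn m _) _ (1 / L ^ (A + T + 3)) (by positivity)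
    (WW_sum m X (by omega))
  have b3 : (((Icc (-(X : ℤ)) X).filter (fun a => 1 / L ^ (A + T + 3) < WW m (Nat.sqrt X) a)).card : ℝ) ≤
      X / L ^ (A + 3) := by
    have h0 : (X : ℝ) / L ^ (A + T + 3) ≤ X / L ^ (A + 3) :=
      div_le_div_of_nonneg_left (Nat.cast_nonneg _) (hLp _) (pow_le_pow_right₀ (by linarith) (by omega))
    refine b2.trans (le_trans (le_trans (le_of_eq ?_) hpp) h0)
    rw [div_div_eq_mul_div, div_one]
  have hsub : (Icc (-(X : ℤ)) X).filter (fun a => ∃ y : ℕ, Wd θ e X m y ∧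
      (y : ℝ) / L ^ A < |∑ n ∈ Ioc m (m + y), u n * (lq a n - lz z ((n : ℤ) ^ 2 + a))|) ⊆
      ((Icc (-(X : ℤ)) X).filter (fun a => ∃ y : ℕ, Wd θ e X m y ∧
        (y : ℝ) / L ^ (A + 3) <
          |∑ n ∈ Ioc m (m + y), u n * (Ed z ((n : ℤ) ^ 2 + a) + Ed z (-((n : ℤ) ^ 2 + a)))|)) ∪
      ((Icc (-(X : ℤ)) X).filter (fun a => 1 / L ^ (A + T + 3) < WW m (Nat.sqrt X) a)) := by
    intro a ha
    rw [mem_filter] at ha
    rw [mem_union, mem_filter, mem_filter]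
    by_contra hcon
    rw [not_or, not_and, not_and] at hcon
    have c1 := hcon.1 ha.1
    have c2 := not_lt.1 (hcon.2 ha.1)
    obtain ⟨y, hW, hy⟩ := ha.2
    have c3 := not_lt.1 (fun h => c1 ⟨y, hW, h⟩)
    have c4 : ∑ n ∈ Ioc m (m + y), ppw ((n : ℤ) ^ 2 + a).natAbs ≤ y / L ^ (A + T + 3) := by
      refine (win_le m y (Nat.sqrt X) (Nat.le_sqrt'.2 hW.2.2) a).trans ?_
      rw [div_eq_mul_one_div]
      exact mul_le_mul_of_nonneg_left c2 (Nat.cast_nonneg _)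
    have c5 : |∑ n ∈ Ioc m (m + y), u n * ppw ((n : ℤ) ^ 2 + a).natAbs| ≤ y / L ^ (A + 3) := by
      calc |∑ n ∈ Ioc m (m + y), u n * ppw ((n : ℤ) ^ 2 + a).natAbs|
          ≤ ∑ n ∈ Ioc m (m + y), |u n * ppw ((n : ℤ) ^ 2 + a).natAbs| := abs_sum_le_sum_abs _ _
        _ ≤ ∑ n ∈ Ioc m (m + y), L ^ T * ppw ((n : ℤ) ^ 2 + a).natAbs := by
            refine sum_le_sum fun n _ => ?_
            rw [abs_mul, abs_of_nonneg (ppw_nn _)]
            exact mul_le_mul_of_nonneg_right (hu n) (ppw_nn _)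
        _ = L ^ T * ∑ n ∈ Ioc m (m + y), ppw ((n : ℤ) ^ 2 + a).natAbs := by rw [mul_sum]
        _ ≤ L ^ T * (y / L ^ (A + T + 3)) := mul_le_mul_of_nonneg_left c4 (hLp T).le
        _ = y / L ^ (A + 3) := by
            rw [show A + T + 3 = T + (A + 3) by ring, pow_add L T]
            have h1 := (hLp T).ne'
            have h2 := (hLp (A + 3)).ne'
            field_simp
    have c7 : ∑ n ∈ Ioc m (m + y), u n * (lq a n - lz z ((n : ℤ) ^ 2 + a)) =
        ∑ n ∈ Ioc m (m + y), u n * (Ed z ((n : ℤ) ^ 2 + a) + Ed z (-((n : ℤ) ^ 2 + a))) -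
        ∑ n ∈ Ioc m (m + y), u n * ppw ((n : ℤ) ^ 2 + a).natAbs := by
      rw [← sum_sub_distrib]
      refine sum_congr rfl fun n _ => ?_
      rw [ed_id z hz, lq_eq]
      ring
    have e1 := abs_le.1 c3
    have e2 := abs_le.1 c5
    have e3 : |∑ n ∈ Ioc m (m + y), u n * (lq a n - lz z ((n : ℤ) ^ 2 + a))| ≤ 2 * (y / L ^ (A + 3)) := by
      rw [c7, abs_le]
      constructor <;> linarith [e1.1, e1.2, e2.1, e2.2]
    have e4 : 2 * ((y : ℝ) / L ^ (A + 3)) ≤ y / L ^ A := by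
      rw [pow_add, mul_div_assoc', div_le_div_iff₀ (by positivity) (by positivity)]
      have : (8 : ℝ) ≤ L ^ 3 := by
        calc (8 : ℝ) = 2 ^ 3 := by norm_num
          _ ≤ _ := pow_le_pow_left₀ (by norm_num) hL 3
      nlinarith [mul_nonneg (Nat.cast_nonneg y : (0 : ℝ) ≤ y) (hLp A).le]
    linarith
  have hcard := (Nat.cast_le (α := ℝ)).2 ((card_le_card hsub).trans (card_union_le _ _))
  push_cast at hcard
  refine hcard.trans ((add_le_add b1 b3).trans ?_)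
  rw [← hLdef, pow_add]
  rw [← add_div, div_le_div_iff₀ (by positivity) (by positivity)]
  have : (8 : ℝ) ≤ L ^ 3 := by
    calc (8 : ℝ) = 2 ^ 3 := by norm_num
      _ ≤ _ := pow_le_pow_left₀ (by norm_num) hL 3
  nlinarith [mul_nonneg (Nat.cast_nonneg X : (0 : ℝ) ≤ X) (hLp A).le]

end Pool.Agent.helper24_UT.Sqp
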