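/-
UT_SQU   (project UT of helper24: primes at almost all systems of polynomials; very_famous ids, partial results)
TARGET: prove the theorem at the end. Its statement uses the definitions in the modules Pool/Agent/helper24_UT/Stm5.lean, Stm17.lean (S_LE, S_BDH, Fam), Stm20.lean (Wd, S_EN2, S_SQW), Stm21.lean, Stm24.lean, Stm25.lean
(on origin/main; `git -C /workdir/pool/outputs/live pull`, then copy these files and the starting modules they import
to the same paths under /workdir/pool). You may import Mathlib and ANY starting module (copy it with its closure from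
outputs/live). READ the statement files first.
If the file named below helps, copy from it or import it. Put helper lemmas in the namespace below, do not change the target statement, no sorry, no native_decide, no new axioms,
no straight double quotes in the file. Paste the full proved file back as the result. If the statement is false or a
constant does not work out, set status='problem' and say exactly why.

PLAIN PROOF
THIS IS THE FILE Pool/Agent/helper24_UT/Sqw.lean (theorem S_LE θ → S_EN2 → S_SQW θ, proof by helper740) WITH ARBITRARY WEIGHTS u: copy it and insert the weights. (Pool/Agent/helper24_UT/Dp.lean is the same for F(n) + a, initial segments, with weights.) L = log X.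
Duality: for sigma = +-1 and |c_n| <= 1: sum_(j<=Y) |sum_(n<=X) c_n Ed z (sigma n + s j)| <= X Y/L^U, so sum_(j<=Y) |u (m+j)| |...| <= X Y/L^(U-T); choosing c_n = the sign of the inner sum and exchanging the sums: sum_(n<=X) |sum_(j<=Y) u (m+j) Ed z (sigma n + s j)| <= X Y/L^(U-T). So take U larger by T; the grid with V := A + T + 4 (the terms m + Y < n <= m + y contribute at most (2y/L^V + 1) L^T 6L <= y/(2 L^A)). Everything else is unchanged.
-/
import Pool.Agent.helper24_UT.Stm25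
import Pool.Agent.helper24_UT.Stm17
import Pool.Agent.helper24_UT.Sqw

set_option autoImplicit false

namespace Pool.Agent.helper24_UT.Squ

open Finset Polynomial
open Pool.Agent.helper24_UT
open Pool.Agent.helper24_UT.Sqw (sw_Ed_bd sw_dual sw_markov sw_energy sw_grid)
open Pool.Agent.H373R2.T7 (lamI lamzI lamz Vz pz energy)

/-- one window sum -/
noncomputable def TT (u : ℕ → ℝ) (z m Y : ℕ) (a : ℤ) : ℝ :=
  ∑ n ∈ Ioc m (m + Y), u n * (Ed z ((n : ℤ) ^ 2 + a) + Ed z (-((n : ℤ) ^ 2 + a)))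

theorem sw_TT (u : ℕ → ℝ) (z m Y : ℕ) (a : ℤ) : TT u z m Y a =
    ∑ j ∈ Icc 1 Y, u (m + j) * Ed z (((m : ℤ) + j) ^ 2 + a) +
      ∑ j ∈ Icc 1 Y, u (m + j) * Ed z (-(((m : ℤ) + j) ^ 2 + a)) := by
  unfold TT
  simp only [mul_add]
  rw [← Finset.sum_add_distrib]
  symm
  refine Finset.sum_nbij' (fun j => m + j) (fun n => n - m) ?_ ?_ ?_ ?_ ?_
  · intro j hj
    rw [Finset.mem_Icc] at hj
    rw [Finset.mem_Ioc]
    omega
  · intro n hn
    rw [Finset.mem_Ioc] at hn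
    rw [Finset.mem_Icc]
    omega
  · intro j _
    omega
  · intro n hn
    rw [Finset.mem_Ioc] at hn
    omega
  · intro j _
    push_cast
    rfl

theorem sw_re1 (X : ℕ) (f : ℤ → ℝ) :
    ∑ a ∈ Icc (-(X : ℤ)) X, f a = ∑ n ∈ Icc 1 (2 * X + 1), f ((n : ℤ) - X - 1) := by
  symm
  refine Finset.sum_nbij' (fun n : ℕ => (n : ℤ) - X - 1) (fun a : ℤ => (a + X + 1).toNat) ?_ ?_ ?_ ?_ ?_
  · intro n hn
    rw [Finset.mem_Icc] at hn ⊢
    omega
  · intro a ha
    rw [Finset.mem_Icc] at ha ⊢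
    omega
  · intro n _
    omega
  · intro a ha
    rw [Finset.mem_Icc] at ha
    omega
  · intro n _
    rfl

theorem sw_re2 (X : ℕ) (f : ℤ → ℝ) :
    ∑ a ∈ Icc (-(X : ℤ)) X, f a = ∑ n ∈ Icc 1 (2 * X + 1), f ((X : ℤ) + 1 - n) := by
  symm
  refine Finset.sum_nbij' (fun n : ℕ => (X : ℤ) + 1 - n) (fun a : ℤ => (X + 1 - a).toNat) ?_ ?_ ?_ ?_ ?_
  · intro n hn
    rw [Finset.mem_Icc] at hn ⊢
    omega
  · intro a ha
    rw [Finset.mem_Icc] at ha ⊢
    omega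
  · intro n _
    omega
  · intro a ha
    rw [Finset.mem_Icc] at ha
    omega
  · intro n _
    rfl

/-- the fixed window -/
theorem sw_fix (θ : ℝ) (e K U X z T : ℕ) (u : ℕ → ℝ) (hX : 2 ≤ X) (L : ℝ) (hL : L = Real.log X)
    (hu : ∀ n, |u n| ≤ L ^ T)
    (hLE : ∀ H : ℕ, (X : ℝ) ^ (θ + 1 / e : ℝ) ≤ H → H ≤ X → ∀ (c : ℤ) (x : ℕ) (s : ℕ → ℤ),
      |c| ≤ (3 : ℕ) * X → Fam 3 (K + 1) X H x c s → ∀ y : ℕ, y ≤ 3 * X →
      ∀ G : ℕ → ℂ, (∀ n, ‖G n‖ ≤ 1) →
      ∑ m ∈ Icc 1 x, ‖∑ n ∈ Icc 1 y, G n * (Ed z ((1 : ℤ) * n + s m) : ℂ)‖ ≤ (X : ℝ) * x / L ^ U)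
    (m Y : ℕ) (hY1 : (X : ℝ) ^ (θ + 1 / e : ℝ) ≤ (Y : ℝ) * (m + Y)) (hY2 : (m + Y) ^ 2 ≤ X)
    (hEN : (energy 3 Y (fun j => ((m : ℤ) + j) ^ 2) : ℝ) * (Y * (2 * m + Y)) ≤
      L ^ (K + 1) * (Y : ℝ) ^ 6) :
    ∑ a ∈ Icc (-(X : ℤ)) X, |TT u z m Y a| ≤ 2 * (L ^ T * ((X : ℝ) * Y / L ^ U)) := by
  have hH1 : (X : ℝ) ^ (θ + 1 / e : ℝ) ≤ ((Y * (2 * m + Y) : ℕ) : ℝ) := by
    refine hY1.trans ?_
    push_cast
    have h1 : (0 : ℝ) ≤ m := Nat.cast_nonneg m
    have h2 : (0 : ℝ) ≤ Y := Nat.cast_nonneg Y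
    nlinarith
  have hH2 : Y * (2 * m + Y) ≤ X := by
    refine le_trans ?_ hY2
    nlinarith [Nat.zero_le (m ^ 2)]
  have hm2 : (m : ℤ) ^ 2 ≤ X := by
    have : m ^ 2 ≤ (m + Y) ^ 2 := Nat.pow_le_pow_left (by omega) 2
    exact_mod_cast this.trans hY2
  have hmY2 : ((m : ℤ) + Y) ^ 2 ≤ X := by exact_mod_cast hY2
  have hX' : (2 : ℤ) ≤ X := by exact_mod_cast hX
  have hen : ∀ (s : ℕ → ℤ) (c : ℤ) (σ c' : ℤ), σ ≠ 0 → (∀ j, s j = σ * ((m : ℤ) + j) ^ 2 + c') →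
      (∀ j ∈ Icc 1 Y, c < s j ∧ s j ≤ c + ((Y * (2 * m + Y) : ℕ) : ℤ)) →
      Fam 3 (K + 1) X (Y * (2 * m + Y)) Y c s := by
    intro s c σ c' hσ hs hc
    refine ⟨hc, ?_⟩
    rw [sw_energy 3 Y (fun j => ((m : ℤ) + j) ^ 2) s σ c' hσ hs, ← hL]
    push_cast
    exact hEN
  have key : ∀ (s : ℕ → ℤ) (c : ℤ), |c| ≤ (3 : ℕ) * (X : ℤ) →
      Fam 3 (K + 1) X (Y * (2 * m + Y)) Y c s →
      ∑ n ∈ Icc 1 (2 * X + 1), |∑ j ∈ Icc 1 Y, u (m + j) * Ed z ((n : ℤ) + s j)| ≤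
        L ^ T * ((X : ℝ) * Y / L ^ U) := by
    intro s c hc hF
    apply sw_dual
    intro ε hε
    have h := hLE (Y * (2 * m + Y)) hH1 hH2 c Y s hc hF (2 * X + 1) (by omega)
      (fun n => (ε n : ℂ)) (fun n => by rw [Complex.norm_real]; exact hε n)
    refine le_trans ?_ (mul_le_mul_of_nonneg_left h ((abs_nonneg _).trans (hu 0)))
    rw [Finset.mul_sum]
    refine Finset.sum_le_sum fun j _ => ?_
    have e1 : (∑ n ∈ Icc 1 (2 * X + 1), (ε n : ℂ) * (Ed z ((1 : ℤ) * n + s j) : ℂ)) =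
        ((∑ n ∈ Icc 1 (2 * X + 1), ε n * Ed z ((n : ℤ) + s j) : ℝ) : ℂ) := by
      push_cast
      refine Finset.sum_congr rfl fun n _ => ?_
      rw [one_mul]
    have e2 : ∑ n ∈ Icc 1 (2 * X + 1), ε n * (u (m + j) * Ed z ((n : ℤ) + s j)) =
        u (m + j) * ∑ n ∈ Icc 1 (2 * X + 1), ε n * Ed z ((n : ℤ) + s j) := by
      rw [Finset.mul_sum]
      refine Finset.sum_congr rfl fun n _ => ?_
      ring
    rw [e1, Complex.norm_real, Real.norm_eq_abs, e2, abs_mul]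
    exact mul_le_mul_of_nonneg_right (hu _) (abs_nonneg _)
  have hj : ∀ j ∈ Icc 1 Y, (m : ℤ) ^ 2 < ((m : ℤ) + j) ^ 2 ∧ ((m : ℤ) + j) ^ 2 ≤ ((m : ℤ) + Y) ^ 2 := by
    intro j hj
    rw [Finset.mem_Icc] at hj
    have h0 : (0 : ℤ) ≤ m := Int.natCast_nonneg m
    have h1 : (1 : ℤ) ≤ j := by exact_mod_cast hj.1
    have h2 : (j : ℤ) ≤ Y := by exact_mod_cast hj.2
    constructor <;> nlinarith
  have hHz : ((Y * (2 * m + Y) : ℕ) : ℤ) = ((m : ℤ) + Y) ^ 2 - (m : ℤ) ^ 2 := by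
    push_cast
    ring
  have k1 : ∑ a ∈ Icc (-(X : ℤ)) X, |∑ j ∈ Icc 1 Y, u (m + j) * Ed z (((m : ℤ) + j) ^ 2 + a)| ≤
      L ^ T * ((X : ℝ) * Y / L ^ U) := by
    rw [sw_re1 X (fun a => |∑ j ∈ Icc 1 Y, u (m + j) * Ed z (((m : ℤ) + j) ^ 2 + a)|)]
    refine le_trans (le_of_eq ?_) (key (fun j => ((m : ℤ) + j) ^ 2 - X - 1) ((m : ℤ) ^ 2 - X - 1) ?_ ?_)
    · refine Finset.sum_congr rfl fun n _ => ?_
      congr 1
      refine Finset.sum_congr rfl fun j _ => ?_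
      congr 2
      ring
    · have h0 : (0 : ℤ) ≤ (m : ℤ) ^ 2 := sq_nonneg _
      rw [abs_le]
      push_cast
      constructor <;> linarith
    · refine hen _ _ 1 (-X - 1) one_ne_zero (fun j => by ring) fun j hj' => ?_
      have := hj j hj'
      rw [hHz]
      constructor <;> linarith
  have k2 : ∑ a ∈ Icc (-(X : ℤ)) X, |∑ j ∈ Icc 1 Y, u (m + j) * Ed z (-(((m : ℤ) + j) ^ 2 + a))| ≤
      L ^ T * ((X : ℝ) * Y / L ^ U) := by
    rw [sw_re2 X (fun a => |∑ j ∈ Icc 1 Y, u (m + j) * Ed z (-(((m : ℤ) + j) ^ 2 + a))|)]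
    refine le_trans (le_of_eq ?_) (key (fun j => -((m : ℤ) + j) ^ 2 - X - 1)
      (-((m : ℤ) + Y) ^ 2 - X - 2) ?_ ?_)
    · refine Finset.sum_congr rfl fun n _ => ?_
      congr 1
      refine Finset.sum_congr rfl fun j _ => ?_
      congr 2
      ring
    · have h0 : (0 : ℤ) ≤ ((m : ℤ) + Y) ^ 2 := sq_nonneg _
      rw [abs_le]
      push_cast
      constructor <;> linarith
    · refine hen _ _ (-1) (-X - 1) (by norm_num) (fun j => by ring) fun j hj' => ?_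
      have := hj j hj'
      rw [hHz]
      constructor <;> linarith
  calc ∑ a ∈ Icc (-(X : ℤ)) X, |TT u z m Y a|
      ≤ ∑ a ∈ Icc (-(X : ℤ)) X, (|∑ j ∈ Icc 1 Y, u (m + j) * Ed z (((m : ℤ) + j) ^ 2 + a)| +
          |∑ j ∈ Icc 1 Y, u (m + j) * Ed z (-(((m : ℤ) + j) ^ 2 + a))|) := by
        refine Finset.sum_le_sum fun a _ => ?_
        rw [sw_TT]
        exact abs_add_le _ _
    _ ≤ 2 * (L ^ T * ((X : ℝ) * Y / L ^ U)) := by
        rw [Finset.sum_add_distrib]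
        linarith

/-- nearby windows -/
theorem sw_near (z X m y Y T : ℕ) (u : ℕ → ℝ) (L : ℝ) (hL : L = Real.log X) (hL1 : 1 ≤ L)
    (hu : ∀ n, |u n| ≤ L ^ T)
    (hV : (Vz z)⁻¹ ≤ Real.log X) (a : ℤ) (ha : a ∈ Icc (-(X : ℤ)) X) (hYy : Y ≤ y)
    (hy2 : (m + y) ^ 2 ≤ X) : |TT u z m y a - TT u z m Y a| ≤ ((y : ℝ) - Y) * (L ^ T * (4 * L)) := by
  have h1 : TT u z m y a - TT u z m Y a = ∑ n ∈ Ioc (m + Y) (m + y),
      u n * (Ed z ((n : ℤ) ^ 2 + a) + Ed z (-((n : ℤ) ^ 2 + a))) := by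
    unfold TT
    rw [← Finset.sum_Ioc_consecutive _ (show m ≤ m + Y by omega) (show m + Y ≤ m + y by omega)]
    ring
  rw [h1]
  refine (Finset.abs_sum_le_sum_abs _ _).trans ?_
  have h2 : ∀ n ∈ Ioc (m + Y) (m + y),
      |u n * (Ed z ((n : ℤ) ^ 2 + a) + Ed z (-((n : ℤ) ^ 2 + a)))| ≤ L ^ T * (4 * L) := by
    intro n hn
    rw [Finset.mem_Ioc] at hn
    rw [Finset.mem_Icc] at ha
    have h3 : (n : ℤ) ^ 2 ≤ X := by
      have : n ^ 2 ≤ (m + y) ^ 2 := Nat.pow_le_pow_left hn.2 2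
      exact_mod_cast this.trans hy2
    have h4 : (0 : ℤ) ≤ (n : ℤ) ^ 2 := sq_nonneg _
    have e1 := sw_Ed_bd z X (by rw [← hL]; exact hL1) hV ((n : ℤ) ^ 2 + a) (by linarith [ha.2])
    have e2 := sw_Ed_bd z X (by rw [← hL]; exact hL1) hV (-((n : ℤ) ^ 2 + a)) (by linarith [ha.1, ha.2])
    rw [← hL] at e1 e2
    rw [abs_mul]
    refine mul_le_mul (hu n) ((abs_add_le _ _).trans ?_) (abs_nonneg _) ((abs_nonneg _).trans (hu 0))
    linarith
  refine (Finset.sum_le_sum h2).trans ?_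
  rw [Finset.sum_const, Nat.card_Ioc, nsmul_eq_mul]
  have e : ((m + y - (m + Y) : ℕ) : ℝ) = (y : ℝ) - Y := by
    rw [Nat.cast_sub (by omega)]
    push_cast
    ring
  rw [e]

theorem main : ∀ θ : ℝ, 0 ≤ θ → S_LE θ → S_EN2 → S_SQU θ := by
  classical
  intro θ hθ hLE hEN e A T he
  obtain ⟨K, hK⟩ := hEN
  obtain ⟨B₀, hB₀⟩ := hLE 3 e 3 (K + 1) (3 * A + 2 * T + 4) (by norm_num) he
  refine ⟨B₀, fun E₁ => ?_⟩
  obtain ⟨N₂, hN₂⟩ := hB₀ E₁
  obtain ⟨N₃, hN₃⟩ := Pool.Agent.H373R2.T7.Vz_inv_small E₁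
  have hlim : Filter.Tendsto (fun N : ℕ => Real.log (N : ℝ)) Filter.atTop Filter.atTop :=
    Real.tendsto_log_atTop.comp (tendsto_natCast_atTop_atTop (R := ℝ))
  obtain ⟨N₄, hN₄⟩ := Filter.eventually_atTop.1 (hlim.eventually_ge_atTop (60 + K : ℝ))
  obtain ⟨N₅, hN₅⟩ : ∃ N₅ : ℕ, N₅ = 3 ^ e := ⟨_, rfl⟩
  refine ⟨N₂ + N₃ + N₄ + N₅ + 2, ?_⟩
  intro X hX z hz1 hz2 m u hu
  have hK0 : (0 : ℝ) ≤ K := Nat.cast_nonneg K
  obtain ⟨L, hL⟩ : ∃ L, L = Real.log X := ⟨_, rfl⟩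
  have hLb : 60 + K ≤ L := by rw [hL]; exact hN₄ X (by omega)
  rw [← hL] at hu
  have hX1 : (1 : ℝ) ≤ X := by exact_mod_cast (by omega : 1 ≤ X)
  have hz0 : 1 ≤ z := by
    have h1 : (1 : ℝ) ≤ z := by
      refine (one_le_pow₀ ?_).trans hz1
      rw [← hL]; linarith
    exact_mod_cast h1
  have hV := hN₃ X (by omega) z hz0 hz2
  have hbig : (2 : ℝ) < (X : ℝ) ^ (θ + 1 / e : ℝ) := by
    have he0 : (0 : ℝ) < e := by exact_mod_cast he
    have h1 : (3 : ℝ) ^ e ≤ X := by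
      have : 3 ^ e ≤ X := by rw [← hN₅]; omega
      exact_mod_cast this
    have h2 : (3 : ℝ) ≤ (X : ℝ) ^ (1 / e : ℝ) := by
      have h3 : ((3 : ℝ) ^ e) ^ (1 / e : ℝ) ≤ (X : ℝ) ^ (1 / e : ℝ) :=
        Real.rpow_le_rpow (by positivity) h1 (by positivity)
      rw [← Real.rpow_natCast, ← Real.rpow_mul (by norm_num), mul_one_div_cancel he0.ne',
        Real.rpow_one] at h3
      exact h3
    have h4 : (X : ℝ) ^ (1 / e : ℝ) ≤ (X : ℝ) ^ (θ + 1 / e : ℝ) :=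
      Real.rpow_le_rpow_of_exponent_le hX1 (by linarith)
    linarith
  have hLE' := fun H h1 h2 c x s h3 h4 y h5 G h6 =>
    hN₂ X (by omega) H h1 h2 c x s h3 h4 z hz1 hz2 1 (Or.inl rfl) y h5 G h6
  -- windows are long
  have hlong : ∀ Y, Wd θ e X m Y → 2 ≤ Y := by
    intro Y hY
    by_contra hcon
    have hY1 : Y ≤ 1 := by omega
    have h1 : m ≤ 1 := by
      refine hY.1.trans ?_
      calc Y ^ 2 ≤ 1 ^ 2 := Nat.pow_le_pow_left hY1 2
        _ = 1 := by norm_num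
    have h2 : Y * (m + Y) ≤ 2 := by
      calc Y * (m + Y) ≤ 1 * (1 + 1) := Nat.mul_le_mul hY1 (by omega)
        _ = 2 := by norm_num
    have h3 : ((Y : ℝ) * (m + Y)) ≤ 2 := by exact_mod_cast h2
    linarith [hY.2.1]
  -- the mean over `a`
  have hmean : ∀ Y, Wd θ e X m Y →
      ∑ a ∈ Icc (-(X : ℤ)) X, |TT u z m Y a| ≤ 2 * (L ^ T * ((X : ℝ) * Y / L ^ (3 * A + 2 * T + 4))) := by
    intro Y hY
    have hY2 := hlong Y hY
    refine sw_fix θ e K (3 * A + 2 * T + 4) X z T u (by omega) L hL hu ?_ m Y hY.2.1 hY.2.2 ?_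
    · rw [hL]
      exact hLE'
    · have h1 := hK m Y hY2 hY.1
      refine h1.trans ?_
      have hYr : (2 : ℝ) ≤ Y := by exact_mod_cast hY2
      have h2 : Real.log Y ≤ L / 2 := by
        have h3 : (Y : ℝ) ^ 2 ≤ X := by
          have : Y ^ 2 ≤ (m + Y) ^ 2 := Nat.pow_le_pow_left (by omega) 2
          exact_mod_cast this.trans hY.2.2
        have h4 := Real.log_le_log (by positivity) h3
        rw [Real.log_pow, ← hL] at h4
        push_cast at h4
        linarith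
      have h3 : (1 + Real.log Y) ^ K ≤ L ^ K := by
        apply pow_le_pow_left₀
        · have := Real.log_nonneg (show (1 : ℝ) ≤ Y by linarith)
          linarith
        · linarith
      have h4 : (K : ℝ) * (1 + Real.log Y) ^ K ≤ L ^ (K + 1) := by
        rw [pow_succ, mul_comm (L ^ K) L]
        exact mul_le_mul (by linarith) h3 (pow_nonneg (by
          have := Real.log_nonneg (show (1 : ℝ) ≤ Y by linarith)
          linarith) _) (by linarith)
      calc (K : ℝ) * (Y : ℝ) ^ 6 * (1 + Real.log Y) ^ K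
          = (K : ℝ) * (1 + Real.log Y) ^ K * (Y : ℝ) ^ 6 := by ring
        _ ≤ L ^ (K + 1) * (Y : ℝ) ^ 6 := mul_le_mul_of_nonneg_right h4 (by positivity)
  have hL0 : 0 < L := by linarith
  -- Markov
  have hmk : ∀ Y, Wd θ e X m Y →
      (((Icc (-(X : ℤ)) X).filter (fun a => (Y : ℝ) / (2 * L ^ A) < |TT u z m Y a|)).card : ℝ) ≤
        4 * X * L ^ (A + T) / L ^ (3 * A + 2 * T + 4) := by
    intro Y hY
    have hY0 : (0 : ℝ) < Y := by
      have := hlong Y hY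
      exact_mod_cast (by omega : 0 < Y)
    refine (sw_markov _ (fun a => |TT u z m Y a|) _ ((Y : ℝ) / (2 * L ^ A)) (by positivity)
      (fun a _ => abs_nonneg _) (hmean Y hY)).trans (le_of_eq ?_)
    field_simp
    ring
  -- the grid
  set y0 : ℕ := sInf {y | Wd θ e X m y} with hy0
  set R : ℕ := ⌈L ^ (A + T + 2)⌉₊ with hR
  have hRL : L ^ (A + T + 2) ≤ R := Nat.le_ceil _
  have hR1 : 1 ≤ R := by
    have : (1 : ℝ) ≤ R := (one_le_pow₀ (by linarith)).trans hRL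
    exact_mod_cast this
  set Yf : ℕ × ℕ → ℕ := fun p => max ((p.2 * 2 ^ p.1 + (R - 1)) / R) y0 with hYf
  set P : Finset (ℕ × ℕ) := (range (Nat.log 2 X + 1) ×ˢ range (2 * R + 1)).filter
    (fun p => Wd θ e X m (Yf p)) with hP
  have hsub : (Icc (-(X : ℤ)) X).filter (fun a => ∃ y : ℕ, Wd θ e X m y ∧
      (y : ℝ) / (Real.log X) ^ A < |∑ n ∈ Ioc m (m + y), u n * (Ed z ((n : ℤ) ^ 2 + a) +
        Ed z (-((n : ℤ) ^ 2 + a)))|) ⊆ P.biUnion (fun p => (Icc (-(X : ℤ)) X).filter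
      (fun a => (Yf p : ℝ) / (2 * L ^ A) < |TT u z m (Yf p) a|)) := by
    intro a ha
    rw [Finset.mem_filter] at ha
    obtain ⟨ha1, y, hy, hya⟩ := ha
    have hy2 := hlong y hy
    have hyX : y ≤ X := by
      refine le_trans ?_ hy.2.2
      nlinarith [Nat.zero_le m]
    have hy0y : y0 ≤ y := Nat.sInf_le hy
    have hne : {y | Wd θ e X m y}.Nonempty := ⟨y, hy⟩
    have hy0W : Wd θ e X m y0 := Nat.sInf_mem hne
    obtain ⟨k, hk, t, ht, h1, h2⟩ := sw_grid y R X (by omega) hR1 hyX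
    obtain ⟨Y', hY'⟩ : ∃ Y', Y' = (t * 2 ^ k + (R - 1)) / R := ⟨_, rfl⟩
    rw [← hY'] at h1 h2
    have hYk : Yf (k, t) = max Y' y0 := by rw [hYf, hY']
    obtain ⟨Y, hY⟩ : ∃ Y, Y = Yf (k, t) := ⟨_, rfl⟩
    have hYy : Y ≤ y := by rw [hY, hYk]; exact max_le h1 hy0y
    have hY0 : y0 ≤ Y := by rw [hY, hYk]; exact le_max_right _ _
    have hY1 : Y' ≤ Y := by rw [hY, hYk]; exact le_max_left _ _
    have hYW : Wd θ e X m Y := by
      refine ⟨hy0W.1.trans (Nat.pow_le_pow_left hY0 2), hy0W.2.1.trans ?_,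
        (Nat.pow_le_pow_left (by omega) 2).trans hy.2.2⟩
      have : (y0 : ℝ) ≤ Y := by exact_mod_cast hY0
      gcongr
    rw [Finset.mem_biUnion]
    refine ⟨(k, t), ?_, ?_⟩
    · rw [hP, Finset.mem_filter, Finset.mem_product]
      exact ⟨⟨hk, ht⟩, by rw [← hY]; exact hYW⟩
    · rw [← hY, Finset.mem_filter]
      refine ⟨ha1, ?_⟩
      have hn := sw_near z X m y Y T u L hL (by linarith) hu hV a ha1 hYy hy.2.2
      rw [← hL] at hya
      change (y : ℝ) / L ^ A < |TT u z m y a| at hya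
      have h3 : ((y : ℝ) - Y) * L ^ (A + T + 2) ≤ y := by
        have h4 : ((y : ℝ) - Y) * R ≤ y := by
          have h5 : (y : ℝ) * R ≤ Y' * R + y := by exact_mod_cast h2
          have h6 : (Y' : ℝ) ≤ Y := by exact_mod_cast hY1
          have h7 : (0 : ℝ) ≤ R := Nat.cast_nonneg R
          nlinarith
        have h5 : (0 : ℝ) ≤ (y : ℝ) - Y := by
          have : (Y : ℝ) ≤ y := by exact_mod_cast hYy
          linarith
        exact (mul_le_mul_of_nonneg_left hRL h5).trans h4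
      have h4 : ((y : ℝ) - Y) * (L ^ T * (4 * L)) ≤ y / (2 * L ^ A) := by
        rw [le_div_iff₀ (by positivity)]
        have h5 : ((y : ℝ) - Y) * (L ^ T * (4 * L)) * (2 * L ^ A) * L = 8 * (((y : ℝ) - Y) * L ^ (A + T + 2)) := by
          ring
        have h6 : ((y : ℝ) - Y) * (L ^ T * (4 * L)) * (2 * L ^ A) * L ≤ y * L := by
          rw [h5]
          have : (0 : ℝ) ≤ y := Nat.cast_nonneg y
          nlinarith
        exact le_of_mul_le_mul_right h6 hL0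
      have h5 : (Y : ℝ) / (2 * L ^ A) ≤ y / (2 * L ^ A) := by
        have : (Y : ℝ) ≤ y := by exact_mod_cast hYy
        gcongr
      have h6 : (y : ℝ) / L ^ A = y / (2 * L ^ A) + y / (2 * L ^ A) := by
        field_simp
        ring
      have h7 := abs_sub_abs_le_abs_sub (TT u z m y a) (TT u z m Y a)
      linarith
  have hcard : (P.card : ℝ) ≤ 15 * L ^ (A + T + 3) := by
    have h1 : P.card ≤ (Nat.log 2 X + 1) * (2 * R + 1) := by
      rw [hP]
      refine (Finset.card_filter_le _ _).trans ?_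
      rw [Finset.card_product, Finset.card_range, Finset.card_range]
    have h2 : ((Nat.log 2 X : ℕ) : ℝ) ≤ 2 * L := by
      have h3 : (2 : ℝ) ^ (Nat.log 2 X) ≤ X := by
        have : 2 ^ (Nat.log 2 X) ≤ X := Nat.pow_log_le_self 2 (by omega)
        exact_mod_cast this
      have h4 := Real.log_le_log (by positivity) h3
      rw [Real.log_pow, ← hL] at h4
      have h5 := Real.log_two_gt_d9
      have h6 : (0 : ℝ) ≤ (Nat.log 2 X : ℕ) := Nat.cast_nonneg _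
      nlinarith
    have h3 : (R : ℝ) ≤ 2 * L ^ (A + T + 2) := by
      have h4 : (R : ℝ) < L ^ (A + T + 2) + 1 := Nat.ceil_lt_add_one (by positivity)
      have h5 : (1 : ℝ) ≤ L ^ (A + T + 2) := one_le_pow₀ (by linarith)
      linarith
    have h4 : (P.card : ℝ) ≤ ((Nat.log 2 X : ℕ) + 1) * (2 * R + 1) := by exact_mod_cast h1
    have h5 : (1 : ℝ) ≤ L ^ (A + T + 2) := one_le_pow₀ (by linarith)
    refine h4.trans ?_
    calc (((Nat.log 2 X : ℕ) : ℝ) + 1) * (2 * R + 1) ≤ (3 * L) * (5 * L ^ (A + T + 2)) := by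
          apply mul_le_mul (by linarith) (by linarith) (by positivity) (by positivity)
      _ = 15 * L ^ (A + T + 3) := by ring
  have hfin := (Finset.card_le_card hsub).trans Finset.card_biUnion_le
  have hfin2 : (((Icc (-(X : ℤ)) X).filter (fun a => ∃ y : ℕ, Wd θ e X m y ∧
      (y : ℝ) / (Real.log X) ^ A < |∑ n ∈ Ioc m (m + y), u n * (Ed z ((n : ℤ) ^ 2 + a) +
        Ed z (-((n : ℤ) ^ 2 + a)))|)).card : ℝ) ≤ ∑ p ∈ P, (((Icc (-(X : ℤ)) X).filter
      (fun a => (Yf p : ℝ) / (2 * L ^ A) < |TT u z m (Yf p) a|)).card : ℝ) := by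
    exact_mod_cast hfin
  refine hfin2.trans ((Finset.sum_le_sum fun p hp => hmk (Yf p) (Finset.mem_filter.1 hp).2).trans ?_)
  rw [Finset.sum_const, nsmul_eq_mul, ← hL]
  calc (P.card : ℝ) * (4 * X * L ^ (A + T) / L ^ (3 * A + 2 * T + 4))
      ≤ (15 * L ^ (A + T + 3)) * (4 * X * L ^ (A + T) / L ^ (3 * A + 2 * T + 4)) :=
        mul_le_mul_of_nonneg_right hcard (by positivity)
    _ = 60 / L * (X / L ^ A) := by
        field_simp
        ring
    _ ≤ 1 * (X / L ^ A) := by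
        apply mul_le_mul_of_nonneg_right _ (by positivity)
        rw [div_le_one hL0]
        linarith
    _ = X / L ^ A := one_mul _

end Pool.Agent.helper24_UT.Squ
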