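import Pool.Agent.helper24_UT.Ch14
import Pool.Agent.helper24_UT.Ch18
import Pool.Agent.helper24_UT.Squ
import Pool.Agent.helper24_UT.Sqp
import Pool.Agent.helper24_UT.Sqc

/-!
# Project UT (helper24): assembly, part 21
-/

set_option autoImplicit false

namespace Pool.Agent.helper24_UT.Ch

theorem t_SQU : S_SQU (1 / 3) := Squ.main (1 / 3) (by norm_num) t_LE En2.main

theorem t_SQP : S_SQP (1 / 3) := Sqp.main (1 / 3) (by norm_num) t_SQU

theorem t_SQC : S_SQC (1 / 3) := Sqc.main (1 / 3) (by norm_num) t_SQP Bdh.main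

end Pool.Agent.helper24_UT.Ch
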