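import Pool.Agent.helper24_UT.Stm25
import Pool.Agent.helper24_UT.R37
import Pool.Agent.helper24_UT.Mtf

/-!
# Project UT (helper24): `n² + a` in windows, all classes to all moduli, the Euler product
-/

set_option autoImplicit false

namespace Pool.Agent.helper24_UT.Sqh

open Finset Polynomial
open Pool.Agent.helper24_UT
open Pool.Agent.H373R2.T7 (Vz pz mem_pz Vz_pos Vz_inv_small)

lemma inner (m W q s : ℕ) (hs : s < q) (g : ℕ → ℝ) :
    ∑ n ∈ (Ioc m (m + W)).filter (fun n => n % q = (s + m) % q), g n =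
      ∑ n ∈ (Icc 1 W).filter (fun n => n % q = s), g (n + m) := by
  symm
  apply sum_bij (fun n _ => n + m)
  · intro n hn
    rw [mem_filter, mem_Icc] at hn
    rw [mem_filter, mem_Ioc]
    refine ⟨⟨by omega, by omega⟩, ?_⟩
    have h1 : n ≡ s [MOD q] := by
      rw [Nat.ModEq, hn.2, Nat.mod_eq_of_lt hs]
    exact Nat.ModEq.add_right m h1
  · intro a _ b _ h
    omega
  · intro n hn
    rw [mem_filter, mem_Ioc] at hn
    refine ⟨n - m, ?_, by omega⟩
    rw [mem_filter, mem_Icc]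
    refine ⟨⟨by omega, by omega⟩, ?_⟩
    have h1 : n - m + m ≡ s + m [MOD q] := by
      rw [Nat.sub_add_cancel hn.1.1.le]
      exact hn.2
    have h2 : n - m ≡ s [MOD q] := Nat.ModEq.add_right_cancel' m h1
    rw [Nat.ModEq, Nat.mod_eq_of_lt hs] at h2
    exact h2
  · intro n _
    rfl

lemma outer (m q : ℕ) (hq : 1 ≤ q) (f : ℕ → ℝ) :
    ∑ s ∈ range q, f s = ∑ s ∈ range q, f ((s + m) % q) := by
  symm
  apply sum_nbij' (fun s => (s + m) % q) (fun s => (s + (q - 1) * m) % q)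
  · intro s _
    rw [mem_range]
    exact Nat.mod_lt _ hq
  · intro s _
    rw [mem_range]
    exact Nat.mod_lt _ hq
  · intro s hs
    have hs := mem_range.1 hs
    show ((s + m) % q + (q - 1) * m) % q = s
    rw [Nat.mod_add_mod]
    have e : s + m + (q - 1) * m = s + q * m := by
      obtain ⟨k, rfl⟩ := Nat.exists_eq_add_of_le hq
      rw [Nat.add_sub_cancel_left]
      ring
    rw [e, Nat.add_mul_mod_self_left, Nat.mod_eq_of_lt hs]
  · intro s hs
    have hs := mem_range.1 hs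
    show ((s + (q - 1) * m) % q + m) % q = s
    rw [Nat.mod_add_mod]
    have e : s + (q - 1) * m + m = s + q * m := by
      obtain ⟨k, rfl⟩ := Nat.exists_eq_add_of_le hq
      rw [Nat.add_sub_cancel_left]
      ring
    rw [e, Nat.add_mul_mod_self_left, Nat.mod_eq_of_lt hs]
  · intro s _
    rfl

lemma transf (m Q : ℕ) (w : ℕ → ℕ → ℕ) (g : ℕ → ℝ) (c c' : ℕ → ℕ → ℝ)
    (hc : ∀ q s : ℕ, s < q → c' q s = c q ((s + m) % q)) :
    ∑ q ∈ Icc 1 Q, ∑ s ∈ range q, (∑ n ∈ (Ioc m (m + w q s)).filter (fun n => n % q = s), g n -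
        (w q s : ℝ) / q * c q s) ^ 2 =
      ∑ q ∈ Icc 1 Q, ∑ s ∈ range q, (∑ n ∈ (Icc 1 (w q ((s + m) % q))).filter (fun n => n % q = s), g (n + m) -
        (w q ((s + m) % q) : ℝ) / q * c' q s) ^ 2 := by
  apply sum_congr rfl
  intro q hq
  rw [outer m q (mem_Icc.1 hq).1]
  apply sum_congr rfl
  intro s hs
  rw [inner m _ q s (mem_range.1 hs), hc q s (mem_range.1 hs)]

/-- the polynomial `(X + m)²` -/
noncomputable def Fw (m : ℕ) (_ : Fin 1) : ℤ[X] := (X + C (m : ℤ)) ^ 2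

lemma Fw_deg (m : ℕ) (i : Fin 1) : (Fw m i).natDegree = 2 := by
  unfold Fw
  rw [natDegree_pow, natDegree_X_add_C]

lemma Fw_eval (m : ℕ) (i : Fin 1) (t : ℤ) : (Fw m i).eval t = (t + m) ^ 2 := by
  unfold Fw
  rw [eval_pow, eval_add, eval_X, eval_C]

lemma sg_eq (z m q s : ℕ) (a : ℤ) :
    sg z (fun i : Fin 1 => (Fw m i).comp (C (q : ℤ) * X + C (s : ℤ)) + C a) =
      sg z (fun _ : Fin 1 => (C (q : ℤ) * X + C (((s + m) % q : ℕ) : ℤ)) ^ 2 + C a) := by
  rw [← Mtf.sg_shift z (fun _ : Fin 1 => (C (q : ℤ) * X + C (((s + m) % q : ℕ) : ℤ)) ^ 2 + C a) (((s + m) / q : ℕ) : ℤ)]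
  congr 1
  funext i
  unfold Fw Mtf.FS
  have h1 : ((s : ℤ) + m) = q * (((s + m) / q : ℕ) : ℤ) + (((s + m) % q : ℕ) : ℤ) := by
    have := Nat.div_add_mod (s + m) q
    exact_mod_cast this.symm
  simp only [pow_comp, add_comp, mul_comp, X_comp, C_comp]
  congr 2
  have h2 : (C (s : ℤ) + C (m : ℤ) : ℤ[X]) = C (q : ℤ) * C (((s + m) / q : ℕ) : ℤ) + C (((s + m) % q : ℕ) : ℤ) := by
    rw [← C_add, ← C_mul, ← C_add, h1]
  calc (C (q : ℤ) * X + C (s : ℤ) + C (m : ℤ) : ℤ[X]) = C (q : ℤ) * X + (C (s : ℤ) + C (m : ℤ)) := by ring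
    _ = _ := by
      rw [h2]
      ring

theorem main : ∀ θ : ℝ, 0 ≤ θ → S_SQC θ → S_MTL → S_SQH θ := by
  classical
  intro θ _ hC hMTL e A he
  obtain ⟨E₀, B, hC⟩ := hC e (A + 2) 0 he
  refine ⟨E₀, fun E₁ => ?_⟩
  obtain ⟨N1, hC⟩ := hC E₁
  obtain ⟨N2, hM⟩ := hMTL 1 2 E₁ (A + 2)
  obtain ⟨N3, hV⟩ := Vz_inv_small E₁
  have hlim : Filter.Tendsto (fun N : ℕ => Real.log (N : ℝ)) Filter.atTop Filter.atTop :=
    Real.tendsto_log_atTop.comp (tendsto_natCast_atTop_atTop (R := ℝ))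
  obtain ⟨N4, hL32⟩ := Filter.eventually_atTop.1 (hlim.eventually_ge_atTop 32)
  obtain ⟨N5, hexp1⟩ := R37.expbig 1 B
  obtain ⟨N6, hexp2⟩ := R37.expbig 400 (2 * 1 + A)
  refine ⟨N1 + N2 + N3 + N4 + N5 + N6 + 1, fun N hN z hz0 hz1 m => ?_⟩
  have key := hC N (by omega) z hz0 hz1 m (fun _ => 1) (by simp)
  have hL := hL32 N (by omega)
  have hz : 1 ≤ z := by
    have h1 : (1 : ℝ) ≤ (Real.log N) ^ E₀ := one_le_pow₀ (by linarith)
    have h2 : (1 : ℝ) ≤ z := h1.trans hz0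
    exact_mod_cast h2
  have hVz := hV N (by omega) z hz hz1
  have hM' := hM N (by omega) z hz hz1
  have hx1 := hexp1 N (by omega)
  have hx2 := hexp2 N (by omega)
  rw [one_mul] at hx1
  refine le_trans ?_ (key.trans ?_)
  · apply Nat.cast_le.mpr
    apply Finset.card_le_card
    intro a ha
    obtain ⟨hbox, y, hY, hbad⟩ := Finset.mem_filter.mp ha
    refine Finset.mem_filter.mpr ⟨hbox, y, hY, fun hgood => hbad ?_⟩
    intro Q hQ w hw
    have hyN : y ≤ N := by
      have h1 : m + y ≤ N := (Nat.le_self_pow (by norm_num) _).trans hY.2.2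
      omega
    have hQB : (Q : ℝ) * (Real.log N) ^ B ≤ y :=
      (mul_le_mul_of_nonneg_left hx1 (Nat.cast_nonneg _)).trans hQ
    have hg := hgood Q hQB w hw
    simp only [one_mul] at hg
    have h1 := transf m Q w (fun n => lq a n - lz z ((n : ℤ) ^ 2 + a)) (fun _ _ => 0) (fun _ _ => 0) (fun _ _ _ => rfl)
    simp only [mul_zero, sub_zero] at h1
    rw [h1] at hg
    have h2 := R37.core (Fw m) (Fw_deg m) A N (Real.log N) rfl hL z hVz hM' (fun _ => a) y Q hyN hQ hx2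
      (fun q s => w q ((s + m) % q)) (fun q s => hw q _) (fun n => lq a (n + m)) (by
        refine le_trans (le_of_eq ?_) hg
        apply sum_congr rfl
        intro q _
        apply sum_congr rfl
        intro s _
        congr 1
        apply sum_congr rfl
        intro n _
        rw [Fin.prod_univ_one, Fw_eval, Nat.cast_add])
    rw [transf m Q w (fun n => lq a n) (fun q s => sg z (fun _ : Fin 1 => (C (q : ℤ) * X + C (s : ℤ)) ^ 2 + C a))
      (fun q s => sg z (fun i : Fin 1 => (Fw m i).comp (C (q : ℤ) * X + C (s : ℤ)) + C a))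
      (fun q s _ => sg_eq z m q s a)]
    exact h2
  · apply div_le_div_of_nonneg_left (by positivity) (by positivity)
    exact pow_le_pow_right₀ (by linarith) (by omega)

end Pool.Agent.helper24_UT.Sqh
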