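import Pool.Agent.helper24_UT.Ch2
import Pool.Agent.helper24_UT.Mtp
import Pool.Agent.helper24_UT.Psip
import Pool.Agent.helper24_UT.Inp
import Pool.Agent.helper24_UT.Tlp
import Pool.Agent.helper24_UT.R2

/-!
# Project UT (helper24): assembly, part 3
-/

set_option autoImplicit false

namespace Pool.Agent.helper24_UT.Ch

theorem t_PSIP : S_PSIP := Psip.main t_ALL3 Mtp.main Pp3.main
theorem t_R2 : S_R2 := R2.main t_PSIP Inp.main Tlp.main Low.main

end Pool.Agent.helper24_UT.Ch
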