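/-
UT_R13   (project UT of helper24: primes at almost all systems of polynomials; very_famous ids, partial results)
-/
import Pool.Agent.helper24_UT.Stm14

set_option autoImplicit false

namespace Pool.Agent.helper24_UT.R13

open Finset
open Pool.Agent.helper24_UT
open Pool.Agent.H373R2.T7 (lamI lamzI lamz Vz pz lamP)
open Pool.Agent.H807R2.Dav (ee)

theorem card_cls (q r t y : ℕ) (_hq : 1 ≤ q) :
    ((Ioc t y).filter (fun n => n % q = r)).card ≤ (y - t) / q + 1 := by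
  have h := Finset.card_le_card_of_injOn (s := (Ioc t y).filter (fun n => n % q = r))
    (t := range ((y - t) / q + 1)) (fun n => (n - t) / q) ?_ ?_
  · rwa [card_range] at h
  · intro n hn
    rw [Finset.mem_coe, mem_filter, mem_Ioc] at hn
    rw [Finset.mem_coe, mem_range]
    exact Nat.lt_succ_of_le (Nat.div_le_div_right (by omega))
  · intro n hn n' hn' h
    rw [Finset.mem_coe, mem_filter, mem_Ioc] at hn hn'
    have h1 : (n - t) / q = (n' - t) / q := h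
    have h2 : (n - t) % q = (n' - t) % q := by
      have h3 : (n - t) + t ≡ (n' - t) + t [MOD q] := by
        rw [Nat.sub_add_cancel hn.1.1.le, Nat.sub_add_cancel hn'.1.1.le]
        exact hn.2.trans hn'.2.symm
      exact Nat.ModEq.add_right_cancel' t h3
    have h4 := Nat.div_add_mod (n - t) q
    have h5 := Nat.div_add_mod (n' - t) q
    rw [h1, h2] at h4
    omega

theorem harm (Q : ℕ) : ∑ q ∈ Icc 1 Q, (1 / (q : ℝ)) ≤ 1 + Real.log Q := by
  have h := harmonic_le_one_add_log Q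
  rw [harmonic_eq_sum_Icc] at h
  push_cast at h
  simpa [one_div] using h

/-- the inner sums -/
noncomputable def DD (w : ℕ → ℂ) (g : ℤ → ℝ) (h q r t : ℕ) : ℂ :=
  ∑ n ∈ (Icc 1 t).filter (fun n => n % q = r), w n * (g ((n : ℤ) + h) : ℂ)

theorem DD_eq (w : ℕ → ℂ) (g g' : ℤ → ℝ) (h q r t N H : ℕ) (ht : t ≤ N)
    (hH : H ≤ N) (hh : h ∈ Icc 1 H) (hg : ∀ m : ℤ, 1 ≤ m → m ≤ 2 * N → g' m = g m) :
    ∑ n ∈ (Icc 1 N).filter (fun n => n % q = r), (if n ≤ t then w n else 0) *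
      ∏ i : Fin 1, (fun (_ : Fin 1) (m : ℤ) => (g' m : ℂ)) i ((n : ℤ) + (fun _ : Fin 1 => h) i)
      = DD w g h q r t := by
  have e : (Icc 1 t).filter (fun n => n % q = r) =
      ((Icc 1 N).filter (fun n => n % q = r)).filter (fun n => n ≤ t) := by
    ext n
    simp only [mem_filter, mem_Icc]
    constructor
    · rintro ⟨⟨h1, h2⟩, h3⟩; exact ⟨⟨⟨h1, h2.trans ht⟩, h3⟩, h2⟩
    · rintro ⟨⟨⟨h1, _⟩, h3⟩, h2⟩; exact ⟨⟨h1, h2⟩, h3⟩
  rw [DD, e, sum_filter (p := fun n => n ≤ t)]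
  refine sum_congr rfl fun n hn => ?_
  rw [mem_filter, mem_Icc] at hn
  rw [mem_Icc] at hh
  split_ifs with hnt
  · congr 1
    rw [Fin.prod_univ_one]
    show (g' ((n : ℤ) + (h : ℤ)) : ℂ) = _
    rw [hg _ (by omega) (by omega)]
  · rw [zero_mul]

theorem DD_diff (w : ℕ → ℂ) (g : ℤ → ℝ) (hw : ∀ n, ‖w n‖ ≤ 1)
    (hg : ∀ m, |g m| ≤ 1) (h q r t y : ℕ) (hq : 1 ≤ q) (hty : t ≤ y) :
    ‖DD w g h q r y‖ ≤ ‖DD w g h q r t‖ + (((y - t) / q : ℕ) + 1 : ℝ) := by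
  have e : (Icc 1 y).filter (fun n => n % q = r) =
      (Icc 1 t).filter (fun n => n % q = r) ∪ (Ioc t y).filter (fun n => n % q = r) := by
    ext n
    simp only [mem_filter, mem_union, mem_Icc, mem_Ioc]
    constructor
    · rintro ⟨⟨h1, h2⟩, h3⟩
      rcases Nat.lt_or_ge t n with h4 | h4
      · exact Or.inr ⟨⟨h4, h2⟩, h3⟩
      · exact Or.inl ⟨⟨h1, h4⟩, h3⟩
    · rintro (⟨⟨h1, h2⟩, h3⟩ | ⟨⟨h1, h2⟩, h3⟩)
      · exact ⟨⟨h1, h2.trans hty⟩, h3⟩
      · exact ⟨⟨by omega, h2⟩, h3⟩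
  have hd : Disjoint ((Icc 1 t).filter (fun n => n % q = r)) ((Ioc t y).filter (fun n => n % q = r)) := by
    rw [Finset.disjoint_left]
    intro n h1 h2
    rw [mem_filter, mem_Icc] at h1
    rw [mem_filter, mem_Ioc] at h2
    omega
  rw [DD, e, sum_union hd]
  refine (norm_add_le _ _).trans (add_le_add le_rfl ?_)
  have hterm : ∀ n, ‖w n * (g ((n : ℤ) + h) : ℂ)‖ ≤ 1 := by
    intro n
    rw [norm_mul]
    refine mul_le_one₀ (hw n) (norm_nonneg _) ?_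
    rw [Complex.norm_real]
    exact hg _
  calc ‖∑ n ∈ (Ioc t y).filter (fun n => n % q = r), w n * (g ((n : ℤ) + h) : ℂ)‖
      ≤ ∑ n ∈ (Ioc t y).filter (fun n => n % q = r), ‖w n * (g ((n : ℤ) + h) : ℂ)‖ :=
        norm_sum_le _ _
    _ ≤ ∑ n ∈ (Ioc t y).filter (fun n => n % q = r), (1 : ℝ) := sum_le_sum fun n _ => hterm n
    _ = (((Ioc t y).filter (fun n => n % q = r)).card : ℝ) := by simp
    _ ≤ (((y - t) / q : ℕ) + 1 : ℝ) := by exact_mod_cast card_cls q r t y hq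

/-- the grid point below `y` -/
theorem grid (N J y : ℕ) (hN : 1 ≤ N) (hJ : 1 ≤ J) (hy : y ≤ N) :
    ∃ i ∈ range (J + 1), i * N / J ≤ y ∧ ((y - i * N / J : ℕ) : ℝ) ≤ 1 + (N : ℝ) / J := by
  refine ⟨y * J / N, ?_, ?_, ?_⟩
  · rw [mem_range]
    have : y * J / N ≤ N * J / N := Nat.div_le_div_right (Nat.mul_le_mul_right _ hy)
    rw [Nat.mul_div_cancel_left _ (by omega)] at this
    omega
  · calc y * J / N * N / J ≤ y * J / J := Nat.div_le_div_right (Nat.div_mul_le_self _ _)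
      _ = y := Nat.mul_div_cancel _ (by omega)
  · have h0 : y * J / N * N / J ≤ y := by
      calc y * J / N * N / J ≤ y * J / J := Nat.div_le_div_right (Nat.div_mul_le_self _ _)
        _ = y := Nat.mul_div_cancel _ (by omega)
    have h1 : y * J < N * (y * J / N + 1) := Nat.lt_mul_div_succ _ (by omega)
    have h2 : y * J / N * N < J * (y * J / N * N / J + 1) := Nat.lt_mul_div_succ _ (by omega)
    set a := y * J / N with ha
    set b := a * N / J with hb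
    rw [Nat.cast_sub h0]
    have h3 : y * J < (b + 1) * J + N := by nlinarith
    have h4 : (y : ℝ) * J < (b + 1) * J + N := by exact_mod_cast h3
    have hJ' : (0 : ℝ) < J := by exact_mod_cast hJ
    have h5 : (y : ℝ) < b + 1 + N / J := by
      rw [← mul_lt_mul_iff_left₀ hJ', add_mul (b + 1 : ℝ), div_mul_cancel₀ _ hJ'.ne']
      exact h4
    linarith

theorem numer (C₀ L Hk N Q J : ℝ) (A : ℕ) (hC₀ : 1 ≤ C₀) (hL : 100 * C₀ ≤ L) (hHk : 0 ≤ Hk) (hN : 0 ≤ N)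
    (hQ0 : 0 ≤ Q) (hQ : Q * L ^ (2 * A + 4) ≤ N) (hJ1 : L ^ (A + 2) ≤ J) (hJ2 : J ≤ L ^ (A + 2) + 1) :
    2 * ((J + 1) * (C₀ * Hk * (Q * N + N ^ 2 * (1 + L) ^ 2 / L ^ (2 * A + 6)))) +
      Hk * (4 * (N / J) ^ 2 * (1 + L) + 16 * Q ^ 2) ≤ Hk * N ^ 2 / L ^ A := by
  have hL1 : 100 ≤ L := by linarith
  have hL0 : 0 < L := by linarith
  have hu1 : 1 ≤ L ^ A := one_le_pow₀ (by linarith)
  set u := L ^ A with hu
  have hv : L ^ (A + 2) = u * L ^ 2 := by rw [hu, pow_add]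
  have hB : L ^ (2 * A + 4) = u * u * L ^ 4 := by rw [hu]; ring
  have hA2 : L ^ (2 * A + 6) = u * u * L ^ 6 := by rw [hu]; ring
  rw [hv] at hJ1 hJ2
  rw [hB] at hQ
  rw [hA2]
  have hu0 : 0 < u := by linarith
  have hJ0 : 0 < J := lt_of_lt_of_le (by positivity) hJ1
  have hJ3 : J + 1 ≤ 3 * (u * L ^ 2) := by nlinarith
  have hL2 : 10000 * C₀ ≤ L ^ 2 := by nlinarith
  -- the first piece
  have p1 : 2 * ((J + 1) * (C₀ * Hk * (Q * N))) ≤ Hk * N ^ 2 / u / 4 := by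
    have h1 : Q ≤ N / (u * u * L ^ 4) := by
      rw [le_div_iff₀ (by positivity)]; exact hQ
    calc 2 * ((J + 1) * (C₀ * Hk * (Q * N)))
        ≤ 2 * ((3 * (u * L ^ 2)) * (C₀ * Hk * ((N / (u * u * L ^ 4)) * N))) := by gcongr
      _ = 6 * C₀ / L ^ 2 * (Hk * N ^ 2 / u) := by field_simp; ring
      _ ≤ 1 / 4 * (Hk * N ^ 2 / u) := by
          refine mul_le_mul_of_nonneg_right ?_ (by positivity)
          rw [div_le_iff₀ (by positivity)]
          linarith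
      _ = _ := by ring
  have p2 : 2 * ((J + 1) * (C₀ * Hk * (N ^ 2 * (1 + L) ^ 2 / (u * u * L ^ 6)))) ≤
      Hk * N ^ 2 / u / 4 := by
    have h1 : (1 + L) ^ 2 ≤ 4 * L ^ 2 := by nlinarith
    calc 2 * ((J + 1) * (C₀ * Hk * (N ^ 2 * (1 + L) ^ 2 / (u * u * L ^ 6))))
        ≤ 2 * ((3 * (u * L ^ 2)) * (C₀ * Hk * (N ^ 2 * (4 * L ^ 2) / (u * u * L ^ 6)))) := by
          gcongr
      _ = 24 * C₀ / L ^ 2 * (Hk * N ^ 2 / u) := by field_simp; ring
      _ ≤ 1 / 4 * (Hk * N ^ 2 / u) := by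
          refine mul_le_mul_of_nonneg_right ?_ (by positivity)
          rw [div_le_iff₀ (by positivity)]
          linarith
      _ = _ := by ring
  have p3 : Hk * (4 * (N / J) ^ 2 * (1 + L)) ≤ Hk * N ^ 2 / u / 4 := by
    calc Hk * (4 * (N / J) ^ 2 * (1 + L)) ≤ Hk * (4 * (N / (u * L ^ 2)) ^ 2 * (2 * L)) := by
          gcongr
          linarith
      _ = 8 / L ^ 3 * (1 / u) * (Hk * N ^ 2 / u) := by field_simp; ring
      _ ≤ 1 / 4 * 1 * (Hk * N ^ 2 / u) := by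
          refine mul_le_mul_of_nonneg_right ?_ (by positivity)
          refine mul_le_mul ?_ ?_ (by positivity) (by norm_num)
          · rw [div_le_iff₀ (by positivity)]
            have : (100 : ℝ) ^ 3 ≤ L ^ 3 := by gcongr
            linarith
          · rw [div_le_one hu0]; exact hu1
      _ = _ := by ring
  have p4 : Hk * (16 * Q ^ 2) ≤ Hk * N ^ 2 / u / 4 := by
    have h1 : Q ≤ N / (u * u * L ^ 4) := by
      rw [le_div_iff₀ (by positivity)]; exact hQ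
    calc Hk * (16 * Q ^ 2) ≤ Hk * (16 * (N / (u * u * L ^ 4)) ^ 2) := by gcongr
      _ = 16 / L ^ 8 * (1 / (u ^ 3)) * (Hk * N ^ 2 / u) := by field_simp
      _ ≤ 1 / 4 * 1 * (Hk * N ^ 2 / u) := by
          refine mul_le_mul_of_nonneg_right ?_ (by positivity)
          refine mul_le_mul ?_ ?_ (by positivity) (by norm_num)
          · rw [div_le_iff₀ (by positivity)]
            have : (100 : ℝ) ^ 8 ≤ L ^ 8 := by gcongr
            linarith
          · rw [div_le_one (by positivity)]; exact one_le_pow₀ hu1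
      _ = _ := by ring
  have e : 2 * ((J + 1) * (C₀ * Hk * (Q * N + N ^ 2 * (1 + L) ^ 2 / (u * u * L ^ 6)))) +
      Hk * (4 * (N / J) ^ 2 * (1 + L) + 16 * Q ^ 2) =
      2 * ((J + 1) * (C₀ * Hk * (Q * N))) +
      2 * ((J + 1) * (C₀ * Hk * (N ^ 2 * (1 + L) ^ 2 / (u * u * L ^ 6)))) +
      Hk * (4 * (N / J) ^ 2 * (1 + L)) + Hk * (16 * Q ^ 2) := by ring
  rw [e]
  linarith

theorem sum_pi (H : ℕ) (G : (Fin 1 → ℕ) → ℝ) :
    ∑ h ∈ Fintype.piFinset (fun _ : Fin 1 => Icc 1 H), G h = ∑ h ∈ Icc 1 H, G (fun _ => h) := by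
  refine Finset.sum_nbij' (fun h => h 0) (fun a => fun _ => a) ?_ ?_ ?_ ?_ ?_
  · intro h hh
    exact Fintype.mem_piFinset.1 hh 0
  · intro a ha
    exact Fintype.mem_piFinset.2 fun _ => ha
  · intro h _
    funext i
    rw [Subsingleton.elim i 0]
  · intro a _
    rfl
  · intro h _
    congr 1
    funext i
    rw [Subsingleton.elim i 0]

theorem norm_sw_shift (F : ℤ → ℝ) (c : ℤ) (H : ℕ) (x : ℤ) (α : ℝ) :
    ‖sw (fun m => F (m + c)) H x α‖ = ‖sw F H (x + c) α‖ := by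
  have h1 : sw F H (x + c) α = ee (c * α) * sw (fun m => F (m + c)) H x α := by
    unfold sw
    rw [Finset.mul_sum]
    symm
    refine Finset.sum_nbij' (fun m => m + c) (fun m => m - c) ?_ ?_ ?_ ?_ ?_
    · intro m hm
      rw [mem_Ioc] at hm ⊢
      omega
    · intro m hm
      rw [mem_Ioc] at hm ⊢
      omega
    · intro m _
      ring
    · intro m _
      ring
    · intro m _
      have h2 : ee (((m + c : ℤ) : ℝ) * α) = ee (c * α) * ee (m * α) := by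
        rw [← Pool.Agent.H807R2.Dav.ee_add]
        congr 1
        push_cast
        ring
      rw [h2]
      ring
  rw [h1, norm_mul, Pool.Agent.H807R2.Dav.norm_ee, one_mul]

theorem abs_liI (m : ℤ) : |liI m| ≤ 1 := by
  unfold liI
  split_ifs
  · rw [abs_pow, abs_neg, abs_one, one_pow]
  · simp

theorem abs_muI (m : ℤ) : |muI m| ≤ 1 := by
  unfold muI
  split_ifs
  · have h := ArithmeticFunction.abs_moebius_le_one (n := m.toNat)
    exact_mod_cast h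
  · simp

/-- the case of bounded weights -/
theorem bounded : ∀ θ : ℝ, 0 ≤ θ → S_MKLT θ → S_MKMT θ → S_TUP →
    ∀ e A C : ℕ, 1 ≤ e → ∃ N₀ : ℕ, ∀ N : ℕ, N₀ ≤ N → ∀ H : ℕ,
    (N : ℝ) ^ (θ + 1 / e : ℝ) ≤ H → H ≤ N → ∀ c : ℤ, |(c : ℝ)| ≤ C * N →
    ∀ Q : ℕ, (Q : ℝ) * (Real.log N) ^ (2 * A + 4) ≤ N →
    ∀ f : ℤ → ℝ, (f = liI ∨ f = muI) → ∀ w : ℕ → ℂ, (∀ n, ‖w n‖ ≤ 1) →
    ∀ y : ℕ → ℕ → ℕ → ℕ, (∀ h q r, y h q r ≤ N) →
    ∑ h ∈ Icc 1 H, ∑ q ∈ Icc 1 Q, ∑ r ∈ range q,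
      ‖DD w (fun m => f (m + c)) h q r (y h q r)‖ ^ 2 ≤ (H : ℝ) * (N : ℝ) ^ 2 / (Real.log N) ^ A := by
  intro θ hθ hL hM hT e A C he
  obtain ⟨C₁, hC₁, htup⟩ := hT
  obtain ⟨X₁, hX₁⟩ := hL (2 * e) (2 * (2 * A + 6)) (by omega)
  obtain ⟨X₂, hX₂⟩ := hM (2 * e) (2 * (2 * A + 6)) (by omega)
  obtain ⟨D, hD⟩ : ∃ D : ℝ, D = (C : ℝ) + 6 := ⟨_, rfl⟩
  have hD6 : 6 ≤ D := by
    rw [hD]
    have : (0 : ℝ) ≤ C := Nat.cast_nonneg _
    linarith
  obtain ⟨C₀, hC₀def⟩ : ∃ C₀ : ℝ, C₀ = C₁ * D := ⟨_, rfl⟩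
  have hC₀ : 1 ≤ C₀ := by
    rw [hC₀def]
    nlinarith
  obtain ⟨s, hs⟩ : ∃ s : ℝ, s = θ + 1 / ((2 * e : ℕ) : ℝ) := ⟨_, rfl⟩
  have he0 : (0 : ℝ) < e := by exact_mod_cast he
  have hs0 : 0 ≤ s := by
    rw [hs]
    positivity
  refine ⟨max (max (max X₁ X₂) (max 2 ⌈Real.exp (100 * C₀)⌉₊)) ⌈(D ^ s) ^ (2 * e)⌉₊, ?_⟩
  intro N hN' H hH1 hH2 c hc Q hQ f hf w hw y hy
  have hN := (le_max_left _ _).trans hN'
  have hN5 : (D ^ s) ^ (2 * e) ≤ N :=
    (Nat.le_ceil _).trans (by exact_mod_cast (le_max_right _ _).trans hN')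
  have hNX₁ : X₁ ≤ N := ((le_max_left _ _).trans (le_max_left _ _)).trans hN
  have hNX₂ : X₂ ≤ N := ((le_max_right _ _).trans (le_max_left _ _)).trans hN
  have hN2 : 2 ≤ N := ((le_max_left _ _).trans (le_max_right _ _)).trans hN
  have hN3 : ⌈Real.exp (100 * C₀)⌉₊ ≤ N := ((le_max_right _ _).trans (le_max_right _ _)).trans hN
  have hN4 : Real.exp (100 * C₀) ≤ N := (Nat.le_ceil _).trans (by exact_mod_cast hN3)
  have hN0 : (0 : ℝ) < N := by have : 0 < N := by omega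
                               exact_mod_cast this
  have hL100 : 100 * C₀ ≤ Real.log N := by
    rw [Real.le_log_iff_exp_le hN0]; exact hN4
  have hH0 : 1 ≤ H := by
    have h1 : (0 : ℝ) < (N : ℝ) ^ (θ + 1 / e : ℝ) := Real.rpow_pos_of_pos hN0 _
    have h2 : (0 : ℝ) < H := lt_of_lt_of_le h1 hH1
    exact_mod_cast h2
  obtain ⟨L, hLdef⟩ : ∃ L, L = Real.log N := ⟨_, rfl⟩
  rw [← hLdef] at hL100 hQ ⊢
  have hL0 : 0 < L := by linarith
  have hL1 : 1 ≤ L := by linarith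
  -- the length of the large interval
  obtain ⟨X, hX⟩ : ∃ X : ℕ, X = (C + 3) * N + 3 := ⟨_, rfl⟩
  have hNX : N ≤ X := by
    rw [hX]
    nlinarith
  have hXD : (X : ℝ) ≤ D * N := by
    rw [hX, hD]
    push_cast
    have : (2 : ℝ) ≤ N := by exact_mod_cast hN2
    nlinarith
  have hcN : |c| ≤ C * N := by exact_mod_cast hc
  have hXint : (X : ℤ) = (C + 3) * N + 3 := by rw [hX]; push_cast; ring
  have hXN : (0 : ℝ) < X := lt_of_lt_of_le hN0 (by exact_mod_cast hNX)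
  have hXH : (X : ℝ) ^ (θ + 1 / ((2 * e : ℕ) : ℝ)) ≤ H := by
    refine le_trans ?_ hH1
    rw [← hs]
    have h1 : (θ + 1 / e : ℝ) = s + 1 / (2 * e : ℝ) := by
      rw [hs]
      push_cast
      field_simp
      ring
    rw [h1, Real.rpow_add hN0]
    calc (X : ℝ) ^ s ≤ (D * N) ^ s := Real.rpow_le_rpow hXN.le hXD hs0
      _ = N ^ s * D ^ s := by rw [Real.mul_rpow (by linarith) hN0.le, mul_comm]
      _ ≤ N ^ s * (N : ℝ) ^ (1 / (2 * e : ℝ)) := by
          refine mul_le_mul_of_nonneg_left ?_ (Real.rpow_nonneg hN0.le _)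
          have hDs : 0 ≤ D ^ s := Real.rpow_nonneg (by linarith) _
          have h2 : D ^ s = ((D ^ s) ^ (2 * e)) ^ (1 / (2 * e : ℝ)) := by
            rw [← Real.rpow_natCast (D ^ s), ← Real.rpow_mul hDs]
            push_cast
            rw [mul_one_div_cancel (by positivity), Real.rpow_one]
          rw [h2]
          exact Real.rpow_le_rpow (pow_nonneg hDs _) hN5 (by positivity)
  -- the restriction of `f`
  let Fz : ℤ → ℝ := fun m => if 0 < m ∧ m ≤ (X : ℤ) then f m else 0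
  have hS0 : ∀ α : ℝ, ∑ x ∈ Icc (-(X : ℤ)) X, ‖sw Fz H x α‖ ^ 2 ≤
      X * (H : ℝ) ^ 2 / (Real.log X) ^ (2 * (2 * A + 6)) := by
    intro α
    rcases hf with hf | hf
    · have hg : Fz = fun m => if 0 < m ∧ m ≤ (X : ℤ) then liI m else 0 := by
        funext m
        show (if 0 < m ∧ m ≤ (X : ℤ) then f m else 0) = _
        rw [hf]
      rw [hg]
      exact hX₁ X (hNX₁.trans hNX) H hXH (hH2.trans hNX) 0 X α
    · have hg : Fz = fun m => if 1 ≤ m ∧ 0 < m ∧ m ≤ (X : ℤ) then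
          ((ArithmeticFunction.moebius m.toNat : ℤ) : ℝ) else 0 := by
        funext m
        show (if 0 < m ∧ m ≤ (X : ℤ) then f m else 0) = _
        by_cases h : 0 < m ∧ m ≤ (X : ℤ)
        · rw [if_pos h, if_pos ⟨by omega, h⟩, hf]
          unfold muI
          rw [if_pos (by omega)]
        · rw [if_neg h, if_neg (fun h' => h h'.2)]
      rw [hg]
      exact hX₂ X (hNX₂.trans hNX) H hXH (hH2.trans hNX) 0 X α
  have hS : ∀ α : ℝ, ∑ x ∈ Icc (1 : ℤ) N, ‖sw (fun m => Fz (m + c)) H x α‖ ^ 2 ≤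
      D ^ 2 * N * (H : ℝ) ^ 2 / L ^ (2 * (2 * A + 6)) := by
    intro α
    have h1 : ∑ x ∈ Icc (1 : ℤ) N, ‖sw (fun m => Fz (m + c)) H x α‖ ^ 2 ≤
        ∑ x ∈ Icc (-(X : ℤ)) X, ‖sw Fz H x α‖ ^ 2 := by
      have h2 : ∑ x ∈ Icc (1 : ℤ) N, ‖sw (fun m => Fz (m + c)) H x α‖ ^ 2 =
          ∑ x ∈ Icc (1 + c) (N + c), ‖sw Fz H x α‖ ^ 2 := by
        refine Finset.sum_nbij' (fun x => x + c) (fun x => x - c) ?_ ?_ ?_ ?_ ?_
        · intro m hm
          rw [mem_Icc] at hm ⊢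
          omega
        · intro m hm
          rw [mem_Icc] at hm ⊢
          omega
        · intro m _
          ring
        · intro m _
          ring
        · intro x _
          rw [norm_sw_shift]
      rw [h2]
      refine Finset.sum_le_sum_of_subset_of_nonneg (Finset.Icc_subset_Icc ?_ ?_)
        (fun _ _ _ => by positivity)
      · have h3 := (abs_le.1 hcN).1
        rw [hXint]
        nlinarith
      · have h3 := (abs_le.1 hcN).2
        rw [hXint]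
        nlinarith
    refine h1.trans ((hS0 α).trans ?_)
    have h4 : L ≤ Real.log X := by
      rw [hLdef]
      exact Real.log_le_log hN0 (by exact_mod_cast hNX)
    have h5 : (X : ℝ) ≤ D ^ 2 * N := by nlinarith
    gcongr
  have hfle : ∀ m, |f m| ≤ 1 := by
    rcases hf with hf | hf
    · rw [hf]; exact abs_liI
    · rw [hf]; exact abs_muI
  have hfz : ∀ m : ℤ, 1 ≤ m → m ≤ 2 * N → Fz (m + c) = f (m + c) := by
    intro m h1 h2
    show (if 0 < m + c ∧ m + c ≤ (X : ℤ) then f (m + c) else 0) = _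
    have h5 : m + c ≤ (X : ℤ) := by
      have h3 := (abs_le.1 hcN).2
      rw [hXint]
      nlinarith
    by_cases h : 0 < m + c
    · rw [if_pos ⟨h, h5⟩]
    · rw [if_neg (fun h' => h h'.1)]
      rcases hf with hf | hf
      · rw [hf, liI, if_neg (by omega)]
      · rw [hf, muI, if_neg (by omega)]
  -- fixed initial segments
  have hfix : ∀ t : ℕ, t ≤ N →
      ∑ h ∈ Icc 1 H, ∑ q ∈ Icc 1 Q, ∑ r ∈ range q,
        ‖DD w (fun m => f (m + c)) h q r t‖ ^ 2 ≤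
      C₀ * (H : ℝ) * ((Q : ℝ) * N + (N : ℝ) ^ 2 * (1 + L) ^ 2 / L ^ (2 * A + 6)) := by
    intro t ht
    have h1 := htup 1 (fun _ m => ((fun m => Fz (m + c)) m : ℂ)) 0 (fun m => Fz (m + c))
      (fun n => if n ≤ t then w n else 0) N H Q 1
      (D ^ 2 * N * (H : ℝ) ^ 2 / L ^ (2 * (2 * A + 6))) 1 hN2 hH0 hH2 zero_le_one zero_le_one
      (fun i m h1 h2 => by
        show ‖(Fz (m + c) : ℂ)‖ ≤ 1
        rw [hfz m h1 h2, Complex.norm_real]
        exact hfle _)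
      (fun n => by
        show ‖(if n ≤ t then w n else 0 : ℂ)‖ ≤ 1
        split_ifs
        · exact hw n
        · simp) (fun m => rfl) hS
    rw [sum_pi] at h1
    refine le_trans (le_of_eq ?_) (h1.trans ?_)
    · refine sum_congr rfl fun h hh => sum_congr rfl fun q _ => sum_congr rfl fun r _ => ?_
      rw [← DD_eq w (fun m => f (m + c)) (fun m => Fz (m + c)) h q r t N H ht hH2 hh hfz]
    · have e1 : D ^ 2 * N * (H : ℝ) ^ 2 / L ^ (2 * (2 * A + 6)) * N =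
          (D * N * H / L ^ (2 * A + 6)) ^ 2 := by
        rw [div_pow, mul_pow, mul_pow, ← pow_mul, mul_comm (2 * A + 6) 2]
        ring
      rw [e1, Real.sqrt_sq (by positivity), ← hLdef, Nat.sub_self, pow_zero]
      have e2 : C₁ * 1 ^ 2 * 1 * ((Q : ℝ) * N * H * 1 ^ 2 + N * (1 + L) ^ 2 *
          (D * N * H / L ^ (2 * A + 6)) * 1) =
          C₁ * H * (Q * N) + C₁ * D * H * (N ^ 2 * (1 + L) ^ 2 / L ^ (2 * A + 6)) := by ring
      rw [e2, hC₀def, mul_add]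
      refine add_le_add ?_ le_rfl
      have : C₁ ≤ C₁ * D := by nlinarith
      gcongr
  -- the grid
  obtain ⟨J, hJdef⟩ : ∃ J, J = ⌈L ^ (A + 2)⌉₊ := ⟨_, rfl⟩
  have hJge : L ^ (A + 2) ≤ J := by rw [hJdef]; exact Nat.le_ceil _
  have hJle : (J : ℝ) ≤ L ^ (A + 2) + 1 := by
    rw [hJdef]; exact (Nat.ceil_lt_add_one (by positivity)).le
  have hJ0 : (0 : ℝ) < J := lt_of_lt_of_le (by positivity) hJge
  have hJ1 : 1 ≤ J := by exact_mod_cast hJ0
  have hpt : ∀ h, ∀ q ∈ Icc 1 Q, ∀ r, ‖DD w (fun m => f (m + c)) h q r (y h q r)‖ ^ 2 ≤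
      2 * ∑ i ∈ range (J + 1), ‖DD w (fun m => f (m + c)) h q r (i * N / J)‖ ^ 2 +
        (4 * ((N : ℝ) / J) ^ 2 * (1 / (q : ℝ)) ^ 2 + 16) := by
    intro h q hq r
    rw [mem_Icc] at hq
    have hq0 : (0 : ℝ) < q := by have : 0 < q := by omega
                                 exact_mod_cast this
    have hq1 : (1 : ℝ) ≤ q := by exact_mod_cast hq.1
    obtain ⟨i, hi, h1, h2⟩ := grid N J (y h q r) (by omega) hJ1 (hy h q r)
    have h3 := DD_diff w (fun m => f (m + c)) hw (fun m => hfle _) h q r (i * N / J) (y h q r) hq.1 h1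
    have h4 : (((y h q r - i * N / J) / q : ℕ) : ℝ) ≤ (N : ℝ) / J * (1 / q) + 1 := by
      calc (((y h q r - i * N / J) / q : ℕ) : ℝ) ≤ ((y h q r - i * N / J : ℕ) : ℝ) / q :=
            Nat.cast_div_le
        _ ≤ (1 + (N : ℝ) / J) / q := by gcongr
        _ = 1 / q + (N : ℝ) / J * (1 / q) := by ring
        _ ≤ 1 + (N : ℝ) / J * (1 / q) := by
            gcongr
            rw [div_le_one hq0]; exact hq1
        _ = _ := by ring
    have h5 : ‖DD w (fun m => f (m + c)) h q r (i * N / J)‖ ^ 2 ≤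
        ∑ i ∈ range (J + 1), ‖DD w (fun m => f (m + c)) h q r (i * N / J)‖ ^ 2 :=
      Finset.single_le_sum (f := fun i => ‖DD w (fun m => f (m + c)) h q r (i * N / J)‖ ^ 2)
        (fun _ _ => by positivity) hi
    have h6 : ‖DD w (fun m => f (m + c)) h q r (y h q r)‖ ≤ ‖DD w (fun m => f (m + c)) h q r (i * N / J)‖ +
        ((N : ℝ) / J * (1 / q) + 2) := by linarith
    have h7 : 0 ≤ ‖DD w (fun m => f (m + c)) h q r (y h q r)‖ := norm_nonneg _
    have h8 : 4 * ((N : ℝ) / J) ^ 2 * (1 / (q : ℝ)) ^ 2 = 4 * ((N : ℝ) / J * (1 / q)) ^ 2 := by ring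
    rw [h8]
    have h9 : 0 ≤ (N : ℝ) / J * (1 / q) := by positivity
    generalize (N : ℝ) / J * (1 / q) = a at *
    generalize ‖DD w (fun m => f (m + c)) h q r (i * N / J)‖ = u at *
    generalize ‖DD w (fun m => f (m + c)) h q r (y h q r)‖ = v at *
    have h10 : v ^ 2 ≤ (u + (a + 2)) ^ 2 := pow_le_pow_left₀ h7 h6 2
    nlinarith [sq_nonneg (u - (a + 2)), sq_nonneg (a - 2)]
  have hQN : (Q : ℝ) ≤ N := by
    have h1 : (1 : ℝ) ≤ L ^ (2 * A + 4) := one_le_pow₀ hL1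
    have h2 : (0 : ℝ) ≤ Q := Nat.cast_nonneg _
    nlinarith
  have hlogQ : Real.log Q ≤ L := by
    rcases Nat.eq_zero_or_pos Q with h | h
    · rw [h, Nat.cast_zero, Real.log_zero]; exact hL0.le
    · rw [hLdef]
      exact Real.log_le_log (by exact_mod_cast h) hQN
  have hcs : ∑ q ∈ Icc 1 Q, ∑ _r ∈ range q, (4 * ((N : ℝ) / J) ^ 2 * (1 / (q : ℝ)) ^ 2 + 16) ≤
      4 * ((N : ℝ) / J) ^ 2 * (1 + L) + 16 * (Q : ℝ) ^ 2 := by
    have h1 : ∀ q ∈ Icc 1 Q, ∑ _r ∈ range q, (4 * ((N : ℝ) / J) ^ 2 * (1 / (q : ℝ)) ^ 2 + 16) ≤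
        4 * ((N : ℝ) / J) ^ 2 * (1 / (q : ℝ)) + 16 * (Q : ℝ) := by
      intro q hq
      rw [mem_Icc] at hq
      have hq0 : (0 : ℝ) < q := by have : 0 < q := by omega
                                   exact_mod_cast this
      have hqQ : (q : ℝ) ≤ Q := by exact_mod_cast hq.2
      rw [sum_const, card_range, nsmul_eq_mul]
      have : (q : ℝ) * (4 * ((N : ℝ) / J) ^ 2 * (1 / (q : ℝ)) ^ 2 + 16) =
          4 * ((N : ℝ) / J) ^ 2 * (1 / (q : ℝ)) + 16 * q := by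
        field_simp
      rw [this]
      linarith
    refine (sum_le_sum h1).trans ?_
    rw [sum_add_distrib, ← mul_sum, sum_const, Nat.card_Icc, Nat.add_sub_cancel, nsmul_eq_mul]
    have h2 := harm Q
    have h3 : 4 * ((N : ℝ) / J) ^ 2 * ∑ q ∈ Icc 1 Q, (1 / (q : ℝ)) ≤
        4 * ((N : ℝ) / J) ^ 2 * (1 + L) :=
      mul_le_mul_of_nonneg_left (by linarith) (by positivity)
    have h4 : (Q : ℝ) * (16 * Q) = 16 * (Q : ℝ) ^ 2 := by ring
    linarith
  have hcard : ((Icc 1 H).card : ℝ) = (H : ℝ) := by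
    rw [Nat.card_Icc, Nat.add_sub_cancel]
  -- the sum
  have hswap : ∑ h ∈ Icc 1 H, ∑ q ∈ Icc 1 Q,
      ∑ r ∈ range q, ∑ i ∈ range (J + 1), ‖DD w (fun m => f (m + c)) h q r (i * N / J)‖ ^ 2 =
      ∑ i ∈ range (J + 1), ∑ h ∈ Icc 1 H,
        ∑ q ∈ Icc 1 Q, ∑ r ∈ range q, ‖DD w (fun m => f (m + c)) h q r (i * N / J)‖ ^ 2 := by
    rw [sum_comm (s := range (J + 1))]
    refine sum_congr rfl fun h _ => ?_
    rw [sum_comm (s := range (J + 1))]
    refine sum_congr rfl fun q _ => ?_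
    rw [sum_comm (s := range (J + 1))]
  calc ∑ h ∈ Icc 1 H, ∑ q ∈ Icc 1 Q, ∑ r ∈ range q,
        ‖DD w (fun m => f (m + c)) h q r (y h q r)‖ ^ 2
      ≤ ∑ h ∈ Icc 1 H, ∑ q ∈ Icc 1 Q, ∑ r ∈ range q,
        (2 * ∑ i ∈ range (J + 1), ‖DD w (fun m => f (m + c)) h q r (i * N / J)‖ ^ 2 +
          (4 * ((N : ℝ) / J) ^ 2 * (1 / (q : ℝ)) ^ 2 + 16)) :=
        sum_le_sum fun h _ => sum_le_sum fun q hq => sum_le_sum fun r _ => hpt h q hq r
    _ = 2 * (∑ i ∈ range (J + 1), ∑ h ∈ Icc 1 H,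
        ∑ q ∈ Icc 1 Q, ∑ r ∈ range q, ‖DD w (fun m => f (m + c)) h q r (i * N / J)‖ ^ 2) +
        (H : ℝ) * ∑ q ∈ Icc 1 Q, ∑ _r ∈ range q,
          (4 * ((N : ℝ) / J) ^ 2 * (1 / (q : ℝ)) ^ 2 + 16) := by
        rw [← hswap]
        conv_rhs => rw [← hcard, ← nsmul_eq_mul, ← sum_const, mul_sum, ← sum_add_distrib]
        refine sum_congr rfl fun h _ => ?_
        rw [mul_sum, ← sum_add_distrib]
        refine sum_congr rfl fun q _ => ?_
        rw [mul_sum, ← sum_add_distrib]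
    _ ≤ 2 * (((J : ℝ) + 1) * (C₀ * (H : ℝ) *
          ((Q : ℝ) * N + (N : ℝ) ^ 2 * (1 + L) ^ 2 / L ^ (2 * A + 6)))) +
        (H : ℝ) * (4 * ((N : ℝ) / J) ^ 2 * (1 + L) + 16 * (Q : ℝ) ^ 2) := by
        refine add_le_add (mul_le_mul_of_nonneg_left ?_ (by norm_num))
          (mul_le_mul_of_nonneg_left hcs (by positivity))
        refine (sum_le_sum (g := fun _ => C₀ * (H : ℝ) *
          ((Q : ℝ) * N + (N : ℝ) ^ 2 * (1 + L) ^ 2 / L ^ (2 * A + 6))) fun i hi => hfix _ ?_).trans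
          (le_of_eq ?_)
        · rw [mem_range] at hi
          calc i * N / J ≤ J * N / J := Nat.div_le_div_right (Nat.mul_le_mul_right _ (by omega))
            _ = N := Nat.mul_div_cancel_left _ (by omega)
        · rw [sum_const, card_range, nsmul_eq_mul]
          push_cast
          ring
    _ ≤ (H : ℝ) * (N : ℝ) ^ 2 / L ^ A :=
        numer C₀ L ((H : ℝ)) N Q J A hC₀ hL100 (by positivity) hN0.le
          (Nat.cast_nonneg _) hQ hJge hJle



theorem main : ∀ θ : ℝ, 0 ≤ θ → S_MKLT θ → S_MKMT θ → S_TUP → S_R13 θ := by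
  intro θ hθ hL hM hT e A C he
  obtain ⟨N₀, hN₀⟩ := bounded θ hθ hL hM hT e (A + 2 * C) C he
  refine ⟨2 * (A + 2 * C) + 4, max N₀ 3, ?_⟩
  intro N hN H hH1 hH2 c hc Q hQ f hf w hw y hy
  have hN3 : 3 ≤ N := (le_max_right _ _).trans hN
  have hlog : 0 < Real.log N := Real.log_pos (by exact_mod_cast (by omega : 1 < N))
  obtain ⟨W, hW⟩ : ∃ W : ℝ, W = (Real.log N) ^ C := ⟨_, rfl⟩
  have hW0 : 0 < W := by rw [hW]; positivity
  rw [← hW] at hw
  have h1 := hN₀ N ((le_max_left _ _).trans hN) H hH1 hH2 c hc Q hQ f hf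
    (fun n => if n ≤ N then w n / W else 0) (fun n => by
      show ‖(if n ≤ N then w n / W else 0 : ℂ)‖ ≤ 1
      split_ifs with h
      · rw [norm_div, Complex.norm_real, Real.norm_eq_abs, abs_of_pos hW0, div_le_one hW0]
        exact hw n h
      · simp) y hy
  have h2 : ∀ h q r, ∑ n ∈ (Icc 1 (y h q r)).filter (fun n => n % q = r),
      w n * (f ((n : ℤ) + c + h) : ℂ) =
      W * DD (fun n => if n ≤ N then w n / W else 0) (fun m => f (m + c)) h q r (y h q r) := by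
    intro h q r
    rw [DD, Finset.mul_sum]
    refine sum_congr rfl fun n hn => ?_
    rw [mem_filter, mem_Icc] at hn
    have hnN : n ≤ N := hn.1.2.trans (hy h q r)
    have hWc : (W : ℂ) ≠ 0 := by exact_mod_cast hW0.ne'
    simp only [if_pos hnN]
    rw [← mul_assoc, mul_div_cancel₀ _ hWc, add_right_comm]
  calc ∑ h ∈ Icc 1 H, ∑ q ∈ Icc 1 Q, ∑ r ∈ range q,
        ‖∑ n ∈ (Icc 1 (y h q r)).filter (fun n => n % q = r), w n * (f ((n : ℤ) + c + h) : ℂ)‖ ^ 2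
      = W ^ 2 * ∑ h ∈ Icc 1 H, ∑ q ∈ Icc 1 Q, ∑ r ∈ range q,
        ‖DD (fun n => if n ≤ N then w n / W else 0) (fun m => f (m + c)) h q r (y h q r)‖ ^ 2 := by
        rw [mul_sum]
        refine sum_congr rfl fun h _ => ?_
        rw [mul_sum]
        refine sum_congr rfl fun q _ => ?_
        rw [mul_sum]
        refine sum_congr rfl fun r _ => ?_
        rw [h2, norm_mul, mul_pow, Complex.norm_real, Real.norm_eq_abs, sq_abs]
    _ ≤ W ^ 2 * ((H : ℝ) * (N : ℝ) ^ 2 / (Real.log N) ^ (A + 2 * C)) :=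
        mul_le_mul_of_nonneg_left h1 (by positivity)
    _ = (H : ℝ) * (N : ℝ) ^ 2 / (Real.log N) ^ A := by
        rw [hW, pow_add]
        have h3 : (Real.log N) ^ A ≠ 0 := pow_ne_zero _ hlog.ne'
        have h4 : (Real.log N) ^ C ≠ 0 := pow_ne_zero _ hlog.ne'
        field_simp
        ring

end Pool.Agent.helper24_UT.R13
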