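import Pool.Agent.helper24_UT.Ch7
import Pool.Agent.helper24_UT.R6c
import Pool.Agent.helper24_UT.R7
import Pool.Agent.helper24_UT.R13

/-!
# Project UT (helper24): assembly, part 8
-/

set_option autoImplicit false

namespace Pool.Agent.helper24_UT.Ch

theorem t_R6C : S_R6C (1 / 3) := R6c.main (1 / 3) (by norm_num) t_BDC Mtc.main t_SRT Slb.main
theorem t_R7 : S_R7 (1 / 3) := R7.main (1 / 3) (by norm_num) t_GOE Mtc.main t_SRT Slb.main
theorem t_R13 : S_R13 (1 / 3) := R13.main (1 / 3) (by norm_num) t_MKLT t_MKMT t_TUP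

end Pool.Agent.helper24_UT.Ch
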