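import Pool.Agent.helper24_UT.Stm19
import Pool.Agent.Results.MP_391708_nt.FullConstantInClasses
import Pool.Agent.H373R2.T7.LamZ2

set_option autoImplicit false

namespace Pool.Agent.helper24_UT.R23

open Finset Polynomial
open Pool.Agent.helper24_UT
open Pool.Agent.H373R2.T7 (pz Vz mem_pz Vz_pos Vz_inv_small)

lemma mem_om (a : ℤ) (p t : ℕ) : (∃ i : Fin 1, (p : ℤ) ∣ ((qp a) i).eval (t : ℤ)) ↔ (p : ℤ) ∣ (t : ℤ) ^ 2 + a := by
  unfold qp
  simp

lemma om_le (a : ℤ) (p : ℕ) (hp : p.Prime) : om (qp a) p ≤ 2 := by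
  classical
  unfold om
  by_cases hne : ∃ t0 ∈ range p, (p : ℤ) ∣ (t0 : ℤ) ^ 2 + a
  · obtain ⟨t0, ht0, hd0⟩ := hne
    have hsub : (range p).filter (fun t : ℕ => ∃ i : Fin 1, (p : ℤ) ∣ ((qp a) i).eval (t : ℤ)) ⊆ {t0, p - t0} := by
      intro t ht
      rw [mem_filter, mem_om] at ht
      obtain ⟨ht1, ht2⟩ := ht
      rw [mem_range] at ht1 ht0
      rw [mem_insert, mem_singleton]
      have h1 : (p : ℤ) ∣ ((t : ℤ) - t0) * ((t : ℤ) + t0) := by
        have := dvd_sub ht2 hd0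
        have e : (t : ℤ) ^ 2 + a - ((t0 : ℤ) ^ 2 + a) = ((t : ℤ) - t0) * ((t : ℤ) + t0) := by ring
        rwa [e] at this
      rcases (Nat.prime_iff_prime_int.mp hp).dvd_or_dvd h1 with h2 | h2
      · left
        have h3 := Int.eq_zero_of_abs_lt_dvd h2 (by rw [abs_lt]; omega)
        omega
      · obtain ⟨c, hc⟩ := h2
        have hp0 : (0 : ℤ) < p := by exact_mod_cast hp.pos
        have hc0 : 0 ≤ c := by
          by_contra hneg
          have : c ≤ -1 := by omega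
          nlinarith
        have hc2 : c < 2 := by
          by_contra hneg
          have : 2 ≤ c := by omega
          nlinarith
        have hc3 : c = 0 ∨ c = 1 := by omega
        rcases hc3 with rfl | rfl
        · left; omega
        · right; omega
    exact (card_le_card hsub).trans card_le_two
  · have hem : (range p).filter (fun t : ℕ => ∃ i : Fin 1, (p : ℤ) ∣ ((qp a) i).eval (t : ℤ)) = ∅ := by
      rw [filter_eq_empty_iff]
      intro t ht h
      rw [mem_om] at h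
      exact hne ⟨t, ht, h⟩
    have : ((range p).filter (fun t : ℕ => ∃ i : Fin 1, (p : ℤ) ∣ ((qp a) i).eval (t : ℤ))).card = 0 := by
      rw [hem]; rfl
    omega

lemma om_two (a : ℤ) : om (qp a) 2 ≤ 1 := by
  classical
  unfold om
  by_contra hcon
  have h2 : ((range 2).filter (fun t : ℕ => ∃ i : Fin 1, ((2 : ℕ) : ℤ) ∣ ((qp a) i).eval (t : ℤ))) = range 2 := by
    apply eq_of_subset_of_card_le (filter_subset _ _)
    rw [card_range]; omega
  have h0 : (0 : ℕ) ∈ (range 2).filter (fun t : ℕ => ∃ i : Fin 1, ((2 : ℕ) : ℤ) ∣ ((qp a) i).eval (t : ℤ)) := by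
    rw [h2]; simp
  have h1 : (1 : ℕ) ∈ (range 2).filter (fun t : ℕ => ∃ i : Fin 1, ((2 : ℕ) : ℤ) ∣ ((qp a) i).eval (t : ℤ)) := by
    rw [h2]; simp
  rw [mem_filter, mem_om] at h0 h1
  have h3 := h0.2
  have h4 := h1.2
  push_cast at h3 h4
  omega

lemma sg_ge (a : ℤ) (z : ℕ) : Vz z ^ 2 ≤ sg z (qp a) := by
  unfold sg Vz
  rw [← prod_pow]
  apply prod_le_prod
  · intro p hp
    positivity
  · intro p hp
    have hp2 : 2 ≤ p := (mem_pz.1 hp).2.two_le
    have hpr := (mem_pz.1 hp).2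
    have hp2r : (2 : ℝ) ≤ p := by exact_mod_cast hp2
    have h0 : 0 < 1 - 1 / (p : ℝ) := by
      have : 1 / (p : ℝ) ≤ 1 / 2 := one_div_le_one_div_of_le (by norm_num) hp2r
      linarith
    rw [pow_one, le_div_iff₀ h0]
    rcases Nat.eq_or_lt_of_le hp2 with h | h
    · rw [← h]
      have h1 : ((om (qp a) 2 : ℕ) : ℝ) ≤ 1 := by exact_mod_cast om_two a
      push_cast
      linarith
    · have h3 : (3 : ℝ) ≤ p := by exact_mod_cast h
      have h4 : ((om (qp a) p : ℕ) : ℝ) ≤ 2 := by exact_mod_cast om_le a p hpr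
      have h5 : ((om (qp a) p : ℕ) : ℝ) / p ≤ 2 / p := div_le_div_of_nonneg_right h4 (by linarith)
      have h6 : (1 - 1 / (p : ℝ)) ^ 2 * (1 - 1 / (p : ℝ)) ≤ 1 - 2 / p := by
        have h7 : 1 - 2 / (p : ℝ) - (1 - 1 / (p : ℝ)) ^ 2 * (1 - 1 / (p : ℝ)) = ((p : ℝ) ^ 2 - 3 * p + 1) / (p : ℝ) ^ 3 := by
          field_simp
          ring
        have h8 : 0 ≤ ((p : ℝ) ^ 2 - 3 * p + 1) / (p : ℝ) ^ 3 := by
          apply div_nonneg
          · nlinarith
          · positivity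
        linarith
      linarith

/-- the formula with an absolute error -/
def GF (C X : ℕ) (a : ℤ) : Prop := ∃ H : ℝ, Filter.Tendsto (hcut a) Filter.atTop (nhds H) ∧
  ∀ y : ℕ, y ^ 2 ≤ X → |thq a y - H * y| ≤ Real.sqrt X / Real.log X ^ C

open Classical in
theorem aux (hfull : ∀ A C : ℕ, ∃ X₀ : ℕ, ∀ X : ℕ, X₀ ≤ X →
    (((Icc (-(X : ℤ)) X).filter (fun a => ¬ GF C X a)).card : ℝ) ≤ X / (Real.log X) ^ A) :
    ∀ θ : ℝ, 0 ≤ θ → θ ≤ 1 / 2 → S_THQ θ → S_R23 θ := by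
  intro θ hθ0 hθ1 hS e A he
  obtain ⟨e', he'⟩ : ∃ e' : ℕ, e' = max e 5 := ⟨_, rfl⟩
  have he'5 : 5 ≤ e' := by rw [he']; exact le_max_right _ _
  have he'e : e ≤ e' := by rw [he']; exact le_max_left _ _
  obtain ⟨E₀, hE⟩ := hS e' (A + 10) (by omega)
  obtain ⟨X₁, h1⟩ := hE (E₀ + 1)
  obtain ⟨X₂, h2⟩ := hfull (A + 10) (A + 10)
  obtain ⟨X₃, h3⟩ := Vz_inv_small (E₀ + 1)
  have hlim : Filter.Tendsto (fun N : ℕ => Real.log (N : ℝ)) Filter.atTop Filter.atTop :=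
    Real.tendsto_log_atTop.comp (tendsto_natCast_atTop_atTop (R := ℝ))
  obtain ⟨X₄, h4⟩ := Filter.eventually_atTop.1 (hlim.eventually_ge_atTop 8)
  obtain ⟨X₅, h5⟩ : ∃ X₅ : ℕ, ∀ X : ℕ, X₅ ≤ X → (X : ℝ) ^ (9 / 20 : ℝ) ≤ Nat.sqrt X := by
    have hl : Filter.Tendsto (fun N : ℕ => (N : ℝ) ^ (1 / 20 : ℝ)) Filter.atTop Filter.atTop :=
      (tendsto_rpow_atTop (by norm_num)).comp (tendsto_natCast_atTop_atTop (R := ℝ))
    obtain ⟨N0, hN0⟩ := Filter.eventually_atTop.1 (hl.eventually_ge_atTop 2)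
    refine ⟨N0 + 1, fun X hX => ?_⟩
    have h := hN0 X (by omega)
    have hX1 : (1 : ℝ) ≤ X := by exact_mod_cast (by omega : 1 ≤ X)
    have hs : (X : ℝ) ^ (1 / 2 : ℝ) ≤ Nat.sqrt X + 1 := by
      rw [← Real.sqrt_eq_rpow]
      apply Real.sqrt_le_iff.mpr
      refine ⟨by positivity, ?_⟩
      have := Nat.lt_succ_sqrt' X
      have h' : X < (Nat.sqrt X + 1) ^ 2 := this
      exact_mod_cast h'.le
    have hm : (X : ℝ) ^ (1 / 2 : ℝ) = (X : ℝ) ^ (9 / 20 : ℝ) * (X : ℝ) ^ (1 / 20 : ℝ) := by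
      rw [← Real.rpow_add (by linarith)]; norm_num
    have h9 : (1 : ℝ) ≤ (X : ℝ) ^ (9 / 20 : ℝ) := Real.one_le_rpow hX1 (by norm_num)
    nlinarith
  refine ⟨X₁ + X₂ + X₃ + X₄ + X₅ + 4, fun X hX => ?_⟩
  obtain ⟨L, hL⟩ : ∃ L : ℝ, L = Real.log X := ⟨_, rfl⟩
  have hL8 : 8 ≤ L := by rw [hL]; exact h4 X (by omega)
  have hX1 : (1 : ℝ) ≤ X := by exact_mod_cast (by omega : 1 ≤ X)
  obtain ⟨z, hz⟩ : ∃ z : ℕ, z = ⌈L ^ E₀⌉₊ := ⟨_, rfl⟩
  have hLE : 1 ≤ L ^ E₀ := one_le_pow₀ (by linarith)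
  have hz1 : L ^ E₀ ≤ z := by rw [hz]; exact Nat.le_ceil _
  have hz2 : (z : ℝ) ≤ L ^ (E₀ + 1) := by
    have : (z : ℝ) < L ^ E₀ + 1 := by rw [hz]; exact Nat.ceil_lt_add_one (by linarith)
    rw [pow_succ]
    nlinarith
  have hz3 : 1 ≤ z := by
    have : (1 : ℝ) ≤ z := hLE.trans hz1
    exact_mod_cast this
  have hB1 := h1 X (by omega) z (by rw [← hL]; exact hz1) (by rw [← hL]; exact hz2)
  have hB2 := h2 X (by omega)
  have hV := h3 X (by omega) z hz3 (by rw [← hL]; exact hz2)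
  rw [← hL] at hB1 hB2 hV
  have hVpos := Vz_pos z
  have hVL : 1 / L ≤ Vz z := by
    rw [div_le_iff₀ (by linarith)]
    have := mul_le_mul_of_nonneg_left hV hVpos.le
    rwa [mul_inv_cancel₀ hVpos.ne'] at this
  rw [← hL]
  set B1 := (Icc (-(X : ℤ)) X).filter (fun a => ∃ y : ℕ, (X : ℝ) ^ (θ / 2 + 1 / e' : ℝ) ≤ y ∧ y ^ 2 ≤ X ∧
    (y : ℝ) / L ^ (A + 10) < |thq a y - y * sg z (qp a)|) with hB1d
  set B2 := (Icc (-(X : ℤ)) X).filter (fun a => ¬ GF (A + 10) X a) with hB2d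
  have hsub : (Icc (-(X : ℤ)) X).filter (fun a => ¬ GoodQ θ e A X a) ⊆ B1 ∪ B2 := by
    intro a ha
    rw [mem_filter] at ha
    by_contra hnot
    rw [mem_union, not_or, hB1d, hB2d, mem_filter, mem_filter, not_and, not_and, not_not] at hnot
    obtain ⟨hn1, hn2⟩ := hnot
    have hn1' := hn1 ha.1
    obtain ⟨H, hH1, hH2⟩ := hn2 ha.1
    push Not at hn1'
    apply ha.2
    -- comparison at y0
    have hy0 : (X : ℝ) ^ (θ / 2 + 1 / e' : ℝ) ≤ Nat.sqrt X := by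
      refine le_trans ?_ (h5 X (by omega))
      apply Real.rpow_le_rpow_of_exponent_le hX1
      have : (1 : ℝ) / e' ≤ 1 / 5 := one_div_le_one_div_of_le (by norm_num) (by exact_mod_cast he'5)
      linarith
    have hsq : (Nat.sqrt X) ^ 2 ≤ X := Nat.sqrt_le' X
    have hc1 := hn1' (Nat.sqrt X) hy0 hsq
    have hc2 := hH2 (Nat.sqrt X) hsq
    rw [← hL] at hc2
    have hy01 : 1 ≤ Nat.sqrt X := by
      rw [Nat.le_sqrt']; omega
    have hy01r : (1 : ℝ) ≤ Nat.sqrt X := by exact_mod_cast hy01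
    have hsqrt : Real.sqrt X ≤ 2 * Nat.sqrt X := by
      apply Real.sqrt_le_iff.mpr
      refine ⟨by positivity, ?_⟩
      have h' : X < (Nat.sqrt X + 1) ^ 2 := Nat.lt_succ_sqrt' X
      have h'' : (X : ℝ) < ((Nat.sqrt X : ℕ) + 1 : ℝ) ^ 2 := by exact_mod_cast h'
      nlinarith
    have hLA : 0 < L ^ (A + 10) := by positivity
    obtain ⟨S, hSd⟩ : ∃ S : ℝ, S = sg z (qp a) := ⟨_, rfl⟩
    rw [← hSd] at hc1
    have hHS : |H - S| ≤ 3 / L ^ (A + 10) := by
      have h6 : |H - S| * (Nat.sqrt X : ℝ) ≤ 3 / L ^ (A + 10) * (Nat.sqrt X : ℝ) := by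
        have e1 : (H - S) * (Nat.sqrt X : ℝ) = (thq a (Nat.sqrt X) - (Nat.sqrt X : ℝ) * S) -
          (thq a (Nat.sqrt X) - H * (Nat.sqrt X : ℝ)) := by ring
        have e2 : |H - S| * (Nat.sqrt X : ℝ) = |(H - S) * (Nat.sqrt X : ℝ)| := by
          rw [abs_mul, abs_of_nonneg (by linarith : (0:ℝ) ≤ (Nat.sqrt X : ℝ))]
        rw [e2, e1]
        calc _ ≤ |thq a (Nat.sqrt X) - (Nat.sqrt X : ℝ) * S| + |thq a (Nat.sqrt X) - H * (Nat.sqrt X : ℝ)| := abs_sub _ _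
          _ ≤ (Nat.sqrt X : ℝ) / L ^ (A + 10) + Real.sqrt X / L ^ (A + 10) := add_le_add hc1 hc2
          _ ≤ (Nat.sqrt X : ℝ) / L ^ (A + 10) + (2 * Nat.sqrt X) / L ^ (A + 10) := by gcongr
          _ = 3 / L ^ (A + 10) * (Nat.sqrt X : ℝ) := by ring
      exact le_of_mul_le_mul_right h6 (by linarith)
    have hS2 : 1 / L ^ 2 ≤ S := by
      calc 1 / L ^ 2 = (1 / L) ^ 2 := by rw [div_pow, one_pow]
        _ ≤ Vz z ^ 2 := pow_le_pow_left₀ (by positivity) hVL 2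
        _ ≤ S := by rw [hSd]; exact sg_ge a z
    have hL2 : 0 < L ^ 2 := by positivity
    -- 16 / L^(A+10) ≤ 1 / L^(A+2)
    have hpw : 8 * L ^ (A + 2) ≤ L ^ (A + 10) := by
      have e1 : L ^ (A + 10) = L ^ (A + 2) * L ^ 8 := by rw [← pow_add]
      have e2 : 8 ≤ L ^ 8 := by
        calc (8 : ℝ) ≤ L := hL8
          _ = L ^ 1 := (pow_one L).symm
          _ ≤ L ^ 8 := pow_le_pow_right₀ (by linarith) (by norm_num)
      rw [e1, mul_comm]
      exact mul_le_mul_of_nonneg_left e2 (by positivity)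
    have hsm : 8 / L ^ (A + 10) ≤ 1 / L ^ (A + 2) := by
      rw [div_le_div_iff₀ hLA (by positivity)]
      linarith
    have hsm2 : 1 / L ^ (A + 2) ≤ 1 / L ^ 2 := by
      apply one_div_le_one_div_of_le hL2
      exact pow_le_pow_right₀ (by linarith) (by omega)
    have hHge : 1 / (2 * L ^ 2) ≤ H := by
      have h7 := (abs_le.mp hHS).1
      have e1 : 1 / (2 * L ^ 2) = 1 / L ^ 2 / 2 := by rw [div_div, mul_comm]
      have e2 : 3 / L ^ (A + 10) = 3 / 8 * (8 / L ^ (A + 10)) := by ring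
      have hv : 0 < 1 / L ^ 2 := by positivity
      rw [e1]
      rw [e2] at h7
      linarith
    have hH0 : 0 < H := lt_of_lt_of_le (by positivity) hHge
    refine ⟨H, hH0, hH1, ?_⟩
    intro y hy hyX
    rw [← hL]
    have hy' : (X : ℝ) ^ (θ / 2 + 1 / e' : ℝ) ≤ y := by
      refine le_trans ?_ hy
      apply Real.rpow_le_rpow_of_exponent_le hX1
      have : (1 : ℝ) / e' ≤ 1 / e := one_div_le_one_div_of_le (by exact_mod_cast he) (by exact_mod_cast he'e)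
      linarith
    have hc3 := hn1' y hy' hyX
    rw [← hSd] at hc3
    have hy0' : (0 : ℝ) ≤ y := Nat.cast_nonneg y
    calc |thq a y - H * y| = |(thq a y - y * S) + (S - H) * y| := by congr 1; ring
      _ ≤ |thq a y - y * S| + |(S - H) * y| := abs_add_le _ _
      _ = |thq a y - y * S| + |H - S| * y := by rw [abs_mul, abs_of_nonneg hy0', abs_sub_comm S H]
      _ ≤ y / L ^ (A + 10) + 3 / L ^ (A + 10) * y := by gcongr
      _ = y * (1 / 2 * (8 / L ^ (A + 10))) := by ring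
      _ ≤ y * (1 / 2 * (1 / L ^ (A + 2))) := by gcongr
      _ = (1 / (2 * L ^ 2)) * y / L ^ A := by
          rw [pow_add]; field_simp
      _ ≤ H * y / L ^ A := by gcongr
  have hcard : (((Icc (-(X : ℤ)) X).filter (fun a => ¬ GoodQ θ e A X a)).card : ℝ) ≤ B1.card + B2.card := by
    have := (card_le_card hsub).trans (card_union_le B1 B2)
    exact_mod_cast this
  calc (((Icc (-(X : ℤ)) X).filter (fun a => ¬ GoodQ θ e A X a)).card : ℝ) ≤ B1.card + B2.card := hcard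
    _ ≤ X / L ^ (A + 10) + X / L ^ (A + 10) := add_le_add hB1 hB2
    _ = X * (2 / L ^ (A + 10)) := by ring
    _ ≤ X * (1 / L ^ A) := by
        gcongr ?_ * ?_
        rw [div_le_div_iff₀ (by positivity) (by positivity)]
        have e1 : L ^ (A + 10) = L ^ A * L ^ 10 := by rw [← pow_add]
        have e2 : 2 ≤ L ^ 10 := by
          calc (2 : ℝ) ≤ L := by linarith
            _ = L ^ 1 := (pow_one L).symm
            _ ≤ L ^ 10 := pow_le_pow_right₀ (by linarith) (by norm_num)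
        rw [e1]
        have : 0 < L ^ A := by positivity
        nlinarith
    _ = X / L ^ A := by ring

theorem main : ∀ θ : ℝ, 0 ≤ θ → θ ≤ 1 / 2 → S_THQ θ → S_R23 θ := by
  classical
  apply aux
  intro A C
  obtain ⟨X₀, h0⟩ := Pool.Agent.Results.MP_391708_nt.FullConstantInClasses.result (1 / 4) (by norm_num) A C 0
  refine ⟨X₀ + 1, fun X hX => ?_⟩
  have hX1 : (1 : ℝ) ≤ X := by exact_mod_cast (by omega : 1 ≤ X)
  have h := h0 X (by omega) 1 le_rfl (by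
    rw [Nat.cast_one]
    exact Real.one_le_rpow hX1 (by norm_num)) (by simp) 0 (by simp)
  rw [Nat.cast_one, one_mul] at h
  refine le_trans ?_ h
  unfold Pool.Agent.Results.MP_391708_nt.FullConstantInClasses.exceptions
  have hsub : (Icc (-(X : ℤ)) X).filter (fun a => ¬ GF C X a) ⊆ (Icc (-(X : ℤ)) X).filter
      (fun a : ℤ => a ≡ 0 [ZMOD ((1 : ℕ) : ℤ)] ∧
        ¬ Pool.Agent.Results.MP_391708_nt.FullConstantInClasses.Good C X a) := by
    intro a ha
    rw [mem_filter] at ha ⊢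
    refine ⟨ha.1, ?_, ?_⟩
    · rw [Nat.cast_one]; exact Int.modEq_one
    · intro hg
      exact ha.2 hg.2
  exact_mod_cast card_le_card hsub

end Pool.Agent.helper24_UT.R23
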