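import Pool.Agent.helper24_UT.Stm18

/-!
# Project UT (helper24), part 19: few values of `n² + a` for almost all `a`. Statements.
-/

set_option autoImplicit false

namespace Pool.Agent.helper24_UT

open Finset Polynomial
open Pool.Agent.H373R2.T7 (lamI lamzI lamz Vz pz energy)

/-- the polynomial `X² + a` -/
noncomputable def qp (a : ℤ) : Fin 1 → ℤ[X] := fun _ => X ^ 2 + C a

/-- the sum of `log |n² + a|` over the `n`, `1 ≤ n ≤ y`, for which `|n² + a|` is prime -/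
noncomputable def thq (a : ℤ) (y : ℕ) : ℝ :=
  ∑ n ∈ Icc 1 y, if ((n : ℤ) ^ 2 + a).natAbs.Prime then Real.log (((n : ℤ) ^ 2 + a).natAbs : ℝ) else 0

/-- the product over the odd primes `w ≤ z` -/
noncomputable def hcut (a : ℤ) (z : ℕ) : ℝ := ∏ w ∈ (Icc 3 z).filter Nat.Prime, (1 - (jacobiSym (-a) w : ℝ) / ((w : ℝ) - 1))

open Classical in
/-- (210) primes minus model at the values of `n² + a`, `n ≤ y`, for almost all `a` and all `y` -/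
def S_SQE (θ : ℝ) : Prop := ∀ e A : ℕ, 1 ≤ e → ∃ E₀ : ℕ, ∀ E₁ : ℕ, ∃ X₀ : ℕ, ∀ X : ℕ, X₀ ≤ X → ∀ z : ℕ,
  (Real.log X) ^ E₀ ≤ z → (z : ℝ) ≤ (Real.log X) ^ E₁ →
  (((Icc (-(X : ℤ)) X).filter (fun a => ∃ y : ℕ, (X : ℝ) ^ (θ / 2 + 1 / e : ℝ) ≤ y ∧ y ^ 2 ≤ X ∧
    (y : ℝ) / (Real.log X) ^ A < |∑ n ∈ Icc 1 y, (Ed z ((n : ℤ) ^ 2 + a) + Ed z (-((n : ℤ) ^ 2 + a)))|)).card : ℝ) ≤
    X / (Real.log X) ^ A

open Classical in
/-- (211) the number of primes `|n² + a|` and the truncated product, for almost all `a` and all `y` -/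
def S_THQ (θ : ℝ) : Prop := ∀ e A : ℕ, 1 ≤ e → ∃ E₀ : ℕ, ∀ E₁ : ℕ, ∃ X₀ : ℕ, ∀ X : ℕ, X₀ ≤ X → ∀ z : ℕ,
  (Real.log X) ^ E₀ ≤ z → (z : ℝ) ≤ (Real.log X) ^ E₁ →
  (((Icc (-(X : ℤ)) X).filter (fun a => ∃ y : ℕ, (X : ℝ) ^ (θ / 2 + 1 / e : ℝ) ≤ y ∧ y ^ 2 ≤ X ∧
    (y : ℝ) / (Real.log X) ^ A < |thq a y - y * sg z (qp a)|)).card : ℝ) ≤ X / (Real.log X) ^ A

/-- the formula of Hardy and Littlewood for `n² + a`, `n ≤ y`, with the full constant, for all `y` in the range -/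
def GoodQ (θ : ℝ) (e A X : ℕ) (a : ℤ) : Prop := ∃ h : ℝ, 0 < h ∧ Filter.Tendsto (hcut a) Filter.atTop (nhds h) ∧
  ∀ y : ℕ, (X : ℝ) ^ (θ / 2 + 1 / e : ℝ) ≤ y → y ^ 2 ≤ X → |thq a y - h * y| ≤ h * y / (Real.log X) ^ A

open Classical in
/-- (212) the formula of Hardy and Littlewood with the full constant -/
def S_R23 (θ : ℝ) : Prop := ∀ e A : ℕ, 1 ≤ e → ∃ X₀ : ℕ, ∀ X : ℕ, X₀ ≤ X →
  (((Icc (-(X : ℤ)) X).filter (fun a => ¬ GoodQ θ e A X a)).card : ℝ) ≤ X / (Real.log X) ^ A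

end Pool.Agent.helper24_UT
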