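import Pool.Agent.helper24_UT.Stm7

/-!
# Project UT (helper24): primes at almost all systems of polynomials

Part 8: prime arguments. Statements.
-/

set_option autoImplicit false

namespace Pool.Agent.helper24_UT

open Finset Polynomial
open Pool.Agent.H373R2.T7 (lamI lamzI lamz Vz pz lamP)

/-- the number of the nonzero classes modulo `p` in which one of the polynomials vanishes -/
noncomputable def omp {k : ℕ} (F : Fin k → ℤ[X]) (p : ℕ) : ℕ :=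
  open Classical in ((range p).filter (fun t : ℕ => ¬ p ∣ t ∧ ∃ i, (p : ℤ) ∣ (F i).eval (t : ℤ))).card

/-- the Euler product over the primes `p ≤ z` for prime arguments -/
noncomputable def sgp {k : ℕ} (z : ℕ) (F : Fin k → ℤ[X]) : ℝ :=
  ∏ p ∈ pz z, (1 - (omp F p : ℝ) / ((p : ℝ) - 1)) / (1 - 1 / (p : ℝ)) ^ k

/-- (40) long sums of the model over primes -/
def S_MTP : Prop := ∀ k r E A m : ℕ, 1 ≤ m → ∃ H₀ : ℕ, ∀ H : ℕ, H₀ ≤ H → ∀ z : ℕ, 1 ≤ z → (z : ℝ) ≤ (Real.log H) ^ E →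
  ∀ F : Fin k → ℤ[X], (∀ i, (F i).natDegree ≤ r) → ∀ y : ℕ, Real.exp ((Real.log H) ^ (1 / m : ℝ)) ≤ y →
  |∑ n ∈ Icc 1 y, ArithmeticFunction.vonMangoldt n * ∏ i, lz z ((F i).eval (n : ℤ)) - y * sgp z F| ≤
    y / (Real.log H) ^ A

/-- (41) almost all choices, all lengths, prime arguments, weights with logarithms -/
def S_PSIP : Prop := ∀ k r e A m : ℕ, 1 ≤ e → 1 ≤ m → ∃ E₀ B : ℕ, ∀ E : ℕ, E₀ ≤ E → ∃ H₀ : ℕ, ∀ H : ℕ, H₀ ≤ H → ∀ T : ℕ, T ≤ H →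
  ∀ Q R : Fin k → ℕ, (∀ i, Rg e H (Q i) (R i) ∧ (Q i : ℝ) * T * (Real.log H) ^ B ≤ (R i : ℝ) ^ 2) →
  ∀ G : Fin k → ℤ[X], (∀ i, (G i).natDegree ≤ r) →
  (∀ i, ∀ n ∈ Icc 1 T, |(((G i).eval (n : ℤ) : ℤ) : ℝ)| * (Real.log H) ^ B ≤ Q i * (n + (Real.log H) ^ B / 2)) →
  ∃ Bad : Finset (Fin k → ℕ × ℕ), Bad ⊆ Bq Q R ∧ (Bad.card : ℝ) ≤ vq Q R / (Real.log H) ^ A ∧
    ∀ v ∈ Bq Q R, v ∉ Bad → (∀ i, (Q i : ℝ) / (Real.log H) ^ (A + 1) ≤ (v i).1) ∧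
      ∀ y : ℕ, Real.exp ((Real.log H) ^ (1 / m : ℝ)) ≤ y → y ≤ T →
      |∑ n ∈ Icc 1 y, lamP (n : ℤ) * ∏ i, lamP ((pl G v i).eval (n : ℤ)) - y * sgp ⌊(Real.log H) ^ E⌋₊ (pl G v)| ≤
        y / (Real.log H) ^ A

open Classical in
/-- (42) from the sums weighted by logarithms to the number of the primes, prime arguments (deterministic) -/
def S_INP : Prop := ∀ k e A m : ℕ, 1 ≤ e → 1 ≤ m → ∃ A' B H₀ : ℕ, A ≤ A' ∧ ∀ H : ℕ, H₀ ≤ H → ∀ y : ℕ,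
  Real.exp ((Real.log H) ^ (1 / m : ℝ)) ≤ y → y ≤ H → ∀ (Q b : Fin k → ℕ) (F : Fin k → ℕ → ℤ) (S : ℝ),
  (∀ i, (H : ℝ) ^ (1 / e : ℝ) ≤ Q i ∧ b i ≤ H ∧ (Q i : ℝ) / (Real.log H) ^ (A' + 1) ≤ b i) →
  (∀ i, ∀ n ∈ Icc 1 y, |((F i n - b i * n : ℤ) : ℝ)| * (Real.log H) ^ B ≤ Q i * (n + 2 * (Real.log H) ^ B)) →
  0 ≤ S → S ≤ (Real.log H) ^ (k + 2) →
  (∀ t : ℕ, Real.exp ((Real.log H) ^ (1 / (m + 1) : ℝ)) ≤ t → t ≤ y →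
    |∑ n ∈ Icc 1 t, lamP (n : ℤ) * ∏ i, lamP (F i n) - t * S| ≤ t / (Real.log H) ^ A') →
  |(((Icc 1 y).filter (fun n => n.Prime ∧ ∀ i, (F i n).natAbs.Prime)).card : ℝ) -
    S * (∑ n ∈ Icc 2 y, 1 / Real.log n * ∏ i, 1 / Real.log (abs ((F i n : ℤ) : ℝ)))| ≤ y / (Real.log H) ^ A

/-- the linear polynomials `a i + d i X` -/
noncomputable def lin {k : ℕ} (a : Fin k → ℤ) (d : Fin k → ℕ) (i : Fin k) : ℤ[X] := C (a i) + C (d i : ℤ) * X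

/-- the singular series of `q, a 1 + d 1 q, …, a k + d k q` -/
noncomputable def serp {k : ℕ} (a : Fin k → ℤ) (d : Fin k → ℕ) : ℝ :=
  ∏' p : Nat.Primes, (1 - (omp (lin a d) p : ℝ) / (((p : ℕ) : ℝ) - 1)) / (1 - 1 / ((p : ℕ) : ℝ)) ^ k

/-- (43) the singular series and its partial products -/
def S_TLP : Prop := ∀ k : ℕ, ∃ H₀ : ℕ, ∀ H : ℕ, H₀ ≤ H → ∀ (a : Fin k → ℤ) (d : Fin k → ℕ),
  (∀ i, a i ≠ 0 ∧ |a i| ≤ H ∧ 1 ≤ d i ∧ d i ≤ H) → (∀ i j, i ≠ j → a i * d j ≠ a j * d i) →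
  (∀ p : ℕ, p.Prime → ∃ n : ℤ, ¬ (p : ℤ) ∣ n ∧ ∀ i, ¬ (p : ℤ) ∣ a i + d i * n) →
  ∀ z : ℕ, (Real.log H) ^ 3 ≤ z →
  0 < serp a d ∧ |sgp z (lin a d) - serp a d| ≤ serp a d * ((Real.log H) ^ 2 / z)

end Pool.Agent.helper24_UT
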