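import Pool.Agent.helper24_UT.Stm20
import Pool.Agent.helper24_UT.Stm8

/-!
# Project UT (helper24), part 21: few values of `F(n) + a` for almost all constant terms `a`. Statements.
-/

set_option autoImplicit false

namespace Pool.Agent.helper24_UT

open Finset Polynomial
open Pool.Agent.H373R2.T7 (lamI lamzI lamz Vz pz energy)

/-- the lengths `y` with `X^(θ + 1/e) ≤ y^d ≤ X` -/
def Yr (θ : ℝ) (e N d y : ℕ) : Prop := (N : ℝ) ^ (θ + 1 / e : ℝ) ≤ (y : ℝ) ^ d ∧ y ^ d ≤ N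

/-- the von Mangoldt function of `|v|` -/
noncomputable def lamA (v : ℤ) : ℝ := ArithmeticFunction.vonMangoldt v.natAbs

/-- the Liouville function of `|v|` -/
noncomputable def liB (v : ℤ) : ℝ := if v = 0 then 0 else (-1) ^ (ArithmeticFunction.cardFactors v.natAbs)

/-- the Moebius function of `|v|` -/
noncomputable def muB (v : ℤ) : ℝ := ((ArithmeticFunction.moebius v.natAbs : ℤ) : ℝ)

open Classical in
/-- (230) primes minus model at the values of `F(n) + a` with arbitrary weights, for almost all `a` and all `y` -/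
def S_DP (θ : ℝ) : Prop := ∀ F : ℤ[X], 1 ≤ F.natDegree → ∀ e A T : ℕ, 1 ≤ e → ∃ E₀ : ℕ, ∀ E₁ : ℕ, ∃ N₀ : ℕ, ∀ N : ℕ, N₀ ≤ N →
  ∀ z : ℕ, (Real.log N) ^ E₀ ≤ z → (z : ℝ) ≤ (Real.log N) ^ E₁ → ∀ u : ℕ → ℝ, (∀ n, n ≤ N → |u n| ≤ (Real.log N) ^ T) →
  ∀ σ : ℤ, (σ = 1 ∨ σ = -1) →
  (((Icc (-(N : ℤ)) N).filter (fun a => ∃ y : ℕ, Yr θ e N F.natDegree y ∧
    (y : ℝ) / (Real.log N) ^ A < |∑ n ∈ Icc 1 y, u n * Ed z (σ * (F.eval (n : ℤ) + a))|)).card : ℝ) ≤ N / (Real.log N) ^ A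

open Classical in
/-- (231) the same for the Liouville and the Moebius function -/
def S_DPL (θ : ℝ) : Prop := ∀ F : ℤ[X], 1 ≤ F.natDegree → ∀ e A T : ℕ, 1 ≤ e → ∃ N₀ : ℕ, ∀ N : ℕ, N₀ ≤ N →
  ∀ u : ℕ → ℝ, (∀ n, n ≤ N → |u n| ≤ (Real.log N) ^ T) → ∀ f : ℤ → ℝ, (f = liB ∨ f = muB) →
  (((Icc (-(N : ℤ)) N).filter (fun a => ∃ y : ℕ, Yr θ e N F.natDegree y ∧
    (y : ℝ) / (Real.log N) ^ A < |∑ n ∈ Icc 1 y, u n * f (F.eval (n : ℤ) + a)|)).card : ℝ) ≤ N / (Real.log N) ^ A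

open Classical in
/-- (232) products, for almost all vectors of constant terms -/
def S_DPT (θ : ℝ) : Prop := ∀ (r d : ℕ) (F : Fin r → ℤ[X]), 1 ≤ d → (∀ i, (F i).natDegree = d) → ∀ e A T : ℕ, 1 ≤ e →
  ∃ E₀ : ℕ, ∀ E₁ : ℕ, ∃ N₀ : ℕ, ∀ N : ℕ, N₀ ≤ N →
  ∀ z : ℕ, (Real.log N) ^ E₀ ≤ z → (z : ℝ) ≤ (Real.log N) ^ E₁ → ∀ u : ℕ → ℝ, (∀ n, n ≤ N → |u n| ≤ (Real.log N) ^ T) →
  (((Fintype.piFinset (fun _ : Fin r => Icc (-(N : ℤ)) N)).filter (fun a => ∃ y : ℕ, Yr θ e N d y ∧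
    (y : ℝ) / (Real.log N) ^ A < |∑ n ∈ Icc 1 y, u n * (∏ i, lamA ((F i).eval (n : ℤ) + a i) -
      ∏ i, lz z ((F i).eval (n : ℤ) + a i))|)).card : ℝ) ≤ (N : ℝ) ^ r / (Real.log N) ^ A

open Classical in
/-- the sum of `u n ∏ log |F_i(n) + a_i|` over the `n ≤ y` for which all `|F_i(n) + a_i|` are prime -/
noncomputable def thU {r : ℕ} (u : ℕ → ℝ) (F : Fin r → ℤ[X]) (a : Fin r → ℤ) (y : ℕ) : ℝ :=
  ∑ n ∈ (Icc 1 y).filter (fun n : ℕ => ∀ i, ((F i).eval (n : ℤ) + a i).natAbs.Prime),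
    u n * ∏ i, Real.log (((F i).eval (n : ℤ) + a i).natAbs : ℝ)

open Classical in
/-- (233) prime values with arbitrary weights and the sieve model, for almost all vectors of constant terms -/
def S_R25 (θ : ℝ) : Prop := ∀ (r d : ℕ) (F : Fin r → ℤ[X]), 1 ≤ d → (∀ i, (F i).natDegree = d) → ∀ e A T : ℕ, 1 ≤ e →
  ∃ E₀ : ℕ, ∀ E₁ : ℕ, ∃ N₀ : ℕ, ∀ N : ℕ, N₀ ≤ N →
  ∀ z : ℕ, (Real.log N) ^ E₀ ≤ z → (z : ℝ) ≤ (Real.log N) ^ E₁ → ∀ u : ℕ → ℝ, (∀ n, n ≤ N → |u n| ≤ (Real.log N) ^ T) →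
  (((Fintype.piFinset (fun _ : Fin r => Icc (-(N : ℤ)) N)).filter (fun a => ∃ y : ℕ, Yr θ e N d y ∧
    (y : ℝ) / (Real.log N) ^ A < |thU u F a y - ∑ n ∈ Icc 1 y, u n * ∏ i, lz z ((F i).eval (n : ℤ) + a i)|)).card : ℝ) ≤
    (N : ℝ) ^ r / (Real.log N) ^ A

open Classical in
/-- (234) simultaneous prime values and the Euler product, for almost all vectors of constant terms -/
def S_R26 (θ : ℝ) : Prop := ∀ (r d : ℕ) (F : Fin r → ℤ[X]), 1 ≤ d → (∀ i, (F i).natDegree = d) → ∀ e A : ℕ, 1 ≤ e →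
  ∃ E₀ : ℕ, ∀ E₁ : ℕ, ∃ N₀ : ℕ, ∀ N : ℕ, N₀ ≤ N →
  ∀ z : ℕ, (Real.log N) ^ E₀ ≤ z → (z : ℝ) ≤ (Real.log N) ^ E₁ →
  (((Fintype.piFinset (fun _ : Fin r => Icc (-(N : ℤ)) N)).filter (fun a => ∃ y : ℕ, Yr θ e N d y ∧
    (y : ℝ) / (Real.log N) ^ A < |thU (fun _ => 1) F a y - y * sg z (fun i => F i + C (a i))|)).card : ℝ) ≤
    (N : ℝ) ^ r / (Real.log N) ^ A

/-- `log n` if `n` is prime, `0` otherwise -/
noncomputable def lgP (n : ℕ) : ℝ := open Classical in if n.Prime then Real.log (n : ℝ) else 0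

open Classical in
/-- (235) simultaneous prime values at prime arguments, for almost all vectors of constant terms -/
def S_R27 (θ : ℝ) : Prop := ∀ (r d : ℕ) (F : Fin r → ℤ[X]), 1 ≤ d → (∀ i, (F i).natDegree = d) → ∀ e A : ℕ, 1 ≤ e →
  ∃ E₀ : ℕ, ∀ E₁ : ℕ, ∃ N₀ : ℕ, ∀ N : ℕ, N₀ ≤ N →
  ∀ z : ℕ, (Real.log N) ^ E₀ ≤ z → (z : ℝ) ≤ (Real.log N) ^ E₁ →
  (((Fintype.piFinset (fun _ : Fin r => Icc (-(N : ℤ)) N)).filter (fun a => ∃ y : ℕ, Yr θ e N d y ∧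
    (y : ℝ) / (Real.log N) ^ A < |thU lgP F a y - y * sgp z (fun i => F i + C (a i))|)).card : ℝ) ≤
    (N : ℝ) ^ r / (Real.log N) ^ A

end Pool.Agent.helper24_UT
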