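import Pool.Agent.helper24_UT.Stm21
import Pool.Agent.helper24_UT.Stm14

/-!
# Project UT (helper24), part 22: special short intervals; sums `2 n² + 2 n + 2` of two primes. Statements.
-/

set_option autoImplicit false

namespace Pool.Agent.helper24_UT

open Finset

/-- the windows `(u j, u j + K]`, `j = 1, ..., M`, begin in `[0, X]`, overlap little and are not few -/
def SpW (C X K M : ℕ) (u : ℕ → ℕ) : Prop := (∀ j ∈ Icc 1 M, u j ≤ X) ∧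
  (∀ x : ℕ, (((Icc 1 M).filter (fun j => x ≤ u j ∧ u j < x + K)).card : ℝ) ≤ (Real.log X) ^ C) ∧
  (X : ℝ) ≤ M * K * (Real.log X) ^ C

/-- the number of the primes `p ≤ y` with `p ≡ r (mod q)`, for `r < q` -/
def pcl (q r y : ℕ) : ℕ := ((Icc 1 y).filter (fun p => p.Prime ∧ p % q = r)).card

/-- the mean square over all reduced classes, all moduli, worst initial segments of the interval `(u, u + K]` -/
def Good28 (A B X K u : ℕ) : Prop := ∀ Q : ℕ, (Q : ℝ) ≤ K * Real.exp (-(B * Real.log (Real.log X) ^ 2)) →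
  ∀ y : ℕ → ℕ → ℕ, (∀ q r, y q r ≤ K) →
  ∑ q ∈ Icc 1 Q, ∑ r ∈ (range q).filter (fun r => r.Coprime q),
    (((pcl q r (u + y q r) : ℝ) - pcl q r u) -
      1 / (Nat.totient q : ℝ) * ∑ m ∈ Ioc u (u + y q r), 1 / Real.log (m : ℝ)) ^ 2 ≤ (K : ℝ) ^ 2 / (Real.log X) ^ A

open Classical in
/-- (240) primes in classes in almost all special short intervals -/
def S_R28 (θ : ℝ) : Prop := ∀ e A C : ℕ, 1 ≤ e → ∃ B X₀ : ℕ, ∀ X : ℕ, X₀ ≤ X → ∀ K : ℕ,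
  (X : ℝ) ^ (θ + 1 / e : ℝ) ≤ K → K ≤ X → ∀ (M : ℕ) (u : ℕ → ℕ), SpW C X K M u →
  (((Icc 1 M).filter (fun j => ¬ Good28 A B X K (u j))).card : ℝ) ≤ M / (Real.log X) ^ A

/-- the mean squares over all reduced classes to all moduli for the interval `(u, u + n]` of length `n` -/
def Good33 (A B N n u : ℕ) : Prop := ∀ Q : ℕ, (Q : ℝ) ≤ N * Real.exp (-(B * Real.log (Real.log N) ^ 2)) →
  ∀ y : ℕ → ℕ → ℕ, (∀ q r, y q r ≤ n) →
  ∑ q ∈ Icc 1 Q, ∑ r ∈ (range q).filter (fun r => r.Coprime q),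
    (((pcl q r (u + y q r) : ℝ) - pcl q r u) -
      1 / (Nat.totient q : ℝ) * ∑ m ∈ Ioc u (u + y q r), 1 / Real.log (m : ℝ)) ^ 2 ≤ (N : ℝ) ^ 2 / (Real.log N) ^ A

open Classical in
/-- (241) the intervals `(n² - n, n²]`, `(n², n² + n]` for almost all `n` -/
def S_OPP : Prop := ∀ A : ℕ, ∃ B N₀ : ℕ, ∀ N : ℕ, N₀ ≤ N →
  (((Icc 1 N).filter (fun n => ¬ (Good33 A B N n (n ^ 2 - n) ∧ Good33 A B N n (n ^ 2)))).card : ℝ) ≤ N / (Real.log N) ^ A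

open Classical in
/-- (242) sums `2 n² + 2 n + 2` of two primes for almost all `n` in short intervals -/
def S_R32 (θ : ℝ) : Prop := ∀ e A : ℕ, 1 ≤ e → ∃ B X₀ : ℕ, ∀ X : ℕ, X₀ ≤ X → ∀ m y : ℕ, 2 ≤ y → m ≤ y ^ 2 →
  (X : ℝ) ^ (θ + 1 / e : ℝ) ≤ (y : ℝ) * (m + y) → 2 * (m + y) ^ 2 + 2 * (m + y) + 2 ≤ X →
  (((Ioc m (m + y)).filter (fun n => ¬ Good7 A B X (2 * n ^ 2 + 2 * n + 2))).card : ℝ) ≤ y / (Real.log X) ^ A

open Classical in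
/-- (243) prime tuples `(p, p + h 1, ..., p + h k)`, `p` in almost all special short intervals, almost all `h` -/
def S_R30 (θ : ℝ) : Prop := ∀ k e A C : ℕ, 1 ≤ k → 1 ≤ e → ∃ B X₀ : ℕ, ∀ X : ℕ, X₀ ≤ X → ∀ K : ℕ,
  (X : ℝ) ^ (θ + 1 / e : ℝ) ≤ K → K ≤ X → ∀ (M : ℕ) (u : ℕ → ℕ), SpW C X K M u →
  (((Icc 1 M ×ˢ Fintype.piFinset (fun _ : Fin k => Icc 1 X)).filter
    (fun v => ¬ Good14 A B X K (u v.1) (Fin.cons 0 v.2 : Fin (k + 1) → ℕ))).card : ℝ) ≤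
    M * (X : ℝ) ^ k / (Real.log X) ^ A

end Pool.Agent.helper24_UT
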